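import Pool.Agent.Lib.GR.CMat

/-!
# Existence of the minimal counterexample; the induction
-/

set_option linter.unusedSectionVars false

namespace GR

open Filter Module

open scoped Matrix

variable {k : Type*} [Field k] [Infinite k] {V : Type*} [DecidableEq V]

/-- On at most four vertices there are no stresses. -/
theorem allGood_of_card_le {A : Finset V} (h : A.card ≤ 4) : AllGood k A := by
  filter_upwards [eventually_genPos (k := k) A] with p hp D hD ω hω
  have h0 : ω = 0 := by
    ext e
    by_contra hne
    have he : e ∈ D := by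
      by_contra hn
      exact hne (hω.1 e hn)
    have h1 := mem_Kf.mp (hD.1 he)
    induction e using Sym2.ind with
    | _ a b =>
      have ha : a ∈ A := h1.2 a (by simp)
      have hb : b ∈ A := h1.2 b (by simp)
      have hab : b ≠ a := by
        rintro rfl
        exact h1.1 (by simp)
      have hmem : b ∈ suppAt A ω a := mem_suppAt.mpr ⟨hab, hb, hne⟩
      rcases suppAt_card hD.mem_vert hp hω ha with h2 | h2
      · rw [h2] at hmem
        simp at hmem
      · have h3 := Finset.card_le_card (suppAt_subset_erase A ω a)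
        have h4 := Finset.card_erase_add_one ha
        omega
  rw [h0]
  exact Submodule.zero_mem _

/-- **Existence of the minimal counterexample** at a position with any prescribed generic
property. -/
theorem exists_badAt (h2 : (2 : k) ≠ 0) {A : Finset V} (hs : ∀ W ⊂ A, AllGood k W)
    (hA : ¬ AllGood k A) {Q : (V → Vec k) → Prop} (hQ : ∀ᶠ p in gen k (V → Vec k), Q p) :
    ∃ p, Q p ∧ ∃ H, BadAt A H p := by
  classical
  have h1 : ∃ᶠ p in gen k (V → Vec k), ∃ D : Finset (Sym2 V), IsFlatIn A D p ∧ ¬ Good D p := by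
    rw [Filter.Frequently]
    intro hc
    refine hA (hc.mono fun p hp D hD => ?_)
    by_contra hbad
    exact hp ⟨D, hD, hbad⟩
  have h3 := h1.and_eventually (hQ.and ((eventually_nice (k := k) A).and
    (eventually_smallGood hs)))
  obtain ⟨p, ⟨D, hD, hbad⟩, hQp, hnice, hsmall⟩ := h3.exists
  refine ⟨p, hQp, ?_⟩
  have h3A : 3 ≤ A.card := by
    by_contra hcon
    exact hA (allGood_of_card_le (by omega))
  have hfin : ((Kf A).powerset.filter fun D => IsFlatIn A D p ∧ ¬ Good D p).Nonempty :=
    ⟨D, by rw [Finset.mem_filter, Finset.mem_powerset]; exact ⟨hD.1, hD, hbad⟩⟩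
  obtain ⟨H, hH, hmax⟩ := Finset.exists_max_image _ Finset.card hfin
  rw [Finset.mem_filter, Finset.mem_powerset] at hH
  refine ⟨H, h2, hnice, h3A, hsmall, hH.2.1, hH.2.2, ?_⟩
  refine mdim_of_maximal_bad hnice h3A hsmall hH.2.1 hH.2.2 fun D' hD' hlt => ?_
  by_contra hbad'
  have h4 := hmax D' (by
    rw [Finset.mem_filter, Finset.mem_powerset]
    exact ⟨hD'.1, hD', hbad'⟩)
  have h5 := Finset.card_lt_card hlt
  omega

/-- **The induction.** -/
theorem allGood_induction (h2 : (2 : k) ≠ 0) (Q : Finset V → (V → Vec k) → Prop)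
    (hQ : ∀ A : Finset V, (∀ W ⊂ A, AllGood k W) → ∀ᶠ p in gen k (V → Vec k), Q A p)
    (hmain : ∀ A : Finset V, (∀ W ⊂ A, AllGood k W) → ∀ (p : V → Vec k) (H : Finset (Sym2 V)),
      BadAt A H p → Q A p → False) : ∀ A : Finset V, AllGood k A := by
  intro A
  induction A using Finset.strongInduction with
  | H A ih =>
    by_contra hA
    obtain ⟨p, hp, H, hH⟩ := exists_badAt h2 ih hA (hQ A ih)
    exact hmain A ih p H hH hp

end GR
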