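import Mathlib

/-!
# The discharging argument

Abstract form: a finite graph all of whose vertices have degree at least five; the vertices of
degree five are split into `PA` (pure type A) and `PB` (type B, with a body of three neighbours).
Under the local bounds the sum of the degrees is at least `6 n`.

Rules: a vertex of type B gets `1/3` from each of its three body vertices; a pure type A vertex
gets `1/4` from each neighbour of degree at least seven, or `1/3` if it has two neighbours of
degree six.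
-/

namespace GR

variable {V : Type*} [DecidableEq V]

/-- The local bounds used in the discharging argument; `nb v` is the set of neighbours of `v`. -/
structure DischargeHyp (A : Finset V) (nb : V → Finset V) (PA PB : Finset V)
    (bd : V → Finset V) : Prop where
  nb_sub : ∀ v ∈ A, nb v ⊆ A
  symm : ∀ v ∈ A, ∀ w ∈ nb v, v ∈ nb w
  five_le : ∀ v ∈ A, 5 ≤ (nb v).card
  cover : ∀ v ∈ A, (nb v).card = 5 → v ∈ PA ∨ v ∈ PB
  pa : ∀ v ∈ PA, v ∈ A ∧ (nb v).card = 5
  pb : ∀ v ∈ PB, v ∈ A ∧ (nb v).card = 5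
  disj : Disjoint PA PB
  body : ∀ u ∈ PB, bd u ⊆ nb u ∧ 3 ≤ (bd u).card
  /-- no neighbour of a pure type A vertex has degree five -/
  nonadj : ∀ v ∈ PA, ∀ w ∈ nb v, 6 ≤ (nb w).card
  /-- (B2) -/
  b2 : ∀ u ∈ PB, ∀ w ∈ bd u, 7 ≤ (nb w).card
  /-- (B3) -/
  b3 : ∀ w ∈ A, (nb w).card = 7 → (∃ u ∈ PB, w ∈ bd u) →
    (PB.filter (w ∈ bd ·)).card + (PA.filter (w ∈ nb ·)).card ≤ 3
  /-- (B4) -/
  b4 : ∀ w ∈ A, (nb w).card = 8 → (∃ u ∈ PB, w ∈ bd u) →
    (PB.filter (w ∈ bd ·)).card + (PA.filter (w ∈ nb ·)).card ≤ 6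
  /-- (M1) -/
  m1 : ∀ w ∈ A, (nb w).card = 7 → (PA.filter (w ∈ nb ·)).card ≤ 4
  /-- (A1) -/
  a1 : ∀ v ∈ PA, ((nb v).filter fun w => (nb w).card = 6).card ≤ 2
  /-- (A2) -/
  a2 : ∀ v ∈ PA, ((nb v).filter fun w => (nb w).card = 6).card = 2 → ∀ w ∈ nb v,
    (nb w).card ≠ 6 → 9 ≤ (nb w).card ∨ ((nb w).card = 8 ∧ (PA.filter (w ∈ nb ·)).card ≤ 4)

namespace DischargeHyp

variable {A : Finset V} {nb : V → Finset V} {PA PB : Finset V} {bd : V → Finset V}

/-- number of neighbours of degree six -/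
def k6 (nb : V → Finset V) (v : V) : ℕ := ((nb v).filter fun w => (nb w).card = 6).card

/-- twelve times the amount paid by `w` to `v` -/
def pay (nb : V → Finset V) (PA PB : Finset V) (bd : V → Finset V) (w v : V) : ℕ :=
  if v ∈ PB ∧ w ∈ bd v then 4
  else if v ∈ PA ∧ w ∈ nb v ∧ 7 ≤ (nb w).card then (if k6 nb v = 2 then 4 else 3) else 0

/-- number of type B vertices with `w` in the body -/
def nB (PB : Finset V) (bd : V → Finset V) (w : V) : ℕ := (PB.filter (w ∈ bd ·)).card

/-- number of pure type A vertices adjacent to `w` -/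
def nA (PA : Finset V) (nb : V → Finset V) (w : V) : ℕ := (PA.filter (w ∈ nb ·)).card

lemma nA_add_nB_le (H : DischargeHyp A nb PA PB bd) (w : V) :
    nB PB bd w + nA PA nb w ≤ (nb w).card := by
  have h1 : PB.filter (w ∈ bd ·) ∪ PA.filter (w ∈ nb ·) ⊆ nb w := by
    intro x hx
    rcases Finset.mem_union.mp hx with hx | hx
    · obtain ⟨hx1, hx2⟩ := Finset.mem_filter.mp hx
      exact H.symm x (H.pb x hx1).1 w ((H.body x hx1).1 hx2)
    · obtain ⟨hx1, hx2⟩ := Finset.mem_filter.mp hx
      exact H.symm x (H.pa x hx1).1 w hx2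
  have h2 : Disjoint (PB.filter (w ∈ bd ·)) (PA.filter (w ∈ nb ·)) :=
    Finset.disjoint_filter_filter H.disj.symm
  have h3 := Finset.card_le_card h1
  rwa [Finset.card_union_of_disjoint h2] at h3

/-- the total paid by `w` -/
lemma sum_pay_le (H : DischargeHyp A nb PA PB bd) (w : V) (c : ℕ)
    (hc : ∀ v ∈ PA, w ∈ nb v → 7 ≤ (nb w).card → (if k6 nb v = 2 then 4 else 3) ≤ c) :
    ∑ v ∈ A, pay nb PA PB bd w v ≤ 4 * nB PB bd w + c * nA PA nb w := by
  have h1 : ∀ v ∈ A, pay nb PA PB bd w v ≤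
      (if v ∈ PB.filter (w ∈ bd ·) then 4 else 0) + (if v ∈ PA.filter (w ∈ nb ·) then c else 0) := by
    intro v _
    unfold pay
    by_cases h1 : v ∈ PB ∧ w ∈ bd v
    · rw [if_pos h1, if_pos (Finset.mem_filter.mpr h1)]
      omega
    · rw [if_neg h1]
      by_cases h2 : v ∈ PA ∧ w ∈ nb v ∧ 7 ≤ (nb w).card
      · have := hc v h2.1 h2.2.1 h2.2.2
        rw [if_pos h2, if_pos (Finset.mem_filter.mpr ⟨h2.1, h2.2.1⟩)]
        omega
      · rw [if_neg h2]
        omega
  refine (Finset.sum_le_sum h1).trans ?_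
  rw [Finset.sum_add_distrib]
  refine Nat.add_le_add ?_ ?_
  · rw [← Finset.sum_filter, Finset.sum_const, smul_eq_mul, mul_comm]
    refine Nat.mul_le_mul_left 4 (Finset.card_le_card ?_)
    intro x hx
    exact (Finset.mem_filter.mp hx).2
  · rw [← Finset.sum_filter, Finset.sum_const, smul_eq_mul, mul_comm]
    refine Nat.mul_le_mul_left c (Finset.card_le_card ?_)
    intro x hx
    exact (Finset.mem_filter.mp hx).2

lemma nB_pos_iff {w : V} : 0 < nB PB bd w ↔ ∃ u ∈ PB, w ∈ bd u := by
  rw [nB, Finset.card_pos]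
  constructor
  · rintro ⟨u, hu⟩
    obtain ⟨h1, h2⟩ := Finset.mem_filter.mp hu
    exact ⟨u, h1, h2⟩
  · rintro ⟨u, h1, h2⟩
    exact ⟨u, Finset.mem_filter.mpr ⟨h1, h2⟩⟩

/-- no vertex pays more than its charge -/
lemma out_le (H : DischargeHyp A nb PA PB bd) {w : V} (hw : w ∈ A) (h6 : 6 ≤ (nb w).card) :
    ∑ v ∈ A, pay nb PA PB bd w v + 72 ≤ 12 * (nb w).card := by
  have hle := H.nA_add_nB_le w
  have hc4 := H.sum_pay_le w 4 (fun v _ _ _ => by split_ifs <;> omega)
  by_cases h9 : 9 ≤ (nb w).card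
  · omega
  by_cases h8 : (nb w).card = 8
  · by_cases hb : 0 < nB PB bd w
    · have := H.b4 w hw h8 (nB_pos_iff.mp hb)
      change nB PB bd w + nA PA nb w ≤ 6 at this
      omega
    · -- no body
      by_cases ht : ∃ v ∈ PA, w ∈ nb v ∧ k6 nb v = 2
      · obtain ⟨v, hv, hwv, hk⟩ := ht
        have := H.a2 v hv hk w hwv (by omega)
        have h4 : nA PA nb w ≤ 4 := by
          rcases this with h | h
          · omega
          · exact h.2
        omega
      · push Not at ht
        have h3 := H.sum_pay_le w 3 (fun v hv hwv _ => by rw [if_neg (ht v hv hwv)])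
        omega
  by_cases h7 : (nb w).card = 7
  · have h3 := H.sum_pay_le w 3 (fun v hv hwv _ => by
      rw [if_neg]
      intro hk
      have := H.a2 v hv hk w hwv (by omega)
      omega)
    by_cases hb : 0 < nB PB bd w
    · have := H.b3 w hw h7 (nB_pos_iff.mp hb)
      change nB PB bd w + nA PA nb w ≤ 3 at this
      omega
    · have := H.m1 w hw h7
      change nA PA nb w ≤ 4 at this
      omega
  · -- degree six: nothing is paid
    have h0 : ∀ v ∈ A, pay nb PA PB bd w v = 0 := by
      intro v _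
      unfold pay
      rw [if_neg, if_neg]
      · rintro ⟨_, _, h⟩
        omega
      · rintro ⟨h1, h2⟩
        have := H.b2 v h1 w h2
        omega
    rw [Finset.sum_eq_zero h0]
    omega

/-- vertices of degree five pay nothing -/
lemma out_five (H : DischargeHyp A nb PA PB bd) {w : V} (h5 : (nb w).card = 5) :
    ∑ v ∈ A, pay nb PA PB bd w v = 0 := by
  refine Finset.sum_eq_zero fun v _ => ?_
  unfold pay
  rw [if_neg, if_neg]
  · rintro ⟨_, _, h⟩
    omega
  · rintro ⟨h1, h2⟩
    have := H.b2 v h1 w h2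
    omega

/-- vertices of degree five receive one -/
lemma in_five (H : DischargeHyp A nb PA PB bd) {v : V} (hv : v ∈ A) (h5 : (nb v).card = 5) :
    12 ≤ ∑ w ∈ A, pay nb PA PB bd w v := by
  rcases H.cover v hv h5 with hPA | hPB
  · have hnPB : v ∉ PB := Finset.disjoint_left.mp H.disj hPA
    have hk := H.a1 v hPA
    change k6 nb v ≤ 2 at hk
    -- the payers
    let S := (nb v).filter fun w => ¬ (nb w).card = 6
    have hS : S.card + k6 nb v = 5 := by
      rw [← h5, k6, add_comm]
      exact Finset.card_filter_add_card_filter_not (s := nb v) (fun w => (nb w).card = 6)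
    have hSA : S ⊆ A := (Finset.filter_subset _ _).trans (H.nb_sub v hv)
    have hpay : ∀ w ∈ S, pay nb PA PB bd w v = if k6 nb v = 2 then 4 else 3 := by
      intro w hw
      obtain ⟨hw1, hw2⟩ := Finset.mem_filter.mp hw
      have h6 := H.nonadj v hPA w hw1
      unfold pay
      rw [if_neg (fun h => hnPB h.1), if_pos ⟨hPA, hw1, by omega⟩]
    refine le_trans ?_ (Finset.sum_le_sum_of_subset hSA)
    rw [Finset.sum_congr rfl hpay, Finset.sum_const, smul_eq_mul]
    by_cases hk2 : k6 nb v = 2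
    · rw [if_pos hk2]
      omega
    · rw [if_neg hk2]
      omega
  · obtain ⟨hb1, hb2⟩ := H.body v hPB
    have hpay : ∀ w ∈ bd v, pay nb PA PB bd w v = 4 := by
      intro w hw
      unfold pay
      rw [if_pos ⟨hPB, hw⟩]
    refine le_trans ?_ (Finset.sum_le_sum_of_subset (hb1.trans (H.nb_sub v hv)))
    rw [Finset.sum_congr rfl hpay, Finset.sum_const, smul_eq_mul]
    omega

/-- **The discharging argument**: the average degree is at least six. -/
theorem six_mul_le (H : DischargeHyp A nb PA PB bd) : 6 * A.card ≤ ∑ v ∈ A, (nb v).card := by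
  have h1 : ∀ v ∈ A, 72 + ∑ x ∈ A, pay nb PA PB bd v x ≤
      12 * (nb v).card + ∑ w ∈ A, pay nb PA PB bd w v := by
    intro v hv
    by_cases h5 : (nb v).card = 5
    · rw [H.out_five h5]
      have := H.in_five hv h5
      omega
    · have h6 : 6 ≤ (nb v).card := by
        have := H.five_le v hv
        omega
      have := H.out_le hv h6
      omega
  have h2 := Finset.sum_le_sum h1
  rw [Finset.sum_add_distrib, Finset.sum_add_distrib, Finset.sum_const, smul_eq_mul,
    Finset.sum_comm (f := fun v x => pay nb PA PB bd v x), ← Finset.mul_sum] at h2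
  omega

end DischargeHyp

end GR
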