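import Pool.Agent.Lib.GR.TypeConst
import Pool.Agent.Lib.GR.BadExists
import Pool.Agent.Lib.GR.Discharge

/-!
# Assembly: the local bounds imply that all flats are good

`StmtADJ`, `StmtM1`, `StmtA1`, `StmtA2`, `StmtB2`, `StmtB3` are the local bounds; the bound for
degree eight vertices in a body is proved here (`card_le_six`).  The theorem
`allGood_of_local` deduces `AllGood k A` for all `A`.
-/

set_option linter.unusedSectionVars false

namespace GR

open Filter Module

open scoped Matrix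

/-- `u` is a vertex of degree five of type A which is not of type B. -/
structure PureA (k : Type*) [Field k] [Infinite k] {V : Type*} [DecidableEq V] (A : Finset V)
    (E : Finset (Sym2 V)) (u : V) : Prop where
  typ : TypA k A E u
  not_b : ∀ a b c d e, ¬ TypB k A E u a b c d e

section Statements

variable (k : Type*) [Field k] [Infinite k] (V : Type*) [DecidableEq V]

/-- a pure type A vertex has no neighbour of degree five -/
def StmtADJ : Prop := ∀ (A : Finset V) (E : Finset (Sym2 V)), MinCE k A E →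
  ∀ u v, PureA k A E u → s(u, v) ∈ E → dg A E v ≠ 5

/-- (M1) a vertex of degree seven has at most four neighbours of pure type A -/
def StmtM1 : Prop := ∀ (A : Finset V) (E : Finset (Sym2 V)), MinCE k A E →
  ∀ w ∈ A, dg A E w = 7 → ∀ S : Finset V, (∀ v ∈ S, PureA k A E v ∧ s(w, v) ∈ E) → S.card ≤ 4

/-- (A1) a pure type A vertex has at most two neighbours of degree six -/
def StmtA1 : Prop := ∀ (A : Finset V) (E : Finset (Sym2 V)), MinCE k A E →
  ∀ v, PureA k A E v → ∀ S : Finset V, (∀ w ∈ S, s(v, w) ∈ E ∧ dg A E w = 6) → S.card ≤ 2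

/-- (A2) if a pure type A vertex has two neighbours of degree six, then the others have degree at
least nine, or degree eight with at most four neighbours of pure type A -/
def StmtA2 : Prop := ∀ (A : Finset V) (E : Finset (Sym2 V)), MinCE k A E →
  ∀ v, PureA k A E v → ∀ i j, i ≠ j → s(v, i) ∈ E → s(v, j) ∈ E → dg A E i = 6 →
    dg A E j = 6 → ∀ t, s(v, t) ∈ E → dg A E t ≠ 6 →
      9 ≤ dg A E t ∨ (dg A E t = 8 ∧
        ∀ S : Finset V, (∀ x ∈ S, PureA k A E x ∧ s(t, x) ∈ E) → S.card ≤ 4)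

/-- (B2) the body vertices of a type B vertex have degree at least seven -/
def StmtB2 : Prop := ∀ A : Finset V, (∀ W ⊂ A, AllGood k W) →
  ∀ᶠ p in gen k (V → Vec k), ∀ H E : Finset (Sym2 V), BadAt A H p → CBasis A H E p →
    ∀ u a b c d e, TypB k A E u a b c d e → 7 ≤ dg A E a

/-- (B3) a body vertex of degree seven has at most three neighbours which are of pure type A or
of type B with the vertex in the body -/
def StmtB3 : Prop := ∀ A : Finset V, (∀ W ⊂ A, AllGood k W) →
  ∀ᶠ p in gen k (V → Vec k), ∀ H E : Finset (Sym2 V), BadAt A H p → CBasis A H E p →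
    ∀ u a b c d e, TypB k A E u a b c d e → dg A E a = 7 →
      ∀ S : Finset V, (∀ v ∈ S, s(a, v) ∈ E ∧
        (PureA k A E v ∨ ∃ b' c' d' e', TypB k A E v a b' c' d' e')) → S.card ≤ 3

end Statements

variable {k : Type*} [Field k] [Infinite k] {V : Type*} [DecidableEq V]

section TypB

variable {A : Finset V} {E : Finset (Sym2 V)}

lemma Lab.swap_ab {N : Finset V} {a b c d e : V} (h : Lab N a b c d e) : Lab N b a c d e where
  eq := by rw [h.eq]; ext x; simp only [Finset.mem_insert, Finset.mem_singleton]; tauto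
  ab := h.ab.symm
  ac := h.bc
  ad := h.bd
  ae := h.be
  bc := h.ac
  bd := h.ad
  be := h.ae
  cd := h.cd
  ce := h.ce
  de := h.de

lemma Lab.swap_ac {N : Finset V} {a b c d e : V} (h : Lab N a b c d e) : Lab N c b a d e where
  eq := by rw [h.eq]; ext x; simp only [Finset.mem_insert, Finset.mem_singleton]; tauto
  ab := h.bc.symm
  ac := h.ac.symm
  ad := h.cd
  ae := h.ce
  bc := h.ab.symm
  bd := h.bd
  be := h.be
  cd := h.ad
  ce := h.ae
  de := h.de

lemma TypB.relabel {u a b c d e a' b' c' d' e' : V} (h : TypB k A E u a b c d e)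
    (hL : Lab (nbr (A.erase u) (E : Set (Sym2 V)) u) a' b' c' d' e')
    (hde : (d = d' ∧ e = e') ∨ (d = e' ∧ e = d')) : TypB k A E u a' b' c' d' e' where
  mem := h.mem
  lab := hL
  typ := fun p hp => by
    obtain ⟨t, ht, hle⟩ := h.typ p hp
    obtain ⟨t', ht', hle'⟩ := TB_relabel (p := p) hL h.lab ht hde
    exact ⟨t', ht', hle.trans hle'⟩

lemma TypB.swap_ab {u a b c d e : V} (h : TypB k A E u a b c d e) : TypB k A E u b a c d e :=
  h.relabel h.lab.swap_ab (Or.inl ⟨rfl, rfl⟩)

lemma TypB.swap_ac {u a b c d e : V} (h : TypB k A E u a b c d e) : TypB k A E u c b a d e :=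
  h.relabel h.lab.swap_ac (Or.inl ⟨rfl, rfl⟩)

lemma TypB.deg {u a b c d e : V} (h : TypB k A E u a b c d e) : dg A E u = 5 := h.lab.card

lemma TypB.mem_nbr {u a b c d e x : V} (h : TypB k A E u a b c d e)
    (hx : x = a ∨ x = b ∨ x = c ∨ x = d ∨ x = e) : x ∈ nbr (A.erase u) (E : Set (Sym2 V)) u := by
  rw [h.lab.eq]
  simpa using hx

end TypB

section B4

variable {A : Finset V} {H E : Finset (Sym2 V)} {p : V → Vec k}

/-- In a basis, the fundamental element of `e` has no edges at vertices of degree five. -/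
lemma fund_eq_zero (h : BadAt A H p) (hE : CBasis A H E p) {e : Sym2 V} {σ : Sym2 V → k}
    (hex : ∀ f ∈ E, σ f ≠ 0 → CBasis A H (insert e (E.erase f)) p) {v x : V} (hv : v ∈ A)
    (h5 : dg A E v = 5) (hve : v ∉ e) (hf : s(x, v) ∈ E) : σ s(x, v) = 0 := by
  by_contra hne
  have h1 := (hex _ hf hne).five_le h hv
  have hxv : x ≠ v := by
    rintro rfl
    exact (mem_Kf.mp (hE.sub_Kf h hf)).1 (by simp)
  have hxA : x ∈ A := (mem_Kf.mp (hE.sub_Kf h hf)).2 x (by simp)
  have h2 : nbr (A.erase v) ((insert e (E.erase s(x, v)) : Finset (Sym2 V)) : Set (Sym2 V)) v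
      ⊆ (nbr (A.erase v) (E : Set (Sym2 V)) v).erase x := by
    intro w hw
    rw [GR.mem_nbr] at hw
    obtain ⟨hw1, hw2⟩ := hw
    rw [Finset.mem_coe, Finset.mem_insert, Finset.mem_erase] at hw2
    rw [Finset.mem_erase, GR.mem_nbr]
    rcases hw2 with hw2 | ⟨hw2, hw3⟩
    · exact absurd (by rw [← hw2]; simp) hve
    · refine ⟨?_, hw1, by exact_mod_cast hw3⟩
      rintro rfl
      exact hw2 Sym2.eq_swap
  have h3 : x ∈ nbr (A.erase v) (E : Set (Sym2 V)) v := by
    rw [GR.mem_nbr, Finset.mem_erase]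
    exact ⟨⟨hxv, hxA⟩, by rw [Sym2.eq_swap]; exact_mod_cast hf⟩
  have h4 := Finset.card_le_card h2
  rw [Finset.card_erase_of_mem h3] at h4
  unfold dg at h5
  omega

/-- (B4) a body vertex of degree eight has at most six neighbours of degree five. -/
theorem card_le_six (h : BadAt A H p) (hE : CBasis A H E p)
    {u a b c d e : V} (hu : TypB k A E u a b c d e)
    (hb : dg A E b ≠ 5) (hc : dg A E c ≠ 5) {S : Finset V}
    (hS : ∀ v ∈ S, s(a, v) ∈ E ∧ dg A E v = 5) : S.card + 2 ≤ dg A E a := by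
  classical
  have haN := hu.mem_nbr (x := a) (by simp)
  have hbN := hu.mem_nbr (x := b) (by simp)
  have hcN := hu.mem_nbr (x := c) (by simp)
  have haA : a ∈ A := Finset.mem_of_mem_erase (nbr_subset _ _ _ haN)
  have hbA : b ∈ A := Finset.mem_of_mem_erase (nbr_subset _ _ _ hbN)
  have hcA : c ∈ A := Finset.mem_of_mem_erase (nbr_subset _ _ _ hcN)
  have hSsub : S ⊆ nbr (A.erase a) (E : Set (Sym2 V)) a := by
    intro v hv
    obtain ⟨h1, _⟩ := hS v hv
    have h2 := mem_Kf.mp (hE.sub_Kf h h1)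
    rw [GR.mem_nbr, Finset.mem_erase]
    refine ⟨⟨?_, h2.2 v (by simp)⟩, by exact_mod_cast h1⟩
    rintro rfl
    exact h2.1 (by simp)
  -- the pairs of the body are in `H`
  have hK : Kf ({a, b, c} : Finset V) ⊆ H := by
    obtain ⟨t, _, hle⟩ := hu.typ p h.nice
    have hsub : ({a, b, c} : Finset V) ⊆ A.erase u := by
      intro x hx
      simp only [Finset.mem_insert, Finset.mem_singleton] at hx
      rcases hx with rfl | rfl | rfl
      exacts [nbr_subset _ _ _ haN, nbr_subset _ _ _ hbN, nbr_subset _ _ _ hcN]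
    refine h.flat.Kf_subset_of_RG (hsub.trans (Finset.erase_subset u A)) ?_
    rw [← hE.Mot_eq h]
    refine Mot_le_RG_of_erase hsub fun Z hZ => ?_
    obtain ⟨T, hT, g, _, _, h3, h4, h5, _, _⟩ := hle hZ
    refine ⟨T, hT, fun i hi => ?_⟩
    simp only [Finset.coe_insert, Finset.coe_singleton, Set.mem_insert_iff,
      Set.mem_singleton_iff] at hi
    rcases hi with rfl | rfl | rfl
    exacts [h3, h4, h5]
  have hab : s(a, b) ∈ H := hK (mk_mem_Kf.mpr ⟨hu.lab.ab, by simp, by simp⟩)
  have hac : s(a, c) ∈ H := hK (mk_mem_Kf.mpr ⟨hu.lab.ac, by simp, by simp⟩)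
  -- a missing body edge gives three further neighbours
  have hmiss : ∀ x ∈ A, s(a, x) ∈ H → s(a, x) ∉ E → dg A E x ≠ 5 →
      S.card + 3 ≤ dg A E a := by
    intro x hx hxH hxE hx5
    obtain ⟨σ, hσ, h1, h2, h3⟩ := hE.exchange h hxH hxE
    have hst := S5_le_Stress H p hσ
    have hax : a ≠ x := by
      rintro rfl
      exact (mem_Kf.mp (h.flat.1 hxH)).1 (by simp)
    have h4 := suppAt_card (fun e he => (mem_Kf.mp (h.flat.1 he)).2) h.nice.gp hst haA
    have h5 : x ∈ suppAt A σ a := by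
      rw [mem_suppAt]
      exact ⟨hax.symm, hx, by rw [h1]; exact one_ne_zero⟩
    have h6 : 4 ≤ (suppAt A σ a).card := by
      rcases h4 with h4 | h4
      · rw [h4] at h5
        simp at h5
      · exact h4
    have h7 : (suppAt A σ a).erase x ⊆ (nbr (A.erase a) (E : Set (Sym2 V)) a) \ S := by
      intro w hw
      obtain ⟨hw1, hw2⟩ := Finset.mem_erase.mp hw
      obtain ⟨hw3, hw4, hw5⟩ := mem_suppAt.mp hw2
      have hwE : s(a, w) ∈ E := by
        by_contra hn
        refine hw5 (h2 _ ?_)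
        rw [Finset.mem_insert, not_or]
        refine ⟨fun hc => hw1 ?_, hn⟩
        exact Sym2.congr_right.mp hc
      rw [Finset.mem_sdiff, GR.mem_nbr, Finset.mem_erase]
      refine ⟨⟨⟨hw3, hw4⟩, by exact_mod_cast hwE⟩, fun hwS => hw5 ?_⟩
      refine fund_eq_zero h hE h3 hw4 (hS w hwS).2 ?_ hwE
      rw [Sym2.mem_iff, not_or]
      exact ⟨hw3, hw1⟩
    have h8 := Finset.card_le_card h7
    rw [Finset.card_erase_of_mem h5, Finset.card_sdiff_of_subset hSsub] at h8
    have h9 := Finset.card_le_card hSsub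
    unfold dg
    omega
  by_cases hab' : s(a, b) ∈ E
  · by_cases hac' : s(a, c) ∈ E
    · have h1 : S ⊆ ((nbr (A.erase a) (E : Set (Sym2 V)) a).erase b).erase c := by
        intro v hv
        rw [Finset.mem_erase, Finset.mem_erase]
        refine ⟨?_, ?_, hSsub hv⟩
        · rintro rfl
          exact hc (hS _ hv).2
        · rintro rfl
          exact hb (hS _ hv).2
      have h2 := Finset.card_le_card h1
      have h3 : b ∈ nbr (A.erase a) (E : Set (Sym2 V)) a := by
        rw [GR.mem_nbr, Finset.mem_erase]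
        exact ⟨⟨hu.lab.ab.symm, hbA⟩, by exact_mod_cast hab'⟩
      have h4 : c ∈ (nbr (A.erase a) (E : Set (Sym2 V)) a).erase b := by
        rw [Finset.mem_erase, GR.mem_nbr, Finset.mem_erase]
        exact ⟨hu.lab.bc.symm, ⟨hu.lab.ac.symm, hcA⟩, by exact_mod_cast hac'⟩
      rw [Finset.card_erase_of_mem h4, Finset.card_erase_of_mem h3] at h2
      have h5 := Finset.card_pos.mpr ⟨c, h4⟩
      rw [Finset.card_erase_of_mem h3] at h5
      unfold dg
      omega
    · have := hmiss c hcA hac hac' hc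
      omega
  · have := hmiss b hbA hab hab' hb
    omega

end B4

section Main

variable {A : Finset V} {H E : Finset (Sym2 V)} {p : V → Vec k}

open Classical in
/-- a body of a type B vertex -/
noncomputable def bodyOf (k : Type*) [Field k] [Infinite k] {V : Type*} [DecidableEq V]
    (A : Finset V) (E : Finset (Sym2 V)) (u : V) : Finset V :=
  if h : ∃ x : V × V × V × V × V, TypB k A E u x.1 x.2.1 x.2.2.1 x.2.2.2.1 x.2.2.2.2 then
    {h.choose.1, h.choose.2.1, h.choose.2.2.1} else ∅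

lemma bodyOf_spec {u a b c d e : V} (h : TypB k A E u a b c d e) :
    ∃ a' b' c' d' e', TypB k A E u a' b' c' d' e' ∧ bodyOf k A E u = {a', b', c'} := by
  have hex : ∃ x : V × V × V × V × V, TypB k A E u x.1 x.2.1 x.2.2.1 x.2.2.2.1 x.2.2.2.2 :=
    ⟨(a, b, c, d, e), h⟩
  refine ⟨_, _, _, _, _, hex.choose_spec, ?_⟩
  unfold bodyOf
  rw [dif_pos hex]

/-- a body vertex can be put in the first place -/
lemma exists_first {u a b c d e w : V} (h : TypB k A E u a b c d e) (hw : w ∈ bodyOf k A E u) :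
    ∃ b' c' d' e', TypB k A E u w b' c' d' e' := by
  obtain ⟨a', b', c', d', e', h', heq⟩ := bodyOf_spec h
  rw [heq] at hw
  simp only [Finset.mem_insert, Finset.mem_singleton] at hw
  rcases hw with rfl | rfl | rfl
  · exact ⟨_, _, _, _, h'⟩
  · exact ⟨_, _, _, _, h'.swap_ab⟩
  · exact ⟨_, _, _, _, h'.swap_ac⟩

open Classical in
/-- the local bounds give the hypotheses of the discharging argument -/
theorem dischargeHyp (h : BadAt A H p) (hs : ∀ W ⊂ A, AllGood k W) (hE : CBasis A H E p)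
    (hadj : StmtADJ k V) (hm1 : StmtM1 k V) (ha1 : StmtA1 k V) (ha2 : StmtA2 k V)
    (hb2 : ∀ u a b c d e, TypB k A E u a b c d e → 7 ≤ dg A E a)
    (hb3 : ∀ u a b c d e, TypB k A E u a b c d e → dg A E a = 7 →
      ∀ S : Finset V, (∀ v ∈ S, s(a, v) ∈ E ∧
        (PureA k A E v ∨ ∃ b' c' d' e', TypB k A E v a b' c' d' e')) → S.card ≤ 3) :
    DischargeHyp A (fun v => nbr (A.erase v) (E : Set (Sym2 V)) v)
      (A.filter (PureA k A E)) (A.filter fun u => ∃ a b c d e, TypB k A E u a b c d e)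
      (bodyOf k A E) := by
  have hM : MinCE k A E := hE.minCE h hs
  have hmem : ∀ v w, w ∈ nbr (A.erase v) (E : Set (Sym2 V)) v ↔ s(v, w) ∈ E ∧ w ∈ A := by
    intro v w
    rw [GR.mem_nbr, Finset.mem_erase]
    constructor
    · rintro ⟨⟨_, h1⟩, h2⟩
      exact ⟨by exact_mod_cast h2, h1⟩
    · rintro ⟨h1, h2⟩
      refine ⟨⟨?_, h2⟩, by exact_mod_cast h1⟩
      rintro rfl
      exact (mem_Kf.mp (hE.sub_Kf h h1)).1 (by simp)
  have hnb : ∀ v w, s(v, w) ∈ E → v ∈ A ∧ w ∈ A := fun v w hvw =>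
    ⟨(mem_Kf.mp (hE.sub_Kf h hvw)).2 v (by simp), (mem_Kf.mp (hE.sub_Kf h hvw)).2 w (by simp)⟩
  have hbody : ∀ u ∈ A.filter (fun u => ∃ a b c d e, TypB k A E u a b c d e),
      ∀ w ∈ bodyOf k A E u, ∃ b' c' d' e', TypB k A E u w b' c' d' e' := by
    intro u hu w hw
    obtain ⟨_, a, b, c, d, e, h1⟩ := Finset.mem_filter.mp hu
    exact exists_first h1 hw
  have hbN : ∀ u ∈ A.filter (fun u => ∃ a b c d e, TypB k A E u a b c d e),
      ∀ w ∈ bodyOf k A E u, s(w, u) ∈ E := by
    intro u hu w hw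
    obtain ⟨b', c', d', e', h1⟩ := hbody u hu w hw
    have h2 := (hmem u w).mp (h1.mem_nbr (by simp))
    rw [Sym2.eq_swap]
    exact h2.1
  refine
    { nb_sub := fun v _ => (nbr_subset _ _ _).trans (Finset.erase_subset v A)
      symm := fun v hv w hw => ?_
      five_le := fun v hv => hE.five_le h hv
      cover := fun v hv h5 => ?_
      pa := fun v hv => ?_
      pb := fun v hv => ?_
      disj := ?_
      body := fun u hu => ?_
      nonadj := fun v hv w hw => ?_
      b2 := fun u hu w hw => ?_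
      b3 := fun w hw h7 hex => ?_
      b4 := fun w hw h8 hex => ?_
      m1 := fun w hw h7 => ?_
      a1 := fun v hv => ?_
      a2 := fun v hv hk w hw h6 => ?_ }
  · rw [hmem] at hw ⊢
    rw [Sym2.eq_swap]
    exact ⟨hw.1, hv⟩
  · rcases hM.types_const hv h5 with h1 | h1
    · by_cases h2 : ∃ a b c d e, TypB k A E v a b c d e
      · exact Or.inr (Finset.mem_filter.mpr ⟨hv, h2⟩)
      · refine Or.inl (Finset.mem_filter.mpr ⟨hv, h1, fun a b c d e hB => h2 ⟨a, b, c, d, e, hB⟩⟩)
    · exact Or.inr (Finset.mem_filter.mpr ⟨hv, h1⟩)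
  · obtain ⟨h1, h2⟩ := Finset.mem_filter.mp hv
    exact ⟨h1, h2.typ.deg⟩
  · obtain ⟨h1, a, b, c, d, e, h2⟩ := Finset.mem_filter.mp hv
    exact ⟨h1, h2.deg⟩
  · rw [Finset.disjoint_filter]
    rintro v _ h1 ⟨a, b, c, d, e, h2⟩
    exact h1.not_b _ _ _ _ _ h2
  · obtain ⟨_, a, b, c, d, e, h1⟩ := Finset.mem_filter.mp hu
    refine ⟨fun w hw => ?_, ?_⟩
    · obtain ⟨b', c', d', e', h2⟩ := exists_first h1 hw
      exact h2.mem_nbr (by simp)
    · obtain ⟨a', b', c', d', e', h2, h3⟩ := bodyOf_spec h1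
      rw [h3, Finset.card_insert_of_notMem (by simp [h2.lab.ab, h2.lab.ac]),
        Finset.card_pair h2.lab.bc]
  · obtain ⟨_, h1⟩ := Finset.mem_filter.mp hv
    have h2 := (hmem v w).mp hw
    have h3 := hadj A E hM v w h1 h2.1
    have h4 := hE.five_le h h2.2
    unfold dg at h3
    omega
  · obtain ⟨b', c', d', e', h1⟩ := hbody u hu w hw
    exact hb2 _ _ _ _ _ _ h1
  · obtain ⟨u, hu, hwu⟩ := hex
    obtain ⟨b', c', d', e', h1⟩ := hbody u hu w hwu
    have h2 := hb3 u w b' c' d' e' h1 h7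
      ((A.filter fun u => ∃ a b c d e, TypB k A E u a b c d e).filter (w ∈ bodyOf k A E ·) ∪
        (A.filter (PureA k A E)).filter fun v => w ∈ nbr (A.erase v) (E : Set (Sym2 V)) v) ?_
    · rwa [Finset.card_union_of_disjoint] at h2
      refine Finset.disjoint_filter_filter ?_
      rw [Finset.disjoint_filter]
      rintro v _ ⟨a, b, c, d, e, h2⟩ h1
      exact h1.not_b _ _ _ _ _ h2
    · intro v hv
      rcases Finset.mem_union.mp hv with hv | hv
      · obtain ⟨h3, h4⟩ := Finset.mem_filter.mp hv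
        exact ⟨hbN v h3 w h4, Or.inr (hbody v h3 w h4)⟩
      · obtain ⟨h3, h4⟩ := Finset.mem_filter.mp hv
        rw [hmem] at h4
        rw [Sym2.eq_swap]
        exact ⟨h4.1, Or.inl (Finset.mem_filter.mp h3).2⟩
  · obtain ⟨u, hu, hwu⟩ := hex
    obtain ⟨b', c', d', e', h1⟩ := hbody u hu w hwu
    have hb5 := hb2 _ _ _ _ _ _ h1.swap_ab
    have hc5 := hb2 _ _ _ _ _ _ h1.swap_ac
    have h2 := card_le_six h hE h1 (by omega) (by omega) (S :=
      ((A.filter fun u => ∃ a b c d e, TypB k A E u a b c d e).filter (w ∈ bodyOf k A E ·) ∪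
        (A.filter (PureA k A E)).filter fun v => w ∈ nbr (A.erase v) (E : Set (Sym2 V)) v)) ?_
    · have h8' : dg A E w = 8 := h8
      rw [Finset.card_union_of_disjoint] at h2
      · omega
      refine Finset.disjoint_filter_filter ?_
      rw [Finset.disjoint_filter]
      rintro v _ ⟨a, b, c, d, e, h2⟩ h1
      exact h1.not_b _ _ _ _ _ h2
    · intro v hv
      rcases Finset.mem_union.mp hv with hv | hv
      · obtain ⟨h3, h4⟩ := Finset.mem_filter.mp hv
        obtain ⟨_, a, b, c, d, e, h5⟩ := Finset.mem_filter.mp h3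
        exact ⟨hbN v h3 w h4, h5.deg⟩
      · obtain ⟨h3, h4⟩ := Finset.mem_filter.mp hv
        rw [hmem] at h4
        rw [Sym2.eq_swap]
        exact ⟨h4.1, (Finset.mem_filter.mp h3).2.typ.deg⟩
  · refine hm1 A E hM w hw h7 _ fun v hv => ?_
    obtain ⟨h3, h4⟩ := Finset.mem_filter.mp hv
    rw [hmem] at h4
    rw [Sym2.eq_swap]
    exact ⟨(Finset.mem_filter.mp h3).2, h4.1⟩
  · refine ha1 A E hM v (Finset.mem_filter.mp hv).2 _ fun w hw => ?_
    obtain ⟨h3, h4⟩ := Finset.mem_filter.mp hw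
    exact ⟨((hmem v w).mp h3).1, h4⟩
  · obtain ⟨i, j, hij, hset⟩ := Finset.card_eq_two.mp hk
    have hi : i ∈ ({i, j} : Finset V) := by simp
    have hj : j ∈ ({i, j} : Finset V) := by simp
    rw [← hset] at hi hj
    obtain ⟨hi1, hi2⟩ := Finset.mem_filter.mp hi
    obtain ⟨hj1, hj2⟩ := Finset.mem_filter.mp hj
    rcases ha2 A E hM v (Finset.mem_filter.mp hv).2 i j hij ((hmem v i).mp hi1).1
      ((hmem v j).mp hj1).1 hi2 hj2 w ((hmem v w).mp hw).1 h6 with h7 | ⟨h7, h8⟩
    · exact Or.inl h7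
    · refine Or.inr ⟨h7, h8 _ fun x hx => ?_⟩
      obtain ⟨h3, h4⟩ := Finset.mem_filter.mp hx
      rw [hmem] at h4
      rw [Sym2.eq_swap]
      exact ⟨(Finset.mem_filter.mp h3).2, h4.1⟩

/-- **The local bounds imply that all flats are good.** -/
theorem allGood_of_local (h2 : (2 : k) ≠ 0) (hadj : StmtADJ k V) (hm1 : StmtM1 k V)
    (ha1 : StmtA1 k V) (ha2 : StmtA2 k V) (hb2 : StmtB2 k V) (hb3 : StmtB3 k V) :
    ∀ A : Finset V, AllGood k A := by
  refine allGood_induction h2 (fun A p =>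
    (∀ H E : Finset (Sym2 V), BadAt A H p → CBasis A H E p →
      ∀ u a b c d e, TypB k A E u a b c d e → 7 ≤ dg A E a) ∧
    (∀ H E : Finset (Sym2 V), BadAt A H p → CBasis A H E p →
      ∀ u a b c d e, TypB k A E u a b c d e → dg A E a = 7 →
      ∀ S : Finset V, (∀ v ∈ S, s(a, v) ∈ E ∧
        (PureA k A E v ∨ ∃ b' c' d' e', TypB k A E v a b' c' d' e')) → S.card ≤ 3))
    (fun A hs => (hb2 A hs).and (hb3 A hs)) ?_
  intro A hs p H h hQ
  obtain ⟨E, _, hE⟩ := h.exists_basis (CInd.empty H p)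
  have hD := dischargeHyp h hs hE hadj hm1 ha1 ha2 (hQ.1 H E h hE) (hQ.2 H E h hE)
  have h1 := hD.six_mul_le
  have h3 : ∑ v ∈ A, (nbr (A.erase v) (E : Set (Sym2 V)) v).card = 2 * E.card := by
    rw [← sum_edeg (A := A) (fun e he => (mem_Kf.mp (hE.sub_Kf h he)).2)
      (fun e he => (mem_Kf.mp (hE.sub_Kf h he)).1)]
    refine Finset.sum_congr rfl fun v _ => ?_
    unfold edeg
    have h4 : E.filter (v ∈ ·) =
        (nbr (A.erase v) (E : Set (Sym2 V)) v).image (fun w => s(v, w)) := by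
      ext e
      simp only [Finset.mem_filter, Finset.mem_image, GR.mem_nbr, Finset.mem_erase]
      constructor
      · rintro ⟨he, hv⟩
        obtain ⟨w, rfl⟩ := Sym2.mem_iff_exists.mp hv
        have h5 := mem_Kf.mp (hE.sub_Kf h he)
        refine ⟨w, ⟨⟨?_, h5.2 w (by simp)⟩, by exact_mod_cast he⟩, rfl⟩
        rintro rfl
        exact h5.1 (by simp)
      · rintro ⟨w, ⟨_, he⟩, rfl⟩
        exact ⟨by exact_mod_cast he, by simp⟩
    rw [h4, Finset.card_image_of_injective _ fun a b hab => Sym2.congr_right.mp hab]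
  have h4 := hE.card
  omega

end Main

end GR
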