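import Pool.Agent.Lib.GR.AdjR
import Pool.Agent.Lib.GR.Assemble

/-!
# Adjacent vertices of degree five in a minimal counterexample
-/

set_option linter.unusedSectionVars false

namespace GR

open Filter Module

open scoped Matrix

variable {k : Type*} [Field k] [Infinite k] {V : Type*} [DecidableEq V]

section

variable {A : Finset V} {E : Finset (Sym2 V)} (h : MinCE k A E) {p : V → Vec k}

include h

lemma MinCE.adj_mem {u w : V} (huw : s(u, w) ∈ E) : u ∈ A ∧ w ∈ A ∧ u ≠ w := by
  have h1 := mem_Kf.mp (h.sub huw)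
  refine ⟨h1.2 u (by simp), h1.2 w (by simp), ?_⟩
  rintro rfl
  exact h1.1 (by simp)

lemma MinCE.nbr_erase_erase {u w : V} (huw : s(u, w) ∈ E) :
    nbr ((A.erase u).erase w) (E : Set (Sym2 V)) w
      = (nbr (A.erase w) (E : Set (Sym2 V)) w).erase u := by
  ext x
  rw [mem_nbr, Finset.mem_erase, Finset.mem_erase, Finset.mem_erase, mem_nbr, Finset.mem_erase]
  tauto

lemma MinCE.card_nbr_erase_erase {u w : V} (huw : s(u, w) ∈ E) :
    (nbr ((A.erase u).erase w) (E : Set (Sym2 V)) w).card + 1 = dg A E w := by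
  obtain ⟨hu, hw, hne⟩ := h.adj_mem huw
  rw [h.nbr_erase_erase huw]
  refine Finset.card_erase_add_one (mem_nbr.mpr ⟨Finset.mem_erase.mpr ⟨hne, hu⟩, ?_⟩)
  rw [Sym2.eq_swap]
  exact_mod_cast huw

/-- dimension without two adjacent vertices of degree five -/
lemma MinCE.gdim_erase_erase {u w : V} (huw : s(u, w) ∈ E) (hu5 : dg A E u = 5)
    (hw5 : dg A E w = 5) : gdim k ((A.erase u).erase w) (E : Set (Sym2 V)) = 9 := by
  obtain ⟨hu, hw, hne⟩ := h.adj_mem huw
  have hw' : w ∈ A.erase u := Finset.mem_erase.mpr ⟨hne.symm, hw⟩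
  have h1 := h.indep ((A.erase u).erase w)
    (Finset.ssubset_of_subset_of_ssubset (Finset.erase_subset w (A.erase u))
      (Finset.erase_ssubset hu))
  have h2 := card_rest_erase h.sub u
  have hFK : rest E (A.erase u) ⊆ Kf (A.erase u) :=
    rest_subset_Kf (fun e he => (mem_Kf.mp (h.sub he)).1) _
  have h3 := card_rest_erase hFK w
  have h4 : rest (rest E (A.erase u)) ((A.erase u).erase w) = rest E ((A.erase u).erase w) := by
    ext e
    rw [mem_rest, mem_rest, mem_rest]
    constructor
    · rintro ⟨⟨h5, -⟩, h6⟩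
      exact ⟨h5, h6⟩
    · rintro ⟨h5, h6⟩
      exact ⟨⟨h5, fun v hv => Finset.mem_of_mem_erase (h6 v hv)⟩, h6⟩
  have h5 : nbr ((A.erase u).erase w) ((rest E (A.erase u) : Finset (Sym2 V)) : Set (Sym2 V)) w
      = nbr ((A.erase u).erase w) (E : Set (Sym2 V)) w := by
    ext x
    rw [mem_nbr, mem_nbr, Finset.mem_coe, mem_rest]
    constructor
    · rintro ⟨h6, h7, -⟩
      exact ⟨h6, by exact_mod_cast h7⟩
    · rintro ⟨h6, h7⟩
      refine ⟨h6, by exact_mod_cast h7, fun v hv => ?_⟩
      rcases Sym2.mem_iff.mp hv with rfl | rfl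
      · exact hw'
      · exact Finset.mem_of_mem_erase h6
  rw [h4, h5] at h3
  have h6 := h.card_nbr_erase_erase huw
  have h7 := h.card
  have h8 := Finset.card_erase_add_one hu
  have h9 := Finset.card_erase_add_one hw'
  unfold dg at hu5
  omega

/-- **A vertex of degree five is not adjacent to a vertex of type A.** -/
theorem MinCE.dg_ne_five_of_typA {u w : V} (hu : TypA k A E u) (huw : s(u, w) ∈ E) :
    dg A E w ≠ 5 := by
  intro hw5
  obtain ⟨huA, hwA, hne⟩ := h.adj_mem huw
  have hw' : w ∈ A.erase u := Finset.mem_erase.mpr ⟨hne.symm, hwA⟩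
  have hwN : w ∈ nbr (A.erase u) (E : Set (Sym2 V)) u :=
    mem_nbr.mpr ⟨hw', by exact_mod_cast huw⟩
  have hins : insert w ((A.erase u).erase w) = A.erase u := Finset.insert_erase hw'
  have hinsN : (insert w (((nbr (A.erase u) (E : Set (Sym2 V)) u).erase w : Finset V) : Set V))
      = (nbr (A.erase u) (E : Set (Sym2 V)) u : Set V) := by
    rw [← Finset.coe_insert, Finset.insert_erase hwN]
  have hdu : (nbr (A.erase u) (E : Set (Sym2 V)) u).card = 5 := hu.deg
  refine adjA (k := k) h.two (B := (A.erase u).erase w)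
    (T := (nbr (A.erase u) (E : Set (Sym2 V)) u).erase w) (w := w)
    (Finset.notMem_erase w _) (Finset.erase_subset_erase w (nbr_subset _ _ _)) ?_
    (E := (E : Set (Sym2 V))) ?_ ?_ ?_ ?_ ?_
  · rw [Finset.card_erase_of_mem hwN, hdu]
  · have := h.card_nbr_erase_erase huw
    omega
  · filter_upwards [eventually_mdim_eq (k := k) ((A.erase u).erase w) (E : Set (Sym2 V))] with p hp
    rw [hp, h.gdim_erase_erase huw hu.deg hw5]
  · filter_upwards [eventually_mdim_eq (k := k) (A.erase u) (E : Set (Sym2 V))] with p hp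
    rw [hins, hp, h.gdim_erase huA hdu]
  · filter_upwards [eventually_nice (k := k) A] with p hp
    rw [hins, hinsN]
    exact h.finrank_inf_RG hp huA
  · filter_upwards [eventually_nice (k := k) A] with p hp
    rw [hins, hinsN]
    exact hu.typ p hp

/-- **The second rod end of a vertex of type B has not degree five.** -/
theorem MinCE.dg_rod_ne_five {u a b c d e : V} (hu : TypB k A E u a b c d e) :
    dg A E e ≠ 5 := by
  intro hw5
  have hL := hu.lab
  have heN := hL.he
  have heN' := mem_nbr.mp heN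
  have huw : s(u, e) ∈ E := by exact_mod_cast heN'.2
  obtain ⟨huA, hwA, hne⟩ := h.adj_mem huw
  have hw' : e ∈ A.erase u := heN'.1
  have hins : insert e ((A.erase u).erase e) = A.erase u := Finset.insert_erase hw'
  have hNset : ({a, b, c, d, e} : Set V) = (nbr (A.erase u) (E : Set (Sym2 V)) u : Set V) := by
    rw [hL.eq]; simp
  have hdu : (nbr (A.erase u) (E : Set (Sym2 V)) u).card = 5 := hL.card
  have hmem : ∀ x ∈ nbr (A.erase u) (E : Set (Sym2 V)) u, x ≠ e → x ∈ (A.erase u).erase e :=
    fun x hx hxe => Finset.mem_erase.mpr ⟨hxe, nbr_subset _ _ _ hx⟩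
  refine adjR (k := k) h.two (B := (A.erase u).erase e) (w := e) (u := u)
    (Finset.notMem_erase e _)
    (fun hc => Finset.notMem_erase u A (Finset.mem_of_mem_erase hc))
    (hmem a hL.ha hL.ae) (hmem b hL.hb hL.be) (hmem c hL.hc hL.ce) (hmem d hL.hd hL.de)
    hL.ab hL.ac hL.ad hL.bc hL.bd hL.cd (E := (E : Set (Sym2 V))) ?_ ?_ ?_ ?_ ?_ ?_
  · have := h.card_nbr_erase_erase huw
    omega
  · filter_upwards [eventually_mdim_eq (k := k) ((A.erase u).erase e) (E : Set (Sym2 V))] with p hp
    rw [hp, h.gdim_erase_erase huw hdu hw5]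
  · filter_upwards [eventually_mdim_eq (k := k) (A.erase u) (E : Set (Sym2 V))] with p hp
    rw [hins, hp, h.gdim_erase huA hdu]
  · filter_upwards [eventually_nice (k := k) A] with p hp
    rw [hins, hNset]
    exact h.finrank_inf_RG hp huA
  · filter_upwards [eventually_nice (k := k) A] with p hp
    rw [hins]
    exact hu.typ p hp
  · refine h.eventually_cliqueProp ?_
    have h1 : insert u ((A.erase u).erase e) = A.erase e := by
      ext x
      simp only [Finset.mem_insert, Finset.mem_erase]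
      constructor
      · rintro (rfl | ⟨h1, h2, h3⟩)
        · exact ⟨hne, huA⟩
        · exact ⟨h1, h3⟩
      · rintro ⟨h1, h2⟩
        by_cases hx : x = u
        · exact Or.inl hx
        · exact Or.inr ⟨h1, hx, h2⟩
    rw [h1]
    exact Finset.erase_ssubset hwA

end

/-- exchange of the rod ends in a labelling -/
lemma Lab.swap_de {N : Finset V} {a b c d e : V} (h : Lab N a b c d e) : Lab N a b c e d where
  eq := by rw [h.eq]; ext x; simp only [Finset.mem_insert, Finset.mem_singleton]; tauto
  ab := h.ab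
  ac := h.ac
  ad := h.ae
  ae := h.ad
  bc := h.bc
  bd := h.be
  be := h.bd
  cd := h.ce
  ce := h.cd
  de := h.de.symm

lemma TypB.swap_de {A : Finset V} {E : Finset (Sym2 V)} {u a b c d e : V}
    (h : TypB k A E u a b c d e) : TypB k A E u a b c e d :=
  h.relabel h.lab.swap_de (Or.inr ⟨rfl, rfl⟩)

/-- **Rod ends have degree at least six.** -/
theorem MinCE.six_le_dg_rod {A : Finset V} {E : Finset (Sym2 V)} (h : MinCE k A E)
    {u a b c d e : V} (hu : TypB k A E u a b c d e) : 6 ≤ dg A E d ∧ 6 ≤ dg A E e := by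
  have h1 := h.dg_rod_ne_five hu
  have h2 := h.dg_rod_ne_five hu.swap_de
  have hd : d ∈ A := Finset.mem_of_mem_erase (nbr_subset _ _ _ hu.lab.hd)
  have he : e ∈ A := Finset.mem_of_mem_erase (nbr_subset _ _ _ hu.lab.he)
  have h3 : 5 ≤ dg A E d := h.five d hd
  have h4 : 5 ≤ dg A E e := h.five e he
  omega

variable (k V) in
/-- **The adjacency statement of `Assemble`.** -/
theorem stmtADJ : StmtADJ k V := fun _ _ hM _ _ hu huv => hM.dg_ne_five_of_typA hu.typ huv

end GR
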