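import Pool.Agent.Lib.GR.LocA5
import Pool.Agent.Lib.GR.Adj

/-!
# A vertex of degree seven has at most four neighbours of pure type A
-/

set_option linter.unusedSectionVars false

namespace GR

open Filter Module

open scoped Matrix

variable {k : Type*} [Field k] [Infinite k] {V : Type*} [DecidableEq V]
  {A : Finset V} {E : Finset (Sym2 V)} {i : V} {X : Finset V}

/-- five clones are impossible -/
lemma LHyp.not_all_equal (h : LHyp k A E i X) (hX5 : X.card = 5) :
    ∃ u ∈ X, ∃ u' ∈ X, TT A E X i u ≠ TT A E X i u' := by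
  by_contra hcon
  push Not at hcon
  obtain ⟨v, hv⟩ : X.Nonempty := by
    rw [← Finset.card_pos]; omega
  set T := TT A E X i v with hT
  have hTc : T.card = 4 := h.cardT hv
  have hall : ∀ u ∈ X, TT A E X i u = T := fun u hu => hcon u hu v hv
  -- the vertex set
  set W := X ∪ insert i T with hW
  have hiT : i ∉ T := h.i_notMem_nbr v
  have hTW : T ⊆ WW A X i := nbr_subset _ _ _
  have hdis : Disjoint X (insert i T) := by
    rw [Finset.disjoint_left]
    intro w hwX hw
    rcases Finset.mem_insert.mp hw with rfl | hw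
    · exact h.iX hwX
    · exact (mem_WW.mp (hTW hw)).2.2 hwX
  have hWc : W.card = 10 := by
    rw [hW, Finset.card_union_of_disjoint hdis, Finset.card_insert_of_notMem hiT, hTc, hX5]
  have hWA : W ⊆ A := by
    intro w hw
    rcases Finset.mem_union.mp hw with hw | hw
    · exact h.subA hw
    · rcases Finset.mem_insert.mp hw with rfl | hw
      · exact h.hi
      · exact WW_subset (hTW hw)
  -- the 25 edges
  have hedge : 25 ≤ (rest E W).card := by
    have hsub : (X ×ˢ insert i T).image (fun e => s(e.1, e.2)) ⊆ rest E W := by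
      intro e he
      obtain ⟨⟨u, t⟩, hut, rfl⟩ := Finset.mem_image.mp he
      obtain ⟨hu, ht⟩ := Finset.mem_product.mp hut
      rw [mem_rest]
      refine ⟨?_, fun w hw => ?_⟩
      · rcases Finset.mem_insert.mp ht with rfl | ht
        · rw [Sym2.eq_swap]; exact h.adj u hu
        · have ht' : t ∈ TT A E X i u := by rw [hall u hu]; exact ht
          exact_mod_cast (mem_nbr.mp ht').2
      · rcases Sym2.mem_iff.mp hw with rfl | rfl
        · exact Finset.mem_union_left _ hu
        · exact Finset.mem_union_right _ ht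
    have hinj : Set.InjOn (fun e : V × V => s(e.1, e.2))
        ((X ×ˢ insert i T : Finset (V × V)) : Set (V × V)) := by
      rintro ⟨u, t⟩ h1 ⟨u', t'⟩ h2 h3
      obtain ⟨hu, ht⟩ := Finset.mem_product.mp (Finset.mem_coe.mp h1)
      obtain ⟨hu', ht'⟩ := Finset.mem_product.mp (Finset.mem_coe.mp h2)
      rcases Sym2.eq_iff.mp h3 with ⟨h4, h5⟩ | ⟨h4, _⟩
      · exact Prod.ext h4 h5
      · exact absurd (h4 ▸ ht') (Finset.disjoint_left.mp hdis hu)
    have h1 := Finset.card_le_card hsub
    rw [Finset.card_image_of_injOn hinj, Finset.card_product, hX5,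
      Finset.card_insert_of_notMem hiT, hTc] at h1
    exact h1
  rcases eq_or_ne W A with hWA' | hWA'
  · have h1 := h.ce.card
    have h2 : (rest E W).card ≤ E.card := Finset.card_le_card (rest_subset _ _)
    rw [← hWA', hWc] at h1
    omega
  · have hss : W ⊂ A := Finset.ssubset_iff_subset_ne.mpr ⟨hWA, hWA'⟩
    have h1 := h.ce.indep W hss
    obtain ⟨p, hp⟩ := (eventually_nice (k := k) A).exists
    have h2 : mdim W (E : Set (Sym2 V)) p = gdim k W (E : Set (Sym2 V)) := hp.reg W hWA _
    have h3 := six_le_mdim (A := W) (E : Set (Sym2 V)) (p := p)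
      (hp.gp.mono (by exact_mod_cast hWA)) (by omega)
    rw [h2] at h3
    rw [hWc] at h1
    omega

/-- **(M1)**, from the abstract statement. -/
theorem stmtM1_of
    (habs : ∀ (A : Finset V) (E : Finset (Sym2 V)) (X : Finset V) (i v : V) (p : V → Vec k),
      Loc p X (TT A E X i i) (WW A X i) (TT A E X i) v (zGau A E X i v p) (BGau A E X i v p) 5 →
      finrank k (KGau A E X i v p) = 9 → (TT A E X i i).card = 2 →
      (∃ u ∈ X, ∃ u' ∈ X, TT A E X i u ≠ TT A E X i u') → False) : StmtM1 k V := by
  intro A E h w hw hd S hS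
  by_contra hcon
  push Not at hcon
  obtain ⟨X, hXS, hX5⟩ := Finset.exists_subset_card_eq (show 5 ≤ S.card by omega)
  have hL : LHyp k A E w X :=
    { ce := h
      hi := hw
      pure := fun u hu => (hS u (hXS hu)).1
      adj := fun u hu => (hS u (hXS hu)).2
      nonadj := fun u hu v hv huv hc =>
        stmtADJ k V A E h u v (hS u (hXS hu)).1 hc (hS v (hXS hv)).1.typ.deg }
  obtain ⟨v, hv⟩ : X.Nonempty := by
    rw [← Finset.card_pos]; omega
  obtain ⟨p, hp1, hp2⟩ := (hL.eventually_loc hv).exists
  have hO := hL.cardO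
  rw [hX5] at hp1 hp2 hO
  have hO2 : (TT A E X w w).card = 2 := by
    show (nbr (WW A X w) (E : Set (Sym2 V)) w).card = 2
    omega
  exact habs A E X w v p hp2 (by omega) hO2 (hL.not_all_equal hX5)

end GR
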