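import Pool.Agent.Lib.GR.LocDefs

/-!
# Kernels of linear families: generic pairs, constant image, and the linear form `λ`
-/

set_option linter.unusedSectionVars false

namespace GR

open Filter Module

open scoped Matrix

variable {k : Type*} [Field k] [Infinite k] {K ι : Type*} [AddCommGroup K] [Module k K]

/-- translates of generic points are generic -/
lemma eventually_add_left {P : Vec k → Prop} (h : ∀ᶠ y in gen k (Vec k), P y) (a : Vec k) :
    ∀ᶠ y in gen k (Vec k), P (a + y) := by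
  obtain ⟨U, hb, hU⟩ := eventually_gen.mp h
  obtain ⟨y, hy⟩ := hb.1
  refine eventually_gen.mpr ⟨_, hb.preimage LinearMap.id a ⟨y - a, by simpa using hy⟩, ?_⟩
  intro x hx
  exact hU _ hx

lemma eventually_sub_left {P : Vec k → Prop} (h : ∀ᶠ y in gen k (Vec k), P y) (a : Vec k) :
    ∀ᶠ y in gen k (Vec k), P (a - y) := by
  obtain ⟨U, hb, hU⟩ := eventually_gen.mp h
  obtain ⟨y, hy⟩ := hb.1
  refine eventually_gen.mpr ⟨_, hb.preimage (-LinearMap.id) a ⟨a - y, by simpa using hy⟩, ?_⟩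
  intro x hx
  exact hU _ (by simpa [sub_eq_add_neg] using hx)

/-- a subspace containing the generic points is everything -/
lemma eq_top_of_eventuallyC {S : Submodule k (Vec k)} (h : ∀ᶠ y in gen k (Vec k), y ∈ S) :
    S = ⊤ := by
  rw [eq_top_iff]
  intro x _
  obtain ⟨y, hy, hy'⟩ := (h.and (eventually_add_left h x)).exists
  have := S.sub_mem hy' hy
  simpa using this

/-- a proper subspace misses the generic points -/
lemma eventually_notMemC {S : Submodule k (Vec k)} (h : S ≠ ⊤) :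
    ∀ᶠ y in gen k (Vec k), y ∉ S := by
  obtain ⟨x, hx⟩ : ∃ x, x ∉ S := by
    by_contra hcon
    push Not at hcon
    exact h (eq_top_iff.mpr fun x _ => hcon x)
  -- a functional vanishing on `S` and not at `x`
  obtain ⟨φ, hφ, hφS⟩ := Submodule.exists_dual_map_eq_bot_of_notMem hx inferInstance
  have hne : ∃ x, φ x ≠ 0 := ⟨x, hφ⟩
  filter_upwards [(PolyLine.linear (k := k) φ).eventually_ne hne] with y hy hyS
  apply hy
  have : φ y ∈ S.map φ := Submodule.mem_map_of_mem hyS
  rw [hφS] at this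
  simpa using this

variable [FiniteDimensional k K] (R : Vec k →ₗ[k] K →ₗ[k] (ι → k))

/-- semicontinuity of the kernels -/
lemma eventually_finrank_ker_le (S : Submodule k K) (a : Vec k) :
    ∀ᶠ y in gen k (Vec k), finrank k (S ⊓ LinearMap.ker (R y) : Submodule k K) ≤
      finrank k (S ⊓ LinearMap.ker (R a) : Submodule k K) := by
  have key : ∀ y, finrank k (LinearMap.ker ((R y).comp S.subtype))
      = finrank k (S ⊓ LinearMap.ker (R y) : Submodule k K) := by
    intro y
    rw [LinearMap.ker_comp, inf_comm, ← Submodule.finrank_map_subtype_eq S,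
      Submodule.map_comap_subtype, inf_comm]
  have h := big_finrank_ker (k := k) (fun y => (R y).comp S.subtype) (fun x i => by
    have := PolyLine.linear (k := k) (((LinearMap.proj (R := k) (φ := fun _ : ι => k) i).comp
      (LinearMap.applyₗ (x : K))).comp R)
    exact this) _ ⟨a, le_rfl⟩
  filter_upwards [h.mem_gen] with y hy
  have hy' : finrank k (LinearMap.ker ((R y).comp S.subtype)) ≤
    finrank k (LinearMap.ker ((R a).comp S.subtype)) := hy
  rwa [key, key] at hy'

/-- **Constant image.** -/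
theorem constant_image {H : Submodule k K} {κ : ℕ}
    (hκ : ∀ᶠ y in gen k (Vec k), finrank k (H ⊓ LinearMap.ker (R y) : Submodule k K) = κ)
    (hp : ∀ᶠ a in gen k (Vec k), ∀ᶠ b in gen k (Vec k),
      H ≤ (H ⊓ LinearMap.ker (R a)) ⊔ (H ⊓ LinearMap.ker (R b))) :
    ∃ I : Submodule k (ι → k), FiniteDimensional k I ∧ finrank k I + κ = finrank k H ∧
      ∀ y, ∀ Z ∈ H, R y Z ∈ I := by
  have hdim : ∀ y, finrank k (H ⊓ LinearMap.ker (R y) : Submodule k K) = κ →
      finrank k (H.map (R y)) + κ = finrank k H := by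
    intro y hy
    have h1 := LinearMap.finrank_range_add_finrank_ker ((R y).comp H.subtype)
    rw [LinearMap.range_comp, Submodule.range_subtype, LinearMap.ker_comp] at h1
    have h2 : finrank k (Submodule.comap H.subtype (LinearMap.ker (R y))) = κ := by
      rw [← hy, ← Submodule.finrank_map_subtype_eq H, Submodule.map_comap_subtype]
    rw [h2] at h1
    exact h1
  obtain ⟨a, ha, hap, hpa⟩ := (hκ.and (hp.and (hp.mono fun a h => h))).exists
  have hfd : ∀ y, FiniteDimensional k (H.map (R y)) := fun y => inferInstance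
  refine ⟨H.map (R a), hfd a, hdim a ha, ?_⟩
  have hgen : ∀ᶠ b in gen k (Vec k), H.map (R b) = H.map (R a) := by
    filter_upwards [hap, hκ, eventually_add_left hκ a] with b hb hb' hab
    have e1 : H.map (R a) ≤ H.map (R (a + b)) := by
      rintro _ ⟨Z, hZ, rfl⟩
      obtain ⟨Z1, hZ1, Z2, hZ2, rfl⟩ := Submodule.mem_sup.mp (hb hZ)
      refine ⟨Z2, hZ2.1, ?_⟩
      have h1 : R a Z1 = 0 := hZ1.2
      have h2 : R b Z2 = 0 := hZ2.2
      rw [map_add, LinearMap.add_apply, h2, map_add, h1, add_zero, zero_add]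
    have e2 : H.map (R b) ≤ H.map (R (a + b)) := by
      rintro _ ⟨Z, hZ, rfl⟩
      obtain ⟨Z1, hZ1, Z2, hZ2, rfl⟩ := Submodule.mem_sup.mp (hb hZ)
      refine ⟨Z1, hZ1.1, ?_⟩
      have h1 : R a Z1 = 0 := hZ1.2
      have h2 : R b Z2 = 0 := hZ2.2
      rw [map_add, LinearMap.add_apply, h1, map_add, h2, add_zero, zero_add]
    have d1 := hdim a ha
    have d2 := hdim b hb'
    have d3 := hdim (a + b) hab
    rw [Submodule.eq_of_le_of_finrank_eq e1 (by omega),
      Submodule.eq_of_le_of_finrank_eq e2 (by omega)]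
  -- closedness
  have hS : ∀ Z ∈ H, ∀ y, R y Z ∈ H.map (R a) := by
    intro Z hZ
    have h1 : (H.map (R a)).comap (LinearMap.flip R Z) = ⊤ := by
      apply eq_top_of_eventuallyC
      filter_upwards [hgen] with b hb
      rw [Submodule.mem_comap, LinearMap.flip_apply, ← hb]
      exact Submodule.mem_map_of_mem hZ
    intro y
    have : y ∈ (H.map (R a)).comap (LinearMap.flip R Z) := by rw [h1]; trivial
    simpa using this
  exact fun y Z hZ => hS Z hZ y

/-- **The linear form `λ`.** -/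
theorem lambda_linear {r : ℕ} (h2 : (2 : k) ≠ 0) (h : K →ₗ[k] Vec k →ₗ[k] Vec k)
    (hsym : ∀ Z, h Z ∈ SymSub k) (g : K →ₗ[k] Vec k →ₗ[k] (Fin r → k))
    (hker : ∀ᶠ y in gen k (Vec k), ∀ Z, g Z y = 0 → h Z y ⬝ᵥ y = 0)
    (hsurj : ∀ᶠ y in gen k (Vec k), ∀ w : Fin r → k, ∃ Z, g Z y = w)
    (hpair : ∀ᶠ a in gen k (Vec k), ∀ᶠ b in gen k (Vec k), ∀ Z : K, ∃ Z1 Z2,
      Z = Z1 + Z2 ∧ g Z1 a = 0 ∧ g Z2 b = 0) :
    ∃ l : Vec k →ₗ[k] (Fin r → k), ∀ Z y, h Z y ⬝ᵥ y = l y ⬝ᵥ g Z y := by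
  classical
  -- the values
  let L : Vec k → (Fin r → k) → Prop := fun y l => ∀ Z, h Z y ⬝ᵥ y = l ⬝ᵥ g Z y
  have hL : ∀ᶠ y in gen k (Vec k), ∃ l, L y l := by
    filter_upwards [hker, hsurj] with y h1 h3
    choose σ hσ using fun j : Fin r => h3 (Pi.single j 1)
    refine ⟨fun j => h (σ j) y ⬝ᵥ y, fun Z => ?_⟩
    have h4 : g (Z - ∑ j, g Z y j • σ j) y = 0 := by
      rw [map_sub, map_sum, LinearMap.sub_apply, LinearMap.sum_apply]
      have : ∑ j, (g (g Z y j • σ j)) y = g Z y := by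
        ext i
        simp [map_smul, LinearMap.smul_apply, hσ, Finset.sum_apply, Pi.single_apply]
      rw [this, sub_self]
    have h5 := h1 _ h4
    rw [map_sub, map_sum, LinearMap.sub_apply, LinearMap.sum_apply, sub_dotProduct,
      sum_dotProduct, sub_eq_zero] at h5
    rw [h5, dotProduct]
    refine Finset.sum_congr rfl fun j _ => ?_
    rw [map_smul, LinearMap.smul_apply, smul_dotProduct, smul_eq_mul, mul_comm]
  -- good pairs
  have hC : ∀ᶠ a in gen k (Vec k), ∀ᶠ b in gen k (Vec k), ∀ la lb, L a la → L b lb →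
      ∀ Z, 2 * (h Z a ⬝ᵥ b) = la ⬝ᵥ g Z b + lb ⬝ᵥ g Z a := by
    filter_upwards [hpair, hsurj] with a ha hsa
    filter_upwards [ha, hsurj, eventually_add_left hL a, eventually_sub_left hL a] with
      b hb hsb ⟨lp, hlp⟩ ⟨lm, hlm⟩ la lb hla hlb
    have hexp : ∀ Z, h Z (a + b) ⬝ᵥ (a + b) = h Z a ⬝ᵥ a + 2 * (h Z a ⬝ᵥ b) + h Z b ⬝ᵥ b := by
      intro Z
      simp only [map_add, add_dotProduct, dotProduct_add]
      rw [hsym Z b a]
      ring
    have hexm : ∀ Z, h Z (a - b) ⬝ᵥ (a - b) = h Z a ⬝ᵥ a - 2 * (h Z a ⬝ᵥ b) + h Z b ⬝ᵥ b := by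
      intro Z
      simp only [map_sub, sub_dotProduct, dotProduct_sub]
      rw [hsym Z b a]
      ring
    -- both kinds of motions with the same value
    have key : ∀ Z1 Z2, g Z1 a = 0 → g Z2 b = 0 → g Z1 b = g Z2 a →
        2 * (h Z1 a ⬝ᵥ b) = la ⬝ᵥ g Z1 b ∧ 2 * (h Z2 a ⬝ᵥ b) = lb ⬝ᵥ g Z2 a := by
      intro Z1 Z2 h1 h3 h4
      have p1 := hlp Z1
      have p2 := hlp Z2
      have m1 := hlm Z1
      have m2 := hlm Z2
      rw [hexp, hla, hlb, map_add, h1] at p1
      rw [hexp, hla, hlb, map_add, h3] at p2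
      rw [hexm, hla, hlb, map_sub, h1] at m1
      rw [hexm, hla, hlb, map_sub, h3] at m2
      simp only [dotProduct_zero, zero_add, add_zero, zero_sub, sub_zero, dotProduct_neg] at *
      rw [h4] at p1 m1 ⊢
      constructor
      · have : (2 : k) * (2 * (h Z1 a ⬝ᵥ b) - la ⬝ᵥ g Z2 a) = 0 := by
          linear_combination p1 - m1 - p2 - m2
        have := (mul_eq_zero.mp this).resolve_left h2
        linear_combination this
      · have : (2 : k) * (2 * (h Z2 a ⬝ᵥ b) - lb ⬝ᵥ g Z2 a) = 0 := by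
          linear_combination p2 - m2 - p1 - m1
        have := (mul_eq_zero.mp this).resolve_left h2
        linear_combination this
    intro Z
    obtain ⟨Z1, Z2, rfl, h1, h3⟩ := hb Z
    -- partners
    obtain ⟨Y1, hY1, hY1'⟩ : ∃ Y1, g Y1 a = 0 ∧ g Y1 b = g Z2 a := by
      obtain ⟨Y, hY⟩ := hsb (g Z2 a)
      obtain ⟨Y1, Y2, rfl, h5, h6⟩ := hb Y
      refine ⟨Y1, h5, ?_⟩
      rw [map_add, LinearMap.add_apply, h6, add_zero] at hY
      exact hY
    obtain ⟨Y2, hY2, hY2'⟩ : ∃ Y2, g Y2 b = 0 ∧ g Y2 a = g Z1 b := by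
      obtain ⟨Y, hY⟩ := hsa (g Z1 b)
      obtain ⟨Y1, Y2, rfl, h5, h6⟩ := hb Y
      refine ⟨Y2, h6, ?_⟩
      rw [map_add, LinearMap.add_apply, h5, zero_add] at hY
      exact hY
    have e1 := (key Z1 Y2 h1 hY2 hY2'.symm).1
    have e2 := (key Y1 Z2 hY1 h3 hY1').2
    simp only [map_add, LinearMap.add_apply, add_dotProduct, dotProduct_add, h1, h3,
      dotProduct_zero]
    linear_combination e1 + e2
  -- symmetric form: fix `b`
  obtain ⟨b, hb, ⟨lb, hlb⟩, hsb⟩ : ∃ b, (∀ᶠ a in gen k (Vec k), ∀ la lb, L b lb → L a la →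
      ∀ Z, 2 * (h Z b ⬝ᵥ a) = lb ⬝ᵥ g Z a + la ⬝ᵥ g Z b) ∧ (∃ l, L b l) ∧
      ∀ w : Fin r → k, ∃ Z, g Z b = w := by
    obtain ⟨b, h1, h3, h4⟩ := (hC.and (hL.and hsurj)).exists
    exact ⟨b, h1.mono fun a ha la lb h5 h6 => ha lb la h5 h6, h3, h4⟩
  choose σ hσ using fun j : Fin r => hsb (Pi.single j 1)
  let lam : Vec k →ₗ[k] (Fin r → k) := LinearMap.pi fun j =>
    { toFun := fun a => 2 * (h (σ j) b ⬝ᵥ a) - lb ⬝ᵥ g (σ j) a
      map_add' := fun a a' => by simp only [dotProduct_add, map_add]; ring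
      map_smul' := fun c a => by
        simp only [dotProduct_smul, map_smul, smul_eq_mul, RingHom.id_apply]; ring }
  have hlam : ∀ᶠ a in gen k (Vec k), L a (lam a) := by
    filter_upwards [hb, hL] with a ha ⟨la, hla⟩
    have e : lam a = la := by
      ext j
      show 2 * (h (σ j) b ⬝ᵥ a) - lb ⬝ᵥ g (σ j) a = la j
      rw [ha la lb hlb hla (σ j), hσ]
      simp
    rw [e]
    exact hla
  refine ⟨lam, fun Z y => ?_⟩
  have hpoly : PolyLine k (fun y : Vec k => h Z y ⬝ᵥ y - lam y ⬝ᵥ g Z y) := by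
    refine PolyLine.sub ?_ ?_
    · show PolyLine k (fun y : Vec k => ∑ i, h Z y i * y i)
      exact PolyLine.sum _ fun i _ => PolyLine.mul
        (PolyLine.linear ((LinearMap.proj i).comp (h Z)))
        (PolyLine.linear (LinearMap.proj (R := k) (φ := fun _ : Fin 4 => k) i))
    · show PolyLine k (fun y : Vec k => ∑ i, lam y i * g Z y i)
      exact PolyLine.sum _ fun i _ => PolyLine.mul
        (PolyLine.linear ((LinearMap.proj i).comp lam))
        (PolyLine.linear ((LinearMap.proj i).comp (g Z)))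
  have := hpoly.eq_zero_of_eventually (hlam.mono fun y hy => by rw [hy Z, sub_self]) y
  exact sub_eq_zero.mp this

end GR
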