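import Pool.Agent.Lib.GR.M1Defs

/-!
# M1, block helper72: the dimension count and the end game of type (3,0)
-/

set_option linter.unusedSectionVars false

namespace GR

open Filter Module

open scoped Matrix

variable {k : Type*} [Field k] {V : Type*}
  {K : Type*} [AddCommGroup K] [Module k K]

private lemma e30_span {p : V → Vec k} {P : Finset V} (hP : P.card = 4)
    (hgp : GenPos p (P : Set V)) : Submodule.span k (Set.range fun v : P => p v) = ⊤ := by
  have hli := hgp P le_rfl hP.le
  apply hli.span_eq_top_of_card_eq_finrank'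
  simp [hP]

/-- **Dimension count** (K = dimension of the image + kernel; `G Z` is determined by its four
values at the basis `p t`, `t ∈ P`, and the value at `p t` is orthogonal to `L t`). -/
theorem dim_count [FiniteDimensional k K] {r : ℕ} (G : K →ₗ[k] Vec k →ₗ[k] (Fin r → k))
    {p : V → Vec k} {P : Finset V} (hP : P.card = 4) (hgp : GenPos p (P : Set V))
    (L : V → Submodule k (Fin r → k))
    (hL : ∀ t ∈ P, ∀ w ∈ L t, ∀ Z, w ⬝ᵥ G Z (p t) = 0) :
    finrank k K + ∑ t ∈ P, finrank k (L t) ≤ finrank k (LinearMap.ker G) + 4 * r := by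
  classical
  let ev : K →ₗ[k] (P → Fin r → k) :=
    LinearMap.pi fun t => (LinearMap.applyₗ (p t) : (Vec k →ₗ[k] (Fin r → k)) →ₗ[k] _) ∘ₗ G
  have hev : ∀ Z t, ev Z t = G Z (p t) := fun _ _ => rfl
  have hker : LinearMap.ker ev ≤ LinearMap.ker G := by
    intro Z hZ
    rw [LinearMap.mem_ker] at hZ ⊢
    refine LinearMap.ext_on (e30_span hP hgp) ?_
    rintro _ ⟨t, rfl⟩
    have := congrFun hZ t
    rw [hev] at this
    simpa using this
  let θ : (∀ t : P, L t) →ₗ[k] Module.Dual k (P → Fin r → k) :=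
    LinearMap.mk₂ k (fun w x => ∑ t, (w t : Fin r → k) ⬝ᵥ x t)
      (by intro w w' x; simp [add_dotProduct, Finset.sum_add_distrib])
      (by intro c w x; simp [Finset.mul_sum])
      (by intro w x x'; simp [dotProduct_add, Finset.sum_add_distrib])
      (by intro c w x; simp [Finset.mul_sum])
  have hθ : ∀ w x, θ w x = ∑ t, (w t : Fin r → k) ⬝ᵥ x t := fun _ _ => rfl
  have hmem : ∀ w, θ w ∈ (LinearMap.range ev).dualAnnihilator := by
    intro w
    rw [Submodule.mem_dualAnnihilator]
    rintro _ ⟨Z, rfl⟩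
    rw [hθ]
    refine Finset.sum_eq_zero fun t _ => ?_
    rw [hev]
    exact hL t t.2 _ (w t).2 Z
  have hinj : Function.Injective (θ.codRestrict _ hmem) := by
    refine (injective_iff_map_eq_zero _).mpr fun w hw => ?_
    have hw' : θ w = 0 := congrArg Subtype.val hw
    funext t
    refine Subtype.ext ?_
    funext i
    have h1 := LinearMap.congr_fun hw' (Pi.single t (Pi.single i 1))
    rw [hθ, Finset.sum_eq_single t] at h1
    · simpa using h1
    · intro s _ hs
      simp [Pi.single_eq_of_ne hs]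
    · intro h
      exact absurd (Finset.mem_univ t) h
  have h1 := LinearMap.finrank_le_finrank_of_injective hinj
  have h2 := Subspace.finrank_add_finrank_dualAnnihilator_eq (LinearMap.range ev)
  have h3 := LinearMap.finrank_range_add_finrank_ker ev
  have h4 := Submodule.finrank_mono hker
  have h5 : finrank k (∀ t : P, L t) = ∑ t ∈ P, finrank k (L t) := by
    rw [Module.finrank_pi_fintype, ← Finset.sum_coe_sort P]
  have h6 : finrank k (P → Fin r → k) = 4 * r := by
    rw [Module.finrank_pi_fintype]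
    simp [hP]
  omega

/-- **End game of type (3,0)** (`dim K = 9`, `G` injective into `Hom (V, k^3)`).
Recipe: `L y := {w | ∀ Z, w ⬝ᵥ G Z y = 0}`; by `dim_count` any at most four distinct points `t` of
`Q` have `∑ dim (L (p t)) ≤ 3` (enlarge a smaller set to four points of the union of the `T u`).
Take `T u ≠ T u'`, `W := range (Xf u - Xf u') ≠ ⊥` (hc).  `Xf u (p t) ∈ L (p t)` for `t ∈ T u`, and
`W ≤ L (p t)` for `t ∈ T u ∩ T u'` (hb).  As `rank (Xf u) ≥ 2` and `p '' T u` spans, two points
`t₁ t₂ ∈ T u` have `Xf u (p tᵢ) ≠ 0`; similarly for `u'`; four distinct bad points are impossible,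
so some `y ∈ T u ∩ T u'`.
* `dim W ≥ 2` : `T u ∩ T u' = {y}` (two such points give 4 > 3), and one more bad point in each of
  `T u`, `T u'` : `2 + 1 + 1 > 3`.
* `dim W = 1` : let `A# = {t ∈ T u ∪ T u' | Xf u (p t) ∉ W}` (on `T u'` : iff `Xf u' (p t) ∉ W`).
  Not four points of `T u ∪ T u'` outside `A#` (else `range (Xf u) ≤ W`), so
  `|A#| ≥ (8 - j) - 3`, `j = |T u ∩ T u'|`.  Each `t ∈ A#` has `dim L ≥ 1`, and `≥ 2` if
  `t ∈ T u ∩ T u'`; each `t ∈ T u ∩ T u'` has `dim L ≥ 1`.  If `(T u ∩ T u') ∪ A#` has at least four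
  points choose four of them: `≥ 4`; otherwise the sum is `≥ j + |A#| ≥ 5`. -/
theorem endgame30 [FiniteDimensional k K] [DecidableEq V] {p : V → Vec k} {Q X : Finset V}
    {T : V → Finset V} (gp : GenPos p (Q : Set V)) (cardT : ∀ u ∈ X, (T u).card = 4)
    (subT : ∀ u ∈ X, T u ⊆ Q) (G : K →ₗ[k] Vec k →ₗ[k] (Fin 3 → k))
    (hG : LinearMap.ker G = ⊥) (hK : finrank k K = 9) (Xf : V → Vec k →ₗ[k] (Fin 3 → k))
    (ha : ∀ u ∈ X, ∀ t ∈ T u, ∀ Z, Xf u (p t) ⬝ᵥ G Z (p t) = 0)
    (hb : ∀ u ∈ X, ∀ u' ∈ X, ∀ t ∈ T u, t ∈ T u' → ∀ y Z, (Xf u y - Xf u' y) ⬝ᵥ G Z (p t) = 0)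
    (hc : ∀ u ∈ X, ∀ u' ∈ X, Xf u = Xf u' → T u = T u')
    (hd : ∀ u ∈ X, 2 ≤ finrank k (LinearMap.range (Xf u)))
    (hne : ∃ u ∈ X, ∃ u' ∈ X, T u ≠ T u') : False := by
  classical
  obtain ⟨u, hu, u', hu', hT⟩ := hne
  have gpP : ∀ P : Finset V, P ⊆ Q → GenPos p (P : Set V) := fun P hP S hS hc =>
    gp S (hS.trans (by exact_mod_cast hP)) hc
  -- the spaces `L t`
  let L : V → Submodule k (Fin 3 → k) := fun t =>
    { carrier := {w | ∀ Z, w ⬝ᵥ G Z (p t) = 0}
      add_mem' := by intro a b h1 h2 Z; rw [add_dotProduct, h1 Z, h2 Z, add_zero]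
      zero_mem' := by intro Z; exact zero_dotProduct _
      smul_mem' := by intro c a h1 Z; rw [smul_dotProduct, h1 Z, smul_zero] }
  have memL : ∀ t w, w ∈ L t ↔ ∀ Z, w ⬝ᵥ G Z (p t) = 0 := fun _ _ => Iff.rfl
  let d : V → ℕ := fun t => finrank k (L t)
  have four : ∀ P ⊆ Q, P.card = 4 → ∑ t ∈ P, d t ≤ 3 := by
    intro P hPQ hP
    have h := dim_count G hP (gpP P hPQ) L (fun t _ w hw Z => hw Z)
    rw [hG, finrank_bot, hK] at h
    show ∑ t ∈ P, finrank k (L t) ≤ 3
    omega
  set Y : Finset V := T u ∪ T u' with hY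
  have hYQ : Y ⊆ Q := Finset.union_subset (subT u hu) (subT u' hu')
  have hY4 : 4 ≤ Y.card := by
    rw [← cardT u hu]
    exact Finset.card_le_card Finset.subset_union_left
  have three : ∀ S ⊆ Y, (∀ t ∈ S, 1 ≤ d t) → ∑ t ∈ S, d t ≤ 3 := by
    intro S hS h1
    by_cases h4 : S.card ≤ 4
    · obtain ⟨P, hSP, hPY, hP⟩ := Finset.exists_subsuperset_card_eq hS h4 hY4
      exact (Finset.sum_le_sum_of_subset hSP).trans (four P (hPY.trans hYQ) hP)
    · obtain ⟨P, hPS, hP⟩ := Finset.exists_subset_card_eq (s := S) (n := 4) (by omega)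
      have h2 := four P ((hPS.trans hS).trans hYQ) hP
      have h3 : ∑ _t ∈ P, 1 ≤ ∑ t ∈ P, d t := Finset.sum_le_sum fun t ht => h1 t (hPS ht)
      rw [Finset.sum_const, hP] at h3
      simp at h3
      omega
  have dpos : ∀ t w, w ∈ L t → w ≠ 0 → 1 ≤ d t := by
    intro t w hw hw0
    by_contra hcon
    have h0 : finrank k (L t) = 0 := by
      show d t = 0
      omega
    rw [Submodule.finrank_eq_zero] at h0
    rw [h0, Submodule.mem_bot] at hw
    exact hw0 hw
  have la : ∀ u ∈ X, ∀ t ∈ T u, Xf u (p t) ∈ L t := fun u hu t ht => ha u hu t ht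
  -- the nonzero points
  have two : ∀ u ∈ X, 2 ≤ ((T u).filter fun t => Xf u (p t) ≠ 0).card := by
    intro u hu
    have h1 : LinearMap.range (Xf u) ≤ Submodule.span k
        ((((T u).filter fun t => Xf u (p t) ≠ 0).image fun t => Xf u (p t) : Finset (Fin 3 → k)) :
          Set (Fin 3 → k)) := by
      rw [LinearMap.range_eq_map, ← e30_span (cardT u hu) (gpP _ (subT u hu)),
        Submodule.map_span, Submodule.span_le]
      rintro _ ⟨_, ⟨t, rfl⟩, rfl⟩
      by_cases h0 : Xf u (p t) = 0
      · rw [h0]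
        exact Submodule.zero_mem _
      · refine Submodule.subset_span ?_
        simp only [Finset.coe_image, Set.mem_image, Finset.mem_coe, Finset.mem_filter]
        exact ⟨t, ⟨t.2, h0⟩, rfl⟩
    have h2 := Submodule.finrank_mono h1
    have h3 : finrank k (Submodule.span k
        ((((T u).filter fun t => Xf u (p t) ≠ 0).image fun t => Xf u (p t) : Finset (Fin 3 → k)) :
          Set (Fin 3 → k))) ≤ (((T u).filter fun t => Xf u (p t) ≠ 0).image
            fun t => Xf u (p t)).card := finrank_span_finset_le_card (R := k) _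
    have h4 := Finset.card_image_le (s := (T u).filter fun t => Xf u (p t) ≠ 0)
      (f := fun t => Xf u (p t))
    have h5 := hd u hu
    omega
  set δ : Vec k →ₗ[k] (Fin 3 → k) := Xf u - Xf u' with hδ
  have hδ0 : δ ≠ 0 := fun h => hT (hc u hu u' hu' (sub_eq_zero.mp h))
  set W := LinearMap.range δ with hW
  have hWL : ∀ t ∈ T u, t ∈ T u' → W ≤ L t := by
    rintro t ht ht' _ ⟨y, rfl⟩ Z
    exact hb u hu u' hu' t ht ht' y Z
  have hW1 : 1 ≤ finrank k W := by
    by_contra hcon
    have h0 : finrank k W = 0 := by omega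
    rw [Submodule.finrank_eq_zero, hW, LinearMap.range_eq_bot] at h0
    exact hδ0 h0
  have hdW : ∀ t ∈ T u, t ∈ T u' → finrank k W ≤ d t := fun t ht ht' =>
    Submodule.finrank_mono (hWL t ht ht')
  by_cases h2 : 2 ≤ finrank k W
  · -- the case of dimension at least two
    set B1 := (T u).filter fun t => Xf u (p t) ≠ 0 with hB1
    set B2 := (T u').filter fun t => Xf u' (p t) ≠ 0 with hB2
    have h3 : ∀ t ∈ B1 ∪ B2, (if t ∈ B1 then 1 else 0) + (if t ∈ B2 then 1 else 0) ≤ d t ∧
        1 ≤ d t := by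
      intro t ht
      have k1 : t ∈ B1 → 1 ≤ d t := fun h =>
        dpos t _ (la u hu t (Finset.mem_filter.mp h).1) (Finset.mem_filter.mp h).2
      have k2 : t ∈ B2 → 1 ≤ d t := fun h =>
        dpos t _ (la u' hu' t (Finset.mem_filter.mp h).1) (Finset.mem_filter.mp h).2
      have k3 : t ∈ B1 → t ∈ B2 → 2 ≤ d t := fun h h' =>
        h2.trans (hdW t (Finset.mem_filter.mp h).1 (Finset.mem_filter.mp h').1)
      rw [Finset.mem_union] at ht
      by_cases h : t ∈ B1 <;> by_cases h' : t ∈ B2 <;> simp only [h, h', if_true, if_false]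
      · have := k3 h h'
        omega
      · have := k1 h
        omega
      · have := k2 h'
        omega
      · simp [h, h'] at ht
    have h4 := three (B1 ∪ B2) (Finset.union_subset_union (Finset.filter_subset _ _)
      (Finset.filter_subset _ _)) fun t ht => (h3 t ht).2
    have h5 : ∑ t ∈ B1 ∪ B2, ((if t ∈ B1 then 1 else 0) + (if t ∈ B2 then 1 else 0)) ≤
        ∑ t ∈ B1 ∪ B2, d t := Finset.sum_le_sum fun t ht => (h3 t ht).1
    rw [Finset.sum_add_distrib, Finset.sum_ite_mem, Finset.sum_ite_mem,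
      Finset.union_inter_cancel_left, Finset.union_inter_cancel_right] at h5
    simp only [Finset.sum_const, smul_eq_mul, mul_one] at h5
    have h6 : 2 ≤ B1.card := two u hu
    have h7 : 2 ≤ B2.card := two u' hu'
    omega
  · -- the case of dimension one
    set I := T u ∩ T u' with hI
    set Z := Y.filter fun t => Xf u (p t) ∉ W with hZ
    have hx : ∀ t, Xf u' (p t) ∈ W ↔ Xf u (p t) ∈ W := by
      intro t
      have h3 : δ (p t) ∈ W := ⟨p t, rfl⟩
      have h4 : Xf u (p t) = Xf u' (p t) + δ (p t) := by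
        rw [hδ, LinearMap.sub_apply]
        abel
      rw [h4]
      exact ⟨fun h => W.add_mem h h3, fun h => by simpa using W.sub_mem h h3⟩
    have hZ1 : ∀ t ∈ Z, 1 ≤ d t := by
      intro t ht
      obtain ⟨h3, h4⟩ := Finset.mem_filter.mp ht
      rcases Finset.mem_union.mp h3 with h5 | h5
      · exact dpos t _ (la u hu t h5) fun h => h4 (h ▸ W.zero_mem)
      · refine dpos t _ (la u' hu' t h5) fun h => h4 ?_
        rw [← hx, h]
        exact W.zero_mem
    have hI1 : ∀ t ∈ I, 1 ≤ d t := fun t ht =>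
      hW1.trans (hdW t (Finset.mem_inter.mp ht).1 (Finset.mem_inter.mp ht).2)
    have hIZ : ∀ t ∈ I, t ∈ Z → 2 ≤ d t := by
      intro t ht htZ
      have h3 := hWL t (Finset.mem_inter.mp ht).1 (Finset.mem_inter.mp ht).2
      have h4 : W < L t := by
        refine lt_of_le_of_ne h3 fun h => (Finset.mem_filter.mp htZ).2 ?_
        rw [h]
        exact la u hu t (Finset.mem_inter.mp ht).1
      have h5 := Submodule.finrank_lt_finrank_of_lt h4
      show 2 ≤ finrank k (L t)
      omega
    have h3 : ∀ t ∈ I ∪ Z, (if t ∈ I then 1 else 0) + (if t ∈ Z then 1 else 0) ≤ d t ∧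
        1 ≤ d t := by
      intro t ht
      rw [Finset.mem_union] at ht
      by_cases h : t ∈ I <;> by_cases h' : t ∈ Z <;> simp only [h, h', if_true, if_false]
      · have := hIZ t h h'
        omega
      · have := hI1 t h
        omega
      · have := hZ1 t h'
        omega
      · simp [h, h'] at ht
    have h4 := three (I ∪ Z) (Finset.union_subset
      (Finset.inter_subset_left.trans Finset.subset_union_left) (Finset.filter_subset _ _))
      fun t ht => (h3 t ht).2
    have h5 : ∑ t ∈ I ∪ Z, ((if t ∈ I then 1 else 0) + (if t ∈ Z then 1 else 0)) ≤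
        ∑ t ∈ I ∪ Z, d t := Finset.sum_le_sum fun t ht => (h3 t ht).1
    rw [Finset.sum_add_distrib, Finset.sum_ite_mem, Finset.sum_ite_mem,
      Finset.union_inter_cancel_left, Finset.union_inter_cancel_right] at h5
    simp only [Finset.sum_const, smul_eq_mul, mul_one] at h5
    have h6 : (Y.filter fun t => ¬ Xf u (p t) ∉ W).card ≤ 3 := by
      by_contra hcon
      obtain ⟨P, hPS, hP⟩ := Finset.exists_subset_card_eq
        (s := Y.filter fun t => ¬ Xf u (p t) ∉ W) (n := 4) (by omega)
      have hPQ : P ⊆ Q := (hPS.trans (Finset.filter_subset _ _)).trans hYQ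
      have h7 : LinearMap.range (Xf u) ≤ W := by
        rw [LinearMap.range_eq_map, ← e30_span hP (gpP _ hPQ),
          Submodule.map_span, Submodule.span_le]
        rintro _ ⟨_, ⟨t, rfl⟩, rfl⟩
        exact not_not.mp (Finset.mem_filter.mp (hPS t.2)).2
      have h8 := Submodule.finrank_mono h7
      have h9 := hd u hu
      omega
    have h7 := Finset.card_filter_add_card_filter_not (s := Y) (fun t => Xf u (p t) ∉ W)
    have h8 := Finset.card_union_add_card_inter (T u) (T u')
    rw [cardT u hu, cardT u' hu'] at h8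
    have h9 : Z.card = (Y.filter fun t => Xf u (p t) ∉ W).card := rfl
    have h10 : Y.card = (T u ∪ T u').card := rfl
    have h11 : I.card = (T u ∩ T u').card := rfl
    omega

end GR
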