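import Pool.Agent.Lib.GR.M1Defs
import Pool.Agent.Lib.GR.M1E30

/-!
# M1: the common kernel and the end game of type (2,0)
-/

set_option linter.unusedSectionVars false

namespace GR

open Filter Module

open scoped Matrix

variable {k : Type*} [Field k] [Infinite k] {V : Type*} [DecidableEq V]
  {K : Type*} [AddCommGroup K] [Module k K]
  {p : V → Vec k} {X O Q : Finset V} {T : V → Finset V} {v : V}
  {z : V → K →ₗ[k] Vec k} {B : V → K →ₗ[k] Vec k →ₗ[k] Vec k} {m : ℕ}

private lemma finrank_NR_aux [FiniteDimensional k K] (h : Loc p X O Q T v z B m)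
    {S : Submodule k (Vec k →ₗ[k] Vec k)} (hS : ∀ Z ∈ NR p X O v z B, B v Z ∈ S) :
    finrank k (NR p X O v z B) ≤ finrank k S := by
  let f : NR p X O v z B →ₗ[k] S :=
    ((B v).domRestrict (NR p X O v z B)).codRestrict S fun Z => hS Z.1 Z.2
  have hf : Function.Injective f := by
    refine (injective_iff_map_eq_zero f).mpr ?_
    rintro ⟨Z, hZ⟩ h0
    have h0' : B v Z = 0 := congrArg Subtype.val h0
    obtain ⟨h1, h2⟩ := mem_NR.mp hZ
    refine Subtype.ext (h.inj Z (fun u hu => by rw [h1 u hu, h0']) fun x hx => ?_)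
    refine dotProduct_eq_zero _ fun y => ?_
    have h3 := h2 x hx y
    rw [h0', LinearMap.zero_apply, zero_dotProduct, zero_add] at h3
    exact h3
  exact LinearMap.finrank_le_finrank_of_injective hf

/-- **The common kernel**: its values are quadrics through many points. -/
theorem Loc.finrank_NR_le [FiniteDimensional k K] (h : Loc p X O Q T v z B m) (hO : O.card = 2)
    {u u' : V} (hu : u ∈ X) (hu' : u' ∈ X) :
    finrank k (NR p X O v z B) ≤ (T u ∩ T u').card := by
  have hcard := Finset.card_union_add_card_inter (T u) (T u')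
  rw [h.cardT u hu, h.cardT u' hu'] at hcard
  have hvan : ∀ Z ∈ NR p X O v z B, ∀ t ∈ T u ∪ T u', B v Z (p t) = z t Z := by
    intro Z hZ t ht
    rcases Finset.mem_union.mp ht with ht | ht
    · rw [← (mem_NR.mp hZ).1 u hu, h.eqB u hu t ht]
    · rw [← (mem_NR.mp hZ).1 u' hu', h.eqB u' hu' t ht]
  have hsub : T u ∪ T u' ⊆ Q := Finset.union_subset (h.subT u hu) (h.subT u' hu')
  by_cases hd : ∃ x ∈ O, x ∈ T u ∪ T u'
  · obtain ⟨x, hxO, hxT⟩ := hd
    have hP : (T u ∪ T u').erase x ⊆ Q := (Finset.erase_subset _ _).trans hsub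
    have h1 := h.quadY x (h.subO hxO) ((T u ∪ T u').erase x) hP (Finset.notMem_erase _ _)
    have h2 : finrank k (NR p X O v z B) ≤
        finrank k (VanAt (SymKer k (p x)) p ((T u ∪ T u').erase x)) := by
      refine finrank_NR_aux h fun Z hZ => ?_
      refine mem_VanAt.mpr ⟨mem_SymKer.mpr ⟨h.symm Z, ?_⟩, fun t ht => ?_⟩
      · refine dotProduct_eq_zero _ fun y => ?_
        have h3 := (mem_NR.mp hZ).2 x hxO y
        have h4 := mem_SymSub.mp (h.symm Z) y (p x)
        have h5 := hvan Z hZ x hxT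
        rw [← h5, h4] at h3
        have h6 : (2 : k) * (B v Z (p x) ⬝ᵥ y) = 0 := by linear_combination h3
        exact (mul_eq_zero.mp h6).resolve_left h.two
      · have ht' := Finset.mem_of_mem_erase ht
        rw [hvan Z hZ t ht']
        exact h.loop t (hsub ht') Z
    have h3 := Finset.card_erase_of_mem hxT
    omega
  · push Not at hd
    have hdisj : Disjoint (T u ∪ T u') O :=
      Finset.disjoint_left.mpr fun t ht htO => hd t htO ht
    have hcard2 := Finset.card_union_of_disjoint hdisj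
    have hP : (T u ∪ T u') ∪ O ⊆ Q := Finset.union_subset hsub h.subO
    have h1 := h.quad ((T u ∪ T u') ∪ O) hP
    have h2 : finrank k (NR p X O v z B) ≤
        finrank k (VanAt (SymSub k) p ((T u ∪ T u') ∪ O)) := by
      refine finrank_NR_aux h fun Z hZ => ?_
      refine mem_VanAt.mpr ⟨h.symm Z, fun t ht => ?_⟩
      rcases Finset.mem_union.mp ht with ht | ht
      · rw [hvan Z hZ t ht]
        exact h.loop t (hsub ht) Z
      · have h3 := (mem_NR.mp hZ).2 t ht (p t)
        rw [h.loop t (h.subO ht) Z, add_zero] at h3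
        exact h3
    omega

/-- **End game of type (2,0)**. -/
theorem Loc.endgame20 [FiniteDimensional k K] (h : Loc p X O Q T v z B m) (hK : finrank k K = 9)
    (hO : O.card = 2) (hne : ∃ u ∈ X, ∃ u' ∈ X, T u ≠ T u')
    (G : K →ₗ[k] Vec k →ₗ[k] (Fin 2 → k)) (χ : V → Fin 2 → Vec k) (γ : V → Fin 2 → k)
    (hB : ∀ u ∈ X, ∀ Z y, B u Z y = B v Z y + ∑ a, G Z y a • χ u a)
    (hR : ∀ x ∈ O, ∀ Z y, B v Z y ⬝ᵥ p x + z x Z ⬝ᵥ y = ∑ a, G Z y a * γ x a) : False := by
  obtain ⟨u, hu, u', hu', hT⟩ := hne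
  -- the kernel of `G`
  have hker : LinearMap.ker G ≤ NR p X O v z B := by
    intro Z hZ
    rw [LinearMap.mem_ker] at hZ
    refine mem_NR.mpr ⟨fun u hu => ?_, fun x hx y => ?_⟩
    · refine LinearMap.ext fun y => ?_
      rw [hB u hu, hZ]
      simp
    · rw [hR x hx, hZ]
      simp
  have h1 := (Submodule.finrank_mono hker).trans (h.finrank_NR_le hO hu hu')
  -- a nonzero `w`
  have hw : ∃ i : Fin 4, ∃ a : Fin 2, (χ u a - χ u' a) i ≠ 0 := by
    by_contra hcon
    push Not at hcon
    refine hT (h.clone u hu u' hu' fun Z => LinearMap.ext fun y => ?_)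
    rw [hB u hu, hB u' hu']
    congr 1
    refine Finset.sum_congr rfl fun a _ => ?_
    have : χ u a = χ u' a := by
      rw [← sub_eq_zero]
      funext i
      exact hcon i a
    rw [this]
  obtain ⟨i, a₀, ha₀⟩ := hw
  set w : Fin 2 → k := fun a => (χ u a - χ u' a) i with hw
  have hw0 : w ≠ 0 := fun h0 => ha₀ (congrFun h0 a₀)
  have hwG : ∀ t ∈ T u ∩ T u', ∀ Z, w ⬝ᵥ G Z (p t) = 0 := by
    intro t ht Z
    obtain ⟨ht1, ht2⟩ := Finset.mem_inter.mp ht
    have e1 := h.eqB u hu t ht1 Z
    have e2 := h.eqB u' hu' t ht2 Z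
    rw [hB u hu] at e1
    rw [hB u' hu'] at e2
    have e3 : ∑ a, G Z (p t) a • χ u a = ∑ a, G Z (p t) a • χ u' a :=
      add_left_cancel (e1.trans e2.symm)
    have e4 := congrFun e3 i
    simp only [Finset.sum_apply, Pi.smul_apply, smul_eq_mul] at e4
    have e5 : w ⬝ᵥ G Z (p t) = ∑ a, G Z (p t) a * χ u a i - ∑ a, G Z (p t) a * χ u' a i := by
      rw [← Finset.sum_sub_distrib]
      refine Finset.sum_congr rfl fun a _ => ?_
      simp only [hw, Pi.sub_apply]
      ring
    rw [e5, e4, sub_self]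
  let L : V → Submodule k (Fin 2 → k) := fun t =>
    if t ∈ T u ∩ T u' then Submodule.span k {w} else ⊥
  have hL1 : ∀ t ∈ T u ∩ T u', finrank k (L t) = 1 := by
    intro t ht
    have : L t = Submodule.span k {w} := if_pos ht
    rw [this]
    exact finrank_span_singleton hw0
  have hcount := dim_count G (h.cardT u hu) (h.gp.mono (by exact_mod_cast h.subT u hu)) L
    (by
      intro t ht w' hw' Z
      by_cases htt : t ∈ T u ∩ T u'
      · have hLt : L t = Submodule.span k {w} := if_pos htt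
        rw [hLt] at hw'
        obtain ⟨c, rfl⟩ := Submodule.mem_span_singleton.mp hw'
        rw [smul_dotProduct, hwG t htt Z, smul_zero]
      · have hLt : L t = ⊥ := if_neg htt
        rw [hLt] at hw'
        rw [(Submodule.mem_bot k).mp hw', zero_dotProduct])
  have hsum : (T u ∩ T u').card ≤ ∑ t ∈ T u, finrank k (L t) := by
    calc (T u ∩ T u').card = ∑ t ∈ T u ∩ T u', finrank k (L t) := by
          rw [Finset.sum_congr rfl hL1]
          simp
      _ ≤ ∑ t ∈ T u, finrank k (L t) :=
          Finset.sum_le_sum_of_subset Finset.inter_subset_left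
  omega

end GR
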