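import Pool.Agent.Lib.GR.M1Defs

/-!
# M1: the hyperplane case (e = 4)
-/

set_option linter.unusedSectionVars false

namespace GR

open Filter Module

open scoped Matrix

variable {k : Type*} [Field k] [Infinite k] {V : Type*}
  {K : Type*} [AddCommGroup K] [Module k K]

/-- a covector in one coordinate -/
private def fcov (a : Fin 2) (g : Vec k →ₗ[k] k) : Vec k →ₗ[k] (Fin 2 → k) :=
  (LinearMap.single k (fun _ : Fin 2 => k) a).comp g

private lemma fcov_apply (a : Fin 2) (g : Vec k →ₗ[k] k) (y : Vec k) :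
    fcov a g y = Pi.single a (g y) := rfl

private lemma fcov_add (a : Fin 2) (g g' : Vec k →ₗ[k] k) :
    fcov a (g + g') = fcov a g + fcov a g' := by
  unfold fcov
  rw [LinearMap.comp_add]

private lemma m1h_polyLine (B : Vec k →ₗ[k] Vec k) : PolyLine k (fun x : Vec k => B x ⬝ᵥ x) := by
  refine PolyLine.sum (f := fun i (x : Vec k) => (B x) i * x i) Finset.univ
    fun i _ => PolyLine.mul ?_ ?_
  · exact PolyLine.linear ((LinearMap.proj i).comp B)
  · exact PolyLine.linear (LinearMap.proj i : Vec k →ₗ[k] k)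

/-- `G : K ≃ Hom (V, k^2)` (dimension 8) and `h Z y ⬝ᵥ y` vanishes whenever `G Z y = 0`.
With `h Z (p t) ⬝ᵥ p t = 0` at a basis: `h = 0`. -/
theorem endgameH [FiniteDimensional k K] (h2 : (2 : k) ≠ 0) {p : V → Vec k} {P : Finset V}
    (hP : P.card = 4) (hgp : GenPos p (P : Set V)) (G : K →ₗ[k] Vec k →ₗ[k] (Fin 2 → k))
    (hG : LinearMap.ker G = ⊥) (hK : finrank k K = 8) (h : K →ₗ[k] Vec k →ₗ[k] Vec k)
    (hs : ∀ Z, h Z ∈ SymSub k)
    (hv : ∀ᶠ y in gen k (Vec k), ∀ Z, G Z y = 0 → h Z y ⬝ᵥ y = 0)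
    (ht : ∀ t ∈ P, ∀ Z, h Z (p t) ⬝ᵥ p t = 0) : ∀ Z, h Z = 0 := by
  classical
  -- surjectivity
  have hsurj : Function.Surjective G := by
    have h1 : finrank k K = finrank k (Vec k →ₗ[k] (Fin 2 → k)) := by
      rw [hK, Module.finrank_linearMap]
      simp
    exact (LinearMap.injective_iff_surjective_of_finrank_eq_finrank h1).mp
      (LinearMap.ker_eq_bot.mp hG)
  have hinj : ∀ Z Z', G Z = G Z' → Z = Z' := fun Z Z' e => LinearMap.ker_eq_bot.mp hG e
  -- the proportionality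
  have hprop : ∀ a g g' Z Z', G Z = fcov a g → G Z' = fcov a g' → ∀ x,
      g' x * (h Z x ⬝ᵥ x) = g x * (h Z' x ⬝ᵥ x) := by
    intro a g g' Z Z' hZ hZ' x
    rw [← sub_eq_zero]
    refine PolyLine.eq_zero_of_eventually (k := k)
      (f := fun x : Vec k => g' x * (h Z x ⬝ᵥ x) - g x * (h Z' x ⬝ᵥ x))
      (((PolyLine.linear g').mul (m1h_polyLine _)).sub
        ((PolyLine.linear g).mul (m1h_polyLine _))) ?_ x
    filter_upwards [hv] with y hy
    have h1 := hy (g' y • Z - g y • Z') (by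
      rw [map_sub, map_smul, map_smul, hZ, hZ', LinearMap.sub_apply, LinearMap.smul_apply,
        LinearMap.smul_apply, fcov_apply, fcov_apply, ← Pi.single_smul, ← Pi.single_smul,
        smul_eq_mul, smul_eq_mul, mul_comm (g' y), sub_self])
    rw [map_sub, map_smul, map_smul, LinearMap.sub_apply, LinearMap.smul_apply,
      LinearMap.smul_apply, sub_dotProduct, smul_dotProduct, smul_dotProduct, smul_eq_mul,
      smul_eq_mul] at h1
    exact h1
  -- vanishing on the kernel
  have hker : ∀ a g Z, G Z = fcov a g → ∀ y, g y = 0 → h Z y ⬝ᵥ y = 0 := by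
    intro a g Z hZ y hy
    by_cases hy0 : y = 0
    · rw [hy0]; simp
    · obtain ⟨g', hg'⟩ : ∃ g' : Vec k →ₗ[k] k, g' y ≠ 0 := by
        obtain ⟨i, hi⟩ := Function.ne_iff.mp hy0
        exact ⟨LinearMap.proj i, hi⟩
      obtain ⟨Z', hZ'⟩ := hsurj (fcov a g')
      have h1 := hprop a g g' Z Z' hZ hZ' y
      rw [hy, zero_mul] at h1
      exact (mul_eq_zero.mp h1).resolve_left hg'
  -- the products of two basis points
  have hpair : ∀ a g Z, G Z = fcov a g → ∀ s ∈ P, ∀ t ∈ P, s ≠ t → h Z (p s) ⬝ᵥ p t = 0 := by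
    intro a g Z hZ s hs' t ht' hst
    -- a covector with value one at both points
    obtain ⟨φ, hφ⟩ := exists_functional (hgp P subset_rfl hP.le) (fun _ : P => (1 : k))
    have hφs : φ (p s) = 1 := hφ ⟨s, hs'⟩
    have hφt : φ (p t) = 1 := hφ ⟨t, ht'⟩
    set c : k := g (p s + p t) / 2 with hc
    obtain ⟨Z1, hZ1⟩ := hsurj (fcov a (g - c • φ))
    obtain ⟨Z2, hZ2⟩ := hsurj (fcov a (c • φ))
    have hZ12 : Z = Z1 + Z2 := by
      refine hinj _ _ ?_
      rw [hZ, map_add, hZ1, hZ2, ← fcov_add, sub_add_cancel]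
    have e1 : h Z1 (p s) ⬝ᵥ p t = 0 := by
      have h3 := hker a _ Z1 hZ1 (p s + p t) (by
        rw [LinearMap.sub_apply, LinearMap.smul_apply, map_add φ, hφs, hφt, hc, smul_eq_mul]
        field_simp
        ring)
      rw [map_add, add_dotProduct, dotProduct_add, dotProduct_add, ht s hs' Z1, ht t ht' Z1,
        ← hs Z1 (p s) (p t)] at h3
      have h4 : (2 : k) * (h Z1 (p s) ⬝ᵥ p t) = 0 := by linear_combination h3
      exact (mul_eq_zero.mp h4).resolve_left h2
    have e2 : h Z2 (p s) ⬝ᵥ p t = 0 := by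
      have h3 := hker a _ Z2 hZ2 (p s - p t) (by
        rw [LinearMap.smul_apply, map_sub φ, hφs, hφt, sub_self, smul_zero])
      rw [map_sub, sub_dotProduct, dotProduct_sub, dotProduct_sub, ht s hs' Z2, ht t ht' Z2,
        ← hs Z2 (p s) (p t)] at h3
      have h4 : (2 : k) * (h Z2 (p s) ⬝ᵥ p t) = 0 := by linear_combination -h3
      exact (mul_eq_zero.mp h4).resolve_left h2
    rw [hZ12, map_add, LinearMap.add_apply, add_dotProduct, e1, e2, add_zero]
  have hzero : ∀ a g Z, G Z = fcov a g → h Z = 0 := by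
    intro a g Z hZ
    refine sym_eq_zero h2 (hs Z) fun x => ?_
    obtain ⟨c, rfl⟩ := hgp.spans hP.ge x
    rw [map_sum, sum_dotProduct]
    refine Finset.sum_eq_zero fun s hs' => ?_
    rw [dotProduct_sum]
    refine Finset.sum_eq_zero fun t ht' => ?_
    rw [map_smul, smul_dotProduct, dotProduct_smul]
    by_cases hst : s = t
    · subst hst
      rw [ht s hs' Z, smul_zero, smul_zero]
    · rw [hpair a g Z hZ s hs' t ht' hst, smul_zero, smul_zero]
  intro Z
  obtain ⟨Z0, hZ0⟩ := hsurj (fcov 0 ((LinearMap.proj 0).comp (G Z)))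
  obtain ⟨Z1, hZ1⟩ := hsurj (fcov 1 ((LinearMap.proj 1).comp (G Z)))
  have hZ : Z = Z0 + Z1 := by
    refine hinj _ _ ?_
    rw [map_add, hZ0, hZ1]
    refine LinearMap.ext fun y => ?_
    rw [LinearMap.add_apply, fcov_apply, fcov_apply]
    funext i
    fin_cases i <;> simp
  rw [hZ, map_add, hzero 0 _ Z0 hZ0, hzero 1 _ Z1 hZ1, add_zero]

end GR
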