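import Pool.Agent.Lib.GR.M1Dim
import Pool.Agent.Lib.GR.M1E30
import Pool.Agent.Lib.GR.M1E20
import Pool.Agent.Lib.GR.M1H
import Pool.Agent.Lib.GR.CImage

/-!
# M1: no vertex of degree seven with five type A neighbours, abstract form
-/

set_option linter.unusedSectionVars false

namespace GR

open Filter Module

open scoped Matrix

variable {k : Type*} [Field k] [Infinite k] {V : Type*} [DecidableEq V]
  {K : Type*} [AddCommGroup K] [Module k K]
  {p : V → Vec k} {X O Q : Finset V} {T : V → Finset V} {v : V}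
  {z : V → K →ₗ[k] Vec k} {B : V → K →ₗ[k] Vec k →ₗ[k] Vec k} {m : ℕ}

/-- All the conditions, as a linear map depending linearly on `y`. -/
def RL (p : V → Vec k) (X O : Finset V) (v : V) (z : V → K →ₗ[k] Vec k)
    (B : V → K →ₗ[k] Vec k →ₗ[k] Vec k) :
    Vec k →ₗ[k] K →ₗ[k] (X → Vec k) × (O → k) :=
  LinearMap.mk₂ k
    (fun y Z => (fun u => B u Z y - B v Z y, fun x => B v Z y ⬝ᵥ p x + z x Z ⬝ᵥ y))
    (by
      intro y y' Z
      refine Prod.ext (funext fun u => ?_) (funext fun x => ?_)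
      · simp only [map_add, Prod.fst_add, Pi.add_apply]; abel
      · simp only [map_add, add_dotProduct, dotProduct_add, Prod.snd_add, Pi.add_apply]; ring)
    (by
      intro c y Z
      refine Prod.ext (funext fun u => ?_) (funext fun x => ?_)
      · simp only [map_smul, Prod.smul_fst, Pi.smul_apply, smul_sub]
      · simp only [map_smul, smul_dotProduct, dotProduct_smul, Prod.smul_snd, Pi.smul_apply,
          smul_eq_mul]; ring)
    (by
      intro y Z Z'
      refine Prod.ext (funext fun u => ?_) (funext fun x => ?_)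
      · simp only [map_add, LinearMap.add_apply, Prod.fst_add, Pi.add_apply]; abel
      · simp only [map_add, LinearMap.add_apply, add_dotProduct, Prod.snd_add, Pi.add_apply]; ring)
    (by
      intro c y Z
      refine Prod.ext (funext fun u => ?_) (funext fun x => ?_)
      · simp only [map_smul, LinearMap.smul_apply, Prod.smul_fst, Pi.smul_apply, smul_sub]
      · simp only [map_smul, LinearMap.smul_apply, smul_dotProduct, Prod.smul_snd, Pi.smul_apply,
          smul_eq_mul]; ring)

lemma RL_fst (y : Vec k) (Z : K) (u : X) : (RL p X O v z B y Z).1 u = B u Z y - B v Z y := rfl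

lemma RL_snd (y : Vec k) (Z : K) (x : O) :
    (RL p X O v z B y Z).2 x = B v Z y ⬝ᵥ p x + z x Z ⬝ᵥ y := rfl

lemma mem_ker_RL {y : Vec k} {Z : K} :
    Z ∈ LinearMap.ker (RL p X O v z B y) ↔ Z ∈ KY p X O v z B y := by
  rw [LinearMap.mem_ker, mem_KY]
  constructor
  · intro h
    refine ⟨fun u hu => ?_, fun x hx => ?_⟩
    · have := congrFun (congrArg Prod.fst h) ⟨u, hu⟩
      rw [RL_fst] at this
      exact sub_eq_zero.mp this
    · have := congrFun (congrArg Prod.snd h) ⟨x, hx⟩
      rw [RL_snd] at this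
      exact this
  · rintro ⟨h1, h2⟩
    refine Prod.ext (funext fun u => ?_) (funext fun x => ?_)
    · rw [RL_fst]; exact sub_eq_zero.mpr (h1 u u.2)
    · rw [RL_snd]; exact h2 x x.2

lemma ker_RL (y : Vec k) : LinearMap.ker (RL p X O v z B y) = KY p X O v z B y := by
  ext Z; exact mem_ker_RL

lemma CY_le_KY (y : Vec k) : CY p X O v z B y ≤ KY p X O v z B y :=
  fun Z hZ => ⟨hZ.1, hZ.2.1⟩

lemma mem_NR_of_RL {Z : K} (h : ∀ y, RL p X O v z B y Z = 0) : Z ∈ NR p X O v z B := by
  refine ⟨fun u hu => ?_, fun x hx y => ?_⟩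
  · refine LinearMap.ext fun y => ?_
    exact (mem_ker_RL.mp (LinearMap.mem_ker.mpr (h y))).1 u hu
  · exact (mem_ker_RL.mp (LinearMap.mem_ker.mpr (h y))).2 x hx

/-- The codimension of `CY` in `KY` is at most one. -/
lemma finrank_KY_le [FiniteDimensional k K] (y : Vec k) :
    finrank k (KY p X O v z B y) ≤ finrank k (CY p X O v z B y) + 1 := by
  -- the functional `Z ↦ B v Z y ⬝ᵥ y`
  let f : KY p X O v z B y →ₗ[k] k :=
    { toFun := fun Z => B v Z y ⬝ᵥ y
      map_add' := fun Z Z' => by simp [add_dotProduct]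
      map_smul' := fun c Z => by simp [smul_dotProduct] }
  have h1 := LinearMap.finrank_range_add_finrank_ker f
  have h2 : finrank k (LinearMap.range f) ≤ 1 := by
    have := Submodule.finrank_le (LinearMap.range f)
    rwa [Module.finrank_self] at this
  have h3 : finrank k (LinearMap.ker f) ≤ finrank k (CY p X O v z B y) := by
    let g : LinearMap.ker f →ₗ[k] CY p X O v z B y :=
      LinearMap.codRestrict _ ((KY p X O v z B y).subtype ∘ₗ (LinearMap.ker f).subtype) (by
        rintro ⟨⟨Z, hZ⟩, hf⟩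
        exact ⟨hZ.1, hZ.2, LinearMap.mem_ker.mp hf⟩)
    refine LinearMap.finrank_le_finrank_of_injective (f := g) ?_
    intro a b hab
    have h := congrArg Subtype.val hab
    exact Subtype.ext (Subtype.ext h)
  omega

lemma polyLine_quadform (A : Vec k →ₗ[k] Vec k) : PolyLine k (fun y : Vec k => A y ⬝ᵥ y) := by
  have h : (fun y : Vec k => A y ⬝ᵥ y) = fun y => ∑ i, A y i * y i := rfl
  rw [h]
  refine PolyLine.sum _ fun i _ => ?_
  exact (PolyLine.linear (LinearMap.proj i ∘ₗ A)).mul (PolyLine.linear (LinearMap.proj i))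

lemma Loc.eq_zero_of_NR (h : Loc p X O Q T v z B m) {Z : K} (hZ : Z ∈ NR p X O v z B)
    (hq : ∀ᶠ y in gen k (Vec k), B v Z y ⬝ᵥ y = 0) : Z = 0 := by
  have h0 : ∀ y, B v Z y ⬝ᵥ y = 0 := (polyLine_quadform (B v Z)).eq_zero_of_eventually hq
  have hB : B v Z = 0 := sym_eq_zero h.two (h.symm Z) h0
  refine h.inj Z (fun u hu => by rw [hZ.1 u hu, hB]) fun x hx => ?_
  refine dotProduct_eq_zero _ fun y => ?_
  have := hZ.2 x hx y
  rw [hB] at this
  simpa using this

/-- a generic vanishing of all values puts a motion into the common kernel -/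
lemma RL_eq_zero_of_eventually {Z : K} (h : ∀ᶠ y in gen k (Vec k), RL p X O v z B y Z = 0) :
    ∀ y, RL p X O v z B y Z = 0 := by
  intro y
  have h1 : LinearMap.ker ((RL p X O v z B).flip Z) = ⊤ := by
    apply eq_top_of_eventuallyC
    filter_upwards [h] with y hy
    rw [LinearMap.mem_ker, LinearMap.flip_apply]
    exact hy
  have h2 : y ∈ LinearMap.ker ((RL p X O v z B).flip Z) := by rw [h1]; trivial
  rwa [LinearMap.mem_ker, LinearMap.flip_apply] at h2

section Main

variable [FiniteDimensional k K]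

lemma Loc.d1_cases (h : Loc p X O Q T v z B m) :
    (d1 (RL p X O v z B) = m + 1 ∧ ∀ᶠ y in gen k (Vec k), KY p X O v z B y = CY p X O v z B y) ∨
      d1 (RL p X O v z B) = m + 2 := by
  obtain ⟨y, hy1, hy2⟩ := ((eventually_d1 (RL p X O v z B)).and h.dimC).exists
  rw [ker_RL] at hy1
  have h1 := finrank_KY_le (p := p) (X := X) (O := O) (v := v) (z := z) (B := B) y
  have h2 := Submodule.finrank_mono (CY_le_KY (p := p) (X := X) (O := O) (v := v) (z := z)
    (B := B) y)
  have h3 : d1 (RL p X O v z B) = m + 1 ∨ d1 (RL p X O v z B) = m + 2 := by omega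
  rcases h3 with h3 | h3
  · left
    refine ⟨h3, ?_⟩
    filter_upwards [eventually_d1 (RL p X O v z B), h.dimC] with y hy1 hy2
    rw [ker_RL] at hy1
    exact (Submodule.eq_of_le_of_finrank_le (CY_le_KY y) (by omega)).symm
  · right; exact h3

/-- rank of the constant image -/
lemma finrank_range_RL {Y : Type*} [AddCommGroup Y] [Module k Y] (R : Vec k →ₗ[k] K →ₗ[k] Y) :
    ∀ᶠ y in gen k (Vec k), finrank k (LinearMap.range (R y)) + d1 R = finrank k K := by
  filter_upwards [eventually_d1 R] with y hy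
  have := LinearMap.finrank_range_add_finrank_ker (R y)
  omega

/-- if generic kernels span in pairs, there are coordinates -/
lemma exists_G {Y : Type*} [AddCommGroup Y] [Module k Y] (R : Vec k →ₗ[k] K →ₗ[k] Y) {r : ℕ}
    (hr : r + d1 R = finrank k K)
    (hp : ∀ᶠ w in gen k (Vec k × Vec k), LinearMap.ker (R w.1) ⊔ LinearMap.ker (R w.2) = ⊤) :
    ∃ (G : K →ₗ[k] Vec k →ₗ[k] (Fin r → k)) (c : Fin r → Y), LinearIndependent k c ∧
      ∀ Z y, R y Z = ∑ a, G Z y a • c a := by
  obtain ⟨y0, h0, h1⟩ := ((finrank_range_RL R).and (eventually_prod hp)).exists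
  have h0' : finrank k (LinearMap.range (R y0)) = r := by omega
  have h2 : ∀ᶠ y in gen k (Vec k), finrank k (LinearMap.range (R (y0 + y))) ≤ r := by
    filter_upwards [eventually_add_left (finrank_range_RL R) y0] with y hy
    omega
  exact exists_coord R h0' (const_image R h0' h2 h1)

/-- `G Z y = 0 ↔ R y Z = 0` -/
lemma G_eq_zero_iff {Y : Type*} [AddCommGroup Y] [Module k Y] {R : Vec k →ₗ[k] K →ₗ[k] Y} {r : ℕ}
    {G : K →ₗ[k] Vec k →ₗ[k] (Fin r → k)} {c : Fin r → Y} (hc : LinearIndependent k c)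
    (hG : ∀ Z y, R y Z = ∑ a, G Z y a • c a) (Z : K) (y : Vec k) : G Z y = 0 ↔ R y Z = 0 := by
  constructor
  · intro h
    rw [hG, h]
    simp
  · intro h
    rw [hG] at h
    exact funext (Fintype.linearIndependent_iff.mp hc _ h)

/-- **Case II** : `d1 = 7`. -/
theorem Loc.caseII (h : Loc p X O Q T v z B 5) (hK : finrank k K = 9)
    (hO : O.card = 2) (hne : ∃ u ∈ X, ∃ u' ∈ X, T u ≠ T u')
    (hd : d1 (RL p X O v z B) = 7) : False := by
  obtain ⟨u, hu, u', hu', huu⟩ := hne
  have hcard : (T u ∩ T u').card ≤ 3 := by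
    by_contra hcon
    have h1 : (T u ∩ T u') = T u := Finset.eq_of_subset_of_card_le Finset.inter_subset_left
      (by rw [h.cardT u hu]; omega)
    have h2 : (T u ∩ T u') = T u' := Finset.eq_of_subset_of_card_le Finset.inter_subset_right
      (by rw [h.cardT u' hu']; omega)
    exact huu (h1.symm.trans h2)
  have hν := (h.finrank_NR_le hO hu hu').trans hcard
  set R := RL p X O v z B with hR
  have h4 : d4 R ≤ finrank k (NR p X O v z B) := d4_le R fun Z hZ => mem_NR_of_RL hZ
  have h3 := four_d3_le R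
  have h2 := two_d2_le R
  have hp : ∀ᶠ w in gen k (Vec k × Vec k), LinearMap.ker (R w.1) ⊔ LinearMap.ker (R w.2) = ⊤ := by
    filter_upwards [eventually_pair R] with w hw
    apply Submodule.eq_top_of_finrank_eq
    have h5 := hw.2.2.2
    have h6 := Submodule.finrank_le (LinearMap.ker (R w.1) ⊔ LinearMap.ker (R w.2))
    omega
  obtain ⟨G, c, hc, hG⟩ := exists_G R (r := 2) (by omega) hp
  classical
  refine h.endgame20 hK hO ⟨u, hu, u', hu', huu⟩ G
    (fun w a => if hw : w ∈ X then (c a).1 ⟨w, hw⟩ else 0)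
    (fun x a => if hx : x ∈ O then (c a).2 ⟨x, hx⟩ else 0) ?_ ?_
  · intro w hw Z y
    have h5 := congrFun (congrArg Prod.fst (hG Z y)) ⟨w, hw⟩
    rw [hR, RL_fst] at h5
    have h6 : (∑ a, G Z y a • c a).1 ⟨w, hw⟩ = ∑ a, G Z y a • (c a).1 ⟨w, hw⟩ := by
      rw [Prod.fst_sum, Finset.sum_apply]; rfl
    rw [h6] at h5
    simp only [dif_pos hw]
    rw [← h5]; abel
  · intro x hx Z y
    have h5 := congrFun (congrArg Prod.snd (hG Z y)) ⟨x, hx⟩
    rw [hR, RL_snd] at h5
    have h6 : (∑ a, G Z y a • c a).2 ⟨x, hx⟩ = ∑ a, G Z y a • (c a).2 ⟨x, hx⟩ := by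
      rw [Prod.snd_sum, Finset.sum_apply]; rfl
    rw [h6] at h5
    simp only [dif_pos hx]
    simpa [smul_eq_mul] using h5

/-- the common kernel is trivial in case I -/
lemma Loc.RL_inj (h : Loc p X O Q T v z B m)
    (hKC : ∀ᶠ y in gen k (Vec k), KY p X O v z B y = CY p X O v z B y) {Z : K}
    (hZ : ∀ y, RL p X O v z B y Z = 0) : Z = 0 := by
  refine h.eq_zero_of_NR (mem_NR_of_RL hZ) ?_
  filter_upwards [hKC] with y hy
  have h1 : Z ∈ KY p X O v z B y := mem_ker_RL.mp (LinearMap.mem_ker.mpr (hZ y))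
  rw [hy] at h1
  exact h1.2.2

/-- **Purity**: the quadratic form of `u` has rank at least two in the coefficients. -/
theorem Loc.two_le_rank (h : Loc p X O Q T v z B 5) (hKC : ∀ᶠ y in gen k (Vec k), KY p X O v z B y = CY p X O v z B y)
    {r : ℕ} {G : K →ₗ[k] Vec k →ₗ[k] (Fin r → k)}
    (hiff : ∀ Z y, G Z y = 0 ↔ RL p X O v z B y Z = 0) {u : V} (hu : u ∈ X)
    (f : Vec k →ₗ[k] (Fin r → k)) (hf : ∀ Z y, B u Z y ⬝ᵥ y = f y ⬝ᵥ G Z y) :
    2 ≤ finrank k (LinearMap.range f) := by
  by_contra hlt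
  have hle : finrank k (LinearMap.range f) ≤ 1 := by omega
  -- `f y = l y • ω`
  obtain ⟨ω, hω⟩ : ∃ ω : Fin r → k, ∀ y, ∃ s : k, f y = s • ω := by
    rcases Nat.lt_or_ge 0 (finrank k (LinearMap.range f)) with h1 | h1
    · have h2 : finrank k (LinearMap.range f) = 1 := by omega
      obtain ⟨⟨w, hw⟩, -, hw2⟩ := finrank_eq_one_iff'.mp h2
      refine ⟨w, fun y => ?_⟩
      obtain ⟨s, hs⟩ := hw2 ⟨f y, ⟨y, rfl⟩⟩
      exact ⟨s, (congrArg Subtype.val hs).symm⟩
    · have h2 : LinearMap.range f = ⊥ := Submodule.finrank_eq_zero.mp (by omega)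
      refine ⟨0, fun y => ⟨0, ?_⟩⟩
      have h3 : f y ∈ LinearMap.range f := ⟨y, rfl⟩
      rw [h2, Submodule.mem_bot] at h3
      rw [h3, smul_zero]
  choose l hl using hω
  have hq : ∀ Z y, B u Z y ⬝ᵥ y = l y * (ω ⬝ᵥ G Z y) := by
    intro Z y
    rw [hf, hl, smul_dotProduct, smul_eq_mul]
  -- the values at the points of `T u`
  have hval : ∀ t ∈ T u, ∀ Z, f (p t) ⬝ᵥ G Z (p t) = 0 := by
    intro t ht Z
    rw [← hf, h.eqB u hu t ht]
    exact h.loop t (h.subT u hu ht) Z
  have hspan : ∀ᶠ y in gen k (Vec k), ∀ a ∈ T u, ∀ b ∈ T u, ∀ c ∈ T u,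
      y ∉ Submodule.span k (Set.range ![p a, p b, p c]) := by
    refine (Filter.eventually_all_finset _).mpr fun a _ => ?_
    refine (Filter.eventually_all_finset _).mpr fun b _ => ?_
    refine (Filter.eventually_all_finset _).mpr fun c _ => ?_
    apply eventually_notMemC
    intro htop
    have h1 := finrank_range_le_card (R := k) ![p a, p b, p c]
    rw [Set.finrank, htop, finrank_top, Module.finrank_fin_fun, Fintype.card_fin] at h1
    omega
  -- a generic point
  obtain ⟨y, hy1, hy2, hy3, hy4, hy5⟩ :=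
    (hKC.and (h.two_quad.and (h.dimC.and (h.pure.and hspan)))).exists
  have hGy : ∀ Z ∈ CY p X O v z B y, G Z y = 0 := by
    intro Z hZ
    rw [hiff]
    rw [← hy1] at hZ
    exact LinearMap.mem_ker.mp (mem_ker_RL.mpr hZ)
  classical
  by_cases hA : 1 < ((T u).filter fun t => f (p t) ≠ 0).card
  · obtain ⟨a, ha, b, hb, hab⟩ := Finset.one_lt_card.mp hA
    rw [Finset.mem_filter] at ha hb
    obtain ⟨c, hc⟩ : ((T u).erase a |>.erase b).Nonempty := by
      rw [← Finset.card_pos, Finset.card_erase_of_mem (Finset.mem_erase.mpr ⟨hab.symm, hb.1⟩),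
        Finset.card_erase_of_mem ha.1, h.cardT u hu]
      omega
    rw [Finset.mem_erase, Finset.mem_erase] at hc
    have hωz : ∀ t ∈ T u, f (p t) ≠ 0 → ∀ Z, ω ⬝ᵥ G Z (p t) = 0 := by
      intro t ht hft Z
      have h1 := hval t ht Z
      rw [hl, smul_dotProduct, smul_eq_mul] at h1
      refine (mul_eq_zero.mp h1).resolve_left fun h2 => hft ?_
      rw [hl, h2, zero_smul]
    -- the functional at the third point
    let φ : CY p X O v z B y →ₗ[k] k :=
      { toFun := fun Z => ω ⬝ᵥ G Z (p c)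
        map_add' := fun Z Z' => by simp [dotProduct_add]
        map_smul' := fun r Z => by simp [dotProduct_smul] }
    let S : Submodule k K := (LinearMap.ker φ).map (CY p X O v z B y).subtype
    have hS1 : finrank k S = finrank k (LinearMap.ker φ) :=
      LinearEquiv.finrank_eq (Submodule.equivMapOfInjective _
        (Submodule.injective_subtype _) _).symm
    have hS2 := LinearMap.finrank_range_add_finrank_ker φ
    have hS3 : finrank k (LinearMap.range φ) ≤ 1 := by
      have := Submodule.finrank_le (LinearMap.range φ)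
      rwa [Module.finrank_self] at this
    have hS4 : S ≤ CY p X O v z B y := by
      rintro _ ⟨Z, -, rfl⟩
      exact Z.2
    have hS5 := hy2 u hu S hS4 (by
      rintro _ ⟨⟨Z, hZC⟩, hZ, rfl⟩ x
      have hZ' : ω ⬝ᵥ G Z (p c) = 0 := LinearMap.mem_ker.mp hZ
      -- the linear form
      let g : Vec k →ₗ[k] k :=
        { toFun := fun x => ω ⬝ᵥ G Z x
          map_add' := fun x x' => by simp [dotProduct_add]
          map_smul' := fun r x => by simp [dotProduct_smul] }
      have hg0 : g = 0 := by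
        by_contra hg
        have h1 := LinearMap.finrank_range_add_finrank_ker g
        have h2 : LinearMap.range g = ⊤ := by
          rw [LinearMap.range_eq_top]
          exact LinearMap.surjective hg
        rw [h2, finrank_top, Module.finrank_self, Module.finrank_fin_fun] at h1
        have h3 : Submodule.span k (Set.range ![p a, p b, p c]) ≤ LinearMap.ker g := by
          rw [Submodule.span_le]
          rintro _ ⟨i, rfl⟩
          fin_cases i
          · exact hωz a ha.1 ha.2 Z
          · exact hωz b hb.1 hb.2 Z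
          · exact hZ'
        have h4 : finrank k (Submodule.span k (Set.range ![p a, p b, p c])) = 3 := by
          have h5 : LinearIndependent k ![p a, p b, p c] := by
            have h6 := h.gp {a, b, c} (by
              intro x hx
              simp only [Finset.coe_insert, Finset.coe_singleton, Set.mem_insert_iff,
                Set.mem_singleton_iff] at hx
              rcases hx with rfl | rfl | rfl
              · exact h.subT u hu ha.1
              · exact h.subT u hu hb.1
              · exact h.subT u hu hc.2.2) (Finset.card_le_three.trans (by norm_num))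
            let e : Fin 3 → ({a, b, c} : Finset V) :=
              ![⟨a, by simp⟩, ⟨b, by simp⟩, ⟨c, by simp⟩]
            have he : Function.Injective e := by
              intro i j hij
              have h7 := congrArg Subtype.val hij
              fin_cases i <;> fin_cases j <;> first
                | rfl
                | exact absurd h7 hab
                | exact absurd h7 hab.symm
                | exact absurd h7 hc.1
                | exact absurd h7.symm hc.1
                | exact absurd h7 hc.2.1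
                | exact absurd h7.symm hc.2.1
            have h8 := h6.comp e he
            have h9 : (fun v : ({a, b, c} : Finset V) => p v) ∘ e = ![p a, p b, p c] := by
              ext i : 1
              fin_cases i <;> rfl
            rwa [h9] at h8
          rw [finrank_span_eq_card h5, Fintype.card_fin]
        have h5 : Submodule.span k (Set.range ![p a, p b, p c]) = LinearMap.ker g :=
          Submodule.eq_of_le_of_finrank_le h3 (by omega)
        apply hy5 a ha.1 b hb.1 c hc.2.2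
        rw [h5, LinearMap.mem_ker]
        show ω ⬝ᵥ G Z y = 0
        rw [hGy Z hZC]
        simp
      show B u Z x ⬝ᵥ x = 0
      rw [hq]
      have h2 : ω ⬝ᵥ G Z x = 0 := LinearMap.congr_fun hg0 x
      rw [h2, mul_zero])
    omega
  · have hcard : 3 ≤ ((T u).filter fun t => ¬ f (p t) ≠ 0).card := by
      have h1 := Finset.card_filter_add_card_filter_not (s := T u) (fun t => f (p t) ≠ 0)
      rw [h.cardT u hu] at h1
      omega
    obtain ⟨S3, hS3, hS3c⟩ := Finset.exists_subset_card_eq hcard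
    obtain ⟨a, b, c, hab, hac, hbc, rfl⟩ := Finset.card_eq_three.mp hS3c
    have ha := hS3 (Finset.mem_insert_self a _)
    have hb := hS3 (Finset.mem_insert_of_mem (Finset.mem_insert_self b _))
    have hc := hS3 (Finset.mem_insert_of_mem (Finset.mem_insert_of_mem
      (Finset.mem_singleton_self c)))
    rw [Finset.mem_filter, not_not] at ha hb hc
    obtain ⟨Z, -, hZ⟩ := hy4 u hu a ha.1 b hb.1 c hc.1 hab hac hbc
    have hpol : ∀ s ∈ T u, ∀ t ∈ T u, f (p s) = 0 → f (p t) = 0 →
        z s Z ⬝ᵥ p t + z t Z ⬝ᵥ p s = 0 := by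
      intro s hs t ht hfs hft
      have h1 : B u Z (p s + p t) ⬝ᵥ (p s + p t) = 0 := by
        rw [hf, map_add, hfs, hft, add_zero, zero_dotProduct]
      have h2 : B u Z (p s) ⬝ᵥ p s = 0 := by rw [hf, hfs, zero_dotProduct]
      have h3 : B u Z (p t) ⬝ᵥ p t = 0 := by rw [hf, hft, zero_dotProduct]
      rw [map_add, add_dotProduct, dotProduct_add, dotProduct_add] at h1
      rw [← h.eqB u hu s hs, ← h.eqB u hu t ht]
      linear_combination h1 - h2 - h3
    exact hZ ⟨hpol a ha.1 b hb.1 ha.2 hb.2, hpol a ha.1 c hc.1 ha.2 hc.2,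
      hpol b hb.1 c hc.1 hb.2 hc.2⟩

/-- **Hyperplane case.** -/
theorem Loc.caseH (h : Loc p X O Q T v z B 5) (hK : finrank k K = 9)
    (hKC : ∀ᶠ y in gen k (Vec k), KY p X O v z B y = CY p X O v z B y)
    (hd1 : d1 (RL p X O v z B) = 6) (hd2 : d2 (RL p X O v z B) = 4)
    (hd3 : d3 (RL p X O v z B) = 2) : False := by
  set R := RL p X O v z B with hR
  have hle := eventually_prod (ker_le_sup R (by omega))
  -- a generic pair
  obtain ⟨w, hw, hwp⟩ := (hle.and (eventually_pair R)).exists
  set H : Submodule k K := LinearMap.ker (R w.1) ⊔ LinearMap.ker (R w.2) with hH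
  have hH8 : finrank k H = 8 := by
    have := hwp.2.2.2
    omega
  have hw' : ∀ᶠ y in gen k (Vec k), LinearMap.ker (R y) ≤ H := hw
  -- restriction to `H`
  let R' : Vec k →ₗ[k] H →ₗ[k] ((X → Vec k) × (O → k)) := (LinearMap.domRestrict' H) ∘ₗ R
  have hR' : ∀ y (Z : H), R' y Z = R y Z := fun y Z => rfl
  have hker : ∀ y (Z : H), Z ∈ LinearMap.ker (R' y) ↔ (Z : K) ∈ LinearMap.ker (R y) :=
    fun y Z => Iff.rfl
  have hdim : ∀ᶠ y in gen k (Vec k), finrank k (LinearMap.ker (R' y)) = 6 := by
    filter_upwards [hw', eventually_d1 R] with y h1 h2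
    have h3 : LinearMap.ker (R' y) = (LinearMap.ker (R y)).comap H.subtype := by
      ext Z; exact hker y Z
    rw [h3, (Submodule.comapSubtypeEquivOfLe h1).finrank_eq, h2, hd1]
  have hd1' : d1 R' = 6 := by
    obtain ⟨y, h1, h2⟩ := ((eventually_d1 R').and hdim).exists
    omega
  have hp : ∀ᶠ w in gen k (Vec k × Vec k),
      LinearMap.ker (R' w.1) ⊔ LinearMap.ker (R' w.2) = ⊤ := by
    have e1 := eventually_comp_of_surjective (LinearMap.fst k (Vec k) (Vec k))
      LinearMap.fst_surjective hw'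
    have e2 := eventually_comp_of_surjective (LinearMap.snd k (Vec k) (Vec k))
      LinearMap.snd_surjective hw'
    filter_upwards [eventually_pair R, e1, e2] with w hw h1 h2
    have h1' : LinearMap.ker (R w.1) ≤ H := h1
    have h2' : LinearMap.ker (R w.2) ≤ H := h2
    have h3 : LinearMap.ker (R w.1) ⊔ LinearMap.ker (R w.2) = H := by
      refine Submodule.eq_of_le_of_finrank_le (sup_le h1' h2') ?_
      have := hw.2.2.2
      omega
    rw [eq_top_iff]
    rintro ⟨Z, hZ⟩ -
    have hZ' : Z ∈ LinearMap.ker (R w.1) ⊔ LinearMap.ker (R w.2) := by rw [h3]; exact hZ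
    obtain ⟨a, ha, b, hb, rfl⟩ := Submodule.mem_sup.mp hZ'
    have h4 : (⟨a + b, hZ⟩ : H) = ⟨a, h1' ha⟩ + ⟨b, h2' hb⟩ := rfl
    rw [h4]
    exact Submodule.add_mem_sup ((hker _ _).mpr ha) ((hker _ _).mpr hb)
  obtain ⟨G, c, hc, hG⟩ := exists_G R' (r := 2) (by omega) hp
  have hGinj : LinearMap.ker G = ⊥ := by
    rw [Submodule.eq_bot_iff]
    intro Z hZ
    have h1 : ∀ y, R y Z = 0 := by
      intro y
      rw [← hR', ← G_eq_zero_iff hc hG, LinearMap.mem_ker.mp hZ]
      rfl
    exact Subtype.ext (h.RL_inj hKC h1)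
  have hv : ∀ᶠ y in gen k (Vec k), ∀ Z : H, G Z y = 0 → ((B v) ∘ₗ H.subtype) Z y ⬝ᵥ y = 0 := by
    filter_upwards [hKC] with y hy Z hZ
    have h1 : (Z : K) ∈ KY p X O v z B y :=
      mem_ker_RL.mp ((hker y Z).mp (LinearMap.mem_ker.mpr ((G_eq_zero_iff hc hG Z y).mp hZ)))
    rw [hy] at h1
    exact h1.2.2
  have hBH := endgameH h.two (h.cardT v h.hv)
    (h.gp.mono (by exact_mod_cast h.subT v h.hv)) G hGinj hH8 ((B v) ∘ₗ H.subtype)
    (fun Z => h.symm Z) hv (fun t ht Z => by
      have h1 := h.eqB v h.hv t ht (Z : K)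
      show B v (Z : K) (p t) ⬝ᵥ p t = 0
      rw [h1]
      exact h.loop t (h.subT v h.hv ht) Z)
  obtain ⟨y, h1, h2, h3, h4⟩ := (hw'.and (hKC.and (h.two_quad.and h.dimC))).exists
  rw [hR, ker_RL, h2] at h1
  have h5 := h3 v h.hv (CY p X O v z B y) le_rfl (fun Z hZ x => by
    have h6 : B v Z = 0 := hBH ⟨Z, h1 hZ⟩
    rw [h6]
    simp)
  omega

/-- **Type (3,0).** -/
theorem Loc.case30 (h : Loc p X O Q T v z B 5) (hK : finrank k K = 9)
    (hne : ∃ u ∈ X, ∃ u' ∈ X, T u ≠ T u')
    (hKC : ∀ᶠ y in gen k (Vec k), KY p X O v z B y = CY p X O v z B y)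
    (hd1 : d1 (RL p X O v z B) = 6) (hd2 : d2 (RL p X O v z B) = 3) : False := by
  set R := RL p X O v z B with hR
  have hp : ∀ᶠ w in gen k (Vec k × Vec k), LinearMap.ker (R w.1) ⊔ LinearMap.ker (R w.2) = ⊤ := by
    filter_upwards [eventually_pair R] with w hw
    apply Submodule.eq_top_of_finrank_eq
    have h5 := hw.2.2.2
    omega
  obtain ⟨G, c, hc, hG⟩ := exists_G R (r := 3) (by omega) hp
  have hiff := G_eq_zero_iff hc hG
  have hGinj : LinearMap.ker G = ⊥ := by
    rw [Submodule.eq_bot_iff]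
    intro Z hZ
    refine h.RL_inj hKC fun y => ?_
    rw [← hR, ← hiff, LinearMap.mem_ker.mp hZ]
    rfl
  have hker : ∀ᶠ y in gen k (Vec k), ∀ Z, G Z y = 0 → B v Z y ⬝ᵥ y = 0 := by
    filter_upwards [hKC] with y hy Z hZ
    have h1 : Z ∈ KY p X O v z B y :=
      mem_ker_RL.mp (LinearMap.mem_ker.mpr ((hiff Z y).mp hZ))
    rw [hy] at h1
    exact h1.2.2
  have hsurj : ∀ᶠ y in gen k (Vec k), ∀ w : Fin 3 → k, ∃ Z, G Z y = w := by
    filter_upwards [eventually_d1 R] with y hy
    have h1 : LinearMap.ker (G.flip y) = LinearMap.ker (R y) := by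
      ext Z
      rw [LinearMap.mem_ker, LinearMap.mem_ker, LinearMap.flip_apply]
      exact hiff Z y
    have h2 := LinearMap.finrank_range_add_finrank_ker (G.flip y)
    rw [h1] at h2
    have h3 : LinearMap.range (G.flip y) = ⊤ := by
      apply Submodule.eq_top_of_finrank_eq
      rw [Module.finrank_fin_fun]
      omega
    intro w
    obtain ⟨Z, hZ⟩ := LinearMap.range_eq_top.mp h3 w
    exact ⟨Z, hZ⟩
  have hpair : ∀ᶠ a in gen k (Vec k), ∀ᶠ b in gen k (Vec k), ∀ Z : K, ∃ Z1 Z2,
      Z = Z1 + Z2 ∧ G Z1 a = 0 ∧ G Z2 b = 0 := by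
    filter_upwards [eventually_prod hp] with a ha
    filter_upwards [ha] with b hb Z
    have h1 : Z ∈ LinearMap.ker (R a) ⊔ LinearMap.ker (R b) := by
      have hb' : LinearMap.ker (R a) ⊔ LinearMap.ker (R b) = ⊤ := hb
      rw [hb']; trivial
    obtain ⟨Z1, h1, Z2, h2, h3⟩ := Submodule.mem_sup.mp h1
    exact ⟨Z1, Z2, h3.symm, (hiff _ _).mpr (LinearMap.mem_ker.mp h1),
      (hiff _ _).mpr (LinearMap.mem_ker.mp h2)⟩
  obtain ⟨l, hl⟩ := lambda_linear h.two (B v) h.symm G hker hsurj hpair
  classical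
  -- the coefficients
  let χ : V → Fin 3 → Vec k := fun w a => if hw : w ∈ X then (c a).1 ⟨w, hw⟩ else 0
  have hB : ∀ u ∈ X, ∀ Z y, B u Z y = B v Z y + ∑ a, G Z y a • χ u a := by
    intro w hw Z y
    have h5 := congrFun (congrArg Prod.fst (hG Z y)) ⟨w, hw⟩
    rw [hR, RL_fst] at h5
    have h6 : (∑ a, G Z y a • c a).1 ⟨w, hw⟩ = ∑ a, G Z y a • (c a).1 ⟨w, hw⟩ := by
      rw [Prod.fst_sum, Finset.sum_apply]; rfl
    rw [h6] at h5
    simp only [χ, dif_pos hw]
    rw [← h5]; abel
  let X' : V → Vec k →ₗ[k] (Fin 3 → k) := fun w =>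
    { toFun := fun y a => χ w a ⬝ᵥ y
      map_add' := fun y y' => by ext a; simp [dotProduct_add]
      map_smul' := fun r y => by ext a; simp [dotProduct_smul] }
  have hX' : ∀ w y a, X' w y a = χ w a ⬝ᵥ y := fun w y a => rfl
  let Xf : V → Vec k →ₗ[k] (Fin 3 → k) := fun w => l + X' w
  -- the quadratic form of `u`
  have hquad : ∀ u ∈ X, ∀ Z y, B u Z y ⬝ᵥ y = Xf u y ⬝ᵥ G Z y := by
    intro u hu Z y
    rw [hB u hu, add_dotProduct, hl, sum_dotProduct]
    show _ = (l y + X' u y) ⬝ᵥ G Z y
    rw [add_dotProduct]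
    congr 1
    rw [dotProduct]
    refine Finset.sum_congr rfl fun a _ => ?_
    rw [smul_dotProduct, hX', smul_eq_mul, mul_comm]
  refine endgame30 h.gp h.cardT h.subT G hGinj hK Xf ?_ ?_ ?_ ?_ hne
  · intro u hu t ht Z
    rw [← hquad u hu, h.eqB u hu t ht]
    exact h.loop t (h.subT u hu ht) Z
  · intro u hu u' hu' t ht ht' y Z
    have h1 : B u Z (p t) = B u' Z (p t) := by rw [h.eqB u hu t ht, h.eqB u' hu' t ht']
    rw [hB u hu, hB u' hu'] at h1
    have h2 : ∑ a, G Z (p t) a • χ u a = ∑ a, G Z (p t) a • χ u' a := add_left_cancel h1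
    have h3 := congrArg (fun f => f ⬝ᵥ y) h2
    simp only [sum_dotProduct, smul_dotProduct, smul_eq_mul] at h3
    have h4 : Xf u y - Xf u' y = X' u y - X' u' y := by
      show (l y + X' u y) - (l y + X' u' y) = _
      abel
    rw [h4, sub_dotProduct, dotProduct, dotProduct]
    simp only [hX']
    rw [sub_eq_zero]
    calc ∑ a, χ u a ⬝ᵥ y * G Z (p t) a = ∑ a, G Z (p t) a * (χ u a ⬝ᵥ y) :=
          Finset.sum_congr rfl fun a _ => mul_comm _ _
      _ = ∑ a, G Z (p t) a * (χ u' a ⬝ᵥ y) := h3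
      _ = ∑ a, χ u' a ⬝ᵥ y * G Z (p t) a := Finset.sum_congr rfl fun a _ => mul_comm _ _
  · intro u hu u' hu' he
    refine h.clone u hu u' hu' fun Z => ?_
    refine LinearMap.ext fun y => ?_
    rw [hB u hu, hB u' hu']
    congr 1
    refine Finset.sum_congr rfl fun a _ => ?_
    congr 1
    refine sub_eq_zero.mp (dotProduct_eq_zero _ fun x => ?_)
    rw [sub_dotProduct, ← hX', ← hX']
    have h1 : Xf u x a = Xf u' x a := by rw [he]
    have h2 : l x a + X' u x a = l x a + X' u' x a := h1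
    rw [add_left_cancel h2, sub_self]
  · intro u hu
    exact h.two_le_rank hKC hiff hu (Xf u) (hquad u hu)

end Main

/-- **M1, abstract form.** -/
theorem Loc.false_of_five [FiniteDimensional k K] (h : Loc p X O Q T v z B 5)
    (hK : finrank k K = 9) (hO : O.card = 2) (hne : ∃ u ∈ X, ∃ u' ∈ X, T u ≠ T u') : False := by
  rcases h.d1_cases with ⟨hd, hKC⟩ | hd
  · have h4 : d4 (RL p X O v z B) ≤ finrank k (⊥ : Submodule k K) :=
      d4_le _ fun Z hZ => by rw [Submodule.mem_bot]; exact h.RL_inj hKC hZ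
    rw [finrank_bot] at h4
    have h3 := four_d3_le (RL p X O v z B)
    have h2 := two_d2_le (RL p X O v z B)
    obtain ⟨w, hw⟩ := (eventually_pair (RL p X O v z B)).exists
    have h5 := hw.2.2.2
    have h6 := Submodule.finrank_le (LinearMap.ker (RL p X O v z B w.1) ⊔
      LinearMap.ker (RL p X O v z B w.2))
    have h7 : d2 (RL p X O v z B) = 3 ∨ d2 (RL p X O v z B) = 4 := by omega
    rcases h7 with h7 | h7
    · exact h.case30 hK hne hKC (by omega) h7
    · exact h.caseH hK hKC (by omega) h7 (by omega)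
  · exact h.caseII hK hO hne hd

end GR
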