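import Pool.Agent.Lib.GR.Dep

/-!
# TOOL 1 (room for clones) and FACT R
-/

set_option linter.unusedSectionVars false

namespace GR

open Filter Module

open scoped Matrix

variable {k : Type*} [Field k] {V : Type*} [DecidableEq V]

/-- all edges between `W` and `J` -/
def joinE (W J : Finset V) : Finset (Sym2 V) := (W ×ˢ J).image fun x => s(x.1, x.2)

lemma mem_joinE {W J : Finset V} {e : Sym2 V} :
    e ∈ joinE W J ↔ ∃ w ∈ W, ∃ j ∈ J, s(w, j) = e := by
  simp only [joinE, Finset.mem_image, Finset.mem_product, Prod.exists]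
  constructor
  · rintro ⟨a, b, ⟨h1, h2⟩, h3⟩; exact ⟨a, h1, b, h2, h3⟩
  · rintro ⟨a, h1, b, h2, h3⟩; exact ⟨a, b, ⟨h1, h2⟩, h3⟩

/-- extend a motion to clones -/
lemma exists_extend {B W J : Finset V} (hWB : Disjoint W B) (hJB : J ⊆ B)
    {E : Finset (Sym2 V)} (hE : E ⊆ Kf B) {p Z : V → Vec k}
    (hZ : Z ∈ Mot B (E : Set (Sym2 V)) p) (hA : ∀ w ∈ W, Z ∈ Att p (J : Set V) (p w)) :
    ∃ Z' ∈ Mot (B ∪ W) ((E ∪ joinE W J : Finset (Sym2 V)) : Set (Sym2 V)) p,
      ∀ v ∈ B, Z' v = Z v := by
  classical
  have hA' : ∀ w : V, ∃ z : Vec k, w ∈ W → (z ⬝ᵥ p w = 0 ∧ ∀ v ∈ J, z ⬝ᵥ p v + Z v ⬝ᵥ p w = 0) := by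
    intro w
    by_cases hw : w ∈ W
    · obtain ⟨z, h1, h2⟩ := hA w hw
      exact ⟨z, fun _ => ⟨h1, fun v hv => h2 v (by simpa using hv)⟩⟩
    · exact ⟨0, fun h => absurd h hw⟩
  choose z hz using hA'
  have hnot : ∀ v ∈ B, v ∉ W := fun v hv hw => Finset.disjoint_left.mp hWB hw hv
  refine ⟨fun v => if v ∈ W then z v else Z v, ⟨?_, ?_, ?_⟩, fun v hv => by simp [hnot v hv]⟩
  · intro v hv
    rw [Finset.mem_union, not_or] at hv
    simp [hv.2, hZ.1 v hv.1]
  · intro v hv
    by_cases hw : v ∈ W
    · simp only [hw, if_true]; exact (hz v hw).1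
    · simp only [hw, if_false]
      rw [Finset.mem_union] at hv
      exact hZ.2.1 v (hv.resolve_right hw)
  · intro a _ b _ hab
    rw [Finset.coe_union, Set.mem_union] at hab
    rcases hab with hab | hab
    · have hm := mem_Kf.mp (hE (by simpa using hab))
      have ha := hm.2 a (by simp)
      have hb := hm.2 b (by simp)
      rw [eps_apply]
      simp only [hnot a ha, hnot b hb, if_false]
      exact hZ.2.2 a ha b hb hab
    · obtain ⟨w, hw, j, hj, h⟩ := mem_joinE.mp (by simpa using hab)
      have hjW := hnot j (hJB hj)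
      rw [Sym2.eq_iff] at h
      rcases h with ⟨rfl, rfl⟩ | ⟨rfl, rfl⟩
      · rw [eps_apply]
        simp only [hw, hjW, if_true, if_false]
        exact (hz _ hw).2 _ hj
      · rw [eps_comm, eps_apply]
        simp only [hw, hjW, if_true, if_false]
        exact (hz _ hw).2 _ hj

/-- restriction of motions of the graph with clones -/
lemma restrict_mem {B W J A : Finset V} (hBA : B ⊆ A) {E : Finset (Sym2 V)} {p Z : V → Vec k}
    (hZ : Z ∈ Mot A ((E ∪ joinE W J : Finset (Sym2 V)) : Set (Sym2 V)) p) :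
    cut k B Z ∈ Mot B (E : Set (Sym2 V)) p :=
  cut_mem_Mot_of_subset hBA (Mot_anti (by simp) p hZ)

lemma att_of_mem {A W J : Finset V} (hJA : J ⊆ A) {E : Finset (Sym2 V)} {p Z : V → Vec k}
    (hZ : Z ∈ Mot A ((E ∪ joinE W J : Finset (Sym2 V)) : Set (Sym2 V)) p) {w : V} (hw : w ∈ W)
    (hwA : w ∈ A) : Z ∈ Att p (J : Set V) (p w) := by
  refine ⟨Z w, hZ.2.1 w hwA, fun v hv => ?_⟩
  have hv' : v ∈ J := by simpa using hv
  exact hZ.2.2 w hwA v (hJA hv') (by
    rw [Finset.coe_union]
    right
    exact_mod_cast mem_joinE.mpr ⟨w, hw, v, hv', rfl⟩)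

lemma Att_congr {p p' : V → Vec k} {N : Set V} {x : Vec k} (h : ∀ v ∈ N, p v = p' v) :
    Att p N x = Att p' N x := by
  ext Z
  constructor
  · rintro ⟨z, h1, h2⟩
    exact ⟨z, h1, fun v hv => by rw [← h v hv]; exact h2 v hv⟩
  · rintro ⟨z, h1, h2⟩
    exact ⟨z, h1, fun v hv => by rw [h v hv]; exact h2 v hv⟩

lemma Att_congr_motion {p Z Z' : V → Vec k} {N : Set V} {x : Vec k} (h : ∀ v ∈ N, Z v = Z' v) :
    Z ∈ Att p N x ↔ Z' ∈ Att p N x := by
  constructor
  · rintro ⟨z, h1, h2⟩
    exact ⟨z, h1, fun v hv => by rw [← h v hv]; exact h2 v hv⟩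
  · rintro ⟨z, h1, h2⟩
    exact ⟨z, h1, fun v hv => by rw [h v hv]; exact h2 v hv⟩

/-- attaching several clones to a type A set costs at most one dimension each -/
lemma finrank_le_of_TA_finset {p : V → Vec k} {N : Set V} {S : Submodule k (V → Vec k)}
    [FiniteDimensional k S] (hS : S ≤ TA p N) (W : Finset V) (x : V → Vec k) :
    finrank k S ≤ finrank k (S ⊓ ⨅ w ∈ W, Att p N (x w) : Submodule k (V → Vec k)) + W.card := by
  classical
  induction W using Finset.induction_on with
  | empty =>
    have : (⨅ w ∈ (∅ : Finset V), Att p N (x w)) = ⊤ := by simp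
    rw [this, inf_top_eq]
    simp
  | insert a W ha ih =>
    have hfd : FiniteDimensional k (S ⊓ ⨅ w ∈ W, Att p N (x w) : Submodule k (V → Vec k)) :=
      Submodule.finiteDimensional_of_le inf_le_left
    have h1 := finrank_le_of_TA (S := (S ⊓ ⨅ w ∈ W, Att p N (x w) : Submodule k (V → Vec k)))
      (inf_le_left.trans hS) (x a)
    rw [Finset.card_insert_of_notMem ha, Finset.iInf_insert, ← inf_assoc, inf_right_comm] 
    omega

/-- `TA` in terms of the dependency -/
lemma mem_TA_iff {p : V → Vec k} {J : Finset V} (hJ : Spans p J) {μ : V → k} (hμ : IsDep p J μ)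
    (Z : V → Vec k) : Z ∈ TA p (J : Set V) ↔ ∑ i ∈ J, μ i • Z i = 0 := by
  constructor
  · rintro ⟨T, hT⟩
    have : ∑ i ∈ J, μ i • Z i = T (∑ i ∈ J, μ i • p i) := by
      rw [map_sum]
      exact Finset.sum_congr rfl fun i hi => by rw [map_smul, hT i (by simpa using hi)]
    rw [this, hμ.sum_eq, map_zero]
  · intro h
    have hA : TypeA (Submodule.span k {Z}) p J := by
      intro c hc Y hY
      obtain ⟨r, rfl⟩ := Submodule.mem_span_singleton.mp hY
      obtain ⟨s, hs⟩ := hμ.unique c hc
      have : ∑ i ∈ J, c i • (r • Z) i = (r * s) • ∑ i ∈ J, μ i • Z i := by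
        rw [Finset.smul_sum]
        refine Finset.sum_congr rfl fun i hi => ?_
        rw [hs i hi, Pi.smul_apply, smul_smul, smul_smul]
        congr 1
        ring
      rw [this, h, smul_zero]
    exact mem_TA_of_TypeA hA hJ (Submodule.mem_span_singleton_self Z)

variable [Infinite k]

/-- **TOOL 1.**  With `e + 1` fresh vertices available, a 5-set `J` for which `F^J` has rank at most
`e` on the motions moves with at most `2e + 1` degrees of freedom. -/
theorem tool1 {B W : Finset V} (hWB : Disjoint W B) {e : ℕ} (hWc : W.card = e + 1)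
    (hCP : ∀ᶠ p in gen k (V → Vec k), CliqueProp (B ∪ W) p) :
    ∀ᶠ p in gen k (V → Vec k), ∀ E : Finset (Sym2 V), E ⊆ Kf B → ∀ J : Finset V, J ⊆ B →
      J.card = 5 →
      finrank k (Mot B (E : Set (Sym2 V)) p) ≤
        finrank k (Mot B (E : Set (Sym2 V)) p ⊓ TA p (J : Set V) : Submodule k (V → Vec k)) + e →
      finrank k (Mot B (E : Set (Sym2 V)) p) ≤
        finrank k (Mot B (E : Set (Sym2 V)) p ⊓ RG p (J : Set V) : Submodule k (V → Vec k))
          + (2 * e + 1) := by
  classical
  obtain ⟨w₁, hw₁⟩ : W.Nonempty := Finset.card_pos.mp (by omega)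
  have hgp := eventually_genPos (k := k) (B ∪ W)
  filter_upwards [eventually_upd (hCP.and hgp) W, eventually_genPos (k := k) B] with p hp hgB
    E hE J hJB hJ5 hrank
  set M := Mot B (E : Set (Sym2 V)) p with hM
  have hgJ : GenPos p (J : Set V) := hgB.mono (by exact_mod_cast hJB)
  have hspJ : Spans p J := hgJ.spans (by omega)
  obtain ⟨μ, hμ⟩ := exists_isDep hgJ hJ5
  -- the map F^J
  let F : M →ₗ[k] Vec k :=
    { toFun := fun Z => ∑ i ∈ J, μ i • (Z : V → Vec k) i
      map_add' := fun Z Z' => by
        simp only [Submodule.coe_add, Pi.add_apply, smul_add, Finset.sum_add_distrib]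
      map_smul' := fun c Z => by
        simp only [Submodule.coe_smul, Pi.smul_apply, Finset.smul_sum, RingHom.id_apply]
        exact Finset.sum_congr rfl fun i _ => smul_comm _ _ _ }
  have hker : LinearMap.ker F = (M ⊓ TA p (J : Set V)).comap M.subtype := by
    ext Z
    simp only [LinearMap.mem_ker, Submodule.mem_comap, Submodule.subtype_apply, Submodule.mem_inf,
      Z.2, true_and]
    exact (mem_TA_iff hspJ hμ Z.1).symm
  have hY : finrank k (LinearMap.range F) ≤ (W.erase w₁).card := by
    have h1 := LinearMap.finrank_range_add_finrank_ker F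
    rw [hker, (Submodule.comapSubtypeEquivOfLe (inf_le_left :
      M ⊓ TA p (J : Set V) ≤ M)).finrank_eq] at h1
    rw [Finset.card_erase_of_mem hw₁]
    omega
  obtain ⟨x, ⟨hx1, hx2⟩, hx3⟩ := (hp.and (eventually_separate (LinearMap.range F) (W.erase w₁)
    hY)).exists
  set q := upd p W x with hq
  have hqB : ∀ v ∈ B, q v = p v := fun v hv =>
    upd_apply_notMem (fun h => Finset.disjoint_left.mp hWB h hv)
  have hMq : Mot B (E : Set (Sym2 V)) q = M := Mot_congr_pts (fun a ha => hqB a ha)
  have hqJ : ∀ v ∈ (J : Set V), q v = p v := fun v hv => hqB v (hJB (by simpa using hv))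
  -- the graph with clones
  have hE' : E ∪ joinE W J ⊆ Kf (B ∪ W) := by
    refine Finset.union_subset (hE.trans (Kf_mono Finset.subset_union_left)) ?_
    intro f hf
    obtain ⟨w, hw, j, hj, rfl⟩ := mem_joinE.mp hf
    rw [mk_mem_Kf]
    refine ⟨?_, by simp [hw], by simp [hJB hj]⟩
    rintro rfl
    exact Finset.disjoint_left.mp hWB hw (hJB hj)
  have hw₁B : w₁ ∉ B := fun h => Finset.disjoint_left.mp hWB hw₁ h
  -- dependency at w₁
  obtain ⟨l, hl⟩ := hspJ (q w₁)
  have hrig := rigid_of_dep (A := B ∪ W) (E := E ∪ joinE W J) hE' hx1 (v := w₁)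
    (by simp [hw₁]) (J := J) (fun j hj => by
      rw [Finset.mem_union]; right; exact mem_joinE.mpr ⟨w₁, hw₁, j, hj, rfl⟩)
    (by omega) (c := μ) hμ.ne_zero (c₀ := 0) (by
      rw [zero_smul, ← hμ.sum_eq]
      exact Finset.sum_congr rfl fun j hj => by rw [hqJ j (by simpa using hj)]) (by
      intro Z hZ
      have hBsub : B ⊆ (B ∪ W).erase w₁ := fun v hv =>
        Finset.mem_erase.mpr ⟨fun h => hw₁B (h ▸ hv), by simp [hv]⟩
      have h1 : cut k B Z ∈ M := by
        rw [← hMq]
        exact restrict_mem hBsub hZ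
      -- y = F^J (cut Z)
      have h2 : ∀ w ∈ W.erase w₁, (∑ i ∈ J, μ i • Z i) ⬝ᵥ x w = 0 := by
        intro w hw
        have hw' := Finset.mem_erase.mp hw
        have hwA : w ∈ (B ∪ W).erase w₁ := Finset.mem_erase.mpr ⟨hw'.1, by simp [hw'.2]⟩
        have h3 := att_of_mem (hJB.trans hBsub) hZ hw'.2 hwA
        obtain ⟨z, hz1, hz2⟩ := h3
        have h4 : ∑ i ∈ J, μ i • (z ⬝ᵥ q i + Z i ⬝ᵥ q w) = 0 :=
          Finset.sum_eq_zero fun i hi => by rw [hz2 i (by simpa using hi), smul_zero]
        simp only [smul_add, Finset.sum_add_distrib] at h4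
        have h5 : ∑ i ∈ J, μ i • (z ⬝ᵥ q i) = 0 := by
          have : ∑ i ∈ J, μ i • (z ⬝ᵥ q i) = z ⬝ᵥ ∑ i ∈ J, μ i • p i := by
            rw [dotProduct_sum]
            exact Finset.sum_congr rfl fun i hi => by
              rw [dotProduct_smul, hqJ i (by simpa using hi)]
          rw [this, hμ.sum_eq, dotProduct_zero]
        rw [h5, zero_add] at h4
        have hqw : q w = x w := upd_apply hw'.2
        rw [sum_dotProduct, ← h4]
        exact Finset.sum_congr rfl fun i _ => by rw [smul_dotProduct, hqw]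
      have h6 : ∑ i ∈ J, μ i • Z i = 0 := by
        refine hx3 _ ?_ h2
        refine ⟨⟨cut k B Z, h1⟩, ?_⟩
        show ∑ i ∈ J, μ i • cut k B Z i = _
        exact Finset.sum_congr rfl fun i hi => by rw [cut_apply Z (hJB hi)]
      have h7 : ∑ j ∈ J, μ j * (Z j ⬝ᵥ q w₁) = (∑ i ∈ J, μ i • Z i) ⬝ᵥ q w₁ := by
        rw [sum_dotProduct]
        exact Finset.sum_congr rfl fun i _ => by rw [smul_dotProduct, smul_eq_mul]
      rw [h7, h6, zero_dotProduct])
  -- all motions compatible with the clones are rigid on J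
  have hle : (M ⊓ TA p (J : Set V)) ⊓ (⨅ w ∈ W, Att p (J : Set V) (x w))
      ≤ M ⊓ RG p (J : Set V) := by
    intro Z hZ
    refine ⟨hZ.1.1, ?_⟩
    have hZ1 : Z ∈ Mot B (E : Set (Sym2 V)) q := by rw [hMq]; exact hZ.1.1
    obtain ⟨Z', hZ', hZ'B⟩ := exists_extend hWB hJB hE hZ1 (fun w hw => by
      have h3 : Z ∈ Att p (J : Set V) (x w) := by
        have := (Submodule.mem_inf.mp hZ).2
        rw [Submodule.mem_iInf] at this
        have := this w
        rw [Submodule.mem_iInf] at this
        exact this hw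
      rw [Att_congr hqJ]
      have : q w = x w := upd_apply hw
      rw [this]
      exact h3)
    refine mem_RG_of_rigid hgJ (by omega) (fun v hv => hZ.1.1.2.1 v (hJB hv)) fun a ha b hb => ?_
    have h4 := hrig Z' hZ' a ha b hb
    rw [eps_apply, hZ'B a (hJB ha), hZ'B b (hJB hb), hqJ a (by simpa using ha),
      hqJ b (by simpa using hb)] at h4
    exact h4
  have hfdM : FiniteDimensional k M := Mot_finiteDimensional _ _ _
  have hfd1 : FiniteDimensional k (M ⊓ TA p (J : Set V) : Submodule k (V → Vec k)) :=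
    Submodule.finiteDimensional_of_le inf_le_left
  have hfd2 : FiniteDimensional k (M ⊓ RG p (J : Set V) : Submodule k (V → Vec k)) :=
    Submodule.finiteDimensional_of_le inf_le_left
  have h8 := finrank_le_of_TA_finset (S := (M ⊓ TA p (J : Set V) : Submodule k (V → Vec k)))
    inf_le_right W x
  have h9 := Submodule.finrank_mono hle
  omega

/-- a combination supported on few points in general position with a new point vanishes -/
lemma four_le_card_of_dep {p : V → Vec k} {N : Finset V} {v : V} (hv : v ∉ N)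
    (hgp : GenPos p (insert v (N : Set V))) {J : Finset V} (hJN : J ⊆ N) {c : V → k}
    (hc : ∀ j ∈ J, c j ≠ 0) (hJ : J.Nonempty) {c₀ : k} (hsum : ∑ j ∈ J, c j • p j = c₀ • p v) :
    4 ≤ J.card := by
  classical
  by_contra hlt
  push Not at hlt
  have hvJ : v ∉ J := fun h => hv (hJN h)
  have hli := hgp (insert v J) (by
    rw [Finset.coe_insert]
    exact Set.insert_subset_insert (by exact_mod_cast hJN)) (by
    rw [Finset.card_insert_of_notMem hvJ]; omega)
  rw [Fintype.linearIndependent_iff] at hli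
  obtain ⟨j, hj⟩ := hJ
  have h1 := hli (fun i => if (i : V) = v then -c₀ else c i) (by
    rw [Finset.sum_coe_sort (insert v J) (fun i => (if i = v then -c₀ else c i) • p i),
      Finset.sum_insert hvJ]
    have : ∑ x ∈ J, (if x = v then -c₀ else c x) • p x = ∑ x ∈ J, c x • p x := by
      refine Finset.sum_congr rfl fun x hx => ?_
      have hxv : x ≠ v := by rintro rfl; exact hvJ hx
      rw [if_neg hxv]
    rw [this, hsum]
    simp) ⟨j, by simp [hj]⟩
  have hjv : j ≠ v := fun h => hvJ (h ▸ hj)
  rw [if_neg hjv] at h1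
  exact hc j hj h1

/-- **FACT R.**  With one fresh vertex available, a 5-set cannot be bad (type A or B) unless it
moves with at most one degree of freedom or contains a rigid 4-subset. -/
theorem factR {B : Finset V} {v : V} (hv : v ∉ B) (h2 : (2 : k) ≠ 0)
    (hCP : ∀ᶠ p in gen k (V → Vec k), CliqueProp (insert v B) p) :
    ∀ᶠ p in gen k (V → Vec k), ∀ E : Finset (Sym2 V), E ⊆ Kf B → ∀ N : Finset V, N ⊆ B →
      N.card = 5 →
      (∀ᶠ x in gen k (Vec k), finrank k (Mot B (E : Set (Sym2 V)) p) ≤
        finrank k (Mot B (E : Set (Sym2 V)) p ⊓ Att p (N : Set V) x :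
          Submodule k (V → Vec k)) + 1) →
      finrank k (Mot B (E : Set (Sym2 V)) p) ≤
        finrank k (Mot B (E : Set (Sym2 V)) p ⊓ RG p (N : Set V) : Submodule k (V → Vec k)) + 1 ∨
      ∃ i ∈ N, Mot B (E : Set (Sym2 V)) p ≤ RG p ((N.erase i : Finset V) : Set V) := by
  classical
  have hWB : Disjoint ({v} : Finset V) B := by simpa using hv
  have hun : B ∪ {v} = insert v B := by ext; simp
  have hCP' : ∀ᶠ p in gen k (V → Vec k), CliqueProp (B ∪ {v}) p := by rw [hun]; exact hCP
  have ht1 := tool1 (k := k) (B := B) (W := {v}) hWB (e := 0) (by simp) hCP'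
  have hgp := eventually_genPos (k := k) (insert v B)
  filter_upwards [ht1, eventually_update (hCP.and hgp) v, eventually_genPos (k := k) B] with
    p hp1 hp2 hgB E hE N hNB hN5 hbad
  set M := Mot B (E : Set (Sym2 V)) p with hM
  have hgN : GenPos p (N : Set V) := hgB.mono (by exact_mod_cast hNB)
  have hspN : Spans p N := hgN.spans (by omega)
  have hloop : ∀ Z ∈ M, ∀ i ∈ N, Z i ⬝ᵥ p i = 0 := fun Z hZ i hi => hZ.2.1 i (hNB hi)
  rcases types_of_bad h2 hN5 hgN hloop hbad with h | h | h | h
  · exact Or.inl h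
  · exact Or.inr h
  · left
    have h3 : (M ⊓ TA p (N : Set V) : Submodule k (V → Vec k)) = M := inf_eq_left.mpr h
    have := hp1 E hE N hNB hN5 (by rw [← hM, h3]; omega)
    simpa using this
  · left
    obtain ⟨a, b, c, d, e, hNeq, hab, hac, had, hae, hbc, hbd, hbe, hcd, hce, hde, t, ht, hTB⟩ := h
    obtain ⟨x, hx1, hx2⟩ := hp2.exists
    set q := Function.update p v x with hq
    have hqB : ∀ w ∈ B, q w = p w := by
      intro w hw
      have hwv : w ≠ v := by rintro rfl; exact hv hw
      exact Function.update_of_ne hwv _ _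
    have hqv : q v = x := Function.update_self _ _ _
    have hvN : v ∉ N := fun h => hv (hNB h)
    have hqN : ∀ w ∈ N, q w = p w := fun w hw => hqB w (hNB hw)
    have hMq : Mot B (E : Set (Sym2 V)) q = M := Mot_congr_pts hqB
    obtain ⟨μ, hμ⟩ := exists_isDep hgN hN5
    obtain ⟨l, hl⟩ := hspN x
    -- the dependency with c_d + t c_e = 0
    obtain ⟨cf, c₀, hcf0, hcfsum, hcfde⟩ : ∃ cf : V → k, ∃ c₀ : k, (∃ j ∈ N, cf j ≠ 0) ∧
        ∑ j ∈ N, cf j • p j = c₀ • x ∧ cf d + t * cf e = 0 := by
      have hdN : d ∈ N := by rw [hNeq]; simp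
      by_cases h0 : μ d + t * μ e = 0
      · exact ⟨μ, 0, ⟨d, hdN, hμ.ne_zero d hdN⟩, by rw [hμ.sum_eq, zero_smul], h0⟩
      · refine ⟨fun j => (l d + t * l e) * μ j - (μ d + t * μ e) * l j, -(μ d + t * μ e), ?_, ?_, ?_⟩
        · by_contra hcon
          push Not at hcon
          have h3 : ∑ j ∈ N, ((l d + t * l e) * μ j - (μ d + t * μ e) * l j) • p j = 0 :=
            Finset.sum_eq_zero fun j hj => by rw [hcon j hj, zero_smul]
          simp only [sub_smul, mul_smul, Finset.sum_sub_distrib, ← Finset.smul_sum, hμ.sum_eq,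
            hl, smul_zero, zero_sub] at h3
          have hx0 : x ≠ 0 := by
            rw [← hqv]
            exact hx2.ne_zero (by simp)
          rw [neg_eq_zero, smul_eq_zero] at h3
          rcases h3 with h3 | h3
          · exact h0 h3
          · exact hx0 h3
        · simp only [sub_smul, mul_smul, Finset.sum_sub_distrib, ← Finset.smul_sum, hμ.sum_eq,
            hl, smul_zero, zero_sub, neg_smul]
        · ring
    let J : Finset V := N.filter fun j => cf j ≠ 0
    have hJN : J ⊆ N := Finset.filter_subset _ _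
    have hcJ : ∀ j ∈ J, cf j ≠ 0 := fun j hj => (Finset.mem_filter.mp hj).2
    have hJne : J.Nonempty := by
      obtain ⟨j, hj, hj'⟩ := hcf0
      exact ⟨j, Finset.mem_filter.mpr ⟨hj, hj'⟩⟩
    have hsumJ : ∀ f : V → Vec k, ∑ j ∈ J, cf j • f j = ∑ j ∈ N, cf j • f j := by
      intro f
      refine Finset.sum_subset hJN fun j hj hj' => ?_
      have : cf j = 0 := by
        by_contra h0
        exact hj' (Finset.mem_filter.mpr ⟨hj, h0⟩)
      rw [this, zero_smul]
    have hsumJ' : ∀ f : V → k, ∑ j ∈ J, cf j * f j = ∑ j ∈ N, cf j * f j := by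
      intro f
      refine Finset.sum_subset hJN fun j hj hj' => ?_
      have : cf j = 0 := by
        by_contra h0
        exact hj' (Finset.mem_filter.mpr ⟨hj, h0⟩)
      rw [this, zero_mul]
    have hsumq : ∑ j ∈ J, cf j • q j = c₀ • q v := by
      rw [hqv, ← hcfsum, hsumJ]
      exact Finset.sum_congr rfl fun j hj => by rw [hqN j hj]
    have hgqN : GenPos q (insert v (N : Set V)) :=
      hx2.mono (by
        rw [Finset.coe_insert]
        exact Set.insert_subset_insert (by exact_mod_cast hNB))
    have hJ4 : 4 ≤ J.card := four_le_card_of_dep hvN hgqN hJN hcJ hJne hsumq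
    have hJ5 : J.card ≤ 5 := by rw [← hN5]; exact Finset.card_le_card hJN
    -- rigidity of J
    have hE' : E ∪ joinE {v} N ⊆ Kf (insert v B) := by
      refine Finset.union_subset (hE.trans (Kf_mono (Finset.subset_insert _ _))) ?_
      intro f hf
      obtain ⟨w, hw, j, hj, rfl⟩ := mem_joinE.mp hf
      rw [Finset.mem_singleton] at hw
      subst hw
      rw [mk_mem_Kf]
      exact ⟨fun h => hvN (h ▸ hj), by simp, by simp [hNB hj]⟩
    have herase : (insert v B).erase v = B := Finset.erase_insert hv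
    have hrig := rigid_of_dep (A := insert v B) (E := E ∪ joinE {v} N) hE' hx1 (v := v)
      (by simp) (J := J) (fun j hj => by
        rw [Finset.mem_union]; right
        exact mem_joinE.mpr ⟨v, by simp, j, hJN hj, rfl⟩) hJ5 (c := cf) hcJ (c₀ := c₀) hsumq (by
      intro Z hZ
      rw [herase] at hZ
      have hZM : Z ∈ M := by
        rw [← hMq]
        exact Mot_anti (by simp) q hZ
      obtain ⟨S, hS, g, hg1, hg2, ha', hb', hc', hd', he'⟩ := hTB hZM
      rw [hsumJ', hqv]
      have key : ∀ j ∈ N, cf j * (Z j ⬝ᵥ x) = (S (cf j • p j)) ⬝ᵥ x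
          + (if j = d then cf d * (g ⬝ᵥ x) else 0) + (if j = e then cf e * (t * (g ⬝ᵥ x)) else 0) := by
        intro j hj
        rw [hNeq] at hj
        simp only [Finset.mem_insert, Finset.mem_singleton] at hj
        rcases hj with rfl | rfl | rfl | rfl | rfl
        · rw [ha', if_neg had, if_neg hae, map_smul, smul_dotProduct]; simp
        · rw [hb', if_neg hbd, if_neg hbe, map_smul, smul_dotProduct]; simp
        · rw [hc', if_neg hcd, if_neg hce, map_smul, smul_dotProduct]; simp
        · rw [hd', if_pos rfl, if_neg hde, map_smul, smul_dotProduct, add_dotProduct, smul_eq_mul]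
          ring
        · rw [he', if_neg (Ne.symm hde), if_pos rfl, map_smul, smul_dotProduct, add_dotProduct,
            smul_dotProduct, smul_eq_mul, smul_eq_mul]
          ring
      rw [Finset.sum_congr rfl key, Finset.sum_add_distrib, Finset.sum_add_distrib,
        Finset.sum_ite_eq', Finset.sum_ite_eq', if_pos (by rw [hNeq]; simp),
        if_pos (by rw [hNeq]; simp), ← sum_dotProduct, ← map_sum, hcfsum, map_smul, smul_dotProduct,
        hS x, smul_zero, zero_add]
      have : cf d * (g ⬝ᵥ x) + cf e * (t * (g ⬝ᵥ x)) = (cf d + t * cf e) * (g ⬝ᵥ x) := by ring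
      rw [this, hcfde, zero_mul])
    -- d, e ∈ J
    have hde' : d ∈ J ∧ e ∈ J := by
      have h3 : ¬ (d ∉ J ∧ e ∉ J) := by
        rintro ⟨h4, h5⟩
        have : J ⊆ {a, b, c} := by
          intro j hj
          have hjN := hJN hj
          rw [hNeq] at hjN
          simp only [Finset.mem_insert, Finset.mem_singleton] at hjN ⊢
          rcases hjN with rfl | rfl | rfl | rfl | rfl
          · tauto
          · tauto
          · tauto
          · exact absurd hj h4
          · exact absurd hj h5
        have h6 := Finset.card_le_card this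
        have h7 : ({a, b, c} : Finset V).card ≤ 3 := Finset.card_le_three
        omega
      have hdN : d ∈ N := by rw [hNeq]; simp
      have heN : e ∈ N := by rw [hNeq]; simp
      have h4 : d ∈ J ↔ e ∈ J := by
        simp only [J, Finset.mem_filter, hdN, heN, true_and]
        constructor
        · intro h5 h6
          rw [h6, mul_zero, add_zero] at hcfde
          exact h5 hcfde
        · intro h5 h6
          rw [h6, zero_add] at hcfde
          rcases mul_eq_zero.mp hcfde with h7 | h7
          · exact ht h7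
          · exact h5 h7
      tauto
    have hle : M ⊓ Att p (N : Set V) x ≤ M ⊓ RG p (N : Set V) := by
      intro Z hZ
      refine ⟨hZ.1, ?_⟩
      have hZ1 : Z ∈ Mot B (E : Set (Sym2 V)) q := by rw [hMq]; exact hZ.1
      obtain ⟨Z', hZ', hZ'B⟩ := exists_extend (W := {v}) (J := N) hWB hNB hE hZ1 (fun w hw => by
        rw [Finset.mem_singleton] at hw
        subst hw
        rw [Att_congr (p' := p) (fun i hi => hqN i (by simpa using hi)), hqv]
        exact hZ.2)
      rw [hun] at hZ'
      obtain ⟨S, hS, g, hg1, hg2, ha', hb', hc', hd', he'⟩ := hTB hZ.1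
      have h4 : ∀ j ∈ J, g ⬝ᵥ p j = 0 := by
        intro j hj
        have h5 := hrig Z' hZ' j hj d hde'.1
        rw [eps_apply, hZ'B j (hNB (hJN hj)), hZ'B d (hNB (hJN hde'.1)), hqN j (hJN hj),
          hqN d (hJN hde'.1), hd', add_dotProduct, hS.swap (p d)] at h5
        have hjN := hJN hj
        rw [hNeq] at hjN
        simp only [Finset.mem_insert, Finset.mem_singleton] at hjN
        rcases hjN with rfl | rfl | rfl | rfl | rfl
        · rw [ha'] at h5; linear_combination h5
        · rw [hb'] at h5; linear_combination h5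
        · rw [hc'] at h5; linear_combination h5
        · exact hg1
        · exact hg2
      have hg0 : g = 0 := by
        have hspJ : Spans p J := (hgN.mono (by exact_mod_cast hJN)).spans hJ4
        have h5 : ∀ y : Vec k, g ⬝ᵥ y = 0 := by
          intro y
          obtain ⟨cc, rfl⟩ := hspJ y
          rw [dotProduct_sum]
          exact Finset.sum_eq_zero fun i hi => by rw [dotProduct_smul, h4 i hi, smul_zero]
        ext i
        simpa using h5 (Pi.single i 1)
      refine ⟨S, hS, fun i hi => ?_⟩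
      have hi' : i ∈ N := by simpa using hi
      rw [hNeq] at hi'
      simp only [Finset.mem_insert, Finset.mem_singleton] at hi'
      rcases hi' with rfl | rfl | rfl | rfl | rfl
      · exact ha'
      · exact hb'
      · exact hc'
      · rw [hd', hg0, add_zero]
      · rw [he', hg0, smul_zero, add_zero]
    have hfdM : FiniteDimensional k M := Mot_finiteDimensional _ _ _
    have hfd2 : FiniteDimensional k (M ⊓ RG p (N : Set V) : Submodule k (V → Vec k)) :=
      Submodule.finiteDimensional_of_le inf_le_left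
    have h8 := finrank_le_of_TB (N := (N : Set V)) (a := a) (b := b) (c := c) (d := d) (e := e)
      (fun w hw => by
        have : w ∈ N := by simpa using hw
        rw [hNeq] at this
        simpa using this) (S := M) hTB x
    have h9 := Submodule.finrank_mono hle
    omega

end GR
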