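import Pool.Agent.Lib.GR.MainTypes
import Pool.Agent.Lib.GR.Room

/-!
# No pair functionals

A pair of vertices of `U` which is rigid on `Q_X` is rigid on all motions of `U`.
-/

set_option linter.unusedSectionVars false

namespace GR

open Filter Module

open scoped Matrix

variable {k : Type*} [Field k] [Infinite k] {V : Type*} [DecidableEq V]
  {U X : Finset V} {E : Set (Sym2 V)}

open Classical in
/-- the edges of `E` inside `B`, as a finset -/
noncomputable def inE (B : Finset V) (E : Set (Sym2 V)) : Finset (Sym2 V) :=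
  (Kf B).filter (· ∈ E)

lemma inE_subset (B : Finset V) (E : Set (Sym2 V)) : inE B E ⊆ Kf B := by
  classical
  exact Finset.filter_subset _ _

lemma mem_inE {B : Finset V} {E : Set (Sym2 V)} {e : Sym2 V} :
    e ∈ inE B E ↔ e ∈ Kf B ∧ e ∈ E := by
  simp [inE]

lemma Mot_inE (B : Finset V) (E : Set (Sym2 V)) (p : V → Vec k) :
    Mot B ((inE B E : Finset (Sym2 V)) : Set (Sym2 V)) p = Mot B E p := by
  ext Z
  rw [mem_Mot, mem_Mot]
  refine and_congr_right fun _ => and_congr_right fun h2 => ?_
  constructor
  · intro h a ha b hb hab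
    by_cases hne : a = b
    · subst hne
      rw [eps_apply, h2 a ha, add_zero]
    · exact h a ha b hb (Finset.mem_coe.mpr (mem_inE.mpr ⟨mk_mem_Kf.mpr ⟨hne, ha, hb⟩, hab⟩))
  · intro h a ha b hb hab
    exact h a ha b hb (mem_inE.mp (Finset.mem_coe.mp hab)).2

/-- adding one pair -/
lemma Mot_insert_pair {B : Finset V} (E : Set (Sym2 V)) (p : V → Vec k) {a b : V} (ha : a ∈ B)
    (hb : b ∈ B) : Mot B (insert s(a, b) E) p = Mot B E p ⊓ LinearMap.ker (eps p a b) := by
  ext Z
  rw [Submodule.mem_inf, mem_Mot, mem_Mot, LinearMap.mem_ker]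
  constructor
  · rintro ⟨h1, h2, h3⟩
    exact ⟨⟨h1, h2, fun x hx y hy hxy => h3 x hx y hy (Set.mem_insert_of_mem _ hxy)⟩,
      h3 a ha b hb (Set.mem_insert _ _)⟩
  · rintro ⟨⟨h1, h2, h3⟩, h4⟩
    refine ⟨h1, h2, fun x hx y hy hxy => ?_⟩
    rcases hxy with hxy | hxy
    · rw [Sym2.eq_iff] at hxy
      rcases hxy with ⟨rfl, rfl⟩ | ⟨rfl, rfl⟩
      · exact h4
      · rw [eps_comm]; exact h4
    · exact h3 x hx y hy hxy

/-- FACT R for sets of edges `E : Set` -/
theorem factR_set {B : Finset V} {v : V} (hv : v ∉ B) (h2 : (2 : k) ≠ 0)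
    (hCP : ∀ᶠ p in gen k (V → Vec k), CliqueProp (insert v B) p) :
    ∀ᶠ p in gen k (V → Vec k), ∀ E : Set (Sym2 V), ∀ N : Finset V, N ⊆ B →
      N.card = 5 →
      (∀ᶠ x in gen k (Vec k), finrank k (Mot B E p) ≤
        finrank k (Mot B E p ⊓ Att p (N : Set V) x :
          Submodule k (V → Vec k)) + 1) →
      finrank k (Mot B E p) ≤
        finrank k (Mot B E p ⊓ RG p (N : Set V) : Submodule k (V → Vec k)) + 1 ∨
      ∃ i ∈ N, Mot B E p ≤ RG p ((N.erase i : Finset V) : Set V) := by
  filter_upwards [factR hv h2 hCP] with p hp E N hN h5 hbad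
  have h := hp (inE B E) (inE_subset B E) N hN h5
  rw [Mot_inE] at h
  exact h hbad

variable {u v : V}

/-- **No pair functionals, two vertices.** -/
theorem MLHyp.noPair_two (h : MLHyp k U X E) (h2 : (2 : k) ≠ 0)
    (hCP : ∀ w ∈ X, ∀ᶠ p in gen k (V → Vec k), CliqueProp (U ∪ X.erase w) p)
    (hu : u ∈ X) (hv : v ∈ X) (huv : u ≠ v) :
    ∀ᶠ p in gen k (V → Vec k), ∀ a ∈ U, ∀ b ∈ U,
      Isp (Mot U E p) (AttU U E p) (X.erase v) ⊔ Isp (Mot U E p) (AttU U E p) (X.erase u)
        ≤ LinearMap.ker (eps p a b) →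
      Isp (Mot U E p) (AttU U E p) ((X.erase u).erase v) ≤ LinearMap.ker (eps p a b) := by
  classical
  set Y := (X.erase u).erase v with hY
  have hYX : Y ⊆ X := (Finset.erase_subset _ _).trans (Finset.erase_subset _ _)
  have hsub : ∀ w, (nbr U E w : Set V) ⊆ (U : Set V) := fun w x hx => by
    simpa using nbr_subset U E w (by simpa using hx)
  have h1 := h.eventually_dim_one hu hv huv
  have h2' := h.eventually_dim_one hv hu huv.symm
  rw [Finset.erase_right_comm] at h2'
  rw [← hY] at h1 h2'
  have hpair := pair_lemma (k := k) (U ∪ Y) E (Nu := nbr U E u) (Nv := nbr U E v) (c := 6)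
    (by rw [h.card5 u hu]; norm_num) ((nbr_subset _ _ _).trans Finset.subset_union_left)
    (h.eventually_pairHyp hu hv huv)
  have hnot : u ∉ U ∪ Y := notMem_base h.indep hu
  have hfact := factR_set (k := k) (B := U ∪ Y) hnot h2 (by
    have := hCP v hv
    rwa [← insert_base hu huv] at this)
  have hinj : ∀ᶠ p in gen k (V → Vec k), finrank k (Mot (U ∪ X.erase v) E p ⊓
      RG p (nbr U E v : Set V) : Submodule k (V → Vec k)) ≤ 6 := h.inj v hv
  have hHH := h.eventually_pairHyp hu hv huv
  rw [← hY] at hHH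
  filter_upwards [h1, h2', hpair, hfact, hHH, hinj, h.typ v hv,
    h.eventually_genPos, h.eventually_dimHyp, h.eventually_span] with
    p a1 a2 hP hF hH hI hT hgp hD hs a ha b hb hle
  obtain ⟨L, hLM, hL, hLu, hLv⟩ := hP
  have hfd : FiniteDimensional k L := Submodule.finiteDimensional_of_le hLM
  by_contra hcon
  have haB : a ∈ U ∪ Y := Finset.mem_union_left _ ha
  have hbB : b ∈ U ∪ Y := Finset.mem_union_left _ hb
  have hcut : ∀ Z : V → Vec k, eps p a b (cut k U Z) = eps p a b Z := fun Z => eps_cut p Z ha hb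
  -- `L` is killed by the strain of `a b`
  have e1 : Isp (Mot U E p) (AttU U E p) (X.erase v)
      = (Mot (U ∪ Y) E p ⊓ Att p (nbr U E u : Set V) (p u)).map (cut k U) := by
    rw [map_cut_inf_Att (hsub u), map_cut_Mot h.indep hYX]
    have := Isp_erase_inf (Mot U E p) (AttU U E p) (X := X.erase v) (u := u)
      (Finset.mem_erase.mpr ⟨huv, hu⟩)
    rw [← this, hY, Finset.erase_right_comm]
    rfl
  have e2 : Isp (Mot U E p) (AttU U E p) (X.erase u)
      = (Mot (U ∪ Y) E p ⊓ Att p (nbr U E v : Set V) (p v)).map (cut k U) := by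
    rw [map_cut_inf_Att (hsub v), map_cut_Mot h.indep hYX]
    have := Isp_erase_inf (Mot U E p) (AttU U E p) (X := X.erase u) (u := v)
      (Finset.mem_erase.mpr ⟨huv.symm, hv⟩)
    rw [← this, hY]
    rfl
  have hA : Mot (U ∪ Y) E p ⊓ Att p (nbr U E u : Set V) (p u) ≤ LinearMap.ker (eps p a b) := by
    intro Z hZ
    have h3 : cut k U Z ∈ LinearMap.ker (eps p a b) := hle (Submodule.mem_sup_left (by
      rw [e1]; exact ⟨Z, hZ, rfl⟩))
    rw [LinearMap.mem_ker] at h3 ⊢
    rw [← hcut, h3]
  have hB : Mot (U ∪ Y) E p ⊓ Att p (nbr U E v : Set V) (p v) ≤ LinearMap.ker (eps p a b) := by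
    intro Z hZ
    have h3 : cut k U Z ∈ LinearMap.ker (eps p a b) := hle (Submodule.mem_sup_right (by
      rw [e2]; exact ⟨Z, hZ, rfl⟩))
    rw [LinearMap.mem_ker] at h3 ⊢
    rw [← hcut, h3]
  -- the sum is `L`
  have hinf : finrank k ((Mot (U ∪ Y) E p ⊓ Att p (nbr U E u : Set V) (p u)) ⊓
      (Mot (U ∪ Y) E p ⊓ Att p (nbr U E v : Set V) (p v)) : Submodule k (V → Vec k)) = 7 := by
    have e3 : (Mot (U ∪ Y) E p ⊓ Att p (nbr U E u : Set V) (p u)) ⊓
      (Mot (U ∪ Y) E p ⊓ Att p (nbr U E v : Set V) (p v))
        = Mot (U ∪ Y) E p ⊓ Att p (nbr U E u : Set V) (p u) ⊓ Att p (nbr U E v : Set V) (p v) := by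
      ext z
      simp only [Submodule.mem_inf]
      tauto
    have hle' : Mot (U ∪ Y) E p ⊓ Att p (nbr U E u : Set V) (p u) ⊓
        Att p (nbr U E v : Set V) (p v) ≤ Mot (U ∪ Y) E p := inf_le_left.trans inf_le_left
    rw [e3, ← finrank_map_cut (fun w hw => hs w (hYX hw)) hle', map_cut_inf_Att (hsub v), ← e1]
    have := Isp_erase_inf (Mot U E p) (AttU U E p) hv
    have e4 : Isp (Mot U E p) (AttU U E p) (X.erase v) ⊓ Att p (nbr U E v : Set V) (p v)
        = Isp (Mot U E p) (AttU U E p) X := this
    rw [e4]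
    exact hD.full
  have hsum : (Mot (U ∪ Y) E p ⊓ Att p (nbr U E u : Set V) (p u)) ⊔
      (Mot (U ∪ Y) E p ⊓ Att p (nbr U E v : Set V) (p v)) = L := by
    have hA' := hLu _ a1
    have hB' := hLv _ a2
    have : FiniteDimensional k
        (Mot (U ∪ Y) E p ⊓ Att p (nbr U E u : Set V) (p u) : Submodule k (V → Vec k)) :=
      Submodule.finiteDimensional_of_le hA'
    have : FiniteDimensional k
        (Mot (U ∪ Y) E p ⊓ Att p (nbr U E v : Set V) (p v) : Submodule k (V → Vec k)) :=
      Submodule.finiteDimensional_of_le hB'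
    have h4 := Submodule.finrank_sup_add_finrank_inf_eq
      (Mot (U ∪ Y) E p ⊓ Att p (nbr U E u : Set V) (p u))
      (Mot (U ∪ Y) E p ⊓ Att p (nbr U E v : Set V) (p v))
    exact Submodule.eq_of_le_of_finrank_le (sup_le hA' hB') (by omega)
  have hLker : L ≤ LinearMap.ker (eps p a b) := by rw [← hsum]; exact sup_le hA hB
  -- the graph with the pair `a b`
  have hker : Mot (U ∪ Y) (insert s(a, b) E) p = L := by
    rw [Mot_insert_pair E p haB hbB]
    refine (Submodule.eq_of_le_of_finrank_le (le_inf hLM hLker) ?_).symm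
    have h5 : ¬ (Mot (U ∪ Y) E p ≤ LinearMap.ker (eps p a b)) := by
      intro h6
      apply hcon
      rw [← map_cut_Mot h.indep hYX]
      rintro _ ⟨Z, hZ, rfl⟩
      rw [LinearMap.mem_ker, hcut]
      exact h6 hZ
    have h6 : Mot (U ∪ Y) E p ⊓ LinearMap.ker (eps p a b) < Mot (U ∪ Y) E p :=
      lt_of_le_of_ne inf_le_left (fun e => h5 (by rw [← e]; exact inf_le_right))
    have h7 := Submodule.finrank_lt_finrank_of_lt h6
    have h8 := hH.finM
    omega
  have hbad : ∀ᶠ x in gen k (Vec k), finrank k (Mot (U ∪ Y) (insert s(a, b) E) p) ≤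
        finrank k (Mot (U ∪ Y) (insert s(a, b) E) p ⊓ Att p (nbr U E v : Set V) x :
          Submodule k (V → Vec k)) + 1 := by
    rw [hker]
    filter_upwards [hH.dimv] with x hx
    have h9 : L ⊓ Att p (nbr U E v : Set V) x = Mot (U ∪ Y) E p ⊓ Att p (nbr U E v : Set V) x := by
      apply le_antisymm (inf_le_inf hLM le_rfl)
      exact le_inf (hLv _ hx) inf_le_right
    rw [h9, hL]
    omega
  have hNsub : nbr U E v ⊆ U ∪ Y := (nbr_subset _ _ _).trans Finset.subset_union_left
  -- the motions which extend to `u`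
  set Q := Mot (U ∪ Y) E p ⊓ Att p (nbr U E u : Set V) (p u) with hQ
  have hQL : Q ≤ L := hLu _ a1
  have hunv : u ∉ (nbr U E v : Set V) := by simpa using h.notMem_nbr (v := v) hu
  have hQforget : Q = (Mot (U ∪ X.erase v) E p).map (forget k u) := by
    rw [map_forget_base h.indep hu huv]
  have hQR : finrank k (Q ⊓ RG p (nbr U E v : Set V) : Submodule k (V → Vec k)) ≤ 6 := by
    refine le_trans ?_ hI
    have hle2 : Q ⊓ RG p (nbr U E v : Set V)
        ≤ (Mot (U ∪ X.erase v) E p ⊓ RG p (nbr U E v : Set V)).map (forget k u) := by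
      rintro Z ⟨hZ, hZR⟩
      rw [hQforget] at hZ
      obtain ⟨W, hW, rfl⟩ := hZ
      refine ⟨W, ⟨hW, (mem_RG_congr fun y hy => ?_).mp hZR⟩, rfl⟩
      exact forget_apply_of_ne (by rintro rfl; exact hunv hy) _
    have hfd2 : FiniteDimensional k
        (Mot (U ∪ X.erase v) E p ⊓ RG p (nbr U E v : Set V) : Submodule k (V → Vec k)) :=
      Submodule.finiteDimensional_of_le inf_le_left
    exact (Submodule.finrank_mono hle2).trans (Submodule.finrank_map_le _ _)
  have hQtyp : Q ≤ TA p (nbr U E v : Set V) ∨
      ∃ σ : Fin 5 → nbr U E v, Function.Bijective σ ∧ ∃ t : k, t ≠ 0 ∧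
        Q ≤ TB p (σ 0) (σ 1) (σ 2) (σ 3) (σ 4) t := by
    rw [hQforget]
    rcases hT with hT | ⟨σ, hσ, t, ht0, ht⟩
    · left
      rintro _ ⟨W, hW, rfl⟩
      refine (mem_TA_congr fun y hy => ?_).mp (hT hW)
      exact (forget_apply_of_ne (by rintro rfl; exact hunv hy) _).symm
    · right
      refine ⟨σ, hσ, t, ht0, ?_⟩
      rintro _ ⟨W, hW, rfl⟩
      have hne : ∀ i, W (σ i) = forget k u W (σ i) := fun i =>
        (forget_apply_of_ne (by
          intro e
          exact hunv (by rw [← e]; exact (σ i).2)) _).symm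
      exact (mem_TB_congr (hne 0) (hne 1) (hne 2) (hne 3) (hne 4)).mp (ht hW)
  rcases hF (insert s(a, b) E) (nbr U E v) hNsub (h.card5 v hv) hbad with h9 | ⟨i, hi, h9⟩
  · rw [hker] at h9
    have h10 := finrank_le_of_le_codim hQL h9
    omega
  · rw [hker] at h9
    have h10 := le_RG_of_four (h.card5 v hv) (hgp v hv) hQtyp (hQL.trans h9)
    rw [inf_eq_left.mpr h10] at hQR
    omega

/-- **No pair functionals.**  A pair which is rigid on `Q_X` is rigid on all motions of `U`. -/
theorem MLHyp.noPair (h : MLHyp k U X E) (h2 : (2 : k) ≠ 0)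
    (hCP : ∀ w ∈ X, ∀ᶠ p in gen k (V → Vec k), CliqueProp (U ∪ X.erase w) p)
    (hX : X.Nonempty) :
    ∀ᶠ p in gen k (V → Vec k), ∀ a ∈ U, ∀ b ∈ U, QX U X E p ≤ LinearMap.ker (eps p a b) →
      Mot U E p ≤ LinearMap.ker (eps p a b) := by
  classical
  have h1 : ∀ᶠ p in gen k (V → Vec k), ∀ u ∈ X, ∀ v ∈ X, u ≠ v → ∀ a ∈ U, ∀ b ∈ U,
      Isp (Mot U E p) (AttU U E p) (X.erase v) ⊔ Isp (Mot U E p) (AttU U E p) (X.erase u)
        ≤ LinearMap.ker (eps p a b) →
      Isp (Mot U E p) (AttU U E p) ((X.erase u).erase v) ≤ LinearMap.ker (eps p a b) := by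
    rw [Filter.eventually_all_finset]
    intro u hu
    rw [Filter.eventually_all_finset]
    intro v hv
    by_cases huv : u = v
    · exact Eventually.of_forall fun p hne => absurd huv hne
    · filter_upwards [h.noPair_two h2 hCP hu hv huv] with p hp _
      exact hp
  filter_upwards [h1, h.eventually_dimHyp] with p hp hD a ha b hb hQ
  have hfd : FiniteDimensional k (Mot U E p) := inferInstance
  have key : ∀ n : ℕ, ∀ Y ⊆ X, Y.card = n + 1 →
      Isp (Mot U E p) (AttU U E p) (X \ Y) ≤ LinearMap.ker (eps p a b) := by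
    intro n
    induction n with
    | zero =>
      intro Y hY hc
      obtain ⟨u, rfl⟩ := Finset.card_eq_one.mp hc
      have hu : u ∈ X := by simpa using hY
      rw [Finset.sdiff_singleton_eq_erase]
      exact (Isp_le_Qsp _ _ hu).trans hQ
    | succ n ih =>
      intro Y hY hc
      obtain ⟨u, hu, v, hv, huv⟩ := Finset.one_lt_card.mp (by omega : 1 < Y.card)
      have hu' := hY hu
      have hv' := hY hv
      have i1 := ih (Y.erase u) ((Finset.erase_subset _ _).trans hY)
        (by rw [Finset.card_erase_of_mem hu, hc]; omega)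
      have i2 := ih (Y.erase v) ((Finset.erase_subset _ _).trans hY)
        (by rw [Finset.card_erase_of_mem hv, hc]; omega)
      by_cases hn : n = 0
      · subst hn
        have hYeq : Y = {u, v} := by
          symm
          apply Finset.eq_of_subset_of_card_le
          · intro x hx
            rcases Finset.mem_insert.mp hx with rfl | hx
            · exact hu
            · rw [Finset.mem_singleton] at hx; rw [hx]; exact hv
          · rw [hc, Finset.card_pair huv]
        have e : X \ Y = (X.erase u).erase v := by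
          rw [hYeq]
          ext x
          simp only [Finset.mem_sdiff, Finset.mem_insert, Finset.mem_singleton, Finset.mem_erase]
          tauto
        rw [e]
        refine hp u hu' v hv' huv a ha b hb ?_
        refine sup_le ?_ ?_
        · exact (Isp_le_Qsp _ _ hv').trans hQ
        · exact (Isp_le_Qsp _ _ hu').trans hQ
      · -- the sum of two codimension two subspaces
        have hc1 : (X \ Y).card + Y.card = X.card := Finset.card_sdiff_add_card_eq_card hY
        have hsub1 : X \ Y.erase u = insert u (X \ Y) := by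
          ext x
          simp only [Finset.mem_sdiff, Finset.mem_erase, Finset.mem_insert]
          by_cases hx : x = u
          · subst hx; simp [hu']
          · simp [hx]
        have hsub2 : X \ Y.erase v = insert v (X \ Y) := by
          ext x
          simp only [Finset.mem_sdiff, Finset.mem_erase, Finset.mem_insert]
          by_cases hx : x = v
          · subst hx; simp [hv']
          · simp [hx]
        have huXY : u ∉ X \ Y := by simp [hu]
        have hvXY : v ∉ X \ Y := by simp [hv]
        set K := Mot U E p with hK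
        set A := AttU U E p with hA
        have d0 := hD.proper (X \ Y) Finset.sdiff_subset (fun e => huXY (by rw [e]; exact hu'))
        have d1 := hD.proper (insert u (X \ Y)) (Finset.insert_subset hu' Finset.sdiff_subset)
          (fun e => by
            have : v ∈ insert u (X \ Y) := by rw [e]; exact hv'
            rcases Finset.mem_insert.mp this with h3 | h3
            · exact huv h3.symm
            · exact hvXY h3)
        have d2 := hD.proper (insert v (X \ Y)) (Finset.insert_subset hv' Finset.sdiff_subset)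
          (fun e => by
            have : u ∈ insert v (X \ Y) := by rw [e]; exact hu'
            rcases Finset.mem_insert.mp this with h3 | h3
            · exact huv h3
            · exact huXY h3)
        have hne3 : insert u (insert v (X \ Y)) ≠ X := by
          intro e
          have h4 := congrArg Finset.card e
          rw [Finset.card_insert_of_notMem (by simp [huv, hu]),
            Finset.card_insert_of_notMem hvXY] at h4
          omega
        have d3 := hD.proper (insert u (insert v (X \ Y)))
          (Finset.insert_subset hu' (Finset.insert_subset hv' Finset.sdiff_subset)) hne3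
        rw [Finset.card_insert_of_notMem (by simp [huv, hu]),
            Finset.card_insert_of_notMem hvXY] at d3
        rw [Finset.card_insert_of_notMem huXY] at d1
        rw [Finset.card_insert_of_notMem hvXY] at d2
        have hfd0 : FiniteDimensional k (Isp K A (X \ Y)) :=
          Submodule.finiteDimensional_of_le (Isp_le _ _ _)
        have hfd1 : FiniteDimensional k (Isp K A (insert u (X \ Y))) :=
          Submodule.finiteDimensional_of_le (Isp_le _ _ _)
        have hfd2 : FiniteDimensional k (Isp K A (insert v (X \ Y))) :=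
          Submodule.finiteDimensional_of_le (Isp_le _ _ _)
        have h5 := Submodule.finrank_sup_add_finrank_inf_eq
          (Isp K A (insert u (X \ Y))) (Isp K A (insert v (X \ Y)))
        have e3 : Isp K A (insert u (X \ Y)) ⊓ Isp K A (insert v (X \ Y))
            = Isp K A (insert u (insert v (X \ Y))) := by
          ext z
          simp only [Submodule.mem_inf, mem_Isp, Finset.mem_insert, forall_eq_or_imp]
          tauto
        rw [e3] at h5
        have h6 : Isp K A (insert u (X \ Y)) ⊔ Isp K A (insert v (X \ Y)) = Isp K A (X \ Y) := by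
          refine Submodule.eq_of_le_of_finrank_le (sup_le
            (Isp_anti _ _ (Finset.subset_insert _ _)) (Isp_anti _ _ (Finset.subset_insert _ _))) ?_
          omega
        rw [← h6]
        rw [hsub1] at i1
        rw [hsub2] at i2
        exact sup_le i1 i2
  obtain ⟨n, hn⟩ : ∃ n, X.card = n + 1 := ⟨X.card - 1, by
    have := Finset.card_pos.mpr hX
    omega⟩
  have := key n X subset_rfl hn
  rw [Finset.sdiff_self] at this
  have e : Isp (Mot U E p) (AttU U E p) ∅ = Mot U E p := by ext z; simp [mem_Isp]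
  rwa [e] at this

end GR
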