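import Pool.Agent.Lib.GR.Defs

/-!
# Types of motions of a set of five points

* `RG p N`  : motions which are rigid on `N`;
* `TA p N`  : motions which are linear on `N` (type A);
* `TB p a b c d e t` : `a b c` is a rigid body, relative to which `Z d = g`, `Z e = t g` with `g`
  vanishing at `p d` and `p e` (type B);
* `TB2 p a b c d e` : as before with two independent covectors `g`, `g'`.
-/

set_option linter.unusedSectionVars false

namespace GR

open Filter Module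

open scoped Matrix

variable {k : Type*} [Field k] {V : Type*}

/-- Skew linear maps (infinitesimal rotations). -/
def IsSkew (S : Vec k →ₗ[k] Vec k) : Prop := ∀ x, S x ⬝ᵥ x = 0

lemma IsSkew.swap {S : Vec k →ₗ[k] Vec k} (h : IsSkew S) (x y : Vec k) :
    S x ⬝ᵥ y = - (S y ⬝ᵥ x) := by
  have h1 := h (x + y)
  rw [map_add, add_dotProduct, dotProduct_add, dotProduct_add, h x, h y] at h1
  linear_combination h1

lemma IsSkew.zero : IsSkew (0 : Vec k →ₗ[k] Vec k) := fun _ => by simp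

lemma IsSkew.add {S S' : Vec k →ₗ[k] Vec k} (h : IsSkew S) (h' : IsSkew S') :
    IsSkew (S + S') := fun x => by simp [add_dotProduct, h x, h' x]

lemma IsSkew.sub {S S' : Vec k →ₗ[k] Vec k} (h : IsSkew S) (h' : IsSkew S') :
    IsSkew (S - S') := fun x => by simp [sub_dotProduct, h x, h' x]

lemma IsSkew.smul {S : Vec k →ₗ[k] Vec k} (h : IsSkew S) (c : k) :
    IsSkew (c • S) := fun x => by simp [smul_dotProduct, h x]

/-- The submodule of skew maps. -/
def SkewSub (k : Type*) [Field k] : Submodule k (Vec k →ₗ[k] Vec k) where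
  carrier := {S | IsSkew S}
  add_mem' := IsSkew.add
  zero_mem' := IsSkew.zero
  smul_mem' c _ h := h.smul c

/-- A skew map killing three independent vectors is zero. -/
lemma IsSkew.eq_zero_of_three {S : Vec k →ₗ[k] Vec k} (h : IsSkew S) {x y z : Vec k}
    (hind : LinearIndependent k ![x, y, z]) (hx : S x = 0) (hy : S y = 0) (hz : S z = 0) :
    S = 0 := by
  -- the image of `S` is orthogonal to `x, y, z`
  have hortho : ∀ v, S v ⬝ᵥ x = 0 ∧ S v ⬝ᵥ y = 0 ∧ S v ⬝ᵥ z = 0 := by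
    intro v
    refine ⟨?_, ?_, ?_⟩
    · rw [h.swap, hx]; simp
    · rw [h.swap, hy]; simp
    · rw [h.swap, hz]; simp
  -- extend to a basis
  obtain ⟨w, hw⟩ : ∃ w : Vec k, LinearIndependent k ![x, y, z, w] := by
    by_contra hcon
    push Not at hcon
    have hspan : Submodule.span k (Set.range ![x, y, z]) = ⊤ := by
      rw [eq_top_iff]
      intro w _
      by_contra hw
      apply hcon w
      have h7 := (linearIndependent_finSnoc (v := ![x, y, z]) (x := w)).mpr ⟨hind, hw⟩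
      have e : (Fin.snoc ![x, y, z] w : Fin 4 → Vec k) = ![x, y, z, w] := by
        ext i j
        fin_cases i <;> rfl
      rwa [e] at h7
    have h5 := finrank_span_eq_card hind
    rw [hspan, finrank_top, Module.finrank_fin_fun] at h5
    simp at h5
  have hb : Submodule.span k (Set.range ![x, y, z, w]) = ⊤ :=
    hw.span_eq_top_of_card_eq_finrank' (by simp)
  have hSw : S w = 0 := by
    -- `S w` is orthogonal to a basis
    have h6 : ∀ v ∈ Submodule.span k (Set.range ![x, y, z, w]), S w ⬝ᵥ v = 0 := by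
      intro v hv
      induction hv using Submodule.span_induction with
      | mem v hv =>
        obtain ⟨i, rfl⟩ := hv
        fin_cases i
        · exact (hortho w).1
        · exact (hortho w).2.1
        · exact (hortho w).2.2
        · exact h w
      | zero => simp
      | add a b _ _ ha hb => rw [dotProduct_add, ha, hb, add_zero]
      | smul c a _ ha => rw [dotProduct_smul, ha, smul_zero]
    rw [hb] at h6
    exact dotProduct_eq_zero _ fun v => h6 v trivial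
  apply LinearMap.ext_on_range hb
  intro i
  fin_cases i
  · simpa using hx
  · simpa using hy
  · simpa using hz
  · simpa using hSw

/-- Motions which are rigid on `N`. -/
def RG (p : V → Vec k) (N : Set V) : Submodule k (V → Vec k) where
  carrier := {Z | ∃ S : Vec k →ₗ[k] Vec k, IsSkew S ∧ ∀ i ∈ N, Z i = S (p i)}
  add_mem' := by
    rintro Z Z' ⟨S, h1, h2⟩ ⟨S', h1', h2'⟩
    exact ⟨S + S', h1.add h1', fun i hi => by simp [h2 i hi, h2' i hi]⟩
  zero_mem' := ⟨0, IsSkew.zero, fun i _ => by simp⟩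
  smul_mem' := by
    rintro c Z ⟨S, h1, h2⟩
    exact ⟨c • S, h1.smul c, fun i hi => by simp [h2 i hi]⟩

lemma mem_RG {p Z : V → Vec k} {N : Set V} :
    Z ∈ RG p N ↔ ∃ S : Vec k →ₗ[k] Vec k, IsSkew S ∧ ∀ i ∈ N, Z i = S (p i) := Iff.rfl

/-- Motions which are linear on `N` (type A). -/
def TA (p : V → Vec k) (N : Set V) : Submodule k (V → Vec k) where
  carrier := {Z | ∃ T : Vec k →ₗ[k] Vec k, ∀ i ∈ N, Z i = T (p i)}
  add_mem' := by
    rintro Z Z' ⟨S, h2⟩ ⟨S', h2'⟩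
    exact ⟨S + S', fun i hi => by simp [h2 i hi, h2' i hi]⟩
  zero_mem' := ⟨0, fun i _ => by simp⟩
  smul_mem' := by
    rintro c Z ⟨S, h2⟩
    exact ⟨c • S, fun i hi => by simp [h2 i hi]⟩

lemma mem_TA {p Z : V → Vec k} {N : Set V} :
    Z ∈ TA p N ↔ ∃ T : Vec k →ₗ[k] Vec k, ∀ i ∈ N, Z i = T (p i) := Iff.rfl

lemma RG_le_TA (p : V → Vec k) (N : Set V) : RG p N ≤ TA p N :=
  fun _ ⟨S, _, h⟩ => ⟨S, h⟩

/-- Type B: `a b c` rigid, `Z d = g`, `Z e = t g` relative to it, `g` vanishes at `p d`, `p e`. -/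
def TB (p : V → Vec k) (a b c d e : V) (t : k) : Submodule k (V → Vec k) where
  carrier := {Z | ∃ S : Vec k →ₗ[k] Vec k, IsSkew S ∧ ∃ g : Vec k, g ⬝ᵥ p d = 0 ∧ g ⬝ᵥ p e = 0 ∧
    Z a = S (p a) ∧ Z b = S (p b) ∧ Z c = S (p c) ∧ Z d = S (p d) + g ∧ Z e = S (p e) + t • g}
  add_mem' := by
    rintro Z Z' ⟨S, h, g, h1, h2, h3, h4, h5, h6, h7⟩ ⟨S', h', g', h1', h2', h3', h4', h5', h6', h7'⟩
    refine ⟨S + S', h.add h', g + g', ?_, ?_, ?_, ?_, ?_, ?_, ?_⟩
    · rw [add_dotProduct, h1, h1', add_zero]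
    · rw [add_dotProduct, h2, h2', add_zero]
    · simp [h3, h3']
    · simp [h4, h4']
    · simp [h5, h5']
    · simp only [Pi.add_apply, h6, h6', LinearMap.add_apply]; abel
    · simp only [Pi.add_apply, h7, h7', LinearMap.add_apply, smul_add]; abel
  zero_mem' := ⟨0, IsSkew.zero, 0, by simp, by simp, by simp, by simp, by simp, by simp, by simp⟩
  smul_mem' := by
    rintro r Z ⟨S, h, g, h1, h2, h3, h4, h5, h6, h7⟩
    refine ⟨r • S, h.smul r, r • g, ?_, ?_, ?_, ?_, ?_, ?_, ?_⟩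
    · rw [smul_dotProduct, h1, smul_zero]
    · rw [smul_dotProduct, h2, smul_zero]
    · simp [h3]
    · simp [h4]
    · simp [h5]
    · simp only [Pi.smul_apply, h6, LinearMap.smul_apply, smul_add]
    · simp only [Pi.smul_apply, h7, LinearMap.smul_apply, smul_add, smul_comm t r g]

lemma mem_TB {p Z : V → Vec k} {a b c d e : V} {t : k} :
    Z ∈ TB p a b c d e t ↔
      ∃ S : Vec k →ₗ[k] Vec k, IsSkew S ∧ ∃ g : Vec k, g ⬝ᵥ p d = 0 ∧ g ⬝ᵥ p e = 0 ∧
    Z a = S (p a) ∧ Z b = S (p b) ∧ Z c = S (p c) ∧ Z d = S (p d) + g ∧ Z e = S (p e) + t • g :=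
  Iff.rfl

/-- The hull of the type B spaces with a given labelling. -/
def TB2 (p : V → Vec k) (a b c d e : V) : Submodule k (V → Vec k) where
  carrier := {Z | ∃ S : Vec k →ₗ[k] Vec k, IsSkew S ∧ ∃ g g' : Vec k, g ⬝ᵥ p d = 0 ∧
    g ⬝ᵥ p e = 0 ∧ g' ⬝ᵥ p d = 0 ∧ g' ⬝ᵥ p e = 0 ∧
    Z a = S (p a) ∧ Z b = S (p b) ∧ Z c = S (p c) ∧ Z d = S (p d) + g ∧ Z e = S (p e) + g'}
  add_mem' := by
    rintro Z Z' ⟨S, h, g, g₂, h1, h2, h1₂, h2₂, h3, h4, h5, h6, h7⟩
      ⟨S', h', g', g₂', h1', h2', h1₂', h2₂', h3', h4', h5', h6', h7'⟩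
    refine ⟨S + S', h.add h', g + g', g₂ + g₂', ?_, ?_, ?_, ?_, ?_, ?_, ?_, ?_, ?_⟩
    · rw [add_dotProduct, h1, h1', add_zero]
    · rw [add_dotProduct, h2, h2', add_zero]
    · rw [add_dotProduct, h1₂, h1₂', add_zero]
    · rw [add_dotProduct, h2₂, h2₂', add_zero]
    · simp [h3, h3']
    · simp [h4, h4']
    · simp [h5, h5']
    · simp only [Pi.add_apply, h6, h6', LinearMap.add_apply]; abel
    · simp only [Pi.add_apply, h7, h7', LinearMap.add_apply]; abel
  zero_mem' := ⟨0, IsSkew.zero, 0, 0, by simp, by simp, by simp, by simp, by simp, by simp,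
    by simp, by simp, by simp⟩
  smul_mem' := by
    rintro r Z ⟨S, h, g, g₂, h1, h2, h1₂, h2₂, h3, h4, h5, h6, h7⟩
    refine ⟨r • S, h.smul r, r • g, r • g₂, ?_, ?_, ?_, ?_, ?_, ?_, ?_, ?_, ?_⟩
    · rw [smul_dotProduct, h1, smul_zero]
    · rw [smul_dotProduct, h2, smul_zero]
    · rw [smul_dotProduct, h1₂, smul_zero]
    · rw [smul_dotProduct, h2₂, smul_zero]
    · simp [h3]
    · simp [h4]
    · simp [h5]
    · simp only [Pi.smul_apply, h6, LinearMap.smul_apply, smul_add]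
    · simp only [Pi.smul_apply, h7, LinearMap.smul_apply, smul_add]

lemma mem_TB2 {p Z : V → Vec k} {a b c d e : V} :
    Z ∈ TB2 p a b c d e ↔
      ∃ S : Vec k →ₗ[k] Vec k, IsSkew S ∧ ∃ g g' : Vec k, g ⬝ᵥ p d = 0 ∧
    g ⬝ᵥ p e = 0 ∧ g' ⬝ᵥ p d = 0 ∧ g' ⬝ᵥ p e = 0 ∧
    Z a = S (p a) ∧ Z b = S (p b) ∧ Z c = S (p c) ∧ Z d = S (p d) + g ∧ Z e = S (p e) + g' :=
  Iff.rfl

lemma TB_le_TB2 (p : V → Vec k) (a b c d e : V) (t : k) :
    TB p a b c d e t ≤ TB2 p a b c d e := by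
  rintro Z ⟨S, h, g, h1, h2, h3, h4, h5, h6, h7⟩
  exact ⟨S, h, g, t • g, h1, h2, by rw [smul_dotProduct, h1, smul_zero],
    by rw [smul_dotProduct, h2, smul_zero], h3, h4, h5, h6, h7⟩

/-- If any two vectors of `S` have a nontrivial combination in `A`, then `A` has codimension at
most one in `S`. -/
lemma finrank_le_of_comb {E : Type*} [AddCommGroup E] [Module k E] {S A : Submodule k E}
    [FiniteDimensional k S]
    (h : ∀ z ∈ S, ∀ z' ∈ S, ∃ s s' : k, (s ≠ 0 ∨ s' ≠ 0) ∧ s • z + s' • z' ∈ A) :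
    finrank k S ≤ finrank k (S ⊓ A : Submodule k E) + 1 := by
  by_cases hS : S ≤ A
  · rw [inf_eq_left.mpr hS]; omega
  · obtain ⟨z0, hz0, hz0A⟩ := Set.not_subset.mp hS
    have : FiniteDimensional k (S ⊓ A : Submodule k E) :=
      Submodule.finiteDimensional_of_le inf_le_left
    have hle : S ≤ (S ⊓ A) ⊔ Submodule.span k {z0} := by
      intro z hz
      obtain ⟨s, s', hs, hA⟩ := h z hz z0 hz0
      by_cases hs0 : s = 0
      · subst hs0
        have hs' : s' ≠ 0 := by simpa using hs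
        exfalso
        apply hz0A
        have h1 := A.smul_mem s'⁻¹ hA
        simpa [smul_smul, inv_mul_cancel₀ hs'] using h1
      · have h1 : s⁻¹ • (s • z + s' • z0) ∈ S ⊓ A := by
          refine ⟨S.smul_mem _ (S.add_mem (S.smul_mem _ hz) (S.smul_mem _ hz0)), A.smul_mem _ hA⟩
        have e : z = s⁻¹ • (s • z + s' • z0) + (-(s⁻¹ * s')) • z0 := by
          rw [smul_add, smul_smul, inv_mul_cancel₀ hs0, one_smul, smul_smul, neg_smul]
          abel
        rw [e]
        exact Submodule.add_mem_sup h1 (Submodule.smul_mem _ _ (Submodule.mem_span_singleton_self _))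
    have h2 := Submodule.finrank_mono hle
    have h3 := Submodule.finrank_add_le_finrank_add_finrank (S ⊓ A) (Submodule.span k {z0})
    have h4 := finrank_span_singleton (K := k) (v := z0) (fun h0 => hz0A (h0 ▸ A.zero_mem))
    omega

lemma mem_Att {p Z : V → Vec k} {N : Set V} {x : Vec k} :
    Z ∈ Att p N x ↔ ∃ z : Vec k, z ⬝ᵥ x = 0 ∧ ∀ v ∈ N, z ⬝ᵥ p v + Z v ⬝ᵥ x = 0 := Iff.rfl

/-- Rigid motions extend to every new vertex. -/
lemma RG_le_Att (p : V → Vec k) (N : Set V) (x : Vec k) : RG p N ≤ Att p N x := by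
  rintro Z ⟨S, h, hS⟩
  refine ⟨S x, h x, fun v hv => ?_⟩
  rw [hS v hv, h.swap]
  ring

/-- Type A: the attaching condition is the single equation `T x ⬝ᵥ x = 0`. -/
lemma TA_comb {p : V → Vec k} {N : Set V} (x : Vec k) {Z Z' : V → Vec k} (hZ : Z ∈ TA p N)
    (hZ' : Z' ∈ TA p N) :
    ∃ s s' : k, (s ≠ 0 ∨ s' ≠ 0) ∧ s • Z + s' • Z' ∈ Att p N x := by
  obtain ⟨T, hT⟩ := hZ
  obtain ⟨T', hT'⟩ := hZ'
  -- the transpose
  have hadj : ∀ U : Vec k →ₗ[k] Vec k, ∃ z : Vec k, ∀ y, z ⬝ᵥ y = U y ⬝ᵥ x := by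
    intro U
    let f : Vec k →ₗ[k] k :=
      { toFun := fun y => U y ⬝ᵥ x
        map_add' := fun y y' => by simp [add_dotProduct]
        map_smul' := fun c y => by simp }
    obtain ⟨z, hz⟩ : ∃ z : Vec k, (dotProductEquiv k (Fin 4)) z = f :=
      (dotProductEquiv k (Fin 4)).surjective f
    exact ⟨z, fun y => by rw [← dotProductEquiv_apply_apply, hz]; rfl⟩
  have key : ∀ s s' : k, s * (T x ⬝ᵥ x) + s' * (T' x ⬝ᵥ x) = 0 →
      s • Z + s' • Z' ∈ Att p N x := by
    intro s s' hss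
    obtain ⟨z, hz⟩ := hadj (-(s • T + s' • T'))
    refine ⟨z, ?_, fun v hv => ?_⟩
    · rw [hz]
      simp only [LinearMap.neg_apply, LinearMap.add_apply, LinearMap.smul_apply, neg_dotProduct,
        add_dotProduct, smul_dotProduct, smul_eq_mul]
      linear_combination -hss
    · rw [hz]
      simp only [LinearMap.neg_apply, LinearMap.add_apply, LinearMap.smul_apply, neg_dotProduct,
        add_dotProduct, smul_dotProduct, smul_eq_mul, Pi.add_apply, Pi.smul_apply, hT v hv,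
        hT' v hv]
      ring
  by_cases h : T x ⬝ᵥ x = 0
  · exact ⟨1, 0, Or.inl one_ne_zero, key 1 0 (by rw [h]; ring)⟩
  · exact ⟨-(T' x ⬝ᵥ x), T x ⬝ᵥ x, Or.inr h, key _ _ (by ring)⟩

/-- Type B: the attaching condition is the single equation `g ⬝ᵥ x = 0`. -/
lemma mem_Att_of_TB {p Z : V → Vec k} {N : Set V} {a b c d e : V}
    (hN : ∀ v ∈ N, v = a ∨ v = b ∨ v = c ∨ v = d ∨ v = e) {x : Vec k}
    {S : Vec k →ₗ[k] Vec k} (hS : IsSkew S) {g g' : Vec k}
    (ha : Z a = S (p a)) (hb : Z b = S (p b)) (hc : Z c = S (p c)) (hd : Z d = S (p d) + g)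
    (he : Z e = S (p e) + g') (hg : g ⬝ᵥ x = 0) (hg' : g' ⬝ᵥ x = 0) : Z ∈ Att p N x := by
  refine ⟨S x, hS x, fun v hv => ?_⟩
  rcases hN v hv with rfl | rfl | rfl | rfl | rfl
  · rw [ha, hS.swap]; ring
  · rw [hb, hS.swap]; ring
  · rw [hc, hS.swap]; ring
  · rw [hd, hS.swap, add_dotProduct, hg]; ring
  · rw [he, hS.swap, add_dotProduct, hg']; ring

lemma TB_comb {p : V → Vec k} {N : Set V} {a b c d e : V}
    (hN : ∀ v ∈ N, v = a ∨ v = b ∨ v = c ∨ v = d ∨ v = e) (t : k) (x : Vec k)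
    {Z Z' : V → Vec k} (hZ : Z ∈ TB p a b c d e t) (hZ' : Z' ∈ TB p a b c d e t) :
    ∃ s s' : k, (s ≠ 0 ∨ s' ≠ 0) ∧ s • Z + s' • Z' ∈ Att p N x := by
  obtain ⟨S, h, g, h1, h2, h3, h4, h5, h6, h7⟩ := hZ
  obtain ⟨S', h', g', h1', h2', h3', h4', h5', h6', h7'⟩ := hZ'
  have key : ∀ s s' : k, s * (g ⬝ᵥ x) + s' * (g' ⬝ᵥ x) = 0 →
      s • Z + s' • Z' ∈ Att p N x := by
    intro s s' hss
    have hh : (s • g + s' • g') ⬝ᵥ x = 0 := by
      simp only [add_dotProduct, smul_dotProduct, smul_eq_mul]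
      exact hss
    refine mem_Att_of_TB (a := a) (b := b) (c := c) (d := d) (e := e) hN
      (S := s • S + s' • S') ((h.smul s).add (h'.smul s'))
      (g := s • g + s' • g') (g' := t • (s • g + s' • g')) ?_ ?_ ?_ ?_ ?_ hh ?_
    · simp [h3, h3']
    · simp [h4, h4']
    · simp [h5, h5']
    · simp only [Pi.add_apply, Pi.smul_apply, h6, h6', LinearMap.add_apply, LinearMap.smul_apply,
        smul_add]
      abel
    · simp only [Pi.add_apply, Pi.smul_apply, h7, h7', LinearMap.add_apply, LinearMap.smul_apply,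
        smul_add, smul_comm s t g, smul_comm s' t g']
      abel
    · rw [smul_dotProduct, hh, smul_zero]
  by_cases hg : g ⬝ᵥ x = 0
  · exact ⟨1, 0, Or.inl one_ne_zero, key 1 0 (by rw [hg]; ring)⟩
  · exact ⟨-(g' ⬝ᵥ x), g ⬝ᵥ x, Or.inr hg, key _ _ (by ring)⟩

/-- Type A spaces are bad: at most one attaching condition. -/
lemma finrank_le_of_TA {p : V → Vec k} {N : Set V} {S : Submodule k (V → Vec k)}
    [FiniteDimensional k S] (hS : S ≤ TA p N) (x : Vec k) :
    finrank k S ≤ finrank k (S ⊓ Att p N x : Submodule k (V → Vec k)) + 1 :=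
  finrank_le_of_comb fun _ hz _ hz' => TA_comb x (hS hz) (hS hz')

/-- Type B spaces are bad: at most one attaching condition. -/
lemma finrank_le_of_TB {p : V → Vec k} {N : Set V} {a b c d e : V}
    (hN : ∀ v ∈ N, v = a ∨ v = b ∨ v = c ∨ v = d ∨ v = e) {t : k}
    {S : Submodule k (V → Vec k)} [FiniteDimensional k S] (hS : S ≤ TB p a b c d e t)
    (x : Vec k) :
    finrank k S ≤ finrank k (S ⊓ Att p N x : Submodule k (V → Vec k)) + 1 :=
  finrank_le_of_comb fun _ hz _ hz' => TB_comb hN t x (hS hz) (hS hz')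

end GR
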