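import Pool.Agent.Lib.GR.Basic
import Pool.Agent.Lib.GR.Types

/-!
# Symmetric maps and generic points

At generic `p`, the symmetric forms which vanish at the points of `P` form a space of dimension
at most `10 - |P|`; those which in addition are singular at another point form a space of
dimension at most `6 - |P|`.
-/

set_option linter.unusedSectionVars false

namespace GR

open Filter Module

open scoped Matrix

variable {k : Type*} [Field k] {V : Type*}

/-- symmetric maps -/
def SymSub (k : Type*) [Field k] : Submodule k (Vec k →ₗ[k] Vec k) where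
  carrier := {T | ∀ x y, T x ⬝ᵥ y = T y ⬝ᵥ x}
  add_mem' := by
    intro S T hS hT x y
    simp only [LinearMap.add_apply, add_dotProduct, hS x y, hT x y]
  zero_mem' := by intro x y; simp
  smul_mem' := by
    intro c T hT x y
    simp only [LinearMap.smul_apply, smul_dotProduct, hT x y]

lemma mem_SymSub {T : Vec k →ₗ[k] Vec k} : T ∈ SymSub k ↔ ∀ x y, T x ⬝ᵥ y = T y ⬝ᵥ x := Iff.rfl

lemma linearMap_eq_zero_of_dot {T : Vec k →ₗ[k] Vec k} (h : ∀ x y, T x ⬝ᵥ y = 0) : T = 0 := by
  apply LinearMap.ext
  intro x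
  exact dotProduct_eq_zero _ fun y => h x y

/-- a symmetric map with vanishing quadratic form is zero -/
lemma sym_eq_zero (h2 : (2 : k) ≠ 0) {T : Vec k →ₗ[k] Vec k} (hT : T ∈ SymSub k)
    (h : ∀ x, T x ⬝ᵥ x = 0) : T = 0 := by
  refine linearMap_eq_zero_of_dot fun x y => ?_
  have e1 := h (x + y)
  simp only [map_add, add_dotProduct, dotProduct_add, h x, h y] at e1
  have e2 := hT x y
  have e3 : (2 : k) * (T x ⬝ᵥ y) = 0 := by linear_combination e1 + e2
  exact (mul_eq_zero.mp e3).resolve_left h2

lemma linearMap_eq_zero_of_single {T : Vec k →ₗ[k] Vec k}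
    (h : ∀ i j : Fin 4, T (Pi.single i 1) ⬝ᵥ (Pi.single j 1 : Vec k) = 0) : T = 0 := by
  refine LinearMap.pi_ext' fun i => ?_
  ext j
  have := h i j
  simpa using this

/-- the index set of all pairs `i ≤ j` -/
def upper : Finset (Fin 4 × Fin 4) := Finset.univ.filter fun ij => ij.1 ≤ ij.2

/-- the index set of the pairs `1 ≤ i ≤ j` -/
def upper1 : Finset (Fin 4 × Fin 4) := Finset.univ.filter fun ij => 1 ≤ ij.1 ∧ ij.1 ≤ ij.2

/-- some coordinates of a map -/
def mapCoord (k : Type*) [Field k] (I : Finset (Fin 4 × Fin 4)) :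
    (Vec k →ₗ[k] Vec k) →ₗ[k] (I → k) where
  toFun T ij := T (Pi.single ij.1.1 1) ⬝ᵥ (Pi.single ij.1.2 1 : Vec k)
  map_add' T T' := by ext; simp
  map_smul' c T := by ext; simp

/-- a subspace on which some coordinates are injective -/
lemma finrank_le_of_coord (I : Finset (Fin 4 × Fin 4)) (S : Submodule k (Vec k →ₗ[k] Vec k))
    (h : ∀ T ∈ S, (∀ ij ∈ I, T (Pi.single ij.1 1) ⬝ᵥ (Pi.single ij.2 1 : Vec k) = 0) → T = 0) :
    finrank k S ≤ I.card := by
  let f : S →ₗ[k] (I → k) := (mapCoord k I).comp S.subtype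
  have hf : Function.Injective f := by
    refine (injective_iff_map_eq_zero _).mpr ?_
    rintro ⟨T, hT⟩ h1
    apply Subtype.ext
    exact h T hT fun ij hij => congrFun h1 ⟨ij, hij⟩
  have h := LinearMap.finrank_le_finrank_of_injective hf
  rwa [Module.finrank_fintype_fun_eq_card, Fintype.card_coe] at h

lemma finrank_SymSub_le : finrank k (SymSub k) ≤ 10 := by
  refine (finrank_le_of_coord upper (SymSub k) fun T hT h => ?_).trans (by decide)
  refine linearMap_eq_zero_of_single fun i j => ?_
  rcases le_total i j with h' | h'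
  · exact h (i, j) (by simp [upper, h'])
  · rw [hT]; exact h (j, i) (by simp [upper, h'])

/-- the symmetric maps with a given kernel vector -/
def SymKer (k : Type*) [Field k] (y : Vec k) : Submodule k (Vec k →ₗ[k] Vec k) where
  carrier := {T | T ∈ SymSub k ∧ T y = 0}
  add_mem' := by
    rintro S T ⟨h1, h2⟩ ⟨h1', h2'⟩
    exact ⟨(SymSub k).add_mem h1 h1', by simp [h2, h2']⟩
  zero_mem' := ⟨(SymSub k).zero_mem, by simp⟩
  smul_mem' := by
    rintro c T ⟨h1, h2⟩
    exact ⟨(SymSub k).smul_mem c h1, by simp [h2]⟩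

lemma mem_SymKer {y : Vec k} {T : Vec k →ₗ[k] Vec k} :
    T ∈ SymKer k y ↔ T ∈ SymSub k ∧ T y = 0 := Iff.rfl

lemma finrank_SymKer_le : finrank k (SymKer k (Pi.single 0 1)) ≤ 6 := by
  refine (finrank_le_of_coord upper1 _ fun T hT h => ?_).trans (by decide)
  obtain ⟨hT, h3⟩ := hT
  refine linearMap_eq_zero_of_single fun i j => ?_
  by_cases hi : i = 0
  · rw [hi, h3, zero_dotProduct]
  by_cases hj : j = 0
  · rw [hT, hj, h3, zero_dotProduct]
  have hi' : 1 ≤ i := Fin.one_le_of_ne_zero hi
  have hj' : 1 ≤ j := Fin.one_le_of_ne_zero hj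
  rcases le_total i j with h' | h'
  · exact h (i, j) (by simp [upper1, h', hi'])
  · rw [hT]; exact h (j, i) (by simp [upper1, h', hj'])

/-- the forms of `S` which vanish at the points of `P` -/
def VanAt (S : Submodule k (Vec k →ₗ[k] Vec k)) (p : V → Vec k) (P : Finset V) :
    Submodule k (Vec k →ₗ[k] Vec k) where
  carrier := {T | T ∈ S ∧ ∀ t ∈ P, T (p t) ⬝ᵥ p t = 0}
  add_mem' := by
    rintro T T' ⟨h1, h2⟩ ⟨h1', h2'⟩
    exact ⟨S.add_mem h1 h1', fun t ht => by simp [add_dotProduct, h2 t ht, h2' t ht]⟩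
  zero_mem' := ⟨S.zero_mem, fun t _ => by simp⟩
  smul_mem' := by
    rintro c T ⟨h1, h2⟩
    exact ⟨S.smul_mem c h1, fun t ht => by simp [smul_dotProduct, h2 t ht]⟩

lemma mem_VanAt {S : Submodule k (Vec k →ₗ[k] Vec k)} {p : V → Vec k} {P : Finset V}
    {T : Vec k →ₗ[k] Vec k} :
    T ∈ VanAt S p P ↔ T ∈ S ∧ ∀ t ∈ P, T (p t) ⬝ᵥ p t = 0 := Iff.rfl

/-- Points can be chosen such that they impose independent conditions. -/
lemma exists_VanAt [DecidableEq V] (h2 : (2 : k) ≠ 0) {S : Submodule k (Vec k →ₗ[k] Vec k)}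
    (hS : S ≤ SymSub k) (P : Finset V) :
    ∃ p : V → Vec k, finrank k (VanAt S p P) ≤ finrank k S - P.card := by
  induction P using Finset.induction_on with
  | empty =>
    refine ⟨0, ?_⟩
    have : VanAt S (0 : V → Vec k) ∅ ≤ S := fun T hT => hT.1
    simpa using Submodule.finrank_mono this
  | insert t P ht ih =>
    obtain ⟨p, hp⟩ := ih
    by_cases h0 : VanAt S p P = ⊥
    · refine ⟨p, ?_⟩
      have h1 : VanAt S p (insert t P) ≤ VanAt S p P := fun T hT =>
        ⟨hT.1, fun u hu => hT.2 u (Finset.mem_insert_of_mem hu)⟩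
      have h3 := Submodule.finrank_mono h1
      rw [h0, finrank_bot] at h3
      omega
    · obtain ⟨T, hT, hT0⟩ := (Submodule.ne_bot_iff _).mp h0
      obtain ⟨x, hx⟩ : ∃ x, T x ⬝ᵥ x ≠ 0 := by
        by_contra hall
        push Not at hall
        exact hT0 (sym_eq_zero h2 (hS hT.1) hall)
      refine ⟨Function.update p t x, ?_⟩
      have h1 : VanAt S (Function.update p t x) (insert t P) < VanAt S p P := by
        refine lt_of_le_of_ne ?_ ?_
        · intro T' hT'
          refine ⟨hT'.1, fun u hu => ?_⟩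
          have := hT'.2 u (Finset.mem_insert_of_mem hu)
          rwa [Function.update_of_ne (by rintro rfl; exact ht hu)] at this
        · intro e
          rw [← e] at hT
          have := hT.2 t (Finset.mem_insert_self _ _)
          rw [Function.update_self] at this
          exact hx this
      have h3 := Submodule.finrank_lt_finrank_of_lt h1
      rw [Finset.card_insert_of_notMem ht]
      omega

lemma polyLine_quad (T : Vec k →ₗ[k] Vec k) (t : V) :
    PolyLine k (fun p : V → Vec k => T (p t) ⬝ᵥ p t) := by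
  intro a b
  refine ⟨Polynomial.C (T (a t) ⬝ᵥ a t) + Polynomial.C (T (a t) ⬝ᵥ b t + T (b t) ⬝ᵥ a t)
    * Polynomial.X + Polynomial.C (T (b t) ⬝ᵥ b t) * Polynomial.X ^ 2, fun s => ?_⟩
  simp only [Pi.add_apply, Pi.smul_apply, map_add, map_smul, add_dotProduct, smul_dotProduct,
    dotProduct_add, dotProduct_smul, smul_eq_mul, Polynomial.eval_add, Polynomial.eval_C,
    Polynomial.eval_mul, Polynomial.eval_X, Polynomial.eval_pow]
  ring

lemma polyLine_lin (T : Vec k →ₗ[k] Vec k) (t : V) (i : Fin 4) :
    PolyLine k (fun p : V → Vec k => T (p t) i) := by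
  intro a b
  refine ⟨Polynomial.C (T (a t) i) + Polynomial.C (T (b t) i) * Polynomial.X, fun s => ?_⟩
  simp only [Pi.add_apply, Pi.smul_apply, map_add, map_smul, smul_eq_mul, Polynomial.eval_add,
    Polynomial.eval_C, Polynomial.eval_mul, Polynomial.eval_X]
  ring

/-- the symmetry conditions -/
def antiCoord (k : Type*) [Field k] : (Vec k →ₗ[k] Vec k) →ₗ[k] (Fin 4 × Fin 4 → k) where
  toFun T ij := T (Pi.single ij.1 1) ij.2 - T (Pi.single ij.2 1) ij.1
  map_add' T T' := by ext; simp only [LinearMap.add_apply, Pi.add_apply]; ring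
  map_smul' c T := by
    ext; simp only [LinearMap.smul_apply, Pi.smul_apply, smul_eq_mul, RingHom.id_apply]; ring

lemma mem_SymSub_iff_anti {T : Vec k →ₗ[k] Vec k} : T ∈ SymSub k ↔ antiCoord k T = 0 := by
  constructor
  · intro h
    ext ij
    have := h (Pi.single ij.1 1) (Pi.single ij.2 1)
    simp only [dotProduct_single, mul_one] at this
    show T (Pi.single ij.1 1) ij.2 - T (Pi.single ij.2 1) ij.1 = 0
    rw [this, sub_self]
  · intro h x y
    have h1 : ∀ i j : Fin 4, T (Pi.single i 1) j = T (Pi.single j 1) i := fun i j =>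
      sub_eq_zero.mp (congrFun h (i, j))
    have hx : ∀ z : Vec k, T z = ∑ i, z i • T (Pi.single i 1) := by
      intro z
      conv_lhs => rw [← Finset.univ_sum_single z, map_sum]
      refine Finset.sum_congr rfl fun i _ => ?_
      rw [← map_smul]
      congr 1
      rw [← Pi.single_smul, smul_eq_mul, mul_one]
    rw [hx x, hx y]
    simp only [dotProduct, Finset.sum_apply, Pi.smul_apply, smul_eq_mul, Finset.sum_mul]
    rw [Finset.sum_comm]
    refine Finset.sum_congr rfl fun i _ => Finset.sum_congr rfl fun j _ => ?_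
    rw [h1 j i]
    ring

/-- the quadratic conditions -/
def quadCond (p : V → Vec k) (P : Finset V) :
    (Vec k →ₗ[k] Vec k) →ₗ[k] ((Fin 4 × Fin 4) ⊕ P → k) where
  toFun T := Sum.elim (antiCoord k T) (fun t => T (p t) ⬝ᵥ p t)
  map_add' T T' := by
    ext i; rcases i with i | i
    · simp
    · simp [add_dotProduct]
  map_smul' c T := by
    ext i; rcases i with i | i
    · simp
    · simp [smul_dotProduct]

/-- the quadratic conditions, singular at `y` -/
def quadCondY (p : V → Vec k) (y : V) (P : Finset V) :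
    (Vec k →ₗ[k] Vec k) →ₗ[k] ((Fin 4 × Fin 4) ⊕ (Fin 4 ⊕ P) → k) where
  toFun T := Sum.elim (antiCoord k T) (Sum.elim (fun i => T (p y) i) (fun t => T (p t) ⬝ᵥ p t))
  map_add' T T' := by
    ext i; rcases i with i | i | i
    · simp
    · simp
    · simp [add_dotProduct]
  map_smul' c T := by
    ext i; rcases i with i | i | i
    · simp
    · simp
    · simp [smul_dotProduct]

lemma ker_quadCond (p : V → Vec k) (P : Finset V) :
    LinearMap.ker (quadCond p P) = VanAt (SymSub k) p P := by
  ext T
  rw [LinearMap.mem_ker, mem_VanAt, mem_SymSub_iff_anti]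
  constructor
  · intro h
    exact ⟨funext fun i => congrFun h (Sum.inl i), fun t ht => congrFun h (Sum.inr ⟨t, ht⟩)⟩
  · rintro ⟨h1, h⟩
    ext i
    rcases i with i | ⟨t, ht⟩
    · exact congrFun h1 i
    · exact h t ht

lemma ker_quadCondY (p : V → Vec k) (y : V) (P : Finset V) :
    LinearMap.ker (quadCondY p y P) = VanAt (SymKer k (p y)) p P := by
  ext T
  rw [LinearMap.mem_ker, mem_VanAt, mem_SymKer, mem_SymSub_iff_anti]
  constructor
  · intro h
    refine ⟨⟨funext fun i => congrFun h (Sum.inl i), ?_⟩,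
      fun t ht => congrFun h (Sum.inr (Sum.inr ⟨t, ht⟩))⟩
    ext i
    exact congrFun h (Sum.inr (Sum.inl i))
  · rintro ⟨⟨h0, h1⟩, h2⟩
    ext i
    rcases i with i | i | ⟨t, ht⟩
    · exact congrFun h0 i
    · exact congrFun h1 i
    · exact h2 t ht

/-- **Generic points impose independent conditions on quadrics.** -/
theorem eventually_quad [Infinite k] [DecidableEq V] (h2 : (2 : k) ≠ 0) (A : Finset V) :
    ∀ᶠ p in gen k (V → Vec k), ∀ P ⊆ A, finrank k (VanAt (SymSub k) p P) ≤ 10 - P.card := by
  have h : ∀ᶠ p in gen k (V → Vec k), ∀ P ∈ A.powerset,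
      finrank k (VanAt (SymSub k) p P) ≤ 10 - P.card := by
    rw [Filter.eventually_all_finset]
    intro P _
    have hb := big_finrank_ker (W := V → Vec k) (fun p => quadCond (k := k) p P)
      (fun T i => by
        rcases i with i | t
        · exact PolyLine.const _
        · exact polyLine_quad T t.1) (10 - P.card) (by
        obtain ⟨p, hp⟩ := exists_VanAt h2 (le_refl (SymSub k)) P
        refine ⟨p, ?_⟩
        rw [ker_quadCond]
        have := finrank_SymSub_le (k := k)
        omega)
    have := hb.mem_gen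
    filter_upwards [this] with p hp
    rw [← ker_quadCond]
    exact hp
  filter_upwards [h] with p hp P hP
  exact hp P (Finset.mem_powerset.mpr hP)

/-- The version with a singular point. -/
theorem eventually_quadY [Infinite k] [DecidableEq V] (h2 : (2 : k) ≠ 0) (A : Finset V) :
    ∀ᶠ p in gen k (V → Vec k), ∀ y ∈ A, ∀ P ⊆ A, y ∉ P →
      finrank k (VanAt (SymKer k (p y)) p P) ≤ 6 - P.card := by
  have h : ∀ᶠ p in gen k (V → Vec k), ∀ y ∈ A, ∀ P ∈ A.powerset, y ∉ P →
      finrank k (VanAt (SymKer k (p y)) p P) ≤ 6 - P.card := by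
    rw [Filter.eventually_all_finset]
    intro y _
    rw [Filter.eventually_all_finset]
    intro P _
    by_cases hy : y ∈ P
    · exact Eventually.of_forall fun p hyn => absurd hy hyn
    have hb := big_finrank_ker (W := V → Vec k) (fun p => quadCondY (k := k) p y P)
      (fun T i => by
        rcases i with i | i | t
        · exact PolyLine.const _
        · exact polyLine_lin T y i
        · exact polyLine_quad T t.1) (6 - P.card) (by
        obtain ⟨p, hp⟩ := exists_VanAt h2
          (fun T hT => hT.1 : SymKer k (Pi.single 0 1) ≤ SymSub k) P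
        refine ⟨Function.update p y (Pi.single 0 1), ?_⟩
        rw [ker_quadCondY, Function.update_self]
        have e : VanAt (SymKer k (Pi.single 0 1)) (Function.update p y (Pi.single 0 1)) P
            = VanAt (SymKer k (Pi.single 0 1)) p P := by
          ext T
          simp only [mem_VanAt]
          refine and_congr_right fun _ => forall₂_congr fun t ht => ?_
          rw [Function.update_of_ne (by rintro rfl; exact hy ht)]
        rw [e]
        have := finrank_SymKer_le (k := k)
        omega)
    have := hb.mem_gen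
    filter_upwards [this] with p hp _
    rw [← ker_quadCondY]
    exact hp
  filter_upwards [h] with p hp y hy P hP hyP
  exact hp y hy P (Finset.mem_powerset.mpr hP) hyP

end GR
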