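import Pool.Agent.Lib.GR.SixDef

/-!
# From `SixG` to `SixP`
-/

set_option linter.unusedSectionVars false

namespace GR

open Filter Module

open scoped Matrix

variable {k : Type*} [Field k] {V : Type*} [DecidableEq V]

/-- members of a six-dimensional space of motions rigid on `N` are trivial -/
theorem exists_skew_of_finrank_le {W : Finset V} {E : Set (Sym2 V)} {p : V → Vec k}
    (hgp : GenPos p (W : Set V)) (hW3 : 3 ≤ W.card) {N : Set V} (hN : N ⊆ (W : Set V))
    (h6 : finrank k (Mot W E p ⊓ RG p N : Submodule k (V → Vec k)) ≤ 6) {Z : V → Vec k}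
    (hZ : Z ∈ Mot W E p) (hZN : Z ∈ RG p N) :
    ∃ S : Vec k →ₗ[k] Vec k, IsSkew S ∧ ∀ x ∈ W, Z x = S (p x) := by
  classical
  obtain ⟨T, hTA, hT⟩ := Finset.exists_subset_card_eq hW3
  have hli := hgp T (by simpa using hTA) (by omega)
  let f : Skew k →ₗ[k] (V → Vec k) := (triv W p).domRestrict (Skew k)
  have hf : Function.Injective f := by
    rw [← LinearMap.ker_eq_bot, LinearMap.ker_eq_bot']
    intro L hL
    have h0 : triv W p L.1 = 0 := hL
    have : L.1 = 0 := by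
      refine skew_eq_zero L.2 hli (by simp [hT]) fun i => ?_
      have := congrFun h0 i
      rwa [triv_apply p L.1 (hTA i.2)] at this
    exact Subtype.ext this
  have h1 : finrank k (LinearMap.range f) = 6 := by
    rw [LinearMap.finrank_range_of_inj hf, finrank_Skew]
  have h2 : LinearMap.range f ≤ Mot W E p ⊓ RG p N := by
    rintro _ ⟨L, rfl⟩
    refine ⟨triv_mem_Mot W E p L.2, Matrix.mulVecLin L.1, isSkew_of_mem_Skew L.2, fun i hi => ?_⟩
    rw [Matrix.mulVecLin_apply]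
    exact triv_apply p L.1 (by exact_mod_cast hN hi)
  have : FiniteDimensional k (Mot W E p ⊓ RG p N : Submodule k (V → Vec k)) :=
    Submodule.finiteDimensional_of_le inf_le_left
  have h3 := Submodule.eq_of_le_of_finrank_le h2 (by rw [h1]; exact h6)
  have h4 : Z ∈ LinearMap.range f := by rw [h3]; exact ⟨hZ, hZN⟩
  obtain ⟨L, rfl⟩ := h4
  refine ⟨Matrix.mulVecLin L.1, isSkew_of_mem_Skew L.2, fun x hx => ?_⟩
  rw [Matrix.mulVecLin_apply]
  exact triv_apply p L.1 hx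

lemma rest_rest (E : Finset (Sym2 V)) {W W' : Finset V} (h : W' ⊆ W) :
    rest (rest E W) W' = rest E W' := by
  ext e
  simp only [mem_rest]
  constructor
  · rintro ⟨⟨h1, _⟩, h3⟩
    exact ⟨h1, h3⟩
  · rintro ⟨h1, h3⟩
    exact ⟨⟨h1, fun v hv => h (h3 v hv)⟩, h3⟩

lemma nbr_rest (E : Finset (Sym2 V)) {W : Finset V} {x : V} (hx : x ∈ W) :
    nbr (W.erase x) ((rest E W : Finset (Sym2 V)) : Set (Sym2 V)) x
      = nbr (W.erase x) (E : Set (Sym2 V)) x := by
  ext y
  rw [mem_nbr, mem_nbr, Finset.mem_coe, mem_rest, Finset.mem_coe]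
  constructor
  · rintro ⟨h1, h2, _⟩
    exact ⟨h1, h2⟩
  · rintro ⟨h1, h2⟩
    refine ⟨h1, h2, fun v hv => ?_⟩
    rcases Sym2.mem_iff.mp hv with rfl | rfl
    · exact hx
    · exact Finset.mem_of_mem_erase h1

lemma TenProp.mono {A B : Finset V} {p : V → Vec k} (h : TenProp A p) (hB : B ⊆ A) :
    TenProp B p := fun S hS => h S (hS.trans hB)

section MinCE

variable [Infinite k] {A : Finset V} {E : Finset (Sym2 V)} {p : V → Vec k}

/-- dimension of the motions after the deletion of a vertex -/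
lemma MinCE.mdim_erase (h : MinCE k A E) (hp : Nice A p) {W : Finset V} (hW : W ⊂ A) {x : V}
    (hx : x ∈ W) : mdim (W.erase x) (E : Set (Sym2 V)) p + 3
      = mdim W (E : Set (Sym2 V)) p + (nbr (W.erase x) (E : Set (Sym2 V)) x).card := by
  have h1 := h.mdim_rest hp hW
  have h2 := h.mdim_rest hp (W := W.erase x)
    (Finset.ssubset_of_subset_of_ssubset (Finset.erase_subset x W) hW)
  have hEK : rest E W ⊆ Kf W := rest_subset_Kf (fun e he => (mem_Kf.mp (h.sub he)).1) _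
  have h3 := card_rest_erase hEK x
  rw [rest_rest E (Finset.erase_subset x W), nbr_rest E hx] at h3
  have h4 := Finset.card_erase_add_one hx
  omega

lemma MinCE.mdim_erase_self (h : MinCE k A E) (hp : Nice A p) {x : V}
    (hx : x ∈ A) : mdim (A.erase x) (E : Set (Sym2 V)) p = 3 + dg A E x := by
  have h2 := h.mdim_rest hp (W := A.erase x) (Finset.erase_ssubset hx)
  have h3 := card_rest_erase h.sub x
  have h4 := Finset.card_erase_add_one hx
  have h5 := h.card
  have h6 := h.three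
  unfold dg
  omega

lemma MinCE.ne_of_mem (h : MinCE k A E) {x y : V} (hxy : s(x, y) ∈ E) : x ≠ y ∧ x ∈ A ∧ y ∈ A :=
  mk_mem_Kf.mp (h.sub hxy)

lemma MinCE.mem_nbr_iff (h : MinCE k A E) {x y : V} :
    y ∈ nbr (A.erase x) (E : Set (Sym2 V)) x ↔ s(x, y) ∈ E := by
  rw [mem_nbr, Finset.mem_coe, Finset.mem_erase]
  constructor
  · exact fun h => h.2
  · intro hxy
    obtain ⟨h1, h2, h3⟩ := h.ne_of_mem hxy
    exact ⟨⟨h1.symm, h3⟩, hxy⟩

end MinCE

lemma mem_sU {A : Finset V} {v i x : V} : x ∈ sU A v i ↔ x ≠ i ∧ x ≠ v ∧ x ∈ A := by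
  rw [sU, Finset.mem_erase, Finset.mem_erase]

lemma sU_comm (A : Finset V) (v i : V) : sU A v i = sU A i v := Finset.erase_right_comm

lemma sU_sub (A : Finset V) (v i : V) : sU A v i ⊆ A :=
  (Finset.erase_subset _ _).trans (Finset.erase_subset _ _)

namespace SixG

variable [Infinite k] {A : Finset V} {E : Finset (Sym2 V)} {v i : V} {p : V → Vec k}

section

variable (h : SixG k A E v i)

include h

lemma mem_sT {x : V} : x ∈ sT A E v i ↔ x ≠ i ∧ s(v, x) ∈ E := by
  rw [sT, Finset.mem_erase, h.ce.mem_nbr_iff]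

lemma mem_sO {x : V} : x ∈ sT A E i v ↔ x ≠ v ∧ s(i, x) ∈ E := by
  rw [sT, Finset.mem_erase, h.ce.mem_nbr_iff]

lemma hv : v ∈ A := h.pure.typ.mem

lemma hi : i ∈ A := (h.ce.ne_of_mem h.adj).2.2

lemma hvi : v ≠ i := (h.ce.ne_of_mem h.adj).1

lemma cardT : (sT A E v i).card = 4 := by
  have h1 : i ∈ nbr (A.erase v) (E : Set (Sym2 V)) v := h.ce.mem_nbr_iff.mpr h.adj
  have h2 := h.pure.typ.deg
  unfold dg at h2
  rw [sT, Finset.card_erase_of_mem h1, h2]

lemma cardO : (sT A E i v).card = 5 := by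
  have h1 : v ∈ nbr (A.erase i) (E : Set (Sym2 V)) i :=
    h.ce.mem_nbr_iff.mpr (by rw [Sym2.eq_swap]; exact h.adj)
  have h2 := h.deg
  unfold dg at h2
  rw [sT, Finset.card_erase_of_mem h1, h2]

lemma T_sub : sT A E v i ⊆ sU A v i := by
  intro x hx
  rw [h.mem_sT] at hx
  obtain ⟨h1, _, h3⟩ := h.ce.ne_of_mem hx.2
  exact mem_sU.mpr ⟨hx.1, h1.symm, h3⟩

lemma O_sub : sT A E i v ⊆ sU A v i := by
  intro x hx
  rw [h.mem_sO] at hx
  obtain ⟨h1, _, h3⟩ := h.ce.ne_of_mem hx.2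
  exact mem_sU.mpr ⟨h1.symm, hx.1, h3⟩

lemma TO_sub : sT A E v i ∪ sT A E i v ⊆ sU A v i := Finset.union_subset h.T_sub h.O_sub

lemma U_ssub : sU A v i ⊂ A :=
  Finset.ssubset_of_subset_of_ssubset (Finset.erase_subset _ _) (Finset.erase_ssubset h.hv)

lemma nbr_v : nbr (A.erase v) (E : Set (Sym2 V)) v = insert i (sT A E v i) := by
  rw [sT, Finset.insert_erase (h.ce.mem_nbr_iff.mpr h.adj)]

/-- the neighbours of `i` in `G - v` -/
lemma nbr_i : nbr (sU A v i) (E : Set (Sym2 V)) i = sT A E i v := by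
  ext x
  rw [mem_nbr, mem_sU, h.mem_sO, Finset.mem_coe]
  constructor
  · rintro ⟨⟨h1, h2, h3⟩, h4⟩
    exact ⟨h2, h4⟩
  · rintro ⟨h1, h2⟩
    obtain ⟨h3, _, h5⟩ := h.ce.ne_of_mem h2
    exact ⟨⟨h3.symm, h1, h5⟩, h2⟩

/-- `dim M = 4 + 6` -/
lemma mdimU (hp : Nice A p) : mdim (sU A v i) (E : Set (Sym2 V)) p = 10 := by
  have h1 := h.ce.mdim_erase_self hp h.hv
  have h2 : dg A E v = 5 := h.pure.typ.deg
  have h3 := h.ce.mdim_erase hp (Finset.erase_ssubset h.hv)
    (Finset.mem_erase.mpr ⟨h.hvi.symm, h.hi⟩)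
  have h4 := h.nbr_i
  unfold sU at h4 ⊢
  rw [h4, h.cardO] at h3
  omega

/-- **motions which are rigid on `T` with `F · i = 0` are trivial** -/
lemma trivial_of (hp : Nice A p) {ν γ : V → k}
    (hstr : ∀ Z ∈ Mot (sU A v i) (E : Set (Sym2 V)) p, ∀ B : Vec k →ₗ[k] Vec k,
        (∀ t ∈ sT A E v i, B (p t) = Z t) → ∀ x ∈ sT A E i v, ∀ y,
          Z x ⬝ᵥ y + B y ⬝ᵥ p x = γ x * (Ff (sT A E i v) ν Z ⬝ᵥ y))
    {Z : V → Vec k} (hZ : Z ∈ Mot (sU A v i) (E : Set (Sym2 V)) p)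
    (hT : Z ∈ RG p (sT A E v i : Set V)) (hF : Ff (sT A E i v) ν Z ⬝ᵥ p i = 0) :
    ∃ S : Vec k →ₗ[k] Vec k, IsSkew S ∧ ∀ x ∈ sU A v i, Z x = S (p x) := by
  obtain ⟨S, hS, hST⟩ := hT
  have hsT := hstr Z hZ S (fun t ht => (hST t (by exact_mod_cast ht)).symm)
  set Z' := Function.update Z i (S (p i)) with hZ'
  have hZ'i : Z' i = S (p i) := by rw [hZ', Function.update_self]
  have hZ'x : ∀ x, x ≠ i → Z' x = Z x := fun x hx => by rw [hZ', Function.update_of_ne hx]
  have hmem : Z' ∈ Mot (A.erase v) (E : Set (Sym2 V)) p := by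
    refine ⟨fun x hx => ?_, fun x hx => ?_, ?_⟩
    · have hxi : x ≠ i := by
        rintro rfl
        exact hx (Finset.mem_erase.mpr ⟨h.hvi.symm, h.hi⟩)
      rw [hZ'x x hxi]
      exact hZ.1 x fun hc => hx (Finset.mem_of_mem_erase hc)
    · by_cases hxi : x = i
      · rw [hxi, hZ'i]
        exact hS _
      · rw [hZ'x x hxi]
        exact hZ.2.1 x (Finset.mem_erase.mpr ⟨hxi, hx⟩)
    · have hedge : ∀ b ∈ A.erase v, s(i, b) ∈ E → eps p i b Z' = 0 := by
        intro b hb hib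
        obtain ⟨h1, h2, h3⟩ := h.ce.ne_of_mem hib
        have hbO : b ∈ sT A E i v := h.mem_sO.mpr ⟨(Finset.mem_erase.mp hb).1, hib⟩
        have h4 := hsT b hbO (p i)
        rw [hF, mul_zero] at h4
        rw [eps_apply, hZ'i, hZ'x b h1.symm]
        linear_combination h4
      intro a ha b hb hab
      have hab' : s(a, b) ∈ E := by exact_mod_cast hab
      by_cases hai : a = i
      · rw [hai] at hab' ⊢
        exact hedge b hb hab'
      · by_cases hbi : b = i
        · rw [hbi] at hab' ⊢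
          rw [eps_comm]
          exact hedge a ha (by rw [Sym2.eq_swap]; exact hab')
        · rw [eps_apply, hZ'x a hai, hZ'x b hbi]
          exact hZ.2.2 a (Finset.mem_erase.mpr ⟨hai, ha⟩) b (Finset.mem_erase.mpr ⟨hbi, hb⟩) hab
  have hRG : Z' ∈ RG p (nbr (A.erase v) (E : Set (Sym2 V)) v : Set V) := by
    refine ⟨S, hS, fun x hx => ?_⟩
    rw [h.nbr_v] at hx
    rcases Finset.mem_insert.mp (by exact_mod_cast hx : x ∈ insert i (sT A E v i)) with rfl | hx
    · exact hZ'i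
    · have hxi : x ≠ i := (Finset.mem_erase.mp hx).1
      rw [hZ'x x hxi]
      exact hST x (by exact_mod_cast hx)
  obtain ⟨S', hS', h5⟩ := exists_skew_of_finrank_le (W := A.erase v)
    (hp.gp.mono (by exact_mod_cast Finset.erase_subset v A)) (by
      have h1 := Finset.card_le_card (nbr_subset (A.erase v) (E : Set (Sym2 V)) v)
      have h2 := h.pure.typ.deg
      unfold dg at h2
      omega) (by exact_mod_cast nbr_subset (A.erase v) (E : Set (Sym2 V)) v)
    (h.ce.finrank_inf_RG hp h.hv) hmem hRG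
  refine ⟨S', hS', fun x hx => ?_⟩
  rw [mem_sU] at hx
  rw [← h5 x (Finset.mem_erase.mpr hx.2), hZ'x x hx.1]

end

theorem six_of (h : SixG k A E v i) (hp : Nice A p) (ht : TenProp A p) {ν γ : V → k}
    (hdep : ∑ x ∈ sT A E i v, ν x • p x = 0) (hnorm : ∑ x ∈ sT A E i v, ν x * γ x = 1)
    (hstr : ∀ Z ∈ Mot (sU A v i) (E : Set (Sym2 V)) p, ∀ B : Vec k →ₗ[k] Vec k,
        (∀ t ∈ sT A E v i, B (p t) = Z t) → ∀ x ∈ sT A E i v, ∀ y,
          Z x ⬝ᵥ y + B y ⬝ᵥ p x = γ x * (Ff (sT A E i v) ν Z ⬝ᵥ y)) :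
    SixP p (Mot (sU A v i) (E : Set (Sym2 V)) p) (sT A E v i) (sT A E i v) (p i) ν γ where
  hT := h.cardT
  hO := h.cardO
  dis := h.dis
  gp := hp.gp.mono (by exact_mod_cast h.TO_sub.trans (sU_sub A v i))
  loop := fun Z hZ x hx => hZ.2.1 x (h.TO_sub hx)
  dep := hdep
  norm := hnorm
  str := hstr
  fin := inferInstance
  dim := (h.mdimU hp).ge
  ten := ht.mono (h.TO_sub.trans (sU_sub A v i))
  inj := by
    have hU3 : 3 ≤ (sU A v i).card := by
      have := Finset.card_le_card h.O_sub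
      rw [h.cardO] at this
      omega
    -- all members are trivial
    have hgpU : GenPos p ((sU A v i : Finset V) : Set V) :=
      hp.gp.mono (by exact_mod_cast sU_sub A v i)
    have hle : (Mot (sU A v i) (E : Set (Sym2 V)) p ⊓ RG p (sT A E v i : Set V) ⊓
        LinearMap.ker (Fy (sT A E i v) ν (p i)) : Submodule k (V → Vec k)) ≤
        (SkewSub k).map (LinearMap.pi fun x => if x ∈ sU A v i then
          (LinearMap.applyₗ (p x) : (Vec k →ₗ[k] Vec k) →ₗ[k] Vec k) else 0) := by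
      rintro Z ⟨⟨hZ, hT⟩, hF⟩
      obtain ⟨S, hS, hSx⟩ := h.trivial_of hp hstr hZ hT hF
      refine ⟨S, hS, ?_⟩
      funext x
      by_cases hx : x ∈ sU A v i
      · rw [LinearMap.pi_apply, if_pos hx, hSx x hx]
        rfl
      · rw [LinearMap.pi_apply, if_neg hx, hZ.1 x hx]
        rfl
    refine (Submodule.finrank_mono hle).trans ((Submodule.finrank_map_le _ _).trans ?_)
    rw [finrank_SkewSub]

/-- **generic SixP** -/
theorem eventually_sixP (h : SixG k A E v i) : ∀ᶠ p in gen k (V → Vec k), ∀ ν : V → k,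
    (∑ x ∈ sT A E i v, ν x • p x = 0) → (∃ x ∈ sT A E i v, ν x ≠ 0) →
    ∃ γ : V → k, SixP p (Mot (sU A v i) (E : Set (Sym2 V)) p) (sT A E v i) (sT A E i v)
      (p i) ν γ := by
  filter_upwards [h.str, eventually_nice (k := k) A, eventually_tenProp (k := k) A]
    with p h1 h2 h3 ν hν hne
  obtain ⟨γ, hn, hs⟩ := h1 ν hν hne
  exact ⟨γ, h.six_of h2 h3 hν hn hs⟩

end SixG

end GR
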