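import Pool.Agent.Lib.GR.S6D
import Pool.Agent.Lib.GR.NoPair
import Pool.Agent.Lib.GR.Six5
import Pool.Agent.Lib.GR.QuadP

/-!
# Degree six: the classification list in a minimal counterexample
-/

set_option linter.unusedSectionVars false

namespace GR

namespace S6

open Filter Module

open scoped Matrix

variable {k : Type*} [Field k] {V : Type*}

/-- the linear map of a form -/
def fmap (h : Frm k) : Vec k →ₗ[k] Vec k where
  toFun x := fun i => h i ⬝ᵥ x
  map_add' x y := by ext i; simp [dotProduct_add]
  map_smul' c x := by ext i; simp [dotProduct_smul]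

lemma fmap_dot (h : Frm k) (x y : Vec k) : fmap h x ⬝ᵥ y = mf h x y := rfl

/-- **A common point kills all quadrics.** -/
theorem eventually_QTW0 [Infinite k] [DecidableEq V] (h2 : (2 : k) ≠ 0) {T W : Finset V}
    (hT : T.card = 4) (hW : W.card = 4) {y : V} (hyT : y ∈ T) (hyW : y ∈ W) :
    ∀ᶠ p in gen k (V → Vec k), ∀ h ∈ QTW p (T : Set V) (W : Set V), h = 0 := by
  by_cases hc : ∃ y' ∈ T, y' ∈ W ∧ y' ≠ y
  · obtain ⟨y', hy'T, hy'W, hne⟩ := hc
    filter_upwards [eventually_genPos (k := k) (T ∪ W)] with p hp h hh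
    obtain ⟨h1, h3, h4, h5⟩ := hh
    have hy'E : y' ∈ T.erase y := Finset.mem_erase.mpr ⟨hne, hy'T⟩
    have hc2 : ((T.erase y).erase y').card = 2 := by
      rw [Finset.card_erase_of_mem hy'E, Finset.card_erase_of_mem hyT, hT]
    obtain ⟨t1, t2, h12, hE⟩ := Finset.card_eq_two.mp hc2
    have ht1 : t1 ∈ (T.erase y).erase y' := by rw [hE]; simp
    have ht2 : t2 ∈ (T.erase y).erase y' := by rw [hE]; simp
    obtain ⟨h1y', ht1⟩ := Finset.mem_erase.mp ht1
    obtain ⟨h2y', ht2⟩ := Finset.mem_erase.mp ht2
    obtain ⟨h1y, ht1T⟩ := Finset.mem_erase.mp ht1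
    obtain ⟨h2y, ht2T⟩ := Finset.mem_erase.mp ht2
    have hT' : T = {y, y', t1, t2} := by
      rw [← Finset.insert_erase hyT, ← Finset.insert_erase hy'E, hE]
    have hs : ∀ a ∈ T, a ∈ W → ∀ x, mf h (p a) x = 0 := fun a ha ha' x =>
      h5 a (by simpa using ha) (by simpa using ha') x
    have hs' : ∀ a ∈ T, a ∈ W → ∀ x, mf h x (p a) = 0 := fun a ha ha' x => by
      rw [h1]; exact hs a ha ha' x
    have hd : ∀ t ∈ T, mf h (p t) (p t) = 0 := fun t ht => h3 t (by simpa using ht)
    have key : mf h (p t1) (p t2) = 0 := by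
      by_cases ht1W : t1 ∈ W
      · exact hs t1 ht1T ht1W _
      · obtain ⟨z, hzW, hzT⟩ : ∃ z ∈ W, z ∉ T := by
          by_contra hcon
          push Not at hcon
          have hWT : W = T := Finset.eq_of_subset_of_card_le hcon (by omega)
          exact ht1W (hWT ▸ ht1T)
        have hzy : z ≠ y := fun hh => hzT (hh ▸ hyT)
        have hzy' : z ≠ y' := fun hh => hzT (hh ▸ hy'T)
        have hz1 : z ≠ t1 := fun hh => hzT (hh ▸ ht1T)
        have hz2 : z ≠ t2 := fun hh => hzT (hh ▸ ht2T)
        have m : ∀ {a}, a ∈ T → a ∈ ((T ∪ W : Finset V) : Set V) := fun ha => by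
          simp [ha]
        have mz : z ∈ ((T ∪ W : Finset V) : Set V) := by simp [hzW]
        obtain ⟨c1, c2, c3, c4, hcz⟩ := exists_coef hp (m hyT) (m hy'T) (m ht1T) (m ht2T)
          hne.symm h1y.symm h2y.symm h1y'.symm h2y'.symm h12 (p z)
        have hc4 : c4 ≠ 0 := coef_ne hp mz (m hyT) (m hy'T) (m ht1T) (m ht2T) hzy hzy' hz1
          hne.symm h1y.symm h2y.symm h1y'.symm h2y'.symm h12 hcz
        have hc3 : c3 ≠ 0 := coef_ne hp mz (m hyT) (m hy'T) (m ht2T) (m ht1T) hzy hzy' hz2
          hne.symm h2y.symm h1y.symm h2y'.symm h1y'.symm h12.symm (by rw [hcz]; abel)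
        have h6 : mf h (p z) (p z) = 0 := h4 z (by simpa using hzW)
        rw [hcz] at h6
        simp only [map_add, map_smul, LinearMap.add_apply, LinearMap.smul_apply, smul_eq_mul,
          hs y hyT hyW, hs' y hyT hyW, hs y' hy'T hy'W, hs' y' hy'T hy'W, hd t1 ht1T, hd t2 ht2T,
          h1 (p t2) (p t1)] at h6
        have h7 : (2 * c3 * c4) * mf h (p t1) (p t2) = 0 := by linear_combination h6
        exact (mul_eq_zero.mp h7).resolve_left (mul_ne_zero (mul_ne_zero h2 hc3) hc4)
    have hsp := (hp.mono (N' := (T : Set V)) (by simp)).spans (by omega)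
    refine Frm.eq_zero_of_spans hsp fun a ha b hb => ?_
    rw [hT'] at ha hb
    simp only [Finset.mem_insert, Finset.mem_singleton] at ha hb
    rcases ha with rfl | rfl | rfl | rfl
    · exact hs _ hyT hyW _
    · exact hs _ hy'T hy'W _
    · rcases hb with rfl | rfl | rfl | rfl
      · exact hs' _ hyT hyW _
      · exact hs' _ hy'T hy'W _
      · exact hd _ ht1T
      · exact key
    · rcases hb with rfl | rfl | rfl | rfl
      · exact hs' _ hyT hyW _
      · exact hs' _ hy'T hy'W _
      · rw [h1]; exact key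
      · exact hd _ ht2T
  · push Not at hc
    have hint : T ∩ W = {y} := by
      ext a
      rw [Finset.mem_inter, Finset.mem_singleton]
      constructor
      · rintro ⟨h3, h4⟩
        by_contra h5
        exact h5 (hc a h3 h4)
      · rintro rfl
        exact ⟨hyT, hyW⟩
    have hcard : (T ∪ W).card = 7 := by
      have := Finset.card_union_add_card_inter T W
      rw [hint, Finset.card_singleton] at this
      omega
    filter_upwards [eventually_quadY (k := k) h2 (T ∪ W)] with p hp h hh
    obtain ⟨h1, h3, h4, h5⟩ := hh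
    have hyU : y ∈ T ∪ W := Finset.mem_union_left _ hyT
    have h6 := hp y hyU ((T ∪ W).erase y) (Finset.erase_subset _ _) (Finset.notMem_erase _ _)
    rw [Finset.card_erase_of_mem hyU, hcard] at h6
    have h7 : finrank k (VanAt (SymKer k (p y)) p ((T ∪ W).erase y)) = 0 := by omega
    have h8 : VanAt (SymKer k (p y)) p ((T ∪ W).erase y) = ⊥ :=
      Submodule.finrank_eq_zero.mp h7
    have h9 : fmap h ∈ VanAt (SymKer k (p y)) p ((T ∪ W).erase y) := by
      refine ⟨⟨fun u w => ?_, ?_⟩, fun t ht => ?_⟩
      · rw [fmap_dot, fmap_dot]; exact h1 u w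
      · exact dotProduct_eq_zero _ fun q => by
          rw [fmap_dot]; exact h5 y (by simpa using hyT) (by simpa using hyW) q
      · rw [fmap_dot]
        rcases Finset.mem_union.mp (Finset.mem_of_mem_erase ht) with ht | ht
        · exact h3 t (by simpa using ht)
        · exact h4 t (by simpa using ht)
    rw [h8, Submodule.mem_bot] at h9
    refine eq_zero_of_mf fun u w => ?_
    rw [← fmap_dot, h9]
    simp

variable [Infinite k] [DecidableEq V] {A : Finset V} {E : Finset (Sym2 V)}

/-- **A pure type A vertex has no rigid triple of neighbours.** -/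
theorem no_triple (h : MinCE k A E) {v : V} (hv : PureA k A E v) {q : V → Vec k} (hq : Nice A q)
    {a b c : V} (ha : a ∈ nbr (A.erase v) (E : Set (Sym2 V)) v)
    (hb : b ∈ nbr (A.erase v) (E : Set (Sym2 V)) v)
    (hc : c ∈ nbr (A.erase v) (E : Set (Sym2 V)) v) (hab : a ≠ b) (hac : a ≠ c) (hbc : b ≠ c) :
    ¬ ∀ Z ∈ Mot (A.erase v) (E : Set (Sym2 V)) q,
      eps q a b Z = 0 ∧ eps q a c Z = 0 ∧ eps q b c Z = 0 := by
  intro hcon
  set N := nbr (A.erase v) (E : Set (Sym2 V)) v with hN
  have hdeg : N.card = 5 := hv.typ.deg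
  have hb' : b ∈ N.erase a := Finset.mem_erase.mpr ⟨hab.symm, hb⟩
  have hc' : c ∈ (N.erase a).erase b :=
    Finset.mem_erase.mpr ⟨hbc.symm, Finset.mem_erase.mpr ⟨hac.symm, hc⟩⟩
  have hc2 : (((N.erase a).erase b).erase c).card = 2 := by
    rw [Finset.card_erase_of_mem hc', Finset.card_erase_of_mem hb', Finset.card_erase_of_mem ha,
      hdeg]
  obtain ⟨d, e, hde, hE⟩ := Finset.card_eq_two.mp hc2
  have hd : d ∈ ((N.erase a).erase b).erase c := by rw [hE]; simp
  have he : e ∈ ((N.erase a).erase b).erase c := by rw [hE]; simp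
  obtain ⟨hdc, hd⟩ := Finset.mem_erase.mp hd
  obtain ⟨hdb, hd⟩ := Finset.mem_erase.mp hd
  obtain ⟨hda, hd⟩ := Finset.mem_erase.mp hd
  obtain ⟨hec, he⟩ := Finset.mem_erase.mp he
  obtain ⟨heb, he⟩ := Finset.mem_erase.mp he
  obtain ⟨hea, he⟩ := Finset.mem_erase.mp he
  have hL : Lab N a b c d e :=
    { eq := by
        rw [← Finset.insert_erase ha, ← Finset.insert_erase hb', ← Finset.insert_erase hc', hE]
      ab := hab
      ac := hac
      ad := hda.symm
      ae := hea.symm
      bc := hbc
      bd := hdb.symm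
      be := heb.symm
      cd := hdc.symm
      ce := hec.symm
      de := hde }
  have hNA : N ⊆ A.erase v := nbr_subset _ _ _
  have hNA' : N ⊆ A := hNA.trans (Finset.erase_subset v A)
  have hEd : ∀ e ∈ E, ¬ e.IsDiag := fun e he => (mem_Kf.mp (h.sub he)).1
  refine hv.not_b a b c d e ⟨hv.typ.mem, hL, fun p hp => ?_⟩
  have hreg := hp.reg.mono (Finset.erase_subset v A)
  have hreg' := hq.reg.mono (Finset.erase_subset v A)
  have r1 := eps_const hEd hreg' hreg (hNA ha) (hNA hb) hab fun Z hZ => (hcon Z hZ).1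
  have r2 := eps_const hEd hreg' hreg (hNA ha) (hNA hc) hac fun Z hZ => (hcon Z hZ).2.1
  have r3 := eps_const hEd hreg' hreg (hNA hb) (hNA hc) hbc fun Z hZ => (hcon Z hZ).2.2
  obtain ⟨t, ht, h1⟩ := exists_TB_of_TA hL (hp.gp.mono (N' := (N : Set V)) (by
    exact_mod_cast hNA'))
  exact ⟨t, ht, fun Z hZ => h1 Z (hv.typ.typ p hp hZ) (fun w hw => hZ.2.1 w (hNA hw)) (r1 Z hZ)
    (r2 Z hZ) (r3 Z hZ)⟩

/-- **The local data at a generic position.** -/
theorem eventually_sixLoc (h : MinCE k A E) {v i : V} (hv : PureA k A E v) (hvi : s(v, i) ∈ E)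
    (h6 : dg A E i = 6) : ∀ᶠ p in gen k (V → Vec k), ∃ BB,
      SixLoc p (Mot (sU A v i) (E : Set (Sym2 V)) p) (sT A E v i) (sT A E i v) BB := by
  obtain ⟨hne, hvA, hiA⟩ := h.ne_of_mem hvi
  set U := sU A v i with hU
  set T := sT A E v i with hTdef
  set O := sT A E i v with hOdef
  have hiv : i ∈ A.erase v := Finset.mem_erase.mpr ⟨hne.symm, hiA⟩
  have hiU : i ∉ U := Finset.notMem_erase _ _
  have hins : insert i U = A.erase v := Finset.insert_erase hiv
  have hiN : i ∈ nbr (A.erase v) (E : Set (Sym2 V)) v := h.mem_nbr_iff.mpr hvi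
  have hvN : v ∈ nbr (A.erase i) (E : Set (Sym2 V)) i :=
    h.mem_nbr_iff.mpr (by rw [Sym2.eq_swap]; exact hvi)
  have hd5 : (nbr (A.erase v) (E : Set (Sym2 V)) v).card = 5 := hv.typ.deg
  have hT4 : T.card = 4 := by rw [hTdef, sT, Finset.card_erase_of_mem hiN, hd5]
  have hO5 : O.card = 5 := by
    have h7 : (nbr (A.erase i) (E : Set (Sym2 V)) i).card = 6 := h6
    rw [hOdef, sT, Finset.card_erase_of_mem hvN, h7]
  have hNv : nbr (A.erase v) (E : Set (Sym2 V)) v = insert i T := by
    rw [hTdef, sT, Finset.insert_erase hiN]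
  have hTU : T ⊆ U := by
    intro x hx
    rw [hTdef, sT, Finset.mem_erase] at hx
    have := nbr_subset _ _ _ hx.2
    exact Finset.mem_erase.mpr ⟨hx.1, this⟩
  have hOU : O ⊆ U := by
    intro x hx
    rw [hOdef, sT, Finset.mem_erase] at hx
    obtain ⟨h1, h2⟩ := Finset.mem_erase.mp (nbr_subset _ _ _ hx.2)
    exact Finset.mem_erase.mpr ⟨h1, Finset.mem_erase.mpr ⟨hx.1, h2⟩⟩
  have hnbrU : nbr U (E : Set (Sym2 V)) i = O := by
    ext x
    rw [hOdef, sT, Finset.mem_erase, h.mem_nbr_iff, mem_nbr, Finset.mem_coe]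
    constructor
    · rintro ⟨h1, h2⟩
      exact ⟨(Finset.mem_erase.mp (Finset.mem_of_mem_erase h1)).1, h2⟩
    · rintro ⟨h1, h2⟩
      obtain ⟨h3, _, h5⟩ := h.ne_of_mem h2
      exact ⟨Finset.mem_erase.mpr ⟨h3.symm, Finset.mem_erase.mpr ⟨h1, h5⟩⟩, h2⟩
  have hUA : U ⊆ A := (Finset.erase_subset _ _).trans (Finset.erase_subset _ _)
  have hiT : i ∉ T := fun hc => hiU (hTU hc)
  have hiO : i ∉ O := fun hc => hiU (hOU hc)
  have hvU : v ∉ U := fun hc => Finset.notMem_erase v A (Finset.mem_of_mem_erase hc)
  -- FACT R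
  have hfR := factR_set (k := k) hvU h.two (h.eventually_cliqueProp (by
    have e : insert v U = A.erase i := by
      rw [hU, sU, Finset.erase_right_comm]
      exact Finset.insert_erase (Finset.mem_erase.mpr ⟨hne, hvA⟩)
    rw [e]
    exact Finset.erase_ssubset hiA))
  -- quadrics
  have hq1 : ∀ᶠ p in gen k (V → Vec k), ∀ W ∈ O.powerset, W.card = 4 →
      finrank k (QTW p (T : Set V) (W : Set V)) ≤ 2 := by
    rw [Filter.eventually_all_finset]
    intro W _
    by_cases hW : W.card = 4
    · filter_upwards [eventually_QTW h.two hT4 hW] with p hp _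
      exact hp
    · exact Eventually.of_forall fun p hc => absurd hc hW
  have hq2 : ∀ᶠ p in gen k (V → Vec k), ∀ W ∈ O.powerset, W.card = 4 →
      (∃ x ∈ T, x ∈ W) → ∀ h ∈ QTW p (T : Set V) (W : Set V), h = 0 := by
    rw [Filter.eventually_all_finset]
    intro W _
    by_cases hW : W.card = 4
    · by_cases hx : ∃ x ∈ T, x ∈ W
      · obtain ⟨x, hx1, hx2⟩ := hx
        filter_upwards [eventually_QTW0 h.two hT4 hW hx1 hx2] with p hp _ _
        exact hp
      · exact Eventually.of_forall fun p _ hc => absurd hc hx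
    · exact Eventually.of_forall fun p hc => absurd hc hW
  filter_upwards [eventually_nice (k := k) A, eventually_update (eventually_nice (k := k) A) i,
    hfR, hq1, hq2] with p hp hpu hR hQ1 hQ2
  have hgT : GenPos p (T : Set V) := hp.gp.mono (by exact_mod_cast hTU.trans hUA)
  have hTs : Spans p T := hgT.spans (by omega)
  obtain ⟨BB, hBB⟩ := exists_BB hT4 hgT
  have hneU : ∀ a ∈ U, a ≠ i := fun a ha hc => hiU (hc ▸ ha)
  have hMot : ∀ y : Vec k, Mot U (E : Set (Sym2 V)) (Function.update p i y)
      = Mot U (E : Set (Sym2 V)) p := fun y =>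
    Mot_congr_pts fun a ha => Function.update_of_ne (hneU a ha) _ _
  have hAtt : ∀ y : Vec k, Att (Function.update p i y) (O : Set V) y
      = Att p (O : Set V) y := fun y => Att_update (by simpa using hiO) p y y
  have hmap : ∀ y : Vec k,
      (Mot (A.erase v) (E : Set (Sym2 V)) (Function.update p i y)).map (forget k i)
      = Mot U (E : Set (Sym2 V)) p ⊓ Att p (O : Set V) y := by
    intro y
    rw [← hins, map_forget_Mot hiU, hMot, Function.update_self, hnbrU, hAtt]
  have h8 : ∀ y, Nice A (Function.update p i y) →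
      mdim (A.erase v) (E : Set (Sym2 V)) (Function.update p i y) = 8 := by
    intro y hy
    have := h.mdim_erase_self hy hvA
    have h5 : dg A E v = 5 := hv.typ.deg
    omega
  have hMU : mdim U (E : Set (Sym2 V)) p = 10 := by
    have h1 := h.mdim_erase_self hp hvA
    have h2 : dg A E v = 5 := hv.typ.deg
    have h3 := h.mdim_erase hp (Finset.erase_ssubset hvA) hiv
    have h4 := hnbrU
    rw [hU, sU] at h4 ⊢
    rw [h4, hO5] at h3
    omega
  have hatt : ∀ y, Nice A (Function.update p i y) →
      finrank k (Mot U (E : Set (Sym2 V)) p ⊓ Att p (O : Set V) y :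
        Submodule k (V → Vec k)) = 8 := by
    intro y hy
    have hg : GenPos (Function.update p i y) (nbr U (E : Set (Sym2 V)) i : Set V) :=
      hy.gp.mono (by
        rw [hnbrU]
        exact_mod_cast hOU.trans hUA)
    have h3 := mdim_insert_of_four_le hiU (E : Set (Sym2 V)) (Function.update p i y) hg (by
      rw [hnbrU]; omega)
    rw [hins, h8 y hy, hMot, Function.update_self, hnbrU, hAtt] at h3
    omega
  -- the motions of `A - v` are given by `BB`
  have hext : ∀ y, Nice A (Function.update p i y) →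
      ∀ Z' ∈ Mot (A.erase v) (E : Set (Sym2 V)) (Function.update p i y),
        Z' i = BB (forget k i Z') y ∧ ∀ t ∈ T, Z' t = BB (forget k i Z') (p t) := by
    intro y hy Z' hZ'
    obtain ⟨T0, hT0⟩ := hv.typ.typ _ hy hZ'
    have hTN : ∀ t ∈ T, t ∈ (nbr (A.erase v) (E : Set (Sym2 V)) v : Set V) := fun t ht => by
      rw [hNv]; simp [ht]
    have h3 : ∀ t ∈ T, T0 (p t) = BB (forget k i Z') (p t) := by
      intro t ht
      have htw : t ≠ i := hneU t (hTU ht)
      rw [hBB _ t ht, forget_apply_of_ne htw, hT0 t (hTN t ht), Function.update_of_ne htw]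
    have h4 := ext_of_spans hTs h3
    refine ⟨?_, fun t ht => ?_⟩
    · rw [hT0 i (by rw [hNv]; simp), Function.update_self, h4]
    · have htw : t ≠ i := hneU t (hTU ht)
      rw [hT0 t (hTN t ht), Function.update_of_ne htw, h4]
  refine ⟨BB, ?_⟩
  exact
    { two := h.two
      hT := hT4
      hO := hO5
      gp := hp.gp.mono (by exact_mod_cast (Finset.union_subset hTU hOU).trans hUA)
      hBB := hBB
      loopT := fun Z hZ t ht => hZ.2.1 t (hTU ht)
      loopO := fun Z hZ x hx => hZ.2.1 x (hOU hx)
      fd := inferInstance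
      dim := hMU
      att := by
        filter_upwards [hpu] with y hy
        exact hatt y hy
      typ := by
        filter_upwards [hpu] with y hy Z hZ
        rw [← hmap y] at hZ
        obtain ⟨Z', hZ', rfl⟩ := hZ
        obtain ⟨h3, h4⟩ := hext y hy Z' hZ'
        refine ⟨?_, fun x hx => ?_⟩
        · have h5 := hZ'.2.1 i hiv
          rw [Function.update_self, h3] at h5
          exact h5
        · have hxi : x ≠ i := hneU x (hOU hx)
          have h5 := hZ'.2.2 i hiv x (by rw [← hins]; simp [hOU hx])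
            (by rw [← hnbrU] at hx; exact (mem_nbr.mp hx).2)
          rw [eps_apply, Function.update_self, Function.update_of_ne hxi, h3] at h5
          rw [forget_apply_of_ne hxi]
          linear_combination h5
      inj := by
        filter_upwards [hpu] with y hy N hN hsk
        have h3 : N ≤ (Mot (A.erase v) (E : Set (Sym2 V)) (Function.update p i y) ⊓
            RG (Function.update p i y) (nbr (A.erase v) (E : Set (Sym2 V)) v : Set V) :
              Submodule k (V → Vec k)).map (forget k i) := by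
          intro Z hZ
          have h4 := hN hZ
          rw [← hmap y] at h4
          obtain ⟨Z', hZ', rfl⟩ := h4
          obtain ⟨h5, h6⟩ := hext y hy Z' hZ'
          refine ⟨Z', ⟨hZ', BB (forget k i Z'), hsk _ hZ, fun j hj => ?_⟩, rfl⟩
          have hj' : j = i ∨ j ∈ T := by
            rw [hNv] at hj
            simpa using hj
          rcases hj' with rfl | hj'
          · rw [Function.update_self, h5]
          · rw [Function.update_of_ne (hneU j (hTU hj')), h6 j hj']
        have h4 := Submodule.finrank_mono h3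
        have h5 := Submodule.finrank_map_le (forget k i)
          (Mot (A.erase v) (E : Set (Sym2 V)) (Function.update p i y) ⊓
            RG (Function.update p i y) (nbr (A.erase v) (E : Set (Sym2 V)) v : Set V) :
              Submodule k (V → Vec k))
        have h6 := h.finrank_inf_RG hy hvA
        omega
      pure := by
        filter_upwards [hpu] with y hy a ha b hb c hc hab hac hbc hcon
        have hTN : ∀ t ∈ T, t ∈ nbr (A.erase v) (E : Set (Sym2 V)) v := fun t ht => by
          rw [hNv]; simp [ht]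
        refine no_triple h hv hy (hTN a ha) (hTN b hb) (hTN c hc) hab hac hbc fun Z' hZ' => ?_
        have h3 := hcon (forget k i Z') (by rw [← hmap y]; exact ⟨Z', hZ', rfl⟩)
        have e : ∀ u ∈ T, ∀ w ∈ T, eps (Function.update p i y) u w Z'
            = eps p u w (forget k i Z') := by
          intro u hu w hw
          have hu' := hneU u (hTU hu)
          have hw' := hneU w (hTU hw)
          rw [eps_apply, eps_apply, Function.update_of_ne hu', Function.update_of_ne hw',
            forget_apply_of_ne hu', forget_apply_of_ne hw']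
        rw [e a ha b hb, e a ha c hc, e b hb c hc]
        exact h3
      qtw := fun W hW hW4 => hQ1 W (Finset.mem_powerset.mpr hW) hW4
      qtw0 := fun W hW hW4 hx => hQ2 W (Finset.mem_powerset.mpr hW) hW4 hx
      fr := by
        intro x hx hxT x1 hx1 x2 hx2 hTA
        have e : Mot U (insert s(x, x2) (insert s(x, x1) (E : Set (Sym2 V)))) p
            = Mot U (E : Set (Sym2 V)) p ⊓ LinearMap.ker (eps p x x1)
              ⊓ LinearMap.ker (eps p x x2) := by
          rw [Mot_insert_pair _ p (hOU hx) (hOU hx2), Mot_insert_pair _ p (hOU hx) (hOU hx1)]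
        rw [← e] at hTA ⊢
        exact hR _ (insert x T) (Finset.insert_subset (hOU hx) hTU) (by
          rw [Finset.card_insert_of_notMem hxT, hT4])
          (Eventually.of_forall fun y => finrank_le_of_TA hTA y) }

end S6

variable (k : Type*) [Field k] [Infinite k] (V : Type*) [DecidableEq V]

/-- **The classification list for degree six**: only pattern (2a). -/
theorem stmtSix : StmtSix k V := by
  intro A E h v i hv hvi h6
  have hmain : ∀ᶠ p in gen k (V → Vec k),
      S6.SixCon p (Mot (sU A v i) (E : Set (Sym2 V)) p) (sT A E v i) (sT A E i v) := by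
    filter_upwards [S6.eventually_sixLoc h hv hvi h6] with p hp
    obtain ⟨BB, hBB⟩ := hp
    exact hBB.main
  obtain ⟨p, hp⟩ := hmain.exists
  exact
    { ce := h
      pure := hv
      adj := hvi
      deg := h6
      dis := hp.1
      str := by
        filter_upwards [hmain] with p hp ν hν hν'
        exact hp.2 ν hν hν' }

end GR
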