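import Pool.Agent.Lib.GR.Top
import Pool.Agent.Lib.GR.S6E
import Pool.Agent.Lib.GR.M1
import Pool.Agent.Lib.GR.M1Abs

/-!
# All flats of the generic three-dimensional rigidity matroid are good
-/

set_option linter.unusedSectionVars false

namespace GR

open Filter Module

variable (k : Type*) [Field k] [Infinite k] (V : Type*) [DecidableEq V]

/-- (M1) -/
theorem stmtM1 : StmtM1 k V :=
  stmtM1_of fun _ _ _ _ _ _ hL hK hO hne => hL.false_of_five hK hO hne

/-- **All flats are good.** -/
theorem allGood (h2 : (2 : k) ≠ 0) : ∀ A : Finset V, AllGood k A :=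
  allGood_top k V h2 (stmtM1 k V) (stmtSix k V)

end GR
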