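import Pool.Agent.Lib.GR.Gauge
import Pool.Agent.Lib.MP_37c7bf_co_helper26.Generic

/-!
# Infinitesimal flexes and motions

For `p : V → ℝ³` the space of infinitesimal flexes is isomorphic to the space of motions at the
homogeneous points `(p v, 1)`.
-/

set_option linter.unusedSectionVars false

namespace GR

open Filter Module

open scoped Matrix RealInnerProductSpace

open Pool.Agent.H26R

variable {V : Type*}

/-- homogeneous coordinates -/
noncomputable def hom (p : V → E3) (v : V) : Vec ℝ := ![p v 0, p v 1, p v 2, 1]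

lemma vdot (x y : Vec ℝ) : x ⬝ᵥ y = x 0 * y 0 + x 1 * y 1 + x 2 * y 2 + x 3 * y 3 := by
  simp [dotProduct, Fin.sum_univ_four]

/-- the motion of a flex -/
noncomputable def toMot (p u : V → E3) (v : V) : Vec ℝ :=
  ![u v 0, u v 1, u v 2, -⟪p v, u v⟫]

/-- the flex of a motion -/
noncomputable def toFlex (Z : V → Vec ℝ) (v : V) : E3 := !₂[Z v 0, Z v 1, Z v 2]

lemma toMot_dot (p u : V → E3) (a b : V) :
    toMot p u a ⬝ᵥ hom p b = ⟪p b, u a⟫ - ⟪p a, u a⟫ := by
  rw [vdot, inner_E3, inner_E3]
  simp only [toMot, hom, inner_E3]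
  simp
  ring

/-- the space of flexes is isomorphic to the space of motions -/
noncomputable def flexEquiv [Fintype V] (G : SimpleGraph V) (p : V → E3) :
    Flex G p ≃ₗ[ℝ] Mot Finset.univ G.edgeSet (hom p) where
  toFun u := ⟨toMot p u.1, by
    refine ⟨fun v hv => absurd (Finset.mem_univ v) hv, fun v _ => ?_, fun a _ b _ hab => ?_⟩
    · rw [toMot_dot, sub_self]
    · rw [SimpleGraph.mem_edgeSet] at hab
      have h := mem_Flex.1 u.2 a b hab
      rw [inner_sub_left, inner_sub_right, inner_sub_right] at h
      rw [eps_apply, toMot_dot, toMot_dot]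
      linarith⟩
  map_add' u u' := by
    apply Subtype.ext
    funext v i
    fin_cases i <;> simp [toMot, inner_add_right]
    ring
  map_smul' c u := by
    apply Subtype.ext
    funext v i
    fin_cases i <;> simp [toMot, inner_smul_right]
  invFun Z := ⟨toFlex Z.1, by
    rw [mem_Flex]
    intro a b hab
    have h := Z.2.2.2 a (Finset.mem_univ a) b (Finset.mem_univ b)
      ((SimpleGraph.mem_edgeSet G).mpr hab)
    have ha := Z.2.2.1 a (Finset.mem_univ a)
    have hb := Z.2.2.1 b (Finset.mem_univ b)
    rw [eps_apply] at h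
    rw [vdot] at h ha hb
    rw [vdot] at h
    rw [inner_E3]
    simp only [hom, toFlex] at h ha hb ⊢
    simp at h ha hb ⊢
    linarith⟩
  left_inv u := by
    apply Subtype.ext
    funext v
    ext i
    fin_cases i <;> simp [toMot, toFlex]
  right_inv Z := by
    apply Subtype.ext
    funext v i
    have h := Z.2.2.1 v (Finset.mem_univ v)
    rw [vdot] at h
    simp only [hom] at h
    simp at h
    fin_cases i
    · simp [toMot, toFlex]
    · simp [toMot, toFlex]
    · simp [toMot, toFlex]
    · simp only [toMot, toFlex, inner_E3]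
      simp
      linarith

/-- The dimension of the space of flexes is the dimension of the space of motions. -/
theorem finrank_Flex_eq [Fintype V] (G : SimpleGraph V) (p : V → E3) :
    finrank ℝ (Flex G p) = mdim Finset.univ G.edgeSet (hom p) :=
  (flexEquiv G p).finrank_eq

/-- **Scaling invariance** of the dimension of the space of motions. -/
theorem mdim_scale [DecidableEq V] {k : Type*} [Field k] {A : Finset V} {E : Set (Sym2 V)} {p : V → Vec k}
    {c : V → k} (hc : ∀ v, c v ≠ 0) : mdim A E (fun v => c v • p v) = mdim A E p := by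
  let e : Mot A E p ≃ₗ[k] Mot A E (fun v => c v • p v) :=
    { toFun := fun Z => ⟨fun v => c v • Z.1 v, mem_Mot_scale c Z.2⟩
      map_add' := fun Z Z' => by
        apply Subtype.ext
        funext v
        simp [smul_add]
      map_smul' := fun a Z => by
        apply Subtype.ext
        funext v
        simp only [Submodule.coe_smul, Pi.smul_apply, RingHom.id_apply]
        rw [smul_comm]
      invFun := fun Z => ⟨fun v => (c v)⁻¹ • Z.1 v, by
        have h := mem_Mot_scale (fun v => (c v)⁻¹) Z.2
        have h1 : (fun v => (c v)⁻¹ • c v • p v) = p := by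
          funext v
          rw [smul_smul, inv_mul_cancel₀ (hc v), one_smul]
        rwa [h1] at h⟩
      left_inv := fun Z => by
        apply Subtype.ext
        funext v
        show (c v)⁻¹ • c v • Z.1 v = Z.1 v
        rw [smul_smul, inv_mul_cancel₀ (hc v), one_smul]
      right_inv := fun Z => by
        apply Subtype.ext
        funext v
        show c v • (c v)⁻¹ • Z.1 v = Z.1 v
        rw [smul_smul, mul_inv_cancel₀ (hc v), one_smul] }
  exact e.finrank_eq.symm

/-- Some affine realization attains the generic dimension. -/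
theorem exists_finrank_Flex_eq [Fintype V] (G : SimpleGraph V) :
    ∃ p : V → E3, finrank ℝ (Flex G p) = gdim ℝ Finset.univ G.edgeSet := by
  classical
  have h1 := eventually_mdim_eq (k := ℝ) (V := V) Finset.univ G.edgeSet
  have h2 : ∀ᶠ P in gen ℝ (V → Vec ℝ), ∀ v : V, P v 3 ≠ 0 := by
    rw [Filter.eventually_all]
    intro v
    exact (polyLine_coord v 3).eventually_ne ⟨fun _ _ => 1, one_ne_zero⟩
  obtain ⟨P, hP1, hP2⟩ := (h1.and h2).exists
  refine ⟨fun v => !₂[P v 0 / P v 3, P v 1 / P v 3, P v 2 / P v 3], ?_⟩
  have h3 := mdim_scale (A := Finset.univ) (E := G.edgeSet) (p := P) (c := fun v => (P v 3)⁻¹)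
    (fun v => inv_ne_zero (hP2 v))
  rw [finrank_Flex_eq, ← hP1, ← h3]
  congr 1
  funext v i
  have := hP2 v
  fin_cases i <;> simp [hom] <;> field_simp

theorem gdim_le_finrank_Flex [Fintype V] (G : SimpleGraph V) (p : V → E3) :
    gdim ℝ Finset.univ G.edgeSet ≤ finrank ℝ (Flex G p) := by
  rw [finrank_Flex_eq]
  exact gdim_le_mdim _ _ _

/-- Some realization has a space of flexes of dimension at most `d` iff the generic dimension is at
most `d`. -/
theorem exists_finrank_Flex_le_iff [Fintype V] (G : SimpleGraph V) (d : ℕ) :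
    (∃ p : V → E3, finrank ℝ (Flex G p) ≤ d) ↔ gdim ℝ Finset.univ G.edgeSet ≤ d := by
  constructor
  · rintro ⟨p, hp⟩
    exact (gdim_le_finrank_Flex G p).trans hp
  · intro h
    obtain ⟨p, hp⟩ := exists_finrank_Flex_eq G
    exact ⟨p, hp.le.trans h⟩

/-- Generic rigidity and the generic dimension of the space of motions. -/
theorem genericallyRigid_iff_gdim [Fintype V] (hcard : 4 ≤ Fintype.card V) (G : SimpleGraph V) :
    GenericallyRigid G ↔ gdim ℝ Finset.univ G.edgeSet ≤ 6 := by
  rw [genericallyRigid_iff hcard, exists_finrank_Flex_le_iff]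

end GR
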