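import Pool.Agent.Lib.MP_37c7bf_co_helper26.Defs

/-!
Definitions for MP_37c7bf_co: infinitesimal motions and proper `K₅`-sequences.
-/

namespace Pool.Agent.K5

open Pool.Agent.H26R (E3)

/-- The space of infinitesimal motions of the framework `(G, p)`: velocities `u` with
`⟪p v - p w, u v - u w⟫ = 0` for all edges `vw`, that is, the kernel of the rigidity matrix. -/
def InfMotions {V : Type*} (G : SimpleGraph V) (p : V → E3) : Submodule ℝ (V → E3) where
  carrier := {u | ∀ v w, G.Adj v w → inner ℝ (p v - p w) (u v - u w) = 0}
  add_mem' := by
    intro a b ha hb v w h
    have e : (a + b) v - (a + b) w = (a v - a w) + (b v - b w) := by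
      simp only [Pi.add_apply]; abel
    rw [e, inner_add_right, ha v w h, hb v w h, add_zero]
  zero_mem' := by
    intro v w _
    simp
  smul_mem' := by
    intro r a ha v w h
    have e : (r • a) v - (r • a) w = r • (a v - a w) := by
      simp only [Pi.smul_apply, smul_sub]
    rw [e, inner_smul_right, ha v w h, mul_zero]

/-- The rank of the rigidity matrix of `(G, p)`, which has `3 |V|` columns. -/
noncomputable def rigidityRank {V : Type*} [Fintype V] (G : SimpleGraph V) (p : V → E3) : ℕ :=
  3 * Fintype.card V - Module.finrank ℝ (InfMotions G p)

variable {V : Type*} [DecidableEq V]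

/-- The edge set of the complete graph on the vertex set `C`. -/
def completeOn (C : Finset V) : Finset (Sym2 V) := C.sym2.filter (fun e => ¬ e.IsDiag)

/-- The set of all edges of the complete graphs on the members of a list. -/
def edgesOf (L : List (Finset V)) : Finset (Sym2 V) :=
  L.foldr (fun C U => completeOn C ∪ U) ∅

/-- A proper `K₅`-sequence (its latest member is the head of the list): sets of five vertices,
each of which spans an edge that is spanned by none of the earlier ones. -/
def ProperK5Sequence : List (Finset V) → Prop
  | [] => True
  | C :: L => C.card = 5 ∧ ¬ (completeOn C ⊆ edgesOf L) ∧ ProperK5Sequence L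

end Pool.Agent.K5
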