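import Pool.Agent.Lib.GR.Basic

/-!
# The generic dimension does not depend on the field (characteristic zero)
-/

set_option linter.unusedSectionVars false

namespace GR

open Filter Module

open scoped Matrix

variable {V : Type*}

/-- the unit vectors of `Supp k A` -/
def unitS (k : Type*) [Field k] [DecidableEq V] (A : Finset V) (c : A × Fin 4) : Supp k A :=
  ⟨Pi.single (c.1 : V) (Pi.single c.2 1), fun v hv => by
    rw [Pi.single_eq_of_ne]
    rintro rfl
    exact hv c.1.2⟩

lemma unitS_coe (k : Type*) [Field k] [DecidableEq V] (A : Finset V) (c : A × Fin 4) :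
    (unitS k A c).1 = Pi.single (c.1 : V) (Pi.single c.2 1) := rfl

lemma sum_unitS {k : Type*} [Field k] [DecidableEq V] (A : Finset V) (Z : Supp k A) :
    Z = ∑ c : A × Fin 4, Z.1 c.1 c.2 • unitS k A c := by
  apply Subtype.ext
  funext v j
  rw [Submodule.coe_sum, Finset.sum_apply, Finset.sum_apply]
  simp only [Submodule.coe_smul, Pi.smul_apply, smul_eq_mul, unitS_coe]
  by_cases hv : v ∈ A
  · rw [Finset.sum_eq_single (⟨v, hv⟩, j)]
    · simp
    · rintro ⟨w, i⟩ - hne
      by_cases hw : (w : V) = v
      · have hi : i ≠ j := by
          rintro rfl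
          exact hne (by rw [Prod.mk.injEq]; exact ⟨Subtype.ext hw, rfl⟩)
        subst hw
        simp [Pi.single_eq_of_ne hi.symm]
      · simp [Pi.single_eq_of_ne (Ne.symm hw)]
    · intro h
      exact absurd (Finset.mem_univ _) h
  · rw [Z.2 v hv]
    symm
    refine Finset.sum_eq_zero ?_
    rintro ⟨w, i⟩ -
    have hw : (w : V) ≠ v := by
      rintro rfl
      exact hv w.2
    simp [Pi.single_eq_of_ne hw.symm]

lemma span_unitS {k : Type*} [Field k] [DecidableEq V] (A : Finset V) :
    Submodule.span k (Set.range (unitS k A)) = ⊤ := by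
  rw [eq_top_iff]
  rintro Z -
  rw [sum_unitS A Z]
  exact Submodule.sum_mem _ fun c _ => Submodule.smul_mem _ _ (Submodule.subset_span ⟨c, rfl⟩)

lemma finrank_Supp {k : Type*} [Field k] (A : Finset V) : finrank k (Supp k A) = 4 * A.card := by
  classical
  let f : Supp k A ≃ₗ[k] (A → Vec k) :=
    { toFun := fun Z v => Z.1 v
      map_add' := fun _ _ => rfl
      map_smul' := fun _ _ => rfl
      invFun := fun g => ⟨fun v => if h : v ∈ A then g ⟨v, h⟩ else 0, fun v hv => by simp [hv]⟩
      left_inv := fun Z => by
        apply Subtype.ext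
        funext v
        by_cases h : v ∈ A
        · simp [h]
        · simp [h, Z.2 v h]
      right_inv := fun g => by
        funext v
        simp }
  rw [f.finrank_eq, Module.finrank_pi_fintype]
  simp [mul_comm]

/-- the symbolic entries of the condition map -/
noncomputable def symEntry [DecidableEq V] (A : Finset V) (E : Set (Sym2 V)) (c : A × Fin 4)
    (r : V ⊕ V × V) : MvPolynomial (V × Fin 4) ℤ := by
  classical
  exact Sum.elim (fun v => if v ∈ A then (if v = (c.1 : V) then MvPolynomial.X (v, c.2) else 0) else 0)
    (fun ab => if ab.1 ∈ A ∧ ab.2 ∈ A ∧ s(ab.1, ab.2) ∈ E then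
      (if ab.1 = (c.1 : V) then MvPolynomial.X (ab.2, c.2) else 0) +
      (if ab.2 = (c.1 : V) then MvPolynomial.X (ab.1, c.2) else 0) else 0) r

/-- evaluation at points of `k` -/
noncomputable def evP {k : Type*} [Field k] (p : V → Vec k) :
    MvPolynomial (V × Fin 4) ℤ →+* k :=
  MvPolynomial.eval₂Hom (Int.castRingHom k) (fun x => p x.1 x.2)

lemma evP_X {k : Type*} [Field k] (p : V → Vec k) (v : V) (j : Fin 4) :
    evP p (MvPolynomial.X (v, j)) = p v j := by
  simp [evP]

lemma single_dot {k : Type*} [Field k] [DecidableEq V] (c v : V) (j : Fin 4) (x : Vec k) :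
    (Pi.single c (Pi.single j 1) : V → Vec k) v ⬝ᵥ x = if v = c then x j else 0 := by
  by_cases h : v = c
  · subst h
    simp
  · rw [Pi.single_eq_of_ne h, if_neg h, zero_dotProduct]

lemma condMap_unitS {k : Type*} [Field k] [DecidableEq V] (A : Finset V) (E : Set (Sym2 V))
    (p : V → Vec k) (c : A × Fin 4) (r : V ⊕ V × V) :
    condMap A E p (unitS k A c) r = evP p (symEntry A E c r) := by
  classical
  rcases r with v | ab
  · simp only [condMap, LinearMap.coe_mk, AddHom.coe_mk, Sum.elim_inl, symEntry, unitS_coe,
      single_dot]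
    split_ifs <;> simp [evP_X]
  · simp only [condMap, LinearMap.coe_mk, AddHom.coe_mk, Sum.elim_inr, symEntry, unitS_coe,
      single_dot, eps_apply]
    split_ifs <;> simp [evP_X]

/-- A nonzero integer polynomial has a nonzero value over every field of characteristic zero. -/
lemma exists_evP_ne_zero {k : Type*} [Field k] [CharZero k] {P : MvPolynomial (V × Fin 4) ℤ}
    (h : P ≠ 0) : ∃ p : V → Vec k, evP p P ≠ 0 := by
  by_contra hcon
  push Not at hcon
  apply h
  have hinj : Function.Injective (MvPolynomial.map (σ := V × Fin 4) (Int.castRingHom k)) :=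
    MvPolynomial.map_injective _ (RingHom.injective_int _)
  apply hinj
  rw [map_zero]
  apply MvPolynomial.funext
  intro x
  have := hcon (fun v j => x (v, j))
  rw [map_zero, MvPolynomial.eval_map, ← this]
  rfl

/-- **Transfer**: the generic dimension over a field of characteristic zero is at most the generic
dimension over any other field. -/
theorem gdim_le_gdim (k k' : Type*) [Field k] [Field k'] [CharZero k'] (A : Finset V)
    (E : Set (Sym2 V)) : gdim k' A E ≤ gdim k A E := by
  classical
  obtain ⟨p, hp⟩ : ∃ p : V → Vec k, mdim A E p = gdim k A E :=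
    Nat.sInf_mem (Set.range_nonempty _)
  -- independent images of unit vectors
  obtain ⟨κ, a, ha, hspan, hli⟩ := exists_linearIndependent' (K := k)
    (fun c : A × Fin 4 => condMap A E p (unitS k A c))
  have hfin : Finite κ := Finite.of_injective a ha
  have := Fintype.ofFinite κ
  have hrange : LinearMap.range (condMap A E p) =
      Submodule.span k (Set.range fun c : A × Fin 4 => condMap A E p (unitS k A c)) := by
    rw [LinearMap.range_eq_map, ← span_unitS A, Submodule.map_span, ← Set.range_comp]
    rfl
  have hcard : finrank k (LinearMap.range (condMap A E p)) = Fintype.card κ := by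
    rw [hrange, ← hspan, finrank_span_eq_card hli]
  have hker := LinearMap.finrank_range_add_finrank_ker (condMap A E p)
  rw [finrank_ker_condMap, hcard, finrank_Supp, hp] at hker
  obtain ⟨f, hf⟩ := exists_minor _ hli
  -- the symbolic determinant
  let M : Matrix κ κ (MvPolynomial (V × Fin 4) ℤ) := Matrix.of fun i j => symEntry A E (a i) (f j)
  have hM : M.det ≠ 0 := by
    intro h0
    apply hf
    have h1 := RingHom.map_det (evP p) M
    rw [h0, map_zero] at h1
    rw [h1]
    congr 1
    ext i j
    simp only [Matrix.of_apply, Function.comp, RingHom.mapMatrix_apply, Matrix.map_apply, M]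
    exact condMap_unitS A E p (a i) (f j)
  obtain ⟨q, hq⟩ := exists_evP_ne_zero (k := k') hM
  have hli' : LinearIndependent k' (fun i : κ => condMap A E q (unitS k' A (a i))) := by
    refine linearIndependent_of_minor _ f ?_
    rw [RingHom.map_det] at hq
    convert hq using 2
    ext i j
    simp only [Matrix.of_apply, RingHom.mapMatrix_apply, Matrix.map_apply, M]
    exact condMap_unitS A E q (a i) (f j)
  have h3 : Fintype.card κ ≤ finrank k' (LinearMap.range (condMap A E q)) := by
    have h4 : LinearIndependent k' (fun i : κ =>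
        (⟨condMap A E q (unitS k' A (a i)), ⟨_, rfl⟩⟩ : LinearMap.range (condMap A E q))) :=
      LinearIndependent.of_comp (LinearMap.range (condMap A E q)).subtype hli'
    exact h4.fintype_card_le_finrank
  have hker' := LinearMap.finrank_range_add_finrank_ker (condMap A E q)
  rw [finrank_ker_condMap, finrank_Supp] at hker'
  have h5 := gdim_le_mdim A E q
  omega

/-- **Transfer**: the generic dimension is the same over all fields of characteristic zero. -/
theorem gdim_eq_gdim (k k' : Type*) [Field k] [CharZero k] [Field k'] [CharZero k'] (A : Finset V)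
    (E : Set (Sym2 V)) : gdim k A E = gdim k' A E :=
  le_antisymm (gdim_le_gdim k' k A E) (gdim_le_gdim k k' A E)

end GR
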