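import Pool.Agent.Lib.GR.RankFormula
import Pool.Agent.Lib.GR.FlexMot
import Pool.Agent.Lib.GR.Transfer
import Pool.Agent.Lib.GR.K5Defs

/-!
# From good flats to the characterization of generic rigidity
-/

set_option linter.unusedSectionVars false
set_option linter.style.haveILetI false

namespace GR

open Filter Module MeasureTheory

open Pool.Agent.H26R (E3 Flex mem_Flex GenericallyRigid)

lemma infMotions_eq {V : Type*} (G : SimpleGraph V) (p : V → E3) :
    Pool.Agent.K5.InfMotions G p = Flex G p := by
  ext u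
  rw [mem_Flex]
  rfl

lemma completeOn_eq {V : Type*} [DecidableEq V] (C : Finset V) :
    Pool.Agent.K5.completeOn C = Kf C := rfl

lemma edgesOf_eq {V : Type*} [DecidableEq V] (L : List (Finset V)) :
    Pool.Agent.K5.edgesOf L = edgesOf L := rfl

lemma properK5_iff {V : Type*} [DecidableEq V] (L : List (Finset V)) :
    Pool.Agent.K5.ProperK5Sequence L ↔ ProperSeq L := by
  induction L with
  | nil => exact Iff.rfl
  | cons C L ih =>
    exact and_congr Iff.rfl (and_congr Iff.rfl ih)

/-- For almost all realizations the dimension of the space of infinitesimal motions is generic. -/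
theorem ae_finrank_Flex {V : Type*} [Fintype V] (G : SimpleGraph V) :
    ∀ᵐ p : V → E3 ∂volume, finrank ℝ (Flex G p) = gdim ℝ Finset.univ G.edgeSet := by
  obtain ⟨p₀, hp₀⟩ := exists_finrank_Flex_eq G
  filter_upwards [Pool.Agent.H26R.ae_finrank_ker_le volume (Pool.Agent.H26R.rig G) p₀] with p hp
  refine le_antisymm ?_ (gdim_le_finrank_Flex G p)
  rw [← hp₀]
  exact hp

section

variable {V : Type*} [Fintype V] [DecidableEq V] (G : SimpleGraph V) [DecidableRel G.Adj]

lemma edgeFinset_subset_Kf : G.edgeFinset ⊆ Kf Finset.univ := by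
  intro e he
  rw [mem_Kf]
  refine ⟨?_, fun v _ => Finset.mem_univ v⟩
  exact G.not_isDiag_of_mem_edgeSet (by simpa using he)

variable (k : Type*) [Field k] [CharZero k]

/-- the generic rank formula over the reals -/
theorem rank_formula_real (h : ∀ A : Finset V, AllGood k A) :
    (∀ L : List (Finset V), ProperSeq L →
      3 * Fintype.card V + L.length
        ≤ gdim ℝ Finset.univ G.edgeSet + (G.edgeFinset ∪ edgesOf L).card) ∧
    ∃ L : List (Finset V), ProperSeq L ∧
      3 * Fintype.card V + L.length
        = gdim ℝ Finset.univ G.edgeSet + (G.edgeFinset ∪ edgesOf L).card := by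
  have h1 := rank_formula (k := k) Finset.univ (fun W _ => h W) G.edgeFinset
    (edgeFinset_subset_Kf G)
  rw [gdim_eq_gdim k ℝ, SimpleGraph.coe_edgeFinset, Finset.card_univ] at h1
  refine ⟨fun L hL => h1.1 L hL (fun C _ => Finset.subset_univ C), ?_⟩
  obtain ⟨L, h2, -, h3⟩ := h1.2
  exact ⟨L, h2, h3⟩

/-- **Characterization of generic rigidity in three-space**, from good flats. -/
theorem rigid_iff_of_allGood (h : ∀ A : Finset V, AllGood k A) (hcard : 4 ≤ Fintype.card V) :
    GenericallyRigid G ↔ ∀ L : List (Finset V), Pool.Agent.K5.ProperK5Sequence L →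
      3 * Fintype.card V + L.length
        ≤ (G.edgeFinset ∪ Pool.Agent.K5.edgesOf L).card + 6 := by
  rw [genericallyRigid_iff_gdim hcard G]
  obtain ⟨h1, L₀, h2, h3⟩ := rank_formula_real G k h
  constructor
  · intro hd L hL
    have := h1 L ((properK5_iff L).mp hL)
    rw [edgesOf_eq]
    omega
  · intro hall
    have := hall L₀ ((properK5_iff L₀).mpr h2)
    rw [edgesOf_eq] at this
    omega

/-- **Rank formula**, from good flats. -/
theorem ae_rank_of_allGood (h : ∀ A : Finset V, AllGood k A) :
    ∀ᵐ p : V → E3 ∂volume, IsLeast {r : ℕ | ∃ L : List (Finset V),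
      Pool.Agent.K5.ProperK5Sequence L ∧
        r + L.length = (G.edgeFinset ∪ Pool.Agent.K5.edgesOf L).card}
      (Pool.Agent.K5.rigidityRank G p) := by
  obtain ⟨h1, L₀, h2, h3⟩ := rank_formula_real G k h
  filter_upwards [ae_finrank_Flex G] with p hp
  have hle : finrank ℝ (Flex G p) ≤ 3 * Fintype.card V := by
    refine (Submodule.finrank_le _).trans ?_
    rw [Module.finrank_pi_fintype]
    simp [mul_comm]
  have hr : Pool.Agent.K5.rigidityRank G p + gdim ℝ Finset.univ G.edgeSet
      = 3 * Fintype.card V := by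
    unfold Pool.Agent.K5.rigidityRank
    rw [infMotions_eq, hp]
    omega
  refine ⟨⟨L₀, (properK5_iff L₀).mpr h2, ?_⟩, ?_⟩
  · rw [edgesOf_eq]
    omega
  · rintro r ⟨L, hL, hr'⟩
    have := h1 L ((properK5_iff L).mp hL)
    rw [edgesOf_eq] at hr'
    omega

end

section Matroid

variable {V : Type*} [Fintype V] [DecidableEq V]

/-- the easy inequality in any matroid in which every edge of a `K₅` is in the closure of the
others -/
theorem matroid_eRk_le (M : Matroid (Sym2 V))
    (hM : ∀ C : Finset V, C.card = 5 → ∀ e ∈ Kf C,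
      e ∈ M.closure (((Kf C).erase e : Finset (Sym2 V)) : Set (Sym2 V)))
    (L : List (Finset V)) (hL : ProperSeq L) (E : Finset (Sym2 V)) :
    M.eRk ((E ∪ edgesOf L : Finset (Sym2 V)) : Set (Sym2 V)) + L.length
      ≤ ((E ∪ edgesOf L).card : ℕ∞) := by
  induction L generalizing E with
  | nil =>
    simp only [edgesOf_nil, Finset.union_empty, List.length_nil, Nat.cast_zero, add_zero]
    exact (M.eRk_le_encard _).trans (by rw [Set.encard_coe_eq_coe_finsetCard])
  | cons C L ih =>
    obtain ⟨h5, hnew, hL'⟩ := hL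
    obtain ⟨f, hfC, hfL⟩ := Finset.not_subset.mp hnew
    set X := E ∪ edgesOf (C :: L) with hX
    have hfX : f ∈ X := by
      rw [hX, edgesOf_cons]
      exact Finset.mem_union_right _ (Finset.mem_union_left _ hfC)
    have hLX : edgesOf L ⊆ X.erase f := by
      intro e he
      rw [Finset.mem_erase]
      refine ⟨fun h => hfL (h ▸ he), ?_⟩
      rw [hX, edgesOf_cons]
      exact Finset.mem_union_right _ (Finset.mem_union_right _ he)
    have h1 := ih hL' (X.erase f)
    rw [Finset.union_eq_left.mpr hLX] at h1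
    have h2 : f ∈ M.closure ((X.erase f : Finset (Sym2 V)) : Set (Sym2 V)) := by
      refine M.closure_subset_closure ?_ (hM C h5 f hfC)
      intro e he
      rw [Finset.mem_coe, Finset.mem_erase] at he ⊢
      refine ⟨he.1, ?_⟩
      rw [hX, edgesOf_cons]
      exact Finset.mem_union_right _ (Finset.mem_union_left _ he.2)
    have h3 : M.eRk (X : Set (Sym2 V)) = M.eRk ((X.erase f : Finset (Sym2 V)) : Set (Sym2 V)) := by
      have h4 := Matroid.closure_insert_eq_of_mem_closure h2
      rw [← Finset.coe_insert, Finset.insert_erase hfX] at h4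
      rw [← M.eRk_closure_eq (X : Set (Sym2 V)), h4, M.eRk_closure_eq]
    have h5 : X.card = (X.erase f).card + 1 := (Finset.card_erase_add_one hfX).symm
    rw [h3, h5, List.length_cons, Nat.cast_add, Nat.cast_add, Nat.cast_one, ← add_assoc]
    exact add_le_add_left h1 1

/-- **Maximality**: every graph which is independent in some matroid in which all `K₅`'s are
unions of circuits is generically independent in three-space; from good flats. -/
theorem gdim_of_indep {k : Type*} [Field k] [CharZero k] (h : ∀ A : Finset V, AllGood k A)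
    (M : Matroid (Sym2 V))
    (hM : ∀ C : Finset V, C.card = 5 → ∀ e ∈ Kf C,
      e ∈ M.closure (((Kf C).erase e : Finset (Sym2 V)) : Set (Sym2 V)))
    (G : SimpleGraph V) [DecidableRel G.Adj] (hG : M.Indep G.edgeSet) :
    gdim ℝ Finset.univ G.edgeSet + G.edgeFinset.card = 3 * Fintype.card V := by
  obtain ⟨h1, L₀, h2, h3⟩ := rank_formula_real G k h
  have h4 := h1 [] trivial
  simp only [List.length_nil, add_zero, edgesOf_nil, Finset.union_empty] at h4
  have h5 := matroid_eRk_le M hM L₀ h2 G.edgeFinset
  have h6 : (G.edgeFinset.card : ℕ∞) ≤ M.eRk ((G.edgeFinset ∪ edgesOf L₀ : Finset (Sym2 V)) :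
      Set (Sym2 V)) := by
    have h7 : M.eRk G.edgeSet = G.edgeSet.encard := hG.eRk_eq_encard
    have h8 : G.edgeSet.encard = (G.edgeFinset.card : ℕ∞) := by
      rw [← SimpleGraph.coe_edgeFinset, Set.encard_coe_eq_coe_finsetCard]
    rw [← h8, ← h7]
    refine M.eRk_mono ?_
    rw [Finset.coe_union, SimpleGraph.coe_edgeFinset]
    exact Set.subset_union_left
  have h9 : G.edgeFinset.card + L₀.length ≤ (G.edgeFinset ∪ edgesOf L₀).card := by
    have := (add_le_add_left h6 (L₀.length : ℕ∞)).trans h5
    exact_mod_cast this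
  omega

theorem ae_rank_of_indep {k : Type*} [Field k] [CharZero k] (h : ∀ A : Finset V, AllGood k A)
    (M : Matroid (Sym2 V))
    (hM : ∀ C : Finset V, C.card = 5 → ∀ e ∈ Pool.Agent.K5.completeOn C,
      e ∈ M.closure (((Pool.Agent.K5.completeOn C).erase e : Finset (Sym2 V)) : Set (Sym2 V)))
    (G : SimpleGraph V) [DecidableRel G.Adj] (hG : M.Indep G.edgeSet) :
    ∀ᵐ p : V → E3 ∂volume, Pool.Agent.K5.rigidityRank G p = G.edgeFinset.card := by
  have h1 := gdim_of_indep h M hM G hG
  filter_upwards [ae_finrank_Flex G] with p hp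
  unfold Pool.Agent.K5.rigidityRank
  rw [infMotions_eq, hp]
  omega

end Matroid

end GR
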