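import Pool.Agent.Lib.GR.Indep

/-!
# The Main Lemma for pairwise nonadjacent vertices of degree five (types A and B)
-/

set_option linter.unusedSectionVars false

namespace GR

open Filter Module

open scoped Matrix

variable {k : Type*} [Field k] [Infinite k] {V : Type*} [DecidableEq V]

/-- Hypotheses of the Main Lemma: `X` is an independent set of degree five vertices, every proper
part of it is attached independently, the whole is not, and all vertices are of type A or B. -/
structure MLHyp (k : Type*) [Field k] [Infinite k] {V : Type*} [DecidableEq V]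
    (U X : Finset V) (E : Set (Sym2 V)) : Prop where
  indep : Indep U X E
  card5 : ∀ u ∈ X, (nbr U E u).card = 5
  full : gdim k (U ∪ X) E = 7
  proper : ∀ Y ⊆ X, Y ≠ X → gdim k (U ∪ Y) E + 2 * Y.card = 2 * X.card + 6
  nonrig : ∀ u ∈ X, ∀ᶠ p in gen k (V → Vec k),
    ¬ (Mot (U ∪ X) E p ≤ RG p (nbr U E u : Set V))
  inj : ∀ u ∈ X, ∀ᶠ p in gen k (V → Vec k),
    finrank k (Mot (U ∪ X.erase u) E p ⊓ RG p (nbr U E u : Set V) :
      Submodule k (V → Vec k)) ≤ 6
  typ : ∀ u ∈ X, ∀ᶠ p in gen k (V → Vec k),
    Mot (U ∪ X.erase u) E p ≤ TA p (nbr U E u : Set V) ∨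
    ∃ σ : Fin 5 → nbr U E u, Function.Bijective σ ∧ ∃ t : k, t ≠ 0 ∧
      Mot (U ∪ X.erase u) E p ≤ TB p (σ 0) (σ 1) (σ 2) (σ 3) (σ 4) t

/-- The space `Q_X` of the Main Lemma (motions of `U`, trivial motions included). -/
def QX (U X : Finset V) (E : Set (Sym2 V)) (p : V → Vec k) : Submodule k (V → Vec k) :=
  Qsp (Mot U E p) (AttU U E p) X

lemma QX_le (U X : Finset V) (E : Set (Sym2 V)) (p : V → Vec k) : QX U X E p ≤ Mot U E p :=
  Qsp_le _ _ _

section

variable {U X : Finset V} {E : Set (Sym2 V)}

lemma MLHyp.notMem_nbr (h : MLHyp k U X E) {u v : V} (hu : u ∈ X) : u ∉ nbr U E v :=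
  fun h' => h.indep.notMem hu (nbr_subset _ _ _ h')

lemma MLHyp.eventually_genPos (_h : MLHyp k U X E) :
    ∀ᶠ p in gen k (V → Vec k), ∀ u ∈ X, GenPos p (nbr U E u : Set V) := by
  rw [Filter.eventually_all_finset]
  exact fun u _ => GR.eventually_genPos _

lemma MLHyp.eventually_span (h : MLHyp k U X E) :
    ∀ᶠ p in gen k (V → Vec k), ∀ u ∈ X, Submodule.span k (p '' (nbr U E u : Set V)) = ⊤ := by
  filter_upwards [h.eventually_genPos] with p hp u hu
  exact (hp u hu).span_eq_top (by rw [h.card5 u hu]; norm_num)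

/-- the dimension hypotheses hold generically -/
theorem MLHyp.eventually_dimHyp (h : MLHyp k U X E) :
    ∀ᶠ p in gen k (V → Vec k), DimHyp (Mot U E p) (AttU U E p) X 6 := by
  have h1 : ∀ᶠ p in gen k (V → Vec k), ∀ Y ∈ X.powerset, mdim (U ∪ Y) E p = gdim k (U ∪ Y) E := by
    rw [Filter.eventually_all_finset]
    exact fun Y _ => eventually_mdim_eq _ _
  filter_upwards [h1, h.eventually_span] with p hp hs
  refine ⟨inferInstance, fun Y hY hne => ?_, ?_⟩
  · rw [finrank_Isp_eq h.indep hY fun w hw => hs w (hY hw), hp Y (Finset.mem_powerset.mpr hY)]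
    exact h.proper Y hY hne
  · rw [finrank_Isp_eq h.indep subset_rfl hs, hp X (Finset.mem_powerset_self X), h.full]

variable {u v w : V}

/-- the base of a pair -/
lemma insert_base (hu : u ∈ X) (huv : u ≠ v) :
    insert u (U ∪ (X.erase u).erase v) = U ∪ X.erase v := by
  rw [Finset.erase_right_comm, ← Finset.union_insert,
    Finset.insert_erase (Finset.mem_erase.mpr ⟨huv, hu⟩)]

lemma notMem_base (h : Indep U X E) (hu : u ∈ X) : u ∉ U ∪ (X.erase u).erase v := by
  rw [Finset.mem_union, not_or]
  refine ⟨h.notMem hu, ?_⟩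
  intro h'
  exact (Finset.mem_erase.mp (Finset.mem_of_mem_erase h')).1 rfl

lemma notMem_base' (h : Indep U X E) (hv : v ∈ X) : v ∉ U ∪ (X.erase u).erase v := by
  rw [Finset.mem_union, not_or]
  exact ⟨h.notMem hv, Finset.notMem_erase _ _⟩

lemma nbr_base (h : Indep U X E) (hu : u ∈ X) :
    nbr (U ∪ (X.erase u).erase v) E u = nbr U E u :=
  nbr_union h hu (Finset.erase_subset _ _)

lemma map_forget_base (h : Indep U X E) (hu : u ∈ X) (huv : u ≠ v) (p : V → Vec k) :
    (Mot (U ∪ X.erase v) E p).map (forget k u)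
      = Mot (U ∪ (X.erase u).erase v) E p ⊓ Att p (nbr U E u : Set V) (p u) := by
  rw [← insert_base hu huv, map_forget_Mot (notMem_base h hu), nbr_base h hu]

/-- quantities in the base of the pair `u, v` do not depend on `p u` and `p v` -/
lemma Mot_base_update (h : Indep U X E) (hu : u ∈ X) (hw : w = u ∨ w = v) (hv : v ∈ X)
    (p : V → Vec k) (x : Vec k) :
    Mot (U ∪ (X.erase u).erase v) E (Function.update p w x)
      = Mot (U ∪ (X.erase u).erase v) E p := by
  refine Mot_congr_pts fun a ha => ?_
  refine Function.update_of_ne ?_ _ _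
  rintro rfl
  rcases hw with rfl | rfl
  · exact notMem_base h hu ha
  · exact notMem_base' h hv ha

lemma Att_update {N : Set V} {w : V} (hw : w ∉ N) (p : V → Vec k) (x y : Vec k) :
    Att (Function.update p w x) N y = Att p N y :=
  Att_congr_pts fun v hv => Function.update_of_ne (by rintro rfl; exact hw hv) _ _

lemma RG_update {N : Set V} {w : V} (hw : w ∉ N) (p : V → Vec k) (x : Vec k) :
    RG (Function.update p w x) N = RG p N :=
  RG_congr fun v hv => Function.update_of_ne (by rintro rfl; exact hw hv) _ _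

lemma TA_update {N : Set V} {w : V} (hw : w ∉ N) (p : V → Vec k) (x : Vec k) :
    TA (Function.update p w x) N = TA p N :=
  TA_congr fun v hv => Function.update_of_ne (by rintro rfl; exact hw hv) _ _

/-- dimension of the motions of the base which extend to `u` -/
lemma MLHyp.eventually_dim_one (h : MLHyp k U X E) (hu : u ∈ X) (hv : v ∈ X) (huv : u ≠ v) :
    ∀ᶠ p in gen k (V → Vec k), finrank k (Mot (U ∪ (X.erase u).erase v) E p ⊓
      Att p (nbr U E u : Set V) (p u) : Submodule k (V → Vec k)) = 8 := by
  filter_upwards [h.eventually_genPos, eventually_mdim_eq (k := k) (U ∪ X.erase v) E] with p hp hm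
  have h1 := mdim_insert_of_four_le (notMem_base (v := v) h.indep hu) E p
    (by rw [nbr_base h.indep hu]; exact hp u hu)
    (by rw [nbr_base h.indep hu, h.card5 u hu]; norm_num)
  rw [insert_base hu huv, nbr_base h.indep hu] at h1
  rw [← h1, hm]
  have h2 := h.proper (X.erase v) (Finset.erase_subset _ _) (fun e =>
    Finset.notMem_erase v X (by rw [e]; exact hv))
  have h3 := Finset.card_erase_add_one hv
  omega

/-- **The pair hypotheses hold generically.** -/
theorem MLHyp.eventually_pairHyp (h : MLHyp k U X E) (hu : u ∈ X) (hv : v ∈ X) (huv : u ≠ v) :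
    ∀ᶠ p in gen k (V → Vec k), PairHyp (Mot (U ∪ (X.erase u).erase v) E p) p
      (nbr U E u) (nbr U E v) 6 := by
  classical
  have hunu : u ∉ (nbr U E u : Set V) := by simpa using h.notMem_nbr (v := u) hu
  have hunv : u ∉ (nbr U E v : Set V) := by simpa using h.notMem_nbr (v := v) hu
  have hvnu : v ∉ (nbr U E u : Set V) := by simpa using h.notMem_nbr (v := u) hv
  have hvnv : v ∉ (nbr U E v : Set V) := by simpa using h.notMem_nbr (v := v) hv
  have hMu : ∀ p x, Mot (U ∪ (X.erase u).erase v) E (Function.update p u x)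
      = Mot (k := k) (U ∪ (X.erase u).erase v) E p := fun p x =>
    Mot_base_update h.indep hu (Or.inl rfl) hv p x
  have hMv : ∀ p x, Mot (U ∪ (X.erase u).erase v) E (Function.update p v x)
      = Mot (k := k) (U ∪ (X.erase u).erase v) E p := fun p x =>
    Mot_base_update h.indep hu (Or.inr rfl) hv p x
  -- the dimension of the base
  have h0 : ∀ᶠ p in gen k (V → Vec k),
      finrank k (Mot (U ∪ (X.erase u).erase v) E p) = 10 := by
    filter_upwards [eventually_mdim_eq (k := k) (U ∪ (X.erase u).erase v) E] with p hp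
    rw [mdim] at hp
    rw [hp]
    have h2 := h.proper ((X.erase u).erase v)
      ((Finset.erase_subset _ _).trans (Finset.erase_subset _ _)) (fun e =>
        Finset.notMem_erase v _ (by rw [e]; exact hv))
    have h3 := Finset.card_erase_add_one hu
    have h4 := Finset.card_erase_add_one (Finset.mem_erase.mpr ⟨huv.symm, hv⟩)
    omega
  -- the dimensions of the attached spaces
  have h1 := eventually_update (h.eventually_dim_one hu hv huv) u
  have h2' := h.eventually_dim_one hv hu huv.symm
  rw [Finset.erase_right_comm] at h2'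
  have h2 := eventually_update h2' v
  -- not rigid
  have h3' : ∀ᶠ p in gen k (V → Vec k), ¬ (Mot (U ∪ (X.erase u).erase v) E p ⊓
      Att p (nbr U E u : Set V) (p u) ⊓ Att p (nbr U E v : Set V) (p v)
        ≤ RG p (nbr U E u : Set V)) := by
    filter_upwards [h.nonrig u hu] with p hp hcon
    apply hp
    intro Z hZ
    have hsub : U ∪ (X.erase u).erase v ⊆ U ∪ X := Finset.union_subset_union subset_rfl
      ((Finset.erase_subset _ _).trans (Finset.erase_subset _ _))
    have hcut : ∀ w ∈ U, cut k (U ∪ (X.erase u).erase v) Z w = Z w := fun w hw =>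
      cut_apply _ (Finset.mem_union_left _ hw)
    have hatt : ∀ w ∈ X, cut k (U ∪ (X.erase u).erase v) Z ∈ Att p (nbr U E w : Set V) (p w) := by
      intro w hw
      refine ⟨Z w, hZ.2.1 w (Finset.mem_union_right _ hw), fun y hy => ?_⟩
      have hy' := mem_nbr.mp (by simpa using hy : y ∈ nbr U E w)
      rw [hcut y hy'.1]
      exact hZ.2.2 w (Finset.mem_union_right _ hw) y (Finset.mem_union_left _ hy'.1) hy'.2
    have h4 : cut k (U ∪ (X.erase u).erase v) Z ∈ RG p (nbr U E u : Set V) :=
      hcon ⟨⟨cut_mem_Mot_of_subset hsub hZ, hatt u hu⟩, hatt v hv⟩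
    refine (mem_RG_congr fun y hy => ?_).mp h4
    exact hcut y (nbr_subset _ _ _ (by simpa using hy))
  have h3 := (eventually_update h3' v).mono fun p hp => hp
  have h3 := eventually_update h3 u
  -- injectivity
  have h4' : ∀ᶠ p in gen k (V → Vec k), finrank k (Mot (U ∪ (X.erase u).erase v) E p ⊓
      Att p (nbr U E u : Set V) (p u) ⊓ RG p (nbr U E v : Set V) :
        Submodule k (V → Vec k)) ≤ 6 := by
    filter_upwards [h.inj v hv] with p hp
    refine le_trans ?_ hp
    have hle : Mot (U ∪ (X.erase u).erase v) E p ⊓ Att p (nbr U E u : Set V) (p u)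
        ⊓ RG p (nbr U E v : Set V)
        ≤ (Mot (U ∪ X.erase v) E p ⊓ RG p (nbr U E v : Set V)).map (forget k u) := by
      rintro Z ⟨hZ, hZR⟩
      rw [← map_forget_base h.indep hu huv] at hZ
      obtain ⟨Y, hY, rfl⟩ := hZ
      refine ⟨Y, ⟨hY, (mem_RG_congr fun y hy => ?_).mp hZR⟩, rfl⟩
      exact forget_apply_of_ne (by rintro rfl; exact hunv hy) _
    have hfd : FiniteDimensional k
        (Mot (U ∪ X.erase v) E p ⊓ RG p (nbr U E v : Set V) : Submodule k (V → Vec k)) :=
      Submodule.finiteDimensional_of_le inf_le_left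
    exact (Submodule.finrank_mono hle).trans (Submodule.finrank_map_le _ _)
  have h4 := eventually_update h4' u
  -- types
  have h5' : ∀ᶠ p in gen k (V → Vec k),
      Mot (U ∪ (X.erase u).erase v) E p ⊓ Att p (nbr U E u : Set V) (p u)
        ≤ TA p (nbr U E v : Set V) ∨
      ∃ σ : Fin 5 → nbr U E v, Function.Bijective σ ∧ ∃ t : k,
        Mot (U ∪ (X.erase u).erase v) E p ⊓ Att p (nbr U E u : Set V) (p u)
          ≤ TB p (σ 0) (σ 1) (σ 2) (σ 3) (σ 4) t := by
    filter_upwards [h.typ v hv] with p hp
    rw [← map_forget_base h.indep hu huv]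
    rcases hp with hp | ⟨σ, hσ, t, -, ht⟩
    · left
      rintro _ ⟨Y, hY, rfl⟩
      refine (mem_TA_congr fun y hy => ?_).mp (hp hY)
      exact (forget_apply_of_ne (by rintro rfl; exact hunv hy) _).symm
    · right
      refine ⟨σ, hσ, t, ?_⟩
      rintro _ ⟨Y, hY, rfl⟩
      have hne : ∀ i, Y (σ i) = forget k u Y (σ i) := fun i =>
        (forget_apply_of_ne (by
          intro e
          exact hunv (by rw [← e]; exact (σ i).2)) _).symm
      exact (mem_TB_congr (hne 0) (hne 1) (hne 2) (hne 3) (hne 4)).mp (ht hY)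
  have h5 := eventually_update h5' u
  filter_upwards [h0, h1, h2, h3, h4, h5] with p g0 g1 g2 g3 g4 g5
  refine ⟨g0, ?_, ?_, ?_, ?_, ?_⟩
  · filter_upwards [g1] with x hx
    rwa [hMu, Att_update hunu, Function.update_self] at hx
  · filter_upwards [g2] with x hx
    rwa [hMv, Att_update hvnv, Function.update_self] at hx
  · filter_upwards [g3] with x hx
    filter_upwards [hx] with y hy
    rw [hMv, Att_update hvnu, Att_update hvnv, Function.update_of_ne huv, Function.update_self,
      Function.update_self, RG_update hvnu] at hy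
    rwa [hMu, Att_update hunu, Att_update hunv, RG_update hunu] at hy
  · filter_upwards [g4] with x hx
    rwa [hMu, Att_update hunu, RG_update hunv, Function.update_self] at hx
  · filter_upwards [g5] with x hx
    rw [hMu, Att_update hunu, TA_update hunv, Function.update_self] at hx
    refine hx.imp id ?_
    rintro ⟨σ, hσ, t, ht⟩
    refine ⟨σ, hσ, t, ?_⟩
    have hne : ∀ i, Function.update p u x (σ i) = p (σ i) := fun i =>
      Function.update_of_ne (by
        intro e
        exact hunv (by rw [← e]; exact (σ i).2)) _ _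
    rwa [TB_congr (hne 0) (hne 1) (hne 2) (hne 3) (hne 4)] at ht

end

end GR
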