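import Mathlib

/-!
# Classification of bad spaces of quadratic forms (types star, A, B)

`E` is a vector space over an infinite field `k` of characteristic not two, `mu : E`,
`M` a space of symmetric bilinear forms on `E` with `m mu mu = 0` for all `m ∈ M` and such that
`m l l * m' mu l = m' l l * m mu l` for all `m, m' ∈ M` and `l`.  If `dim M ≥ 2` then either
`m mu = 0` for all `m ∈ M`, or there is one linear form `s` with `s mu = 2` and
`m l l = m mu l * s l` for all `m ∈ M`.
-/

namespace GR.Forms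

open Module

variable {k E : Type*} [Field k] [Infinite k] [AddCommGroup E] [Module k E]

/-- A quadratic polynomial in one variable vanishing for all but one value is zero at `0`. -/
lemma const_eq_zero_of_forall_ne {a b c t₀ : k} (h : ∀ t, t ≠ t₀ → a + b * t + c * t ^ 2 = 0) :
    a = 0 := by
  classical
  let P : Polynomial k := Polynomial.C a + Polynomial.C b * Polynomial.X
    + Polynomial.C c * Polynomial.X ^ 2
  have hP : P = 0 := by
    refine Polynomial.eq_zero_of_infinite_isRoot P ?_
    have hinf : (Set.univ \ {t₀} : Set k).Infinite :=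
      Set.infinite_univ.sdiff (Set.finite_singleton t₀)
    refine hinf.mono ?_
    intro t ht
    have ht' : t ≠ t₀ := by simpa using ht.2
    simpa [P, Polynomial.IsRoot] using h t ht'
  have := congrArg (fun Q : Polynomial k => Q.coeff 0) hP
  simpa [P] using this

/-- If `L' * b(x,x)` vanishes on `ker L` and `L'` is not a multiple of `L` then `b(x,x)` vanishes on
`ker L`. -/
lemma vanish_on_ker (b : E →ₗ[k] E →ₗ[k] k) (L L' : E →ₗ[k] k)
    (hLL' : ∃ y, L y = 0 ∧ L' y ≠ 0)
    (h : ∀ x, L x = 0 → b x x * L' x = 0) : ∀ x, L x = 0 → b x x = 0 := by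
  obtain ⟨y, hy, hy'⟩ := hLL'
  intro x hx
  have key : ∀ t : k, t ≠ -(L' x) / L' y → b x x + (b x y + b y x) * t + b y y * t ^ 2 = 0 := by
    intro t ht
    have h1 := h (x + t • y) (by simp [hx, hy])
    have h2 : L' (x + t • y) ≠ 0 := by
      intro h0
      apply ht
      have : L' x + t * L' y = 0 := by simpa using h0
      field_simp
      linear_combination this
    have h3 : b (x + t • y) (x + t • y) = 0 := by
      rcases mul_eq_zero.mp h1 with h | h
      · exact h
      · exact absurd h h2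
    have h4 : b (x + t • y) (x + t • y) = b x x + (b x y + b y x) * t + b y y * t ^ 2 := by
      simp only [map_add, map_smul, LinearMap.add_apply, LinearMap.smul_apply, smul_eq_mul]
      ring
    rw [← h4]; exact h3
  exact const_eq_zero_of_forall_ne key

omit [Infinite k] in
/-- A quadratic form vanishing on the kernel of a nonzero linear form is divisible by it. -/
lemma exists_factor (b : E →ₗ[k] E →ₗ[k] k) (hb : ∀ x y, b x y = b y x) (L : E →ₗ[k] k)
    (hL : L ≠ 0) (h : ∀ x, L x = 0 → b x x = 0) :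
    ∃ s : E →ₗ[k] k, ∀ x, b x x = L x * s x := by
  obtain ⟨e, he⟩ : ∃ e, L e ≠ 0 := by
    by_contra hcon
    push Not at hcon
    exact hL (LinearMap.ext fun x => by simpa using hcon x)
  -- normalise
  set e₁ : E := (L e)⁻¹ • e with he₁
  have hLe₁ : L e₁ = 1 := by simp [he₁, he]
  refine ⟨(2 : k) • b e₁ - (b e₁ e₁) • L, ?_⟩
  intro x
  have h1 := h (x - L x • e₁) (by simp [hLe₁])
  have h2 : b (x - L x • e₁) (x - L x • e₁)
      = b x x - 2 * L x * b e₁ x + (L x) ^ 2 * b e₁ e₁ := by
    simp only [map_sub, map_smul, LinearMap.sub_apply, LinearMap.smul_apply, smul_eq_mul, hb x e₁]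
    ring
  rw [h2] at h1
  simp only [LinearMap.sub_apply, LinearMap.smul_apply, smul_eq_mul]
  linear_combination h1

/-- **Classification of bad spaces of forms.** -/
theorem classify (h2 : (2 : k) ≠ 0) (mu : E) (M : Submodule k (E →ₗ[k] E →ₗ[k] k))
    (hsymm : ∀ m ∈ M, ∀ x y, m x y = m y x) (hmu : ∀ m ∈ M, m mu mu = 0)
    (hbad : ∀ m ∈ M, ∀ m' ∈ M, ∀ l, m l l * m' mu l = m' l l * m mu l)
    (hdim : ∀ m₀ ∈ M, ∃ m ∈ M, ∀ c : k, m ≠ c • m₀) :
    (∀ m ∈ M, ∀ l, m mu l = 0) ∨
    ∃ s : E →ₗ[k] k, s mu = 2 ∧ (∀ m ∈ M, ∀ l, m l l = s l * m mu l) ∧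
      (∀ m ∈ M, ∀ l l', 2 * m l l' = s l * m mu l' + s l' * m mu l) := by
  classical
  by_cases hA : ∀ m ∈ M, ∀ l, m mu l = 0
  · exact Or.inl hA
  right
  push Not at hA
  obtain ⟨m₀, hm₀, l₀, hl₀⟩ := hA
  -- polarisation
  have polar : ∀ (b : E →ₗ[k] E →ₗ[k] k), (∀ x y, b x y = b y x) → (∀ x, b x x = 0) →
      ∀ x y, b x y = 0 := by
    intro b hb hz x y
    have h := hz (x + y)
    simp only [map_add, LinearMap.add_apply, hz x, hz y, hb y x] at h
    have : (2 : k) * b x y = 0 := by linear_combination h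
    exact (mul_eq_zero.mp this).resolve_left h2
  -- injectivity of m ↦ m mu
  have inj : ∀ m ∈ M, (∀ l, m mu l = 0) → m = 0 := by
    intro m hm hz
    have hker : ∀ l, m l l * m₀ mu l = 0 := by
      intro l
      rw [hbad m hm m₀ hm₀ l, hz l, mul_zero]
    have hvan : ∀ l, m l l = 0 := by
      intro l
      have := vanish_on_ker m (0 : E →ₗ[k] k) (m₀ mu) ⟨l₀, by simp, hl₀⟩
        (fun x _ => hker x) l (by simp)
      exact this
    ext x y
    simpa using polar m (hsymm m hm) hvan x y
  obtain ⟨m₁, hm₁, hind⟩ := hdim m₀ hm₀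
  -- L₁ is not a multiple of L₀
  have hker : ∃ y, m₀ mu y = 0 ∧ m₁ mu y ≠ 0 := by
    by_contra hcon
    push Not at hcon
    -- m₁ mu = c • m₀ mu
    have hc : ∀ y, m₁ mu y = (m₁ mu l₀ / m₀ mu l₀) * m₀ mu y := by
      intro y
      have h := hcon (y - (m₀ mu y / m₀ mu l₀) • l₀) (by simp [hl₀])
      have h' : m₁ mu y - (m₀ mu y / m₀ mu l₀) * m₁ mu l₀ = 0 := by simpa using h
      field_simp
      field_simp at h'
      linear_combination h'
    have hz : m₁ + (-(m₁ mu l₀ / m₀ mu l₀)) • m₀ = 0 := by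
      refine inj _ (M.add_mem hm₁ (M.smul_mem _ hm₀)) ?_
      intro l
      simp [hc l]
    refine hind (m₁ mu l₀ / m₀ mu l₀) ?_
    refine LinearMap.ext fun x => LinearMap.ext fun y => ?_
    have h := congrArg (fun b : E →ₗ[k] E →ₗ[k] k => b x y) hz
    simp only [LinearMap.add_apply, LinearMap.smul_apply, smul_eq_mul, LinearMap.zero_apply] at h
    simp only [LinearMap.smul_apply, smul_eq_mul]
    linear_combination h
  have hL₀ : (m₀ mu : E →ₗ[k] k) ≠ 0 := fun h => hl₀ (by simp [h])
  have hvan : ∀ x, m₀ mu x = 0 → m₀ x x = 0 :=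
    vanish_on_ker m₀ (m₀ mu) (m₁ mu) hker (fun x hx => by
      rw [hbad m₀ hm₀ m₁ hm₁ x, hx, mul_zero])
  obtain ⟨s, hs⟩ := exists_factor m₀ (hsymm m₀ hm₀) (m₀ mu) hL₀ hvan
  -- now for all m
  have hall : ∀ m ∈ M, ∀ l, m l l = s l * m mu l := by
    intro m hm l
    -- b := m - s * m mu (as a symmetric form)
    let b : E →ₗ[k] E →ₗ[k] k := (2 : k) • m - (LinearMap.smulRight s (m mu) +
      LinearMap.smulRight (m mu) s)
    have hb : ∀ x, b x x = 2 * (m x x - s x * m mu x) := by
      intro x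
      simp [b]
      ring
    have hz : ∀ x, b x x * m₀ mu x = 0 := by
      intro x
      rw [hb]
      have e1 := hbad m hm m₀ hm₀ x
      rw [hs x] at e1
      linear_combination 2 * e1
    have := vanish_on_ker b (0 : E →ₗ[k] k) (m₀ mu) ⟨l₀, by simp, hl₀⟩
        (fun x _ => hz x) l (by simp)
    rw [hb] at this
    have := (mul_eq_zero.mp this).resolve_left h2
    linear_combination this
  have hpol : ∀ m ∈ M, ∀ l l', 2 * m l l' = s l * m mu l' + s l' * m mu l := by
    intro m hm l l'
    have h1 := hall m hm (l + l')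
    have h3 := hall m hm l
    have h4 := hall m hm l'
    simp only [map_add, LinearMap.add_apply, hsymm m hm l' l] at h1
    rw [h3, h4] at h1
    linear_combination h1
  refine ⟨s, ?_, hall, hpol⟩
  have h := hpol m₀ hm₀ mu l₀
  rw [hmu m₀ hm₀] at h
  have : (s mu - 2) * m₀ mu l₀ = 0 := by linear_combination -h
  rcases mul_eq_zero.mp this with h | h
  · exact sub_eq_zero.mp h
  · exact absurd h hl₀

end GR.Forms
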