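import Pool.Agent.Lib.GR.Attach2
import Pool.Agent.Lib.GR.Forms

/-!
# Bad 5-sets: star, type A, type B
-/

set_option linter.unusedSectionVars false

namespace GR

open Filter Module

open scoped Matrix

variable {k : Type*} [Field k] {V : Type*}

/-- `μ` is a dependency of the points of `N` all of whose coefficients are nonzero, and it is
unique up to a factor. -/
structure IsDep (p : V → Vec k) (N : Finset V) (μ : V → k) : Prop where
  sum_eq : ∑ i ∈ N, μ i • p i = 0
  ne_zero : ∀ i ∈ N, μ i ≠ 0
  unique : ∀ c : V → k, ∑ i ∈ N, c i • p i = 0 → ∃ r : k, ∀ i ∈ N, c i = r * μ i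

/-- Five points in general position have a dependency. -/
theorem exists_isDep [DecidableEq V] {p : V → Vec k} {N : Finset V} (h : GenPos p (N : Set V))
    (hc : N.card = 5) : ∃ μ : V → k, IsDep p N μ := by
  classical
  obtain ⟨u, hu⟩ : N.Nonempty := Finset.card_pos.mp (by omega)
  have hc' : (N.erase u).card = 4 := by rw [Finset.card_erase_of_mem hu]; omega
  have hsp : Spans p (N.erase u) :=
    (h.mono (N' := ((N.erase u : Finset V) : Set V)) (by simp)).spans
      hc'.ge
  obtain ⟨c, hcs⟩ := hsp (p u)
  -- a dependency supported in a proper subset is zero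
  have hz : ∀ d : V → k, ∑ i ∈ N, d i • p i = 0 → (∃ i ∈ N, d i = 0) → ∀ i ∈ N, d i = 0 := by
    rintro d hd ⟨j, hj, hdj⟩ i hi
    have hcj : (N.erase j).card = 4 := by rw [Finset.card_erase_of_mem hj]; omega
    have hli := h (N.erase j) (by simp) hcj.le
    rw [← Finset.add_sum_erase N _ hj, hdj, zero_smul, zero_add] at hd
    rw [Fintype.linearIndependent_iff] at hli
    by_cases hij : i = j
    · rw [hij, hdj]
    · have h3 := hli (fun v => d v) (by
        rw [← hd]
        exact (Finset.sum_coe_sort (N.erase j) (fun v => d v • p v))) ⟨i, by simp [hij, hi]⟩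
      exact h3
  let μ : V → k := fun v => if v = u then -1 else c v
  have hμ : ∑ i ∈ N, μ i • p i = 0 := by
    rw [← Finset.add_sum_erase N _ hu]
    have : ∑ x ∈ N.erase u, μ x • p x = p u := by
      rw [← hcs]
      refine Finset.sum_congr rfl fun i hi => ?_
      have : i ≠ u := (Finset.mem_erase.mp hi).1
      simp [μ, this]
    rw [this]
    simp [μ]
  have hne : ∀ i ∈ N, μ i ≠ 0 := by
    intro i hi h0
    have := hz μ hμ ⟨i, hi, h0⟩ u hu
    simp [μ] at this
  refine ⟨μ, hμ, hne, ?_⟩
  intro d hd
  refine ⟨- d u, ?_⟩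
  have h4 : ∑ i ∈ N, (d i + d u * μ i) • p i = 0 := by
    simp only [add_smul, mul_smul, Finset.sum_add_distrib, ← Finset.smul_sum, hd, hμ, smul_zero,
      add_zero]
  have h5 := hz (fun i => d i + d u * μ i) h4 ⟨u, hu, by simp [μ]⟩
  intro i hi
  have := h5 i hi
  linear_combination this

/-- Attaching criterion at degree five: `α = m(μ,λ)` and `β = m(λ,λ)` vanish. -/
theorem mem_Att_five (h2 : (2 : k) ≠ 0) {p : V → Vec k} {N : Finset V} (hN : Spans p N)
    {μ : V → k} (hμ : IsDep p N μ) (l : V → k) (Z : V → Vec k) :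
    Z ∈ Att p (N : Set V) (∑ i ∈ N, l i • p i) ↔ frm p N Z μ l = 0 ∧ frm p N Z l l = 0 := by
  rw [mem_Att_iff_frm h2 hN]
  constructor
  · rintro ⟨h, h'⟩
    exact ⟨h μ hμ.sum_eq, h'⟩
  · rintro ⟨h, h'⟩
    refine ⟨fun c hc => ?_, h'⟩
    obtain ⟨r, hr⟩ := hμ.unique c hc
    have : frm p N Z c l = r * frm p N Z μ l := by
      rw [frm_apply, frm_apply, Finset.mul_sum]
      refine Finset.sum_congr rfl fun i hi => ?_
      rw [Finset.mul_sum]
      refine Finset.sum_congr rfl fun j hj => ?_
      rw [hr i hi]
      ring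
    rw [this, h, mul_zero]

/-- `M` moves `N` in a bad way: for generic positions of a new vertex joined to `N` the attaching
conditions have rank at most one on `M`. -/
def Bad [Infinite k] (M : Submodule k (V → Vec k)) (p : V → Vec k) (N : Finset V) : Prop :=
  ∀ᶠ x in gen k (Vec k),
    finrank k M ≤ finrank k (M ⊓ Att p (N : Set V) x : Submodule k (V → Vec k)) + 1

/-- Two vectors of a space of dimension `≤ 1` above a subspace have a combination in it. -/
lemma exists_comb {W : Type*} [AddCommGroup W] [Module k W] {M N : Submodule k W}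
    [FiniteDimensional k M] (hNM : N ≤ M) (h : finrank k M ≤ finrank k N + 1) {x y : W}
    (hx : x ∈ M) (hy : y ∈ M) : ∃ a b : k, (a ≠ 0 ∨ b ≠ 0) ∧ a • x + b • y ∈ N := by
  by_contra hcon
  push Not at hcon
  -- the quotient map restricted to M
  let f : M →ₗ[k] (W ⧸ N) := N.mkQ.domRestrict M
  have hker : finrank k (LinearMap.ker f) = finrank k N := by
    have : LinearMap.ker f = N.comap M.subtype := by
      ext z
      simp [f]
    rw [this]
    exact LinearEquiv.finrank_eq (Submodule.comapSubtypeEquivOfLe hNM)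
  have hr := LinearMap.finrank_range_add_finrank_ker f
  have hr1 : finrank k (LinearMap.range f) ≤ 1 := by omega
  have hli : LinearIndependent k ![f ⟨x, hx⟩, f ⟨y, hy⟩] := by
    rw [LinearIndependent.pair_iff]
    intro a b hab
    by_contra h0
    have h1 : a ≠ 0 ∨ b ≠ 0 := by
      by_contra h2
      push Not at h2
      exact h0 h2
    refine hcon a b h1 ?_
    have h3 : f (a • ⟨x, hx⟩ + b • ⟨y, hy⟩) = 0 := by
      rw [map_add, map_smul, map_smul]; exact hab
    have h4 : (⟨a • x + b • y, M.add_mem (M.smul_mem a hx) (M.smul_mem b hy)⟩ : M)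
        ∈ LinearMap.ker f := h3
    exact (Submodule.Quotient.mk_eq_zero N).mp (LinearMap.mem_ker.mp h4)
  have hli' : LinearIndependent k
      (![⟨f ⟨x, hx⟩, ⟨_, rfl⟩⟩, ⟨f ⟨y, hy⟩, ⟨_, rfl⟩⟩] : Fin 2 → LinearMap.range f) := by
    refine LinearIndependent.of_comp (LinearMap.range f).subtype ?_
    convert hli using 1
    ext i
    fin_cases i <;> rfl
  have := hli'.fintype_card_le_finrank
  simp at this
  omega

/-- `M` is of type A on `N`. -/
def TypeA (M : Submodule k (V → Vec k)) (p : V → Vec k) (N : Finset V) : Prop :=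
  ∀ c : V → k, ∑ i ∈ N, c i • p i = 0 → ∀ Z ∈ M, ∑ i ∈ N, c i • Z i = 0

/-- `M` is a star on `N`: all but one vertex of `N` move rigidly. -/
def StarType (M : Submodule k (V → Vec k)) (p : V → Vec k) (N : Finset V) : Prop :=
  ∃ i ∈ N, RigidOn M ((N : Set V) \ {i}) p

/-- `M` is of type B on `N` with rod `d e` and ratio `t`. -/
structure TypeB [DecidableEq V] (M : Submodule k (V → Vec k)) (p : V → Vec k) (N : Finset V)
    (d e : V) (t : k) : Prop where
  hd : d ∈ N
  he : e ∈ N
  hde : d ≠ e
  ht : t ≠ 0
  body : RigidOn M ((N : Set V) \ {d, e}) p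
  rod : ∀ Z ∈ M, eps p d e Z = 0
  ratio : ∀ Z ∈ M, ∀ i ∈ N, i ≠ d → i ≠ e → eps p i e Z = t * eps p i d Z
  dep : ∀ μ : V → k, ∑ i ∈ N, μ i • p i = 0 → ∀ Z ∈ M,
    ∑ i ∈ N \ {d, e}, μ i * eps p i d Z = 0
  gen : ∀ μ : V → k, IsDep p N μ → μ d + t * μ e ≠ 0

/-- the polynomial identity expressing badness -/
lemma bad_identity [Infinite k] (h2 : (2 : k) ≠ 0) {M : Submodule k (V → Vec k)}
    [FiniteDimensional k M] {p : V → Vec k} {N : Finset V}
    (hN : Spans p N) {μ : V → k} (hμ : IsDep p N μ) (hbad : Bad M p N)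
    {Z Z' : V → Vec k} (hZ : Z ∈ M) (hZ' : Z' ∈ M) (l : V → k) :
    frm p N Z l l * frm p N Z' μ l = frm p N Z' l l * frm p N Z μ l := by
  have key : ∀ᶠ l in gen k (V → k),
      frm p N Z l l * frm p N Z' μ l - frm p N Z' l l * frm p N Z μ l = 0 := by
    filter_upwards [eventually_coeff hN hbad] with l hl
    obtain ⟨a, b, hab, hmem⟩ := exists_comb inf_le_left hl hZ hZ'
    have h3 := (mem_Att_five h2 hN hμ l _).mp hmem.2
    have e1 : ∀ c c' : V → k, frm p N (a • Z + b • Z') c c'
        = a * frm p N Z c c' + b * frm p N Z' c c' := by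
      intro c c'
      have := congrArg (fun B : (V → k) →ₗ[k] (V → k) →ₗ[k] k => B c c')
        (map_add (frmL p N) (a • Z) (b • Z'))
      simp only [map_smul, frmL_apply, LinearMap.add_apply, LinearMap.smul_apply,
        smul_eq_mul] at this
      exact this
    rw [e1, e1] at h3
    obtain ⟨h4, h5⟩ := h3
    rcases hab with ha | hb
    · have : a * (frm p N Z l l * frm p N Z' μ l - frm p N Z' l l * frm p N Z μ l) = 0 := by
        linear_combination frm p N Z' μ l * h5 - frm p N Z' l l * h4
      exact (mul_eq_zero.mp this).resolve_left ha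
    · have : b * (frm p N Z l l * frm p N Z' μ l - frm p N Z' l l * frm p N Z μ l) = 0 := by
        linear_combination frm p N Z l l * h4 - frm p N Z μ l * h5
      exact (mul_eq_zero.mp this).resolve_left hb
  have hpl : PolyLine k (fun l =>
      frm p N Z l l * frm p N Z' μ l - frm p N Z' l l * frm p N Z μ l) :=
    ((polyLine_bilin _).mul (PolyLine.linear _)).sub ((polyLine_bilin _).mul (PolyLine.linear _))
  have := hpl.eq_zero_of_eventually key l
  linear_combination this

/-- **Classification of bad 5-sets** (`dim K|_N ≥ 2`): type A, star, or type B. -/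
theorem bad_classification [Infinite k] [DecidableEq V] (h2 : (2 : k) ≠ 0)
    {M : Submodule k (V → Vec k)}
    [FiniteDimensional k M] {p : V → Vec k} {N : Finset V} (hcard : N.card = 5)
    (hgp : GenPos p (N : Set V)) (hM : ∀ Z ∈ M, ∀ v ∈ N, Z v ⬝ᵥ p v = 0)
    (hbad : Bad M p N)
    (hdim : ∀ Z₀ ∈ M, ∃ Z ∈ M, ∀ c : k, ∃ a ∈ N, ∃ b ∈ N, eps p a b Z ≠ c * eps p a b Z₀) :
    TypeA M p N ∨ StarType M p N ∨ ∃ d e t, TypeB M p N d e t := by
  classical
  have hN : Spans p N := hgp.spans (by omega)
  obtain ⟨μ, hμ⟩ := exists_isDep hgp hcard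
  -- apply the classification of form spaces
  have hcl := Forms.classify (k := k) (E := V → k) h2 μ (M.map (frmL p N)) ?_ ?_ ?_ ?_
  rotate_left
  · rintro _ ⟨Z, _, rfl⟩ x y
    exact frm_symm p N Z x y
  · rintro _ ⟨Z, _, rfl⟩
    rw [frmL_apply, frm_dep p N Z μ μ hμ.sum_eq, hμ.sum_eq]
    simp
  · rintro _ ⟨Z, hZ, rfl⟩ _ ⟨Z', hZ', rfl⟩ l
    exact bad_identity h2 hN hμ hbad hZ hZ' l
  · rintro _ ⟨Z₀, hZ₀, rfl⟩
    obtain ⟨Z, hZ, hne⟩ := hdim Z₀ hZ₀
    refine ⟨frmL p N Z, ⟨Z, hZ, rfl⟩, fun c hc => ?_⟩
    obtain ⟨a, ha, b, hb, hab⟩ := hne c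
    apply hab
    have := congrArg (fun B : (V → k) →ₗ[k] (V → k) →ₗ[k] k =>
      B (Pi.single a 1) (Pi.single b 1)) hc
    simpa [frm_single p _ ha hb] using this
  rcases hcl with hA | ⟨s, hs, hsl, hsp⟩
  · -- type A
    left
    intro c hc Z hZ
    obtain ⟨r, hr⟩ := hμ.unique c hc
    have h1 : ∀ x : Vec k, (∑ i ∈ N, μ i • Z i) ⬝ᵥ x = 0 := by
      intro x
      obtain ⟨l, rfl⟩ := hN x
      have := hA _ ⟨Z, hZ, rfl⟩ l
      rw [frmL_apply, frm_dep p N Z μ l hμ.sum_eq] at this
      rw [sum_dotProduct]
      simpa [smul_dotProduct] using this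
    have h3 : ∑ i ∈ N, μ i • Z i = 0 := by
      ext j
      simpa using h1 (Pi.single j 1)
    have h4 : ∑ i ∈ N, c i • Z i = r • ∑ i ∈ N, μ i • Z i := by
      rw [Finset.smul_sum]
      refine Finset.sum_congr rfl fun i hi => ?_
      rw [hr i hi, mul_smul]
    rw [h4, h3, smul_zero]
  · -- product type
    right
    let S : V → k := fun v => s (Pi.single v 1)
    let n : (V → Vec k) → V → k := fun Z v => frm p N Z μ (Pi.single v 1)
    have heps : ∀ Z ∈ M, ∀ a ∈ N, ∀ b ∈ N, 2 * eps p a b Z = S a * n Z b + S b * n Z a := by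
      intro Z hZ a ha b hb
      have := hsp _ ⟨Z, hZ, rfl⟩ (Pi.single a 1) (Pi.single b 1)
      rw [frmL_apply, frm_single p Z ha hb] at this
      exact this
    have hdiag : ∀ Z ∈ M, ∀ a ∈ N, S a * n Z a = 0 := by
      intro Z hZ a ha
      have h3 := heps Z hZ a ha a ha
      have h4 : eps p a a Z = 0 := by rw [eps_apply, hM Z hZ a ha, add_zero]
      rw [h4] at h3
      have : (2 : k) * (S a * n Z a) = 0 := by linear_combination -h3
      exact (mul_eq_zero.mp this).resolve_left h2
    -- sum μ_i S_i = 2
    have hout : ∀ Z, ∀ v, v ∉ N → n Z v = 0 := by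
      intro Z v hv
      show frm p N Z μ (Pi.single v 1) = 0
      rw [frm_apply]
      refine Finset.sum_eq_zero fun i _ => Finset.sum_eq_zero fun j hj => ?_
      have : j ≠ v := fun h => hv (h ▸ hj)
      simp [this]
    -- n is additive / linear evaluation on combinations
    have hnl : ∀ Z, ∀ l : V → k, frm p N Z μ l = ∑ j ∈ N, l j * n Z j := by
      intro Z l
      rw [frm_apply, Finset.sum_comm]
      refine Finset.sum_congr rfl fun j hj => ?_
      show _ = l j * frm p N Z μ (Pi.single j 1)
      rw [frm_apply, Finset.mul_sum]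
      refine Finset.sum_congr rfl fun i _ => ?_
      rw [Finset.sum_eq_single j]
      · simp; ring
      · intro b _ hb; simp [hb]
      · exact fun h => absurd hj h
    have hnμ : ∀ Z ∈ M, ∑ j ∈ N, μ j * n Z j = 0 := by
      intro Z hZ
      rw [← hnl]
      rw [frm_dep p N Z μ μ hμ.sum_eq, hμ.sum_eq]
      simp
    -- some Z with n Z ≠ 0
    obtain ⟨Z₁, hZ₁, -⟩ := hdim 0 M.zero_mem
    have hex : ∀ Z₀ ∈ M, ∃ Z ∈ M, ∀ c : k, ∃ j ∈ N, n Z j ≠ c * n Z₀ j := by
      intro Z₀ hZ₀
      obtain ⟨Z, hZ, hne⟩ := hdim Z₀ hZ₀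
      refine ⟨Z, hZ, fun c => ?_⟩
      obtain ⟨a, ha, b, hb, hab⟩ := hne c
      by_contra hcon
      push Not at hcon
      apply hab
      have e1 := heps Z hZ a ha b hb
      have e2 := heps Z₀ hZ₀ a ha b hb
      rw [hcon a ha, hcon b hb] at e1
      have : (2 : k) * (eps p a b Z - c * eps p a b Z₀) = 0 := by linear_combination e1 - c * e2
      have := (mul_eq_zero.mp this).resolve_left h2
      linear_combination this
    -- restriction: s μ = ∑ μ S
    have hsum : ∑ j ∈ N, μ j * S j = 2 := by
      -- use the polarised identity with l = μ restricted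
      obtain ⟨Z, hZ, hne⟩ := hex 0 M.zero_mem
      obtain ⟨j, hj, hnj⟩ := hne 0
      have hnj' : n Z j ≠ 0 := by simpa using hnj
      let μ' : V → k := fun v => if v ∈ N then μ v else 0
      have h3 := hsp _ ⟨Z, hZ, rfl⟩ μ' (Pi.single j 1)
      rw [frmL_apply] at h3
      have h4 : frm p N Z μ' (Pi.single j 1) = n Z j := by
        show _ = frm p N Z μ (Pi.single j 1)
        rw [frm_apply, frm_apply]
        refine Finset.sum_congr rfl fun i hi => ?_
        simp [μ', hi]
      have h5 : frm p N Z μ μ' = 0 := by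
        rw [hnl, ← hnμ Z hZ]
        refine Finset.sum_congr rfl fun i hi => ?_
        simp [μ', hi]
      have h6 : s μ' = ∑ j ∈ N, μ j * S j := by
        have : μ' = ∑ j ∈ N, μ j • (Pi.single j 1 : V → k) := by
          ext v
          by_cases hv : v ∈ N
          · rw [Finset.sum_apply, Finset.sum_eq_single v]
            · simp [μ', hv]
            · intro b _ hb; simp [Ne.symm hb]
            · exact fun h => absurd hv h
          · rw [Finset.sum_apply, Finset.sum_eq_zero]
            · simp [μ', hv]
            · intro b hb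
              have : v ≠ b := fun h => hv (h ▸ hb)
              simp [this]
        rw [this, map_sum]
        simp only [map_smul, smul_eq_mul, S]
      rw [h4, h5, h6] at h3
      have h7 : (2 - ∑ j ∈ N, μ j * S j) * n Z j = 0 := by
        have e3 : frm p N Z μ (Pi.single j 1) = n Z j := rfl
        rw [e3] at h3
        linear_combination h3
      have := (mul_eq_zero.mp h7).resolve_right hnj'
      linear_combination -this
    -- the support of S
    let I : Finset V := N.filter fun v => S v ≠ 0
    have hIne : I.Nonempty := by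
      by_contra hcon
      rw [Finset.not_nonempty_iff_eq_empty] at hcon
      have : ∑ j ∈ N, μ j * S j = 0 := by
        refine Finset.sum_eq_zero fun j hj => ?_
        have : j ∉ I := by rw [hcon]; simp
        have : S j = 0 := by
          by_contra h0
          exact this (Finset.mem_filter.mpr ⟨hj, h0⟩)
        rw [this, mul_zero]
      rw [hsum] at this
      exact h2 this
    have hnI : ∀ Z ∈ M, ∀ j ∈ I, n Z j = 0 := by
      intro Z hZ j hj
      have hj' := Finset.mem_filter.mp hj
      exact (mul_eq_zero.mp (hdiag Z hZ j hj'.1)).resolve_left hj'.2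
    -- |N \ I| ≥ 3
    have hJcard : 3 ≤ (N \ I).card := by
      by_contra hlt
      push Not at hlt
      -- then all n Z are proportional to one vector
      have hprop : ∃ Z₀ ∈ M, ∀ Z ∈ M, ∃ c : k, ∀ j ∈ N, n Z j = c * n Z₀ j := by
        by_cases hall : ∀ Z ∈ M, ∀ j ∈ N, n Z j = 0
        · exact ⟨0, M.zero_mem, fun Z hZ => ⟨0, fun j hj => by rw [hall Z hZ j hj, zero_mul]⟩⟩
        · push Not at hall
          obtain ⟨Z₀, hZ₀, a, ha, hna⟩ := hall
          have haI : a ∉ I := fun h => hna (hnI Z₀ hZ₀ a h)
          refine ⟨Z₀, hZ₀, fun Z hZ => ⟨n Z a / n Z₀ a, ?_⟩⟩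
          -- at most one other index b
          have hrest : ∀ j ∈ (N \ I).erase a, ∀ j' ∈ (N \ I).erase a, j = j' := by
            have : ((N \ I).erase a).card ≤ 1 := by
              rw [Finset.card_erase_of_mem (by simp [ha, haI])]; omega
            rw [Finset.card_le_one] at this
            exact this
          have hsumJ : ∀ Y ∈ M, μ a * n Y a + ∑ j ∈ (N \ I).erase a, μ j * n Y j = 0 := by
            intro Y hY
            rw [Finset.add_sum_erase (N \ I) (fun j => μ j * n Y j) (by simp [ha, haI])]
            rw [← hnμ Y hY]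
            refine Finset.sum_subset Finset.sdiff_subset fun j hj hj' => ?_
            have : j ∈ I := by
              by_contra h; exact hj' (by simp [hj, h])
            rw [hnI Y hY j this, mul_zero]
          intro j hj
          by_cases hjI : j ∈ I
          · rw [hnI Z hZ j hjI, hnI Z₀ hZ₀ j hjI, mul_zero]
          by_cases hja : j = a
          · subst hja
            field_simp
          · have hjr : j ∈ (N \ I).erase a := by simp [hja, hj, hjI]
            have hsing : (N \ I).erase a = {j} := by
              ext j'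
              simp only [Finset.mem_singleton]
              exact ⟨fun h => hrest _ h _ hjr, fun h => h ▸ hjr⟩
            have e1 := hsumJ Z hZ
            have e2 := hsumJ Z₀ hZ₀
            rw [hsing, Finset.sum_singleton] at e1 e2
            have hμj := hμ.ne_zero j hj
            have : μ j * (n Z j - n Z a / n Z₀ a * n Z₀ j) = 0 := by
              field_simp
              linear_combination n Z₀ a * e1 - n Z a * e2
            have := (mul_eq_zero.mp this).resolve_left hμj
            linear_combination this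
      obtain ⟨Z₀, hZ₀, hp0⟩ := hprop
      obtain ⟨Z, hZ, hne⟩ := hex Z₀ hZ₀
      obtain ⟨c, hc⟩ := hp0 Z hZ
      obtain ⟨j, hj, hj'⟩ := hne c
      exact hj' (hc j hj)
    have hIsub : I ⊆ N := Finset.filter_subset _ _
    have hIcard : I.card ≤ 2 := by
      have := Finset.card_sdiff_add_card_eq_card hIsub
      omega
    have hS0 : ∀ v ∈ N, v ∉ I → S v = 0 := by
      intro v hv hvI
      by_contra h0
      exact hvI (Finset.mem_filter.mpr ⟨hv, h0⟩)
    rcases Nat.lt_or_ge I.card 2 with hlt | hge
    · -- star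
      left
      have h1 : I.card = 1 := by
        have := Finset.card_pos.mpr hIne
        omega
      obtain ⟨i, hi⟩ := Finset.card_eq_one.mp h1
      have hiI : i ∈ I := by rw [hi]; simp
      refine ⟨i, hIsub hiI, ?_⟩
      intro a ha b hb Z hZ
      have ha1 : a ∈ N := by simpa using ha.1
      have hb1 : b ∈ N := by simpa using hb.1
      have ha2 : a ∉ I := by rw [hi]; simpa using ha.2
      have hb2 : b ∉ I := by rw [hi]; simpa using hb.2
      have := heps Z hZ a ha1 b hb1
      rw [hS0 a ha1 ha2, hS0 b hb1 hb2, zero_mul, zero_mul, add_zero] at this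
      exact (mul_eq_zero.mp this).resolve_left h2
    · -- type B
      right
      have h1 : I.card = 2 := le_antisymm hIcard hge
      obtain ⟨d, e, hde, hI⟩ := Finset.card_eq_two.mp h1
      have hdI : d ∈ I := by rw [hI]; simp
      have heI : e ∈ I := by rw [hI]; simp
      have hd := Finset.mem_filter.mp hdI
      have he := Finset.mem_filter.mp heI
      have hnotI : ∀ i, i ∉ I ↔ i ≠ d ∧ i ≠ e := by
        intro i; rw [hI]; simp
      refine ⟨d, e, S e / S d, hd.1, he.1, hde, div_ne_zero he.2 hd.2, ?_, ?_, ?_, ?_, ?_⟩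
      · intro a ha b hb Z hZ
        have ha1 : a ∈ N := by simpa using ha.1
        have hb1 : b ∈ N := by simpa using hb.1
        have ha2 : a ∉ I := by rw [hI]; simpa using ha.2
        have hb2 : b ∉ I := by rw [hI]; simpa using hb.2
        have := heps Z hZ a ha1 b hb1
        rw [hS0 a ha1 ha2, hS0 b hb1 hb2, zero_mul, zero_mul, add_zero] at this
        exact (mul_eq_zero.mp this).resolve_left h2
      · intro Z hZ
        have := heps Z hZ d hd.1 e he.1
        rw [hnI Z hZ d hdI, hnI Z hZ e heI, mul_zero, mul_zero, add_zero] at this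
        exact (mul_eq_zero.mp this).resolve_left h2
      · intro Z hZ i hi hid hie
        have hiI : i ∉ I := (hnotI i).mpr ⟨hid, hie⟩
        have e1 := heps Z hZ i hi e he.1
        have e2 := heps Z hZ i hi d hd.1
        rw [hS0 i hi hiI, zero_mul, zero_add] at e1 e2
        have hSd := hd.2
        have : (2 : k) * (eps p i e Z - S e / S d * eps p i d Z) = 0 := by
          have : S d * ((2 : k) * (eps p i e Z - S e / S d * eps p i d Z)) = 0 := by
            field_simp
            linear_combination S d * e1 - S e * e2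
          exact (mul_eq_zero.mp this).resolve_left hSd
        have := (mul_eq_zero.mp this).resolve_left h2
        linear_combination this
      · intro c hc Z hZ
        obtain ⟨r, hr⟩ := hμ.unique c hc
        have e3 := hnμ Z hZ
        have e4 : ∀ i ∈ N \ {d, e}, (2 : k) * (c i * eps p i d Z)
            = r * S d * (μ i * n Z i) := by
          intro i hi
          rw [← hI] at hi
          have hi' := Finset.mem_sdiff.mp hi
          have e2 := heps Z hZ i hi'.1 d hd.1
          rw [hS0 i hi'.1 hi'.2, zero_mul, zero_add] at e2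
          rw [hr i hi'.1]
          linear_combination r * μ i * e2
        have e6 : ∑ i ∈ N \ {d, e}, μ i * n Z i = 0 := by
          rw [← e3, ← hI]
          refine Finset.sum_subset Finset.sdiff_subset fun j hj hj' => ?_
          have : j ∈ I := by
            by_contra h; exact hj' (by simp [hj, h])
          rw [hnI Z hZ j this, mul_zero]
        have e5 : (2 : k) * ∑ i ∈ N \ {d, e}, c i * eps p i d Z = 0 := by
          rw [Finset.mul_sum, Finset.sum_congr rfl e4, ← Finset.mul_sum, e6, mul_zero]
        exact (mul_eq_zero.mp e5).resolve_left h2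
      · intro ν hν h0
        obtain ⟨r, hr⟩ := hμ.unique ν hν.sum_eq
        have hr0 : r ≠ 0 := by
          rintro rfl
          apply hν.ne_zero d hd.1
          rw [hr d hd.1, zero_mul]
        have e1 : ∑ j ∈ N, μ j * S j = μ d * S d + μ e * S e := by
          rw [← Finset.sum_pair hde (f := fun j => μ j * S j), ← hI]
          refine (Finset.sum_subset hIsub fun j hj hj' => ?_).symm
          rw [hS0 j hj hj', mul_zero]
        rw [hr d hd.1, hr e he.1] at h0
        rw [hsum] at e1
        apply h2
        have hSd := hd.2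
        have h3 : r * (μ d * S d + μ e * S e) = 0 := by
          have : S d * (r * μ d + S e / S d * (r * μ e)) = 0 := by rw [h0, mul_zero]
          field_simp at this
          linear_combination this
        rw [← e1] at h3
        exact (mul_eq_zero.mp h3).resolve_left hr0

end GR
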