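import Pool.Agent.Lib.GR.Triv
import Pool.Agent.Lib.GR.Class

/-!
# Complete graphs are rigid; gauges; quadrics; flows; invariance
-/

set_option linter.unusedSectionVars false

namespace GR

open Filter Module

open scoped Matrix

variable {k : Type*} [Field k] {V : Type*} [DecidableEq V]

lemma KK_mono {N N' : Set V} (h : N ⊆ N') : KK N ⊆ KK N' := fun _ he => ⟨he.1, fun v hv =>
  h (he.2 v hv)⟩

lemma nbr_KK {A : Finset V} {u : V} (hu : u ∉ A) :
    nbr A (KK (insert u A : Set V)) u = A := by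
  ext v
  rw [mem_nbr, mk_mem_KK]
  constructor
  · exact fun h => h.1
  · intro h
    refine ⟨h, ?_, by simp, by simp [h]⟩
    rintro rfl
    exact hu h

lemma mdim_le_of_edges {A : Finset V} {E E' : Set (Sym2 V)} (h : E ⊆ E') (p : V → Vec k) :
    mdim A E' p ≤ mdim A E p :=
  Submodule.finrank_mono (Mot_anti h p)

/-- **Complete graphs on at least three points in general position are rigid.** -/
theorem mdim_complete {A : Finset V} {p : V → Vec k} (hp : GenPos p (A : Set V))
    (hA : 3 ≤ A.card) : mdim A (KK (A : Set V)) p = 6 := by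
  classical
  -- small cases by explicit attaching, large by induction
  have key : ∀ n : ℕ, ∀ A : Finset V, A.card = n → GenPos p (A : Set V) →
      mdim A (KK (A : Set V)) p = if n = 0 then 0 else if n = 1 then 3 else if n = 2 then 5 else 6 := by
    intro n
    induction n with
    | zero =>
      intro A hA _
      rw [Finset.card_eq_zero] at hA
      subst hA
      have : Mot (∅ : Finset V) (KK ((∅ : Finset V) : Set V)) p = ⊥ := by
        rw [eq_bot_iff]
        intro Z hZ
        rw [Submodule.mem_bot]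
        ext v : 1
        exact hZ.1 v (by simp)
      unfold mdim
      rw [this]
      simp
    | succ n ih =>
      intro A hA hp
      obtain ⟨u, hu⟩ : A.Nonempty := Finset.card_pos.mp (by omega)
      obtain ⟨B, huB, rfl⟩ : ∃ B, u ∉ B ∧ insert u B = A :=
        ⟨A.erase u, Finset.notMem_erase u A, Finset.insert_erase hu⟩
      have hBc : B.card = n := by
        rw [Finset.card_insert_of_notMem huB] at hA; omega
      have hpB : GenPos p (B : Set V) := hp.mono (by simp)
      have ihB := ih B hBc hpB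
      have hn : nbr B (KK ((insert u B : Finset V) : Set V)) u = B := by
        rw [Finset.coe_insert]; exact nbr_KK huB
      have hcongr : mdim B (KK ((insert u B : Finset V) : Set V)) p = mdim B (KK (B : Set V)) p := by
        unfold mdim
        rw [Mot_congr p]
        intro a ha b hb
        rw [mk_mem_KK, mk_mem_KK]
        simp only [Finset.coe_insert, Set.mem_insert_iff, Finset.mem_coe]
        constructor
        · exact fun h => ⟨h.1, ha, hb⟩
        · exact fun h => ⟨h.1, Or.inr h.2.1, Or.inr h.2.2⟩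
      by_cases h3 : n ≤ 3
      · have h4 := mdim_insert_of_le_three huB (KK ((insert u B : Finset V) : Set V)) p
          (by rw [hn]; simpa using hp) (by rw [hn]; omega)
        rw [hn, hBc, hcongr, ihB] at h4
        interval_cases n <;> simp at h4 ⊢ <;> omega
      · push Not at h3
        have h4 := mdim_insert_of_four_le huB (KK ((insert u B : Finset V) : Set V)) p
          (by rw [hn]; exact hpB) (by rw [hn]; omega)
        have h5 : finrank k (Mot B (KK ((insert u B : Finset V) : Set V)) p ⊓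
            Att p (nbr B (KK ((insert u B : Finset V) : Set V)) u : Set V) (p u) :
              Submodule k (V → Vec k)) ≤ 6 := by
          have h6 : mdim B (KK (B : Set V)) p = 6 := by
            rw [ihB, if_neg (by omega), if_neg (by omega), if_neg (by omega)]
          rw [← h6, ← hcongr]
          exact Submodule.finrank_mono inf_le_left
        have h7 := six_le_mdim (KK ((insert u B : Finset V) : Set V)) hp (by omega)
        rw [if_neg (by omega), if_neg (by omega), if_neg (by omega)]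
        omega
  have := key A.card A rfl hp
  rw [this, if_neg (by omega), if_neg (by omega), if_neg (by omega)]

/-- The motions of a rigid graph are trivial. -/
theorem exists_skew_of_rigid {N : Finset V} {p Z : V → Vec k} (hp : GenPos p (N : Set V))
    (hN : 3 ≤ N.card) (hl : ∀ v ∈ N, Z v ⬝ᵥ p v = 0)
    (hr : ∀ a ∈ N, ∀ b ∈ N, eps p a b Z = 0) :
    ∃ L ∈ Skew k, ∀ v ∈ N, Z v = L *ᵥ p v := by
  classical
  let f : Skew k →ₗ[k] Mot N (KK (N : Set V)) p :=
    ((triv N p).domRestrict (Skew k)).codRestrict (Mot N (KK (N : Set V)) p)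
      (fun L => triv_mem_Mot N _ p L.2)
  have hf : Function.Injective f := by
    obtain ⟨T, hTA, hT⟩ := Finset.exists_subset_card_eq hN
    have hli := hp T (by simpa using hTA) (by omega)
    rw [← LinearMap.ker_eq_bot, LinearMap.ker_eq_bot']
    intro L hL
    have h0 : triv N p L.1 = 0 := congrArg Subtype.val hL
    have : L.1 = 0 := by
      refine skew_eq_zero L.2 hli (by simp [hT]) fun i => ?_
      have := congrFun h0 i
      rwa [triv_apply p L.1 (hTA i.2)] at this
    exact Subtype.ext this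
  have hdim : finrank k (Skew k) = finrank k (Mot N (KK (N : Set V)) p) := by
    rw [finrank_Skew]
    exact (mdim_complete hp hN).symm
  have hsur : Function.Surjective f :=
    (LinearMap.injective_iff_surjective_of_finrank_eq_finrank hdim).mp hf
  have hmem : cut k N Z ∈ Mot N (KK (N : Set V)) p := by
    refine ⟨fun v hv => cut_apply_notMem Z hv, fun v hv => ?_, fun a ha b hb _ => ?_⟩
    · rw [cut_apply Z hv]; exact hl v hv
    · rw [eps_cut p Z ha hb]; exact hr a ha b hb
  obtain ⟨L, hL⟩ := hsur ⟨_, hmem⟩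
  refine ⟨L.1, L.2, fun v hv => ?_⟩
  have h1 : triv N p L.1 = cut k N Z := congrArg Subtype.val hL
  have h2 := congrFun h1 v
  rw [triv_apply p _ hv, cut_apply Z hv] at h2
  exact h2.symm

/-- Type A motions are given by one matrix: `Z i = B p_i` on `N`. -/
theorem TypeA.exists_matrix {M : Submodule k (V → Vec k)} {p : V → Vec k} {N : Finset V}
    (h : TypeA M p N) (hN : Spans p N) {Z : V → Vec k} (hZ : Z ∈ M) :
    ∃ B : Matrix (Fin 4) (Fin 4) k, ∀ i ∈ N, Z i = B *ᵥ p i := by
  classical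
  let P : (V → k) →ₗ[k] Vec k :=
      { toFun := fun c => ∑ i ∈ N, c i • p i
        map_add' := fun c c' => by simp [add_smul, Finset.sum_add_distrib]
        map_smul' := fun a c => by simp [mul_smul, Finset.smul_sum] }
  let G : (V → k) →ₗ[k] Vec k :=
      { toFun := fun c => ∑ i ∈ N, c i • Z i
        map_add' := fun c c' => by simp [add_smul, Finset.sum_add_distrib]
        map_smul' := fun a c => by simp [mul_smul, Finset.smul_sum] }
  obtain ⟨g, hg⟩ := P.exists_rightInverse_of_surjective (LinearMap.range_eq_top.mpr fun y => hN y)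
  refine ⟨LinearMap.toMatrix' (G ∘ₗ g), fun i hi => ?_⟩
  rw [LinearMap.toMatrix'_mulVec, LinearMap.comp_apply]
  have hs : ∀ w : V → Vec k, ∑ j ∈ N, (Pi.single i 1 : V → k) j • w j = w i := by
    intro w
    rw [Finset.sum_eq_single i]
    · simp
    · intro j _ hj; simp [hj]
    · exact fun h => absurd hi h
  have h3 : P (g (p i) - Pi.single i 1) = 0 := by
    rw [map_sub]
    have h4 : P (g (p i)) = p i := by
      have := LinearMap.congr_fun hg (p i)
      simpa using this
    have h5 : P (Pi.single i 1) = p i := hs p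
    rw [h4, h5, sub_self]
  have h6 : G (g (p i) - Pi.single i 1) = 0 := h _ h3 Z hZ
  rw [map_sub, sub_eq_zero] at h6
  rw [h6]
  exact (hs Z).symm

/-- Type A motions in the symmetric gauge: `Z i = L p_i + H p_i`, `L` skew and `H` symmetric with
`p_iᵀ H p_i = 0`. -/
theorem TypeA.exists_symm {M : Submodule k (V → Vec k)} {p : V → Vec k} {N : Finset V}
    (h2 : (2 : k) ≠ 0)
    (h : TypeA M p N) (hN : Spans p N) {Z : V → Vec k} (hZ : Z ∈ M)
    (hl : ∀ v ∈ N, Z v ⬝ᵥ p v = 0) :
    ∃ L ∈ Skew k, ∃ H : Matrix (Fin 4) (Fin 4) k, Hᵀ = H ∧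
      (∀ i ∈ N, Z i = L *ᵥ p i + H *ᵥ p i) ∧ ∀ i ∈ N, (H *ᵥ p i) ⬝ᵥ p i = 0 := by
  obtain ⟨B, hB⟩ := h.exists_matrix hN hZ
  have hLS : (2 : k)⁻¹ • (B - Bᵀ) ∈ Skew k := by
    apply Skew.mem_of_transpose h2
    rw [Matrix.transpose_smul, Matrix.transpose_sub, Matrix.transpose_transpose, ← smul_neg,
      neg_sub]
  have hsum : ∀ x, B *ᵥ x = ((2 : k)⁻¹ • (B - Bᵀ)) *ᵥ x + ((2 : k)⁻¹ • (B + Bᵀ)) *ᵥ x := by
    intro x
    rw [← Matrix.add_mulVec]
    congr 1
    ext i j
    simp only [Matrix.add_apply, Matrix.smul_apply, Matrix.sub_apply, smul_eq_mul]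
    field_simp
    ring
  refine ⟨_, hLS, (2 : k)⁻¹ • (B + Bᵀ), ?_, fun i hi => ?_, fun i hi => ?_⟩
  · rw [Matrix.transpose_smul, Matrix.transpose_add, Matrix.transpose_transpose, add_comm]
  · rw [hB i hi, hsum]
  · have h3 := hl i hi
    rw [hB i hi, hsum, add_dotProduct, Skew.dot_self hLS, zero_add] at h3
    exact h3

/-- **Type B motions in the gauge of the body.** -/
theorem TypeB.gauge {M : Submodule k (V → Vec k)} {p : V → Vec k} {N : Finset V}
    {d e : V} {t : k} (hB : TypeB M p N d e t) (hcard : N.card = 5)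
    (hgp : GenPos p (N : Set V)) {Z : V → Vec k} (hZ : Z ∈ M)
    (hl : ∀ v ∈ N, Z v ⬝ᵥ p v = 0) :
    ∃ L ∈ Skew k, (∀ i ∈ N, i ≠ d → i ≠ e → Z i = L *ᵥ p i) ∧
      Z e - L *ᵥ p e = t • (Z d - L *ᵥ p d) ∧
      (Z d - L *ᵥ p d) ⬝ᵥ p d = 0 ∧ (Z d - L *ᵥ p d) ⬝ᵥ p e = 0 := by
  classical
  obtain ⟨hd, he, hde, ht, hbody, hrod, hratio, hdep, hgen⟩ := hB
  have hTc : (N \ {d, e}).card = 3 := by
    rw [Finset.card_sdiff_of_subset (by intro x; simp; rintro (rfl | rfl) <;> assumption),
      Finset.card_pair hde, hcard]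
  have hTsub : N \ {d, e} ⊆ N := Finset.sdiff_subset
  obtain ⟨L, hL, hLT⟩ := exists_skew_of_rigid (N := N \ {d, e}) (p := p) (Z := Z)
    (hgp.mono (by simp)) hTc.ge (fun v hv => hl v (hTsub hv))
    (fun a ha b hb => hbody a (by
      have := Finset.mem_sdiff.mp ha
      exact ⟨by simpa using this.1, by simpa using this.2⟩) b (by
      have := Finset.mem_sdiff.mp hb
      exact ⟨by simpa using this.1, by simpa using this.2⟩) Z hZ)
  have hLT' : ∀ i ∈ N, i ≠ d → i ≠ e → Z i = L *ᵥ p i := fun i hi h1 h2 =>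
    hLT i (by simp [hi, h1, h2])
  -- the gauged motion
  set X : V → Vec k := fun v => Z v - L *ᵥ p v with hX
  have hXeps : ∀ a b, X a ⬝ᵥ p b + X b ⬝ᵥ p a = eps p a b Z := by
    intro a b
    simp only [hX, sub_dotProduct, eps_apply]
    rw [Skew.dot_eq hL (p a) (p b)]
    ring
  have hXloop : ∀ v ∈ N, X v ⬝ᵥ p v = 0 := by
    intro v hv
    simp only [hX, sub_dotProduct, hl v hv, Skew.dot_self hL, sub_zero]
  have hX0 : ∀ i ∈ N, i ≠ d → i ≠ e → X i = 0 := fun i hi h1 h2 => by
    simp only [hX, hLT' i hi h1 h2, sub_self]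
  have hXd : ∀ i ∈ N, i ≠ d → i ≠ e → X d ⬝ᵥ p i = eps p i d Z := by
    intro i hi h1 h2
    rw [← hXeps i d, hX0 i hi h1 h2, zero_dotProduct, zero_add]
  have hXe : ∀ i ∈ N, i ≠ d → i ≠ e → X e ⬝ᵥ p i = eps p i e Z := by
    intro i hi h1 h2
    rw [← hXeps i e, hX0 i hi h1 h2, zero_dotProduct, zero_add]
  have hXde : X d ⬝ᵥ p e + X e ⬝ᵥ p d = 0 := by rw [hXeps, hrod Z hZ]
  obtain ⟨μ, hμ⟩ := exists_isDep hgp hcard
  -- apply dependency to X e - t X d
  have hdiff : ∀ i ∈ N, i ≠ d → i ≠ e → (X e - t • X d) ⬝ᵥ p i = 0 := by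
    intro i hi h1 h2
    rw [sub_dotProduct, smul_dotProduct, hXe i hi h1 h2, hXd i hi h1 h2, hratio Z hZ i hi h1 h2]
    simp
  have hsumN : ∀ w : Vec k, (∀ i ∈ N, i ≠ d → i ≠ e → w ⬝ᵥ p i = 0) →
      μ d * (w ⬝ᵥ p d) + μ e * (w ⬝ᵥ p e) = 0 := by
    intro w hw
    have h1 : w ⬝ᵥ ∑ i ∈ N, μ i • p i = 0 := by rw [hμ.sum_eq, dotProduct_zero]
    rw [dotProduct_sum] at h1
    have h2 : ∑ i ∈ N, w ⬝ᵥ μ i • p i = ∑ i ∈ ({d, e} : Finset V), w ⬝ᵥ μ i • p i := by
      symm
      refine Finset.sum_subset (by intro x; simp; rintro (rfl | rfl) <;> assumption) ?_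
      intro i hi hi'
      simp only [Finset.mem_insert, Finset.mem_singleton, not_or] at hi'
      rw [dotProduct_smul, hw i hi hi'.1 hi'.2, smul_zero]
    rw [h2, Finset.sum_pair hde, dotProduct_smul, dotProduct_smul] at h1
    simpa using h1
  have h5 := hsumN _ hdiff
  simp only [sub_dotProduct, smul_dotProduct, smul_eq_mul, hXloop d hd, hXloop e he] at h5
  have h6 : (μ d + t * μ e) * (X e ⬝ᵥ p d) = 0 := by
    linear_combination h5 + t * μ e * hXde
  have h7 : X e ⬝ᵥ p d = 0 := (mul_eq_zero.mp h6).resolve_left (hgen μ hμ)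
  have h8 : X d ⬝ᵥ p e = 0 := by rw [h7, add_zero] at hXde; exact hXde
  refine ⟨L, hL, hLT', ?_, hXloop d hd, h8⟩
  -- X e - t X d vanishes on a spanning set
  show X e = t • X d
  have hN : Spans p N := hgp.spans (by omega)
  have h9 : ∀ y : Vec k, (X e - t • X d) ⬝ᵥ y = 0 := by
    intro y
    obtain ⟨c, rfl⟩ := hN y
    rw [dotProduct_sum]
    refine Finset.sum_eq_zero fun i hi => ?_
    rw [dotProduct_smul]
    by_cases hid : i = d
    · subst hid
      rw [sub_dotProduct, smul_dotProduct, h7, hXloop _ hd]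
      simp
    by_cases hie : i = e
    · subst hie
      rw [sub_dotProduct, smul_dotProduct, h8, hXloop _ he]
      simp
    rw [hdiff i hi hid hie, smul_zero]
  have h10 : X e - t • X d = 0 := by
    ext j
    simpa using h9 (Pi.single j 1)
  exact sub_eq_zero.mp h10

/-- **Flows.** A motion stays a motion along its own skew flow. -/
theorem flow_mem_Mot {A : Finset V} {E : Set (Sym2 V)} {p Z : V → Vec k} (hZ : Z ∈ Mot A E p)
    {R : Matrix (Fin 4) (Fin 4) k} (hR : R ∈ Skew k) (s : k) :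
    Z ∈ Mot A E (p + s • fun v => R *ᵥ Z v) := by
  obtain ⟨h1, h2, h3⟩ := hZ
  have hdot : ∀ x y : Vec k, x ⬝ᵥ (R *ᵥ y) = - (y ⬝ᵥ (R *ᵥ x)) := by
    intro x y
    rw [dotProduct_comm x, dotProduct_comm y]
    exact Skew.dot_eq hR y x
  refine ⟨h1, fun v hv => ?_, fun a ha b hb hab => ?_⟩
  · have := Skew.dot_self hR (Z v)
    rw [dotProduct_comm] at this
    simp [dotProduct_add, h2 v hv, this]
  · have h4 := h3 a ha b hb hab
    rw [eps_apply] at h4 ⊢
    simp only [Pi.add_apply, Pi.smul_apply, dotProduct_add, dotProduct_smul, smul_eq_mul]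
    rw [hdot (Z a) (Z b)]
    linear_combination h4

/-- strain along a flow -/
lemma eps_flow (p Z Y : V → Vec k) (R : Matrix (Fin 4) (Fin 4) k) (s : k) (a b : V) :
    eps (p + s • fun v => R *ᵥ Y v) a b Z
      = eps p a b Z + s * (Z a ⬝ᵥ (R *ᵥ Y b) + Z b ⬝ᵥ (R *ᵥ Y a)) := by
  simp only [eps_apply, Pi.add_apply, Pi.smul_apply, dotProduct_add, dotProduct_smul, smul_eq_mul]
  ring

/-- **Linear invariance**: `p ↦ g p`, `Z ↦ g'ᵀ Z` with `g' g = 1`. -/
theorem mem_Mot_linear {A : Finset V} {E : Set (Sym2 V)} {p Z : V → Vec k}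
    {g g' : Matrix (Fin 4) (Fin 4) k} (hg : g' * g = 1) (hZ : Z ∈ Mot A E p) :
    (fun v => g'ᵀ *ᵥ Z v) ∈ Mot A E (fun v => g *ᵥ p v) := by
  have hdot : ∀ x y : Vec k, (g'ᵀ *ᵥ x) ⬝ᵥ (g *ᵥ y) = x ⬝ᵥ y := by
    intro x y
    rw [Matrix.mulVec_transpose, ← Matrix.dotProduct_mulVec, Matrix.mulVec_mulVec, hg,
      Matrix.one_mulVec]
  obtain ⟨h1, h2, h3⟩ := hZ
  refine ⟨fun v hv => ?_, fun v hv => ?_, fun a ha b hb hab => ?_⟩
  · show g'ᵀ *ᵥ Z v = 0
    rw [h1 v hv, Matrix.mulVec_zero]
  · rw [hdot]; exact h2 v hv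
  · rw [eps_apply, hdot, hdot]; exact h3 a ha b hb hab

/-- **Scaling invariance**: `p_v ↦ c_v p_v`, `Z_v ↦ c_v Z_v`. -/
theorem mem_Mot_scale {A : Finset V} {E : Set (Sym2 V)} {p Z : V → Vec k}
    (c : V → k) (hZ : Z ∈ Mot A E p) :
    (fun v => c v • Z v) ∈ Mot A E (fun v => c v • p v) := by
  obtain ⟨h1, h2, h3⟩ := hZ
  refine ⟨fun v hv => ?_, fun v hv => ?_, fun a ha b hb hab => ?_⟩
  · show c v • Z v = 0
    rw [h1 v hv, smul_zero]
  · rw [smul_dotProduct, dotProduct_smul, h2 v hv, smul_zero, smul_zero]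
  · have h4 := h3 a ha b hb hab
    rw [eps_apply] at h4 ⊢
    simp only [smul_dotProduct, dotProduct_smul, smul_eq_mul]
    linear_combination c a * c b * h4

end GR
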