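import Pool.Agent.Lib.GR.Types
import Pool.Agent.Lib.GR.Gauge

/-!
# Bad 5-sets, in the form `RG`, `TA`, `TB` of `Types.lean`
-/

set_option linter.unusedSectionVars false

namespace GR

open Filter Module

open scoped Matrix

variable {k : Type*} [Field k] {V : Type*} [DecidableEq V]

lemma isSkew_of_mem_Skew {L : Matrix (Fin 4) (Fin 4) k} (hL : L ∈ Skew k) :
    IsSkew (Matrix.mulVecLin L) := fun x => by
  simpa using Skew.dot_self hL x

lemma Skew_of_isSkew {S : Vec k →ₗ[k] Vec k} (h : IsSkew S) :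
    LinearMap.toMatrix' S ∈ Skew k := by
  have e : ∀ i j, LinearMap.toMatrix' S i j = S (Pi.single j 1) ⬝ᵥ Pi.single i 1 := by
    intro i j
    rw [LinearMap.toMatrix'_apply]
    simp
  refine ⟨fun i => ?_, fun i j => ?_⟩
  · rw [e, h]
  · rw [e, e, h.swap]

/-- Rigid (loops and all strains vanish) implies `RG`. -/
theorem mem_RG_of_rigid {N : Finset V} {p Z : V → Vec k} (hp : GenPos p (N : Set V))
    (hN : 3 ≤ N.card) (hl : ∀ v ∈ N, Z v ⬝ᵥ p v = 0)
    (hr : ∀ a ∈ N, ∀ b ∈ N, eps p a b Z = 0) : Z ∈ RG p (N : Set V) := by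
  obtain ⟨L, hL, h⟩ := exists_skew_of_rigid hp hN hl hr
  exact ⟨Matrix.mulVecLin L, isSkew_of_mem_Skew hL, fun i hi => by
    rw [Matrix.mulVecLin_apply]; exact h i (by simpa using hi)⟩

/-- Conversely. -/
theorem eps_eq_zero_of_RG {N : Set V} {p Z : V → Vec k} (h : Z ∈ RG p N) {a b : V}
    (ha : a ∈ N) (hb : b ∈ N) : eps p a b Z = 0 := by
  obtain ⟨S, hS, h⟩ := h
  rw [eps_apply, h a ha, h b hb, hS.swap]
  ring

theorem loop_of_RG {N : Set V} {p Z : V → Vec k} (h : Z ∈ RG p N) {a : V}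
    (ha : a ∈ N) : Z a ⬝ᵥ p a = 0 := by
  obtain ⟨S, hS, h⟩ := h
  rw [h a ha, hS]

theorem rigidOn_iff_le_RG {N : Finset V} {p : V → Vec k} (hp : GenPos p (N : Set V))
    (hN : 3 ≤ N.card) {M : Submodule k (V → Vec k)} (hl : ∀ Z ∈ M, ∀ v ∈ N, Z v ⬝ᵥ p v = 0) :
    RigidOn M (N : Set V) p ↔ M ≤ RG p (N : Set V) := by
  constructor
  · intro h Z hZ
    exact mem_RG_of_rigid hp hN (hl Z hZ) fun a ha b hb => h a (by simpa using ha) b
      (by simpa using hb) Z hZ
  · intro h a ha b hb Z hZ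
    exact eps_eq_zero_of_RG (h hZ) ha hb

theorem mem_TA_of_TypeA {M : Submodule k (V → Vec k)} {p : V → Vec k} {N : Finset V}
    (h : TypeA M p N) (hN : Spans p N) : M ≤ TA p (N : Set V) := by
  intro Z hZ
  obtain ⟨B, hB⟩ := h.exists_matrix hN hZ
  exact ⟨Matrix.mulVecLin B, fun i hi => by
    rw [Matrix.mulVecLin_apply]; exact hB i (by simpa using hi)⟩

/-- **Classification of bad 5-sets.**  If the attaching conditions of a generic new vertex joined
to the five points of `N` have rank at most one on `M`, then: `M|N` is at most one-dimensional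
modulo rigid motions, or a 4-subset is rigid, or `M` is of type A, or of type B. -/
theorem types_of_bad [Infinite k] (h2 : (2 : k) ≠ 0) {M : Submodule k (V → Vec k)}
    [FiniteDimensional k M] {p : V → Vec k} {N : Finset V} (hcard : N.card = 5)
    (hgp : GenPos p (N : Set V)) (hM : ∀ Z ∈ M, ∀ v ∈ N, Z v ⬝ᵥ p v = 0)
    (hbad : ∀ᶠ x in gen k (Vec k),
      finrank k M ≤ finrank k (M ⊓ Att p (N : Set V) x : Submodule k (V → Vec k)) + 1) :
    finrank k M ≤ finrank k (M ⊓ RG p (N : Set V) : Submodule k (V → Vec k)) + 1 ∨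
    (∃ i ∈ N, M ≤ RG p ((N.erase i : Finset V) : Set V)) ∨
    M ≤ TA p (N : Set V) ∨
    ∃ a b c d e : V, N = {a, b, c, d, e} ∧ a ≠ b ∧ a ≠ c ∧ a ≠ d ∧ a ≠ e ∧ b ≠ c ∧ b ≠ d ∧ b ≠ e ∧
      c ≠ d ∧ c ≠ e ∧ d ≠ e ∧ ∃ t : k, t ≠ 0 ∧ M ≤ TB p a b c d e t := by
  classical
  by_cases hdim : ∀ Z₀ ∈ M, ∃ Z ∈ M, ∀ c : k, ∃ a ∈ N, ∃ b ∈ N, eps p a b Z ≠ c * eps p a b Z₀
  · right
    rcases bad_classification h2 hcard hgp hM hbad hdim with hA | ⟨i, hi, hs⟩ | ⟨d, e, t, hB⟩
    · right; left
      exact mem_TA_of_TypeA hA (hgp.spans (by omega))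
    · left
      refine ⟨i, hi, ?_⟩
      have hc4 : (N.erase i).card = 4 := by rw [Finset.card_erase_of_mem hi]; omega
      intro Z hZ
      refine mem_RG_of_rigid (hgp.mono (by simp)) (by omega)
        (fun v hv => hM Z hZ v (Finset.mem_of_mem_erase hv)) fun a ha b hb => ?_
      exact hs a (by simpa [and_comm] using ha) b (by simpa [and_comm] using hb) Z hZ
    · right; right
      have hTsub : N \ {d, e} ⊆ N := Finset.sdiff_subset
      have hTc : (N \ {d, e}).card = 3 := by
        rw [Finset.card_sdiff_of_subset (by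
          intro x; simp; rintro (rfl | rfl); exacts [hB.hd, hB.he]),
          Finset.card_pair hB.hde, hcard]
      obtain ⟨a, b, c, hab, hac, hbc, hT⟩ := Finset.card_eq_three.mp hTc
      have hmem : ∀ x ∈ N \ {d, e}, x ∈ N ∧ x ≠ d ∧ x ≠ e := by
        intro x hx
        have := Finset.mem_sdiff.mp hx
        exact ⟨this.1, by simpa using this.2⟩
      have ha := hmem a (by rw [hT]; simp)
      have hb := hmem b (by rw [hT]; simp)
      have hc := hmem c (by rw [hT]; simp)
      refine ⟨a, b, c, d, e, ?_, hab, hac, ha.2.1, ha.2.2, hbc, hb.2.1, hb.2.2, hc.2.1, hc.2.2,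
        hB.hde, t, hB.ht, ?_⟩
      · ext x
        constructor
        · intro hx
          by_cases h : x ∈ N \ {d, e}
          · rw [hT] at h
            simp only [Finset.mem_insert, Finset.mem_singleton] at h ⊢
            tauto
          · have : x = d ∨ x = e := by
              by_contra hcon
              exact h (by simp [hx]; tauto)
            simp only [Finset.mem_insert, Finset.mem_singleton]
            tauto
        · intro hx
          simp only [Finset.mem_insert, Finset.mem_singleton] at hx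
          rcases hx with rfl | rfl | rfl | rfl | rfl
          exacts [ha.1, hb.1, hc.1, hB.hd, hB.he]
      · intro Z hZ
        obtain ⟨L, hL, h1, h3, h4, h5⟩ := hB.gauge hcard hgp hZ (hM Z hZ)
        refine ⟨Matrix.mulVecLin L, isSkew_of_mem_Skew hL, Z d - L *ᵥ p d, h4, h5, ?_, ?_, ?_, ?_, ?_⟩
        · rw [Matrix.mulVecLin_apply]; exact h1 a ha.1 ha.2.1 ha.2.2
        · rw [Matrix.mulVecLin_apply]; exact h1 b hb.1 hb.2.1 hb.2.2
        · rw [Matrix.mulVecLin_apply]; exact h1 c hc.1 hc.2.1 hc.2.2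
        · rw [Matrix.mulVecLin_apply]; abel
        · rw [Matrix.mulVecLin_apply, ← h3]; abel
  · left
    push Not at hdim
    obtain ⟨Z₀, hZ₀, h⟩ := hdim
    have hle : M ≤ (M ⊓ RG p (N : Set V)) ⊔ Submodule.span k {Z₀} := by
      intro Z hZ
      obtain ⟨c, hc⟩ := h Z hZ
      have h3 : Z - c • Z₀ ∈ M ⊓ RG p (N : Set V) := by
        have hm : Z - c • Z₀ ∈ M := M.sub_mem hZ (M.smul_mem c hZ₀)
        refine ⟨hm, mem_RG_of_rigid hgp (by omega) (hM _ hm) fun a ha b hb => ?_⟩
        rw [map_sub, map_smul, smul_eq_mul, hc a ha b hb, sub_self]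
      have e : Z = (Z - c • Z₀) + c • Z₀ := by abel
      rw [e]
      exact Submodule.add_mem_sup h3 (Submodule.smul_mem _ _ (Submodule.mem_span_singleton_self _))
    have : FiniteDimensional k (M ⊓ RG p (N : Set V) : Submodule k (V → Vec k)) :=
      Submodule.finiteDimensional_of_le inf_le_left
    have h4 := Submodule.finrank_mono hle
    have h5 := Submodule.finrank_add_le_finrank_add_finrank (M ⊓ RG p (N : Set V))
      (Submodule.span k {Z₀})
    have h6 : finrank k (Submodule.span k {Z₀}) ≤ 1 := by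
      by_cases h0 : Z₀ = 0
      · rw [h0, Submodule.span_zero_singleton, finrank_bot]; omega
      · rw [finrank_span_singleton h0]
    omega

/-- Degree-4 version: if a generic new vertex can be joined to all points of a spanning `N` for all
motions of `M`, then `N` is rigid on `M`. -/
theorem le_RG_of_Att [Infinite k] (h2 : (2 : k) ≠ 0) {M : Submodule k (V → Vec k)}
    {p : V → Vec k} {N : Finset V} (hcard : 4 ≤ N.card)
    (hgp : GenPos p (N : Set V)) (hM : ∀ Z ∈ M, ∀ v ∈ N, Z v ⬝ᵥ p v = 0)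
    (h : ∀ᶠ x in gen k (Vec k), M ≤ Att p (N : Set V) x) : M ≤ RG p (N : Set V) := by
  rw [← rigidOn_iff_le_RG hgp (by omega) hM]
  refine rigidOn_of_Att h2 (hgp.spans hcard) hM fun Z hZ => ?_
  exact (h.mono fun x hx => hx hZ).frequently

end GR
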