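import Pool.Agent.Lib.GR.Quad
import Pool.Agent.Lib.GR.MainLemma
import Pool.Agent.Lib.GR.TypesHard

/-!
# A degree five vertex is not adjacent to a type A vertex
-/

set_option linter.unusedSectionVars false

namespace GR

open Filter Module

open scoped Matrix

variable {k : Type*} [Field k] {V : Type*}

/-- Two functionals vanishing on a subspace of codimension one are proportional. -/
lemma mul_eq_of_codim {E : Type*} [AddCommGroup E] [Module k E] {M N : Submodule k E}
    [FiniteDimensional k M] (hNM : N ≤ M) (h : finrank k M ≤ finrank k N + 1)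
    {f g : E →ₗ[k] k} (hf : ∀ z ∈ N, f z = 0) (hg : ∀ z ∈ N, g z = 0) {x y : E}
    (hx : x ∈ M) (hy : y ∈ M) : f x * g y = f y * g x := by
  obtain ⟨a, b, hab, hN⟩ := exists_comb hNM h hx hy
  have h1 := hf _ hN
  have h2 := hg _ hN
  simp only [map_add, map_smul, smul_eq_mul] at h1 h2
  rcases hab with ha | hb
  · apply mul_left_cancel₀ ha
    linear_combination g y * h1 - f y * h2
  · apply mul_left_cancel₀ hb
    linear_combination f x * h2 - g x * h1

section Factor

variable [Infinite k] {X : Type*} [AddCommGroup X] [Module k X] {ι : Type*}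

/-- Two proportional families of linear forms. -/
lemma lin_factor {L L' : ι → X →ₗ[k] k} (h : ∀ i j x, L' i x * L j x = L' j x * L i x)
    {i₁ i₂ : ι} (hL : ∃ y, L i₁ y = 0 ∧ L i₂ y ≠ 0) (h1 : ∃ e, L i₁ e ≠ 0) :
    ∃ c : k, ∀ i x, L' i x = c * L i x := by
  obtain ⟨y, hy1, hy2⟩ := hL
  obtain ⟨e, he⟩ := h1
  have hker : ∀ x, L i₁ x = 0 → L i₂ x ≠ 0 → L' i₁ x = 0 := by
    intro x hx hx2
    have := h i₁ i₂ x
    rw [hx, mul_zero] at this
    exact (mul_eq_zero.mp this).resolve_right hx2
  have hker' : ∀ x, L i₁ x = 0 → L' i₁ x = 0 := by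
    intro x hx
    by_cases hx2 : L i₂ x = 0
    · have h3 := hker (x + y) (by rw [map_add, hx, hy1, add_zero])
        (by rw [map_add, hx2, zero_add]; exact hy2)
      have h4 := hker y hy1 hy2
      rw [map_add, h4, add_zero] at h3
      exact h3
    · exact hker x hx hx2
  refine ⟨L' i₁ e / L i₁ e, fun i x => ?_⟩
  have hi1 : ∀ x, L' i₁ x = L' i₁ e / L i₁ e * L i₁ x := by
    intro x
    have h3 := hker' (x - (L i₁ x / L i₁ e) • e) (by
      rw [map_sub, map_smul, smul_eq_mul]
      field_simp
      ring)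
    rw [map_sub, map_smul, smul_eq_mul] at h3
    linear_combination h3
  have hP : PolyLine k fun x => L' i x - L' i₁ e / L i₁ e * L i x :=
    (PolyLine.linear (L' i)).sub ((PolyLine.const _).mul (PolyLine.linear (L i)))
  have hgen := (PolyLine.linear (L i₁)).eventually_ne ⟨e, he⟩
  have h5 := hP.eq_zero_of_eventually (by
    filter_upwards [hgen] with u hu
    have h6 := h i i₁ u
    rw [hi1 u] at h6
    apply mul_left_cancel₀ hu
    linear_combination h6) x
  linear_combination h5

/-- A family of quadratic forms proportional to a family of linear forms. -/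
lemma quad_factor {L : ι → X →ₗ[k] k} {q : ι → X →ₗ[k] X →ₗ[k] k}
    (hq : ∀ i x y, q i x y = q i y x) (h : ∀ i j x, q i x x * L j x = q j x x * L i x)
    {i₁ i₂ : ι} (hL : ∃ y, L i₁ y = 0 ∧ L i₂ y ≠ 0) (h1 : ∃ e, L i₁ e ≠ 0) :
    ∃ lam : X →ₗ[k] k, ∀ i x, q i x x = lam x * L i x := by
  obtain ⟨e, he⟩ := h1
  have hL1 : L i₁ ≠ 0 := fun h0 => he (by rw [h0]; rfl)
  have hv := Forms.vanish_on_ker (q i₁) (L i₁) (L i₂) hL (fun x hx => by
    rw [h i₁ i₂ x, hx, mul_zero])
  obtain ⟨s, hs⟩ := Forms.exists_factor (q i₁) (hq i₁) (L i₁) hL1 hv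
  refine ⟨s, fun i x => ?_⟩
  have hP : PolyLine k fun x => q i x x - s x * L i x :=
    (polyLine_bilin (q i)).sub ((PolyLine.linear s).mul (PolyLine.linear (L i)))
  have hgen := (PolyLine.linear (L i₁)).eventually_ne ⟨e, he⟩
  have h5 := hP.eq_zero_of_eventually (by
    filter_upwards [hgen] with u hu
    have h6 := h i i₁ u
    rw [hs u] at h6
    apply mul_left_cancel₀ hu
    linear_combination h6) x
  linear_combination h5

end Factor

/-- The linear extension of a motion from a basis. -/
lemma exists_BB {p : V → Vec k} {T : Finset V} (hT : T.card = 4)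
    (hgp : GenPos p (T : Set V)) : ∃ BB : (V → Vec k) →ₗ[k] (Vec k →ₗ[k] Vec k),
      ∀ Z, ∀ t ∈ T, BB Z (p t) = Z t := by
  have hli := hgp T subset_rfl hT.le
  have hspan : ⊤ ≤ Submodule.span k (Set.range fun v : T => p v) := by
    rw [hli.span_eq_top_of_card_eq_finrank' (by simp [hT])]
  let b := Basis.mk hli hspan
  let res : (V → Vec k) →ₗ[k] (T → Vec k) :=
    { toFun := fun Z v => Z v
      map_add' := fun _ _ => rfl
      map_smul' := fun _ _ => rfl }
  refine ⟨(b.constr k).toLinearMap ∘ₗ res, fun Z t ht => ?_⟩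
  have h1 : p t = b ⟨t, ht⟩ := by simp [b]
  change (b.constr k) (res Z) (p t) = Z t
  rw [h1, Basis.constr_basis]
  rfl

lemma ext_of_spans {p : V → Vec k} {T : Finset V} (hT : Spans p T) {A B : Vec k →ₗ[k] Vec k}
    (h : ∀ t ∈ T, A (p t) = B (p t)) : A = B := by
  refine LinearMap.ext fun x => ?_
  obtain ⟨c, rfl⟩ := hT x
  rw [map_sum, map_sum]
  exact Finset.sum_congr rfl fun i hi => by rw [map_smul, map_smul, h i hi]

lemma isSkew_of_two (h2 : (2 : k) ≠ 0) {A : Vec k →ₗ[k] Vec k}
    (h : ∀ x, A x ⬝ᵥ x + A x ⬝ᵥ x = 0) : IsSkew A := fun x => by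
  have : (2 : k) * (A x ⬝ᵥ x) = 0 := by linear_combination h x
  exact (mul_eq_zero.mp this).resolve_left h2

/-- The core of the adjacency theorem for type A, at a fixed position. -/
theorem adjA_core [Infinite k] [DecidableEq V] (h2 : (2 : k) ≠ 0)
    {M : Submodule k (V → Vec k)} [FiniteDimensional k M] {p : V → Vec k} {T W : Finset V}
    (hTc : T.card = 4) (hWc : W.card = 4) (hgp : GenPos p ((T ∪ W : Finset V) : Set V))
    (BB : (V → Vec k) →ₗ[k] (Vec k →ₗ[k] Vec k)) (hBB : ∀ Z, ∀ t ∈ T, BB Z (p t) = Z t)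
    (hlT : ∀ Z ∈ M, ∀ t ∈ T, Z t ⬝ᵥ p t = 0) (hlW : ∀ Z ∈ M, ∀ y ∈ W, Z y ⬝ᵥ p y = 0)
    (hK : ∀ᶠ x in gen k (Vec k),
      finrank k M ≤ finrank k (M ⊓ Att p (W : Set V) x : Submodule k (V → Vec k)) + 1)
    (hA : ∀ᶠ x in gen k (Vec k), ∀ Z ∈ M ⊓ Att p (W : Set V) x, BB Z x ⬝ᵥ x = 0 ∧
      ∀ y ∈ W, BB Z x ⬝ᵥ p y + Z y ⬝ᵥ x = 0)
    (h6 : ∀ N : Submodule k (V → Vec k), N ≤ M →
      (∀ Z ∈ N, IsSkew (BB Z) ∧ ∀ y ∈ W, Z y = BB Z (p y)) → finrank k N ≤ 6)
    (h9 : 9 ≤ finrank k M)
    (hC1 : ¬ ∀ᶠ x in gen k (Vec k), ∀ Z ∈ M ⊓ Att p (W : Set V) x, IsSkew (BB Z))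
    (hC3 : ¬ RigidOn M (W : Set V) p)
    (hQ : finrank k (QTW p (T : Set V) (W : Set V)) ≤ 2) : False := by
  have hT : Spans p T := (hgp.mono (by simp)).spans (by omega)
  -- the two families
  let q : M → Vec k →ₗ[k] Vec k →ₗ[k] k := fun Z =>
    LinearMap.mk₂ k (fun x y => BB Z.1 x ⬝ᵥ y + BB Z.1 y ⬝ᵥ x)
      (fun x x' y => by simp only [map_add, add_dotProduct, dotProduct_add]; ring)
      (fun c x y => by
        simp only [map_smul, smul_dotProduct, dotProduct_smul, smul_eq_mul]; ring)
      (fun x y y' => by simp only [map_add, add_dotProduct, dotProduct_add]; ring)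
      (fun c x y => by
        simp only [map_smul, smul_dotProduct, dotProduct_smul, smul_eq_mul]; ring)
  have hq : ∀ Z x y, q Z x y = BB Z.1 x ⬝ᵥ y + BB Z.1 y ⬝ᵥ x := fun _ _ _ => rfl
  have hqs : ∀ Z x y, q Z x y = q Z y x := fun Z x y => by rw [hq, hq, add_comm]
  let L : V → M → Vec k →ₗ[k] k := fun y Z =>
    { toFun := fun x => BB Z.1 x ⬝ᵥ p y + Z.1 y ⬝ᵥ x
      map_add' := fun x x' => by simp only [map_add, add_dotProduct, dotProduct_add]; ring
      map_smul' := fun c x => by
        simp only [map_smul, smul_dotProduct, dotProduct_smul, smul_eq_mul,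
          RingHom.id_apply]; ring }
  have hL : ∀ y Z x, L y Z x = BB Z.1 x ⬝ᵥ p y + Z.1 y ⬝ᵥ x := fun _ _ _ => rfl
  -- the same as functionals of the motion
  let qf : Vec k → (V → Vec k) →ₗ[k] k := fun x =>
    { toFun := fun Z => BB Z x ⬝ᵥ x + BB Z x ⬝ᵥ x
      map_add' := fun Z Z' => by
        simp only [map_add, LinearMap.add_apply, add_dotProduct]; ring
      map_smul' := fun c Z => by
        simp only [map_smul, LinearMap.smul_apply, smul_dotProduct, smul_eq_mul,
          RingHom.id_apply]; ring }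
  let Rf : V → Vec k → (V → Vec k) →ₗ[k] k := fun y x =>
    { toFun := fun Z => BB Z x ⬝ᵥ p y + Z y ⬝ᵥ x
      map_add' := fun Z Z' => by
        simp only [map_add, LinearMap.add_apply, add_dotProduct, Pi.add_apply]; ring
      map_smul' := fun c Z => by
        simp only [map_smul, LinearMap.smul_apply, smul_dotProduct, smul_eq_mul,
          RingHom.id_apply, Pi.smul_apply]; ring }
  have hgood := hK.and hA
  have I1 : ∀ y ∈ W, ∀ y' ∈ W, ∀ (Z Z' : M) (x : Vec k),
      L y' Z x * L y Z' x = L y' Z' x * L y Z x := by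
    intro y hy y' hy' Z Z' x
    have hP : PolyLine k fun x => L y' Z x * L y Z' x - L y' Z' x * L y Z x :=
      ((PolyLine.linear _).mul (PolyLine.linear _)).sub
        ((PolyLine.linear _).mul (PolyLine.linear _))
    have := hP.eq_zero_of_eventually (by
      filter_upwards [hgood] with x hx
      have h3 := mul_eq_of_codim (f := Rf y' x) (g := Rf y x)
        (inf_le_left : M ⊓ Att p (W : Set V) x ≤ M) hx.1
        (fun Z hZ => (hx.2 Z hZ).2 y' hy') (fun Z hZ => (hx.2 Z hZ).2 y hy) Z.2 Z'.2
      exact sub_eq_zero.mpr h3) x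
    exact sub_eq_zero.mp this
  have I2 : ∀ y ∈ W, ∀ (Z Z' : M) (x : Vec k), q Z x x * L y Z' x = q Z' x x * L y Z x := by
    intro y hy Z Z' x
    have hP : PolyLine k fun x => q Z x x * L y Z' x - q Z' x x * L y Z x :=
      ((polyLine_bilin _).mul (PolyLine.linear _)).sub
        ((polyLine_bilin _).mul (PolyLine.linear _))
    have := hP.eq_zero_of_eventually (by
      filter_upwards [hgood] with x hx
      have h3 := mul_eq_of_codim (f := qf x) (g := Rf y x)
        (inf_le_left : M ⊓ Att p (W : Set V) x ≤ M) hx.1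
        (fun Z hZ => by
          have := (hx.2 Z hZ).1
          change BB Z x ⬝ᵥ x + BB Z x ⬝ᵥ x = 0
          rw [this, add_zero]) (fun Z hZ => (hx.2 Z hZ).2 y hy) Z.2 Z'.2
      exact sub_eq_zero.mpr h3) x
    exact sub_eq_zero.mp this
  by_cases h1 : ∀ y ∈ W, ∀ (Z : M) (x : Vec k), L y Z x = 0
  · -- all `L y` vanish: eight generic points
    let f : M →ₗ[k] Frm k :=
      { toFun := fun Z => ofForm (q Z)
        map_add' := fun Z Z' => by
          ext i j
          simp only [ofForm, hq, Pi.add_apply, Submodule.coe_add, map_add, LinearMap.add_apply,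
            add_dotProduct]
          ring
        map_smul' := fun c Z => by
          ext i j
          simp only [ofForm, hq, Pi.smul_apply, Submodule.coe_smul, map_smul,
            LinearMap.smul_apply, smul_dotProduct, smul_eq_mul, RingHom.id_apply]
          ring }
    have hf : ∀ Z x y, mf (f Z) x y = q Z x y := fun Z x y => by
      change mf (ofForm (q Z)) x y = _
      rw [mf_ofForm]
    have hr : LinearMap.range f ≤ QTW p (T : Set V) (W : Set V) := by
      rintro _ ⟨Z, rfl⟩
      refine ⟨fun x y => by rw [hf, hf, hqs], fun t ht => ?_, fun y hy => ?_, fun y hy hy' x => ?_⟩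
      · have ht' : t ∈ T := by simpa using ht
        rw [hf, hq, hBB Z.1 t ht', hlT Z.1 Z.2 t ht', add_zero]
      · have hy' : y ∈ W := by simpa using hy
        have h3 := h1 y hy' Z (p y)
        rw [hL, hlW Z.1 Z.2 y hy', add_zero] at h3
        rw [hf, hq, h3, add_zero]
      · have hyT : y ∈ T := by simpa using hy
        have hyW : y ∈ W := by simpa using hy'
        have h3 := h1 y hyW Z x
        rw [hL] at h3
        rw [hf, hq, hBB Z.1 y hyT, add_comm]
        exact h3
    have h3 := LinearMap.finrank_range_add_finrank_ker f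
    have h4 := Submodule.finrank_mono hr
    have h5 : finrank k (LinearMap.ker f) ≤ 6 := by
      have h7 := h6 ((LinearMap.ker f).map M.subtype) (Submodule.map_subtype_le _ _) (by
        rintro _ ⟨Z, hZ, rfl⟩
        have hZ0 : f Z = 0 := LinearMap.mem_ker.mp hZ
        have hsk : IsSkew (BB Z.1) := isSkew_of_two h2 fun x => by
          have := hf Z x x
          rw [hZ0, mf_zero, hq] at this
          exact this.symm
        refine ⟨hsk, fun y hy => ?_⟩
        refine sub_eq_zero.mp (dotProduct_eq_zero _ fun x => ?_)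
        have h8 := h1 y hy Z x
        rw [hL, hsk.swap] at h8
        rw [sub_dotProduct]
        change Z.1 y ⬝ᵥ x - BB Z.1 (p y) ⬝ᵥ x = 0
        linear_combination h8)
      rwa [Submodule.finrank_map_subtype_eq] at h7
    omega
  · push Not at h1
    obtain ⟨y₀, hy₀, Z₀, x₀, hx₀⟩ := h1
    -- skewness from vanishing of `q`
    have hskew : ∀ Z : M, (∀ x, q Z x x = 0) → IsSkew (BB Z.1) := fun Z h =>
      isSkew_of_two h2 fun x => by rw [← hq]; exact h x
    by_cases h3 : ∃ Z₁ Z₂ : M, (∃ y, L y₀ Z₁ y = 0 ∧ L y₀ Z₂ y ≠ 0) ∧ ∃ e, L y₀ Z₁ e ≠ 0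
    · obtain ⟨Z₁, Z₂, hL12, hL1⟩ := h3
      obtain ⟨lam, hlam⟩ := quad_factor (L := L y₀) (q := q) hqs
        (fun Z Z' x => I2 y₀ hy₀ Z Z' x) hL12 hL1
      have hc : ∀ y ∈ W, ∃ c : k, ∀ Z x, L y Z x = c * L y₀ Z x := fun y hy =>
        lin_factor (L := L y₀) (L' := L y) (fun Z Z' x => I1 y₀ hy₀ y hy Z Z' x) hL12 hL1
      -- polarisation
      have hpol : ∀ Z x x', 2 * q Z x x' = lam x * L y₀ Z x' + lam x' * L y₀ Z x := by
        intro Z x x'
        have h4 := hlam Z (x + x')
        have h5 := hlam Z x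
        have h7 := hlam Z x'
        simp only [map_add, LinearMap.add_apply] at h4
        rw [hqs Z x' x] at h4
        linear_combination h4 - h5 - h7
      have hlam0 : ∃ x, lam x ≠ 0 := by
        by_contra hcon
        push Not at hcon
        refine hC1 (Filter.Eventually.of_forall fun x Z hZ => ?_)
        exact hskew ⟨Z, hZ.1⟩ fun x => by rw [hlam, hcon, zero_mul]
      -- the special point
      obtain ⟨t₀, ht₀, hlt₀⟩ : ∃ t ∈ T, lam (p t) ≠ 0 := by
        by_contra hcon
        push Not at hcon
        obtain ⟨x, hx⟩ := hlam0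
        apply hx
        obtain ⟨c, rfl⟩ := hT x
        rw [map_sum]
        exact Finset.sum_eq_zero fun i hi => by rw [map_smul, hcon i hi, smul_zero]
      have hLt₀ : ∀ Z, L y₀ Z (p t₀) = 0 := by
        intro Z
        have h4 := hlam Z (p t₀)
        rw [hq, hBB Z.1 t₀ ht₀, hlT Z.1 Z.2 t₀ ht₀, add_zero] at h4
        exact (mul_eq_zero.mp h4.symm).resolve_left hlt₀
      -- the rank of `L`
      let F : M →ₗ[k] Vec k :=
        { toFun := fun Z j => L y₀ Z (Pi.single j 1)
          map_add' := fun Z Z' => by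
            ext j
            simp only [hL, Pi.add_apply, Submodule.coe_add, map_add, LinearMap.add_apply,
              add_dotProduct]
            ring
          map_smul' := fun c Z => by
            ext j
            simp only [hL, Pi.smul_apply, Submodule.coe_smul, map_smul,
              LinearMap.smul_apply, smul_dotProduct, smul_eq_mul, RingHom.id_apply]
            ring }
      have hF : ∀ Z x, F Z ⬝ᵥ x = L y₀ Z x := by
        intro Z x
        have h4 : x = ∑ j, x j • (Pi.single j 1 : Vec k) := by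
          ext i
          simp [Finset.sum_apply, Pi.single_apply]
        conv_rhs => rw [h4, map_sum]
        rw [dotProduct]
        refine Finset.sum_congr rfl fun j _ => ?_
        rw [map_smul, smul_eq_mul, mul_comm]
        rfl
      have hker : finrank k (LinearMap.ker F) ≤ 6 := by
        have h7 := h6 ((LinearMap.ker F).map M.subtype) (Submodule.map_subtype_le _ _) (by
          rintro _ ⟨Z, hZ, rfl⟩
          have hL0 : ∀ x, L y₀ Z x = 0 := fun x => by
            rw [← hF, LinearMap.mem_ker.mp hZ, zero_dotProduct]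
          have hsk : IsSkew (BB Z.1) := hskew Z fun x => by rw [hlam, hL0, mul_zero]
          refine ⟨hsk, fun y hy => ?_⟩
          refine sub_eq_zero.mp (dotProduct_eq_zero _ fun x => ?_)
          obtain ⟨c, hc⟩ := hc y hy
          have h8 := hc Z x
          rw [hL0, mul_zero, hL, hsk.swap] at h8
          rw [sub_dotProduct]
          change Z.1 y ⬝ᵥ x - BB Z.1 (p y) ⬝ᵥ x = 0
          linear_combination h8)
        rwa [Submodule.finrank_map_subtype_eq] at h7
      have hrank : 3 ≤ finrank k (LinearMap.range F) := by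
        have := LinearMap.finrank_range_add_finrank_ker F
        omega
      have hind : ∀ y ∈ T ∪ W, y ≠ t₀ → ∃ Z, L y₀ Z (p y) ≠ 0 := by
        intro y hy hyt
        by_contra hcon
        push Not at hcon
        have h4 : LinearMap.range F ≤ Perp p (({y} : Finset V) : Set V) (p t₀) := by
          rintro _ ⟨Z, rfl⟩
          refine ⟨by rw [hF, hLt₀], fun v hv => ?_⟩
          have : v = y := by simpa using hv
          rw [this, hF, hcon]
        have h5 := Submodule.finrank_mono h4
        have h7 := finrank_Perp (p := p) (N := ({y} : Finset V)) (x := p t₀)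
          (GenPos.option (p := p) (N := ({y} : Finset V)) (u := t₀) (by simpa using Ne.symm hyt)
            (hgp.mono (by
              intro v hv
              have hv' : v = t₀ ∨ v = y := by simpa using hv
              rcases hv' with rfl | rfl
              · exact Finset.mem_coe.mpr (Finset.mem_union_left _ ht₀)
              · exact Finset.mem_coe.mpr hy)) (by simp))
        rw [Finset.card_singleton] at h7
        omega
      -- the constants
      have hcy : ∀ y ∈ W, ∀ Z x, 2 * L y Z x = lam (p y) * L y₀ Z x := by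
        intro y hy Z x
        obtain ⟨c, hc⟩ := hc y hy
        have h2c : 2 * c = lam (p y) := by
          by_cases hyt : y = t₀
          · subst hyt
            have h4 := hc Z₀ x₀
            have h5 := hpol Z₀ x₀ (p y)
            rw [hLt₀, mul_zero, zero_add, hq, hBB Z₀.1 y ht₀] at h5
            rw [hL] at h4
            apply mul_right_cancel₀ hx₀
            linear_combination h5 - 2 * h4
          · obtain ⟨Z', hZ'⟩ := hind y (Finset.mem_union_right _ hy) hyt
            have h4 := hc Z' (p y)
            have h5 := hlam Z' (p y)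
            rw [hL, hlW Z'.1 Z'.2 y hy, add_zero] at h4
            rw [hq] at h5
            apply mul_right_cancel₀ hZ'
            linear_combination h5 - 2 * h4
        rw [hc, ← h2c]
        ring
      refine hC3 fun y hy y' hy' Z hZ => ?_
      have hy1 : y ∈ W := by simpa using hy
      have hy2 : y' ∈ W := by simpa using hy'
      have e1 := hcy y hy1 ⟨Z, hZ⟩ (p y')
      have e2 := hcy y' hy2 ⟨Z, hZ⟩ (p y)
      have e3 := hpol ⟨Z, hZ⟩ (p y) (p y')
      rw [hL] at e1 e2
      rw [hq] at e3
      have e4 : (2 : k) * eps p y y' Z = 0 := by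
        rw [eps_apply]
        dsimp only at e1 e2 e3
        linear_combination e1 + e2 - e3
      exact (mul_eq_zero.mp e4).resolve_left h2
    · -- rank one
      push Not at h3
      apply hC1
      filter_upwards [hA, (PolyLine.linear (L y₀ Z₀)).eventually_ne ⟨x₀, hx₀⟩] with x hx hxne Z hZ
      have hLx : L y₀ ⟨Z, hZ.1⟩ x = 0 := (hx Z hZ).2 y₀ hy₀
      have hL0 : ∀ u, L y₀ ⟨Z, hZ.1⟩ u = 0 := by
        intro u
        by_contra hu
        have h4 := h3 Z₀ ⟨Z, hZ.1⟩ ⟨u - (L y₀ Z₀ u / L y₀ Z₀ x) • x, by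
          rw [map_sub, map_smul, smul_eq_mul]
          field_simp
          ring, by
          rw [map_sub, map_smul, hLx, smul_zero, sub_zero]
          exact hu⟩ x₀
        exact hx₀ h4
      refine hskew ⟨Z, hZ.1⟩ fun u => ?_
      refine (polyLine_bilin (q ⟨Z, hZ.1⟩)).eq_zero_of_eventually ?_ u
      filter_upwards [(PolyLine.linear (L y₀ Z₀)).eventually_ne ⟨x₀, hx₀⟩] with u hu
      have h4 := I2 y₀ hy₀ ⟨Z, hZ.1⟩ Z₀ u
      rw [hL0, mul_zero] at h4
      exact (mul_eq_zero.mp h4).resolve_right hu

/-- **Adjacency, type A.**  In the dimensions of a minimal counterexample (`B` has 9-dimensional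
motions, the degree four vertex `w` one dimension less) the set `insert w T`, `|T| = 4`, is not of
type A, unless its rigid motions have dimension at least seven. -/
theorem adjA [Infinite k] [DecidableEq V] (h2 : (2 : k) ≠ 0) {B T : Finset V} {w : V}
    (hw : w ∉ B) (hTB : T ⊆ B) (hT : T.card = 4) {E : Set (Sym2 V)}
    (hW : (nbr B E w).card = 4)
    (h9 : ∀ᶠ p in gen k (V → Vec k), mdim B E p = 9)
    (h8 : ∀ᶠ p in gen k (V → Vec k), mdim (insert w B) E p = 8)
    (h6 : ∀ᶠ p in gen k (V → Vec k), finrank k (Mot (insert w B) E p ⊓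
      RG p (insert w (T : Set V)) : Submodule k (V → Vec k)) ≤ 6)
    (hA : ∀ᶠ p in gen k (V → Vec k), Mot (insert w B) E p ≤ TA p (insert w (T : Set V))) :
    False := by
  obtain ⟨p, hp9, hpg, hpQ, hpx⟩ := (h9.and ((eventually_genPos (k := k) B).and
    ((eventually_QTW h2 hT hW).and
      (eventually_update (h8.and (h6.and hA)) w)))).exists
  have hWB : nbr B E w ⊆ B := nbr_subset _ _ _
  have hwT : w ∉ T := fun h => hw (hTB h)
  have hwW : w ∉ nbr B E w := fun h => hw (hWB h)
  have hgT : GenPos p (T : Set V) := hpg.mono (by exact_mod_cast hTB)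
  have hTs : Spans p T := hgT.spans (by omega)
  obtain ⟨BB, hBB⟩ := exists_BB hT hgT
  have hne : ∀ a ∈ B, a ≠ w := fun a ha h => hw (h ▸ ha)
  have hMot : ∀ x : Vec k, Mot B E (Function.update p w x) = Mot B E p := fun x =>
    Mot_congr_pts fun a ha => Function.update_of_ne (hne a ha) _ _
  have hAtt : ∀ x : Vec k, Att (Function.update p w x) (nbr B E w : Set V) x
      = Att p (nbr B E w : Set V) x := fun x => Att_update (by simpa using hwW) p x x
  have hmap : ∀ x : Vec k, (Mot (insert w B) E (Function.update p w x)).map (forget k w)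
      = Mot B E p ⊓ Att p (nbr B E w : Set V) x := by
    intro x
    rw [map_forget_Mot hw, hMot, Function.update_self, hAtt]
  have hfin : ∀ᶠ x in gen k (Vec k), finrank k (Mot B E p ⊓ Att p (nbr B E w : Set V) x :
      Submodule k (V → Vec k)) = 8 := by
    filter_upwards [hpx] with x hx
    have hg : GenPos (Function.update p w x) (nbr B E w : Set V) := by
      intro S hS hc
      have h3 := hpg S (hS.trans (by exact_mod_cast hWB)) hc
      have e : (fun v : S => Function.update p w x v) = fun v : S => p v := by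
        funext v
        exact Function.update_of_ne (fun h => hwW (by
          have := hS (Finset.mem_coe.mpr v.2)
          rw [h] at this
          simpa using this)) _ _
      rw [e]
      exact h3
    have h3 := mdim_insert_of_four_le hw E (Function.update p w x) hg (by omega)
    rw [hx.1, hMot, Function.update_self, hAtt] at h3
    exact h3.symm
  -- the motions of `insert w B` are given by `BB`
  have hext : ∀ x : Vec k, Mot (insert w B) E (Function.update p w x)
      ≤ TA (Function.update p w x) (insert w (T : Set V)) →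
      ∀ Z' ∈ Mot (insert w B) E (Function.update p w x), Z' w = BB (forget k w Z') x ∧
        ∀ t ∈ T, Z' t = BB (forget k w Z') (p t) := by
    intro x hx Z' hZ'
    obtain ⟨T0, hT0⟩ := hx hZ'
    have h3 : ∀ t ∈ T, T0 (p t) = BB (forget k w Z') (p t) := by
      intro t ht
      have htw : t ≠ w := fun h => hwT (h ▸ ht)
      rw [hBB _ t ht, forget_apply_of_ne htw, hT0 t (Or.inr (by simpa using ht)),
        Function.update_of_ne htw]
    have h4 := ext_of_spans hTs h3
    refine ⟨?_, fun t ht => ?_⟩
    · rw [hT0 w (Or.inl rfl), Function.update_self, h4]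
    · have htw : t ≠ w := fun h => hwT (h ▸ ht)
      rw [hT0 t (Or.inr (by simpa using ht)), Function.update_of_ne htw, h4]
  refine adjA_core h2 (M := Mot B E p) (p := p) (T := T) (W := nbr B E w) hT hW
    (hpg.mono (by exact_mod_cast Finset.union_subset hTB hWB)) BB hBB
    (fun Z hZ t ht => hZ.2.1 t (hTB ht)) (fun Z hZ y hy => hZ.2.1 y (hWB hy)) ?_ ?_ ?_ ?_ ?_ ?_ hpQ
  · filter_upwards [hfin] with x hx
    rw [hx]
    change mdim B E p ≤ 9
    omega
  · filter_upwards [hpx] with x hx Z hZ
    rw [← hmap x] at hZ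
    obtain ⟨Z', hZ', rfl⟩ := hZ
    obtain ⟨h3, h4⟩ := hext x hx.2.2 Z' hZ'
    refine ⟨?_, fun y hy => ?_⟩
    · have h5 := hZ'.2.1 w (by simp)
      rw [Function.update_self, h3] at h5
      exact h5
    · have hyw : y ≠ w := hne y (hWB hy)
      have h5 := hZ'.2.2 w (by simp) y (by simp [hWB hy]) (mem_nbr.mp hy).2
      rw [eps_apply, Function.update_self, Function.update_of_ne hyw, h3] at h5
      rw [forget_apply_of_ne hyw]
      exact h5
  · intro N hN hsk
    obtain ⟨x, hx⟩ := hpx.exists
    have h3 : N ≤ (Mot (insert w B) E (Function.update p w x) ⊓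
        RG (Function.update p w x) (insert w (T : Set V)) :
          Submodule k (V → Vec k)).map (forget k w) := by
      intro Z hZ
      obtain ⟨hS, hSW⟩ := hsk Z hZ
      have h4 : Z ∈ Mot B E p ⊓ Att p (nbr B E w : Set V) x := by
        refine ⟨hN hZ, BB Z x, hS x, fun y hy => ?_⟩
        have hy' : y ∈ nbr B E w := by simpa using hy
        rw [hSW y hy', hS.swap]
        ring
      rw [← hmap x] at h4
      obtain ⟨Z', hZ', rfl⟩ := h4
      obtain ⟨h5, h6⟩ := hext x hx.2.2 Z' hZ'
      refine ⟨Z', ⟨hZ', BB (forget k w Z'), hS, fun i hi => ?_⟩, rfl⟩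
      rcases hi with rfl | hi
      · rw [Function.update_self, h5]
      · have hi' : i ∈ T := by simpa using hi
        have hiw : i ≠ w := fun h => hwT (h ▸ hi')
        rw [Function.update_of_ne hiw, h6 i hi']
    have h4 := Submodule.finrank_mono h3
    have h5 := Submodule.finrank_map_le (forget k w) (Mot (insert w B) E (Function.update p w x) ⊓
        RG (Function.update p w x) (insert w (T : Set V)) : Submodule k (V → Vec k))
    have h6 := hx.2.1
    omega
  · exact hp9.ge
  · intro hcon
    obtain ⟨x, hx, hx'⟩ := (hpx.and hcon).exists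
    have h3 : Mot (insert w B) E (Function.update p w x)
        ≤ RG (Function.update p w x) (insert w (T : Set V)) := by
      intro Z' hZ'
      obtain ⟨h5, h6⟩ := hext x hx.2.2 Z' hZ'
      have h7 : forget k w Z' ∈ Mot B E p ⊓ Att p (nbr B E w : Set V) x := by
        rw [← hmap x]
        exact ⟨Z', hZ', rfl⟩
      refine ⟨BB (forget k w Z'), hx' _ h7, fun i hi => ?_⟩
      rcases hi with rfl | hi
      · rw [Function.update_self, h5]
      · have hi' : i ∈ T := by simpa using hi
        have hiw : i ≠ w := fun h => hwT (h ▸ hi')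
        rw [Function.update_of_ne hiw, h6 i hi']
    have h4 := hx.2.1
    rw [inf_eq_left.mpr h3] at h4
    have h5 : finrank k (Mot (insert w B) E (Function.update p w x)) = 8 := hx.1
    omega
  · intro hcon
    obtain ⟨x, hx⟩ := hfin.exists
    have h3 : Mot B E p ≤ RG p (nbr B E w : Set V) := by
      intro Z hZ
      refine mem_RG_of_rigid (hpg.mono (by exact_mod_cast hWB)) (by omega)
        (fun y hy => hZ.2.1 y (hWB hy)) fun a ha b hb => ?_
      exact hcon a (by simpa using ha) b (by simpa using hb) Z hZ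
    rw [inf_eq_left.mpr (h3.trans (RG_le_Att p _ x))] at hx
    have h5 : finrank k (Mot B E p) = 9 := hp9
    omega

end GR
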