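import Pool.Agent.Lib.GR.AdjA
import Pool.Agent.Lib.GR.NoPair

/-!
# Rod ends of a type B vertex have degree at least six
-/

set_option linter.unusedSectionVars false

namespace GR

open Filter Module

open scoped Matrix

variable {k : Type*} [Field k] {V : Type*}

/-- The frame of a body `a b c`, as a linear function of the motion. -/
lemma exists_FR {p : V → Vec k} {a b c : V} (h : LinearIndependent k ![p a, p b, p c]) :
    ∃ FR : (V → Vec k) →ₗ[k] (Vec k →ₗ[k] Vec k), ∀ Z S, IsSkew S → Z a = S (p a) →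
      Z b = S (p b) → Z c = S (p c) → FR Z = S := by
  -- a fourth point
  obtain ⟨x, hx⟩ : ∃ x : Vec k, LinearIndependent k ![p a, p b, p c, x] := by
    by_contra hcon
    push Not at hcon
    have hspan : Submodule.span k (Set.range ![p a, p b, p c]) = ⊤ := by
      rw [eq_top_iff]
      intro w _
      by_contra hw
      apply hcon w
      have h7 := (linearIndependent_finSnoc (v := ![p a, p b, p c]) (x := w)).mpr ⟨h, hw⟩
      have e : (Fin.snoc ![p a, p b, p c] w : Fin 4 → Vec k) = ![p a, p b, p c, w] := by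
        ext i j
        fin_cases i <;> rfl
      rwa [e] at h7
    have h5 := finrank_span_eq_card h
    rw [hspan, finrank_top, Module.finrank_fin_fun] at h5
    simp at h5
  have hd : ∀ i : Fin 4, ∃ z : Vec k, ∀ j, z ⬝ᵥ ![p a, p b, p c, x] j = if j = i then 1 else 0 :=
    fun i => exists_dot_eq hx _
  choose e he using hd
  have hspan : Submodule.span k (Set.range ![p a, p b, p c, x]) = ⊤ :=
    hx.span_eq_top_of_card_eq_finrank' (by simp)
  refine ⟨{ toFun := fun Z =>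
              { toFun := fun y => (e 0 ⬝ᵥ y) • Z a + (e 1 ⬝ᵥ y) • Z b + (e 2 ⬝ᵥ y) • Z c
                  - (e 3 ⬝ᵥ y) • ((Z a ⬝ᵥ x) • e 0 + (Z b ⬝ᵥ x) • e 1 + (Z c ⬝ᵥ x) • e 2)
                map_add' := fun y y' => by
                  simp only [dotProduct_add, add_smul]; abel
                map_smul' := fun r y => by
                  simp only [dotProduct_smul, smul_eq_mul, mul_smul, RingHom.id_apply, smul_sub,
                    smul_add] }
            map_add' := fun Z Z' => LinearMap.ext fun y => by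
              ext i
              simp only [LinearMap.coe_mk, AddHom.coe_mk, LinearMap.add_apply, Pi.add_apply,
                Pi.sub_apply, Pi.smul_apply, smul_eq_mul, add_dotProduct]
              ring
            map_smul' := fun r Z => LinearMap.ext fun y => by
              ext i
              simp only [LinearMap.coe_mk, AddHom.coe_mk, LinearMap.smul_apply, Pi.smul_apply,
                Pi.add_apply, Pi.sub_apply, smul_dotProduct, smul_eq_mul, RingHom.id_apply]
              ring }, ?_⟩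
  intro Z S hS ha hb hc
  have e00 := he 0 0
  have e01 := he 0 1
  have e02 := he 0 2
  have e03 := he 0 3
  have e10 := he 1 0
  have e11 := he 1 1
  have e12 := he 1 2
  have e13 := he 1 3
  have e20 := he 2 0
  have e21 := he 2 1
  have e22 := he 2 2
  have e23 := he 2 3
  have e30 := he 3 0
  have e31 := he 3 1
  have e32 := he 3 2
  have e33 := he 3 3
  simp at e00 e01 e02 e03 e10 e11 e12 e13 e20 e21 e22 e23 e30 e31 e32 e33
  refine LinearMap.ext_on_range hspan fun i => ?_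
  fin_cases i
  · simp [e00, e10, e20, e30, ha]
  · simp [e01, e11, e21, e31, hb]
  · simp [e02, e12, e22, e32, hc]
  · -- the fourth point
    have h1 : ∀ v ∈ Submodule.span k (Set.range ![p a, p b, p c, x]),
        (-((Z a ⬝ᵥ x) • e 0 + (Z b ⬝ᵥ x) • e 1 + (Z c ⬝ᵥ x) • e 2) - S x) ⬝ᵥ v = 0 := by
      intro v hv
      induction hv using Submodule.span_induction with
      | mem v hv =>
        obtain ⟨i, rfl⟩ := hv
        fin_cases i
        · simp [sub_dotProduct, neg_dotProduct, add_dotProduct, smul_dotProduct, e00, e10, e20, ha,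
            hS.swap x (p a)]
        · simp [sub_dotProduct, neg_dotProduct, add_dotProduct, smul_dotProduct, e01, e11, e21, hb,
            hS.swap x (p b)]
        · simp [sub_dotProduct, neg_dotProduct, add_dotProduct, smul_dotProduct, e02, e12, e22, hc,
            hS.swap x (p c)]
        · simp [sub_dotProduct, neg_dotProduct, add_dotProduct, smul_dotProduct, e03, e13, e23,
            hS x]
      | zero => simp
      | add a b _ _ ha hb => rw [dotProduct_add, ha, hb, add_zero]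
      | smul c a _ ha => rw [dotProduct_smul, ha, smul_zero]
    rw [hspan] at h1
    have h2 := dotProduct_eq_zero _ fun v => h1 v trivial
    have h3 := sub_eq_zero.mp h2
    simp only [Fin.reduceFinMk, LinearMap.coe_mk, AddHom.coe_mk, Matrix.cons_val, e03, e13, e23,
      e33, zero_smul, one_smul, zero_add, zero_sub]
    exact h3

/-- the functional of a covector -/
def adjDot (z : Vec k) : Vec k →ₗ[k] k where
  toFun x := z ⬝ᵥ x
  map_add' x y := dotProduct_add _ _ _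
  map_smul' r x := dotProduct_smul _ _ _

@[simp] lemma adjDot_apply (z x : Vec k) : adjDot z x = z ⬝ᵥ x := rfl

/-- A space of covectors of dimension at least two contains two independent ones. -/
lemma exists_two_covec {P : Submodule k (Vec k)} (h : 2 ≤ finrank k P) :
    ∃ z₁ ∈ P, ∃ z₂ ∈ P, (∃ y, z₁ ⬝ᵥ y = 0 ∧ z₂ ⬝ᵥ y ≠ 0) ∧ ∃ e, z₁ ⬝ᵥ e ≠ 0 := by
  obtain ⟨f, hf⟩ := exists_linearIndependent_of_le_finrank h
  have hf' : LinearIndependent k (fun i => (f i : Vec k)) :=
    hf.map' P.subtype (Submodule.ker_subtype P)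
  obtain ⟨y, hy⟩ := exists_dot_eq hf' ![0, 1]
  obtain ⟨e, he⟩ := exists_dot_eq hf' ![1, 0]
  refine ⟨f 0, (f 0).2, f 1, (f 1).2, ⟨y, ?_, ?_⟩, e, ?_⟩
  · rw [dotProduct_comm, hy]; simp
  · rw [dotProduct_comm, hy]; simp
  · rw [dotProduct_comm, he]; simp

/-- The structure of the motions around a rod end of degree four, at a fixed position. -/
theorem adjR_tau [Infinite k] [DecidableEq V] {M : Submodule k (V → Vec k)}
    [FiniteDimensional k M] {p : V → Vec k} {a b c d : V} {Y : Finset V}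
    (habc : LinearIndependent k ![p a, p b, p c])
    (hdY : ∀ y ∈ Y, y ≠ d → LinearIndependent k
      (fun o : Option ({y} : Finset V) => o.elim (p d) fun v => p v)) (hd0 : p d ≠ 0)
    (hY : 2 ≤ Y.card)
    (hM : finrank k M = 9)
    (hK : ∀ᶠ x in gen k (Vec k),
      finrank k (M ⊓ Att p (Y : Set V) x : Submodule k (V → Vec k)) = 8)
    (hrig : ∀ Z, Z a ⬝ᵥ p a = 0 → Z b ⬝ᵥ p b = 0 → Z c ⬝ᵥ p c = 0 → eps p a b Z = 0 →
      eps p a c Z = 0 → eps p b c Z = 0 → ∃ S, IsSkew S ∧ Z a = S (p a) ∧ Z b = S (p b) ∧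
        Z c = S (p c))
    (hloop : ∀ Z ∈ M, (Z a ⬝ᵥ p a = 0 ∧ Z b ⬝ᵥ p b = 0 ∧ Z c ⬝ᵥ p c = 0 ∧ Z d ⬝ᵥ p d = 0) ∧
      ∀ y ∈ Y, Z y ⬝ᵥ p y = 0)
    (hTB : ∀ᶠ x in gen k (Vec k), ∃ t : k, t ≠ 0 ∧ ∀ Z ∈ M ⊓ Att p (Y : Set V) x,
      ∃ S : Vec k →ₗ[k] Vec k, IsSkew S ∧ ∃ g : Vec k, g ⬝ᵥ p d = 0 ∧ g ⬝ᵥ x = 0 ∧
        Z a = S (p a) ∧ Z b = S (p b) ∧ Z c = S (p c) ∧ Z d = S (p d) + g ∧
        ∀ y ∈ Y, (S x + t • g) ⬝ᵥ p y + Z y ⬝ᵥ x = 0)
    (h6 : ∀ᶠ x in gen k (Vec k), ∀ N ≤ M ⊓ Att p (Y : Set V) x,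
      (∀ Z ∈ N, ∃ S : Vec k →ₗ[k] Vec k, IsSkew S ∧ Z a = S (p a) ∧ Z b = S (p b) ∧
        Z c = S (p c) ∧ Z d = S (p d)) → finrank k N ≤ 6) :
    ∃ FR : (V → Vec k) →ₗ[k] (Vec k →ₗ[k] Vec k), ∃ τ : Vec k, τ ≠ 0 ∧
      (∀ Z S, IsSkew S → Z a = S (p a) → Z b = S (p b) → Z c = S (p c) → FR Z = S) ∧
      (∀ Z ∈ M, IsSkew (FR Z) ∧ Z a = FR Z (p a) ∧ Z b = FR Z (p b) ∧ Z c = FR Z (p c)) ∧
      (∀ z : Vec k, z ⬝ᵥ p d = 0 → ∃ Z ∈ M, Z d - FR Z (p d) = z) ∧
      (∀ N ≤ M, (∀ Z ∈ N, Z d = FR Z (p d)) → finrank k N ≤ 6) ∧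
      (∀ y ∈ Y, y ≠ d → ∀ Z ∈ M, Z y - FR Z (p y) =
        (τ ⬝ᵥ p y) • (Z d - FR Z (p d)) - ((Z d - FR Z (p d)) ⬝ᵥ p y) • τ) := by
  obtain ⟨FR, hFR⟩ := exists_FR habc
  -- the linear maps `ζ` and `η`
  let ζ : (V → Vec k) →ₗ[k] Vec k :=
    { toFun := fun Z => Z d - FR Z (p d)
      map_add' := fun Z Z' => by
        simp only [Pi.add_apply, map_add, LinearMap.add_apply]; abel
      map_smul' := fun r Z => by
        simp only [Pi.smul_apply, map_smul, LinearMap.smul_apply, smul_sub, RingHom.id_apply] }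
  let η : V → (V → Vec k) →ₗ[k] Vec k := fun y =>
    { toFun := fun Z => Z y - FR Z (p y)
      map_add' := fun Z Z' => by
        simp only [Pi.add_apply, map_add, LinearMap.add_apply]; abel
      map_smul' := fun r Z => by
        simp only [Pi.smul_apply, map_smul, LinearMap.smul_apply, smul_sub, RingHom.id_apply] }
  let D : Vec k → (V → Vec k) →ₗ[k] k := fun x =>
    { toFun := fun Z => ζ Z ⬝ᵥ x
      map_add' := fun Z Z' => by rw [map_add, add_dotProduct]
      map_smul' := fun r Z => by rw [map_smul, smul_dotProduct]; rfl }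
  have hζ : ∀ Z, ζ Z = Z d - FR Z (p d) := fun _ => rfl
  have hη : ∀ y Z, η y Z = Z y - FR Z (p y) := fun _ _ => rfl
  have hD : ∀ x Z, D x Z = ζ Z ⬝ᵥ x := fun _ _ => rfl
  -- a motion in `M ⊓ Att` is in the frame
  have hKfr : ∀ᶠ x in gen k (Vec k), ∃ t : k, t ≠ 0 ∧ ∀ Z ∈ M ⊓ Att p (Y : Set V) x,
      (IsSkew (FR Z) ∧ Z a = FR Z (p a) ∧ Z b = FR Z (p b) ∧ Z c = FR Z (p c)) ∧
      ζ Z ⬝ᵥ x = 0 ∧ ∀ y ∈ Y, t * (ζ Z ⬝ᵥ p y) + η y Z ⬝ᵥ x = 0 := by
    filter_upwards [hTB] with x hx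
    obtain ⟨t, ht, hx⟩ := hx
    refine ⟨t, ht, fun Z hZ => ?_⟩
    obtain ⟨S, hS, g, hgd, hgx, h1, h2, h3, h4, h5⟩ := hx Z hZ
    have hFZ := hFR Z S hS h1 h2 h3
    have hζZ : ζ Z = g := by rw [hζ, hFZ, h4]; abel
    refine ⟨⟨by rw [hFZ]; exact hS, by rw [hFZ]; exact h1, by rw [hFZ]; exact h2,
      by rw [hFZ]; exact h3⟩, by rw [hζZ]; exact hgx, fun y hy => ?_⟩
    have h6 := h5 y hy
    rw [add_dotProduct, smul_dotProduct, smul_eq_mul, hS.swap] at h6
    rw [hζZ, hη, hFZ, sub_dotProduct]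
    linear_combination h6
  -- (1) the body is rigid on `M`
  have hpair : ∀ i j : V, (∀ᶠ x in gen k (Vec k), ∀ Z ∈ M ⊓ Att p (Y : Set V) x,
      eps p i j Z = 0) → ∀ Z ∈ M, eps p i j Z = 0 := by
    intro i j hij Z₀ hZ₀
    by_contra hne
    -- the constant hyperplane
    set Ks : Submodule k (V → Vec k) := M ⊓ LinearMap.ker (eps p i j) with hKs
    have hfd : FiniteDimensional k Ks := Submodule.finiteDimensional_of_le inf_le_left
    have hlt : Ks < M := lt_of_le_of_ne inf_le_left fun h => hne (by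
      have : Z₀ ∈ Ks := by rw [h]; exact hZ₀
      exact this.2)
    have h1 : finrank k Ks ≤ 8 := by
      have := Submodule.finrank_lt_finrank_of_lt hlt
      omega
    have hKeq : ∀ᶠ x in gen k (Vec k), M ⊓ Att p (Y : Set V) x = Ks := by
      filter_upwards [hK, hij] with x hx hx'
      refine Submodule.eq_of_le_of_finrank_le (fun Z hZ => ⟨hZ.1, hx' Z hZ⟩) ?_
      rw [hx]; exact h1
    have hz : ∀ Z ∈ Ks, ζ Z = 0 := by
      intro Z hZ
      refine dotProduct_eq_zero _ fun x => ?_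
      refine (PolyLine.linear (W := Vec k) (k := k)
        { toFun := fun x => ζ Z ⬝ᵥ x
          map_add' := fun x y => dotProduct_add _ _ _
          map_smul' := fun r x => dotProduct_smul _ _ _ }).eq_zero_of_eventually ?_ x
      filter_upwards [hKeq, hKfr] with x hx hx'
      obtain ⟨t, ht, hx'⟩ := hx'
      rw [← hx] at hZ
      exact (hx' Z hZ).2.1
    obtain ⟨x, hx1, hx2, hx3, hx4⟩ := (hKeq.and (hKfr.and (h6.and hK))).exists
    obtain ⟨t, ht, hx2⟩ := hx2
    have h7 := hx3 (M ⊓ Att p (Y : Set V) x) le_rfl (fun Z hZ => by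
      have h8 := hz Z (hx1 ▸ hZ)
      obtain ⟨⟨h9, h10, h11, h12⟩, -⟩ := hx2 Z hZ
      exact ⟨FR Z, h9, h10, h11, h12, by rw [hζ] at h8; exact sub_eq_zero.mp h8⟩)
    omega
  have hab := hpair a b (by
    filter_upwards [hKfr] with x hx Z hZ
    obtain ⟨t, ht, hx⟩ := hx
    obtain ⟨⟨h9, h10, h11, h12⟩, -⟩ := hx Z hZ
    rw [eps_apply, h10, h11, h9.swap]; ring)
  have hac := hpair a c (by
    filter_upwards [hKfr] with x hx Z hZ
    obtain ⟨t, ht, hx⟩ := hx
    obtain ⟨⟨h9, h10, h11, h12⟩, -⟩ := hx Z hZ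
    rw [eps_apply, h10, h12, h9.swap]; ring)
  have hbc := hpair b c (by
    filter_upwards [hKfr] with x hx Z hZ
    obtain ⟨t, ht, hx⟩ := hx
    obtain ⟨⟨h9, h10, h11, h12⟩, -⟩ := hx Z hZ
    rw [eps_apply, h11, h12, h9.swap]; ring)
  have hfr : ∀ Z ∈ M, IsSkew (FR Z) ∧ Z a = FR Z (p a) ∧ Z b = FR Z (p b) ∧
      Z c = FR Z (p c) := by
    intro Z hZ
    obtain ⟨⟨l1, l2, l3, -⟩, -⟩ := hloop Z hZ
    obtain ⟨S, hS, h1, h2, h3⟩ := hrig Z l1 l2 l3 (hab Z hZ) (hac Z hZ) (hbc Z hZ)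
    have := hFR Z S hS h1 h2 h3
    rw [this]
    exact ⟨hS, h1, h2, h3⟩
  -- (2) `ζ` does not vanish on `M`
  have hζne : ∃ Z ∈ M, ζ Z ≠ 0 := by
    by_contra hcon
    push Not at hcon
    obtain ⟨x, hx3, hx4⟩ := (h6.and hK).exists
    have h7 := hx3 (M ⊓ Att p (Y : Set V) x) le_rfl (fun Z hZ => by
      obtain ⟨h9, h10, h11, h12⟩ := hfr Z hZ.1
      exact ⟨FR Z, h9, h10, h11, h12, sub_eq_zero.mp (hcon Z hZ.1)⟩)
    omega
  obtain ⟨Z₁, hZ₁M, hZ₁⟩ := hζne
  have hdotlin : ∀ z : Vec k, z ≠ 0 → ∀ᶠ x in gen k (Vec k), z ⬝ᵥ x ≠ 0 := by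
    intro z hz
    refine (PolyLine.linear (W := Vec k) (k := k)
        { toFun := fun x => z ⬝ᵥ x
          map_add' := fun x y => dotProduct_add _ _ _
          map_smul' := fun r x => dotProduct_smul _ _ _ }).eventually_ne ?_
    by_contra hcon
    push Not at hcon
    exact hz (dotProduct_eq_zero _ hcon)
  -- (3) the kernel of `ζ`
  have hN0 : ∀ N ≤ M, (∀ Z ∈ N, Z d = FR Z (p d)) → finrank k N ≤ 6 := by
    intro N hN hNd
    obtain ⟨x, hx1, hx2, hx3, hx4⟩ := (hK.and (hKfr.and (h6.and (hdotlin _ hZ₁)))).exists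
    obtain ⟨t, ht, hx2⟩ := hx2
    have hfd : FiniteDimensional k (M ⊓ LinearMap.ker (D x) : Submodule k (V → Vec k)) :=
      Submodule.finiteDimensional_of_le inf_le_left
    have hlt : M ⊓ LinearMap.ker (D x) < M := lt_of_le_of_ne inf_le_left fun h => hx4 (by
      have : Z₁ ∈ M ⊓ LinearMap.ker (D x) := by rw [h]; exact hZ₁M
      exact this.2)
    have h7 := Submodule.finrank_lt_finrank_of_lt hlt
    have h8 : M ⊓ Att p (Y : Set V) x = M ⊓ LinearMap.ker (D x) := by
      refine Submodule.eq_of_le_of_finrank_le (fun Z hZ => ⟨hZ.1, ?_⟩) (by omega)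
      exact (hx2 Z hZ).2.1
    refine hx3 N ?_ fun Z hZ => ?_
    · rw [h8]
      intro Z hZ
      refine ⟨hN hZ, ?_⟩
      change ζ Z ⬝ᵥ x = 0
      rw [hζ, hNd Z hZ, sub_self, zero_dotProduct]
    · obtain ⟨h9, h10, h11, h12⟩ := hfr Z (hN hZ)
      exact ⟨FR Z, h9, h10, h11, h12, hNd Z hZ⟩
  -- (4) `ζ` is onto
  have hζd : ∀ Z ∈ M, ζ Z ⬝ᵥ p d = 0 := by
    intro Z hZ
    obtain ⟨⟨-, -, -, l4⟩, -⟩ := hloop Z hZ
    rw [hζ, sub_dotProduct, l4, (hfr Z hZ).1, sub_zero]
  have honto : ∀ z : Vec k, z ⬝ᵥ p d = 0 → ∃ Z ∈ M, ζ Z = z := by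
    have h1 := LinearMap.finrank_range_add_finrank_ker (ζ.domRestrict M)
    have h2 : finrank k (LinearMap.ker (ζ.domRestrict M)) ≤ 6 := by
      have h3 := hN0 ((LinearMap.ker (ζ.domRestrict M)).map M.subtype)
        (Submodule.map_subtype_le _ _) (by
          rintro _ ⟨Z, hZ, rfl⟩
          have h4 : ζ Z.1 = 0 := LinearMap.mem_ker.mp hZ
          exact sub_eq_zero.mp h4)
      rwa [Submodule.finrank_map_subtype_eq] at h3
    have h3 : LinearMap.range (ζ.domRestrict M) ≤ Perp p ((∅ : Finset V) : Set V) (p d) := by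
      rintro _ ⟨Z, rfl⟩
      exact ⟨hζd Z.1 Z.2, fun v hv => by simp at hv⟩
    have h4 := finrank_Perp (p := p) (N := (∅ : Finset V)) (x := p d)
      (LinearIndependent.of_subsingleton none hd0)
    rw [Finset.card_empty] at h4
    have h5 : LinearMap.range (ζ.domRestrict M) = Perp p ((∅ : Finset V) : Set V) (p d) := by
      refine Submodule.eq_of_le_of_finrank_le h3 ?_
      omega
    intro z hz
    have h6 : z ∈ LinearMap.range (ζ.domRestrict M) := by
      rw [h5]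
      exact ⟨hz, fun v hv => by simp at hv⟩
    obtain ⟨Z, hZ⟩ := h6
    exact ⟨Z.1, Z.2, hZ⟩
  -- (5) the relations
  let Rf : k → V → Vec k → (V → Vec k) →ₗ[k] k := fun t y x =>
    { toFun := fun Z => t * (ζ Z ⬝ᵥ p y) + η y Z ⬝ᵥ x
      map_add' := fun Z Z' => by rw [map_add, map_add, add_dotProduct, add_dotProduct]; ring
      map_smul' := fun r Z => by
        rw [map_smul, map_smul, smul_dotProduct, smul_dotProduct]
        simp only [smul_eq_mul, RingHom.id_apply]; ring }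
  have hrel : ∀ᶠ x in gen k (Vec k), ∃ t : k, t ≠ 0 ∧ ∀ y ∈ Y, ∀ Z ∈ M, ∀ Z' ∈ M,
      (t * (ζ Z ⬝ᵥ p y) + η y Z ⬝ᵥ x) * (ζ Z' ⬝ᵥ x)
        = (t * (ζ Z' ⬝ᵥ p y) + η y Z' ⬝ᵥ x) * (ζ Z ⬝ᵥ x) := by
    filter_upwards [hKfr, hK] with x hx hx'
    obtain ⟨t, ht, hx⟩ := hx
    refine ⟨t, ht, fun y hy Z hZ Z' hZ' => ?_⟩
    exact mul_eq_of_codim (f := Rf t y x) (g := D x)
      (inf_le_left : M ⊓ Att p (Y : Set V) x ≤ M) (by omega)
      (fun Z hZ => (hx Z hZ).2.2 y hy) (fun Z hZ => (hx Z hZ).2.1) hZ hZ'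
  -- (6) a first point
  obtain ⟨y₀, hy₀, hy₀d⟩ : ∃ y ∈ Y, y ≠ d := by
    by_contra hcon
    push Not at hcon
    have : Y ⊆ {d} := fun y hy => by simpa using hcon y hy
    have := Finset.card_le_card this
    rw [Finset.card_singleton] at this
    omega
  have hone : ∀ y ∈ Y, y ≠ d → ∃ Z ∈ M, ζ Z ⬝ᵥ p y = 1 := by
    intro y hy hyd
    obtain ⟨z, hz⟩ := exists_dot_eq (hdY y hy hyd) (fun o => o.elim 0 fun _ => 1)
    obtain ⟨Z, hZ, hZz⟩ := honto z (hz none)
    exact ⟨Z, hZ, by rw [hZz]; exact hz (some ⟨y, by simp⟩)⟩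
  have htwo : 2 ≤ finrank k (Perp p (({y₀} : Finset V) : Set V) (p d)) := by
    have := finrank_Perp (hdY y₀ hy₀ hy₀d)
    rw [Finset.card_singleton] at this
    omega
  obtain ⟨z₁, hz₁, z₂, hz₂, hz12, hz1⟩ := exists_two_covec htwo
  obtain ⟨W₁, hW₁, hW₁z⟩ := honto z₁ hz₁.1
  obtain ⟨W₂, hW₂, hW₂z⟩ := honto z₂ hz₂.1
  have hW₁y : ζ W₁ ⬝ᵥ p y₀ = 0 := by rw [hW₁z]; exact hz₁.2 y₀ (by simp)
  have hW₂y : ζ W₂ ⬝ᵥ p y₀ = 0 := by rw [hW₂z]; exact hz₂.2 y₀ (by simp)
  obtain ⟨s, hs⟩ := lin_factor (ι := {Z : V → Vec k // Z ∈ M ∧ ζ Z ⬝ᵥ p y₀ = 0})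
    (L := fun Z => adjDot (ζ Z.1)) (L' := fun Z => adjDot (η y₀ Z.1)) (by
      intro Z Z' x
      have hP : PolyLine k fun x => adjDot (η y₀ Z.1) x * adjDot (ζ Z'.1) x
          - adjDot (η y₀ Z'.1) x * adjDot (ζ Z.1) x :=
        ((PolyLine.linear _).mul (PolyLine.linear _)).sub
          ((PolyLine.linear _).mul (PolyLine.linear _))
      have := hP.eq_zero_of_eventually (by
        filter_upwards [hrel] with x hx
        obtain ⟨t, -, hx⟩ := hx
        have h3 := hx y₀ hy₀ Z.1 Z.2.1 Z'.1 Z'.2.1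
        rw [Z.2.2, Z'.2.2, mul_zero, zero_add, zero_add] at h3
        exact sub_eq_zero.mpr h3) x
      exact sub_eq_zero.mp this) (i₁ := ⟨W₁, hW₁, hW₁y⟩) (i₂ := ⟨W₂, hW₂, hW₂y⟩) (by
      obtain ⟨y, h1, h2⟩ := hz12
      exact ⟨y, by simpa [hW₁z] using h1, by simpa [hW₂z] using h2⟩) (by
      obtain ⟨e, he⟩ := hz1
      exact ⟨e, by simpa [hW₁z] using he⟩)
  -- (7) the covector `τ`
  obtain ⟨Zy, hZyM, hZy⟩ := hone y₀ hy₀ hy₀d
  set τ : Vec k := s • ζ Zy - η y₀ Zy with hτ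
  have hz₁0 : z₁ ≠ 0 := by
    rintro rfl
    obtain ⟨e, he⟩ := hz1
    exact he (zero_dotProduct e)
  have hrel2 : ∀ᶠ x in gen k (Vec k), τ ⬝ᵥ x ≠ 0 ∧ ∀ y ∈ Y, ∀ Z ∈ M, ∀ Z' ∈ M,
      ((τ ⬝ᵥ x) * (ζ Z ⬝ᵥ p y) + η y Z ⬝ᵥ x) * (ζ Z' ⬝ᵥ x)
        = ((τ ⬝ᵥ x) * (ζ Z' ⬝ᵥ p y) + η y Z' ⬝ᵥ x) * (ζ Z ⬝ᵥ x) := by
    filter_upwards [hrel, hdotlin z₁ hz₁0] with x hx hx1
    obtain ⟨t, ht, hx⟩ := hx
    have h3 := hx y₀ hy₀ Zy hZyM W₁ hW₁
    have h4 := hs ⟨W₁, hW₁, hW₁y⟩ x
    simp only [adjDot_apply] at h4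
    rw [hW₁y, hZy, h4, mul_zero, zero_add, mul_one, hW₁z] at h3
    have h5 : t = τ ⬝ᵥ x := by
      rw [hτ, sub_dotProduct, smul_dotProduct, smul_eq_mul]
      apply mul_right_cancel₀ hx1
      linear_combination h3
    rw [← h5]
    exact ⟨ht, hx⟩
  have hτ0 : τ ≠ 0 := by
    obtain ⟨x, hx, -⟩ := hrel2.exists
    intro h
    rw [h, zero_dotProduct] at hx
    exact hx rfl
  refine ⟨FR, τ, hτ0, hFR, hfr, honto, hN0, fun y hy hyd Z hZ => ?_⟩
  -- (8) all points
  obtain ⟨c', hc'⟩ := lin_factor (ι := M)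
    (L := fun Z => adjDot (ζ Z.1)) (L' := fun Z => adjDot ((ζ Z.1 ⬝ᵥ p y) • τ + η y Z.1)) (by
      intro Z Z' x
      have hP : PolyLine k fun x => adjDot ((ζ Z.1 ⬝ᵥ p y) • τ + η y Z.1) x * adjDot (ζ Z'.1) x
          - adjDot ((ζ Z'.1 ⬝ᵥ p y) • τ + η y Z'.1) x * adjDot (ζ Z.1) x :=
        ((PolyLine.linear _).mul (PolyLine.linear _)).sub
          ((PolyLine.linear _).mul (PolyLine.linear _))
      have := hP.eq_zero_of_eventually (by
        filter_upwards [hrel2] with x hx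
        have h3 := hx.2 y hy Z.1 Z.2 Z'.1 Z'.2
        simp only [adjDot_apply, add_dotProduct, smul_dotProduct, smul_eq_mul]
        linear_combination h3) x
      exact sub_eq_zero.mp this) (i₁ := ⟨W₁, hW₁⟩) (i₂ := ⟨W₂, hW₂⟩) (by
      obtain ⟨y, h1, h2⟩ := hz12
      exact ⟨y, by simpa [hW₁z] using h1, by simpa [hW₂z] using h2⟩) (by
      obtain ⟨e, he⟩ := hz1
      exact ⟨e, by simpa [hW₁z] using he⟩)
  have hη' : ∀ Z ∈ M, η y Z = c' • ζ Z - (ζ Z ⬝ᵥ p y) • τ := by
    intro Z hZ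
    have h3 : (ζ Z ⬝ᵥ p y) • τ + η y Z - c' • ζ Z = 0 := by
      refine dotProduct_eq_zero _ fun x => ?_
      have := hc' ⟨Z, hZ⟩ x
      simp only [adjDot_apply] at this
      rw [sub_dotProduct, this, smul_dotProduct, smul_eq_mul, sub_self]
    rw [← sub_eq_zero, ← h3]
    abel
  have hc'' : c' = τ ⬝ᵥ p y := by
    obtain ⟨Z', hZ'M, hZ'⟩ := hone y hy hyd
    have h3 : η y Z' ⬝ᵥ p y = 0 := by
      rw [hη, sub_dotProduct, (hloop Z' hZ'M).2 y hy, (hfr Z' hZ'M).1, sub_zero]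
    rw [hη' Z' hZ'M, sub_dotProduct, smul_dotProduct, smul_dotProduct, hZ'] at h3
    simp only [smul_eq_mul, mul_one, one_mul] at h3
    exact sub_eq_zero.mp h3
  have := hη' Z hZ
  rw [hc''] at this
  exact this

/-- the statement of FACT R at a position -/
def FactRAt [Infinite k] [DecidableEq V] (B : Finset V) (p : V → Vec k) : Prop :=
  ∀ E : Set (Sym2 V), ∀ N : Finset V, N ⊆ B → N.card = 5 →
      (∀ᶠ x in gen k (Vec k), finrank k (Mot B E p) ≤
        finrank k (Mot B E p ⊓ Att p (N : Set V) x :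
          Submodule k (V → Vec k)) + 1) →
      finrank k (Mot B E p) ≤
        finrank k (Mot B E p ⊓ RG p (N : Set V) : Submodule k (V → Vec k)) + 1 ∨
      ∃ i ∈ N, Mot B E p ≤ RG p ((N.erase i : Finset V) : Set V)

/-- FACT R excludes type B sets with two degrees of freedom. -/
lemma FactRAt.not_TB [Infinite k] [DecidableEq V] {B : Finset V} {p : V → Vec k}
    (hF : FactRAt B p) (hgp : GenPos p (B : Set V)) {a b c d e : V} (ha : a ∈ B) (hb : b ∈ B)
    (hc : c ∈ B) (hd : d ∈ B) (he : e ∈ B) (hab : a ≠ b) (hac : a ≠ c) (had : a ≠ d)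
    (hae : a ≠ e) (hbc : b ≠ c) (hbd : b ≠ d) (hbe : b ≠ e) (hcd : c ≠ d) (hce : c ≠ e)
    (hde : d ≠ e) {E : Set (Sym2 V)} {t : k} (ht : t ≠ 0) (hTB : Mot B E p ≤ TB p a b c d e t)
    (h8 : 8 ≤ finrank k (Mot B E p))
    (h6 : finrank k (Mot B E p ⊓ RG p ({a, b, c, d, e} : Set V) :
      Submodule k (V → Vec k)) ≤ 6) : False := by
  have hN : (({a, b, c, d, e} : Finset V) : Set V) = {a, b, c, d, e} := by simp
  have hNB : ({a, b, c, d, e} : Finset V) ⊆ B := by
    intro v hv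
    simp only [Finset.mem_insert, Finset.mem_singleton] at hv
    rcases hv with rfl | rfl | rfl | rfl | rfl <;> assumption
  have hcard : ({a, b, c, d, e} : Finset V).card = 5 := by
    rw [Finset.card_insert_of_notMem (by simp [hab, hac, had, hae]),
      Finset.card_insert_of_notMem (by simp [hbc, hbd, hbe]),
      Finset.card_insert_of_notMem (by simp [hcd, hce]),
      Finset.card_insert_of_notMem (by simp [hde]), Finset.card_singleton]
  have hgpN : GenPos p ({a, b, c, d, e} : Set V) := by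
    rw [← hN]; exact hgp.mono (by exact_mod_cast hNB)
  rcases hF E {a, b, c, d, e} hNB hcard (Filter.Eventually.of_forall fun x =>
    finrank_le_of_TB (a := a) (b := b) (c := c) (d := d) (e := e) (by
      intro v hv
      rw [hN] at hv
      simpa using hv) hTB x) with h | ⟨i, hi, h⟩
  · rw [hN] at h
    omega
  · have h1 : Mot B E p ≤ RG p ({a, b, c, d, e} : Set V) := by
      intro Z hZ
      refine mem_RG_of_TB_of_four hgpN hab hac had hae hbc hbd hbe hcd hce hde ht (hTB hZ)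
        (i := i) ?_
      have h2 := h hZ
      rwa [Finset.coe_erase, hN] at h2
    rw [inf_eq_left.mpr h1] at h6
    omega

lemma adj_finrank_le_inf_ker {W : Type*} [AddCommGroup W] [Module k W] (M : Submodule k W)
    [FiniteDimensional k M] (f : W →ₗ[k] k) :
    finrank k M ≤ finrank k (M ⊓ LinearMap.ker f : Submodule k W) + 1 := by
  have h1 := LinearMap.finrank_range_add_finrank_ker (f.domRestrict M)
  have h2 : finrank k (LinearMap.range (f.domRestrict M)) ≤ 1 := by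
    have := Submodule.finrank_le (LinearMap.range (f.domRestrict M))
    rwa [Module.finrank_self] at this
  have h3 : (LinearMap.ker (f.domRestrict M)).map M.subtype = M ⊓ LinearMap.ker f := by
    ext z
    constructor
    · rintro ⟨y, hy, rfl⟩
      exact ⟨y.2, hy⟩
    · rintro ⟨hz, hz'⟩
      exact ⟨⟨z, hz⟩, hz', rfl⟩
  rw [← h3, Submodule.finrank_map_subtype_eq]
  omega

/-- The skew map `τ ∧ ζ`. -/
def wedge (τ ζ : Vec k) : Vec k →ₗ[k] Vec k where
  toFun x := (τ ⬝ᵥ x) • ζ - (ζ ⬝ᵥ x) • τ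
  map_add' x y := by
    simp only [dotProduct_add, add_smul]; abel
  map_smul' r x := by
    simp only [dotProduct_smul, smul_eq_mul, mul_smul, smul_sub, RingHom.id_apply]

lemma wedge_apply (τ ζ x : Vec k) : wedge τ ζ x = (τ ⬝ᵥ x) • ζ - (ζ ⬝ᵥ x) • τ := rfl

lemma isSkew_wedge (τ ζ : Vec k) : IsSkew (wedge τ ζ) := fun x => by
  rw [wedge_apply, sub_dotProduct, smul_dotProduct, smul_dotProduct, smul_eq_mul, smul_eq_mul]
  ring

/-- **Adjacency, rod ends.**  In the dimensions of a minimal counterexample (`B` has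
9-dimensional motions, the degree four vertex `w` one dimension less) the set `a b c d w` is not
of type B with rod `d w`, unless its rigid motions have dimension at least seven.
The vertex `u` is a fresh vertex. -/
theorem adjR [Infinite k] [DecidableEq V] (h2 : (2 : k) ≠ 0) {B : Finset V} {w u : V}
    (hw : w ∉ B) (hu : u ∉ B) {a b c d : V} (ha : a ∈ B) (hb : b ∈ B) (hc : c ∈ B) (hd : d ∈ B)
    (hab : a ≠ b) (hac : a ≠ c) (had : a ≠ d) (hbc : b ≠ c) (hbd : b ≠ d) (hcd : c ≠ d)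
    {E : Set (Sym2 V)} (hW : (nbr B E w).card = 4)
    (h9 : ∀ᶠ p in gen k (V → Vec k), mdim B E p = 9)
    (h8 : ∀ᶠ p in gen k (V → Vec k), mdim (insert w B) E p = 8)
    (h6 : ∀ᶠ p in gen k (V → Vec k), finrank k (Mot (insert w B) E p ⊓
      RG p ({a, b, c, d, w} : Set V) : Submodule k (V → Vec k)) ≤ 6)
    (hTB : ∀ᶠ p in gen k (V → Vec k), ∃ t : k, t ≠ 0 ∧
      Mot (insert w B) E p ≤ TB p a b c d w t)
    (hCP : ∀ᶠ p in gen k (V → Vec k), CliqueProp (insert u B) p) : False := by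
  obtain ⟨p, hp9, hpg, hpF, hpx⟩ := (h9.and ((eventually_genPos (k := k) B).and
    ((factR_set hu h2 hCP).and
      (eventually_update (h8.and (h6.and hTB)) w)))).exists
  have hYB : nbr B E w ⊆ B := nbr_subset _ _ _
  have hwW : w ∉ nbr B E w := fun h => hw (hYB h)
  have hne : ∀ a ∈ B, a ≠ w := fun a ha h => hw (h ▸ ha)
  have hMot : ∀ x : Vec k, Mot B E (Function.update p w x) = Mot B E p := fun x =>
    Mot_congr_pts fun a ha => Function.update_of_ne (hne a ha) _ _
  have hAtt : ∀ x : Vec k, Att (Function.update p w x) (nbr B E w : Set V) x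
      = Att p (nbr B E w : Set V) x := fun x => Att_update (by simpa using hwW) p x x
  have hmap : ∀ x : Vec k, (Mot (insert w B) E (Function.update p w x)).map (forget k w)
      = Mot B E p ⊓ Att p (nbr B E w : Set V) x := by
    intro x
    rw [map_forget_Mot hw, hMot, Function.update_self, hAtt]
  have hfin : ∀ᶠ x in gen k (Vec k), finrank k (Mot B E p ⊓ Att p (nbr B E w : Set V) x :
      Submodule k (V → Vec k)) = 8 := by
    filter_upwards [hpx] with x hx
    have hg : GenPos (Function.update p w x) (nbr B E w : Set V) := by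
      intro S hS hc
      have h3 := hpg S (hS.trans (by exact_mod_cast hYB)) hc
      have e : (fun v : S => Function.update p w x v) = fun v : S => p v := by
        funext v
        exact Function.update_of_ne (fun h => hwW (by
          have := hS (Finset.mem_coe.mpr v.2)
          rw [h] at this
          simpa using this)) _ _
      rw [e]
      exact h3
    have h3 := mdim_insert_of_four_le hw E (Function.update p w x) hg (by omega)
    rw [hx.1, hMot, Function.update_self, hAtt] at h3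
    exact h3.symm
  have habc : LinearIndependent k ![p a, p b, p c] :=
    hpg.li3 (by simpa using ha) (by simpa using hb) (by simpa using hc) hab hac hbc
  -- the motions of `insert w B`, at a generic position of `w`
  have hext : ∀ (x : Vec k) (t : k), Mot (insert w B) E (Function.update p w x)
      ≤ TB (Function.update p w x) a b c d w t →
      ∀ Z ∈ Mot B E p ⊓ Att p (nbr B E w : Set V) x, ∃ S : Vec k →ₗ[k] Vec k, IsSkew S ∧
        ∃ g : Vec k, g ⬝ᵥ p d = 0 ∧ g ⬝ᵥ x = 0 ∧ Z a = S (p a) ∧ Z b = S (p b) ∧ Z c = S (p c) ∧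
        Z d = S (p d) + g ∧ ∃ Z' ∈ Mot (insert w B) E (Function.update p w x),
          forget k w Z' = Z ∧ Z' w = S x + t • g := by
    intro x t hx Z hZ
    rw [← hmap x] at hZ
    obtain ⟨Z', hZ', rfl⟩ := hZ
    obtain ⟨S, hS, g, h1, h3, h4, h5, h6, h7, h8⟩ := hx hZ'
    rw [Function.update_of_ne (hne d hd)] at h1
    rw [Function.update_self] at h3
    rw [Function.update_of_ne (hne a ha)] at h4
    rw [Function.update_of_ne (hne b hb)] at h5
    rw [Function.update_of_ne (hne c hc)] at h6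
    rw [Function.update_of_ne (hne d hd)] at h7
    rw [Function.update_self] at h8
    refine ⟨S, hS, g, h1, h3, ?_, ?_, ?_, ?_, Z', hZ', rfl, h8⟩
    · rw [forget_apply_of_ne (hne a ha)]; exact h4
    · rw [forget_apply_of_ne (hne b hb)]; exact h5
    · rw [forget_apply_of_ne (hne c hc)]; exact h6
    · rw [forget_apply_of_ne (hne d hd)]; exact h7
  have hM9 : finrank k (Mot B E p) = 9 := hp9
  obtain ⟨FR, τ, hτ0, hFR, hfr, honto, hN0, hη⟩ := adjR_tau (M := Mot B E p) (p := p) (a := a)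
    (b := b) (c := c) (d := d) (Y := nbr B E w) habc (by
      intro y hy hyd
      refine GenPos.option (by simpa using Ne.symm hyd) (hpg.mono ?_) (by simp)
      intro v hv
      have hv' : v = d ∨ v = y := by simpa using hv
      rcases hv' with rfl | rfl
      · exact Finset.mem_coe.mpr hd
      · exact Finset.mem_coe.mpr (hYB hy)) (hpg.ne_zero (by simpa using hd)) (by omega) hM9 hfin
    (by
      intro Z la lb lc eab eac ebc
      have h3 : Z ∈ RG p (({a, b, c} : Finset V) : Set V) := by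
        refine mem_RG_of_rigid (hpg.mono ?_) ?_ ?_ ?_
        · intro v hv
          have hv' : v = a ∨ v = b ∨ v = c := by simpa using hv
          rcases hv' with rfl | rfl | rfl <;> simpa
        · rw [Finset.card_insert_of_notMem (by simp [hab, hac]),
            Finset.card_insert_of_notMem (by simp [hbc]), Finset.card_singleton]
        · intro v hv
          simp only [Finset.mem_insert, Finset.mem_singleton] at hv
          rcases hv with rfl | rfl | rfl <;> assumption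
        · intro v hv v' hv'
          simp only [Finset.mem_insert, Finset.mem_singleton] at hv hv'
          have hself : ∀ v, Z v ⬝ᵥ p v = 0 → eps p v v Z = 0 := fun v hv => by
            rw [eps_apply, hv, add_zero]
          rcases hv with rfl | rfl | rfl <;> rcases hv' with rfl | rfl | rfl <;>
            first | exact hself _ ‹_› | assumption | (rw [eps_comm]; assumption)
      obtain ⟨S, hS, h4⟩ := h3
      exact ⟨S, hS, h4 a (by simp), h4 b (by simp), h4 c (by simp)⟩)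
    (fun Z hZ => ⟨⟨hZ.2.1 a ha, hZ.2.1 b hb, hZ.2.1 c hc, hZ.2.1 d hd⟩,
      fun y hy => hZ.2.1 y (hYB hy)⟩)
    (by
      filter_upwards [hpx] with x hx
      obtain ⟨t, ht, hx3⟩ := hx.2.2
      refine ⟨t, ht, fun Z hZ => ?_⟩
      obtain ⟨S, hS, g, h1, h3, h4, h5, h6, h7, Z', hZ', hfg, h8⟩ := hext x t hx3 Z hZ
      refine ⟨S, hS, g, h1, h3, h4, h5, h6, h7, fun y hy => ?_⟩
      have hyw : y ≠ w := hne y (hYB hy)
      have h10 := hZ'.2.2 w (by simp) y (by simp [hYB hy]) (mem_nbr.mp hy).2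
      rw [eps_apply, Function.update_self, Function.update_of_ne hyw, h8] at h10
      rw [← hfg, forget_apply_of_ne hyw]
      exact h10)
    (by
      filter_upwards [hpx] with x hx N hN hNr
      obtain ⟨t, ht, hx3⟩ := hx.2.2
      have h3 : N ≤ (Mot (insert w B) E (Function.update p w x) ⊓
          RG (Function.update p w x) ({a, b, c, d, w} : Set V) :
            Submodule k (V → Vec k)).map (forget k w) := by
        intro Z hZ
        obtain ⟨S, hS, g, h1, h3, h4, h5, h6, h7, Z', hZ', hfg, h8⟩ := hext x t hx3 Z (hN hZ)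
        obtain ⟨S', hS', k1, k2, k3, k4⟩ := hNr Z hZ
        have hSS : S' = S := by
          have := IsSkew.eq_zero_of_three (hS'.sub hS) habc
            (by rw [LinearMap.sub_apply, ← k1, ← h4, sub_self])
            (by rw [LinearMap.sub_apply, ← k2, ← h5, sub_self])
            (by rw [LinearMap.sub_apply, ← k3, ← h6, sub_self])
          exact sub_eq_zero.mp this
        rw [hSS] at k4
        have hg : g = 0 := by
          rw [k4] at h7
          exact (left_eq_add.mp h7)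
        rw [hg, smul_zero, add_zero] at h8
        refine ⟨Z', ⟨hZ', S, hS, fun i hi => ?_⟩, hfg⟩
        have hZi : ∀ i, i ≠ w → Z' i = Z i := fun i hi => by
          rw [← hfg, forget_apply_of_ne hi]
        rcases hi with rfl | rfl | rfl | rfl | rfl
        · rw [Function.update_of_ne (hne _ ha), hZi _ (hne _ ha), h4]
        · rw [Function.update_of_ne (hne _ hb), hZi _ (hne _ hb), h5]
        · rw [Function.update_of_ne (hne _ hc), hZi _ (hne _ hc), h6]
        · rw [Function.update_of_ne (hne _ hd), hZi _ (hne _ hd), k4]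
        · rw [Function.update_self, h8]
      have h4 := Submodule.finrank_mono h3
      have h5 := Submodule.finrank_map_le (forget k w)
        (Mot (insert w B) E (Function.update p w x) ⊓
          RG (Function.update p w x) ({a, b, c, d, w} : Set V) : Submodule k (V → Vec k))
      have h6 := hx.2.1
      omega)
  set M := Mot B E p with hMdef
  have hζd : ∀ Z ∈ M, (Z d - FR Z (p d)) ⬝ᵥ p d = 0 := by
    intro Z hZ
    rw [sub_dotProduct, hZ.2.1 d hd, (hfr Z hZ).1, sub_zero]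
  have hnotRG : ¬ M ≤ RG p (nbr B E w : Set V) := by
    intro hcon
    obtain ⟨x, hx⟩ := hfin.exists
    rw [inf_eq_left.mpr (hcon.trans (RG_le_Att p _ x))] at hx
    omega
  have hwedge : ∀ y ∈ nbr B E w, y ≠ d → ∀ Z ∈ M,
      Z y = (FR Z + wedge τ (Z d - FR Z (p d))) (p y) := by
    intro y hy hyd Z hZ
    have := hη y hy hyd Z hZ
    rw [LinearMap.add_apply, wedge_apply, ← this]
    abel
  have hdY : d ∈ nbr B E w := by
    by_contra hcon
    apply hnotRG
    intro Z hZ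
    refine ⟨FR Z + wedge τ (Z d - FR Z (p d)), (hfr Z hZ).1.add (isSkew_wedge _ _),
      fun y hy => ?_⟩
    have hy' : y ∈ nbr B E w := by simpa using hy
    exact hwedge y hy' (fun h => hcon (h ▸ hy')) Z hZ
  have hτd : τ ⬝ᵥ p d ≠ 1 := by
    intro h1
    apply hnotRG
    intro Z hZ
    refine ⟨FR Z + wedge τ (Z d - FR Z (p d)), (hfr Z hZ).1.add (isSkew_wedge _ _),
      fun y hy => ?_⟩
    have hy' : y ∈ nbr B E w := by simpa using hy
    by_cases hyd : y = d
    · subst hyd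
      rw [LinearMap.add_apply, wedge_apply, h1, one_smul, hζd Z hZ, zero_smul, sub_zero]
      abel
    · exact hwedge y hy' hyd Z hZ
  -- body points are not in `Y`
  have hbody : ∀ i ∈ B, i ≠ d → (∀ Z ∈ M, Z i = FR Z (p i)) → i ∉ nbr B E w := by
    intro i hi hid hZi hiY
    have hopt : LinearIndependent k
        (fun o : Option ({i} : Finset V) => o.elim (p d) fun v => p v) := by
      refine GenPos.option (by simpa using Ne.symm hid) (hpg.mono ?_) (by simp)
      intro v hv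
      have hv' : v = d ∨ v = i := by simpa using hv
      rcases hv' with rfl | rfl
      · exact Finset.mem_coe.mpr hd
      · exact Finset.mem_coe.mpr hi
    have h3 : ∀ Z ∈ M, (τ ⬝ᵥ p i) • (Z d - FR Z (p d)) = ((Z d - FR Z (p d)) ⬝ᵥ p i) • τ := by
      intro Z hZ
      have := hη i hiY hid Z hZ
      rw [hZi Z hZ, sub_self] at this
      exact (sub_eq_zero.mp this.symm)
    have htwo : 2 ≤ finrank k (Perp p (({i} : Finset V) : Set V) (p d)) := by
      have := finrank_Perp hopt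
      rw [Finset.card_singleton] at this
      omega
    obtain ⟨z₁, hz₁, -, -, -, e, he⟩ := exists_two_covec htwo
    obtain ⟨Z1, hZ1, hZ1z⟩ := honto z₁ hz₁.1
    have h4 := h3 Z1 hZ1
    rw [hZ1z, hz₁.2 i (by simp), zero_smul] at h4
    have h5 : τ ⬝ᵥ p i = 0 := by
      rcases smul_eq_zero.mp h4 with h | h
      · exact h
      · rw [h, zero_dotProduct] at he
        exact absurd rfl he
    obtain ⟨z, hz⟩ := exists_dot_eq hopt (fun o => o.elim 0 fun _ => 1)
    obtain ⟨Z2, hZ2, hZ2z⟩ := honto z (hz none)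
    have h6 := h3 Z2 hZ2
    have h7 : z ⬝ᵥ p i = 1 := hz (some ⟨i, by simp⟩)
    rw [h5, zero_smul, hZ2z, h7, one_smul] at h6
    exact hτ0 h6.symm
  -- the other three points
  obtain ⟨y₁, y₂, y₃, hy12, hy13, hy23, hYe⟩ := Finset.card_eq_three.mp
    (show ((nbr B E w).erase d).card = 3 by rw [Finset.card_erase_of_mem hdY, hW])
  have hyj : ∀ y ∈ ({y₁, y₂, y₃} : Finset V), y ∈ nbr B E w ∧ y ≠ d := by
    intro y hy
    rw [← hYe] at hy
    exact ⟨Finset.mem_of_mem_erase hy, Finset.ne_of_mem_erase hy⟩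
  have hy₁ := hyj y₁ (by simp)
  have hy₂ := hyj y₂ (by simp)
  have hy₃ := hyj y₃ (by simp)
  have hnea : ∀ y ∈ ({y₁, y₂, y₃} : Finset V), y ≠ a ∧ y ≠ b ∧ y ≠ c := by
    intro y hy
    have h3 := (hyj y hy).1
    refine ⟨?_, ?_, ?_⟩
    · rintro rfl
      exact hbody y ha had (fun Z hZ => (hfr Z hZ).2.1) h3
    · rintro rfl
      exact hbody y hb hbd (fun Z hZ => (hfr Z hZ).2.2.1) h3
    · rintro rfl
      exact hbody y hc hcd (fun Z hZ => (hfr Z hZ).2.2.2) h3
  have hna₁ := hnea y₁ (by simp)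
  have hna₂ := hnea y₂ (by simp)
  have hna₃ := hnea y₃ (by simp)
  have hyyy : LinearIndependent k ![p y₁, p y₂, p y₃] :=
    hpg.li3 (by simpa using hYB hy₁.1) (by simpa using hYB hy₂.1) (by simpa using hYB hy₃.1)
      hy12 hy13 hy23
  -- `τ` does not vanish at some point
  have hsome : τ ⬝ᵥ p a ≠ 0 ∨ τ ⬝ᵥ p b ≠ 0 ∨ τ ⬝ᵥ p c ≠ 0 ∨ τ ⬝ᵥ p y₁ ≠ 0 := by
    by_contra hcon
    push Not at hcon
    obtain ⟨q1, q2, q3, q4⟩ := hcon
    have hsub : ({a, b, c, y₁} : Finset V) ⊆ B := by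
      intro v hv
      simp only [Finset.mem_insert, Finset.mem_singleton] at hv
      rcases hv with rfl | rfl | rfl | rfl
      exacts [ha, hb, hc, hYB hy₁.1]
    have hcard : ({a, b, c, y₁} : Finset V).card = 4 := by
      rw [Finset.card_insert_of_notMem (by simp [hab, hac, Ne.symm hna₁.1]),
        Finset.card_insert_of_notMem (by simp [hbc, Ne.symm hna₁.2.1]),
        Finset.card_insert_of_notMem (by simp [Ne.symm hna₁.2.2]), Finset.card_singleton]
    have hsp : Spans p ({a, b, c, y₁} : Finset V) :=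
      (hpg.mono (by exact_mod_cast hsub)).spans (by omega)
    apply hτ0
    refine dotProduct_eq_zero _ fun x => ?_
    obtain ⟨cf, rfl⟩ := hsp x
    rw [dotProduct_sum]
    refine Finset.sum_eq_zero fun i hi => ?_
    rw [dotProduct_smul]
    simp only [Finset.mem_insert, Finset.mem_singleton] at hi
    rcases hi with rfl | rfl | rfl | rfl
    · rw [q1, smul_zero]
    · rw [q2, smul_zero]
    · rw [q3, smul_zero]
    · rw [q4, smul_zero]
  -- second alternative
  have key2 : ∀ i ∈ B, i ≠ d → (∀ Z ∈ M, Z i = FR Z (p i)) → τ ⬝ᵥ p i ≠ 0 → False := by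
    intro i hi hid hZi hτi
    have hiY := hbody i hi hid hZi
    have hne' : ∀ y ∈ nbr B E w, y ≠ i := fun y hy h => hiY (h ▸ hy)
    have h1d : (1 : k) - τ ⬝ᵥ p d ≠ 0 := fun h => hτd (by linear_combination -h)
    have hMi : Mot B (insert s(d, i) E) p = M ⊓ LinearMap.ker (eps p d i) :=
      Mot_insert_pair E p hd hi
    have heps : ∀ Z ∈ M, eps p d i Z = (Z d - FR Z (p d)) ⬝ᵥ p i := by
      intro Z hZ
      rw [eps_apply, hZi Z hZ, (hfr Z hZ).1.swap (p i) (p d), sub_dotProduct]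
      ring
    have hM'' : ∀ Z ∈ Mot B (insert s(d, i) E) p, Z ∈ M ∧ (Z d - FR Z (p d)) ⬝ᵥ p i = 0 := by
      intro Z hZ
      rw [hMi] at hZ
      exact ⟨hZ.1, by rw [← heps Z hZ.1]; exact hZ.2⟩
    refine FactRAt.not_TB (B := B) (p := p) hpF hpg (a := y₁) (b := y₂) (c := y₃) (d := d) (e := i)
      (hYB hy₁.1) (hYB hy₂.1) (hYB hy₃.1) hd hi hy12 hy13 hy₁.2 (hne' _ hy₁.1) hy23 hy₂.2
      (hne' _ hy₂.1) hy₃.2 (hne' _ hy₃.1) (Ne.symm hid) (E := insert s(d, i) E)
      (t := -(τ ⬝ᵥ p i) / (1 - τ ⬝ᵥ p d)) (div_ne_zero (neg_ne_zero.mpr hτi) h1d) ?_ ?_ ?_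
    · intro Z hZ
      obtain ⟨hZM, hZi0⟩ := hM'' Z hZ
      refine ⟨FR Z + wedge τ (Z d - FR Z (p d)), (hfr Z hZM).1.add (isSkew_wedge _ _),
        (1 - τ ⬝ᵥ p d) • (Z d - FR Z (p d)), ?_, ?_, hwedge y₁ hy₁.1 hy₁.2 Z hZM,
        hwedge y₂ hy₂.1 hy₂.2 Z hZM, hwedge y₃ hy₃.1 hy₃.2 Z hZM, ?_, ?_⟩
      · rw [smul_dotProduct, hζd Z hZM, smul_zero]
      · rw [smul_dotProduct, hZi0, smul_zero]
      · rw [LinearMap.add_apply, wedge_apply, hζd Z hZM, zero_smul, sub_zero, sub_smul, one_smul]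
        abel
      · rw [LinearMap.add_apply, wedge_apply, hZi0, zero_smul, sub_zero, smul_smul,
          div_mul_cancel₀ _ h1d, neg_smul, hZi Z hZM]
        abel
    · rw [hMi]
      have := adj_finrank_le_inf_ker M (eps p d i)
      omega
    · refine hN0 _ (fun Z hZ => (hM'' Z hZ.1).1) ?_
      rintro Z ⟨hZ, S, hS, hSr⟩
      obtain ⟨hZM, hZi0⟩ := hM'' Z hZ
      have hSS : S = FR Z + wedge τ (Z d - FR Z (p d)) := by
        have hsk : IsSkew (FR Z + wedge τ (Z d - FR Z (p d))) :=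
          (hfr Z hZM).1.add (isSkew_wedge _ _)
        have := IsSkew.eq_zero_of_three (hS.sub hsk) hyyy
          (by rw [LinearMap.sub_apply, ← hSr y₁ (by simp), ← hwedge y₁ hy₁.1 hy₁.2 Z hZM,
            sub_self])
          (by rw [LinearMap.sub_apply, ← hSr y₂ (by simp), ← hwedge y₂ hy₂.1 hy₂.2 Z hZM,
            sub_self])
          (by rw [LinearMap.sub_apply, ← hSr y₃ (by simp), ← hwedge y₃ hy₃.1 hy₃.2 Z hZM,
            sub_self])
        exact sub_eq_zero.mp this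
      have h3 := hSr d (by simp)
      rw [hSS, LinearMap.add_apply, wedge_apply, hζd Z hZM, zero_smul, sub_zero] at h3
      have h4 : (1 - τ ⬝ᵥ p d) • (Z d - FR Z (p d)) = 0 := by
        rw [sub_smul, one_smul, sub_eq_zero, sub_eq_iff_eq_add', ← h3]
      rcases smul_eq_zero.mp h4 with h | h
      · exact absurd h h1d
      · exact sub_eq_zero.mp h
  rcases hsome with h | h | h | h
  · exact key2 a ha had (fun Z hZ => (hfr Z hZ).2.1) h
  · exact key2 b hb hbd (fun Z hZ => (hfr Z hZ).2.2.1) h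
  · exact key2 c hc hcd (fun Z hZ => (hfr Z hZ).2.2.2) h
  · -- first alternative
    have h1d : (1 : k) - τ ⬝ᵥ p d ≠ 0 := fun h => hτd (by linear_combination -h)
    have hy₁B := hYB hy₁.1
    have hMi : Mot B (insert s(d, y₁) E) p = M ⊓ LinearMap.ker (eps p d y₁) :=
      Mot_insert_pair E p hd hy₁B
    have hyη : ∀ Z ∈ M, Z y₁ = FR Z (p y₁) + ((τ ⬝ᵥ p y₁) • (Z d - FR Z (p d))
        - ((Z d - FR Z (p d)) ⬝ᵥ p y₁) • τ) := by
      intro Z hZ
      rw [← hη y₁ hy₁.1 hy₁.2 Z hZ]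
      abel
    have heps : ∀ Z ∈ M, eps p d y₁ Z = (1 - τ ⬝ᵥ p d) * ((Z d - FR Z (p d)) ⬝ᵥ p y₁) := by
      intro Z hZ
      have h3 := hyη Z hZ
      have h4 : Z y₁ ⬝ᵥ p d = FR Z (p y₁) ⬝ᵥ p d
          - ((Z d - FR Z (p d)) ⬝ᵥ p y₁) * (τ ⬝ᵥ p d) := by
        rw [h3, add_dotProduct, sub_dotProduct, smul_dotProduct, smul_dotProduct, hζd Z hZ,
          smul_zero, zero_sub, smul_eq_mul]
        ring
      rw [eps_apply, h4, (hfr Z hZ).1.swap (p y₁) (p d), sub_dotProduct]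
      ring
    have hM'' : ∀ Z ∈ Mot B (insert s(d, y₁) E) p,
        Z ∈ M ∧ (Z d - FR Z (p d)) ⬝ᵥ p y₁ = 0 := by
      intro Z hZ
      rw [hMi] at hZ
      refine ⟨hZ.1, ?_⟩
      have h3 : eps p d y₁ Z = 0 := hZ.2
      rw [heps Z hZ.1] at h3
      exact (mul_eq_zero.mp h3).resolve_left h1d
    refine FactRAt.not_TB (B := B) (p := p) hpF hpg (a := a) (b := b) (c := c) (d := d) (e := y₁)
      ha hb hc hd hy₁B hab hac had (Ne.symm hna₁.1) hbc hbd (Ne.symm hna₁.2.1) hcd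
      (Ne.symm hna₁.2.2) (Ne.symm hy₁.2) (E := insert s(d, y₁) E) (t := τ ⬝ᵥ p y₁) h ?_ ?_ ?_
    · intro Z hZ
      obtain ⟨hZM, hZ0⟩ := hM'' Z hZ
      obtain ⟨hS, f1, f2, f3⟩ := hfr Z hZM
      refine ⟨FR Z, hS, Z d - FR Z (p d), hζd Z hZM, hZ0, f1, f2, f3, by abel, ?_⟩
      have h3 := hyη Z hZM
      rw [hZ0, zero_smul, sub_zero] at h3
      exact h3
    · rw [hMi]
      have := adj_finrank_le_inf_ker M (eps p d y₁)
      omega
    · refine hN0 _ (fun Z hZ => (hM'' Z hZ.1).1) ?_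
      rintro Z ⟨hZ, S, hS, hSr⟩
      rw [hFR Z S hS (hSr a (by simp)) (hSr b (by simp)) (hSr c (by simp))]
      exact hSr d (by simp)

end GR
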