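import Pool.Agent.Lib.GR.FiveRel

/-!
# Two consequences of the five point lemma for the minimal counterexample

* `MinCE.noAB`: a vertex of degree five is not of type A and of type B.
* `MinCE.no_Dstar`: if `u` is of type B with body `a b c`, rod `d e` and ratio `t`, and `x y z` are
  three external neighbours of `a`, then `p e - t p d` is not generically in the span of
  `p x, p y, p z`.
-/

set_option linter.unusedSectionVars false

namespace GR

open Filter Module

open scoped Matrix

variable {k : Type*} [Field k] [Infinite k] {V : Type*} [DecidableEq V]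

section

variable {A : Finset V} {E : Finset (Sym2 V)}

lemma MinCE.two_le (h : MinCE k A E) {p : V → Vec k} (hp : Nice A p) {u : V} (hu : u ∈ A)
    (h5 : (nbr (A.erase u) (E : Set (Sym2 V)) u).card = 5) :
    finrank k (Mot (A.erase u) (E : Set (Sym2 V)) p ⊓
      RG p (nbr (A.erase u) (E : Set (Sym2 V)) u : Set V) : Submodule k (V → Vec k)) + 2
      ≤ finrank k (Mot (A.erase u) (E : Set (Sym2 V)) p) := by
  have h3 := h.finrank_inf_RG hp hu
  have h4 : finrank k (Mot (A.erase u) (E : Set (Sym2 V)) p) = gdim k (A.erase u)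
    (E : Set (Sym2 V)) := hp.reg _ (Finset.erase_subset u A) _
  rw [h4, h.gdim_erase hu h5]
  omega

variable {u a b c d e : V}

lemma TypB.nbr_card (hB : TypB k A E u a b c d e) :
    (nbr (A.erase u) (E : Set (Sym2 V)) u).card = 5 := hB.lab.card

lemma TypB.mem_erase (hB : TypB k A E u a b c d e) {w : V}
    (hw : w = a ∨ w = b ∨ w = c ∨ w = d ∨ w = e) : w ∈ A.erase u := by
  have : w ∈ nbr (A.erase u) (E : Set (Sym2 V)) u := by
    rcases hw with rfl | rfl | rfl | rfl | rfl
    exacts [hB.lab.ha, hB.lab.hb, hB.lab.hc, hB.lab.hd, hB.lab.he]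
  exact nbr_subset _ _ _ this

lemma TypB.gp (hB : TypB k A E u a b c d e) {p : V → Vec k} (hp : Nice A p) :
    GenPos p (nbr (A.erase u) (E : Set (Sym2 V)) u : Set V) := by
  have _ := hB.mem
  exact hp.gp.mono (by exact_mod_cast (nbr_subset _ _ _).trans (Finset.erase_subset u A))

/-- no body-rod pair is rigid -/
lemma TypB.exists_ne (hB : TypB k A E u a b c d e) (h : MinCE k A E) {p : V → Vec k}
    (hp : Nice A p) {w r : V} (hw : w = a ∨ w = b ∨ w = c) (hr : r = d ∨ r = e) :
    ∃ Z ∈ Mot (A.erase u) (E : Set (Sym2 V)) p, eps p w r Z ≠ 0 := by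
  obtain ⟨t, ht, hM⟩ := hB.typ p hp
  have h1 := TB_not_rigid hB.lab (hB.gp hp) (h.two_le hp hB.mem hB.nbr_card) ht hM hw hr
  push Not at h1
  exact h1

/-- **The five point lemma at a body vertex of a vertex of type B.** -/
theorem TypB.five (hB : TypB k A E u a b c d e) (h : MinCE k A E) {w : V}
    (hw : w = a ∨ w = b ∨ w = c) {T : Finset V} (hTA : T ⊆ A.erase u) (hT : T.card = 5)
    (hd : d ∈ T) (he : e ∈ T)
    (hdep : ∃ᶠ p in gen k (V → Vec k), ∀ ν ∈ DepM T p, ∀ t : k, t ≠ 0 →
      Mot (A.erase u) (E : Set (Sym2 V)) p ≤ TB p a b c d e t → ν d + ν e * t = 0) :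
    ∀ᶠ p in gen k (V → Vec k),
      (Mot (A.erase u) (E : Set (Sym2 V)) p ⊓ LinearMap.ker (eps p w d) :
        Submodule k (V → Vec k)) ≤ RG p (T : Set V) := by
  have hwA : w ∈ A.erase u := hB.mem_erase (by tauto)
  have hdA : d ∈ A.erase u := hTA hd
  have hwd : w ≠ d := by
    rcases hw with rfl | rfl | rfl
    exacts [hB.lab.ad, hB.lab.bd, hB.lab.cd]
  have hwe : w ≠ e := by
    rcases hw with rfl | rfl | rfl
    exacts [hB.lab.ae, hB.lab.be, hB.lab.ce]
  have hFK : rest E (A.erase u) ⊆ Kf (A.erase u) :=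
    rest_subset_Kf (fun e he => (mem_Kf.mp (h.sub he)).1) _
  have hsm := h.small _ (Finset.erase_ssubset hB.mem)
  have key := five_points (k := k) (A := A.erase u) (T := T) (E := rest E (A.erase u)) (w := w)
    (d := d) (e := e) hFK hTA hT hwA hd he hwd hwe hB.lab.de ?_ ?_ ?_
  · filter_upwards [key] with p hp
    rw [Finset.coe_insert, Mot_insert hwA hdA, Mot_rest] at hp
    exact hp
  · filter_upwards [hsm] with p hp
    exact hp _ (isFlatIn_clF _ _ _)
  · refine rel_eventually _ hT hd he hB.lab.de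
      ((hdep.and_eventually (eventually_nice (k := k) A)).mono ?_)
    rintro p ⟨hp, hn⟩ ν hν Z hZ
    rw [Mot_rest] at hZ
    obtain ⟨t, ht, hM⟩ := hB.typ p hn
    rw [TB_ratio (hM hZ) hw]
    have h1 := hp ν hν t ht hM
    linear_combination (eps p w d Z) * h1
  · filter_upwards [eventually_nice (k := k) A] with p hn
    rw [Mot_rest]
    exact hB.exists_ne h hn hw (Or.inl rfl)

/-- **A vertex of type B is not of type A** at generic positions. -/
theorem TypB.eventually_not_TA (hB : TypB k A E u a b c d e) (h : MinCE k A E) :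
    ∀ᶠ p in gen k (V → Vec k), ¬ Mot (A.erase u) (E : Set (Sym2 V)) p
      ≤ TA p (nbr (A.erase u) (E : Set (Sym2 V)) u : Set V) := by
  by_contra hcon
  rw [not_eventually] at hcon
  simp only [not_not] at hcon
  have key := hB.five h (w := a) (Or.inl rfl) (T := nbr (A.erase u) (E : Set (Sym2 V)) u)
    (nbr_subset _ _ _) hB.nbr_card hB.lab.hd hB.lab.he ?_
  · obtain ⟨p, hp, hn⟩ := (key.and (eventually_nice (k := k) A)).exists
    have h1 := finrank_inf_ker_ge (Mot (A.erase u) (E : Set (Sym2 V)) p) (eps p a d)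
    have h2 := h.two_le hn hB.mem hB.nbr_card
    have h3 : finrank k (Mot (A.erase u) (E : Set (Sym2 V)) p ⊓ LinearMap.ker (eps p a d) :
        Submodule k (V → Vec k)) ≤ finrank k (Mot (A.erase u) (E : Set (Sym2 V)) p ⊓
        RG p (nbr (A.erase u) (E : Set (Sym2 V)) u : Set V) : Submodule k (V → Vec k)) := by
      have : FiniteDimensional k (Mot (A.erase u) (E : Set (Sym2 V)) p ⊓
        RG p (nbr (A.erase u) (E : Set (Sym2 V)) u : Set V) : Submodule k (V → Vec k)) :=
        Submodule.finiteDimensional_of_le inf_le_left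
      exact Submodule.finrank_mono (le_inf inf_le_left hp)
    omega
  · refine (hcon.and_eventually (eventually_nice (k := k) A)).mono ?_
    rintro p ⟨hAp, hn⟩ ν hν t ht hM
    -- a motion which is not rigid
    obtain ⟨Z, hZ, hZne⟩ := hB.exists_ne h hn (w := a) (r := d) (Or.inl rfl) (Or.inl rfl)
    obtain ⟨S, hS, g, h1, h2, h3, h4, h5, h6, h7⟩ := hM hZ
    obtain ⟨L, hL⟩ := hAp hZ
    have hg : g ≠ 0 := by
      rintro rfl
      apply hZne
      rw [eps_apply, h3, h6, add_zero, hS.swap (p a)]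
      ring
    have h8 : ∑ i ∈ nbr (A.erase u) (E : Set (Sym2 V)) u, ν i • Z i = 0 := by
      have : ∑ i ∈ nbr (A.erase u) (E : Set (Sym2 V)) u, ν i • Z i
          = L (∑ i ∈ nbr (A.erase u) (E : Set (Sym2 V)) u, ν i • p i) := by
        rw [map_sum]
        exact Finset.sum_congr rfl fun i hi => by rw [map_smul, hL i (by exact_mod_cast hi)]
      rw [this, hν.2, map_zero]
    have hsum : ∀ f : V → Vec k, ∑ i ∈ nbr (A.erase u) (E : Set (Sym2 V)) u, f i
        = f a + (f b + (f c + (f d + f e))) := by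
      intro f
      rw [hB.lab.eq, Finset.sum_insert (by simp [hB.lab.ab, hB.lab.ac, hB.lab.ad, hB.lab.ae]),
        Finset.sum_insert (by simp [hB.lab.bc, hB.lab.bd, hB.lab.be]),
        Finset.sum_insert (by simp [hB.lab.cd, hB.lab.ce]), Finset.sum_pair hB.lab.de]
    have h9 := hν.2
    rw [hsum] at h8 h9
    have h10 : S (ν a • p a + (ν b • p b + (ν c • p c + (ν d • p d + ν e • p e)))) = 0 := by
      rw [h9, map_zero]
    simp only [map_add, map_smul] at h10
    have h11 : (ν d + ν e * t) • g = 0 := by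
      rw [h3, h4, h5, h6, h7] at h8
      have : (ν d + ν e * t) • g = (ν a • S (p a) + (ν b • S (p b) + (ν c • S (p c) +
          (ν d • (S (p d) + g) + ν e • (S (p e) + t • g))))) - (ν a • S (p a) + (ν b • S (p b) +
          (ν c • S (p c) + (ν d • S (p d) + ν e • S (p e))))) := by
        module
      rw [this, h8, h10, sub_zero]
    exact (smul_eq_zero.mp h11).resolve_right hg

/-- **A vertex of degree five is not of type A and of type B.** -/
theorem MinCE.noAB (h : MinCE k A E) (hA : TypA k A E u) (hB : TypB k A E u a b c d e) :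
    False := by
  obtain ⟨p, hp, hn⟩ := ((hB.eventually_not_TA h).and (eventually_nice (k := k) A)).exists
  exact hp (hA.typ p hn)

/-- The point `p e - t p d` is not in the span of the body. -/
theorem TypB.eventually_notMem (hB : TypB k A E u a b c d e) (h : MinCE k A E) :
    ∀ᶠ p in gen k (V → Vec k), ∀ t : k,
      Mot (A.erase u) (E : Set (Sym2 V)) p ≤ TB p a b c d e t →
      ¬ ∃ r₁ r₂ r₃ : k, p e - t • p d = r₁ • p a + r₂ • p b + r₃ • p c := by
  filter_upwards [hB.eventually_not_TA h, eventually_nice (k := k) A] with p hp hn t hM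
  rintro ⟨r₁, r₂, r₃, hr⟩
  refine hp (hM.trans (TB_le_TA hB.lab (hB.gp hn) (fa := r₁) (fb := r₂) (fc := r₃) ?_))
  rw [← hr, sub_add_cancel]

/-- Two body-rod strains vanish only on rigid motions. -/
lemma TypB.inf_ker_le (hB : TypB k A E u a b c d e) {p : V → Vec k} (hp : Nice A p) :
    (Mot (A.erase u) (E : Set (Sym2 V)) p ⊓ LinearMap.ker (eps p a d) ⊓
      LinearMap.ker (eps p b d) : Submodule k (V → Vec k))
      ≤ RG p (nbr (A.erase u) (E : Set (Sym2 V)) u : Set V) := by
  rintro Z ⟨⟨hZ, h8⟩, h9⟩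
  obtain ⟨t, ht, hM⟩ := hB.typ p hp
  obtain ⟨S, hS, g, h1, h2, h3, h4, h5, h6, h7⟩ := hM hZ
  have h8' : eps p a d Z = 0 := h8
  have h9' : eps p b d Z = 0 := h9
  rw [eps_apply, h3, h6, add_dotProduct, hS.swap (p a)] at h8'
  rw [eps_apply, h4, h6, add_dotProduct, hS.swap (p b)] at h9'
  have hg : g = 0 := by
    refine eq_zero_of_four (hB.gp hp) hB.lab.ha hB.lab.hb hB.lab.hd hB.lab.he hB.lab.ab hB.lab.ad
      hB.lab.ae hB.lab.bd hB.lab.be hB.lab.de ?_ ?_ h1 h2
    · linear_combination h8'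
    · linear_combination h9'
  subst hg
  exact mem_RG_of_TB_zero hB.lab hS h3 h4 h5 (by simpa using h6) (by simpa using h7)

/-- The motions are spanned by those which fix `a d` and those which fix `b d`. -/
lemma TypB.le_of_two (hB : TypB k A E u a b c d e) (h : MinCE k A E) {p : V → Vec k}
    (hp : Nice A p) {R : Submodule k (V → Vec k)}
    (h1 : (Mot (A.erase u) (E : Set (Sym2 V)) p ⊓ LinearMap.ker (eps p a d) :
      Submodule k (V → Vec k)) ≤ R)
    (h2 : (Mot (A.erase u) (E : Set (Sym2 V)) p ⊓ LinearMap.ker (eps p b d) :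
      Submodule k (V → Vec k)) ≤ R) : Mot (A.erase u) (E : Set (Sym2 V)) p ≤ R := by
  set M := Mot (A.erase u) (E : Set (Sym2 V)) p with hM
  obtain ⟨Y, hY, hYb⟩ : ∃ Y ∈ (M ⊓ LinearMap.ker (eps p a d) : Submodule k (V → Vec k)),
      eps p b d Y ≠ 0 := by
    by_contra hcon
    push Not at hcon
    have h3 : (M ⊓ LinearMap.ker (eps p a d) : Submodule k (V → Vec k))
        ≤ M ⊓ RG p (nbr (A.erase u) (E : Set (Sym2 V)) u : Set V) :=
      le_inf inf_le_left fun Z hZ => hB.inf_ker_le hp ⟨hZ, hcon Z hZ⟩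
    have h4 := h.two_le hp hB.mem hB.nbr_card
    rw [← hM] at h4
    have h5 := finrank_inf_ker_ge M (eps p a d)
    have : FiniteDimensional k (M ⊓
        RG p (nbr (A.erase u) (E : Set (Sym2 V)) u : Set V) : Submodule k (V → Vec k)) :=
      Submodule.finiteDimensional_of_le (inf_le_left.trans (le_of_eq hM))
    have h6 := Submodule.finrank_mono h3
    omega
  intro Z hZ
  have hYM : Y ∈ M := hY.1
  have h3 : Z - (eps p b d Z / eps p b d Y) • Y ∈ R := by
    refine h2 (Submodule.mem_inf.mpr ⟨Submodule.sub_mem _ hZ (Submodule.smul_mem _ _ hYM), ?_⟩)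
    rw [LinearMap.mem_ker, map_sub, map_smul, smul_eq_mul, div_mul_cancel₀ _ hYb, sub_self]
  have h4 : Z = (Z - (eps p b d Z / eps p b d Y) • Y) + (eps p b d Z / eps p b d Y) • Y := by
    rw [sub_add_cancel]
  rw [h4]
  exact Submodule.add_mem _ h3 (Submodule.smul_mem _ _ (h1 hY))

/-- **Case D* is impossible.** -/
theorem MinCE.no_Dstar (h : MinCE k A E) (hB : TypB k A E u a b c d e) {x y z : V}
    (hx : s(a, x) ∈ E) (hy : s(a, y) ∈ E) (hz : s(a, z) ∈ E) (hxu : x ≠ u) (hyu : y ≠ u)
    (hzu : z ≠ u) (hxy : x ≠ y) (hxz : x ≠ z) (hyz : y ≠ z)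
    (hD : ∃ᶠ p in gen k (V → Vec k), ∀ t : k, t ≠ 0 →
      Mot (A.erase u) (E : Set (Sym2 V)) p ≤ TB p a b c d e t →
      ∃ r₁ r₂ r₃ : k, p e - t • p d = r₁ • p x + r₂ • p y + r₃ • p z) : False := by
  have haA : a ∈ A.erase u := hB.mem_erase (by tauto)
  have hdA : d ∈ A.erase u := hB.mem_erase (by tauto)
  have heA : e ∈ A.erase u := hB.mem_erase (by tauto)
  -- external neighbours
  have hmem : ∀ w, s(a, w) ∈ E → w ≠ u → w ∈ A.erase u ∧ w ≠ a ∧ w ≠ d ∧ w ≠ e := by
    intro w hw hwu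
    have h1 := mem_Kf.mp (h.sub hw)
    have hwA : w ∈ A := h1.2 w (by simp)
    have hwA' : w ∈ A.erase u := Finset.mem_erase.mpr ⟨hwu, hwA⟩
    refine ⟨hwA', ?_, ?_, ?_⟩
    · rintro rfl
      exact h1.1 (by simp)
    · rintro rfl
      obtain ⟨p, hp⟩ := (eventually_nice (k := k) A).exists
      obtain ⟨Z, hZ, hZne⟩ := hB.exists_ne h hp (w := a) (Or.inl rfl) (Or.inl rfl)
      exact hZne (hZ.2.2 a haA w hwA' (by exact_mod_cast hw))
    · rintro rfl
      obtain ⟨p, hp⟩ := (eventually_nice (k := k) A).exists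
      obtain ⟨Z, hZ, hZne⟩ := hB.exists_ne h hp (w := a) (Or.inl rfl) (Or.inr rfl)
      exact hZne (hZ.2.2 a haA w hwA' (by exact_mod_cast hw))
  obtain ⟨hxA, hxa, hxd, hxe⟩ := hmem x hx hxu
  obtain ⟨hyA, hya, hyd, hye⟩ := hmem y hy hyu
  obtain ⟨hzA, hza, hzd, hze⟩ := hmem z hz hzu
  set T : Finset V := {d, e, x, y, z} with hTdef
  have hTA : T ⊆ A.erase u := by
    intro w hw
    simp only [hTdef, Finset.mem_insert, Finset.mem_singleton] at hw
    rcases hw with rfl | rfl | rfl | rfl | rfl <;> assumption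
  have hT : T.card = 5 := by
    rw [hTdef, Finset.card_insert_of_notMem (by simp [hB.lab.de, hxd.symm, hyd.symm, hzd.symm]),
      Finset.card_insert_of_notMem (by simp [hxe.symm, hye.symm, hze.symm]),
      Finset.card_insert_of_notMem (by simp [hxy, hxz]), Finset.card_pair hyz]
  have hdT : d ∈ T := by simp [hTdef]
  have heT : e ∈ T := by simp [hTdef]
  have hsum : ∀ (W : Type _) [AddCommMonoid W] (f : V → W), ∑ i ∈ T, f i
      = f d + (f e + (f x + (f y + f z))) := by
    intro W _ f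
    rw [hTdef, Finset.sum_insert (by simp [hB.lab.de, hxd.symm, hyd.symm, hzd.symm]),
      Finset.sum_insert (by simp [hxe.symm, hye.symm, hze.symm]),
      Finset.sum_insert (by simp [hxy, hxz]), Finset.sum_pair hyz]
  have hdep : ∃ᶠ p in gen k (V → Vec k), ∀ ν ∈ DepM T p, ∀ t : k, t ≠ 0 →
      Mot (A.erase u) (E : Set (Sym2 V)) p ≤ TB p a b c d e t → ν d + ν e * t = 0 := by
    refine (hD.and_eventually (eventually_nice (k := k) A)).mono ?_
    rintro p ⟨hp, hn⟩ ν hν t ht hM
    obtain ⟨r₁, r₂, r₃, hr⟩ := hp t ht hM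
    have hgp : GenPos p (T : Set V) := hn.gp.mono (by
      exact_mod_cast hTA.trans (Finset.erase_subset u A))
    classical
    let μ : V → k := fun i => if i = e then 1 else if i = d then -t else if i = x then -r₁
      else if i = y then -r₂ else if i = z then -r₃ else 0
    have μe : μ e = 1 := by simp [μ]
    have μd : μ d = -t := by simp [μ, hB.lab.de]
    have μx : μ x = -r₁ := by simp [μ, hxe, hxd]
    have μy : μ y = -r₂ := by simp [μ, hye, hyd, hxy.symm]
    have μz : μ z = -r₃ := by simp [μ, hze, hzd, hxz.symm, hyz.symm]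
    have hμ : μ ∈ DepM T p := by
      refine ⟨fun i hi => ?_, ?_⟩
      · simp only [hTdef, Finset.mem_insert, Finset.mem_singleton, not_or] at hi
        simp [μ, hi.1, hi.2.1, hi.2.2.1, hi.2.2.2.1, hi.2.2.2.2]
      · rw [hsum, μe, μd, μx, μy, μz]
        have : -t • p d + ((1 : k) • p e + (-r₁ • p x + (-r₂ • p y + -r₃ • p z)))
            = (p e - t • p d) - (r₁ • p x + r₂ • p y + r₃ • p z) := by module
        rw [this, hr, sub_self]
    have hμ0 : μ ≠ 0 := fun h0 => by
      have := congrFun h0 e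
      rw [μe] at this
      exact one_ne_zero this
    obtain ⟨s, hs⟩ := DepM.unique hT hgp hν hμ hμ0
    rw [hs, Pi.smul_apply, Pi.smul_apply, μe, μd, smul_eq_mul, smul_eq_mul]
    ring
  have h1 := hB.five h (w := a) (Or.inl rfl) hTA hT hdT heT hdep
  have h2 := hB.five h (w := b) (Or.inr (Or.inl rfl)) hTA hT hdT heT hdep
  obtain ⟨p, ⟨hpa, hpb⟩, hn⟩ := ((h1.and h2).and (eventually_nice (k := k) A)).exists
  have hM := hB.le_of_two h hn hpa hpb
  obtain ⟨Z, hZ, hZne⟩ := hB.exists_ne h hn (w := a) (r := d) (Or.inl rfl) (Or.inl rfl)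
  obtain ⟨S, hS, hSx⟩ := hM hZ
  have hxT : Z x = S (p x) := hSx x (by simp [hTdef])
  have hyT : Z y = S (p y) := hSx y (by simp [hTdef])
  have hzT : Z z = S (p z) := hSx z (by simp [hTdef])
  have hdT' : Z d = S (p d) := hSx d (by simp [hTdef])
  have hW : ∀ w, w ∈ A.erase u → s(a, w) ∈ E → Z w = S (p w) → (Z a - S (p a)) ⬝ᵥ p w = 0 := by
    intro w hwA hw hZw
    have h3 := hZ.2.2 a haA w hwA (by exact_mod_cast hw)
    rw [eps_apply, hZw, hS.swap (p w)] at h3
    rw [sub_dotProduct]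
    linear_combination h3
  have hZa : Z a - S (p a) = 0 := by
    refine eq_zero_of_four (p := p) (N := A) hn.gp (x := a) (y := x) (z := y) (w := z)
      (Finset.mem_of_mem_erase haA) (Finset.mem_of_mem_erase hxA) (Finset.mem_of_mem_erase hyA)
      (Finset.mem_of_mem_erase hzA) hxa.symm hya.symm hza.symm hxy hxz hyz ?_
      (hW x hxA hx hxT) (hW y hyA hy hyT) (hW z hzA hz hzT)
    rw [sub_dotProduct, hZ.2.1 a haA, hS, sub_zero]
  apply hZne
  rw [eps_apply, sub_eq_zero.mp hZa, hdT', hS.swap (p a)]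
  ring

end

end GR
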