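import Pool.Agent.Lib.GR.Assemble
import Pool.Agent.Lib.GR.NoAB

/-!
# A body vertex of degree seven is not in the bodies of four vertices of type B
-/

set_option linter.unusedSectionVars false

namespace GR

open Filter Module

open scoped Matrix

variable {k : Type*} [Field k] [Infinite k] {V : Type*} [DecidableEq V]

section

variable {A : Finset V} {H E : Finset (Sym2 V)} {p : V → Vec k}

lemma TypB.swap_bc {u a b c d e : V} (h : TypB k A E u a b c d e) : TypB k A E u a c b d e :=
  h.swap_ab.swap_ac.swap_ab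

/-- the closure of `E - v` in `A - v` -/
noncomputable def DE (A : Finset V) (E : Finset (Sym2 V)) (p : V → Vec k) (v : V) :
    Finset (Sym2 V) := clF (A.erase v) (rest E (A.erase v)) p

lemma rest_sub_Kf (h : BadAt A H p) (hE : CBasis A H E p) (v : V) :
    rest E (A.erase v) ⊆ Kf (A.erase v) :=
  rest_subset_Kf (fun _ he => (mem_Kf.mp (hE.sub_Kf h he)).1) _

lemma DE_flat (A : Finset V) (E : Finset (Sym2 V)) (p : V → Vec k) (v : V) :
    IsFlatIn (A.erase v) (DE A E p v) p := isFlatIn_clF _ _ _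

lemma DE_sub (h : BadAt A H p) (hE : CBasis A H E p) (v : V) : DE A E p v ⊆ H := by
  have h1 : rest E (A.erase v) ⊆ rest H (A.erase v) := by
    intro e he
    rw [mem_rest] at he ⊢
    exact ⟨hE.sub he.1, he.2⟩
  exact ((h.flat.rest (Finset.erase_subset v A)).clF_subset_of h1).trans (rest_subset _ _)

lemma mem_DE_of_mem (h : BadAt A H p) (hE : CBasis A H E p) {v x y : V} (hxy : s(x, y) ∈ E)
    (hx : x ≠ v) (hy : y ≠ v) : s(x, y) ∈ DE A E p v := by
  refine subset_clF (rest_sub_Kf h hE v) p (mem_rest.mpr ⟨hxy, fun w hw => ?_⟩)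
  have h1 := (mem_Kf.mp (hE.sub_Kf h hxy)).2 w hw
  rcases Sym2.mem_iff.mp hw with rfl | rfl
  · exact Finset.mem_erase.mpr ⟨hx, h1⟩
  · exact Finset.mem_erase.mpr ⟨hy, h1⟩

lemma mem_DE_iff (h : BadAt A H p) (hE : CBasis A H E p) {v x y : V} (hx : x ∈ A.erase v)
    (hy : y ∈ A.erase v) (hxy : x ≠ y) :
    s(x, y) ∈ DE A E p v ↔ ∀ Z ∈ Mot (A.erase v) (E : Set (Sym2 V)) p, eps p x y Z = 0 := by
  unfold DE
  rw [mem_clF, mem_clo_iff_Mot (rest_sub_Kf h hE v) hx hy, Mot_rest]
  exact ⟨fun h => h.2, fun h => ⟨mk_mem_Kf.mpr ⟨hxy, hx, hy⟩, h⟩⟩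

/-- the body of a type B vertex is rigid without the vertex -/
lemma TypB.body_sub (h : BadAt A H p) (hE : CBasis A H E p) {v a b c d e : V}
    (hv : TypB k A E v a b c d e) : Kf ({a, b, c} : Finset V) ⊆ DE A E p v := by
  obtain ⟨t, _, hle⟩ := hv.typ p h.nice
  have hsub : ({a, b, c} : Finset V) ⊆ A.erase v := by
    intro x hx
    simp only [Finset.mem_insert, Finset.mem_singleton] at hx
    exact hv.mem_erase (by tauto)
  intro f hf
  induction f using Sym2.ind with
  | _ x y =>
    rw [mk_mem_Kf] at hf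
    rw [mem_DE_iff h hE (hsub hf.2.1) (hsub hf.2.2) hf.1]
    intro Z hZ
    obtain ⟨T, hT, g, _, _, h3, h4, h5, _, _⟩ := hle hZ
    have key : ∀ w, w ∈ ({a, b, c} : Finset V) → Z w = T (p w) := by
      intro w hw
      simp only [Finset.mem_insert, Finset.mem_singleton] at hw
      rcases hw with rfl | rfl | rfl <;> assumption
    rw [eps_apply, key x hf.2.1, key y hf.2.2, hT.swap]
    ring

/-- **Step 2**: no other vertex is rigid with the body. -/
lemma TypB.no_fourth (h : BadAt A H p) (hE : CBasis A H E p) (hM : MinCE k A E) {v a b c d e : V}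
    (hv : TypB k A E v a b c d e)
    (hN : nbr (A.erase v) (H : Set (Sym2 V)) v ⊆ nbr (A.erase v) (E : Set (Sym2 V)) v)
    {K : Finset V} (hKA : K ⊆ A.erase v) (hK : Kf K ⊆ DE A E p v) (ha : a ∈ K) (hb : b ∈ K)
    (hc : c ∈ K) {y : V} (hy : y ∈ K) (hya : y ≠ a) (hyb : y ≠ b) (hyc : y ≠ c) : False := by
  have hvA := hv.mem
  have hnb : ∀ x, x = a ∨ x = b ∨ x = c → s(v, x) ∈ H := by
    intro x hx
    have := hv.mem_nbr (x := x) (by tauto)
    rw [GR.mem_nbr] at this
    exact hE.sub (by exact_mod_cast this.2)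
  have hKH : Kf K ⊆ H := hK.trans (DE_sub h hE v)
  have hv4 : Kf (insert v ({a, b, c} : Finset V)) ⊆ H := by
    intro f hf
    induction f using Sym2.ind with
    | _ x z =>
      rw [mk_mem_Kf] at hf
      obtain ⟨hxz, hx, hz⟩ := hf
      rw [Finset.mem_insert] at hx hz
      rcases hx with rfl | hx
      · rcases hz with rfl | hz
        · exact absurd rfl hxz
        · simp only [Finset.mem_insert, Finset.mem_singleton] at hz
          exact hnb z hz
      · rcases hz with rfl | hz
        · simp only [Finset.mem_insert, Finset.mem_singleton] at hx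
          rw [Sym2.eq_swap]
          exact hnb x hx
        · exact DE_sub h hE v (hv.body_sub h hE (mk_mem_Kf.mpr ⟨hxz, hx, hz⟩))
  have hsub3 : ({a, b, c} : Finset V) ⊆ insert v ({a, b, c} : Finset V) ∩ K := by
    intro x hx
    rw [Finset.mem_inter]
    refine ⟨Finset.mem_insert_of_mem hx, ?_⟩
    simp only [Finset.mem_insert, Finset.mem_singleton] at hx
    rcases hx with rfl | rfl | rfl <;> assumption
  have h3 : ({a, b, c} : Finset V).card = 3 := by
    rw [Finset.card_insert_of_notMem (by simp [hv.lab.ab, hv.lab.ac]), Finset.card_pair hv.lab.bc]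
  have hA4 : insert v ({a, b, c} : Finset V) ⊆ A := by
    intro x hx
    rw [Finset.mem_insert] at hx
    rcases hx with rfl | hx
    · exact hvA
    · exact Finset.mem_of_mem_erase (hKA ((Finset.mem_inter.mp (hsub3 hx)).2))
  have hKA' : K ⊆ A := hKA.trans (Finset.erase_subset v A)
  have hmerge := h.flat.merge h.nice.gp hA4 hKA'
    (by rw [← h3]; exact Finset.card_le_card hsub3) hv4 hKH
  have hyv : y ≠ v := (Finset.mem_erase.mp (hKA hy)).1
  have hvy : s(v, y) ∈ H := hmerge (mk_mem_Kf.mpr ⟨hyv.symm,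
    Finset.mem_union_left _ (Finset.mem_insert_self _ _), Finset.mem_union_right _ hy⟩)
  have hyN : y ∈ nbr (A.erase v) (E : Set (Sym2 V)) v :=
    hN (GR.mem_nbr.mpr ⟨hKA hy, by exact_mod_cast hvy⟩)
  have hrod : y = d ∨ y = e := by
    rcases hv.lab.cases hyN with hh | hh | hh | hh | hh
    · exact absurd hh hya
    · exact absurd hh hyb
    · exact absurd hh hyc
    · exact Or.inl hh
    · exact Or.inr hh
  obtain ⟨Z, hZ, hne⟩ := hv.exists_ne hM h.nice (w := a) (r := y) (Or.inl rfl) hrod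
  exact hne ((mem_DE_iff h hE (hKA ha) (hKA hy) hya.symm).mp
    (hK (mk_mem_Kf.mpr ⟨hya.symm, ha, hy⟩)) Z hZ)

/-- **Step 1**: a missing body edge gives a clique. -/
lemma clique_of_missing (h : BadAt A H p) (hE : CBasis A H E p) {v a x : V} (hv : v ∈ A)
    (hv5 : dg A E v = 5) (ha5 : dg A E a ≠ 5) (hx5 : dg A E x ≠ 5)
    (hax : s(a, x) ∈ DE A E p v) (haxE : s(a, x) ∉ E) {Y : Finset V}
    (hY : ∀ y, y ∈ Y ↔ y ∈ nbr (A.erase a) (E : Set (Sym2 V)) a ∧ dg A E y ≠ 5)
    (hY3 : Y.card ≤ 3) :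
    insert a (insert x Y) ⊆ A.erase v ∧ Kf (insert a (insert x Y)) ⊆ DE A E p v ∧ Y.card = 3 := by
  have haxH := DE_sub h hE v hax
  have hav : a ≠ v := by rintro rfl; exact ha5 hv5
  have hxv : x ≠ v := by rintro rfl; exact hx5 hv5
  have haxK := mem_Kf.mp (h.flat.1 haxH)
  have haA : a ∈ A := haxK.2 a (by simp)
  have hxA : x ∈ A := haxK.2 x (by simp)
  have hax' : a ≠ x := by
    rintro rfl
    exact haxK.1 (by simp)
  have haA' : a ∈ A.erase v := Finset.mem_erase.mpr ⟨hav, haA⟩
  obtain ⟨σ, hσ, h1, h2, h3⟩ := hE.exchange h haxH haxE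
  have hst := S5_le_Stress H p hσ
  -- `σ` vanishes at the vertices of degree five
  have hdeg : ∀ w ∈ A, dg A E w = 5 → ∀ y, σ s(y, w) = 0 := by
    intro w hw hw5 y
    by_cases hyw : s(y, w) ∈ E
    · refine fund_eq_zero h hE h3 hw hw5 ?_ hyw
      rw [Sym2.mem_iff, not_or]
      exact ⟨by rintro rfl; exact ha5 hw5, by rintro rfl; exact hx5 hw5⟩
    · refine h2 _ ?_
      rw [Finset.mem_insert, not_or]
      refine ⟨fun hc => ?_, hyw⟩
      have : w ∈ s(a, x) := by rw [← hc]; simp
      rcases Sym2.mem_iff.mp this with rfl | rfl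
      · exact ha5 hw5
      · exact hx5 hw5
  -- the support at `a`
  have hsupp : suppAt A σ a ⊆ insert x Y := by
    intro w hw
    obtain ⟨hw1, hw2, hw3⟩ := mem_suppAt.mp hw
    rw [Finset.mem_insert]
    by_cases hwx : w = x
    · exact Or.inl hwx
    · right
      have hwE : s(a, w) ∈ E := by
        by_contra hn
        refine hw3 (h2 _ ?_)
        rw [Finset.mem_insert, not_or]
        exact ⟨fun hc => hwx (Sym2.congr_right.mp hc), hn⟩
      rw [hY, GR.mem_nbr, Finset.mem_erase]
      refine ⟨⟨⟨hw1, hw2⟩, by exact_mod_cast hwE⟩, fun hw5 => hw3 (hdeg w hw2 hw5 a)⟩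
  have hxs : x ∈ suppAt A σ a := by
    rw [mem_suppAt]
    exact ⟨hax'.symm, hxA, by rw [h1]; exact one_ne_zero⟩
  have hcard : 4 ≤ (suppAt A σ a).card := by
    rcases suppAt_card (fun e he => (mem_Kf.mp (h.flat.1 he)).2) h.nice.gp hst haA with h4 | h4
    · rw [h4] at hxs
      simp at hxs
    · exact h4
  have hle := Finset.card_le_card hsupp
  have hins := Finset.card_insert_le x Y
  have hYc : Y.card = 3 := by omega
  have hseq : suppAt A σ a = insert x Y := Finset.eq_of_subset_of_card_le hsupp (by omega)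
  -- `σ` is a stress of `DE`
  have hσD : σ ∈ Stress (DE A E p v) p := by
    refine mem_Stress_of_support hst fun f hf => ?_
    by_contra hne
    have hfE : f ∈ insert s(a, x) E := by
      by_contra hn
      exact hne (h2 f hn)
    rw [Finset.mem_insert] at hfE
    rcases hfE with rfl | hfE
    · exact hf hax
    · induction f using Sym2.ind with
      | _ y z =>
        have hyv : y ≠ v := by
          rintro rfl
          apply hne
          rw [Sym2.eq_swap]
          exact hdeg y hv hv5 z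
        have hzv : z ≠ v := by
          rintro rfl
          exact hne (hdeg z hv hv5 y)
        exact hf (mem_DE_of_mem h hE hfE hyv hzv)
  have hsuppv : suppAt (A.erase v) σ a = insert x Y := by
    rw [← hseq]
    ext w
    rw [mem_suppAt, mem_suppAt, Finset.mem_erase]
    constructor
    · rintro ⟨h4, ⟨_, h5⟩, h6⟩
      exact ⟨h4, h5, h6⟩
    · rintro ⟨h4, h5, h6⟩
      refine ⟨h4, ⟨?_, h5⟩, h6⟩
      rintro rfl
      exact h6 (hdeg w hv hv5 a)
  have hc5 : (suppAt (A.erase v) σ a).card ≤ 5 := by rw [hsuppv]; omega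
  have hkey := clique_of_good haA' (DE_flat A E p v)
    (h.nice.gp.mono (by exact_mod_cast Finset.erase_subset v A))
    (fun W hW _ => h.small W (lt_of_le_of_lt hW (Finset.erase_ssubset hv)) _
      ((DE_flat A E p v).rest hW)) hσD hc5
  rw [hsuppv] at hkey
  have hadj : ∀ w ∈ insert x Y, s(a, w) ∈ DE A E p v := by
    intro w hw
    rw [Finset.mem_insert] at hw
    rcases hw with rfl | hw
    · exact hax
    · obtain ⟨h4, h5⟩ := (hY w).mp hw
      rw [GR.mem_nbr] at h4
      exact mem_DE_of_mem h hE (by exact_mod_cast h4.2) hav (by rintro rfl; exact h5 hv5)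
  refine ⟨?_, ?_, hYc⟩
  · intro w hw
    rw [Finset.mem_insert] at hw
    rcases hw with rfl | hw
    · exact haA'
    · exact (DE_flat A E p v).mem_vert _ (hadj w hw) w (by simp)
  · intro f hf
    induction f using Sym2.ind with
    | _ y z =>
      rw [mk_mem_Kf] at hf
      obtain ⟨hyz, hy, hz⟩ := hf
      rw [Finset.mem_insert] at hy hz
      rcases hy with rfl | hy
      · rcases hz with rfl | hz
        · exact absurd rfl hyz
        · exact hadj z hz
      · rcases hz with rfl | hz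
        · rw [Sym2.eq_swap]
          exact hadj y hy
        · exact hkey (mk_mem_Kf.mpr ⟨hyz, hy, hz⟩)

/-- **The mates are joined to `a`.** -/
lemma TypB.mate_adj (h : BadAt A H p) (hE : CBasis A H E p) (hM : MinCE k A E)
    {v a b c d e : V} (hv : TypB k A E v a b c d e)
    (hN : nbr (A.erase v) (H : Set (Sym2 V)) v ⊆ nbr (A.erase v) (E : Set (Sym2 V)) v)
    (ha5 : dg A E a ≠ 5) (hb5 : dg A E b ≠ 5) (hc5 : dg A E c ≠ 5) {Y : Finset V}
    (hY : ∀ y, y ∈ Y ↔ y ∈ nbr (A.erase a) (E : Set (Sym2 V)) a ∧ dg A E y ≠ 5)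
    (hY3 : Y.card ≤ 3) : s(a, b) ∈ E := by
  by_contra hab
  have hv5 : dg A E v = 5 := hv.lab.card
  have hbody := hv.body_sub h hE
  have habD : s(a, b) ∈ DE A E p v := hbody (mk_mem_Kf.mpr ⟨hv.lab.ab, by simp, by simp⟩)
  have hacD : s(a, c) ∈ DE A E p v := hbody (mk_mem_Kf.mpr ⟨hv.lab.ac, by simp, by simp⟩)
  obtain ⟨hK1, hK2, hYc⟩ := clique_of_missing h hE hv.mem hv5 ha5 hb5 habD hab hY hY3
  have hbY : b ∉ Y := by
    intro hb
    rw [hY, GR.mem_nbr] at hb
    exact hab (by exact_mod_cast hb.1.2)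
  have haY : a ∉ Y := by
    intro ha
    rw [hY, GR.mem_nbr, Finset.mem_erase] at ha
    exact ha.1.1.1 rfl
  by_cases hac : s(a, c) ∈ E
  · have hcY : c ∈ Y := by
      rw [hY, GR.mem_nbr, Finset.mem_erase]
      exact ⟨⟨⟨hv.lab.ac.symm, Finset.mem_of_mem_erase (hv.mem_erase (by tauto))⟩,
        by exact_mod_cast hac⟩, hc5⟩
    obtain ⟨y, hyY, hyc⟩ := Finset.exists_mem_ne (by omega : 1 < Y.card) c
    refine hv.no_fourth h hE hM hN hK1 hK2 (Finset.mem_insert_self _ _)
      (Finset.mem_insert_of_mem (Finset.mem_insert_self _ _))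
      (Finset.mem_insert_of_mem (Finset.mem_insert_of_mem hcY))
      (Finset.mem_insert_of_mem (Finset.mem_insert_of_mem hyY)) ?_ ?_ hyc
    · rintro rfl; exact haY hyY
    · rintro rfl; exact hbY hyY
  · obtain ⟨hK3, hK4, _⟩ := clique_of_missing h hE hv.mem hv5 ha5 hc5 hacD hac hY hY3
    have hcY : c ∉ Y := by
      intro hc
      rw [hY, GR.mem_nbr] at hc
      exact hac (by exact_mod_cast hc.1.2)
    obtain ⟨y, hyY⟩ := Finset.card_pos.mp (by omega : 0 < Y.card)
    have hint : insert a Y ⊆ insert a (insert b Y) ∩ insert a (insert c Y) := by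
      intro w hw
      rw [Finset.mem_insert] at hw
      rw [Finset.mem_inter, Finset.mem_insert, Finset.mem_insert, Finset.mem_insert,
        Finset.mem_insert]
      tauto
    have hmerge := (DE_flat A E p v).merge
      (h.nice.gp.mono (by exact_mod_cast Finset.erase_subset v A)) hK1 hK3
      (by
        have := Finset.card_le_card hint
        rw [Finset.card_insert_of_notMem haY] at this
        omega) hK2 hK4
    refine hv.no_fourth h hE hM hN (Finset.union_subset hK1 hK3) hmerge
      (Finset.mem_union_left _ (Finset.mem_insert_self _ _))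
      (Finset.mem_union_left _ (Finset.mem_insert_of_mem (Finset.mem_insert_self _ _)))
      (Finset.mem_union_right _ (Finset.mem_insert_of_mem (Finset.mem_insert_self _ _)))
      (Finset.mem_union_left _ (Finset.mem_insert_of_mem (Finset.mem_insert_of_mem hyY))) ?_ ?_ ?_
    · rintro rfl; exact haY hyY
    · rintro rfl; exact hbY hyY
    · rintro rfl; exact hcY hyY

/-- **(L3)** A body vertex of degree at most seven is in the bodies of at most three vertices. -/
theorem allB_le_three (h : BadAt A H p) (hE : CBasis A H E p) (hM : MinCE k A E)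
    (hN : ∀ v ∈ A, dg A E v = 5 →
      nbr (A.erase v) (H : Set (Sym2 V)) v ⊆ nbr (A.erase v) (E : Set (Sym2 V)) v)
    (hB : ∀ u a b c d e, TypB k A E u a b c d e → dg A E a ≠ 5) {a : V} (ha7 : dg A E a ≤ 7)
    {S : Finset V}
    (hS : ∀ v ∈ S, s(a, v) ∈ E ∧ ∃ b' c' d' e', TypB k A E v a b' c' d' e') : S.card ≤ 3 := by
  classical
  by_contra hcon
  push Not at hcon
  set Na := nbr (A.erase a) (E : Set (Sym2 V)) a with hNa
  set Y := Na.filter fun y => dg A E y ≠ 5 with hYdef
  have hY : ∀ y, y ∈ Y ↔ y ∈ nbr (A.erase a) (E : Set (Sym2 V)) a ∧ dg A E y ≠ 5 := by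
    intro y
    rw [hYdef, Finset.mem_filter]
  have hS5 : ∀ v ∈ S, dg A E v = 5 := by
    intro v hv
    obtain ⟨b', c', d', e', hB'⟩ := (hS v hv).2
    exact hB'.lab.card
  have hSN : S ⊆ Na := by
    intro v hv
    have h1 := (hS v hv).1
    have h2 := mem_Kf.mp (hE.sub_Kf h h1)
    rw [hNa, GR.mem_nbr, Finset.mem_erase]
    refine ⟨⟨?_, h2.2 v (by simp)⟩, by exact_mod_cast h1⟩
    rintro rfl
    exact h2.1 (by simp)
  have hY3 : Y.card ≤ 3 := by
    have h1 : Y ⊆ Na \ S := by
      intro y hy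
      rw [hY] at hy
      rw [Finset.mem_sdiff]
      exact ⟨hy.1, fun hyS => hy.2 (hS5 y hyS)⟩
    have h2 := Finset.card_le_card h1
    rw [Finset.card_sdiff_of_subset hSN] at h2
    unfold dg at ha7
    rw [← hNa] at ha7
    omega
  -- choose the mates
  have hex : ∀ v : V, ∃ b c d e : V, v ∈ S → TypB k A E v a b c d e := by
    intro v
    by_cases hv : v ∈ S
    · obtain ⟨b', c', d', e', hB'⟩ := (hS v hv).2
      exact ⟨b', c', d', e', fun _ => hB'⟩
    · exact ⟨a, a, a, a, fun h => absurd h hv⟩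
  choose fb fc fd fe hf using hex
  have hmate : ∀ v ∈ S, fb v ∈ Y ∧ fc v ∈ Y := by
    intro v hv
    have hT := hf v hv
    have hb5 : dg A E (fb v) ≠ 5 := hB _ _ _ _ _ _ hT.swap_ab
    have hc5 : dg A E (fc v) ≠ 5 := hB _ _ _ _ _ _ hT.swap_ac
    have ha5 : dg A E a ≠ 5 := hB _ _ _ _ _ _ hT
    have hN' := hN v hT.mem (hS5 v hv)
    have h1 := hT.mate_adj h hE hM hN' ha5 hb5 hc5 hY hY3
    have h2 := hT.swap_bc.mate_adj h hE hM hN' ha5 hc5 hb5 hY hY3
    refine ⟨?_, ?_⟩
    · rw [hY, GR.mem_nbr, Finset.mem_erase]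
      exact ⟨⟨⟨hT.lab.ab.symm, Finset.mem_of_mem_erase (hT.mem_erase (by tauto))⟩,
        by exact_mod_cast h1⟩, hb5⟩
    · rw [hY, GR.mem_nbr, Finset.mem_erase]
      exact ⟨⟨⟨hT.lab.ac.symm, Finset.mem_of_mem_erase (hT.mem_erase (by tauto))⟩,
        by exact_mod_cast h2⟩, hc5⟩
  -- pigeonhole
  have hmaps : ∀ v ∈ S, ({fb v, fc v} : Finset V) ∈ Y.powersetCard 2 := by
    intro v hv
    rw [Finset.mem_powersetCard]
    refine ⟨?_, Finset.card_pair (hf v hv).lab.bc⟩
    intro w hw
    simp only [Finset.mem_insert, Finset.mem_singleton] at hw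
    rcases hw with rfl | rfl
    exacts [(hmate v hv).1, (hmate v hv).2]
  have hcardP : (Y.powersetCard 2).card < S.card := by
    rw [Finset.card_powersetCard]
    have : Y.card.choose 2 ≤ Nat.choose 3 2 := Nat.choose_le_choose 2 hY3
    have h32 : Nat.choose 3 2 = 3 := by decide
    omega
  obtain ⟨v, hv, v', hv', hne, heq⟩ := Finset.exists_ne_map_eq_of_card_lt_of_maps_to hcardP hmaps
  have hT := hf v hv
  have hT' := hf v' hv'
  set b := fb v with hb
  set c := fc v with hc
  -- `v'` is joined to `a b c`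
  have hpair : ∀ x, x = b ∨ x = c → x = fb v' ∨ x = fc v' := by
    intro x hx
    have : x ∈ ({fb v', fc v'} : Finset V) := by
      rw [← heq]
      simpa using hx
    simpa using this
  have hv'nb : ∀ x, x = a ∨ x = b ∨ x = c → s(v', x) ∈ H := by
    intro x hx
    have hx' : x = a ∨ x = fb v' ∨ x = fc v' ∨ x = fd v' ∨ x = fe v' := by
      rcases hx with hx | hx
      · exact Or.inl hx
      · rcases hpair x hx with h1 | h1 <;> tauto
    have := hT'.mem_nbr (x := x) hx'
    rw [GR.mem_nbr] at this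
    exact hE.sub (by exact_mod_cast this.2)
  have hvnb : ∀ x, x = a ∨ x = b ∨ x = c → s(v, x) ∈ H := by
    intro x hx
    have := hT.mem_nbr (x := x) (by tauto)
    rw [GR.mem_nbr] at this
    exact hE.sub (by exact_mod_cast this.2)
  have hbodyH : Kf ({a, b, c} : Finset V) ⊆ H := (hT.body_sub h hE).trans (DE_sub h hE v)
  have h3 : ({a, b, c} : Finset V).card = 3 := by
    rw [Finset.card_insert_of_notMem (by simp [hT.lab.ab, hT.lab.ac]), Finset.card_pair hT.lab.bc]
  have hclq : ∀ w, (∀ x, x = a ∨ x = b ∨ x = c → s(w, x) ∈ H) →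
      Kf (insert w ({a, b, c} : Finset V)) ⊆ H := by
    intro w hw f hff
    induction f using Sym2.ind with
    | _ x z =>
      rw [mk_mem_Kf] at hff
      obtain ⟨hxz, hx, hz⟩ := hff
      rw [Finset.mem_insert] at hx hz
      rcases hx with rfl | hx
      · rcases hz with rfl | hz
        · exact absurd rfl hxz
        · simp only [Finset.mem_insert, Finset.mem_singleton] at hz
          exact hw z hz
      · rcases hz with rfl | hz
        · simp only [Finset.mem_insert, Finset.mem_singleton] at hx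
          rw [Sym2.eq_swap]
          exact hw x hx
        · exact hbodyH (mk_mem_Kf.mpr ⟨hxz, hx, hz⟩)
  have hsubA : ∀ w, w ∈ A → insert w ({a, b, c} : Finset V) ⊆ A := by
    intro w hw x hx
    rw [Finset.mem_insert] at hx
    rcases hx with rfl | hx
    · exact hw
    · simp only [Finset.mem_insert, Finset.mem_singleton] at hx
      exact Finset.mem_of_mem_erase (hT.mem_erase (by tauto))
  have hmerge := h.flat.merge h.nice.gp (hsubA v hT.mem) (hsubA v' hT'.mem)
    (by
      rw [← h3]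
      exact Finset.card_le_card (Finset.subset_inter (Finset.subset_insert _ _)
        (Finset.subset_insert _ _))) (hclq v hvnb) (hclq v' hv'nb)
  have hvv' : s(v, v') ∈ H := hmerge (mk_mem_Kf.mpr ⟨hne,
    Finset.mem_union_left _ (Finset.mem_insert_self _ _),
    Finset.mem_union_right _ (Finset.mem_insert_self _ _)⟩)
  have hv'A : v' ∈ A.erase v := Finset.mem_erase.mpr ⟨hne.symm, hT'.mem⟩
  have hv'N : v' ∈ nbr (A.erase v) (E : Set (Sym2 V)) v :=
    hN v hT.mem (hS5 v hv) (GR.mem_nbr.mpr ⟨hv'A, by exact_mod_cast hvv'⟩)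
  have hv'5 := hS5 v' hv'
  have hrod : v' = fd v ∨ v' = fe v := by
    rcases hT.lab.cases hv'N with hh | hh | hh | hh | hh
    · exact absurd hv'5 (hh ▸ hB _ _ _ _ _ _ hT)
    · exact absurd hv'5 (hh ▸ hB _ _ _ _ _ _ hT.swap_ab)
    · exact absurd hv'5 (hh ▸ hB _ _ _ _ _ _ hT.swap_ac)
    · exact Or.inl hh
    · exact Or.inr hh
  obtain ⟨Z, hZ, hZne⟩ := hT.exists_ne hM h.nice (w := a) (r := v') (Or.inl rfl) hrod
  exact hZne (hZ.2.2 a (hT.mem_erase (by tauto)) v' hv'A (by exact_mod_cast (hS v' hv').1))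

end

end GR
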