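import Pool.Agent.Lib.GR.Clique

/-!
# Attaching a vertex at nice positions
-/

set_option linter.unusedSectionVars false

namespace GR

open Filter Module

open scoped Matrix

variable {k : Type*} [Field k] {V : Type*} [DecidableEq V]

lemma Att_congr_at {p q : V → Vec k} {N : Set V} (h : ∀ v ∈ N, p v = q v) (x : Vec k) :
    Att p N x = Att q N x := by
  ext Z
  constructor
  · rintro ⟨z, h1, h2⟩
    exact ⟨z, h1, fun v hv => by rw [← h v hv]; exact h2 v hv⟩
  · rintro ⟨z, h1, h2⟩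
    exact ⟨z, h1, fun v hv => by rw [h v hv]; exact h2 v hv⟩

lemma notMem_nbr_erase (A : Finset V) (E : Set (Sym2 V)) (u : V) : u ∉ nbr (A.erase u) E u :=
  fun h => Finset.notMem_erase u A (nbr_subset _ _ _ h)

lemma Mot_rest (W : Finset V) (E : Finset (Sym2 V)) (p : V → Vec k) :
    Mot W ((rest E W : Finset (Sym2 V)) : Set (Sym2 V)) p = Mot W (E : Set (Sym2 V)) p := by
  refine Mot_congr p fun a ha b hb => ?_
  rw [Finset.mem_coe, Finset.mem_coe, mem_rest]
  constructor
  · exact fun h => h.1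
  · intro h
    refine ⟨h, fun v hv => ?_⟩
    rcases Sym2.mem_iff.mp hv with rfl | rfl
    exacts [ha, hb]

lemma mdim_rest (W : Finset V) (E : Finset (Sym2 V)) (p : V → Vec k) :
    mdim W ((rest E W : Finset (Sym2 V)) : Set (Sym2 V)) p = mdim W (E : Set (Sym2 V)) p := by
  unfold mdim
  rw [Mot_rest]

lemma rest_self {A : Finset V} {E : Finset (Sym2 V)} (hE : E ⊆ Kf A) : rest E A = E := by
  ext e
  rw [mem_rest]
  exact ⟨fun h => h.1, fun h => ⟨h, (mem_Kf.mp (hE h)).2⟩⟩

lemma rest_erase {A : Finset V} {E : Finset (Sym2 V)} (hE : E ⊆ Kf A) (u : V) :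
    rest E (A.erase u) = E.filter fun e => u ∉ e := by
  ext e
  rw [mem_rest, Finset.mem_filter]
  constructor
  · rintro ⟨h1, h2⟩
    exact ⟨h1, fun h => Finset.notMem_erase u A (h2 u h)⟩
  · rintro ⟨h1, h2⟩
    refine ⟨h1, fun v hv => Finset.mem_erase.mpr ⟨?_, (mem_Kf.mp (hE h1)).2 v hv⟩⟩
    rintro rfl
    exact h2 hv

/-- degree -/
lemma edeg_eq_card_nbr {A : Finset V} {E : Finset (Sym2 V)} (hE : E ⊆ Kf A) (u : V) :
    edeg E u = (nbr (A.erase u) (E : Set (Sym2 V)) u).card := by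
  rw [edeg]
  symm
  refine Finset.card_bij (fun w _ => s(u, w)) ?_ ?_ ?_
  · intro w hw
    rw [mem_nbr] at hw
    rw [Finset.mem_filter]
    exact ⟨by exact_mod_cast hw.2, by simp⟩
  · intro a ha b hb hab
    rcases Sym2.eq_iff.mp hab with ⟨-, h1⟩ | ⟨h1, h2⟩
    · exact h1
    · rw [h2, ← h1]
  · intro e he
    rw [Finset.mem_filter] at he
    obtain ⟨he1, w, rfl⟩ := he
    have h1 := mem_Kf.mp (hE he1)
    refine ⟨w, mem_nbr.mpr ⟨Finset.mem_erase.mpr ⟨?_, h1.2 w (by simp)⟩, by exact_mod_cast he1⟩,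
      rfl⟩
    rintro rfl
    exact h1.1 (by simp)

lemma card_rest_erase {A : Finset V} {E : Finset (Sym2 V)} (hE : E ⊆ Kf A) (u : V) :
    (rest E (A.erase u)).card + (nbr (A.erase u) (E : Set (Sym2 V)) u).card = E.card := by
  rw [← edeg_eq_card_nbr hE, edeg, rest_erase hE, add_comm,
    Finset.card_filter_add_card_filter_not]

/-- stresses and motions for a subset of the vertices -/
lemma finrank_Stress_rest {W : Finset V} (E : Finset (Sym2 V)) {p : V → Vec k}
    (hp : ∀ v ∈ W, p v ≠ 0) :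
    finrank k (Stress (rest E W) p) + 3 * W.card
      = (rest E W).card + mdim W (E : Set (Sym2 V)) p := by
  have h := finrank_Stress_eq (A := W) (E := rest E W) (fun e he => (mem_rest.mp he).2) hp
  rwa [mdim_rest] at h

section Nice

variable [Infinite k] {A : Finset V} {p : V → Vec k}

/-- The attaching conditions have the generic rank at a generic position of `u`. -/
theorem Nice.eventually_att (hp : Nice A p) (E : Set (Sym2 V)) {u : V} (hu : u ∈ A)
    (h4 : 4 ≤ (nbr (A.erase u) E u).card) :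
    ∀ᶠ x in gen k (Vec k),
      finrank k (Mot (A.erase u) E p ⊓ Att p (nbr (A.erase u) E u : Set V) x :
        Submodule k (V → Vec k)) = mdim A E p := by
  filter_upwards [hp.upd u hu] with x hx
  have h1 : mdim A E (Function.update p u x) = mdim A E p := by
    rw [hx.1 A subset_rfl, hp.reg A subset_rfl]
  have h2 := mdim_insert_of_four_le (Finset.notMem_erase u A) E (Function.update p u x)
    (hx.2.mono (by exact_mod_cast (nbr_subset _ _ _).trans (Finset.erase_subset u A))) h4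
  rw [Finset.insert_erase hu, h1, Function.update_self] at h2
  have h3 : Mot (A.erase u) E (Function.update p u x) = Mot (A.erase u) E p :=
    Mot_congr_pts fun a ha => Function.update_of_ne (Finset.ne_of_mem_erase ha) _ _
  have h5 : Att (Function.update p u x) (nbr (A.erase u) E u : Set V) x
      = Att p (nbr (A.erase u) E u : Set V) x := by
    refine Att_congr_at (fun v hv => ?_) x
    rw [Finset.mem_coe] at hv
    exact Function.update_of_ne (Finset.ne_of_mem_erase (nbr_subset _ _ _ hv)) _ _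
  rw [h3, h5] at h2
  exact h2.symm

/-- Deleting a vertex of degree at least four does not decrease the dimension. -/
theorem Nice.mdim_le_erase (hp : Nice A p) (E : Set (Sym2 V)) {u : V} (hu : u ∈ A)
    (h4 : 4 ≤ (nbr (A.erase u) E u).card) : mdim A E p ≤ mdim (A.erase u) E p := by
  have h2 := mdim_insert_of_four_le (Finset.notMem_erase u A) E p
    (hp.gp.mono (by exact_mod_cast (nbr_subset _ _ _).trans (Finset.erase_subset u A))) h4
  rw [Finset.insert_erase hu] at h2
  rw [h2]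
  exact Submodule.finrank_mono inf_le_left

/-- **(E3)** If a vertex of degree at least four imposes no condition then its neighbours are
rigid. -/
theorem Nice.le_RG (h2 : (2 : k) ≠ 0) (hp : Nice A p) (E : Set (Sym2 V)) {u : V} (hu : u ∈ A)
    (h4 : 4 ≤ (nbr (A.erase u) E u).card) (h : mdim (A.erase u) E p ≤ mdim A E p) :
    Mot (A.erase u) E p ≤ RG p (nbr (A.erase u) E u : Set V) := by
  refine le_RG_of_Att h2 h4
    (hp.gp.mono (by exact_mod_cast (nbr_subset _ _ _).trans (Finset.erase_subset u A)))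
    (fun Z hZ v hv => hZ.2.1 v (nbr_subset _ _ _ hv)) ?_
  filter_upwards [hp.eventually_att E hu h4] with x hx
  have h1 : (Mot (A.erase u) E p ⊓ Att p (nbr (A.erase u) E u : Set V) x :
        Submodule k (V → Vec k)) = Mot (A.erase u) E p := by
    refine Submodule.eq_of_le_of_finrank_le inf_le_left ?_
    rw [hx]
    exact h
  rw [← h1]
  exact inf_le_right

end Nice

/-- restriction of rigidity to a subset of the vertices -/
lemma Mot_le_RG_of_erase {A : Finset V} {E : Set (Sym2 V)} {p : V → Vec k} {u : V} {N : Finset V}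
    (hN : N ⊆ A.erase u)
    (h : Mot (A.erase u) E p ≤ RG p (N : Set V)) : Mot A E p ≤ RG p (N : Set V) := by
  intro Z hZ
  have h1 : cut k (A.erase u) Z ∈ Mot (A.erase u) E p :=
    cut_mem_Mot_of_subset (Finset.erase_subset u A) hZ
  obtain ⟨S, hS, h2⟩ := h h1
  refine ⟨S, hS, fun i hi => ?_⟩
  rw [← h2 i hi, cut_apply Z (hN (by exact_mod_cast hi))]

/-- rigidity on motions and cliques of the closure -/
lemma Kf_subset_clF {A : Finset V} {E : Finset (Sym2 V)} (hE : E ⊆ Kf A) {p : V → Vec k}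
    {N : Finset V} (hN : N ⊆ A) (h : Mot A (E : Set (Sym2 V)) p ≤ RG p (N : Set V)) :
    Kf N ⊆ clF A E p := by
  intro e he
  induction e using Sym2.ind with
  | _ a b =>
    rw [mk_mem_Kf] at he
    rw [mem_clF, mk_mem_Kf]
    refine ⟨⟨he.1, hN he.2.1, hN he.2.2⟩, ?_⟩
    rw [mem_clo_iff_Mot hE (hN he.2.1) (hN he.2.2)]
    intro Z hZ
    exact eps_eq_zero_of_RG (h hZ) (by exact_mod_cast he.2.1) (by exact_mod_cast he.2.2)

lemma le_RG_of_Kf {A : Finset V} {E : Finset (Sym2 V)} {p : V → Vec k}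
    (hp : GenPos p (A : Set V)) {N : Finset V} (hN : N ⊆ A) (h3 : 3 ≤ N.card)
    (hc : Kf N ⊆ E) : Mot A (E : Set (Sym2 V)) p ≤ RG p (N : Set V) := by
  have hl : ∀ Z ∈ Mot A (E : Set (Sym2 V)) p, ∀ v ∈ N, Z v ⬝ᵥ p v = 0 :=
    fun Z hZ v hv => hZ.2.1 v (hN hv)
  refine (rigidOn_iff_le_RG (hp.mono (by exact_mod_cast hN)) h3 hl).mp ?_
  intro a ha b hb Z hZ
  by_cases hab : a = b
  · subst hab
    rw [eps_apply, hZ.2.1 a (hN (by exact_mod_cast ha)), add_zero]
  · exact hZ.2.2 a (hN (by exact_mod_cast ha)) b (hN (by exact_mod_cast hb))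
      (by exact_mod_cast hc (mk_mem_Kf.mpr ⟨hab, by exact_mod_cast ha, by exact_mod_cast hb⟩))

/-- the motions of the closure -/
lemma Mot_clF {A : Finset V} {E : Finset (Sym2 V)} (hE : E ⊆ Kf A) (p : V → Vec k) :
    Mot A ((clF A E p : Finset (Sym2 V)) : Set (Sym2 V)) p = Mot A (E : Set (Sym2 V)) p := by
  refine le_antisymm (Mot_anti (by exact_mod_cast subset_clF hE p) p) ?_
  intro Z hZ
  refine ⟨hZ.1, hZ.2.1, fun a ha b hb hab => ?_⟩
  have h1 := mem_clF.mp (by exact_mod_cast hab : s(a, b) ∈ clF A E p)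
  exact (mem_clo_iff_Mot hE ha hb).mp h1.2 Z hZ

lemma IsFlatIn.mem_of_rigid {A : Finset V} {D : Finset (Sym2 V)} {p : V → Vec k}
    (hD : IsFlatIn A D p) {a b : V} (hab : a ≠ b) (ha : a ∈ A) (hb : b ∈ A)
    (h : ∀ Z ∈ Mot A (D : Set (Sym2 V)) p, eps p a b Z = 0) : s(a, b) ∈ D :=
  hD.2 _ (mk_mem_Kf.mpr ⟨hab, ha, hb⟩) ((mem_clo_iff_Mot hD.1 ha hb).mpr h)

lemma IsFlatIn.Kf_subset_of_RG {A : Finset V} {D : Finset (Sym2 V)} {p : V → Vec k}
    (hD : IsFlatIn A D p) {N : Finset V} (hN : N ⊆ A)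
    (h : Mot A (D : Set (Sym2 V)) p ≤ RG p (N : Set V)) : Kf N ⊆ D := by
  intro e he
  induction e using Sym2.ind with
  | _ a b =>
    rw [mk_mem_Kf] at he
    exact hD.mem_of_rigid he.1 (hN he.2.1) (hN he.2.2) fun Z hZ =>
      eps_eq_zero_of_RG (h hZ) (by exact_mod_cast he.2.1) (by exact_mod_cast he.2.2)

/-- A flat which contains `E` and has the same dimension is the closure of `E`. -/
lemma IsFlatIn.eq_clF {A : Finset V} {D E : Finset (Sym2 V)} {p : V → Vec k}
    (hD : IsFlatIn A D p) (h : E ⊆ D)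
    (hd : mdim A (E : Set (Sym2 V)) p ≤ mdim A (D : Set (Sym2 V)) p) : clF A E p = D := by
  refine subset_antisymm (hD.clF_subset_of h) fun e he => ?_
  have hE : E ⊆ Kf A := h.trans hD.1
  have h1 : Mot A (D : Set (Sym2 V)) p = Mot A (E : Set (Sym2 V)) p :=
    Submodule.eq_of_le_of_finrank_le (Mot_anti (by exact_mod_cast h) p) hd
  induction e using Sym2.ind with
  | _ a b =>
    have h2 := mk_mem_Kf.mp (hD.1 he)
    rw [mem_clF, mk_mem_Kf]
    refine ⟨h2, (mem_clo_iff_Mot hE h2.2.1 h2.2.2).mpr fun Z hZ => ?_⟩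
    rw [← h1] at hZ
    exact hZ.2.2 a h2.2.1 b h2.2.2 (by exact_mod_cast he)

end GR
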