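import Pool.Agent.Lib.GR.Basic

/-!
# Attaching a vertex
-/

set_option linter.unusedSectionVars false

namespace GR

open Filter Module

open scoped Matrix

variable {k : Type*} [Field k] {V : Type*}

/-- Every linear functional on `Vec k` is a dot product. -/
lemma exists_dot (φ : Vec k →ₗ[k] k) : ∃ z : Vec k, ∀ y, z ⬝ᵥ y = φ y := by
  refine ⟨fun j => φ (Pi.single j 1), fun y => ?_⟩
  have : y = ∑ j, y j • (Pi.single j 1 : Vec k) := by
    ext i
    simp [Finset.sum_apply, Pi.single_apply]
  conv_rhs => rw [this]
  simp only [dotProduct, map_sum, map_smul, smul_eq_mul]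
  exact Finset.sum_congr rfl fun i _ => mul_comm _ _

/-- `N` spans. -/
def Spans (p : V → Vec k) (N : Finset V) : Prop :=
  ∀ y : Vec k, ∃ c : V → k, ∑ i ∈ N, c i • p i = y

/-- **Attaching criterion** for a spanning neighbourhood. -/
theorem mem_Att_iff {p : V → Vec k} {N : Finset V} (hN : Spans p N) {x : Vec k} {l : V → k}
    (hx : ∑ i ∈ N, l i • p i = x) (Z : V → Vec k) :
    Z ∈ Att p (N : Set V) x ↔
      (∀ c : V → k, ∑ i ∈ N, c i • p i = 0 → ∑ i ∈ N, c i * (Z i ⬝ᵥ x) = 0) ∧
        ∑ i ∈ N, l i * (Z i ⬝ᵥ x) = 0 := by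
  constructor
  · rintro ⟨z, hz, hzN⟩
    have key : ∀ c : V → k, ∑ i ∈ N, c i * (Z i ⬝ᵥ x) = - (z ⬝ᵥ ∑ i ∈ N, c i • p i) := by
      intro c
      rw [dotProduct_sum, ← Finset.sum_neg_distrib]
      refine Finset.sum_congr rfl fun i hi => ?_
      have := hzN i (by simpa using hi)
      rw [dotProduct_smul, smul_eq_mul]
      linear_combination c i * this
    refine ⟨fun c hc => ?_, ?_⟩
    · rw [key, hc, dotProduct_zero, neg_zero]
    · rw [key, hx, hz, neg_zero]
  · rintro ⟨h1, h2⟩
    let P : (V → k) →ₗ[k] Vec k :=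
      { toFun := fun c => ∑ i ∈ N, c i • p i
        map_add' := fun c c' => by simp [add_smul, Finset.sum_add_distrib]
        map_smul' := fun a c => by simp [mul_smul, Finset.smul_sum] }
    let G : (V → k) →ₗ[k] k :=
      { toFun := fun c => - ∑ i ∈ N, c i * (Z i ⬝ᵥ x)
        map_add' := fun c c' => by simp [add_mul, Finset.sum_add_distrib]; ring
        map_smul' := fun a c => by simp [mul_assoc, Finset.mul_sum] }
    have hP : Function.Surjective P := fun y => hN y
    obtain ⟨g, hg⟩ := P.exists_rightInverse_of_surjective (LinearMap.range_eq_top.mpr hP)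
    obtain ⟨z, hz⟩ := exists_dot (G ∘ₗ g)
    have hG : ∀ c, z ⬝ᵥ P c = G c := by
      intro c
      rw [hz]
      have h3 : P (g (P c) - c) = 0 := by
        rw [map_sub]
        have : P (g (P c)) = P c := by
          have := LinearMap.congr_fun hg (P c)
          simpa using this
        rw [this, sub_self]
      have h4 : G (g (P c) - c) = 0 := by
        have := h1 _ h3
        show - _ = (0 : k)
        rw [this, neg_zero]
      rw [map_sub, sub_eq_zero] at h4
      exact h4
    refine ⟨z, ?_, ?_⟩
    · have := hG l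
      have e : P l = x := hx
      rw [e] at this
      rw [this]
      show - _ = (0 : k)
      rw [h2, neg_zero]
    · classical
      intro v hv
      have hv' : v ∈ N := by simpa using hv
      have := hG (Pi.single v 1)
      have e1 : P (Pi.single v 1) = p v := by
        show ∑ i ∈ N, (Pi.single v 1 : V → k) i • p i = p v
        rw [Finset.sum_eq_single v]
        · simp
        · intro i _ hi
          simp [hi]
        · exact fun h => absurd hv' h
      have e2 : G (Pi.single v 1) = - (Z v ⬝ᵥ x) := by
        show - ∑ i ∈ N, (Pi.single v 1 : V → k) i * (Z i ⬝ᵥ x) = _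
        rw [Finset.sum_eq_single v]
        · simp
        · intro i _ hi
          simp [hi]
        · exact fun h => absurd hv' h
      rw [e1, e2] at this
      rw [this]
      ring

/-- The strain form `∑ λ_i λ'_j ε_ij(Z)` of the vertices of `N`. -/
noncomputable def frm (p : V → Vec k) (N : Finset V) (Z : V → Vec k) :
    (V → k) →ₗ[k] (V → k) →ₗ[k] k :=
  LinearMap.mk₂ k (fun l l' => ∑ i ∈ N, ∑ j ∈ N, l i * l' j * eps p i j Z)
    (by intro a b c; simp [add_mul, Finset.sum_add_distrib])
    (by intro r a c; simp [Finset.mul_sum, mul_assoc])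
    (by intro a b c; simp [add_mul, mul_add, Finset.sum_add_distrib])
    (by intro r a c; simp [Finset.mul_sum, mul_assoc, mul_left_comm])

lemma frm_apply (p : V → Vec k) (N : Finset V) (Z : V → Vec k) (l l' : V → k) :
    frm p N Z l l' = ∑ i ∈ N, ∑ j ∈ N, l i * l' j * eps p i j Z := rfl

/-- the form, linearly in `Z` -/
noncomputable def frmL (p : V → Vec k) (N : Finset V) :
    (V → Vec k) →ₗ[k] ((V → k) →ₗ[k] (V → k) →ₗ[k] k) where
  toFun Z := frm p N Z
  map_add' Z Z' := by
    refine LinearMap.ext fun l => LinearMap.ext fun l' => ?_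
    simp only [LinearMap.add_apply, frm_apply, map_add, mul_add, Finset.sum_add_distrib]
  map_smul' c Z := by
    refine LinearMap.ext fun l => LinearMap.ext fun l' => ?_
    simp only [LinearMap.smul_apply, frm_apply, map_smul, smul_eq_mul, RingHom.id_apply,
      Finset.mul_sum]
    refine Finset.sum_congr rfl fun i _ => Finset.sum_congr rfl fun j _ => ?_
    ring

@[simp] lemma frmL_apply (p : V → Vec k) (N : Finset V) (Z : V → Vec k) :
    frmL p N Z = frm p N Z := rfl

lemma frm_symm (p : V → Vec k) (N : Finset V) (Z : V → Vec k) (l l' : V → k) :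
    frm p N Z l l' = frm p N Z l' l := by
  rw [frm_apply, frm_apply, Finset.sum_comm]
  refine Finset.sum_congr rfl fun i _ => Finset.sum_congr rfl fun j _ => ?_
  rw [eps_comm]
  ring

lemma sum_dot_eq (p : V → Vec k) (N : Finset V) (Z : V → Vec k) (l l' : V → k) :
    ∑ i ∈ N, l i * (Z i ⬝ᵥ ∑ j ∈ N, l' j • p j)
      = ∑ i ∈ N, ∑ j ∈ N, l i * l' j * (Z i ⬝ᵥ p j) := by
  refine Finset.sum_congr rfl fun i _ => ?_
  rw [dotProduct_sum, Finset.mul_sum]
  refine Finset.sum_congr rfl fun j _ => ?_
  rw [dotProduct_smul, smul_eq_mul]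
  ring

lemma frm_eq (p : V → Vec k) (N : Finset V) (Z : V → Vec k) (l l' : V → k) :
    frm p N Z l l' = ∑ i ∈ N, l i * (Z i ⬝ᵥ ∑ j ∈ N, l' j • p j)
      + ∑ j ∈ N, l' j * (Z j ⬝ᵥ ∑ i ∈ N, l i • p i) := by
  rw [frm_apply, sum_dot_eq, sum_dot_eq]
  have h1 : ∑ i ∈ N, ∑ j ∈ N, l' i * l j * (Z i ⬝ᵥ p j)
      = ∑ i ∈ N, ∑ j ∈ N, l i * l' j * (Z j ⬝ᵥ p i) := by
    rw [Finset.sum_comm]
    refine Finset.sum_congr rfl fun i _ => Finset.sum_congr rfl fun j _ => ?_
    ring
  rw [h1, ← Finset.sum_add_distrib]
  refine Finset.sum_congr rfl fun i _ => ?_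
  rw [← Finset.sum_add_distrib]
  refine Finset.sum_congr rfl fun j _ => ?_
  rw [eps_apply]
  ring

/-- `β_x` : `m(λ,λ) = 2 ∑ λ_i Z_i·x` for `x = ∑ λ_i p_i`. -/
lemma frm_self (p : V → Vec k) (N : Finset V) (Z : V → Vec k) (l : V → k) :
    frm p N Z l l = 2 * ∑ i ∈ N, l i * (Z i ⬝ᵥ ∑ j ∈ N, l j • p j) := by
  rw [frm_eq]; ring

/-- `α_x` : `m(μ,λ) = ∑ μ_i Z_i·x` for a dependency `μ` and `x = ∑ λ_i p_i`. -/
lemma frm_dep (p : V → Vec k) (N : Finset V) (Z : V → Vec k) (μ l : V → k)
    (hμ : ∑ i ∈ N, μ i • p i = 0) :
    frm p N Z μ l = ∑ i ∈ N, μ i * (Z i ⬝ᵥ ∑ j ∈ N, l j • p j) := by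
  rw [frm_eq, hμ]; simp

/-- **Attaching criterion in terms of the strain form.** -/
theorem mem_Att_iff_frm (h2 : (2 : k) ≠ 0) {p : V → Vec k} {N : Finset V} (hN : Spans p N)
    (l : V → k) (Z : V → Vec k) :
    Z ∈ Att p (N : Set V) (∑ i ∈ N, l i • p i) ↔
      (∀ c : V → k, ∑ i ∈ N, c i • p i = 0 → frm p N Z c l = 0) ∧ frm p N Z l l = 0 := by
  rw [mem_Att_iff hN rfl]
  constructor
  · rintro ⟨h, h'⟩
    refine ⟨fun c hc => ?_, ?_⟩
    · rw [frm_dep _ _ _ _ _ hc]; exact h c hc
    · rw [frm_self, h', mul_zero]
  · rintro ⟨h, h'⟩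
    refine ⟨fun c hc => ?_, ?_⟩
    · rw [← frm_dep _ _ _ _ _ hc]; exact h c hc
    · rw [frm_self] at h'
      exact (mul_eq_zero.mp h').resolve_left h2

/-- strain of a pair from the form -/
lemma frm_single [DecidableEq V] (p : V → Vec k) {N : Finset V} (Z : V → Vec k) {a b : V}
    (ha : a ∈ N) (hb : b ∈ N) :
    frm p N Z (Pi.single a 1) (Pi.single b 1) = eps p a b Z := by
  rw [frm_apply, Finset.sum_eq_single a, Finset.sum_eq_single b]
  · simp
  · intro j _ hj; simp [hj]
  · exact fun h => absurd hb h
  · intro i _ hi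
    refine Finset.sum_eq_zero fun j _ => ?_
    simp [Pi.single_apply, hi]
  · exact fun h => absurd ha h

/-- Prescribing the values of a functional on an independent family. -/
lemma exists_functional {ι W : Type*} [AddCommGroup W] [Module k W] {v : ι → W}
    (h : LinearIndependent k v) (c : ι → k) : ∃ φ : W →ₗ[k] k, ∀ i, φ (v i) = c i := by
  obtain ⟨φ, hφ⟩ := LinearMap.exists_extend
    ((Finsupp.linearCombination k c) ∘ₗ (h.repr : _ →ₗ[k] (ι →₀ k)))
  refine ⟨φ, fun i => ?_⟩
  have h1 := LinearMap.congr_fun hφ ⟨v i, Submodule.subset_span ⟨i, rfl⟩⟩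
  simp only [LinearMap.comp_apply, Submodule.subtype_apply] at h1
  rw [h1]
  have h2 := h.repr_eq_single i ⟨v i, Submodule.subset_span ⟨i, rfl⟩⟩ rfl
  simp [h2]

/-- Prescribing dot products on an independent family. -/
lemma exists_dot_eq {ι : Type*} {v : ι → Vec k}
    (h : LinearIndependent k v) (c : ι → k) : ∃ z : Vec k, ∀ i, z ⬝ᵥ v i = c i := by
  obtain ⟨φ, hφ⟩ := exists_functional h c
  obtain ⟨z, hz⟩ := exists_dot φ
  exact ⟨z, fun i => by rw [hz, hφ]⟩

/-- A small neighbourhood imposes no condition. -/
theorem mem_Att_of_linearIndependent {p : V → Vec k} {N : Finset V} {x : Vec k}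
    (h : LinearIndependent k (fun o : Option N => o.elim x fun v => p v)) (Z : V → Vec k) :
    Z ∈ Att p (N : Set V) x := by
  obtain ⟨z, hz⟩ := exists_dot_eq h (fun o => o.elim 0 fun v => - (Z v ⬝ᵥ x))
  refine ⟨z, ?_, ?_⟩
  · simpa using hz none
  · intro v hv
    have := hz (some ⟨v, by simpa using hv⟩)
    simp only [Option.elim_some] at this
    rw [this]
    ring

section Insert

variable [DecidableEq V]

open Classical in
/-- The neighbours of `u` in `A`. -/
noncomputable def nbr (A : Finset V) (E : Set (Sym2 V)) (u : V) : Finset V :=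
  A.filter fun v => s(u, v) ∈ E

lemma mem_nbr {A : Finset V} {E : Set (Sym2 V)} {u v : V} :
    v ∈ nbr A E u ↔ v ∈ A ∧ s(u, v) ∈ E := by
  classical
  simp [nbr]

lemma nbr_subset (A : Finset V) (E : Set (Sym2 V)) (u : V) : nbr A E u ⊆ A := by
  intro v hv
  exact (mem_nbr.mp hv).1

/-- Covectors orthogonal to `p u` and to the neighbours. -/
def Perp (p : V → Vec k) (N : Set V) (x : Vec k) : Submodule k (Vec k) where
  carrier := {z | z ⬝ᵥ x = 0 ∧ ∀ v ∈ N, z ⬝ᵥ p v = 0}
  add_mem' := by
    rintro z z' ⟨h1, h2⟩ ⟨h1', h2'⟩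
    exact ⟨by rw [add_dotProduct, h1, h1', add_zero], fun v hv => by
      rw [add_dotProduct, h2 v hv, h2' v hv, add_zero]⟩
  zero_mem' := ⟨by simp, fun v _ => by simp⟩
  smul_mem' := by
    rintro c z ⟨h1, h2⟩
    exact ⟨by rw [smul_dotProduct, h1, smul_zero], fun v hv => by
      rw [smul_dotProduct, h2 v hv, smul_zero]⟩

/-- forget the vertex `u` -/
def forget (k : Type*) [Field k] (u : V) : (V → Vec k) →ₗ[k] (V → Vec k) where
  toFun Z := Function.update Z u 0
  map_add' Z Z' := by
    ext v : 1
    by_cases h : v = u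
    · subst h; simp
    · simp [h]
  map_smul' c Z := by
    ext v : 1
    by_cases h : v = u
    · subst h; simp
    · simp [h]

lemma forget_apply_of_ne {u v : V} (h : v ≠ u) (Z : V → Vec k) : forget k u Z v = Z v := by
  simp [forget, h]

lemma forget_apply_self (u : V) (Z : V → Vec k) : forget k u Z u = 0 := by
  simp [forget]

/-- The restrictions to `A` of the motions of `insert u A` are the motions of `A` to which `u` can
be attached. -/
theorem map_forget_Mot {A : Finset V} {u : V} (hu : u ∉ A) (E : Set (Sym2 V)) (p : V → Vec k) :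
    (Mot (insert u A) E p).map (forget k u) = Mot A E p ⊓ Att p (nbr A E u : Set V) (p u) := by
  ext Z
  simp only [Submodule.mem_map, Submodule.mem_inf]
  constructor
  · rintro ⟨Y, hY, rfl⟩
    have hne : ∀ a ∈ A, a ≠ u := fun a ha h => hu (h ▸ ha)
    refine ⟨⟨?_, ?_, ?_⟩, Y u, ?_, ?_⟩
    · intro v hv
      by_cases h : v = u
      · subst h; exact forget_apply_self v Y
      · rw [forget_apply_of_ne h]
        exact hY.1 v (by simp [h, hv])
    · intro v hv
      rw [forget_apply_of_ne (hne v hv)]
      exact hY.2.1 v (by simp [hv])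
    · intro a ha b hb hab
      rw [eps_apply, forget_apply_of_ne (hne a ha), forget_apply_of_ne (hne b hb)]
      exact hY.2.2 a (by simp [ha]) b (by simp [hb]) hab
    · exact hY.2.1 u (by simp)
    · intro v hv
      have hv' := mem_nbr.mp (by simpa using hv : v ∈ nbr A E u)
      rw [forget_apply_of_ne (hne v hv'.1)]
      exact hY.2.2 u (by simp) v (by simp [hv'.1]) hv'.2
  · rintro ⟨⟨h1, h2, h3⟩, z, hz, hzN⟩
    have hne : ∀ a ∈ A, a ≠ u := fun a ha h => hu (h ▸ ha)
    refine ⟨Function.update Z u z, ⟨?_, ?_, ?_⟩, ?_⟩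
    · intro v hv
      have hvu : v ≠ u := by rintro rfl; simp at hv
      rw [Function.update_of_ne hvu]
      exact h1 v (fun h => hv (by simp [h]))
    · intro v hv
      by_cases h : v = u
      · subst h; simpa using hz
      · rw [Function.update_of_ne h]
        exact h2 v (by simpa [h] using hv)
    · intro a ha b hb hab
      rw [eps_apply]
      by_cases hau : a = u
      · by_cases hbu : b = u
        · subst hau; subst hbu
          simp [hz]
        · subst hau
          have hb' : b ∈ A := by simpa [hbu] using hb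
          have := hzN b (by simpa using mem_nbr.mpr ⟨hb', hab⟩)
          simpa [Function.update_of_ne hbu] using this
      · by_cases hbu : b = u
        · subst hbu
          have ha' : a ∈ A := by simpa [hau] using ha
          have := hzN a (by
            have : a ∈ nbr A E b := mem_nbr.mpr ⟨ha', by rw [Sym2.eq_swap]; exact hab⟩
            simpa using this)
          rw [Function.update_of_ne hau, Function.update_self]
          rw [add_comm]
          exact this
        · rw [Function.update_of_ne hau, Function.update_of_ne hbu]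
          exact h3 a (by simpa [hau] using ha) b (by simpa [hbu] using hb) hab
    · ext v : 1
      by_cases h : v = u
      · subst h
        rw [forget_apply_self]
        exact (h1 v hu).symm
      · rw [forget_apply_of_ne h, Function.update_of_ne h]

/-- **Dimension formula for attaching a vertex.** -/
theorem mdim_insert {A : Finset V} {u : V} (hu : u ∉ A) (E : Set (Sym2 V)) (p : V → Vec k) :
    mdim (insert u A) E p =
      finrank k (Mot A E p ⊓ Att p (nbr A E u : Set V) (p u) : Submodule k (V → Vec k))
        + finrank k (Perp p (nbr A E u : Set V) (p u)) := by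
  rw [← map_forget_Mot hu E p]
  let f := (forget k u).domRestrict (Mot (insert u A) E p)
  have h1 := LinearMap.finrank_range_add_finrank_ker f
  have h2 : LinearMap.range f = (Mot (insert u A) E p).map (forget k u) := by
    ext Z
    simp [f]
  rw [h2] at h1
  unfold mdim
  rw [← h1]
  congr 1
  -- the kernel
  have hne : ∀ a ∈ A, a ≠ u := fun a ha h => hu (h ▸ ha)
  let g : LinearMap.ker f →ₗ[k] Perp p (nbr A E u : Set V) (p u) :=
    { toFun := fun Z => ⟨Z.1.1 u, by
        have hz : ∀ v, v ≠ u → Z.1.1 v = 0 := by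
          intro v hv
          have := Z.2
          have h3 := congrFun (LinearMap.mem_ker.mp this) v
          rw [← forget_apply_of_ne hv Z.1.1]
          exact h3
        refine ⟨Z.1.2.2.1 u (by simp), fun v hv => ?_⟩
        have hv' := mem_nbr.mp (by simpa using hv : v ∈ nbr A E u)
        have := Z.1.2.2.2 u (by simp) v (by simp [hv'.1]) hv'.2
        rw [eps_apply, hz v (hne v hv'.1)] at this
        simpa using this⟩
      map_add' := fun _ _ => rfl
      map_smul' := fun _ _ => rfl }
  have hg : Function.Bijective g := by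
    constructor
    · intro Z Z' h
      have hz : ∀ Y : LinearMap.ker f, ∀ v, v ≠ u → Y.1.1 v = 0 := by
        intro Y v hv
        have h3 := congrFun (LinearMap.mem_ker.mp Y.2) v
        rw [← forget_apply_of_ne hv Y.1.1]
        exact h3
      apply Subtype.ext
      apply Subtype.ext
      funext v
      by_cases hv : v = u
      · subst hv
        exact congrArg Subtype.val h
      · rw [hz Z v hv, hz Z' v hv]
    · rintro ⟨z, hz, hzN⟩
      have hmem : Function.update (0 : V → Vec k) u z ∈ Mot (insert u A) E p := by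
        refine ⟨?_, ?_, ?_⟩
        · intro v hv
          have hvu : v ≠ u := by rintro rfl; simp at hv
          simp [hvu]
        · intro v _
          by_cases h : v = u
          · subst h; simpa using hz
          · simp [h]
        · intro a ha b hb hab
          rw [eps_apply]
          by_cases hau : a = u
          · by_cases hbu : b = u
            · subst hau; subst hbu
              simp [hz]
            · subst hau
              have hb' : b ∈ A := by simpa [hbu] using hb
              have := hzN b (by simpa using mem_nbr.mpr ⟨hb', hab⟩)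
              simp [Function.update_of_ne hbu, this]
          · by_cases hbu : b = u
            · subst hbu
              have ha' : a ∈ A := by simpa [hau] using ha
              have := hzN a (by
                have : a ∈ nbr A E b := mem_nbr.mpr ⟨ha', by rw [Sym2.eq_swap]; exact hab⟩
                simpa using this)
              simp [Function.update_of_ne hau, this]
            · simp [Function.update_of_ne hau, Function.update_of_ne hbu]
      refine ⟨⟨⟨_, hmem⟩, ?_⟩, ?_⟩
      · rw [LinearMap.mem_ker]
        show forget k u _ = 0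
        ext v : 1
        by_cases h : v = u
        · subst h; exact forget_apply_self v _
        · rw [forget_apply_of_ne h]; simp [h]
      · apply Subtype.ext
        show Function.update (0 : V → Vec k) u z u = z
        simp
  exact (LinearEquiv.ofBijective g hg).finrank_eq

end Insert

end GR
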