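import Pool.Agent.Lib.GR.Attach

/-!
# Attaching a vertex: small degrees, general position, generic positions
-/

set_option linter.unusedSectionVars false

namespace GR

open Filter Module

open scoped Matrix

variable {k : Type*} [Field k] {V : Type*}

/-- dimension of `Perp` for an independent small neighbourhood -/
lemma finrank_Perp {p : V → Vec k} {N : Finset V} {x : Vec k}
    (h : LinearIndependent k (fun o : Option N => o.elim x fun v => p v)) :
    finrank k (Perp p (N : Set V) x) + N.card = 3 := by
  classical
  let T : Vec k →ₗ[k] (Option N → k) :=
    { toFun := fun z o => z ⬝ᵥ (o.elim x fun v => p v)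
      map_add' := fun z z' => by ext o; simp [add_dotProduct]
      map_smul' := fun c z => by ext o; simp }
  have hs : Function.Surjective T := by
    intro c
    obtain ⟨z, hz⟩ := exists_dot_eq h c
    exact ⟨z, by ext o; exact hz o⟩
  have h1 := LinearMap.finrank_range_add_finrank_ker T
  rw [LinearMap.range_eq_top.mpr hs, finrank_top] at h1
  have h2 : LinearMap.ker T = Perp p (N : Set V) x := by
    ext z
    rw [LinearMap.mem_ker]
    constructor
    · intro hz
      refine ⟨?_, fun v hv => ?_⟩
      · simpa [T] using congrFun hz none
      · simpa [T] using congrFun hz (some ⟨v, by simpa using hv⟩)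
    · rintro ⟨h3, h4⟩
      ext o
      cases o with
      | none => simpa [T] using h3
      | some v => simpa [T] using h4 v (by simp)
  rw [h2] at h1
  simp only [Module.finrank_fintype_fun_eq_card, Fintype.card_option, Fintype.card_coe,
    Fintype.card_fin] at h1
  omega

/-- no orthogonal covector for a spanning neighbourhood -/
lemma finrank_Perp_of_spans {p : V → Vec k} {N : Finset V} (hN : Spans p N) (x : Vec k) :
    finrank k (Perp p (N : Set V) x) = 0 := by
  have : Perp p (N : Set V) x = ⊥ := by
    rw [eq_bot_iff]
    rintro z ⟨-, hz⟩
    have h : ∀ y : Vec k, z ⬝ᵥ y = 0 := by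
      intro y
      obtain ⟨c, rfl⟩ := hN y
      rw [dotProduct_sum]
      refine Finset.sum_eq_zero fun i hi => ?_
      rw [dotProduct_smul, hz i (by simpa using hi), smul_zero]
    rw [Submodule.mem_bot]
    ext i
    simpa using h (Pi.single i 1)
  rw [this, finrank_bot]

lemma GenPos.mono {p : V → Vec k} {N N' : Set V} (h : GenPos p N) (hN : N' ⊆ N) : GenPos p N' :=
  fun T hT hc => h T (hT.trans hN) hc

lemma GenPos.ne_zero {p : V → Vec k} {N : Set V} (h : GenPos p N) {v : V} (hv : v ∈ N) :
    p v ≠ 0 := by
  have := h {v} (by simpa using hv) (by simp)
  exact this.ne_zero ⟨v, by simp⟩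

/-- independent family with an extra point -/
lemma GenPos.option [DecidableEq V] {p : V → Vec k} {N : Finset V} {u : V} (hu : u ∉ N)
    (h : GenPos p (insert u (N : Set V))) (hc : N.card ≤ 3) :
    LinearIndependent k (fun o : Option N => o.elim (p u) fun v => p v) := by
  have h1 := h (insert u N) (by simp) (by rw [Finset.card_insert_of_notMem hu]; omega)
  let e : Option N → (insert u N : Finset V) := fun o =>
    o.elim ⟨u, by simp⟩ fun v => ⟨v, by simp⟩
  have he : Function.Injective e := by
    intro a b hab
    cases a with
    | none =>
      cases b with
      | none => rfl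
      | some b =>
        exfalso
        have : u = (b : V) := congrArg Subtype.val hab
        exact hu (this ▸ b.2)
    | some a =>
      cases b with
      | none =>
        exfalso
        have : (a : V) = u := congrArg Subtype.val hab
        exact hu (this ▸ a.2)
      | some b =>
        have h5 := congrArg Subtype.val hab
        have h6 : (a : V) = (b : V) := h5
        rw [Subtype.ext h6]
  have h2 := h1.comp e he
  have h3 : (fun v : (insert u N : Finset V) => p v) ∘ e
      = fun o : Option N => o.elim (p u) fun v => p v := by
    ext o : 1
    cases o <;> rfl
  rwa [h3] at h2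

/-- four points in general position form a basis -/
lemma GenPos.spans {p : V → Vec k} {N : Finset V} (h : GenPos p (N : Set V)) (hc : 4 ≤ N.card) :
    Spans p N := by
  classical
  obtain ⟨T, hTN, hT⟩ := Finset.exists_subset_card_eq hc
  have hli := h T (by simpa using hTN) hT.le
  have hspan : Submodule.span k (Set.range fun v : T => p v) = ⊤ := by
    apply hli.span_eq_top_of_card_eq_finrank'
    simp [hT]
  intro y
  have hy : y ∈ Submodule.span k (Set.range fun v : T => p v) := by rw [hspan]; trivial
  rw [Submodule.mem_span_range_iff_exists_fun] at hy
  obtain ⟨c, hc⟩ := hy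
  refine ⟨fun v => if hv : v ∈ T then c ⟨v, hv⟩ else 0, ?_⟩
  rw [← hc, ← Finset.sum_subset hTN]
  · rw [← Finset.sum_coe_sort T]
    refine Finset.sum_congr rfl fun i _ => ?_
    simp
  · intro i _ hi
    simp [hi]

section Insert

variable [DecidableEq V]

/-- Attaching a vertex of degree at most three. -/
theorem mdim_insert_of_le_three {A : Finset V} {u : V} (hu : u ∉ A) (E : Set (Sym2 V))
    (p : V → Vec k) (hp : GenPos p (insert u (nbr A E u : Set V)))
    (hc : (nbr A E u).card ≤ 3) :
    mdim (insert u A) E p + (nbr A E u).card = mdim A E p + 3 := by
  have hu' : u ∉ nbr A E u := fun h => hu (nbr_subset A E u h)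
  have hli := hp.option hu' hc
  rw [mdim_insert hu E p]
  have h1 := finrank_Perp hli
  have h2 : (Mot A E p ⊓ Att p (nbr A E u : Set V) (p u) : Submodule k (V → Vec k))
      = Mot A E p := by
    rw [inf_eq_left]
    intro Z _
    exact mem_Att_of_linearIndependent hli Z
  rw [h2]
  unfold mdim
  omega

/-- Attaching a vertex of degree at least four. -/
theorem mdim_insert_of_four_le {A : Finset V} {u : V} (hu : u ∉ A) (E : Set (Sym2 V))
    (p : V → Vec k) (hp : GenPos p (nbr A E u : Set V))
    (hc : 4 ≤ (nbr A E u).card) :
    mdim (insert u A) E p =
      finrank k (Mot A E p ⊓ Att p (nbr A E u : Set V) (p u) : Submodule k (V → Vec k)) := by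
  rw [mdim_insert hu E p, finrank_Perp_of_spans (hp.spans hc), add_zero]

end Insert

section Generic

variable [Infinite k]

/-- Points are generically in general position. -/
theorem eventually_genPos (A : Finset V) :
    ∀ᶠ p in gen k (V → Vec k), GenPos p (A : Set V) := by
  classical
  have h : ∀ᶠ p in gen k (V → Vec k), ∀ T ∈ A.powerset, T.card ≤ 4 →
      LinearIndependent k (fun v : T => p v) := by
    rw [Filter.eventually_all_finset]
    intro T _
    by_cases hT : T.card ≤ 4
    · have : ∀ᶠ p in gen k (V → Vec k), LinearIndependent k (fun v : T => p v) := by
        refine eventually_linearIndependent_fun (κ := Fin 4) (fun (p : V → Vec k) (v : T) => p v)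
          (fun v i => polyLine_coord (v : V) i) ?_
        -- distinct basis vectors
        obtain ⟨f⟩ : Nonempty (T ↪ Fin 4) := by
          rw [← Fintype.card_coe T] at hT
          exact Function.Embedding.nonempty_of_card_le (by simpa using hT)
        refine ⟨fun v => if hv : v ∈ T then Pi.single (f ⟨v, hv⟩) 1 else 0, ?_⟩
        have h1 : LinearIndependent k (fun i : Fin 4 => (Pi.single i 1 : Vec k)) := by
          have := (Pi.basisFun k (Fin 4)).linearIndependent
          convert this using 1
          ext i j
          simp
        have h2 := h1.comp f f.injective
        convert h2 using 1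
        ext v i
        simp
      filter_upwards [this] with p hp _
      exact hp
    · exact Eventually.of_forall fun p h => absurd h hT
  filter_upwards [h] with p hp T hT hc
  exact hp T (by simpa using hT) hc

/-- A new generic point is in general position with respect to a fixed finite set in general
position. -/
theorem eventually_genPos_update [DecidableEq V] {A : Finset V} {p : V → Vec k}
    (hp : GenPos p (A : Set V)) {u : V} (_hu : u ∉ A) :
    ∀ᶠ x in gen k (Vec k), GenPos (Function.update p u x) (insert u (A : Set V)) := by
  classical
  have h : ∀ᶠ x in gen k (Vec k), ∀ T ∈ (insert u A).powerset, T.card ≤ 4 →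
      LinearIndependent k (fun v : T => Function.update p u x v) := by
    rw [Filter.eventually_all_finset]
    intro T hT
    rw [Finset.mem_powerset] at hT
    by_cases hc : T.card ≤ 4
    · by_cases huT : u ∈ T
      · have : ∀ᶠ x in gen k (Vec k), LinearIndependent k
            (fun v : T => Function.update p u x v) := by
          refine eventually_linearIndependent_fun (κ := Fin 4)
            (fun (x : Vec k) (v : T) => Function.update p u x v) (fun v i => ?_) ?_
          · by_cases hv : (v : V) = u
            · simpa [hv] using polyLine_vec (k := k) i
            · simpa [hv] using PolyLine.const (W := Vec k) (p v i)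
          -- existence: a point outside the span of T \ u
          · let T' := T.erase u
            have hT' : T'.card ≤ 3 := by
              rw [Finset.card_erase_of_mem huT]; omega
            have hT'A : T' ⊆ A := by
              intro v hv
              have h1 := Finset.mem_erase.mp hv
              have := hT h1.2
              rw [Finset.mem_insert] at this
              exact this.resolve_left h1.1
            have hli := hp T' (by simpa using hT'A) (by omega)
            have hlt : Submodule.span k (Set.range fun v : T' => p v) ≠ ⊤ := by
              intro htop
              have h1 := finrank_span_eq_card hli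
              rw [htop, finrank_top] at h1
              simp at h1
              omega
            obtain ⟨x, hx⟩ : ∃ x, x ∉ Submodule.span k (Set.range fun v : T' => p v) := by
              by_contra hcon
              push Not at hcon
              exact hlt (eq_top_iff.mpr fun x _ => hcon x)
            refine ⟨x, ?_⟩
            have hopt := (linearIndependent_option (K := k)
              (v := fun o : Option T' => o.elim x fun v => p v)).mpr ⟨hli, hx⟩
            let e : T → Option T' := fun v =>
              if hv : (v : V) = u then none else some ⟨v, Finset.mem_erase.mpr ⟨hv, v.2⟩⟩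
            have he : Function.Injective e := by
              intro a b hab
              by_cases ha : (a : V) = u
              · by_cases hb : (b : V) = u
                · exact Subtype.ext (ha.trans hb.symm)
                · simp [e, ha, hb] at hab
              · by_cases hb : (b : V) = u
                · simp [e, ha, hb] at hab
                · simp only [e, dif_neg ha, dif_neg hb, Option.some.injEq, Subtype.mk.injEq] at hab
                  exact Subtype.ext hab
            have h2 := hopt.comp e he
            have e2 : (fun v : T => Function.update p u x v)
                = (fun o : Option T' => o.elim x fun v => p v) ∘ e := by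
              funext v
              by_cases hv : (v : V) = u
              · simp [e, hv]
              · simp [e, hv]
            rw [e2]
            exact h2
        filter_upwards [this] with x hx _
        exact hx
      · refine Eventually.of_forall fun x _ => ?_
        have hTA : T ⊆ A := by
          intro v hv
          have := hT hv
          rw [Finset.mem_insert] at this
          exact this.resolve_left (fun h => huT (h ▸ hv))
        have := hp T (by simpa using hTA) hc
        convert this using 2 with v
        have : (v : V) ≠ u := fun h => huT (h ▸ v.2)
        simp [this]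
    · exact Eventually.of_forall fun x h => absurd h hc
  filter_upwards [h] with x hx T hT hc
  refine hx T ?_ hc
  rw [Finset.mem_powerset]
  intro v hv
  have := hT (by simpa using hv : v ∈ (T : Set V))
  simpa using this

/-- from generic points to generic coefficients -/
lemma eventually_coeff {p : V → Vec k} {N : Finset V} (hN : Spans p N) {P : Vec k → Prop}
    (h : ∀ᶠ x in gen k (Vec k), P x) :
    ∀ᶠ l in gen k (V → k), P (∑ i ∈ N, l i • p i) := by
  let T : (V → k) →ₗ[k] Vec k :=
      { toFun := fun c => ∑ i ∈ N, c i • p i
        map_add' := fun c c' => by simp [add_smul, Finset.sum_add_distrib]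
        map_smul' := fun a c => by simp [mul_smul, Finset.smul_sum] }
  exact eventually_comp_of_surjective T (fun y => hN y) h

lemma eventually_of_coeff {p : V → Vec k} {N : Finset V} (hN : Spans p N) {P : Vec k → Prop}
    (h : ∀ᶠ l in gen k (V → k), P (∑ i ∈ N, l i • p i)) :
    ∀ᶠ x in gen k (Vec k), P x := by
  let T : (V → k) →ₗ[k] Vec k :=
      { toFun := fun c => ∑ i ∈ N, c i • p i
        map_add' := fun c c' => by simp [add_smul, Finset.sum_add_distrib]
        map_smul' := fun a c => by simp [mul_smul, Finset.smul_sum] }
  exact eventually_of_comp_surjective T (fun y => hN y) h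

/-- bilinear forms are polynomial on the diagonal -/
lemma polyLine_bilin {W : Type*} [AddCommGroup W] [Module k W] (B : W →ₗ[k] W →ₗ[k] k) :
    PolyLine k (fun l => B l l) := by
  intro a b
  refine ⟨Polynomial.C (B a a) + Polynomial.C (B a b + B b a) * Polynomial.X
    + Polynomial.C (B b b) * Polynomial.X ^ 2, fun t => ?_⟩
  simp only [map_add, map_smul, LinearMap.add_apply, LinearMap.smul_apply, smul_eq_mul,
    Polynomial.eval_add, Polynomial.eval_C, Polynomial.eval_mul, Polynomial.eval_X,
    Polynomial.eval_pow]
  ring

/-- **If a vertex in generic position can be attached to all motions, then the neighbours move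
rigidly.** -/
theorem rigidOn_of_Att (h2 : (2 : k) ≠ 0) {p : V → Vec k} {N : Finset V} (hN : Spans p N)
    {M : Submodule k (V → Vec k)} (hM : ∀ Z ∈ M, ∀ v ∈ N, Z v ⬝ᵥ p v = 0)
    (h : ∀ Z ∈ M, ∃ᶠ x in gen k (Vec k), Z ∈ Att p (N : Set V) x) :
    RigidOn M (N : Set V) p := by
  classical
  intro a ha b hb Z hZ
  have ha' : a ∈ N := by simpa using ha
  have hb' : b ∈ N := by simpa using hb
  have h0 : ∀ l : V → k, frm p N Z l l = 0 := by
    refine (polyLine_bilin (frm p N Z)).eq_zero ?_
    intro hcon
    refine h Z hZ ?_
    refine eventually_of_coeff hN ?_
    filter_upwards [hcon] with l hl hAtt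
    exact hl ((mem_Att_iff_frm h2 hN l Z).mp hAtt).2
  have h1 := h0 (Pi.single a 1 + Pi.single b 1)
  simp only [map_add, LinearMap.add_apply, frm_single p Z ha' ha', frm_single p Z ha' hb',
    frm_single p Z hb' ha', frm_single p Z hb' hb'] at h1
  have e1 : eps p a a Z = 0 := by rw [eps_apply, hM Z hZ a ha', add_zero]
  have e2 : eps p b b Z = 0 := by rw [eps_apply, hM Z hZ b hb', add_zero]
  rw [e1, e2, eps_comm p b a] at h1
  have : (2 : k) * eps p a b Z = 0 := by linear_combination h1
  exact (mul_eq_zero.mp this).resolve_left h2

end Generic

end GR
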