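import Pool.Agent.Lib.GR.MainLemma

/-!
# The Main Lemma: final form
-/

set_option linter.unusedSectionVars false

namespace GR

open Filter Module

open scoped Matrix

variable {k : Type*} [Field k] [Infinite k] {V : Type*} [DecidableEq V]
  {U X : Finset V} {E : Set (Sym2 V)}

/-- `L_uv` does not depend on the position of `u`. -/
theorem MLHyp.eventually_Lsp (h : MLHyp k U X E) {u v : V} (hu : u ∈ X) (hv : v ∈ X)
    (huv : u ≠ v) :
    ∀ᶠ p in gen k (V → Vec k), ∀ᶠ x in gen k (Vec k),
      Lsp (Mot U E p) (AttU U E (Function.update p u x)) X u v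
        = Lsp (Mot U E p) (AttU U E p) X u v := by
  classical
  set Y := (X.erase u).erase v with hY
  have hYX : Y ⊆ X := (Finset.erase_subset _ _).trans (Finset.erase_subset _ _)
  have hunu : u ∉ (nbr U E u : Set V) := by simpa using h.notMem_nbr (v := u) hu
  have hunv : u ∉ (nbr U E v : Set V) := by simpa using h.notMem_nbr (v := v) hu
  have hMu : ∀ p x, Mot (U ∪ Y) E (Function.update p u x)
      = Mot (k := k) (U ∪ Y) E p := fun p x =>
    Mot_base_update h.indep hu (Or.inl rfl) hv p x
  have hsub : ∀ w, (nbr U E w : Set V) ⊆ (U : Set V) := fun w x hx => by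
    simpa using nbr_subset U E w (by simpa using hx)
  have h1 := h.eventually_dim_one hu hv huv
  have h2 := h.eventually_dim_one hv hu huv.symm
  rw [Finset.erase_right_comm] at h2
  rw [← hY] at h1 h2
  -- the dimension of the intersection
  have h3 : ∀ᶠ p in gen k (V → Vec k), finrank k
      (Mot (U ∪ Y) E p ⊓ Att p (nbr U E u : Set V) (p u) ⊓
        (Mot (U ∪ Y) E p ⊓ Att p (nbr U E v : Set V) (p v)) : Submodule k (V → Vec k)) = 7 := by
    filter_upwards [h.eventually_dimHyp, h.eventually_span] with p hp hs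
    have e : (Mot (U ∪ Y) E p ⊓ Att p (nbr U E u : Set V) (p u) ⊓
        (Mot (U ∪ Y) E p ⊓ Att p (nbr U E v : Set V) (p v)))
        = Mot (U ∪ Y) E p ⊓ Att p (nbr U E u : Set V) (p u) ⊓ Att p (nbr U E v : Set V) (p v) := by
      ext z
      simp only [Submodule.mem_inf]
      tauto
    have hle : Mot (U ∪ Y) E p ⊓ Att p (nbr U E u : Set V) (p u) ⊓
        Att p (nbr U E v : Set V) (p v) ≤ Mot (U ∪ Y) E p := inf_le_left.trans inf_le_left
    rw [e, ← finrank_map_cut (fun w hw => hs w (hYX hw)) hle, map_cut_inf_Att (hsub v),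
      map_cut_inf_Att (hsub u), map_cut_Mot h.indep hYX]
    have e2 : Isp (Mot U E p) (AttU U E p) Y ⊓ Att p (nbr U E u : Set V) (p u) ⊓
        Att p (nbr U E v : Set V) (p v) = Isp (Mot U E p) (AttU U E p) X := by
      have e3 : Y = (X.erase v).erase u := by rw [hY, Finset.erase_right_comm]
      have e4 : Isp (Mot U E p) (AttU U E p) ((X.erase v).erase u) ⊓ AttU U E p u
          = Isp (Mot U E p) (AttU U E p) (X.erase v) :=
        Isp_erase_inf _ _ (Finset.mem_erase.mpr ⟨huv, hu⟩)
      have e5 := Isp_erase_inf (Mot U E p) (AttU U E p) hv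
      rw [← e5, ← e4, e3]
      rfl
    rw [e2]
    exact hp.full
  have hpair := pair_lemma (k := k) (U ∪ Y) E (Nu := nbr U E u) (Nv := nbr U E v) (c := 6)
    (by rw [h.card5 u hu]; norm_num) ((nbr_subset _ _ _).trans Finset.subset_union_left)
    (h.eventually_pairHyp hu hv huv)
  -- `Lsp` as the image of `L`
  have key : ∀ p : V → Vec k,
      Lsp (Mot U E p) (AttU U E p) X u v = ((Mot (U ∪ Y) E p ⊓ Att p (nbr U E u : Set V) (p u)) ⊔
        (Mot (U ∪ Y) E p ⊓ Att p (nbr U E v : Set V) (p v))).map (cut k U) := by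
    intro p
    rw [Submodule.map_sup, map_cut_inf_Att (hsub u), map_cut_inf_Att (hsub v),
      map_cut_Mot h.indep hYX]
    rfl
  have hMU : ∀ p x, Mot U E (Function.update p u x) = Mot (k := k) U E p := fun p x =>
    Mot_congr_pts fun a ha => Function.update_of_ne
      (by rintro rfl; exact h.indep.notMem hu ha) _ _
  have g1 := eventually_update h1 u
  have g2 := eventually_update h2 u
  have g3 := eventually_update h3 u
  filter_upwards [h1, h2, h3, g1, g2, g3, hpair] with p a1 a2 a3 b1 b2 b3 hP
  obtain ⟨L, hLM, hL, hLu, hLv⟩ := hP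
  have hfd : FiniteDimensional k L := Submodule.finiteDimensional_of_le hLM
  -- the sum of the two spaces is `L`
  have hsum : ∀ A B : Submodule k (V → Vec k), A ≤ L → B ≤ L → finrank k A = 8 →
      finrank k B = 8 → finrank k (A ⊓ B : Submodule k (V → Vec k)) = 7 → A ⊔ B = L := by
    intro A B hA hB hA' hB' hAB
    have : FiniteDimensional k A := Submodule.finiteDimensional_of_le hA
    have : FiniteDimensional k B := Submodule.finiteDimensional_of_le hB
    have h4 := Submodule.finrank_sup_add_finrank_inf_eq A B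
    exact Submodule.eq_of_le_of_finrank_le (sup_le hA hB) (by omega)
  have hp : (Mot (U ∪ Y) E p ⊓ Att p (nbr U E u : Set V) (p u)) ⊔
        (Mot (U ∪ Y) E p ⊓ Att p (nbr U E v : Set V) (p v)) = L :=
    hsum _ _ (hLu _ a1) (hLv _ a2) a1 a2 a3
  filter_upwards [b1, b2, b3] with x c1 c2 c3
  have hvx : Function.update p u x v = p v := Function.update_of_ne huv.symm _ _
  rw [hMu, Att_update hunu, Function.update_self] at c1
  rw [hMu, Att_update hunv, hvx] at c2
  rw [hMu, Att_update hunu, Att_update hunv, hvx, Function.update_self] at c3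
  have hq : (Mot (U ∪ Y) E p ⊓ Att p (nbr U E u : Set V) x) ⊔
        (Mot (U ∪ Y) E p ⊓ Att p (nbr U E v : Set V) (p v)) = L :=
    hsum _ _ (hLu _ c1) (hLv _ c2) c1 c2 c3
  have k1 := key p
  have k2 := key (Function.update p u x)
  rw [hMU, hMu, Att_update hunu, Att_update hunv, hvx, Function.update_self, hq] at k2
  rw [hp] at k1
  rw [k1, k2]

/-- **MAIN LEMMA.** -/
theorem MLHyp.main (h : MLHyp k U X E) (hX : X.Nonempty) :
    ∀ᶠ p in gen k (V → Vec k),
      finrank k (QX U X E p) = X.card + 7 ∧
      (∀ u ∈ X, (Mot (U ∪ X.erase u) E p).map (cut k U) ≤ QX U X E p) ∧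
      (∀ u ∈ X, ∀ S ≤ QX U X E p,
        finrank k S ≤ finrank k (S ⊓ AttU U E p u : Submodule k (V → Vec k)) + 1) ∧
      (∀ u ∈ X, ∀ᶠ x in gen k (Vec k), QX U X E (Function.update p u x) = QX U X E p) ∧
      (∀ u ∈ X, ∀ᶠ x in gen k (Vec k), ∀ S ≤ QX U X E p,
        finrank k S ≤ finrank k (S ⊓ Att p (nbr U E u : Set V) x :
          Submodule k (V → Vec k)) + 1) := by
  classical
  have hL : ∀ᶠ p in gen k (V → Vec k), ∀ u ∈ X, ∀ v ∈ X, v ≠ u → ∀ᶠ x in gen k (Vec k),
      Lsp (Mot U E p) (AttU U E (Function.update p u x)) X u v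
        = Lsp (Mot U E p) (AttU U E p) X u v := by
    rw [Filter.eventually_all_finset]
    intro u hu
    rw [Filter.eventually_all_finset]
    intro v hv
    by_cases huv : v = u
    · exact Eventually.of_forall fun p hne => absurd huv hne
    · filter_upwards [h.eventually_Lsp hu hv (Ne.symm huv)] with p hp _
      exact hp
  have hD := h.eventually_dimHyp
  have hD' : ∀ᶠ p in gen k (V → Vec k), ∀ u ∈ X, ∀ᶠ x in gen k (Vec k),
      DimHyp (Mot U E (Function.update p u x)) (AttU U E (Function.update p u x)) X 6 := by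
    rw [Filter.eventually_all_finset]
    exact fun u _ => eventually_update hD u
  filter_upwards [hL, hD, hD'] with p hLp hDp hDp'
  have hQ : ∀ u ∈ X, ∀ᶠ x in gen k (Vec k),
      QX U X E (Function.update p u x) = QX U X E p := by
    intro u hu
    have h1 : ∀ᶠ x in gen k (Vec k), ∀ v ∈ X, v ≠ u →
        Lsp (Mot U E p) (AttU U E (Function.update p u x)) X u v
          = Lsp (Mot U E p) (AttU U E p) X u v := by
      rw [Filter.eventually_all_finset]
      intro v hv
      by_cases huv : v = u
      · exact Eventually.of_forall fun p hne => absurd huv hne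
      · filter_upwards [hLp u hu v hv huv] with x hx _
        exact hx
    filter_upwards [h1] with x hx
    refine Qsp_update hu ?_ ?_ hx
    · exact Mot_congr_pts fun a ha => Function.update_of_ne
        (by rintro rfl; exact h.indep.notMem hu ha) _ _
    · intro w hw hwu
      unfold AttU
      rw [Att_update (by simpa using h.notMem_nbr (v := w) hu), Function.update_of_ne hwu]
  refine ⟨?_, ?_, ?_, hQ, ?_⟩
  · have := hDp.finrank_Qsp hX
    unfold QX
    omega
  · intro u hu
    rw [map_cut_Mot h.indep (Finset.erase_subset _ _)]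
    exact Isp_le_Qsp _ _ hu
  · intro u hu S hS
    exact hDp.finrank_le_of_le_Hsp hu (hS.trans (Qsp_le_Hsp _ _ hu))
  · intro u hu
    filter_upwards [hQ u hu, hDp' u hu] with x hx hDx S hS
    have h1 := hDx.finrank_le_of_le_Hsp hu (S := S) (by
      refine le_trans ?_ (Qsp_le_Hsp _ _ hu)
      have : S ≤ QX U X E (Function.update p u x) := by rw [hx]; exact hS
      exact this)
    have e : AttU U E (Function.update p u x) u = Att p (nbr U E u : Set V) x := by
      unfold AttU
      rw [Att_update (by simpa using h.notMem_nbr (v := u) hu), Function.update_self]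
    rwa [e] at h1

/-- motions of type B which are rigid on four points of the 5-set are rigid on it -/
lemma mem_RG_of_TB_of_four {p : V → Vec k} {a b c d e : V} {t : k} {Z : V → Vec k}
    (hgp : GenPos p ({a, b, c, d, e} : Set V))
    (hab : a ≠ b) (hac : a ≠ c) (had : a ≠ d) (hae : a ≠ e) (hbc : b ≠ c) (hbd : b ≠ d)
    (hbe : b ≠ e) (hcd : c ≠ d) (hce : c ≠ e) (hde : d ≠ e) (ht : t ≠ 0)
    (hZ : Z ∈ TB p a b c d e t) {i : V}
    (hr : Z ∈ RG p (({a, b, c, d, e} : Set V) \ {i})) : Z ∈ RG p ({a, b, c, d, e} : Set V) := by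
  obtain ⟨S, hS, g, h1, h2, ha, hb, hc, hd, he⟩ := hZ
  -- it is enough that `g = 0`
  suffices hg : g = 0 by
    refine ⟨S, hS, fun v hv => ?_⟩
    simp only [Set.mem_insert_iff, Set.mem_singleton_iff] at hv
    rcases hv with rfl | rfl | rfl | rfl | rfl
    · exact ha
    · exact hb
    · exact hc
    · rw [hd, hg, add_zero]
    · rw [he, hg, smul_zero, add_zero]
  -- strains
  have hst : ∀ x y, x ∈ ({a, b, c, d, e} : Set V) → y ∈ ({a, b, c, d, e} : Set V) → x ≠ i →
      y ≠ i → Z x ⬝ᵥ p y + Z y ⬝ᵥ p x = 0 := by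
    intro x y hx hy hxi hyi
    have := eps_eq_zero_of_RG hr (a := x) (b := y) ⟨hx, hxi⟩ ⟨hy, hyi⟩
    rwa [eps_apply] at this
  have hdz : ∀ x, Z x = S (p x) → x ∈ ({a, b, c, d, e} : Set V) → x ≠ i → d ≠ i →
      g ⬝ᵥ p x = 0 := by
    intro x hx hxm hxi hdi
    have h3 := hst x d hxm (by simp) hxi hdi
    rw [hx, hd, add_dotProduct, hS.swap (p x) (p d)] at h3
    linear_combination h3
  have hez : ∀ x, Z x = S (p x) → x ∈ ({a, b, c, d, e} : Set V) → x ≠ i → e ≠ i →
      g ⬝ᵥ p x = 0 := by
    intro x hx hxm hxi hei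
    have h3 := hst x e hxm (by simp) hxi hei
    rw [hx, he, add_dotProduct, smul_dotProduct, hS.swap (p x) (p e), smul_eq_mul] at h3
    have h4 : t * (g ⬝ᵥ p x) = 0 := by linear_combination h3
    exact (mul_eq_zero.mp h4).resolve_left ht
  -- `g` vanishes at two of `a, b, c` at least, and at `d`, `e`
  have hx : ∀ x, Z x = S (p x) → x ∈ ({a, b, c, d, e} : Set V) → x ≠ i → g ⬝ᵥ p x = 0 := by
    intro x hx hxm hxi
    by_cases hdi : d = i
    · exact hez x hx hxm hxi (by rw [← hdi]; exact hde.symm)
    · exact hdz x hx hxm hxi hdi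
  have hfour : ∀ x y, x ∈ ({a, b, c, d, e} : Set V) → y ∈ ({a, b, c, d, e} : Set V) → x ≠ y →
      x ≠ d → x ≠ e → y ≠ d → y ≠ e → g ⬝ᵥ p x = 0 → g ⬝ᵥ p y = 0 → g = 0 := by
    intro x y hxm hym hxy hxd hxe hyd hye h5 h6
    have hT := hgp {x, y, d, e} (by
      intro z hz
      simp only [Finset.coe_insert, Finset.coe_singleton, Set.mem_insert_iff,
        Set.mem_singleton_iff] at hz
      rcases hz with rfl | rfl | rfl | rfl
      · exact hxm
      · exact hym
      · simp
      · simp) Finset.card_le_four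
    have hspan : Submodule.span k (Set.range fun v : ({x, y, d, e} : Finset V) => p v) = ⊤ := by
      refine hT.span_eq_top_of_card_eq_finrank' ?_
      rw [Fintype.card_coe, Finset.card_insert_of_notMem (by simp [hxy, hxd, hxe]),
        Finset.card_insert_of_notMem (by simp [hyd, hye]),
        Finset.card_insert_of_notMem (by simp [hde]), Finset.card_singleton]
      simp
    have h7 : ∀ y' ∈ Submodule.span k (Set.range fun v : ({x, y, d, e} : Finset V) => p v),
        g ⬝ᵥ y' = 0 := by
      intro y' hy'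
      induction hy' using Submodule.span_induction with
      | mem y' hy' =>
        obtain ⟨⟨w, hw⟩, rfl⟩ := hy'
        simp only [Finset.mem_insert, Finset.mem_singleton] at hw
        rcases hw with rfl | rfl | rfl | rfl
        · exact h5
        · exact h6
        · exact h1
        · exact h2
      | zero => simp
      | add a b _ _ ha hb => rw [dotProduct_add, ha, hb, add_zero]
      | smul c a _ ha => rw [dotProduct_smul, ha, smul_zero]
    rw [hspan] at h7
    exact dotProduct_eq_zero _ fun y => h7 y trivial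
  by_cases hai : a = i
  · exact hfour b c (by simp) (by simp) hbc hbd hbe hcd hce
      (hx b hb (by simp) (by rw [← hai]; exact hab.symm))
      (hx c hc (by simp) (by rw [← hai]; exact hac.symm))
  · by_cases hbi : b = i
    · exact hfour a c (by simp) (by simp) hac had hae hcd hce
        (hx a ha (by simp) hai)
        (hx c hc (by simp) (by rw [← hbi]; exact hbc.symm))
    · exact hfour a b (by simp) (by simp) hab had hae hbd hbe
        (hx a ha (by simp) hai) (hx b hb (by simp) hbi)

/-- motions of type A which are rigid on four points are rigid -/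
lemma mem_RG_of_TA_of_four {p : V → Vec k} {N : Finset V} {Z : V → Vec k}
    (hgp : GenPos p (N : Set V)) (hN : 5 ≤ N.card) (hZ : Z ∈ TA p (N : Set V)) {i : V}
    (hr : Z ∈ RG p ((N.erase i : Finset V) : Set V)) : Z ∈ RG p (N : Set V) := by
  obtain ⟨T, hT⟩ := hZ
  obtain ⟨S, hS, h⟩ := hr
  have hcard : 4 ≤ (N.erase i).card := by
    have := Finset.pred_card_le_card_erase (s := N) (a := i)
    omega
  have hspan := (hgp.mono (N' := ((N.erase i : Finset V) : Set V)) (by simp)).span_eq_top hcard
  have hTS : T = S := by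
    apply LinearMap.ext_on hspan
    rintro _ ⟨v, hv, rfl⟩
    rw [← h v hv, ← hT v (Finset.mem_coe.mpr (Finset.mem_of_mem_erase (Finset.mem_coe.mp hv)))]
  exact ⟨T, hTS ▸ hS, hT⟩

end GR
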