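import Pool.Agent.Lib.GR.BadBasis
import Pool.Agent.Lib.GR.MainLemma2

/-!
# The minimal counterexample

`MinCE k A E` : combinatorial data of a basis `E` of a maximal bad flat on `A`.
-/

set_option linter.unusedSectionVars false

namespace GR

open Filter Module

open scoped Matrix

variable {k : Type*} [Field k] [Infinite k] {V : Type*} [DecidableEq V]

section

variable {A : Finset V} {H E : Finset (Sym2 V)} {p : V → Vec k}

/-- the star of the stress at a vertex of degree five is everything -/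
theorem CBasis.suppAt_eq (h : BadAt A H p) (hE : CBasis A H E p) {u : V} (hu : u ∈ A)
    (h5 : (nbr (A.erase u) (E : Set (Sym2 V)) u).card = 5) {ω : Sym2 V → k}
    (hω : ω ∈ Stress E p) (hne : ω ≠ 0) :
    suppAt A ω u = nbr (A.erase u) (E : Set (Sym2 V)) u := by
  refine Finset.eq_of_subset_of_card_le (suppAt_subset_nbr hω.1 u) ?_
  rw [h5]
  exact h.five_le_supp (Stress_mono hE.sub p hω) (fun hS => hne (hE.ind.stress hω hS)) hu

/-- **No four neighbours of a vertex of degree five are rigid without the vertex.** -/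
theorem CBasis.not_RG_four (h : BadAt A H p) (hE : CBasis A H E p) {u : V} (hu : u ∈ A)
    (h5 : (nbr (A.erase u) (E : Set (Sym2 V)) u).card = 5) {i : V}
    (hi : i ∈ nbr (A.erase u) (E : Set (Sym2 V)) u) :
    ¬ Mot (A.erase u) (E : Set (Sym2 V)) p
      ≤ RG p (((nbr (A.erase u) (E : Set (Sym2 V)) u).erase i : Finset V) : Set V) := by
  intro hc
  set N := nbr (A.erase u) (E : Set (Sym2 V)) u with hN
  have hNA : N.erase i ⊆ A.erase u := (Finset.erase_subset _ _).trans (nbr_subset _ _ _)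
  have hEK := hE.sub_Kf h
  set F := rest E (A.erase u) with hF
  have hFK : F ⊆ Kf (A.erase u) := rest_subset_Kf (fun e he => (mem_Kf.mp (hEK he)).1) _
  set C := addStar F u (N.erase i) with hC
  have hCE : C ⊆ E := by
    intro e he
    rw [hC, mem_addStar] at he
    rcases he with he | ⟨w, hw, rfl⟩
    · exact rest_subset _ _ he
    · exact (mem_nbr.mp (Finset.mem_of_mem_erase hw)).2
  have hCA : C ⊆ Kf A := hCE.trans hEK
  have hc4 : (N.erase i).card = 4 := by rw [Finset.card_erase_of_mem hi, h5]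
  have h1 := finrank_Stress_eq (A := A) (E := C) (fun e he => (mem_Kf.mp (hCA he)).2)
    (h.ne_zero subset_rfl)
  have h2 : C.card = F.card + 4 := by rw [hC, card_addStar hFK, hc4]
  have h3 := h.mdim_rest hE.ind (Finset.erase_ssubset hu)
  rw [← hF] at h3
  have h4 := card_rest_erase hEK u
  rw [← hN, h5, ← hF] at h4
  have h6 := Finset.card_erase_add_one hu
  have h7 := hE.card
  have hnb : nbr (A.erase u) (C : Set (Sym2 V)) u = N.erase i := nbr_addStar hFK hNA
  have h8 := mdim_insert_of_four_le (Finset.notMem_erase u A) (C : Set (Sym2 V)) p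
    (by rw [hnb]; exact h.nice.gp.mono (by
      exact_mod_cast hNA.trans (Finset.erase_subset u A))) (by rw [hnb, hc4])
  rw [Finset.insert_erase hu, hnb, hC, mdim_addStar_erase, hF, Mot_rest] at h8
  have h9 : (Mot (A.erase u) (E : Set (Sym2 V)) p ⊓ Att p ((N.erase i : Finset V) : Set V) (p u) :
      Submodule k (V → Vec k)) = Mot (A.erase u) (E : Set (Sym2 V)) p :=
    inf_eq_left.mpr (hc.trans (RG_le_Att _ _ _))
  rw [h9, ← hF, ← hC] at h8
  have h10 : finrank k (Mot (A.erase u) (E : Set (Sym2 V)) p)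
      = mdim (A.erase u) (E : Set (Sym2 V)) p := rfl
  have h11 : 0 < finrank k (Stress C p) := by omega
  obtain ⟨⟨ω, hω⟩, hne⟩ := (Module.finrank_pos_iff_exists_ne_zero (R := k)).mp h11
  have h12 : ω ≠ 0 := fun hc => hne (Subtype.ext hc)
  have h13 := hE.suppAt_eq h hu (by rw [← hN]; exact h5) (Stress_mono hCE p hω) h12
  rw [← hN] at h13
  rw [← h13] at hi
  refine (mem_suppAt.mp hi).2.2 (hω.1 _ fun hmem => ?_)
  rw [hC, mem_addStar] at hmem
  rcases hmem with hmem | ⟨w, hw, hw'⟩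
  · exact Finset.notMem_erase u A ((mem_Kf.mp (hFK hmem)).2 u (by simp))
  · rcases Sym2.eq_iff.mp hw' with ⟨-, h14⟩ | ⟨h14, h15⟩
    · exact Finset.ne_of_mem_erase hw h14
    · exact Finset.ne_of_mem_erase hw (h15.trans h14)

end

/-- Combinatorial data of a basis `E` of a maximal bad flat on `A`. -/
structure MinCE (k : Type*) [Field k] [Infinite k] {V : Type*} [DecidableEq V]
    (A : Finset V) (E : Finset (Sym2 V)) : Prop where
  two : (2 : k) ≠ 0
  three : 3 ≤ A.card
  sub : E ⊆ Kf A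
  card : E.card + 6 = 3 * A.card
  small : ∀ W ⊂ A, AllGood k W
  full : gdim k A (E : Set (Sym2 V)) = 7
  indep : ∀ W ⊂ A, (rest E W).card + gdim k W (E : Set (Sym2 V)) = 3 * W.card
  five : ∀ u ∈ A, 5 ≤ (nbr (A.erase u) (E : Set (Sym2 V)) u).card
  flex' : ∀ u ∈ A, ∀ q : V → Vec k, Nice A q →
    ¬ Kf (nbr (A.erase u) (E : Set (Sym2 V)) u) ⊆ clF A E q
  four' : ∀ u ∈ A, (nbr (A.erase u) (E : Set (Sym2 V)) u).card = 5 →
    ∀ i ∈ nbr (A.erase u) (E : Set (Sym2 V)) u, ∀ q : V → Vec k, Nice A q →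
      ¬ Kf ((nbr (A.erase u) (E : Set (Sym2 V)) u).erase i)
        ⊆ clF (A.erase u) (rest E (A.erase u)) q

/-- **Bases of a maximal bad flat have the combinatorial data of `MinCE`.** -/
theorem CBasis.minCE {A : Finset V} {H E : Finset (Sym2 V)} {p : V → Vec k} (h : BadAt A H p)
    (hs : ∀ W ⊂ A, AllGood k W) (hE : CBasis A H E p) : MinCE k A E where
  two := h.two
  three := h.three
  sub := hE.sub_Kf h
  card := hE.card
  small := hs
  full := by rw [← h.nice.reg A subset_rfl]; exact hE.mdim_eq h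
  indep := fun W hW => by
    rw [← h.nice.reg W hW.1]
    exact h.mdim_rest hE.ind hW
  five := fun u hu => hE.five_le h hu
  flex' := fun u hu q hq hc => by
    rw [clF_eq_of_regular (hE.sub_Kf h) hq.reg h.nice.reg] at hc
    refine hE.flex h hu ?_
    rw [← Mot_clF (hE.sub_Kf h)]
    refine le_RG_of_Kf h.nice.gp ((nbr_subset _ _ _).trans (Finset.erase_subset u A)) ?_ hc
    have := hE.five_le h hu
    omega
  four' := fun u hu h5 i hi q hq hc => by
    have hFK : rest E (A.erase u) ⊆ Kf (A.erase u) :=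
      rest_subset_Kf (fun e he => (mem_Kf.mp (hE.sub_Kf h he)).1) _
    rw [clF_eq_of_regular hFK (hq.reg.mono (Finset.erase_subset u A))
      (h.nice.reg.mono (Finset.erase_subset u A))] at hc
    refine hE.not_RG_four h hu h5 hi ?_
    rw [← Mot_rest, ← Mot_clF hFK]
    refine le_RG_of_Kf (h.nice.gp.mono (by exact_mod_cast Finset.erase_subset u A))
      ((Finset.erase_subset _ _).trans (nbr_subset _ _ _)) ?_ hc
    rw [Finset.card_erase_of_mem hi, h5]
    norm_num

section

variable {A : Finset V} {E : Finset (Sym2 V)} (h : MinCE k A E) {p : V → Vec k}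

include h

lemma MinCE.mdim_eq (hp : Nice A p) : mdim A (E : Set (Sym2 V)) p = 7 := by
  rw [hp.reg A subset_rfl]; exact h.full

lemma MinCE.mdim_rest (hp : Nice A p) {W : Finset V} (hW : W ⊂ A) :
    (rest E W).card + mdim W (E : Set (Sym2 V)) p = 3 * W.card := by
  rw [hp.reg W hW.1]; exact h.indep W hW

/-- the neighbours of a vertex do not move rigidly -/
lemma MinCE.flex (hp : Nice A p) {u : V} (hu : u ∈ A) :
    ¬ Mot A (E : Set (Sym2 V)) p ≤ RG p (nbr (A.erase u) (E : Set (Sym2 V)) u : Set V) :=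
  fun hc => h.flex' u hu p hp
    (Kf_subset_clF h.sub ((nbr_subset _ _ _).trans (Finset.erase_subset u A)) hc)

lemma MinCE.gdim_erase {u : V} (hu : u ∈ A)
    (h5 : (nbr (A.erase u) (E : Set (Sym2 V)) u).card = 5) :
    gdim k (A.erase u) (E : Set (Sym2 V)) = 8 := by
  have h1 := h.indep _ (Finset.erase_ssubset hu)
  have h2 := card_rest_erase h.sub u
  have h3 := h.card
  have h4 := Finset.card_erase_add_one hu
  omega

/-- no four neighbours of a vertex of degree five are rigid without the vertex -/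
lemma MinCE.not_RG_four (hp : Nice A p) {u : V} (hu : u ∈ A)
    (h5 : (nbr (A.erase u) (E : Set (Sym2 V)) u).card = 5) {i : V}
    (hi : i ∈ nbr (A.erase u) (E : Set (Sym2 V)) u) :
    ¬ Mot (A.erase u) (E : Set (Sym2 V)) p
      ≤ RG p (((nbr (A.erase u) (E : Set (Sym2 V)) u).erase i : Finset V) : Set V) := by
  intro hc
  refine h.four' u hu h5 i hi p hp ?_
  refine Kf_subset_clF (rest_subset_Kf (fun e he => (mem_Kf.mp (h.sub he)).1) _)
    ((Finset.erase_subset _ _).trans (nbr_subset _ _ _)) ?_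
  rw [Mot_rest]
  exact hc

/-- A motion of `A - u` which is rigid on the neighbours of `u` is trivial. -/
lemma MinCE.finrank_inf_RG (hp : Nice A p) {u : V} (hu : u ∈ A) :
    finrank k (Mot (A.erase u) (E : Set (Sym2 V)) p ⊓
      RG p (nbr (A.erase u) (E : Set (Sym2 V)) u : Set V) : Submodule k (V → Vec k)) ≤ 6 := by
  set N := nbr (A.erase u) (E : Set (Sym2 V)) u with hN
  set M := Mot (A.erase u) (E : Set (Sym2 V)) p with hM
  have h5 := h.five u hu
  rw [← hN] at h5
  have h8 := mdim_insert_of_four_le (Finset.notMem_erase u A) (E : Set (Sym2 V)) p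
    (hp.gp.mono (by exact_mod_cast (nbr_subset _ _ _).trans (Finset.erase_subset u A)))
    (by rw [← hN]; omega)
  rw [Finset.insert_erase hu, h.mdim_eq hp, ← hN, ← hM] at h8
  by_contra hcon
  have hle : (M ⊓ RG p (N : Set V) : Submodule k (V → Vec k)) ≤ M ⊓ Att p (N : Set V) (p u) :=
    inf_le_inf_left _ (RG_le_Att _ _ _)
  have h9 : (M ⊓ RG p (N : Set V) : Submodule k (V → Vec k)) = M ⊓ Att p (N : Set V) (p u) := by
    have : FiniteDimensional k (M ⊓ Att p (N : Set V) (p u) : Submodule k (V → Vec k)) :=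
      Submodule.finiteDimensional_of_le (inf_le_left.trans (le_of_eq hM))
    refine Submodule.eq_of_le_of_finrank_le hle ?_
    omega
  refine h.flex hp hu fun Z hZ => ?_
  have h10 : forget k u Z ∈ (M ⊓ Att p (N : Set V) (p u) : Submodule k (V → Vec k)) := by
    rw [hM, hN, ← map_forget_Mot (Finset.notMem_erase u A), Finset.insert_erase hu]
    exact Submodule.mem_map_of_mem hZ
  rw [← h9] at h10
  obtain ⟨S, hS, h11⟩ := h10.2
  refine ⟨S, hS, fun i hi => ?_⟩
  rw [← h11 i hi, forget_apply_of_ne]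
  rintro rfl
  exact notMem_nbr_erase A _ _ (by exact_mod_cast hi)

/-- the attaching conditions of a vertex of degree five have rank one -/
lemma MinCE.eventually_bad (hp : Nice A p) {u : V} (hu : u ∈ A)
    (h5 : (nbr (A.erase u) (E : Set (Sym2 V)) u).card = 5) :
    ∀ᶠ x in gen k (Vec k), finrank k (Mot (A.erase u) (E : Set (Sym2 V)) p) ≤
      finrank k (Mot (A.erase u) (E : Set (Sym2 V)) p ⊓
        Att p (nbr (A.erase u) (E : Set (Sym2 V)) u : Set V) x : Submodule k (V → Vec k)) + 1 := by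
  filter_upwards [hp.eventually_att (E : Set (Sym2 V)) hu (by omega)] with x hx
  rw [hx, h.mdim_eq hp]
  have h1 : finrank k (Mot (A.erase u) (E : Set (Sym2 V)) p) = gdim k (A.erase u)
      (E : Set (Sym2 V)) := hp.reg _ (Finset.erase_subset u A) _
  rw [h1, h.gdim_erase hu h5]

/-- **Types of vertices of degree five.** -/
theorem MinCE.types (hp : Nice A p) {u : V} (hu : u ∈ A)
    (h5 : (nbr (A.erase u) (E : Set (Sym2 V)) u).card = 5) :
    Mot (A.erase u) (E : Set (Sym2 V)) p
      ≤ TA p (nbr (A.erase u) (E : Set (Sym2 V)) u : Set V) ∨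
    ∃ a b c d e : V, nbr (A.erase u) (E : Set (Sym2 V)) u = {a, b, c, d, e} ∧
      a ≠ b ∧ a ≠ c ∧ a ≠ d ∧ a ≠ e ∧ b ≠ c ∧ b ≠ d ∧ b ≠ e ∧ c ≠ d ∧ c ≠ e ∧ d ≠ e ∧
      ∃ t : k, t ≠ 0 ∧ Mot (A.erase u) (E : Set (Sym2 V)) p ≤ TB p a b c d e t := by
  have hsub : nbr (A.erase u) (E : Set (Sym2 V)) u ⊆ A :=
    (nbr_subset _ _ _).trans (Finset.erase_subset u A)
  have hl : ∀ Z ∈ Mot (A.erase u) (E : Set (Sym2 V)) p,
      ∀ v ∈ nbr (A.erase u) (E : Set (Sym2 V)) u, Z v ⬝ᵥ p v = 0 :=
    fun Z hZ v hv => hZ.2.1 v (nbr_subset _ _ _ hv)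
  rcases types_of_bad h.two h5 (hp.gp.mono (by exact_mod_cast hsub)) hl
    (h.eventually_bad hp hu h5) with h1 | ⟨i, hi, h1⟩ | h1 | h1
  · exfalso
    have h2 := h.finrank_inf_RG hp hu
    have h3 : finrank k (Mot (A.erase u) (E : Set (Sym2 V)) p) = gdim k (A.erase u)
      (E : Set (Sym2 V)) := hp.reg _ (Finset.erase_subset u A) _
    rw [h3, h.gdim_erase hu h5] at h1
    omega
  · exact absurd h1 (h.not_RG_four hp hu h5 hi)
  · exact Or.inl h1
  · exact Or.inr h1

lemma MinCE.nbr_eq {X : Finset V} (hX : X ⊆ A) {u : V} (hu : u ∈ X)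
    (hadj : ∀ v ∈ X, u ≠ v → s(u, v) ∉ E) :
    nbr (A \ X) (E : Set (Sym2 V)) u = nbr (A.erase u) (E : Set (Sym2 V)) u := by
  have _ := h.two
  ext w
  rw [mem_nbr, mem_nbr, Finset.mem_sdiff, Finset.mem_erase]
  constructor
  · rintro ⟨⟨h1, h2⟩, h3⟩
    exact ⟨⟨fun hc => h2 (hc ▸ hu), h1⟩, h3⟩
  · rintro ⟨⟨h1, h2⟩, h3⟩
    exact ⟨⟨h2, fun hc => hadj w hc (Ne.symm h1) (by exact_mod_cast h3)⟩, h3⟩

/-- number of edges of `E` after deleting a set `Y` of nonadjacent vertices of degree five -/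
lemma MinCE.card_rest_sdiff {Y : Finset V} (hY : Y ⊆ A)
    (h5 : ∀ u ∈ Y, (nbr (A.erase u) (E : Set (Sym2 V)) u).card = 5)
    (hadj : ∀ u ∈ Y, ∀ v ∈ Y, u ≠ v → s(u, v) ∉ E) :
    (rest E (A \ Y)).card + 5 * Y.card = E.card := by
  have _ := h.two
  induction Y using Finset.induction_on with
  | empty => rw [Finset.sdiff_empty, rest_self h.sub]; simp
  | insert u Y hu ih =>
    have ih' := ih ((Finset.subset_insert _ _).trans hY)
      (fun v hv => h5 v (Finset.mem_insert_of_mem hv))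
      (fun v hv w hw => hadj v (Finset.mem_insert_of_mem hv) w (Finset.mem_insert_of_mem hw))
    have huA : u ∈ A := hY (Finset.mem_insert_self _ _)
    have huB : u ∈ A \ Y := Finset.mem_sdiff.mpr ⟨huA, hu⟩
    have hrest : rest (rest E (A \ Y)) ((A \ Y).erase u) = rest E (A \ insert u Y) := by
      ext e
      rw [mem_rest, mem_rest, mem_rest]
      constructor
      · rintro ⟨⟨h1, h2⟩, h3⟩
        refine ⟨h1, fun v hv => ?_⟩
        have h4 := Finset.mem_erase.mp (h3 v hv)
        have h5 := Finset.mem_sdiff.mp h4.2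
        rw [Finset.mem_sdiff, Finset.mem_insert, not_or]
        exact ⟨h5.1, h4.1, h5.2⟩
      · rintro ⟨h1, h2⟩
        have h3 : ∀ v ∈ e, v ∈ A ∧ v ≠ u ∧ v ∉ Y := by
          intro v hv
          have := h2 v hv
          rw [Finset.mem_sdiff, Finset.mem_insert, not_or] at this
          exact this
        refine ⟨⟨h1, fun v hv => Finset.mem_sdiff.mpr ⟨(h3 v hv).1, (h3 v hv).2.2⟩⟩,
          fun v hv => Finset.mem_erase.mpr ⟨(h3 v hv).2.1,
            Finset.mem_sdiff.mpr ⟨(h3 v hv).1, (h3 v hv).2.2⟩⟩⟩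
    have hEK : rest E (A \ Y) ⊆ Kf (A \ Y) :=
      rest_subset_Kf (fun e he => (mem_Kf.mp (h.sub he)).1) _
    have h1 := card_rest_erase hEK u
    rw [hrest] at h1
    have hnb : nbr ((A \ Y).erase u) ((rest E (A \ Y) : Finset (Sym2 V)) : Set (Sym2 V)) u
        = nbr (A.erase u) (E : Set (Sym2 V)) u := by
      ext w
      rw [mem_nbr, mem_nbr, Finset.mem_coe, mem_rest, Finset.mem_erase, Finset.mem_sdiff,
        Finset.mem_erase]
      constructor
      · rintro ⟨⟨h1, h2⟩, h3, h4⟩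
        exact ⟨⟨h1, h2.1⟩, by exact_mod_cast h3⟩
      · rintro ⟨⟨h1, h2⟩, h3⟩
        have h3' : s(u, w) ∈ E := by exact_mod_cast h3
        have hwY : w ∉ Y := fun hc => hadj u (Finset.mem_insert_self _ _) w
          (Finset.mem_insert_of_mem hc) (Ne.symm h1) h3'
        refine ⟨⟨h1, h2, hwY⟩, h3', fun v hv => ?_⟩
        rcases Sym2.mem_iff.mp hv with rfl | rfl
        · exact huB
        · exact Finset.mem_sdiff.mpr ⟨h2, hwY⟩
    rw [hnb, h5 u (Finset.mem_insert_self _ _)] at h1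
    rw [Finset.card_insert_of_notMem hu]
    omega

lemma nice_sdiff_union {X : Finset V} (hX : X ⊆ A) : A \ X ∪ X = A :=
  Finset.sdiff_union_of_subset hX

lemma sdiff_union_erase {X : Finset V} (hX : X ⊆ A) {u : V} (hu : u ∈ X) :
    A \ X ∪ X.erase u = A.erase u := by
  ext w
  rw [Finset.mem_union, Finset.mem_sdiff, Finset.mem_erase, Finset.mem_erase]
  constructor
  · rintro (⟨h1, h2⟩ | ⟨h1, h2⟩)
    · exact ⟨fun hc => h2 (hc ▸ hu), h1⟩
    · exact ⟨h1, hX h2⟩
  · rintro ⟨h1, h2⟩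
    by_cases hw : w ∈ X
    · exact Or.inr ⟨h1, hw⟩
    · exact Or.inl ⟨h2, hw⟩

/-- **The hypotheses of the Main Lemma** for a set `X` of pairwise nonadjacent vertices of degree
five of a minimal counterexample. -/
theorem MinCE.mlHyp {X : Finset V} (hX : X ⊆ A)
    (h5 : ∀ u ∈ X, (nbr (A.erase u) (E : Set (Sym2 V)) u).card = 5)
    (hadj : ∀ u ∈ X, ∀ v ∈ X, u ≠ v → s(u, v) ∉ E) :
    MLHyp k (A \ X) X (E : Set (Sym2 V)) where
  indep := ⟨Finset.sdiff_disjoint, fun u hu v hv huv => by exact_mod_cast hadj u hu v hv huv⟩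
  card5 := fun u hu => by rw [h.nbr_eq hX hu (hadj u hu)]; exact h5 u hu
  full := by rw [Finset.sdiff_union_of_subset hX]; exact h.full
  proper := fun Y hY hne => by
    have e1 : A \ X ∪ Y = A \ (X \ Y) := by
      ext w
      simp only [Finset.mem_union, Finset.mem_sdiff]
      constructor
      · rintro (⟨h1, h2⟩ | h1)
        · exact ⟨h1, fun hc => h2 hc.1⟩
        · exact ⟨hX (hY h1), fun hc => hc.2 h1⟩
      · rintro ⟨h1, h2⟩
        by_cases hw : w ∈ Y
        · exact Or.inr hw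
        · exact Or.inl ⟨h1, fun hc => h2 ⟨hc, hw⟩⟩
    have hss : A \ (X \ Y) ⊂ A := by
      refine ⟨Finset.sdiff_subset, fun hc => hne ?_⟩
      refine Finset.Subset.antisymm hY fun w hw => ?_
      by_contra hwY
      exact (Finset.mem_sdiff.mp (hc (hX hw))).2 (Finset.mem_sdiff.mpr ⟨hw, hwY⟩)
    have h1 := h.indep _ hss
    have h2 := h.card_rest_sdiff (Y := X \ Y) (Finset.sdiff_subset.trans hX)
      (fun u hu => h5 u (Finset.sdiff_subset hu))
      (fun u hu v hv => hadj u (Finset.sdiff_subset hu) v (Finset.sdiff_subset hv))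
    have h3 := h.card
    have h4 : (A \ (X \ Y)).card + (X \ Y).card = A.card :=
      Finset.card_sdiff_add_card_eq_card (Finset.sdiff_subset.trans hX)
    have h6 : (X \ Y).card + Y.card = X.card := Finset.card_sdiff_add_card_eq_card hY
    rw [e1]
    omega
  nonrig := fun u hu => by
    filter_upwards [eventually_nice (k := k) A] with p hp
    rw [Finset.sdiff_union_of_subset hX, h.nbr_eq hX hu (hadj u hu)]
    exact h.flex hp (hX hu)
  inj := fun u hu => by
    filter_upwards [eventually_nice (k := k) A] with p hp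
    rw [sdiff_union_erase h hX hu, h.nbr_eq hX hu (hadj u hu)]
    exact h.finrank_inf_RG hp (hX hu)
  typ := fun u hu => by
    filter_upwards [eventually_nice (k := k) A] with p hp
    rw [sdiff_union_erase h hX hu]
    have hnb := h.nbr_eq hX hu (hadj u hu)
    rw [hnb]
    rcases h.types hp (hX hu) (h5 u hu) with h1 | ⟨a, b, c, d, e, hN, hab, hac, had, hae, hbc,
      hbd, hbe, hcd, hce, hde, t, ht, h1⟩
    · exact Or.inl h1
    · right
      have hm : ∀ x ∈ ({a, b, c, d, e} : Finset V), x ∈ nbr (A.erase u) (E : Set (Sym2 V)) u :=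
        fun x hx => hN ▸ hx
      refine ⟨![⟨a, hm a (by simp)⟩, ⟨b, hm b (by simp)⟩, ⟨c, hm c (by simp)⟩,
        ⟨d, hm d (by simp)⟩, ⟨e, hm e (by simp)⟩], ?_, t, ht, ?_⟩
      · rw [Fintype.bijective_iff_injective_and_card]
        refine ⟨?_, by simp [h5 u hu]⟩
        intro i j hij
        fin_cases i <;> fin_cases j <;> simp_all
      · exact h1

/-- CliqueProp for all proper subsets (for FACT R and TOOL 1). -/
theorem MinCE.eventually_cliqueProp {W : Finset V} (hW : W ⊂ A) :
    ∀ᶠ p in gen k (V → Vec k), CliqueProp W p :=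
  GR.eventually_cliqueProp fun _ hW' => h.small _ (Finset.ssubset_of_subset_of_ssubset hW' hW)

end

end GR
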