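import Pool.Agent.Lib.GR.B2Rest
import Pool.Agent.Lib.GR.MinCE

/-!
# The frame hypotheses from the minimal counterexample
-/

set_option linter.unusedSectionVars false

namespace GR

open Filter Module

open scoped Matrix

variable {k : Type*} [Field k] [Infinite k] {V : Type*} [DecidableEq V]
  {A : Finset V} {E : Finset (Sym2 V)} {u a b c d e : V}

/-- restricting twice -/
lemma rest_rest_erase (E : Finset (Sym2 V)) (W : Finset V) (x : V) :
    rest (rest E W) (W.erase x) = rest E (W.erase x) := by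
  ext f
  rw [mem_rest, mem_rest, mem_rest]
  constructor
  · rintro ⟨⟨h5, -⟩, h6⟩
    exact ⟨h5, h6⟩
  · rintro ⟨h5, h6⟩
    exact ⟨⟨h5, fun y hy => Finset.mem_of_mem_erase (h6 y hy)⟩, h6⟩

/-- neighbours in a restricted graph -/
lemma nbr_rest_erase (E : Finset (Sym2 V)) {W : Finset V} {x : V} (hx : x ∈ W) :
    nbr (W.erase x) ((rest E W : Finset (Sym2 V)) : Set (Sym2 V)) x
      = nbr (W.erase x) (E : Set (Sym2 V)) x := by
  ext y
  rw [mem_nbr, mem_nbr, Finset.mem_coe, Finset.mem_coe, mem_rest]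
  constructor
  · rintro ⟨h6, h7, -⟩
    exact ⟨h6, h7⟩
  · rintro ⟨h6, h7⟩
    refine ⟨h6, h7, fun z hz => ?_⟩
    rcases Sym2.mem_iff.mp hz with rfl | rfl
    · exact hx
    · exact Finset.mem_of_mem_erase h6

/-- number of edges after deleting a vertex of `W` -/
lemma card_rest_erase_mem {E : Finset (Sym2 V)} (hE : ∀ e ∈ E, ¬ e.IsDiag) {W : Finset V} {x : V}
    (hx : x ∈ W) : (rest E (W.erase x)).card + (nbr (W.erase x) (E : Set (Sym2 V)) x).card
      = (rest E W).card := by
  have h1 := card_rest_erase (rest_subset_Kf hE W) x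
  rw [rest_rest_erase, nbr_rest_erase E hx] at h1
  exact h1

/-- the neighbours of `a` in `A - u - a` -/
lemma TypB.nbr_erase_erase (hB : TypB k A E u a b c d e) :
    nbr ((A.erase u).erase a) (E : Set (Sym2 V)) a
      = (nbr (A.erase a) (E : Set (Sym2 V)) a).erase u ∧
    u ∈ nbr (A.erase a) (E : Set (Sym2 V)) a := by
  have h1 := mem_nbr.mp hB.lab.ha
  have hau := Finset.ne_of_mem_erase h1.1
  constructor
  · ext y
    rw [mem_nbr, Finset.mem_erase, Finset.mem_erase, Finset.mem_erase, mem_nbr, Finset.mem_erase]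
    tauto
  · rw [mem_nbr, Finset.mem_erase]
    exact ⟨⟨hau.symm, hB.mem⟩, by rw [Sym2.eq_swap]; exact h1.2⟩

lemma TypB.card_nbr_erase_erase (hB : TypB k A E u a b c d e) :
    (nbr ((A.erase u).erase a) (E : Set (Sym2 V)) a).card + 1 = dg A E a := by
  obtain ⟨h1, h2⟩ := hB.nbr_erase_erase
  rw [h1]
  exact Finset.card_erase_add_one h2

/-- dimension of the motions of `A - u - a` -/
lemma MinCE.gdim_body (h : MinCE k A E) (hB : TypB k A E u a b c d e) :
    gdim k ((A.erase u).erase a) (E : Set (Sym2 V))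
      = (nbr ((A.erase u).erase a) (E : Set (Sym2 V)) a).card + 5 := by
  have haA : a ∈ A.erase u := (mem_nbr.mp hB.lab.ha).1
  have hdiag : ∀ e ∈ E, ¬ e.IsDiag := fun e he => (mem_Kf.mp (h.sub he)).1
  have h1 := h.indep ((A.erase u).erase a)
    ((Finset.erase_subset _ _).trans_ssubset (Finset.erase_ssubset hB.mem))
  have h2 := card_rest_erase_mem hdiag haA
  have h3 := card_rest_erase h.sub u
  have h4 : (nbr (A.erase u) (E : Set (Sym2 V)) u).card = 5 := hB.lab.card
  have h5 := Finset.card_erase_add_one haA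
  have h6 := Finset.card_erase_add_one hB.mem
  have h7 := h.card
  omega

/-- **The frame hypotheses** hold for a body vertex of a vertex of type B. -/
theorem MinCE.frameHyp (h : MinCE k A E) (hB : TypB k A E u a b c d e)
    (hab : s(a, b) ∈ E) (hac : s(a, c) ∈ E) (hbc : s(b, c) ∈ E) (hde : s(d, e) ∈ E) :
    FrameHyp k ((A.erase u).erase a) a b c d e (E : Set (Sym2 V)) ∧
      (nbr ((A.erase u).erase a) (E : Set (Sym2 V)) a).card + 1 = dg A E a := by
  have hcomb := h.frameComb hB hab hac hbc hde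
  have haA : a ∈ A.erase u := (mem_nbr.mp hB.lab.ha).1
  have hins : insert a ((A.erase u).erase a) = A.erase u := Finset.insert_erase haA
  refine ⟨⟨h.two, hcomb.hw, hcomb.hb, hcomb.hc, hcomb.hd, hcomb.he, hcomb.hbc, hcomb.hbd,
    hcomb.hbe, hcomb.hcd, hcomb.hce, hcomb.hde, hcomb.ewb, hcomb.ewc, hcomb.ebc, hcomb.ede,
    ?_, h.gdim_body hB, ?_, ?_, ?_⟩, hB.card_nbr_erase_erase⟩
  · rw [hins]
    exact h.gdim_erase hB.mem hB.lab.card
  · rw [hins]
    filter_upwards [eventually_nice (k := k) A] with p hp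
    exact hB.typ p hp
  · rw [hins]
    filter_upwards [eventually_nice (k := k) A] with p hp
    have h1 := h.finrank_inf_RG hp hB.mem
    have h2 : ((nbr (A.erase u) (E : Set (Sym2 V)) u : Finset V) : Set V)
        = ({a, b, c, d, e} : Set V) := by
      rw [hB.lab.eq]
      simp
    rw [h2] at h1
    exact h1
  · rw [hins]
    exact eventually_goodAt fun W hW => h.small W
      (Finset.ssubset_of_subset_of_ssubset hW (Finset.erase_ssubset hB.mem))

end GR
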