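import Pool.Agent.Lib.GR.MinCE

/-!
# The type and the labelling of a vertex of degree five do not depend on the position
-/

set_option linter.unusedSectionVars false

namespace GR

open Filter Module

open scoped Matrix

variable {k : Type*} [Field k] {V : Type*} [DecidableEq V]

/-- a covector vanishing on four points in general position is zero -/
lemma eq_zero_of_four {p : V → Vec k} {N : Finset V} (hgp : GenPos p (N : Set V)) {x y z w : V}
    (hx : x ∈ N) (hy : y ∈ N) (hz : z ∈ N) (hw : w ∈ N) (hxy : x ≠ y) (hxz : x ≠ z) (hxw : x ≠ w)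
    (hyz : y ≠ z) (hyw : y ≠ w) (hzw : z ≠ w) {g : Vec k} (h1 : g ⬝ᵥ p x = 0) (h2 : g ⬝ᵥ p y = 0)
    (h3 : g ⬝ᵥ p z = 0) (h4 : g ⬝ᵥ p w = 0) : g = 0 := by
  have hT : ({x, y, z, w} : Finset V) ⊆ N := by
    intro v hv
    simp only [Finset.mem_insert, Finset.mem_singleton] at hv
    rcases hv with rfl | rfl | rfl | rfl <;> assumption
  have hc : ({x, y, z, w} : Finset V).card = 4 := by
    rw [Finset.card_insert_of_notMem (by simp [hxy, hxz, hxw]),
      Finset.card_insert_of_notMem (by simp [hyz, hyw]), Finset.card_pair hzw]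
  have hsp := (hgp.mono (by exact_mod_cast hT)).spans (N := {x, y, z, w}) (by rw [hc])
  ext i
  obtain ⟨c, hc⟩ := hsp (Pi.single i 1)
  have h5 : g ⬝ᵥ (Pi.single i 1 : Vec k) = 0 := by
    rw [← hc, dotProduct_sum]
    refine Finset.sum_eq_zero fun v hv => ?_
    rw [dotProduct_smul]
    simp only [Finset.mem_insert, Finset.mem_singleton] at hv
    rcases hv with rfl | rfl | rfl | rfl
    · rw [h1, smul_zero]
    · rw [h2, smul_zero]
    · rw [h3, smul_zero]
    · rw [h4, smul_zero]
  simpa using h5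

/-- A labelling of a 5-set. -/
structure Lab (N : Finset V) (a b c d e : V) : Prop where
  eq : N = {a, b, c, d, e}
  ab : a ≠ b
  ac : a ≠ c
  ad : a ≠ d
  ae : a ≠ e
  bc : b ≠ c
  bd : b ≠ d
  be : b ≠ e
  cd : c ≠ d
  ce : c ≠ e
  de : d ≠ e

namespace Lab

variable {N : Finset V} {a b c d e : V}

lemma ha (h : Lab N a b c d e) : a ∈ N := by rw [h.eq]; simp
lemma hb (h : Lab N a b c d e) : b ∈ N := by rw [h.eq]; simp
lemma hc (h : Lab N a b c d e) : c ∈ N := by rw [h.eq]; simp
lemma hd (h : Lab N a b c d e) : d ∈ N := by rw [h.eq]; simp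
lemma he (h : Lab N a b c d e) : e ∈ N := by rw [h.eq]; simp

lemma card (h : Lab N a b c d e) : N.card = 5 := by
  rw [h.eq, Finset.card_insert_of_notMem (by simp [h.ab, h.ac, h.ad, h.ae]),
      Finset.card_insert_of_notMem (by simp [h.bc, h.bd, h.be]),
      Finset.card_insert_of_notMem (by simp [h.cd, h.ce]), Finset.card_pair h.de]

lemma cases (h : Lab N a b c d e) {x : V} (hx : x ∈ N) : x = a ∨ x = b ∨ x = c ∨ x = d ∨ x = e := by
  rw [h.eq] at hx
  simpa using hx

end Lab

/-- a motion of type B with `g = 0` is rigid -/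
lemma mem_RG_of_TB_zero {p Z : V → Vec k} {N : Finset V} {a b c d e : V} (hL : Lab N a b c d e)
    {S : Vec k →ₗ[k] Vec k} (hS : IsSkew S) (h1 : Z a = S (p a)) (h2 : Z b = S (p b))
    (h3 : Z c = S (p c)) (h4 : Z d = S (p d)) (h5 : Z e = S (p e)) : Z ∈ RG p (N : Set V) := by
  refine ⟨S, hS, fun i hi => ?_⟩
  rcases hL.cases (by exact_mod_cast hi) with rfl | rfl | rfl | rfl | rfl <;> assumption

/-- On a space of type B with two degrees of freedom no pair body-rod is rigid. -/
theorem TB_not_rigid {p : V → Vec k} {N : Finset V} {a b c d e : V} (hL : Lab N a b c d e)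
    (hgp : GenPos p (N : Set V)) {M : Submodule k (V → Vec k)} [FiniteDimensional k M]
    (hdim : finrank k (M ⊓ RG p (N : Set V) : Submodule k (V → Vec k)) + 2 ≤ finrank k M)
    {t : k} (ht : t ≠ 0) (hM : M ≤ TB p a b c d e t) {w r : V} (hw : w = a ∨ w = b ∨ w = c)
    (hr : r = d ∨ r = e) : ¬ ∀ Z ∈ M, eps p w r Z = 0 := by
  intro hc
  have hwN : w ∈ N := by rcases hw with rfl | rfl | rfl; exacts [hL.ha, hL.hb, hL.hc]
  have hwd : w ≠ d := by rcases hw with rfl | rfl | rfl; exacts [hL.ad, hL.bd, hL.cd]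
  have hwe : w ≠ e := by rcases hw with rfl | rfl | rfl; exacts [hL.ae, hL.be, hL.ce]
  -- a fourth point
  obtain ⟨y, hyN, hyw, hyd, hye⟩ : ∃ y ∈ N, y ≠ w ∧ y ≠ d ∧ y ≠ e := by
    rcases hw with rfl | rfl | rfl
    · exact ⟨b, hL.hb, hL.ab.symm, hL.bd, hL.be⟩
    · exact ⟨a, hL.ha, hL.ab, hL.ad, hL.ae⟩
    · exact ⟨a, hL.ha, hL.ac, hL.ad, hL.ae⟩
  have key : ∀ Z ∈ M, ∀ S : Vec k →ₗ[k] Vec k, IsSkew S → ∀ g : Vec k, g ⬝ᵥ p d = 0 →
      Z a = S (p a) → Z b = S (p b) → Z c = S (p c) → Z d = S (p d) + g → Z e = S (p e) + t • g →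
      g ⬝ᵥ p w = 0 := by
    intro Z hZ S hS g hg1 h3 h4 h5 h6 h7
    have h8 := hc Z hZ
    have hZw : Z w = S (p w) := by rcases hw with rfl | rfl | rfl <;> assumption
    rcases hr with rfl | rfl
    · rw [eps_apply, hZw, h6, add_dotProduct, hS.swap (p w)] at h8
      linear_combination h8
    · rw [eps_apply, hZw, h7, add_dotProduct, smul_dotProduct, hS.swap (p w), smul_eq_mul] at h8
      have h9 : t * (g ⬝ᵥ p w) = 0 := by linear_combination h8
      exact (mul_eq_zero.mp h9).resolve_left ht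
  have h1 : finrank k M ≤ finrank k (M ⊓ RG p (N : Set V) : Submodule k (V → Vec k)) + 1 := by
    refine finrank_le_of_comb fun Z hZ Z' hZ' => ?_
    obtain ⟨S, hS, g, h1, h2, h3, h4, h5, h6, h7⟩ := hM hZ
    obtain ⟨S', hS', g', h1', h2', h3', h4', h5', h6', h7'⟩ := hM hZ'
    have hgw := key Z hZ S hS g h1 h3 h4 h5 h6 h7
    have hgw' := key Z' hZ' S' hS' g' h1' h3' h4' h5' h6' h7'
    have hcomb : ∀ s s' : k, s • g + s' • g' = 0 → s • Z + s' • Z' ∈ RG p (N : Set V) := by
      intro s s' h0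
      refine mem_RG_of_TB_zero hL (S := s • S + s' • S') ((hS.smul s).add (hS'.smul s')) ?_ ?_ ?_
        ?_ ?_
      · simp [h3, h3']
      · simp [h4, h4']
      · simp [h5, h5']
      · simp only [Pi.add_apply, Pi.smul_apply, h6, h6', LinearMap.add_apply, LinearMap.smul_apply,
          smul_add]
        have : s • S (p d) + s • g + (s' • S' (p d) + s' • g')
          = s • S (p d) + s' • S' (p d) + (s • g + s' • g') := by abel
        rw [this, h0, add_zero]
      · simp only [Pi.add_apply, Pi.smul_apply, h7, h7', LinearMap.add_apply, LinearMap.smul_apply,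
          smul_add, smul_comm s t g, smul_comm s' t g']
        have : s • S (p e) + t • s • g + (s' • S' (p e) + t • s' • g')
          = s • S (p e) + s' • S' (p e) + t • (s • g + s' • g') := by
          rw [smul_add]; abel
        rw [this, h0, smul_zero, add_zero]
    by_cases hgy : g ⬝ᵥ p y = 0
    · have hg0 : g = 0 := eq_zero_of_four hgp hL.hd hL.he hwN hyN hL.de hwd.symm hyd.symm hwe.symm
        hye.symm hyw.symm h1 h2 hgw hgy
      exact ⟨1, 0, Or.inl one_ne_zero, hcomb 1 0 (by rw [hg0]; simp)⟩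
    · refine ⟨-(g' ⬝ᵥ p y), g ⬝ᵥ p y, Or.inr hgy, hcomb _ _ ?_⟩
      refine eq_zero_of_four hgp hL.hd hL.he hwN hyN hL.de hwd.symm hyd.symm hwe.symm
        hye.symm hyw.symm ?_ ?_ ?_ ?_
      · simp [add_dotProduct, h1, h1']
      · simp [add_dotProduct, h2, h2']
      · simp [add_dotProduct, hgw, hgw']
      · simp only [add_dotProduct, smul_dotProduct, smul_eq_mul]
        ring
  omega

/-- body and rod of a space of type B are rigid -/
lemma TB_rigid {p Z : V → Vec k} {a b c d e : V} {t : k} (hZ : Z ∈ TB p a b c d e t) :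
    eps p a b Z = 0 ∧ eps p a c Z = 0 ∧ eps p b c Z = 0 ∧ eps p d e Z = 0 := by
  obtain ⟨S, hS, g, h1, h2, h3, h4, h5, h6, h7⟩ := hZ
  refine ⟨?_, ?_, ?_, ?_⟩
  · rw [eps_apply, h3, h4, hS.swap]; ring
  · rw [eps_apply, h3, h5, hS.swap]; ring
  · rw [eps_apply, h4, h5, hS.swap]; ring
  · rw [eps_apply, h6, h7, add_dotProduct, add_dotProduct, smul_dotProduct, h1, h2, hS.swap]
    simp

/-- type A with a rigid triple is type B -/
theorem exists_TB_of_TA {p : V → Vec k} {N : Finset V} {a b c d e : V} (hL : Lab N a b c d e)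
    (hgp : GenPos p (N : Set V)) : ∃ t : k, t ≠ 0 ∧ ∀ Z ∈ TA p (N : Set V),
      (∀ v ∈ N, Z v ⬝ᵥ p v = 0) → eps p a b Z = 0 → eps p a c Z = 0 → eps p b c Z = 0 →
        Z ∈ TB p a b c d e t := by
  -- coordinates of `p e`
  have hT : ({a, b, c, d} : Finset V) ⊆ N := by
    intro v hv
    simp only [Finset.mem_insert, Finset.mem_singleton] at hv
    rcases hv with rfl | rfl | rfl | rfl
    exacts [hL.ha, hL.hb, hL.hc, hL.hd]
  have hc4 : ({a, b, c, d} : Finset V).card = 4 := by
    rw [Finset.card_insert_of_notMem (by simp [hL.ab, hL.ac, hL.ad]),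
      Finset.card_insert_of_notMem (by simp [hL.bc, hL.bd]), Finset.card_pair hL.cd]
  obtain ⟨f, hf⟩ := (hgp.mono (by exact_mod_cast hT)).spans (N := {a, b, c, d})
    (by rw [hc4]) (p e)
  rw [Finset.sum_insert (by simp [hL.ab, hL.ac, hL.ad]),
    Finset.sum_insert (by simp [hL.bc, hL.bd]), Finset.sum_pair hL.cd] at hf
  have hfd : f d ≠ 0 := by
    intro h0
    rw [h0, zero_smul, add_zero] at hf
    have hcE : ({a, b, c, e} : Finset V).card = 4 := by
      rw [Finset.card_insert_of_notMem (by simp [hL.ab, hL.ac, hL.ae]),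
        Finset.card_insert_of_notMem (by simp [hL.bc, hL.be]), Finset.card_pair hL.ce]
    have h1 := hgp.eq_zero (T := {a, b, c, e}) (g := fun v => if v = e then -1 else f v) (by
      intro v hv
      simp only [Finset.coe_insert, Finset.coe_singleton, Set.mem_insert_iff,
        Set.mem_singleton_iff] at hv
      rcases hv with rfl | rfl | rfl | rfl
      exacts [by exact_mod_cast hL.ha, by exact_mod_cast hL.hb, by exact_mod_cast hL.hc,
        by exact_mod_cast hL.he]) hcE.le (by
        rw [Finset.sum_insert (by simp [hL.ab, hL.ac, hL.ae]),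
          Finset.sum_insert (by simp [hL.bc, hL.be]), Finset.sum_pair hL.ce]
        simp only [hL.ae, hL.be, hL.ce, if_false, if_true, ← hf]
        module) e (by simp)
    simp at h1
  refine ⟨f d, hfd, fun Z hZ hl hab hac hbc => ?_⟩
  obtain ⟨T, hTZ⟩ := hZ
  have hT3 : ({a, b, c} : Finset V) ⊆ N := by
    intro v hv
    simp only [Finset.mem_insert, Finset.mem_singleton] at hv
    rcases hv with rfl | rfl | rfl
    exacts [hL.ha, hL.hb, hL.hc]
  have hc3 : ({a, b, c} : Finset V).card = 3 := by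
    rw [Finset.card_insert_of_notMem (by simp [hL.ab, hL.ac]), Finset.card_pair hL.bc]
  obtain ⟨S, hS, hSZ⟩ := mem_RG_of_rigid (Z := Z) (hgp.mono (by exact_mod_cast hT3)) hc3.ge
    (fun v hv => hl v (hT3 hv)) (by
      have haa : ∀ v ∈ N, eps p v v Z = 0 := fun v hv => by rw [eps_apply, hl v hv, add_zero]
      have hba : eps p b a Z = 0 := by rw [eps_comm]; exact hab
      have hca : eps p c a Z = 0 := by rw [eps_comm]; exact hac
      have hcb : eps p c b Z = 0 := by rw [eps_comm]; exact hbc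
      intro x hx y hy
      simp only [Finset.mem_insert, Finset.mem_singleton] at hx hy
      rcases hx with rfl | rfl | rfl <;> rcases hy with rfl | rfl | rfl <;>
        first
          | assumption
          | exact haa _ hL.ha
          | exact haa _ hL.hb
          | exact haa _ hL.hc)
  have ea := hSZ a (by simp)
  have eb := hSZ b (by simp)
  have ec := hSZ c (by simp)
  have Ta := hTZ a (by exact_mod_cast hL.ha)
  have Tb := hTZ b (by exact_mod_cast hL.hb)
  have Tc := hTZ c (by exact_mod_cast hL.hc)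
  have Td := hTZ d (by exact_mod_cast hL.hd)
  have Te := hTZ e (by exact_mod_cast hL.he)
  have hZe : Z e = S (p e) + f d • (Z d - S (p d)) := by
    have h1 : Z e = f a • Z a + (f b • Z b + (f c • Z c + f d • Z d)) := by
      rw [Te, ← hf, map_add, map_add, map_add, map_smul, map_smul, map_smul, map_smul, ← Ta, ← Tb,
        ← Tc, ← Td]
    have h2 : S (p e) = f a • Z a + (f b • Z b + (f c • Z c + f d • S (p d))) := by
      rw [← hf, map_add, map_add, map_add, map_smul, map_smul, map_smul, map_smul, ← ea, ← eb,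
        ← ec]
    rw [h1, h2, smul_sub]
    abel
  have hgd : (Z d - S (p d)) ⬝ᵥ p d = 0 := by
    rw [sub_dotProduct, hl d hL.hd, hS, sub_zero]
  refine ⟨S, hS, Z d - S (p d), hgd, ?_, ea, eb, ec, by abel, hZe⟩
  have h3 := hl e hL.he
  rw [hZe, add_dotProduct, hS, zero_add, smul_dotProduct, smul_eq_mul] at h3
  exact (mul_eq_zero.mp h3).resolve_left hfd

/-- change of labelling -/
theorem TB_relabel {p : V → Vec k} {N : Finset V} {a b c d e a' b' c' d' e' : V}
    (hL : Lab N a b c d e) (hL' : Lab N a' b' c' d' e') {t : k} (ht : t ≠ 0)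
    (hde : (d' = d ∧ e' = e) ∨ (d' = e ∧ e' = d)) :
    ∃ t' : k, t' ≠ 0 ∧ TB p a' b' c' d' e' t ≤ TB p a b c d e t' := by
  have hmem : ∀ x, x = a ∨ x = b ∨ x = c → x = a' ∨ x = b' ∨ x = c' := by
    intro x hx
    have hxN : x ∈ N := by rcases hx with rfl | rfl | rfl; exacts [hL.ha, hL.hb, hL.hc]
    have hxd : x ≠ d := by rcases hx with rfl | rfl | rfl; exacts [hL.ad, hL.bd, hL.cd]
    have hxe : x ≠ e := by rcases hx with rfl | rfl | rfl; exacts [hL.ae, hL.be, hL.ce]
    rcases hL'.cases hxN with h | h | h | h | h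
    · exact Or.inl h
    · exact Or.inr (Or.inl h)
    · exact Or.inr (Or.inr h)
    · rcases hde with ⟨h1, h2⟩ | ⟨h1, h2⟩
      · exact absurd (h.trans h1) hxd
      · exact absurd (h.trans h1) hxe
    · rcases hde with ⟨h1, h2⟩ | ⟨h1, h2⟩
      · exact absurd (h.trans h2) hxe
      · exact absurd (h.trans h2) hxd
  rcases hde with ⟨rfl, rfl⟩ | ⟨rfl, rfl⟩
  · refine ⟨t, ht, ?_⟩
    rintro Z ⟨S, hS, g, h1, h2, h3, h4, h5, h6, h7⟩
    have hx : ∀ x, x = a ∨ x = b ∨ x = c → Z x = S (p x) := by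
      intro x hx
      rcases hmem x hx with rfl | rfl | rfl <;> assumption
    exact ⟨S, hS, g, h1, h2, hx a (Or.inl rfl), hx b (Or.inr (Or.inl rfl)),
      hx c (Or.inr (Or.inr rfl)), h6, h7⟩
  · refine ⟨t⁻¹, inv_ne_zero ht, ?_⟩
    rintro Z ⟨S, hS, g, h1, h2, h3, h4, h5, h6, h7⟩
    have hx : ∀ x, x = a ∨ x = b ∨ x = c → Z x = S (p x) := by
      intro x hx
      rcases hmem x hx with rfl | rfl | rfl <;> assumption
    refine ⟨S, hS, t • g, ?_, ?_, hx a (Or.inl rfl), hx b (Or.inr (Or.inl rfl)),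
      hx c (Or.inr (Or.inr rfl)), h7, ?_⟩
    · rw [smul_dotProduct, h2, smul_zero]
    · rw [smul_dotProduct, h1, smul_zero]
    · rw [smul_smul, inv_mul_cancel₀ ht, one_smul]
      exact h6

/-- If the body `a b c` is rigid on a space of type B with two degrees of freedom, with body
`a' b' c'` and rod `d' e'`, then `{d', e'} = {d, e}`. -/
theorem rod_eq {p : V → Vec k} {N : Finset V} {a b c d e a' b' c' d' e' : V}
    (hL : Lab N a b c d e) (hL' : Lab N a' b' c' d' e') (hgp : GenPos p (N : Set V))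
    {M : Submodule k (V → Vec k)} [FiniteDimensional k M]
    (hdim : finrank k (M ⊓ RG p (N : Set V) : Submodule k (V → Vec k)) + 2 ≤ finrank k M)
    {t : k} (ht : t ≠ 0) (hM : M ≤ TB p a' b' c' d' e' t)
    (rab : ∀ Z ∈ M, eps p a b Z = 0) (rac : ∀ Z ∈ M, eps p a c Z = 0)
    (rbc : ∀ Z ∈ M, eps p b c Z = 0) : (d' = d ∧ e' = e) ∨ (d' = e ∧ e' = d) := by
  have hno : ∀ x y : V, (x = a' ∨ x = b' ∨ x = c') → (y = d' ∨ y = e') →
      ¬ ∀ Z ∈ M, eps p x y Z = 0 := fun x y hx hy =>
    TB_not_rigid hL' hgp hdim ht hM hx hy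
  have hbody : ∀ x y : V, (x = a ∨ x = b ∨ x = c) → (y = a ∨ y = b ∨ y = c) → x ≠ y →
      ∀ Z ∈ M, eps p x y Z = 0 := by
    intro x y hx hy hxy Z hZ
    rcases hx with rfl | rfl | rfl <;> rcases hy with rfl | rfl | rfl <;>
      first
        | exact absurd rfl hxy
        | exact rab Z hZ
        | exact rac Z hZ
        | exact rbc Z hZ
        | (rw [eps_comm]; exact rab Z hZ)
        | (rw [eps_comm]; exact rac Z hZ)
        | (rw [eps_comm]; exact rbc Z hZ)
  -- elements of the rod' are not in the body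
  have hrod : ∀ y, (y = d' ∨ y = e') → ¬ (y = a ∨ y = b ∨ y = c) := by
    intro y hy hyb
    -- another body vertex which is in the body'
    obtain ⟨x, hx, hxy, hxo⟩ : ∃ x, (x = a ∨ x = b ∨ x = c) ∧ x ≠ y ∧
        ¬ (x = d' ∨ x = e') := by
      by_contra hcon
      push Not at hcon
      -- the three points a, b, c would be in {d', e'}
      have hall : ∀ x, (x = a ∨ x = b ∨ x = c) → x = d' ∨ x = e' := by
        intro x hx
        by_cases hxy : x = y
        · rw [hxy]; exact hy
        · exact hcon x hx hxy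
      rcases hall a (Or.inl rfl) with ha' | ha' <;>
        rcases hall b (Or.inr (Or.inl rfl)) with hb' | hb' <;>
        rcases hall c (Or.inr (Or.inr rfl)) with hc' | hc' <;>
        first
          | exact hL.ab (ha'.trans hb'.symm)
          | exact hL.ac (ha'.trans hc'.symm)
          | exact hL.bc (hb'.trans hc'.symm)
    have hxN : x ∈ N := by rcases hx with rfl | rfl | rfl; exacts [hL.ha, hL.hb, hL.hc]
    have hxb : x = a' ∨ x = b' ∨ x = c' := by
      rcases hL'.cases hxN with h2 | h2 | h2 | h2 | h2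
      · exact Or.inl h2
      · exact Or.inr (Or.inl h2)
      · exact Or.inr (Or.inr h2)
      · exact absurd (Or.inl h2) hxo
      · exact absurd (Or.inr h2) hxo
    exact hno x y hxb hy (hbody x y hx hyb hxy)
  have hrodd : ∀ y, (y = d' ∨ y = e') → y = d ∨ y = e := by
    intro y hy
    have hyN : y ∈ N := by rcases hy with rfl | rfl; exacts [hL'.hd, hL'.he]
    have := hrod y hy
    push Not at this
    rcases hL.cases hyN with h2 | h2 | h2 | h2 | h2
    · exact absurd h2 this.1
    · exact absurd h2 this.2.1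
    · exact absurd h2 this.2.2
    · exact Or.inl h2
    · exact Or.inr h2
  rcases hrodd d' (Or.inl rfl) with h2 | h2 <;> rcases hrodd e' (Or.inr rfl) with h3 | h3
  · exact absurd (h2.trans h3.symm) hL'.de
  · exact Or.inl ⟨h2, h3⟩
  · exact Or.inr ⟨h2, h3⟩
  · exact absurd (h2.trans h3.symm) hL'.de

/-- the constant ratio on a space of type B -/
lemma TB_ratio {p Z : V → Vec k} {a b c d e : V} {t : k} (hZ : Z ∈ TB p a b c d e t) {w : V}
    (hw : w = a ∨ w = b ∨ w = c) : eps p w e Z = t * eps p w d Z := by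
  obtain ⟨S, hS, g, h1, h2, h3, h4, h5, h6, h7⟩ := hZ
  have hZw : Z w = S (p w) := by rcases hw with rfl | rfl | rfl <;> assumption
  rw [eps_apply, eps_apply, hZw, h6, h7, add_dotProduct, add_dotProduct, smul_dotProduct,
    smul_eq_mul, hS.swap (p w), hS.swap (p w)]
  ring

/-- a skew map is determined by its values on three points in general position -/
lemma skew_unique [Infinite k] {p : V → Vec k} {N : Finset V} {a b c d e : V} (hL : Lab N a b c d e)
    (hgp : GenPos p (N : Set V)) {S S' : Vec k →ₗ[k] Vec k} (hS : IsSkew S) (hS' : IsSkew S')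
    (h1 : S (p a) = S' (p a)) (h2 : S (p b) = S' (p b)) (h3 : S (p c) = S' (p c)) : S = S' := by
  have hli : LinearIndependent k ![p a, p b, p c] :=
    hgp.li3 (by exact_mod_cast hL.ha) (by exact_mod_cast hL.hb) (by exact_mod_cast hL.hc)
      hL.ab hL.ac hL.bc
  have h4 := IsSkew.eq_zero_of_three (hS.sub hS') hli (by simp [h1]) (by simp [h2]) (by simp [h3])
  exact sub_eq_zero.mp h4

/-- the constant of a space of type B is unique -/
theorem TB_t_eq [Infinite k] {p : V → Vec k} {N : Finset V} {a b c d e : V} (hL : Lab N a b c d e)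
    (hgp : GenPos p (N : Set V)) {M : Submodule k (V → Vec k)} {t t' : k}
    (hM : M ≤ TB p a b c d e t) (hM' : M ≤ TB p a b c d e t') (hne : ¬ M ≤ RG p (N : Set V)) :
    t = t' := by
  obtain ⟨Z, hZ, hZR⟩ := SetLike.not_le_iff_exists.mp hne
  obtain ⟨S, hS, g, h1, h2, h3, h4, h5, h6, h7⟩ := hM hZ
  obtain ⟨S', hS', g', h1', h2', h3', h4', h5', h6', h7'⟩ := hM' hZ
  have hSS := skew_unique hL hgp hS hS' (h3.symm.trans h3') (h4.symm.trans h4')
    (h5.symm.trans h5')
  subst hSS
  have hgg : g = g' := by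
    have := h6.symm.trans h6'
    exact add_left_cancel this
  subst hgg
  have hg0 : g ≠ 0 := by
    rintro rfl
    exact hZR (mem_RG_of_TB_zero hL hS h3 h4 h5 (by simpa using h6) (by simpa using h7))
  have h8 : t • g = t' • g := add_left_cancel (h7.symm.trans h7')
  exact smul_left_injective k hg0 h8

/-- type B with the special constant is type A -/
theorem TB_le_TA {p : V → Vec k} {N : Finset V} {a b c d e : V} (hL : Lab N a b c d e)
    (hgp : GenPos p (N : Set V)) {fa fb fc t : k}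
    (hf : p e = fa • p a + fb • p b + fc • p c + t • p d) :
    TB p a b c d e t ≤ TA p (N : Set V) := by
  rintro Z ⟨S, hS, g, h1, h2, h3, h4, h5, h6, h7⟩
  obtain ⟨φ, hφ⟩ := exists_functional (v := ![p a, p b, p c, p d]) (hgp.four
    (by exact_mod_cast hL.ha) (by exact_mod_cast hL.hb) (by exact_mod_cast hL.hc)
    (by exact_mod_cast hL.hd) hL.ab hL.ac hL.ad hL.bc hL.bd hL.cd) ![0, 0, 0, 1]
  have f0 : φ (p a) = 0 := by simpa using hφ 0
  have f1 : φ (p b) = 0 := by simpa using hφ 1
  have f2 : φ (p c) = 0 := by simpa using hφ 2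
  have f3 : φ (p d) = 1 := by simpa using hφ 3
  have f4 : φ (p e) = t := by
    rw [hf, map_add, map_add, map_add, map_smul, map_smul, map_smul, map_smul, f0, f1, f2, f3]
    simp
  refine ⟨S + φ.smulRight g, fun i hi => ?_⟩
  rw [LinearMap.add_apply, LinearMap.smulRight_apply]
  rcases hL.cases (by exact_mod_cast hi) with rfl | rfl | rfl | rfl | rfl
  · rw [f0, zero_smul, add_zero, h3]
  · rw [f1, zero_smul, add_zero, h4]
  · rw [f2, zero_smul, add_zero, h5]
  · rw [f3, one_smul, h6]
  · rw [f4, h7]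

section

variable [Infinite k] {A : Finset V} {E : Finset (Sym2 V)}

/-- rigid pairs of a graph on a subset are the same at all nice positions -/
lemma eps_const (hE : ∀ e ∈ E, ¬ e.IsDiag) {p q : V → Vec k} {W : Finset V}
    (hp : Regular W p) (hq : Regular W q) {a b : V} (ha : a ∈ W) (hb : b ∈ W) (hab : a ≠ b)
    (h : ∀ Z ∈ Mot W (E : Set (Sym2 V)) p, eps p a b Z = 0) :
    ∀ Z ∈ Mot W (E : Set (Sym2 V)) q, eps q a b Z = 0 := by
  have hsub : rest E W ⊆ Kf W := rest_subset_Kf hE W
  have h1 : s(a, b) ∈ clF W (rest E W) p := by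
    rw [mem_clF, mk_mem_Kf]
    refine ⟨⟨hab, ha, hb⟩, (mem_clo_iff_Mot hsub ha hb).mpr ?_⟩
    rw [Mot_rest]
    exact h
  rw [clF_eq_of_regular hsub hp hq, mem_clF] at h1
  have h2 := (mem_clo_iff_Mot hsub ha hb).mp h1.2
  rwa [Mot_rest] at h2

/-- the degree of `u` in the graph `E` on `A` -/
noncomputable def dg (A : Finset V) (E : Finset (Sym2 V)) (u : V) : ℕ :=
  (nbr (A.erase u) (E : Set (Sym2 V)) u).card

/-- `u` is a vertex of degree five of type A. -/
structure TypA (k : Type*) [Field k] [Infinite k] {V : Type*} [DecidableEq V] (A : Finset V)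
    (E : Finset (Sym2 V)) (u : V) : Prop where
  mem : u ∈ A
  deg : dg A E u = 5
  typ : ∀ p : V → Vec k, Nice A p → Mot (A.erase u) (E : Set (Sym2 V)) p
      ≤ TA p (nbr (A.erase u) (E : Set (Sym2 V)) u : Set V)

/-- `u` is a vertex of degree five of type B with body `a b c` and rod `d e`. -/
structure TypB (k : Type*) [Field k] [Infinite k] {V : Type*} [DecidableEq V] (A : Finset V)
    (E : Finset (Sym2 V)) (u a b c d e : V) : Prop where
  mem : u ∈ A
  lab : Lab (nbr (A.erase u) (E : Set (Sym2 V)) u) a b c d e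
  typ : ∀ p : V → Vec k, Nice A p →
        ∃ t : k, t ≠ 0 ∧ Mot (A.erase u) (E : Set (Sym2 V)) p ≤ TB p a b c d e t

/-- **The type of a vertex of degree five is constant**, with a constant labelling in the case of
type B. -/
theorem MinCE.types_const (h : MinCE k A E) {u : V} (hu : u ∈ A) (h5 : dg A E u = 5) :
    TypA k A E u ∨ ∃ a b c d e : V, TypB k A E u a b c d e := by
  suffices hsuf : (∀ p : V → Vec k, Nice A p → Mot (A.erase u) (E : Set (Sym2 V)) p
      ≤ TA p (nbr (A.erase u) (E : Set (Sym2 V)) u : Set V)) ∨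
    ∃ a b c d e : V, Lab (nbr (A.erase u) (E : Set (Sym2 V)) u) a b c d e ∧
      ∀ p : V → Vec k, Nice A p →
        ∃ t : k, t ≠ 0 ∧ Mot (A.erase u) (E : Set (Sym2 V)) p ≤ TB p a b c d e t by
    rcases hsuf with h1 | ⟨a, b, c, d, e, h1, h2⟩
    · exact Or.inl ⟨hu, h5, h1⟩
    · exact Or.inr ⟨a, b, c, d, e, hu, h1, h2⟩
  unfold dg at h5
  set N := nbr (A.erase u) (E : Set (Sym2 V)) u with hN
  have hNA : N ⊆ A.erase u := nbr_subset _ _ _
  have hNA' : N ⊆ A := hNA.trans (Finset.erase_subset u A)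
  have hE : ∀ e ∈ E, ¬ e.IsDiag := fun e he => (mem_Kf.mp (h.sub he)).1
  by_cases hex : ∃ q : V → Vec k, Nice A q ∧ ∃ a b c d e : V, Lab N a b c d e ∧
      ∃ t : k, t ≠ 0 ∧ Mot (A.erase u) (E : Set (Sym2 V)) q ≤ TB q a b c d e t
  · right
    obtain ⟨q, hq, a, b, c, d, e, hL, t, ht, hTB⟩ := hex
    refine ⟨a, b, c, d, e, hL, fun p hp => ?_⟩
    have hreg := hp.reg.mono (Finset.erase_subset u A)
    have hreg' := hq.reg.mono (Finset.erase_subset u A)
    have hrig : ∀ x ∈ N, ∀ y ∈ N, x ≠ y →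
        (∀ Z ∈ Mot (A.erase u) (E : Set (Sym2 V)) q, eps q x y Z = 0) →
        ∀ Z ∈ Mot (A.erase u) (E : Set (Sym2 V)) p, eps p x y Z = 0 := fun x hx y hy hxy =>
      eps_const hE hreg' hreg (hNA hx) (hNA hy) hxy
    have rab := hrig a hL.ha b hL.hb hL.ab fun Z hZ => (TB_rigid (hTB hZ)).1
    have rac := hrig a hL.ha c hL.hc hL.ac fun Z hZ => (TB_rigid (hTB hZ)).2.1
    have rbc := hrig b hL.hb c hL.hc hL.bc fun Z hZ => (TB_rigid (hTB hZ)).2.2.1
    have hgp := hp.gp.mono (N' := (N : Set V)) (by exact_mod_cast hNA')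
    rcases h.types hp hu h5 with h1 | ⟨a', b', c', d', e', hN', hab, hac, had, hae, hbc, hbd, hbe,
      hcd, hce, hde, t', ht', h1⟩
    · obtain ⟨t'', ht'', h2⟩ := exists_TB_of_TA hL hgp
      exact ⟨t'', ht'', fun Z hZ => h2 Z (h1 hZ) (fun v hv => hZ.2.1 v (hNA hv)) (rab Z hZ)
        (rac Z hZ) (rbc Z hZ)⟩
    · have hL' : Lab N a' b' c' d' e' := ⟨hN', hab, hac, had, hae, hbc, hbd, hbe, hcd, hce, hde⟩
      -- compare the rods
      have hdim : finrank k (Mot (A.erase u) (E : Set (Sym2 V)) p ⊓ RG p (N : Set V) :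
          Submodule k (V → Vec k)) + 2 ≤ finrank k (Mot (A.erase u) (E : Set (Sym2 V)) p) := by
        have h3 := h.finrank_inf_RG hp hu
        rw [← hN] at h3
        have h4 : finrank k (Mot (A.erase u) (E : Set (Sym2 V)) p) = gdim k (A.erase u)
          (E : Set (Sym2 V)) := hp.reg _ (Finset.erase_subset u A) _
        rw [h4, h.gdim_erase hu h5]
        omega
      have hfin := rod_eq hL hL' hgp hdim ht' h1 rab rac rbc
      obtain ⟨t'', ht'', h2⟩ := TB_relabel (p := p) hL hL' ht' hfin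
      exact ⟨t'', ht'', h1.trans h2⟩
  · left
    intro p hp
    rcases h.types hp hu h5 with h1 | ⟨a', b', c', d', e', hN', hab, hac, had, hae, hbc, hbd, hbe,
      hcd, hce, hde, t', ht', h1⟩
    · exact h1
    · exact absurd ⟨p, hp, a', b', c', d', e',
        ⟨hN', hab, hac, had, hae, hbc, hbd, hbe, hcd, hce, hde⟩, t', ht', h1⟩ hex

end

end GR
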