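import Pool.Agent.Lib.GR.BLocFrame
import Pool.Agent.Lib.GR.TypeConst

/-!
# A vertex at rest in the gauge of the body is rigid with `u`
-/

set_option linter.unusedSectionVars false

namespace GR

open Filter Module

open scoped Matrix

variable {k : Type*} [Field k] [Infinite k] {V : Type*} [DecidableEq V]
  {A : Finset V} {E : Finset (Sym2 V)} {u a b c d e : V}

/-- the combinatorial part of the frame -/
theorem MinCE.frameComb (h : MinCE k A E) (hB : TypB k A E u a b c d e)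
    (hab : s(a, b) ∈ E) (hac : s(a, c) ∈ E) (hbc : s(b, c) ∈ E) (hde : s(d, e) ∈ E) :
    FrameComb ((A.erase u).erase a) a b c d e (E : Set (Sym2 V)) := by
  have _ := h
  have hL := hB.lab
  have hm : ∀ y, y ∈ nbr (A.erase u) (E : Set (Sym2 V)) u → y ∈ A.erase u :=
    fun y hy => (mem_nbr.mp hy).1
  exact ⟨Finset.notMem_erase a _, Finset.mem_erase.mpr ⟨hL.ab.symm, hm b hL.hb⟩,
    Finset.mem_erase.mpr ⟨hL.ac.symm, hm c hL.hc⟩, Finset.mem_erase.mpr ⟨hL.ad.symm, hm d hL.hd⟩,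
    Finset.mem_erase.mpr ⟨hL.ae.symm, hm e hL.he⟩, hL.bc, hL.bd, hL.be, hL.cd, hL.ce, hL.de,
    by exact_mod_cast hab, by exact_mod_cast hac, by exact_mod_cast hbc, by exact_mod_cast hde⟩

/-- a vertex which is at rest in the gauge of the body is rigid with `u`. -/
theorem MinCE.rigid_of_rest (h : MinCE k A E) (hB : TypB k A E u a b c d e)
    (hab : s(a, b) ∈ E) (hac : s(a, c) ∈ E) (hbc : s(b, c) ∈ E) (hde : s(d, e) ∈ E)
    {p : V → Vec k} (hp : Nice A p) {y : V} (hy : y ∈ (A.erase u).erase a)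
    (hZ : ∀ Z ∈ Kg ((A.erase u).erase a) (E : Set (Sym2 V)) p b c d e, Z y = 0) :
    s(u, y) ∈ clF A E p := by
  have hL := hB.lab
  have hcomb := h.frameComb hB hab hac hbc hde
  have hm : ∀ y, y ∈ nbr (A.erase u) (E : Set (Sym2 V)) u → y ∈ A.erase u ∧ s(u, y) ∈ E :=
    fun y hy => ⟨(mem_nbr.mp hy).1, by exact_mod_cast (mem_nbr.mp hy).2⟩
  have haA := (hm a hL.ha).1
  have hins : insert a ((A.erase u).erase a) = A.erase u := Finset.insert_erase haA
  obtain ⟨t, ht, hTB⟩ := hB.typ p hp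
  have hy1 := Finset.mem_of_mem_erase hy
  have hyA := Finset.mem_of_mem_erase hy1
  have hyu := Finset.ne_of_mem_erase hy1
  have huA := hB.mem
  rw [mem_clF, mk_mem_Kf]
  refine ⟨⟨hyu.symm, huA, hyA⟩, (mem_clo_iff_Mot h.sub huA hyA).mpr fun Z hZM => ?_⟩
  have hZ₁ : cut k (A.erase u) Z ∈ Mot (A.erase u) (E : Set (Sym2 V)) p :=
    cut_mem_Mot_of_subset (Finset.erase_subset u A) hZM
  obtain ⟨L, hLs, hW⟩ := exists_Wg_add_triv hcomb (p := p) (t := t) (by
      rw [← Finset.coe_insert, hins]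
      exact hp.gp.mono (by exact_mod_cast Finset.erase_subset u A))
    (by rw [hins]; exact hTB) (Z := cut k (A.erase u) Z) (by rw [hins]; exact hZ₁)
  rw [hins] at hW
  have hK := hW.1
  -- the values
  have hval : ∀ w ∈ A.erase u, (cut k (A.erase u) Z - triv (A.erase u) p L) w = 0 →
      Z w = L *ᵥ p w := by
    intro w hw h0
    rw [Pi.sub_apply, cut_apply _ hw, triv_apply p L hw] at h0
    exact sub_eq_zero.mp h0
  have hZa := hval a haA (hK.1.1 a hcomb.hw)
  have hZb := hval b (hm b hL.hb).1 hK.2.1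
  have hZc := hval c (hm c hL.hc).1 hK.2.2.1
  have hZy := hval y hy1 (hZ _ hK)
  -- `u` is attached to the body
  have hsk := isSkew_of_mem_Skew hLs
  have hdot : ∀ x z : Vec k, L *ᵥ x ⬝ᵥ z = - (L *ᵥ z ⬝ᵥ x) := fun x z => by
    have := hsk.swap x z
    simpa using this
  have hdot0 : ∀ x : Vec k, L *ᵥ x ⬝ᵥ x = 0 := fun x => by
    have := hsk x
    simpa using this
  have hu : ∀ w, (w = a ∨ w = b ∨ w = c) → (Z u - L *ᵥ p u) ⬝ᵥ p w = 0 := by
    intro w hw
    have hwN : w ∈ nbr (A.erase u) (E : Set (Sym2 V)) u := by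
      rcases hw with rfl | rfl | rfl
      exacts [hL.ha, hL.hb, hL.hc]
    have hZw : Z w = L *ᵥ p w := by rcases hw with rfl | rfl | rfl <;> assumption
    have h1 := hZM.2.2 u huA w (Finset.mem_of_mem_erase (hm w hwN).1)
      (by exact_mod_cast (hm w hwN).2)
    rw [eps_apply, hZw] at h1
    rw [sub_dotProduct, hdot (p u) (p w)]
    linear_combination h1
  have huu : (Z u - L *ᵥ p u) ⬝ᵥ p u = 0 := by
    rw [sub_dotProduct, hdot0, hZM.2.1 u huA, sub_zero]
  have hne : ∀ w, w ∈ nbr (A.erase u) (E : Set (Sym2 V)) u → u ≠ w := fun w hw =>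
    (Finset.ne_of_mem_erase (hm w hw).1).symm
  have hall : Z u - L *ᵥ p u = 0 := by
    refine eq_zero_of_four (N := A) hp.gp huA (Finset.mem_of_mem_erase haA)
      (Finset.mem_of_mem_erase (hm b hL.hb).1) (Finset.mem_of_mem_erase (hm c hL.hc).1)
      (hne a hL.ha) (hne b hL.hb) (hne c hL.hc) hL.ab hL.ac hL.bc huu
      (hu a (Or.inl rfl)) (hu b (Or.inr (Or.inl rfl))) (hu c (Or.inr (Or.inr rfl)))
  rw [eps_apply, hZy, sub_eq_zero.mp hall, hdot (p u) (p y)]
  ring

end GR
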