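import Pool.Agent.Lib.GR.BLocNonconst
import Pool.Agent.Lib.GR.B2Rest
import Pool.Agent.Lib.GR.NoAB
import Pool.Agent.Lib.GR.B2Frame
import Pool.Agent.Lib.GR.Assemble

/-!
# (B2): the body vertices of a type B vertex have degree at least seven

`FrameHyp.card_ne_four`: the case of two external neighbours is impossible;
`FrameHyp.dstar`: for three external neighbours the case `D*` remains, which is excluded by the
five point lemma (`MinCE.no_Dstar`).
-/

set_option linter.unusedSectionVars false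

namespace GR

open Filter Module

open scoped Matrix

variable {k : Type*} [Field k] [Infinite k] {V : Type*} [DecidableEq V]

section Frame

variable {U : Finset V} {w b c d e : V} {E : Set (Sym2 V)}

/-- generic properties of the frame, at a position `p` of all vertices -/
lemma FrameHyp.eventually_at (h : FrameHyp k U w b c d e E) :
    ∀ᶠ p in gen k (V → Vec k), GenPos p (insert w U : Set V) ∧
      mdim (insert w U) E p = 8 ∧ GoodAt (insert w U) p ∧
      finrank k (Mot (insert w U) E p ⊓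
        RG p ({w, b, c, d, e} : Set V) : Submodule k (V → Vec k)) ≤ 6 ∧
      ∃ t : k, t ≠ 0 ∧ Mot (insert w U) E p ≤ TB p w b c d e t := by
  filter_upwards [eventually_genPos (k := k) (insert w U), h.typ, h.inj, h.good,
    eventually_mdim_eq (k := k) (insert w U) E] with p hgp htyp hinj hgood hm
  rw [Finset.coe_insert] at hgp
  exact ⟨hgp, by rw [hm, h.full], hgood, hinj, htyp⟩

lemma FrameHyp.notMem_E (h : FrameHyp k U w b c d e E) : s(w, d) ∉ E ∧ s(w, e) ∉ E := by
  obtain ⟨p, hgp, hdim, hgood, hinj, t, ht, hTB⟩ := h.eventually_at.exists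
  exact h.comb.notMem_E hgp ht hTB hinj hdim

lemma FrameHyp.card_ext (h : FrameHyp k U w b c d e E) :
    (extN U E w b c).card + 2 = (nbr U E w).card := by
  classical
  have hsub : ({b, c} : Finset V) ⊆ nbr U E w := by
    intro y hy
    simp only [Finset.mem_insert, Finset.mem_singleton] at hy
    rcases hy with rfl | rfl
    · exact mem_nbr.mpr ⟨h.hb, h.ewb⟩
    · exact mem_nbr.mpr ⟨h.hc, h.ewc⟩
  have h1 := Finset.card_sdiff_add_card_eq_card hsub
  rw [Finset.card_pair h.hbc] at h1
  exact h1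

lemma FrameHyp.eventually_kframe (h : FrameHyp k U w b c d e E) :
    ∀ᶠ p in gen k (V → Vec k),
      KFrame (Kg U E p b c d e) U (extN U E w b c) p b c d e ∧
      finrank k (Kg U E p b c d e) + 1 = (nbr U E w).card := by
  obtain ⟨hd, he⟩ := h.notMem_E
  filter_upwards [h.eventually_xdata] with p hp
  obtain ⟨hgp, hfin, hev⟩ := hp
  refine ⟨⟨hgp, h.hb, h.hc, h.hd, h.he, h.hbc, h.hbd, h.hbe, h.hcd, h.hce, h.hde, ?_, ?_, ?_, ?_,
    ?_, inferInstance, fun Z hZ => Kg_zb hZ, fun Z hZ => Kg_zc hZ, fun Z hZ => Kg_de hZ,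
    fun Z hZ => Kg_ed hZ h.hd h.he h.ede, fun Z hZ y hy => Kg_loop hZ hy, ?_⟩, hfin⟩
  · intro y hy
    exact (mem_extN.mp hy).1.1
  · intro hy
    exact (mem_extN.mp hy).2.1 rfl
  · intro hy
    exact (mem_extN.mp hy).2.2 rfl
  · intro hy
    exact hd (mem_extN.mp hy).1.2
  · intro hy
    exact he (mem_extN.mp hy).1.2
  · filter_upwards [hev] with x hx
    exact hx.2

/-- **Two external neighbours are impossible.** -/
theorem FrameHyp.card_ne_four (h : FrameHyp k U w b c d e E) : (nbr U E w).card ≠ 4 := by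
  intro h4
  have hX := h.card_ext
  obtain ⟨p, hK, hfin⟩ := h.eventually_kframe.exists
  rcases hK.const_or with ⟨t, ht⟩ | hn
  · exact (hK.const ht).two_false (by omega)
  · have := hK.four_le hn
    omega

/-- **Three external neighbours: the case `D*`.** -/
theorem FrameHyp.dstar (h : FrameHyp k U w b c d e E) (h5 : (nbr U E w).card = 5)
    (hNC : ∀ᶠ p in gen k (V → Vec k), ∀ y ∈ extN U E w b c, ∃ Z ∈ Kg U E p b c d e, Z y ≠ 0) :
    ∀ᶠ p in gen k (V → Vec k), ∀ t : k, t ≠ 0 → Mot (insert w U) E p ≤ TB p w b c d e t →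
      ∃ c' : V → k, DStar (Kg U E p b c d e) (extN U E w b c) p d e t c' := by
  have hX := h.card_ext
  filter_upwards [h.eventually_kframe, hNC, h.eventually_QJ, h.eventually_at]
    with p hK hNC hQJ hat t ht hTB
  obtain ⟨hK, hfin⟩ := hK
  obtain ⟨hgp, hdim, hgood, hinj, -⟩ := hat
  rcases hK.const_or with ⟨t₀, ht₀⟩ | hn
  · have hC := hK.const ht₀
    obtain ⟨c', hc'⟩ := hC.three (by omega) (by omega) (fun y hy hli hr hq =>
      hQJ E h.ebc h.ede t₀ hC.t0 y (hC.XU hy) (fun h' => hC.bX (h' ▸ hy))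
        (fun h' => hC.cX (h' ▸ hy)) (fun h' => hC.dX (h' ▸ hy)) (fun h' => hC.eX (h' ▸ hy))
        hli hr hq)
    -- `t = t₀`
    obtain ⟨s, J, a, hxd⟩ := xdata_at h.comb hgp ht hTB hinj hdim hgood
    obtain ⟨Y, hY, -, hne⟩ := hxd.exists_Y hK.fin
    have h1 := hxd.ratio Y hY
    rw [hc'.ratio Y hY.1] at h1
    have h2 : (t₀ - t) • Y d = 0 := by rw [sub_smul, h1, sub_self]
    have h3 : t₀ = t := sub_eq_zero.mp ((smul_eq_zero.mp h2).resolve_right hne)
    subst h3
    exact ⟨c', hc'⟩
  · obtain ⟨y, hy, hrest⟩ := hK.exists_rest (by omega) (by omega) hn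
    obtain ⟨Z, hZ, hne⟩ := hNC y hy
    exact absurd (hrest Z hZ) hne

end Frame

section MinCE

variable {A : Finset V} {E : Finset (Sym2 V)} {u a b c d e : V}

/-- **The degree of a body vertex is at least seven** (basis which contains the frame). -/
theorem MinCE.seven_le_of_frame (h : MinCE k A E) (hB : TypB k A E u a b c d e)
    (hab : s(a, b) ∈ E) (hac : s(a, c) ∈ E) (hbc : s(b, c) ∈ E) (hde : s(d, e) ∈ E)
    (hN : ∀ p : V → Vec k, Nice A p → ∀ y ∈ A, s(u, y) ∈ clF A E p →
      y ∈ nbr (A.erase u) (E : Set (Sym2 V)) u) : 7 ≤ dg A E a := by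
  classical
  obtain ⟨hF, hcard⟩ := h.frameHyp hB hab hac hbc hde
  have hL := hB.lab
  have haA : a ∈ A.erase u := (mem_nbr.mp hL.ha).1
  have hins : insert a ((A.erase u).erase a) = A.erase u := Finset.insert_erase haA
  have h5 : 5 ≤ dg A E a := h.five a (Finset.mem_of_mem_erase haA)
  have hX := hF.card_ext
  have h4 := hF.card_ne_four
  by_contra hlt
  have hc5 : (nbr ((A.erase u).erase a) (E : Set (Sym2 V)) a).card = 5 := by omega
  obtain ⟨hd, he⟩ := hF.notMem_E
  -- no external neighbour is at rest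
  have hNC : ∀ᶠ p in gen k (V → Vec k),
      ∀ y ∈ extN ((A.erase u).erase a) (E : Set (Sym2 V)) a b c,
      ∃ Z ∈ Kg ((A.erase u).erase a) (E : Set (Sym2 V)) p b c d e, Z y ≠ 0 := by
    filter_upwards [eventually_nice (k := k) A] with p hp y hy
    by_contra hcon
    push Not at hcon
    obtain ⟨⟨hyU, hay⟩, hyb, hyc⟩ := mem_extN.mp hy
    have hyA : y ∈ A := Finset.mem_of_mem_erase (Finset.mem_of_mem_erase hyU)
    have h1 := h.rigid_of_rest hB hab hac hbc hde hp hyU hcon
    have h2 := hN p hp y hyA h1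
    rw [hL.eq] at h2
    simp only [Finset.mem_insert, Finset.mem_singleton] at h2
    rcases h2 with rfl | rfl | rfl | rfl | rfl
    · exact (Finset.ne_of_mem_erase hyU) rfl
    · exact hyb rfl
    · exact hyc rfl
    · exact hd hay
    · exact he hay
  have hD := hF.dstar hc5 hNC
  -- the three external neighbours
  obtain ⟨x, y, z, hxy, hxz, hyz, hXeq⟩ := Finset.card_eq_three.mp
    (show (extN ((A.erase u).erase a) (E : Set (Sym2 V)) a b c).card = 3 by omega)
  have hmem : ∀ v ∈ extN ((A.erase u).erase a) (E : Set (Sym2 V)) a b c,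
      s(a, v) ∈ E ∧ v ≠ u := by
    intro v hv
    obtain ⟨⟨hvU, hav⟩, -, -⟩ := mem_extN.mp hv
    exact ⟨by exact_mod_cast hav, Finset.ne_of_mem_erase (Finset.mem_of_mem_erase hvU)⟩
  have hx := hmem x (by rw [hXeq]; simp)
  have hy := hmem y (by rw [hXeq]; simp)
  have hz := hmem z (by rw [hXeq]; simp)
  refine h.no_Dstar hB hx.1 hy.1 hz.1 hx.2 hy.2 hz.2 hxy hxz hyz (Eventually.frequently ?_)
  filter_upwards [hD] with p hp t ht hTB
  rw [← hins] at hTB
  obtain ⟨c', hc'⟩ := hp t ht hTB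
  refine ⟨c' x, c' y, c' z, ?_⟩
  rw [hc'.q, hXeq, Finset.sum_insert (by simp [hxy, hxz]), Finset.sum_pair hyz, add_assoc]

end MinCE

end GR
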