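import Pool.Agent.Lib.GR.BLocDef

/-!
# Decomposition of the star of a stress of a good flat along maximal cliques, and counting
-/

set_option linter.unusedSectionVars false

namespace GR

open Filter Module

open scoped Matrix

variable {k : Type*} [Field k] {V : Type*} [DecidableEq V]

/-- **Star decomposition (U2).** -/
theorem exists_star {A : Finset V} {D : Finset (Sym2 V)} {p : V → Vec k} {v : V}
    (hv : v ∈ A) (hD : IsFlatIn A D p) (hp : GenPos p (A : Set V)) (hgood : GoodAt A p)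
    {ω : Sym2 V → k} (hω : ω ∈ Stress D p) :
    ∃ (J : Finset (Finset V)) (a : Finset V → V → k),
      (∀ N ∈ J, MaxCl A D v N) ∧
      (∀ N ∈ J, ∀ y, a N y ≠ 0 → y ∈ N) ∧
      (∀ N ∈ J, ∃ c₁ : k, ∑ y ∈ N, a N y • p y = c₁ • p v) ∧
      (∀ N ∈ J, 4 ≤ (sset N (a N)).card) ∧
      (∀ y, y ≠ v → ω s(v, y) = ∑ N ∈ J, a N y) ∧
      ∀ J' ⊆ J, 2 ≤ J'.card →
        ∑ N ∈ J', (2 * (N.card : ℤ) - 3) + 4 ≤ 2 * ((J'.biUnion id).card : ℤ) := by
  classical
  have hg : Good D p := hgood A subset_rfl D hD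
  have hcount := countAt_of_good hv hD hp (fun W hW _ => hgood W hW _ (hD.rest hW))
  obtain ⟨a, ha, hsum⟩ := star_of_mem_S5 (A := A) (v := v) hD.1 (hg hω)
  set J := (bigCl A D v).filter fun N => ∃ w, a N w ≠ 0 with hJ
  have hJsub : J ⊆ bigCl A D v := Finset.filter_subset _ _
  refine ⟨J, a, fun N hN => (mem_bigCl.mp (hJsub hN)).1, fun N hN => (ha N (hJsub hN)).1,
    fun N hN => (ha N (hJsub hN)).2, ?_, ?_, fun J' hJ' h2 => hcount J' (hJ'.trans hJsub) h2⟩
  · intro N hN
    obtain ⟨w, hw⟩ := (Finset.mem_filter.mp hN).2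
    obtain ⟨c, hc⟩ := (ha N (hJsub hN)).2
    have hmax := (mem_bigCl.mp (hJsub hN)).1
    obtain ⟨T, hT, hT'⟩ := four_le_of_dep hmax.notMem (hp.mono (by
        intro x hx
        rcases hx with rfl | hx
        · exact_mod_cast hv
        · exact_mod_cast Finset.mem_of_mem_erase (hmax.sub (by exact_mod_cast hx)))) hc
      ⟨w, (ha N (hJsub hN)).1 w hw, hw⟩
    refine hT.trans (Finset.card_le_card fun y hy => mem_sset.mpr ⟨?_, hT' y hy⟩)
    exact (ha N (hJsub hN)).1 y (hT' y hy)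
  · intro w hwv
    rw [hsum w hwv]
    symm
    refine Finset.sum_filter_of_ne fun N _ hN => ⟨w, hN⟩

/-- The set of points covered exactly once by the supports. -/
noncomputable def once (J : Finset (Finset V)) (a : Finset V → V → k) : Finset V :=
  sset (J.biUnion id) fun w => if (J.filter fun N => w ∈ sset N (a N)).card = 1 then (1 : k) else 0

lemma mem_once {J : Finset (Finset V)} {a : Finset V → V → k} {w : V} :
    w ∈ once J a ↔ (J.filter fun N => w ∈ sset N (a N)).card = 1 := by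
  unfold once
  rw [mem_sset]
  constructor
  · rintro ⟨-, h⟩
    by_contra hcon
    simp [hcon] at h
  · intro h
    refine ⟨?_, by simp [h]⟩
    obtain ⟨N, hN⟩ := Finset.card_eq_one.mp h
    have hmem : N ∈ J.filter fun N => w ∈ sset N (a N) := by rw [hN]; simp
    obtain ⟨h1, h2⟩ := Finset.mem_filter.mp hmem
    exact Finset.mem_biUnion.mpr ⟨N, h1, (mem_sset.mp h2).1⟩

lemma mem_once_iff {J : Finset (Finset V)} {a : Finset V → V → k} {w : V} :
    w ∈ once J a ↔ ∃ N ∈ J, w ∈ sset N (a N) ∧ ∀ M ∈ J, w ∈ sset M (a M) → M = N := by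
  rw [mem_once, Finset.card_eq_one]
  constructor
  · rintro ⟨N, hN⟩
    have hmem : N ∈ J.filter fun N => w ∈ sset N (a N) := by rw [hN]; simp
    obtain ⟨h1, h2⟩ := Finset.mem_filter.mp hmem
    refine ⟨N, h1, h2, fun M hM hwM => ?_⟩
    have : M ∈ J.filter fun N => w ∈ sset N (a N) := Finset.mem_filter.mpr ⟨hM, hwM⟩
    rw [hN, Finset.mem_singleton] at this
    exact this
  · rintro ⟨N, hN, hw, huniq⟩
    refine ⟨N, ?_⟩
    ext M
    rw [Finset.mem_filter, Finset.mem_singleton]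
    constructor
    · rintro ⟨h1, h2⟩; exact huniq M h1 h2
    · rintro rfl; exact ⟨hN, hw⟩

/-- Points covered exactly once lie in the support of the sum. -/
lemma sum_ne_zero_of_once {J : Finset (Finset V)} {a : Finset V → V → k}
    (hsupp : ∀ N ∈ J, ∀ y, a N y ≠ 0 → y ∈ N) {w : V} (hw : w ∈ once J a) :
    (∑ N ∈ J, a N w) ≠ 0 := by
  obtain ⟨N, hN, hwN, huniq⟩ := mem_once_iff.mp hw
  rw [Finset.sum_eq_single_of_mem N hN]
  · exact (mem_sset.mp hwN).2
  · intro M hM hne
    by_contra hcon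
    exact hne (huniq M hM (mem_sset.mpr ⟨hsupp M hM w hcon, hcon⟩))

/-- **Counting.** -/
theorem sum_sset_le_once {J : Finset (Finset V)} {a : Finset V → V → k}
    (hcount : ∑ N ∈ J, (2 * (N.card : ℤ) - 3) + 4 ≤ 2 * ((J.biUnion id).card : ℤ)) :
    ∃ s₀ : ℤ, 2 * s₀ ≤ 3 * J.card - 4 ∧
      ∑ N ∈ J, ((sset N (a N)).card : ℤ) ≤ (once J a).card + 2 * s₀ := by
  classical
  set W := J.biUnion id with hW
  have hm : ∀ w : V, (J.filter fun N => w ∈ sset N (a N)).card ≤ (J.filter fun N => w ∈ N).card := by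
    intro w
    refine Finset.card_le_card fun N hN => ?_
    rw [Finset.mem_filter] at hN ⊢
    exact ⟨hN.1, (mem_sset.mp hN.2).1⟩
  have hsumN : ∑ N ∈ J, (N.card : ℤ) = ∑ w ∈ W, ((J.filter fun N => w ∈ N).card : ℤ) := by
    have h1 : ∀ N ∈ J, (N.card : ℤ) = ∑ w ∈ W, if w ∈ N then (1 : ℤ) else 0 := by
      intro N hN
      rw [← Finset.sum_filter, Finset.sum_const, nsmul_eq_mul, mul_one]
      have : W.filter (· ∈ N) = N := by
        ext w
        rw [Finset.mem_filter, hW, Finset.mem_biUnion]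
        exact ⟨fun h => h.2, fun h => ⟨⟨N, hN, h⟩, h⟩⟩
      rw [this]
    rw [Finset.sum_congr rfl h1, Finset.sum_comm]
    refine Finset.sum_congr rfl fun w _ => ?_
    rw [← Finset.sum_filter, Finset.sum_const, nsmul_eq_mul, mul_one]
  have hsumU : ∑ N ∈ J, ((sset N (a N)).card : ℤ)
      = ∑ w ∈ W, ((J.filter fun N => w ∈ sset N (a N)).card : ℤ) := by
    have h1 : ∀ N ∈ J, ((sset N (a N)).card : ℤ)
        = ∑ w ∈ W, if w ∈ sset N (a N) then (1 : ℤ) else 0 := by
      intro N hN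
      rw [← Finset.sum_filter, Finset.sum_const, nsmul_eq_mul, mul_one]
      have : W.filter (· ∈ sset N (a N)) = sset N (a N) := by
        ext w
        rw [Finset.mem_filter, hW, Finset.mem_biUnion]
        exact ⟨fun h => h.2, fun h => ⟨⟨N, hN, (mem_sset.mp h).1⟩, h⟩⟩
      rw [this]
    rw [Finset.sum_congr rfl h1, Finset.sum_comm]
    refine Finset.sum_congr rfl fun w _ => ?_
    rw [← Finset.sum_filter, Finset.sum_const, nsmul_eq_mul, mul_one]
  have hmpos : ∀ w ∈ W, 1 ≤ (J.filter fun N => w ∈ N).card := by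
    intro w hw
    rw [hW, Finset.mem_biUnion] at hw
    obtain ⟨N, hN, hwN⟩ := hw
    exact Finset.card_pos.mpr ⟨N, Finset.mem_filter.mpr ⟨hN, hwN⟩⟩
  have hO : ((once J a).card : ℤ)
      = ∑ w ∈ W, (if (J.filter fun N => w ∈ sset N (a N)).card = 1 then (1 : ℤ) else 0) := by
    rw [← Finset.sum_filter, Finset.sum_const, nsmul_eq_mul, mul_one]
    congr 2
    ext w
    rw [mem_once, Finset.mem_filter]
    refine ⟨fun h => ⟨?_, h⟩, fun h => h.2⟩
    obtain ⟨N, hN⟩ := Finset.card_eq_one.mp h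
    have hmem : N ∈ J.filter fun N => w ∈ sset N (a N) := by rw [hN]; simp
    obtain ⟨h1, h2⟩ := Finset.mem_filter.mp hmem
    exact Finset.mem_biUnion.mpr ⟨N, h1, (mem_sset.mp h2).1⟩
  refine ⟨∑ w ∈ W, (((J.filter fun N => w ∈ N).card : ℤ) - 1), ?_, ?_⟩
  · rw [Finset.sum_sub_distrib, ← hsumN, Finset.sum_const, nsmul_eq_mul, mul_one]
    rw [Finset.sum_sub_distrib, ← Finset.mul_sum, Finset.sum_const, nsmul_eq_mul] at hcount
    linarith
  · rw [hO, hsumU, Finset.mul_sum, ← Finset.sum_add_distrib]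
    refine Finset.sum_le_sum fun w hw => ?_
    have h1 := hm w
    have h3 := hmpos w hw
    split_ifs with h
    · omega
    · omega

/-- two members meet in at most one point -/
lemma inter_card_le_one {J : Finset (Finset V)}
    (hcount : ∀ J' ⊆ J, 2 ≤ J'.card →
      ∑ N ∈ J', (2 * (N.card : ℤ) - 3) + 4 ≤ 2 * ((J'.biUnion id).card : ℤ))
    {N M : Finset V} (hN : N ∈ J) (hM : M ∈ J) (hne : N ≠ M) : (N ∩ M).card ≤ 1 := by
  have h := hcount {N, M} (by
    intro x hx
    simp only [Finset.mem_insert, Finset.mem_singleton] at hx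
    rcases hx with rfl | rfl <;> assumption) (by rw [Finset.card_pair hne])
  rw [Finset.sum_pair hne, Finset.biUnion_insert, Finset.singleton_biUnion] at h
  have h2 := Finset.card_union_add_card_inter N M
  simp only [id] at h
  have h3 : ((N ∪ M).card : ℤ) + (N ∩ M).card = N.card + M.card := by exact_mod_cast h2
  have : ((N ∩ M).card : ℤ) ≤ 1 := by linarith
  exact_mod_cast this

end GR
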