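import Pool.Agent.Lib.GR.BLocKg
import Pool.Agent.Lib.GR.BLocStar

/-!
# The frame at a body vertex of a type B vertex
-/

set_option linter.unusedSectionVars false

namespace GR

open Filter Module

open scoped Matrix

variable {k : Type*} [Field k] {V : Type*} [DecidableEq V]

/-- combinatorial part of the frame hypotheses -/
structure FrameComb (U : Finset V) (w b c d e : V) (E : Set (Sym2 V)) : Prop where
  hw : w ∉ U
  hb : b ∈ U
  hc : c ∈ U
  hd : d ∈ U
  he : e ∈ U
  hbc : b ≠ c
  hbd : b ≠ d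
  hbe : b ≠ e
  hcd : c ≠ d
  hce : c ≠ e
  hde : d ≠ e
  ewb : s(w, b) ∈ E
  ewc : s(w, c) ∈ E
  ebc : s(b, c) ∈ E
  ede : s(d, e) ∈ E

lemma FrameHyp.comb [Infinite k] {U : Finset V} {w b c d e : V} {E : Set (Sym2 V)}
    (h : FrameHyp k U w b c d e E) : FrameComb U w b c d e E :=
  ⟨h.hw, h.hb, h.hc, h.hd, h.he, h.hbc, h.hbd, h.hbe, h.hcd, h.hce, h.hde, h.ewb, h.ewc, h.ebc,
    h.ede⟩

section At

variable {U : Finset V} {w b c d e : V} {E : Set (Sym2 V)} {p : V → Vec k} {t : k}

lemma mem_extN {y : V} : y ∈ extN U E w b c ↔ (y ∈ U ∧ s(w, y) ∈ E) ∧ y ≠ b ∧ y ≠ c := by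
  simp [extN, mem_nbr]

lemma FrameComb.wne (h : FrameComb U w b c d e E) {y : V} (hy : y ∈ U) : y ≠ w := fun h' =>
  h.hw (h' ▸ hy)

/-- three points in general position as a family -/
lemma GenPos.three {N : Set V} (h : GenPos p N) {x y z u : V} (hx : x ∈ N)
    (hy : y ∈ N) (hz : z ∈ N) (hu : u ∈ N) (hxy : x ≠ y) (hxz : x ≠ z) (hxu : x ≠ u)
    (hyz : y ≠ z) (hyu : y ≠ u) (hzu : z ≠ u) : LinearIndependent k ![p x, p y, p z] := by
  have h4 := h.four hx hy hz hu hxy hxz hxu hyz hyu hzu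
  have := h4.comp (![0, 1, 2] : Fin 3 → Fin 4) (by decide)
  convert this using 1
  ext i
  fin_cases i <;> rfl

/-- the gauged motions of `G - u` -/
lemma mem_Wg_iff (h : FrameComb U w b c d e E) (hgp : GenPos p (insert w U : Set V))
    (hTB : Mot (insert w U) E p ≤ TB p w b c d e t) (Z : V → Vec k) :
    Z ∈ Wg (Kg U E p b c d e) (extN U E w b c) (p w) ↔
      Z ∈ Mot (insert w U) E p ∧ Z w = 0 ∧ Z b = 0 ∧ Z c = 0 := by
  constructor
  · rintro ⟨hK, hX⟩
    have hZw : Z w = 0 := hK.1.1 w h.hw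
    refine ⟨⟨fun v hv => hK.1.1 v fun hvU => hv (by simp [hvU]), fun v hv => ?_, ?_⟩, hZw,
      Kg_zb hK, Kg_zc hK⟩
    · rcases Finset.mem_insert.mp hv with rfl | hv
      · rw [hZw, zero_dotProduct]
      · exact Kg_loop hK hv
    · have key : ∀ y ∈ U, s(w, y) ∈ E → eps p w y Z = 0 := by
        intro y hy hwy
        rw [eps_apply, hZw, zero_dotProduct, zero_add]
        by_cases hyb : y = b
        · rw [hyb, Kg_zb hK, zero_dotProduct]
        · by_cases hyc : y = c
          · rw [hyc, Kg_zc hK, zero_dotProduct]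
          · exact hX y (mem_extN.mpr ⟨⟨hy, hwy⟩, hyb, hyc⟩)
      intro x hx y hy hxy
      rcases Finset.mem_insert.mp hx with hx' | hx'
      · rcases Finset.mem_insert.mp hy with hy' | hy'
        · rw [hx', hy', eps_apply, hZw]; simp
        · rw [hx'] at hxy ⊢
          exact key y hy' hxy
      · rcases Finset.mem_insert.mp hy with hy' | hy'
        · rw [hy', Sym2.eq_swap] at hxy
          rw [hy', eps_comm]
          exact key x hx' hxy
        · exact hK.1.2.2 x hx' y hy' hxy
  · rintro ⟨hM, hZw, hZb, hZc⟩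
    obtain ⟨S, hS, g, h1, h2, h3, h4, h5, h6, h7⟩ := hTB hM
    have hin : ∀ v ∈ U, v ∈ (insert w U : Set V) := fun v hv => Or.inr hv
    have hS0 : S = 0 := hS.eq_zero_of_three
      (hgp.three (Or.inl rfl) (hin b h.hb) (hin c h.hc) (hin d h.hd) (h.wne h.hb).symm
        (h.wne h.hc).symm (h.wne h.hd).symm h.hbc h.hbd h.hcd)
      (by rw [← h3, hZw]) (by rw [← h4, hZb]) (by rw [← h5, hZc])
    have hZd : Z d = g := by rw [h6, hS0]; simp
    refine ⟨⟨⟨fun v hv => ?_, fun v hv => hM.2.1 v (by simp [hv]), fun x hx y hy hxy =>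
      hM.2.2 x (by simp [hx]) y (by simp [hy]) hxy⟩, hZb, hZc, by rw [hZd]; exact h2⟩, ?_⟩
    · by_cases hvw : v = w
      · rw [hvw, hZw]
      · exact hM.1 v (by simp [hvw, hv])
    · intro y hy
      have hy' := mem_extN.mp hy
      have := hM.2.2 w (by simp) y (by simp [hy'.1.1]) hy'.1.2
      rwa [eps_apply, hZw, zero_dotProduct, zero_add] at this

/-- ratio of the rod -/
lemma Wg_ratio (h : FrameComb U w b c d e E) (hgp : GenPos p (insert w U : Set V))
    (hTB : Mot (insert w U) E p ≤ TB p w b c d e t) {Z : V → Vec k}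
    (hZ : Z ∈ Wg (Kg U E p b c d e) (extN U E w b c) (p w)) : Z e = t • Z d := by
  obtain ⟨hM, hZw, hZb, hZc⟩ := (mem_Wg_iff h hgp hTB Z).mp hZ
  obtain ⟨S, hS, g, h1, h2, h3, h4, h5, h6, h7⟩ := hTB hM
  have hin : ∀ v ∈ U, v ∈ (insert w U : Set V) := fun v hv => Or.inr hv
  have hS0 : S = 0 := hS.eq_zero_of_three
    (hgp.three (Or.inl rfl) (hin b h.hb) (hin c h.hc) (hin d h.hd) (h.wne h.hb).symm
      (h.wne h.hc).symm (h.wne h.hd).symm h.hbc h.hbd h.hcd)
    (by rw [← h3, hZw]) (by rw [← h4, hZb]) (by rw [← h5, hZc])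
  rw [h7, h6, hS0]
  simp

/-- the trivial motions of `G - u` as a submodule -/
lemma triv_le_RG (A : Finset V) {N : Set V} (hN : N ⊆ A) (p : V → Vec k) :
    (Skew k).map (triv A p) ≤ RG p N := by
  rintro _ ⟨L, hL, rfl⟩
  exact ⟨Matrix.mulVecLin L, isSkew_of_mem_Skew hL, fun i hi => by
    rw [triv_apply p L (by exact_mod_cast hN hi), Matrix.mulVecLin_apply]⟩

lemma finrank_triv {A : Finset V} {p : V → Vec k} (hp : GenPos p (A : Set V)) (hA : 3 ≤ A.card) :
    finrank k ((Skew k).map (triv A p)) = 6 := by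
  obtain ⟨T, hTA, hT⟩ := Finset.exists_subset_card_eq hA
  have hli := hp T (by simpa using hTA) (by omega)
  rw [← finrank_Skew (k := k)]
  let f : Skew k →ₗ[k] (Skew k).map (triv A p) :=
    ((triv A p).domRestrict (Skew k)).codRestrict _ (fun L => ⟨L.1, L.2, rfl⟩)
  have hf : Function.Bijective f := by
    constructor
    · rw [← LinearMap.ker_eq_bot, LinearMap.ker_eq_bot']
      intro L hL
      have h0 : triv A p L.1 = 0 := congrArg Subtype.val hL
      have : L.1 = 0 := by
        refine skew_eq_zero L.2 hli (by simp [hT]) fun i => ?_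
        have := congrFun h0 i
        rwa [triv_apply p L.1 (hTA i.2)] at this
      exact Subtype.ext this
    · rintro ⟨_, L, hL, rfl⟩
      exact ⟨⟨L, hL⟩, rfl⟩
  exact (LinearEquiv.ofBijective f hf).finrank_eq.symm

lemma FrameComb.three_le (h : FrameComb U w b c d e E) : 3 ≤ U.card := by
  have hsub : ({b, c, d} : Finset V) ⊆ U := by
    intro x hx
    simp only [Finset.mem_insert, Finset.mem_singleton] at hx
    rcases hx with rfl | rfl | rfl
    exacts [h.hb, h.hc, h.hd]
  have := Finset.card_le_card hsub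
  rwa [Finset.card_insert_of_notMem (by simp [h.hbc, h.hbd]),
    Finset.card_insert_of_notMem (by simp [h.hcd]), Finset.card_singleton] at this

lemma Wg_inj (h : FrameComb U w b c d e E) (hgp : GenPos p (insert w U : Set V))
    (hTB : Mot (insert w U) E p ≤ TB p w b c d e t)
    (hinj : finrank k (Mot (insert w U) E p ⊓
      RG p ({w, b, c, d, e} : Set V) : Submodule k (V → Vec k)) ≤ 6) {Z : V → Vec k}
    (hZ : Z ∈ Wg (Kg U E p b c d e) (extN U E w b c) (p w)) (hZd : Z d = 0) : Z = 0 := by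
  classical
  obtain ⟨hM, hZw, hZb, hZc⟩ := (mem_Wg_iff h hgp hTB Z).mp hZ
  have hZe : Z e = 0 := by rw [Wg_ratio h hgp hTB hZ, hZd, smul_zero]
  have hgp' : GenPos p ((insert w U : Finset V) : Set V) := by rwa [Finset.coe_insert]
  have hcard : 3 ≤ (insert w U).card := h.three_le.trans (Finset.card_le_card (by simp))
  have hT := finrank_triv hgp' hcard
  have hle : (Skew k).map (triv (insert w U) p) ≤ Mot (insert w U) E p ⊓
      RG p ({w, b, c, d, e} : Set V) := by
    refine le_inf ?_ (triv_le_RG _ ?_ p)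
    · rintro _ ⟨L, hL, rfl⟩
      exact triv_mem_Mot _ E p hL
    · intro x hx
      simp only [Set.mem_insert_iff, Set.mem_singleton_iff] at hx
      rw [Finset.coe_insert]
      rcases hx with rfl | rfl | rfl | rfl | rfl
      exacts [Or.inl rfl, Or.inr h.hb, Or.inr h.hc, Or.inr h.hd, Or.inr h.he]
  have : FiniteDimensional k (Mot (insert w U) E p ⊓
      RG p ({w, b, c, d, e} : Set V) : Submodule k (V → Vec k)) :=
    Submodule.finiteDimensional_of_le inf_le_left
  have heq := Submodule.eq_of_le_of_finrank_le hle (by rw [hT]; exact hinj)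
  have hmem : Z ∈ Mot (insert w U) E p ⊓ RG p ({w, b, c, d, e} : Set V) := by
    refine ⟨hM, 0, IsSkew.zero, fun i hi => ?_⟩
    simp only [Set.mem_insert_iff, Set.mem_singleton_iff] at hi
    rcases hi with rfl | rfl | rfl | rfl | rfl <;> simp [*]
  rw [← heq] at hmem
  obtain ⟨L, hL, rfl⟩ := hmem
  have hin : ∀ v ∈ U, v ∈ (insert w U : Set V) := fun v hv => Or.inr hv
  have hL0 : L = 0 := by
    refine skew_eq_zero hL (hgp.three (Or.inl rfl) (hin b h.hb) (hin c h.hc) (hin d h.hd)
      (h.wne h.hb).symm (h.wne h.hc).symm (h.wne h.hd).symm h.hbc h.hbd h.hcd) (by simp)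
      fun i => ?_
    fin_cases i
    · have := hZw; rwa [triv_apply p L (by simp)] at this
    · have := hZb; rwa [triv_apply p L (by simp [h.hb])] at this
    · have := hZc; rwa [triv_apply p L (by simp [h.hc])] at this
  rw [hL0, map_zero]

/-- decomposition of the motions of `G - u` -/
lemma exists_Wg_add_triv (h : FrameComb U w b c d e E) (hgp : GenPos p (insert w U : Set V))
    (hTB : Mot (insert w U) E p ≤ TB p w b c d e t) {Z : V → Vec k}
    (hZ : Z ∈ Mot (insert w U) E p) : ∃ L ∈ Skew k,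
      Z - triv (insert w U) p L ∈ Wg (Kg U E p b c d e) (extN U E w b c) (p w) := by
  obtain ⟨S, hS, g, h1, h2, h3, h4, h5, h6, h7⟩ := hTB hZ
  have hL := Skew_of_isSkew hS
  refine ⟨_, hL, (mem_Wg_iff h hgp hTB _).mpr ⟨Submodule.sub_mem _ hZ (triv_mem_Mot _ E p hL),
    ?_, ?_, ?_⟩⟩
  · rw [Pi.sub_apply, triv_apply p _ (by simp), LinearMap.toMatrix'_mulVec, h3, sub_self]
  · rw [Pi.sub_apply, triv_apply p _ (by simp [h.hb]), LinearMap.toMatrix'_mulVec, h4, sub_self]
  · rw [Pi.sub_apply, triv_apply p _ (by simp [h.hc]), LinearMap.toMatrix'_mulVec, h5, sub_self]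

lemma finrank_Wg (h : FrameComb U w b c d e E) (hgp : GenPos p (insert w U : Set V))
    (hTB : Mot (insert w U) E p ≤ TB p w b c d e t) :
    finrank k (Wg (Kg U E p b c d e) (extN U E w b c) (p w)) + 6 = mdim (insert w U) E p := by
  classical
  set W := Wg (Kg U E p b c d e) (extN U E w b c) (p w) with hW
  set T := (Skew k).map (triv (insert w U) p) with hT
  have hgp' : GenPos p ((insert w U : Finset V) : Set V) := by rwa [Finset.coe_insert]
  have hcard : 3 ≤ (insert w U).card := h.three_le.trans (Finset.card_le_card (by simp))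
  have hT6 := finrank_triv hgp' hcard
  have hWle : W ≤ Mot (insert w U) E p := fun Z hZ => ((mem_Wg_iff h hgp hTB Z).mp hZ).1
  have hTle : T ≤ Mot (insert w U) E p := by
    rintro _ ⟨L, hL, rfl⟩
    exact triv_mem_Mot _ E p hL
  have hin : ∀ v ∈ U, v ∈ (insert w U : Set V) := fun v hv => Or.inr hv
  have hinf : W ⊓ T = ⊥ := by
    rw [eq_bot_iff]
    rintro _ ⟨hZ, L, hL, rfl⟩
    obtain ⟨hM, hZw, hZb, hZc⟩ := (mem_Wg_iff h hgp hTB _).mp hZ
    have hL0 : L = 0 := by
      refine skew_eq_zero hL (hgp.three (Or.inl rfl) (hin b h.hb) (hin c h.hc) (hin d h.hd)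
        (h.wne h.hb).symm (h.wne h.hc).symm (h.wne h.hd).symm h.hbc h.hbd h.hcd) (by simp)
        fun i => ?_
      fin_cases i
      · have := hZw; rwa [triv_apply p L (by simp)] at this
      · have := hZb; rwa [triv_apply p L (by simp [h.hb])] at this
      · have := hZc; rwa [triv_apply p L (by simp [h.hc])] at this
    rw [hL0, map_zero]
    exact Submodule.zero_mem _
  have hsup : W ⊔ T = Mot (insert w U) E p := by
    refine le_antisymm (sup_le hWle hTle) fun Z hZ => ?_
    obtain ⟨L, hL, h'⟩ := exists_Wg_add_triv h hgp hTB hZ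
    have : Z = (Z - triv (insert w U) p L) + triv (insert w U) p L := by abel
    rw [this]
    exact Submodule.add_mem_sup h' ⟨L, hL, rfl⟩
  have : FiniteDimensional k W := Submodule.finiteDimensional_of_le hWle
  have : FiniteDimensional k T := Submodule.finiteDimensional_of_le hTle
  have h1 := Submodule.finrank_sup_add_finrank_inf_eq W T
  rw [hsup, hinf, finrank_bot, hT6] at h1
  unfold mdim
  omega

/-- the rod ends are not neighbours of `w` -/
lemma FrameComb.notMem_E (h : FrameComb U w b c d e E) (hgp : GenPos p (insert w U : Set V))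
    (ht : t ≠ 0)
    (hTB : Mot (insert w U) E p ≤ TB p w b c d e t)
    (hinj : finrank k (Mot (insert w U) E p ⊓
      RG p ({w, b, c, d, e} : Set V) : Submodule k (V → Vec k)) ≤ 6)
    (hdim : mdim (insert w U) E p = 8) : s(w, d) ∉ E ∧ s(w, e) ∉ E := by
  classical
  set W := Wg (Kg U E p b c d e) (extN U E w b c) (p w) with hW
  have hW2 : finrank k W = 2 := by
    have : finrank k W + 6 = mdim (insert w U) E p := finrank_Wg h hgp hTB
    omega
  have hin : ∀ v ∈ U, v ∈ (insert w U : Set V) := fun v hv => Or.inr hv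
  -- some element of `W` has `Z d ⬝ p w ≠ 0`
  have key : ∃ Z ∈ W, Z d ⬝ᵥ p w ≠ 0 := by
    by_contra hcon
    push Not at hcon
    -- all `Z d` are orthogonal to `p w, p d, p e`; add one more condition
    have hfd : FiniteDimensional k W := by
      have hWle : W ≤ Mot (insert w U) E p := fun Z hZ => ((mem_Wg_iff h hgp hTB Z).mp hZ).1
      exact Submodule.finiteDimensional_of_le hWle
    let φ : W →ₗ[k] k :=
      { toFun := fun Z => Z.1 d ⬝ᵥ p b
        map_add' := fun Z Z' => by simp [add_dotProduct]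
        map_smul' := fun r Z => by simp }
    have hφ : Function.Injective φ := by
      rw [← LinearMap.ker_eq_bot, LinearMap.ker_eq_bot']
      rintro ⟨Z, hZ⟩ h0
      have h0' : Z d ⬝ᵥ p b = 0 := h0
      have hli : LinearIndependent k ![p w, p d, p e, p b] :=
        hgp.four (Or.inl rfl) (hin d h.hd) (hin e h.he) (hin b h.hb) (h.wne h.hd).symm
          (h.wne h.he).symm (h.wne h.hb).symm h.hde h.hbd.symm h.hbe.symm
      have hZd : Z d = 0 := perp_four hli (hcon Z hZ) (Kg_loop hZ.1 h.hd) (Kg_de hZ.1) h0'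
      exact Subtype.ext (Wg_inj h hgp hTB hinj hZ hZd)
    have := LinearMap.finrank_le_finrank_of_injective hφ
    rw [hW2, finrank_self] at this
    omega
  obtain ⟨Z, hZ, hne⟩ := key
  obtain ⟨hM, hZw, hZb, hZc⟩ := (mem_Wg_iff h hgp hTB Z).mp hZ
  constructor
  · intro hE
    have := hM.2.2 w (by simp) d (by simp [h.hd]) hE
    rw [eps_apply, hZw, zero_dotProduct, zero_add] at this
    exact hne this
  · intro hE
    have := hM.2.2 w (by simp) e (by simp [h.he]) hE
    rw [eps_apply, hZw, zero_dotProduct, zero_add, Wg_ratio h hgp hTB hZ, smul_dotProduct,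
      smul_eq_mul] at this
    exact hne ((mul_eq_zero.mp this).resolve_left ht)

/-- **The frame at a position**, with the stress. -/
theorem xdata_at' [Infinite k] (h : FrameComb U w b c d e E) (hgp : GenPos p (insert w U : Set V))
    (ht : t ≠ 0)
    (hTB : Mot (insert w U) E p ≤ TB p w b c d e t)
    (hinj : finrank k (Mot (insert w U) E p ⊓
      RG p ({w, b, c, d, e} : Set V) : Submodule k (V → Vec k)) ≤ 6)
    (hdim : mdim (insert w U) E p = 8) (hgood : GoodAt (insert w U) p) :
    ∃ s J a, XData (Kg U E p b c d e) U (extN U E w b c) p b c d e (p w) t s J a ∧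
      ∃ ω ∈ Stress (insert s(w, e) (insert s(w, d) (inE (insert w U) E))) p,
        ω s(w, e) = 1 ∧ ω s(w, d) = -t ∧ ∀ y, y ≠ w → s y = ω s(w, y) := by
  classical
  set A : Finset V := insert w U with hA
  set K := Kg U E p b c d e with hK
  set X := extN U E w b c with hX
  set W := Wg K X (p w) with hW
  have hgp' : GenPos p (A : Set V) := by rwa [hA, Finset.coe_insert]
  have hAw : A.erase w = U := Finset.erase_insert h.hw
  have hwA : w ∈ A := by simp [hA]
  have hUA : ∀ v ∈ U, v ∈ A := fun v hv => by simp [hA, hv]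
  obtain ⟨hnd, hne⟩ := h.notMem_E hgp ht hTB hinj hdim
  set S : Finset (Sym2 V) := inE A E with hS
  have hSA : S ⊆ Kf A := inE_subset A E
  have hSE : ∀ f ∈ S, f ∈ E := fun f hf => (mem_inE.mp hf).2
  have hmemS : ∀ y ∈ U, s(w, y) ∈ E → s(w, y) ∈ S := fun y hy hwy =>
    mem_inE.mpr ⟨mk_mem_Kf.mpr ⟨(h.wne hy).symm, hwA, hUA y hy⟩, hwy⟩
  -- the functional
  let φ : (V → Vec k) →ₗ[k] k := eps p w e - t • eps p w d
  have hφW : ∀ Z ∈ W, φ Z = 0 := by
    intro Z hZ
    have hZw : Z w = 0 := hZ.1.1.1 w h.hw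
    simp only [φ, LinearMap.sub_apply, LinearMap.smul_apply, smul_eq_mul, eps_apply, hZw,
      zero_dotProduct, zero_add]
    rw [Wg_ratio h hgp hTB hZ, smul_dotProduct, smul_eq_mul, sub_self]
  have hφM : ∀ Z ∈ Mot A E p, φ Z = 0 := by
    intro Z hZ
    obtain ⟨L, hL, h'⟩ := exists_Wg_add_triv h hgp hTB hZ
    have h1 := hφW _ h'
    have h2 : φ (triv A p L) = 0 := by
      simp only [φ, LinearMap.sub_apply, LinearMap.smul_apply, smul_eq_mul]
      rw [eps_triv p hL hwA (hUA e h.he), eps_triv p hL hwA (hUA d h.hd), mul_zero, sub_zero]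
    rw [map_sub] at h1
    rw [← sub_eq_zero.mp h1] at h2
    exact h2
  have hφcut : ∀ Z, φ (cut k A Z) = φ Z := by
    intro Z
    simp only [φ, LinearMap.sub_apply, LinearMap.smul_apply, smul_eq_mul]
    rw [eps_cut p Z hwA (hUA e h.he), eps_cut p Z hwA (hUA d h.hd)]
  have hmem : φ.domRestrict (Mot0 p) ∈ strainSpan (Mot0 p) (S : Set (Sym2 V)) p := by
    rw [mem_strainSpan_iff' (Mot0 p) (Finset.finite_toSet S)]
    intro Z hZ h0
    rw [← hφcut Z]
    refine hφM _ ?_
    rw [← Mot_inE A E p]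
    exact cut_mem_Mot hZ fun a _ b _ hab => h0 _ hab
  obtain ⟨α, hα0, hα⟩ := exists_coeff_of_mem_strainSpan hmem
  -- the stress
  have hwdS : s(w, d) ∉ S := fun hf => hnd (hSE _ hf)
  have hweS : s(w, e) ∉ S := fun hf => hne (hSE _ hf)
  have hdene : s(w, e) ≠ s(w, d) := by
    intro h'
    rcases Sym2.eq_iff.mp h' with ⟨-, h1⟩ | ⟨h1, h2⟩
    · exact h.hde h1.symm
    · exact h.wne h.hd h1.symm
  let ω : Sym2 V → k := fun f =>
    (if f = s(w, e) then 1 else 0) + (if f = s(w, d) then -t else 0) - α f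
  have hωe : ω s(w, e) = 1 := by
    simp [ω, hdene, hα0 _ hweS]
  have hωd : ω s(w, d) = -t := by
    simp [ω, hdene.symm, hα0 _ hwdS]
  set F₁ : Finset (Sym2 V) := insert s(w, d) S with hF₁
  set F : Finset (Sym2 V) := insert s(w, e) F₁ with hF
  have hF₁A : F₁ ⊆ Kf A := by
    rw [hF₁]
    exact Finset.insert_subset (mk_mem_Kf.mpr ⟨(h.wne h.hd).symm, hwA, hUA d h.hd⟩) hSA
  have hFA : F ⊆ Kf A := by
    rw [hF]
    exact Finset.insert_subset (mk_mem_Kf.mpr ⟨(h.wne h.he).symm, hwA, hUA e h.he⟩) hF₁A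
  have hweF₁ : s(w, e) ∉ F₁ := by
    rw [hF₁, Finset.mem_insert]
    rintro (h' | h')
    · exact hdene h'
    · exact hweS h'
  have hωS : ∀ f ∈ S, ω f = - α f := by
    intro f hf
    have h1 : f ≠ s(w, e) := fun h' => hweS (h' ▸ hf)
    have h2 : f ≠ s(w, d) := fun h' => hwdS (h' ▸ hf)
    simp [ω, h1, h2]
  have hω : ω ∈ Stress F p := by
    refine ⟨fun f hf => ?_, fun Z hZ => ?_⟩
    · rw [hF, Finset.mem_insert, hF₁, Finset.mem_insert] at hf
      push Not at hf
      simp [ω, hf.1, hf.2.1, hα0 f hf.2.2]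
    · rw [hF, Finset.sum_insert hweF₁, hF₁, Finset.sum_insert hwdS, hωe, hωd,
        Finset.sum_congr rfl (fun f hf => by rw [hωS f hf])]
      have h1 := hα Z hZ
      simp only [φ, LinearMap.sub_apply, LinearMap.smul_apply, smul_eq_mul] at h1
      simp only [epsS_mk, neg_mul, Finset.sum_neg_distrib]
      rw [← h1]
      ring
  -- the closure
  set D := clF A F₁ p with hD
  have hDflat : IsFlatIn A D p := isFlatIn_clF A F₁ p
  have hMF₁ : ∀ Z ∈ Mot A (F₁ : Set (Sym2 V)) p, Z ∈ Mot A E p ∧ eps p w d Z = 0 := by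
    intro Z hZ
    refine ⟨?_, hZ.2.2 w hwA d (hUA d h.hd) (by simp [F₁])⟩
    rw [← Mot_inE A E p]
    exact Mot_anti (by rw [hF₁, Finset.coe_insert]; exact Set.subset_insert _ _) p hZ
  have hFD : F ⊆ D := by
    rw [hF]
    refine Finset.insert_subset ?_ (subset_clF hF₁A p)
    rw [hD, mem_clF]
    refine ⟨mk_mem_Kf.mpr ⟨(h.wne h.he).symm, hwA, hUA e h.he⟩, ?_⟩
    rw [mem_clo_iff_Mot hF₁A hwA (hUA e h.he)]
    intro Z hZ
    obtain ⟨h1, h2⟩ := hMF₁ Z hZ
    have h3 := hφM Z h1
    simp only [φ, LinearMap.sub_apply, LinearMap.smul_apply, smul_eq_mul, h2, mul_zero,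
      sub_zero] at h3
    exact h3
  have hωD : ω ∈ Stress D p := Stress_mono hFD p hω
  obtain ⟨J, a, hJmax, hasupp, hadep, hafour, hasum, hcount⟩ :=
    exists_star hwA hDflat hgp' hgood hωD
  let s : V → k := fun y => if y = w then 0 else ω s(w, y)
  have hs : ∀ y, y ≠ w → s y = ω s(w, y) := fun y hy => by simp [s, hy]
  -- the neighbours of w
  have hnbrS : ∀ y ∈ U, s(w, y) ∈ S → y = b ∨ y = c ∨ y ∈ X := by
    intro y hy hyS
    by_cases hyb : y = b
    · exact Or.inl hyb
    · by_cases hyc : y = c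
      · exact Or.inr (Or.inl hyc)
      · exact Or.inr (Or.inr (mem_extN.mpr ⟨⟨hy, hSE _ hyS⟩, hyb, hyc⟩))
  have hsupp : ∀ y, s y ≠ 0 → y = b ∨ y = c ∨ y = d ∨ y = e ∨ y ∈ X := by
    intro y hy
    have hyw : y ≠ w := by
      rintro rfl
      simp [s] at hy
    rw [hs y hyw] at hy
    have hyF : s(w, y) ∈ F := by
      by_contra hcon
      exact hy (hω.1 _ hcon)
    rw [hF, Finset.mem_insert, hF₁, Finset.mem_insert] at hyF
    rcases hyF with h' | h' | h'
    · rcases Sym2.eq_iff.mp h' with ⟨-, h1⟩ | ⟨h1, h2⟩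
      · exact Or.inr (Or.inr (Or.inr (Or.inl h1)))
      · exact absurd h2 hyw
    · rcases Sym2.eq_iff.mp h' with ⟨-, h1⟩ | ⟨h1, h2⟩
      · exact Or.inr (Or.inr (Or.inl h1))
      · exact absurd h2 hyw
    · have hyU : y ∈ U := by
        have := (mk_mem_Kf.mp (hSA h')).2.2
        rw [hA, Finset.mem_insert] at this
        exact this.resolve_left hyw
      rcases hnbrS y hyU h' with h1 | h1 | h1
      · exact Or.inl h1
      · exact Or.inr (Or.inl h1)
      · exact Or.inr (Or.inr (Or.inr (Or.inr h1)))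
  refine ⟨s, J, a, ⟨ht, ?_, fun Z hZ => Wg_ratio h hgp hTB hZ,
    fun Z hZ hZd => Wg_inj h hgp hTB hinj hZ hZd, ?_, ?_, hsupp, ?_, ?_, ?_, ?_, ?_, hasupp, hadep,
    hafour, ?_, hcount⟩, ω, hω, hωe, hωd, hs⟩
  · have h9 : finrank k (Wg K X (p w)) + 6 = mdim A E p := finrank_Wg h hgp hTB
    show finrank k (Wg K X (p w)) = 2
    rw [hdim] at h9
    omega
  · rw [hs e (h.wne h.he), hωe]
  · rw [hs d (h.wne h.hd), hωd]
  · obtain ⟨c₀, hc₀⟩ := exists_sum_erase (A := A) (E := F)
      (fun f hf v hv => (mem_Kf.mp (hFA hf)).2 v hv) hω w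
    refine ⟨c₀, ?_⟩
    rw [← hc₀, hAw]
    exact Finset.sum_congr rfl fun y hy => by rw [hs y (h.wne hy)]
  · -- virtual work
    intro Z hZ
    have hZw : Z w = 0 := hZ.1.1 w h.hw
    have hZ0 : Z ∈ Mot0 p := Mot_le_Mot0 _ _ _ hZ.1
    have h1 := hα Z hZ0
    have h2 : φ Z = (Z e ⬝ᵥ p w) - t * (Z d ⬝ᵥ p w) := by
      simp only [φ, LinearMap.sub_apply, LinearMap.smul_apply, smul_eq_mul, eps_apply, hZw,
        zero_dotProduct, zero_add]
    rw [← h2, h1]
    -- the sum over `S` is the sum over the edges `s(w, y)`, `y ∈ X`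
    have himg : (X.image fun y => s(w, y)) ⊆ S := by
      intro f hf
      obtain ⟨y, hy, rfl⟩ := Finset.mem_image.mp hf
      have := (mem_extN.mp hy).1
      exact hmemS y this.1 this.2
    rw [← Finset.sum_subset himg, Finset.sum_image, ← Finset.sum_add_distrib]
    · refine Finset.sum_eq_zero fun y hy => ?_
      have hy' := mem_extN.mp hy
      have h3 : s y = - α s(w, y) := by
        rw [hs y (h.wne hy'.1.1), hωS _ (hmemS y hy'.1.1 hy'.1.2)]
      rw [epsS_mk, eps_apply, hZw, zero_dotProduct, zero_add, h3]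
      ring
    · intro y _ y' _ hyy
      rcases Sym2.eq_iff.mp hyy with ⟨-, h3⟩ | ⟨h3, h4⟩
      · exact h3
      · rw [h4, ← h3]
    · intro f hf hf'
      -- either inside U, or w b, w c
      have h3 : epsS p f Z = 0 := by
        induction f using Sym2.ind with
        | _ x y =>
          have hxy := mk_mem_Kf.mp (hSA hf)
          have key : ∀ y ∈ U, s(w, y) ∈ S → s(w, y) ∉ X.image (fun y => s(w, y)) →
              eps p w y Z = 0 := by
            intro y hy hyS hyX
            rw [eps_apply, hZw, zero_dotProduct, zero_add]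
            rcases hnbrS y hy hyS with rfl | rfl | h4
            · rw [Kg_zb hZ, zero_dotProduct]
            · rw [Kg_zc hZ, zero_dotProduct]
            · exact absurd (Finset.mem_image.mpr ⟨y, h4, rfl⟩) hyX
          rw [epsS_mk]
          rcases Finset.mem_insert.mp hxy.2.1 with hx | hx
          · rcases Finset.mem_insert.mp hxy.2.2 with hy | hy
            · exact absurd (hx.trans hy.symm) hxy.1
            · rw [hx] at hf hf' ⊢
              exact key y hy hf hf'
          · rcases Finset.mem_insert.mp hxy.2.2 with hy | hy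
            · rw [hy, Sym2.eq_swap] at hf hf'
              rw [hy, eps_comm]
              exact key x hx hf hf'
            · exact hZ.1.2.2 x hx y hy (hSE _ hf)
      rw [h3, mul_zero]
  · intro N hN
    have := (hJmax N hN).sub
    rwa [hAw] at this
  · -- rigidity of the cliques
    intro N hN Z hZ hZd y hy
    have hNU : N ⊆ U := by
      have := (hJmax N hN).sub
      rwa [hAw] at this
    obtain ⟨hM, hZw, hZb, hZc⟩ := (mem_Wg_iff h hgp hTB Z).mp hZ
    have hZF₁ : Z ∈ Mot A (F₁ : Set (Sym2 V)) p := by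
      have hM' : Z ∈ Mot A (S : Set (Sym2 V)) p := by rw [hS, Mot_inE]; exact hM
      refine ⟨hM'.1, hM'.2.1, fun x hx y hy hxy => ?_⟩
      rw [hF₁, Finset.coe_insert, Set.mem_insert_iff] at hxy
      rcases hxy with hxy | hxy
      · rcases Sym2.eq_iff.mp hxy with ⟨rfl, rfl⟩ | ⟨rfl, rfl⟩
        · rw [eps_apply, hZw, zero_dotProduct, zero_add, hZd]
        · rw [eps_apply, hZw, zero_dotProduct, add_zero, hZd]
      · exact hM'.2.2 x hx y hy hxy
    have hDZ : ∀ x ∈ A, ∀ x' ∈ A, s(x, x') ∈ D → eps p x x' Z = 0 := by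
      intro x hx x' hx' hxx
      exact (mem_clo_iff_Mot hF₁A hx hx').mp (mem_clF.mp hxx).2 Z hZF₁
    have hcl := (hJmax N hN).clique
    constructor
    · have h3 := hDZ w hwA y (hUA y (hNU hy)) (hcl (mk_mem_Kf.mpr
        ⟨(h.wne (hNU hy)).symm, by simp, by simp [hy]⟩))
      rwa [eps_apply, hZw, zero_dotProduct, zero_add] at h3
    · intro y' hy'
      by_cases hyy : y = y'
      · subst hyy
        rw [eps_apply, hM.2.1 y (hUA y (hNU hy)), add_zero]
      · exact hDZ y (hUA y (hNU hy)) y' (hUA y' (hNU hy')) (hcl (mk_mem_Kf.mpr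
          ⟨hyy, by simp [hy], by simp [hy']⟩))
  · -- maximality
    intro N hN y hy hyN
    have hNU : N ⊆ U := by
      have := (hJmax N hN).sub
      rwa [hAw] at this
    by_cases hyN' : y ∈ N
    · exact hyN'
    refine (hJmax N hN).max y (by rw [hAw]; exact hy) ?_
    have hcl := (hJmax N hN).clique
    -- new pairs are rigid
    have hnew : ∀ v ∈ insert w N, s(y, v) ∈ D := by
      intro v hv
      have hvA : v ∈ A := by
        rcases Finset.mem_insert.mp hv with rfl | hv
        · exact hwA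
        · exact hUA v (hNU hv)
      have hyv : y ≠ v := by
        rintro rfl
        rcases Finset.mem_insert.mp hv with h' | h'
        · exact h.wne hy h'
        · exact hyN' h'
      rw [hD, mem_clF]
      refine ⟨mk_mem_Kf.mpr ⟨hyv, hUA y hy, hvA⟩, ?_⟩
      rw [mem_clo_iff_Mot hF₁A (hUA y hy) hvA]
      intro Z hZ
      obtain ⟨h1, h2⟩ := hMF₁ Z hZ
      obtain ⟨L, hL, hW'⟩ := exists_Wg_add_triv h hgp hTB h1
      have hW0 : (Z - triv A p L) w = 0 := hW'.1.1.1 w h.hw
      have h3 : (Z - triv A p L) d ⬝ᵥ p w = 0 := by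
        have h4 : eps p w d (Z - triv A p L) = 0 := by
          rw [map_sub, h2, eps_triv p hL hwA (hUA d h.hd), sub_zero]
        rwa [eps_apply, hW0, zero_dotProduct, zero_add] at h4
      obtain ⟨h5, h6⟩ := hyN _ hW' h3
      have h7 : eps p y v (Z - triv A p L) = 0 := by
        rcases Finset.mem_insert.mp hv with rfl | hv
        · rw [eps_apply, hW0, zero_dotProduct, add_zero]
          exact h5
        · exact h6 v hv
      rwa [map_sub, eps_triv p hL (hUA y hy) hvA, sub_zero] at h7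
    intro f hf
    induction f using Sym2.ind with
    | _ v v' =>
      rw [mk_mem_Kf] at hf
      obtain ⟨hvv, hv, hv'⟩ := hf
      have key : ∀ v, v ∈ insert w (insert y N) → v = y ∨ v ∈ insert w N := by
        intro v hv
        simp only [Finset.mem_insert] at hv ⊢
        tauto
      rcases key v hv with rfl | hv1
      · rcases key v' hv' with rfl | hv2
        · exact absurd rfl hvv
        · exact hnew v' hv2
      · rcases key v' hv' with rfl | hv2
        · rw [Sym2.eq_swap]; exact hnew v hv1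
        · exact hcl (mk_mem_Kf.mpr ⟨hvv, hv1, hv2⟩)
  · intro y hy
    rw [hs y (h.wne hy)]
    exact hasum y (h.wne hy)

/-- **The frame at a position.** -/
theorem xdata_at [Infinite k] (h : FrameComb U w b c d e E) (hgp : GenPos p (insert w U : Set V))
    (ht : t ≠ 0)
    (hTB : Mot (insert w U) E p ≤ TB p w b c d e t)
    (hinj : finrank k (Mot (insert w U) E p ⊓
      RG p ({w, b, c, d, e} : Set V) : Submodule k (V → Vec k)) ≤ 6)
    (hdim : mdim (insert w U) E p = 8) (hgood : GoodAt (insert w U) p) :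
    ∃ s J a, XData (Kg U E p b c d e) U (extN U E w b c) p b c d e (p w) t s J a := by
  obtain ⟨s, J, a, h1, -⟩ := xdata_at' h hgp ht hTB hinj hdim hgood
  exact ⟨s, J, a, h1⟩

end At

section Generic

variable [Infinite k] {U : Finset V} {w b c d e : V} {E : Set (Sym2 V)}

lemma Kg_update (hw : w ∉ U) (he : e ∈ U) (p : V → Vec k) (x : Vec k) :
    Kg U E (Function.update p w x) b c d e = Kg U E p b c d e := by
  have h1 : Mot U E (Function.update p w x) = Mot U E p :=
    Mot_congr_pts fun a ha => Function.update_of_ne (by rintro rfl; exact hw ha) _ _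
  have h2 : Function.update p w x e = p e :=
    Function.update_of_ne (by rintro rfl; exact hw he) _ _
  ext Z
  show (Z ∈ Mot U E _ ∧ _) ↔ (Z ∈ Mot U E p ∧ _)
  rw [h1, h2]

lemma XData_update (hw : w ∉ U) {K : Submodule k (V → Vec k)} {X : Finset V} {p : V → Vec k}
    {x y : Vec k} {t : k} {s : V → k} {J : Finset (Finset V)} {a : Finset V → V → k}
    (h : XData K U X (Function.update p w x) b c d e y t s J a) :
    XData K U X p b c d e y t s J a := by
  have hp : ∀ v ∈ U, Function.update p w x v = p v := fun v hv =>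
    Function.update_of_ne (by rintro rfl; exact hw hv) _ _
  refine ⟨h.t0, h.dim, h.ratio, h.inj, h.se, h.sd, h.supp, ?_, h.virt, h.sub, ?_, ?_, h.asupp, ?_,
    h.afour, h.asum, h.count⟩
  · obtain ⟨c₀, hc₀⟩ := h.equil
    exact ⟨c₀, by rw [← hc₀]; exact Finset.sum_congr rfl fun v hv => by rw [hp v hv]⟩
  · intro N hN Z hZ hZd z hz
    obtain ⟨h1, h2⟩ := h.rig N hN Z hZ hZd z hz
    refine ⟨h1, fun z' hz' => ?_⟩
    have := h2 z' hz'
    rwa [eps_apply, hp z (h.sub N hN hz), hp z' (h.sub N hN hz'), ← eps_apply] at this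
  · intro N hN z hz hmax
    refine h.max N hN z hz fun Z hZ hZd => ?_
    obtain ⟨h1, h2⟩ := hmax Z hZ hZd
    refine ⟨h1, fun z' hz' => ?_⟩
    have := h2 z' hz'
    rwa [eps_apply, hp z hz, hp z' (h.sub N hN hz'), ← eps_apply]
  · intro N hN
    obtain ⟨c₁, hc₁⟩ := h.adep N hN
    exact ⟨c₁, by rw [← hc₁]; exact Finset.sum_congr rfl fun v hv => by rw [hp v (h.sub N hN hv)]⟩

/-- **The frame theorem**, with the stress. -/
theorem FrameHyp.eventually_xdata' (h : FrameHyp k U w b c d e E) :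
    ∀ᶠ p in gen k (V → Vec k), GenPos p (U : Set V) ∧
      finrank k (Kg U E p b c d e) + 1 = (nbr U E w).card ∧
      ∀ᶠ x in gen k (Vec k), GenPos (Function.update p w x) (insert w U : Set V) ∧
        ∃ t s J a, XData (Kg U E p b c d e) U (extN U E w b c) p b c d e x t s J a ∧
          ∃ ω ∈ Stress (insert s(w, e) (insert s(w, d) (inE (insert w U) E)))
            (Function.update p w x),
            ω s(w, e) = 1 ∧ ω s(w, d) = -t ∧ ∀ y, y ≠ w → s y = ω s(w, y) := by
  classical
  have hc := h.comb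
  have h1 : ∀ᶠ p in gen k (V → Vec k), GenPos p (insert w U : Set V) ∧
      ∃ t s J a, XData (Kg U E p b c d e) U (extN U E w b c) p b c d e (p w) t s J a ∧
        ∃ ω ∈ Stress (insert s(w, e) (insert s(w, d) (inE (insert w U) E))) p,
          ω s(w, e) = 1 ∧ ω s(w, d) = -t ∧ ∀ y, y ≠ w → s y = ω s(w, y) := by
    filter_upwards [eventually_genPos (k := k) (insert w U), h.typ, h.inj, h.good,
      eventually_mdim_eq (k := k) (insert w U) E] with p hgp htyp hinj hgood hm
    rw [Finset.coe_insert] at hgp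
    obtain ⟨t, ht, hTB⟩ := htyp
    exact ⟨hgp, t, xdata_at' hc hgp ht hTB hinj (by rw [hm, h.full]) hgood⟩
  filter_upwards [eventually_update h1 w, eventually_genPos (k := k) U,
    eventually_mdim_eq (k := k) U E] with p hp hgp hm
  refine ⟨hgp, ?_, ?_⟩
  · have := finrank_Kg (E := E) hgp h.hb h.hc h.hd h.he h.hbc h.hbd h.hbe h.hcd h.hce h.hde h.ebc
    rw [hm, h.base] at this
    omega
  · filter_upwards [hp] with x hx
    refine ⟨hx.1, ?_⟩
    obtain ⟨t, s, J, a, hxd, hω⟩ := hx.2
    rw [Function.update_self, Kg_update h.hw h.he] at hxd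
    exact ⟨t, s, J, a, XData_update h.hw hxd, hω⟩

/-- **The frame theorem.** -/
theorem FrameHyp.eventually_xdata (h : FrameHyp k U w b c d e E) :
    ∀ᶠ p in gen k (V → Vec k), GenPos p (U : Set V) ∧
      finrank k (Kg U E p b c d e) + 1 = (nbr U E w).card ∧
      ∀ᶠ x in gen k (Vec k), GenPos (Function.update p w x) (insert w U : Set V) ∧
        ∃ t s J a, XData (Kg U E p b c d e) U (extN U E w b c) p b c d e x t s J a := by
  filter_upwards [h.eventually_xdata'] with p hp
  refine ⟨hp.1, hp.2.1, ?_⟩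
  filter_upwards [hp.2.2] with x hx
  obtain ⟨h1, t, s, J, a, h2, -⟩ := hx
  exact ⟨h1, t, s, J, a, h2⟩

/-- (QJ) in the frame -/
theorem FrameHyp.eventually_QJ (h : FrameHyp k U w b c d e E) :
    ∀ᶠ p in gen k (V → Vec k), ∀ E' : Set (Sym2 V), s(b, c) ∈ E' → s(d, e) ∈ E' →
      ∀ t : k, t ≠ 0 → ∀ y ∈ U, y ≠ b → y ≠ c → y ≠ d → y ≠ e →
      LinearIndependent k ![p y, p e - t • p d, p b, p c] →
      (∀ Z ∈ Kg U E' p b c d e, Z e = t • Z d) →
      (∀ Z ∈ Kg U E' p b c d e, Z y ⬝ᵥ (p e - t • p d) = 0) →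
      ∀ Z ∈ Kg U E' p b c d e, ∀ Z' ∈ Kg U E' p b c d e, Z y = 0 → Z' y = 0 →
        ∃ r r' : k, (r ≠ 0 ∨ r' ≠ 0) ∧ r • Z d + r' • Z' d = 0 := by
  refine GR.eventually_QJ (w := w) h.two h.hw ?_ h.hb h.hc h.hd h.he h.hbc h.hbd h.hbe h.hcd
    h.hce h.hde
  filter_upwards [h.good, eventually_genPos (k := k) (insert w U)] with p hp hgp
  exact hp.cliqueProp hgp

end Generic

end GR
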