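import Pool.Agent.Lib.GR.BLocTri
import Pool.Agent.Lib.GR.BLocFrame

/-!
# The frame when the ratio `t` does not depend on the position of `w`
-/

set_option linter.unusedSectionVars false

namespace GR

open Filter Module

open scoped Matrix

variable {k : Type*} [Field k] {V : Type*} [DecidableEq V]

lemma GenPos.three' {p : V → Vec k} {N : Set V} (h : GenPos p N) {x y z : V} (hx : x ∈ N)
    (hy : y ∈ N) (hz : z ∈ N) (hxy : x ≠ y) (hxz : x ≠ z) (hyz : y ≠ z) :
    LinearIndependent k ![p x, p y, p z] := by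
  have hT := h {x, y, z} (by
    intro v hv
    simp only [Finset.coe_insert, Finset.coe_singleton, Set.mem_insert_iff,
      Set.mem_singleton_iff] at hv
    rcases hv with rfl | rfl | rfl <;> assumption) (Finset.card_le_three.trans (by norm_num))
  let f : Fin 3 → ({x, y, z} : Finset V) := ![⟨x, by simp⟩, ⟨y, by simp⟩, ⟨z, by simp⟩]
  have hf : Function.Injective f := by
    intro i j hij
    fin_cases i <;> fin_cases j <;> simp_all [f]
  have := hT.comp f hf
  convert this using 1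
  ext i
  fin_cases i <;> rfl

/-- The frame with a constant ratio `t`. -/
structure ConstFrame [Infinite k] (K : Submodule k (V → Vec k)) (U X : Finset V) (p : V → Vec k)
    (b c d e : V) (t : k) : Prop where
  gp : GenPos p (U : Set V)
  hb : b ∈ U
  hc : c ∈ U
  hd : d ∈ U
  he : e ∈ U
  hbc : b ≠ c
  hbd : b ≠ d
  hbe : b ≠ e
  hcd : c ≠ d
  hce : c ≠ e
  hde : d ≠ e
  XU : X ⊆ U
  bX : b ∉ X
  cX : c ∉ X
  dX : d ∉ X
  eX : e ∉ X
  t0 : t ≠ 0
  fin : FiniteDimensional k K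
  kb : ∀ Z ∈ K, Z b = 0
  kc : ∀ Z ∈ K, Z c = 0
  kde : ∀ Z ∈ K, Z d ⬝ᵥ p e = 0
  ked : ∀ Z ∈ K, Z e ⬝ᵥ p d = 0
  loop : ∀ Z ∈ K, ∀ y ∈ U, Z y ⬝ᵥ p y = 0
  ev : ∀ᶠ x in gen k (Vec k), ∃ s J a, XData K U X p b c d e x t s J a

section Lemmas

variable {K : Submodule k (V → Vec k)} {U X : Finset V} {p : V → Vec k} {b c d e : V} {x : Vec k}
  {t : k} {s : V → k} {J : Finset (Finset V)} {a : Finset V → V → k}

/-- the motion of `cl (G - u + wd)` -/
lemma XData.exists_Y (h : XData K U X p b c d e x t s J a) (hK : FiniteDimensional k K) :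
    ∃ Y ∈ Wg K X x, Y d ⬝ᵥ x = 0 ∧ Y d ≠ 0 := by
  have : FiniteDimensional k (Wg K X x) :=
    Submodule.finiteDimensional_of_le (S₂ := K) fun Z hZ => hZ.1
  let φ : Wg K X x →ₗ[k] k :=
    { toFun := fun Z => Z.1 d ⬝ᵥ x
      map_add' := fun Z Z' => by simp [add_dotProduct]
      map_smul' := fun r Z => by simp }
  have hker : ¬ Function.Injective φ := by
    intro hinj
    have := LinearMap.finrank_le_finrank_of_injective hinj
    rw [h.dim, finrank_self] at this
    omega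
  rw [← LinearMap.ker_eq_bot, LinearMap.ker_eq_bot'] at hker
  push Not at hker
  obtain ⟨Y, hY0, hYne⟩ := hker
  refine ⟨Y.1, Y.2, hY0, fun h0 => hYne (Subtype.ext (h.inj Y.1 Y.2 h0))⟩

end Lemmas

section Const

variable [Infinite k] {K : Submodule k (V → Vec k)} {U X : Finset V} {p : V → Vec k} {b c d e : V}
  {t : k}

/-- generic position of `x` with respect to the points of `U` -/
def GP (U : Finset V) (p : V → Vec k) (x : Vec k) : Prop :=
  ∀ y₁ ∈ U, ∀ y₂ ∈ U, ∀ y₃ ∈ U, y₁ ≠ y₂ → y₁ ≠ y₃ → y₂ ≠ y₃ →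
    LinearIndependent k ![x, p y₁, p y₂, p y₃]

lemma eventually_GP (hp : GenPos p (U : Set V)) : ∀ᶠ x in gen k (Vec k), GP U p x := by
  unfold GP
  rw [Filter.eventually_all_finset]
  intro y₁ h₁
  rw [Filter.eventually_all_finset]
  intro y₂ h₂
  rw [Filter.eventually_all_finset]
  intro y₃ h₃
  by_cases h : y₁ ≠ y₂ ∧ y₁ ≠ y₃ ∧ y₂ ≠ y₃
  · filter_upwards [eventually_li (hp.three' (Finset.mem_coe.mpr h₁) (Finset.mem_coe.mpr h₂)
      (Finset.mem_coe.mpr h₃) h.1 h.2.1 h.2.2)] with x hx _ _ _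
    exact hx
  · refine Filter.Eventually.of_forall fun x h1 h2 h3 => absurd ⟨h1, h2, h3⟩ h

/-- generic position with respect to the virtual point `q = p e - t p d` -/
def GQ (U : Finset V) (p : V → Vec k) (d e : V) (t : k) (x : Vec k) : Prop :=
  ∀ y₁ ∈ U, ∀ y₂ ∈ U, y₁ ≠ y₂ → y₁ ≠ d → y₁ ≠ e → y₂ ≠ d → y₂ ≠ e →
    LinearIndependent k ![x, p y₁, p y₂, p e - t • p d]

lemma eventually_GQ (hp : GenPos p (U : Set V)) (hd : d ∈ U) (he : e ∈ U) (hde : d ≠ e) (t : k) :
    ∀ᶠ x in gen k (Vec k), GQ U p d e t x := by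
  unfold GQ
  rw [Filter.eventually_all_finset]
  intro y₁ h₁
  rw [Filter.eventually_all_finset]
  intro y₂ h₂
  by_cases h : y₁ ≠ y₂ ∧ y₁ ≠ d ∧ y₁ ≠ e ∧ y₂ ≠ d ∧ y₂ ≠ e
  · filter_upwards [eventually_li (li_comb (t := t) (hp.four (Finset.mem_coe.mpr h₁)
      (Finset.mem_coe.mpr h₂) (Finset.mem_coe.mpr hd) (Finset.mem_coe.mpr he) h.1 h.2.1 h.2.2.1
      h.2.2.2.1 h.2.2.2.2 hde))] with x hx _ _ _ _ _
    exact hx
  · refine Filter.Eventually.of_forall fun x h1 h2 h3 h4 h5 => absurd ⟨h1, h2, h3, h4, h5⟩ h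

namespace ConstFrame

lemma sum_U (h : ConstFrame K U X p b c d e t) {s : V → k} (hb0 : s b = 0) (hc0 : s c = 0)
    (hse : s e = 1) (hsd : s d = -t)
    (hsupp : ∀ y, s y ≠ 0 → y = b ∨ y = c ∨ y = d ∨ y = e ∨ y ∈ X) :
    ∑ y ∈ U, s y • p y = (p e - t • p d) + ∑ y ∈ X, s y • p y := by
  classical
  have hsub : insert e (insert d X) ⊆ U := by
    intro y hy
    rcases Finset.mem_insert.mp hy with rfl | hy
    · exact h.he
    · rcases Finset.mem_insert.mp hy with rfl | hy
      · exact h.hd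
      · exact h.XU hy
  rw [← Finset.sum_subset hsub]
  · rw [Finset.sum_insert (by simp [h.hde.symm, h.eX]), Finset.sum_insert h.dX, hse, hsd]
    rw [one_smul, neg_smul]
    abel
  · intro y _ hy
    have : s y = 0 := by
      by_contra hne
      rcases hsupp y hne with rfl | rfl | rfl | rfl | hyX
      · exact hne hb0
      · exact hne hc0
      · exact hy (by simp)
      · exact hy (by simp)
      · exact hy (by simp [hyX])
    rw [this, zero_smul]

/-- a rigid clique which contains an end of the rod contains no vertex of the body -/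
lemma notMem_body (h : ConstFrame K U X p b c d e t) {x : Vec k} (hx : GP U p x) {Y : V → Vec k}
    (hY : Y ∈ K) (hr : Y e = t • Y d) (hYx : Y d ⬝ᵥ x = 0) (hYd : Y d ≠ 0) {N : Finset V}
    (hrig : ∀ y ∈ N, ∀ y' ∈ N, eps p y y' Y = 0) (hN : d ∈ N ∨ e ∈ N) : b ∉ N ∧ c ∉ N := by
  have key : ∀ v ∈ U, Y v = 0 → v ≠ d → v ≠ e → v ∉ N := by
    intro v hvU hv hvd hve hvN
    have h1 : Y d ⬝ᵥ p v = 0 := by
      rcases hN with hdN | heN
      · have := hrig d hdN v hvN
        rwa [eps_apply, hv, zero_dotProduct, add_zero] at this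
      · have := hrig e heN v hvN
        rw [eps_apply, hv, zero_dotProduct, add_zero, hr, smul_dotProduct, smul_eq_mul] at this
        exact (mul_eq_zero.mp this).resolve_left h.t0
    exact hYd (perp_four (hx d h.hd e h.he v hvU h.hde hvd.symm hve.symm) hYx
      (h.loop Y hY d h.hd) (h.kde Y hY) h1)
  exact ⟨key b h.hb (h.kb Y hY) h.hbd h.hbe, key c h.hc (h.kc Y hY) h.hcd h.hce⟩

/-- **The star of the stress at `w` is a clique** (`|X| ≤ 3`, constant ratio). -/
theorem clique (h : ConstFrame K U X p b c d e t) (hX : X.card ≤ 3) :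
    ∀ᶠ x in gen k (Vec k), ∃ (s : V → k) (J : Finset (Finset V)) (a : Finset V → V → k)
      (N : Finset V) (Y : V → Vec k), XData K U X p b c d e x t s J a ∧ J = {N} ∧
      s b = 0 ∧ s c = 0 ∧ d ∈ N ∧ e ∈ N ∧ (∀ y ∈ X, s y ≠ 0 → y ∈ N) ∧
      (Y ∈ Wg K X x ∧ Y d ⬝ᵥ x = 0 ∧ Y d ≠ 0) ∧
      (∀ y ∈ N, Y y ⬝ᵥ x = 0 ∧ ∀ y' ∈ N, eps p y y' Y = 0) := by
  classical
  filter_upwards [h.ev, eventually_GP h.gp, eventually_GQ h.gp h.hd h.he h.hde t] with x hxd hx hq
  obtain ⟨s, J, a, hs⟩ := hxd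
  obtain ⟨Y, hYW, hYx, hYd⟩ := hs.exists_Y h.fin
  have hYK : Y ∈ K := hYW.1
  have hYr : Y e = t • Y d := hs.ratio Y hYW
  have hrig : ∀ N ∈ J, ∀ y ∈ N, Y y ⬝ᵥ x = 0 ∧ ∀ y' ∈ N, eps p y y' Y = 0 := fun N hN y hy =>
    hs.rig N hN Y hYW hYx y hy
  have hbody : ∀ N ∈ J, d ∈ N ∨ e ∈ N → b ∉ N ∧ c ∉ N := fun N hN hde =>
    h.notMem_body hx hYK hYr hYx hYd (fun y hy => (hrig N hN y hy).2) hde
  -- supports
  have hsupp : ∀ y, s y ≠ 0 → y ∈ ({b, c} : Finset V) ∪ ({d, e} ∪ X) := by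
    intro y hy
    have := hs.supp y hy
    simp only [Finset.mem_union, Finset.mem_insert, Finset.mem_singleton]
    tauto
  have honce : once J a ⊆ ({b, c} : Finset V) ∪ ({d, e} ∪ X) := by
    intro y hy
    obtain ⟨N, hN, hyN, -⟩ := mem_once_iff.mp hy
    refine hsupp y ?_
    rw [hs.asum y (hs.sub N hN (mem_sset.mp hyN).1)]
    exact sum_ne_zero_of_once hs.asupp hy
  have hcard2 : (({d, e} : Finset V) ∪ X).card ≤ 5 := by
    refine (Finset.card_union_le _ _).trans ?_
    have := Finset.card_le_two (a := d) (b := e)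
    omega
  have hcard7 : (({b, c} : Finset V) ∪ ({d, e} ∪ X)).card ≤ 7 := by
    refine (Finset.card_union_le _ _).trans ?_
    have := Finset.card_le_two (a := b) (b := c)
    omega
  have hO7 : (once J a).card ≤ 7 := (Finset.card_le_card honce).trans hcard7
  have hsum4 : 4 * (J.card : ℤ) ≤ ∑ N ∈ J, ((sset N (a N)).card : ℤ) := by
    have : ∑ N ∈ J, (4 : ℤ) ≤ ∑ N ∈ J, ((sset N (a N)).card : ℤ) :=
      Finset.sum_le_sum fun N hN => by exact_mod_cast hs.afour N hN
    rw [Finset.sum_const, nsmul_eq_mul] at this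
    linarith
  -- `J` is not empty
  have hex : ∀ y ∈ U, s y ≠ 0 → ∃ N ∈ J, y ∈ sset N (a N) := by
    intro y hy hsy
    rw [hs.asum y hy] at hsy
    obtain ⟨N, hN, hNy⟩ := Finset.exists_ne_zero_of_sum_ne_zero hsy
    exact ⟨N, hN, mem_sset.mpr ⟨hs.asupp N hN y hNy, hNy⟩⟩
  obtain ⟨Nd, hNd, hdNd⟩ := hex d h.hd (by rw [hs.sd]; exact neg_ne_zero.mpr h.t0)
  obtain ⟨Ne, hNe, heNe⟩ := hex e h.he (by rw [hs.se]; exact one_ne_zero)
  have hJ0 : 1 ≤ J.card := Finset.card_pos.mpr ⟨_, hNd⟩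
  have hJ1 : J.card = 1 := by
    by_contra hne
    have hJ2 : 2 ≤ J.card := by omega
    obtain ⟨s₀, hs₀, hle⟩ := sum_sset_le_once (a := a) (hs.count J subset_rfl hJ2)
    have hJeq : J.card = 2 := by
      by_contra hne2
      have h3 : (3 : ℤ) ≤ J.card := by
        have : 3 ≤ J.card := by omega
        exact_mod_cast this
      have h7 : ((once J a).card : ℤ) ≤ 7 := by exact_mod_cast hO7
      rcases eq_or_lt_of_le h3 with h4 | h4
      · rw [← h4] at hs₀ hsum4
        omega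
      · omega
    -- two cliques
    obtain ⟨N₁, N₂, hN12, hJN⟩ := Finset.card_eq_two.mp hJeq
    have hs₀' : s₀ ≤ 1 := by
      rw [hJeq] at hs₀
      push_cast at hs₀
      omega
    have hO6 : 6 ≤ (once J a).card := by
      rw [hJeq] at hsum4
      push_cast at hsum4
      have : (6 : ℤ) ≤ (once J a).card := by linarith
      exact_mod_cast this
    have hN₁ : N₁ ∈ J := by rw [hJN]; simp
    have hN₂ : N₂ ∈ J := by rw [hJN]; simp
    -- symmetric statement
    have main : ∀ N₁ ∈ J, ∀ N₂ ∈ J, N₁ ≠ N₂ → (∀ N ∈ J, N = N₁ ∨ N = N₂) →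
        (d ∈ N₁ ∨ e ∈ N₁) → False := by
      intro N₁ hN₁ N₂ hN₂ hne' hall hde₁
      obtain ⟨hb₁, hc₁⟩ := hbody N₁ hN₁ hde₁
      have hde₂ : ¬ (d ∈ N₂ ∨ e ∈ N₂) := by
        intro hde₂
        obtain ⟨hb₂, hc₂⟩ := hbody N₂ hN₂ hde₂
        have : once J a ⊆ ({d, e} : Finset V) ∪ X := by
          intro y hy
          have h1 := honce hy
          rcases Finset.mem_union.mp h1 with h1 | h1
          · exfalso
            obtain ⟨N, hN, hyN, -⟩ := mem_once_iff.mp hy
            have hyN' := (mem_sset.mp hyN).1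
            simp only [Finset.mem_insert, Finset.mem_singleton] at h1
            rcases hall N hN with rfl | rfl <;> rcases h1 with rfl | rfl
            · exact hb₁ hyN'
            · exact hc₁ hyN'
            · exact hb₂ hyN'
            · exact hc₂ hyN'
          · exact h1
        have := Finset.card_le_card this
        omega
      push Not at hde₂
      -- d and e are in N₁
      have hd₁ : d ∈ N₁ := by
        rcases hall Nd hNd with rfl | rfl
        · exact (mem_sset.mp hdNd).1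
        · exact absurd (mem_sset.mp hdNd).1 hde₂.1
      have he₁ : e ∈ N₁ := by
        rcases hall Ne hNe with rfl | rfl
        · exact (mem_sset.mp heNe).1
        · exact absurd (mem_sset.mp heNe).1 hde₂.2
      -- b or c is in N₂
      have hbc₂ : b ∈ N₂ ∨ c ∈ N₂ := by
        by_contra hcon
        push Not at hcon
        have : once J a ⊆ ({d, e} : Finset V) ∪ X := by
          intro y hy
          have h1 := honce hy
          rcases Finset.mem_union.mp h1 with h1 | h1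
          · exfalso
            obtain ⟨N, hN, hyN, -⟩ := mem_once_iff.mp hy
            have hyN' := (mem_sset.mp hyN).1
            simp only [Finset.mem_insert, Finset.mem_singleton] at h1
            rcases hall N hN with rfl | rfl <;> rcases h1 with rfl | rfl
            · exact hb₁ hyN'
            · exact hc₁ hyN'
            · exact hcon.1 hyN'
            · exact hcon.2 hyN'
          · exact h1
        have := Finset.card_le_card this
        omega
      -- a common point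
      obtain ⟨y₀, hy₀⟩ : ∃ y₀, y₀ ∈ sset N₁ (a N₁) ∩ sset N₂ (a N₂) := by
        by_contra hcon
        push Not at hcon
        have hdisj : Disjoint (sset N₁ (a N₁)) (sset N₂ (a N₂)) := by
          rw [Finset.disjoint_left]
          intro y h1 h2
          exact hcon y (Finset.mem_inter.mpr ⟨h1, h2⟩)
        have hsub : sset N₁ (a N₁) ∪ sset N₂ (a N₂) ⊆ once J a := by
          intro y hy
          rw [mem_once_iff]
          rcases Finset.mem_union.mp hy with hyu | hyu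
          · refine ⟨N₁, hN₁, hyu, fun M hM hyM => ?_⟩
            rcases hall M hM with hM' | hM'
            · exact hM'
            · rw [hM'] at hyM
              exact absurd (Finset.mem_inter.mpr ⟨hyu, hyM⟩) (hcon y)
          · refine ⟨N₂, hN₂, hyu, fun M hM hyM => ?_⟩
            rcases hall M hM with hM' | hM'
            · rw [hM'] at hyM
              exact absurd (Finset.mem_inter.mpr ⟨hyM, hyu⟩) (hcon y)
            · exact hM' 
        have h1 := Finset.card_le_card hsub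
        rw [Finset.card_union_of_disjoint hdisj] at h1
        have h2 := hs.afour N₁ hN₁
        have h3 := hs.afour N₂ hN₂
        omega
      have hy₁ : y₀ ∈ N₁ := (mem_sset.mp (Finset.mem_inter.mp hy₀).1).1
      have hy₂ : y₀ ∈ N₂ := (mem_sset.mp (Finset.mem_inter.mp hy₀).2).1
      have hy₀U : y₀ ∈ U := hs.sub N₁ hN₁ hy₁
      have hy₀d : y₀ ≠ d := fun h' => hde₂.1 (h' ▸ hy₂)
      have hy₀e : y₀ ≠ e := fun h' => hde₂.2 (h' ▸ hy₂)
      have e1 := (hrig N₁ hN₁ y₀ hy₁).2 d hd₁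
      have e2 := (hrig N₁ hN₁ y₀ hy₁).2 e he₁
      rw [eps_apply] at e1 e2
      have hYq : Y y₀ ⬝ᵥ (p e - t • p d) = 0 := by
        rw [hYr, smul_dotProduct, smul_eq_mul] at e2
        rw [dotProduct_sub, dotProduct_smul, smul_eq_mul]
        linear_combination e2 - t * e1
      have hYy₀ : Y y₀ = 0 := by
        have key : ∀ v ∈ U, v ∈ N₂ → Y v = 0 → v ≠ d → v ≠ e → v ∉ N₁ → Y y₀ = 0 := by
          intro v hvU hv₂ hYv hvd hve hv₁
          have hvy : v ≠ y₀ := fun h' => hv₁ (h' ▸ hy₁)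
          have h1 := (hrig N₂ hN₂ y₀ hy₂).2 v hv₂
          rw [eps_apply, hYv, zero_dotProduct, add_zero] at h1
          exact perp_four (hq v hvU y₀ hy₀U hvy hvd hve hy₀d hy₀e) (hrig N₁ hN₁ y₀ hy₁).1 h1
            (h.loop Y hYK y₀ hy₀U) hYq
        rcases hbc₂ with hb₂ | hc₂
        · exact key b h.hb hb₂ (h.kb Y hYK) h.hbd h.hbe hb₁
        · exact key c h.hc hc₂ (h.kc Y hYK) h.hcd h.hce hc₁
      rw [hYy₀, zero_dotProduct, zero_add] at e1
      exact hYd (perp_four (hx d h.hd e h.he y₀ hy₀U h.hde hy₀d.symm hy₀e.symm) hYx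
        (h.loop Y hYK d h.hd) (h.kde Y hYK) e1)
    have hall : ∀ N ∈ J, N = N₁ ∨ N = N₂ := by
      intro N hN
      rw [hJN] at hN
      simpa using hN
    rcases hall Nd hNd with rfl | rfl
    · exact main Nd hNd N₂ hN₂ hN12 hall (Or.inl (mem_sset.mp hdNd).1)
    · exact main Nd hNd N₁ hN₁ hN12.symm (fun N hN => (hall N hN).symm)
        (Or.inl (mem_sset.mp hdNd).1)
  obtain ⟨N, hJN⟩ := Finset.card_eq_one.mp hJ1
  have hN : N ∈ J := by rw [hJN]; simp
  have hall : ∀ M ∈ J, M = N := by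
    intro M hM
    rw [hJN] at hM
    simpa using hM
  have hdN : d ∈ N := by rw [← hall Nd hNd]; exact (mem_sset.mp hdNd).1
  have heN : e ∈ N := by rw [← hall Ne hNe]; exact (mem_sset.mp heNe).1
  obtain ⟨hbN, hcN⟩ := hbody N hN (Or.inl hdN)
  have hsN : ∀ y ∈ U, s y ≠ 0 → y ∈ N := by
    intro y hy hsy
    obtain ⟨M, hM, hyM⟩ := hex y hy hsy
    rw [← hall M hM]
    exact (mem_sset.mp hyM).1
  refine ⟨s, J, a, N, Y, hs, hJN, ?_, ?_, hdN, heN, fun y hy => hsN y (h.XU hy), ⟨hYW, hYx, hYd⟩,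
    hrig N hN⟩
  · by_contra hne
    exact hbN (hsN b h.hb hne)
  · by_contra hne
    exact hcN (hsN c h.hc hne)

/-- the equilibrium identity cannot be carried by two external neighbours only -/
lemma no_two (_h : ConstFrame K U X p b c d e t) {y₁ y₂ : V} (h₁ : y₁ ∈ U) (h₂ : y₂ ∈ U)
    (h12 : y₁ ≠ y₂) (h1d : y₁ ≠ d) (h1e : y₁ ≠ e) (h2d : y₂ ≠ d) (h2e : y₂ ≠ e) {x : Vec k}
    (hq : GQ U p d e t x) {r₁ r₂ c₀ : k}
    (heq : (p e - t • p d) + (r₁ • p y₁ + r₂ • p y₂) = c₀ • x) : False := by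
  have hli := hq y₁ h₁ y₂ h₂ h12 h1d h1e h2d h2e
  have := Fintype.linearIndependent_iff.mp hli ![-c₀, r₁, r₂, 1] (by
    rw [Fin.sum_univ_four]
    simp only [Matrix.cons_val_zero, Matrix.cons_val_one, Matrix.cons_val]
    rw [neg_smul, one_smul, ← heq]
    abel) 3
  simp at this

/-- **`|X| = 2` is impossible** for a constant ratio. -/
theorem two_false (h : ConstFrame K U X p b c d e t) (hX : X.card = 2) : False := by
  classical
  obtain ⟨x, hx, hq⟩ := ((h.clique (by omega)).and (eventually_GQ h.gp h.hd h.he h.hde t)).exists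
  obtain ⟨s, J, a, N, Y, hs, -, hb0, hc0, -⟩ := hx
  obtain ⟨y₁, y₂, h12, hX'⟩ := Finset.card_eq_two.mp hX
  have m₁ : y₁ ∈ X := by rw [hX']; simp
  have m₂ : y₂ ∈ X := by rw [hX']; simp
  obtain ⟨c₀, hc₀⟩ := hs.equil
  rw [h.sum_U hb0 hc0 hs.se hs.sd hs.supp, hX', Finset.sum_pair h12] at hc₀
  exact h.no_two (h.XU m₁) (h.XU m₂) h12 (fun h' => h.dX (h' ▸ m₁)) (fun h' => h.eX (h' ▸ m₁))
    (fun h' => h.dX (h' ▸ m₂)) (fun h' => h.eX (h' ▸ m₂)) hq hc₀

end ConstFrame

end Const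

end GR
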