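import Pool.Agent.Lib.GR.StressDim
import Pool.Agent.Lib.GR.Gauge

/-!
# Flats relative to a finite vertex set, closures, nice positions
-/

set_option linter.unusedSectionVars false

namespace GR

open Filter Module

open scoped Matrix

variable {k : Type*} [Field k] {V : Type*} [DecidableEq V]

/-- `D` is a flat of the rigidity matroid of the pairs of `A` at `p`. -/
def IsFlatIn (A : Finset V) (D : Finset (Sym2 V)) (p : V → Vec k) : Prop :=
  D ⊆ Kf A ∧ ∀ e ∈ Kf A, e ∈ clo (D : Set (Sym2 V)) p → e ∈ D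

/-- All flats on the vertex set `A` are good at generic `p`. -/
def AllGood (k : Type*) [Field k] [Infinite k] {V : Type*} [DecidableEq V] (A : Finset V) : Prop :=
  ∀ᶠ p in gen k (V → Vec k), ∀ D : Finset (Sym2 V), IsFlatIn A D p → Good D p

lemma IsFlatIn.notDiag {A : Finset V} {D : Finset (Sym2 V)} {p : V → Vec k}
    (h : IsFlatIn A D p) : ∀ e ∈ D, ¬ e.IsDiag := fun _ he => (mem_Kf.mp (h.1 he)).1

lemma IsFlatIn.mem_vert {A : Finset V} {D : Finset (Sym2 V)} {p : V → Vec k}
    (h : IsFlatIn A D p) : ∀ e ∈ D, ∀ v ∈ e, v ∈ A := fun _ he => (mem_Kf.mp (h.1 he)).2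

lemma IsFlatIn.Kf_subset {A : Finset V} {D : Finset (Sym2 V)} {p : V → Vec k}
    (h : IsFlatIn A D p) {B : Finset V} (hB : B ⊆ A)
    (hc : (Kf B : Set (Sym2 V)) ⊆ clo (D : Set (Sym2 V)) p) : Kf B ⊆ D :=
  fun _ he => h.2 _ (Kf_mono hB he) (hc (by exact_mod_cast he))

lemma IsFlatIn.merge {A : Finset V} {D : Finset (Sym2 V)} {p : V → Vec k}
    (hD : IsFlatIn A D p) (hp : GenPos p (A : Set V)) {B C : Finset V} (hBA : B ⊆ A) (hCA : C ⊆ A)
    (h3 : 3 ≤ (B ∩ C).card) (hB : Kf B ⊆ D) (hC : Kf C ⊆ D) : Kf (B ∪ C) ⊆ D := by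
  refine hD.Kf_subset (Finset.union_subset hBA hCA) (merge_clo
    (hp.mono (by exact_mod_cast Finset.union_subset hBA hCA)) h3 ?_ ?_)
  · exact (by exact_mod_cast hB : (Kf B : Set (Sym2 V)) ⊆ D).trans (subset_clo _ _)
  · exact (by exact_mod_cast hC : (Kf C : Set (Sym2 V)) ⊆ D).trans (subset_clo _ _)

lemma IsFlatIn.rest {A : Finset V} {D : Finset (Sym2 V)} {p : V → Vec k}
    (hD : IsFlatIn A D p) {W : Finset V} (hW : W ⊆ A) : IsFlatIn W (rest D W) p := by
  refine ⟨rest_subset_Kf hD.notDiag W, fun e he hc => ?_⟩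
  have h1 : e ∈ D := hD.2 e (Kf_mono hW he)
    (clo_mono (by exact_mod_cast rest_subset D W) p hc)
  exact mem_rest.mpr ⟨h1, (mem_Kf.mp he).2⟩

/-- The complete graph is a flat. -/
lemma isFlatIn_Kf (A : Finset V) (p : V → Vec k) : IsFlatIn A (Kf A) p :=
  ⟨subset_rfl, fun _ he _ => he⟩

open Classical in
/-- The closure of `E` inside `Kf A`. -/
noncomputable def clF (A : Finset V) (E : Finset (Sym2 V)) (p : V → Vec k) : Finset (Sym2 V) :=
  (Kf A).filter fun e => e ∈ clo (E : Set (Sym2 V)) p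

lemma mem_clF {A : Finset V} {E : Finset (Sym2 V)} {p : V → Vec k} {e : Sym2 V} :
    e ∈ clF A E p ↔ e ∈ Kf A ∧ e ∈ clo (E : Set (Sym2 V)) p := by
  classical
  unfold clF
  rw [Finset.mem_filter]

lemma subset_clF {A : Finset V} {E : Finset (Sym2 V)} (hE : E ⊆ Kf A) (p : V → Vec k) :
    E ⊆ clF A E p := fun _ he => mem_clF.mpr ⟨hE he, subset_clo _ _ (by exact_mod_cast he)⟩

lemma clF_subset (A : Finset V) (E : Finset (Sym2 V)) (p : V → Vec k) : clF A E p ⊆ Kf A :=
  fun _ he => (mem_clF.mp he).1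

lemma clF_subset_clo (A : Finset V) (E : Finset (Sym2 V)) (p : V → Vec k) :
    (clF A E p : Set (Sym2 V)) ⊆ clo (E : Set (Sym2 V)) p :=
  fun _ he => (mem_clF.mp (by exact_mod_cast he)).2

lemma isFlatIn_clF (A : Finset V) (E : Finset (Sym2 V)) (p : V → Vec k) :
    IsFlatIn A (clF A E p) p := by
  refine ⟨clF_subset A E p, fun e he hc => mem_clF.mpr ⟨he, ?_⟩⟩
  exact clo_subset_of_subset (clF_subset_clo A E p) hc

lemma IsFlatIn.clF_subset_of {A : Finset V} {D E : Finset (Sym2 V)} {p : V → Vec k}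
    (hD : IsFlatIn A D p) (h : E ⊆ D) : clF A E p ⊆ D := fun e he => by
  rw [mem_clF] at he
  exact hD.2 e he.1 (clo_mono (by exact_mod_cast h) p he.2)

/-- rigidity on motions and closure -/
lemma mem_clo_iff_Mot {A : Finset V} {E : Finset (Sym2 V)} (hE : E ⊆ Kf A) {p : V → Vec k}
    {a b : V} (ha : a ∈ A) (hb : b ∈ A) :
    s(a, b) ∈ clo (E : Set (Sym2 V)) p ↔ ∀ Z ∈ Mot A (E : Set (Sym2 V)) p, eps p a b Z = 0 := by
  rw [mem_clo_iff (Finset.finite_toSet E)]
  constructor
  · intro h Z hZ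
    have := h Z (Mot_le_Mot0 _ _ _ hZ) (fun f hf => ?_)
    · simpa using this
    · have h1 := mem_Kf.mp (hE (by exact_mod_cast hf))
      induction f using Sym2.ind with
      | _ c d =>
        exact hZ.2.2 c (h1.2 c (by simp)) d (h1.2 d (by simp)) hf
  · intro h Z hZ hf
    have h1 : cut k A Z ∈ Mot A (E : Set (Sym2 V)) p :=
      cut_mem_Mot hZ fun c _ d _ hcd => by simpa using hf _ hcd
    have h2 := h _ h1
    rw [eps_cut p Z ha hb] at h2
    simpa using h2

lemma clo_iff_mdim {A : Finset V} {E : Finset (Sym2 V)} (hE : E ⊆ Kf A) {p : V → Vec k}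
    {a b : V} (ha : a ∈ A) (hb : b ∈ A) :
    s(a, b) ∈ clo (E : Set (Sym2 V)) p ↔
      mdim A (insert s(a, b) (E : Set (Sym2 V))) p = mdim A (E : Set (Sym2 V)) p := by
  have hle : Mot A (insert s(a, b) (E : Set (Sym2 V))) p ≤ Mot A (E : Set (Sym2 V)) p :=
    Mot_anti (Set.subset_insert _ _) p
  rw [mem_clo_iff_Mot hE ha hb]
  constructor
  · intro h
    have heq : Mot A (insert s(a, b) (E : Set (Sym2 V))) p = Mot A (E : Set (Sym2 V)) p := by
      refine le_antisymm hle ?_
      intro Z hZ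
      refine ⟨hZ.1, hZ.2.1, fun c hc d hd hcd => ?_⟩
      rcases hcd with hcd | hcd
      · rcases Sym2.eq_iff.mp hcd with ⟨rfl, rfl⟩ | ⟨rfl, rfl⟩
        · exact h Z hZ
        · rw [eps_comm]; exact h Z hZ
      · exact hZ.2.2 c hc d hd hcd
    unfold mdim
    rw [heq]
  · intro h Z hZ
    have := Submodule.eq_of_le_of_finrank_eq hle h
    rw [← this] at hZ
    exact hZ.2.2 a ha b hb (Set.mem_insert _ _)

/-- The closure is the same at all regular positions. -/
lemma clo_iff_of_regular {A : Finset V} {E : Finset (Sym2 V)} (hE : E ⊆ Kf A)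
    {p q : V → Vec k} (hp : Regular A p) (hq : Regular A q) {e : Sym2 V} (he : e ∈ Kf A) :
    e ∈ clo (E : Set (Sym2 V)) p ↔ e ∈ clo (E : Set (Sym2 V)) q := by
  induction e using Sym2.ind with
  | _ a b =>
    rw [mk_mem_Kf] at he
    rw [clo_iff_mdim hE he.2.1 he.2.2, clo_iff_mdim hE he.2.1 he.2.2,
      hp A subset_rfl, hp A subset_rfl, hq A subset_rfl, hq A subset_rfl]

lemma clF_eq_of_regular {A : Finset V} {E : Finset (Sym2 V)} (hE : E ⊆ Kf A)
    {p q : V → Vec k} (hp : Regular A p) (hq : Regular A q) : clF A E p = clF A E q := by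
  ext e
  rw [mem_clF, mem_clF]
  constructor
  · rintro ⟨h1, h2⟩
    exact ⟨h1, (clo_iff_of_regular hE hp hq h1).mp h2⟩
  · rintro ⟨h1, h2⟩
    exact ⟨h1, (clo_iff_of_regular hE hp hq h1).mpr h2⟩

/-- Nice positions: regular, in general position, and this remains true when one vertex is moved
to a generic position. -/
structure Nice [Infinite k] (A : Finset V) (p : V → Vec k) : Prop where
  reg : Regular A p
  gp : GenPos p (A : Set V)
  upd : ∀ v ∈ A, ∀ᶠ x in gen k (Vec k),
    Regular A (Function.update p v x) ∧ GenPos (Function.update p v x) (A : Set V)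

theorem eventually_nice [Infinite k] (A : Finset V) :
    ∀ᶠ p in gen k (V → Vec k), Nice A p := by
  have h1 := (eventually_regular (k := k) A).and (eventually_genPos (k := k) A)
  have h2 : ∀ᶠ p in gen k (V → Vec k), ∀ v ∈ A, ∀ᶠ x in gen k (Vec k),
      Regular A (Function.update p v x) ∧ GenPos (Function.update p v x) (A : Set V) := by
    rw [Filter.eventually_all_finset]
    intro v _
    exact eventually_update h1 v
  filter_upwards [h1, h2] with p hp hp'
  exact ⟨hp.1, hp.2, hp'⟩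

lemma Nice.ne_zero [Infinite k] {A : Finset V} {p : V → Vec k} (h : Nice A p) :
    ∀ v ∈ A, p v ≠ 0 := fun _ hv => h.gp.ne_zero (by exact_mod_cast hv)

end GR
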