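import Pool.Agent.Lib.GR.FlatIn
import Pool.Agent.Lib.GR.TypesHard

/-!
# Stresses with a prescribed star, the clique property, FACT R and TOOL 1
-/

set_option linter.unusedSectionVars false

namespace GR

open Filter Module

open scoped Matrix

variable {k : Type*} [Field k] {V : Type*} [DecidableEq V]

/-- The clique property: the ends of the nonzero edges at a vertex `v` of a stress with at most five
such edges move rigidly. -/
def CliqueProp (A : Finset V) (p : V → Vec k) : Prop :=
  ∀ E : Finset (Sym2 V), E ⊆ Kf A → ∀ ω ∈ Stress E p, ∀ v ∈ A, ∀ N : Finset V,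
    (∀ j, j ∈ N ↔ j ∈ A ∧ j ≠ v ∧ ω s(v, j) ≠ 0) → N.card ≤ 5 →
      ∀ Z ∈ Mot A (E : Set (Sym2 V)) p, ∀ a ∈ N, ∀ b ∈ N, eps p a b Z = 0

/-- a linear functional in the strain span is a combination -/
lemma exists_coeff_of_mem_strainSpan {S : Finset (Sym2 V)} {p : V → Vec k}
    {φ : (V → Vec k) →ₗ[k] k}
    (h : φ.domRestrict (Mot0 p) ∈ strainSpan (Mot0 p) (S : Set (Sym2 V)) p) :
    ∃ a : Sym2 V → k, (∀ e, e ∉ S → a e = 0) ∧
      ∀ Z ∈ Mot0 p, φ Z = ∑ e ∈ S, a e * epsS p e Z := by
  classical
  rw [← range_stressMap] at h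
  obtain ⟨ω, hω⟩ := h
  refine ⟨fun e => if he : e ∈ S then ω ⟨e, he⟩ else 0, fun e he => by simp [he],
    fun Z hZ => ?_⟩
  have h1 := LinearMap.congr_fun hω ⟨Z, hZ⟩
  simp only [stressMap, LinearMap.coe_mk, AddHom.coe_mk, LinearMap.sum_apply] at h1
  rw [← Finset.sum_coe_sort S]
  have h2 : φ Z = ∑ x : S, (ω x • (epsS p x.1).domRestrict (Mot0 p)) ⟨Z, hZ⟩ := by
    rw [h1]; rfl
  rw [h2]
  refine Finset.sum_congr rfl fun e _ => ?_
  simp

/-- **Stresses with a prescribed star.** -/
theorem exists_stress_of_dep {A : Finset V} {E : Finset (Sym2 V)} (hE : E ⊆ Kf A)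
    {p : V → Vec k} {v : V} {c : V → k} (hc : ∀ j, c j ≠ 0 → s(v, j) ∈ E)
    {c₀ : k} (hsum : ∑ j ∈ A.erase v, c j • p j = c₀ • p v)
    (h0 : ∀ Z ∈ Mot (A.erase v) (E : Set (Sym2 V)) p,
      ∑ j ∈ A.erase v, c j * (Z j ⬝ᵥ p v) = 0) :
    ∃ ω ∈ Stress E p, ∀ j, j ≠ v → ω s(v, j) = c j := by
  classical
  let S : Finset (Sym2 V) := E.filter fun e => v ∉ e
  let φ : (V → Vec k) →ₗ[k] k := ∑ j ∈ A.erase v, c j • eps p v j
  have hφ : ∀ Z ∈ Mot0 p, φ Z = ∑ j ∈ A.erase v, c j * (Z j ⬝ᵥ p v) := by
    intro Z hZ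
    simp only [φ, LinearMap.sum_apply, LinearMap.smul_apply, smul_eq_mul, eps_apply, mul_add,
      Finset.sum_add_distrib]
    have : ∑ x ∈ A.erase v, c x * (Z v ⬝ᵥ p x) = Z v ⬝ᵥ ∑ j ∈ A.erase v, c j • p j := by
      rw [dotProduct_sum]
      exact Finset.sum_congr rfl fun j _ => by rw [dotProduct_smul, smul_eq_mul]
    rw [this, hsum, dotProduct_smul, hZ v, smul_zero, zero_add]
  have hmem : φ.domRestrict (Mot0 p) ∈ strainSpan (Mot0 p) (S : Set (Sym2 V)) p := by
    rw [mem_strainSpan_iff' (Mot0 p) (Finset.finite_toSet S)]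
    intro Z hZ hS
    rw [hφ Z hZ]
    have hcut : cut k (A.erase v) Z ∈ Mot (A.erase v) (E : Set (Sym2 V)) p := by
      refine cut_mem_Mot hZ fun a ha b hb hab => ?_
      have : s(a, b) ∈ (S : Set (Sym2 V)) := by
        simp only [S, Finset.coe_filter, Set.mem_ofPred_eq]
        refine ⟨by simpa using hab, ?_⟩
        rw [Sym2.mem_iff]
        rintro (h | h)
        · exact (Finset.mem_erase.mp ha).1 h.symm
        · exact (Finset.mem_erase.mp hb).1 h.symm
      exact hS _ this
    rw [← h0 _ hcut]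
    refine Finset.sum_congr rfl fun j hj => ?_
    rw [cut_apply Z hj]
  obtain ⟨a, ha0, ha⟩ := exists_coeff_of_mem_strainSpan hmem
  -- the stress
  let ω : Sym2 V → k := fun e => (∑ j ∈ A.erase v, if e = s(v, j) then c j else 0) - a e
  have hvS : ∀ j, s(v, j) ∉ S := by
    intro j hj
    have := (Finset.mem_filter.mp hj).2
    exact this (by simp)
  have hinj : ∀ j j', s(v, j) = s(v, j') → j = j' := by
    intro j j' h
    rw [Sym2.eq_iff] at h
    rcases h with h | h
    · exact h.2
    · rw [← h.1, h.2]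
  have hstar : ∀ j, j ≠ v → ω s(v, j) = c j := by
    intro j hj
    show (∑ j' ∈ A.erase v, if s(v, j) = s(v, j') then c j' else 0) - a s(v, j) = c j
    rw [ha0 _ (hvS j), sub_zero]
    by_cases hjA : j ∈ A
    · rw [Finset.sum_eq_single j]
      · simp
      · intro b _ hb
        rw [if_neg (fun h => hb (hinj _ _ h).symm)]
      · intro h
        exact absurd (Finset.mem_erase.mpr ⟨hj, hjA⟩) h
    · rw [Finset.sum_eq_zero]
      · by_contra h
        have h1 := hc j (fun h' => h h'.symm)
        have h2 := (mem_Kf.mp (hE h1)).2 j (by simp)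
        exact hjA h2
      · intro b hb
        rw [if_neg]
        intro h
        have := hinj _ _ h
        subst this
        exact hjA (Finset.mem_of_mem_erase hb)
  refine ⟨ω, ⟨?_, ?_⟩, hstar⟩
  · intro e he
    show (∑ j ∈ A.erase v, if e = s(v, j) then c j else 0) - a e = 0
    rw [ha0 e (fun h => he (Finset.mem_of_mem_filter e h)), sub_zero]
    refine Finset.sum_eq_zero fun j _ => ?_
    by_cases h : e = s(v, j)
    · rw [if_pos h]
      by_contra hcj
      exact he (h ▸ hc j hcj)
    · rw [if_neg h]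
  · intro Z hZ
    have h1 : ∑ e ∈ E, ω e * epsS p e Z
        = ∑ e ∈ E, (∑ j ∈ A.erase v, if e = s(v, j) then c j else 0) * epsS p e Z
          - ∑ e ∈ E, a e * epsS p e Z := by
      rw [← Finset.sum_sub_distrib]
      exact Finset.sum_congr rfl fun e _ => by simp only [ω]; ring
    have h2 : ∑ e ∈ E, a e * epsS p e Z = φ Z := by
      rw [ha Z hZ]
      symm
      refine Finset.sum_subset (Finset.filter_subset _ _) fun e _ he => ?_
      rw [ha0 e he, zero_mul]
    have h3 : ∑ e ∈ E, (∑ j ∈ A.erase v, if e = s(v, j) then c j else 0) * epsS p e Z = φ Z := by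
      simp only [Finset.sum_mul]
      rw [Finset.sum_comm]
      simp only [φ, LinearMap.sum_apply, LinearMap.smul_apply, smul_eq_mul]
      refine Finset.sum_congr rfl fun j hj => ?_
      by_cases hcj : c j = 0
      · rw [hcj, zero_mul]
        refine Finset.sum_eq_zero fun e _ => ?_
        split_ifs <;> simp
      · rw [Finset.sum_eq_single s(v, j)]
        · simp
        · intro e _ he
          rw [if_neg he, zero_mul]
        · intro h
          exact absurd (hc j hcj) h
    rw [h1, h2, h3, sub_self]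

/-- **Consequence of the clique property.** Let `v` have at least the neighbours `J`, `|J| ≤ 5`, and
let `c` be a dependency of `p_J` modulo `p_v` with all coefficients nonzero whose attaching
condition vanishes on all motions of `A - v`.  Then `J` is rigid on the motions of `A`. -/
theorem rigid_of_dep {A : Finset V} {E : Finset (Sym2 V)} (hE : E ⊆ Kf A)
    {p : V → Vec k} (hC : CliqueProp A p) {v : V} (hv : v ∈ A) {J : Finset V}
    (hJ : ∀ j ∈ J, s(v, j) ∈ E)
    (hJc : J.card ≤ 5) {c : V → k} (hc : ∀ j ∈ J, c j ≠ 0)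
    {c₀ : k} (hsum : ∑ j ∈ J, c j • p j = c₀ • p v)
    (h0 : ∀ Z ∈ Mot (A.erase v) (E : Set (Sym2 V)) p,
      ∑ j ∈ J, c j * (Z j ⬝ᵥ p v) = 0) :
    ∀ Z ∈ Mot A (E : Set (Sym2 V)) p, ∀ a ∈ J, ∀ b ∈ J, eps p a b Z = 0 := by
  classical
  have hJA : J ⊆ A.erase v := by
    intro j hj
    have h1 := mem_Kf.mp (hE (hJ j hj))
    refine Finset.mem_erase.mpr ⟨?_, h1.2 j (by simp)⟩
    rintro rfl
    exact h1.1 (by simp)
  let c' : V → k := fun j => if j ∈ J then c j else 0
  have hsub : ∀ f : V → Vec k, ∑ j ∈ A.erase v, c' j • f j = ∑ j ∈ J, c j • f j := by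
    intro f
    rw [← Finset.sum_subset hJA]
    · exact Finset.sum_congr rfl fun j hj => by simp [c', hj]
    · intro j _ hj; simp [c', hj]
  have hsub' : ∀ f : V → k, ∑ j ∈ A.erase v, c' j * f j = ∑ j ∈ J, c j * f j := by
    intro f
    rw [← Finset.sum_subset hJA]
    · exact Finset.sum_congr rfl fun j hj => by simp [c', hj]
    · intro j _ hj; simp [c', hj]
  obtain ⟨ω, hω, hstar⟩ := exists_stress_of_dep (A := A) hE (p := p) (v := v) (c := c') (c₀ := c₀)
    (fun j hj => by
      by_cases h : j ∈ J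
      · exact hJ j h
      · simp [c', h] at hj)
    (by rw [hsub, hsum])
    (fun Z hZ => by rw [hsub']; exact h0 Z hZ)
  refine hC E hE ω hω v hv J ?_ hJc
  intro j
  constructor
  · intro hj
    have h1 := Finset.mem_erase.mp (hJA hj)
    refine ⟨h1.2, h1.1, ?_⟩
    rw [hstar j h1.1]
    simpa [c', hj] using hc j hj
  · rintro ⟨_, h2, h3⟩
    rw [hstar j h2] at h3
    by_contra h
    simp [c', h] at h3

section Upd

/-- change the points of `W` -/
def upd (p : V → Vec k) (W : Finset V) (x : V → Vec k) : V → Vec k :=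
  fun v => if v ∈ W then x v else p v

lemma upd_apply {p : V → Vec k} {W : Finset V} {x : V → Vec k} {v : V} (h : v ∈ W) :
    upd p W x v = x v := by simp [upd, h]

lemma upd_apply_notMem {p : V → Vec k} {W : Finset V} {x : V → Vec k} {v : V} (h : v ∉ W) :
    upd p W x v = p v := by simp [upd, h]

variable [Infinite k]

/-- **Fubini for a finite set of vertices.** -/
theorem eventually_upd {P : (V → Vec k) → Prop} (h : ∀ᶠ p in gen k (V → Vec k), P p)
    (W : Finset V) :
    ∀ᶠ p in gen k (V → Vec k), ∀ᶠ x in gen k (V → Vec k), P (upd p W x) := by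
  obtain ⟨U, hb, hU⟩ := eventually_gen.mp h
  refine eventually_gen.mpr ⟨U, hb, ?_⟩
  intro p hp
  refine eventually_gen.mpr ⟨{x | upd p W x ∈ U}, ⟨⟨p, ?_⟩, ?_⟩, ?_⟩
  · have : upd p W p = p := by
      ext v : 1
      by_cases hv : v ∈ W <;> simp [upd, hv]
    show upd p W p ∈ U
    rwa [this]
  · intro x hx b
    refine (hb.2 _ hx (fun v => if v ∈ W then b v else 0)).subset ?_
    intro t ht hcon
    apply ht
    have e : upd p W x + t • (fun v => if v ∈ W then b v else 0) = upd p W (x + t • b) := by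
      ext v : 1
      by_cases hv : v ∈ W <;> simp [upd, hv]
    show upd p W (x + t • b) ∈ U
    rw [← e]
    exact hcon
  · intro x hx
    exact hU _ hx

/-- generic vectors separate a subspace of small dimension -/
theorem eventually_separate (Y : Submodule k (Vec k)) (W : Finset V)
    (h : finrank k Y ≤ W.card) :
    ∀ᶠ x in gen k (V → Vec k), ∀ y ∈ Y, (∀ w ∈ W, y ⬝ᵥ x w = 0) → y = 0 := by
  classical
  let b := Module.finBasis k Y
  have hli : ∀ᶠ x in gen k (V → Vec k),
      LinearIndependent k (fun i => fun w : W => (b i : Vec k) ⬝ᵥ x w) := by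
    refine eventually_linearIndependent_fun
      (fun (x : V → Vec k) i (w : W) => (b i : Vec k) ⬝ᵥ x w) ?_ ?_
    · intro i w
      exact polyLine_dot _ _
    · -- dual vectors
      have h1 : LinearIndependent k (fun i => (b i : Vec k)) :=
        b.linearIndependent.map' Y.subtype (Submodule.ker_subtype Y)
      have h2 : ∀ i, ∃ z : Vec k, ∀ j, z ⬝ᵥ (b j : Vec k) = if j = i then 1 else 0 := by
        intro i
        exact exists_dot_eq h1 (fun j => if j = i then 1 else 0)
      choose z hz using h2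
      obtain ⟨f⟩ : Nonempty (Fin (finrank k Y) ↪ W) := by
        apply Function.Embedding.nonempty_of_card_le
        simpa using h
      obtain ⟨x₀, hx⟩ : ∃ x₀ : V → Vec k, ∀ i, x₀ (f i) = z i := by
        refine ⟨fun v => if hv : ∃ i, (f i : V) = v then z hv.choose else 0, fun i => ?_⟩
        have hex : ∃ j, (f j : V) = f i := ⟨i, rfl⟩
        have : hex.choose = i := f.injective (Subtype.ext hex.choose_spec)
        simp only [dif_pos hex, this]
      refine ⟨x₀, ?_⟩
      rw [Fintype.linearIndependent_iff]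
      intro g hg i
      have h3 := congrFun hg (f i)
      simp only [Finset.sum_apply, Pi.smul_apply, smul_eq_mul, Pi.zero_apply] at h3
      rw [Finset.sum_eq_single i] at h3
      · rw [hx, dotProduct_comm, hz] at h3
        simpa using h3
      · intro j _ hj
        rw [hx, dotProduct_comm, hz]
        simp [hj]
      · exact fun h => absurd (Finset.mem_univ _) h
  filter_upwards [hli] with x hx y hy hw
  have e1 : y = ∑ i, b.repr ⟨y, hy⟩ i • (b i : Vec k) := by
    have h := congrArg Y.subtype (b.sum_repr ⟨y, hy⟩)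
    rw [map_sum] at h
    simp only [map_smul, Submodule.subtype_apply] at h
    exact h.symm
  rw [Fintype.linearIndependent_iff] at hx
  have h4 := hx (fun i => b.repr ⟨y, hy⟩ i) (by
    ext w
    simp only [Finset.sum_apply, Pi.smul_apply, smul_eq_mul, Pi.zero_apply]
    have := hw w w.2
    rw [e1, sum_dotProduct] at this
    rw [← this]
    exact Finset.sum_congr rfl fun i _ => by rw [smul_dotProduct, smul_eq_mul])
  rw [e1]
  exact Finset.sum_eq_zero fun i _ => by rw [h4 i, zero_smul]

end Upd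

end GR
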