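import Pool.Agent.Lib.GR.U1
import Pool.Agent.Lib.GR.CountIn
import Pool.Agent.Lib.GR.Dep

/-!
# The clique property: consequence of goodness of flats
-/

set_option linter.unusedSectionVars false

namespace GR

open Filter Module

open scoped Matrix

variable {k : Type*} [Field k] {V : Type*} [DecidableEq V]

lemma MaxCl.maxN {A : Finset V} {D : Finset (Sym2 V)} {v : V} {N : Finset V} (hD : D ⊆ Kf A)
    (h : MaxCl A D v N) : MaxN D v N := by
  refine ⟨⟨h.notMem, h.clique⟩, ?_⟩
  rintro M ⟨hvM, hM⟩ hNM w hw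
  have hwv : w ≠ v := fun hc => hvM (hc ▸ hw)
  refine h.max w ?_ ?_
  · have := hM (mk_mem_Kf.mpr ⟨hwv, Finset.mem_insert_of_mem hw, Finset.mem_insert_self _ _⟩)
    exact Finset.mem_erase.mpr ⟨hwv, (mem_Kf.mp (hD this)).2 w (by simp)⟩
  · refine (Kf_mono ?_).trans hM
    refine Finset.insert_subset_insert _ (Finset.insert_subset hw hNM)

/-- All flats on subsets of `A` are good at `p`. -/
def GoodAt (A : Finset V) (p : V → Vec k) : Prop :=
  ∀ W ⊆ A, ∀ D : Finset (Sym2 V), IsFlatIn W D p → Good D p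

lemma GoodAt.mono {A B : Finset V} {p : V → Vec k} (h : GoodAt A p) (hB : B ⊆ A) : GoodAt B p :=
  fun W hW D hD => h W (hW.trans hB) D hD

theorem eventually_goodAt [Infinite k] {A : Finset V} (h : ∀ W ⊆ A, AllGood k W) :
    ∀ᶠ p in gen k (V → Vec k), GoodAt A p := by
  have h1 : ∀ᶠ p in gen k (V → Vec k), ∀ W ∈ A.powerset,
      ∀ D : Finset (Sym2 V), IsFlatIn W D p → Good D p := by
    rw [Filter.eventually_all_finset]
    intro W hW
    exact h W (Finset.mem_powerset.mp hW)
  filter_upwards [h1] with p hp W hW D hD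
  exact hp W (Finset.mem_powerset.mpr hW) D hD

/-- COUNT at the vertex `v` of a flat all of whose restrictions are good. -/
theorem countAt_of_good {A : Finset V} {D : Finset (Sym2 V)} {p : V → Vec k} {v : V}
    (hv : v ∈ A) (hD : IsFlatIn A D p) (hp : GenPos p (A : Set V))
    (hgood : ∀ W ⊆ A, v ∈ W → Good (rest D W) p) : CountAt A D v := by
  intro J hJ h2
  refine count_int_in hD hD.1 hp hv J (fun N hN => (mem_bigCl.mp (hJ hN)).1.maxN hD.1)
    (fun N hN => ?_) h2 (hgood _ ?_ (Finset.mem_insert_self _ _))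
  · have := (mem_bigCl.mp (hJ hN)).2
    omega
  · refine Finset.insert_subset hv fun w hw => ?_
    obtain ⟨N, hN, hwN⟩ := Finset.mem_biUnion.mp hw
    exact Finset.mem_of_mem_erase ((mem_bigCl.mp (hJ hN)).1.sub hwN)

/-- **U1 for good flats.** -/
theorem clique_of_good {A : Finset V} {D : Finset (Sym2 V)} {p : V → Vec k} {v : V}
    (hv : v ∈ A) (hD : IsFlatIn A D p) (hp : GenPos p (A : Set V))
    (hgood : ∀ W ⊆ A, v ∈ W → Good (rest D W) p)
    {ω : Sym2 V → k} (hω : ω ∈ Stress D p) (h5 : (suppAt A ω v).card ≤ 5) :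
    Kf (suppAt A ω v) ⊆ D := by
  have hrest : rest D A = D := by
    ext e
    rw [mem_rest]
    exact ⟨fun h => h.1, fun h => ⟨h, hD.mem_vert e h⟩⟩
  have hg : Good D p := by
    have := hgood A subset_rfl hv
    rwa [hrest] at this
  rcases clique_of_mem_S5 hv hD.1 hp (countAt_of_good hv hD hp hgood) (hg hω) h5 with h | h
  · exact (Kf_mono (Finset.subset_insert _ _)).trans h
  · rw [h]
    intro e he
    rw [mem_Kf] at he
    induction e using Sym2.ind with
    | _ a b => exact absurd (he.2 a (by simp)) (by simp)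

lemma suppAt_subset (A : Finset V) (ω : Sym2 V → k) (v : V) : suppAt A ω v ⊆ A := fun _ hw =>
  (mem_suppAt.mp hw).2.1

theorem GoodAt.cliqueProp {A : Finset V} {p : V → Vec k} (hgood : GoodAt A p)
    (hp : GenPos p (A : Set V)) : CliqueProp A p := by
  intro E hE ω hω v hv N hN h5 Z hZ a ha b hb
  have hNs : N = suppAt A ω v := by
    ext j
    rw [hN, mem_suppAt]
    tauto
  subst hNs
  have hD := isFlatIn_clF A E p
  have h1 := clique_of_good hv hD hp (fun W hW _ => hgood W hW _ (hD.rest hW))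
    (Stress_mono (subset_clF hE p) p hω) h5
  by_cases hab : a = b
  · subst hab
    have := hZ.2.1 a (suppAt_subset A ω v ha)
    rw [eps_apply, this, add_zero]
  · have h2 : s(a, b) ∈ clF A E p := h1 (mk_mem_Kf.mpr ⟨hab, ha, hb⟩)
    exact (mem_clo_iff_Mot hE (suppAt_subset A ω v ha) (suppAt_subset A ω v hb)).mp
      (mem_clF.mp h2).2 Z hZ

theorem eventually_cliqueProp [Infinite k] {A : Finset V} (h : ∀ W ⊆ A, AllGood k W) :
    ∀ᶠ p in gen k (V → Vec k), CliqueProp A p := by
  filter_upwards [eventually_goodAt h, eventually_genPos (k := k) A] with p hp hgp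
  exact hp.cliqueProp hgp

end GR
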