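import Pool.Agent.Lib.GR.NoPair
import Pool.Agent.Lib.GR.Clique

/-!
# The frame at a body vertex `w` of a type B vertex: definitions

`w b c` is the body, `d e` the rod of a vertex `u` of type B; `U = A \ {u, w}` (`n - 2` vertices),
`X = nbr U E w \ {b, c}` the external neighbours of `w`.
-/

set_option linter.unusedSectionVars false

namespace GR

open Filter Module

open scoped Matrix

variable {k : Type*} [Field k] {V : Type*} [DecidableEq V]

/-- The motions of `U` in the gauge `Z b = 0`, `Z c = 0`, `Z d ⬝ᵥ p e = 0` (the space `K'`). -/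
def Kg (U : Finset V) (E : Set (Sym2 V)) (p : V → Vec k) (b c d e : V) :
    Submodule k (V → Vec k) where
  carrier := {Z | Z ∈ Mot U E p ∧ Z b = 0 ∧ Z c = 0 ∧ Z d ⬝ᵥ p e = 0}
  add_mem' := by
    rintro Z Z' ⟨h1, h2, h3, h4⟩ ⟨h1', h2', h3', h4'⟩
    exact ⟨Submodule.add_mem _ h1 h1', by simp [h2, h2'], by simp [h3, h3'],
      by simp [add_dotProduct, h4, h4']⟩
  zero_mem' := ⟨Submodule.zero_mem _, rfl, rfl, by simp⟩
  smul_mem' := by
    rintro r Z ⟨h1, h2, h3, h4⟩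
    exact ⟨Submodule.smul_mem _ _ h1, by simp [h2], by simp [h3], by simp [h4]⟩

/-- The elements of `K` to which a vertex at `x` can be attached at rest (neighbours `X`). -/
def Wg (K : Submodule k (V → Vec k)) (X : Finset V) (x : Vec k) : Submodule k (V → Vec k) where
  carrier := {Z | Z ∈ K ∧ ∀ y ∈ X, Z y ⬝ᵥ x = 0}
  add_mem' := by
    rintro Z Z' ⟨h1, h2⟩ ⟨h1', h2'⟩
    exact ⟨Submodule.add_mem _ h1 h1', fun y hy => by simp [add_dotProduct, h2 y hy, h2' y hy]⟩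
  zero_mem' := ⟨Submodule.zero_mem _, fun y _ => by simp⟩
  smul_mem' := by
    rintro r Z ⟨h1, h2⟩
    exact ⟨Submodule.smul_mem _ _ h1, fun y hy => by simp [h2 y hy]⟩

open Classical in
/-- the points of `N` where `f` does not vanish -/
noncomputable def sset (N : Finset V) (f : V → k) : Finset V := N.filter fun y => f y ≠ 0

lemma mem_sset {N : Finset V} {f : V → k} {y : V} : y ∈ sset N f ↔ y ∈ N ∧ f y ≠ 0 := by
  classical
  simp [sset]

/-- The data of the frame at the position `x` of the vertex `w`: the space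
`K(G - u; x) = Wg K X x`, the ratio `t`, the star `s` of the stress of `G - u + wd + we` at `w`
(`s e = 1`, `s d = -t`), the equilibrium and virtual work identities, and the decomposition
`s = ∑ a N` of `s` along maximal cliques `N + w` of `cl (G - u + wd)`; `rig` says that these
cliques are rigid on the motion of `cl (G - u + wd)`, and `max` is their maximality. -/
structure XData (K : Submodule k (V → Vec k)) (U X : Finset V) (p : V → Vec k) (b c d e : V)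
    (x : Vec k) (t : k) (s : V → k) (J : Finset (Finset V)) (a : Finset V → V → k) : Prop where
  t0 : t ≠ 0
  dim : finrank k (Wg K X x) = 2
  ratio : ∀ Z ∈ Wg K X x, Z e = t • Z d
  inj : ∀ Z ∈ Wg K X x, Z d = 0 → Z = 0
  se : s e = 1
  sd : s d = -t
  supp : ∀ y, s y ≠ 0 → y = b ∨ y = c ∨ y = d ∨ y = e ∨ y ∈ X
  equil : ∃ c₀ : k, ∑ y ∈ U, s y • p y = c₀ • x
  virt : ∀ Z ∈ K, (Z e ⬝ᵥ x) - t * (Z d ⬝ᵥ x) + ∑ y ∈ X, s y * (Z y ⬝ᵥ x) = 0
  sub : ∀ N ∈ J, N ⊆ U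
  rig : ∀ N ∈ J, ∀ Z ∈ Wg K X x, Z d ⬝ᵥ x = 0 → ∀ y ∈ N, Z y ⬝ᵥ x = 0 ∧
    ∀ y' ∈ N, eps p y y' Z = 0
  max : ∀ N ∈ J, ∀ y ∈ U, (∀ Z ∈ Wg K X x, Z d ⬝ᵥ x = 0 → Z y ⬝ᵥ x = 0 ∧
    ∀ y' ∈ N, eps p y y' Z = 0) → y ∈ N
  asupp : ∀ N ∈ J, ∀ y, a N y ≠ 0 → y ∈ N
  adep : ∀ N ∈ J, ∃ c₁ : k, ∑ y ∈ N, a N y • p y = c₁ • x
  afour : ∀ N ∈ J, 4 ≤ (sset N (a N)).card
  asum : ∀ y ∈ U, s y = ∑ N ∈ J, a N y
  count : ∀ J' ⊆ J, 2 ≤ J'.card →
    ∑ N ∈ J', (2 * (N.card : ℤ) - 3) + 4 ≤ 2 * ((J'.biUnion id).card : ℤ)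

/-- Hypotheses of the frame: `insert w U = A \ {u}`. -/
structure FrameHyp (k : Type*) [Field k] [Infinite k] {V : Type*} [DecidableEq V]
    (U : Finset V) (w b c d e : V) (E : Set (Sym2 V)) : Prop where
  two : (2 : k) ≠ 0
  hw : w ∉ U
  hb : b ∈ U
  hc : c ∈ U
  hd : d ∈ U
  he : e ∈ U
  hbc : b ≠ c
  hbd : b ≠ d
  hbe : b ≠ e
  hcd : c ≠ d
  hce : c ≠ e
  hde : d ≠ e
  ewb : s(w, b) ∈ E
  ewc : s(w, c) ∈ E
  ebc : s(b, c) ∈ E
  ede : s(d, e) ∈ E
  full : gdim k (insert w U) E = 8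
  base : gdim k U E = (nbr U E w).card + 5
  typ : ∀ᶠ p in gen k (V → Vec k), ∃ t : k, t ≠ 0 ∧ Mot (insert w U) E p ≤ TB p w b c d e t
  inj : ∀ᶠ p in gen k (V → Vec k), finrank k (Mot (insert w U) E p ⊓
    RG p ({w, b, c, d, e} : Set V) : Submodule k (V → Vec k)) ≤ 6
  good : ∀ᶠ p in gen k (V → Vec k), GoodAt (insert w U) p

/-- the external neighbours of `w` -/
noncomputable def extN (U : Finset V) (E : Set (Sym2 V)) (w b c : V) : Finset V :=
  (nbr U E w) \ {b, c}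

end GR
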