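import Pool.Agent.Lib.GR.MainLemma2

/-!
# The types A and B on the space `Q_X` of the Main Lemma
-/

set_option linter.unusedSectionVars false

namespace GR

open Filter Module

open scoped Matrix

variable {k : Type*} [Field k] [Infinite k] {V : Type*} [DecidableEq V]
  {U X : Finset V} {E : Set (Sym2 V)}

/-- The set of values of a labelling. -/
lemma labels_eq {N : Finset V} {σ : Fin 5 → N} (hσ : Function.Bijective σ) :
    (N : Set V) = {(σ 0 : V), (σ 1 : V), (σ 2 : V), (σ 3 : V), (σ 4 : V)} := by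
  ext v
  simp only [Finset.mem_coe, Set.mem_insert_iff, Set.mem_singleton_iff]
  constructor
  · intro hv
    obtain ⟨i, hi⟩ := hσ.2 ⟨v, hv⟩
    have : v = σ i := by rw [hi]
    fin_cases i <;> simp_all
  · rintro (h | h | h | h | h) <;> rw [h] <;> exact (σ _).2

/-- A four-subset cannot be rigid on a space of type A or B unless the 5-set is. -/
lemma le_RG_of_four {p : V → Vec k} {N : Finset V} (hcard : N.card = 5)
    (hgp : GenPos p (N : Set V)) {M : Submodule k (V → Vec k)}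
    (htyp : M ≤ TA p (N : Set V) ∨ ∃ σ : Fin 5 → N, Function.Bijective σ ∧ ∃ t : k, t ≠ 0 ∧
      M ≤ TB p (σ 0) (σ 1) (σ 2) (σ 3) (σ 4) t) {i : V}
    (hr : M ≤ RG p ((N.erase i : Finset V) : Set V)) : M ≤ RG p (N : Set V) := by
  intro Z hZ
  rcases htyp with h | ⟨σ, hσ, t, ht, h⟩
  · exact mem_RG_of_TA_of_four hgp hcard.ge (h hZ) (hr hZ)
  · have hne : ∀ i j : Fin 5, i ≠ j → (σ i : V) ≠ σ j := fun i j hij h =>
      hij (hσ.1 (Subtype.ext h))
    have hN := labels_eq hσ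
    have h1 : Z ∈ RG p (({(σ 0 : V), (σ 1 : V), (σ 2 : V), (σ 3 : V), (σ 4 : V)} : Set V) \ {i}) := by
      have h2 := hr hZ
      rwa [Finset.coe_erase, hN] at h2
    rw [hN]
    rw [hN] at hgp
    exact mem_RG_of_TB_of_four hgp (hne 0 1 (by decide)) (hne 0 2 (by decide))
      (hne 0 3 (by decide)) (hne 0 4 (by decide)) (hne 1 2 (by decide)) (hne 1 3 (by decide))
      (hne 1 4 (by decide)) (hne 2 3 (by decide)) (hne 2 4 (by decide)) (hne 3 4 (by decide))
      ht (h hZ) h1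

/-- labellings from an enumeration -/
lemma exists_labelling {N : Finset V} {a b c d e : V} (hN : N = {a, b, c, d, e})
    (hab : a ≠ b) (hac : a ≠ c) (had : a ≠ d) (hae : a ≠ e) (hbc : b ≠ c) (hbd : b ≠ d)
    (hbe : b ≠ e) (hcd : c ≠ d) (hce : c ≠ e) (hde : d ≠ e) :
    ∃ σ : Fin 5 → N, Function.Bijective σ ∧ (σ 0 : V) = a ∧ (σ 1 : V) = b ∧ (σ 2 : V) = c ∧
      (σ 3 : V) = d ∧ (σ 4 : V) = e := by
  subst hN
  refine ⟨![⟨a, by simp⟩, ⟨b, by simp⟩, ⟨c, by simp⟩, ⟨d, by simp⟩, ⟨e, by simp⟩], ?_, rfl, rfl,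
    rfl, rfl, rfl⟩
  rw [Fintype.bijective_iff_injective_and_card]
  constructor
  · intro i j hij
    fin_cases i <;> fin_cases j <;>
      simp_all [Subtype.ext_iff, Matrix.cons_val_zero, Matrix.cons_val_one]
  · rw [Fintype.card_coe, Finset.card_insert_of_notMem (by simp [hab, hac, had, hae]),
      Finset.card_insert_of_notMem (by simp [hbc, hbd, hbe]),
      Finset.card_insert_of_notMem (by simp [hcd, hce]),
      Finset.card_insert_of_notMem (by simp [hde]), Finset.card_singleton]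
    simp

/-- types of a bad space which moves with at least two degrees of freedom on a subspace of
type A or B -/
theorem typ_of_bad (h2 : (2 : k) ≠ 0) {M M' : Submodule k (V → Vec k)} [FiniteDimensional k M]
    {p : V → Vec k} {N : Finset V} (hcard : N.card = 5) (hgp : GenPos p (N : Set V))
    (hM : ∀ Z ∈ M, ∀ v ∈ N, Z v ⬝ᵥ p v = 0)
    (hbad : ∀ᶠ x in gen k (Vec k),
      finrank k M ≤ finrank k (M ⊓ Att p (N : Set V) x : Submodule k (V → Vec k)) + 1)
    (hM' : M' ≤ M)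
    (hdim : finrank k (M' ⊓ RG p (N : Set V) : Submodule k (V → Vec k)) + 2 ≤ finrank k M')
    (htyp : M' ≤ TA p (N : Set V) ∨ ∃ σ : Fin 5 → N, Function.Bijective σ ∧ ∃ t : k, t ≠ 0 ∧
      M' ≤ TB p (σ 0) (σ 1) (σ 2) (σ 3) (σ 4) t) :
    M ≤ TA p (N : Set V) ∨ ∃ σ : Fin 5 → N, Function.Bijective σ ∧ ∃ t : k, t ≠ 0 ∧
      M ≤ TB p (σ 0) (σ 1) (σ 2) (σ 3) (σ 4) t := by
  rcases types_of_bad h2 hcard hgp hM hbad with h | ⟨i, hi, h⟩ | h | h
  · exfalso
    have h1 := finrank_le_of_le_codim hM' h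
    omega
  · exfalso
    have h1 : M' ≤ RG p (N : Set V) := le_RG_of_four hcard hgp htyp (hM'.trans h)
    rw [inf_eq_left.mpr h1] at hdim
    omega
  · exact Or.inl h
  · right
    obtain ⟨a, b, c, d, e, hN, hab, hac, had, hae, hbc, hbd, hbe, hcd, hce, hde, t, ht, hTB⟩ := h
    obtain ⟨σ, hσ, h0, h1, h2, h3, h4⟩ :=
      exists_labelling hN hab hac had hae hbc hbd hbe hcd hce hde
    exact ⟨σ, hσ, t, ht, by rw [h0, h1, h2, h3, h4]; exact hTB⟩

/-- **Types on `Q_X`.** -/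
theorem MLHyp.types (h : MLHyp k U X E) (h2 : (2 : k) ≠ 0) (hX : X.Nonempty) :
    ∀ᶠ p in gen k (V → Vec k), ∀ u ∈ X,
      QX U X E p ≤ TA p (nbr U E u : Set V) ∨
      ∃ σ : Fin 5 → nbr U E u, Function.Bijective σ ∧ ∃ t : k, t ≠ 0 ∧
        QX U X E p ≤ TB p (σ 0) (σ 1) (σ 2) (σ 3) (σ 4) t := by
  classical
  have hinj : ∀ᶠ p in gen k (V → Vec k), ∀ u ∈ X,
      finrank k (Mot (U ∪ X.erase u) E p ⊓ RG p (nbr U E u : Set V) :
      Submodule k (V → Vec k)) ≤ 6 := by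
    rw [Filter.eventually_all_finset]; exact h.inj
  have htyp : ∀ᶠ p in gen k (V → Vec k), ∀ u ∈ X,
      Mot (U ∪ X.erase u) E p ≤ TA p (nbr U E u : Set V) ∨
      ∃ σ : Fin 5 → nbr U E u, Function.Bijective σ ∧ ∃ t : k, t ≠ 0 ∧
        Mot (U ∪ X.erase u) E p ≤ TB p (σ 0) (σ 1) (σ 2) (σ 3) (σ 4) t := by
    rw [Filter.eventually_all_finset]; exact h.typ
  have hdim : ∀ᶠ p in gen k (V → Vec k), ∀ u ∈ X,
      mdim (U ∪ X.erase u) E p = 8 := by
    rw [Filter.eventually_all_finset]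
    intro u hu
    filter_upwards [eventually_mdim_eq (k := k) (U ∪ X.erase u) E] with p hp
    rw [hp]
    have h2 := h.proper (X.erase u) (Finset.erase_subset _ _) (fun e =>
      Finset.notMem_erase u X (by rw [e]; exact hu))
    have h3 := Finset.card_erase_add_one hu
    omega
  filter_upwards [h.main hX, hinj, htyp, hdim, h.eventually_genPos, h.eventually_span] with
    p hm h3 h4 h5 h6 h7 u hu
  obtain ⟨-, m2, -, -, m5⟩ := hm
  have hfd : FiniteDimensional k (QX U X E p) := Submodule.finiteDimensional_of_le (QX_le _ _ _ _)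
  have hcutN : ∀ Z : V → Vec k, ∀ v ∈ (nbr U E u : Set V), cut k U Z v = Z v := fun Z v hv =>
    cut_apply _ (nbr_subset _ _ _ (by simpa using hv))
  refine typ_of_bad h2 (M' := (Mot (U ∪ X.erase u) E p).map (cut k U)) (h.card5 u hu) (h6 u hu)
    (fun Z hZ v hv => (QX_le _ _ _ _ hZ).2.1 v (nbr_subset _ _ _ hv)) ?_ (m2 u hu) ?_ ?_
  · filter_upwards [m5 u hu] with x hx
    exact hx _ le_rfl
  · rw [finrank_map_cut (fun w hw => h7 w (Finset.mem_of_mem_erase hw)) le_rfl]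
    have hle : (Mot (U ∪ X.erase u) E p).map (cut k U) ⊓ RG p (nbr U E u : Set V)
        ≤ (Mot (U ∪ X.erase u) E p ⊓ RG p (nbr U E u : Set V)).map (cut k U) := by
      rintro _ ⟨⟨Y, hY, rfl⟩, hR⟩
      exact ⟨Y, ⟨hY, (mem_RG_congr (hcutN Y)).mp hR⟩, rfl⟩
    have hfd2 : FiniteDimensional k
        (Mot (U ∪ X.erase u) E p ⊓ RG p (nbr U E u : Set V) : Submodule k (V → Vec k)) :=
      Submodule.finiteDimensional_of_le inf_le_left
    have h8 := Submodule.finrank_mono hle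
    have h9 := Submodule.finrank_map_le (cut k U)
      (Mot (U ∪ X.erase u) E p ⊓ RG p (nbr U E u : Set V))
    have h10 := h3 u hu
    have h11 := h5 u hu
    rw [mdim] at h11
    omega
  · rcases h4 u hu with h8 | ⟨σ, hσ, t, ht, h8⟩
    · left
      rintro _ ⟨Y, hY, rfl⟩
      exact (mem_TA_congr (hcutN Y)).mpr (h8 hY)
    · right
      refine ⟨σ, hσ, t, ht, ?_⟩
      rintro _ ⟨Y, hY, rfl⟩
      exact (mem_TB_congr (hcutN Y _ (σ 0).2) (hcutN Y _ (σ 1).2) (hcutN Y _ (σ 2).2)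
        (hcutN Y _ (σ 3).2) (hcutN Y _ (σ 4).2)).mpr (h8 hY)

end GR
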