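import Pool.Agent.Lib.GR.BLocDef
import Pool.Agent.Lib.GR.MainTypes

/-!
# The gauge `Z b = 0`, `Z c = 0`, `Z d ⬝ p e = 0`; the tool (QJ)
-/

set_option linter.unusedSectionVars false

namespace GR

open Filter Module

open scoped Matrix

variable {k : Type*} [Field k] {V : Type*} [DecidableEq V]

/-- a covector vanishing on four independent vectors is zero -/
lemma perp_four {x y z u v : Vec k} (h : LinearIndependent k ![x, y, z, u]) (hx : v ⬝ᵥ x = 0)
    (hy : v ⬝ᵥ y = 0) (hz : v ⬝ᵥ z = 0) (hu : v ⬝ᵥ u = 0) : v = 0 := by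
  have hspan := h.span_eq_top_of_card_eq_finrank (by simp)
  refine dotProduct_eq_zero _ fun w => ?_
  have hmem : w ∈ Submodule.span k (Set.range ![x, y, z, u]) := by
    rw [hspan]; exact Submodule.mem_top
  refine Submodule.span_induction (p := fun w _ => v ⬝ᵥ w = 0) ?_ ?_ ?_ ?_ hmem
  · rintro _ ⟨i, rfl⟩
    fin_cases i
    · exact hx
    · exact hy
    · exact hz
    · exact hu
  · simp
  · intro a b _ _ ha hb; rw [dotProduct_add, ha, hb, add_zero]
  · intro a b _ hb; rw [dotProduct_smul, hb, smul_zero]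

/-- prescribed values of a covector on four independent vectors -/
lemma exists_dot_four {x y z u : Vec k} (h : LinearIndependent k ![x, y, z, u]) (a b c d : k) :
    ∃ v : Vec k, v ⬝ᵥ x = a ∧ v ⬝ᵥ y = b ∧ v ⬝ᵥ z = c ∧ v ⬝ᵥ u = d := by
  obtain ⟨v, hv⟩ := exists_dot_eq h ![a, b, c, d]
  exact ⟨v, by simpa using hv 0, by simpa using hv 1, by simpa using hv 2, by simpa using hv 3⟩

section Kg

variable {U : Finset V} {E : Set (Sym2 V)} {p : V → Vec k} {b c d e : V}

lemma Kg_le : Kg U E p b c d e ≤ Mot U E p := fun _ h => h.1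

lemma Kg_zb {Z : V → Vec k} (h : Z ∈ Kg U E p b c d e) : Z b = 0 := h.2.1

lemma Kg_zc {Z : V → Vec k} (h : Z ∈ Kg U E p b c d e) : Z c = 0 := h.2.2.1

lemma Kg_de {Z : V → Vec k} (h : Z ∈ Kg U E p b c d e) : Z d ⬝ᵥ p e = 0 := h.2.2.2

lemma Kg_loop {Z : V → Vec k} (h : Z ∈ Kg U E p b c d e) {v : V} (hv : v ∈ U) :
    Z v ⬝ᵥ p v = 0 := h.1.2.1 v hv

lemma Kg_ed {Z : V → Vec k} (h : Z ∈ Kg U E p b c d e) (hd : d ∈ U) (he : e ∈ U)
    (hde : s(d, e) ∈ E) : Z e ⬝ᵥ p d = 0 := by
  have h1 := h.1.2.2 d hd e he hde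
  rw [eps_apply, Kg_de h, zero_add] at h1
  exact h1

lemma Kg_anti {E' : Set (Sym2 V)} (h : E ⊆ E') : Kg U E' p b c d e ≤ Kg U E p b c d e :=
  fun _ hZ => ⟨Mot_anti h p hZ.1, hZ.2⟩

instance Kg_finiteDimensional : FiniteDimensional k (Kg U E p b c d e) :=
  Submodule.finiteDimensional_of_le Kg_le

/-- **Existence of the gauge.** -/
theorem exists_gauge (hp : GenPos p (U : Set V)) (hb : b ∈ U) (hc : c ∈ U) (hd : d ∈ U)
    (he : e ∈ U) (hbc : b ≠ c) (hbd : b ≠ d) (hbe : b ≠ e) (hcd : c ≠ d) (hce : c ≠ e)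
    (hde : d ≠ e) (ebc : s(b, c) ∈ E) {Z : V → Vec k} (hZ : Z ∈ Mot U E p) :
    ∃ L ∈ Skew k, Z - triv U p L ∈ Kg U E p b c d e := by
  classical
  have hli : LinearIndependent k ![p b, p c, p d, p e] :=
    hp.four hb hc hd he hbc hbd hbe hcd hce hde
  obtain ⟨z, h1, h2, h3, h4⟩ := exists_dot_four hli (-(Z b ⬝ᵥ p d)) (-(Z c ⬝ᵥ p d)) 0 (Z d ⬝ᵥ p e)
  have ebc' := hZ.2.2 b hb c hc ebc
  rw [eps_apply] at ebc'
  have lb := hZ.2.1 b hb
  have lc := hZ.2.1 c hc
  let Z' : V → Vec k := Function.update Z d z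
  have hZb : Z' b = Z b := Function.update_of_ne hbd _ _
  have hZc : Z' c = Z c := Function.update_of_ne hcd _ _
  have hZd : Z' d = z := Function.update_self _ _ _
  obtain ⟨L, hL, hLv⟩ := exists_skew_of_rigid (p := p) (Z := Z') (N := {b, c, d})
    (hp.mono (by
      intro x hx
      simp only [Finset.coe_insert, Finset.coe_singleton, Set.mem_insert_iff,
        Set.mem_singleton_iff] at hx
      rcases hx with rfl | rfl | rfl <;> assumption))
    (by rw [Finset.card_insert_of_notMem (by simp [hbc, hbd]),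
          Finset.card_insert_of_notMem (by simp [hcd]), Finset.card_singleton])
    (by
      intro v hv
      simp only [Finset.mem_insert, Finset.mem_singleton] at hv
      rcases hv with rfl | rfl | rfl
      · rw [hZb]; exact lb
      · rw [hZc]; exact lc
      · rw [hZd]; exact h3)
    (by
      intro x hx y hy
      simp only [Finset.mem_insert, Finset.mem_singleton] at hx hy
      rw [eps_apply]
      rcases hx with rfl | rfl | rfl <;> rcases hy with rfl | rfl | rfl <;>
        simp only [hZb, hZc, hZd] <;>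
        first
          | linear_combination lb + lb
          | linear_combination lc + lc
          | linear_combination h3 + h3
          | linear_combination ebc'
          | linear_combination h1
          | linear_combination h2)
  refine ⟨L, hL, Submodule.sub_mem _ hZ (triv_mem_Mot U E p hL), ?_, ?_, ?_⟩
  · rw [Pi.sub_apply, triv_apply p L hb, ← hLv b (by simp), hZb, sub_self]
  · rw [Pi.sub_apply, triv_apply p L hc, ← hLv c (by simp), hZc, sub_self]
  · rw [Pi.sub_apply, triv_apply p L hd, ← hLv d (by simp), hZd, sub_dotProduct, h4, sub_self]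

/-- **Uniqueness of the gauge.** -/
theorem gauge_unique (hp : GenPos p (U : Set V)) (hb : b ∈ U) (hc : c ∈ U) (hd : d ∈ U)
    (he : e ∈ U) (hbc : b ≠ c) (hbd : b ≠ d) (hbe : b ≠ e) (hcd : c ≠ d) (hce : c ≠ e)
    (hde : d ≠ e) {L : Matrix (Fin 4) (Fin 4) k} (hL : L ∈ Skew k)
    (h : triv U p L ∈ Kg U E p b c d e) : L = 0 := by
  have hli : LinearIndependent k ![p b, p c, p d, p e] :=
    hp.four hb hc hd he hbc hbd hbe hcd hce hde
  have h1 : L *ᵥ p b = 0 := by rw [← triv_apply p L hb]; exact Kg_zb h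
  have h2 : L *ᵥ p c = 0 := by rw [← triv_apply p L hc]; exact Kg_zc h
  have h3 : (L *ᵥ p d) ⬝ᵥ p e = 0 := by rw [← triv_apply p L hd]; exact Kg_de h
  have h4 : L *ᵥ p d = 0 := by
    refine perp_four hli ?_ ?_ ?_ h3
    · rw [Skew.dot_eq hL, h1]; simp
    · rw [Skew.dot_eq hL, h2]; simp
    · exact Skew.dot_self hL _
  have hli3 : LinearIndependent k ![p b, p c, p d] := by
    have := hli.comp (![0, 1, 2] : Fin 3 → Fin 4) (by decide)
    convert this using 1
    ext i
    fin_cases i <;> rfl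
  refine skew_eq_zero hL hli3 (by simp) fun i => ?_
  fin_cases i
  · exact h1
  · exact h2
  · exact h4

/-- **Dimension of the gauged motions.** -/
theorem finrank_Kg (hp : GenPos p (U : Set V)) (hb : b ∈ U) (hc : c ∈ U) (hd : d ∈ U)
    (he : e ∈ U) (hbc : b ≠ c) (hbd : b ≠ d) (hbe : b ≠ e) (hcd : c ≠ d) (hce : c ≠ e)
    (hde : d ≠ e) (ebc : s(b, c) ∈ E) :
    finrank k (Kg U E p b c d e) + 6 = mdim U E p := by
  classical
  let T := (Skew k).map (triv U p)
  have hTle : T ≤ Mot U E p := by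
    rintro _ ⟨L, hL, rfl⟩
    exact triv_mem_Mot U E p hL
  have hinf : Kg U E p b c d e ⊓ T = ⊥ := by
    rw [eq_bot_iff]
    rintro _ ⟨h, L, hL, rfl⟩
    rw [gauge_unique hp hb hc hd he hbc hbd hbe hcd hce hde hL h, map_zero]
    exact Submodule.zero_mem _
  have hsup : Kg U E p b c d e ⊔ T = Mot U E p := by
    refine le_antisymm (sup_le Kg_le hTle) fun Z hZ => ?_
    obtain ⟨L, hL, h⟩ := exists_gauge (E := E) hp hb hc hd he hbc hbd hbe hcd hce hde ebc hZ
    have : Z = (Z - triv U p L) + triv U p L := by abel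
    rw [this]
    exact Submodule.add_mem_sup h ⟨L, hL, rfl⟩
  have hT : finrank k T = 6 := by
    rw [← finrank_Skew (k := k)]
    let f : Skew k →ₗ[k] T := ((triv U p).domRestrict (Skew k)).codRestrict T
      (fun L => ⟨L.1, L.2, rfl⟩)
    have hf : Function.Bijective f := by
      constructor
      · rw [← LinearMap.ker_eq_bot, LinearMap.ker_eq_bot']
        intro L hL
        have h0 : triv U p L.1 = 0 := congrArg Subtype.val hL
        refine Subtype.ext (gauge_unique (E := E) hp hb hc hd he hbc hbd hbe hcd hce hde L.2 ?_)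
        rw [h0]
        exact Submodule.zero_mem _
      · rintro ⟨_, L, hL, rfl⟩
        exact ⟨⟨L, hL⟩, rfl⟩
    exact (LinearEquiv.ofBijective f hf).finrank_eq.symm
  have : FiniteDimensional k T := Submodule.finiteDimensional_of_le hTle
  have h := Submodule.finrank_sup_add_finrank_inf_eq (Kg U E p b c d e) T
  rw [hsup, hinf, finrank_bot, hT] at h
  unfold mdim
  omega

/-- motions are rigid on a set iff their gauged versions are -/
lemma eps_sub_triv {L : Matrix (Fin 4) (Fin 4) k} (hL : L ∈ Skew k) {x y : V} (hx : x ∈ U)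
    (hy : y ∈ U) (Z : V → Vec k) : eps p x y (Z - triv U p L) = eps p x y Z := by
  rw [map_sub, eps_triv p hL hx hy, sub_zero]

/-- **(QJ)**: if `y` is joined to the virtual point `q = p e - t p d`, the rod `d e` moves with at
most one degree of freedom when `y` is at rest. -/
theorem eventually_QJ [Infinite k] {w : V} (h2 : (2 : k) ≠ 0) (hw : w ∉ U)
    (hCP : ∀ᶠ p in gen k (V → Vec k), CliqueProp (insert w U) p)
    (hb : b ∈ U) (hc : c ∈ U) (hd : d ∈ U)
    (he : e ∈ U) (hbc : b ≠ c) (hbd : b ≠ d) (hbe : b ≠ e) (hcd : c ≠ d) (hce : c ≠ e)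
    (hde : d ≠ e) :
    ∀ᶠ p in gen k (V → Vec k), ∀ E' : Set (Sym2 V), s(b, c) ∈ E' → s(d, e) ∈ E' →
      ∀ t : k, t ≠ 0 → ∀ y ∈ U, y ≠ b → y ≠ c → y ≠ d → y ≠ e →
      LinearIndependent k ![p y, p e - t • p d, p b, p c] →
      (∀ Z ∈ Kg U E' p b c d e, Z e = t • Z d) →
      (∀ Z ∈ Kg U E' p b c d e, Z y ⬝ᵥ (p e - t • p d) = 0) →
      ∀ Z ∈ Kg U E' p b c d e, ∀ Z' ∈ Kg U E' p b c d e, Z y = 0 → Z' y = 0 →
        ∃ r r' : k, (r ≠ 0 ∨ r' ≠ 0) ∧ r • Z d + r' • Z' d = 0 := by
  classical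
  filter_upwards [factR_set (B := U) hw h2 hCP, eventually_genPos (k := k) U] with p hR hgp
  intro E' ebc ede t ht y hy hyb hyc hyd hye hli hq hyq Z hZ Z' hZ' hZy hZ'y
  set E'' : Set (Sym2 V) := insert s(b, y) (insert s(c, y) E') with hE''
  have hsub : E' ⊆ E'' := fun x hx => by simp [E'', hx]
  set N : Finset V := {b, c, y, d, e} with hN
  have hNU : N ⊆ U := by
    intro x hx
    simp only [N, Finset.mem_insert, Finset.mem_singleton] at hx
    rcases hx with rfl | rfl | rfl | rfl | rfl <;> assumption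
  have hN5 : N.card = 5 := by
    rw [hN, Finset.card_insert_of_notMem (by simp [hbc, hyb.symm, hbd, hbe]),
      Finset.card_insert_of_notMem (by simp [hyc.symm, hcd, hce]),
      Finset.card_insert_of_notMem (by simp [hyd, hye]),
      Finset.card_insert_of_notMem (by simp [hde]), Finset.card_singleton]
  have hNset : (N : Set V) = {b, c, y, d, e} := by simp [hN]
  have hgpN : GenPos p (N : Set V) := hgp.mono (by exact_mod_cast hNU)
  -- elements of Kg for E''
  have hK'' : ∀ Y ∈ Kg U E'' p b c d e, Y ∈ Kg U E' p b c d e ∧ Y y = 0 := by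
    intro Y hY
    have hY' := Kg_anti hsub hY
    refine ⟨hY', perp_four hli (Kg_loop hY hy) (hyq Y hY') ?_ ?_⟩
    · have := hY.1.2.2 b hb y hy (by simp [E''])
      rw [eps_apply, Kg_zb hY, zero_dotProduct, zero_add] at this
      exact this
    · have := hY.1.2.2 c hc y hy (by simp [E''])
      rw [eps_apply, Kg_zc hY, zero_dotProduct, zero_add] at this
      exact this
  -- the converse
  have hback : ∀ Y ∈ Kg U E' p b c d e, Y y = 0 → Y ∈ Mot U E'' p := by
    intro Y hY hYy
    refine ⟨hY.1.1, hY.1.2.1, fun x hx x' hx' hxx' => ?_⟩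
    rcases hxx' with h | h | h
    · rcases Sym2.eq_iff.mp h with ⟨rfl, rfl⟩ | ⟨rfl, rfl⟩
      · rw [eps_apply, Kg_zb hY, hYy]; simp
      · rw [eps_apply, Kg_zb hY, hYy]; simp
    · rcases Sym2.eq_iff.mp h with ⟨rfl, rfl⟩ | ⟨rfl, rfl⟩
      · rw [eps_apply, Kg_zc hY, hYy]; simp
      · rw [eps_apply, Kg_zc hY, hYy]; simp
    · exact hY.1.2.2 x hx x' hx' h
  have hTB : Mot U E'' p ≤ TB p b c y d e t := by
    intro Y hY
    obtain ⟨L, hL, h⟩ := exists_gauge (E := E'') hgp hb hc hd he hbc hbd hbe hcd hce hde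
      (hsub ebc) hY
    obtain ⟨h1, h2'⟩ := hK'' _ h
    have hval : ∀ v ∈ U, Y v = (Matrix.mulVecLin L) (p v) + (Y - triv U p L) v := by
      intro v hv
      rw [Pi.sub_apply, triv_apply p L hv, Matrix.mulVecLin_apply]
      abel
    refine ⟨Matrix.mulVecLin L, isSkew_of_mem_Skew hL, (Y - triv U p L) d, Kg_loop h1 hd, Kg_de h1,
      ?_, ?_, ?_, hval d hd, ?_⟩
    · rw [hval b hb, Kg_zb h1, add_zero]
    · rw [hval c hc, Kg_zc h1, add_zero]
    · rw [hval y hy, h2', add_zero]
    · rw [hval e he, hq _ h1]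
  have hbad : ∀ᶠ x in gen k (Vec k), finrank k (Mot U E'' p) ≤
      finrank k (Mot U E'' p ⊓ Att p (N : Set V) x : Submodule k (V → Vec k)) + 1 := by
    refine Filter.Eventually.of_forall fun x => finrank_le_of_TB (a := b) (b := c) (c := y)
      (d := d) (e := e) (t := t) ?_ hTB x
    intro v hv
    rw [hNset] at hv
    simpa using hv
  -- rigid elements in the gauge have Y d = 0
  have hRG : ∀ Y ∈ Kg U E' p b c d e, Y y = 0 → Y ∈ RG p (N : Set V) → Y d = 0 := by
    rintro Y hY hYy ⟨S, hS, h⟩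
    have hli3 : LinearIndependent k ![p b, p c, p y] := by
      have := hli.comp (![2, 3, 0] : Fin 3 → Fin 4) (by decide)
      convert this using 1
      ext i
      fin_cases i <;> rfl
    have hS0 : S = 0 := hS.eq_zero_of_three hli3
      (by rw [← h b (by rw [hNset]; simp), Kg_zb hY]) (by rw [← h c (by rw [hNset]; simp), Kg_zc hY])
      (by rw [← h y (by rw [hNset]; simp), hYy])
    rw [h d (by rw [hNset]; simp), hS0, LinearMap.zero_apply]
  rcases hR E'' N hNU hN5 hbad with h | ⟨i, hi, h⟩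
  · obtain ⟨r, r', hrr, hmem⟩ := exists_comb inf_le_left h (hback Z hZ hZy) (hback Z' hZ' hZ'y)
    refine ⟨r, r', hrr, ?_⟩
    have := hRG (r • Z + r' • Z') (Submodule.add_mem _ (Submodule.smul_mem _ _ hZ)
      (Submodule.smul_mem _ _ hZ')) (by simp [hZy, hZ'y]) hmem.2
    simpa using this
  · -- a rigid four-subset
    refine ⟨1, 0, Or.inl one_ne_zero, ?_⟩
    have hZm := hback Z hZ hZy
    have h3 : Z ∈ RG p ({b, c, y, d, e} : Set V) := by
      refine mem_RG_of_TB_of_four (i := i) (by rw [← hNset]; exact hgpN) hbc hyb.symm hbd hbe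
        hyc.symm hcd hce hyd hye hde ht (hTB hZm) ?_
      have h4 := h hZm
      obtain ⟨S, hS, h5⟩ := h4
      refine ⟨S, hS, fun j hj => h5 j ?_⟩
      rw [← hNset] at hj
      simpa [and_comm] using hj
    have := hRG Z hZ hZy (by rw [hNset]; exact h3)
    simp [this]

end Kg

end GR
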