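import Pool.Agent.Lib.GR.BLocThree

/-!
# The frame: a ratio which depends on the position

If the ratio `t` is not constant, then `|X| ≥ 3`, and for `|X| = 3` some external neighbour is at
rest for all elements of `K`.
-/

set_option linter.unusedSectionVars false

namespace GR

open Filter Module

open scoped Matrix

variable {k : Type*} [Field k] {V : Type*} [DecidableEq V]

/-- The setting common to the cases of a constant and of a non constant ratio. -/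
structure KFrame [Infinite k] (K : Submodule k (V → Vec k)) (U X : Finset V) (p : V → Vec k)
    (b c d e : V) : Prop where
  gp : GenPos p (U : Set V)
  hb : b ∈ U
  hc : c ∈ U
  hd : d ∈ U
  he : e ∈ U
  hbc : b ≠ c
  hbd : b ≠ d
  hbe : b ≠ e
  hcd : c ≠ d
  hce : c ≠ e
  hde : d ≠ e
  XU : X ⊆ U
  bX : b ∉ X
  cX : c ∉ X
  dX : d ∉ X
  eX : e ∉ X
  fin : FiniteDimensional k K
  kb : ∀ Z ∈ K, Z b = 0
  kc : ∀ Z ∈ K, Z c = 0
  kde : ∀ Z ∈ K, Z d ⬝ᵥ p e = 0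
  ked : ∀ Z ∈ K, Z e ⬝ᵥ p d = 0
  loop : ∀ Z ∈ K, ∀ y ∈ U, Z y ⬝ᵥ p y = 0
  ev : ∀ᶠ x in gen k (Vec k), ∃ t s J a, XData K U X p b c d e x t s J a

section Lemmas

variable {K : Submodule k (V → Vec k)} {U X : Finset V} {p : V → Vec k} {b c d e : V}
  {x x' : Vec k} {t t' : k} {s s' : V → k} {J J' : Finset (Finset V)} {a a' : Finset V → V → k}

/-- the ratio is unique -/
lemma XData.t_unique (h : XData K U X p b c d e x t s J a)
    (h' : XData K U X p b c d e x t' s' J' a') (hK : FiniteDimensional k K) : t = t' := by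
  obtain ⟨Y, hY, -, hne⟩ := h.exists_Y hK
  have h1 := h.ratio Y hY
  rw [h'.ratio Y hY] at h1
  have h2 : (t - t') • Y d = 0 := by rw [sub_smul, ← h1, sub_self]
  exact sub_eq_zero.mp ((smul_eq_zero.mp h2).resolve_right hne)

/-- positions with different ratios have transversal spaces -/
lemma XData.inf_eq_bot (h : XData K U X p b c d e x t s J a)
    (h' : XData K U X p b c d e x' t' s' J' a') (ht : t ≠ t') :
    Wg K X x ⊓ Wg K X x' = ⊥ := by
  rw [Submodule.eq_bot_iff]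
  rintro Z ⟨hZ, hZ'⟩
  have h1 := h.ratio Z hZ
  rw [h'.ratio Z hZ'] at h1
  have h2 : (t - t') • Z d = 0 := by rw [sub_smul, ← h1, sub_self]
  exact h.inj Z hZ ((smul_eq_zero.mp h2).resolve_left (sub_ne_zero.mpr ht))

lemma XData.four_le (h : XData K U X p b c d e x t s J a)
    (h' : XData K U X p b c d e x' t' s' J' a') (ht : t ≠ t') (hK : FiniteDimensional k K) :
    4 ≤ finrank k K := by
  have hle : ∀ x, Wg K X x ≤ K := fun x Z hZ => hZ.1
  have : FiniteDimensional k (Wg K X x) := Submodule.finiteDimensional_of_le (hle x)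
  have : FiniteDimensional k (Wg K X x') := Submodule.finiteDimensional_of_le (hle x')
  have h1 := Submodule.finrank_sup_add_finrank_inf_eq (Wg K X x) (Wg K X x')
  rw [h.inf_eq_bot h' ht, finrank_bot, add_zero, h.dim, h'.dim] at h1
  have h2 := Submodule.finrank_mono (R := k) (sup_le (hle x) (hle x') : Wg K X x ⊔ Wg K X x' ≤ K)
  omega

end Lemmas

namespace KFrame

variable [Infinite k] {K : Submodule k (V → Vec k)} {U X : Finset V} {p : V → Vec k} {b c d e : V}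

/-- The setting with a constant ratio. -/
lemma const (h : KFrame K U X p b c d e) {t : k}
    (ht : ∀ᶠ x in gen k (Vec k), ∃ s J a, XData K U X p b c d e x t s J a) :
    ConstFrame K U X p b c d e t := by
  obtain ⟨x, s, J, a, hx⟩ := ht.exists
  exact ⟨h.gp, h.hb, h.hc, h.hd, h.he, h.hbc, h.hbd, h.hbe, h.hcd, h.hce, h.hde, h.XU, h.bX, h.cX,
    h.dX, h.eX, hx.t0, h.fin, h.kb, h.kc, h.kde, h.ked, h.loop, ht⟩

/-- The dichotomy. -/
lemma const_or (h : KFrame K U X p b c d e) :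
    (∃ t, ∀ᶠ x in gen k (Vec k), ∃ s J a, XData K U X p b c d e x t s J a) ∨
    (∀ t₀, ∃ᶠ x in gen k (Vec k), ∃ t s J a, t ≠ t₀ ∧ XData K U X p b c d e x t s J a) := by
  by_cases hc : ∃ t, ∀ᶠ x in gen k (Vec k), ∃ s J a, XData K U X p b c d e x t s J a
  · exact Or.inl hc
  · refine Or.inr fun t₀ hf => hc ⟨t₀, ?_⟩
    rw [← not_frequently] at *
    have : ∀ᶠ x in gen k (Vec k), ¬ ∃ t s J a, t ≠ t₀ ∧ XData K U X p b c d e x t s J a := by
      simpa using hf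
    filter_upwards [h.ev, this] with x hx hx'
    obtain ⟨t, s, J, a, hX⟩ := hx
    by_cases ht : t = t₀
    · subst ht
      exact ⟨s, J, a, hX⟩
    · exact absurd ⟨t, s, J, a, ht, hX⟩ hx'

/-- the elements of `Wg K X x` are parametrised by their values at `d` -/
lemma exists_W (h : KFrame K U X p b c d e) {x : Vec k} {t : k} {s : V → k}
    {J : Finset (Finset V)} {a : Finset V → V → k} (hx : XData K U X p b c d e x t s J a)
    {g : Vec k} (hgd : g ⬝ᵥ p d = 0) (hge : g ⬝ᵥ p e = 0) : ∃ Z ∈ Wg K X x, Z d = g := by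
  have hfin := h.fin
  have : FiniteDimensional k (Wg K X x) :=
    Submodule.finiteDimensional_of_le (S₂ := K) fun Z hZ => hZ.1
  have hli : LinearIndependent k ![p b, p c, p d, p e] :=
    h.gp.four (Finset.mem_coe.mpr h.hb) (Finset.mem_coe.mpr h.hc) (Finset.mem_coe.mpr h.hd)
      (Finset.mem_coe.mpr h.he) h.hbc h.hbd h.hbe h.hcd h.hce h.hde
  let φ : Wg K X x →ₗ[k] k × k :=
    { toFun := fun Z => (Z.1 d ⬝ᵥ p b, Z.1 d ⬝ᵥ p c)
      map_add' := fun Z Z' => by simp [add_dotProduct]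
      map_smul' := fun r Z => by simp }
  have hinj : Function.Injective φ := by
    rw [← LinearMap.ker_eq_bot, LinearMap.ker_eq_bot']
    intro Z hZ
    have h1 : Z.1 d ⬝ᵥ p b = 0 := (Prod.ext_iff.mp hZ).1
    have h2 : Z.1 d ⬝ᵥ p c = 0 := (Prod.ext_iff.mp hZ).2
    exact Subtype.ext (hx.inj Z.1 Z.2 (perp_four hli h1 h2 (h.loop Z.1 Z.2.1 d h.hd)
      (h.kde Z.1 Z.2.1)))
  have hsurj : Function.Surjective φ := by
    rw [← LinearMap.injective_iff_surjective_of_finrank_eq_finrank]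
    · exact hinj
    · rw [hx.dim]; simp
  obtain ⟨Z, hZ⟩ := hsurj (g ⬝ᵥ p b, g ⬝ᵥ p c)
  have h1 : Z.1 d ⬝ᵥ p b = g ⬝ᵥ p b := (Prod.ext_iff.mp hZ).1
  have h2 : Z.1 d ⬝ᵥ p c = g ⬝ᵥ p c := (Prod.ext_iff.mp hZ).2
  refine ⟨Z.1, Z.2, sub_eq_zero.mp (perp_four hli ?_ ?_ ?_ ?_)⟩
  · rw [sub_dotProduct, h1, sub_self]
  · rw [sub_dotProduct, h2, sub_self]
  · rw [sub_dotProduct, h.loop Z.1 Z.2.1 d h.hd, hgd, sub_self]
  · rw [sub_dotProduct, h.kde Z.1 Z.2.1, hge, sub_self]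

/-- **A non constant ratio needs `|X| ≥ 3`.** -/
lemma four_le (h : KFrame K U X p b c d e)
    (hn : ∀ t₀, ∃ᶠ x in gen k (Vec k), ∃ t s J a, t ≠ t₀ ∧ XData K U X p b c d e x t s J a) :
    4 ≤ finrank k K := by
  obtain ⟨x, t, s, J, a, hx⟩ := h.ev.exists
  obtain ⟨x', t', s', J', a', ht, hx'⟩ := (hn t).exists
  exact hx.four_le hx' ht.symm h.fin

/-- **`|X| = 3`, non constant ratio**: some external neighbour is at rest. -/
theorem exists_rest (h : KFrame K U X p b c d e) (hX : 3 ≤ X.card) (hK : finrank k K = 4)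
    (hn : ∀ t₀, ∃ᶠ x in gen k (Vec k), ∃ t s J a, t ≠ t₀ ∧ XData K U X p b c d e x t s J a) :
    ∃ y ∈ X, ∀ Z ∈ K, Z y = 0 := by
  classical
  have hfin := h.fin
  obtain ⟨x₁, t₁, s₁, J₁, a₁, hx₁⟩ := h.ev.exists
  obtain ⟨x₂, t₂, s₂, J₂, a₂, ht, hx₂⟩ := (hn t₁).exists
  have hle : ∀ x, Wg K X x ≤ K := fun x Z hZ => hZ.1
  have : FiniteDimensional k (Wg K X x₁) := Submodule.finiteDimensional_of_le (hle x₁)
  have : FiniteDimensional k (Wg K X x₂) := Submodule.finiteDimensional_of_le (hle x₂)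
  have hsup : Wg K X x₁ ⊔ Wg K X x₂ = K := by
    refine Submodule.eq_of_le_of_finrank_le (sup_le (hle x₁) (hle x₂)) ?_
    have h1 := Submodule.finrank_sup_add_finrank_inf_eq (Wg K X x₁) (Wg K X x₂)
    rw [hx₁.inf_eq_bot hx₂ ht.symm, finrank_bot, add_zero, hx₁.dim, hx₂.dim] at h1
    omega
  have htne : t₂ - t₁ ≠ 0 := sub_ne_zero.mpr ht
  -- `Z ↦ (Z d, Z e)` is injective
  have hinj : ∀ Z ∈ K, Z d = 0 → Z e = 0 → Z = 0 := by
    intro Z hZ hd he
    rw [← hsup] at hZ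
    obtain ⟨Z₁, hZ₁, Z₂, hZ₂, rfl⟩ := Submodule.mem_sup.mp hZ
    have h1 := hx₁.ratio Z₁ hZ₁
    have h2 := hx₂.ratio Z₂ hZ₂
    have hd' : Z₁ d + Z₂ d = 0 := hd
    have he' : t₁ • Z₁ d + t₂ • Z₂ d = 0 := by rw [← h1, ← h2]; exact he
    have h3 : (t₂ - t₁) • Z₂ d = 0 := by
      have : (t₂ - t₁) • Z₂ d = (t₁ • Z₁ d + t₂ • Z₂ d) - t₁ • (Z₁ d + Z₂ d) := by module
      rw [this, he', hd', smul_zero, sub_zero]
    have h4 : Z₂ d = 0 := (smul_eq_zero.mp h3).resolve_left htne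
    have h5 : Z₁ d = 0 := by rw [h4, add_zero] at hd'; exact hd'
    rw [hx₁.inj Z₁ hZ₁ h5, hx₂.inj Z₂ hZ₂ h4, add_zero]
  -- the space `L` and the elements `A g`, `B g`
  have hAB : ∀ g : Vec k, g ⬝ᵥ p d = 0 → g ⬝ᵥ p e = 0 →
      ∃ A ∈ K, ∃ B ∈ K, A d = g ∧ A e = 0 ∧ B d = 0 ∧ B e = g := by
    intro g hgd hge
    obtain ⟨Z₁, hZ₁, e₁⟩ := h.exists_W hx₁ hgd hge
    obtain ⟨Z₂, hZ₂, e₂⟩ := h.exists_W hx₂ hgd hge
    have r₁ := hx₁.ratio Z₁ hZ₁
    have r₂ := hx₂.ratio Z₂ hZ₂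
    rw [e₁] at r₁
    rw [e₂] at r₂
    have hBK : (t₂ - t₁)⁻¹ • (Z₂ - Z₁) ∈ K :=
      K.smul_mem _ (K.sub_mem (hle _ hZ₂) (hle _ hZ₁))
    have hBe : ((t₂ - t₁)⁻¹ • (Z₂ - Z₁)) e = g := by
      simp only [Pi.smul_apply, Pi.sub_apply]
      rw [r₁, r₂, ← sub_smul, smul_smul, inv_mul_cancel₀ htne, one_smul]
    have hBd : ((t₂ - t₁)⁻¹ • (Z₂ - Z₁)) d = 0 := by
      simp only [Pi.smul_apply, Pi.sub_apply]
      rw [e₁, e₂, sub_self, smul_zero]
    refine ⟨Z₁ - t₁ • ((t₂ - t₁)⁻¹ • (Z₂ - Z₁)), K.sub_mem (hle _ hZ₁) (K.smul_mem _ hBK),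
      _, hBK, ?_, ?_, hBd, hBe⟩
    · rw [Pi.sub_apply, Pi.smul_apply (t₁), hBd, smul_zero, sub_zero, e₁]
    · rw [Pi.sub_apply, Pi.smul_apply (t₁), hBe, r₁, sub_self]
  choose! A hAK B hBK hAd hAe hBd hBe using hAB
  -- the key relation
  have hkey : ∀ x t s J a, XData K U X p b c d e x t s J a → ∀ g : Vec k, g ⬝ᵥ p d = 0 →
      g ⬝ᵥ p e = 0 → ∀ y ∈ X, A g y ⬝ᵥ x + t * (B g y ⬝ᵥ x) = 0 := by
    intro x t s J a hx g hgd hge y hy
    obtain ⟨Z, hZ, e₁⟩ := h.exists_W hx hgd hge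
    have r := hx.ratio Z hZ
    rw [e₁] at r
    have hZeq : Z - (A g + t • B g) = 0 := by
      refine hinj _ (K.sub_mem (hle _ hZ) (K.add_mem (hAK g hgd hge)
        (K.smul_mem _ (hBK g hgd hge)))) ?_ ?_
      · simp only [Pi.sub_apply, Pi.add_apply, Pi.smul_apply]
        rw [e₁, hAd g hgd hge, hBd g hgd hge, smul_zero, add_zero, sub_self]
      · simp only [Pi.sub_apply, Pi.add_apply, Pi.smul_apply]
        rw [r, hAe g hgd hge, hBe g hgd hge, zero_add, sub_self]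
    have h1 := hZ.2 y hy
    rw [sub_eq_zero.mp hZeq, Pi.add_apply, Pi.smul_apply, add_dotProduct, smul_dotProduct,
      smul_eq_mul] at h1
    exact h1
  by_contra hcon
  push Not at hcon
  -- every external neighbour moves in some `A g` or `B g`
  have hmov : ∀ y ∈ X, ∃ g : Vec k, g ⬝ᵥ p d = 0 ∧ g ⬝ᵥ p e = 0 ∧ (A g y ≠ 0 ∨ B g y ≠ 0) := by
    intro y hy
    by_contra hcon'
    push Not at hcon'
    obtain ⟨Z, hZ, hne⟩ := hcon y hy
    have hd1 := h.loop Z hZ d h.hd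
    have hd2 := h.kde Z hZ
    have he1 := h.ked Z hZ
    have he2 := h.loop Z hZ e h.he
    have hZeq : Z - (A (Z d) + B (Z e)) = 0 := by
      refine hinj _ (K.sub_mem hZ (K.add_mem (hAK _ hd1 hd2) (hBK _ he1 he2))) ?_ ?_
      · simp only [Pi.sub_apply, Pi.add_apply]
        rw [hAd _ hd1 hd2, hBd _ he1 he2, add_zero, sub_self]
      · simp only [Pi.sub_apply, Pi.add_apply]
        rw [hAe _ hd1 hd2, hBe _ he1 he2, zero_add, sub_self]
    apply hne
    rw [sub_eq_zero.mp hZeq, Pi.add_apply, (hcon' _ hd1 hd2).1, (hcon' _ he1 he2).2, add_zero]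
  -- the forms `N`, `D`
  obtain ⟨y₀, hy₀⟩ : X.Nonempty := Finset.card_pos.mp (by omega)
  obtain ⟨g₀, hg₀d, hg₀e, hg₀⟩ := hmov y₀ hy₀
  set N : Vec k := A g₀ y₀ with hNdef
  set D : Vec k := - B g₀ y₀ with hDdef
  have hND : ∀ x t s J a, XData K U X p b c d e x t s J a → N ⬝ᵥ x = t * (D ⬝ᵥ x) := by
    intro x t s J a hx
    have h1 := hkey x t s J a hx g₀ hg₀d hg₀e y₀ hy₀
    rw [hDdef, neg_dotProduct, mul_neg]
    linear_combination h1
  have hD0 : D ≠ 0 := by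
    intro h0
    have hB0 : B g₀ y₀ = 0 := by rw [← neg_eq_zero]; exact h0
    have hN0 : N = 0 := by
      refine eq_zero_of_eventually_dot ?_
      filter_upwards [h.ev] with x hx
      obtain ⟨t, s, J, a, hx⟩ := hx
      rw [hND x t s J a hx, h0, zero_dotProduct, mul_zero]
    rcases hg₀ with h1 | h1
    · exact h1 hN0
    · exact h1 hB0
  have hNr : ∀ r : k, N ≠ r • D := by
    intro r hr
    have hne : ∀ᶠ x in gen k (Vec k), D ⬝ᵥ x ≠ 0 := by
      obtain ⟨z, hz⟩ : ∃ z, D ⬝ᵥ z ≠ 0 := by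
        by_contra hcon'
        push Not at hcon'
        exact hD0 (dotProduct_eq_zero _ hcon')
      exact (polyLine_vecDot D).eventually_ne ⟨z, hz⟩
    obtain ⟨x, ⟨t, s, J, a, htr, hx⟩, hDx⟩ := ((hn r).and_eventually hne).exists
    have h1 := hND x t s J a hx
    rw [hr, smul_dotProduct, smul_eq_mul] at h1
    exact htr (mul_right_cancel₀ hDx h1).symm
  -- every form is a multiple
  have hfac : ∀ g : Vec k, g ⬝ᵥ p d = 0 → g ⬝ᵥ p e = 0 → ∀ y ∈ X,
      ∃ r : k, -B g y = r • D ∧ A g y = r • N := by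
    intro g hgd hge y hy
    refine factor_of_mul ?_ hNr hD0
    have hpoly : ∀ᶠ x in gen k (Vec k),
        (A g y ⬝ᵥ x) * (D ⬝ᵥ x) - (N ⬝ᵥ x) * ((-B g y) ⬝ᵥ x) = 0 := by
      filter_upwards [h.ev] with x hx
      obtain ⟨t, s, J, a, hx⟩ := hx
      have h1 := hkey x t s J a hx g hgd hge y hy
      have h2 := hND x t s J a hx
      have h3 : (-B g y) ⬝ᵥ x = -(B g y ⬝ᵥ x) := neg_dotProduct _ _
      rw [h3]
      linear_combination (D ⬝ᵥ x) * h1 + (B g y ⬝ᵥ x) * h2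
    intro x
    have := (((polyLine_vecDot (A g y)).mul (polyLine_vecDot D)).sub
      ((polyLine_vecDot N).mul (polyLine_vecDot (-B g y)))).eq_zero_of_eventually hpoly x
    exact sub_eq_zero.mp this
  -- the loops
  have hperp : ∀ y ∈ X, N ⬝ᵥ p y = 0 ∧ D ⬝ᵥ p y = 0 := by
    intro y hy
    obtain ⟨g, hgd, hge, hgy⟩ := hmov y hy
    obtain ⟨r, hr₁, hr₂⟩ := hfac g hgd hge y hy
    have hr0 : r ≠ 0 := by
      rintro rfl
      rw [zero_smul] at hr₁ hr₂
      rcases hgy with h1 | h1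
      · exact h1 hr₂
      · exact h1 (neg_eq_zero.mp hr₁)
    constructor
    · have h1 := h.loop _ (hAK g hgd hge) y (h.XU hy)
      rw [hr₂, smul_dotProduct, smul_eq_mul] at h1
      exact (mul_eq_zero.mp h1).resolve_left hr0
    · have h1 := h.loop _ (hBK g hgd hge) y (h.XU hy)
      have h2 : B g y = (-r) • D := by rw [neg_smul, ← hr₁, neg_neg]
      rw [h2, smul_dotProduct, smul_eq_mul] at h1
      exact (mul_eq_zero.mp h1).resolve_left (neg_ne_zero.mpr hr0)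
  -- three independent points in the kernel of two independent forms
  obtain ⟨X', hX'X, hX'3⟩ := Finset.exists_subset_card_eq hX
  obtain ⟨y₁, y₂, y₃, h12, h13, h23, hX'⟩ := Finset.card_eq_three.mp hX'3
  have m₁ : y₁ ∈ X := hX'X (by rw [hX']; simp)
  have m₂ : y₂ ∈ X := hX'X (by rw [hX']; simp)
  have m₃ : y₃ ∈ X := hX'X (by rw [hX']; simp)
  have hli := h.gp.three' (Finset.mem_coe.mpr (h.XU m₁)) (Finset.mem_coe.mpr (h.XU m₂))
    (Finset.mem_coe.mpr (h.XU m₃)) h12 h13 h23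
  obtain ⟨r, hr⟩ := perp_three hli (hperp _ m₁).2 (hperp _ m₂).2 (hperp _ m₃).2
    (hperp _ m₁).1 (hperp _ m₂).1 (hperp _ m₃).1 hD0
  exact hNr r hr

end KFrame

end GR
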