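import Pool.Agent.Lib.GR.BLocConst

/-!
# Three external neighbours, constant ratio: impossible unless `q` lies in the plane of the three
external neighbours (the case `D*`)
-/

set_option linter.unusedSectionVars false

namespace GR

open Filter Module

open scoped Matrix

variable {k : Type*} [Field k] {V : Type*} [DecidableEq V]

lemma tri_sub2 (x y y' z : Vec k) : tri x (y - y') z = tri x y z - tri x y' z := by
  ext i; fin_cases i <;> simp [tri, mnr] <;> ring

lemma tri_zero1 (y z : Vec k) : tri 0 y z = 0 := by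
  ext i; fin_cases i <;> simp [tri, mnr]

lemma tri_smul2 (r : k) (x y z : Vec k) : tri x (r • y) z = r • tri x y z := by
  ext i; fin_cases i <;> simp [tri, mnr] <;> ring

/-- the conclusion in the case `D*` -/
structure DStar (K : Submodule k (V → Vec k)) (X : Finset V) (p : V → Vec k) (d e : V) (t : k)
    (c' : V → k) : Prop where
  ne : ∀ y ∈ X, c' y ≠ 0
  q : p e - t • p d = ∑ y ∈ X, c' y • p y
  ratio : ∀ Z ∈ K, Z e = t • Z d
  rel : ∀ Z ∈ K, ∑ y ∈ X, c' y • Z y = 0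
  rot : ∀ r : Vec k, ∃ Y ∈ K, ∀ y ∈ insert d (insert e X), Y y = tri r (p e - t • p d) (p y)

/-- combinations supported on four independent vectors -/
lemma coeff_four {x y z u : Vec k} (h : LinearIndependent k ![x, y, z, u]) {a b c d : k}
    (h0 : a • x + b • y + c • z + d • u = 0) : a = 0 ∧ b = 0 ∧ c = 0 ∧ d = 0 := by
  have := Fintype.linearIndependent_iff.mp h ![a, b, c, d] (by
    rw [Fin.sum_univ_four]
    simpa using h0)
  exact ⟨by simpa using this 0, by simpa using this 1, by simpa using this 2,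
    by simpa using this 3⟩

section Const

variable [Infinite k] {K : Submodule k (V → Vec k)} {U X : Finset V} {p : V → Vec k} {b c d e : V}
  {t : k}

namespace ConstFrame

/-- the star of the stress at `w` consists of `d`, `e` and all three external neighbours -/
theorem three_star (h : ConstFrame K U X p b c d e t) (hX : X.card = 3) :
    ∀ᶠ x in gen k (Vec k), ∃ (s : V → k) (J : Finset (Finset V)) (a : Finset V → V → k)
      (Y : V → Vec k), XData K U X p b c d e x t s J a ∧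
      s b = 0 ∧ s c = 0 ∧ (∀ y ∈ X, s y ≠ 0) ∧ Y ∈ Wg K X x ∧
      (∀ y ∈ insert d (insert e X), Y y = tri x (p e - t • p d) (p y)) := by
  classical
  filter_upwards [h.clique (by omega), eventually_GP h.gp, eventually_GQ h.gp h.hd h.he h.hde t]
    with x hx hgp hq
  obtain ⟨s, J, a, N, Y, hs, -, hb0, hc0, hdN, heN, hXN, ⟨hYW, hYx, hYd⟩, hrig⟩ := hx
  have hYK : Y ∈ K := hYW.1
  have hYr : Y e = t • Y d := hs.ratio Y hYW
  -- all coefficients are nonzero
  have hne : ∀ y ∈ X, s y ≠ 0 := by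
    intro y hy hsy
    have hc2 : (X.erase y).card = 2 := by rw [Finset.card_erase_of_mem hy]; omega
    obtain ⟨y₁, y₂, h12, hX'⟩ := Finset.card_eq_two.mp hc2
    have m₁ : y₁ ∈ X := Finset.mem_of_mem_erase (by rw [hX']; simp : y₁ ∈ X.erase y)
    have m₂ : y₂ ∈ X := Finset.mem_of_mem_erase (by rw [hX']; simp : y₂ ∈ X.erase y)
    obtain ⟨c₀, hc₀⟩ := hs.equil
    rw [h.sum_U hb0 hc0 hs.se hs.sd hs.supp, ← Finset.add_sum_erase X _ hy, hsy, zero_smul,
      zero_add, hX', Finset.sum_pair h12] at hc₀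
    exact h.no_two (h.XU m₁) (h.XU m₂) h12 (fun h' => h.dX (h' ▸ m₁)) (fun h' => h.eX (h' ▸ m₁))
      (fun h' => h.dX (h' ▸ m₂)) (fun h' => h.eX (h' ▸ m₂)) hq hc₀
  -- the value at `d`
  set q := p e - t • p d with hqdef
  obtain ⟨y₀, hy₀⟩ : X.Nonempty := Finset.card_pos.mp (by omega)
  have hy₀d : y₀ ≠ d := fun h' => h.dX (h' ▸ hy₀)
  have hy₀e : y₀ ≠ e := fun h' => h.eX (h' ▸ hy₀)
  have hli3 : LinearIndependent k ![x, p d, p e] :=
    li_three_of_four (hgp d h.hd e h.he y₀ (h.XU hy₀) h.hde hy₀d.symm hy₀e.symm)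
  have hxed : LinearIndependent k ![x, p e, p d] :=
    li_three_of_four (hgp e h.he d h.hd y₀ (h.XU hy₀) h.hde.symm hy₀e.symm hy₀d.symm)
  have htd : tri x q (p d) = tri x (p e) (p d) := by
    rw [hqdef, tri_sub2, tri_smul2, tri_yy, smul_zero, sub_zero]
  have hte : tri x q (p e) = t • tri x q (p d) := by
    have : tri x q q = 0 := tri_yy x q
    nth_rewrite 2 [hqdef] at this
    rw [tri_sub3, tri_smul3, sub_eq_zero] at this
    exact this
  have hg0 : tri x q (p d) ≠ 0 := by rw [htd]; exact tri_ne_zero hxed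
  obtain ⟨r, hr⟩ := perp_three hli3 hYx (h.loop Y hYK d h.hd) (h.kde Y hYK)
    (tri_self1 x q (p d)) (tri_self3 x q (p d)) (by rw [htd]; exact tri_self2 _ _ _) hYd
  refine ⟨s, J, a, r • Y, hs, hb0, hc0, hne, Submodule.smul_mem _ _ hYW, ?_⟩
  have hrd : (r • Y) d = tri x q (p d) := by rw [Pi.smul_apply, hr]
  have hre : (r • Y) e = tri x q (p e) := by
    rw [hte, ← hrd, Pi.smul_apply, Pi.smul_apply, hYr, smul_comm]
  intro y hy
  rcases Finset.mem_insert.mp hy with rfl | hy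
  · exact hrd
  · rcases Finset.mem_insert.mp hy with rfl | hy
    · exact hre
    · have hyU := h.XU hy
      have hyN := hXN y hy (hne y hy)
      have hyd : y ≠ d := fun h' => h.dX (h' ▸ hy)
      have hye : y ≠ e := fun h' => h.eX (h' ▸ hy)
      obtain ⟨h1, h2⟩ := hrig y hyN
      have e1 := h2 d hdN
      have e2 := h2 e heN
      rw [eps_apply] at e1 e2
      have e1' : (r • Y) y ⬝ᵥ p d + (r • Y) d ⬝ᵥ p y = 0 := by
        simp only [Pi.smul_apply, smul_dotProduct, smul_eq_mul]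
        linear_combination r * e1
      have e2' : (r • Y) y ⬝ᵥ p e + (r • Y) e ⬝ᵥ p y = 0 := by
        simp only [Pi.smul_apply, smul_dotProduct, smul_eq_mul]
        linear_combination r * e2
      rw [hrd] at e1'
      rw [hre] at e2'
      have hli := hgp d h.hd e h.he y hyU h.hde hyd.symm hye.symm
      have : (r • Y) y - tri x q (p y) = 0 := by
        refine perp_four hli ?_ ?_ ?_ ?_
        · rw [sub_dotProduct, tri_self1, Pi.smul_apply, smul_dotProduct, h1]; simp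
        · rw [sub_dotProduct, tri_swap x q (p y) (p d)]
          linear_combination e1'
        · rw [sub_dotProduct, tri_swap x q (p y) (p e)]
          linear_combination e2'
        · rw [sub_dotProduct, tri_self3, Pi.smul_apply, smul_dotProduct, h.loop Y hYK y hyU]
          simp
      exact sub_eq_zero.mp this

/-- the linear family of rotations about `q` -/
theorem exists_rot (h : ConstFrame K U X p b c d e t) (hX : X.card = 3) (r : Vec k) :
    ∃ Y ∈ K, ∀ y ∈ insert d (insert e X), Y y = tri r (p e - t • p d) (p y) := by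
  let P : Submodule k (Vec k) :=
    { carrier := {r | ∃ Y ∈ K, ∀ y ∈ insert d (insert e X), Y y = tri r (p e - t • p d) (p y)}
      add_mem' := by
        rintro r r' ⟨Y, hY, h1⟩ ⟨Y', hY', h2⟩
        exact ⟨Y + Y', K.add_mem hY hY', fun y hy => by
          rw [Pi.add_apply, h1 y hy, h2 y hy, tri_add1]⟩
      zero_mem' := ⟨0, K.zero_mem, fun y _ => by
        rw [Pi.zero_apply, tri_zero1]⟩
      smul_mem' := by
        rintro a r ⟨Y, hY, h1⟩
        exact ⟨a • Y, K.smul_mem a hY, fun y hy => by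
          rw [Pi.smul_apply, h1 y hy, tri_smul1]⟩ }
  have hP : P = ⊤ := by
    refine eq_top_of_eventually ?_
    filter_upwards [h.three_star hX] with x hx
    obtain ⟨s, J, a, Y, hs, -, -, -, hY, hYy⟩ := hx
    exact ⟨Y, hY.1, hYy⟩
  have : r ∈ P := by rw [hP]; exact Submodule.mem_top
  exact this

/-- the relation of the external conditions -/
theorem relation (h : ConstFrame K U X p b c d e t) (hX : X.card = 3) (hK : finrank k K = 4) :
    ∀ᶠ x in gen k (Vec k), ∃ (s : V → k) (c₀ : k), (∀ y ∈ X, s y ≠ 0) ∧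
      (p e - t • p d) + ∑ y ∈ X, s y • p y = c₀ • x ∧
      (∀ Z ∈ K, ∑ y ∈ X, s y * (Z y ⬝ᵥ x) = 0) ∧ (∀ Z ∈ K, (Z e - t • Z d) ⬝ᵥ x = 0) ∧
      ∀ Z ∈ Wg K X x, Z d = 0 → Z = 0 := by
  classical
  obtain ⟨y₁, y₂, y₃, h12, h13, h23, hX'⟩ := Finset.card_eq_three.mp hX
  have m₁ : y₁ ∈ X := by rw [hX']; simp
  have m₂ : y₂ ∈ X := by rw [hX']; simp
  have m₃ : y₃ ∈ X := by rw [hX']; simp
  have hsumk : ∀ f : V → k, ∑ y ∈ X, f y = f y₁ + (f y₂ + f y₃) := fun f => by
    rw [hX', Finset.sum_insert (by simp [h12, h13]), Finset.sum_pair h23]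
  have hsumV : ∀ f : V → Vec k, ∑ y ∈ X, f y = f y₁ + (f y₂ + f y₃) := fun f => by
    rw [hX', Finset.sum_insert (by simp [h12, h13]), Finset.sum_pair h23]
  filter_upwards [h.three_star hX, eventually_GP h.gp, eventually_GQ h.gp h.hd h.he h.hde t]
    with x hx hgp hq
  obtain ⟨s, J, a, Y, hs, hb0, hc0, hne, -, -⟩ := hx
  obtain ⟨c₀, hc₀⟩ := hs.equil
  rw [h.sum_U hb0 hc0 hs.se hs.sd hs.supp] at hc₀
  set q := p e - t • p d with hqdef
  have hfin := h.fin
  -- the rank of the three conditions is two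
  let F : K →ₗ[k] (Fin 3 → k) :=
    { toFun := fun Z => ![Z.1 y₁ ⬝ᵥ x, Z.1 y₂ ⬝ᵥ x, Z.1 y₃ ⬝ᵥ x]
      map_add' := fun Z Z' => by
        ext i; fin_cases i <;> simp [add_dotProduct]
      map_smul' := fun r Z => by
        ext i; fin_cases i <;> simp }
  have hFker : finrank k (LinearMap.ker F) = 2 := by
    rw [← hs.dim]
    have h1 : LinearMap.ker F = (Wg K X x).comap K.subtype := by
      ext Z
      rw [LinearMap.mem_ker, Submodule.mem_comap]
      constructor
      · intro h0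
        refine ⟨Z.2, fun y hy => ?_⟩
        rw [hX'] at hy
        simp only [Finset.mem_insert, Finset.mem_singleton] at hy
        rcases hy with rfl | rfl | rfl
        · simpa [F] using congrFun h0 0
        · simpa [F] using congrFun h0 1
        · simpa [F] using congrFun h0 2
      · intro h0
        ext i
        fin_cases i
        · simpa [F] using h0.2 y₁ m₁
        · simpa [F] using h0.2 y₂ m₂
        · simpa [F] using h0.2 y₃ m₃
    rw [h1]
    exact LinearEquiv.finrank_eq (Submodule.comapSubtypeEquivOfLe fun Z hZ => hZ.1)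
  have hFr := LinearMap.finrank_range_add_finrank_ker F
  rw [hFker, hK] at hFr
  have hlt : LinearMap.range F < ⊤ := by
    rw [lt_top_iff_ne_top]
    intro htop
    rw [htop, finrank_top, Module.finrank_fin_fun] at hFr
    omega
  obtain ⟨φ, hφ0, hφ⟩ := Submodule.exists_le_ker_of_lt_top _ hlt
  set l₁ := φ (Pi.single 0 1) with hl₁
  set l₂ := φ (Pi.single 1 1) with hl₂
  set l₃ := φ (Pi.single 2 1) with hl₃
  have hφv : ∀ v : Fin 3 → k, φ v = v 0 * l₁ + v 1 * l₂ + v 2 * l₃ := by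
    intro v
    have : v = v 0 • (Pi.single 0 1 : Fin 3 → k) + v 1 • (Pi.single 1 1 : Fin 3 → k)
        + v 2 • (Pi.single 2 1 : Fin 3 → k) := by
      ext i; fin_cases i <;> simp
    conv_lhs => rw [this]
    simp only [map_add, map_smul, smul_eq_mul, hl₁, hl₂, hl₃]
  have hrel : ∀ Z ∈ K, l₁ * (Z y₁ ⬝ᵥ x) + l₂ * (Z y₂ ⬝ᵥ x) + l₃ * (Z y₃ ⬝ᵥ x) = 0 := by
    intro Z hZ
    have h1 : φ (F ⟨Z, hZ⟩) = 0 := hφ ⟨⟨Z, hZ⟩, rfl⟩
    rw [hφv] at h1
    simp only [F, LinearMap.coe_mk, AddHom.coe_mk, Matrix.cons_val_zero, Matrix.cons_val_one,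
      Matrix.cons_val] at h1
    linear_combination h1
  have hl : ¬ (l₁ = 0 ∧ l₂ = 0 ∧ l₃ = 0) := by
    rintro ⟨h1, h2, h3⟩
    apply hφ0
    ext i
    fin_cases i
    · simpa using h1
    · simpa using h2
    · simpa using h3
  -- the combination `v`
  set v := l₁ • p y₁ + l₂ • p y₂ + l₃ • p y₃ with hv
  have htri : tri x q v = 0 := by
    refine dotProduct_eq_zero _ fun r => ?_
    obtain ⟨Z, hZ, hZy⟩ := h.exists_rot hX r
    have h1 := hrel Z hZ
    rw [hZy y₁ (by simp [m₁]), hZy y₂ (by simp [m₂]), hZy y₃ (by simp [m₃])] at h1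
    have h2 : tri r q v ⬝ᵥ x = 0 := by
      rw [hv, tri_add3, tri_add3, tri_smul3, tri_smul3, tri_smul3, add_dotProduct,
        add_dotProduct, smul_dotProduct, smul_dotProduct, smul_dotProduct, smul_eq_mul,
        smul_eq_mul, smul_eq_mul]
      exact h1
    rw [tri_rot] at h2
    linear_combination -h2
  have n₁d : y₁ ≠ d := fun h' => h.dX (h' ▸ m₁)
  have n₁e : y₁ ≠ e := fun h' => h.eX (h' ▸ m₁)
  have n₂d : y₂ ≠ d := fun h' => h.dX (h' ▸ m₂)
  have n₂e : y₂ ≠ e := fun h' => h.eX (h' ▸ m₂)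
  have hliq := hq y₁ (h.XU m₁) y₂ (h.XU m₂) h12 n₁d n₁e n₂d n₂e
  have hlip := hgp y₁ (h.XU m₁) y₂ (h.XU m₂) y₃ (h.XU m₃) h12 h13 h23
  -- v is a combination of q and x
  obtain ⟨α, β, hαβ⟩ : ∃ α β : k, v = α • q + β • x := by
    have hdep : ¬ LinearIndependent k ![x, q, v] := fun hli => tri_ne_zero hli htri
    rw [Fintype.linearIndependent_iff] at hdep
    push Not at hdep
    obtain ⟨g, hg, i, hi⟩ := hdep
    rw [Fin.sum_univ_three] at hg
    simp only [Matrix.cons_val_zero, Matrix.cons_val_one, Matrix.cons_val] at hg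
    have hg2 : g 2 ≠ 0 := by
      intro h0
      rw [h0, zero_smul, add_zero] at hg
      have := coeff_four hliq (a := g 0) (b := 0) (c := 0) (d := g 1) (by
        rw [zero_smul, zero_smul, add_zero, add_zero]; exact hg)
      fin_cases i
      · exact hi this.1
      · exact hi this.2.2.2
      · exact hi h0
    refine ⟨-(g 1 / g 2), -(g 0 / g 2), ?_⟩
    have h3 : g 2 • v = -(g 1) • q + -(g 0) • x := by
      rw [neg_smul, neg_smul, eq_comm, ← sub_eq_zero]
      rw [← neg_eq_zero, ← hg]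
      abel
    have h4 : v = (g 2)⁻¹ • (g 2 • v) := by rw [smul_smul, inv_mul_cancel₀ hg2, one_smul]
    rw [h4, h3, smul_add, smul_smul, smul_smul]
    congr 2 <;> field_simp
  -- compare coefficients
  have hc₀' := hc₀
  rw [hsumV (fun y => s y • p y)] at hc₀
  have hq' : q = c₀ • x - (s y₁ • p y₁ + (s y₂ • p y₂ + s y₃ • p y₃)) := by
    rw [← hc₀]; abel
  have hz : (-(α * c₀ + β)) • x + (l₁ + α * s y₁) • p y₁ + (l₂ + α * s y₂) • p y₂
      + (l₃ + α * s y₃) • p y₃ = 0 := by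
    have h5 := hαβ
    rw [hv, hq'] at h5
    rw [← sub_eq_zero] at h5
    rw [← h5]
    module
  obtain ⟨k0, k1, k2, k3⟩ := coeff_four hlip hz
  have hα : α ≠ 0 := by
    rintro rfl
    apply hl
    refine ⟨?_, ?_, ?_⟩
    · linear_combination k1
    · linear_combination k2
    · linear_combination k3
  have hs0 : ∀ Z ∈ K, ∑ y ∈ X, s y * (Z y ⬝ᵥ x) = 0 := by
    intro Z hZ
    rw [hsumk (fun y => s y * (Z y ⬝ᵥ x))]
    have h6 := hrel Z hZ
    have h7 : α * (s y₁ * (Z y₁ ⬝ᵥ x) + (s y₂ * (Z y₂ ⬝ᵥ x) + s y₃ * (Z y₃ ⬝ᵥ x))) = 0 := by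
      linear_combination -h6 + (Z y₁ ⬝ᵥ x) * k1 + (Z y₂ ⬝ᵥ x) * k2 + (Z y₃ ⬝ᵥ x) * k3
    exact (mul_eq_zero.mp h7).resolve_left hα
  refine ⟨s, c₀, hne, hc₀', hs0, ?_, hs.inj⟩
  intro Z hZ
  have h8 := hs.virt Z hZ
  rw [hs0 Z hZ, add_zero] at h8
  rw [sub_dotProduct, smul_dotProduct, smul_eq_mul]
  exact h8

/-- the ratio holds on all of `K` -/
theorem ratio_K (h : ConstFrame K U X p b c d e t) (hX : X.card = 3) (hK : finrank k K = 4) :
    ∀ Z ∈ K, Z e = t • Z d := by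
  intro Z hZ
  have : Z e - t • Z d = 0 := by
    refine eq_zero_of_eventually_dot ?_
    filter_upwards [h.relation hX hK] with x hx
    obtain ⟨s, c₀, -, -, -, h1, -⟩ := hx
    exact h1 Z hZ
  exact sub_eq_zero.mp this

/-- **`|X| = 3`, constant ratio**: only the case `D*` remains. -/
theorem three (h : ConstFrame K U X p b c d e t) (hX : X.card = 3) (hK : finrank k K = 4)
    (hQJ : ∀ y ∈ X, LinearIndependent k ![p y, p e - t • p d, p b, p c] →
      (∀ Z ∈ K, Z e = t • Z d) → (∀ Z ∈ K, Z y ⬝ᵥ (p e - t • p d) = 0) →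
      ∀ Z ∈ K, ∀ Z' ∈ K, Z y = 0 → Z' y = 0 →
        ∃ r r' : k, (r ≠ 0 ∨ r' ≠ 0) ∧ r • Z d + r' • Z' d = 0) :
    ∃ c' : V → k, DStar K X p d e t c' := by
  classical
  obtain ⟨y₁, y₂, y₃, h12, h13, h23, hX'⟩ := Finset.card_eq_three.mp hX
  have m₁ : y₁ ∈ X := by rw [hX']; simp
  have m₂ : y₂ ∈ X := by rw [hX']; simp
  have m₃ : y₃ ∈ X := by rw [hX']; simp
  have hsumk : ∀ f : V → k, ∑ y ∈ X, f y = f y₁ + (f y₂ + f y₃) := fun f => by
    rw [hX', Finset.sum_insert (by simp [h12, h13]), Finset.sum_pair h23]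
  have hsumV : ∀ f : V → Vec k, ∑ y ∈ X, f y = f y₁ + (f y₂ + f y₃) := fun f => by
    rw [hX', Finset.sum_insert (by simp [h12, h13]), Finset.sum_pair h23]
  have hrK := h.ratio_K hX hK
  have hrel := h.relation hX hK
  set q := p e - t • p d with hqdef
  have hfin := h.fin
  have hd' : ∀ y ∈ X, y ≠ d := fun y hy h' => h.dX (h' ▸ hy)
  have he' : ∀ y ∈ X, y ≠ e := fun y hy h' => h.eX (h' ▸ hy)
  have hb' : ∀ y ∈ X, y ≠ b := fun y hy h' => h.bX (h' ▸ hy)
  have hc' : ∀ y ∈ X, y ≠ c := fun y hy h' => h.cX (h' ▸ hy)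
  have hgpE := eventually_GP (k := k) h.gp
  by_cases hli : LinearIndependent k ![p y₁, p y₂, p y₃, q]
  · -- the contradiction
    exfalso
    obtain ⟨z₁, a11, a12, a13, a14⟩ := exists_dot_four hli 1 0 0 0
    obtain ⟨z₂, a21, a22, a23, a24⟩ := exists_dot_four hli 0 1 0 0
    obtain ⟨z₃, a31, a32, a33, a34⟩ := exists_dot_four hli 0 0 1 0
    obtain ⟨z₄, a41, a42, a43, a44⟩ := exists_dot_four hli 0 0 0 1
    -- the skew maps
    have hquad : ∀ Z ∈ K, ∀ x : Vec k, (z₁ ⬝ᵥ x) * (Z y₁ ⬝ᵥ x) + (z₂ ⬝ᵥ x) * (Z y₂ ⬝ᵥ x)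
        + (z₃ ⬝ᵥ x) * (Z y₃ ⬝ᵥ x) = 0 := by
      intro Z hZ x
      have hpl : PolyLine k (fun x : Vec k => (z₁ ⬝ᵥ x) * (Z y₁ ⬝ᵥ x)
          + (z₂ ⬝ᵥ x) * (Z y₂ ⬝ᵥ x) + (z₃ ⬝ᵥ x) * (Z y₃ ⬝ᵥ x)) :=
        (((polyLine_vecDot z₁).mul (polyLine_vecDot (Z y₁))).add
          ((polyLine_vecDot z₂).mul (polyLine_vecDot (Z y₂)))).add
          ((polyLine_vecDot z₃).mul (polyLine_vecDot (Z y₃)))
      refine hpl.eq_zero_of_eventually ?_ x
      filter_upwards [hrel] with x hx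
      obtain ⟨s, c₀, -, hc₀, hs0, -, -⟩ := hx
      rw [hsumV (fun y => s y • p y)] at hc₀
      have d1 := congrArg (fun v => z₁ ⬝ᵥ v) hc₀
      have d2 := congrArg (fun v => z₂ ⬝ᵥ v) hc₀
      have d3 := congrArg (fun v => z₃ ⬝ᵥ v) hc₀
      have d4 := congrArg (fun v => z₄ ⬝ᵥ v) hc₀
      simp only [dotProduct_add, dotProduct_smul, smul_eq_mul, a11, a12, a13, a14, a21, a22, a23,
        a24, a31, a32, a33, a34, a41, a42, a43, a44] at d1 d2 d3 d4
      have hc0 : c₀ ≠ 0 := by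
        rintro rfl
        simp at d4
      have h9 := hs0 Z hZ
      rw [hsumk (fun y => s y * (Z y ⬝ᵥ x))] at h9
      have h10 : c₀ * ((z₁ ⬝ᵥ x) * (Z y₁ ⬝ᵥ x) + (z₂ ⬝ᵥ x) * (Z y₂ ⬝ᵥ x)
          + (z₃ ⬝ᵥ x) * (Z y₃ ⬝ᵥ x)) = 0 := by
        linear_combination h9 - (Z y₁ ⬝ᵥ x) * d1 - (Z y₂ ⬝ᵥ x) * d2 - (Z y₃ ⬝ᵥ x) * d3
      exact (mul_eq_zero.mp h10).resolve_left hc0
    have hskew : ∀ Z ∈ K, ∃ S : Vec k →ₗ[k] Vec k, IsSkew S ∧ S q = 0 ∧ S (p y₁) = Z y₁ ∧
        S (p y₂) = Z y₂ ∧ S (p y₃) = Z y₃ := by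
      intro Z hZ
      let S : Vec k →ₗ[k] Vec k :=
        { toFun := fun x => (z₁ ⬝ᵥ x) • Z y₁ + (z₂ ⬝ᵥ x) • Z y₂ + (z₃ ⬝ᵥ x) • Z y₃
          map_add' := fun x x' => by
            simp only [dotProduct_add, add_smul]
            abel
          map_smul' := fun r x => by
            simp only [dotProduct_smul, smul_eq_mul, mul_smul, smul_add, RingHom.id_apply] }
      refine ⟨S, fun x => ?_, ?_, ?_, ?_, ?_⟩
      · show ((z₁ ⬝ᵥ x) • Z y₁ + (z₂ ⬝ᵥ x) • Z y₂ + (z₃ ⬝ᵥ x) • Z y₃) ⬝ᵥ x = 0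
        simp only [add_dotProduct, smul_dotProduct, smul_eq_mul]
        exact hquad Z hZ x
      · show (z₁ ⬝ᵥ q) • Z y₁ + (z₂ ⬝ᵥ q) • Z y₂ + (z₃ ⬝ᵥ q) • Z y₃ = 0
        rw [a14, a24, a34]; simp
      · show (z₁ ⬝ᵥ p y₁) • Z y₁ + (z₂ ⬝ᵥ p y₁) • Z y₂ + (z₃ ⬝ᵥ p y₁) • Z y₃ = Z y₁
        rw [a11, a21, a31]; simp
      · show (z₁ ⬝ᵥ p y₂) • Z y₁ + (z₂ ⬝ᵥ p y₂) • Z y₂ + (z₃ ⬝ᵥ p y₂) • Z y₃ = Z y₂
        rw [a12, a22, a32]; simp
      · show (z₁ ⬝ᵥ p y₃) • Z y₁ + (z₂ ⬝ᵥ p y₃) • Z y₂ + (z₃ ⬝ᵥ p y₃) • Z y₃ = Z y₃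
        rw [a13, a23, a33]; simp
    have hZq : ∀ y ∈ X, ∀ Z ∈ K, Z y ⬝ᵥ q = 0 := by
      intro y hy Z hZ
      obtain ⟨S, hS, hSq, h1, h2, h3⟩ := hskew Z hZ
      have key : ∀ v, S v ⬝ᵥ q = 0 := fun v => by rw [hS.swap, hSq, zero_dotProduct, neg_zero]
      rw [hX'] at hy
      simp only [Finset.mem_insert, Finset.mem_singleton] at hy
      rcases hy with rfl | rfl | rfl
      · rw [← h1]; exact key _
      · rw [← h2]; exact key _
      · rw [← h3]; exact key _
    -- an element vanishing on `X`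
    obtain ⟨Z₀, hZ₀, hZ₀ne, hZ₀X⟩ : ∃ Z ∈ K, Z ≠ 0 ∧ ∀ y ∈ X, Z y = 0 := by
      let R : K →ₗ[k] (Fin 3 → k) :=
        { toFun := fun Z => ![Z.1 y₁ ⬝ᵥ p y₂, Z.1 y₁ ⬝ᵥ p y₃, Z.1 y₂ ⬝ᵥ p y₃]
          map_add' := fun Z Z' => by
            ext i; fin_cases i <;> simp [add_dotProduct]
          map_smul' := fun r Z => by
            ext i; fin_cases i <;> simp }
      have hker : ¬ Function.Injective R := by
        intro hinj
        have := LinearMap.finrank_le_finrank_of_injective hinj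
        rw [hK, Module.finrank_fin_fun] at this
        omega
      rw [← LinearMap.ker_eq_bot, LinearMap.ker_eq_bot'] at hker
      push Not at hker
      obtain ⟨Z, hZ0, hZne⟩ := hker
      refine ⟨Z.1, Z.2, fun h0 => hZne (Subtype.ext h0), ?_⟩
      obtain ⟨S, hS, hSq, h1, h2, h3⟩ := hskew Z.1 Z.2
      have r1 : Z.1 y₁ ⬝ᵥ p y₂ = 0 := by simpa [R] using congrFun hZ0 0
      have r2 : Z.1 y₁ ⬝ᵥ p y₃ = 0 := by simpa [R] using congrFun hZ0 1
      have r3 : Z.1 y₂ ⬝ᵥ p y₃ = 0 := by simpa [R] using congrFun hZ0 2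
      have key : ∀ v, S v ⬝ᵥ q = 0 := fun v => by rw [hS.swap, hSq, zero_dotProduct, neg_zero]
      have z1 : Z.1 y₁ = 0 := perp_four hli (h.loop _ Z.2 y₁ (h.XU m₁)) r1 r2
        (by rw [← h1]; exact key _)
      have z2 : Z.1 y₂ = 0 := by
        refine perp_four hli ?_ (h.loop _ Z.2 y₂ (h.XU m₂)) r3 (by rw [← h2]; exact key _)
        rw [← h2, hS.swap, h1, r1, neg_zero]
      have z3 : Z.1 y₃ = 0 := by
        refine perp_four hli ?_ ?_ (h.loop _ Z.2 y₃ (h.XU m₃)) (by rw [← h3]; exact key _)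
        · rw [← h3, hS.swap, h1, r2, neg_zero]
        · rw [← h3, hS.swap, h2, r3, neg_zero]
      intro y hy
      rw [hX'] at hy
      simp only [Finset.mem_insert, Finset.mem_singleton] at hy
      rcases hy with rfl | rfl | rfl
      exacts [z1, z2, z3]
    have hZ₀d : Z₀ d ≠ 0 := by
      obtain ⟨x, s, c₀, -, -, -, -, hinj⟩ := hrel.exists
      intro h0
      exact hZ₀ne (hinj Z₀ ⟨hZ₀, fun y hy => by rw [hZ₀X y hy, zero_dotProduct]⟩ h0)
    -- (QJ)
    have hperp : ∀ y ∈ X, LinearIndependent k ![p y, q, p b, p c] → Z₀ d ⬝ᵥ p y = 0 := by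
      intro y hy hliy
      obtain ⟨Y, hY, hYy⟩ := h.exists_rot hX (p y)
      have h1 : Y y = 0 := by rw [hYy y (by simp [hy]), tri_xyx]
      have h2 : Y d = tri (p y) (p e) (p d) := by
        rw [hYy d (by simp), tri_sub2, tri_smul2, tri_yy, smul_zero, sub_zero]
      obtain ⟨r, r', hrr, h0⟩ := hQJ y hy hliy hrK (hZq y hy) Z₀ hZ₀ Y hY (hZ₀X y hy) h1
      have hYd : Y d ≠ 0 := by
        rw [h2]
        exact tri_ne_zero (h.gp.three' (Finset.mem_coe.mpr (h.XU hy)) (Finset.mem_coe.mpr h.he)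
          (Finset.mem_coe.mpr h.hd) (he' y hy) (hd' y hy) h.hde.symm)
      have hr : r ≠ 0 := by
        rintro rfl
        rw [zero_smul, zero_add] at h0
        rcases smul_eq_zero.mp h0 with h3 | h3
        · rcases hrr with h4 | h4
          · exact h4 rfl
          · exact h4 h3
        · exact hYd h3
      have h5 := congrArg (fun v => v ⬝ᵥ p y) h0
      simp only [add_dotProduct, smul_dotProduct, smul_eq_mul, zero_dotProduct] at h5
      rw [h2, tri_self1, mul_zero, add_zero] at h5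
      exact (mul_eq_zero.mp h5).resolve_left hr
    have hpair : ∀ y ∈ X, ∀ y' ∈ X, y ≠ y' → LinearIndependent k ![p y, q, p b, p c] →
        LinearIndependent k ![p y', q, p b, p c] → False := by
      intro y hy y' hy' hne h1 h2
      exact hZ₀d (perp_four (h.gp.four (Finset.mem_coe.mpr (h.XU hy)) (Finset.mem_coe.mpr (h.XU hy'))
        (Finset.mem_coe.mpr h.hd) (Finset.mem_coe.mpr h.he) hne (hd' y hy) (he' y hy) (hd' y' hy')
        (he' y' hy') h.hde) (hperp y hy h1) (hperp y' hy' h2)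
        (h.loop Z₀ hZ₀ d h.hd) (h.kde Z₀ hZ₀))
    have hdep : ∀ y ∈ X, ∀ y' ∈ X, y ≠ y' → LinearIndependent k ![p y, q, p b, p c] ∨
        LinearIndependent k ![p y', q, p b, p c] := by
      intro y hy y' hy' hne
      by_contra hcon
      push Not at hcon
      have hg : ∀ y, ¬ LinearIndependent k ![p y, q, p b, p c] → tri q (p b) (p c) ⬝ᵥ p y = 0 := by
        intro y hy
        rw [li_iff_tri, not_not] at hy
        have : tri (p y) q (p b) ⬝ᵥ p c = - (tri q (p b) (p c) ⬝ᵥ p y) := by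
          rw [tri_dot, tri_dot]; simp only [mnr]; ring
        rw [this] at hy
        linear_combination -hy
      have hli3 : LinearIndependent k ![p b, p c, q] :=
        li_comb (h.gp.four (Finset.mem_coe.mpr h.hb) (Finset.mem_coe.mpr h.hc)
          (Finset.mem_coe.mpr h.hd) (Finset.mem_coe.mpr h.he) h.hbc h.hbd h.hbe h.hcd h.hce h.hde)
      have h0 : tri q (p b) (p c) = 0 := by
        refine perp_four (h.gp.four (Finset.mem_coe.mpr (h.XU hy)) (Finset.mem_coe.mpr (h.XU hy'))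
          (Finset.mem_coe.mpr h.hb) (Finset.mem_coe.mpr h.hc) hne (hb' y hy) (hc' y hy)
          (hb' y' hy') (hc' y' hy') h.hbc) (hg y hcon.1) (hg y' hcon.2) (tri_self2 _ _ _)
          (tri_self3 _ _ _)
      have h1 : tri (p b) (p c) q = tri q (p b) (p c) := by
        ext i; fin_cases i <;> simp [tri, mnr] <;> ring
      exact tri_ne_zero hli3 (h1.trans h0)
    rcases hdep y₁ m₁ y₂ m₂ h12 with h1 | h1
    · rcases hdep y₂ m₂ y₃ m₃ h23 with h2 | h2
      · exact hpair y₁ m₁ y₂ m₂ h12 h1 h2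
      · exact hpair y₁ m₁ y₃ m₃ h13 h1 h2
    · rcases hdep y₁ m₁ y₃ m₃ h13 with h2 | h2
      · exact hpair y₂ m₂ y₁ m₁ h12.symm h1 h2
      · exact hpair y₂ m₂ y₃ m₃ h23 h1 h2
  · -- the case `D*`
    have hli3 : LinearIndependent k ![p y₁, p y₂, p y₃] :=
      h.gp.three' (Finset.mem_coe.mpr (h.XU m₁)) (Finset.mem_coe.mpr (h.XU m₂))
        (Finset.mem_coe.mpr (h.XU m₃)) h12 h13 h23
    obtain ⟨c₁, c₂, c₃, hq⟩ : ∃ c₁ c₂ c₃ : k, q = c₁ • p y₁ + (c₂ • p y₂ + c₃ • p y₃) := by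
      rw [Fintype.linearIndependent_iff] at hli
      push Not at hli
      obtain ⟨g, hg, i, hi⟩ := hli
      rw [Fin.sum_univ_four] at hg
      simp only [Matrix.cons_val_zero, Matrix.cons_val_one, Matrix.cons_val] at hg
      have hg3 : g 3 ≠ 0 := by
        intro h0
        rw [h0, zero_smul, add_zero] at hg
        have h1 := Fintype.linearIndependent_iff.mp hli3 ![g 0, g 1, g 2] (by
          rw [Fin.sum_univ_three]
          simpa using hg)
        fin_cases i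
        · exact hi (by simpa using h1 0)
        · exact hi (by simpa using h1 1)
        · exact hi (by simpa using h1 2)
        · exact hi h0
      refine ⟨-(g 0 / g 3), -(g 1 / g 3), -(g 2 / g 3), ?_⟩
      have h3 : g 3 • q = -(g 0) • p y₁ + (-(g 1) • p y₂ + -(g 2) • p y₃) := by
        rw [← sub_eq_zero, ← hg]
        module
      have h4 : q = (g 3)⁻¹ • (g 3 • q) := by rw [smul_smul, inv_mul_cancel₀ hg3, one_smul]
      rw [h4, h3]
      simp only [smul_add, smul_smul]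
      have f0 : (g 3)⁻¹ * -g 0 = -(g 0 / g 3) := by field_simp
      have f1 : (g 3)⁻¹ * -g 1 = -(g 1 / g 3) := by field_simp
      have f2 : (g 3)⁻¹ * -g 2 = -(g 2 / g 3) := by field_simp
      rw [f0, f1, f2]
    let c' : V → k := fun y => if y = y₁ then c₁ else if y = y₂ then c₂ else c₃
    have hc1 : c' y₁ = c₁ := by simp [c']
    have hc2 : c' y₂ = c₂ := by simp [c', h12.symm]
    have hc3 : c' y₃ = c₃ := by simp [c', h13.symm, h23.symm]
    have hs : ∀ᶠ x in gen k (Vec k), ∃ s : V → k, (∀ y ∈ X, s y ≠ 0) ∧ s y₁ = -c₁ ∧ s y₂ = -c₂ ∧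
        s y₃ = -c₃ ∧ ∀ Z ∈ K, ∑ y ∈ X, s y * (Z y ⬝ᵥ x) = 0 := by
      filter_upwards [hrel, hgpE] with x hx hgp
      obtain ⟨s, c₀, hne, hc₀, hs0, -, -⟩ := hx
      rw [hsumV (fun y => s y • p y), hq] at hc₀
      have hlip := hgp y₁ (h.XU m₁) y₂ (h.XU m₂) y₃ (h.XU m₃) h12 h13 h23
      have hz : (-c₀) • x + (c₁ + s y₁) • p y₁ + (c₂ + s y₂) • p y₂ + (c₃ + s y₃) • p y₃ = 0 := by
        rw [← sub_eq_zero] at hc₀
        rw [← hc₀]
        module
      obtain ⟨-, k1, k2, k3⟩ := coeff_four hlip hz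
      exact ⟨s, hne, by linear_combination k1, by linear_combination k2,
        by linear_combination k3, hs0⟩
    refine ⟨c', ⟨?_, ?_, hrK, ?_, h.exists_rot hX⟩⟩
    · obtain ⟨x, s, hne, s1, s2, s3, -⟩ := hs.exists
      intro y hy
      rw [hX'] at hy
      simp only [Finset.mem_insert, Finset.mem_singleton] at hy
      rcases hy with rfl | rfl | rfl
      · rw [hc1]; intro h0; exact hne _ m₁ (by rw [s1, h0, neg_zero])
      · rw [hc2]; intro h0; exact hne _ m₂ (by rw [s2, h0, neg_zero])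
      · rw [hc3]; intro h0; exact hne _ m₃ (by rw [s3, h0, neg_zero])
    · rw [hsumV (fun y => c' y • p y), hc1, hc2, hc3]
      exact hq
    · intro Z hZ
      refine eq_zero_of_eventually_dot ?_
      filter_upwards [hs] with x hx
      obtain ⟨s, -, s1, s2, s3, hs0⟩ := hx
      have h1 := hs0 Z hZ
      rw [hsumk (fun y => s y * (Z y ⬝ᵥ x)), s1, s2, s3] at h1
      rw [hsumV (fun y => c' y • Z y), hc1, hc2, hc3]
      simp only [add_dotProduct, smul_dotProduct, smul_eq_mul]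
      linear_combination -h1

end ConstFrame

end Const

end GR
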