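import Pool.Agent.Lib.GR.BLocKg

/-!
# The triple product `[x y z .]`, generic points and small lemmas on covectors
-/

set_option linter.unusedSectionVars false

namespace GR

open Filter Module

open scoped Matrix

variable {k : Type*} [Field k]

/-- the `3 × 3` minor of the columns `i j l` -/
def mnr (x y z : Vec k) (i j l : Fin 4) : k :=
  x i * (y j * z l - y l * z j) - x j * (y i * z l - y l * z i) + x l * (y i * z j - y j * z i)

/-- `[x y z .]` -/
def tri (x y z : Vec k) : Vec k :=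
  ![-mnr x y z 1 2 3, mnr x y z 0 2 3, -mnr x y z 0 1 3, mnr x y z 0 1 2]

lemma tri_dot (x y z u : Vec k) : tri x y z ⬝ᵥ u =
    -mnr x y z 1 2 3 * u 0 + mnr x y z 0 2 3 * u 1 - mnr x y z 0 1 3 * u 2
      + mnr x y z 0 1 2 * u 3 := by
  simp [tri, dotProduct, Fin.sum_univ_four]
  ring

lemma tri_self1 (x y z : Vec k) : tri x y z ⬝ᵥ x = 0 := by
  rw [tri_dot]; simp only [mnr]; ring

lemma tri_self2 (x y z : Vec k) : tri x y z ⬝ᵥ y = 0 := by
  rw [tri_dot]; simp only [mnr]; ring

lemma tri_self3 (x y z : Vec k) : tri x y z ⬝ᵥ z = 0 := by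
  rw [tri_dot]; simp only [mnr]; ring

lemma tri_swap (x y z u : Vec k) : tri x y z ⬝ᵥ u = - (tri x y u ⬝ᵥ z) := by
  rw [tri_dot, tri_dot]; simp only [mnr]; ring

lemma tri_rot (x y z u : Vec k) : tri x y z ⬝ᵥ u = - (tri u y z ⬝ᵥ x) := by
  rw [tri_dot, tri_dot]; simp only [mnr]; ring

lemma tri_add1 (x x' y z : Vec k) : tri (x + x') y z = tri x y z + tri x' y z := by
  ext i; fin_cases i <;> simp [tri, mnr] <;> ring

lemma tri_smul1 (r : k) (x y z : Vec k) : tri (r • x) y z = r • tri x y z := by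
  ext i; fin_cases i <;> simp [tri, mnr] <;> ring

lemma tri_add3 (x y z z' : Vec k) : tri x y (z + z') = tri x y z + tri x y z' := by
  ext i; fin_cases i <;> simp [tri, mnr] <;> ring

lemma tri_smul3 (r : k) (x y z : Vec k) : tri x y (r • z) = r • tri x y z := by
  ext i; fin_cases i <;> simp [tri, mnr] <;> ring

lemma tri_sub3 (x y z z' : Vec k) : tri x y (z - z') = tri x y z - tri x y z' := by
  ext i; fin_cases i <;> simp [tri, mnr] <;> ring

lemma tri_yy (x y : Vec k) : tri x y y = 0 := by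
  ext i; fin_cases i <;> simp [tri, mnr] <;> ring

lemma tri_xyx (x y : Vec k) : tri x y x = 0 := by
  ext i; fin_cases i <;> simp [tri, mnr] <;> ring

lemma tri_xxy (x y : Vec k) : tri x x y = 0 := by
  ext i; fin_cases i <;> simp [tri, mnr] <;> ring

/-- `tri x y` as a linear map -/
def triL (x y : Vec k) : Vec k →ₗ[k] Vec k where
  toFun := tri x y
  map_add' := tri_add3 x y
  map_smul' r z := tri_smul3 r x y z

@[simp] lemma triL_apply (x y z : Vec k) : triL x y z = tri x y z := rfl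

lemma triL_skew (x y : Vec k) : IsSkew (triL x y) := fun z => tri_self3 x y z

lemma tri_dot_det (x y z u : Vec k) : tri x y z ⬝ᵥ u = (Matrix.of ![x, y, z, u]).det := by
  rw [tri_dot, Matrix.det_succ_row_zero]
  simp only [mnr, Fin.sum_univ_succ, Matrix.det_fin_three, Matrix.submatrix_apply, Matrix.of_apply,
    Fin.succ_zero_eq_one, Fin.succ_one_eq_two, Matrix.cons_val_zero, Matrix.cons_val_one,
    Matrix.cons_val, Fin.zero_succAbove]
  simp [Fin.succAbove, Fin.lt_def]
  ring

lemma tri_dot_ne_zero {x y z u : Vec k} (h : LinearIndependent k ![x, y, z, u]) :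
    tri x y z ⬝ᵥ u ≠ 0 := by
  rw [tri_dot_det]
  have : LinearIndependent k (Matrix.of ![x, y, z, u]).row := h
  have hu := Matrix.linearIndependent_rows_iff_isUnit.mp this
  rw [Matrix.isUnit_iff_isUnit_det] at hu
  exact hu.ne_zero

lemma li_of_tri_dot {x y z u : Vec k} (h : tri x y z ⬝ᵥ u ≠ 0) :
    LinearIndependent k ![x, y, z, u] := by
  rw [tri_dot_det] at h
  have hu : IsUnit (Matrix.of ![x, y, z, u]) := by
    rw [Matrix.isUnit_iff_isUnit_det]; exact isUnit_iff_ne_zero.mpr h
  exact Matrix.linearIndependent_rows_iff_isUnit.mpr hu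

/-- four vectors are independent iff the determinant does not vanish -/
lemma li_iff_tri {x y z u : Vec k} :
    LinearIndependent k ![x, y, z, u] ↔ tri x y z ⬝ᵥ u ≠ 0 :=
  ⟨tri_dot_ne_zero, li_of_tri_dot⟩

/-- complete three independent vectors -/
lemma exists_fourth {x y z : Vec k} (h : LinearIndependent k ![x, y, z]) :
    ∃ u, LinearIndependent k ![x, y, z, u] := by
  by_contra hcon
  push Not at hcon
  have hspan : Submodule.span k (Set.range ![x, y, z]) = ⊤ := by
    rw [eq_top_iff]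
    intro w _
    by_contra hw
    apply hcon w
    have h7 := (linearIndependent_finSnoc (v := ![x, y, z]) (x := w)).mpr ⟨h, hw⟩
    have e : (Fin.snoc ![x, y, z] w : Fin 4 → Vec k) = ![x, y, z, w] := by
      ext i j
      fin_cases i <;> rfl
    rwa [e] at h7
  have h5 := finrank_span_eq_card h
  rw [hspan, finrank_top, Module.finrank_fin_fun] at h5
  simp at h5

lemma tri_ne_zero {x y z : Vec k} (h : LinearIndependent k ![x, y, z]) : tri x y z ≠ 0 := by
  obtain ⟨u, hu⟩ := exists_fourth h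
  intro h0
  apply tri_dot_ne_zero hu
  rw [h0, zero_dotProduct]

lemma li_three_of_four {x y z u : Vec k} (h : LinearIndependent k ![x, y, z, u]) :
    LinearIndependent k ![x, y, z] := by
  have := h.comp (![0, 1, 2] : Fin 3 → Fin 4) (by decide)
  convert this using 1
  ext i
  fin_cases i <;> rfl

/-- two covectors vanishing on three independent vectors are proportional -/
lemma perp_three {x y z g g' : Vec k} (h : LinearIndependent k ![x, y, z]) (hx : g ⬝ᵥ x = 0)
    (hy : g ⬝ᵥ y = 0) (hz : g ⬝ᵥ z = 0) (hx' : g' ⬝ᵥ x = 0)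
    (hy' : g' ⬝ᵥ y = 0) (hz' : g' ⬝ᵥ z = 0) (hg : g ≠ 0) : ∃ r : k, g' = r • g := by
  obtain ⟨u, hu⟩ := exists_fourth h
  have hgu : g ⬝ᵥ u ≠ 0 := fun h0 => hg (perp_four hu hx hy hz h0)
  refine ⟨(g' ⬝ᵥ u) / (g ⬝ᵥ u), ?_⟩
  have : g' - ((g' ⬝ᵥ u) / (g ⬝ᵥ u)) • g = 0 := by
    refine perp_four hu ?_ ?_ ?_ ?_
    · rw [sub_dotProduct, smul_dotProduct, hx, hx']; simp
    · rw [sub_dotProduct, smul_dotProduct, hy, hy']; simp
    · rw [sub_dotProduct, smul_dotProduct, hz, hz']; simp
    · rw [sub_dotProduct, smul_dotProduct, smul_eq_mul]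
      field_simp
      ring
  exact sub_eq_zero.mp this

/-- replacing one of two vectors by a combination keeps independence -/
lemma li_comb {x y d e : Vec k} {t : k} (h : LinearIndependent k ![x, y, d, e]) :
    LinearIndependent k ![x, y, e - t • d] := by
  obtain hne := tri_dot_ne_zero h
  have h4 : LinearIndependent k ![x, y, e - t • d, d] := by
    rw [li_iff_tri, tri_sub3, tri_smul3, sub_dotProduct, smul_dotProduct, tri_self3, smul_zero,
      sub_zero, tri_swap]
    exact neg_ne_zero.mpr hne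
  exact li_three_of_four h4

section Generic

variable [Infinite k]

/-- generic vectors avoid a proper subspace -/
lemma eventually_notMem (P : Submodule k (Vec k)) (hP : P ≠ ⊤) :
    ∀ᶠ x in gen k (Vec k), x ∉ P := by
  obtain ⟨φ, hφ, hφ'⟩ := Submodule.exists_le_ker_of_lt_top P (lt_top_iff_ne_top.mpr hP)
  obtain ⟨x, hx⟩ : ∃ x, φ x ≠ 0 := by
    by_contra hcon
    push Not at hcon
    exact hφ (LinearMap.ext hcon)
  filter_upwards [(PolyLine.linear φ).eventually_ne ⟨x, hx⟩] with y hy hyP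
  exact hy (hφ' hyP)

/-- a subspace containing the generic vectors is everything -/
lemma eq_top_of_eventually {P : Submodule k (Vec k)} (h : ∀ᶠ x in gen k (Vec k), x ∈ P) :
    P = ⊤ := by
  by_contra hP
  obtain ⟨x, hx, hx'⟩ := (h.and (eventually_notMem P hP)).exists
  exact hx' hx

/-- generic vectors are independent of three independent ones -/
lemma eventually_li {a b c : Vec k} (h : LinearIndependent k ![a, b, c]) :
    ∀ᶠ x in gen k (Vec k), LinearIndependent k ![x, a, b, c] := by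
  have hne : tri a b c ≠ 0 := tri_ne_zero h
  obtain ⟨u, hu⟩ := exists_fourth h
  have h1 : ∀ x, tri x a b ⬝ᵥ c = - (tri a b c ⬝ᵥ x) := by
    intro x
    rw [tri_dot, tri_dot]; simp only [mnr]; ring
  filter_upwards [(polyLine_vecDot (tri a b c)).eventually_ne ⟨u, tri_dot_ne_zero hu⟩] with x hx
  rw [li_iff_tri, h1]
  exact neg_ne_zero.mpr hx

/-- a covector vanishing at generic points is zero -/
lemma eq_zero_of_eventually_dot {g : Vec k} (h : ∀ᶠ x in gen k (Vec k), g ⬝ᵥ x = 0) : g = 0 :=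
  dotProduct_eq_zero _ fun x => (polyLine_vecDot g).eq_zero_of_eventually h x

end Generic

/-- factorisation of a product of linear forms -/
lemma factor_of_mul {α β N D : Vec k} (h : ∀ x : Vec k, (α ⬝ᵥ x) * (D ⬝ᵥ x) = (N ⬝ᵥ x) * (β ⬝ᵥ x))
    (hND : ∀ r : k, N ≠ r • D) (hD : D ≠ 0) : ∃ r : k, β = r • D ∧ α = r • N := by
  -- a point with `D = 0`, `N = 1`
  obtain ⟨z₁, hz₁, hz₁'⟩ : ∃ z : Vec k, z ⬝ᵥ D = 0 ∧ z ⬝ᵥ N ≠ 0 := by
    by_contra hcon
    push Not at hcon
    obtain ⟨r, hr⟩ := exists_smul_of_perp D N hcon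
    exact hND r hr
  have hβ : ∀ z : Vec k, z ⬝ᵥ D = 0 → z ⬝ᵥ β = 0 := by
    have key : ∀ z : Vec k, z ⬝ᵥ D = 0 → z ⬝ᵥ N ≠ 0 → z ⬝ᵥ β = 0 := by
      intro z hz hzN
      have := h z
      rw [dotProduct_comm D z, hz, mul_zero, dotProduct_comm N z, dotProduct_comm β z] at this
      exact (mul_eq_zero.mp this.symm).resolve_left hzN
    intro z hz
    by_cases hzN : z ⬝ᵥ N = 0
    · have h1 := key z₁ hz₁ hz₁'
      have h2 := key (z + z₁) (by rw [add_dotProduct, hz, hz₁, add_zero])
        (by rw [add_dotProduct, hzN, zero_add]; exact hz₁')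
      rw [add_dotProduct, h1, add_zero] at h2
      exact h2
    · exact key z hz hzN
  obtain ⟨r, hr⟩ := exists_smul_of_perp D β hβ
  refine ⟨r, hr, ?_⟩
  have hα : ∀ z : Vec k, D ⬝ᵥ z ≠ 0 → (α - r • N) ⬝ᵥ z = 0 := by
    intro z hz
    have := h z
    rw [hr, smul_dotProduct, smul_eq_mul] at this
    rw [sub_dotProduct, smul_dotProduct, smul_eq_mul]
    have h3 : (D ⬝ᵥ z) * (α ⬝ᵥ z - r * (N ⬝ᵥ z)) = 0 := by linear_combination this
    exact (mul_eq_zero.mp h3).resolve_left hz
  obtain ⟨z₂, hz₂⟩ : ∃ z : Vec k, D ⬝ᵥ z ≠ 0 := by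
    by_contra hcon
    push Not at hcon
    exact hD (dotProduct_eq_zero _ hcon)
  have : α - r • N = 0 := by
    refine dotProduct_eq_zero _ fun z => ?_
    by_cases hz : D ⬝ᵥ z = 0
    · have h1 := hα z₂ hz₂
      have h2 := hα (z + z₂) (by rw [dotProduct_add, hz, zero_add]; exact hz₂)
      rw [dotProduct_add, h1, add_zero] at h2
      exact h2
    · exact hα z hz
  exact sub_eq_zero.mp this

end GR
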