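import Pool.Agent.Lib.GR.Basic

/-!
# Linear spaces of matrices of bounded rank with four parameters

`M : A →ₗ[k] Vec k →ₗ[k] F`, `Wr M x` the space of all `M a x`.  If its generic dimension is `r`
and all `M a x` span a space of dimension at least `4 r - 4`, then `M` factors through a projection
of rank `r`, or through a projection of rank `r - 1` up to a one dimensional space.
-/

set_option linter.unusedSectionVars false

namespace GR

open Filter Module

open scoped Matrix

variable {k : Type*} [Field k]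

section

variable {A F : Type*} [AddCommGroup A] [Module k A] [AddCommGroup F] [Module k F]

/-- The space of the values at `x`. -/
def Wr (M : A →ₗ[k] Vec k →ₗ[k] F) (x : Vec k) : Submodule k F := LinearMap.range (M.flip x)

lemma mem_Wr {M : A →ₗ[k] Vec k →ₗ[k] F} {x : Vec k} {f : F} :
    f ∈ Wr M x ↔ ∃ a, M a x = f := Iff.rfl

lemma self_mem_Wr (M : A →ₗ[k] Vec k →ₗ[k] F) (x : Vec k) (a : A) : M a x ∈ Wr M x := ⟨a, rfl⟩

/-- evaluation at all functionals -/
def evalAll (k F : Type*) [Field k] [AddCommGroup F] [Module k F] : F →ₗ[k] (Dual k F → k) :=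
  LinearMap.pi fun φ => φ

lemma evalAll_injective : Function.Injective (evalAll k F) := by
  rw [← LinearMap.ker_eq_bot, Submodule.eq_bot_iff]
  intro x hx
  rw [← Module.forall_dual_apply_eq_zero_iff k]
  intro φ
  exact congrFun (LinearMap.mem_ker.mp hx) φ

/-- Linear independence persists along a line. -/
lemma finite_dep_line [Infinite k] {ι : Type*} [Finite ι] (v w : ι → F)
    (h : LinearIndependent k v) :
    {s : k | ¬ LinearIndependent k (fun i => v i + s • w i)}.Finite := by
  have hb := big_linearIndependent (k := k) (W := k) (evalAll k F) evalAll_injective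
    (fun s i => v i + s • w i) (fun i j => by
      have h1 : (fun s : k => evalAll k F (v i + s • w i) j)
          = fun s : k => evalAll k F (v i) j + s * evalAll k F (w i) j := by
        ext s
        simp
      rw [h1]
      exact (PolyLine.const _).add ((PolyLine.linear (LinearMap.id : k →ₗ[k] k)).mul
        (PolyLine.const _))) ⟨0, by simpa using h⟩
  have h2 := hb.2 0 (by simpa using h) 1
  simpa using h2

/-- If the generic dimension of `Wr M x` is at most `r`, it is at most `r` everywhere. -/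
lemma finrank_Wr_le [Infinite k] [FiniteDimensional k F] (M : A →ₗ[k] Vec k →ₗ[k] F) {r : ℕ}
    (h : ∀ᶠ x in gen k (Vec k), finrank k (Wr M x) ≤ r) (x : Vec k) :
    finrank k (Wr M x) ≤ r := by
  by_contra hlt
  push Not at hlt
  -- choose a basis of `Wr M x`
  let b := Module.finBasis k (Wr M x)
  have hb : ∀ i, ∃ a : A, M a x = (b i : F) := fun i => (b i).2
  choose a ha using hb
  have hli : LinearIndependent k (fun i => M (a i) x) := by
    have h1 : LinearIndependent k (fun i => (b i : F)) :=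
      b.linearIndependent.map' (Wr M x).subtype (Submodule.ker_subtype _)
    have h2 : (fun i => M (a i) x) = fun i => (b i : F) := funext ha
    rw [h2]
    exact h1
  have h1 : ∀ᶠ y in gen k (Vec k), LinearIndependent k (fun i => M (a i) y) := by
    refine eventually_linearIndependent (evalAll k F) evalAll_injective
      (fun y i => M (a i) y) (fun i j => ?_) ⟨x, hli⟩
    exact PolyLine.linear (((evalAll k F).comp (M (a i))).comp LinearMap.id |>.comp LinearMap.id
      |> fun f => (LinearMap.proj j).comp f)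
  obtain ⟨y, hy1, hy2⟩ := (h1.and h).exists
  have h2 : Submodule.span k (Set.range fun i => M (a i) y) ≤ Wr M y := by
    rw [Submodule.span_le]
    rintro _ ⟨i, rfl⟩
    exact self_mem_Wr _ _ _
  have h3 := Submodule.finrank_mono h2
  rw [finrank_span_eq_card hy1, Fintype.card_fin] at h3
  omega

/-- The hypotheses of the classification. -/
structure BR (M : A →ₗ[k] Vec k →ₗ[k] F) (r : ℕ) (x0 : Vec k) : Prop where
  le : ∀ x, finrank k (Wr M x) ≤ r
  eq : finrank k (Wr M x0) = r
  span : 4 * r ≤ finrank k (⨆ x, Wr M x : Submodule k F) + 4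

variable [Infinite k] [FiniteDimensional k F] {M : A →ₗ[k] Vec k →ₗ[k] F} {r : ℕ} {x0 : Vec k}

/-- A vector which lies in all spaces on a line near `x0` lies in the space at `x0`. -/
lemma limit_mem (hle : ∀ x, finrank k (Wr M x) ≤ r) (heq : finrank k (Wr M x0) = r)
    {u : F} {q : Vec k} (h : ∀ s : k, s ≠ 0 → u ∈ Wr M (x0 + s • q)) : u ∈ Wr M x0 := by
  by_contra hu
  let b := Module.finBasis k (Wr M x0)
  have hb : ∀ i, ∃ a : A, M a x0 = (b i : F) := fun i => (b i).2
  choose a ha using hb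
  have hli : LinearIndependent k (fun i => M (a i) x0) := by
    have h1 : LinearIndependent k (fun i => (b i : F)) :=
      b.linearIndependent.map' (Wr M x0).subtype (Submodule.ker_subtype _)
    have h2 : (fun i => M (a i) x0) = fun i => (b i : F) := funext ha
    rw [h2]
    exact h1
  have hsp : Submodule.span k (Set.range fun i => M (a i) x0) ≤ Wr M x0 := by
    rw [Submodule.span_le]
    rintro _ ⟨i, rfl⟩
    exact self_mem_Wr _ _ _
  have hli2 : LinearIndependent k (Fin.snoc (fun i => M (a i) x0) u : Fin (_ + 1) → F) :=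
    linearIndependent_finSnoc.mpr ⟨hli, fun h' => hu (hsp h')⟩
  have hfin := finite_dep_line _ (Fin.snoc (fun i => M (a i) q) 0 : Fin (_ + 1) → F) hli2
  obtain ⟨s, hs⟩ := (hfin.union (Set.finite_singleton (0 : k))).infinite_compl.nonempty
  simp only [Set.mem_compl_iff, Set.mem_union, Set.mem_ofPred_eq, Set.mem_singleton_iff, not_or,
    not_not] at hs
  obtain ⟨hs1, hs0⟩ := hs
  have h2 : Submodule.span k (Set.range fun i => (Fin.snoc (fun i => M (a i) x0) u : Fin (_ + 1) → F) i
      + s • (Fin.snoc (fun i => M (a i) q) 0 : Fin (_ + 1) → F) i) ≤ Wr M (x0 + s • q) := by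
    rw [Submodule.span_le]
    rintro _ ⟨i, rfl⟩
    refine Fin.lastCases ?_ (fun j => ?_) i
    · simp only [Fin.snoc_last, smul_zero, add_zero]
      exact h s hs0
    · simp only [Fin.snoc_castSucc]
      have : M (a j) x0 + s • M (a j) q = M (a j) (x0 + s • q) := by simp
      rw [this]
      exact self_mem_Wr _ _ _
  have h3 := Submodule.finrank_mono h2
  rw [finrank_span_eq_card hs1, Fintype.card_fin] at h3
  have h4 := hle (x0 + s • q)
  omega

/-- a subspace of `Vec k` of dimension less than four can be enlarged by one vector -/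
lemma exists_ext1 {k : Type*} [Field k] {S : Submodule k (Vec k)} (h : finrank k S < 4) :
    ∃ x : Vec k, finrank k (S ⊔ Submodule.span k {x} : Submodule k (Vec k)) = finrank k S + 1 := by
  have h1 : S ≠ ⊤ := by
    rintro rfl
    rw [finrank_top, Module.finrank_fin_fun] at h
    omega
  obtain ⟨x, -, hx⟩ := SetLike.exists_of_lt (lt_top_iff_ne_top.mpr h1)
  refine ⟨x, ?_⟩
  have hx0 : x ≠ 0 := fun h0 => hx (h0 ▸ S.zero_mem)
  have hd : S ⊓ Submodule.span k {x} = ⊥ := by
    rw [Submodule.eq_bot_iff]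
    rintro y ⟨hy1, hy2⟩
    obtain ⟨c, rfl⟩ := Submodule.mem_span_singleton.mp hy2
    by_cases hc : c = 0
    · simp [hc]
    · exfalso
      apply hx
      have := S.smul_mem c⁻¹ hy1
      rwa [smul_smul, inv_mul_cancel₀ hc, one_smul] at this
  have h2 := Submodule.finrank_sup_add_finrank_inf_eq S (Submodule.span k {x})
  rw [hd, finrank_bot, finrank_span_singleton hx0] at h2
  omega

/-- The common setting: `C` a complement of the kernel at `x0`, `g` a left inverse. -/
structure BRSet (M : A →ₗ[k] Vec k →ₗ[k] F) (r : ℕ) (x0 : Vec k) (C : Submodule k A)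
    (g : F →ₗ[k] A) : Prop where
  le : ∀ x, finrank k (Wr M x) ≤ r
  eq : finrank k (Wr M x0) = r
  span : 4 * r ≤ finrank k (⨆ x, Wr M x : Submodule k F) + 4
  compl : IsCompl C (LinearMap.ker (M.flip x0))
  gC : ∀ f, g f ∈ C
  gM : ∀ c ∈ C, g (M c x0) = c
  fd : FiniteDimensional k C

lemma exists_BRSet (hle : ∀ x, finrank k (Wr M x) ≤ r) (heq : finrank k (Wr M x0) = r)
    (hsp : 4 * r ≤ finrank k (⨆ x, Wr M x : Submodule k F) + 4) :
    ∃ C g, BRSet M r x0 C g := by
  obtain ⟨C, hC⟩ := Submodule.exists_isCompl (LinearMap.ker (M.flip x0))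
  let f : C →ₗ[k] F := (M.flip x0).domRestrict C
  have hf : LinearMap.ker f = ⊥ := by
    rw [Submodule.eq_bot_iff]
    rintro ⟨c, hc⟩ h0
    have h1 : c ∈ LinearMap.ker (M.flip x0) := by
      have := LinearMap.mem_ker.mp h0
      exact LinearMap.mem_ker.mpr this
    have h2 := hC.symm.disjoint.le_bot ⟨hc, h1⟩
    exact Subtype.ext ((Submodule.mem_bot k).mp h2)
  obtain ⟨g, hg⟩ := LinearMap.exists_leftInverse_of_injective f hf
  have hfd : FiniteDimensional k C := FiniteDimensional.of_injective f (LinearMap.ker_eq_bot.mp hf)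
  refine ⟨C, C.subtype.comp g, hle, heq, hsp, hC.symm, fun y => (g y).2, fun c hc => ?_, hfd⟩
  have := LinearMap.congr_fun hg ⟨c, hc⟩
  exact congrArg Subtype.val this

variable {C : Submodule k A} {g : F →ₗ[k] A}

lemma BRSet.Mg (h : BRSet M r x0 C g) {f : F} (hf : f ∈ Wr M x0) : M (g f) x0 = f := by
  obtain ⟨a, rfl⟩ := hf
  obtain ⟨c, hc, b, hb, rfl⟩ := Submodule.mem_sup.mp (h.compl.sup_eq_top ▸ Submodule.mem_top (x := a))
  have hb' : M b x0 = 0 := hb
  show M (g (M (c + b) x0)) x0 = M (c + b) x0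
  rw [map_add, LinearMap.add_apply, hb', add_zero, h.gM c hc]

lemma BRSet.finrank_C (h : BRSet M r x0 C g) : finrank k C = r := by
  have := h.fd
  rw [← h.eq]
  let e : C →ₗ[k] Wr M x0 := LinearMap.codRestrict _ ((M.flip x0).domRestrict C)
    (fun c => self_mem_Wr M x0 c)
  refine LinearEquiv.finrank_eq (LinearEquiv.ofBijective e ⟨?_, ?_⟩)
  · intro c c' hcc
    have h1 : M (c : A) x0 = M (c' : A) x0 := congrArg Subtype.val hcc
    apply Subtype.ext
    rw [← h.gM c c.2, ← h.gM c' c'.2, h1]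
  · rintro ⟨f, hf⟩
    exact ⟨⟨g f, h.gC f⟩, Subtype.ext (h.Mg hf)⟩

/-- first order -/
lemma BRSet.step1 (h : BRSet M r x0 C g) {a : A} (ha : M a x0 = 0) (q : Vec k) :
    M a q ∈ Wr M x0 := by
  refine limit_mem h.le h.eq (q := q) fun s hs => ?_
  have h1 : M a (x0 + s • q) = s • M a q := by
    rw [map_add, map_smul, ha, zero_add]
  have h2 := (Wr M (x0 + s • q)).smul_mem s⁻¹ (self_mem_Wr M (x0 + s • q) a)
  rwa [h1, smul_smul, inv_mul_cancel₀ hs, one_smul] at h2

/-- second order -/
lemma BRSet.step2 (h : BRSet M r x0 C g) {a b : A} (ha : M a x0 = 0) {q : Vec k}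
    (hb : M a q = M b x0) : M b q ∈ Wr M x0 := by
  refine limit_mem h.le h.eq (q := q) fun s hs => ?_
  have h1 : M (a - s • b) (x0 + s • q) = (-(s ^ 2)) • M b q := by
    simp only [map_sub, map_smul, map_add, LinearMap.sub_apply, LinearMap.smul_apply, ha, hb]
    module
  have h2 := (Wr M (x0 + s • q)).smul_mem (-(s ^ 2))⁻¹ (self_mem_Wr M (x0 + s • q) (a - s • b))
  rwa [h1, smul_smul, inv_mul_cancel₀ (neg_ne_zero.mpr (pow_ne_zero 2 hs)), one_smul] at h2

/-- third order -/
lemma BRSet.step3 (h : BRSet M r x0 C g) {a b b' : A} (ha : M a x0 = 0) {q : Vec k}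
    (hb : M a q = M b x0) (hb' : M b q = M b' x0) : M b' q ∈ Wr M x0 := by
  refine limit_mem h.le h.eq (q := q) fun s hs => ?_
  have h1 : M (a - s • b + s ^ 2 • b') (x0 + s • q) = (s ^ 3) • M b' q := by
    simp only [map_sub, map_smul, map_add, LinearMap.sub_apply, LinearMap.smul_apply,
      LinearMap.add_apply, ha, hb, hb']
    module
  have h2 := (Wr M (x0 + s • q)).smul_mem (s ^ 3)⁻¹
    (self_mem_Wr M (x0 + s • q) (a - s • b + s ^ 2 • b'))
  rwa [h1, smul_smul, inv_mul_cancel₀ (pow_ne_zero 3 hs), one_smul] at h2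

/-- The basic dimension count. -/
lemma BRSet.count (h : BRSet M r x0 C g) {q1 q2 q3 : Vec k}
    (hq : Submodule.span k {x0} ⊔ Submodule.span k {q1} ⊔ Submodule.span k {q2} ⊔
      Submodule.span k {q3} = ⊤)
    {C1 C2 C3 : Submodule k A} [FiniteDimensional k C1] [FiniteDimensional k C2]
    [FiniteDimensional k C3]
    (h1 : ∀ c ∈ C, M c q1 ∈ Wr M x0 ⊔ C1.map (M.flip q1) ⊔ C2.map (M.flip q2) ⊔ C3.map (M.flip q3))
    (h2 : ∀ c ∈ C, M c q2 ∈ Wr M x0 ⊔ C1.map (M.flip q1) ⊔ C2.map (M.flip q2) ⊔ C3.map (M.flip q3))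
    (h3 : ∀ c ∈ C, M c q3 ∈ Wr M x0 ⊔ C1.map (M.flip q1) ⊔ C2.map (M.flip q2) ⊔ C3.map (M.flip q3)) :
    3 * r ≤ finrank k C1 + finrank k C2 + finrank k C3 + 4 := by
  set S := Wr M x0 ⊔ C1.map (M.flip q1) ⊔ C2.map (M.flip q2) ⊔ C3.map (M.flip q3) with hS
  have hW : Wr M x0 ≤ S := le_sup_left.trans (le_sup_left.trans le_sup_left)
  have hE : (⨆ x, Wr M x : Submodule k F) ≤ S := by
    refine iSup_le fun x => ?_
    rintro _ ⟨a, rfl⟩
    show M a x ∈ S
    obtain ⟨c, hc, b, hb, rfl⟩ :=
      Submodule.mem_sup.mp (h.compl.sup_eq_top ▸ Submodule.mem_top (x := a))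
    have hb' : M b x0 = 0 := hb
    rw [map_add, LinearMap.add_apply]
    refine S.add_mem ?_ (hW (h.step1 hb' x))
    have hx : x ∈ Submodule.span k {x0} ⊔ Submodule.span k {q1} ⊔ Submodule.span k {q2} ⊔
      Submodule.span k {q3} := hq ▸ Submodule.mem_top
    obtain ⟨y, hy, z3, hz3, rfl⟩ := Submodule.mem_sup.mp hx
    obtain ⟨y', hy', z2, hz2, rfl⟩ := Submodule.mem_sup.mp hy
    obtain ⟨z0, hz0, z1, hz1, rfl⟩ := Submodule.mem_sup.mp hy'
    obtain ⟨t3, rfl⟩ := Submodule.mem_span_singleton.mp hz3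
    obtain ⟨t2, rfl⟩ := Submodule.mem_span_singleton.mp hz2
    obtain ⟨t1, rfl⟩ := Submodule.mem_span_singleton.mp hz1
    obtain ⟨t0, rfl⟩ := Submodule.mem_span_singleton.mp hz0
    simp only [map_add, map_smul]
    exact S.add_mem (S.add_mem (S.add_mem (S.smul_mem _ (hW (self_mem_Wr M x0 c)))
      (S.smul_mem _ (h1 c hc))) (S.smul_mem _ (h2 c hc))) (S.smul_mem _ (h3 c hc))
  have hle := Submodule.finrank_mono hE
  have e1 := Submodule.finrank_add_le_finrank_add_finrank
    (Wr M x0 ⊔ C1.map (M.flip q1) ⊔ C2.map (M.flip q2)) (C3.map (M.flip q3))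
  have e2 := Submodule.finrank_add_le_finrank_add_finrank
    (Wr M x0 ⊔ C1.map (M.flip q1)) (C2.map (M.flip q2))
  have e3 := Submodule.finrank_add_le_finrank_add_finrank (Wr M x0) (C1.map (M.flip q1))
  have f1 := Submodule.finrank_map_le (M.flip q1) C1
  have f2 := Submodule.finrank_map_le (M.flip q2) C2
  have f3 := Submodule.finrank_map_le (M.flip q3) C3
  have h4 := h.span
  have h5 := h.eq
  rw [hS] at hle
  omega

/-- the elements of `C` which are small in all directions -/
def BRKr (M : A →ₗ[k] Vec k →ₗ[k] F) (x0 : Vec k) (C : Submodule k A) : Submodule k A where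
  carrier := {c | c ∈ C ∧ ∀ q, M c q ∈ Wr M x0}
  add_mem' := by
    rintro c c' ⟨h1, h2⟩ ⟨h1', h2'⟩
    refine ⟨C.add_mem h1 h1', fun q => ?_⟩
    rw [map_add]
    exact (Wr M x0).add_mem (h2 q) (h2' q)
  zero_mem' := ⟨C.zero_mem, fun q => by simp⟩
  smul_mem' := by
    rintro t c ⟨h1, h2⟩
    refine ⟨C.smul_mem t h1, fun q => ?_⟩
    rw [map_smul]
    exact (Wr M x0).smul_mem t (h2 q)

lemma mem_BRKr {c : A} : c ∈ BRKr M x0 C ↔ c ∈ C ∧ ∀ q, M c q ∈ Wr M x0 := Iff.rfl

/-- relative complements -/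
lemma exists_relCompl {K C : Submodule k A} (h : K ≤ C) [FiniteDimensional k C] :
    ∃ D ≤ C, D ⊔ K = C ∧ finrank k D + finrank k K = finrank k C := by
  obtain ⟨D', hD'⟩ := Submodule.exists_isCompl K
  have hK : FiniteDimensional k K := Submodule.finiteDimensional_of_le h
  have hD : FiniteDimensional k (D' ⊓ C : Submodule k A) :=
    Submodule.finiteDimensional_of_le inf_le_right
  have hsup : (D' ⊓ C) ⊔ K = C := by
    apply le_antisymm (sup_le inf_le_right h)
    intro c hc
    obtain ⟨a, ha, b, hb, rfl⟩ :=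
      Submodule.mem_sup.mp (hD'.sup_eq_top ▸ Submodule.mem_top (x := c))
    rw [add_comm]
    refine Submodule.add_mem_sup ⟨hb, ?_⟩ ha
    have := C.sub_mem hc (h ha)
    simpa using this
  refine ⟨D' ⊓ C, inf_le_right, hsup, ?_⟩
  have h1 := Submodule.finrank_sup_add_finrank_inf_eq (D' ⊓ C) K
  have h2 : (D' ⊓ C) ⊓ K = ⊥ := by
    rw [Submodule.eq_bot_iff]
    rintro x ⟨⟨hx1, -⟩, hx2⟩
    exact (Submodule.mem_bot k).mp (hD'.disjoint.le_bot ⟨hx2, hx1⟩)
  rw [h2, hsup, finrank_bot] at h1
  omega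

/-- completing to a basis -/
lemma exists_frame1 {k : Type*} [Field k] {x0 : Vec k} (h0 : x0 ≠ 0) : ∃ q1 q2 q3 : Vec k,
    Submodule.span k {x0} ⊔ Submodule.span k {q1} ⊔ Submodule.span k {q2} ⊔
      Submodule.span k {q3} = ⊤ := by
  obtain ⟨q1, h1⟩ := exists_ext1 (k := k) (S := Submodule.span k {x0}) (by
    rw [finrank_span_singleton h0]; norm_num)
  rw [finrank_span_singleton h0] at h1
  obtain ⟨q2, h2⟩ := exists_ext1 (k := k) (S := Submodule.span k {x0} ⊔ Submodule.span k {q1})
    (by omega)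
  obtain ⟨q3, h3⟩ := exists_ext1 (k := k) (S := Submodule.span k {x0} ⊔ Submodule.span k {q1} ⊔
    Submodule.span k {q2}) (by omega)
  refine ⟨q1, q2, q3, Submodule.eq_top_of_finrank_eq ?_⟩
  rw [Module.finrank_fin_fun]
  omega

lemma exists_frame2 {k : Type*} [Field k] {x0 q1 : Vec k} (h0 : x0 ≠ 0)
    (h : q1 ∉ Submodule.span k {x0}) : ∃ q2 q3 : Vec k,
    Submodule.span k {x0} ⊔ Submodule.span k {q1} ⊔ Submodule.span k {q2} ⊔
      Submodule.span k {q3} = ⊤ := by
  have h1 : 2 ≤ finrank k (Submodule.span k {x0} ⊔ Submodule.span k {q1} :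
      Submodule k (Vec k)) := by
    have h2 : Submodule.span k {x0} < Submodule.span k {x0} ⊔ Submodule.span k {q1} :=
      lt_of_le_of_ne le_sup_left fun e => h (e ▸ (le_sup_right :
        Submodule.span k {q1} ≤ _) (Submodule.mem_span_singleton_self q1))
    have h3 := Submodule.finrank_lt_finrank_of_lt h2
    rw [finrank_span_singleton h0] at h3
    omega
  by_cases h4 : finrank k (Submodule.span k {x0} ⊔ Submodule.span k {q1} :
      Submodule k (Vec k)) < 4
  · obtain ⟨q2, h5⟩ := exists_ext1 h4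
    by_cases h6 : finrank k (Submodule.span k {x0} ⊔ Submodule.span k {q1} ⊔
        Submodule.span k {q2} : Submodule k (Vec k)) < 4
    · obtain ⟨q3, h7⟩ := exists_ext1 h6
      refine ⟨q2, q3, Submodule.eq_top_of_finrank_eq ?_⟩
      have := Submodule.finrank_le (Submodule.span k {x0} ⊔ Submodule.span k {q1} ⊔
        Submodule.span k {q2} ⊔ Submodule.span k {q3})
      rw [Module.finrank_fin_fun] at this ⊢
      omega
    · refine ⟨q2, 0, Submodule.eq_top_of_finrank_eq ?_⟩
      have e : Submodule.span k {x0} ⊔ Submodule.span k {q1} ⊔ Submodule.span k {q2} ⊔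
        Submodule.span k {(0 : Vec k)} = Submodule.span k {x0} ⊔ Submodule.span k {q1} ⊔
        Submodule.span k {q2} := by simp
      have := Submodule.finrank_le (Submodule.span k {x0} ⊔ Submodule.span k {q1} ⊔
        Submodule.span k {q2})
      rw [Module.finrank_fin_fun] at this ⊢
      rw [e]
      omega
  · refine ⟨0, 0, Submodule.eq_top_of_finrank_eq ?_⟩
    have e : Submodule.span k {x0} ⊔ Submodule.span k {q1} ⊔ Submodule.span k {(0 : Vec k)} ⊔
        Submodule.span k {(0 : Vec k)} = Submodule.span k {x0} ⊔ Submodule.span k {q1} := by simp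
    have := Submodule.finrank_le (Submodule.span k {x0} ⊔ Submodule.span k {q1})
    rw [Module.finrank_fin_fun] at this ⊢
    rw [e]
    omega

lemma exists_frame3 {k : Type*} [Field k] {x0 q1 q2 : Vec k} (h0 : x0 ≠ 0)
    (h : q1 ∉ Submodule.span k {x0})
    (h' : q2 ∉ Submodule.span k {x0} ⊔ Submodule.span k {q1}) : ∃ q3 : Vec k,
    Submodule.span k {x0} ⊔ Submodule.span k {q1} ⊔ Submodule.span k {q2} ⊔
      Submodule.span k {q3} = ⊤ := by
  have h1 : 2 ≤ finrank k (Submodule.span k {x0} ⊔ Submodule.span k {q1} :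
      Submodule k (Vec k)) := by
    have h2 : Submodule.span k {x0} < Submodule.span k {x0} ⊔ Submodule.span k {q1} :=
      lt_of_le_of_ne le_sup_left fun e => h (e ▸ (le_sup_right :
        Submodule.span k {q1} ≤ _) (Submodule.mem_span_singleton_self q1))
    have h3 := Submodule.finrank_lt_finrank_of_lt h2
    rw [finrank_span_singleton h0] at h3
    omega
  have h2 : 3 ≤ finrank k (Submodule.span k {x0} ⊔ Submodule.span k {q1} ⊔
      Submodule.span k {q2} : Submodule k (Vec k)) := by
    have h2 : Submodule.span k {x0} ⊔ Submodule.span k {q1} <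
        Submodule.span k {x0} ⊔ Submodule.span k {q1} ⊔ Submodule.span k {q2} :=
      lt_of_le_of_ne le_sup_left fun e => h' (e ▸ (le_sup_right :
        Submodule.span k {q2} ≤ _) (Submodule.mem_span_singleton_self q2))
    have h3 := Submodule.finrank_lt_finrank_of_lt h2
    omega
  by_cases h6 : finrank k (Submodule.span k {x0} ⊔ Submodule.span k {q1} ⊔
        Submodule.span k {q2} : Submodule k (Vec k)) < 4
  · obtain ⟨q3, h7⟩ := exists_ext1 h6
    refine ⟨q3, Submodule.eq_top_of_finrank_eq ?_⟩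
    have := Submodule.finrank_le (Submodule.span k {x0} ⊔ Submodule.span k {q1} ⊔
        Submodule.span k {q2} ⊔ Submodule.span k {q3})
    rw [Module.finrank_fin_fun] at this ⊢
    omega
  · refine ⟨0, Submodule.eq_top_of_finrank_eq ?_⟩
    have e : Submodule.span k {x0} ⊔ Submodule.span k {q1} ⊔ Submodule.span k {q2} ⊔
        Submodule.span k {(0 : Vec k)} = Submodule.span k {x0} ⊔ Submodule.span k {q1} ⊔
        Submodule.span k {q2} := by simp
    have := Submodule.finrank_le (Submodule.span k {x0} ⊔ Submodule.span k {q1} ⊔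
        Submodule.span k {q2})
    rw [Module.finrank_fin_fun] at this ⊢
    rw [e]
    omega

/-- at most one small direction -/
lemma BRSet.finrank_Kr (h : BRSet M r x0 C g) (h0 : x0 ≠ 0) : finrank k (BRKr M x0 C) ≤ 1 := by
  have := h.fd
  obtain ⟨D, hD, hDK, hdim⟩ := exists_relCompl (K := BRKr M x0 C) (C := C) (fun c hc => hc.1)
  have hDf : FiniteDimensional k D := Submodule.finiteDimensional_of_le hD
  obtain ⟨q1, q2, q3, hq⟩ := exists_frame1 h0
  have key : ∀ c ∈ C, ∀ q, M c q ∈ Wr M x0 ⊔ D.map (M.flip q) := by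
    intro c hc q
    rw [← hDK] at hc
    obtain ⟨d, hd, e, he, rfl⟩ := Submodule.mem_sup.mp hc
    rw [map_add, LinearMap.add_apply, add_comm]
    exact Submodule.add_mem_sup (he.2 q) ⟨d, hd, rfl⟩
  have k1 : ∀ X Y1 Y2 Y3 : Submodule k F, X ⊔ Y1 ≤ X ⊔ Y1 ⊔ Y2 ⊔ Y3 := fun X Y1 Y2 Y3 =>
    le_sup_left.trans le_sup_left
  have k2 : ∀ X Y1 Y2 Y3 : Submodule k F, X ⊔ Y2 ≤ X ⊔ Y1 ⊔ Y2 ⊔ Y3 := fun X Y1 Y2 Y3 =>
    sup_le (le_sup_left.trans (le_sup_left.trans le_sup_left)) (le_sup_right.trans le_sup_left)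
  have k3 : ∀ X Y1 Y2 Y3 : Submodule k F, X ⊔ Y3 ≤ X ⊔ Y1 ⊔ Y2 ⊔ Y3 := fun X Y1 Y2 Y3 =>
    sup_le (le_sup_left.trans (le_sup_left.trans le_sup_left)) le_sup_right
  have h1 := h.count hq (C1 := D) (C2 := D) (C3 := D) (fun c hc => k1 _ _ _ _ (key c hc q1))
    (fun c hc => k2 _ _ _ _ (key c hc q2)) (fun c hc => k3 _ _ _ _ (key c hc q3))
  have h2 := h.finrank_C
  omega

lemma BRSet.g_eq (h : BRSet M r x0 C g) {a : A} (ha : M a x0 = 0) (q : Vec k) :
    M a q = M (g (M a q)) x0 := (h.Mg (h.step1 ha q)).symm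

/-- **First part**: `g (M a q)` is small for `a` in the kernel. -/
lemma BRSet.small (h : BRSet M r x0 C g) (h0 : x0 ≠ 0) {a : A} (ha : M a x0 = 0) (q1 : Vec k) :
    g (M a q1) ∈ BRKr M x0 C := by
  by_contra hcon
  have hfd := h.fd
  have hF2 : ∀ q, M (g (M a q)) q ∈ Wr M x0 := fun q => h.step2 ha (h.g_eq ha q)
  have hF2' : ∀ q q', M (g (M a q)) q' + M (g (M a q')) q ∈ Wr M x0 := by
    intro q q'
    have e1 := hF2 (q + q')
    simp only [map_add, LinearMap.add_apply] at e1
    have e2 := (Wr M x0).sub_mem ((Wr M x0).sub_mem e1 (hF2 q)) (hF2 q')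
    have e : M (g (M a q)) q + M (g (M a q')) q + (M (g (M a q)) q' + M (g (M a q')) q')
        - M (g (M a q)) q - M (g (M a q')) q'
        = M (g (M a q)) q' + M (g (M a q')) q := by abel
    rwa [e] at e2
  -- a direction in which `c1` is not small
  have hc1C : g (M a q1) ∈ C := h.gC _
  obtain ⟨q2, hq2⟩ : ∃ q2, M (g (M a q1)) q2 ∉ Wr M x0 := by
    by_contra hall
    push Not at hall
    exact hcon ⟨hc1C, hall⟩
  set c1 := g (M a q1) with hc1
  set c2 := g (M a q2) with hc2
  have hc2C : c2 ∈ C := h.gC _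
  have h21 : M c2 q1 ∉ Wr M x0 := by
    intro h'
    have := (Wr M x0).sub_mem (hF2' q1 q2) h'
    rw [← hc1, ← hc2, add_sub_cancel_right] at this
    exact hq2 this
  have h11 : M c1 q1 ∈ Wr M x0 := hF2 q1
  have h22 : M c2 q2 ∈ Wr M x0 := hF2 q2
  have hgx0 : g (M a x0) = 0 := by rw [ha, map_zero]
  -- independence
  have hc1ne : c1 ≠ 0 := by
    intro h'
    apply hcon
    rw [h']
    exact (BRKr M x0 C).zero_mem
  have hc2n : c2 ∉ Submodule.span k {c1} := by
    intro h'
    obtain ⟨t, ht⟩ := Submodule.mem_span_singleton.mp h'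
    apply h21
    rw [← ht, map_smul]
    exact (Wr M x0).smul_mem t h11
  have hq1n : q1 ∉ Submodule.span k {x0} := by
    intro h'
    obtain ⟨t, ht⟩ := Submodule.mem_span_singleton.mp h'
    apply hc1ne
    rw [hc1, ← ht, map_smul, map_smul, hgx0, smul_zero]
  have hq2n : q2 ∉ Submodule.span k {x0} ⊔ Submodule.span k {q1} := by
    intro h'
    obtain ⟨y, hy, z, hz, hyz⟩ := Submodule.mem_sup.mp h'
    obtain ⟨t, rfl⟩ := Submodule.mem_span_singleton.mp hy
    obtain ⟨t', rfl⟩ := Submodule.mem_span_singleton.mp hz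
    apply hc2n
    have e : c2 = t' • c1 := by
      rw [hc2, hc1, ← hyz]
      simp only [map_add, map_smul, hgx0, smul_zero, zero_add]
    rw [e]
    exact Submodule.smul_mem _ _ (Submodule.mem_span_singleton_self _)
  obtain ⟨q3, hq⟩ := exists_frame3 h0 hq1n hq2n
  -- the complement
  have hle : Submodule.span k {c1} ⊔ Submodule.span k {c2} ≤ C := sup_le
    (by rw [Submodule.span_singleton_le_iff_mem]; exact hc1C)
    (by rw [Submodule.span_singleton_le_iff_mem]; exact hc2C)
  obtain ⟨D, hD, hDK, hdim⟩ := exists_relCompl hle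
  have hDf : FiniteDimensional k D := Submodule.finiteDimensional_of_le hD
  have hfr : 2 ≤ finrank k (Submodule.span k {c1} ⊔ Submodule.span k {c2} : Submodule k A) := by
    have h2 : Submodule.span k {c1} < Submodule.span k {c1} ⊔ Submodule.span k {c2} :=
      lt_of_le_of_ne le_sup_left fun e => hc2n (e ▸ (le_sup_right :
        Submodule.span k {c2} ≤ _) (Submodule.mem_span_singleton_self c2))
    have h3 := Submodule.finrank_lt_finrank_of_lt h2
    rw [finrank_span_singleton hc1ne] at h3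
    omega
  set S := Wr M x0 ⊔ (Submodule.span k {c2} ⊔ D).map (M.flip q1) ⊔ D.map (M.flip q2) ⊔
    D.map (M.flip q3) with hS
  have hW : Wr M x0 ≤ S := le_sup_left.trans (le_sup_left.trans le_sup_left)
  have hS1 : ∀ d ∈ Submodule.span k {c2} ⊔ D, M d q1 ∈ S := fun d hd =>
    (le_sup_right.trans (le_sup_left.trans le_sup_left) : _ ≤ S) ⟨d, hd, rfl⟩
  have hS2 : ∀ d ∈ D, M d q2 ∈ S := fun d hd =>
    (le_sup_right.trans le_sup_left : _ ≤ S) ⟨d, hd, rfl⟩
  have hS3 : ∀ d ∈ D, M d q3 ∈ S := fun d hd => (le_sup_right : _ ≤ S) ⟨d, hd, rfl⟩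
  have hdec : ∀ c ∈ C, ∃ t1 t2 : k, ∃ d ∈ D, c = d + (t1 • c1 + t2 • c2) := by
    intro c hc
    rw [← hDK] at hc
    obtain ⟨d, hd, e, he, rfl⟩ := Submodule.mem_sup.mp hc
    obtain ⟨y, hy, z, hz, rfl⟩ := Submodule.mem_sup.mp he
    obtain ⟨t, rfl⟩ := Submodule.mem_span_singleton.mp hy
    obtain ⟨t', rfl⟩ := Submodule.mem_span_singleton.mp hz
    exact ⟨t, t', d, hd, rfl⟩
  have k1 : ∀ c ∈ C, M c q1 ∈ S := by
    intro c hc
    obtain ⟨t1, t2, d, hd, rfl⟩ := hdec c hc
    simp only [map_add, map_smul, LinearMap.add_apply, LinearMap.smul_apply]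
    exact S.add_mem (hS1 d (Submodule.mem_sup_right hd)) (S.add_mem (S.smul_mem _ (hW h11))
      (S.smul_mem _ (hS1 c2 (Submodule.mem_sup_left (Submodule.mem_span_singleton_self _)))))
  have k2 : ∀ c ∈ C, M c q2 ∈ S := by
    intro c hc
    obtain ⟨t1, t2, d, hd, rfl⟩ := hdec c hc
    simp only [map_add, map_smul, LinearMap.add_apply, LinearMap.smul_apply]
    refine S.add_mem (hS2 d hd) (S.add_mem (S.smul_mem _ ?_) (S.smul_mem _ (hW h22)))
    have e1 := S.sub_mem (hW (hF2' q1 q2)) (k1 c2 hc2C)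
    rwa [← hc1, ← hc2, add_sub_cancel_right] at e1
  have k3 : ∀ c ∈ C, M c q3 ∈ S := by
    intro c hc
    obtain ⟨t1, t2, d, hd, rfl⟩ := hdec c hc
    simp only [map_add, map_smul, LinearMap.add_apply, LinearMap.smul_apply]
    refine S.add_mem (hS3 d hd) (S.add_mem (S.smul_mem _ ?_) (S.smul_mem _ ?_))
    · have e1 := S.sub_mem (hW (hF2' q1 q3)) (k1 _ (h.gC (M a q3)))
      rwa [← hc1, add_sub_cancel_right] at e1
    · have e1 := S.sub_mem (hW (hF2' q2 q3)) (k2 _ (h.gC (M a q3)))
      rwa [← hc2, add_sub_cancel_right] at e1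
  have hcnt := h.count hq (C1 := Submodule.span k {c2} ⊔ D) (C2 := D) (C3 := D) k1 k2 k3
  have e1 := Submodule.finrank_add_le_finrank_add_finrank (Submodule.span k {c2}) D
  have hc2ne : c2 ≠ 0 := by
    intro hz
    apply hc2n
    rw [hz]
    exact Submodule.zero_mem _
  have e2 : finrank k (Submodule.span k {c2}) = 1 := finrank_span_singleton hc2ne
  have h2 := h.finrank_C
  omega

/-- **Second part**: if `w` is the small direction, then `g (M w q)` is a multiple of `w`. -/
lemma BRSet.small2 (h : BRSet M r x0 C g) (h0 : x0 ≠ 0) (h2 : (2 : k) ≠ 0) {a : A}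
    (ha : M a x0 = 0) {p0 : Vec k} (hp0 : g (M a p0) ≠ 0) (q1 : Vec k) :
    g (M (g (M a p0)) q1) ∈ Submodule.span k {g (M a p0)} := by
  classical
  have hfd := h.fd
  set w := g (M a p0) with hw
  have hwK : w ∈ BRKr M x0 C := h.small h0 ha p0
  have hone := h.finrank_Kr h0
  have hKfd : FiniteDimensional k (BRKr M x0 C) :=
    Submodule.finiteDimensional_of_le (fun c hc => hc.1 : BRKr M x0 C ≤ C)
  -- everything small is a multiple of `w`
  have hKw : ∀ c ∈ BRKr M x0 C, c ∈ Submodule.span k {w} := by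
    have h1 : Submodule.span k {w} ≤ BRKr M x0 C := by
      rw [Submodule.span_singleton_le_iff_mem]; exact hwK
    have h3 : Submodule.span k {w} = BRKr M x0 C :=
      Submodule.eq_of_le_of_finrank_le h1 (by rw [finrank_span_singleton hp0]; exact hone)
    intro c hc
    rw [h3]; exact hc
  -- the linear form `ℓ`
  have hη : ∀ q, M w q = M (g (M w q)) x0 := fun q => (h.Mg (hwK.2 q)).symm
  have hF3 : ∀ q, g (M a q) ≠ 0 → M (g (M w q)) q ∈ Wr M x0 := by
    intro q hq
    obtain ⟨t, ht⟩ := Submodule.mem_span_singleton.mp (hKw _ (h.small h0 ha q))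
    have ht0 : t ≠ 0 := by
      rintro rfl
      rw [zero_smul] at ht
      exact hq ht.symm
    have e1 : M (g (M a q)) q = M (t • g (M w q)) x0 := by
      rw [← ht, map_smul, LinearMap.smul_apply, hη q, map_smul, LinearMap.smul_apply]
      rw [← hη q]
      exact congrArg _ (hη q)
    have e2 := h.step3 ha (h.g_eq ha q) e1
    rw [map_smul, LinearMap.smul_apply] at e2
    have e3 := (Wr M x0).smul_mem t⁻¹ e2
    rwa [smul_smul, inv_mul_cancel₀ ht0, one_smul] at e3
  have hF : ∀ q, M (g (M w q)) q ∈ Wr M x0 := by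
    intro q
    by_cases hq : g (M a q) = 0
    · have e1 := hF3 (q + p0) (by rw [map_add, map_add, hq, zero_add]; exact hp0)
      have e2 := hF3 (q - p0) (by rw [map_sub, map_sub, hq, zero_sub]; exact neg_ne_zero.mpr hp0)
      have e3 := hF3 p0 hp0
      have e4 := (Wr M x0).sub_mem ((Wr M x0).add_mem e1 e2)
        ((Wr M x0).smul_mem (2 : k) e3)
      have e5 : M (g (M w (q + p0))) (q + p0) + M (g (M w (q - p0))) (q - p0)
          - (2 : k) • M (g (M w p0)) p0 = (2 : k) • M (g (M w q)) q := by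
        simp only [map_add, map_sub, LinearMap.add_apply, LinearMap.sub_apply, two_smul]
        abel
      rw [e5] at e4
      have e6 := (Wr M x0).smul_mem (2 : k)⁻¹ e4
      rwa [smul_smul, inv_mul_cancel₀ h2, one_smul] at e6
    · exact hF3 q hq
  have hF' : ∀ q q', M (g (M w q)) q' + M (g (M w q')) q ∈ Wr M x0 := by
    intro q q'
    have e1 := hF (q + q')
    simp only [map_add, LinearMap.add_apply] at e1
    have e2 := (Wr M x0).sub_mem ((Wr M x0).sub_mem e1 (hF q)) (hF q')
    have e : M (g (M w q)) q + M (g (M w q')) q + (M (g (M w q)) q' + M (g (M w q')) q')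
        - M (g (M w q)) q - M (g (M w q')) q'
        = M (g (M w q)) q' + M (g (M w q')) q := by abel
    rwa [e] at e2
  by_contra hcon
  set c := g (M w q1) with hc
  have hcC : c ∈ C := h.gC _
  have hwx0 : g (M w x0) = w := h.gM w hwK.1
  have hq1n : q1 ∉ Submodule.span k {x0} := by
    intro h'
    obtain ⟨t, ht⟩ := Submodule.mem_span_singleton.mp h'
    apply hcon
    rw [hc, ← ht, map_smul, map_smul, hwx0]
    exact Submodule.smul_mem _ _ (Submodule.mem_span_singleton_self _)
  obtain ⟨q2, q3, hq⟩ := exists_frame2 h0 hq1n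
  have hle : Submodule.span k {w} ⊔ Submodule.span k {c} ≤ C := sup_le
    (by rw [Submodule.span_singleton_le_iff_mem]; exact hwK.1)
    (by rw [Submodule.span_singleton_le_iff_mem]; exact hcC)
  obtain ⟨D, hD, hDK, hdim⟩ := exists_relCompl hle
  have hDf : FiniteDimensional k D := Submodule.finiteDimensional_of_le hD
  have hfr : 2 ≤ finrank k (Submodule.span k {w} ⊔ Submodule.span k {c} : Submodule k A) := by
    have h3 : Submodule.span k {w} < Submodule.span k {w} ⊔ Submodule.span k {c} :=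
      lt_of_le_of_ne le_sup_left fun e => hcon (e ▸ (le_sup_right :
        Submodule.span k {c} ≤ _) (Submodule.mem_span_singleton_self c))
    have h4 := Submodule.finrank_lt_finrank_of_lt h3
    rw [finrank_span_singleton hp0] at h4
    omega
  set S := Wr M x0 ⊔ D.map (M.flip q1) ⊔ D.map (M.flip q2) ⊔ D.map (M.flip q3) with hS
  have hW : Wr M x0 ≤ S := le_sup_left.trans (le_sup_left.trans le_sup_left)
  have hS1 : ∀ d ∈ D, M d q1 ∈ S := fun d hd =>
    (le_sup_right.trans (le_sup_left.trans le_sup_left) : _ ≤ S) ⟨d, hd, rfl⟩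
  have hS2 : ∀ d ∈ D, M d q2 ∈ S := fun d hd =>
    (le_sup_right.trans le_sup_left : _ ≤ S) ⟨d, hd, rfl⟩
  have hS3 : ∀ d ∈ D, M d q3 ∈ S := fun d hd => (le_sup_right : _ ≤ S) ⟨d, hd, rfl⟩
  have hdec : ∀ c' ∈ C, ∃ t1 t2 : k, ∃ d ∈ D, c' = d + (t1 • w + t2 • c) := by
    intro c' hc'
    rw [← hDK] at hc'
    obtain ⟨d, hd, e, he, rfl⟩ := Submodule.mem_sup.mp hc'
    obtain ⟨y, hy, z, hz, rfl⟩ := Submodule.mem_sup.mp he
    obtain ⟨t, rfl⟩ := Submodule.mem_span_singleton.mp hy
    obtain ⟨t', rfl⟩ := Submodule.mem_span_singleton.mp hz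
    exact ⟨t, t', d, hd, rfl⟩
  have k1 : ∀ c' ∈ C, M c' q1 ∈ S := by
    intro c' hc'
    obtain ⟨t1, t2, d, hd, rfl⟩ := hdec c' hc'
    simp only [map_add, map_smul, LinearMap.add_apply, LinearMap.smul_apply]
    exact S.add_mem (hS1 d hd) (S.add_mem (S.smul_mem _ (hW (hwK.2 q1)))
      (S.smul_mem _ (hW (hF q1))))
  have k2 : ∀ c' ∈ C, M c' q2 ∈ S := by
    intro c' hc'
    obtain ⟨t1, t2, d, hd, rfl⟩ := hdec c' hc'
    simp only [map_add, map_smul, LinearMap.add_apply, LinearMap.smul_apply]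
    refine S.add_mem (hS2 d hd) (S.add_mem (S.smul_mem _ (hW (hwK.2 q2))) (S.smul_mem _ ?_))
    have e1 := S.sub_mem (hW (hF' q1 q2)) (k1 _ (h.gC (M w q2)))
    rwa [← hc, add_sub_cancel_right] at e1
  have k3 : ∀ c' ∈ C, M c' q3 ∈ S := by
    intro c' hc'
    obtain ⟨t1, t2, d, hd, rfl⟩ := hdec c' hc'
    simp only [map_add, map_smul, LinearMap.add_apply, LinearMap.smul_apply]
    refine S.add_mem (hS3 d hd) (S.add_mem (S.smul_mem _ (hW (hwK.2 q3))) (S.smul_mem _ ?_))
    have e1 := S.sub_mem (hW (hF' q1 q3)) (k1 _ (h.gC (M w q3)))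
    rwa [← hc, add_sub_cancel_right] at e1
  have hcnt := h.count hq (C1 := D) (C2 := D) (C3 := D) k1 k2 k3
  have h3 := h.finrank_C
  omega

/-- **Classification of linear spaces of matrices of bounded rank.** -/
theorem bounded_rank (h2 : (2 : k) ≠ 0) (h0 : x0 ≠ 0) (hle : ∀ x, finrank k (Wr M x) ≤ r)
    (heq : finrank k (Wr M x0) = r)
    (hsp : 4 * r ≤ finrank k (⨆ x, Wr M x : Submodule k F) + 4) :
    (∃ P : A →ₗ[k] A, FiniteDimensional k (LinearMap.range P) ∧
      finrank k (LinearMap.range P) ≤ r ∧ ∀ a x, M a x = M (P a) x) ∨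
    ∃ (P : A →ₗ[k] A) (φ : F), FiniteDimensional k (LinearMap.range P) ∧
      finrank k (LinearMap.range P) + 1 ≤ r ∧
      ∀ a x, ∃ t : k, M a x = M (P a) x + t • φ := by
  obtain ⟨C, g, h⟩ := exists_BRSet hle heq hsp
  have hfd := h.fd
  have hone := h.finrank_Kr h0
  by_cases hall : ∀ a, M a x0 = 0 → ∀ q, g (M a q) = 0
  · left
    refine ⟨C.projection _ h.compl, ?_, ?_, fun a x => ?_⟩
    · rw [Submodule.range_projection]; exact hfd
    · rw [Submodule.range_projection, h.finrank_C]
    · have h1 : a - C.projection _ h.compl a ∈ LinearMap.ker (M.flip x0) := by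
        rw [← Submodule.projection_apply_eq_zero_iff h.compl, map_sub,
          Submodule.projection_apply_of_mem_left h.compl
            (Submodule.projection_apply_mem h.compl a), sub_self]
      have h3 : M (a - C.projection _ h.compl a) x0 = 0 := h1
      have h4 := h.g_eq h3 x
      rw [hall _ h3 x, map_zero, LinearMap.zero_apply, map_sub, LinearMap.sub_apply,
        sub_eq_zero] at h4
      exact h4
  · right
    push Not at hall
    obtain ⟨a1, ha1, p0, hp0⟩ := hall
    set w := g (M a1 p0) with hw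
    have hwK : w ∈ BRKr M x0 C := h.small h0 ha1 p0
    have hKfd : FiniteDimensional k (BRKr M x0 C) :=
      Submodule.finiteDimensional_of_le (fun c hc => hc.1 : BRKr M x0 C ≤ C)
    have hKw : ∀ c ∈ BRKr M x0 C, c ∈ Submodule.span k {w} := by
      have h1 : Submodule.span k {w} ≤ BRKr M x0 C := by
        rw [Submodule.span_singleton_le_iff_mem]; exact hwK
      have h3 : Submodule.span k {w} = BRKr M x0 C :=
        Submodule.eq_of_le_of_finrank_le h1 (by rw [finrank_span_singleton hp0]; exact hone)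
      intro c hc
      rw [h3]; exact hc
    obtain ⟨C1, hC1⟩ := Submodule.exists_isCompl (LinearMap.ker (M.flip x0) ⊔ Submodule.span k {w})
    -- the dimension of `C1`
    let f : (C1 ⊔ Submodule.span k {w} : Submodule k A) →ₗ[k] Wr M x0 :=
      LinearMap.codRestrict _ ((M.flip x0).domRestrict _) (fun c => self_mem_Wr M x0 c)
    have hwker : w ∉ LinearMap.ker (M.flip x0) := by
      intro h'
      exact hp0 ((Submodule.mem_bot k).mp (h.compl.disjoint.le_bot ⟨hwK.1, h'⟩))
    have hf : Function.Injective f := by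
      rw [← LinearMap.ker_eq_bot, Submodule.eq_bot_iff]
      rintro ⟨y, hy⟩ hfy
      have hy0 : M y x0 = 0 := congrArg Subtype.val (LinearMap.mem_ker.mp hfy)
      obtain ⟨c, hc, z, hz, rfl⟩ := Submodule.mem_sup.mp hy
      obtain ⟨t, rfl⟩ := Submodule.mem_span_singleton.mp hz
      have hc0 : c = 0 := by
        have h3 : c ∈ LinearMap.ker (M.flip x0) ⊔ Submodule.span k {w} := by
          have e : c = (c + t • w) + (-t) • w := by module
          rw [e]
          exact Submodule.add_mem_sup hy0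
            (Submodule.smul_mem _ _ (Submodule.mem_span_singleton_self _))
        exact (Submodule.mem_bot k).mp (hC1.symm.disjoint.le_bot ⟨hc, h3⟩)
      subst hc0
      by_cases ht : t = 0
      · subst ht; simp
      · exfalso
        apply hwker
        have h3 : M w x0 = 0 := by
          have h4 : t • M w x0 = 0 := by
            rw [zero_add, map_smul] at hy0
            exact hy0
          exact (smul_eq_zero.mp h4).resolve_left ht
        exact h3
    have hfd1 : FiniteDimensional k (C1 ⊔ Submodule.span k {w} : Submodule k A) :=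
      FiniteDimensional.of_injective f hf
    have hfdC1 : FiniteDimensional k C1 :=
      Submodule.finiteDimensional_of_le (le_sup_left : C1 ≤ C1 ⊔ Submodule.span k {w})
    have hdimC1 : finrank k C1 + 1 ≤ r := by
      have e1 := LinearMap.finrank_le_finrank_of_injective hf
      have e2 := Submodule.finrank_sup_add_finrank_inf_eq C1 (Submodule.span k {w})
      have e3 : C1 ⊓ Submodule.span k {w} = ⊥ := by
        rw [Submodule.eq_bot_iff]
        rintro y ⟨hy1, hy2⟩
        exact (Submodule.mem_bot k).mp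
          (hC1.symm.disjoint.le_bot ⟨hy1, Submodule.mem_sup_right hy2⟩)
      rw [e3, finrank_bot, finrank_span_singleton hp0] at e2
      rw [heq] at e1
      omega
    refine ⟨C1.projection _ hC1.symm, M w x0, ?_, ?_, fun a x => ?_⟩
    · rw [Submodule.range_projection]; exact hfdC1
    · rw [Submodule.range_projection]; exact hdimC1
    · have h1 : a - C1.projection _ hC1.symm a ∈
          LinearMap.ker (M.flip x0) ⊔ Submodule.span k {w} := by
        rw [← Submodule.projection_apply_eq_zero_iff hC1.symm, map_sub,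
          Submodule.projection_apply_of_mem_left hC1.symm
            (Submodule.projection_apply_mem hC1.symm a), sub_self]
      obtain ⟨b, hb, z, hz, hbz⟩ := Submodule.mem_sup.mp h1
      obtain ⟨t, rfl⟩ := Submodule.mem_span_singleton.mp hz
      have hb0 : M b x0 = 0 := hb
      obtain ⟨s, hs⟩ := Submodule.mem_span_singleton.mp (hKw _ (h.small h0 hb0 x))
      obtain ⟨s', hs'⟩ := Submodule.mem_span_singleton.mp (h.small2 h0 h2 ha1 hp0 x)
      have e1 : M b x = s • M w x0 := by
        rw [h.g_eq hb0 x, ← hs, map_smul, LinearMap.smul_apply]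
      have e2 : M w x = s' • M w x0 := by
        rw [← h.Mg (hwK.2 x), ← hs', map_smul, LinearMap.smul_apply]
      refine ⟨s + t * s', ?_⟩
      have e3 : M a x - M (C1.projection _ hC1.symm a) x = M b x + t • M w x := by
        rw [← LinearMap.sub_apply, ← map_sub, ← hbz, map_add, LinearMap.add_apply, map_smul,
          LinearMap.smul_apply]
      rw [sub_eq_iff_eq_add] at e3
      rw [e3, e1, e2]
      module

end

end GR
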