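import Pool.Agent.Lib.GR.BadFlat

/-!
# The matroid with dependency space `S5 H` and its bases, for a bad flat of dimension seven
-/

set_option linter.unusedSectionVars false

namespace GR

open Filter Module

open scoped Matrix

variable {k : Type*} [Field k] {V : Type*} [DecidableEq V]

/-- `I ⊆ H` contains no support of a nonzero element of `S5 H p`. -/
def CInd (H I : Finset (Sym2 V)) (p : V → Vec k) : Prop :=
  I ⊆ H ∧ ∀ ω ∈ S5 H p, (∀ e, e ∉ I → ω e = 0) → ω = 0

lemma CInd.mono {H I J : Finset (Sym2 V)} {p : V → Vec k} (h : CInd H I p) (hJ : J ⊆ I) :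
    CInd H J p :=
  ⟨hJ.trans h.1, fun ω hω h0 => h.2 ω hω fun e he => h0 e fun he' => he (hJ he')⟩

/-- graphs without stresses are independent -/
lemma CInd.of_Stress {H I : Finset (Sym2 V)} {p : V → Vec k} (hI : I ⊆ H)
    (h : ∀ ω ∈ Stress I p, ω = 0) : CInd H I p :=
  ⟨hI, fun ω hω h0 => h ω (mem_Stress_of_support (S5_le_Stress H p hω) h0)⟩

lemma CInd.empty (H : Finset (Sym2 V)) (p : V → Vec k) : CInd H ∅ p := by
  refine ⟨Finset.empty_subset H, fun ω _ h0 => ?_⟩
  ext e
  exact h0 e (by simp)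

lemma CInd.stress {H I : Finset (Sym2 V)} {p : V → Vec k} (h : CInd H I p) {ω : Sym2 V → k}
    (hω : ω ∈ Stress I p) (hS : ω ∈ S5 H p) : ω = 0 := h.2 ω hS hω.1

/-- Every independent set is contained in a maximal one. -/
lemma CInd.exists_maximal {H I : Finset (Sym2 V)} {p : V → Vec k} (h : CInd H I p) :
    ∃ E, I ⊆ E ∧ CInd H E p ∧ ∀ e ∈ H, e ∉ E → ¬ CInd H (insert e E) p := by
  classical
  have hfin : (H.powerset.filter fun E => I ⊆ E ∧ CInd H E p).Nonempty :=
    ⟨I, by simp [h.1, h]⟩
  obtain ⟨E, hE, hmax⟩ := Finset.exists_max_image _ Finset.card hfin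
  rw [Finset.mem_filter, Finset.mem_powerset] at hE
  refine ⟨E, hE.2.1, hE.2.2, fun e he heE hc => ?_⟩
  have h1 := hmax (insert e E) (by
    rw [Finset.mem_filter, Finset.mem_powerset]
    exact ⟨hc.1, hE.2.1.trans (Finset.subset_insert _ _), hc⟩)
  rw [Finset.card_insert_of_notMem heE] at h1
  omega

instance S5_finiteDimensional (D : Finset (Sym2 V)) (p : V → Vec k) :
    FiniteDimensional k (S5 D p) :=
  Submodule.finiteDimensional_of_le (S5_le_Stress D p)

/-- restriction of `S5 H` to the complement of `E` -/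
def resC (H E : Finset (Sym2 V)) (p : V → Vec k) :
    S5 H p →ₗ[k] ((H \ E : Finset (Sym2 V)) → k) where
  toFun ω e := ω.1 e
  map_add' _ _ := rfl
  map_smul' _ _ := rfl

lemma CInd.resC_injective {H E : Finset (Sym2 V)} {p : V → Vec k} (h : CInd H E p) :
    Function.Injective (resC H E p) := by
  rw [injective_iff_map_eq_zero]
  intro ω hω
  refine Subtype.ext (h.2 ω.1 ω.2 fun e he => ?_)
  by_cases heH : e ∈ H
  · exact congrFun hω ⟨e, Finset.mem_sdiff.mpr ⟨heH, he⟩⟩
  · exact (S5_le_Stress H p ω.2).1 e heH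

/-- size of independent sets -/
lemma CInd.card_le {H E : Finset (Sym2 V)} {p : V → Vec k} (h : CInd H E p) :
    E.card + finrank k (S5 H p) ≤ H.card := by
  have h1 := LinearMap.finrank_le_finrank_of_injective h.resC_injective
  rw [Module.finrank_fintype_fun_eq_card, Fintype.card_coe, Finset.card_sdiff_of_subset h.1] at h1
  have h2 := Finset.card_le_card h.1
  omega

/-- size of maximal independent sets -/
lemma CInd.card_of_maximal {H E : Finset (Sym2 V)} {p : V → Vec k} (h : CInd H E p)
    (hmax : ∀ e ∈ H, e ∉ E → ¬ CInd H (insert e E) p) :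
    E.card + finrank k (S5 H p) = H.card := by
  classical
  refine le_antisymm h.card_le ?_
  have hsur : Function.Surjective (resC H E p) := by
    rw [← LinearMap.range_eq_top, eq_top_iff]
    intro f _
    have hb : ∀ e : (H \ E : Finset (Sym2 V)),
        (Pi.single e 1 : (H \ E : Finset (Sym2 V)) → k) ∈ LinearMap.range (resC H E p) := by
      intro e
      have he := Finset.mem_sdiff.mp e.2
      have h1 := hmax e he.1 he.2
      rw [CInd, not_and] at h1
      have h2 := h1 (Finset.insert_subset he.1 h.1)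
      push Not at h2
      obtain ⟨ω, hω, h0, hne⟩ := h2
      have hωe : ω e ≠ 0 := by
        intro hc
        refine hne (h.2 ω hω fun f hf => ?_)
        by_cases hfe : f = e
        · rw [hfe, hc]
        · exact h0 f (by simp [hfe, hf])
      refine ⟨(ω e)⁻¹ • ⟨ω, hω⟩, ?_⟩
      ext f
      by_cases hfe : f = e
      · subst hfe
        simp [resC, hωe]
      · rw [Pi.single_eq_of_ne hfe]
        have hf := Finset.mem_sdiff.mp f.2
        have : ω f = 0 := h0 f (by
          rw [Finset.mem_insert, not_or]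
          exact ⟨fun hc => hfe (Subtype.ext hc), hf.2⟩)
        simp [resC, this]
    rw [pi_eq_sum_univ' f]
    refine Submodule.sum_mem _ fun e _ => Submodule.smul_mem _ _ ?_
    convert hb e using 1
  have h1 := LinearMap.finrank_le_finrank_of_surjective (f := resC H E p) hsur
  rw [Module.finrank_fintype_fun_eq_card, Fintype.card_coe, Finset.card_sdiff_of_subset h.1] at h1
  have h2 := Finset.card_le_card h.1
  omega

/-- The situation: `H` is a bad flat of dimension seven at the nice position `p`, and all flats on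
proper subsets of `A` are good at `p`. -/
structure BadAt [Infinite k] (A : Finset V) (H : Finset (Sym2 V)) (p : V → Vec k) : Prop where
  two : (2 : k) ≠ 0
  nice : Nice A p
  three : 3 ≤ A.card
  small : SmallGood A p
  flat : IsFlatIn A H p
  bad : ¬ Good H p
  full : mdim A (H : Set (Sym2 V)) p = 7

section

variable [Infinite k] {A : Finset V} {H : Finset (Sym2 V)} {p : V → Vec k}

lemma BadAt.ne_zero (h : BadAt A H p) {W : Finset V} (hW : W ⊆ A) : ∀ v ∈ W, p v ≠ 0 :=
  fun v hv => h.nice.ne_zero v (hW hv)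

/-- a stress outside `S5 H` has a non-clique as support at each vertex -/
lemma BadAt.not_clique (h : BadAt A H p) {ω : Sym2 V → k} (hω : ω ∈ Stress H p)
    (hS : ω ∉ S5 H p) {v : V} (hv : v ∈ A) : ¬ Kf (suppAt A ω v) ⊆ H := fun hc =>
  hS (mem_S5_of_clique h.flat h.nice.gp hv (h.small.rest h.flat (Finset.erase_ssubset hv)) hω hc)

lemma BadAt.five_le_supp (h : BadAt A H p) {ω : Sym2 V → k} (hω : ω ∈ Stress H p)
    (hS : ω ∉ S5 H p) {v : V} (hv : v ∈ A) : 5 ≤ (suppAt A ω v).card := by
  by_contra hcon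
  exact h.not_clique hω hS hv
    (Kf_suppAt_of_le_four h.two h.nice h.flat hv hω (by omega))

lemma suppAt_subset_nbr {E : Finset (Sym2 V)} {ω : Sym2 V → k} (h0 : ∀ e, e ∉ E → ω e = 0)
    (v : V) : suppAt A ω v ⊆ nbr (A.erase v) (E : Set (Sym2 V)) v := by
  intro w hw
  have h1 := mem_suppAt.mp hw
  refine mem_nbr.mpr ⟨Finset.mem_erase.mpr ⟨h1.1, h1.2.1⟩, ?_⟩
  by_contra hn
  exact h1.2.2 (h0 _ hn)

lemma BadAt.exists_stress (h : BadAt A H p) : ∃ ω ∈ Stress H p, ω ∉ S5 H p :=
  SetLike.not_le_iff_exists.mp h.bad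

lemma BadAt.five_le_deg (h : BadAt A H p) {v : V} (hv : v ∈ A) :
    5 ≤ (nbr (A.erase v) (H : Set (Sym2 V)) v).card := by
  obtain ⟨ω, hω, hS⟩ := h.exists_stress
  exact (h.five_le_supp hω hS hv).trans (Finset.card_le_card (suppAt_subset_nbr hω.1 v))

/-- deleting a vertex increases the dimension -/
lemma BadAt.eight_le (h : BadAt A H p) {v : V} (hv : v ∈ A) :
    8 ≤ mdim (A.erase v) (H : Set (Sym2 V)) p := by
  by_contra hcon
  have h4 : 4 ≤ (nbr (A.erase v) (H : Set (Sym2 V)) v).card := by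
    have := h.five_le_deg hv; omega
  have h1 := h.nice.le_RG h.two (H : Set (Sym2 V)) hv h4 (by rw [h.full]; omega)
  have h2 := h.flat.Kf_subset_of_RG ((nbr_subset _ _ _).trans (Finset.erase_subset v A))
    (Mot_le_RG_of_erase (nbr_subset _ _ _) h1)
  obtain ⟨ω, hω, hS⟩ := h.exists_stress
  exact h.not_clique hω hS hv ((Kf_mono (suppAt_subset_nbr hω.1 v)).trans h2)

/-- an independent set restricted to a proper subset has no stress -/
lemma BadAt.stress_rest (h : BadAt A H p) {E : Finset (Sym2 V)} (hE : CInd H E p) {W : Finset V}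
    (hW : W ⊂ A) : Stress (rest E W) p = ⊥ := by
  rw [eq_bot_iff]
  intro ω hω
  have h1 : ω ∈ Stress (rest H W) p := Stress_mono (fun e he => by
    rw [mem_rest] at he ⊢
    exact ⟨hE.1 he.1, he.2⟩) p hω
  have h2 := S5_mono (rest_subset H W) p (h.small.rest h.flat hW h1)
  exact hE.stress (Stress_mono (rest_subset E W) p hω) h2

/-- the dimension formula for an independent set on a proper subset -/
lemma BadAt.mdim_rest (h : BadAt A H p) {E : Finset (Sym2 V)} (hE : CInd H E p) {W : Finset V}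
    (hW : W ⊂ A) : (rest E W).card + mdim W (E : Set (Sym2 V)) p = 3 * W.card := by
  have h1 := finrank_Stress_rest (W := W) E (p := p) (h.ne_zero hW.1)
  rw [h.stress_rest hE hW, finrank_bot] at h1
  omega

lemma BadAt.card_rest_le (h : BadAt A H p) {E : Finset (Sym2 V)} (hE : CInd H E p) {v : V}
    (hv : v ∈ A) : (rest E (A.erase v)).card + 11 ≤ 3 * A.card := by
  have h1 := h.mdim_rest hE (Finset.erase_ssubset hv)
  have h2 := h.eight_le hv
  have h3 : mdim (A.erase v) (H : Set (Sym2 V)) p ≤ mdim (A.erase v) (E : Set (Sym2 V)) p :=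
    mdim_le_of_edges (by exact_mod_cast hE.1) p
  have h4 := Finset.card_erase_add_one hv
  omega

/-- **The stresses outside `S5` are one-dimensional.** -/
theorem BadAt.finrank_S5 (h : BadAt A H p) :
    finrank k (S5 H p) + 1 = finrank k (Stress H p) := by
  have h1 : finrank k (S5 H p) < finrank k (Stress H p) :=
    Submodule.finrank_lt_finrank_of_lt (lt_of_le_of_ne (S5_le_Stress H p) fun hc =>
      h.bad hc.ge)
  obtain ⟨E, -, hE, hmax⟩ := (CInd.empty H p).exists_maximal
  have h2 := hE.card_of_maximal hmax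
  have h3 := finrank_Stress_eq (A := A) (E := H) h.flat.mem_vert (h.ne_zero subset_rfl)
  rw [h.full] at h3
  have hEK : E ⊆ Kf A := hE.1.trans h.flat.1
  have h4 := sum_edeg (A := A) (E := E) (fun e he => (mem_Kf.mp (hEK he)).2)
    (fun e he => (mem_Kf.mp (hEK he)).1)
  by_contra hcon
  -- all degrees are large
  have h5 : ∀ v ∈ A, E.card + 11 ≤ 3 * A.card + edeg E v := by
    intro v hv
    have h6 := h.card_rest_le hE hv
    have h7 := card_rest_erase hEK v
    rw [← edeg_eq_card_nbr hEK] at h7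
    omega
  obtain ⟨d, hd⟩ : ∃ d, finrank k (Stress H p) = finrank k (S5 H p) + 2 + d :=
    ⟨finrank k (Stress H p) - finrank k (S5 H p) - 2, by omega⟩
  have h8 : ∀ v ∈ A, 6 + d ≤ edeg E v := by
    intro v hv
    have := h5 v hv
    omega
  have h9 : ∑ v ∈ A, (6 + d) ≤ ∑ v ∈ A, edeg E v := Finset.sum_le_sum h8
  rw [Finset.sum_const, smul_eq_mul, h4] at h9
  have h10 : A.card * (6 + d) = 6 * A.card + A.card * d := by ring
  have h11 : 3 * d ≤ A.card * d := Nat.mul_le_mul_right d h.three
  omega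

/-- the size of bases -/
lemma BadAt.card_iff (h : BadAt A H p) {E : Finset (Sym2 V)} (hE : CInd H E p) :
    E.card + 6 ≤ 3 * A.card := by
  have h1 := hE.card_le
  have h2 := h.finrank_S5
  have h3 := finrank_Stress_eq (A := A) (E := H) h.flat.mem_vert (h.ne_zero subset_rfl)
  rw [h.full] at h3
  omega

/-- Bases of the matroid with dependency space `S5 H`. -/
structure CBasis (A : Finset V) (H E : Finset (Sym2 V)) (p : V → Vec k) : Prop where
  ind : CInd H E p
  card : E.card + 6 = 3 * A.card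

/-- **Every independent set is contained in a basis.** -/
theorem BadAt.exists_basis (h : BadAt A H p) {I : Finset (Sym2 V)} (hI : CInd H I p) :
    ∃ E, I ⊆ E ∧ CBasis A H E p := by
  obtain ⟨E, hIE, hE, hmax⟩ := hI.exists_maximal
  refine ⟨E, hIE, hE, ?_⟩
  have h1 := hE.card_of_maximal hmax
  have h2 := h.finrank_S5
  have h3 := finrank_Stress_eq (A := A) (E := H) h.flat.mem_vert (h.ne_zero subset_rfl)
  rw [h.full] at h3
  omega

lemma CBasis.sub {E : Finset (Sym2 V)} (hE : CBasis A H E p) : E ⊆ H := hE.ind.1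

lemma CBasis.sub_Kf (h : BadAt A H p) {E : Finset (Sym2 V)} (hE : CBasis A H E p) : E ⊆ Kf A :=
  hE.ind.1.trans h.flat.1

theorem CBasis.finrank_Stress (h : BadAt A H p) {E : Finset (Sym2 V)} (hE : CBasis A H E p) :
    finrank k (Stress E p) = 1 := by
  have h1 := finrank_Stress_eq (A := A) (E := E) (fun e he => (mem_Kf.mp (hE.sub_Kf h he)).2)
    (h.ne_zero subset_rfl)
  have h2 : mdim A (H : Set (Sym2 V)) p ≤ mdim A (E : Set (Sym2 V)) p :=
    mdim_le_of_edges (by exact_mod_cast hE.sub) p
  rw [h.full] at h2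
  have h3 := hE.card
  have h4 : Disjoint (Stress E p) (S5 H p) := by
    rw [Submodule.disjoint_def]
    exact fun ω h5 h6 => hE.ind.stress h5 h6
  have h6 : finrank k (Stress E p ⊔ S5 H p : Submodule k (Sym2 V → k)) ≤ finrank k (Stress H p) :=
    Submodule.finrank_mono (sup_le (Stress_mono hE.sub p) (S5_le_Stress H p))
  have h7 : finrank k (Stress E p) + finrank k (S5 H p) = finrank k (Stress E p ⊔ S5 H p :
      Submodule k (Sym2 V → k)) := by
    have := Submodule.finrank_sup_add_finrank_inf_eq (Stress E p) (S5 H p)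
    rw [h4.eq_bot, finrank_bot] at this
    omega
  have h8 := h.finrank_S5
  omega

/-- a basis has the same motions -/
theorem CBasis.mdim_eq (h : BadAt A H p) {E : Finset (Sym2 V)} (hE : CBasis A H E p) :
    mdim A (E : Set (Sym2 V)) p = 7 := by
  have h1 := finrank_Stress_eq (A := A) (E := E) (fun e he => (mem_Kf.mp (hE.sub_Kf h he)).2)
    (h.ne_zero subset_rfl)
  have h2 := hE.finrank_Stress h
  have h3 := hE.card
  omega

theorem CBasis.clF_eq (h : BadAt A H p) {E : Finset (Sym2 V)} (hE : CBasis A H E p) :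
    clF A E p = H :=
  h.flat.eq_clF hE.sub (by rw [hE.mdim_eq h, h.full])

theorem CBasis.Mot_eq (h : BadAt A H p) {E : Finset (Sym2 V)} (hE : CBasis A H E p) :
    Mot A (E : Set (Sym2 V)) p = Mot A (H : Set (Sym2 V)) p := by
  rw [← hE.clF_eq h, Mot_clF (hE.sub_Kf h)]

/-- the stress of a basis -/
theorem CBasis.exists_stress (h : BadAt A H p) {E : Finset (Sym2 V)} (hE : CBasis A H E p) :
    ∃ ω ∈ Stress E p, ω ∉ S5 H p ∧ ∀ ω' ∈ Stress E p, ∃ c : k, ω' = c • ω := by
  obtain ⟨⟨ω, hω⟩, hne, h1⟩ := finrank_eq_one_iff'.mp (hE.finrank_Stress h)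
  refine ⟨ω, hω, fun hS => hne ?_, fun ω' hω' => ?_⟩
  · exact Subtype.ext (hE.ind.stress hω hS)
  · obtain ⟨c, hc⟩ := h1 ⟨ω', hω'⟩
    exact ⟨c, (congrArg Subtype.val hc).symm⟩

/-- all degrees of a basis are at least five -/
theorem CBasis.five_le (h : BadAt A H p) {E : Finset (Sym2 V)} (hE : CBasis A H E p) {v : V}
    (hv : v ∈ A) : 5 ≤ (nbr (A.erase v) (E : Set (Sym2 V)) v).card := by
  have h1 := h.card_rest_le hE.ind hv
  have h2 := card_rest_erase (hE.sub_Kf h) v
  have h3 := hE.card
  omega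

/-- the neighbours of a vertex in a basis do not move rigidly -/
theorem CBasis.flex (h : BadAt A H p) {E : Finset (Sym2 V)} (hE : CBasis A H E p) {v : V}
    (hv : v ∈ A) :
    ¬ Mot A (E : Set (Sym2 V)) p ≤ RG p (nbr (A.erase v) (E : Set (Sym2 V)) v : Set V) := by
  intro hc
  obtain ⟨ω, hω, hS, -⟩ := hE.exists_stress h
  rw [hE.Mot_eq h] at hc
  have h1 := h.flat.Kf_subset_of_RG ((nbr_subset _ _ _).trans (Finset.erase_subset v A)) hc
  exact h.not_clique (Stress_mono hE.sub p hω) hS hv
    ((Kf_mono (suppAt_subset_nbr hω.1 v)).trans h1)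

end

end GR
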