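import Pool.Agent.Lib.GR.Att3

/-!
# Bad flats at a nice position: first facts

`SmallGood A p` : all flats on proper subsets of `A` are good at `p`.
-/

set_option linter.unusedSectionVars false

namespace GR

open Filter Module

open scoped Matrix

variable {k : Type*} [Field k] {V : Type*} [DecidableEq V]

/-- All flats on proper subsets of `A` are good at `p`. -/
def SmallGood (A : Finset V) (p : V → Vec k) : Prop :=
  ∀ W ⊂ A, ∀ D : Finset (Sym2 V), IsFlatIn W D p → Good D p

lemma SmallGood.rest {A : Finset V} {p : V → Vec k} (h : SmallGood A p) {D : Finset (Sym2 V)}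
    (hD : IsFlatIn A D p) {W : Finset V} (hW : W ⊂ A) : Good (rest D W) p :=
  h W hW _ (hD.rest hW.1)

theorem eventually_smallGood [Infinite k] {A : Finset V} (h : ∀ W ⊂ A, AllGood k W) :
    ∀ᶠ p in gen k (V → Vec k), SmallGood A p := by
  have h1 : ∀ᶠ p in gen k (V → Vec k), ∀ W ∈ A.ssubsets,
      ∀ D : Finset (Sym2 V), IsFlatIn W D p → Good D p := by
    rw [Filter.eventually_all_finset]
    intro W hW
    exact h W (Finset.mem_ssubsets.mp hW)
  filter_upwards [h1] with p hp W hW D hD
  exact hp W (Finset.mem_ssubsets.mpr hW) D hD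

lemma notMem_suppAt (A : Finset V) (ω : Sym2 V → k) (v : V) : v ∉ suppAt A ω v :=
  fun h => (mem_suppAt.mp h).1 rfl

lemma suppAt_subset_erase (A : Finset V) (ω : Sym2 V → k) (v : V) : suppAt A ω v ⊆ A.erase v :=
  fun w hw => by
    have := mem_suppAt.mp hw
    exact Finset.mem_erase.mpr ⟨this.1, this.2.1⟩

lemma Kf_insert_suppAt {A : Finset V} {D : Finset (Sym2 V)} {ω : Sym2 V → k} {v : V}
    (h0 : ∀ e, e ∉ D → ω e = 0) (hc : Kf (suppAt A ω v) ⊆ D) :
    Kf (insert v (suppAt A ω v)) ⊆ D := by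
  have hstar : ∀ w ∈ suppAt A ω v, s(v, w) ∈ D := by
    intro w hw
    by_contra hn
    exact (mem_suppAt.mp hw).2.2 (h0 _ hn)
  intro e he
  induction e using Sym2.ind with
  | _ a b =>
    rw [mk_mem_Kf, Finset.mem_insert, Finset.mem_insert] at he
    obtain ⟨hab, ha, hb⟩ := he
    rcases ha with rfl | ha
    · rcases hb with rfl | hb
      · exact absurd rfl hab
      · exact hstar b hb
    · rcases hb with rfl | hb
      · rw [Sym2.eq_swap]
        exact hstar a ha
      · exact hc (mk_mem_Kf.mpr ⟨hab, ha, hb⟩)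

/-- **A stress whose support at a vertex is a clique is spanned by stresses of `K₅`'s**, if the
flat without that vertex is good. -/
theorem mem_S5_of_clique {A : Finset V} {D : Finset (Sym2 V)} {p : V → Vec k} {v : V}
    (hD : IsFlatIn A D p) (hp : GenPos p (A : Set V)) (hv : v ∈ A)
    (hg : Good (rest D (A.erase v)) p) {ω : Sym2 V → k} (hω : ω ∈ Stress D p)
    (hc : Kf (suppAt A ω v) ⊆ D) : ω ∈ S5 D p := by
  obtain ⟨b, hb⟩ := exists_sum_erase hD.mem_vert hω v
  have hsum : ∑ w ∈ suppAt A ω v, ω s(v, w) • p w = b • p v := by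
    rw [← hb]
    refine Finset.sum_subset (suppAt_subset_erase A ω v) fun w hw hw' => ?_
    rw [Finset.mem_erase] at hw
    have : ω s(v, w) = 0 := by
      by_contra hne
      exact hw' (mem_suppAt.mpr ⟨hw.1, hw.2, hne⟩)
    rw [this, zero_smul]
  have hvN := notMem_suppAt A ω v
  have hKD : Kf (insert v (suppAt A ω v)) ⊆ D := Kf_insert_suppAt hω.1 hc
  have hsubA : insert v (suppAt A ω v) ⊆ A :=
    Finset.insert_subset hv (suppAt_subset A ω v)
  obtain ⟨η, hη, hη'⟩ := exists_stress_star (K := insert v (suppAt A ω v))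
    (hp.mono (by exact_mod_cast hsubA)) (Finset.mem_insert_self _ _)
    (c := fun w => ω s(v, w)) (a := b) (by rw [Finset.erase_insert hvN]; exact hsum)
  rw [Finset.erase_insert hvN] at hη'
  have hηD : η ∈ Stress D p := Stress_mono hKD p (S5_le_Stress _ _ hη)
  have h1 : ω - η ∈ Stress (GR.rest D (A.erase v)) p := by
    refine mem_Stress_of_support (Submodule.sub_mem _ hω hηD) fun e he => ?_
    by_cases heD : e ∈ D
    · have hve : v ∈ e := by
        by_contra h
        exact he (by rw [rest_erase hD.1, Finset.mem_filter]; exact ⟨heD, h⟩)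
      obtain ⟨w, rfl⟩ := hve
      have h2 := mem_Kf.mp (hD.1 heD)
      have hwv : w ≠ v := by
        rintro rfl
        exact h2.1 (by simp)
      by_cases hwN : w ∈ suppAt A ω v
      · rw [Pi.sub_apply, hη' w hwN, sub_self]
      · have e1 : ω s(v, w) = 0 := by
          by_contra hne
          exact hwN (mem_suppAt.mpr ⟨hwv, h2.2 w (by simp), hne⟩)
        have e2 : η s(v, w) = 0 := by
          refine (S5_le_Stress _ _ hη).1 _ fun hmem => ?_
          have := (mk_mem_Kf.mp hmem).2.2
          rcases Finset.mem_insert.mp this with h | h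
          · exact hwv h
          · exact hwN h
        rw [Pi.sub_apply, e1, e2, sub_self]
    · rw [Pi.sub_apply, hω.1 e heD, hηD.1 e heD, sub_self]
  have h2 := S5_mono (rest_subset D (A.erase v)) p (hg h1)
  have h3 : η ∈ S5 D p := S5_mono hKD p hη
  have e : ω = (ω - η) + η := by abel
  rw [e]
  exact Submodule.add_mem _ h2 h3

/-- adding a star -/
def addStar (F : Finset (Sym2 V)) (v : V) (N : Finset V) : Finset (Sym2 V) :=
  F ∪ N.image fun w => s(v, w)

lemma mem_addStar {F : Finset (Sym2 V)} {v : V} {N : Finset V} {e : Sym2 V} :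
    e ∈ addStar F v N ↔ e ∈ F ∨ ∃ w ∈ N, s(v, w) = e := by
  unfold addStar
  rw [Finset.mem_union, Finset.mem_image]

lemma card_addStar {A : Finset V} {F : Finset (Sym2 V)} {v : V} (hF : F ⊆ Kf (A.erase v)) (N : Finset V) :
    (addStar F v N).card = F.card + N.card := by
  unfold addStar
  rw [Finset.card_union_of_disjoint, Finset.card_image_of_injOn]
  · intro a ha b hb hab
    rcases Sym2.eq_iff.mp hab with ⟨-, h1⟩ | ⟨h1, h2⟩
    · exact h1
    · rw [h2, ← h1]
  · rw [Finset.disjoint_left]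
    intro e he he'
    obtain ⟨w, -, rfl⟩ := Finset.mem_image.mp he'
    have := (mem_Kf.mp (hF he)).2 v (by simp)
    exact Finset.notMem_erase v A this

lemma nbr_addStar {A : Finset V} {F : Finset (Sym2 V)} {v : V} (hF : F ⊆ Kf (A.erase v))
    {N : Finset V} (hN : N ⊆ A.erase v) :
    nbr (A.erase v) (addStar F v N : Set (Sym2 V)) v = N := by
  ext w
  rw [mem_nbr, Finset.mem_coe, mem_addStar]
  constructor
  · rintro ⟨-, h | ⟨w', hw', h⟩⟩
    · have := (mem_Kf.mp (hF h)).2 v (by simp)
      exact absurd this (Finset.notMem_erase v A)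
    · rcases Sym2.eq_iff.mp h with ⟨-, h1⟩ | ⟨h1, h2⟩
      · rwa [← h1]
      · rwa [← h1, ← h2]
  · exact fun h => ⟨hN h, Or.inr ⟨w, h, rfl⟩⟩

lemma mdim_addStar_erase {A : Finset V} (F : Finset (Sym2 V)) (v : V) (N : Finset V)
    (p : V → Vec k) :
    Mot (A.erase v) (addStar F v N : Set (Sym2 V)) p = Mot (A.erase v) (F : Set (Sym2 V)) p := by
  refine Mot_congr p fun a ha b hb => ?_
  rw [Finset.mem_coe, Finset.mem_coe, mem_addStar]
  constructor
  · rintro (h | ⟨w, -, h⟩)
    · exact h
    · rcases Sym2.eq_iff.mp h with ⟨h1, -⟩ | ⟨h1, -⟩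
      · exact absurd ha (h1 ▸ Finset.notMem_erase v A)
      · exact absurd hb (h1 ▸ Finset.notMem_erase v A)
  · exact fun h => Or.inl h

/-- the stress of a graph is a stress of the star of its support and the rest -/
lemma mem_Stress_addStar {A : Finset V} {D : Finset (Sym2 V)} {p : V → Vec k} {v : V}
    (hD : D ⊆ Kf A) {ω : Sym2 V → k} (hω : ω ∈ Stress D p) {N : Finset V}
    (hN : suppAt A ω v ⊆ N) : ω ∈ Stress (addStar (rest D (A.erase v)) v N) p := by
  refine mem_Stress_of_support hω fun e he => ?_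
  rw [mem_addStar, not_or] at he
  by_contra hne
  have heD : e ∈ D := by
    by_contra h
    exact hne (hω.1 e h)
  have hve : v ∈ e := by
    by_contra h
    exact he.1 (by rw [rest_erase hD, Finset.mem_filter]; exact ⟨heD, h⟩)
  obtain ⟨w, rfl⟩ := hve
  have h2 := mem_Kf.mp (hD heD)
  refine he.2 ⟨w, hN (mem_suppAt.mpr ⟨?_, h2.2 w (by simp), hne⟩), rfl⟩
  rintro rfl
  exact h2.1 (by simp)

/-- strict monotonicity of the dimension of stresses -/
lemma finrank_Stress_lt {E E' : Finset (Sym2 V)} {p : V → Vec k} (h : E ⊆ E') {ω : Sym2 V → k}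
    (hω : ω ∈ Stress E' p) (hω' : ω ∉ Stress E p) :
    finrank k (Stress E p) + 1 ≤ finrank k (Stress E' p) :=
  Submodule.finrank_lt_finrank_of_lt
    (lt_of_le_of_ne (Stress_mono h p) fun hc => hω' (hc ▸ hω))

section Nice

variable [Infinite k]

/-- **(E3)**: a stress with at most four nonzero edges at `v` has a clique as support. -/
theorem Kf_suppAt_of_le_four (h2 : (2 : k) ≠ 0) {A : Finset V} {D : Finset (Sym2 V)}
    {p : V → Vec k} (hp : Nice A p) {v : V} (hD : IsFlatIn A D p) (hv : v ∈ A)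
    {ω : Sym2 V → k} (hω : ω ∈ Stress D p) (h4 : (suppAt A ω v).card ≤ 4) :
    Kf (suppAt A ω v) ⊆ D := by
  rcases suppAt_card hD.mem_vert hp.gp hω hv with h | h
  · rw [h]
    intro e he
    rw [mem_Kf] at he
    induction e using Sym2.ind with
    | _ a b => exact absurd (he.2 a (by simp)) (by simp)
  · set N := suppAt A ω v with hN
    have hNA : N ⊆ A.erase v := suppAt_subset_erase A ω v
    set F := GR.rest D (A.erase v) with hF
    have hFK : F ⊆ Kf (A.erase v) := rest_subset_Kf hD.notDiag _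
    have hωC : ω ∈ Stress (addStar F v N) p := mem_Stress_addStar hD.1 hω subset_rfl
    have hωF : ω ∉ Stress F p := by
      intro hc
      obtain ⟨w, hw⟩ : N.Nonempty := Finset.card_pos.mp (by omega)
      refine (mem_suppAt.mp hw).2.2 (hc.1 _ fun hm => ?_)
      exact Finset.notMem_erase v A ((mem_Kf.mp (hFK hm)).2 v (by simp))
    have h3 := finrank_Stress_lt (Finset.subset_union_left (s₁ := F)
      (s₂ := N.image fun w => s(v, w))) (p := p) (ω := ω) hωC hωF
    have hCsub : addStar F v N ⊆ D := by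
      intro e he
      rw [mem_addStar] at he
      rcases he with he | ⟨w, hw, rfl⟩
      · exact rest_subset _ _ he
      · by_contra hn
        exact (mem_suppAt.mp hw).2.2 (hω.1 _ hn)
    have hCA : addStar F v N ⊆ Kf A := hCsub.trans hD.1
    have h5 := finrank_Stress_eq (A := A) (E := addStar F v N)
      (fun e he => (mem_Kf.mp (hCA he)).2) hp.ne_zero
    have h6 := finrank_Stress_rest (W := A.erase v) D
      (fun w hw => hp.ne_zero w (Finset.mem_of_mem_erase hw))
    have h7 := card_addStar (v := v) hFK N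
    have h8 : (A.erase v).card + 1 = A.card := Finset.card_erase_add_one hv
    have h9 : mdim (A.erase v) (addStar F v N : Set (Sym2 V)) p
        = mdim (A.erase v) (D : Set (Sym2 V)) p := by
      unfold mdim
      rw [mdim_addStar_erase, hF, Mot_rest]
    have h3' : finrank k (Stress F p) + 1 ≤ finrank k (Stress (addStar F v N) p) := h3
    have h10 : mdim (A.erase v) (addStar F v N : Set (Sym2 V)) p
        ≤ mdim A (addStar F v N : Set (Sym2 V)) p := by
      rw [h9]
      rw [← hF] at h6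
      omega
    have hnb := nbr_addStar (v := v) hFK hNA
    have h11 := hp.le_RG h2 (addStar F v N : Set (Sym2 V)) hv (by rw [hnb]; exact h) h10
    rw [hnb] at h11
    have h12 := Mot_le_RG_of_erase hNA h11
    exact hD.Kf_subset_of_RG (suppAt_subset A ω v)
      ((Mot_anti (by exact_mod_cast hCsub) p).trans h12)

/-- A flat of dimension six is complete. -/
lemma IsFlatIn.eq_Kf {A : Finset V} {D : Finset (Sym2 V)} {p : V → Vec k}
    (hD : IsFlatIn A D p) (hp : GenPos p (A : Set V)) (hA : 3 ≤ A.card)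
    (h : mdim A (D : Set (Sym2 V)) p ≤ 6) : D = Kf A := by
  refine subset_antisymm hD.1 ?_
  refine hD.Kf_subset_of_RG subset_rfl ?_
  have h1 : mdim A ((Kf A : Finset (Sym2 V)) : Set (Sym2 V)) p = 6 := by
    rw [coe_Kf]
    exact mdim_complete hp hA
  have h2 : Mot A ((Kf A : Finset (Sym2 V)) : Set (Sym2 V)) p = Mot A (D : Set (Sym2 V)) p :=
    Submodule.eq_of_le_of_finrank_le (Mot_anti (by exact_mod_cast hD.1) p) (by
      show mdim A (D : Set (Sym2 V)) p ≤ mdim A ((Kf A : Finset (Sym2 V)) : Set (Sym2 V)) p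
      omega)
  rw [← h2]
  exact le_RG_of_Kf hp subset_rfl hA subset_rfl

lemma nbr_suppIn {A : Finset V} {D : Finset (Sym2 V)} {ω : Sym2 V → k}
    (h0 : ∀ e, e ∉ D → ω e = 0) (v : V) :
    nbr (A.erase v) (suppIn D ω : Set (Sym2 V)) v = suppAt A ω v := by
  ext w
  rw [mem_nbr, Finset.mem_coe, mem_suppIn, mem_suppAt, Finset.mem_erase]
  constructor
  · rintro ⟨⟨h1, h2⟩, h3, h4⟩
    exact ⟨h1, h2, h4⟩
  · rintro ⟨h1, h2, h3⟩
    refine ⟨⟨h1, h2⟩, ?_, h3⟩
    by_contra h
    exact h3 (h0 _ h)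

/-- dimension of the kernel of a pair functional -/
lemma finrank_inf_ker_ge (M : Submodule k (V → Vec k)) [FiniteDimensional k M]
    (φ : (V → Vec k) →ₗ[k] k) :
    finrank k M ≤ finrank k (M ⊓ LinearMap.ker φ : Submodule k (V → Vec k)) + 1 := by
  have h1 := LinearMap.finrank_range_add_finrank_ker (φ.domRestrict M)
  have h2 : finrank k (LinearMap.range (φ.domRestrict M)) ≤ 1 := by
    have := Submodule.finrank_le (LinearMap.range (φ.domRestrict M))
    rwa [Module.finrank_self] at this
  have h3 : finrank k (LinearMap.ker (φ.domRestrict M))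
      = finrank k (M ⊓ LinearMap.ker φ : Submodule k (V → Vec k)) := by
    have e : LinearMap.ker (φ.domRestrict M)
        = (M ⊓ LinearMap.ker φ : Submodule k (V → Vec k)).comap M.subtype := by
      ext Z
      simp [LinearMap.mem_ker]
    rw [e]
    exact LinearEquiv.finrank_eq (Submodule.comapSubtypeEquivOfLe inf_le_left)
  omega

lemma Mot_insert {A : Finset V} {E : Set (Sym2 V)} {p : V → Vec k} {a b : V} (ha : a ∈ A)
    (hb : b ∈ A) :
    Mot A (insert s(a, b) E) p = (Mot A E p ⊓ LinearMap.ker (eps p a b) :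
      Submodule k (V → Vec k)) := by
  ext Z
  rw [Submodule.mem_inf, LinearMap.mem_ker]
  constructor
  · intro h
    exact ⟨Mot_anti (Set.subset_insert _ _) p h, h.2.2 a ha b hb (Set.mem_insert _ _)⟩
  · rintro ⟨h1, h2⟩
    refine ⟨h1.1, h1.2.1, fun c hc d hd hcd => ?_⟩
    rcases hcd with hcd | hcd
    · rcases Sym2.eq_iff.mp hcd with ⟨rfl, rfl⟩ | ⟨rfl, rfl⟩
      · exact h2
      · rw [eps_comm]; exact h2
    · exact h1.2.2 c hc d hd hcd

/-- **A maximal bad flat has dimension seven.** -/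
theorem mdim_of_maximal_bad {A : Finset V} {D : Finset (Sym2 V)}
    {p : V → Vec k} (hp : Nice A p) (hA : 3 ≤ A.card) (hs : SmallGood A p)
    (hD : IsFlatIn A D p) (hbad : ¬ Good D p)
    (hmax : ∀ D' : Finset (Sym2 V), IsFlatIn A D' p → D ⊂ D' → Good D' p) :
    mdim A (D : Set (Sym2 V)) p = 7 := by
  have h6 := six_le_mdim (D : Set (Sym2 V)) hp.gp hA
  have h7 : mdim A (D : Set (Sym2 V)) p ≠ 6 := by
    intro h
    have := hD.eq_Kf hp.gp hA h.le
    exact hbad (this ▸ good_Kf hp.gp)
  by_contra hne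
  have h8 : 8 ≤ mdim A (D : Set (Sym2 V)) p := by omega
  obtain ⟨ω, hω, hωS, hcirc⟩ := exists_circuit (S5 D p) hbad
  set C := suppIn D ω with hC
  have hCD : C ⊆ D := fun e he => (mem_suppIn.mp he).1
  have hCA : C ⊆ Kf A := hCD.trans hD.1
  have hωC : ω ∈ Stress C p := by
    refine mem_Stress_of_support hω fun e he => ?_
    by_contra h
    refine he (mem_suppIn.mpr ⟨?_, h⟩)
    by_contra hn
    exact h (hω.1 e hn)
  have h1 : finrank k (Stress C p) ≤ 1 := by
    refine finrank_le_one ⟨ω, hωC⟩ fun ω' => ?_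
    obtain ⟨c, hc⟩ := hcirc ω'.1 ω'.2
    exact ⟨c, Subtype.ext hc.symm⟩
  have h3 := finrank_Stress_eq (A := A) (E := C) (fun e he => (mem_Kf.mp (hCA he)).2) hp.ne_zero
  have h4 : mdim A (D : Set (Sym2 V)) p ≤ mdim A (C : Set (Sym2 V)) p :=
    mdim_le_of_edges (by exact_mod_cast hCD) p
  obtain ⟨v, hv, hdeg⟩ := exists_edeg_le_five (A := A) (E := C)
    (fun e he => (mem_Kf.mp (hCA he)).2) (fun e he => (mem_Kf.mp (hCA he)).1) (by omega)
  rw [edeg_eq_card_nbr hCA, nbr_suppIn hω.1] at hdeg
  set N := suppAt A ω v with hN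
  have hnc : ¬ Kf N ⊆ D := fun hc =>
    hωS (mem_S5_of_clique hD hp.gp hv (hs.rest hD (Finset.erase_ssubset hv)) hω hc)
  -- a nonrigid pair of `N`
  obtain ⟨e1, he1, he1D⟩ := Finset.not_subset.mp hnc
  -- every pair outside `D` leaves `N` rigid (U1)
  have hU : ∀ a ∈ A, ∀ b ∈ A, a ≠ b → s(a, b) ∉ D →
      ∀ Z ∈ Mot A (D : Set (Sym2 V)) p, eps p a b Z = 0 →
        ∀ c ∈ N, ∀ d ∈ N, eps p c d Z = 0 := by
    intro a ha b hb hab hnot Z hZ hZab c hc d hd
    set D' := clF A (insert s(a, b) D) p with hD'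
    have hins : insert s(a, b) D ⊆ Kf A :=
      Finset.insert_subset (mk_mem_Kf.mpr ⟨hab, ha, hb⟩) hD.1
    have hfl : IsFlatIn A D' p := isFlatIn_clF _ _ _
    have hDD' : D ⊆ D' := (Finset.subset_insert _ _).trans (subset_clF hins p)
    have hss : D ⊂ D' := by
      refine (Finset.ssubset_iff_of_subset hDD').mpr ⟨s(a, b), ?_, hnot⟩
      exact subset_clF hins p (Finset.mem_insert_self _ _)
    have hgood := hmax D' hfl hss
    have hcl := clique_of_good hv hfl hp.gp (fun W hW _ => by
      rcases hW.eq_or_ssubset with h | h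
      · rw [h, rest_self hfl.1]
        exact hgood
      · exact hs.rest hfl h) (Stress_mono hDD' p hω) hdeg
    by_cases hcd : c = d
    · subst hcd
      rw [eps_apply, hZ.2.1 c (suppAt_subset A ω v hc), add_zero]
    · have h10 : s(c, d) ∈ D' := hcl (mk_mem_Kf.mpr ⟨hcd, hc, hd⟩)
      have h11 : Z ∈ Mot A ((insert s(a, b) D : Finset (Sym2 V)) : Set (Sym2 V)) p := by
        rw [Finset.coe_insert, Mot_insert ha hb]
        exact ⟨hZ, hZab⟩
      exact (mem_clo_iff_Mot hins (suppAt_subset A ω v hc) (suppAt_subset A ω v hd)).mp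
        (mem_clF.mp h10).2 Z h11
  induction e1 using Sym2.ind with
  | _ c d =>
    rw [mk_mem_Kf] at he1
    obtain ⟨hcd, hc, hd⟩ := he1
    have hcA := suppAt_subset A ω v hc
    have hdA := suppAt_subset A ω v hd
    -- the space `K₁`
    have h12 := finrank_inf_ker_ge (Mot A (D : Set (Sym2 V)) p) (eps p c d)
    rw [← Mot_insert hcA hdA] at h12
    -- a pair which is not rigid on `K₁`
    have h13 : ∃ a ∈ A, ∃ b ∈ A, a ≠ b ∧ ∃ Z ∈ Mot A (insert s(c, d) (D : Set (Sym2 V))) p,
        eps p a b Z ≠ 0 := by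
      by_contra hcon
      push Not at hcon
      have h14 : Mot A (insert s(c, d) (D : Set (Sym2 V))) p ≤ Mot A (KK (A : Set V)) p := by
        intro Z hZ
        refine ⟨hZ.1, hZ.2.1, fun a ha b hb hab => ?_⟩
        rw [mk_mem_KK] at hab
        exact hcon a ha b hb hab.1 Z hZ
      have h15 := Submodule.finrank_mono h14
      have h16 : finrank k (Mot A (KK (A : Set V)) p) = 6 := mdim_complete hp.gp hA
      have h17 : finrank k (Mot A (D : Set (Sym2 V)) p) = mdim A (D : Set (Sym2 V)) p := rfl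
      omega
    obtain ⟨a, ha, b, hb, hab, Z, hZ, hZne⟩ := h13
    rw [Mot_insert hcA hdA] at hZ
    have hZ0 : eps p c d Z = 0 := hZ.2
    have hnotD : s(a, b) ∉ D := fun hmem => hZne (hZ.1.2.2 a ha b hb (by exact_mod_cast hmem))
    -- the functional `eps c d` does not vanish
    obtain ⟨Y, hY, hYne⟩ : ∃ Y ∈ Mot A (D : Set (Sym2 V)) p, eps p c d Y ≠ 0 := by
      by_contra hcon
      push Not at hcon
      exact he1D (hD.mem_of_rigid hcd hcA hdA hcon)
    -- combination
    have h18 : Y - (eps p a b Y / eps p a b Z) • Z ∈ Mot A (D : Set (Sym2 V)) p :=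
      Submodule.sub_mem _ hY (Submodule.smul_mem _ _ hZ.1)
    have h19 := hU a ha b hb hab hnotD _ h18 (by
      rw [map_sub, map_smul, smul_eq_mul, div_mul_cancel₀ _ hZne, sub_self]) c hc d hd
    rw [map_sub, map_smul, hZ0, smul_zero, sub_zero] at h19
    exact hYne h19

end Nice

end GR
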