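import Pool.Agent.Lib.GR.Defs

/-!
# Basic facts: semicontinuity, rank, duality
-/

set_option linter.unusedSectionVars false
set_option linter.style.haveILetI false

namespace GR

open Filter Module

open scoped Matrix

variable {k : Type*} [Field k] {V : Type*}

section LinInd

variable {W : Type*} [AddCommGroup W] [Module k W]

/-- rows of a matrix with finitely many, linearly independent rows: there are columns giving a
nonzero determinant. -/
lemma exists_minor {ι κ : Type*} [Fintype ι] [DecidableEq ι] (w : ι → κ → k)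
    (h : LinearIndependent k w) : ∃ f : ι → κ, (Matrix.of fun i j => w i (f j)).det ≠ 0 := by
  classical
  -- the columns span
  let col : κ → (ι → k) := fun j i => w i j
  have hspan : Submodule.span k (Set.range col) = ⊤ := by
    by_contra hne
    obtain ⟨φ, hφ, hφ'⟩ := Submodule.exists_le_ker_of_lt_top _ (lt_top_iff_ne_top.mpr hne)
    -- φ = ∑ c_i
    have hc : ∑ i, φ (Pi.single i 1) • w i = 0 := by
      ext j
      have h1 : φ (col j) = 0 := by
        have : col j ∈ LinearMap.ker φ := hφ' (Submodule.subset_span ⟨j, rfl⟩)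
        simpa using this
      have h2 : col j = ∑ i, w i j • (Pi.single i 1 : ι → k) := by
        ext i'
        simp [col, Finset.sum_apply, Pi.single_apply]
      rw [h2, map_sum] at h1
      simp only [map_smul, smul_eq_mul] at h1
      simp only [Finset.sum_apply, Pi.smul_apply, smul_eq_mul, Pi.zero_apply]
      rw [← h1]
      exact Finset.sum_congr rfl fun i _ => mul_comm _ _
    have hz := Fintype.linearIndependent_iff.mp h _ hc
    apply hφ
    refine LinearMap.pi_ext' fun i => ?_
    ext
    simpa using hz i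
  -- choose a basis among the columns
  obtain ⟨b, hbsub, hbspan, hbli⟩ := exists_linearIndependent k (Set.range col)
  have hbtop : Submodule.span k b = ⊤ := by rw [hbspan, hspan]
  let B : Basis b k (ι → k) := Basis.mk hbli (by
    rw [Subtype.range_coe]; exact hbtop.ge)
  have : Finite b := Module.Finite.finite_basis B
  have : Fintype b := Fintype.ofFinite b
  have hcard : Fintype.card ι = Fintype.card b := by
    rw [← Module.finrank_eq_card_basis B, Module.finrank_pi]
  obtain ⟨e⟩ := Fintype.card_eq.mp hcard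
  have hf : ∀ i : ι, ∃ j : κ, col j = (e i : ι → k) := fun i => hbsub (e i).2
  choose f hf using hf
  refine ⟨f, ?_⟩
  -- the columns are linearly independent
  have hli : LinearIndependent k (fun i : ι => col (f i)) := by
    have : (fun i : ι => col (f i)) = (fun x : b => (x : ι → k)) ∘ e := by
      ext i : 1
      exact hf i
    rw [this]
    exact hbli.comp e e.injective
  have hT : LinearIndependent k ((Matrix.of fun i j => w i (f j))ᵀ).row := by
    exact hli
  have hu : IsUnit ((Matrix.of fun i j => w i (f j))ᵀ) :=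
    Matrix.linearIndependent_rows_iff_isUnit.mp hT
  rw [Matrix.isUnit_iff_isUnit_det, Matrix.det_transpose] at hu
  exact hu.ne_zero

lemma linearIndependent_of_minor {ι κ : Type*} [Fintype ι] [DecidableEq ι] (w : ι → κ → k)
    (f : ι → κ) (h : (Matrix.of fun i j => w i (f j)).det ≠ 0) : LinearIndependent k w := by
  have hu : IsUnit (Matrix.of fun i j => w i (f j)) := by
    rw [Matrix.isUnit_iff_isUnit_det]; exact isUnit_iff_ne_zero.mpr h
  have hli := Matrix.linearIndependent_rows_iff_isUnit.mpr hu
  -- compose with the projection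
  let π : (κ → k) →ₗ[k] (ι → k) := LinearMap.funLeft k k f
  have : π ∘ w = (Matrix.of fun i j => w i (f j)).row := by
    ext i j; rfl
  exact LinearIndependent.of_comp π (by rw [this]; exact hli)

/-- Linear independence of a finite polynomial family is an open condition (big form). -/
theorem big_linearIndependent [Infinite k] {ι κ Y : Type*} [Finite ι] [AddCommGroup Y] [Module k Y]
    (g : Y →ₗ[k] (κ → k)) (hg : Function.Injective g) (w : W → ι → Y)
    (hw : ∀ i j, PolyLine k (fun x => g (w x i) j)) (hne : ∃ x, LinearIndependent k (w x)) :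
    Big k {x | LinearIndependent k (w x)} := by
  classical
  have := Fintype.ofFinite ι
  have hiff : ∀ x, LinearIndependent k (w x) ↔ LinearIndependent k (fun i => g (w x i)) := by
    intro x
    have := g.linearIndependent_iff (v := w x) (LinearMap.ker_eq_bot.mpr hg)
    exact this.symm
  refine ⟨hne, ?_⟩
  intro a ha b
  have ha' := (hiff a).mp ha
  obtain ⟨f, hf⟩ := exists_minor _ ha'
  have hpl : PolyLine k (fun x => (Matrix.of fun i j => g (w x i) (f j)).det) :=
    PolyLine.det fun i j => by simpa using hw i (f j)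
  refine (hpl.finite_line a b hf).subset ?_
  intro t ht
  by_contra hcon
  exact ht ((hiff _).mpr (linearIndependent_of_minor _ f hcon))

theorem eventually_linearIndependent [Infinite k] {ι κ Y : Type*} [Finite ι] [AddCommGroup Y]
    [Module k Y]
    (g : Y →ₗ[k] (κ → k)) (hg : Function.Injective g) (w : W → ι → Y)
    (hw : ∀ i j, PolyLine k (fun x => g (w x i) j)) (hne : ∃ x, LinearIndependent k (w x)) :
    ∀ᶠ x in gen k W, LinearIndependent k (w x) :=
  (big_linearIndependent g hg w hw hne).mem_gen

/-- version for functions -/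
theorem eventually_linearIndependent_fun [Infinite k] {ι κ : Type*} [Finite ι]
    (w : W → ι → κ → k)
    (hw : ∀ i j, PolyLine k (fun x => w x i j)) (hne : ∃ x, LinearIndependent k (w x)) :
    ∀ᶠ x in gen k W, LinearIndependent k (w x) :=
  eventually_linearIndependent (LinearMap.id) Function.injective_id w hw hne

/-- evaluation of linear functionals -/
def dualEval (k : Type*) [Field k] (X : Type*) [AddCommGroup X] [Module k X] :
    Dual k X →ₗ[k] (X → k) where
  toFun φ x := φ x
  map_add' _ _ := rfl
  map_smul' _ _ := rfl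

lemma dualEval_injective (X : Type*) [AddCommGroup X] [Module k X] :
    Function.Injective (dualEval k X) := by
  intro φ ψ h
  ext x
  exact congrFun h x

/-- **Semicontinuity of kernels**: the dimension of the common kernel of polynomial families of
functionals does not go up generically. -/
theorem big_finrank_ker [Infinite k] {ι X : Type*} [AddCommGroup X] [Module k X]
    [FiniteDimensional k X] (Φ : W → X →ₗ[k] (ι → k))
    (hΦ : ∀ x i, PolyLine k (fun w => Φ w x i)) (d : ℕ)
    (hne : ∃ w, finrank k (LinearMap.ker (Φ w)) ≤ d) :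
    Big k {w | finrank k (LinearMap.ker (Φ w)) ≤ d} := by
  classical
  refine ⟨hne, ?_⟩
  intro a ha b
  obtain ⟨C, hC⟩ := Submodule.exists_isCompl (LinearMap.ker (Φ a))
  let B := Module.finBasis k C
  -- the images of the basis of C are independent at a
  have hli : LinearIndependent k (fun i => Φ a (B i : X)) := by
    have h1 : LinearIndependent k (fun i => (B i : X)) :=
      B.linearIndependent.map' C.subtype (Submodule.ker_subtype C)
    refine h1.map ?_
    rw [Set.range_comp' (fun c : C => (c : X)) B] 
    have : Submodule.span k ((fun c : C => (c : X)) '' Set.range B) = C := by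
      have := Submodule.map_span C.subtype (Set.range B)
      rw [B.span_eq, Submodule.map_top, Submodule.range_subtype] at this
      exact this.symm
    rw [this]
    exact hC.symm.disjoint
  have hbig : Big k {w | LinearIndependent k (fun i => Φ w (B i : X))} :=
    big_linearIndependent (κ := ι) LinearMap.id Function.injective_id
      (fun w i => Φ w (B i : X)) (fun i j => hΦ _ _) ⟨a, hli⟩
  refine (hbig.2 a hli b).subset ?_
  intro t ht hcon
  apply ht
  have hcon' : LinearIndependent k (fun i => Φ (a + t • b) (B i : X)) := hcon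
  -- ker ∩ C = 0
  have hdisj : Disjoint (LinearMap.ker (Φ (a + t • b))) C := by
    rw [Submodule.disjoint_def]
    intro x hx hxC
    have hx' : Φ (a + t • b) x = 0 := hx
    have e' : x = ∑ i, B.repr ⟨x, hxC⟩ i • (B i : X) := by
      have h := congrArg C.subtype (B.sum_repr ⟨x, hxC⟩)
      rw [map_sum] at h
      simp only [map_smul, Submodule.subtype_apply] at h
      exact h.symm
    have h0 : ∑ i, B.repr ⟨x, hxC⟩ i • Φ (a + t • b) (B i : X) = 0 := by
      rw [← hx']
      conv_rhs => rw [e']
      simp
    have hz := Fintype.linearIndependent_iff.mp hcon' _ h0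
    rw [e']
    simp [hz]
  have h1 := Submodule.finrank_add_finrank_le_of_disjoint hdisj
  have h2 := Submodule.finrank_add_eq_of_isCompl hC
  have h3 : finrank k (LinearMap.ker (Φ a)) ≤ d := ha
  show finrank k (LinearMap.ker (Φ (a + t • b))) ≤ d
  omega

end LinInd

section PolyVec

/-- `Z a ⬝ᵥ p b` is polynomial (linear) in `p`. -/
lemma polyLine_dot (x : Vec k) (b : V) : PolyLine k (fun p : V → Vec k => x ⬝ᵥ p b) := by
  intro a c
  refine ⟨Polynomial.C (x ⬝ᵥ a b) + Polynomial.C (x ⬝ᵥ c b) * Polynomial.X, fun t => ?_⟩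
  simp only [Pi.add_apply, Pi.smul_apply, dotProduct_add, dotProduct_smul, smul_eq_mul,
    Polynomial.eval_add, Polynomial.eval_C, Polynomial.eval_mul, Polynomial.eval_X]
  ring

lemma polyLine_eps (Z : V → Vec k) (a b : V) :
    PolyLine k (fun p : V → Vec k => eps p a b Z) := by
  simp only [eps_apply]
  exact (polyLine_dot _ _).add (polyLine_dot _ _)

/-- coordinates of `p` are polynomial -/
lemma polyLine_coord (v : V) (i : Fin 4) : PolyLine k (fun p : V → Vec k => p v i) :=
  fun a c => ⟨Polynomial.C (a v i) + Polynomial.C (c v i) * Polynomial.X, fun t => by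
    simp only [Pi.add_apply, Pi.smul_apply, smul_eq_mul, Polynomial.eval_add, Polynomial.eval_C,
      Polynomial.eval_mul, Polynomial.eval_X]
    ring⟩

lemma polyLine_vec (i : Fin 4) : PolyLine k (fun x : Vec k => x i) :=
  fun a c => ⟨Polynomial.C (a i) + Polynomial.C (c i) * Polynomial.X, fun t => by
    simp only [Pi.add_apply, Pi.smul_apply, smul_eq_mul, Polynomial.eval_add, Polynomial.eval_C,
      Polynomial.eval_mul, Polynomial.eval_X]
    ring⟩

lemma polyLine_vecDot (z : Vec k) : PolyLine k (fun x : Vec k => z ⬝ᵥ x) := by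
  intro a c
  refine ⟨Polynomial.C (z ⬝ᵥ a) + Polynomial.C (z ⬝ᵥ c) * Polynomial.X, fun t => ?_⟩
  simp only [dotProduct_add, dotProduct_smul, smul_eq_mul,
    Polynomial.eval_add, Polynomial.eval_C, Polynomial.eval_mul, Polynomial.eval_X]
  ring

end PolyVec

section Generic

open Classical in
/-- the system of all conditions defining `Mot A E p` inside `Supp k A` -/
noncomputable def condMap (A : Finset V) (E : Set (Sym2 V)) (p : V → Vec k) :
    Supp k A →ₗ[k] (V ⊕ V × V → k) where
  toFun Z := Sum.elim (fun v => if v ∈ A then Z.1 v ⬝ᵥ p v else 0)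
    (fun ab => if ab.1 ∈ A ∧ ab.2 ∈ A ∧ s(ab.1, ab.2) ∈ E then eps p ab.1 ab.2 Z.1 else 0)
  map_add' Z Z' := by
    ext (v | ab)
    · by_cases h : v ∈ A <;> simp [h, add_dotProduct]
    · by_cases h : ab.1 ∈ A ∧ ab.2 ∈ A ∧ s(ab.1, ab.2) ∈ E
      · simp only [Sum.elim_inr, if_pos h, Submodule.coe_add, map_add, Pi.add_apply]
      · simp only [Sum.elim_inr, if_neg h, Pi.add_apply, add_zero]
  map_smul' c Z := by
    ext (v | ab)
    · by_cases h : v ∈ A <;> simp [h]
    · by_cases h : ab.1 ∈ A ∧ ab.2 ∈ A ∧ s(ab.1, ab.2) ∈ E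
      · simp only [Sum.elim_inr, if_pos h, Submodule.coe_smul, map_smul, Pi.smul_apply,
          RingHom.id_apply]
      · simp only [Sum.elim_inr, if_neg h, Pi.smul_apply, smul_zero]

lemma ker_condMap (A : Finset V) (E : Set (Sym2 V)) (p : V → Vec k) :
    LinearMap.ker (condMap A E p) = (Mot A E p).comap (Supp k A).subtype := by
  classical
  ext Z
  simp only [LinearMap.mem_ker, Submodule.mem_comap, Submodule.subtype_apply, mem_Mot]
  constructor
  · intro h
    refine ⟨Z.2, fun v hv => ?_, fun a ha b hb hab => ?_⟩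
    · have := congrFun h (Sum.inl v)
      simpa [condMap, hv] using this
    · have := congrFun h (Sum.inr (a, b))
      have h3 : a ∈ A ∧ b ∈ A ∧ s(a, b) ∈ E := ⟨ha, hb, hab⟩
      simp only [condMap, LinearMap.coe_mk, AddHom.coe_mk, Sum.elim_inr, if_pos h3,
        Pi.zero_apply] at this
      exact this
  · rintro ⟨-, h2, h3⟩
    ext (v | ab)
    · by_cases hv : v ∈ A
      · simp [condMap, hv, h2 v hv]
      · simp [condMap, hv]
    · by_cases h : ab.1 ∈ A ∧ ab.2 ∈ A ∧ s(ab.1, ab.2) ∈ E
      · simp only [condMap, LinearMap.coe_mk, AddHom.coe_mk, Sum.elim_inr, if_pos h, Pi.zero_apply]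
        exact h3 _ h.1 _ h.2.1 h.2.2
      · simp only [condMap, LinearMap.coe_mk, AddHom.coe_mk, Sum.elim_inr, if_neg h, Pi.zero_apply]

lemma finrank_ker_condMap (A : Finset V) (E : Set (Sym2 V)) (p : V → Vec k) :
    finrank k (LinearMap.ker (condMap A E p)) = mdim A E p := by
  rw [ker_condMap]
  exact LinearEquiv.finrank_eq (Submodule.comapSubtypeEquivOfLe (Mot_le_Supp A E p))

variable [Infinite k]

theorem big_mdim (A : Finset V) (E : Set (Sym2 V)) (d : ℕ) (hne : ∃ p : V → Vec k, mdim A E p ≤ d) :
    Big k {p : V → Vec k | mdim A E p ≤ d} := by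
  classical
  have h := big_finrank_ker (k := k) (W := V → Vec k) (fun p => condMap A E p) ?_ d ?_
  · simpa only [finrank_ker_condMap] using h
  · rintro Z (v | ab)
    · by_cases hv : v ∈ A
      · simpa [condMap, hv] using polyLine_dot (Z.1 v) v
      · simpa [condMap, hv] using PolyLine.const (W := V → Vec k) (0 : k)
    · by_cases h : ab.1 ∈ A ∧ ab.2 ∈ A ∧ s(ab.1, ab.2) ∈ E
      · simp only [condMap, LinearMap.coe_mk, AddHom.coe_mk, Sum.elim_inr, if_pos h]
        exact polyLine_eps Z.1 ab.1 ab.2
      · simp only [condMap, LinearMap.coe_mk, AddHom.coe_mk, Sum.elim_inr, if_neg h]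
        exact PolyLine.const _
  · simpa only [finrank_ker_condMap] using hne

lemma gdim_le_mdim (A : Finset V) (E : Set (Sym2 V)) (p : V → Vec k) : gdim k A E ≤ mdim A E p :=
  Nat.sInf_le ⟨p, rfl⟩

lemma exists_mdim_eq (A : Finset V) (E : Set (Sym2 V)) :
    ∃ p : V → Vec k, mdim A E p = gdim k A E :=
  Nat.sInf_mem (Set.range_nonempty _)

/-- Generically `mdim` is equal to its minimum (big form). -/
theorem big_mdim_eq (A : Finset V) (E : Set (Sym2 V)) :
    Big k {p : V → Vec k | mdim A E p = gdim k A E} := by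
  have h := big_mdim (k := k) A E (gdim k A E) (by
    obtain ⟨p, hp⟩ := exists_mdim_eq (k := k) A E
    exact ⟨p, hp.le⟩)
  have : {p : V → Vec k | mdim A E p ≤ gdim k A E} = {p : V → Vec k | mdim A E p = gdim k A E} := by
    ext p
    exact ⟨fun h => le_antisymm h (gdim_le_mdim A E p), fun h => le_of_eq h⟩
  rwa [this] at h

theorem eventually_mdim_eq (A : Finset V) (E : Set (Sym2 V)) :
    ∀ᶠ p in gen k (V → Vec k), mdim A E p = gdim k A E :=
  (big_mdim_eq A E).mem_gen

end Generic

section Congr

/-- Only the pairs inside `A` matter. -/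
lemma Mot_congr {A : Finset V} {E E' : Set (Sym2 V)} (p : V → Vec k)
    (h : ∀ a ∈ A, ∀ b ∈ A, (s(a, b) ∈ E ↔ s(a, b) ∈ E')) : Mot A E p = Mot A E' p := by
  ext Z
  simp only [mem_Mot]
  constructor
  · rintro ⟨h1, h2, h3⟩
    exact ⟨h1, h2, fun a ha b hb hab => h3 a ha b hb ((h a ha b hb).mpr hab)⟩
  · rintro ⟨h1, h2, h3⟩
    exact ⟨h1, h2, fun a ha b hb hab => h3 a ha b hb ((h a ha b hb).mp hab)⟩

lemma gdim_congr {A : Finset V} {E E' : Set (Sym2 V)}
    (h : ∀ a ∈ A, ∀ b ∈ A, (s(a, b) ∈ E ↔ s(a, b) ∈ E')) : gdim k A E = gdim k A E' := by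
  have : ∀ p : V → Vec k, mdim A E p = mdim A E' p := fun p => by
    unfold mdim; rw [Mot_congr p h]
  simp only [gdim, this]

/-- Only the points of `A` matter. -/
lemma Mot_congr_pts {A : Finset V} {E : Set (Sym2 V)} {p q : V → Vec k}
    (h : ∀ a ∈ A, p a = q a) : Mot A E p = Mot A E q := by
  ext Z
  simp only [mem_Mot, eps_apply]
  constructor
  · rintro ⟨h1, h2, h3⟩
    exact ⟨h1, fun v hv => by rw [← h v hv]; exact h2 v hv, fun a ha b hb hab => by
      rw [← h a ha, ← h b hb]; exact h3 a ha b hb hab⟩
  · rintro ⟨h1, h2, h3⟩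
    exact ⟨h1, fun v hv => by rw [h v hv]; exact h2 v hv, fun a ha b hb hab => by
      rw [h a ha, h b hb]; exact h3 a ha b hb hab⟩

/-- A regular framework: all subgraphs on subsets of `A` have generic dimension. -/
def Regular (A : Finset V) (p : V → Vec k) : Prop :=
  ∀ A' ⊆ A, ∀ E : Set (Sym2 V), mdim A' E p = gdim k A' E

lemma Regular.mono {A B : Finset V} (h : B ⊆ A) {p : V → Vec k} (hp : Regular A p) :
    Regular B p := fun A' hA' E => hp A' (hA'.trans h) E

theorem eventually_regular [Infinite k] (A : Finset V) :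
    ∀ᶠ p in gen k (V → Vec k), Regular A p := by
  classical
  have h : ∀ᶠ p in gen k (V → Vec k), ∀ x ∈ A.powerset ×ˢ A.sym2.powerset,
      mdim x.1 (x.2 : Set (Sym2 V)) p = gdim k x.1 (x.2 : Set (Sym2 V)) := by
    rw [Filter.eventually_all_finset]
    intro x _
    exact eventually_mdim_eq _ _
  filter_upwards [h] with p hp A' hA' E
  have hx := hp (A', A.sym2.filter (· ∈ E)) (by
    simp only [Finset.mem_product, Finset.mem_powerset]
    exact ⟨hA', Finset.filter_subset _ _⟩)
  have hc : ∀ a ∈ A', ∀ b ∈ A',
      (s(a, b) ∈ E ↔ s(a, b) ∈ ((A.sym2.filter (· ∈ E) : Finset (Sym2 V)) : Set (Sym2 V))) := by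
    intro a ha b hb
    simp only [Finset.coe_filter, Finset.mem_sym2_iff, Set.mem_ofPred_eq, Sym2.mem_iff]
    constructor
    · intro h
      refine ⟨?_, h⟩
      rintro c (rfl | rfl)
      · exact hA' ha
      · exact hA' hb
    · exact fun h => h.2
  unfold mdim at hx ⊢
  rw [Mot_congr p hc, gdim_congr (k := k) hc]
  exact hx

end Congr

section Duality

/-- Rank-nullity for a set of pairs on a space of motions. -/
theorem finrank_add_strain (M : Submodule k (V → Vec k)) [FiniteDimensional k M]
    (S : Set (Sym2 V)) (p : V → Vec k) :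
    finrank k (strainSpan M S p) +
      finrank k (M ⊓ (⨅ e ∈ S, LinearMap.ker (epsS p e)) : Submodule k (V → Vec k))
      = finrank k M := by
  have h := Subspace.finrank_add_finrank_dualCoannihilator_eq (strainSpan M S p)
  rw [← h]
  congr 1
  have e : (strainSpan M S p).dualCoannihilator
      = (M ⊓ (⨅ e ∈ S, LinearMap.ker (epsS p e)) : Submodule k (V → Vec k)).comap M.subtype := by
    ext Z
    simp only [Submodule.mem_dualCoannihilator, Submodule.mem_comap, Submodule.subtype_apply,
      Submodule.mem_inf, Submodule.mem_iInf, LinearMap.mem_ker]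
    constructor
    · intro hZ
      refine ⟨Z.2, fun e he => ?_⟩
      exact hZ _ (Submodule.subset_span ⟨e, he, rfl⟩)
    · rintro ⟨-, hZ⟩ φ hφ
      refine Submodule.span_induction (p := fun φ _ => φ Z = 0) ?_ ?_ ?_ ?_ hφ
      · rintro _ ⟨e, he, rfl⟩
        exact hZ e he
      · rfl
      · intro φ ψ _ _ h1 h2
        rw [LinearMap.add_apply, h1, h2, add_zero]
      · intro c φ _ h1
        rw [LinearMap.smul_apply, h1, smul_zero]
  rw [e]
  exact (LinearEquiv.finrank_eq (Submodule.comapSubtypeEquivOfLe inf_le_left)).symm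

/-- Membership in the strain span is the same as vanishing on the motions of the pairs. -/
theorem mem_strainSpan_iff (M : Submodule k (V → Vec k)) [FiniteDimensional k M]
    (S : Set (Sym2 V)) (p : V → Vec k) (φ : (V → Vec k) →ₗ[k] k) :
    φ.domRestrict M ∈ strainSpan M S p ↔
      ∀ Z ∈ M, (∀ e ∈ S, epsS p e Z = 0) → φ Z = 0 := by
  constructor
  · intro h Z hZ h0
    have : ∀ ψ ∈ strainSpan M S p, ψ ⟨Z, hZ⟩ = 0 := by
      intro ψ hψ
      refine Submodule.span_induction (p := fun φ _ => φ ⟨Z, hZ⟩ = 0) ?_ ?_ ?_ ?_ hψ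
      · rintro _ ⟨e, he, rfl⟩
        exact h0 e he
      · rfl
      · intro φ ψ _ _ h1 h2
        rw [LinearMap.add_apply, h1, h2, add_zero]
      · intro c φ _ h1
        rw [LinearMap.smul_apply, h1, smul_zero]
    exact this _ h
  · intro h
    rw [← Subspace.dualCoannihilator_dualAnnihilator_eq (W := strainSpan M S p)]
    rw [Submodule.mem_dualAnnihilator]
    intro Z hZ
    refine h Z.1 Z.2 fun e he => ?_
    rw [Submodule.mem_dualCoannihilator] at hZ
    exact hZ _ (Submodule.subset_span ⟨e, he, rfl⟩)

/-- Same, for a finite set of pairs on an arbitrary space. -/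
theorem mem_strainSpan_iff' (M : Submodule k (V → Vec k))
    {S : Set (Sym2 V)} (hS : S.Finite) (p : V → Vec k) (φ : (V → Vec k) →ₗ[k] k) :
    φ.domRestrict M ∈ strainSpan M S p ↔
      ∀ Z ∈ M, (∀ e ∈ S, epsS p e Z = 0) → φ Z = 0 := by
  constructor
  · intro h Z hZ h0
    have : ∀ ψ ∈ strainSpan M S p, ψ ⟨Z, hZ⟩ = 0 := by
      intro ψ hψ
      refine Submodule.span_induction (p := fun φ _ => φ ⟨Z, hZ⟩ = 0) ?_ ?_ ?_ ?_ hψ
      · rintro _ ⟨e, he, rfl⟩
        exact h0 e he
      · rfl
      · intro φ ψ _ _ h1 h2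
        rw [LinearMap.add_apply, h1, h2, add_zero]
      · intro c φ _ h1
        rw [LinearMap.smul_apply, h1, smul_zero]
    exact this _ h
  · intro h
    have := hS.to_subtype
    have key := mem_span_of_iInf_ker_le_ker (ι := S)
      (L := fun e => (epsS p e.1).domRestrict M) (K := φ.domRestrict M) (by
        intro Z hZ
        simp only [Submodule.mem_iInf, LinearMap.mem_ker, LinearMap.domRestrict_apply] at hZ ⊢
        exact h Z.1 Z.2 fun e he => hZ ⟨e, he⟩)
    have e : Set.range (fun e : S => (epsS p e.1).domRestrict M)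
        = (fun e => (epsS p e).domRestrict M) '' S := by
      ext φ
      simp
    rw [e] at key
    exact key

lemma mem_clo_iff {E : Set (Sym2 V)} (hE : E.Finite) (p : V → Vec k) (e : Sym2 V) :
    e ∈ clo E p ↔ ∀ Z ∈ Mot0 p, (∀ f ∈ E, epsS p f Z = 0) → epsS p e Z = 0 :=
  mem_strainSpan_iff' (Mot0 p) hE p (epsS p e)

end Duality

end GR
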