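import Pool.Agent.Lib.GR.BadBasis

/-!
# Matroid properties of `CInd`; existence of bases with prescribed parts
-/

set_option linter.unusedSectionVars false

namespace GR

open Filter Module

open scoped Matrix

variable {k : Type*} [Field k] {V : Type*} [DecidableEq V]

/-- maximal independent subset of `X` -/
structure CMax (H X B : Finset (Sym2 V)) (p : V → Vec k) : Prop where
  ind : CInd H B p
  sub : B ⊆ X
  max : ∀ e ∈ X, e ∉ B → ¬ CInd H (insert e B) p

lemma CInd.exists_cmax {H X I : Finset (Sym2 V)} {p : V → Vec k} (h : CInd H I p) (hI : I ⊆ X) :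
    ∃ B, I ⊆ B ∧ CMax H X B p := by
  classical
  have hfin : (X.powerset.filter fun E => I ⊆ E ∧ CInd H E p).Nonempty :=
    ⟨I, by simp [hI, h]⟩
  obtain ⟨E, hE, hmax⟩ := Finset.exists_max_image _ Finset.card hfin
  rw [Finset.mem_filter, Finset.mem_powerset] at hE
  refine ⟨E, hE.2.1, hE.2.2, hE.1, fun e he heE hc => ?_⟩
  have h1 := hmax (insert e E) (by
    rw [Finset.mem_filter, Finset.mem_powerset]
    exact ⟨Finset.insert_subset he hE.1, hE.2.1.trans (Finset.subset_insert _ _), hc⟩)
  rw [Finset.card_insert_of_notMem heE] at h1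
  omega

/-- elements of `S5 H` supported on `X` -/
def S5on (H X : Finset (Sym2 V)) (p : V → Vec k) : Submodule k (Sym2 V → k) where
  carrier := {ω | ω ∈ S5 H p ∧ ∀ e, e ∉ X → ω e = 0}
  add_mem' := by
    rintro ω ω' ⟨h1, h2⟩ ⟨h1', h2'⟩
    exact ⟨Submodule.add_mem _ h1 h1', fun e he => by simp [h2 e he, h2' e he]⟩
  zero_mem' := ⟨Submodule.zero_mem _, fun _ _ => rfl⟩
  smul_mem' := by
    rintro c ω ⟨h1, h2⟩
    exact ⟨Submodule.smul_mem _ _ h1, fun e he => by simp [h2 e he]⟩

lemma mem_S5on {H X : Finset (Sym2 V)} {p : V → Vec k} {ω : Sym2 V → k} :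
    ω ∈ S5on H X p ↔ ω ∈ S5 H p ∧ ∀ e, e ∉ X → ω e = 0 := Iff.rfl

instance S5on_finiteDimensional (H X : Finset (Sym2 V)) (p : V → Vec k) :
    FiniteDimensional k (S5on H X p) :=
  Submodule.finiteDimensional_of_le (fun _ h => h.1 : S5on H X p ≤ S5 H p)

/-- restriction to the complement of `B` in `X` -/
def resX (H X B : Finset (Sym2 V)) (p : V → Vec k) :
    S5on H X p →ₗ[k] ((X \ B : Finset (Sym2 V)) → k) where
  toFun ω e := ω.1 e
  map_add' _ _ := rfl
  map_smul' _ _ := rfl

lemma CInd.card_le_in {H X E : Finset (Sym2 V)} {p : V → Vec k} (h : CInd H E p) (hEX : E ⊆ X) :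
    E.card + finrank k (S5on H X p) ≤ X.card := by
  have hinj : Function.Injective (resX H X E p) := by
    rw [injective_iff_map_eq_zero]
    intro ω hω
    refine Subtype.ext (h.2 ω.1 ω.2.1 fun e he => ?_)
    by_cases heX : e ∈ X
    · exact congrFun hω ⟨e, Finset.mem_sdiff.mpr ⟨heX, he⟩⟩
    · exact ω.2.2 e heX
  have h1 := LinearMap.finrank_le_finrank_of_injective hinj
  rw [Module.finrank_fintype_fun_eq_card, Fintype.card_coe, Finset.card_sdiff_of_subset hEX] at h1
  have h2 := Finset.card_le_card hEX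
  omega

/-- the fundamental element of `S5 H` -/
lemma CMax.exists_fund {H X B : Finset (Sym2 V)} {p : V → Vec k} (h : CMax H X B p)
    {e : Sym2 V} (heX : e ∈ X) (heH : e ∈ H) (he : e ∉ B) :
    ∃ ω ∈ S5 H p, ω e = 1 ∧ ∀ f, f ∉ insert e B → ω f = 0 := by
  have h1 := h.max e heX he
  rw [CInd, not_and] at h1
  have h2 := h1 (Finset.insert_subset heH h.ind.1)
  push Not at h2
  obtain ⟨ω, hω, h0, hne⟩ := h2
  have hωe : ω e ≠ 0 := by
    intro hc
    refine hne (h.ind.2 ω hω fun f hf => ?_)
    by_cases hfe : f = e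
    · rw [hfe, hc]
    · exact h0 f (by simp [hfe, hf])
  exact ⟨(ω e)⁻¹ • ω, Submodule.smul_mem _ _ hω, by simp [hωe], fun f hf => by simp [h0 f hf]⟩

/-- **size of maximal independent subsets** -/
lemma CMax.card_eq {H X B : Finset (Sym2 V)} {p : V → Vec k} (h : CMax H X B p) (hX : X ⊆ H) :
    B.card + finrank k (S5on H X p) = X.card := by
  classical
  refine le_antisymm (h.ind.card_le_in h.sub) ?_
  have hsur : Function.Surjective (resX H X B p) := by
    rw [← LinearMap.range_eq_top, eq_top_iff]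
    intro f _
    have hb : ∀ e : (X \ B : Finset (Sym2 V)),
        (Pi.single e 1 : (X \ B : Finset (Sym2 V)) → k) ∈ LinearMap.range (resX H X B p) := by
      intro e
      have he := Finset.mem_sdiff.mp e.2
      obtain ⟨ω, hω, h1, h0⟩ := h.exists_fund he.1 (hX he.1) he.2
      refine ⟨⟨ω, hω, fun f hf => h0 f fun hc => hf ?_⟩, ?_⟩
      · rcases Finset.mem_insert.mp hc with hc | hc
        · rw [hc]; exact he.1
        · exact h.sub hc
      · ext f
        by_cases hfe : f = e
        · subst hfe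
          simp [resX, h1]
        · rw [Pi.single_eq_of_ne hfe]
          have hf := Finset.mem_sdiff.mp f.2
          have : ω f = 0 := h0 f (by
            rw [Finset.mem_insert, not_or]
            exact ⟨fun hc => hfe (Subtype.ext hc), hf.2⟩)
          simp [resX, this]
    rw [pi_eq_sum_univ' f]
    refine Submodule.sum_mem _ fun e _ => Submodule.smul_mem _ _ ?_
    convert hb e using 1
  have h1 := LinearMap.finrank_le_finrank_of_surjective (f := resX H X B p) hsur
  rw [Module.finrank_fintype_fun_eq_card, Fintype.card_coe, Finset.card_sdiff_of_subset h.sub] at h1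
  have h2 := Finset.card_le_card h.sub
  omega

/-- an independent subset of `X` of full size is maximal -/
lemma CMax.of_card {H X B B' : Finset (Sym2 V)} {p : V → Vec k} (h : CMax H X B p) (hX : X ⊆ H)
    (hB' : CInd H B' p) (hsub : B' ⊆ X) (hc : B.card ≤ B'.card) : CMax H X B' p := by
  refine ⟨hB', hsub, fun e heX he hc' => ?_⟩
  have h1 := h.card_eq hX
  have h2 := hc'.card_le_in (Finset.insert_subset heX hsub)
  rw [Finset.card_insert_of_notMem he] at h2
  omega

/-- **Augmentation.** -/
lemma CInd.aug {H I J : Finset (Sym2 V)} {p : V → Vec k} (hI : CInd H I p) (hJ : CInd H J p)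
    (hc : I.card < J.card) : ∃ e ∈ J, e ∉ I ∧ CInd H (insert e I) p := by
  by_contra hcon
  push Not at hcon
  have hmax : CMax H (I ∪ J) I p :=
    ⟨hI, Finset.subset_union_left, fun e he heI hc' => by
      rcases Finset.mem_union.mp he with h | h
      · exact heI h
      · exact hcon e h heI hc'⟩
  have h1 := hmax.card_eq (Finset.union_subset hI.1 hJ.1)
  have h2 := hJ.card_le_in (X := I ∪ J) Finset.subset_union_right
  omega

/-- **Replacing a maximal independent subset of `X` by another independent subset of `X`.** -/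
theorem CMax.replace {H X B B' J : Finset (Sym2 V)} {p : V → Vec k} (h : CMax H X B p)
    (hB' : CInd H B' p) (hsub : B' ⊆ X) (hJ : CInd H (B ∪ J) p)
    (hd : Disjoint J X) : CInd H (B' ∪ J) p := by
  classical
  refine ⟨Finset.union_subset hB'.1 (Finset.subset_union_right.trans hJ.1), fun σ hσ h0 => ?_⟩
  have hex : ∀ e ∈ B' \ B, ∃ ω ∈ S5 H p, ω e = 1 ∧ ∀ f, f ∉ insert e B → ω f = 0 := by
    intro e he
    have he' := Finset.mem_sdiff.mp he
    exact h.exists_fund (hsub he'.1) (hB'.1 he'.1) he'.2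
  choose! τ h1 h2 h3 using hex
  set τ' : Sym2 V → k := ∑ e ∈ B' \ B, σ e • τ e with hτ'
  have hτS : τ' ∈ S5 H p := Submodule.sum_mem _ fun e he => Submodule.smul_mem _ _ (h1 e he)
  have hval : ∀ f, f ∉ B → τ' f = if f ∈ B' \ B then σ f else 0 := by
    intro f hf
    rw [hτ', Finset.sum_apply]
    by_cases hfB : f ∈ B' \ B
    · rw [if_pos hfB, Finset.sum_eq_single f]
      · rw [Pi.smul_apply, h2 f hfB, smul_eq_mul, mul_one]
      · intro e he hef
        rw [Pi.smul_apply, h3 e he f (by
          rw [Finset.mem_insert, not_or]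
          exact ⟨Ne.symm hef, hf⟩), smul_zero]
      · exact fun hc => absurd hfB hc
    · rw [if_neg hfB]
      refine Finset.sum_eq_zero fun e he => ?_
      rw [Pi.smul_apply, h3 e he f (by
        rw [Finset.mem_insert, not_or]
        exact ⟨fun hc => hfB (hc ▸ he), hf⟩), smul_zero]
  have h4 : σ - τ' = 0 := by
    refine hJ.2 _ (Submodule.sub_mem _ hσ hτS) fun f hf => ?_
    rw [Finset.mem_union, not_or] at hf
    rw [Pi.sub_apply, hval f hf.1]
    by_cases hfB : f ∈ B' \ B
    · rw [if_pos hfB, sub_self]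
    · rw [if_neg hfB, sub_zero]
      refine h0 f ?_
      rw [Finset.mem_union, not_or]
      exact ⟨fun hc => hfB (Finset.mem_sdiff.mpr ⟨hc, hf.1⟩), hf.2⟩
  have h5 : σ = τ' := sub_eq_zero.mp h4
  refine hB'.2 σ hσ fun f hf => ?_
  by_cases hfJ : f ∈ J
  · have hfX : f ∉ X := Finset.disjoint_left.mp hd hfJ
    rw [h5, hval f (fun hc => hfX (h.sub hc)), if_neg fun hc => hf (Finset.mem_sdiff.mp hc).1]
  · refine h0 f ?_
    rw [Finset.mem_union, not_or]
    exact ⟨hf, hfJ⟩

section

variable [Infinite k] {A : Finset V} {H : Finset (Sym2 V)} {p : V → Vec k}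

/-- bases are the maximal independent sets -/
lemma CBasis.cmax (h : BadAt A H p) {E : Finset (Sym2 V)} (hE : CBasis A H E p) :
    CMax H H E p := by
  obtain ⟨B, hB, hmax⟩ := hE.ind.exists_cmax hE.ind.1
  have h1 := h.card_iff hmax.ind
  have h2 := hE.card
  have : E = B := Finset.eq_of_subset_of_card_le hB (by omega)
  rw [this]
  exact hmax

lemma CMax.cbasis (h : BadAt A H p) {E : Finset (Sym2 V)} (hE : CMax H H E p) :
    CBasis A H E p := by
  obtain ⟨B, hB, hB'⟩ := h.exists_basis hE.ind
  have h1 := (hB'.cmax h).card_eq subset_rfl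
  have h2 := hE.card_eq subset_rfl
  have h3 := hB'.card
  exact ⟨hE.ind, by omega⟩

/-- **Exchange.** -/
theorem CBasis.exchange (h : BadAt A H p) {E : Finset (Sym2 V)} (hE : CBasis A H E p)
    {e : Sym2 V} (heH : e ∈ H) (he : e ∉ E) :
    ∃ σ ∈ S5 H p, σ e = 1 ∧ (∀ f, f ∉ insert e E → σ f = 0) ∧
      ∀ f ∈ E, σ f ≠ 0 → CBasis A H (insert e (E.erase f)) p := by
  obtain ⟨σ, hσ, h1, h2⟩ := (hE.cmax h).exists_fund heH heH he
  refine ⟨σ, hσ, h1, h2, fun f hf hne => ⟨⟨?_, fun ω hω h0 => ?_⟩, ?_⟩⟩
  · exact Finset.insert_subset heH ((Finset.erase_subset _ _).trans hE.sub)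
  · -- `ω - ω e • σ` is supported on `E`
    have h3 : ω - ω e • σ = 0 := by
      refine hE.ind.2 _ (Submodule.sub_mem _ hω (Submodule.smul_mem _ _ hσ)) fun g hg => ?_
      by_cases hge : g = e
      · rw [hge, Pi.sub_apply, Pi.smul_apply, h1, smul_eq_mul, mul_one, sub_self]
      · rw [Pi.sub_apply, Pi.smul_apply, h2 g (by simp [hge, hg]), smul_zero, sub_zero]
        exact h0 g (by simp [hge, hg])
    have h4 : ω f = 0 := h0 f (by
      rw [Finset.mem_insert, not_or]
      exact ⟨fun hc => he (hc ▸ hf), Finset.notMem_erase f E⟩)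
    have h5 := congrFun h3 f
    rw [Pi.sub_apply, Pi.smul_apply, h4, zero_sub, smul_eq_mul, Pi.zero_apply, neg_eq_zero] at h5
    have h6 : ω e = 0 := (mul_eq_zero.mp h5).resolve_right hne
    rw [h6, zero_smul, sub_zero] at h3
    exact h3
  · rw [Finset.card_insert_of_notMem (fun hc => he (Finset.mem_of_mem_erase hc)),
      Finset.card_erase_of_mem hf]
    have h7 := hE.card
    have h8 := Finset.card_pos.mpr ⟨f, hf⟩
    omega

/-- independent sets on proper subsets of the vertices have no stress, and conversely -/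
lemma BadAt.cind_iff (h : BadAt A H p) {W : Finset V} (hW : W ⊂ A) {I : Finset (Sym2 V)}
    (hI : I ⊆ rest H W) : CInd H I p ↔ Stress I p = ⊥ := by
  constructor
  · intro hc
    have h1 := h.stress_rest hc hW
    have h2 : rest I W = I := by
      ext e
      rw [mem_rest]
      exact ⟨fun h => h.1, fun h => ⟨h, (mem_rest.mp (hI h)).2⟩⟩
    rwa [h2] at h1
  · intro hc
    exact CInd.of_Stress (hI.trans (rest_subset H W)) fun ω hω => by
      rw [hc] at hω
      exact (Submodule.mem_bot k).mp hω

/-- the size of a maximal independent subset of `H[W]` -/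
lemma BadAt.card_cmax (h : BadAt A H p) {W : Finset V} (hW : W ⊂ A) {B : Finset (Sym2 V)}
    (hB : CMax H (rest H W) B p) :
    B.card + mdim W (H : Set (Sym2 V)) p = 3 * W.card := by
  have h1 := hB.card_eq (rest_subset H W)
  have h2 : S5on H (rest H W) p = Stress (rest H W) p := by
    apply le_antisymm
    · intro ω hω
      exact mem_Stress_of_support (S5_le_Stress H p hω.1) hω.2
    · intro ω hω
      exact ⟨S5_mono (rest_subset H W) p (h.small.rest h.flat hW hω), hω.1⟩
  rw [h2] at h1
  have h3 := finrank_Stress_rest (W := W) H (p := p) (h.ne_zero hW.1)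
  omega

/-- maximal independent subsets of `H[W]` have the same motions -/
lemma BadAt.Mot_cmax (h : BadAt A H p) {W : Finset V} (hW : W ⊂ A) {B : Finset (Sym2 V)}
    (hB : CMax H (rest H W) B p) : Mot W (B : Set (Sym2 V)) p = Mot W (H : Set (Sym2 V)) p := by
  symm
  have hBH : B ⊆ H := hB.sub.trans (rest_subset H W)
  refine Submodule.eq_of_le_of_finrank_le (Mot_anti (by exact_mod_cast hBH) p) ?_
  have h1 := h.card_cmax hW hB
  have h2 := finrank_Stress_eq (A := W) (E := B) (fun e he => (mem_rest.mp (hB.sub he)).2)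
    (h.ne_zero hW.1)
  rw [(h.cind_iff hW hB.sub).mp hB.ind, finrank_bot] at h2
  show mdim W (B : Set (Sym2 V)) p ≤ mdim W (H : Set (Sym2 V)) p
  omega

/-- If `E[W]` is as large as possible then it is maximal. -/
lemma BadAt.cmax_rest (h : BadAt A H p) {W : Finset V} (hW : W ⊂ A) {E : Finset (Sym2 V)}
    (hE : CInd H E p) (hd : mdim W (E : Set (Sym2 V)) p ≤ mdim W (H : Set (Sym2 V)) p) :
    CMax H (rest H W) (rest E W) p := by
  have h1 : CInd H (rest E W) p := hE.mono (rest_subset E W)
  have h2 : rest E W ⊆ rest H W := fun e he => by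
    rw [mem_rest] at he ⊢
    exact ⟨hE.1 he.1, he.2⟩
  obtain ⟨B, hB, hmax⟩ := h1.exists_cmax h2
  have h3 := h.card_cmax hW hmax
  have h4 := h.mdim_rest hE hW
  have : rest E W = B := Finset.eq_of_subset_of_card_le hB (by omega)
  rw [this]
  exact hmax

/-- **Changing a basis on `W`**: if `E[W]` spans `H[W]` then it may be replaced by any maximal
independent subset of `H[W]`. -/
theorem CBasis.change (h : BadAt A H p) {W : Finset V} (hW : W ⊂ A) {E : Finset (Sym2 V)}
    (hE : CBasis A H E p) (hd : mdim W (E : Set (Sym2 V)) p ≤ mdim W (H : Set (Sym2 V)) p)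
    {B : Finset (Sym2 V)} (hB : CMax H (rest H W) B p) :
    CBasis A H (B ∪ (E \ rest E W)) p := by
  have h1 := h.cmax_rest hW hE.ind hd
  have hdisj : Disjoint (E \ rest E W) (rest H W) := by
    rw [Finset.disjoint_left]
    intro e he he'
    rw [Finset.mem_sdiff, mem_rest] at he
    exact he.2 ⟨he.1, (mem_rest.mp he').2⟩
  refine ⟨h1.replace hB.ind hB.sub (by
    rw [Finset.union_sdiff_of_subset (rest_subset E W)]; exact hE.ind) hdisj, ?_⟩
  rw [Finset.card_union_of_disjoint (by
    rw [Finset.disjoint_left]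
    exact fun e he he' => Finset.disjoint_left.mp hdisj he' (hB.sub he)),
    Finset.card_sdiff_of_subset (rest_subset E W)]
  have h2 := h.card_cmax hW hB
  have h3 := h.mdim_rest hE.ind hW
  have h4 : mdim W (H : Set (Sym2 V)) p ≤ mdim W (E : Set (Sym2 V)) p :=
    mdim_le_of_edges (by exact_mod_cast hE.sub) p
  have h5 := hE.card
  have h6 := Finset.card_le_card (rest_subset E W)
  omega

/-- adding at most three edges at a vertex -/
theorem BadAt.cind_addStar (h : BadAt A H p) {v : V} (hv : v ∈ A) {I : Finset (Sym2 V)}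
    (hI : I ⊆ rest H (A.erase v)) (hind : CInd H I p) {T : Finset V}
    (hT : T ⊆ nbr (A.erase v) (H : Set (Sym2 V)) v) (h3 : T.card ≤ 3) :
    CInd H (addStar I v T) p := by
  have hsub : addStar I v T ⊆ H := by
    intro e he
    rw [mem_addStar] at he
    rcases he with he | ⟨w, hw, rfl⟩
    · exact rest_subset _ _ (hI he)
    · exact (mem_nbr.mp (hT hw)).2
  have hIK : I ⊆ Kf (A.erase v) := hI.trans (rest_subset_Kf h.flat.notDiag _)
  refine CInd.of_Stress hsub fun ω hω => ?_
  have hA : ∀ e ∈ addStar I v T, ∀ w ∈ e, w ∈ A := fun e he => h.flat.mem_vert e (hsub he)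
  have hsupp : suppAt A ω v ⊆ T := by
    intro w hw
    have h1 := mem_suppAt.mp hw
    have h2 : s(v, w) ∈ addStar I v T := by
      by_contra hn
      exact h1.2.2 (hω.1 _ hn)
    rw [mem_addStar] at h2
    rcases h2 with h2 | ⟨w', hw', h2⟩
    · exact absurd ((mem_Kf.mp (hIK h2)).2 v (by simp)) (Finset.notMem_erase v A)
    · rcases Sym2.eq_iff.mp h2 with ⟨-, h4⟩ | ⟨h4, h5⟩
      · rwa [← h4]
      · rwa [← h4, ← h5]
  rcases suppAt_card hA h.nice.gp hω hv with h1 | h1
  · have h2 : ω ∈ Stress I p := by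
      refine mem_Stress_of_support hω fun e he => ?_
      by_contra hne
      have heS : e ∈ addStar I v T := by
        by_contra hn
        exact hne (hω.1 _ hn)
      rw [mem_addStar] at heS
      rcases heS with heS | ⟨w, hw, rfl⟩
      · exact he heS
      · have hwA := mem_nbr.mp (hT hw)
        have : w ∈ suppAt A ω v := mem_suppAt.mpr
          ⟨Finset.ne_of_mem_erase hwA.1, Finset.mem_of_mem_erase hwA.1, hne⟩
        rw [h1] at this
        simp at this
    rw [(h.cind_iff (Finset.erase_ssubset hv) hI).mp hind] at h2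
    exact (Submodule.mem_bot k).mp h2
  · have := Finset.card_le_card hsupp
    omega

/-- **A basis of minimal degree at `v`** containing a given independent set of `H - v` and up to
three given edges at `v`. -/
theorem BadAt.exists_basis_deg (h : BadAt A H p) {v : V} (hv : v ∈ A) {I : Finset (Sym2 V)}
    (hI : I ⊆ rest H (A.erase v)) (hind : CInd H I p) {T : Finset V}
    (hT : T ⊆ nbr (A.erase v) (H : Set (Sym2 V)) v) (h3 : T.card ≤ 3) :
    ∃ E, addStar I v T ⊆ E ∧ CBasis A H E p ∧
      (nbr (A.erase v) (E : Set (Sym2 V)) v).card + 3 = mdim (A.erase v) (H : Set (Sym2 V)) p := by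
  obtain ⟨B, hIB, hB⟩ := hind.exists_cmax hI
  obtain ⟨E, hE, hE'⟩ := h.exists_basis (h.cind_addStar hv hB.sub hB.ind hT h3)
  have hBE : B ⊆ rest E (A.erase v) := by
    intro e he
    rw [mem_rest]
    exact ⟨hE (mem_addStar.mpr (Or.inl he)), (mem_rest.mp (hB.sub he)).2⟩
  have h1 : rest E (A.erase v) = B := by
    refine (Finset.eq_of_subset_of_card_le hBE ?_).symm
    have h2 := h.card_cmax (Finset.erase_ssubset hv) hB
    have h4 := h.mdim_rest hE'.ind (Finset.erase_ssubset hv)
    have h5 : mdim (A.erase v) (H : Set (Sym2 V)) p ≤ mdim (A.erase v) (E : Set (Sym2 V)) p :=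
      mdim_le_of_edges (by exact_mod_cast hE'.sub) p
    omega
  refine ⟨E, ?_, hE', ?_⟩
  · intro e he
    rw [mem_addStar] at he
    exact hE (mem_addStar.mpr (he.imp (fun h => hIB h) id))
  · have h2 := h.card_cmax (Finset.erase_ssubset hv) hB
    have h4 := card_rest_erase (hE'.sub_Kf h) v
    rw [h1] at h4
    have h5 := hE'.card
    have h6 := Finset.card_erase_add_one hv
    omega

/-- degrees of bases -/
theorem CBasis.deg_ge (h : BadAt A H p) {E : Finset (Sym2 V)} (hE : CBasis A H E p) {v : V}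
    (hv : v ∈ A) : mdim (A.erase v) (H : Set (Sym2 V)) p
      ≤ (nbr (A.erase v) (E : Set (Sym2 V)) v).card + 3 := by
  have h1 := h.mdim_rest hE.ind (Finset.erase_ssubset hv)
  have h2 : mdim (A.erase v) (H : Set (Sym2 V)) p ≤ mdim (A.erase v) (E : Set (Sym2 V)) p :=
    mdim_le_of_edges (by exact_mod_cast hE.sub) p
  have h4 := card_rest_erase (hE.sub_Kf h) v
  have h5 := hE.card
  have h6 := Finset.card_erase_add_one hv
  omega

end

end GR
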