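import Pool.Agent.Lib.GR.KmGood
import Pool.Agent.Lib.GR.Clique
import Pool.Agent.Lib.GR.Att3

/-!
# The clique tool

`D` a flat on `B` all of whose restrictions are good, `t ∈ B`.  `maxNs D t B` : the maximal cliques
of size at least five through `t` (with `t` removed), `nbr (B.erase t) D t` : the neighbours.
`rho = 3 + dim Mot (D - t) - dim Mot D` is the rank of the star of `t` modulo `D - t`.
-/

set_option linter.unusedSectionVars false

namespace GR

open Filter Module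

open scoped Matrix

variable {k : Type*} [Field k] {V : Type*} [DecidableEq V]

/-- Data of the clique tool: `J` the cliques (without `t`), `Nt` the neighbours of `t`, `ρ` an upper
bound for the rank of the star. -/
structure CT (J : Finset (Finset V)) (Nt : Finset V) (ρ : ℕ) : Prop where
  four : ∀ N ∈ J, 4 ≤ N.card
  sub : ∀ N ∈ J, N ⊆ Nt
  count : 2 ≤ J.card → 2 * ∑ N ∈ J, N.card + 4 ≤ 2 * (J.biUnion id).card + 3 * J.card
  rank : Nt.card + 3 * J.card ≤ ρ + ∑ N ∈ J, N.card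

theorem finrank_star_le {B : Finset V} {D : Finset (Sym2 V)} {p : V → Vec k} {t : V} (ht : t ∈ B)
    (hD : D ⊆ Kf B) (hp : GenPos p (B : Set V)) (hg : Good D p)
    {ρ : ℕ} (hρ : mdim (B.erase t) (D : Set (Sym2 V)) p + 3 ≤ ρ + mdim B (D : Set (Sym2 V)) p) :
    (nbr (B.erase t) (D : Set (Sym2 V)) t).card ≤ ρ + ∑ N ∈ maxNs D t B, (N.card - 3) := by
  have h0 : ∀ v ∈ B, p v ≠ 0 := by
    intro v hv
    have := hp {v} (by simpa using hv) (by simp)
    exact this.ne_zero ⟨v, by simp⟩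
  have h1 := finrank_Stress_eq (A := B) (E := D) (p := p) (fun e he => (mem_Kf.mp (hD he)).2) h0
  have hdel : del D t = rest D (B.erase t) := by
    ext e
    rw [mem_del, mem_rest]
    constructor
    · rintro ⟨h1, h2⟩
      refine ⟨h1, fun v hv => Finset.mem_erase.mpr ⟨?_, (mem_Kf.mp (hD h1)).2 v hv⟩⟩
      rintro rfl
      exact h2 hv
    · rintro ⟨h1, h2⟩
      exact ⟨h1, fun h => (Finset.mem_erase.mp (h2 t h)).1 rfl⟩
  have h2 := finrank_Stress_rest (W := B.erase t) D (p := p)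
    (fun v hv => h0 v (Finset.mem_of_mem_erase hv))
  have h3 := finrank_Stress_split D t p
  rw [hdel] at h3
  have h4 := finrank_map_Stress_le hD hp ht hg
  have h5 := card_rest_erase hD t
  have h6 := Finset.card_erase_add_one ht
  omega

theorem clique_tool {B : Finset V} {D : Finset (Sym2 V)} {p : V → Vec k} {t : V} (ht : t ∈ B)
    (hD : IsFlatIn B D p) (hp : GenPos p (B : Set V)) (hg : GoodAt B p)
    {ρ : ℕ} (hρ : mdim (B.erase t) (D : Set (Sym2 V)) p + 3 ≤ ρ + mdim B (D : Set (Sym2 V)) p) :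
    CT (maxNs D t B) (nbr (B.erase t) (D : Set (Sym2 V)) t) ρ := by
  have hmem : ∀ N ∈ maxNs D t B, MaxN D t N ∧ 4 ≤ N.card := fun N hN => (mem_maxNs hD.1).mp hN
  have hrest : rest D B = D := rest_self hD.1
  have hgD : Good D p := hg B subset_rfl D hD
  refine ⟨fun N hN => (hmem N hN).2, fun N hN => ?_, fun h2 => ?_, ?_⟩
  · intro w hw
    have h1 := (hmem N hN).1.prop
    have h2 := mem_of_clique h1.1 h1.2 hw
    have h3 := mk_mem_Kf.mp (hD.1 h2)
    exact mem_nbr.mpr ⟨Finset.mem_erase.mpr ⟨h3.1.symm, h3.2.2⟩, by exact_mod_cast h2⟩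
  · have h3 := count_int_in hD hD.1 hp ht (maxNs D t B) (fun N hN => (hmem N hN).1)
      (fun N hN => (by norm_num : 2 ≤ 4).trans (hmem N hN).2) h2 (hg _ ?_ _ (hD.rest ?_))
    · have h4 : ∑ N ∈ maxNs D t B, (2 * (N.card : ℤ) - 3)
          = 2 * ((∑ N ∈ maxNs D t B, N.card : ℕ) : ℤ) - 3 * ((maxNs D t B).card : ℤ) := by
        push_cast
        rw [Finset.sum_sub_distrib, Finset.mul_sum]
        simp [mul_comm]
      rw [h4] at h3
      omega
    · refine Finset.insert_subset ht fun w hw => ?_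
      obtain ⟨N, hN, hwN⟩ := Finset.mem_biUnion.mp hw
      exact (hmem N hN).1.subset hD.1 hwN
    · refine Finset.insert_subset ht fun w hw => ?_
      obtain ⟨N, hN, hwN⟩ := Finset.mem_biUnion.mp hw
      exact (hmem N hN).1.subset hD.1 hwN
  · have h1 := finrank_star_le ht hD.1 hp hgD hρ
    have h2 : ∑ N ∈ maxNs D t B, (N.card - 3) + 3 * (maxNs D t B).card
        = ∑ N ∈ maxNs D t B, N.card := by
      have h3 : ∑ N ∈ maxNs D t B, N.card = ∑ N ∈ maxNs D t B, ((N.card - 3) + 3) :=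
        Finset.sum_congr rfl fun N hN => by have := (hmem N hN).2; omega
      rw [h3, Finset.sum_add_distrib, Finset.sum_const, smul_eq_mul, mul_comm]
    omega

/-- The cliques are cliques. -/
lemma maxNs_clique {B : Finset V} {D : Finset (Sym2 V)} {t : V} (hD : D ⊆ Kf B) {N : Finset V}
    (hN : N ∈ maxNs D t B) : t ∉ N ∧ N ⊆ B ∧ Kf (insert t N) ⊆ D := by
  have h := (mem_maxNs hD).mp hN
  exact ⟨h.1.prop.1, h.1.subset hD, h.1.prop.2⟩

/-- A pair at `t` which carries a stress is covered by the cliques. -/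
theorem mem_biUnion_of_stress {B : Finset V} {D : Finset (Sym2 V)} {p : V → Vec k} {t : V}
    (ht : t ∈ B) (hD : IsFlatIn B D p) (hp : GenPos p (B : Set V)) (hg : GoodAt B p)
    {ω : Sym2 V → k} (hω : ω ∈ Stress D p) {x : V} (hx : ω s(t, x) ≠ 0) :
    x ∈ (maxNs D t B).biUnion id := by
  have h1 : starMap k t ω ∈ (Stress D p).map (starMap k t) := Submodule.mem_map_of_mem hω
  rw [map_Stress_eq hD.1 hp ht (hg B subset_rfl D hD)] at h1
  by_contra hx'
  have h2 : (⨆ N ∈ maxNs D t B, Dep p t N) ≤ LinearMap.ker (LinearMap.proj x : (V → k) →ₗ[k] k) := by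
    refine iSup₂_le fun N hN f hf => ?_
    rw [LinearMap.mem_ker]
    refine hf.1 x fun hxN => hx' ?_
    exact Finset.mem_biUnion.mpr ⟨N, hN, hxN⟩
  have h3 := h2 h1
  rw [LinearMap.mem_ker] at h3
  exact hx h3

section Counting

variable {J : Finset (Finset V)} {Nt : Finset V} {ρ : ℕ}

lemma CT.union_sub (h : CT J Nt ρ) : J.biUnion id ⊆ Nt :=
  Finset.biUnion_subset.mpr fun N hN => h.sub N hN

/-- number of uncovered neighbours -/
lemma CT.card_sdiff (h : CT J Nt ρ) :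
    (Nt \ J.biUnion id).card + (J.biUnion id).card = Nt.card :=
  Finset.card_sdiff_add_card_eq_card h.union_sub

lemma CT.two_le (h : CT J Nt ρ) (h2 : 2 ≤ J.card) :
    2 * (Nt \ J.biUnion id).card + 3 * J.card + 4 ≤ 2 * ρ := by
  have h1 := h.card_sdiff
  have h3 := h.count h2
  have h4 := h.rank
  omega

/-- points of a set `P` of neighbours which meets every clique in at most `c` points -/
lemma CT.card_le (_h : CT J Nt ρ) {P : Finset V} (hP : P ⊆ Nt) {c : ℕ}
    (hc : ∀ N ∈ J, (N ∩ P).card ≤ c) : P.card ≤ (Nt \ J.biUnion id).card + c * J.card := by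
  have h1 : P ⊆ (Nt \ J.biUnion id) ∪ J.biUnion fun N => N ∩ P := by
    intro x hx
    by_cases h2 : x ∈ J.biUnion id
    · obtain ⟨N, hN, hxN⟩ := Finset.mem_biUnion.mp h2
      exact Finset.mem_union_right _ (Finset.mem_biUnion.mpr
        ⟨N, hN, Finset.mem_inter.mpr ⟨hxN, hx⟩⟩)
    · exact Finset.mem_union_left _ (Finset.mem_sdiff.mpr ⟨hP hx, h2⟩)
  refine (Finset.card_le_card h1).trans ((Finset.card_union_le _ _).trans ?_)
  refine Nat.add_le_add_left ?_ _
  refine Finset.card_biUnion_le.trans ?_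
  rw [mul_comm, ← smul_eq_mul]
  exact Finset.sum_le_card_nsmul _ _ _ hc

/-- **Classification for `ρ ≤ 6`.** -/
theorem CT.classify (h : CT J Nt ρ) (hρ : ρ ≤ 6) {P : Finset V} (hP : P ⊆ Nt) (hP5 : P.card = 5)
    (hc : ∀ N ∈ J, (N ∩ P).card ≤ 2) (hne : (P ∩ J.biUnion id).Nonempty) :
    ρ = 6 ∧ ((∃ N, J = {N} ∧ (N ∩ P).card = 2 ∧ Nt \ N = P \ N) ∨
      ∃ N₁ N₂, N₁ ≠ N₂ ∧ J = {N₁, N₂} ∧ (N₁ ∩ N₂).card = 1 ∧ (N₁ ∩ P).card = 2 ∧
        (N₂ ∩ P).card = 2 ∧ N₁ ∩ N₂ ∩ P = ∅ ∧ ∃ z ∈ P, z ∉ N₁ ∧ z ∉ N₂ ∧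
          Nt \ (N₁ ∪ N₂) = {z}) := by
  have h1 := h.card_le hP hc
  have h2 := h.card_sdiff
  have h3 := h.rank
  have hPle : (P \ J.biUnion id).card ≤ (Nt \ J.biUnion id).card :=
    Finset.card_le_card (Finset.sdiff_subset_sdiff hP subset_rfl)
  rcases Nat.lt_or_ge J.card 2 with hJ | hJ
  · rcases Nat.lt_or_ge J.card 1 with hJ0 | hJ1
    · exfalso
      have : J = ∅ := Finset.card_eq_zero.mp (by omega)
      rw [this] at hne
      simp at hne
    · obtain ⟨N, rfl⟩ := Finset.card_eq_one.mp (by omega : J.card = 1)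
      simp only [Finset.card_singleton, Finset.sum_singleton, Finset.singleton_biUnion, id] at *
      have h4 := hc N (by simp)
      have h5 : (N ∩ P).card + (P \ N).card = P.card := by
        rw [Finset.inter_comm, Finset.card_inter_add_card_sdiff]
      refine ⟨by omega, Or.inl ⟨N, rfl, by omega, ?_⟩⟩
      refine (Finset.eq_of_subset_of_card_le (Finset.sdiff_subset_sdiff hP subset_rfl) ?_).symm
      omega
  · have h4 := h.two_le hJ
    have hJ2 : J.card = 2 := by omega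
    obtain ⟨N₁, N₂, hne', rfl⟩ := Finset.card_eq_two.mp hJ2
    have h5 := h.count (by rw [hJ2])
    have hU : ({N₁, N₂} : Finset (Finset V)).biUnion id = N₁ ∪ N₂ := by
      rw [Finset.biUnion_insert, Finset.singleton_biUnion]; rfl
    rw [hU] at h1 h2 h4 h5 hPle
    rw [Finset.sum_pair hne'] at h3 h5
    rw [hJ2] at h1 h3 h4 h5
    have h6 := Finset.card_union_add_card_inter N₁ N₂
    have hc1 := hc N₁ (by simp)
    have hc2 := hc N₂ (by simp)
    have hPu : P ⊆ (P \ (N₁ ∪ N₂)) ∪ ((N₁ ∩ P) ∪ (N₂ ∩ P)) := by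
      intro x hx
      simp only [Finset.mem_union, Finset.mem_sdiff, Finset.mem_inter]
      tauto
    have h7 := Finset.card_le_card hPu
    have h8 := Finset.card_union_le (P \ (N₁ ∪ N₂)) ((N₁ ∩ P) ∪ (N₂ ∩ P))
    have h9 := Finset.card_union_add_card_inter (N₁ ∩ P) (N₂ ∩ P)
    have h10 : (P \ (N₁ ∪ N₂)).card = 1 := by omega
    obtain ⟨z, hz⟩ := Finset.card_eq_one.mp h10
    have hz' : z ∈ P \ (N₁ ∪ N₂) := by rw [hz]; simp
    rw [Finset.mem_sdiff, Finset.mem_union, not_or] at hz'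
    refine ⟨by omega, Or.inr ⟨N₁, N₂, hne', rfl, by omega, by omega, by omega, ?_, z, hz'.1,
      hz'.2.1, hz'.2.2, ?_⟩⟩
    · have h11 : (N₁ ∩ P ∩ (N₂ ∩ P)).card = 0 := by omega
      rw [Finset.card_eq_zero] at h11
      rw [← h11]
      ext x
      simp only [Finset.mem_inter]
      tauto
    · rw [← hz]
      refine (Finset.eq_of_subset_of_card_le (Finset.sdiff_subset_sdiff hP subset_rfl) ?_).symm
      omega

/-- **Classification without merges.** -/
theorem CT.classify_one (h : CT J Nt ρ) {P : Finset V} (hP : P ⊆ Nt) (hP5 : P.card = 5)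
    (hc : ∀ N ∈ J, (N ∩ P).card ≤ 1) (hne : 2 ≤ (P ∩ J.biUnion id).card) :
    8 ≤ ρ ∧ (ρ = 8 → ∃ N₁ N₂, N₁ ≠ N₂ ∧ J = {N₁, N₂} ∧ (N₁ ∩ P).card = 1 ∧
        (N₂ ∩ P).card = 1 ∧ Nt \ (N₁ ∪ N₂) ⊆ P ∧ (P ∩ (N₁ ∪ N₂)).card = 2) := by
  have h1 := h.card_le hP hc
  have h2 := h.card_sdiff
  have h3 := h.rank
  have hPle : (P \ J.biUnion id).card ≤ (Nt \ J.biUnion id).card :=
    Finset.card_le_card (Finset.sdiff_subset_sdiff hP subset_rfl)
  have hcov : (P ∩ J.biUnion id).card ≤ J.card := by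
    have h4 : P ∩ J.biUnion id ⊆ J.biUnion fun N => N ∩ P := by
      intro x hx
      rw [Finset.mem_inter] at hx
      obtain ⟨N, hN, hxN⟩ := Finset.mem_biUnion.mp hx.2
      exact Finset.mem_biUnion.mpr ⟨N, hN, Finset.mem_inter.mpr ⟨hxN, hx.1⟩⟩
    refine (Finset.card_le_card h4).trans (Finset.card_biUnion_le.trans ?_)
    have := Finset.sum_le_card_nsmul J (fun N => (N ∩ P).card) 1 hc
    simpa using this
  have hJ : 2 ≤ J.card := by omega
  have h4 := h.two_le hJ
  refine ⟨by omega, fun hρ => ?_⟩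
  have hJ2 : J.card = 2 := by omega
  obtain ⟨N₁, N₂, hne', rfl⟩ := Finset.card_eq_two.mp hJ2
  have hU : ({N₁, N₂} : Finset (Finset V)).biUnion id = N₁ ∪ N₂ := by
    rw [Finset.biUnion_insert, Finset.singleton_biUnion]; rfl
  rw [hU] at h1 h2 h4 hPle hne hcov
  rw [hJ2] at h1 h3 h4 hcov
  have hc1 := hc N₁ (by simp)
  have hc2 := hc N₂ (by simp)
  have hPs := Finset.card_inter_add_card_sdiff P (N₁ ∪ N₂)
  have h5 : P ∩ (N₁ ∪ N₂) ⊆ (N₁ ∩ P) ∪ (N₂ ∩ P) := by
    intro x hx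
    simp only [Finset.mem_union, Finset.mem_inter] at hx ⊢
    tauto
  have h6 := (Finset.card_le_card h5).trans (Finset.card_union_le _ _)
  have h7 : Nt \ (N₁ ∪ N₂) = P \ (N₁ ∪ N₂) :=
    (Finset.eq_of_subset_of_card_le (Finset.sdiff_subset_sdiff hP subset_rfl) (by omega)).symm
  refine ⟨N₁, N₂, hne', rfl, by omega, by omega, ?_, by omega⟩
  rw [h7]
  exact Finset.sdiff_subset

/-- **Classification for `ρ ≤ 4`.** -/
theorem CT.classify_four (h : CT J Nt ρ) (hρ : ρ ≤ 4) :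
    (J = ∅ ∧ Nt.card ≤ ρ) ∨ ∃ N, J = {N} ∧ (Nt \ N).card + 3 ≤ ρ := by
  have h2 := h.card_sdiff
  have h3 := h.rank
  rcases Nat.lt_or_ge J.card 2 with hJ | hJ
  · rcases Nat.lt_or_ge J.card 1 with hJ0 | hJ1
    · left
      have : J = ∅ := Finset.card_eq_zero.mp (by omega)
      subst this
      simp at h3
      exact ⟨rfl, h3⟩
    · right
      obtain ⟨N, rfl⟩ := Finset.card_eq_one.mp (by omega : J.card = 1)
      simp only [Finset.card_singleton, Finset.sum_singleton, Finset.singleton_biUnion, id] at *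
      exact ⟨N, rfl, by omega⟩
  · exfalso
    have h4 := h.two_le hJ
    omega

end Counting

end GR
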