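import Pool.Agent.Lib.GR.Star

/-!
# The COUNT for the maximal cliques of a flat through a vertex
-/

set_option linter.unusedSectionVars false
set_option linter.style.haveILetI false

namespace GR

open Filter Module

open scoped Matrix

variable {k : Type*} [Field k] {V : Type*} [DecidableEq V]

lemma finrank_biSup_le {ι M : Type*} [AddCommGroup M] [Module k M] (s : Finset ι)
    (S : ι → Submodule k M) [∀ i, FiniteDimensional k (S i)] :
    FiniteDimensional k (⨆ i ∈ s, S i : Submodule k M) ∧
      finrank k (⨆ i ∈ s, S i : Submodule k M) ≤ ∑ i ∈ s, finrank k (S i) := by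
  classical
  induction s using Finset.induction_on with
  | empty =>
    have h : (⨆ i ∈ (∅ : Finset ι), S i : Submodule k M) = ⊥ := by simp
    rw [h]
    exact ⟨inferInstance, by simp⟩
  | insert a s ha ih =>
    obtain ⟨ih1, ih2⟩ := ih
    rw [Finset.iSup_insert, Finset.sum_insert ha]
    refine ⟨inferInstance, ?_⟩
    exact (Submodule.finrank_add_le_finrank_add_finrank _ _).trans (Nat.add_le_add_left ih2 _)

/-- `insert v N` is a maximal clique of `D`. -/
def MaxN (D : Finset (Sym2 V)) (v : V) (N : Finset V) : Prop :=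
  Maximal (fun N : Finset V => v ∉ N ∧ Kf (insert v N) ⊆ D) N

lemma mem_of_clique {D : Finset (Sym2 V)} {v w : V} {N : Finset V} (hv : v ∉ N)
    (hN : Kf (insert v N) ⊆ D) (hw : w ∈ N) : s(v, w) ∈ D := by
  apply hN
  rw [mk_mem_Kf]
  refine ⟨?_, by simp, by simp [hw]⟩
  rintro rfl
  exact hv hw

lemma exists_MaxN {D : Finset (Sym2 V)} {v : V} {A N : Finset V} (hA : D ⊆ Kf A) (hv : v ∉ N)
    (hN : Kf (insert v N) ⊆ D) : ∃ N', N ⊆ N' ∧ N' ⊆ A ∧ MaxN D v N' := by
  classical
  have hfin : {N : Finset V | v ∉ N ∧ Kf (insert v N) ⊆ D}.Finite := by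
    refine Set.Finite.subset (Finset.finite_toSet A.powerset) ?_
    rintro N ⟨h1, h2⟩
    rw [Finset.mem_coe, Finset.mem_powerset]
    intro w hw
    exact (mk_mem_Kf.mp (hA (mem_of_clique h1 h2 hw))).2.2
  obtain ⟨N', h1, h2⟩ := hfin.exists_le_maximal (a := N) ⟨hv, hN⟩
  refine ⟨N', h1, ?_, h2⟩
  intro w hw
  exact (mk_mem_Kf.mp (hA (mem_of_clique h2.prop.1 h2.prop.2 hw))).2.2

lemma MaxN.subset {D : Finset (Sym2 V)} {v : V} {A N : Finset V} (hA : D ⊆ Kf A)
    (h : MaxN D v N) : N ⊆ A := fun _ hw =>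
  (mk_mem_Kf.mp (hA (mem_of_clique h.prop.1 h.prop.2 hw))).2.2

lemma MaxN.eq_of_two {D : Finset (Sym2 V)} {p : V → Vec k} (hD : IsFlat D p) {v : V}
    {A N N' : Finset V} (hA : D ⊆ Kf A) (hp : GenPos p (A : Set V)) (hv : v ∈ A)
    (hN : MaxN D v N) (hN' : MaxN D v N') (h2 : 2 ≤ (N ∩ N').card) : N = N' := by
  have hsub : (insert v N ∪ insert v N' : Finset V) ⊆ A := by
    refine Finset.union_subset ?_ ?_
    · exact Finset.insert_subset hv (hN.subset hA)
    · exact Finset.insert_subset hv (hN'.subset hA)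
  have h3 : 3 ≤ (insert v N ∩ insert v N').card := by
    rw [← Finset.insert_inter_distrib, Finset.card_insert_of_notMem]
    · omega
    · intro h
      exact hN.prop.1 (Finset.mem_inter.mp h).1
  have hm := hD.merge (hp.mono (by exact_mod_cast hsub)) h3 hN.prop.2 hN'.prop.2
  have hU : insert v N ∪ insert v N' = insert v (N ∪ N') := by
    ext x
    simp only [Finset.mem_union, Finset.mem_insert]
    tauto
  rw [hU] at hm
  have hvU : v ∉ N ∪ N' := by
    rw [Finset.mem_union, not_or]
    exact ⟨hN.prop.1, hN'.prop.1⟩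
  have e1 := hN.eq_of_le ⟨hvU, hm⟩ Finset.subset_union_left
  have e2 := hN'.eq_of_le ⟨hvU, hm⟩ Finset.subset_union_right
  exact e1.trans e2.symm

/-- **COUNT.** -/
theorem count {D : Finset (Sym2 V)} {p : V → Vec k} (hD : IsFlat D p) {v : V}
    {A : Finset V} (hA : D ⊆ Kf A) (hp : GenPos p (A : Set V)) (hv : v ∈ A)
    (J : Finset (Finset V)) (hJ : ∀ N ∈ J, MaxN D v N) (hJ2 : ∀ N ∈ J, 2 ≤ N.card)
    (hcard : 2 ≤ J.card) (hgood : Good (rest D (insert v (J.biUnion id))) p) :
    ∑ N ∈ J, (2 * N.card - 3) + 4 ≤ 2 * (J.biUnion id).card := by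
  classical
  set W := J.biUnion id with hW
  set D' := rest D (insert v W) with hD'def
  have hNW : ∀ N ∈ J, N ⊆ W := fun N hN => Finset.subset_biUnion_of_mem id hN
  have hWA : W ⊆ A := by
    intro w hw
    obtain ⟨N, hN, hwN⟩ := Finset.mem_biUnion.mp hw
    exact (hJ N hN).subset hA hwN
  have hvW : v ∉ W := by
    intro h
    obtain ⟨N, hN, hwN⟩ := Finset.mem_biUnion.mp h
    exact (hJ N hN).prop.1 hwN
  have hD'flat : IsFlat D' p := hD.rest hA hp _
  have hD'sub : D' ⊆ Kf (insert v W) := rest_subset_Kf hD.1 _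
  have hD'D : D' ⊆ D := rest_subset _ _
  have hpW : GenPos p ((insert v W : Finset V) : Set V) :=
    hp.mono (by exact_mod_cast Finset.insert_subset hv hWA)
  have hadj : ∀ w ∈ W, s(v, w) ∈ D' := by
    intro w hw
    obtain ⟨N, hN, hwN⟩ := Finset.mem_biUnion.mp hw
    rw [hD'def, mem_rest]
    refine ⟨mem_of_clique (hJ N hN).prop.1 (hJ N hN).prop.2 hwN, ?_⟩
    intro x hx
    rw [Sym2.mem_iff] at hx
    rcases hx with rfl | rfl
    · simp
    · simp [hw]
  -- the maximal cliques of `D'` through `v`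
  set I : Finset (Finset V) := W.powerset.filter (fun N => MaxN D' v N) with hI
  have hImax : ∀ N ∈ I, MaxN D' v N := fun N hN => (Finset.mem_filter.mp hN).2
  have hIW : ∀ N ∈ I, N ⊆ W := fun N hN => Finset.mem_powerset.mp (Finset.mem_filter.mp hN).1
  have hJI : J ⊆ I := by
    intro N hN
    rw [hI, Finset.mem_filter, Finset.mem_powerset]
    refine ⟨hNW N hN, ⟨(hJ N hN).prop.1, ?_⟩, ?_⟩
    · exact Kf_subset_rest (hJ N hN).prop.2 (Finset.insert_subset_insert v (hNW N hN))
    · rintro N' ⟨h1, h2⟩ hle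
      exact (hJ N hN).le_of_ge ⟨h1, h2.trans hD'D⟩ hle
  -- every clique lies in a maximal one
  have hext : ∀ N, v ∉ N → Kf (insert v N) ⊆ D' → ∃ N' ∈ I, N ⊆ N' := by
    intro N h1 h2
    obtain ⟨N', h3, h4, h5⟩ := exists_MaxN hD'sub h1 h2
    refine ⟨N', ?_, h3⟩
    rw [hI, Finset.mem_filter, Finset.mem_powerset]
    refine ⟨?_, h5⟩
    intro w hw
    exact (Finset.mem_insert.mp (h4 hw)).resolve_left (fun h => h5.prop.1 (h ▸ hw))
  have hI2 : ∀ N ∈ I, 2 ≤ N.card := by
    intro N hN
    by_contra hlt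
    -- `N` is contained in a member of `J`
    have hJne : J.Nonempty := Finset.card_pos.mp (by omega)
    obtain ⟨N0, hN0, hNN0⟩ : ∃ N0 ∈ J, N ⊆ N0 := by
      rcases Finset.eq_empty_or_nonempty N with rfl | ⟨w, hw⟩
      · obtain ⟨N0, hN0⟩ := hJne
        exact ⟨N0, hN0, Finset.empty_subset _⟩
      · have hwW := hIW N hN hw
        obtain ⟨N0, hN0, hwN0⟩ := Finset.mem_biUnion.mp hwW
        refine ⟨N0, hN0, ?_⟩
        have hc1 : N.card = 1 := by
          have : 0 < N.card := Finset.card_pos.mpr ⟨w, hw⟩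
          omega
        obtain ⟨w', hw'⟩ := Finset.card_eq_one.mp hc1
        subst hw'
        rw [Finset.mem_singleton] at hw
        subst hw
        simpa using hwN0
    have := (hImax N hN).eq_of_le (hImax N0 (hJI hN0)).prop hNN0
    have := hJ2 N0 hN0
    simp_all
  have hdisj : ∀ N ∈ I, ∀ N' ∈ I, N ≠ N' → Disjoint (Kf N) (Kf N') := by
    intro N hN N' hN' hne
    rw [Finset.disjoint_left]
    intro e he he'
    apply hne
    refine (hImax N hN).eq_of_two hD'flat hD'sub hpW (by simp) (hImax N' hN') ?_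
    induction e with
    | h a b =>
      rw [mk_mem_Kf] at he he'
      have : ({a, b} : Finset V) ⊆ N ∩ N' := by
        intro x hx
        simp only [Finset.mem_insert, Finset.mem_singleton] at hx
        rw [Finset.mem_inter]
        rcases hx with rfl | rfl
        · exact ⟨he.2.1, he'.2.1⟩
        · exact ⟨he.2.2, he'.2.2⟩
      have h2 := Finset.card_le_card this
      rwa [Finset.card_pair he.1] at h2
  -- the stresses
  have hstress : Stress D' p ≤ ⨆ N ∈ I, Stress (Kf (insert v N)) p := by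
    refine hgood.trans ?_
    unfold S5
    refine iSup_le ?_
    rintro ⟨C, hC5, hCD⟩
    have hCW : C ⊆ insert v W := by
      intro x hx
      obtain ⟨y, hy, hxy⟩ : ∃ y ∈ C, x ≠ y := by
        by_contra hcon
        push Not at hcon
        have : C ⊆ {x} := fun y hy => by rw [Finset.mem_singleton]; exact (hcon y hy).symm
        have := Finset.card_le_card this
        rw [hC5] at this
        simp at this
      have := hCD (mk_mem_Kf.mpr ⟨hxy, hx, hy⟩)
      exact (mk_mem_Kf.mp (hD'sub this)).2.1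
    have hCv : v ∉ C.erase v := by simp
    have hcl : Kf (insert v (C.erase v)) ⊆ D' := by
      intro e he
      induction e with
      | h a b =>
        rw [mk_mem_Kf] at he
        obtain ⟨hab, ha, hb⟩ := he
        simp only [Finset.mem_insert, Finset.mem_erase] at ha hb
        by_cases hav : a = v
        · subst hav
          have hb' := hb.resolve_left (fun h => hab h.symm)
          exact hadj b ((Finset.mem_insert.mp (hCW hb'.2)).resolve_left hb'.1)
        · have ha' := ha.resolve_left hav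
          by_cases hbv : b = v
          · subst hbv
            rw [Sym2.eq_swap]
            exact hadj a ((Finset.mem_insert.mp (hCW ha'.2)).resolve_left ha'.1)
          · have hb' := hb.resolve_left hbv
            exact hCD (mk_mem_Kf.mpr ⟨hab, ha'.2, hb'.2⟩)
    obtain ⟨N, hN, hCN⟩ := hext _ hCv hcl
    have hCsub : C ⊆ insert v N := by
      intro x hx
      by_cases hxv : x = v
      · subst hxv; simp
      · exact Finset.mem_insert_of_mem (hCN (Finset.mem_erase.mpr ⟨hxv, hx⟩))
    exact (Stress_mono (Kf_mono hCsub) p).trans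
      (le_iSup₂ (f := fun N (_ : N ∈ I) => Stress (Kf (insert v N)) p) N hN)
  have hfr : finrank k (Stress D' p) ≤ ∑ N ∈ I, (N.card - 2).choose 2 := by
    obtain ⟨hfd, hle⟩ := finrank_biSup_le (k := k) I (fun N => Stress (Kf (insert v N)) p)
    refine (Submodule.finrank_mono hstress).trans (hle.trans ?_)
    refine Finset.sum_le_sum fun N hN => ?_
    have hvN : v ∉ N := (hImax N hN).prop.1
    have := finrank_Stress_Kf_le (p := p) (insert v N)
      (hpW.mono (by exact_mod_cast Finset.insert_subset_insert v (hIW N hN)))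
    rw [Finset.card_insert_of_notMem hvN] at this
    exact this
  -- the number of edges
  have hedges : W.card + ∑ N ∈ I, N.card.choose 2 ≤ D'.card := by
    have h1 : (W.image (fun w => s(v, w))).card = W.card := by
      refine Finset.card_image_of_injOn ?_
      intro a ha b hb hab
      have : a = b ∨ v = b ∧ a = v := by simpa using hab
      rcases this with h | ⟨h1, h2⟩
      · exact h
      · exact h2.trans h1
    have h2 : (I.biUnion Kf).card = ∑ N ∈ I, N.card.choose 2 := by
      rw [Finset.card_biUnion hdisj]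
      exact Finset.sum_congr rfl fun N _ => card_Kf N
    rw [← h1, ← h2, ← Finset.card_union_of_disjoint]
    · refine Finset.card_le_card (Finset.union_subset ?_ ?_)
      · intro e he
        obtain ⟨w, hw, rfl⟩ := Finset.mem_image.mp he
        exact hadj w hw
      · intro e he
        obtain ⟨N, hN, heN⟩ := Finset.mem_biUnion.mp he
        exact (hImax N hN).prop.2 (Kf_mono (Finset.subset_insert v N) heN)
    · rw [Finset.disjoint_left]
      intro e he he'
      obtain ⟨w, hw, rfl⟩ := Finset.mem_image.mp he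
      obtain ⟨N, hN, heN⟩ := Finset.mem_biUnion.mp he'
      exact hvW (hIW N hN (mk_mem_Kf.mp heN).2.1)
  -- the rank
  have hrk : rk (D' : Set (Sym2 V)) p + 7 ≤ 3 * (W.card + 1) := by
    have hne : ∃ e ∈ Kf (insert v W), e ∉ D' := by
      by_contra hcon
      push Not at hcon
      obtain ⟨N1, hN1, N2, hN2, hne⟩ := Finset.one_lt_card.mp (show 1 < J.card by omega)
      have hWcl : v ∉ W ∧ Kf (insert v W) ⊆ D := ⟨hvW, fun e he => hD'D (hcon e he)⟩
      have e1 := (hJ N1 hN1).eq_of_le hWcl (hNW N1 hN1)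
      have e2 := (hJ N2 hN2).eq_of_le hWcl (hNW N2 hN2)
      exact hne (e1.trans e2.symm)
    obtain ⟨e, he, heD'⟩ := hne
    have hecl : e ∉ clo (D' : Set (Sym2 V)) p := fun h =>
      heD' (hD'flat.2 e (mem_Kf.mp he).1 h)
    have h1 := rk_insert_of_notMem_clo D' e p hecl
    have h2 := rk_mono (p := p) (Finset.insert_subset he hD'sub)
    have hW2 : 2 ≤ W.card := by
      obtain ⟨N, hN⟩ := Finset.card_pos.mp (show 0 < J.card by omega)
      exact (hJ2 N hN).trans (Finset.card_le_card (hNW N hN))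
    have h3 := rk_Kf_le (insert v W) hpW (by rw [Finset.card_insert_of_notMem hvW]; omega)
    rw [Finset.card_insert_of_notMem hvW] at h3
    omega
  have htot := rk_add_stress D' p
  have hchoose : ∀ N ∈ I, N.card.choose 2 = (N.card - 2).choose 2 + (2 * N.card - 3) := by
    intro N hN
    obtain ⟨m, hm⟩ := Nat.exists_eq_add_of_le (hI2 N hN)
    rw [hm]
    have e1 : 2 + m - 2 = m := by omega
    have e2 : 2 * (2 + m) - 3 = 2 * m + 1 := by omega
    rw [e1, e2, show 2 + m = m + 1 + 1 by omega, Nat.choose_succ_succ' (m + 1) 1,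
      Nat.choose_succ_succ' m 1, Nat.choose_one_right, Nat.choose_one_right]
    have : m.choose (1 + 1) = m.choose 2 := rfl
    omega
  have hsum : ∑ N ∈ I, N.card.choose 2 = ∑ N ∈ I, (N.card - 2).choose 2
      + ∑ N ∈ I, (2 * N.card - 3) := by
    rw [← Finset.sum_add_distrib]
    exact Finset.sum_congr rfl hchoose
  have hJle : ∑ N ∈ J, (2 * N.card - 3) ≤ ∑ N ∈ I, (2 * N.card - 3) :=
    Finset.sum_le_sum_of_subset hJI
  omega

/-- COUNT over the integers -/
theorem count_int {D : Finset (Sym2 V)} {p : V → Vec k} (hD : IsFlat D p) {v : V}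
    {A : Finset V} (hA : D ⊆ Kf A) (hp : GenPos p (A : Set V)) (hv : v ∈ A)
    (J : Finset (Finset V)) (hJ : ∀ N ∈ J, MaxN D v N) (hJ2 : ∀ N ∈ J, 2 ≤ N.card)
    (hcard : 2 ≤ J.card) (hgood : Good (rest D (insert v (J.biUnion id))) p) :
    ∑ N ∈ J, (2 * (N.card : ℤ) - 3) + 4 ≤ 2 * ((J.biUnion id).card : ℤ) := by
  have h := count hD hA hp hv J hJ hJ2 hcard hgood
  have h1 : ∑ N ∈ J, (2 * (N.card : ℤ) - 3) = ((∑ N ∈ J, (2 * N.card - 3) : ℕ) : ℤ) := by
    push_cast
    refine Finset.sum_congr rfl fun N hN => ?_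
    have := hJ2 N hN
    omega
  rw [h1]
  exact_mod_cast h

end GR
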