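import Pool.Agent.Lib.GR.Gen

/-!
# Motions of bar-joint frameworks in homogeneous coordinates

Points and covectors are vectors `Fin 4 → k`.  A framework is `p : V → Vec k`, a motion is
`Z : V → Vec k`.  `Mot A E p` : motions supported on the finite vertex set `A`, with
`Z v ⬝ᵥ p v = 0` and `Z a ⬝ᵥ p b + Z b ⬝ᵥ p a = 0` on the edges of `E` INSIDE `A`.
So the graph `G - X` is `Mot (A \ X) E p` with the same `E`.
-/

set_option linter.unusedSectionVars false

namespace GR

open Filter Module

open scoped Matrix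

/-- Homogeneous vectors and covectors. -/
abbrev Vec (k : Type*) := Fin 4 → k

variable {k : Type*} [Field k] {V : Type*}

/-- The strain of the pair `a b`, as a linear functional of the motion. -/
def eps (p : V → Vec k) (a b : V) : (V → Vec k) →ₗ[k] k where
  toFun Z := Z a ⬝ᵥ p b + Z b ⬝ᵥ p a
  map_add' Z Z' := by simp only [Pi.add_apply, add_dotProduct]; ring
  map_smul' c Z := by
    simp only [Pi.smul_apply, smul_dotProduct, smul_eq_mul, RingHom.id_apply]; ring

lemma eps_apply (p Z : V → Vec k) (a b : V) : eps p a b Z = Z a ⬝ᵥ p b + Z b ⬝ᵥ p a := rfl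

lemma eps_comm (p : V → Vec k) (a b : V) : eps p a b = eps p b a := by
  ext Z; simp only [eps_apply]; ring

/-- The strain functional of an unordered pair. -/
def epsS (p : V → Vec k) : Sym2 V → ((V → Vec k) →ₗ[k] k) :=
  Sym2.lift ⟨eps p, eps_comm p⟩

@[simp] lemma epsS_mk (p : V → Vec k) (a b : V) : epsS p s(a, b) = eps p a b := rfl

/-- The loop functional `Z v ⬝ᵥ p v`. -/
def loopF (p : V → Vec k) (v : V) : (V → Vec k) →ₗ[k] k where
  toFun Z := Z v ⬝ᵥ p v
  map_add' Z Z' := by simp [add_dotProduct]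
  map_smul' c Z := by simp

@[simp] lemma loopF_apply (p Z : V → Vec k) (v : V) : loopF p v Z = Z v ⬝ᵥ p v := rfl

/-- All `Z` satisfying the loop conditions. -/
def Mot0 (p : V → Vec k) : Submodule k (V → Vec k) where
  carrier := {Z | ∀ v, Z v ⬝ᵥ p v = 0}
  add_mem' := by intro a b ha hb v; simp [add_dotProduct, ha v, hb v]
  zero_mem' := by intro v; simp
  smul_mem' := by intro c Z hZ v; simp [hZ v]

/-- The space of functions supported on `A`. -/
def Supp (k : Type*) [Field k] (A : Finset V) : Submodule k (V → Vec k) where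
  carrier := {Z | ∀ v, v ∉ A → Z v = 0}
  add_mem' := by intro a b ha hb v hv; simp [ha v hv, hb v hv]
  zero_mem' := by intro v _; rfl
  smul_mem' := by intro c Z hZ v hv; simp [hZ v hv]

/-- **Motions** of the graph `(A, E ∩ pairs of A)` at `p`, supported on `A`.  Contains the
six-dimensional space of trivial motions. -/
def Mot (A : Finset V) (E : Set (Sym2 V)) (p : V → Vec k) : Submodule k (V → Vec k) where
  carrier := {Z | (∀ v, v ∉ A → Z v = 0) ∧ (∀ v ∈ A, Z v ⬝ᵥ p v = 0) ∧
    ∀ a ∈ A, ∀ b ∈ A, s(a, b) ∈ E → eps p a b Z = 0}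
  add_mem' := by
    rintro Z Z' ⟨h1, h2, h3⟩ ⟨h1', h2', h3'⟩
    refine ⟨fun v hv => by simp [h1 v hv, h1' v hv], fun v hv => ?_, fun a ha b hb hab => ?_⟩
    · simp [add_dotProduct, h2 v hv, h2' v hv]
    · rw [map_add, h3 a ha b hb hab, h3' a ha b hb hab, add_zero]
  zero_mem' := ⟨fun _ _ => rfl, fun _ _ => by simp, fun _ _ _ _ _ => map_zero _⟩
  smul_mem' := by
    rintro c Z ⟨h1, h2, h3⟩
    refine ⟨fun v hv => by simp [h1 v hv], fun v hv => ?_, fun a ha b hb hab => ?_⟩
    · simp [h2 v hv]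
    · rw [map_smul, h3 a ha b hb hab, smul_zero]

lemma mem_Mot {A : Finset V} {E : Set (Sym2 V)} {p Z : V → Vec k} :
    Z ∈ Mot A E p ↔ (∀ v, v ∉ A → Z v = 0) ∧ (∀ v ∈ A, Z v ⬝ᵥ p v = 0) ∧
      ∀ a ∈ A, ∀ b ∈ A, s(a, b) ∈ E → eps p a b Z = 0 := Iff.rfl

lemma Mot_le_Supp (A : Finset V) (E : Set (Sym2 V)) (p : V → Vec k) :
    Mot A E p ≤ Supp k A := fun _ h => h.1

lemma Mot_le_Mot0 (A : Finset V) (E : Set (Sym2 V)) (p : V → Vec k) :
    Mot A E p ≤ Mot0 p := by
  intro Z h v
  by_cases hv : v ∈ A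
  · exact h.2.1 v hv
  · simp [h.1 v hv]

lemma Mot_anti {A : Finset V} {E E' : Set (Sym2 V)} (h : E ⊆ E') (p : V → Vec k) :
    Mot A E' p ≤ Mot A E p := fun _ hZ => ⟨hZ.1, hZ.2.1, fun a ha b hb hab =>
      hZ.2.2 a ha b hb (h hab)⟩

instance Supp_finiteDimensional (A : Finset V) : FiniteDimensional k (Supp k A) := by
  let f : Supp k A →ₗ[k] (A → Vec k) :=
    { toFun := fun Z v => Z.1 v
      map_add' := fun _ _ => rfl
      map_smul' := fun _ _ => rfl }
  refine FiniteDimensional.of_injective f ?_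
  intro Z Z' h
  ext v : 2
  by_cases hv : v ∈ A
  · exact congrFun h ⟨v, hv⟩
  · rw [Z.2 v hv, Z'.2 v hv]

instance Mot_finiteDimensional (A : Finset V) (E : Set (Sym2 V)) (p : V → Vec k) :
    FiniteDimensional k (Mot A E p) :=
  Submodule.finiteDimensional_of_le (Mot_le_Supp A E p)

/-- The dimension of the space of motions (trivial motions included). -/
noncomputable def mdim (A : Finset V) (E : Set (Sym2 V)) (p : V → Vec k) : ℕ :=
  finrank k (Mot A E p)

/-- The generic dimension of the space of motions. -/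
noncomputable def gdim (k : Type*) [Field k] {V : Type*} (A : Finset V) (E : Set (Sym2 V)) : ℕ :=
  sInf (Set.range fun p : V → Vec k => mdim A E p)

/-- All pairs of distinct vertices of a set `N` (complete graph). -/
def KK (N : Set V) : Set (Sym2 V) := {e | ¬ e.IsDiag ∧ ∀ v ∈ e, v ∈ N}

lemma mk_mem_KK {N : Set V} {a b : V} : s(a, b) ∈ KK N ↔ a ≠ b ∧ a ∈ N ∧ b ∈ N := by
  simp [KK]

/-- The star with centre `u` and leaves `N`. -/
def star (u : V) (N : Set V) : Set (Sym2 V) := {e | ∃ v ∈ N, e = s(u, v)}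

/-- The space of functionals spanned by the strains of the pairs in `S` on a space of motions. -/
def strainSpan (M : Submodule k (V → Vec k)) (S : Set (Sym2 V)) (p : V → Vec k) :
    Submodule k (Dual k M) :=
  Submodule.span k ((fun e => (epsS p e).domRestrict M) '' S)

/-- `dim K(F)|_N` : rank of the strains of the pairs of `N` on a space of motions. -/
noncomputable def rkOn (M : Submodule k (V → Vec k)) (N : Set V) (p : V → Vec k) : ℕ :=
  finrank k (strainSpan M (KK N) p)

/-- `N` moves rigidly on the space `M` of motions. -/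
def RigidOn (M : Submodule k (V → Vec k)) (N : Set V) (p : V → Vec k) : Prop :=
  ∀ a ∈ N, ∀ b ∈ N, ∀ Z ∈ M, eps p a b Z = 0

/-- The motions `Z` to which a new vertex at `x` can be attached with neighbours `N`. -/
def Att (p : V → Vec k) (N : Set V) (x : Vec k) : Submodule k (V → Vec k) where
  carrier := {Z | ∃ z : Vec k, z ⬝ᵥ x = 0 ∧ ∀ v ∈ N, z ⬝ᵥ p v + Z v ⬝ᵥ x = 0}
  add_mem' := by
    rintro Z Z' ⟨z, h1, h2⟩ ⟨z', h1', h2'⟩
    refine ⟨z + z', by rw [add_dotProduct, h1, h1', add_zero], fun v hv => ?_⟩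
    have e1 := h2 v hv
    have e2 := h2' v hv
    simp only [add_dotProduct, Pi.add_apply]
    linear_combination e1 + e2
  zero_mem' := ⟨0, by simp, fun v _ => by simp⟩
  smul_mem' := by
    rintro c Z ⟨z, h1, h2⟩
    refine ⟨c • z, by rw [smul_dotProduct, h1, smul_zero], fun v hv => ?_⟩
    have e1 := h2 v hv
    simp only [smul_dotProduct, Pi.smul_apply, smul_eq_mul]
    linear_combination c * e1

/-- General position of the points of `N` : any (at most) four of them are independent. -/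
def GenPos (p : V → Vec k) (N : Set V) : Prop :=
  ∀ T : Finset V, (T : Set V) ⊆ N → T.card ≤ 4 → LinearIndependent k (fun v : T => p v)

/-- The stresses of the finite graph `E` at `p`: functions on pairs, supported on `E`, with
`∑ ω e ε_e = 0` on all `Z` satisfying the loop conditions. -/
def Stress (E : Finset (Sym2 V)) (p : V → Vec k) : Submodule k (Sym2 V → k) where
  carrier := {ω | (∀ e, e ∉ E → ω e = 0) ∧ ∀ Z ∈ Mot0 p, ∑ e ∈ E, ω e * epsS p e Z = 0}
  add_mem' := by
    rintro ω ω' ⟨h1, h2⟩ ⟨h1', h2'⟩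
    refine ⟨fun e he => by simp [h1 e he, h1' e he], fun Z hZ => ?_⟩
    simp only [Pi.add_apply, add_mul, Finset.sum_add_distrib, h2 Z hZ, h2' Z hZ, add_zero]
  zero_mem' := ⟨fun _ _ => rfl, fun _ _ => by simp⟩
  smul_mem' := by
    rintro c ω ⟨h1, h2⟩
    refine ⟨fun e he => by simp [h1 e he], fun Z hZ => ?_⟩
    simp only [Pi.smul_apply, smul_eq_mul, mul_assoc, ← Finset.mul_sum, h2 Z hZ, mul_zero]

/-- Rank of the finite graph `E` at `p`. -/
noncomputable def rk (E : Set (Sym2 V)) (p : V → Vec k) : ℕ :=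
  finrank k (strainSpan (Mot0 p) E p)

/-- Closure of the graph `E` at `p` (pairs which are rigid on all motions). -/
def clo (E : Set (Sym2 V)) (p : V → Vec k) : Set (Sym2 V) :=
  {e | (epsS p e).domRestrict (Mot0 p) ∈ strainSpan (Mot0 p) E p}

end GR
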