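import Pool.Agent.Lib.GR.Attach2

/-!
# Trivial motions, dimension without edges, rank versus dimension, complete graphs
-/

set_option linter.unusedSectionVars false

namespace GR

open Filter Module

open scoped Matrix

variable {k : Type*} [Field k] {V : Type*}

/-- skew matrices with zero diagonal -/
def Skew (k : Type*) [Field k] : Submodule k (Matrix (Fin 4) (Fin 4) k) where
  carrier := {L | (∀ i, L i i = 0) ∧ ∀ i j, L i j = - L j i}
  add_mem' := by
    rintro a b ⟨h1, h2⟩ ⟨h3, h4⟩
    exact ⟨fun i => by simp [h1, h3], fun i j => by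
      rw [Matrix.add_apply, Matrix.add_apply, h2 i j, h4 i j]; ring⟩
  zero_mem' := ⟨fun _ => rfl, fun _ _ => by simp⟩
  smul_mem' := by
    rintro c a ⟨h1, h2⟩
    exact ⟨fun i => by simp [h1], fun i j => by
      rw [Matrix.smul_apply, Matrix.smul_apply, h2 i j]; simp⟩

lemma Skew.dot_eq {L : Matrix (Fin 4) (Fin 4) k} (hL : L ∈ Skew k) (x y : Vec k) :
    (L *ᵥ x) ⬝ᵥ y = - ((L *ᵥ y) ⬝ᵥ x) := by
  obtain ⟨h1, h2⟩ := hL
  simp only [dotProduct, Matrix.mulVec, Fin.sum_univ_four, h1]
  rw [h2 1 0, h2 2 0, h2 3 0, h2 2 1, h2 3 1, h2 3 2]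
  ring

lemma Skew.dot_self {L : Matrix (Fin 4) (Fin 4) k} (hL : L ∈ Skew k) (x : Vec k) :
    (L *ᵥ x) ⬝ᵥ x = 0 := by
  obtain ⟨h1, h2⟩ := hL
  simp only [dotProduct, Matrix.mulVec, Fin.sum_univ_four, h1]
  rw [h2 1 0, h2 2 0, h2 3 0, h2 2 1, h2 3 1, h2 3 2]
  ring

lemma Skew.mem_of_transpose {L : Matrix (Fin 4) (Fin 4) k} (h2 : (2 : k) ≠ 0)
    (h : Lᵀ = - L) : L ∈ Skew k := by
  have h3 : ∀ i j, L i j = - L j i := by
    intro i j
    have := congrFun (congrFun h j) i
    simpa using this
  refine ⟨fun i => ?_, h3⟩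
  have := h3 i i
  have : (2 : k) * L i i = 0 := by linear_combination this
  exact (mul_eq_zero.mp this).resolve_left h2

/-- a skew matrix from six numbers -/
def skewOf (c : Fin 6 → k) : Matrix (Fin 4) (Fin 4) k :=
  !![0, c 0, c 1, c 2; -c 0, 0, c 3, c 4; -c 1, -c 3, 0, c 5; -c 2, -c 4, -c 5, 0]

lemma skewOf_mem (c : Fin 6 → k) : skewOf c ∈ Skew k := by
  constructor
  · intro i; fin_cases i <;> rfl
  · intro i j
    fin_cases i <;> fin_cases j <;> simp [skewOf]

/-- the six coordinates of a skew matrix -/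
def skewCoord (L : Matrix (Fin 4) (Fin 4) k) : Fin 6 → k :=
  ![L 0 1, L 0 2, L 0 3, L 1 2, L 1 3, L 2 3]

lemma skewOf_skewCoord {L : Matrix (Fin 4) (Fin 4) k} (hL : L ∈ Skew k) :
    skewOf (skewCoord L) = L := by
  obtain ⟨h1, h2⟩ := hL
  have e10 := h2 1 0
  have e20 := h2 2 0
  have e21 := h2 2 1
  have e30 := h2 3 0
  have e31 := h2 3 1
  have e32 := h2 3 2
  apply Matrix.ext
  intro i j
  fin_cases i <;> fin_cases j
  · exact (h1 0).symm
  · rfl
  · rfl
  · rfl
  · exact e10.symm
  · exact (h1 1).symm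
  · rfl
  · rfl
  · exact e20.symm
  · exact e21.symm
  · exact (h1 2).symm
  · rfl
  · exact e30.symm
  · exact e31.symm
  · exact e32.symm
  · exact (h1 3).symm

lemma skewCoord_skewOf (c : Fin 6 → k) : skewCoord (skewOf c) = c := by
  ext i
  fin_cases i <;> rfl

/-- the coordinates as a linear equivalence -/
def skewEquiv (k : Type*) [Field k] : Skew k ≃ₗ[k] (Fin 6 → k) where
  toFun L := skewCoord L.1
  invFun c := ⟨skewOf c, skewOf_mem c⟩
  map_add' L L' := by
    ext i; fin_cases i <;> rfl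
  map_smul' c L := by
    ext i; fin_cases i <;> rfl
  left_inv L := Subtype.ext (skewOf_skewCoord L.2)
  right_inv c := skewCoord_skewOf c

/-- `Skew k` is six-dimensional. -/
theorem finrank_Skew : finrank k (Skew k) = 6 := by
  rw [(skewEquiv k).finrank_eq]
  simp

open Classical in
/-- The trivial motion of the vertex set `A` attached to a matrix. -/
noncomputable def triv (A : Finset V) (p : V → Vec k) :
    Matrix (Fin 4) (Fin 4) k →ₗ[k] (V → Vec k) where
  toFun L v := if v ∈ A then L *ᵥ p v else 0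
  map_add' L L' := by
    ext v : 1
    by_cases h : v ∈ A <;> simp [h, Matrix.add_mulVec]
  map_smul' c L := by
    ext v : 1
    by_cases h : v ∈ A <;> simp [h, Matrix.smul_mulVec]

lemma triv_apply {A : Finset V} (p : V → Vec k) (L : Matrix (Fin 4) (Fin 4) k) {v : V}
    (hv : v ∈ A) : triv A p L v = L *ᵥ p v := by simp [triv, hv]

lemma triv_apply_notMem {A : Finset V} (p : V → Vec k) (L : Matrix (Fin 4) (Fin 4) k) {v : V}
    (hv : v ∉ A) : triv A p L v = 0 := by simp [triv, hv]

lemma eps_triv {A : Finset V} (p : V → Vec k) {L : Matrix (Fin 4) (Fin 4) k} (hL : L ∈ Skew k)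
    {a b : V} (ha : a ∈ A) (hb : b ∈ A) : eps p a b (triv A p L) = 0 := by
  rw [eps_apply, triv_apply p L ha, triv_apply p L hb, Skew.dot_eq hL]
  ring

/-- Trivial motions are motions. -/
theorem triv_mem_Mot (A : Finset V) (E : Set (Sym2 V)) (p : V → Vec k)
    {L : Matrix (Fin 4) (Fin 4) k} (hL : L ∈ Skew k) : triv A p L ∈ Mot A E p := by
  refine ⟨fun v hv => triv_apply_notMem p L hv, fun v hv => ?_, fun a ha b hb _ =>
    eps_triv p hL ha hb⟩
  rw [triv_apply p L hv]
  exact Skew.dot_self hL _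

/-- a skew matrix vanishing on three independent vectors is zero -/
lemma skew_eq_zero {L : Matrix (Fin 4) (Fin 4) k} (hL : L ∈ Skew k) {ι : Type*} {v : ι → Vec k}
    (hv : LinearIndependent k v) (hc : 3 ≤ Nat.card ι) (h : ∀ i, L *ᵥ v i = 0) : L = 0 := by
  classical
  -- the rank of L is at most one, but skew
  have hker : ∀ i, v i ∈ LinearMap.ker (Matrix.mulVecLin L) := fun i => by
    simpa using h i
  have hfin : Finite ι := hv.finite
  have := Fintype.ofFinite ι
  have h1 : 3 ≤ finrank k (LinearMap.ker (Matrix.mulVecLin L)) := by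
    have h2 : LinearIndependent k (fun i => (⟨v i, hker i⟩ : LinearMap.ker (Matrix.mulVecLin L))) :=
      LinearIndependent.of_comp (LinearMap.ker (Matrix.mulVecLin L)).subtype hv
    have := h2.fintype_card_le_finrank
    rw [Nat.card_eq_fintype_card] at hc
    omega
  have h3 := LinearMap.finrank_range_add_finrank_ker (Matrix.mulVecLin L)
  rw [Module.finrank_fintype_fun_eq_card, Fintype.card_fin] at h3
  have h4 : finrank k (LinearMap.range (Matrix.mulVecLin L)) ≤ 1 := by omega
  -- all columns are multiples of one vector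
  by_contra hne
  obtain ⟨x, hx⟩ : ∃ x, L *ᵥ x ≠ 0 := by
    by_contra hcon
    push Not at hcon
    apply hne
    ext i j
    have := congrFun (hcon (Pi.single j 1)) i
    simpa using this
  have hspan : ∀ y, ∃ c : k, L *ᵥ y = c • (L *ᵥ x) := by
    intro y
    have h5 := (finrank_le_one_iff (K := k) (V := LinearMap.range (Matrix.mulVecLin L))).mp h4
    obtain ⟨w, hw⟩ := h5
    obtain ⟨a, ha⟩ := hw ⟨L *ᵥ x, ⟨x, by simp⟩⟩
    obtain ⟨b, hb⟩ := hw ⟨L *ᵥ y, ⟨y, by simp⟩⟩
    have ha' : a • (w : Vec k) = L *ᵥ x := congrArg Subtype.val ha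
    have hb' : b • (w : Vec k) = L *ᵥ y := congrArg Subtype.val hb
    have ha0 : a ≠ 0 := by
      rintro rfl
      apply hx
      rw [← ha', zero_smul]
    refine ⟨b * a⁻¹, ?_⟩
    rw [← ha', ← hb', smul_smul]
    congr 1
    field_simp
  -- (L x)·y = -(L y)·x = -c (L x)·x = 0
  apply hx
  have h6 : ∀ y, (L *ᵥ x) ⬝ᵥ y = 0 := by
    intro y
    obtain ⟨c, hc⟩ := hspan y
    rw [Skew.dot_eq hL, hc, smul_dotProduct, Skew.dot_self hL, smul_zero, neg_zero]
  ext i
  simpa using h6 (Pi.single i 1)

/-- Three points in general position: at least a six-dimensional space of motions. -/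
theorem six_le_mdim {A : Finset V} (E : Set (Sym2 V)) {p : V → Vec k}
    (hp : GenPos p (A : Set V)) (hA : 3 ≤ A.card) : 6 ≤ mdim A E p := by
  classical
  obtain ⟨T, hTA, hT⟩ := Finset.exists_subset_card_eq hA
  have hli := hp T (by simpa using hTA) (by omega)
  let f : Skew k →ₗ[k] Mot A E p :=
    ((triv A p).domRestrict (Skew k)).codRestrict (Mot A E p)
      (fun L => triv_mem_Mot A E p L.2)
  have hf : Function.Injective f := by
    rw [← LinearMap.ker_eq_bot, LinearMap.ker_eq_bot']
    intro L hL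
    have h0 : triv A p L.1 = 0 := congrArg Subtype.val hL
    have : L.1 = 0 := by
      refine skew_eq_zero L.2 hli (by simp [hT]) fun i => ?_
      have := congrFun h0 i
      rwa [triv_apply p L.1 (hTA i.2)] at this
    exact Subtype.ext this
  have := LinearMap.finrank_le_finrank_of_injective hf
  rw [finrank_Skew] at this
  exact this

section NoEdge

variable [DecidableEq V]

/-- Without edges: dimension `3 |A|`. -/
theorem mdim_empty {A : Finset V} {p : V → Vec k} (hp : ∀ v ∈ A, p v ≠ 0) :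
    mdim A ∅ p = 3 * A.card := by
  classical
  induction A using Finset.induction_on with
  | empty =>
    have : Mot (∅ : Finset V) ∅ p = ⊥ := by
      rw [eq_bot_iff]
      intro Z hZ
      rw [Submodule.mem_bot]
      ext v : 1
      exact hZ.1 v (by simp)
    unfold mdim
    rw [this]
    simp
  | insert u A hu ih =>
    have ih' := ih fun v hv => hp v (by simp [hv])
    have hn : nbr A (∅ : Set (Sym2 V)) u = ∅ := by
      ext v; simp [mem_nbr]
    have hli : LinearIndependent k (fun o : Option (∅ : Finset V) => o.elim (p u) fun v => p v) := by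
      have h1 : Subsingleton (Option (∅ : Finset V)) := by
        constructor
        rintro (a | ⟨a, ha⟩) (b | ⟨b, hb⟩)
        · rfl
        · simp at hb
        · simp at ha
        · simp at ha
      refine LinearIndependent.of_subsingleton (i := none) ?_
      simpa using hp u (by simp)
    rw [mdim_insert hu ∅ p, hn, Finset.card_insert_of_notMem hu]
    have h1 := finrank_Perp hli
    have h2 : (Mot A ∅ p ⊓ Att p ((∅ : Finset V) : Set V) (p u) : Submodule k (V → Vec k))
        = Mot A ∅ p := by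
      rw [inf_eq_left]
      intro Z _
      exact mem_Att_of_linearIndependent hli Z
    rw [h2]
    unfold mdim at ih'
    simp only [Finset.card_empty, add_zero] at h1
    rw [ih', h1]
    ring

/-- cut off outside `A` -/
noncomputable def cut (k : Type*) [Field k] (A : Finset V) : (V → Vec k) →ₗ[k] (V → Vec k) where
  toFun Z v := if v ∈ A then Z v else 0
  map_add' Z Z' := by
    ext v : 1
    by_cases h : v ∈ A <;> simp [h]
  map_smul' c Z := by
    ext v : 1
    by_cases h : v ∈ A <;> simp [h]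

lemma cut_apply {A : Finset V} (Z : V → Vec k) {v : V} (hv : v ∈ A) : cut k A Z v = Z v := by
  simp [cut, hv]

lemma cut_apply_notMem {A : Finset V} (Z : V → Vec k) {v : V} (hv : v ∉ A) :
    cut k A Z v = 0 := by
  simp [cut, hv]

lemma eps_cut {A : Finset V} (p Z : V → Vec k) {a b : V} (ha : a ∈ A) (hb : b ∈ A) :
    eps p a b (cut k A Z) = eps p a b Z := by
  rw [eps_apply, eps_apply, cut_apply Z ha, cut_apply Z hb]

lemma cut_mem_Mot {A : Finset V} {E : Set (Sym2 V)} {p Z : V → Vec k} (hZ : Z ∈ Mot0 p)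
    (h : ∀ a ∈ A, ∀ b ∈ A, s(a, b) ∈ E → eps p a b Z = 0) : cut k A Z ∈ Mot A E p := by
  refine ⟨fun v hv => cut_apply_notMem Z hv, fun v hv => ?_, fun a ha b hb hab => ?_⟩
  · rw [cut_apply Z hv]; exact hZ v
  · rw [eps_cut p Z ha hb]; exact h a ha b hb hab

/-- restriction of motions to a smaller vertex set -/
lemma cut_mem_Mot_of_subset {A B : Finset V} (hAB : A ⊆ B) {E : Set (Sym2 V)} {p Z : V → Vec k}
    (hZ : Z ∈ Mot B E p) : cut k A Z ∈ Mot A E p :=
  cut_mem_Mot (Mot_le_Mot0 _ _ _ hZ) fun a ha b hb hab => hZ.2.2 a (hAB ha) b (hAB hb) hab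

/-- **Rank and dimension**: for a graph inside `A`. -/
theorem mdim_add_rk {A : Finset V} {E : Set (Sym2 V)} (hE : ∀ e ∈ E, ∀ v ∈ e, v ∈ A)
    {p : V → Vec k} (hp : ∀ v ∈ A, p v ≠ 0) : mdim A E p + rk E p = 3 * A.card := by
  classical
  rw [← mdim_empty hp]
  have h := finrank_add_strain (Mot A ∅ p) E p
  have h1 : (Mot A ∅ p ⊓ (⨅ e ∈ E, LinearMap.ker (epsS p e)) : Submodule k (V → Vec k))
      = Mot A E p := by
    ext Z
    simp only [Submodule.mem_inf, Submodule.mem_iInf, LinearMap.mem_ker]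
    constructor
    · rintro ⟨⟨h1, h2, -⟩, h3⟩
      exact ⟨h1, h2, fun a _ b _ hab => h3 _ hab⟩
    · rintro ⟨h1, h2, h3⟩
      refine ⟨⟨h1, h2, fun a _ b _ hab => absurd hab (by simp)⟩, fun e he => ?_⟩
      induction e using Sym2.ind with
      | _ a b => exact h3 a (hE _ he a (by simp)) b (hE _ he b (by simp)) he
  rw [h1] at h
  -- the strain spans on Mot0 and on Mot A ∅ have the same rank
  have h2 : rk E p = finrank k (strainSpan (Mot A ∅ p) E p) := by
    unfold rk
    have hle : Mot A ∅ p ≤ Mot0 p := Mot_le_Mot0 _ _ _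
    let R : Dual k (Mot0 p) →ₗ[k] Dual k (Mot A ∅ p) := (Submodule.inclusion hle).dualMap
    have hmap : (strainSpan (Mot0 p) E p).map R = strainSpan (Mot A ∅ p) E p := by
      unfold strainSpan
      rw [Submodule.map_span, ← Set.image_comp]
      rfl
    rw [← hmap]
    have hinj : Set.InjOn R (strainSpan (Mot0 p) E p) := by
      -- a functional in the span is determined by its values on cut motions
      have hcut : ∀ φ ∈ strainSpan (Mot0 p) E p, ∀ Z (hZ : Z ∈ Mot0 p),
          φ ⟨Z, hZ⟩ = φ ⟨cut k A Z, hle (cut_mem_Mot hZ (fun a _ b _ hab => absurd hab (by simp)))⟩ := by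
        intro φ hφ Z hZ
        refine Submodule.span_induction (p := fun φ _ => φ ⟨Z, hZ⟩ = φ ⟨cut k A Z,
          hle (cut_mem_Mot hZ (fun a _ b _ hab => absurd hab (by simp)))⟩) ?_ ?_ ?_ ?_ hφ
        · rintro _ ⟨e, he, rfl⟩
          induction e using Sym2.ind with
          | _ a b =>
            exact (eps_cut p Z (hE _ he a (by simp)) (hE _ he b (by simp))).symm
        · rfl
        · intro φ ψ _ _ h1 h2
          rw [LinearMap.add_apply, h1, h2, LinearMap.add_apply]
        · intro c φ _ h1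
          rw [LinearMap.smul_apply, h1, LinearMap.smul_apply]
      intro φ hφ ψ hψ hR
      ext ⟨Z, hZ⟩
      rw [hcut φ hφ Z hZ, hcut ψ hψ Z hZ]
      have := LinearMap.congr_fun hR
        ⟨cut k A Z, cut_mem_Mot hZ (fun a _ b _ hab => absurd hab (by simp))⟩
      exact this
    have hinj' : Function.Injective (R.domRestrict (strainSpan (Mot0 p) E p)) := by
      rintro ⟨φ, hφ⟩ ⟨ψ, hψ⟩ h
      exact Subtype.ext (hinj hφ hψ h)
    rw [← LinearMap.range_domRestrict, LinearMap.finrank_range_of_inj hinj']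
  rw [h2]
  unfold mdim
  omega

end NoEdge

end GR
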