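import Pool.Agent.Lib.GR.Forms
import Pool.Agent.Lib.GR.Defs
import Pool.Agent.Lib.GR.Triv

/-!
# Degree 7 body vertices: algebra of pairs (linear form, quadratic form)
-/

namespace GR.E4

open Module Filter

open scoped Matrix

section Pair

variable {k E M : Type*} [Field k] [Infinite k] [AddCommGroup E] [Module k E]
  [AddCommGroup M] [Module k M]

/-- a linear form times a quadratic form vanishes only if one factor does -/
lemma mul_eq_zero_forms (L : E →ₗ[k] k) (b : E →ₗ[k] E →ₗ[k] k) (h : ∀ x, L x * b x x = 0)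
    (hL : L ≠ 0) : ∀ x, b x x = 0 := by
  obtain ⟨y, hy⟩ : ∃ y, L y ≠ 0 := by
    by_contra hcon
    push Not at hcon
    exact hL (LinearMap.ext fun x => by simpa using hcon x)
  intro x
  exact Forms.vanish_on_ker b (0 : E →ₗ[k] k) L ⟨y, by simp, hy⟩
    (fun x _ => by rw [mul_comm]; exact h x) x (by simp)

/-- **Classification of families of pairs** (linear form, quadratic form) with proportional
values. -/
theorem pair_classify (h2 : (2 : k) ≠ 0) (α : M →ₗ[k] E →ₗ[k] k)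
    (β : M →ₗ[k] E →ₗ[k] E →ₗ[k] k)
    (h : ∀ Z Z' x, α Z x * β Z' x x = α Z' x * β Z x x) :
    (∀ Z, α Z = 0) ∨
    (∃ Z0, α Z0 ≠ 0 ∧ ∃ c : M →ₗ[k] k, c Z0 = 1 ∧
      ∀ Z x, α Z x = c Z * α Z0 x ∧ β Z x x = c Z * β Z0 x x) ∨
    (∃ δ : E →ₗ[k] k, ∀ Z x, β Z x x = δ x * α Z x) := by
  classical
  by_cases hα : ∀ Z, α Z = 0
  · exact Or.inl hα
  right
  push Not at hα
  obtain ⟨Z0, hZ0⟩ := hα
  obtain ⟨e, he⟩ : ∃ e, α Z0 e ≠ 0 := by
    by_contra hcon
    push Not at hcon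
    exact hZ0 (LinearMap.ext fun x => by simpa using hcon x)
  by_cases hprop : ∀ Z x, α Z0 e * α Z x = α Z e * α Z0 x
  · left
    refine ⟨Z0, hZ0, (α Z0 e)⁻¹ • ((LinearMap.applyₗ e).comp α), ?_, ?_⟩
    · simp [he]
    intro Z x
    have h1 : ∀ x, α Z x = (α Z0 e)⁻¹ * α Z e * α Z0 x := by
      intro x
      have := hprop Z x
      field_simp
      linear_combination this
    have hc : ((α Z0 e)⁻¹ • ((LinearMap.applyₗ e).comp α) : M →ₗ[k] k) Z
        = (α Z0 e)⁻¹ * α Z e := by simp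
    rw [hc]
    refine ⟨h1 x, ?_⟩
    have h3 := mul_eq_zero_forms (α Z0) (β Z - ((α Z0 e)⁻¹ * α Z e) • β Z0) (by
      intro x
      have h4 := h Z0 Z x
      rw [h1 x] at h4
      simp only [LinearMap.sub_apply, LinearMap.smul_apply, smul_eq_mul]
      linear_combination h4) hZ0 x
    simp only [LinearMap.sub_apply, LinearMap.smul_apply, smul_eq_mul] at h3
    linear_combination h3
  · right
    push Not at hprop
    obtain ⟨Z1, x1, hx1⟩ := hprop
    have hy : ∃ y, α Z0 y = 0 ∧ α Z1 y ≠ 0 := by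
      refine ⟨α Z0 e • x1 - α Z0 x1 • e, ?_, ?_⟩
      · simp; ring
      · intro h0
        apply hx1
        simp only [map_sub, map_smul, smul_eq_mul] at h0
        linear_combination h0
    have hvan : ∀ x, α Z0 x = 0 → β Z0 x x = 0 :=
      Forms.vanish_on_ker (β Z0) (α Z0) (α Z1) hy (fun x hx => by
        have h4 := h Z1 Z0 x
        rw [hx] at h4
        linear_combination h4)
    obtain ⟨s, hs⟩ := Forms.exists_factor (β Z0 + (β Z0).flip)
      (by intro x y; simp [add_comm]) (α Z0) hZ0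
      (by intro x hx; simp [hvan x hx])
    refine ⟨(2 : k)⁻¹ • s, ?_⟩
    have h5 : ∀ x, β Z0 x x = 2⁻¹ * s x * α Z0 x := by
      intro x
      have := hs x
      simp only [LinearMap.add_apply, LinearMap.flip_apply] at this
      field_simp
      linear_combination this
    intro Z x
    have h3 := mul_eq_zero_forms (α Z0)
      (β Z - LinearMap.smulRight ((2 : k)⁻¹ • s) (α Z)) (by
      intro x
      have h4 := h Z0 Z x
      rw [h5 x] at h4
      simp only [LinearMap.sub_apply, LinearMap.smulRight_apply, LinearMap.smul_apply, smul_eq_mul]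
      linear_combination h4) hZ0 x
    simp only [LinearMap.sub_apply, LinearMap.smulRight_apply, LinearMap.smul_apply,
      smul_eq_mul] at h3
    simp only [LinearMap.smul_apply, smul_eq_mul]
    linear_combination h3

end Pair

section Core1

variable {k V : Type*} [Field k] [Infinite k]

/-- the case `|A| = 3` -/
theorem core_three {p : V → Vec k} {M : Submodule k (V → Vec k)} {ζ : (V → Vec k) → Vec k}
    {q : Vec k} {a b c : V} (hli : LinearIndependent k ![q, p a, p b, p c])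
    (h : ∃ᶠ x in gen k (Vec k), ∃ sa sb sc s0 : k,
      q + sa • p a + sb • p b + sc • p c = s0 • x ∧
      ∀ Z ∈ M, ζ Z ⬝ᵥ x + sa * (Z a ⬝ᵥ x) + sb * (Z b ⬝ᵥ x) + sc * (Z c ⬝ᵥ x) = 0)
    (hM : ∀ Z ∈ M, Z a ⬝ᵥ p a = 0 ∧ Z b ⬝ᵥ p b = 0) :
    ∀ Z ∈ M, eps p a b Z = 0 := by
  classical
  have hbas : ∃ n la lb lc : Vec k →ₗ[k] k, (n q = 1 ∧ n (p a) = 0 ∧ n (p b) = 0 ∧ n (p c) = 0) ∧
      (la q = 0 ∧ la (p a) = 1 ∧ la (p b) = 0 ∧ la (p c) = 0) ∧
      (lb q = 0 ∧ lb (p a) = 0 ∧ lb (p b) = 1 ∧ lb (p c) = 0) ∧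
      (lc q = 0 ∧ lc (p a) = 0 ∧ lc (p b) = 0 ∧ lc (p c) = 1) := by
    have key : ∀ c0 : Fin 4 → k, ∃ φ : Vec k →ₗ[k] k, ∀ i, φ (![q, p a, p b, p c] i) = c0 i :=
      fun c0 => exists_functional hli c0
    obtain ⟨n, hn⟩ := key ![1, 0, 0, 0]
    obtain ⟨la, hla⟩ := key ![0, 1, 0, 0]
    obtain ⟨lb, hlb⟩ := key ![0, 0, 1, 0]
    obtain ⟨lc, hlc⟩ := key ![0, 0, 0, 1]
    refine ⟨n, la, lb, lc, ⟨?_, ?_, ?_, ?_⟩, ⟨?_, ?_, ?_, ?_⟩, ⟨?_, ?_, ?_, ?_⟩,
      ⟨?_, ?_, ?_, ?_⟩⟩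
    · simpa using hn 0
    · simpa using hn 1
    · simpa using hn 2
    · simpa using hn 3
    · simpa using hla 0
    · simpa using hla 1
    · simpa using hla 2
    · simpa using hla 3
    · simpa using hlb 0
    · simpa using hlb 1
    · simpa using hlb 2
    · simpa using hlb 3
    · simpa using hlc 0
    · simpa using hlc 1
    · simpa using hlc 2
    · simpa using hlc 3
  obtain ⟨n, la, lb, lc, ⟨n1, n2, n3, n4⟩, ⟨a1, a2, a3, a4⟩, ⟨b1, b2, b3, b4⟩,
    ⟨c1, c2, c3, c4⟩⟩ := hbas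
  intro Z hZ
  let f : Vec k → k := fun x => n x * (ζ Z ⬝ᵥ x) + la x * (Z a ⬝ᵥ x) + lb x * (Z b ⬝ᵥ x)
    + lc x * (Z c ⬝ᵥ x)
  have hdot : ∀ z : Vec k, PolyLine k (fun x : Vec k => z ⬝ᵥ x) := fun z => by
    have := PolyLine.linear (k := k) (W := Vec k)
      ({ toFun := fun x => z ⬝ᵥ x, map_add' := fun x y => dotProduct_add _ _ _,
         map_smul' := fun c x => by simp } : Vec k →ₗ[k] k)
    simpa using this
  have hf : PolyLine k f :=
    ((((PolyLine.linear n).mul (hdot _)).add ((PolyLine.linear la).mul (hdot _))).add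
      ((PolyLine.linear lb).mul (hdot _))).add ((PolyLine.linear lc).mul (hdot _))
  have hfr : ∃ᶠ x in gen k (Vec k), f x = 0 := by
    refine h.mono ?_
    rintro x ⟨sa, sb, sc, s0, h1, h2⟩
    have e1 := congrArg n h1
    have e2 := congrArg la h1
    have e3 := congrArg lb h1
    have e4 := congrArg lc h1
    simp only [map_add, map_smul, smul_eq_mul, n1, n2, n3, n4, a1, a2, a3, a4, b1, b2, b3, b4,
      c1, c2, c3, c4, mul_zero, mul_one, add_zero, zero_add] at e1 e2 e3 e4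
    have hs0 : s0 ≠ 0 := by
      rintro rfl
      simp at e1
    have h3 := h2 Z hZ
    have : s0 * f x = 0 := by
      show s0 * (n x * (ζ Z ⬝ᵥ x) + la x * (Z a ⬝ᵥ x) + lb x * (Z b ⬝ᵥ x)
        + lc x * (Z c ⬝ᵥ x)) = 0
      rw [← h3, e2, e3, e4]
      linear_combination (-(ζ Z ⬝ᵥ x)) * e1
    exact (mul_eq_zero.mp this).resolve_left hs0
  have hz := hf.eq_zero hfr (p a + p b)
  obtain ⟨ha, hb⟩ := hM Z hZ
  simp only [f, map_add, n2, n3, a2, a3, b2, b3, c2, c3, dotProduct_add, ha, hb, add_zero,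
    zero_mul, zero_add, one_mul, mul_zero] at hz
  rw [eps_apply]
  exact hz

end Core1

end GR.E4
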