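import Pool.Agent.Lib.GR.E4QJ
import Pool.Agent.Lib.GR.BLocDef

/-!
# Degree 7 body vertices: the case `|A| = 4`
-/

namespace GR.E4

open Module Filter

open scoped Matrix

variable {k : Type*} [Field k] {V : Type*} [DecidableEq V]

/-- **Frame motions**: `Z_2 = Z_3 = 0`, `Z_4 · p_5 = 0`. -/
abbrev Fr (B : Finset V) (E : Set (Sym2 V)) (p : V → Vec k) (b2 b3 r4 r5 : V) :
    Submodule k (V → Vec k) := Kg B E p b2 b3 r4 r5

lemma mem_Fr {B : Finset V} {E : Set (Sym2 V)} {p Z : V → Vec k} {b2 b3 r4 r5 : V} :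
    Z ∈ Fr B E p b2 b3 r4 r5 ↔ Z ∈ Mot B E p ∧ Z b2 = 0 ∧ Z b3 = 0 ∧ Z r4 ⬝ᵥ p r5 = 0 := Iff.rfl

lemma Fr_le (B : Finset V) (E : Set (Sym2 V)) (p : V → Vec k) (b2 b3 r4 r5 : V) :
    Fr B E p b2 b3 r4 r5 ≤ Mot B E p := fun _ h => h.1

instance Fr_finiteDimensional (B : Finset V) (E : Set (Sym2 V)) (p : V → Vec k)
    (b2 b3 r4 r5 : V) : FiniteDimensional k (Fr B E p b2 b3 r4 r5) :=
  Submodule.finiteDimensional_of_le (Fr_le B E p b2 b3 r4 r5)

/-- the dot product as a bilinear map -/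
noncomputable def dotL (k : Type*) [Field k] : Vec k →ₗ[k] Vec k →ₗ[k] k :=
  LinearMap.mk₂ k (fun z x => z ⬝ᵥ x) (by intro a b c; exact add_dotProduct _ _ _)
    (by intro c a b; exact smul_dotProduct _ _ _) (by intro a b c; exact dotProduct_add _ _ _)
    (by intro c a b; exact dotProduct_smul _ _ _)

@[simp] lemma dotL_apply (z x : Vec k) : dotL k z x = z ⬝ᵥ x := rfl

/-- the linear map with `B_Z y_j = Z_j` -/
noncomputable def BL (b : Basis (Fin 4) k (Vec k)) (y : Fin 4 → V) :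
    (V → Vec k) →ₗ[k] (Vec k →ₗ[k] Vec k) :=
  (b.constr k).toLinearMap.comp (LinearMap.pi fun j => LinearMap.proj (y j))

lemma BL_apply_basis (b : Basis (Fin 4) k (Vec k)) (y : Fin 4 → V) (Z : V → Vec k) (j : Fin 4) :
    BL b y Z (b j) = Z (y j) := by
  simp [BL]

/-- the data of the frame -/
structure Frame (B : Finset V) (E : Finset (Sym2 V)) (p : V → Vec k) (b2 b3 r4 r5 : V) (t : k)
    (y : Fin 4 → V) : Prop where
  hE : E ⊆ Kf B
  hb2 : b2 ∈ B
  hb3 : b3 ∈ B
  hr4 : r4 ∈ B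
  hr5 : r5 ∈ B
  hy : ∀ j, y j ∈ B
  yinj : Function.Injective y
  y2 : ∀ j, y j ≠ b2
  y3 : ∀ j, y j ≠ b3
  y4 : ∀ j, y j ≠ r4
  y5 : ∀ j, y j ≠ r5
  h24 : b2 ≠ r4
  h25 : b2 ≠ r5
  h34 : b3 ≠ r4
  h35 : b3 ≠ r5
  h45 : r4 ≠ r5
  gp : GenPos p (B : Set V)
  h23 : s(b2, b3) ∈ E
  ht : t ≠ 0
  hζ : ∀ Z ∈ Fr B (E : Set (Sym2 V)) p b2 b3 r4 r5, Z r5 = t • Z r4
  /-- rotations about `q` -/
  hY : ∀ S : Vec k →ₗ[k] Vec k, IsSkew S → S (p r5 - t • p r4) = 0 →
    ∃ Y ∈ Fr B (E : Set (Sym2 V)) p b2 b3 r4 r5, (∀ j, Y (y j) = S (p (y j))) ∧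
      Y r4 = S (p r4)

namespace Frame

variable {B : Finset V} {E : Finset (Sym2 V)} {p : V → Vec k} {b2 b3 r4 r5 : V} {t : k}
    {y : Fin 4 → V}

lemma n23 (F : Frame B E p b2 b3 r4 r5 t y) : b2 ≠ b3 := (mk_mem_Kf.mp (F.hE F.h23)).1

lemma li_y (F : Frame B E p b2 b3 r4 r5 t y) : LinearIndependent k (fun j => p (y j)) := by
  have hne : ∀ i j, i ≠ j → y i ≠ y j := fun i j h h' => h (F.yinj h')
  have h4 := F.gp.four (F.hy 0) (F.hy 1) (F.hy 2) (F.hy 3) (hne _ _ (by decide))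
    (hne _ _ (by decide)) (hne _ _ (by decide)) (hne _ _ (by decide)) (hne _ _ (by decide))
    (hne _ _ (by decide))
  convert h4 using 1
  funext i
  fin_cases i <;> rfl

/-- `q` together with `r4` and two of the `y`'s is a basis -/
lemma li_q (F : Frame B E p b2 b3 r4 r5 t y) {i j : Fin 4} (hij : i ≠ j) :
    LinearIndependent k ![p r5 - t • p r4, p r4, p (y i), p (y j)] := by
  have h4 := F.gp.four F.hr5 F.hr4 (F.hy i) (F.hy j) F.h45.symm (F.y5 i).symm (F.y5 j).symm
    (F.y4 i).symm (F.y4 j).symm (fun h => hij (F.yinj h))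
  rw [Fintype.linearIndependent_iff] at h4 ⊢
  intro g hg
  have h5 := h4 ![g 0, g 1 - t * g 0, g 2, g 3] (by
    rw [← hg]
    simp only [Fin.sum_univ_four, Matrix.cons_val_zero, Matrix.cons_val_one, Matrix.cons_val,
      smul_sub, sub_smul, mul_smul, smul_comm t]
    abel)
  have h50 := h5 0
  have h51 := h5 1
  have h52 := h5 2
  have h53 := h5 3
  simp only [Matrix.cons_val_zero, Matrix.cons_val_one, Matrix.cons_val] at h50 h51 h52 h53
  intro i
  fin_cases i
  · exact h50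
  · simpa [h50] using h51
  · exact h52
  · exact h53

/-- at most one `y_j` is in the plane of `q`, `2`, `3` -/
lemma good_or (F : Frame B E p b2 b3 r4 r5 t y) {i j : Fin 4} (hij : i ≠ j) :
    LinearIndependent k ![p r5 - t • p r4, p b2, p b3, p (y i)] ∨
    LinearIndependent k ![p r5 - t • p r4, p b2, p b3, p (y j)] := by
  by_contra hcon
  push Not at hcon
  obtain ⟨h1, h2⟩ := hcon
  have key : ∀ j, ¬ LinearIndependent k ![p r5 - t • p r4, p b2, p b3, p (y j)] →
      ∃ a b c : k, p r5 - t • p r4 = a • p b2 + b • p b3 + c • p (y j) := by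
    intro j hj
    rw [Fintype.linearIndependent_iff] at hj
    push Not at hj
    obtain ⟨g, hg, hne⟩ := hj
    simp only [Fin.sum_univ_four, Matrix.cons_val_zero, Matrix.cons_val_one,
      Matrix.cons_val] at hg
    have h3 := li3 F.gp F.hb2 F.hb3 (F.hy j) F.n23 (F.y2 j).symm (F.y3 j).symm
    rw [Fintype.linearIndependent_iff] at h3
    have hg0 : g 0 ≠ 0 := by
      intro h0
      have h4 := h3 ![g 1, g 2, g 3] (by
        rw [h0, zero_smul, zero_add] at hg
        rw [← hg]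
        simp [Fin.sum_univ_three])
      obtain ⟨i, hi⟩ := hne
      apply hi
      have h40 := h4 0
      have h41 := h4 1
      have h42 := h4 2
      fin_cases i
      · exact h0
      · simpa using h40
      · simpa using h41
      · simpa using h42
    refine ⟨-(g 1 / g 0), -(g 2 / g 0), -(g 3 / g 0), ?_⟩
    have h5 : p r5 - t • p r4 = (g 0)⁻¹ • (g 0 • (p r5 - t • p r4)) := by
      rw [smul_smul, inv_mul_cancel₀ hg0, one_smul]
    have h6 : g 0 • (p r5 - t • p r4) = -(g 1 • p b2 + g 2 • p b3 + g 3 • p (y j)) := by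
      rw [eq_neg_iff_add_eq_zero, ← hg]; abel
    rw [h5, h6]
    simp only [smul_neg, smul_add, smul_smul, neg_smul]
    rw [div_eq_inv_mul, div_eq_inv_mul, div_eq_inv_mul]
    abel
  obtain ⟨a, b, c, e1⟩ := key i h1
  obtain ⟨a', b', c', e2⟩ := key j h2
  have h4 := F.gp.four F.hb2 F.hb3 (F.hy i) (F.hy j) F.n23 (F.y2 i).symm (F.y2 j).symm
    (F.y3 i).symm (F.y3 j).symm (fun h => hij (F.yinj h))
  rw [Fintype.linearIndependent_iff] at h4
  have h5 := h4 ![a - a', b - b', c, -c'] (by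
    have h6 : (a • p b2 + b • p b3 + c • p (y i)) - (a' • p b2 + b' • p b3 + c' • p (y j)) = 0 := by
      rw [← e1, ← e2, sub_self]
    rw [← h6]
    simp only [Fin.sum_univ_four, Matrix.cons_val_zero, Matrix.cons_val_one, Matrix.cons_val,
      sub_smul, neg_smul]
    abel)
  have hc : c = 0 := by simpa using h5 2
  rw [hc, zero_smul, add_zero] at e1
  have h7 := F.gp.four F.hr5 F.hr4 F.hb2 F.hb3 F.h45.symm F.h25.symm F.h35.symm F.h24.symm
    F.h34.symm F.n23
  rw [Fintype.linearIndependent_iff] at h7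
  have h8 := h7 ![1, -t, -a, -b] (by
    simp only [Fin.sum_univ_four, Matrix.cons_val_zero, Matrix.cons_val_one, Matrix.cons_val,
      neg_smul, one_smul]
    rw [← sub_eq_zero] at e1
    rw [← e1]
    abel) 0
  simp at h8

lemma two_good (F : Frame B E p b2 b3 r4 r5 t y) : ∃ i j : Fin 4, i ≠ j ∧
    LinearIndependent k ![p r5 - t • p r4, p b2, p b3, p (y i)] ∧
    LinearIndependent k ![p r5 - t • p r4, p b2, p b3, p (y j)] := by
  rcases F.good_or (i := 0) (j := 1) (by decide) with h | h <;>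
  rcases F.good_or (i := 2) (j := 3) (by decide) with h' | h'
  · exact ⟨0, 2, by decide, h, h'⟩
  · exact ⟨0, 3, by decide, h, h'⟩
  · exact ⟨1, 2, by decide, h, h'⟩
  · exact ⟨1, 3, by decide, h, h'⟩

/-- The kernel argument with (QJ). -/
theorem kernel [Infinite k] (F : Frame B E p b2 b3 r4 r5 t y) (hF : FactR B p) {i i' : Fin 4}
    (hii : i ≠ i')
    (hskew : ∀ Z ∈ Fr B (E : Set (Sym2 V)) p b2 b3 r4 r5, eps p (y i) (y i') Z = 0 →
      (∀ j j', eps p (y j) (y j') Z = 0) ∧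
      ∀ c : Fin 4 → k, ∑ j, c j • p (y j) = p r5 - t • p r4 → ∑ j, c j • Z (y j) = 0)
    {Z0 : V → Vec k} (hZ0 : Z0 ∈ Fr B (E : Set (Sym2 V)) p b2 b3 r4 r5)
    (h0 : ∀ j, Z0 (y j) = 0) : Z0 r4 = 0 := by
  classical
  -- for a good `y_j`
  have key : ∀ j, LinearIndependent k ![p r5 - t • p r4, p b2, p b3, p (y j)] →
      Z0 r4 ⬝ᵥ p (y j) = 0 := by
    intro j hj
    set E' : Finset (Sym2 V) := insert s(y i, y i') (insert s(b2, y j) (insert s(b3, y j) E))
      with hE'
    have hsub : E ⊆ E' := by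
      intro e he; simp [hE', he]
    have hE'K : E' ⊆ Kf B := by
      intro e he
      simp only [hE', Finset.mem_insert] at he
      rcases he with rfl | rfl | rfl | he
      · exact mk_mem_Kf.mpr ⟨fun h => hii (F.yinj h), F.hy i, F.hy i'⟩
      · exact mk_mem_Kf.mpr ⟨(F.y2 j).symm, F.hb2, F.hy j⟩
      · exact mk_mem_Kf.mpr ⟨(F.y3 j).symm, F.hb3, F.hy j⟩
      · exact F.hE he
    have hNB : ({b2, b3, y j, r4, r5} : Finset V) ⊆ B := by
      intro v hv
      simp only [Finset.mem_insert, Finset.mem_singleton] at hv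
      rcases hv with rfl | rfl | rfl | rfl | rfl
      exacts [F.hb2, F.hb3, F.hy j, F.hr4, F.hr5]
    have hcard : ({b2, b3, y j, r4, r5} : Finset V).card = 5 := by
      rw [Finset.card_insert_of_notMem, Finset.card_insert_of_notMem,
        Finset.card_insert_of_notMem, Finset.card_insert_of_notMem, Finset.card_singleton]
      · simpa using F.h45
      · simp [F.y4 j, F.y5 j]
      · simp [(F.y3 j).symm, F.h34, F.h35]
      · simp [F.n23, (F.y2 j).symm, F.h24, F.h25]
    have hgp : GenPos p (({b2, b3, y j, r4, r5} : Finset V) : Set V) := by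
      intro T hT hc
      exact F.gp T (hT.trans (by exact_mod_cast hNB)) hc
    have hfr : ∀ Z ∈ Mot B (E' : Set (Sym2 V)) p, Z b2 = 0 → Z b3 = 0 → Z r4 ⬝ᵥ p r5 = 0 →
        Z ∈ Fr B (E : Set (Sym2 V)) p b2 b3 r4 r5 := fun Z hZ z2 z3 z4 =>
      ⟨Mot_anti (by exact_mod_cast hsub) p hZ, z2, z3, z4⟩
    have hq := qj hE'K hF hNB hcard hgp (hsub F.h23) F.ht (by
      intro Z hZ z2 z3 z4
      have hZF := hfr Z hZ z2 z3 z4
      refine ⟨?_, F.hζ Z hZF⟩
      obtain ⟨s1, s2⟩ := hskew Z hZF (hZ.2.2 _ (F.hy i) _ (F.hy i') (by simp [hE']))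
      have e2 := hZ.2.2 b2 F.hb2 _ (F.hy j) (by simp [hE'])
      have e3 := hZ.2.2 b3 F.hb3 _ (F.hy j) (by simp [hE'])
      rw [eps_apply, z2] at e2
      rw [eps_apply, z3] at e3
      refine eq_zero_of_dot hj ?_
      intro i0
      fin_cases i0
      · -- the product with `q`
        obtain ⟨c, hc⟩ : ∃ c : Fin 4 → k, ∑ j, c j • p (y j) = p r5 - t • p r4 := by
          let b : Basis (Fin 4) k (Vec k) :=
            basisOfLinearIndependentOfCardEqFinrank F.li_y (by simp)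
          have hb : ∀ i, b i = p (y i) := fun i => by simp [b]
          refine ⟨b.repr (p r5 - t • p r4), ?_⟩
          conv_rhs => rw [← b.sum_repr (p r5 - t • p r4)]
          simp [hb]
        have h3 := s2 c hc
        show Z (y j) ⬝ᵥ (p r5 - t • p r4) = 0
        rw [← hc, dotProduct_sum]
        have h4 : ∀ j', Z (y j) ⬝ᵥ (c j' • p (y j')) = -((c j' • Z (y j')) ⬝ᵥ p (y j)) := by
          intro j'
          have := s1 j j'
          rw [eps_apply] at this
          rw [dotProduct_smul, smul_dotProduct, smul_eq_mul, smul_eq_mul]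
          linear_combination c j' * this
        rw [Finset.sum_congr rfl fun j' _ => h4 j', Finset.sum_neg_distrib, ← sum_dotProduct, h3]
        simp
      · simpa using e2
      · simpa using e3
      · simpa using hZ.2.1 _ (F.hy j))
    -- the rotation about `q` and `y_j`
    obtain ⟨j', hjj'⟩ : ∃ j' : Fin 4, j' ≠ j := exists_ne j
    obtain ⟨S, hS, hSv⟩ := exists_skew_of_basis (F.li_q (i := j) (j := j') hjj'.symm)
      !![0, 0, 0, 0; 0, 0, 0, 1; 0, 0, 0, 0; 0, -1, 0, 0]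
      (by intro i; fin_cases i <;> simp) (by intro i j; fin_cases i <;> fin_cases j <;> simp)
    have hSq : S (p r5 - t • p r4) = 0 := eq_zero_of_dot (F.li_q hjj'.symm) (by
      intro i
      have := hSv 0 i
      fin_cases i <;> simpa using this)
    have hSy : S (p (y j)) = 0 := eq_zero_of_dot (F.li_q hjj'.symm) (by
      intro i
      have := hSv 2 i
      fin_cases i <;> simpa using this)
    have hS4 : S (p r4) ≠ 0 := by
      intro h
      have := hSv 1 3
      simp [h] at this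
    obtain ⟨Y, hY, hYy, hY4⟩ := F.hY S hS hSq
    have hskS : ∀ a b : Vec k, S a ⬝ᵥ b + S b ⬝ᵥ a = 0 := fun a b => by rw [hS.swap a b]; ring
    -- both are motions of the larger graph
    have hmot : ∀ Z ∈ Fr B (E : Set (Sym2 V)) p b2 b3 r4 r5, eps p (y i) (y i') Z = 0 →
        Z (y j) = 0 → Z ∈ Mot B (E' : Set (Sym2 V)) p := by
      intro Z hZ z1 z2
      refine ⟨hZ.1.1, hZ.1.2.1, ?_⟩
      intro a ha b hb hab
      have hab' : s(a, b) ∈ E' := hab
      rw [← epsS_mk]
      simp only [hE', Finset.mem_insert] at hab'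
      rcases hab' with h | h | h | h
      · rw [h, epsS_mk]; exact z1
      · rw [h, epsS_mk, eps_apply, hZ.2.1, z2]; simp
      · rw [h, epsS_mk, eps_apply, hZ.2.2.1, z2]; simp
      · rw [epsS_mk]; exact hZ.1.2.2 a ha b hb h
    have m0 := hmot Z0 hZ0 (by rw [eps_apply, h0, h0]; simp) (h0 j)
    have mY := hmot Y hY (by rw [eps_apply, hYy, hYy]; exact hskS _ _) (by rw [hYy, hSy])
    obtain ⟨s, s', hss, hs⟩ := hq Z0 m0 hZ0.2.1 hZ0.2.2.1 hZ0.2.2.2 Y mY hY.2.1 hY.2.2.1 hY.2.2.2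
    have hs0 : s ≠ 0 := by
      rintro rfl
      rcases hss with h | h
      · exact h rfl
      · rw [zero_smul, zero_add, smul_eq_zero] at hs
        rcases hs with hs | hs
        · exact h hs
        · exact hS4 (by rw [← hY4, hs])
    have h5 : s * (Z0 r4 ⬝ᵥ p (y j)) = 0 := by
      have h6 := congrArg (fun z => z ⬝ᵥ p (y j)) hs
      simp only [add_dotProduct, smul_dotProduct, smul_eq_mul, zero_dotProduct] at h6
      have h7 : Y r4 ⬝ᵥ p (y j) = 0 := by
        rw [hY4, hS.swap, hSy]; simp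
      rw [h7, mul_zero, add_zero] at h6
      exact h6
    exact (mul_eq_zero.mp h5).resolve_left hs0
  obtain ⟨j1, j2, hj, g1, g2⟩ := F.two_good
  have k1 := key j1 g1
  have k2 := key j2 g2
  refine eq_zero_of_dot (v := ![p (y j1), p (y j2), p r4, p r5])
    (F.gp.four (F.hy j1) (F.hy j2) F.hr4 F.hr5 (fun h => hj (F.yinj h)) (F.y4 j1) (F.y5 j1)
      (F.y4 j2) (F.y5 j2) F.h45) ?_
  intro i0
  fin_cases i0
  · simpa using k1
  · simpa using k2
  · simpa using hZ0.1.2.1 r4 F.hr4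
  · simpa using hZ0.2.2.2

end Frame

end GR.E4
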