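import Pool.Agent.Lib.GR.BLocTri
import Pool.Agent.Lib.GR.BLocStar

/-!
# The analysis of the star of the stress at a body vertex (`T` analysis)
-/

set_option linter.unusedSectionVars false

namespace GR

namespace E4

open Filter Module

open scoped Matrix

variable {k : Type*} [Field k] {V : Type*} [DecidableEq V]

/-- the general position hypotheses for the position `x` -/
structure TCfg (U : Finset V) (p : V → Vec k) (b c d e : V) (x : Vec k) : Prop where
  gp : GenPos p (U : Set V)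
  hb : b ∈ U
  hc : c ∈ U
  hd : d ∈ U
  he : e ∈ U
  hbc : b ≠ c
  hbd : b ≠ d
  hbe : b ≠ e
  hcd : c ≠ d
  hce : c ≠ e
  hde : d ≠ e
  li : ∀ y ∈ U, ∀ y' ∈ U, ∀ y'' ∈ U, y ≠ y' → y ≠ y'' → y' ≠ y'' →
    LinearIndependent k ![x, p y, p y', p y'']

/-- genericity of `x` with respect to `q = p e - t p d` and the cubic -/
structure TGen (U : Finset V) (p : V → Vec k) (b c d e : V) (t : k) (x : Vec k) : Prop where
  lq : ∀ y ∈ U, ∀ y' ∈ U, y ≠ y' → y ≠ d → y ≠ e → y' ≠ d → y' ≠ e →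
    LinearIndependent k ![x, p e - t • p d, p y, p y']
  cub : ∀ r, r = d ∨ r = e → ∀ y ∈ U, ∀ y' ∈ U, y ≠ y' → y ≠ b → y ≠ c → y ≠ d → y ≠ e →
    y' ≠ b → y' ≠ c → y' ≠ d → y' ≠ e →
    (tri x (p e) (p d) ⬝ᵥ p y) * (tri x (p b) (p y) ⬝ᵥ p y') * (tri x (p c) (p y') ⬝ᵥ p r)
    + (tri x (p e) (p d) ⬝ᵥ p y') * (tri x (p c) (p y') ⬝ᵥ p y) * (tri x (p b) (p y) ⬝ᵥ p r) ≠ 0

/-- the motion `Y` -/
structure TMot (U : Finset V) (p : V → Vec k) (b c d e : V) (x : Vec k) (t : k)
    (J : Finset (Finset V)) (Y : V → Vec k) : Prop where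
  yb : Y b = 0
  yc : Y c = 0
  ydx : Y d ⬝ᵥ x = 0
  ydd : Y d ⬝ᵥ p d = 0
  yde : Y d ⬝ᵥ p e = 0
  ye : Y e = t • Y d
  ne : Y d ≠ 0
  loop : ∀ y ∈ U, Y y ⬝ᵥ p y = 0
  rigx : ∀ N ∈ J, ∀ y ∈ N, Y y ⬝ᵥ x = 0
  rig : ∀ N ∈ J, ∀ y ∈ N, ∀ y' ∈ N, Y y ⬝ᵥ p y' + Y y' ⬝ᵥ p y = 0
  max : ∀ N ∈ J, ∀ y ∈ U, Y y ⬝ᵥ x = 0 → (∀ y' ∈ N, Y y ⬝ᵥ p y' + Y y' ⬝ᵥ p y = 0) → y ∈ N

variable {U X : Finset V} {p : V → Vec k} {E : Set (Sym2 V)} {b c d e : V} {x : Vec k} {t : k}
  {s : V → k} {J : Finset (Finset V)} {a : Finset V → V → k}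

lemma TCfg.lide (G : TCfg U p b c d e x) : LinearIndependent k ![x, p d, p e] :=
  li_three_of_four (G.li d G.hd e G.he b G.hb G.hde G.hbd.symm G.hbe.symm)

/-- the space of the `Z ∈ Wg` with `Z d ⬝ x = 0` is one-dimensional -/
lemma exists_TMot (H : XData (Kg U E p b c d e) U X p b c d e x t s J a)
    (G : TCfg U p b c d e x) :
    ∃ Y ∈ Wg (Kg U E p b c d e) X x, TMot U p b c d e x t J Y := by
  have hfd : FiniteDimensional k (Wg (Kg U E p b c d e) X x) :=
    FiniteDimensional.of_finrank_pos (by rw [H.dim]; norm_num)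
  let φ : Wg (Kg U E p b c d e) X x →ₗ[k] k :=
    { toFun := fun Z => Z.1 d ⬝ᵥ x
      map_add' := fun Z Z' => by simp [add_dotProduct]
      map_smul' := fun r Z => by simp }
  have hker : ∃ Z : Wg (Kg U E p b c d e) X x, φ Z = 0 ∧ Z ≠ 0 := by
    by_contra hcon
    push Not at hcon
    have hinj : Function.Injective φ := by
      rw [← LinearMap.ker_eq_bot, LinearMap.ker_eq_bot']
      exact hcon
    have := LinearMap.finrank_le_finrank_of_injective hinj
    rw [H.dim, finrank_self] at this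
    omega
  obtain ⟨⟨Y, hY⟩, hφ, hne⟩ := hker
  have hx : Y d ⬝ᵥ x = 0 := hφ
  have hne' : Y d ≠ 0 := fun h0 => hne (Subtype.ext (H.inj Y hY h0))
  have hYe := H.ratio Y hY
  -- one-dimensional
  have hone : ∀ Z ∈ Wg (Kg U E p b c d e) X x, Z d ⬝ᵥ x = 0 → ∃ r : k, Z = r • Y := by
    intro Z hZ hZx
    obtain ⟨r, hr⟩ := perp_three G.lide hx (Kg_loop hY.1 G.hd) (Kg_de hY.1) hZx
      (Kg_loop hZ.1 G.hd) (Kg_de hZ.1) hne'
    refine ⟨r, ?_⟩
    have h1 : Z - r • Y = 0 := H.inj _ (Submodule.sub_mem _ hZ (Submodule.smul_mem _ r hY)) (by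
      rw [Pi.sub_apply, Pi.smul_apply, hr, sub_self])
    exact sub_eq_zero.mp h1
  refine ⟨Y, hY, ⟨Kg_zb hY.1, Kg_zc hY.1, hx, Kg_loop hY.1 G.hd, Kg_de hY.1, hYe, hne',
    fun y hy => Kg_loop hY.1 hy, fun N hN y hy => (H.rig N hN Y hY hx y hy).1,
    fun N hN y hy y' hy' => (H.rig N hN Y hY hx y hy).2 y' hy', ?_⟩⟩
  intro N hN y hy hyx hyN
  refine H.max N hN y hy fun Z hZ hZx => ?_
  obtain ⟨r, rfl⟩ := hone Z hZ hZx
  refine ⟨by rw [Pi.smul_apply, smul_dotProduct, hyx, smul_zero], fun y' hy' => ?_⟩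
  rw [map_smul, eps_apply, hyN y' hy', smul_zero]

section Mot

variable {Y : V → Vec k}

lemma TMot.dot_ne (M : TMot U p b c d e x t J Y) (G : TCfg U p b c d e x) {v : V} (hv : v ∈ U)
    (hvd : v ≠ d) (hve : v ≠ e) : Y d ⬝ᵥ p v ≠ 0 := fun h0 =>
  M.ne (perp_four (G.li d G.hd e G.he v hv G.hde hvd.symm hve.symm) M.ydx M.ydd M.yde h0)

lemma TMot.rod (M : TMot U p b c d e x t J Y) (ht : t ≠ 0) {r : V} (hr : r = d ∨ r = e) :
    ∃ τ : k, τ ≠ 0 ∧ Y r = τ • Y d := by
  rcases hr with rfl | rfl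
  · exact ⟨1, one_ne_zero, by rw [one_smul]⟩
  · exact ⟨t, ht, M.ye⟩

/-- (F1) a clique with a rod end contains no body vertex -/
lemma TMot.F1 (M : TMot U p b c d e x t J Y) (G : TCfg U p b c d e x) (ht : t ≠ 0)
    {N : Finset V} (hN : N ∈ J) {r v : V} (hr : r = d ∨ r = e) (hrN : r ∈ N)
    (hv : v = b ∨ v = c) : v ∉ N := by
  intro hvN
  obtain ⟨τ, hτ, hYr⟩ := M.rod ht hr
  have h1 := M.rig N hN r hrN v hvN
  have hYv : Y v = 0 := by
    rcases hv with rfl | rfl
    exacts [M.yb, M.yc]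
  have hvU : v ∈ U := by
    rcases hv with rfl | rfl
    exacts [G.hb, G.hc]
  rw [hYv, zero_dotProduct, add_zero, hYr, smul_dotProduct, smul_eq_mul] at h1
  refine M.dot_ne G hvU ?_ ?_ ((mul_eq_zero.mp h1).resolve_left hτ)
  · rcases hv with rfl | rfl
    exacts [G.hbd, G.hcd]
  · rcases hv with rfl | rfl
    exacts [G.hbe, G.hce]

/-- the rotation of a clique -/
lemma TMot.exists_L (M : TMot U p b c d e x t J Y) (G : TCfg U p b c d e x)
    {N : Finset V} (hN : N ∈ J) (hNU : N ⊆ U) (h4 : 4 ≤ N.card) :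
    ∃ L : Vec k →ₗ[k] Vec k, IsSkew L ∧ L x = 0 ∧ ∀ y ∈ N, Y y = L (p y) := by
  have hgp : GenPos p (N : Set V) := G.gp.mono (by exact_mod_cast hNU)
  obtain ⟨L, hL, h⟩ := exists_skew_of_rigid hgp (by omega) (fun v hv => M.loop v (hNU hv))
    (fun y hy y' hy' => M.rig N hN y hy y' hy')
  have hS := isSkew_of_mem_Skew hL
  refine ⟨Matrix.mulVecLin L, hS, ?_, fun y hy => by rw [Matrix.mulVecLin_apply]; exact h y hy⟩
  refine dotProduct_eq_zero _ fun z => ?_
  obtain ⟨cf, rfl⟩ := (hgp.spans h4) z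
  rw [dotProduct_sum]
  refine Finset.sum_eq_zero fun y hy => ?_
  rw [dotProduct_smul, hS.swap, Matrix.mulVecLin_apply, ← h y hy, M.rigx N hN y hy, neg_zero,
    smul_zero]

/-- cliques with the same rotation are equal -/
lemma TMot.eq_of_L (M : TMot U p b c d e x t J Y) {N N' : Finset V} (hN : N ∈ J) (hN' : N' ∈ J)
    (hNU : N ⊆ U) (hNU' : N' ⊆ U) {L : Vec k →ₗ[k] Vec k} (hL : IsSkew L)
    (h : ∀ y ∈ N, Y y = L (p y)) (h' : ∀ y ∈ N', Y y = L (p y)) : N = N' := by
  apply Finset.Subset.antisymm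
  · intro y hy
    refine M.max N' hN' y (hNU hy) (M.rigx N hN y hy) fun y' hy' => ?_
    rw [h y hy, h' y' hy', hL.swap]
    ring
  · intro y hy
    refine M.max N hN y (hNU' hy) (M.rigx N' hN' y hy) fun y' hy' => ?_
    rw [h' y hy, h y' hy', hL.swap]
    ring

/-- (F2) -/
lemma TMot.F2 (M : TMot U p b c d e x t J Y) (G : TCfg U p b c d e x)
    {N N' : Finset V} (hN : N ∈ J) (hN' : N' ∈ J) (hNU : N ⊆ U) (hNU' : N' ⊆ U)
    (h4 : 4 ≤ N.card) (h4' : 4 ≤ N'.card) (hne : N ≠ N') (hd : d ∈ N) (he : e ∈ N') {y : V}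
    (hy : y ∈ N) (hy' : y ∈ N') (hyd : y ≠ d) (hye : y ≠ e) : False := by
  obtain ⟨L, hL, hLx, hLN⟩ := M.exists_L G hN hNU h4
  obtain ⟨L', hL', hLx', hLN'⟩ := M.exists_L G hN' hNU' h4'
  have hD : IsSkew (L - L') := hL.sub hL'
  have hDx : (L - L') x = 0 := by rw [LinearMap.sub_apply, hLx, hLx', sub_self]
  have hDy : (L - L') (p y) = 0 := by
    rw [LinearMap.sub_apply, ← hLN y hy, ← hLN' y hy', sub_self]
  have hli := G.li y (hNU hy) d G.hd e G.he hyd hye G.hde
  have hDd : (L - L') (p d) = 0 := by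
    refine perp_four hli ?_ ?_ (hD _) ?_
    · rw [hD.swap, hDx, zero_dotProduct, neg_zero]
    · rw [hD.swap, hDy, zero_dotProduct, neg_zero]
    · rw [LinearMap.sub_apply, sub_dotProduct, ← hLN d hd, M.yde, hL'.swap, ← hLN' e he, M.ye,
        smul_dotProduct, M.ydd]
      simp
  have hD0 : L - L' = 0 := hD.eq_zero_of_three (li_three_of_four hli) hDx hDy hDd
  have hLL : L = L' := sub_eq_zero.mp hD0
  exact hne (M.eq_of_L hN hN' hNU hNU' hL hLN (by rw [hLL]; exact hLN'))

/-- (F3) -/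
lemma TMot.F3 (M : TMot U p b c d e x t J Y) (G : TCfg U p b c d e x) (ht : t ≠ 0)
    (Q : TGen U p b c d e t x)
    {N N' : Finset V} (hN : N ∈ J) (hN' : N' ∈ J) (hNU : N ⊆ U)
    (h4 : 4 ≤ N.card) (hd : d ∈ N) (he : e ∈ N) {v : V} (hv : v = b ∨ v = c)
    (hvN : v ∈ N') {y : V} (hy : y ∈ N) (hy' : y ∈ N') : False := by
  obtain ⟨L, hL, hLx, hLN⟩ := M.exists_L G hN hNU h4
  have hyd : y ≠ d := by
    rintro rfl
    exact M.F1 G ht hN' (Or.inl rfl) hy' hv hvN
  have hye : y ≠ e := by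
    rintro rfl
    exact M.F1 G ht hN' (Or.inr rfl) hy' hv hvN
  have hyv : y ≠ v := by
    rintro rfl
    exact M.F1 G ht hN (Or.inl rfl) hd hv hy
  have hvU : v ∈ U := by
    rcases hv with rfl | rfl
    exacts [G.hb, G.hc]
  have hvd : v ≠ d := by
    rcases hv with rfl | rfl
    exacts [G.hbd, G.hcd]
  have hve : v ≠ e := by
    rcases hv with rfl | rfl
    exacts [G.hbe, G.hce]
  have hYv : Y v = 0 := by
    rcases hv with rfl | rfl
    exacts [M.yb, M.yc]
  have hq : L (p e - t • p d) = 0 := by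
    rw [map_sub, map_smul, ← hLN e he, ← hLN d hd, M.ye, sub_self]
  have hli := Q.lq y (hNU hy) v hvU hyv hyd hye hvd hve
  have hYy : Y y = 0 := by
    refine perp_four hli (M.rigx N hN y hy) ?_ (M.loop y (hNU hy)) ?_
    · rw [hLN y hy, hL.swap, hq, zero_dotProduct, neg_zero]
    · have := M.rig N' hN' y hy' v hvN
      rwa [hYv, zero_dotProduct, add_zero] at this
  have hL0 : L = 0 := hL.eq_zero_of_three (li_three_of_four hli) hLx hq (by rw [← hLN y hy, hYy])
  exact M.ne (by rw [hLN d hd, hL0]; rfl)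

/-- (F4) -/
lemma TMot.F4 (M : TMot U p b c d e x t J Y) (G : TCfg U p b c d e x) (ht : t ≠ 0)
    {N N' : Finset V} (hN : N ∈ J) (hN' : N' ∈ J) (hNU : N ⊆ U) (hNU' : N' ⊆ U)
    (h4' : 4 ≤ N'.card) {r : V} (hr : r = d ∨ r = e) (hrN : r ∈ N)
    (hb : b ∈ N') (hc : c ∈ N') {y : V} (hy : y ∈ N) (hy' : y ∈ N') : False := by
  obtain ⟨L, hL, hLx, hLN⟩ := M.exists_L G hN' hNU' h4'
  have hyd : y ≠ d := by
    rintro rfl
    exact M.F1 G ht hN' (Or.inl rfl) hy' (Or.inl rfl) hb
  have hye : y ≠ e := by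
    rintro rfl
    exact M.F1 G ht hN' (Or.inr rfl) hy' (Or.inl rfl) hb
  have hL0 : L = 0 := hL.eq_zero_of_three
    (li_three_of_four (G.li b G.hb c G.hc d G.hd G.hbc G.hbd G.hcd)) hLx
    (by rw [← hLN b hb, M.yb]) (by rw [← hLN c hc, M.yc])
  have hYy : Y y = 0 := by rw [hLN y hy', hL0]; rfl
  obtain ⟨τ, hτ, hYr⟩ := M.rod ht hr
  have h1 := M.rig N hN r hrN y hy
  rw [hYy, zero_dotProduct, add_zero, hYr, smul_dotProduct, smul_eq_mul] at h1
  exact M.dot_ne G (hNU hy) hyd hye ((mul_eq_zero.mp h1).resolve_left hτ)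

/-- (F5) -/
lemma TMot.F5 (M : TMot U p b c d e x t J Y) (G : TCfg U p b c d e x) (ht : t ≠ 0)
    (Q : TGen U p b c d e t x)
    {N N₁ N₂ : Finset V} (hN : N ∈ J) (hN₁ : N₁ ∈ J) (hN₂ : N₂ ∈ J) (hNU : N ⊆ U)
    {r : V} (hr : r = d ∨ r = e) (hrN : r ∈ N)
    (hb : b ∈ N₁) (hc : c ∈ N₂) {y y' : V} (hy : y ∈ N) (hy1 : y ∈ N₁) (hy' : y' ∈ N)
    (hy2 : y' ∈ N₂) : False := by
  have hyd : y ≠ d := by
    rintro rfl
    exact M.F1 G ht hN₁ (Or.inl rfl) hy1 (Or.inl rfl) hb
  have hye : y ≠ e := by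
    rintro rfl
    exact M.F1 G ht hN₁ (Or.inr rfl) hy1 (Or.inl rfl) hb
  have hyd' : y' ≠ d := by
    rintro rfl
    exact M.F1 G ht hN₂ (Or.inl rfl) hy2 (Or.inr rfl) hc
  have hye' : y' ≠ e := by
    rintro rfl
    exact M.F1 G ht hN₂ (Or.inr rfl) hy2 (Or.inr rfl) hc
  have hyb : y ≠ b := by
    rintro rfl
    exact M.F1 G ht hN hr hrN (Or.inl rfl) hy
  have hyc : y ≠ c := by
    rintro rfl
    exact M.F1 G ht hN hr hrN (Or.inr rfl) hy
  have hyb' : y' ≠ b := by
    rintro rfl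
    exact M.F1 G ht hN hr hrN (Or.inl rfl) hy'
  have hyc' : y' ≠ c := by
    rintro rfl
    exact M.F1 G ht hN hr hrN (Or.inr rfl) hy'
  obtain ⟨τ, hτ, hYr⟩ := M.rod ht hr
  have hYyb : Y y ⬝ᵥ p b = 0 := by
    have := M.rig N₁ hN₁ y hy1 b hb
    rwa [M.yb, zero_dotProduct, add_zero] at this
  have hYyc : Y y' ⬝ᵥ p c = 0 := by
    have := M.rig N₂ hN₂ y' hy2 c hc
    rwa [M.yc, zero_dotProduct, add_zero] at this
  have hYx : Y y ⬝ᵥ x = 0 := M.rigx N hN y hy
  have hYx' : Y y' ⬝ᵥ x = 0 := M.rigx N hN y' hy'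
  have hyU := hNU hy
  have hyU' := hNU hy'
  have e1 := M.rig N hN r hrN y hy
  have e2 := M.rig N hN r hrN y' hy'
  have e3 := M.rig N hN y hy y' hy'
  by_cases hyy : y = y'
  · subst hyy
    have hYy : Y y = 0 := perp_four (G.li y hyU b G.hb c G.hc hyb hyc G.hbc) hYx (M.loop y hyU)
      hYyb hYyc
    rw [hYy, zero_dotProduct, add_zero, hYr, smul_dotProduct, smul_eq_mul] at e1
    exact M.dot_ne G hyU hyd hye ((mul_eq_zero.mp e1).resolve_left hτ)
  · -- proportionality
    have l1 : LinearIndependent k ![x, p e, p d] :=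
      li_three_of_four (G.li e G.he d G.hd b G.hb G.hde.symm G.hbe.symm G.hbd.symm)
    have l2 : LinearIndependent k ![x, p b, p y] :=
      li_three_of_four (G.li b G.hb y hyU c G.hc hyb.symm G.hbc hyc)
    have l3 : LinearIndependent k ![x, p c, p y'] :=
      li_three_of_four (G.li c G.hc y' hyU' b G.hb hyc'.symm G.hbc.symm hyb')
    obtain ⟨l, hl⟩ := perp_three (g := tri x (p e) (p d)) (g' := Y d) l1 (tri_self1 _ _ _)
      (tri_self2 _ _ _) (tri_self3 _ _ _) M.ydx M.yde M.ydd (tri_ne_zero l1)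
    obtain ⟨m, hm⟩ := perp_three (g := tri x (p b) (p y)) (g' := Y y) l2 (tri_self1 _ _ _)
      (tri_self2 _ _ _) (tri_self3 _ _ _) hYx hYyb (M.loop y hyU) (tri_ne_zero l2)
    obtain ⟨m', hm'⟩ := perp_three (g := tri x (p c) (p y')) (g' := Y y') l3 (tri_self1 _ _ _)
      (tri_self2 _ _ _) (tri_self3 _ _ _) hYx' hYyc (M.loop y' hyU') (tri_ne_zero l3)
    have hl0 : l ≠ 0 := by
      rintro rfl
      exact M.ne (by rw [hl, zero_smul])
    rw [hYr, hl, hm] at e1
    rw [hYr, hl, hm'] at e2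
    rw [hm, hm'] at e3
    simp only [smul_dotProduct, smul_eq_mul] at e1 e2 e3
    refine Q.cub r hr y hyU y' hyU' hyy hyb hyc hyd hye hyb' hyc' hyd' hye' ?_
    have key : (τ * l) * ((tri x (p e) (p d) ⬝ᵥ p y) * (tri x (p b) (p y) ⬝ᵥ p y')
        * (tri x (p c) (p y') ⬝ᵥ p r)
        + (tri x (p e) (p d) ⬝ᵥ p y') * (tri x (p c) (p y') ⬝ᵥ p y)
          * (tri x (p b) (p y) ⬝ᵥ p r)) = 0 := by
      linear_combination ((tri x (p b) (p y) ⬝ᵥ p y') * (tri x (p c) (p y') ⬝ᵥ p r)) * e1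
        + ((tri x (p c) (p y') ⬝ᵥ p y) * (tri x (p b) (p y) ⬝ᵥ p r)) * e2
        - ((tri x (p b) (p y) ⬝ᵥ p r) * (tri x (p c) (p y') ⬝ᵥ p r)) * e3
    exact (mul_eq_zero.mp key).resolve_left (mul_ne_zero hτ hl0)

end Mot

section Count

/-- points covered twice -/
lemma sum_sset_le {J : Finset (Finset V)} {a : Finset V → V → k} :
    ∑ N ∈ J, (sset N (a N)).card ≤ (once J a).card
      + ∑ x ∈ J.offDiag, (sset x.1 (a x.1) ∩ sset x.2 (a x.2)).card := by
  classical
  have h1 : ∀ N ∈ J, (sset N (a N)).card ≤ (sset N (a N) ∩ once J a).card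
      + ∑ M ∈ J.erase N, (sset N (a N) ∩ sset M (a M)).card := by
    intro N hN
    have hsub : sset N (a N) ⊆ (sset N (a N) ∩ once J a) ∪
        (J.erase N).biUnion fun M => sset N (a N) ∩ sset M (a M) := by
      intro y hy
      rw [Finset.mem_union, Finset.mem_inter, Finset.mem_biUnion]
      by_cases ho : y ∈ once J a
      · exact Or.inl ⟨hy, ho⟩
      · right
        by_contra hcon
        push Not at hcon
        apply ho
        rw [mem_once_iff]
        refine ⟨N, hN, hy, fun M hM hyM => ?_⟩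
        by_contra hne
        exact hcon M (Finset.mem_erase.mpr ⟨hne, hM⟩) (Finset.mem_inter.mpr ⟨hy, hyM⟩)
    refine (Finset.card_le_card hsub).trans ((Finset.card_union_le _ _).trans ?_)
    exact Nat.add_le_add_left Finset.card_biUnion_le _
  refine (Finset.sum_le_sum h1).trans ?_
  rw [Finset.sum_add_distrib]
  refine Nat.add_le_add ?_ ?_
  · rw [← Finset.card_biUnion]
    · refine Finset.card_le_card fun y hy => ?_
      obtain ⟨N, -, hyN⟩ := Finset.mem_biUnion.mp hy
      exact (Finset.mem_inter.mp hyN).2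
    · intro N hN M hM hne
      show Disjoint (sset N (a N) ∩ once J a) (sset M (a M) ∩ once J a)
      rw [Finset.disjoint_left]
      intro y hy hy'
      obtain ⟨h2, h3⟩ := Finset.mem_inter.mp hy
      obtain ⟨h4, -⟩ := Finset.mem_inter.mp hy'
      obtain ⟨N₀, -, -, hu⟩ := mem_once_iff.mp h3
      exact hne ((hu N hN h2).trans (hu M hM h4).symm)
  · refine le_of_eq (Finset.sum_finset_product J.offDiag J (fun N => J.erase N) (fun x => ?_)
      (f := fun x => (sset x.1 (a x.1) ∩ sset x.2 (a x.2)).card)).symm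
    rw [Finset.mem_offDiag, Finset.mem_erase]
    exact ⟨fun h => ⟨h.1, fun h' => h.2.2 h'.symm, h.2.1⟩, fun h => ⟨h.1, h.2.2, fun h' => h.2.1 h'.symm⟩⟩

end Count

section Main

/-- the possible support of `s` -/
def Tset (X : Finset V) (b c d e : V) : Finset V := {b, c, d, e} ∪ X

lemma mem_Tset {X : Finset V} {b c d e y : V} :
    y ∈ Tset X b c d e ↔ y = b ∨ y = c ∨ y = d ∨ y = e ∨ y ∈ X := by
  simp only [Tset, Finset.mem_union, Finset.mem_insert, Finset.mem_singleton]
  tauto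

lemma card_four_le {b c d e : V} : ({b, c, d, e} : Finset V).card ≤ 4 := Finset.card_le_four

lemma card_Tset_le (X : Finset V) (b c d e : V) : (Tset X b c d e).card ≤ 4 + X.card :=
  (Finset.card_union_le _ _).trans (Nat.add_le_add_right card_four_le _)

lemma once_subset_U (H : XData (Kg U E p b c d e) U X p b c d e x t s J a) :
    once J a ⊆ U := by
  intro y hy
  obtain ⟨N, hN, hyN, -⟩ := mem_once_iff.mp hy
  exact H.sub N hN (mem_sset.mp hyN).1

lemma s_ne_of_once (H : XData (Kg U E p b c d e) U X p b c d e x t s J a) {y : V}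
    (hy : y ∈ once J a) : s y ≠ 0 := by
  rw [H.asum y (once_subset_U H hy)]
  exact sum_ne_zero_of_once (fun N hN y hay => H.asupp N hN y hay) hy

lemma once_subset (H : XData (Kg U E p b c d e) U X p b c d e x t s J a) :
    once J a ⊆ Tset X b c d e := fun y hy => mem_Tset.mpr (H.supp y (s_ne_of_once H hy))

lemma N_four_le (H : XData (Kg U E p b c d e) U X p b c d e x t s J a) {N : Finset V}
    (hN : N ∈ J) : 4 ≤ N.card := by
  classical
  exact (H.afour N hN).trans (Finset.card_le_card fun y hy => (mem_sset.mp hy).1)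

/-- a point with `s y ≠ 0` lies in some support -/
lemma exists_mem_sset (H : XData (Kg U E p b c d e) U X p b c d e x t s J a) {y : V}
    (hyU : y ∈ U) (hy : s y ≠ 0) : ∃ N ∈ J, y ∈ sset N (a N) := by
  rw [H.asum y hyU] at hy
  obtain ⟨N, hN, hne⟩ := Finset.exists_ne_zero_of_sum_ne_zero hy
  exact ⟨N, hN, mem_sset.mpr ⟨H.asupp N hN y hne, hne⟩⟩

/-- if only one clique contains `y` then `s y = a N y` -/
lemma s_eq_of_unique (H : XData (Kg U E p b c d e) U X p b c d e x t s J a) {y : V} (hyU : y ∈ U)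
    {N : Finset V} (hN : N ∈ J) (h : ∀ M ∈ J, y ∈ sset M (a M) → M = N) : s y = a N y := by
  rw [H.asum y hyU]
  refine Finset.sum_eq_single_of_mem N hN fun M hM hne => ?_
  by_contra hcon
  exact hne (h M hM (mem_sset.mpr ⟨H.asupp M hM y hcon, hcon⟩))

lemma sd_ne (H : XData (Kg U E p b c d e) U X p b c d e x t s J a) : s d ≠ 0 := by
  rw [H.sd]
  exact neg_ne_zero.mpr H.t0

lemma se_ne (H : XData (Kg U E p b c d e) U X p b c d e x t s J a) : s e ≠ 0 := by
  rw [H.se]
  exact one_ne_zero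

/-- (F6) -/
lemma F6 (H : XData (Kg U E p b c d e) U X p b c d e x t s J a) (G : TCfg U p b c d e x)
    (Q : TGen U p b c d e t x) {N : Finset V} (hN : N ∈ J) (hd : a N d = -t) (he : a N e = 1)
    (h4 : (sset N (a N)).card = 4) : False := by
  classical
  have hdS : d ∈ sset N (a N) := mem_sset.mpr ⟨H.asupp N hN d (by
    rw [hd]; exact neg_ne_zero.mpr H.t0), by rw [hd]; exact neg_ne_zero.mpr H.t0⟩
  have heS : e ∈ sset N (a N) := mem_sset.mpr ⟨H.asupp N hN e (by
    rw [he]; exact one_ne_zero), by rw [he]; exact one_ne_zero⟩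
  set R := ((sset N (a N)).erase d).erase e with hR
  have heS' : e ∈ (sset N (a N)).erase d := Finset.mem_erase.mpr ⟨G.hde.symm, heS⟩
  have hRc : R.card = 2 := by
    rw [hR, Finset.card_erase_of_mem heS', Finset.card_erase_of_mem hdS, h4]
  obtain ⟨z, z', hzz, hRz⟩ := Finset.card_eq_two.mp hRc
  obtain ⟨c₁, hc₁⟩ := H.adep N hN
  have h1 : ∑ y ∈ N, a N y • p y = ∑ y ∈ sset N (a N), a N y • p y := by
    symm
    refine Finset.sum_subset (fun y hy => (mem_sset.mp hy).1) fun y hy hyS => ?_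
    have : a N y = 0 := by
      by_contra hne
      exact hyS (mem_sset.mpr ⟨hy, hne⟩)
    rw [this, zero_smul]
  rw [h1, ← Finset.add_sum_erase _ _ hdS, ← Finset.add_sum_erase _ _ heS', ← hR, hRz,
    Finset.sum_pair hzz, hd, he] at hc₁
  have hzR : z ∈ R := by rw [hRz]; simp
  have hzR' : z' ∈ R := by rw [hRz]; simp
  rw [hR, Finset.mem_erase, Finset.mem_erase, mem_sset] at hzR hzR'
  have hli := Q.lq z (H.sub N hN hzR.2.2.1) z' (H.sub N hN hzR'.2.2.1) hzz hzR.2.1 hzR.1
    hzR'.2.1 hzR'.1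
  have h2 := Fintype.linearIndependent_iff.mp hli ![-c₁, 1, a N z, a N z'] (by
    rw [Fin.sum_univ_four]
    show -c₁ • x + (1 : k) • (p e - t • p d) + a N z • p z + a N z' • p z' = 0
    have : a N z • p z = c₁ • x - a N z' • p z' - (1 : k) • p e - -t • p d := by
      rw [← hc₁]; abel
    rw [this, one_smul, one_smul, neg_smul, neg_smul]
    abel) 1
  simp at h2

/-- counting when there is more than one clique -/
lemma count_once (H : XData (Kg U E p b c d e) U X p b c d e x t s J a) (h2 : 2 ≤ J.card) :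
    ∃ s₀ : ℤ, 2 * s₀ ≤ 3 * J.card - 4 ∧
      ∑ N ∈ J, ((sset N (a N)).card : ℤ) ≤ (once J a).card + 2 * s₀ :=
  sum_sset_le_once (H.count J subset_rfl h2)

lemma four_mul_le (H : XData (Kg U E p b c d e) U X p b c d e x t s J a) :
    (4 : ℤ) * J.card ≤ ∑ N ∈ J, ((sset N (a N)).card : ℤ) := by
  have : ∑ N ∈ J, (4 : ℤ) ≤ ∑ N ∈ J, ((sset N (a N)).card : ℤ) :=
    Finset.sum_le_sum fun N hN => by exact_mod_cast H.afour N hN
  rw [Finset.sum_const, nsmul_eq_mul] at this
  linarith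

/-- all supports have four points if their sum is `4 |J|` -/
lemma all_four (H : XData (Kg U E p b c d e) U X p b c d e x t s J a)
    (h : ∑ N ∈ J, ((sset N (a N)).card : ℤ) ≤ 4 * J.card) {N : Finset V} (hN : N ∈ J) :
    (sset N (a N)).card = 4 := by
  by_contra hne
  have h5 : 4 < (sset N (a N)).card := lt_of_le_of_ne (H.afour N hN) (Ne.symm hne)
  have : ∑ N ∈ J, (4 : ℤ) < ∑ N ∈ J, ((sset N (a N)).card : ℤ) :=
    Finset.sum_lt_sum (fun N hN => by exact_mod_cast H.afour N hN) ⟨N, hN, by exact_mod_cast h5⟩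
  rw [Finset.sum_const, nsmul_eq_mul] at this
  linarith

/-- the supports in different cliques meet in at most one point -/
lemma inter_sset_le (H : XData (Kg U E p b c d e) U X p b c d e x t s J a) {N M : Finset V}
    (hN : N ∈ J) (hM : M ∈ J) (hne : N ≠ M) : (sset N (a N) ∩ sset M (a M)).card ≤ 1 := by
  refine le_trans (Finset.card_le_card ?_) (inter_card_le_one H.count hN hM hne)
  intro y hy
  rw [Finset.mem_inter] at hy ⊢
  exact ⟨(mem_sset.mp hy.1).1, (mem_sset.mp hy.2).1⟩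

/-- there are at most two cliques -/
lemma card_J_le_two (H : XData (Kg U E p b c d e) U X p b c d e x t s J a)
    (G : TCfg U p b c d e x) (Q : TGen U p b c d e t x) {Y : V → Vec k}
    (M : TMot U p b c d e x t J Y) (hX : X.card ≤ 4) : J.card ≤ 2 := by
  classical
  by_contra hcon
  push Not at hcon
  obtain ⟨s₀, hs1, hs2⟩ := count_once H (by omega)
  have h4 := four_mul_le H
  have hOsub := once_subset H
  have hO1 : (once J a).card ≤ (Tset X b c d e).card := Finset.card_le_card hOsub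
  have hT := card_Tset_le X b c d e
  have hO8 : (once J a).card ≤ 8 := by omega
  have hO8' : ((once J a).card : ℤ) ≤ 8 := by exact_mod_cast hO8
  have hm : J.card = 3 ∨ J.card = 4 := by
    have h5 : (J.card : ℤ) ≤ 4 := by linarith
    have h6 : J.card ≤ 4 := by exact_mod_cast h5
    omega
  have hO8'' : 8 ≤ (once J a).card := by
    rcases hm with hm | hm <;> rw [hm] at hs1 h4 <;> push_cast at hs1 h4 <;> omega
  have hsum : ∑ N ∈ J, ((sset N (a N)).card : ℤ) ≤ 4 * J.card := by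
    rcases hm with hm | hm <;> rw [hm] at hs1 h4 ⊢ <;> push_cast at hs1 h4 ⊢ <;> omega
  have hOT : once J a = Tset X b c d e :=
    Finset.eq_of_subset_of_card_le hOsub (by omega)
  have hbO : b ∈ once J a := by rw [hOT, mem_Tset]; simp
  have hcO : c ∈ once J a := by rw [hOT, mem_Tset]; simp
  have hdO : d ∈ once J a := by rw [hOT, mem_Tset]; simp
  have heO : e ∈ once J a := by rw [hOT, mem_Tset]; simp
  obtain ⟨Nb, hNb, hbS, hbu⟩ := mem_once_iff.mp hbO
  obtain ⟨Nc, hNc, hcS, hcu⟩ := mem_once_iff.mp hcO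
  obtain ⟨Nd, hNd, hdS, hdu⟩ := mem_once_iff.mp hdO
  obtain ⟨Ne, hNe, heS, heu⟩ := mem_once_iff.mp heO
  have hbN := (mem_sset.mp hbS).1
  have hcN := (mem_sset.mp hcS).1
  have hdN := (mem_sset.mp hdS).1
  have heN := (mem_sset.mp heS).1
  have hne : Nd ≠ Ne := by
    intro h
    refine F6 H G Q hNd ?_ ?_ (all_four H hsum hNd)
    · rw [← s_eq_of_unique H G.hd hNd hdu, H.sd]
    · rw [h, ← s_eq_of_unique H G.he hNe heu, H.se]
  have hbd : Nb ≠ Nd := fun h => M.F1 G H.t0 hNd (Or.inl rfl) hdN (Or.inl rfl) (h ▸ hbN)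
  have hbe : Nb ≠ Ne := fun h => M.F1 G H.t0 hNe (Or.inr rfl) heN (Or.inl rfl) (h ▸ hbN)
  have hcd : Nc ≠ Nd := fun h => M.F1 G H.t0 hNd (Or.inl rfl) hdN (Or.inr rfl) (h ▸ hcN)
  have hce : Nc ≠ Ne := fun h => M.F1 G H.t0 hNe (Or.inr rfl) heN (Or.inr rfl) (h ▸ hcN)
  have disj_de : sset Nd (a Nd) ∩ sset Ne (a Ne) = ∅ := by
    rw [Finset.eq_empty_iff_forall_notMem]
    intro y hy
    obtain ⟨hy1, hy2⟩ := Finset.mem_inter.mp hy
    refine M.F2 G hNd hNe (H.sub _ hNd) (H.sub _ hNe) (N_four_le H hNd) (N_four_le H hNe) hne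
      hdN heN (mem_sset.mp hy1).1 (mem_sset.mp hy2).1 ?_ ?_
    · rintro rfl
      exact hne (hdu Ne hNe hy2).symm
    · rintro rfl
      exact hne (heu Nd hNd hy1)
  have pick : ∀ N ∈ J, ∀ r, r = d ∨ r = e → r ∈ N → N ≠ Nb → N ≠ Nc →
      ∃ B ∈ J, (B = Nb ∨ B = Nc) ∧ sset N (a N) ∩ sset B (a B) = ∅ := by
    intro N hN r hr hrN hNb' hNc'
    by_cases h1 : sset N (a N) ∩ sset Nb (a Nb) = ∅
    · exact ⟨Nb, hNb, Or.inl rfl, h1⟩
    · by_cases h2 : sset N (a N) ∩ sset Nc (a Nc) = ∅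
      · exact ⟨Nc, hNc, Or.inr rfl, h2⟩
      · exfalso
        obtain ⟨y, hy⟩ := Finset.nonempty_iff_ne_empty.mpr h1
        obtain ⟨y', hy'⟩ := Finset.nonempty_iff_ne_empty.mpr h2
        obtain ⟨g1, g2⟩ := Finset.mem_inter.mp hy
        obtain ⟨g3, g4⟩ := Finset.mem_inter.mp hy'
        exact M.F5 G H.t0 Q hN hNb hNc (H.sub _ hN) hr hrN hbN hcN (mem_sset.mp g1).1
          (mem_sset.mp g2).1 (mem_sset.mp g3).1 (mem_sset.mp g4).1
  obtain ⟨B, hB, hB', disj_B⟩ := pick Nd hNd d (Or.inl rfl) hdN hbd.symm hcd.symm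
  obtain ⟨B', hBJ', hB'', disj_B'⟩ := pick Ne hNe e (Or.inr rfl) heN hbe.symm hce.symm
  have hBd : B ≠ Nd := by
    rcases hB' with rfl | rfl
    exacts [hbd, hcd]
  have hBe : B ≠ Ne := by
    rcases hB' with rfl | rfl
    exacts [hbe, hce]
  have hBd' : B' ≠ Nd := by
    rcases hB'' with rfl | rfl
    exacts [hbd, hcd]
  have hBe' : B' ≠ Ne := by
    rcases hB'' with rfl | rfl
    exacts [hbe, hce]
  set P6 : Finset (Finset V × Finset V) :=
    {(Nd, Ne), (Ne, Nd), (Nd, B), (B, Nd), (Ne, B'), (B', Ne)} with hP6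
  have hP6sub : P6 ⊆ J.offDiag := by
    intro z hz
    simp only [hP6, Finset.mem_insert, Finset.mem_singleton] at hz
    rw [Finset.mem_offDiag]
    rcases hz with rfl | rfl | rfl | rfl | rfl | rfl
    exacts [⟨hNd, hNe, hne⟩, ⟨hNe, hNd, hne.symm⟩, ⟨hNd, hB, hBd.symm⟩, ⟨hB, hNd, hBd⟩,
      ⟨hNe, hBJ', hBe'.symm⟩, ⟨hBJ', hNe, hBe'⟩]
  have hP6card : P6.card = 6 := by
    rw [hP6]
    rw [Finset.card_insert_of_notMem, Finset.card_insert_of_notMem, Finset.card_insert_of_notMem,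
      Finset.card_insert_of_notMem, Finset.card_insert_of_notMem, Finset.card_singleton]
    all_goals simp only [Finset.mem_insert, Finset.mem_singleton, Prod.mk.injEq, not_or, not_and]
    · intro h; exact absurd h.symm hBe'
    · exact ⟨fun h => absurd h hBe, fun _ h => hne h⟩
    · exact ⟨fun h => absurd h.symm hBd, fun h => absurd h hne, fun h => absurd h.symm hBd'⟩
    · exact ⟨fun h => absurd h hne.symm, fun h => absurd h.symm hBe, fun _ h => hBd' h.symm,
        fun h => absurd h.symm hBe'⟩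
    · exact ⟨fun h => absurd h hne, fun _ h => hBe h.symm, fun h => absurd h.symm hBd,
        fun h => absurd h hne, fun h => absurd h.symm hBd'⟩
  have hzero : ∀ z ∈ P6, (sset z.1 (a z.1) ∩ sset z.2 (a z.2)).card = 0 := by
    intro z hz
    simp only [hP6, Finset.mem_insert, Finset.mem_singleton] at hz
    rw [Finset.card_eq_zero]
    rcases hz with rfl | rfl | rfl | rfl | rfl | rfl
    exacts [disj_de, by rw [Finset.inter_comm]; exact disj_de, disj_B,
      by rw [Finset.inter_comm]; exact disj_B, disj_B', by rw [Finset.inter_comm]; exact disj_B']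
  have hoff : ∑ z ∈ J.offDiag, (sset z.1 (a z.1) ∩ sset z.2 (a z.2)).card
      ≤ J.card * J.card - J.card - 6 := by
    rw [← Finset.sum_sdiff hP6sub, Finset.sum_eq_zero hzero, add_zero]
    refine (Finset.sum_le_card_nsmul _ _ 1 ?_).trans ?_
    · intro z hz
      obtain ⟨h1, -⟩ := Finset.mem_sdiff.mp hz
      obtain ⟨h2, h3, h4⟩ := Finset.mem_offDiag.mp h1
      exact inter_sset_le H h2 h3 h4
    · rw [smul_eq_mul, mul_one, Finset.card_sdiff_of_subset hP6sub, hP6card, Finset.offDiag_card]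
  have hfin := sum_sset_le (J := J) (a := a)
  have h4' : 4 * J.card ≤ ∑ N ∈ J, (sset N (a N)).card := by exact_mod_cast h4
  rcases hm with hm | hm <;> rw [hm] at hoff h4' <;> omega

/-- two cliques: a common point of the supports if the once-set is small -/
lemma exists_common (H : XData (Kg U E p b c d e) U X p b c d e x t s J a) (h2 : J.card = 2)
    (h6 : (once J a).card ≤ 6) : (∀ N ∈ J, (sset N (a N)).card = 4) ∧ (once J a).card = 6 ∧
      ∀ N ∈ J, ∀ M ∈ J, N ≠ M → ∃ y, y ∈ sset N (a N) ∧ y ∈ sset M (a M) ∧ y ∉ once J a := by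
  classical
  obtain ⟨s₀, hs1, hs2⟩ := count_once H (by omega)
  have h4 := four_mul_le H
  have h6' : ((once J a).card : ℤ) ≤ 6 := by exact_mod_cast h6
  rw [h2] at hs1 h4
  push_cast at hs1 h4
  have hs : s₀ ≤ 1 := by omega
  have hall : ∀ N ∈ J, (sset N (a N)).card = 4 := fun N hN =>
    all_four H (by rw [h2]; push_cast; linarith) hN
  have h6'' : (once J a).card = 6 := by
    have : (6 : ℤ) ≤ (once J a).card := by linarith
    have h7 : 6 ≤ (once J a).card := by exact_mod_cast this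
    omega
  refine ⟨hall, h6'', ?_⟩
  intro N hN M hM hne
  have hJ : J = {N, M} := by
    symm
    refine Finset.eq_of_subset_of_card_le ?_ (by rw [h2, Finset.card_pair hne])
    intro z hz
    simp only [Finset.mem_insert, Finset.mem_singleton] at hz
    rcases hz with rfl | rfl <;> assumption
  by_contra hcon
  push Not at hcon
  have hdisj : sset N (a N) ∩ sset M (a M) = ∅ := by
    rw [Finset.eq_empty_iff_forall_notMem]
    intro y hy
    obtain ⟨h1, h3⟩ := Finset.mem_inter.mp hy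
    obtain ⟨N₀, -, -, hu⟩ := mem_once_iff.mp (hcon y h1 h3)
    exact hne ((hu N hN h1).trans (hu M hM h3).symm)
  have hfin := sum_sset_le (J := J) (a := a)
  have hz : ∑ z ∈ J.offDiag, (sset z.1 (a z.1) ∩ sset z.2 (a z.2)).card = 0 := by
    refine Finset.sum_eq_zero fun z hz => ?_
    obtain ⟨h1, h3, h5⟩ := Finset.mem_offDiag.mp hz
    rw [hJ, Finset.mem_insert, Finset.mem_singleton] at h1 h3
    rw [Finset.card_eq_zero]
    rcases h1 with h1 | h1 <;> rcases h3 with h3 | h3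
    · exact absurd (h1.trans h3.symm) h5
    · rw [h1, h3]; exact hdisj
    · rw [h1, h3, Finset.inter_comm]; exact hdisj
    · exact absurd (h1.trans h3.symm) h5
  rw [hz, add_zero, h6''] at hfin
  have h4' : 8 ≤ ∑ N ∈ J, (sset N (a N)).card := by
    have : (8 : ℤ) ≤ ∑ N ∈ J, ((sset N (a N)).card : ℤ) := by linarith
    exact_mod_cast this
  omega

/-- the support of `s` if `s b = s c = 0` -/
lemma once_card_le_six (H : XData (Kg U E p b c d e) U X p b c d e x t s J a) (hX : X.card ≤ 4)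
    (hb : s b = 0) (hc : s c = 0) : (once J a).card ≤ 6 := by
  classical
  have hsub : once J a ⊆ {d, e} ∪ X := by
    intro y hy
    have h1 := s_ne_of_once H hy
    have h2 := H.supp y h1
    simp only [Finset.mem_union, Finset.mem_insert, Finset.mem_singleton]
    rcases h2 with rfl | rfl | rfl | rfl | h2
    · exact absurd hb h1
    · exact absurd hc h1
    · simp
    · simp
    · exact Or.inr h2
  have h1 := Finset.card_le_card hsub
  have h2 := Finset.card_union_le ({d, e} : Finset V) X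
  have h3 : ({d, e} : Finset V).card ≤ 2 := Finset.card_le_two
  omega

/-- two cliques are impossible -/
lemma card_J_ne_two (H : XData (Kg U E p b c d e) U X p b c d e x t s J a)
    (G : TCfg U p b c d e x) (Q : TGen U p b c d e t x) {Y : V → Vec k}
    (M : TMot U p b c d e x t J Y) (hX : X.card ≤ 4) : J.card ≠ 2 := by
  classical
  intro h2
  obtain ⟨Nd, hNd, hdS⟩ := exists_mem_sset H G.hd (sd_ne H)
  obtain ⟨Ne, hNe, heS⟩ := exists_mem_sset H G.he (se_ne H)
  have hdN := (mem_sset.mp hdS).1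
  have heN := (mem_sset.mp heS).1
  by_cases hboth : ∃ N ∈ J, d ∈ N ∧ e ∈ N
  · obtain ⟨N, hN, hdN', heN'⟩ := hboth
    obtain ⟨M', hM', hne⟩ := Finset.exists_mem_ne (by omega : 1 < J.card) N
    have hJ : J = {N, M'} := by
      symm
      refine Finset.eq_of_subset_of_card_le ?_ (by rw [h2, Finset.card_pair hne.symm])
      intro z hz
      simp only [Finset.mem_insert, Finset.mem_singleton] at hz
      rcases hz with rfl | rfl <;> assumption
    have hbN : b ∉ N := M.F1 G H.t0 hN (Or.inl rfl) hdN' (Or.inl rfl)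
    have hcN : c ∉ N := M.F1 G H.t0 hN (Or.inl rfl) hdN' (Or.inr rfl)
    -- values at `d` and `e` if they are not in `M'`
    have hval : ∀ y ∈ U, y ∉ M' → s y = a N y := by
      intro y hyU hyM
      refine s_eq_of_unique H hyU hN fun L hL hyL => ?_
      rw [hJ, Finset.mem_insert, Finset.mem_singleton] at hL
      rcases hL with rfl | rfl
      · rfl
      · exact absurd (mem_sset.mp hyL).1 hyM
    by_cases hbc : b ∈ M' ∨ c ∈ M'
    · obtain ⟨v, hv, hvM⟩ : ∃ v, (v = b ∨ v = c) ∧ v ∈ M' := by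
        rcases hbc with h | h
        exacts [⟨b, Or.inl rfl, h⟩, ⟨c, Or.inr rfl, h⟩]
      have hno : ∀ y ∈ N, y ∉ M' := fun y hy hy' =>
        M.F3 G H.t0 Q hN hM' (H.sub _ hN) (N_four_le H hN) hdN' heN' hv hvM hy hy'
      have hfin := sum_sset_le (J := J) (a := a)
      have hz : ∑ z ∈ J.offDiag, (sset z.1 (a z.1) ∩ sset z.2 (a z.2)).card = 0 := by
        refine Finset.sum_eq_zero fun z hz => ?_
        obtain ⟨h1, h3, h5⟩ := Finset.mem_offDiag.mp hz
        rw [hJ, Finset.mem_insert, Finset.mem_singleton] at h1 h3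
        rw [Finset.card_eq_zero, Finset.eq_empty_iff_forall_notMem]
        intro y hy
        obtain ⟨hy1, hy2⟩ := Finset.mem_inter.mp hy
        have hy1' := (mem_sset.mp hy1).1
        have hy2' := (mem_sset.mp hy2).1
        rcases h1 with h1 | h1 <;> rcases h3 with h3 | h3
        · exact absurd (h1.trans h3.symm) h5
        · rw [h1] at hy1'; rw [h3] at hy2'; exact hno y hy1' hy2'
        · rw [h1] at hy1'; rw [h3] at hy2'; exact hno y hy2' hy1'
        · exact absurd (h1.trans h3.symm) h5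
      rw [hz, add_zero] at hfin
      have hO8 : (once J a).card ≤ 8 :=
        (Finset.card_le_card (once_subset H)).trans ((card_Tset_le X b c d e).trans (by omega))
      have h4 : (sset N (a N)).card = 4 := by
        refine all_four H ?_ hN
        rw [h2]
        push_cast
        have : (∑ N ∈ J, (sset N (a N)).card) ≤ 8 := hfin.trans hO8
        exact_mod_cast this
      refine F6 H G Q hN ?_ ?_ h4
      · rw [← hval d G.hd (hno d hdN'), H.sd]
      · rw [← hval e G.he (hno e heN'), H.se]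
    · push Not at hbc
      have hsb : s b = 0 := by
        by_contra hne'
        obtain ⟨L, hL, hbL⟩ := exists_mem_sset H G.hb hne'
        rw [hJ, Finset.mem_insert, Finset.mem_singleton] at hL
        rcases hL with rfl | rfl
        exacts [hbN (mem_sset.mp hbL).1, hbc.1 (mem_sset.mp hbL).1]
      have hsc : s c = 0 := by
        by_contra hne'
        obtain ⟨L, hL, hcL⟩ := exists_mem_sset H G.hc hne'
        rw [hJ, Finset.mem_insert, Finset.mem_singleton] at hL
        rcases hL with rfl | rfl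
        exacts [hcN (mem_sset.mp hcL).1, hbc.2 (mem_sset.mp hcL).1]
      obtain ⟨hall, hO6, hcom⟩ := exists_common H h2 (once_card_le_six H hX hsb hsc)
      obtain ⟨y, hy1, hy2, hyO⟩ := hcom N hN M' hM' hne.symm
      have hyN := (mem_sset.mp hy1).1
      have hyM := (mem_sset.mp hy2).1
      -- d, e are in the once-set
      have hsub : once J a ⊆ {d, e} ∪ X := by
        intro y hy
        have h1 := s_ne_of_once H hy
        have h3 := H.supp y h1
        simp only [Finset.mem_union, Finset.mem_insert, Finset.mem_singleton]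
        rcases h3 with rfl | rfl | rfl | rfl | h3
        · exact absurd hsb h1
        · exact absurd hsc h1
        · simp
        · simp
        · exact Or.inr h3
      have hcard6 : (({d, e} : Finset V) ∪ X).card ≤ 6 := by
        have h1 := Finset.card_union_le ({d, e} : Finset V) X
        have h3 : ({d, e} : Finset V).card ≤ 2 := Finset.card_le_two
        omega
      have hOeq : once J a = {d, e} ∪ X := Finset.eq_of_subset_of_card_le hsub (by omega)
      have hdO : d ∈ once J a := by rw [hOeq]; simp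
      have heO : e ∈ once J a := by rw [hOeq]; simp
      have honly : ∀ z ∈ N, z ∈ once J a → z ∉ M' := by
        intro z hz hzO hzM
        have h1 := inter_card_le_one H.count hN hM' hne.symm
        have h3 : z = y := Finset.card_le_one.mp h1 z (Finset.mem_inter.mpr ⟨hz, hzM⟩) y
          (Finset.mem_inter.mpr ⟨hyN, hyM⟩)
        exact hyO (h3 ▸ hzO)
      refine F6 H G Q hN ?_ ?_ (hall N hN)
      · rw [← hval d G.hd (honly d hdN' hdO), H.sd]
      · rw [← hval e G.he (honly e heN' heO), H.se]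
  · -- no clique contains both
    push Not at hboth
    have hne : Nd ≠ Ne := by
      rintro rfl
      exact hboth Nd hNd hdN heN
    have hJ : J = {Nd, Ne} := by
      symm
      refine Finset.eq_of_subset_of_card_le ?_ (by rw [h2, Finset.card_pair hne])
      intro z hz
      simp only [Finset.mem_insert, Finset.mem_singleton] at hz
      rcases hz with rfl | rfl <;> assumption
    have hsv : ∀ v, v = b ∨ v = c → s v = 0 := by
      intro v hv
      by_contra hne'
      have hvU : v ∈ U := by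
        rcases hv with rfl | rfl
        exacts [G.hb, G.hc]
      obtain ⟨L, hL, hvL⟩ := exists_mem_sset H hvU hne'
      have hvL' := (mem_sset.mp hvL).1
      rw [hJ, Finset.mem_insert, Finset.mem_singleton] at hL
      rcases hL with rfl | rfl
      · exact M.F1 G H.t0 hNd (Or.inl rfl) hdN hv hvL'
      · exact M.F1 G H.t0 hNe (Or.inr rfl) heN hv hvL'
    obtain ⟨hall, hO6, hcom⟩ := exists_common H h2
      (once_card_le_six H hX (hsv b (Or.inl rfl)) (hsv c (Or.inr rfl)))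
    obtain ⟨y, hy1, hy2, hyO⟩ := hcom Nd hNd Ne hNe hne
    refine M.F2 G hNd hNe (H.sub _ hNd) (H.sub _ hNe) (N_four_le H hNd) (N_four_le H hNe) hne
      hdN heN (mem_sset.mp hy1).1 (mem_sset.mp hy2).1 ?_ ?_
    · rintro rfl
      exact hboth Ne hNe (mem_sset.mp hy2).1 heN
    · rintro rfl
      exact hboth Nd hNd hdN (mem_sset.mp hy1).1

/-- **S1.**  There is exactly one clique; `s b = s c = 0`; the support of `s` is `d, e` and at
least three points of `X`; it is rigid on the motions which fix `w d`. -/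
theorem S1_at (H : XData (Kg U E p b c d e) U X p b c d e x t s J a)
    (G : TCfg U p b c d e x) (Q : TGen U p b c d e t x) (hX : X.card ≤ 4) :
    ∃ N A : Finset V, J = {N} ∧ A ⊆ X ∧ 3 ≤ A.card ∧ d ∉ A ∧ e ∉ A ∧ s b = 0 ∧ s c = 0 ∧
      (∀ y ∈ U, s y ≠ 0 ↔ y = d ∨ y = e ∨ y ∈ A) ∧ d ∈ N ∧ e ∈ N ∧ A ⊆ N ∧ b ∉ N ∧ c ∉ N ∧
      (∀ y ∈ U, s y = a N y) := by
  classical
  obtain ⟨Y, hY, M⟩ := exists_TMot H G
  have h2 := card_J_le_two H G Q M hX
  have h2' := card_J_ne_two H G Q M hX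
  obtain ⟨Nd, hNd, hdS⟩ := exists_mem_sset H G.hd (sd_ne H)
  have h1 : J.card = 1 := by
    have : 0 < J.card := Finset.card_pos.mpr ⟨Nd, hNd⟩
    omega
  obtain ⟨N, hJ⟩ := Finset.card_eq_one.mp h1
  have hN : N ∈ J := by rw [hJ]; simp
  have hval : ∀ y ∈ U, s y = a N y := by
    intro y hy
    rw [H.asum y hy, hJ, Finset.sum_singleton]
  have hmem : ∀ y ∈ U, s y ≠ 0 → y ∈ N := fun y hy hne =>
    H.asupp N hN y (by rw [← hval y hy]; exact hne)
  have hdN : d ∈ N := hmem d G.hd (sd_ne H)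
  have heN : e ∈ N := hmem e G.he (se_ne H)
  have hbN : b ∉ N := M.F1 G H.t0 hN (Or.inl rfl) hdN (Or.inl rfl)
  have hcN : c ∉ N := M.F1 G H.t0 hN (Or.inl rfl) hdN (Or.inr rfl)
  have hsb : s b = 0 := by
    by_contra hne
    exact hbN (hmem b G.hb hne)
  have hsc : s c = 0 := by
    by_contra hne
    exact hcN (hmem c G.hc hne)
  have hSs : ∀ y, y ∈ sset N (a N) ↔ y ∈ U ∧ s y ≠ 0 := by
    intro y
    constructor
    · intro hy
      obtain ⟨h3, h4⟩ := mem_sset.mp hy
      have hyU := H.sub N hN h3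
      exact ⟨hyU, by rw [hval y hyU]; exact h4⟩
    · rintro ⟨h3, h4⟩
      exact mem_sset.mpr ⟨hmem y h3 h4, by rw [← hval y h3]; exact h4⟩
  set A := ((sset N (a N)).erase d).erase e with hA
  have hdS' : d ∈ sset N (a N) := (hSs d).mpr ⟨G.hd, sd_ne H⟩
  have heS' : e ∈ (sset N (a N)).erase d :=
    Finset.mem_erase.mpr ⟨G.hde.symm, (hSs e).mpr ⟨G.he, se_ne H⟩⟩
  have hAc : A.card = (sset N (a N)).card - 2 := by
    rw [hA, Finset.card_erase_of_mem heS', Finset.card_erase_of_mem hdS']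
    omega
  have h4 := H.afour N hN
  have hA3 : 3 ≤ A.card := by
    by_contra hcon
    have h5 : (sset N (a N)).card = 4 := by omega
    exact F6 H G Q hN (by rw [← hval d G.hd, H.sd]) (by rw [← hval e G.he, H.se]) h5
  refine ⟨N, A, hJ, ?_, hA3, ?_, ?_, hsb, hsc, ?_, hdN, heN, ?_, hbN, hcN, hval⟩
  · intro y hy
    rw [hA, Finset.mem_erase, Finset.mem_erase, hSs] at hy
    rcases H.supp y hy.2.2.2 with rfl | rfl | rfl | rfl | h5
    · exact absurd hsb hy.2.2.2
    · exact absurd hsc hy.2.2.2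
    · exact absurd rfl hy.2.1
    · exact absurd rfl hy.1
    · exact h5
  · rw [hA]; simp
  · rw [hA]; simp
  · intro y hy
    constructor
    · intro hne
      by_cases hyd : y = d
      · exact Or.inl hyd
      · by_cases hye : y = e
        · exact Or.inr (Or.inl hye)
        · exact Or.inr (Or.inr (by
            rw [hA, Finset.mem_erase, Finset.mem_erase, hSs]
            exact ⟨hye, hyd, hy, hne⟩))
    · rintro (rfl | rfl | h5)
      · exact sd_ne H
      · exact se_ne H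
      · rw [hA, Finset.mem_erase, Finset.mem_erase, hSs] at h5
        exact h5.2.2.2
  · intro y hy
    rw [hA, Finset.mem_erase, Finset.mem_erase] at hy
    exact (mem_sset.mp hy.2.2).1

/-- **S1'.**  If `s` vanishes on all but two points of `X` then its support is `d, e` and these
two points.  Only the general position of `x` is used. -/
theorem S1'_at (H : XData (Kg U E p b c d e) U X p b c d e x t s J a)
    (G : TCfg U p b c d e x) {X' : Finset V} (hX' : X'.card ≤ 2)
    (hs : ∀ y ∈ X, s y ≠ 0 → y ∈ X') :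
    ∃ N : Finset V, J = {N} ∧ X'.card = 2 ∧ s b = 0 ∧ s c = 0 ∧
      (∀ y ∈ U, s y ≠ 0 ↔ y = d ∨ y = e ∨ y ∈ X') ∧ d ∈ N ∧ e ∈ N ∧ X' ⊆ N ∧
      (∀ y ∈ U, s y = a N y) := by
  classical
  obtain ⟨Y, hY, M⟩ := exists_TMot H G
  -- the once-set
  have hsub : once J a ⊆ Tset X' b c d e := by
    intro y hy
    have h1 := s_ne_of_once H hy
    rw [mem_Tset]
    rcases H.supp y h1 with h3 | h3 | h3 | h3 | h3
    · exact Or.inl h3
    · exact Or.inr (Or.inl h3)
    · exact Or.inr (Or.inr (Or.inl h3))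
    · exact Or.inr (Or.inr (Or.inr (Or.inl h3)))
    · exact Or.inr (Or.inr (Or.inr (Or.inr (hs y h3 h1))))
  have hT := card_Tset_le X' b c d e
  have hO6 : (once J a).card ≤ 6 := (Finset.card_le_card hsub).trans (hT.trans (by omega))
  obtain ⟨Nd, hNd, hdS⟩ := exists_mem_sset H G.hd (sd_ne H)
  obtain ⟨Ne, hNe, heS⟩ := exists_mem_sset H G.he (se_ne H)
  have hpos : 0 < J.card := Finset.card_pos.mpr ⟨Nd, hNd⟩
  have hle2 : J.card ≤ 2 := by
    by_contra hcon
    push Not at hcon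
    obtain ⟨s₀, hs1, hs2⟩ := count_once H (by omega)
    have h4 := four_mul_le H
    have h6' : ((once J a).card : ℤ) ≤ 6 := by exact_mod_cast hO6
    have h3 : (3 : ℤ) ≤ J.card := by exact_mod_cast hcon
    linarith
  have hne2 : J.card ≠ 2 := by
    intro h2
    obtain ⟨hall, hO6', hcom⟩ := exists_common H h2 hO6
    have hOeq : once J a = Tset X' b c d e := Finset.eq_of_subset_of_card_le hsub (by omega)
    have hbO : b ∈ once J a := by rw [hOeq, mem_Tset]; simp
    have hcO : c ∈ once J a := by rw [hOeq, mem_Tset]; simp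
    obtain ⟨Nb, hNb, hbS, -⟩ := mem_once_iff.mp hbO
    obtain ⟨Nc, hNc, hcS, -⟩ := mem_once_iff.mp hcO
    have hdN := (mem_sset.mp hdS).1
    have heN := (mem_sset.mp heS).1
    have hbN := (mem_sset.mp hbS).1
    have hcN := (mem_sset.mp hcS).1
    have hbd : Nb ≠ Nd := fun h => M.F1 G H.t0 hNd (Or.inl rfl) hdN (Or.inl rfl) (h ▸ hbN)
    have hcd : Nc ≠ Nd := fun h => M.F1 G H.t0 hNd (Or.inl rfl) hdN (Or.inr rfl) (h ▸ hcN)
    have hJ : J = {Nd, Nb} := by
      symm
      refine Finset.eq_of_subset_of_card_le ?_ (by rw [h2, Finset.card_pair hbd.symm])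
      intro z hz
      simp only [Finset.mem_insert, Finset.mem_singleton] at hz
      rcases hz with rfl | rfl <;> assumption
    have hcb : Nc = Nb := by
      have := hNc
      rw [hJ, Finset.mem_insert, Finset.mem_singleton] at this
      exact this.resolve_left hcd
    obtain ⟨y, hy1, hy2, -⟩ := hcom Nd hNd Nb hNb hbd.symm
    exact M.F4 G H.t0 hNd hNb (H.sub _ hNd) (H.sub _ hNb) (N_four_le H hNb) (Or.inl rfl) hdN hbN
      (hcb ▸ hcN) (mem_sset.mp hy1).1 (mem_sset.mp hy2).1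
  obtain ⟨N, hJ⟩ := Finset.card_eq_one.mp (by omega : J.card = 1)
  have hN : N ∈ J := by rw [hJ]; simp
  have hval : ∀ y ∈ U, s y = a N y := by
    intro y hy
    rw [H.asum y hy, hJ, Finset.sum_singleton]
  have hmem : ∀ y ∈ U, s y ≠ 0 → y ∈ N := fun y hy hne =>
    H.asupp N hN y (by rw [← hval y hy]; exact hne)
  have hdN : d ∈ N := hmem d G.hd (sd_ne H)
  have heN : e ∈ N := hmem e G.he (se_ne H)
  have hbN : b ∉ N := M.F1 G H.t0 hN (Or.inl rfl) hdN (Or.inl rfl)
  have hcN : c ∉ N := M.F1 G H.t0 hN (Or.inl rfl) hdN (Or.inr rfl)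
  have hsb : s b = 0 := by
    by_contra hne
    exact hbN (hmem b G.hb hne)
  have hsc : s c = 0 := by
    by_contra hne
    exact hcN (hmem c G.hc hne)
  have hSsub : sset N (a N) ⊆ {d, e} ∪ X' := by
    intro y hy
    obtain ⟨h3, h4⟩ := mem_sset.mp hy
    have hyU := H.sub N hN h3
    rw [← hval y hyU] at h4
    simp only [Finset.mem_union, Finset.mem_insert, Finset.mem_singleton]
    rcases H.supp y h4 with rfl | rfl | rfl | rfl | h5
    · exact absurd hsb h4
    · exact absurd hsc h4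
    · simp
    · simp
    · exact Or.inr (hs y h5 h4)
  have h4 := H.afour N hN
  have h5 := Finset.card_le_card hSsub
  have h6 := Finset.card_union_le ({d, e} : Finset V) X'
  have h7 : ({d, e} : Finset V).card ≤ 2 := Finset.card_le_two
  have hSeq : sset N (a N) = {d, e} ∪ X' := Finset.eq_of_subset_of_card_le hSsub (by omega)
  refine ⟨N, hJ, by omega, hsb, hsc, ?_, hdN, heN, ?_, hval⟩
  · intro y hy
    constructor
    · intro hne
      have : y ∈ sset N (a N) := mem_sset.mpr ⟨hmem y hy hne, by rw [← hval y hy]; exact hne⟩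
      rw [hSeq] at this
      simp only [Finset.mem_union, Finset.mem_insert, Finset.mem_singleton] at this
      tauto
    · intro h8
      have : y ∈ sset N (a N) := by
        rw [hSeq]
        simp only [Finset.mem_union, Finset.mem_insert, Finset.mem_singleton]
        tauto
      rw [hval y hy]
      exact (mem_sset.mp this).2
  · intro y hy
    have : y ∈ sset N (a N) := by
      rw [hSeq]
      simp [hy]
    exact (mem_sset.mp this).1

end Main

section Generic

variable [Infinite k]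

/-- general position is generic -/
theorem eventually_TCfg (hgp : GenPos p (U : Set V)) (hb : b ∈ U) (hc : c ∈ U) (hd : d ∈ U)
    (he : e ∈ U) (hbc : b ≠ c) (hbd : b ≠ d) (hbe : b ≠ e) (hcd : c ≠ d) (hce : c ≠ e)
    (hde : d ≠ e) : ∀ᶠ x in gen k (Vec k), TCfg U p b c d e x := by
  have h : ∀ᶠ x in gen k (Vec k), ∀ y ∈ U, ∀ y' ∈ U, ∀ y'' ∈ U, y ≠ y' → y ≠ y'' → y' ≠ y'' →
      LinearIndependent k ![x, p y, p y', p y''] := by
    rw [Filter.eventually_all_finset]
    intro y hy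
    rw [Filter.eventually_all_finset]
    intro y' hy'
    rw [Filter.eventually_all_finset]
    intro y'' hy''
    by_cases h1 : y ≠ y' ∧ y ≠ y'' ∧ y' ≠ y''
    · have h4 : 4 ≤ U.card := by
        have hsub : ({b, c, d, e} : Finset V) ⊆ U := by
          intro z hz
          simp only [Finset.mem_insert, Finset.mem_singleton] at hz
          rcases hz with rfl | rfl | rfl | rfl <;> assumption
        have := Finset.card_le_card hsub
        rwa [Finset.card_insert_of_notMem (by simp [hbc, hbd, hbe]),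
          Finset.card_insert_of_notMem (by simp [hcd, hce]),
          Finset.card_insert_of_notMem (by simp [hde]), Finset.card_singleton] at this
      have h3 : ({y, y', y''} : Finset V).card ≤ 3 := Finset.card_le_three
      obtain ⟨z, hzU, hz⟩ : ∃ z ∈ U, z ∉ ({y, y', y''} : Finset V) := by
        by_contra hcon
        push Not at hcon
        have := Finset.card_le_card (fun z hz => hcon z hz : U ⊆ {y, y', y''})
        omega
      simp only [Finset.mem_insert, Finset.mem_singleton, not_or] at hz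
      have hli := hgp.four (by exact_mod_cast hy) (by exact_mod_cast hy') (by exact_mod_cast hy'')
        (by exact_mod_cast hzU) h1.1 h1.2.1 (Ne.symm hz.1) h1.2.2 (Ne.symm hz.2.1)
        (Ne.symm hz.2.2)
      filter_upwards [eventually_li (li_three_of_four hli)] with x hx _ _ _
      exact hx
    · refine Filter.Eventually.of_forall fun x g1 g2 g3 => absurd ⟨g1, g2, g3⟩ h1
  filter_upwards [h] with x hx
  exact ⟨hgp, hb, hc, hd, he, hbc, hbd, hbe, hcd, hce, hde, hx⟩

lemma polyLine_tri (y z u : Vec k) : PolyLine k (fun x : Vec k => tri x y z ⬝ᵥ u) := by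
  have : (fun x : Vec k => tri x y z ⬝ᵥ u) = fun x => (-(tri u y z)) ⬝ᵥ x := by
    funext x
    rw [neg_dotProduct, tri_rot]
  rw [this]
  exact polyLine_vecDot _

/-- the genericity conditions are generic -/
theorem eventually_TGen (hgp : GenPos p (U : Set V)) (hb : b ∈ U) (hc : c ∈ U) (hd : d ∈ U)
    (he : e ∈ U) (hbc : b ≠ c) (hbd : b ≠ d) (hbe : b ≠ e) (hcd : c ≠ d) (hce : c ≠ e)
    (hde : d ≠ e) (t : k) : ∀ᶠ x in gen k (Vec k), TGen U p b c d e t x := by
  have hfour : ∀ {y y' y'' z : V}, y ∈ U → y' ∈ U → y'' ∈ U → z ∈ U → y ≠ y' → y ≠ y'' →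
      y ≠ z → y' ≠ y'' → y' ≠ z → y'' ≠ z → LinearIndependent k ![p y, p y', p y'', p z] := by
    intro y y' y'' z hy hy' hy'' hz
    exact hgp.four (by exact_mod_cast hy) (by exact_mod_cast hy') (by exact_mod_cast hy'')
      (by exact_mod_cast hz)
  have h1 : ∀ᶠ x in gen k (Vec k), ∀ y ∈ U, ∀ y' ∈ U, y ≠ y' → y ≠ d → y ≠ e → y' ≠ d →
      y' ≠ e → LinearIndependent k ![x, p e - t • p d, p y, p y'] := by
    rw [Filter.eventually_all_finset]
    intro y hy
    rw [Filter.eventually_all_finset]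
    intro y' hy'
    by_cases h : y ≠ y' ∧ y ≠ d ∧ y ≠ e ∧ y' ≠ d ∧ y' ≠ e
    · have h2 : LinearIndependent k ![p y, p y', p e - t • p d] :=
        li_comb (hfour hy hy' hd he h.1 h.2.1 h.2.2.1 h.2.2.2.1 h.2.2.2.2 hde)
      have h3 : LinearIndependent k ![p e - t • p d, p y, p y'] := by
        have := h2.comp (![2, 0, 1] : Fin 3 → Fin 3) (by decide)
        convert this using 1
        ext i
        fin_cases i <;> rfl
      filter_upwards [eventually_li h3] with x hx _ _ _ _ _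
      exact hx
    · refine Filter.Eventually.of_forall fun x g1 g2 g3 g4 g5 => absurd ⟨g1, g2, g3, g4, g5⟩ h
  have h2 : ∀ r, r = d ∨ r = e → ∀ᶠ x in gen k (Vec k), ∀ y ∈ U, ∀ y' ∈ U, y ≠ y' → y ≠ b →
    y ≠ c → y ≠ d → y ≠ e → y' ≠ b → y' ≠ c → y' ≠ d → y' ≠ e →
    (tri x (p e) (p d) ⬝ᵥ p y) * (tri x (p b) (p y) ⬝ᵥ p y') * (tri x (p c) (p y') ⬝ᵥ p r)
    + (tri x (p e) (p d) ⬝ᵥ p y') * (tri x (p c) (p y') ⬝ᵥ p y) * (tri x (p b) (p y) ⬝ᵥ p r)
      ≠ 0 := by
    intro r hr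
    rw [Filter.eventually_all_finset]
    intro y hy
    rw [Filter.eventually_all_finset]
    intro y' hy'
    by_cases h : y ≠ y' ∧ y ≠ b ∧ y ≠ c ∧ y ≠ d ∧ y ≠ e ∧ y' ≠ b ∧ y' ≠ c ∧ y' ≠ d ∧ y' ≠ e
    · obtain ⟨g1, g2, g3, g4, g5, g6, g7, g8, g9⟩ := h
      have hpoly : PolyLine k (fun x : Vec k =>
          (tri x (p e) (p d) ⬝ᵥ p y) * (tri x (p b) (p y) ⬝ᵥ p y')
            * (tri x (p c) (p y') ⬝ᵥ p r)
          + (tri x (p e) (p d) ⬝ᵥ p y') * (tri x (p c) (p y') ⬝ᵥ p y)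
            * (tri x (p b) (p y) ⬝ᵥ p r)) :=
        (((polyLine_tri _ _ _).mul (polyLine_tri _ _ _)).mul (polyLine_tri _ _ _)).add
          (((polyLine_tri _ _ _).mul (polyLine_tri _ _ _)).mul (polyLine_tri _ _ _))
      have hrU : r ∈ U := by
        rcases hr with rfl | rfl <;> assumption
      have hrb : r ≠ b := by
        rcases hr with rfl | rfl
        exacts [hbd.symm, hbe.symm]
      have hrc : r ≠ c := by
        rcases hr with rfl | rfl
        exacts [hcd.symm, hce.symm]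
      have hry : r ≠ y := by
        rcases hr with rfl | rfl
        exacts [g4.symm, g5.symm]
      have hry' : r ≠ y' := by
        rcases hr with rfl | rfl
        exacts [g8.symm, g9.symm]
      refine (hpoly.eventually_ne ⟨p r + p b, ?_⟩).mono fun x hx _ _ _ _ _ _ _ _ _ => hx
      have e1 : tri (p r + p b) (p e) (p d) ⬝ᵥ p y = tri (p b) (p e) (p d) ⬝ᵥ p y := by
        rw [tri_add1, add_dotProduct]
        have : tri (p r) (p e) (p d) = 0 := by
          rcases hr with rfl | rfl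
          · exact tri_xyx _ _
          · exact tri_xxy _ _
        rw [this, zero_dotProduct, zero_add]
      have e2 : tri (p r + p b) (p b) (p y) ⬝ᵥ p y' = tri (p r) (p b) (p y) ⬝ᵥ p y' := by
        rw [tri_add1, tri_xxy, add_zero]
      have e3 : tri (p r + p b) (p c) (p y') ⬝ᵥ p r = tri (p b) (p c) (p y') ⬝ᵥ p r := by
        rw [tri_add1, add_dotProduct, tri_self1, zero_add]
      have e4 : tri (p r + p b) (p b) (p y) ⬝ᵥ p r = 0 := by
        rw [tri_add1, tri_xxy, add_zero, tri_self1]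
      rw [e1, e2, e3, e4, mul_zero, add_zero]
      refine mul_ne_zero (mul_ne_zero ?_ ?_) ?_
      · exact tri_dot_ne_zero (hfour hb he hd hy hbe hbd (Ne.symm g2) (Ne.symm hde)
          (Ne.symm g5) (Ne.symm g4))
      · exact tri_dot_ne_zero (hfour hrU hb hy hy' hrb hry hry' (Ne.symm g2) (Ne.symm g6) g1)
      · exact tri_dot_ne_zero (hfour hb hc hy' hrU hbc (Ne.symm g6) (Ne.symm hrb)
          (Ne.symm g7) (Ne.symm hrc) (Ne.symm hry'))
    · refine Filter.Eventually.of_forall fun x g1 g2 g3 g4 g5 g6 g7 g8 g9 =>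
        absurd ⟨g1, g2, g3, g4, g5, g6, g7, g8, g9⟩ h
  filter_upwards [h1, h2 d (Or.inl rfl), h2 e (Or.inr rfl)] with x hx1 hx2 hx3
  refine ⟨hx1, fun r hr => ?_⟩
  rcases hr with rfl | rfl
  exacts [hx2, hx3]

/-- **S1** for generic `x`, `t` fixed. -/
theorem S1 (hgp : GenPos p (U : Set V)) (hb : b ∈ U) (hc : c ∈ U) (hd : d ∈ U)
    (he : e ∈ U) (hbc : b ≠ c) (hbd : b ≠ d) (hbe : b ≠ e) (hcd : c ≠ d) (hce : c ≠ e)
    (hde : d ≠ e) (hX : X.card ≤ 4) (t : k) :
    ∀ᶠ x in gen k (Vec k), ∀ s J a, XData (Kg U E p b c d e) U X p b c d e x t s J a →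
      ∃ N A : Finset V, J = {N} ∧ A ⊆ X ∧ 3 ≤ A.card ∧ d ∉ A ∧ e ∉ A ∧ s b = 0 ∧ s c = 0 ∧
        (∀ y ∈ U, s y ≠ 0 ↔ y = d ∨ y = e ∨ y ∈ A) ∧ d ∈ N ∧ e ∈ N ∧ A ⊆ N ∧
        (∀ Z ∈ Wg (Kg U E p b c d e) X x, Z d ⬝ᵥ x = 0 → ∀ y, (y = d ∨ y = e ∨ y ∈ A) →
          Z y ⬝ᵥ x = 0 ∧ ∀ y', (y' = d ∨ y' = e ∨ y' ∈ A) → eps p y y' Z = 0) := by
  filter_upwards [eventually_TCfg hgp hb hc hd he hbc hbd hbe hcd hce hde,
    eventually_TGen hgp hb hc hd he hbc hbd hbe hcd hce hde t] with x G Q s J a H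
  obtain ⟨N, A, hJ, hAX, hA3, hdA, heA, hsb, hsc, hsupp, hdN, heN, hAN, -, -, -⟩ :=
    S1_at H G Q hX
  refine ⟨N, A, hJ, hAX, hA3, hdA, heA, hsb, hsc, hsupp, hdN, heN, hAN, ?_⟩
  intro Z hZ hZd y hy
  have hmem : ∀ y, (y = d ∨ y = e ∨ y ∈ A) → y ∈ N := by
    rintro y (rfl | rfl | h)
    exacts [hdN, heN, hAN h]
  obtain ⟨h1, h2⟩ := H.rig N (by rw [hJ]; simp) Z hZ hZd y (hmem y hy)
  exact ⟨h1, fun y' hy' => h2 y' (hmem y' hy')⟩

end Generic

end E4

end GR
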