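import Pool.Agent.Lib.GR.E4S
import Pool.Agent.Lib.GR.E4T

/-!
# Degree 7 body vertices: the contradiction
-/

namespace GR.E4

open Module Filter

open scoped Matrix

variable {k : Type*} [Field k] [Infinite k] {V : Type*} [DecidableEq V]

lemma fin3_all : ∀ i0 ib ic i : Fin 3, i0 ≠ ib → i0 ≠ ic → ib ≠ ic →
    i = i0 ∨ i = ib ∨ i = ic := by decide

lemma fin3_two : ∀ i j : Fin 3, i ≠ 0 → j ≠ 0 → i ≠ j →
    (i = 1 ∧ j = 2) ∨ (i = 2 ∧ j = 1) := by decide

omit [Infinite k] in
/-- independence is invariant under permutations -/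
lemma li_perm {w : Fin 4 → Vec k} (h : LinearIndependent k w) {w' : Fin 4 → Vec k}
    (σ : Equiv.Perm (Fin 4)) (hw : ∀ i, w' i = w (σ i)) : LinearIndependent k w' := by
  have : w' = w ∘ σ := funext hw
  rw [this]
  exact h.comp _ σ.injective

namespace B3Hyp

variable {A : Finset V} {E : Finset (Sym2 V)} {u a b c d e : V} {v : Fin 3 → V}

/-- all generic properties which do not involve other positions -/
structure Phi (A : Finset V) (E : Finset (Sym2 V)) (u a : V) (v : Fin 3 → V)
    (p : V → Vec k) : Prop where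
  gd : Gd k A E u v p
  fact : FactR (UU A u a) p
  upd : ∀ᶠ x in gen k (Vec k), Gd k A E u v (Function.update p a x)

theorem eventually_phi (h : B3Hyp k A E u a b c d e v) :
    ∀ᶠ p in gen k (V → Vec k), Phi A E u a v p := by
  have haU : a ∉ UU A u a := by simp [UU]
  have hfac := factR (k := k) (B := UU A u a) (v := a) haU h.ce.two (by
    rw [h.insert_U]
    exact h.ce.eventually_cliqueProp (Finset.erase_ssubset h.tb.mem))
  filter_upwards [h.eventually_gd, hfac, eventually_update h.eventually_gd a] with p h1 h2 h3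
  exact ⟨h1, h2, h3⟩

lemma ev_gp (h : B3Hyp k A E u a b c d e v) {p : V → Vec k} (hp : Phi A E u a v p) :
    ∀ᶠ x in gen k (Vec k), GenPos (Function.update p a x)
      (insert a (UU A u a : Finset V) : Set V) := by
  filter_upwards [hp.upd] with x hx
  exact h.gpI hx

/-- the pairs `v i v j` are not rigid on the frame motions -/
theorem nr_p (h : B3Hyp k A E u a b c d e v) {p : V → Vec k} (hp : Gd k A E u v p) (i j : Fin 3)
    (hij : i ≠ j) : ∃ Z ∈ KK' A E u a b c d e p, eps p (v i) (v j) Z ≠ 0 := by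
  classical
  have hc := h.comb
  have hUA : UU A u a ⊆ A := (Finset.erase_subset _ _).trans (Finset.erase_subset _ _)
  have hi := (h.v_ne i).1
  have hj := (h.v_ne j).1
  have hne : v i ≠ v j := fun h' => hij (h.inj h')
  have h1 := h.nrig i j hij p hp.nice
  rw [mem_clF, not_and] at h1
  have h2 := h1 (mk_mem_Kf.mpr ⟨hne, hUA hi, hUA hj⟩)
  rw [mem_clo_iff_Mot h.ce.sub (hUA hi) (hUA hj)] at h2
  push Not at h2
  obtain ⟨Z, hZ, hZne⟩ := h2
  obtain ⟨L, hL, hg⟩ := GR.exists_gauge (h.gpU hp) hc.hb hc.hc hc.hd hc.he hc.hbc hc.hbd hc.hbe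
    hc.hcd hc.hce hc.hde hc.ebc (cut_mem_Mot_of_subset hUA hZ)
  refine ⟨_, hg, ?_⟩
  rw [map_sub, eps_cut p Z hi hj, eps_triv p hL hi hj, sub_zero]
  exact hZne

/-- two points of `U` other than the rod, together with `q` -/
lemma li_q2 (h : B3Hyp k A E u a b c d e v) {p : V → Vec k} (hp : Gd k A E u v p) (t : k)
    {y z : V} (hy : y ∈ A.erase u) (hz : z ∈ A.erase u) (hyz : y ≠ z) (hyd : y ≠ d) (hye : y ≠ e)
    (hzd : z ≠ d) (hze : z ≠ e) : LinearIndependent k ![p y, p z, p e - t • p d] := by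
  have hc := h.comb
  exact li_comb ((h.gpA hp).four hy hz (Finset.mem_of_mem_erase hc.hd)
    (Finset.mem_of_mem_erase hc.he) hyz hyd hye hzd hze hc.hde)

/-- **PHyp at a good position.** -/
theorem pHyp (h : B3Hyp k A E u a b c d e v) {p : V → Vec k} (hp : Phi A E u a v p) {t : k}
    (ht : t ≠ 0) (hT : Mot (A.erase u) (E : Set (Sym2 V)) p ≤ TB p a b c d e t) {w : V}
    (hw : w = b ∨ w = c) (hnot : ∀ i, ¬ InBlock k A E u (v i) d e w)
    (hli : ∀ i j, i ≠ j → ∀ z ∈ XX A E u a b c, z ≠ v i → z ≠ v j →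
      LinearIndependent k ![p e - t • p d, p (v i), p (v j), p z]) :
    PHyp A E u a b c d e v p t := by
  classical
  have hc := h.comb
  have hcard : (XX A E u a b c).card ≤ 4 := by
    obtain ⟨x0, h1, h2, h3, h4, h5, hX'⟩ := h.exists_ext
    have hX : XX A E u a b c = {x0, v 0, v 1, v 2} := hX'
    rw [hX]
    exact Finset.card_le_four
  have hTx : ∀ᶠ x in gen k (Vec k), Gd k A E u v (Function.update p a x) ∧
      Mot (A.erase u) (E : Set (Sym2 V)) (Function.update p a x) ≤
        TB (Function.update p a x) a b c d e t := by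
    filter_upwards [hp.upd] with x hx
    refine ⟨hx, ?_⟩
    obtain ⟨t', ht', hT'⟩ := h.exists_t hx
    have : t = t' := h.t_eq_a hp.gd hx (fun y hy => (Function.update_of_ne hy _ _).symm) ht ht' hT
      hT' hw hnot
    rw [this]; exact hT'
  refine ⟨hp.gd, ht, hT, ?_, ?_, hp.fact, hli, fun i j hij => h.nr_p hp.gd i j hij⟩
  · filter_upwards [hTx, S1 (E := (E : Set (Sym2 V))) (X := XX A E u a b c) (h.gpU hp.gd) hc.hb
      hc.hc hc.hd hc.he hc.hbc hc.hbd hc.hbe hc.hcd hc.hce hc.hde hcard t] with x hx hS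
    obtain ⟨s, J, a', hxd⟩ := h.xdata_x hx.1 ht hx.2
    obtain ⟨N, B, -, hBX, hB3, -, -, hsb, hsc, hs, -, -, -, hrig⟩ := hS s J a' hxd
    refine ⟨B, s, J, a', hxd, hBX, hB3, hsb, hsc, hs, ?_⟩
    intro Z hZ hZd y hy
    simp only [Finset.mem_insert] at hy
    obtain ⟨r1, r2⟩ := hrig Z hZ hZd y hy
    exact ⟨r1, fun y' hy' => r2 y' (by simpa only [Finset.mem_insert] using hy')⟩
  · filter_upwards [hTx] with x hx B hB i hi
    by_contra hnb
    obtain ⟨s, J, a', hxd, hS1⟩ := hB
    have h1 : KK' A E u a b c d e (Function.update p a x) = KK' A E u a b c d e p :=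
      Kg_update hc.hw hc.he p x
    have h2 : XData (KK' A E u a b c d e (Function.update p a x)) (UU A u a) (XX A E u a b c)
        (Function.update p a x) b c d e (Function.update p a x a) t s J a' := by
      rw [h1, Function.update_self]
      refine XData_update hc.hw (x := p a) ?_
      rw [Function.update_idem, Function.update_eq_self]
      exact hxd
    have h3 := h.sv_zero hx.1 ht hx.2 h2 hnb
    have hiU := (h.v_ne i).1
    exact ((hS1.2.2.2.2.1 (v i) hiU).mpr (Or.inr (Or.inr hi))) h3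

omit [Infinite k] in
/-- independence of four vectors, explicitly -/
lemma li4 {x y z w : Vec k} : LinearIndependent k ![x, y, z, w] ↔
    ∀ α β γ δ : k, α • x + β • y + γ • z + δ • w = 0 → α = 0 ∧ β = 0 ∧ γ = 0 ∧ δ = 0 := by
  rw [Fintype.linearIndependent_iff]
  constructor
  · intro h α β γ δ hs
    have h1 := h ![α, β, γ, δ] (by
      rw [← hs]
      simp [Fin.sum_univ_four])
    exact ⟨by simpa using h1 0, by simpa using h1 1, by simpa using h1 2, by simpa using h1 3⟩
  · intro h g hg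
    have h1 := h (g 0) (g 1) (g 2) (g 3) (by
      rw [← hg]
      simp [Fin.sum_univ_four])
    intro i
    fin_cases i
    · exact h1.1
    · exact h1.2.1
    · exact h1.2.2.1
    · exact h1.2.2.2

/-- **The case that some body vertex `w ≠ a` has no `v i` in its block.** -/
theorem case_two (h : B3Hyp k A E u a b c d e v) {w : V}
    (hw : w = b ∨ w = c) (hnot : ∀ i, ¬ InBlock k A E u (v i) d e w) : False := by
  classical
  have hc := h.comb
  obtain ⟨x0, hx0'⟩ := h.exists_ext
  have hx0 : IsX0 A E u a b c d e v x0 := hx0'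
  obtain ⟨τ, hτ, haτ, hτU, hN⟩ := h.exists_tau
  have hφ := h.eventually_phi
  have q1 : ∀ᶠ p in gen k (V → Vec k), Phi A E u a v p ∧
      ∀ᶠ x in gen k (Vec k), Phi A E u a v (Function.update p (v 0) x) :=
    hφ.and (eventually_update hφ (v 0))
  have q2 := hφ.and (eventually_update q1 (v 2))
  have q3 := hφ.and (eventually_update q2 (v 1))
  obtain ⟨p, hp, hp2⟩ := q3.exists
  obtain ⟨t, ht, hT⟩ := h.exists_t hp.gd
  obtain ⟨mb, mc, md, me⟩ := h.mem_U1
  have hU1U : U1 A u a v ⊆ UU A u a := Finset.erase_subset _ _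
  have gU1 : GenPos p ((U1 A u a v : Finset V) : Set V) := fun T hT hcT =>
    h.gpU hp.gd T (hT.trans (by exact_mod_cast hU1U)) hcT
  have hx0U : x0 ∈ UU A u a := (mem_extN.mp ((mem_XX hx0).mpr ⟨0, rfl⟩)).1.1
  have hx01 : x0 ∈ U1 A u a v := Finset.mem_erase.mpr ⟨hx0.2.2.2.2.1 0, hx0U⟩
  have hτn : ∀ i j, i ≠ j → τ i ≠ τ j := fun i j hij h' => hij (hτ h')
  have hτli : LinearIndependent k (fun i => p (τ i)) := by
    have h4 := gU1.four (hτU 0) (hτU 1) (hτU 2) (hτU 3) (hτn _ _ (by decide))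
      (hτn _ _ (by decide)) (hτn _ _ (by decide)) (hτn _ _ (by decide)) (hτn _ _ (by decide))
      (hτn _ _ (by decide))
    convert h4 using 1
    funext i
    fin_cases i <;> rfl
  let bt : Basis (Fin 4) k (Vec k) := basisOfLinearIndependentOfCardEqFinrank hτli (by simp)
  have hbt : ∀ i, bt i = p (τ i) := fun i => by simp [bt]
  have hW := eventually_W3 gU1 hτ hτU hx01 md me hc.hde hx0.2.2.1 hx0.2.2.2.1 ht bt hbt
  -- the position of `v 1`
  obtain ⟨x2, hp2', hW2⟩ := (hp2.and hW).exists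
  obtain ⟨hp2φ, hp3⟩ := hp2'
  set p2 := Function.update p (v 1) x2 with hp2def
  obtain ⟨t2, ht2, hT2⟩ := h.exists_t hp2φ.gd
  have e2 : t = t2 := h.t_eq_v hp.gd hp2φ.gd (i := 1)
    (fun y hy => (Function.update_of_ne hy _ _).symm) ht hT hT2
  subst e2
  -- `v i` are not among the other points
  have nv : ∀ i, v i ≠ b ∧ v i ≠ c ∧ v i ≠ d ∧ v i ≠ e := fun i => (h.v_ne i).2
  have n01 : v 0 ≠ v 1 := fun h' => absurd (h.inj h') (by decide)
  have n02 : v 0 ≠ v 2 := fun h' => absurd (h.inj h') (by decide)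
  have n12 : v 1 ≠ v 2 := fun h' => absurd (h.inj h') (by decide)
  have nx := hx0.2.2.2.2.1
  have hUAu : ∀ y ∈ UU A u a, y ∈ A.erase u := fun y hy => Finset.mem_of_mem_erase hy
  have q12 : p2 e - t • p2 d = p e - t • p d := by
    rw [hp2def, Function.update_of_ne (nv 1).2.2.2.symm, Function.update_of_ne (nv 1).2.2.1.symm]
  have l2 := h.li_q2 hp2φ.gd t (hUAu _ hx0U) (hUAu _ (h.v_ne 1).1) (nx 1) hx0.2.2.1
    hx0.2.2.2.1 (nv 1).2.2.1 (nv 1).2.2.2
  rw [q12] at l2
  -- the position of `v 2`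
  obtain ⟨x3, ⟨hp3', hW3⟩, hli3⟩ := ((hp3.and hW2).and (eventually_li l2)).exists
  obtain ⟨hp3φ, hp4⟩ := hp3'
  set p3 := Function.update p2 (v 2) x3 with hp3def
  obtain ⟨t3, ht3, hT3⟩ := h.exists_t hp3φ.gd
  have e3 : t = t3 := h.t_eq_v hp2φ.gd hp3φ.gd (i := 2)
    (fun y hy => (Function.update_of_ne hy _ _).symm) ht hT2 hT3
  subst e3
  have q13 : p3 e - t • p3 d = p e - t • p d := by
    rw [hp3def, Function.update_of_ne (nv 2).2.2.2.symm, Function.update_of_ne (nv 2).2.2.1.symm,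
      q12]
  have v30 : p3 x0 = p x0 := by
    rw [hp3def, Function.update_of_ne (nx 2), hp2def, Function.update_of_ne (nx 1)]
  have v31 : p3 (v 1) = x2 := by
    rw [hp3def, Function.update_of_ne n12, hp2def, Function.update_self]
  have v32 : p3 (v 2) = x3 := by rw [hp3def, Function.update_self]
  have w30 : p2 x0 = p x0 := by rw [hp2def, Function.update_of_ne (nx 1)]
  have w31 : p2 (v 1) = x2 := by rw [hp2def, Function.update_self]
  rw [w30, w31] at hli3
  -- independence at `p3`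
  have L3 : LinearIndependent k ![p e - t • p d, p x0, x2, x3] := by
    rw [li4] at hli3 ⊢
    intro α β γ δ hs
    obtain ⟨r1, r2, r3, r4⟩ := hli3 δ β γ α (by rw [← hs]; abel)
    exact ⟨r4, r2, r3, r1⟩
  -- not adjacent to `v 0`
  have hτv : ∀ i, τ i ≠ v 1 ∧ τ i ≠ v 2 := by
    have key : ∀ j, j ≠ 0 → ∀ i, τ i ≠ v j := by
      intro j hj i h'
      have hmem : v j ∈ nbr (A.erase (v 0)) (E : Set (Sym2 V)) (v 0) := by
        rw [hN, ← h']
        exact Finset.mem_insert_of_mem (Finset.mem_image.mpr ⟨i, Finset.mem_univ _, rfl⟩)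
      have hE : s(v 0, v j) ∈ E := by exact_mod_cast (mem_nbr.mp hmem).2
      exact h.nrig 0 j (fun h'' => hj h''.symm) p hp.gd.nice
        (subset_clF h.ce.sub p hE)
    exact fun i => ⟨key 1 (by decide) i, key 2 (by decide) i⟩
  refine h.last h.ce.two hp3φ.gd hx0 (t := t) (by rw [q13, v30, v31, v32]; exact L3) ?_ hτ haτ hτU hN
    bt (fun i => ?_) (by rw [q13, v30, v31, v32]; exact hW3)
  · -- generic positions of `v 0`
    have L4 : ∀ᶠ x in gen k (Vec k), ∀ y ∈ UU A u a, ∀ z ∈ UU A u a, y ≠ z → y ≠ d → y ≠ e →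
        z ≠ d → z ≠ e → LinearIndependent k ![x, p3 y, p3 z, p3 e - t • p3 d] := by
      rw [Filter.eventually_all_finset]
      intro y hy
      rw [Filter.eventually_all_finset]
      intro z hz
      by_cases hcase : y ≠ z ∧ y ≠ d ∧ y ≠ e ∧ z ≠ d ∧ z ≠ e
      · obtain ⟨c1, c2, c3, c4, c5⟩ := hcase
        filter_upwards [eventually_li (h.li_q2 hp3φ.gd t (hUAu _ hy) (hUAu _ hz) c1 c2 c3 c4 c5)]
          with x hx _ _ _ _ _
        exact hx
      · refine Eventually.of_forall fun x c1 c2 c3 c4 c5 => absurd ⟨c1, c2, c3, c4, c5⟩ hcase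
    filter_upwards [hp4, L4] with x1 hφ4 hL4
    obtain ⟨t4, ht4, hT4⟩ := h.exists_t hφ4.gd
    have e4 : t = t4 := h.t_eq_v hp3φ.gd hφ4.gd (i := 0)
      (fun y hy => (Function.update_of_ne hy _ _).symm) ht hT3 hT4
    subst e4
    refine ⟨h.pHyp hφ4 ht hT4 hw hnot ?_, h.ev_gp hφ4⟩
    intro i j hij z hz hzi hzj
    have hzU : z ∈ UU A u a := (mem_extN.mp hz).1.1
    have hzX : z = x0 ∨ z = v 0 ∨ z = v 1 ∨ z = v 2 := by
      obtain ⟨l, rfl⟩ := (mem_XX hx0).mp hz
      fin_cases l
      · exact Or.inl rfl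
      · exact Or.inr (Or.inl rfl)
      · exact Or.inr (Or.inr (Or.inl rfl))
      · exact Or.inr (Or.inr (Or.inr rfl))
    have hzd : z ≠ d ∧ z ≠ e := by
      rcases hzX with rfl | rfl | rfl | rfl
      · exact ⟨hx0.2.2.1, hx0.2.2.2.1⟩
      · exact (nv 0).2.2
      · exact (nv 1).2.2
      · exact (nv 2).2.2
    have hvij : v i ≠ v j := fun h' => hij (h.inj h')
    rw [Function.update_of_ne (nv 0).2.2.2.symm, Function.update_of_ne (nv 0).2.2.1.symm]
    by_cases hi0 : i = 0
    · subst hi0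
      have hL := hL4 (v j) (h.v_ne j).1 z hzU hzj.symm (nv j).2.2.1 (nv j).2.2.2 hzd.1 hzd.2
      rw [Function.update_self, Function.update_of_ne hvij.symm, Function.update_of_ne hzi]
      rw [li4] at hL ⊢
      intro α β γ δ hs
      obtain ⟨r1, r2, r3, r4⟩ := hL β γ δ α (by rw [← hs]; abel)
      exact ⟨r4, r1, r2, r3⟩
    · by_cases hj0 : j = 0
      · subst hj0
        have hL := hL4 (v i) (h.v_ne i).1 z hzU hzi.symm (nv i).2.2.1 (nv i).2.2.2 hzd.1 hzd.2
        rw [Function.update_self, Function.update_of_ne hvij, Function.update_of_ne hzj]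
        rw [li4] at hL ⊢
        intro α β γ δ hs
        obtain ⟨r1, r2, r3, r4⟩ := hL γ β δ α (by rw [← hs]; abel)
        exact ⟨r4, r2, r1, r3⟩
      · have hvi0 : v i ≠ v 0 := fun h' => hi0 (h.inj h')
        have hvj0 : v j ≠ v 0 := fun h' => hj0 (h.inj h')
        by_cases hz0 : z = v 0
        · subst hz0
          have hL := hL4 (v i) (h.v_ne i).1 (v j) (h.v_ne j).1 hvij (nv i).2.2.1 (nv i).2.2.2
            (nv j).2.2.1 (nv j).2.2.2
          rw [Function.update_self, Function.update_of_ne hvi0, Function.update_of_ne hvj0]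
          rw [li4] at hL ⊢
          intro α β γ δ hs
          obtain ⟨r1, r2, r3, r4⟩ := hL δ β γ α (by rw [← hs]; abel)
          exact ⟨r4, r2, r3, r1⟩
        · -- `z = x0`, `{i, j} = {1, 2}`
          rw [Function.update_of_ne hvi0, Function.update_of_ne hvj0, Function.update_of_ne hz0,
            q13]
          have hij' : (i = 1 ∧ j = 2) ∨ (i = 2 ∧ j = 1) := fin3_two i j hi0 hj0 hij
          have hzx : z = x0 := by
            rcases hzX with h' | h' | h' | h'
            · exact h'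
            · exact absurd h' hz0
            · rcases hij' with ⟨rfl, rfl⟩ | ⟨rfl, rfl⟩
              · exact absurd h' hzi
              · exact absurd h' hzj
            · rcases hij' with ⟨rfl, rfl⟩ | ⟨rfl, rfl⟩
              · exact absurd h' hzj
              · exact absurd h' hzi
          rw [hzx, v30]
          rcases hij' with ⟨rfl, rfl⟩ | ⟨rfl, rfl⟩
          · rw [v31, v32]
            rw [li4] at L3 ⊢
            intro α β γ δ hs
            obtain ⟨r1, r2, r3, r4⟩ := L3 α δ β γ (by rw [← hs]; abel)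
            exact ⟨r1, r3, r4, r2⟩
          · rw [v31, v32]
            rw [li4] at L3 ⊢
            intro α β γ δ hs
            obtain ⟨r1, r2, r3, r4⟩ := L3 α δ γ β (by rw [← hs]; abel)
            exact ⟨r1, r4, r3, r2⟩
  · rw [hbt, hp3def, Function.update_of_ne (hτv i).2, hp2def, Function.update_of_ne (hτv i).1]

/-- **The case that `b` and `c` have some `v i` in their blocks.** -/
theorem case_one (h : B3Hyp k A E u a b c d e v) {ib ic : Fin 3}
    (hib : InBlock k A E u (v ib) d e b) (hic : InBlock k A E u (v ic) d e c) : False := by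
  classical
  have hc := h.comb
  obtain ⟨x0, hx0'⟩ := h.exists_ext
  have hx0 : IsX0 A E u a b c d e v x0 := hx0'
  have hφ := h.eventually_phi
  have huniq : ∀ i w w', (w = a ∨ w = b ∨ w = c) → (w' = a ∨ w' = b ∨ w' = c) →
      InBlock k A E u (v i) d e w → InBlock k A E u (v i) d e w' → w = w' := by
    intro i w w' hw hw' h1 h2
    obtain ⟨p, hp⟩ := hφ.exists
    obtain ⟨t, ht, hT⟩ := h.exists_t hp.gd
    obtain ⟨w0, -, -, hu⟩ := (hp.gd.ex i).existsUnique_block h.lab ht hT hp.gd.nTA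
    exact (hu w hw h1).trans (hu w' hw' h2).symm
  have hbc : ib ≠ ic := by
    rintro rfl
    exact h.lab.bc (huniq ib b c (by simp) (by simp) hib hic)
  have nib : ¬ InBlock k A E u (v ib) d e a := fun h' =>
    h.lab.ab (huniq ib a b (by simp) (by simp) h' hib)
  have nic : ¬ InBlock k A E u (v ic) d e a := fun h' =>
    h.lab.ac (huniq ic a c (by simp) (by simp) h' hic)
  obtain ⟨i0, h0b, h0c⟩ : ∃ i0 : Fin 3, i0 ≠ ib ∧ i0 ≠ ic := by
    fin_cases ib <;> fin_cases ic <;> first
      | exact absurd rfl hbc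
      | exact ⟨0, by decide, by decide⟩
      | exact ⟨1, by decide, by decide⟩
      | exact ⟨2, by decide, by decide⟩
  have hall : ∀ i : Fin 3, i = i0 ∨ i = ib ∨ i = ic := fun i =>
    fin3_all i0 ib ic i h0b h0c hbc
  have nv : ∀ i, v i ≠ b ∧ v i ≠ c ∧ v i ≠ d ∧ v i ≠ e := fun i => (h.v_ne i).2
  have nx := hx0.2.2.2.2.1
  have hx0U : x0 ∈ UU A u a := (mem_extN.mp ((mem_XX hx0).mpr ⟨0, rfl⟩)).1.1
  obtain ⟨p, hp, hp2⟩ := (hφ.and (eventually_update hφ (v i0))).exists
  obtain ⟨t, ht, hT⟩ := h.exists_t hp.gd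
  have haA : a ∈ A.erase u := nbr_subset _ _ _ (h.tb.mem_nbr (x := a) (by simp))
  have l2 := h.li_q2 hp.gd t (Finset.mem_of_mem_erase hx0U) haA (hc.wne hx0U) hx0.2.2.1
    hx0.2.2.2.1 h.lab.ad h.lab.ae
  obtain ⟨x2, hp2φ, hli⟩ := (hp2.and (eventually_li l2)).exists
  set p2 := Function.update p (v i0) x2 with hp2def
  obtain ⟨t2, ht2, hT2⟩ := h.exists_t hp2φ.gd
  have e2 : t = t2 := h.t_eq_v hp.gd hp2φ.gd (i := i0)
    (fun y hy => (Function.update_of_ne hy _ _).symm) ht hT hT2
  subst e2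
  obtain ⟨s, J, a', hx⟩ := h.xdata_p hp2φ.gd ht hT2
  have G : TCfg (UU A u a) p2 b c d e (p2 a) :=
    { gp := h.gpU hp2φ.gd
      hb := hc.hb
      hc := hc.hc
      hd := hc.hd
      he := hc.he
      hbc := hc.hbc
      hbd := hc.hbd
      hbe := hc.hbe
      hcd := hc.hcd
      hce := hc.hce
      hde := hc.hde
      li := fun y hy y' hy' y'' hy'' n1 n2 n3 =>
        (h.gpI hp2φ.gd).four (Set.mem_insert _ _) (Set.mem_insert_of_mem _ hy)
          (Set.mem_insert_of_mem _ hy') (Set.mem_insert_of_mem _ hy'') (hc.wne hy).symm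
          (hc.wne hy').symm (hc.wne hy'').symm n1 n2 n3 }
  have hsz : ∀ y ∈ XX A E u a b c, s y ≠ 0 → y ∈ ({x0, v i0} : Finset V) := by
    intro y hy hsy
    have hzX : y = x0 ∨ ∃ i, y = v i := by
      obtain ⟨l, rfl⟩ := (mem_XX hx0).mp hy
      fin_cases l
      · exact Or.inl rfl
      · exact Or.inr ⟨0, rfl⟩
      · exact Or.inr ⟨1, rfl⟩
      · exact Or.inr ⟨2, rfl⟩
    rcases hzX with rfl | ⟨i, rfl⟩
    · simp
    · rcases hall i with rfl | rfl | rfl
      · simp
      · exact absurd (h.sv_zero hp2φ.gd ht hT2 hx nib) hsy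
      · exact absurd (h.sv_zero hp2φ.gd ht hT2 hx nic) hsy
  obtain ⟨N, -, -, hsb, hsc, hs, -⟩ := S1'_at hx G (X' := {x0, v i0}) Finset.card_le_two hsz
  have hs0 : s (v i0) ≠ 0 := (hs (v i0) (h.v_ne i0).1).mpr (by simp)
  obtain ⟨c₀, hc₀⟩ := hx.equil
  rw [h.sum_star hx (fun y => p2 y) (by simp [hsb]) (by simp [hsc])] at hc₀
  have hsum : ∑ y ∈ XX A E u a b c, s y • p2 y = s x0 • p x0 + s (v i0) • x2 := by
    have hsub : ({x0, v i0} : Finset V) ⊆ XX A E u a b c := by
      intro y hy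
      simp only [Finset.mem_insert, Finset.mem_singleton] at hy
      have hX : XX A E u a b c = {x0, v 0, v 1, v 2} := hx0.2.2.2.2.2
      rw [hX]
      rcases hy with rfl | rfl
      · simp
      · fin_cases i0 <;> simp
    rw [← Finset.sum_subset hsub fun y hy hy' => by
      by_contra hcon
      exact hy' (hsz y hy fun h' => hcon (by rw [h', zero_smul]))]
    rw [Finset.sum_pair (nx i0), hp2def, Function.update_of_ne (nx i0), Function.update_self]
  have hpa : p2 a = p a := by rw [hp2def, Function.update_of_ne (h.a_ne i0).symm]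
  have hq : p2 e - t • p2 d = p e - t • p d := by
    rw [hp2def, Function.update_of_ne (nv i0).2.2.2.symm, Function.update_of_ne (nv i0).2.2.1.symm]
  rw [hsum, hpa, hq] at hc₀
  rw [li4] at hli
  exact hs0 (hli (s (v i0)) (s x0) (-c₀) 1 (by
    rw [← sub_eq_zero] at hc₀
    rw [← hc₀]
    simp only [neg_smul, one_smul]
    abel)).1

/-- **(B3), one pure type A neighbour.** -/
theorem contra (h : B3Hyp k A E u a b c d e v) : False := by
  classical
  by_cases hb : ∀ i, ¬ InBlock k A E u (v i) d e b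
  · exact h.case_two (Or.inl rfl) hb
  by_cases hc : ∀ i, ¬ InBlock k A E u (v i) d e c
  · exact h.case_two (Or.inr rfl) hc
  push Not at hb hc
  obtain ⟨ib, hib⟩ := hb
  obtain ⟨ic, hic⟩ := hc
  exact h.case_one hib hic

end B3Hyp

end GR.E4
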