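import Pool.Agent.Lib.GR.E4Core

/-!
# Degree 7 body vertices: the case `|A| = 4`, `B_Z q = 0` and `B` is injective
-/

namespace GR.E4

open Module Filter

open scoped Matrix

variable {k : Type*} [Field k] {V : Type*} [DecidableEq V]

/-- a skew map vanishes if its entries on a basis vanish -/
lemma skew_zero_of_basis {v : Fin 4 → Vec k} (h : LinearIndependent k v)
    {S : Vec k →ₗ[k] Vec k} (hS : IsSkew S) (h01 : S (v 0) ⬝ᵥ v 1 = 0)
    (h02 : S (v 0) ⬝ᵥ v 2 = 0) (h03 : S (v 0) ⬝ᵥ v 3 = 0) (h12 : S (v 1) ⬝ᵥ v 2 = 0)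
    (h13 : S (v 1) ⬝ᵥ v 3 = 0) (h23 : S (v 2) ⬝ᵥ v 3 = 0) : S = 0 := by
  have hsw : ∀ i j, S (v i) ⬝ᵥ v j = 0 → S (v j) ⬝ᵥ v i = 0 := fun i j hij => by
    rw [hS.swap, hij, neg_zero]
  have hz : ∀ i, S (v i) = 0 := by
    intro i
    refine eq_zero_of_dot h ?_
    intro j
    fin_cases i <;> fin_cases j <;>
      first
      | exact hS _
      | assumption
      | (apply hsw; assumption)
  exact hS.eq_zero_of_three (x := v 0) (y := v 1) (z := v 2) (by
    have := h.comp (![0, 1, 2] : Fin 3 → Fin 4) (by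
      intro i j hij; fin_cases i <;> fin_cases j <;> simp_all)
    convert this using 1
    funext i; fin_cases i <;> rfl) (hz 0) (hz 1) (hz 2)

/-- `α_Z(x) = (B_Z q) · x` -/
noncomputable def alphaM (b : Basis (Fin 4) k (Vec k)) (y : Fin 4 → V) (q : Vec k)
    (M : Submodule k (V → Vec k)) : M →ₗ[k] Vec k →ₗ[k] k :=
  (dotL k).comp ((LinearMap.applyₗ q).comp ((BL b y).comp M.subtype))

lemma alphaM_apply (b : Basis (Fin 4) k (Vec k)) (y : Fin 4 → V) (q : Vec k)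
    (M : Submodule k (V → Vec k)) (Z : M) (x : Vec k) :
    alphaM b y q M Z x = BL b y Z.1 q ⬝ᵥ x := rfl

/-- `β_Z(x, x') = (B_Z x) · x'` -/
noncomputable def betaM (b : Basis (Fin 4) k (Vec k)) (y : Fin 4 → V)
    (M : Submodule k (V → Vec k)) : M →ₗ[k] Vec k →ₗ[k] Vec k →ₗ[k] k where
  toFun Z := (dotL k).comp (BL b y Z.1)
  map_add' Z Z' := by
    refine LinearMap.ext fun x => LinearMap.ext fun x' => ?_
    simp [add_dotProduct]
  map_smul' c Z := by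
    refine LinearMap.ext fun x => LinearMap.ext fun x' => ?_
    simp

lemma betaM_apply (b : Basis (Fin 4) k (Vec k)) (y : Fin 4 → V)
    (M : Submodule k (V → Vec k)) (Z : M) (x x' : Vec k) :
    betaM b y M Z x x' = BL b y Z.1 x ⬝ᵥ x' := rfl

namespace Frame

variable {B : Finset V} {E : Finset (Sym2 V)} {p : V → Vec k} {b2 b3 r4 r5 : V} {t : k}
    {y : Fin 4 → V}

/-- the basis `p (y j)` -/
noncomputable def bas (F : Frame B E p b2 b3 r4 r5 t y) : Basis (Fin 4) k (Vec k) :=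
  basisOfLinearIndependentOfCardEqFinrank F.li_y (by simp)

@[simp] lemma bas_apply (F : Frame B E p b2 b3 r4 r5 t y) (j : Fin 4) : F.bas j = p (y j) := by
  simp [bas]

lemma BL_y (F : Frame B E p b2 b3 r4 r5 t y) (Z : V → Vec k) (j : Fin 4) :
    BL F.bas y Z (p (y j)) = Z (y j) := by
  rw [← F.bas_apply j]; exact BL_apply_basis _ _ _ _

lemma BL_sum (F : Frame B E p b2 b3 r4 r5 t y) (Z : V → Vec k) (c : Fin 4 → k) :
    BL F.bas y Z (∑ j, c j • p (y j)) = ∑ j, c j • Z (y j) := by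
  rw [map_sum]
  exact Finset.sum_congr rfl fun j _ => by rw [map_smul, F.BL_y]

lemma BL_ext (F : Frame B E p b2 b3 r4 r5 t y) {Z : V → Vec k} {S : Vec k →ₗ[k] Vec k}
    (h : ∀ j, Z (y j) = S (p (y j))) : BL F.bas y Z = S := by
  refine F.bas.ext fun j => ?_
  rw [BL_apply_basis, F.bas_apply, h j]

lemma eq_zero_of_BL (F : Frame B E p b2 b3 r4 r5 t y) {Z : V → Vec k}
    (h : BL F.bas y Z = 0) (j : Fin 4) : Z (y j) = 0 := by
  have h1 := F.BL_y Z j
  rw [h] at h1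
  exact h1.symm

lemma eps_eq (F : Frame B E p b2 b3 r4 r5 t y) (Z : V → Vec k) (i j : Fin 4) :
    eps p (y i) (y j) Z = BL F.bas y Z (p (y i)) ⬝ᵥ p (y j) + BL F.bas y Z (p (y j)) ⬝ᵥ p (y i) := by
  rw [F.BL_y, F.BL_y, eps_apply]

/-- skew from the quadratic form -/
lemma isSkew_BL_eps (F : Frame B E p b2 b3 r4 r5 t y) {Z : V → Vec k}
    (h : ∀ x, BL F.bas y Z x ⬝ᵥ x = 0) (i j : Fin 4) : eps p (y i) (y j) Z = 0 := by
  rw [F.eps_eq]
  have h1 := h (p (y i) + p (y j))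
  have h2 := h (p (y i))
  have h3 := h (p (y j))
  simp only [map_add, add_dotProduct, dotProduct_add, h2, h3, add_zero, zero_add] at h1
  linear_combination h1

/-- the three numbers -/
noncomputable def three (F : Frame B E p b2 b3 r4 r5 t y) : (V → Vec k) →ₗ[k] (Fin 3 → k) where
  toFun Z := ![BL F.bas y Z (p r4) ⬝ᵥ p (y 0), BL F.bas y Z (p r4) ⬝ᵥ p (y 1),
    BL F.bas y Z (p (y 0)) ⬝ᵥ p (y 1)]
  map_add' Z Z' := by
    ext i; fin_cases i <;> simp [add_dotProduct]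
  map_smul' c Z := by
    ext i; fin_cases i <;> simp

lemma three_zero (F : Frame B E p b2 b3 r4 r5 t y) {Z : V → Vec k}
    (hs : ∀ x, BL F.bas y Z x ⬝ᵥ x = 0) (hq : BL F.bas y Z (p r5 - t • p r4) = 0)
    (h : F.three Z = 0) : BL F.bas y Z = 0 := by
  have h0 := congrFun h 0
  have h1 := congrFun h 1
  have h2 := congrFun h 2
  simp only [three, LinearMap.coe_mk, AddHom.coe_mk, Matrix.cons_val_zero, Matrix.cons_val_one,
    Matrix.cons_val, Pi.zero_apply] at h0 h1 h2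
  exact skew_zero_of_basis (F.li_q (i := 0) (j := 1) (by decide)) hs
    (by simp [hq]) (by simp [hq]) (by simp [hq]) (by simpa using h0) (by simpa using h1)
    (by simpa using h2)

/-- rotations about `q` with prescribed three numbers -/
lemma exists_rot (F : Frame B E p b2 b3 r4 r5 t y) (c : Fin 3 → k) :
    ∃ Y ∈ Fr B (E : Set (Sym2 V)) p b2 b3 r4 r5, ∃ S : Vec k →ₗ[k] Vec k, IsSkew S ∧
      S (p r5 - t • p r4) = 0 ∧ BL F.bas y Y = S ∧ F.three Y = c := by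
  obtain ⟨S, hS, hv⟩ := exists_skew_of_basis (F.li_q (i := 0) (j := 1) (by decide))
    !![0, 0, 0, 0; 0, 0, c 0, c 1; 0, -c 0, 0, c 2; 0, -c 1, -c 2, 0]
    (by intro i; fin_cases i <;> simp) (by intro i j; fin_cases i <;> fin_cases j <;> simp)
  have hSq : S (p r5 - t • p r4) = 0 :=
    eq_zero_of_dot (F.li_q (i := 0) (j := 1) (by decide)) (by
      intro i
      have := hv 0 i
      fin_cases i <;> simpa using this)
  obtain ⟨Y, hY, hYy, -⟩ := F.hY S hS hSq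
  have hBS := F.BL_ext hYy
  refine ⟨Y, hY, S, hS, hSq, hBS, ?_⟩
  ext i
  have h12 := hv 1 2
  have h13 := hv 1 3
  have h23 := hv 2 3
  simp only [Matrix.cons_val_zero, Matrix.cons_val_one, Matrix.cons_val, Matrix.of_apply]
    at h12 h13 h23
  fin_cases i
  · simpa [three, hBS] using h12
  · simpa [three, hBS] using h13
  · simpa [three, hBS] using h23

/-- The pair of identities for all `x`. -/
lemma pair_identity [Infinite k] (F : Frame B E p b2 b3 r4 r5 t y)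
    (hid : ∃ᶠ x in gen k (Vec k), ∃ s : Fin 4 → k, ∃ s0 : k,
      (p r5 - t • p r4) + ∑ j, s j • p (y j) = s0 • x ∧
      ∀ Z ∈ Fr B (E : Set (Sym2 V)) p b2 b3 r4 r5, ∑ j, s j * (Z (y j) ⬝ᵥ x) = 0)
    {Z Z' : V → Vec k} (hZ : Z ∈ Fr B (E : Set (Sym2 V)) p b2 b3 r4 r5)
    (hZ' : Z' ∈ Fr B (E : Set (Sym2 V)) p b2 b3 r4 r5) (x : Vec k) :
    (BL F.bas y Z (p r5 - t • p r4) ⬝ᵥ x) * (BL F.bas y Z' x ⬝ᵥ x) =
      (BL F.bas y Z' (p r5 - t • p r4) ⬝ᵥ x) * (BL F.bas y Z x ⬝ᵥ x) := by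
  have hlin : ∀ z : Vec k, PolyLine k (fun x : Vec k => z ⬝ᵥ x) := fun z => by
    have := PolyLine.linear (k := k) (W := Vec k) (dotL k z)
    simpa using this
  have hquad : ∀ S : Vec k →ₗ[k] Vec k, PolyLine k (fun x : Vec k => S x ⬝ᵥ x) := by
    intro S
    have : (fun x : Vec k => S x ⬝ᵥ x) = fun x : Vec k => ∑ i, S x i * x i := by
      funext x; rfl
    rw [this]
    refine PolyLine.sum _ fun i _ => PolyLine.mul ?_ (polyLine_vec i)
    exact PolyLine.linear ((LinearMap.proj i).comp S)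
  have hf : PolyLine k (fun x : Vec k =>
      (BL F.bas y Z (p r5 - t • p r4) ⬝ᵥ x) * (BL F.bas y Z' x ⬝ᵥ x) -
      (BL F.bas y Z' (p r5 - t • p r4) ⬝ᵥ x) * (BL F.bas y Z x ⬝ᵥ x)) :=
    ((hlin _).mul (hquad _)).sub ((hlin _).mul (hquad _))
  refine sub_eq_zero.mp (hf.eq_zero (hid.mono ?_) x)
  rintro x ⟨s, s0, h1, h2⟩
  have key : ∀ W ∈ Fr B (E : Set (Sym2 V)) p b2 b3 r4 r5,
      BL F.bas y W (p r5 - t • p r4) ⬝ᵥ x = s0 * (BL F.bas y W x ⬝ᵥ x) := by
    intro W hW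
    have h3 := congrArg (fun v => BL F.bas y W v ⬝ᵥ x) h1
    simp only [map_add, add_dotProduct, F.BL_sum, map_smul, smul_dotProduct, smul_eq_mul,
      sum_dotProduct, h2 W hW, add_zero] at h3
    exact h3
  show _ - _ = 0
  rw [key Z hZ, key Z' hZ']
  ring

/-- **The case `|A| = 4`.** -/
theorem core_four [Infinite k] (h2 : (2 : k) ≠ 0) (F : Frame B E p b2 b3 r4 r5 t y)
    (hF : FactR B p) (hdim : finrank k (Fr B (E : Set (Sym2 V)) p b2 b3 r4 r5) = 5)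
    (hinj : ∀ Z ∈ Fr B (E : Set (Sym2 V)) p b2 b3 r4 r5, (∀ j, Z (y j) = 0) → Z r4 = 0 → Z = 0)
    (hne : ∀ i j : Fin 4, i ≠ 0 → j ≠ 0 → i ≠ j →
      ∃ Z ∈ Fr B (E : Set (Sym2 V)) p b2 b3 r4 r5, eps p (y i) (y j) Z ≠ 0)
    (hid : ∃ᶠ x in gen k (Vec k), ∃ s : Fin 4 → k, ∃ s0 : k,
      (p r5 - t • p r4) + ∑ j, s j • p (y j) = s0 • x ∧
      ∀ Z ∈ Fr B (E : Set (Sym2 V)) p b2 b3 r4 r5, ∑ j, s j * (Z (y j) ⬝ᵥ x) = 0) :
    (∀ Z ∈ Fr B (E : Set (Sym2 V)) p b2 b3 r4 r5, BL F.bas y Z (p r5 - t • p r4) = 0) ∧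
    (∀ Z ∈ Fr B (E : Set (Sym2 V)) p b2 b3 r4 r5, (∀ j, Z (y j) = 0) → Z = 0) := by
  classical
  set M := Fr B (E : Set (Sym2 V)) p b2 b3 r4 r5 with hM
  set q := p r5 - t • p r4 with hq
  have hloop : ∀ Z ∈ M, ∀ j, BL F.bas y Z (p (y j)) ⬝ᵥ p (y j) = 0 := by
    intro Z hZ j
    rw [F.BL_y]
    exact hZ.1.2.1 _ (F.hy j)
  -- zero skew from the kernel
  have kern : ∀ {i i' : Fin 4}, i ≠ i' → (∀ Z ∈ M, eps p (y i) (y i') Z = 0 →
      (∀ x, BL F.bas y Z x ⬝ᵥ x = 0) ∧ BL F.bas y Z q = 0) →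
      ∀ Z0 ∈ M, (∀ j, Z0 (y j) = 0) → Z0 = 0 := by
    intro i i' hii h Z0 hZ0 h0
    refine hinj Z0 hZ0 h0 (F.kernel hF hii ?_ hZ0 h0)
    intro Z hZ hz
    obtain ⟨h3, h4⟩ := h Z hZ hz
    refine ⟨F.isSkew_BL_eps h3, ?_⟩
    intro c hc
    rw [← F.BL_sum, hc]
    exact h4
  rcases pair_classify h2 (alphaM F.bas y q M) (betaM F.bas y M)
    (fun Z Z' x => F.pair_identity hid Z.2 Z'.2 x) with h | ⟨Z1, hZ1, c, hc1, hc⟩ | ⟨δ, hδ⟩
  · -- `α = 0`
    have hα : ∀ Z ∈ M, BL F.bas y Z q = 0 := by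
      intro Z hZ
      have h3 := h ⟨Z, hZ⟩
      refine dotProduct_eq_zero _ fun x => ?_
      have := LinearMap.congr_fun h3 x
      simpa [alphaM_apply] using this
    refine ⟨hα, ?_⟩
    intro Z0 hZ0 h0
    by_contra hZ0n
    -- all motions without strain at `(1, 2)` are skew
    refine hZ0n (kern (i := 1) (i' := 2) (by decide) ?_ Z0 hZ0 h0)
    intro Z hZ hz
    refine ⟨?_, hα Z hZ⟩
    obtain ⟨Z1, hZ1, hz1⟩ := hne 1 2 (by decide) (by decide) (by decide)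
    let Ψ : M →ₗ[k] (k × (Fin 3 → k)) :=
      ((eps p (y 1) (y 2)).comp M.subtype).prod (F.three.comp M.subtype)
    have hΨ : ∀ Z : M, Ψ Z = (eps p (y 1) (y 2) Z.1, F.three Z.1) := fun _ => rfl
    have hrot : ∀ c : Fin 3 → k, ∃ Y ∈ M, eps p (y 1) (y 2) Y = 0 ∧ F.three Y = c ∧
        ∀ x, BL F.bas y Y x ⬝ᵥ x = 0 := by
      intro c
      obtain ⟨Y, hY, S, hS, -, hBS, h3⟩ := F.exists_rot c
      have : ∀ x, BL F.bas y Y x ⬝ᵥ x = 0 := fun x => by rw [hBS]; exact hS x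
      exact ⟨Y, hY, F.isSkew_BL_eps this 1 2, h3, this⟩
    have hsurj : Function.Surjective Ψ := by
      rintro ⟨r, c⟩
      obtain ⟨Y, hY, hY1, hY2, -⟩ := hrot (c - (r / eps p (y 1) (y 2) Z1) • F.three Z1)
      refine ⟨(r / eps p (y 1) (y 2) Z1) • ⟨Z1, hZ1⟩ + ⟨Y, hY⟩, ?_⟩
      rw [hΨ]
      simp only [Submodule.coe_add, Submodule.coe_smul, map_add, map_smul, hY1, hY2,
        smul_eq_mul, add_zero]
      rw [div_mul_cancel₀ _ hz1]
      simp
    have hker : finrank k (LinearMap.ker Ψ) = 1 := by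
      have h5 := LinearMap.finrank_range_add_finrank_ker Ψ
      rw [LinearMap.range_eq_top.mpr hsurj] at h5
      simp at h5
      omega
    obtain ⟨Y, hY, hY1, hY2, hY3⟩ := hrot (F.three Z)
    have hZ0k : (⟨Z0, hZ0⟩ : M) ∈ LinearMap.ker Ψ := by
      have hB0 : BL F.bas y Z0 = 0 := F.BL_ext (S := 0) (by simpa using h0)
      rw [LinearMap.mem_ker, hΨ]
      refine Prod.ext ?_ ?_
      · simp [eps_apply, h0]
      · ext i
        fin_cases i <;> simp [three, hB0]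
    have hWk : (⟨Z, hZ⟩ - ⟨Y, hY⟩ : M) ∈ LinearMap.ker Ψ := by
      rw [LinearMap.mem_ker, hΨ]
      simp [hz, hY1, hY2]
    obtain ⟨r, hr⟩ := (finrank_eq_one_iff_of_nonzero' (⟨⟨Z0, hZ0⟩, hZ0k⟩ : LinearMap.ker Ψ) (by
      intro h6
      apply hZ0n
      have := congrArg (fun z : LinearMap.ker Ψ => ((z : M) : V → Vec k)) h6
      simpa using this)).mp hker ⟨_, hWk⟩
    have hr' : r • Z0 = Z - Y := by
      have := congrArg (fun z : LinearMap.ker Ψ => ((z : M) : V → Vec k)) hr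
      simpa using this
    have hBZ : BL F.bas y Z = BL F.bas y Y := by
      have hB0 : BL F.bas y Z0 = 0 := F.BL_ext (S := 0) (by simpa using h0)
      have h7 := congrArg (BL F.bas y) hr'
      rw [map_smul, hB0, smul_zero, map_sub] at h7
      exact (sub_eq_zero.mp h7.symm)
    intro x
    rw [hBZ]
    exact hY3 x
  · -- proportional to a fixed pair
    exfalso
    have hβ : ∀ Z : M, ∀ x, BL F.bas y Z.1 x ⬝ᵥ x = c Z * (BL F.bas y Z1.1 x ⬝ᵥ x) :=
      fun Z x => (hc Z x).2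
    have hα : ∀ Z : M, ∀ x, BL F.bas y Z.1 q ⬝ᵥ x = c Z * (BL F.bas y Z1.1 q ⬝ᵥ x) :=
      fun Z x => (hc Z x).1
    have heps : ∀ Z : M, ∀ i j, eps p (y i) (y j) Z.1 = c Z * eps p (y i) (y j) Z1.1 := by
      intro Z i j
      have e : ∀ W : M, eps p (y i) (y j) W.1 =
          BL F.bas y W.1 (p (y i) + p (y j)) ⬝ᵥ (p (y i) + p (y j)) := by
        intro W
        rw [F.eps_eq]
        simp only [map_add, add_dotProduct, dotProduct_add, hloop W.1 W.2 i, hloop W.1 W.2 j]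
        ring
      rw [e Z, e Z1]
      exact hβ Z _
    obtain ⟨Z2, hZ2, hz2⟩ := hne 1 2 (by decide) (by decide) (by decide)
    have h12 : eps p (y 1) (y 2) Z1.1 ≠ 0 := by
      intro h0
      apply hz2
      have := heps ⟨Z2, hZ2⟩ 1 2
      rw [h0, mul_zero] at this
      exact this
    -- a nonzero element of the kernel
    let Ψ : M →ₗ[k] (k × (Fin 3 → k)) := c.prod (F.three.comp M.subtype)
    have hΨ : ∀ Z : M, Ψ Z = (c Z, F.three Z.1) := fun _ => rfl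
    have hker : ∃ Z0 : M, Z0 ≠ 0 ∧ Ψ Z0 = 0 := by
      by_contra hcon
      push Not at hcon
      have hinjΨ : Function.Injective Ψ := by
        rw [← LinearMap.ker_eq_bot, LinearMap.ker_eq_bot']
        intro Z hZ
        by_contra hne'
        exact hcon Z hne' hZ
      have h5 := LinearMap.finrank_le_finrank_of_injective hinjΨ
      simp at h5
      omega
    obtain ⟨Z0, hZ0n, hZ0⟩ := hker
    rw [hΨ] at hZ0
    have hc0 : c Z0 = 0 := congrArg Prod.fst hZ0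
    have ht0 : F.three Z0.1 = 0 := congrArg Prod.snd hZ0
    have hsk : ∀ Z : M, c Z = 0 → (∀ x, BL F.bas y Z.1 x ⬝ᵥ x = 0) ∧ BL F.bas y Z.1 q = 0 := by
      intro Z hZ
      refine ⟨fun x => by rw [hβ, hZ, zero_mul], dotProduct_eq_zero _ fun x => ?_⟩
      rw [hα, hZ, zero_mul]
    obtain ⟨s1, s2⟩ := hsk Z0 hc0
    have hB0 := F.three_zero s1 s2 ht0
    apply hZ0n
    refine Subtype.ext (kern (i := 1) (i' := 2) (by decide) ?_ Z0.1 Z0.2 (F.eq_zero_of_BL hB0))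
    intro Z hZ hz
    refine hsk ⟨Z, hZ⟩ ?_
    have := heps ⟨Z, hZ⟩ 1 2
    rw [hz] at this
    exact (mul_eq_zero.mp this.symm).resolve_right h12
  · -- `β = δ α`
    exfalso
    have hβ : ∀ Z : M, ∀ x, BL F.bas y Z.1 x ⬝ᵥ x = δ x * (BL F.bas y Z.1 q ⬝ᵥ x) :=
      fun Z x => hδ Z x
    have heps : ∀ Z : M, ∀ i j, eps p (y i) (y j) Z.1 =
        δ (p (y i)) * (BL F.bas y Z.1 q ⬝ᵥ p (y j)) +
        δ (p (y j)) * (BL F.bas y Z.1 q ⬝ᵥ p (y i)) := by
      intro Z i j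
      have e : eps p (y i) (y j) Z.1 =
          BL F.bas y Z.1 (p (y i) + p (y j)) ⬝ᵥ (p (y i) + p (y j)) := by
        rw [F.eps_eq]
        simp only [map_add, add_dotProduct, dotProduct_add, hloop Z.1 Z.2 i, hloop Z.1 Z.2 j]
        ring
      have ei := hβ Z (p (y i))
      have ej := hβ Z (p (y j))
      rw [hloop Z.1 Z.2 i] at ei
      rw [hloop Z.1 Z.2 j] at ej
      rw [e, hβ Z]
      simp only [map_add, dotProduct_add]
      linear_combination -ei - ej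
    have h0 : ∀ i j, δ (p (y i)) = 0 → δ (p (y j)) = 0 → ∀ Z ∈ M, eps p (y i) (y j) Z = 0 := by
      intro i j hi hj Z hZ
      rw [heps ⟨Z, hZ⟩, hi, hj]; ring
    have h1 : ∀ i j, δ (p (y i)) ≠ 0 → δ (p (y j)) ≠ 0 → ∀ Z ∈ M, eps p (y i) (y j) Z = 0 := by
      intro i j hi hj Z hZ
      have ei := hβ ⟨Z, hZ⟩ (p (y i))
      have ej := hβ ⟨Z, hZ⟩ (p (y j))
      have li := hloop Z hZ i
      have lj := hloop Z hZ j
      simp only at ei ej
      rw [li] at ei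
      rw [lj] at ej
      have ei' := (mul_eq_zero.mp ei.symm).resolve_left hi
      have ej' := (mul_eq_zero.mp ej.symm).resolve_left hj
      rw [heps ⟨Z, hZ⟩]
      simp only
      rw [ei', ej']; ring
    have hno : ∀ i j : Fin 4, i ≠ 0 → j ≠ 0 → i ≠ j → ¬ (∀ Z ∈ M, eps p (y i) (y j) Z = 0) := by
      intro i j hi hj hij hall
      obtain ⟨Z, hZ, hz⟩ := hne i j hi hj hij
      exact hz (hall Z hZ)
    by_cases d1 : δ (p (y 1)) = 0 <;> by_cases d2 : δ (p (y 2)) = 0 <;>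
      by_cases d3 : δ (p (y 3)) = 0
    · exact hno 1 2 (by decide) (by decide) (by decide) (h0 1 2 d1 d2)
    · exact hno 1 2 (by decide) (by decide) (by decide) (h0 1 2 d1 d2)
    · exact hno 1 3 (by decide) (by decide) (by decide) (h0 1 3 d1 d3)
    · exact hno 2 3 (by decide) (by decide) (by decide) (h1 2 3 d2 d3)
    · exact hno 2 3 (by decide) (by decide) (by decide) (h0 2 3 d2 d3)
    · exact hno 1 3 (by decide) (by decide) (by decide) (h1 1 3 d1 d3)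
    · exact hno 1 2 (by decide) (by decide) (by decide) (h1 1 2 d1 d2)
    · exact hno 1 2 (by decide) (by decide) (by decide) (h1 1 2 d1 d2)

end Frame

end GR.E4
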