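import Pool.Agent.Lib.GR.Exch2

/-!
# The circuits of `E - u + w d + w e` and the blocks

For the stress `ω` of `E - u + w d + w e`: `ω` is zero at `v` iff `v` is not in the block of `w`.
-/

set_option linter.unusedSectionVars false

namespace GR

open Filter Module

open scoped Matrix

variable {k : Type*} [Field k] [Infinite k] {V : Type*} [DecidableEq V]

/-- the graph `E - u + w d + w e` -/
def circ (A : Finset V) (E : Finset (Sym2 V)) (u w d e : V) : Finset (Sym2 V) :=
  insert s(w, e) (insert s(w, d) (rest E (A.erase u)))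

/-- the two ways of restricting a graph agree -/
lemma inE_coe_eq_rest {E : Finset (Sym2 V)} (hE : ∀ e ∈ E, ¬ e.IsDiag) (B : Finset V) :
    inE B (E : Set (Sym2 V)) = rest E B := by
  ext e
  rw [mem_inE, mem_rest, mem_Kf, Finset.mem_coe]
  constructor
  · rintro ⟨⟨-, h1⟩, h2⟩
    exact ⟨h2, h1⟩
  · rintro ⟨h1, h2⟩
    exact ⟨⟨hE e h1, h2⟩, h1⟩

/-- the graph `E - u + w d + w e` in the notation of the frame -/
lemma circ_eq {A : Finset V} {E : Finset (Sym2 V)} (hE : E ⊆ Kf A) (u w d e : V) :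
    insert s(w, e) (insert s(w, d) (inE (A.erase u) (E : Set (Sym2 V)))) = circ A E u w d e := by
  rw [inE_coe_eq_rest fun e he => (mem_Kf.mp (hE he)).1]
  rfl

/-- `E - u` has no stress. -/
lemma MinCE.stress_rest {A : Finset V} {E : Finset (Sym2 V)} {p : V → Vec k} (h : MinCE k A E)
    (hp : Nice A p) {W : Finset V} (hW : W ⊂ A) {ω : Sym2 V → k}
    (hω : ω ∈ Stress (rest E W) p) : ω = 0 := by
  have hsub : rest E W ⊆ Kf W := rest_subset_Kf (fun e he => (mem_Kf.mp (h.sub he)).1) _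
  have h1 := finrank_Stress_eq (A := W) (E := rest E W) (fun e he => (mem_Kf.mp (hsub he)).2)
    (fun v hv => hp.ne_zero v (hW.1 hv))
  have h2 := h.mdim_rest hp hW
  rw [GR.mdim_rest] at h1
  have h3 : finrank k (Stress (rest E W) p) = 0 := by omega
  have h4 := Submodule.finrank_eq_zero.mp h3
  rw [h4] at hω
  exact (Submodule.mem_bot k).mp hω

namespace ExPair

variable {A : Finset V} {E : Finset (Sym2 V)} {u v : V} {p : V → Vec k} {a b c d e : V} {t : k}

lemma body_ne (hL : Lab (nbr (A.erase u) (E : Set (Sym2 V)) u) a b c d e) {w : V}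
    (hw : w = a ∨ w = b ∨ w = c) : w ≠ d ∧ w ≠ e := by
  rcases hw with rfl | rfl | rfl
  exacts [⟨hL.ad, hL.ae⟩, ⟨hL.bd, hL.be⟩, ⟨hL.cd, hL.ce⟩]

lemma rest_sub (h : ExPair k A E u v p) : rest E (A.erase u) ⊆ Kf (A.erase u) :=
  rest_subset_Kf (fun e he => (mem_Kf.mp (h.ce.sub he)).1) _

/-- the two coefficients of a stress of `E - u + w d + w e` -/
lemma circ_coeff (h : ExPair k A E u v p)
    (hL : Lab (nbr (A.erase u) (E : Set (Sym2 V)) u) a b c d e) (ht : t ≠ 0)
    (hTB : Mot (A.erase u) (E : Set (Sym2 V)) p ≤ TB p a b c d e t) {w : V}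
    (hw : w = a ∨ w = b ∨ w = c) {ω : Sym2 V → k} (hω : ω ∈ Stress (circ A E u w d e) p) :
    ω s(w, d) = -t * ω s(w, e) := by
  obtain ⟨hne, hnd⟩ := h.notMem_E hL ht hTB hw
  obtain ⟨Z, hZ, hZne⟩ := h.exists_ne hL hTB hw
  have hwd := (body_ne hL hw).1
  have h1 := stress_pair_work (w := w) (d := d) (e := e) h.rest_sub hL.de hwd
    (fun hc => hne (rest_subset _ _ hc)) (fun hc => hnd (rest_subset _ _ hc)) hω
    (by rw [Mot_rest]; exact hZ)
  rw [TB_ratio (hTB hZ) hw] at h1
  have h2 : (ω s(w, d) + t * ω s(w, e)) * eps p w d Z = 0 := by linear_combination h1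
  have h3 := (mul_eq_zero.mp h2).resolve_right hZne
  linear_combination h3

/-- a stress of `E - u + w d + w e` with zero coefficient at `w e` is zero -/
lemma circ_eq_zero (h : ExPair k A E u v p)
    (hL : Lab (nbr (A.erase u) (E : Set (Sym2 V)) u) a b c d e) (ht : t ≠ 0)
    (hTB : Mot (A.erase u) (E : Set (Sym2 V)) p ≤ TB p a b c d e t) {w : V}
    (hw : w = a ∨ w = b ∨ w = c) {ω : Sym2 V → k} (hω : ω ∈ Stress (circ A E u w d e) p)
    (h0 : ω s(w, e) = 0) : ω = 0 := by
  have h1 := h.circ_coeff hL ht hTB hw hω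
  rw [h0, mul_zero] at h1
  refine h.ce.stress_rest h.nice (Finset.erase_ssubset h.hu) ?_
  refine mem_Stress_of_support hω fun f hf => ?_
  by_cases hf1 : f = s(w, e)
  · rw [hf1, h0]
  by_cases hf2 : f = s(w, d)
  · rw [hf2, h1]
  · refine hω.1 f fun hc => ?_
    rw [circ, Finset.mem_insert, Finset.mem_insert] at hc
    rcases hc with hc | hc | hc
    exacts [hf1 hc, hf2 hc, hf hc]

/-- the stress of `E - u + w d + w e` -/
theorem exists_circ (h : ExPair k A E u v p)
    (hL : Lab (nbr (A.erase u) (E : Set (Sym2 V)) u) a b c d e) (ht : t ≠ 0)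
    (hTB : Mot (A.erase u) (E : Set (Sym2 V)) p ≤ TB p a b c d e t) {w : V}
    (hw : w = a ∨ w = b ∨ w = c) :
    ∃ ω ∈ Stress (circ A E u w d e) p, ω s(w, e) = 1 ∧ ω s(w, d) = -t := by
  obtain ⟨hne, hnd⟩ := h.notMem_E hL ht hTB hw
  exact exists_stress_pair (B := A.erase u) (h.mem_erase (h.pd.subu (body_mem hL hw)))
    (h.mem_erase (h.pd.subu hL.hd)) (h.mem_erase (h.pd.subu hL.he)) hL.de (body_ne hL hw).1
    (fun hc => hne (rest_subset _ _ hc)) (fun hc => hnd (rest_subset _ _ hc))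
    (fun Z hZ => by rw [Mot_rest] at hZ; exact TB_ratio (hTB hZ) hw)

/-- the stress is unique up to a factor -/
theorem circ_unique (h : ExPair k A E u v p)
    (hL : Lab (nbr (A.erase u) (E : Set (Sym2 V)) u) a b c d e) (ht : t ≠ 0)
    (hTB : Mot (A.erase u) (E : Set (Sym2 V)) p ≤ TB p a b c d e t) {w : V}
    (hw : w = a ∨ w = b ∨ w = c) {ω ω₁ : Sym2 V → k} (hω : ω ∈ Stress (circ A E u w d e) p)
    (hω₁ : ω₁ ∈ Stress (circ A E u w d e) p) (h1 : ω₁ s(w, e) = 1) :
    ω = ω s(w, e) • ω₁ := by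
  have h2 := h.circ_eq_zero hL ht hTB hw (Submodule.sub_mem _ hω
    (Submodule.smul_mem _ (ω s(w, e)) hω₁)) (by simp [h1])
  exact sub_eq_zero.mp h2

/-- **The stress of `E - u + w d + w e` is zero at `v` if `v` is not in the block of `w`.** -/
theorem star_zero (h : ExPair k A E u v p)
    (hL : Lab (nbr (A.erase u) (E : Set (Sym2 V)) u) a b c d e) (ht : t ≠ 0)
    (hTB : Mot (A.erase u) (E : Set (Sym2 V)) p ≤ TB p a b c d e t) {w : V}
    (hw : w = a ∨ w = b ∨ w = c) (hnot : ¬ InBlock k A E u v d e w)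
    {ω : Sym2 V → k} (hω : ω ∈ Stress (circ A E u w d e) p) (x : V) : ω s(v, x) = 0 := by
  obtain ⟨hne, hnd⟩ := h.notMem_E hL ht hTB hw
  have hwU := h.pd.subu (body_mem hL hw)
  have hdU := h.pd.subu hL.hd
  have heU := h.pd.subu hL.he
  have hvU : v ∉ A \ {u, v} := by simp
  obtain ⟨ω₁, h1, h2, -⟩ := exists_stress_pair (B := A \ {u, v}) (S := rest E (A \ {u, v}))
    (p := p) (t := t) hwU hdU heU hL.de (body_ne hL hw).1
    (fun hc => hne (rest_subset _ _ hc)) (fun hc => hnd (rest_subset _ _ hc))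
    (fun Z hZ => by
      rw [Mot_rest] at hZ
      exact h.ratio_of_not hL hTB hw hnot Z hZ)
  have hsub : insert s(w, e) (insert s(w, d) (rest E (A \ {u, v}))) ⊆ circ A E u w d e := by
    unfold circ
    refine Finset.insert_subset_insert _ (Finset.insert_subset_insert _ fun f hf => ?_)
    rw [mem_rest] at hf ⊢
    exact ⟨hf.1, fun y hy => h.mem_erase (hf.2 y hy)⟩
  have h3 := h.circ_unique hL ht hTB hw hω (Stress_mono hsub p h1) h2
  rw [h3, Pi.smul_apply, smul_eq_mul, h1.1 s(v, x), mul_zero]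
  intro hc
  rw [Finset.mem_insert, Finset.mem_insert] at hc
  rcases hc with hc | hc | hc
  · have hv : v ∈ s(w, e) := by rw [← hc]; simp
    rcases Sym2.mem_iff.mp hv with rfl | rfl
    · exact hvU hwU
    · exact hvU heU
  · have hv : v ∈ s(w, d) := by rw [← hc]; simp
    rcases Sym2.mem_iff.mp hv with rfl | rfl
    · exact hvU hwU
    · exact hvU hdU
  · exact hvU ((mem_rest.mp hc).2 v (by simp))

/-- **The stress of `E - u + w d + w e` is not zero at `v` if `v` is in the block of `w`.** -/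
theorem star_ne (h : ExPair k A E u v p)
    (hL : Lab (nbr (A.erase u) (E : Set (Sym2 V)) u) a b c d e) (ht : t ≠ 0)
    (hTB : Mot (A.erase u) (E : Set (Sym2 V)) p ≤ TB p a b c d e t) {w : V}
    (hw : w = a ∨ w = b ∨ w = c) (hin : InBlock k A E u v d e w)
    {ω : Sym2 V → k} (hω : ω ∈ Stress (circ A E u w d e) p) (hne0 : ω ≠ 0) :
    ∃ x ∈ nbr (A.erase v) (E : Set (Sym2 V)) v, ω s(v, x) ≠ 0 := by
  by_contra hcon
  push Not at hcon
  obtain ⟨hne, hnd⟩ := h.notMem_E hL ht hTB hw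
  have hwU := h.pd.subu (body_mem hL hw)
  have hdU := h.pd.subu hL.hd
  have heU := h.pd.subu hL.he
  have hvU : v ∉ A \ {u, v} := by simp
  have h1 : ω ∈ Stress (insert s(w, e) (insert s(w, d) (rest E (A \ {u, v})))) p := by
    refine mem_Stress_of_support hω fun f hf => ?_
    rw [Finset.mem_insert, Finset.mem_insert, not_or, not_or] at hf
    by_cases hfc : f ∈ circ A E u w d e
    · rw [circ, Finset.mem_insert, Finset.mem_insert] at hfc
      rcases hfc with hfc | hfc | hfc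
      · exact absurd hfc hf.1
      · exact absurd hfc hf.2.1
      · have h2 := mem_rest.mp hfc
        have hvf : v ∈ f := by
          by_contra hvf
          refine hf.2.2 (mem_rest.mpr ⟨h2.1, fun y hy => ?_⟩)
          have h3 := Finset.mem_erase.mp (h2.2 y hy)
          simp only [Finset.mem_sdiff, Finset.mem_insert, Finset.mem_singleton, not_or]
          exact ⟨h3.2, h3.1, fun hc => hvf (hc ▸ hy)⟩
        obtain ⟨x, rfl⟩ := hvf
        have h4 := mem_Kf.mp (h.ce.sub h2.1)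
        refine hcon x (mem_nbr.mpr ⟨Finset.mem_erase.mpr ⟨?_, h4.2 x (by simp)⟩,
          by exact_mod_cast h2.1⟩)
        rintro rfl
        exact h4.1 (by simp)
    · exact hω.1 f hfc
  have hsubU : rest E (A \ {u, v}) ⊆ Kf (A \ {u, v}) :=
    rest_subset_Kf (fun e he => (mem_Kf.mp (h.ce.sub he)).1) _
  obtain ⟨Z, hZ, hZne⟩ := (h.inBlock_iff hL hTB hw).mp hin
  have h5 := stress_pair_work (w := w) (d := d) (e := e) hsubU hL.de (body_ne hL hw).1
    (fun hc => hne (rest_subset _ _ hc)) (fun hc => hnd (rest_subset _ _ hc)) h1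
    (by rw [Mot_rest]; exact hZ)
  rw [h.circ_coeff hL ht hTB hw hω] at h5
  have h6 : ω s(w, e) * (eps p w e Z - t * eps p w d Z) = 0 := by linear_combination h5
  rcases mul_eq_zero.mp h6 with h7 | h7
  · exact hne0 (h.circ_eq_zero hL ht hTB hw hω h7)
  · exact hZne (sub_eq_zero.mp h7)

end ExPair

end GR
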