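import Pool.Agent.Lib.GR.BLocFrame
import Pool.Agent.Lib.GR.Exch3
import Pool.Agent.Lib.GR.Assemble

/-!
# Combinatorial data at a body vertex of degree 7
-/

set_option linter.unusedSectionVars false

namespace GR.E4

open Module Filter

open scoped Matrix

variable {k : Type*} [Field k] [Infinite k] {V : Type*} [DecidableEq V]

/-- `u` type B with body `a b c`, rod `d e`; `a` of degree 7 with three neighbours `v i` of degree
five, `v 0` of pure type A. -/
structure B3Hyp (k : Type*) [Field k] [Infinite k] {V : Type*} [DecidableEq V] (A : Finset V)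
    (E : Finset (Sym2 V)) (u a b c d e : V) (v : Fin 3 → V) : Prop where
  ce : MinCE k A E
  tb : TypB k A E u a b c d e
  deg : dg A E a = 7
  eab : s(a, b) ∈ E
  eac : s(a, c) ∈ E
  ebc : s(b, c) ∈ E
  ede : s(d, e) ∈ E
  inj : Function.Injective v
  adj : ∀ i, s(a, v i) ∈ E
  five : ∀ i, dg A E (v i) = 5
  ne : ∀ i, v i ≠ u
  nadj : ∀ i, s(u, v i) ∉ E
  nrig : ∀ i j, i ≠ j → ∀ q : V → Vec k, Nice A q → s(v i, v j) ∉ clF A E q
  pure : PureA k A E (v 0)

namespace B3Hyp

variable {A : Finset V} {E : Finset (Sym2 V)} {u a b c d e : V} {v : Fin 3 → V}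

lemma nbr_u (h : B3Hyp k A E u a b c d e v) {y : V} :
    y ∈ nbr (A.erase u) (E : Set (Sym2 V)) u ↔ y = a ∨ y = b ∨ y = c ∨ y = d ∨ y = e := by
  rw [h.tb.lab.eq]
  simp

lemma edge_u (h : B3Hyp k A E u a b c d e v) {y : V}
    (hy : y = a ∨ y = b ∨ y = c ∨ y = d ∨ y = e) : y ∈ A.erase u ∧ s(u, y) ∈ E := by
  have := mem_nbr.mp (h.nbr_u.mpr hy)
  exact ⟨this.1, by exact_mod_cast this.2⟩

lemma a_mem (h : B3Hyp k A E u a b c d e v) : a ∈ A.erase u := (h.edge_u (Or.inl rfl)).1

theorem insert_U (h : B3Hyp k A E u a b c d e v) :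
    insert a ((A.erase u).erase a) = A.erase u := Finset.insert_erase h.a_mem

/-- `a d` and `a e` are not edges -/
lemma notMem (h : B3Hyp k A E u a b c d e v) : s(a, d) ∉ E ∧ s(a, e) ∉ E := by
  obtain ⟨p, hp⟩ := (eventually_nice (k := k) A).exists
  obtain ⟨t, ht, hTB⟩ := h.tb.typ p hp
  have hL := h.tb.lab
  have hgp := hp.gp.mono (N' := (nbr (A.erase u) (E : Set (Sym2 V)) u : Set V)) (by
    exact_mod_cast (nbr_subset _ _ _).trans (Finset.erase_subset u A))
  have h3 := h.ce.finrank_inf_RG hp h.tb.mem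
  have h4 : finrank k (Mot (A.erase u) (E : Set (Sym2 V)) p) = gdim k (A.erase u)
    (E : Set (Sym2 V)) := hp.reg _ (Finset.erase_subset u A) _
  rw [h.ce.gdim_erase h.tb.mem hL.card] at h4
  obtain ⟨Z, hZ, hne⟩ := TB_exists_ne hL hgp hTB (by omega) (w := a) (Or.inl rfl)
  have haA := h.a_mem
  have hdA := (h.edge_u (y := d) (by simp)).1
  have heA := (h.edge_u (y := e) (by simp)).1
  constructor
  · intro hc
    exact hne (hZ.2.2 a haA d hdA (by exact_mod_cast hc))
  · intro hc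
    have h1 := hZ.2.2 a haA e heA (by exact_mod_cast hc)
    rw [TB_ratio (hTB hZ) (Or.inl rfl)] at h1
    exact hne ((mul_eq_zero.mp h1).resolve_left ht)

/-- the neighbours of `a` in `U` -/
lemma nbr_a (h : B3Hyp k A E u a b c d e v) :
    nbr ((A.erase u).erase a) (E : Set (Sym2 V)) a
      = (nbr (A.erase a) (E : Set (Sym2 V)) a).erase u := by
  have _ := h.ce
  ext y
  rw [mem_nbr, Finset.mem_erase, Finset.mem_erase, Finset.mem_erase, mem_nbr, Finset.mem_erase]
  tauto

lemma card_nbr_a (h : B3Hyp k A E u a b c d e v) :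
    (nbr ((A.erase u).erase a) (E : Set (Sym2 V)) a).card = 6 := by
  rw [h.nbr_a, Finset.card_erase_of_mem]
  · have := h.deg
    unfold dg at this
    omega
  · have h1 := h.edge_u (y := a) (by simp)
    rw [mem_nbr, Finset.mem_erase]
    exact ⟨⟨(Finset.ne_of_mem_erase h1.1).symm, h.tb.mem⟩, by
      rw [Sym2.eq_swap]; exact_mod_cast h1.2⟩

theorem v_ne (h : B3Hyp k A E u a b c d e v) (i : Fin 3) :
    v i ∈ (A.erase u).erase a ∧ v i ≠ b ∧ v i ≠ c ∧ v i ≠ d ∧ v i ≠ e := by
  have h1 := mem_Kf.mp (h.ce.sub (h.adj i))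
  have h2 : v i ∈ A := h1.2 (v i) (by simp)
  have h3 : v i ≠ a := by
    intro hc
    exact h1.1 (by simp [hc])
  have h4 : ∀ y, (y = a ∨ y = b ∨ y = c ∨ y = d ∨ y = e) → v i ≠ y := by
    rintro y hy rfl
    exact h.nadj i (h.edge_u hy).2
  exact ⟨Finset.mem_erase.mpr ⟨h3, Finset.mem_erase.mpr ⟨h.ne i, h2⟩⟩, h4 b (by simp),
    h4 c (by simp), h4 d (by simp), h4 e (by simp)⟩

/-- number of edges of `U` -/
lemma card_rest_U (h : B3Hyp k A E u a b c d e v) :
    (rest E ((A.erase u).erase a)).card + 11 = E.card := by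
  have h1 := card_rest_erase h.ce.sub u
  have h2 : rest E (A.erase u) ⊆ Kf (A.erase u) :=
    rest_subset_Kf (fun e he => (mem_Kf.mp (h.ce.sub he)).1) _
  have h3 := card_rest_erase h2 a
  have h4 : rest (rest E (A.erase u)) ((A.erase u).erase a) = rest E ((A.erase u).erase a) := by
    ext f
    rw [mem_rest, mem_rest, mem_rest]
    constructor
    · rintro ⟨⟨h5, -⟩, h6⟩
      exact ⟨h5, h6⟩
    · rintro ⟨h5, h6⟩
      exact ⟨⟨h5, fun y hy => Finset.mem_of_mem_erase (h6 y hy)⟩, h6⟩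
  have h5 : nbr ((A.erase u).erase a) ((rest E (A.erase u) : Finset (Sym2 V)) : Set (Sym2 V)) a
      = nbr ((A.erase u).erase a) (E : Set (Sym2 V)) a := by
    ext y
    rw [mem_nbr, mem_nbr, Finset.mem_coe, Finset.mem_coe, mem_rest]
    constructor
    · rintro ⟨h6, h7, -⟩
      exact ⟨h6, h7⟩
    · rintro ⟨h6, h7⟩
      refine ⟨h6, h7, fun z hz => ?_⟩
      rcases Sym2.mem_iff.mp hz with rfl | rfl
      · exact h.a_mem
      · exact Finset.mem_of_mem_erase h6
  rw [h4, h5, h.card_nbr_a] at h3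
  have h6 : (nbr (A.erase u) (E : Set (Sym2 V)) u).card = 5 := h.tb.lab.card
  rw [h6] at h1
  omega

lemma card_U (h : B3Hyp k A E u a b c d e v) : ((A.erase u).erase a).card + 2 = A.card := by
  have h1 := Finset.card_erase_add_one h.a_mem
  have h2 := Finset.card_erase_add_one h.tb.mem
  omega

/-- dimension of the motions of `U` and of `U - v 0` -/
theorem gdim_U (h : B3Hyp k A E u a b c d e v) :
    gdim k ((A.erase u).erase a) (E : Set (Sym2 V)) = 11 := by
  have h1 := h.ce.indep ((A.erase u).erase a)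
    ((Finset.erase_subset _ _).trans_ssubset (Finset.erase_ssubset h.tb.mem))
  have h2 := h.card_rest_U
  have h3 := h.card_U
  have h4 := h.ce.card
  omega

/-- the frame hypotheses of helper59 with `U = (A - u) - a` -/
theorem frameHyp (h : B3Hyp k A E u a b c d e v) :
    FrameHyp k ((A.erase u).erase a) a b c d e (E : Set (Sym2 V)) where
  two := h.ce.two
  hw := Finset.notMem_erase a _
  hb := Finset.mem_erase.mpr ⟨h.tb.lab.ab.symm, (h.edge_u (y := b) (by simp)).1⟩
  hc := Finset.mem_erase.mpr ⟨h.tb.lab.ac.symm, (h.edge_u (y := c) (by simp)).1⟩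
  hd := Finset.mem_erase.mpr ⟨h.tb.lab.ad.symm, (h.edge_u (y := d) (by simp)).1⟩
  he := Finset.mem_erase.mpr ⟨h.tb.lab.ae.symm, (h.edge_u (y := e) (by simp)).1⟩
  hbc := h.tb.lab.bc
  hbd := h.tb.lab.bd
  hbe := h.tb.lab.be
  hcd := h.tb.lab.cd
  hce := h.tb.lab.ce
  hde := h.tb.lab.de
  ewb := by exact_mod_cast h.eab
  ewc := by exact_mod_cast h.eac
  ebc := by exact_mod_cast h.ebc
  ede := by exact_mod_cast h.ede
  full := by rw [h.insert_U]; exact h.ce.gdim_erase h.tb.mem h.tb.lab.card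
  base := by rw [h.gdim_U, h.card_nbr_a]
  typ := by
    rw [h.insert_U]
    filter_upwards [eventually_nice (k := k) A] with p hp
    exact h.tb.typ p hp
  inj := by
    rw [h.insert_U]
    filter_upwards [eventually_nice (k := k) A] with p hp
    have h1 := h.ce.finrank_inf_RG hp h.tb.mem
    have h2 : ((nbr (A.erase u) (E : Set (Sym2 V)) u : Finset V) : Set V)
        = ({a, b, c, d, e} : Set V) := by
      ext y
      rw [Finset.mem_coe, h.nbr_u]
      simp
    rw [h2] at h1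
    exact h1
  good := by
    rw [h.insert_U]
    exact eventually_goodAt fun W hW => h.ce.small W
      (Finset.ssubset_of_subset_of_ssubset hW (Finset.erase_ssubset h.tb.mem))

lemma v_mem_ext (h : B3Hyp k A E u a b c d e v) (i : Fin 3) :
    v i ∈ extN ((A.erase u).erase a) (E : Set (Sym2 V)) a b c := by
  obtain ⟨h1, h2, h3, -, -⟩ := h.v_ne i
  rw [mem_extN]
  exact ⟨⟨h1, by exact_mod_cast h.adj i⟩, h2, h3⟩

/-- the external neighbours of `a` -/
theorem exists_ext (h : B3Hyp k A E u a b c d e v) :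
    ∃ x0, x0 ≠ b ∧ x0 ≠ c ∧ x0 ≠ d ∧ x0 ≠ e ∧ (∀ i, x0 ≠ v i) ∧
      extN ((A.erase u).erase a) (E : Set (Sym2 V)) a b c = {x0, v 0, v 1, v 2} := by
  set X := extN ((A.erase u).erase a) (E : Set (Sym2 V)) a b c with hX
  have hF := h.frameHyp
  have hb : b ∈ nbr ((A.erase u).erase a) (E : Set (Sym2 V)) a := mem_nbr.mpr ⟨hF.hb, hF.ewb⟩
  have hc : c ∈ nbr ((A.erase u).erase a) (E : Set (Sym2 V)) a := mem_nbr.mpr ⟨hF.hc, hF.ewc⟩
  have hbc : ({b, c} : Finset V) ⊆ nbr ((A.erase u).erase a) (E : Set (Sym2 V)) a := by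
    intro y hy
    simp only [Finset.mem_insert, Finset.mem_singleton] at hy
    rcases hy with rfl | rfl <;> assumption
  have hcard : X.card = 4 := by
    rw [hX, extN, Finset.card_sdiff_of_subset hbc, h.card_nbr_a, Finset.card_pair hF.hbc]
  have hv3 : ({v 0, v 1, v 2} : Finset V).card = 3 := by
    rw [Finset.card_insert_of_notMem, Finset.card_pair]
    · exact fun hc => absurd (h.inj hc) (by decide)
    · simp only [Finset.mem_insert, Finset.mem_singleton, not_or]
      exact ⟨fun hc => absurd (h.inj hc) (by decide), fun hc => absurd (h.inj hc) (by decide)⟩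
  have hvX : ({v 0, v 1, v 2} : Finset V) ⊆ X := by
    intro y hy
    simp only [Finset.mem_insert, Finset.mem_singleton] at hy
    rcases hy with rfl | rfl | rfl <;> exact h.v_mem_ext _
  obtain ⟨x0, hx0⟩ : ∃ x0, X \ {v 0, v 1, v 2} = {x0} := by
    rw [← Finset.card_eq_one, Finset.card_sdiff_of_subset hvX, hcard, hv3]
  have hx0m : x0 ∈ X \ {v 0, v 1, v 2} := by rw [hx0]; simp
  obtain ⟨hxX, hxv⟩ := Finset.mem_sdiff.mp hx0m
  have hxX' := mem_extN.mp hxX
  obtain ⟨hnd, hne⟩ := h.notMem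
  refine ⟨x0, hxX'.2.1, hxX'.2.2, ?_, ?_, ?_, ?_⟩
  · rintro rfl
    exact hnd (by exact_mod_cast hxX'.1.2)
  · rintro rfl
    exact hne (by exact_mod_cast hxX'.1.2)
  · intro i hi
    apply hxv
    rw [hi]
    fin_cases i <;> simp
  · ext y
    simp only [Finset.mem_insert, Finset.mem_singleton]
    constructor
    · intro hy
      by_cases hy' : y ∈ ({v 0, v 1, v 2} : Finset V)
      · right
        simpa using hy'
      · left
        have : y ∈ X \ {v 0, v 1, v 2} := Finset.mem_sdiff.mpr ⟨hy, hy'⟩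
        rw [hx0] at this
        simpa using this
    · rintro (rfl | hy)
      · exact hxX
      · exact hvX (by simpa using hy)

/-- the neighbours of `v 0` -/
lemma nbr_v0 (h : B3Hyp k A E u a b c d e v) :
    (nbr (((A.erase u).erase a).erase (v 0)) (E : Set (Sym2 V)) (v 0)) =
      (nbr (A.erase (v 0)) (E : Set (Sym2 V)) (v 0)).erase a := by
  ext y
  rw [mem_nbr, Finset.mem_erase, Finset.mem_erase, Finset.mem_erase, Finset.mem_erase, mem_nbr,
    Finset.mem_erase]
  constructor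
  · rintro ⟨⟨h1, h2, h3, h4⟩, h5⟩
    exact ⟨h2, ⟨h1, h4⟩, h5⟩
  · rintro ⟨h2, ⟨h1, h4⟩, h5⟩
    refine ⟨⟨h1, h2, ?_, h4⟩, h5⟩
    rintro rfl
    exact h.nadj 0 (by rw [Sym2.eq_swap]; exact_mod_cast h5)

lemma a_mem_v0 (h : B3Hyp k A E u a b c d e v) :
    a ∈ nbr (A.erase (v 0)) (E : Set (Sym2 V)) (v 0) := by
  have h1 := Finset.ne_of_mem_erase (h.v_ne 0).1
  rw [mem_nbr, Finset.mem_erase]
  exact ⟨⟨h1.symm, Finset.mem_of_mem_erase h.a_mem⟩, by
    rw [Sym2.eq_swap]; exact_mod_cast h.adj 0⟩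

lemma card_nbr_v0 (h : B3Hyp k A E u a b c d e v) :
    (nbr (((A.erase u).erase a).erase (v 0)) (E : Set (Sym2 V)) (v 0)).card = 4 := by
  rw [h.nbr_v0, Finset.card_erase_of_mem h.a_mem_v0]
  have := h.five 0
  unfold dg at this
  omega

theorem gdim_U1 (h : B3Hyp k A E u a b c d e v) :
    gdim k (((A.erase u).erase a).erase (v 0)) (E : Set (Sym2 V)) = 12 := by
  set U := (A.erase u).erase a with hU
  have h0 : v 0 ∈ U := (h.v_ne 0).1
  have h1 := h.ce.indep (U.erase (v 0)) ((Finset.erase_subset _ _).trans_ssubset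
    ((Finset.erase_subset _ _).trans_ssubset (Finset.erase_ssubset h.tb.mem)))
  have h2 : rest E U ⊆ Kf U := rest_subset_Kf (fun e he => (mem_Kf.mp (h.ce.sub he)).1) _
  have h3 := card_rest_erase h2 (v 0)
  have h4 : rest (rest E U) (U.erase (v 0)) = rest E (U.erase (v 0)) := by
    ext f
    rw [mem_rest, mem_rest, mem_rest]
    constructor
    · rintro ⟨⟨h5, -⟩, h6⟩
      exact ⟨h5, h6⟩
    · rintro ⟨h5, h6⟩
      exact ⟨⟨h5, fun y hy => Finset.mem_of_mem_erase (h6 y hy)⟩, h6⟩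
  have h5 : nbr (U.erase (v 0)) ((rest E U : Finset (Sym2 V)) : Set (Sym2 V)) (v 0)
      = nbr (U.erase (v 0)) (E : Set (Sym2 V)) (v 0) := by
    ext y
    rw [mem_nbr, mem_nbr, Finset.mem_coe, Finset.mem_coe, mem_rest]
    constructor
    · rintro ⟨h6, h7, -⟩
      exact ⟨h6, h7⟩
    · rintro ⟨h6, h7⟩
      refine ⟨h6, h7, fun z hz => ?_⟩
      rcases Sym2.mem_iff.mp hz with rfl | rfl
      · exact h0
      · exact Finset.mem_of_mem_erase h6
  rw [h4, h5, h.card_nbr_v0] at h3
  have h6 := h.card_rest_U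
  rw [← hU] at h6
  have h7 := h.card_U
  rw [← hU] at h7
  have h8 := h.ce.card
  have h9 := Finset.card_erase_add_one h0
  omega

/-- the four neighbours of `v 0` in `U` -/
theorem exists_tau (h : B3Hyp k A E u a b c d e v) :
    ∃ τ : Fin 4 → V, Function.Injective τ ∧ (∀ i, a ≠ τ i) ∧
      (∀ i, τ i ∈ ((A.erase u).erase a).erase (v 0)) ∧
      nbr (A.erase (v 0)) (E : Set (Sym2 V)) (v 0) = insert a (Finset.univ.image τ) := by
  set N := nbr (((A.erase u).erase a).erase (v 0)) (E : Set (Sym2 V)) (v 0) with hN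
  have hcard := h.card_nbr_v0
  rw [← hN] at hcard
  let f : Fin 4 ≃ N := (N.equivFinOfCardEq hcard).symm
  refine ⟨fun i => (f i : V), fun i j hij => f.injective (Subtype.ext hij), ?_, ?_, ?_⟩
  · intro i hi
    have hi' : a = (f i : V) := hi
    have h1 : (f i : V) ∈ N := (f i).2
    rw [← hi'] at h1
    have h2 := mem_nbr.mp h1
    exact Finset.notMem_erase a (A.erase u) (Finset.mem_of_mem_erase h2.1)
  · intro i
    have h1 : (f i : V) ∈ N := (f i).2
    have h2 := mem_nbr.mp h1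
    exact h2.1
  · have h1 : Finset.univ.image (fun i => (f i : V)) = N := by
      ext y
      simp only [Finset.mem_image, Finset.mem_univ, true_and]
      constructor
      · rintro ⟨i, rfl⟩
        exact (f i).2
      · intro hy
        exact ⟨f.symm ⟨y, hy⟩, by simp⟩
    rw [h1, hN, h.nbr_v0, Finset.insert_erase h.a_mem_v0]

end B3Hyp

end GR.E4
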