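import Pool.Agent.Lib.GR.E4Hyp
import Pool.Agent.Lib.GR.NoAB

/-!
# Degree 7 body vertices: data at one position
-/

namespace GR.E4

open Module Filter

open scoped Matrix

variable {k : Type*} [Field k] [Infinite k] {V : Type*} [DecidableEq V]

/-- Generic properties of a position. -/
structure Gd (k : Type*) [Field k] [Infinite k] {V : Type*} [DecidableEq V] (A : Finset V)
    (E : Finset (Sym2 V)) (u : V) (v : Fin 3 → V) (p : V → Vec k) : Prop where
  nice : Nice A p
  ex : ∀ i, ExPair k A E u (v i) p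
  nTA : ¬ Mot (A.erase u) (E : Set (Sym2 V)) p ≤
    TA p (nbr (A.erase u) (E : Set (Sym2 V)) u : Set V)
  good : GoodAt (A.erase u) p
  clique : CliqueProp (A.erase u) p

/-- two positions which differ only at `z` -/
def Off (p q : V → Vec k) (z : V) : Prop := ∀ x, x ≠ z → p x = q x

lemma eps_off {p q : V → Vec k} {x y : V} (hx : p x = q x) (hy : p y = q y) (Z : V → Vec k) :
    eps p x y Z = eps q x y Z := by
  rw [eps_apply, eps_apply, hx, hy]

namespace B3Hyp

variable {A : Finset V} {E : Finset (Sym2 V)} {u a b c d e : V} {v : Fin 3 → V}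

/-- all vertices but `u` and `a` -/
abbrev UU (A : Finset V) (u a : V) : Finset V := (A.erase u).erase a

theorem eventually_gd (h : B3Hyp k A E u a b c d e v) :
    ∀ᶠ p in gen k (V → Vec k), Gd k A E u v p := by
  have h1 : ∀ᶠ p in gen k (V → Vec k), ∀ i, ExPair k A E u (v i) p := by
    rw [eventually_all]
    intro i
    exact h.ce.eventually_exPair h.tb.mem (Finset.mem_of_mem_erase
      (Finset.mem_of_mem_erase (h.v_ne i).1)) (h.ne i).symm h.tb.nbr_card (h.five i) (h.nadj i)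
  have hss : A.erase u ⊂ A := Finset.erase_ssubset h.tb.mem
  filter_upwards [eventually_nice (k := k) A, h1, h.tb.eventually_not_TA h.ce,
    eventually_goodAt (k := k) (A := A.erase u) (fun W hW =>
      h.ce.small _ (Finset.ssubset_of_subset_of_ssubset hW hss)),
    h.ce.eventually_cliqueProp hss] with p p1 p2 p3 p4 p5
  exact ⟨p1, p2, p3, p4, p5⟩

lemma lab (h : B3Hyp k A E u a b c d e v) :
    Lab (nbr (A.erase u) (E : Set (Sym2 V)) u) a b c d e := h.tb.lab

lemma exists_t (h : B3Hyp k A E u a b c d e v) {p : V → Vec k} (hp : Gd k A E u v p) :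
    ∃ t : k, t ≠ 0 ∧ Mot (A.erase u) (E : Set (Sym2 V)) p ≤ TB p a b c d e t :=
  h.tb.typ p hp.nice

/-- the body vertices and rod ends are in `A \ {u, v i}` -/
lemma mem_sdiff (h : B3Hyp k A E u a b c d e v) {p : V → Vec k} (hp : Gd k A E u v p) (i : Fin 3)
    {x : V} (hx : x ∈ nbr (A.erase u) (E : Set (Sym2 V)) u) : x ∈ A \ {u, v i} :=
  (hp.ex i).pd.subu hx

lemma a_ne (h : B3Hyp k A E u a b c d e v) (i : Fin 3) : v i ≠ a := by
  have := (h.v_ne i).1
  exact (Finset.mem_erase.mp this).1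

/-- **`t` does not depend on the position of `v i`.** -/
theorem t_eq_v (h : B3Hyp k A E u a b c d e v) {p q : V → Vec k} (hp : Gd k A E u v p)
    (hq : Gd k A E u v q) {i : Fin 3} (hpq : Off p q (v i)) {t t' : k} (ht : t ≠ 0)
    (hT : Mot (A.erase u) (E : Set (Sym2 V)) p ≤ TB p a b c d e t)
    (hT' : Mot (A.erase u) (E : Set (Sym2 V)) q ≤ TB q a b c d e t') : t = t' := by
  classical
  obtain ⟨w0, hw0, -, huniq⟩ := (hp.ex i).existsUnique_block h.lab ht hT hp.nTA
  -- a body vertex which is not exceptional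
  obtain ⟨w, hw, hne⟩ : ∃ w, (w = a ∨ w = b ∨ w = c) ∧ w ≠ w0 := by
    by_cases h0 : a = w0
    · exact ⟨b, by simp, fun h' => h.lab.ab (by rw [h0, h'])⟩
    · exact ⟨a, by simp, h0⟩
  have hnot : ¬ InBlock k A E u (v i) d e w := fun h' => hne (huniq w hw h')
  have r1 := (hp.ex i).ratio_of_not h.lab hT hw hnot
  have r2 := (hq.ex i).ratio_of_not h.lab hT' hw hnot
  have hwN : w ∈ nbr (A.erase u) (E : Set (Sym2 V)) u := ExPair.body_mem h.lab hw
  have mw := h.mem_sdiff hp i hwN
  have md := h.mem_sdiff hp i h.lab.hd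
  have me := h.mem_sdiff hp i h.lab.he
  have nv : ∀ x, x ∈ A \ {u, v i} → x ≠ v i := by
    intro x hx h'
    rw [Finset.mem_sdiff] at hx
    exact hx.2 (by simp [h'])
  obtain ⟨Z, hZ, hZne⟩ := (hp.ex i).exists_ne h.lab hT hw
  have hcut := ((hp.ex i).cut_mem hZ).1
  have hM : Mot (A \ {u, v i}) (E : Set (Sym2 V)) p = Mot (A \ {u, v i}) (E : Set (Sym2 V)) q :=
    Mot_congr_pts fun x hx => hpq x (nv x hx)
  have e1 := r1 _ hcut
  have e2 := r2 _ (hM ▸ hcut)
  rw [← eps_off (hpq w (nv w mw)) (hpq e (nv e me)), ← eps_off (hpq w (nv w mw)) (hpq d (nv d md)),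
    e1] at e2
  have hne' : eps p w d (cut k (A \ {u, v i}) Z) ≠ 0 := by
    rw [eps_cut p Z mw md]; exact hZne
  exact mul_right_cancel₀ hne' e2

/-- **If no `v i` is in the block of the body vertex `w ≠ a` then the ratio of `w e` and `w d` is
`t` on all motions of `U`.** -/
theorem ratio_U (h : B3Hyp k A E u a b c d e v) {p : V → Vec k} (hp : Gd k A E u v p) {t : k}
    (ht : t ≠ 0) (hT : Mot (A.erase u) (E : Set (Sym2 V)) p ≤ TB p a b c d e t) {w : V}
    (hw : w = b ∨ w = c) (hnot : ∀ i, ¬ InBlock k A E u (v i) d e w) :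
    ∀ Z ∈ Mot (UU A u a) (E : Set (Sym2 V)) p, eps p w e Z = t * eps p w d Z := by
  classical
  have hw' : w = a ∨ w = b ∨ w = c := Or.inr hw
  obtain ⟨ω, hω, h1, h2⟩ := (hp.ex 0).exists_circ h.lab ht hT hw'
  have hz : ∀ i x, ω s(v i, x) = 0 := fun i x =>
    (hp.ex i).star_zero h.lab ht hT hw' (hnot i) hω x
  have hwa : w ≠ a := by
    rcases hw with rfl | rfl
    · exact h.lab.ab.symm
    · exact h.lab.ac.symm
  have had := h.lab.ad
  have hae := h.lab.ae
  obtain ⟨x0, -, -, -, -, -, hX⟩ := h.exists_ext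
  -- membership of edges at `a`
  have hmem : ∀ y, s(a, y) ∈ circ A E u w d e → s(a, y) ∈ rest E (A.erase u) := by
    intro y hy
    simp only [circ, Finset.mem_insert] at hy
    rcases hy with hy | hy | hy
    · rcases Sym2.eq_iff.mp hy with ⟨h', -⟩ | ⟨h', -⟩
      · exact absurd h'.symm hwa
      · exact absurd h' hae
    · rcases Sym2.eq_iff.mp hy with ⟨h', -⟩ | ⟨h', -⟩
      · exact absurd h'.symm hwa
      · exact absurd h' had
    · exact hy
  have haA : a ∈ A.erase u := by
    have := h.tb.mem_nbr (x := a) (by simp)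
    exact nbr_subset _ _ _ this
  have hsub : circ A E u w d e ⊆ Kf (A.erase u) := by
    have hwA : w ∈ A.erase u := nbr_subset _ _ _ (ExPair.body_mem h.lab hw')
    have hdA : d ∈ A.erase u := nbr_subset _ _ _ h.lab.hd
    have heA : e ∈ A.erase u := nbr_subset _ _ _ h.lab.he
    have hb := ExPair.body_ne h.lab hw'
    intro f hf
    simp only [circ, Finset.mem_insert] at hf
    rcases hf with rfl | rfl | hf
    · exact mk_mem_Kf.mpr ⟨hb.2, hwA, heA⟩
    · exact mk_mem_Kf.mpr ⟨hb.1, hwA, hdA⟩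
    · exact (hp.ex 0).rest_sub hf
  -- the stress vanishes at `a`
  have hgp : GenPos p ((A.erase u : Finset V) : Set V) := fun T hT hc =>
    hp.nice.gp T (hT.trans (by exact_mod_cast Finset.erase_subset u A)) hc
  have hsupp : suppAt (A.erase u) ω a ⊆ {b, c, x0} := by
    intro y hy
    obtain ⟨hya, hyA, hy0⟩ := mem_suppAt.mp hy
    have hyr : s(a, y) ∈ circ A E u w d e := by
      by_contra hcon
      exact hy0 (hω.1 _ hcon)
    have hyE : s(a, y) ∈ E := (rest_subset _ _) (hmem y hyr)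
    have hyU : y ∈ UU A u a := Finset.mem_erase.mpr ⟨hya, hyA⟩
    by_cases hyb : y = b
    · simp [hyb]
    by_cases hyc : y = c
    · simp [hyc]
    have hyX : y ∈ extN (UU A u a) (E : Set (Sym2 V)) a b c :=
      mem_extN.mpr ⟨⟨hyU, by exact_mod_cast hyE⟩, hyb, hyc⟩
    rw [hX] at hyX
    simp only [Finset.mem_insert, Finset.mem_singleton] at hyX
    rcases hyX with h' | h' | h' | h'
    · simp [h']
    · exact absurd (by rw [h', Sym2.eq_swap]; exact hz 0 a) hy0
    · exact absurd (by rw [h', Sym2.eq_swap]; exact hz 1 a) hy0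
    · exact absurd (by rw [h', Sym2.eq_swap]; exact hz 2 a) hy0
  have hempty : suppAt (A.erase u) ω a = ∅ := by
    rcases suppAt_card (A := A.erase u) (fun f hf v hv => (mem_Kf.mp (hsub hf)).2 v hv) hgp hω haA
      with h' | h'
    · exact h'
    · have h3 := Finset.card_le_card hsupp
      have h4 : ({b, c, x0} : Finset V).card ≤ 3 := Finset.card_le_three
      omega
  have ha0 : ∀ y, y ≠ a → ω s(a, y) = 0 := by
    intro y hya
    by_contra hcon
    have hyr : s(a, y) ∈ circ A E u w d e := by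
      by_contra hcon'
      exact hcon (hω.1 _ hcon')
    have hyA : y ∈ A.erase u := (mk_mem_Kf.mp (hsub hyr)).2.2
    have : y ∈ suppAt (A.erase u) ω a := mem_suppAt.mpr ⟨hya, hyA, hcon⟩
    rw [hempty] at this
    simp at this
  -- virtual work
  intro Z hZ
  have hZ0 : Z ∈ Mot0 p := Mot_le_Mot0 _ _ _ hZ
  have hw1 := hω.2 Z hZ0
  have hwe : s(w, e) ∉ insert s(w, d) (rest E (A.erase u)) := by
    obtain ⟨hne, hnd⟩ := (hp.ex 0).notMem_E h.lab ht hT hw'
    simp only [Finset.mem_insert, not_or]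
    refine ⟨fun h' => ?_, fun h' => hnd (rest_subset _ _ h')⟩
    rcases Sym2.eq_iff.mp h' with ⟨-, h''⟩ | ⟨h'', h3⟩
    · exact h.lab.de h''.symm
    · exact h.lab.de (h''.symm.trans h3.symm).symm.symm
  have hwd : s(w, d) ∉ rest E (A.erase u) := fun h' =>
    ((hp.ex 0).notMem_E h.lab ht hT hw').1 (rest_subset _ _ h')
  rw [circ, Finset.sum_insert hwe, Finset.sum_insert hwd, h1, h2] at hw1
  have hrest : ∑ f ∈ rest E (A.erase u), ω f * epsS p f Z = 0 := by
    refine Finset.sum_eq_zero fun f hf => ?_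
    induction f using Sym2.inductionOn with
    | _ x y =>
      have hxy := (mem_rest.mp hf).2
      have hxA := hxy x (by simp)
      have hyA := hxy y (by simp)
      have hxyE := (mem_rest.mp hf).1
      have hnd : x ≠ y := (mk_mem_Kf.mp (h.ce.sub hxyE)).1
      by_cases hx : x = a
      · rw [hx, ha0 y (by rw [← hx]; exact hnd.symm), zero_mul]
      by_cases hy : y = a
      · rw [hy, Sym2.eq_swap, ha0 x (by rw [← hy]; exact hnd), zero_mul]
      rw [epsS_mk, hZ.2.2 x (Finset.mem_erase.mpr ⟨hx, hxA⟩) y (Finset.mem_erase.mpr ⟨hy, hyA⟩)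
        (by exact_mod_cast hxyE), mul_zero]
  rw [hrest, epsS_mk, epsS_mk] at hw1
  linear_combination hw1

/-- a motion of `U` with nonzero strain at `w d` -/
theorem exists_ne_U (h : B3Hyp k A E u a b c d e v) {p : V → Vec k} (hp : Gd k A E u v p) {t : k}
    (hT : Mot (A.erase u) (E : Set (Sym2 V)) p ≤ TB p a b c d e t) {w : V}
    (hw : w = b ∨ w = c) :
    ∃ Z ∈ Mot (UU A u a) (E : Set (Sym2 V)) p, eps p w d Z ≠ 0 := by
  have hw' : w = a ∨ w = b ∨ w = c := Or.inr hw
  obtain ⟨Z, hZ, hne⟩ := (hp.ex 0).exists_ne h.lab hT hw'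
  have hwa : w ≠ a := by
    rcases hw with rfl | rfl
    · exact h.lab.ab.symm
    · exact h.lab.ac.symm
  refine ⟨cut k (UU A u a) Z, cut_mem_Mot_of_subset (Finset.erase_subset _ _) hZ, ?_⟩
  rw [eps_cut p Z]
  · exact hne
  · exact Finset.mem_erase.mpr ⟨hwa, nbr_subset _ _ _ (ExPair.body_mem h.lab hw')⟩
  · exact Finset.mem_erase.mpr ⟨h.lab.ad.symm, nbr_subset _ _ _ h.lab.hd⟩

/-- **`t` does not depend on the position of `a`** if some body vertex has no `v i` in its block. -/
theorem t_eq_a (h : B3Hyp k A E u a b c d e v) {p q : V → Vec k} (hp : Gd k A E u v p)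
    (hq : Gd k A E u v q) (hpq : Off p q a) {t t' : k} (ht : t ≠ 0) (ht' : t' ≠ 0)
    (hT : Mot (A.erase u) (E : Set (Sym2 V)) p ≤ TB p a b c d e t)
    (hT' : Mot (A.erase u) (E : Set (Sym2 V)) q ≤ TB q a b c d e t') {w : V}
    (hw : w = b ∨ w = c) (hnot : ∀ i, ¬ InBlock k A E u (v i) d e w) : t = t' := by
  have r1 := h.ratio_U hp ht hT hw hnot
  have r2 := h.ratio_U hq ht' hT' hw hnot
  obtain ⟨Z, hZ, hne⟩ := h.exists_ne_U hp hT hw
  have hM : Mot (UU A u a) (E : Set (Sym2 V)) p = Mot (UU A u a) (E : Set (Sym2 V)) q :=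
    Mot_congr_pts fun x hx => hpq x (Finset.ne_of_mem_erase hx)
  have hwa : w ≠ a := by
    rcases hw with rfl | rfl
    · exact h.lab.ab.symm
    · exact h.lab.ac.symm
  have e1 := r1 _ hZ
  have e2 := r2 _ (hM ▸ hZ)
  rw [← eps_off (hpq w hwa) (hpq e h.lab.ae.symm), ← eps_off (hpq w hwa) (hpq d h.lab.ad.symm),
    e1] at e2
  exact mul_right_cancel₀ hne e2

end B3Hyp

end GR.E4
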