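import Pool.Agent.Lib.GR.E4X

/-!
# Degree 7 body vertices: the case that some body vertex `w ≠ a` has no `v i` in its block
-/

namespace GR.E4

open Module Filter

open scoped Matrix

variable {k : Type*} [Field k] [Infinite k] {V : Type*} [DecidableEq V]

/-- The conclusion of the analysis of the star `s` (S1): the star is one clique, containing the rod
and a set `B` of external neighbours. -/
def S1Concl (K : Submodule k (V → Vec k)) (U X : Finset V) (p : V → Vec k) (b c d e : V)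
    (x : Vec k) (s : V → k) (B : Finset V) : Prop :=
  B ⊆ X ∧ 3 ≤ B.card ∧ s b = 0 ∧ s c = 0 ∧ (∀ y ∈ U, s y ≠ 0 ↔ (y = d ∨ y = e ∨ y ∈ B)) ∧
  ∀ Z ∈ Wg K X x, Z d ⬝ᵥ x = 0 → ∀ y ∈ insert d (insert e B), Z y ⬝ᵥ x = 0 ∧
    ∀ y' ∈ insert d (insert e B), eps p y y' Z = 0

namespace B3Hyp

variable {A : Finset V} {E : Finset (Sym2 V)} {u a b c d e : V} {v : Fin 3 → V}

/-- the data at a position of `a` -/
def HasStar (A : Finset V) (E : Finset (Sym2 V)) (u a b c d e : V) (p : V → Vec k) (t : k)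
    (x : Vec k) (B : Finset V) : Prop :=
  ∃ s J a', XData (KK' A E u a b c d e p) (UU A u a) (XX A E u a b c) p b c d e x t s J a' ∧
    S1Concl (KK' A E u a b c d e p) (UU A u a) (XX A E u a b c) p b c d e x s B

/-- hypotheses at the position `p` for the case of constant `t` -/
structure PHyp (A : Finset V) (E : Finset (Sym2 V)) (u a b c d e : V) (v : Fin 3 → V)
    (p : V → Vec k) (t : k) : Prop where
  gd : Gd k A E u v p
  t0 : t ≠ 0
  tb : Mot (A.erase u) (E : Set (Sym2 V)) p ≤ TB p a b c d e t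
  star : ∀ᶠ x in gen k (Vec k), ∃ B, HasStar A E u a b c d e p t x B
  starv : ∀ᶠ x in gen k (Vec k), ∀ B, HasStar A E u a b c d e p t x B →
    ∀ i, v i ∈ B → InBlock k A E u (v i) d e a
  fact : FactR (UU A u a) p
  li : ∀ i j, i ≠ j → ∀ z ∈ XX A E u a b c, z ≠ v i → z ≠ v j →
    LinearIndependent k ![p e - t • p d, p (v i), p (v j), p z]
  nr : ∀ i j, i ≠ j → ∃ Z ∈ KK' A E u a b c d e p, eps p (v i) (v j) Z ≠ 0

/-- three external neighbours contain two of the `v i` -/
lemma exists_two (h : B3Hyp k A E u a b c d e v) {B : Finset V} (hB : B ⊆ XX A E u a b c)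
    (h3 : B.card = 3) : ∃ i j, i ≠ j ∧ ∃ z, z ≠ v i ∧ z ≠ v j ∧ B = {v i, v j, z} := by
  classical
  obtain ⟨x0, -, -, -, -, hx0, hX'⟩ := h.exists_ext
  have hX : XX A E u a b c = {x0, v 0, v 1, v 2} := hX'
  have h2 : 1 < (B.erase x0).card := by
    have := Finset.pred_card_le_card_erase (s := B) (a := x0)
    omega
  obtain ⟨y, hy, y', hy', hyy⟩ := Finset.one_lt_card.mp h2
  have key : ∀ y ∈ B.erase x0, ∃ i, v i = y := by
    intro y hy
    obtain ⟨h1, h2⟩ := Finset.mem_erase.mp hy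
    have := hB h2
    rw [hX] at this
    simp only [Finset.mem_insert, Finset.mem_singleton] at this
    rcases this with h' | h' | h' | h'
    · exact absurd h' h1
    · exact ⟨0, h'.symm⟩
    · exact ⟨1, h'.symm⟩
    · exact ⟨2, h'.symm⟩
  obtain ⟨i, rfl⟩ := key y hy
  obtain ⟨j, rfl⟩ := key y' hy'
  have hiB := Finset.mem_of_mem_erase hy
  have hjB := Finset.mem_of_mem_erase hy'
  have hc1 : ((B.erase (v i)).erase (v j)).card = 1 := by
    rw [Finset.card_erase_of_mem (Finset.mem_erase.mpr ⟨hyy.symm, hjB⟩),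
      Finset.card_erase_of_mem hiB, h3]
  obtain ⟨z, hz⟩ := Finset.card_eq_one.mp hc1
  have hzm : z ∈ (B.erase (v i)).erase (v j) := by rw [hz]; simp
  obtain ⟨hzj, hzm'⟩ := Finset.mem_erase.mp hzm
  obtain ⟨hzi, hzB⟩ := Finset.mem_erase.mp hzm'
  refine ⟨i, j, fun h' => hyy (by rw [h']), z, hzi, hzj, ?_⟩
  rw [← Finset.insert_erase hiB, ← Finset.insert_erase (Finset.mem_erase.mpr ⟨hyy.symm, hjB⟩), hz]

/-- equilibrium and virtual work of a star -/
lemma star_eq (h : B3Hyp k A E u a b c d e v) {p : V → Vec k} {t : k} {x : Vec k} {s : V → k}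
    {J : Finset (Finset V)} {a' : Finset V → V → k} {B : Finset V}
    (hx : XData (KK' A E u a b c d e p) (UU A u a) (XX A E u a b c) p b c d e x t s J a')
    (hB : S1Concl (KK' A E u a b c d e p) (UU A u a) (XX A E u a b c) p b c d e x s B) :
    (∃ s0 : k, p e - t • p d + ∑ y ∈ B, s y • p y = s0 • x) ∧
    ∀ Z ∈ KK' A E u a b c d e p, (Z e - t • Z d) ⬝ᵥ x + ∑ y ∈ B, s y * (Z y ⬝ᵥ x) = 0 := by
  classical
  obtain ⟨hBX, -, sb, sc, hs, -⟩ := hB
  obtain ⟨x0, h1, h2, h3, h4, h5, hX'⟩ := h.exists_ext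
  have hX : XX A E u a b c = {x0, v 0, v 1, v 2} := hX'
  have hXU : XX A E u a b c ⊆ UU A u a := fun y hy => (mem_extN.mp hy).1.1
  have hd : d ∉ XX A E u a b c := by
    rw [hX]
    simp only [Finset.mem_insert, Finset.mem_singleton, not_or]
    exact ⟨h3.symm, (h.v_ne 0).2.2.2.1.symm, (h.v_ne 1).2.2.2.1.symm, (h.v_ne 2).2.2.2.1.symm⟩
  have he : e ∉ XX A E u a b c := by
    rw [hX]
    simp only [Finset.mem_insert, Finset.mem_singleton, not_or]
    exact ⟨h4.symm, (h.v_ne 0).2.2.2.2.symm, (h.v_ne 1).2.2.2.2.symm, (h.v_ne 2).2.2.2.2.symm⟩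
  have hzero : ∀ y ∈ XX A E u a b c, y ∉ B → s y = 0 := by
    intro y hy hyB
    by_contra hcon
    rcases (hs y (hXU hy)).mp hcon with h' | h' | h'
    · exact hd (h' ▸ hy)
    · exact he (h' ▸ hy)
    · exact hyB h'
  constructor
  · obtain ⟨c₀, hc₀⟩ := hx.equil
    refine ⟨c₀, ?_⟩
    rw [← hc₀, h.sum_star hx (fun y => p y) (by simp [sb]) (by simp [sc]),
      Finset.sum_subset hBX fun y hy hyB => by rw [hzero y hy hyB, zero_smul]]
  · intro Z hZ
    have h6 := hx.virt Z hZ
    rw [← Finset.sum_subset hBX fun y hy hyB => by rw [hzero y hy hyB, zero_mul]] at h6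
    rw [sub_dotProduct, smul_dotProduct, smul_eq_mul]
    exact h6

/-- **`|B| = 3` is impossible generically.** -/
theorem not_three (h : B3Hyp k A E u a b c d e v) {p : V → Vec k} {t : k}
    (hp : PHyp A E u a b c d e v p t) {B : Finset V} (h3 : B.card = 3) :
    ∀ᶠ x in gen k (Vec k), ¬ HasStar A E u a b c d e p t x B := by
  classical
  by_contra hcon
  have hfr : ∃ᶠ x in gen k (Vec k), HasStar A E u a b c d e p t x B := by
    intro h'
    exact hcon h'
  have hBX : B ⊆ XX A E u a b c := by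
    obtain ⟨x, s, J, a', -, h1⟩ := hfr.exists
    exact h1.1
  obtain ⟨i, j, hij, z, hzi, hzj, hB⟩ := h.exists_two hBX h3
  have hzX : z ∈ XX A E u a b c := hBX (by rw [hB]; simp)
  have hvij : v i ≠ v j := fun h' => hij (h.inj h')
  obtain ⟨Z, hZ, hne⟩ := hp.nr i j hij
  refine hne (core_three (M := KK' A E u a b c d e p) (ζ := fun Z => Z e - t • Z d)
    (hp.li i j hij z hzX hzi hzj) ?_ ?_ Z hZ)
  · refine hfr.mono ?_
    rintro x ⟨s, J, a', hx, hxB⟩
    obtain ⟨⟨s0, e1⟩, e2⟩ := h.star_eq hx hxB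
    have hsum : ∀ {R : Type _} [AddCommMonoid R] (f : V → R),
        ∑ y ∈ B, f y = f (v i) + f (v j) + f z := by
      intro R _ f
      rw [hB, Finset.sum_insert, Finset.sum_insert, Finset.sum_singleton, add_assoc]
      · simpa using hzj.symm
      · simp only [Finset.mem_insert, Finset.mem_singleton, not_or]
        exact ⟨hvij, hzi.symm⟩
    refine ⟨s (v i), s (v j), s z, s0, ?_, ?_⟩
    · rw [← e1, hsum]
      abel
    · intro Z hZ
      have := e2 Z hZ
      rw [hsum] at this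
      rw [← this]; ring
  · intro Z hZ
    exact ⟨Kg_loop hZ (h.v_ne i).1, Kg_loop hZ (h.v_ne j).1⟩

/-- the star is everything generically -/
theorem eventually_full (h : B3Hyp k A E u a b c d e v) {p : V → Vec k} {t : k}
    (hp : PHyp A E u a b c d e v p t) :
    ∀ᶠ x in gen k (Vec k), HasStar A E u a b c d e p t x (XX A E u a b c) := by
  classical
  have hcard : (XX A E u a b c).card ≤ 4 := by
    obtain ⟨x0, h1, h2, h3, h4, h5, hX'⟩ := h.exists_ext
    have hX : XX A E u a b c = {x0, v 0, v 1, v 2} := hX'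
    rw [hX]
    exact Finset.card_le_four
  have h1 : ∀ᶠ x in gen k (Vec k), ∀ B ∈ (XX A E u a b c).powerset, B.card = 3 →
      ¬ HasStar A E u a b c d e p t x B := by
    rw [Filter.eventually_all_finset]
    intro B _
    by_cases h3 : B.card = 3
    · filter_upwards [h.not_three hp h3] with x hx _
      exact hx
    · exact Eventually.of_forall fun x h' => absurd h' h3
  filter_upwards [h1, hp.star] with x hx1 hx2
  obtain ⟨B, hB⟩ := hx2
  have hBX : B ⊆ XX A E u a b c := by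
    obtain ⟨s, J, a', -, h2⟩ := hB
    exact h2.1
  have h3 : 3 ≤ B.card := by
    obtain ⟨s, J, a', -, h2⟩ := hB
    exact h2.2.1
  have h4 : B.card ≠ 3 := fun h' => hx1 B (Finset.mem_powerset.mpr hBX) h' hB
  have h5 := Finset.card_le_card hBX
  rwa [← Finset.eq_of_subset_of_card_le hBX (by omega)]

/-- all `v i` are in the block of `a` -/
theorem all_block (h : B3Hyp k A E u a b c d e v) {p : V → Vec k} {t : k}
    (hp : PHyp A E u a b c d e v p t) (i : Fin 3) : InBlock k A E u (v i) d e a := by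
  obtain ⟨x, hx1, hx2⟩ := ((h.eventually_full hp).and hp.starv).exists
  refine hx2 _ hx1 i ?_
  obtain ⟨x0, h1, h2, h3, h4, h5, hX'⟩ := h.exists_ext
  have hX : XX A E u a b c = {x0, v 0, v 1, v 2} := hX'
  rw [hX]
  fin_cases i <;> simp

/-- the ratio `t` on all frame motions -/
theorem zeta (h : B3Hyp k A E u a b c d e v) {p : V → Vec k} {t : k}
    (hp : PHyp A E u a b c d e v p t) : ∀ Z ∈ KK' A E u a b c d e p, Z e = t • Z d := by
  have hblk : ∀ w, (w = b ∨ w = c) → ∀ i, ¬ InBlock k A E u (v i) d e w := by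
    intro w hw i hin
    obtain ⟨w0, -, -, huniq⟩ := (hp.gd.ex i).existsUnique_block h.lab hp.t0 hp.tb hp.gd.nTA
    have h1 := huniq a (Or.inl rfl) (h.all_block hp i)
    have h2 := huniq w (Or.inr hw) hin
    rcases hw with rfl | rfl
    · exact h.lab.ab (h1.trans h2.symm)
    · exact h.lab.ac (h1.trans h2.symm)
  intro Z hZ
  have rb := h.ratio_U hp.gd hp.t0 hp.tb (w := b) (Or.inl rfl) (hblk b (Or.inl rfl)) Z hZ.1
  have rc := h.ratio_U hp.gd hp.t0 hp.tb (w := c) (Or.inr rfl) (hblk c (Or.inr rfl)) Z hZ.1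
  rw [eps_apply, eps_apply, Kg_zb hZ, zero_dotProduct, zero_dotProduct, zero_add, zero_add] at rb
  rw [eps_apply, eps_apply, Kg_zc hZ, zero_dotProduct, zero_dotProduct, zero_add, zero_add] at rc
  have hc := h.comb
  have ld := Kg_loop hZ hc.hd
  have le := Kg_loop hZ hc.he
  have lde := Kg_de hZ
  have led := Kg_ed hZ hc.hd hc.he hc.ede
  rw [← sub_eq_zero]
  refine GR.perp_four ((h.gpU hp.gd).four hc.hb hc.hc hc.hd hc.he hc.hbc hc.hbd hc.hbe hc.hcd hc.hce
    hc.hde) ?_ ?_ ?_ ?_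
  · rw [sub_dotProduct, smul_dotProduct, smul_eq_mul, rb, sub_self]
  · rw [sub_dotProduct, smul_dotProduct, smul_eq_mul, rc, sub_self]
  · rw [sub_dotProduct, smul_dotProduct, smul_eq_mul, led, ld, mul_zero, sub_zero]
  · rw [sub_dotProduct, smul_dotProduct, smul_eq_mul, le, lde, mul_zero, sub_zero]

end B3Hyp

end GR.E4
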