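import Pool.Agent.Lib.GR.CliqueTool
import Pool.Agent.Lib.GR.Assemble
import Pool.Agent.Lib.GR.NoAB

/-!
# Pure type A vertices are in no clique of a flat on `W` which misses one of their neighbours
-/

set_option linter.unusedSectionVars false

namespace GR

open Filter Module

open scoped Matrix

variable {k : Type*} [Field k] [Infinite k] {V : Type*} [DecidableEq V]

/-- a labelling of a 5-set with three given points -/
lemma exists_lab_three {T : Finset V} {x y z : V} (h5 : T.card = 5) (hx : x ∈ T) (hy : y ∈ T)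
    (hz : z ∈ T) (hxy : x ≠ y) (hxz : x ≠ z) (hyz : y ≠ z) : ∃ d e : V, Lab T x y z d e := by
  have h2 : (((T.erase x).erase y).erase z).card = 2 := by
    rw [Finset.card_erase_of_mem (by simp [hxz.symm, hyz.symm, hz]),
      Finset.card_erase_of_mem (by simp [hxy.symm, hy]), Finset.card_erase_of_mem hx, h5]
  obtain ⟨d, e, hde, hT⟩ := Finset.card_eq_two.mp h2
  have hmem : ∀ w, w ∈ ((T.erase x).erase y).erase z ↔ w = d ∨ w = e := by
    intro w
    rw [hT]
    simp
  have hd := (hmem d).mpr (Or.inl rfl)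
  have he := (hmem e).mpr (Or.inr rfl)
  simp only [Finset.mem_erase] at hd he
  refine ⟨d, e, ⟨?_, hxy, hxz, hd.2.2.1.symm, he.2.2.1.symm, hyz, hd.2.1.symm, he.2.1.symm,
    hd.1.symm, he.1.symm, hde⟩⟩
  ext w
  simp only [Finset.mem_insert, Finset.mem_singleton]
  constructor
  · intro hw
    by_cases hwx : w = x
    · tauto
    by_cases hwy : w = y
    · tauto
    by_cases hwz : w = z
    · tauto
    have := (hmem w).mp (by simp only [Finset.mem_erase]; exact ⟨hwz, hwy, hwx, hw⟩)
    tauto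
  · rintro (rfl | rfl | rfl | rfl | rfl)
    exacts [hx, hy, hz, hd.2.2.2, he.2.2.2]

section

variable {A : Finset V} {E : Finset (Sym2 V)}

/-- **A pure type A vertex has no rigid triple of neighbours.** -/
theorem MinCE.no_triple (h : MinCE k A E) {u : V} (hu : PureA k A E u) {p : V → Vec k}
    (hp : Nice A p) {x y z : V} (hx : x ∈ nbr (A.erase u) (E : Set (Sym2 V)) u)
    (hy : y ∈ nbr (A.erase u) (E : Set (Sym2 V)) u)
    (hz : z ∈ nbr (A.erase u) (E : Set (Sym2 V)) u) (hxy : x ≠ y) (hxz : x ≠ z) (hyz : y ≠ z)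
    (h1 : ∀ Z ∈ Mot (A.erase u) (E : Set (Sym2 V)) p, eps p x y Z = 0)
    (h2 : ∀ Z ∈ Mot (A.erase u) (E : Set (Sym2 V)) p, eps p x z Z = 0)
    (h3 : ∀ Z ∈ Mot (A.erase u) (E : Set (Sym2 V)) p, eps p y z Z = 0) : False := by
  obtain ⟨d, e, hL⟩ := exists_lab_three hu.typ.deg hx hy hz hxy hxz hyz
  have hNA : nbr (A.erase u) (E : Set (Sym2 V)) u ⊆ A.erase u := nbr_subset _ _ _
  have hE : ∀ e ∈ E, ¬ e.IsDiag := fun e he => (mem_Kf.mp (h.sub he)).1
  refine hu.not_b x y z d e ⟨hu.typ.mem, hL, fun q hq => ?_⟩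
  have hregp := hp.reg.mono (Finset.erase_subset u A)
  have hregq := hq.reg.mono (Finset.erase_subset u A)
  have hgp : GenPos q (nbr (A.erase u) (E : Set (Sym2 V)) u : Set V) :=
    hq.gp.mono (by exact_mod_cast hNA.trans (Finset.erase_subset u A))
  obtain ⟨t, ht, hTB⟩ := exists_TB_of_TA hL hgp
  refine ⟨t, ht, fun Z hZ => hTB Z (hu.typ.typ q hq hZ) (fun v hv => hZ.2.1 v (hNA hv)) ?_ ?_ ?_⟩
  · exact eps_const hE hregp hregq (hNA hx) (hNA hy) hxy h1 Z hZ
  · exact eps_const hE hregp hregq (hNA hx) (hNA hz) hxz h2 Z hZ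
  · exact eps_const hE hregp hregq (hNA hy) (hNA hz) hyz h3 Z hZ

/-- **No cliques at a pure type A vertex with one neighbour missing.** -/
theorem MinCE.not_clique (h : MinCE k A E) {u t : V} (hu : PureA k A E u)
    (ht : t ∈ nbr (A.erase u) (E : Set (Sym2 V)) u) {W : Finset V} (hW : W ⊆ A) (htW : t ∉ W)
    (huW : u ∈ W) (hN : (nbr (A.erase u) (E : Set (Sym2 V)) u).erase t ⊆ W) {p : V → Vec k}
    (hp : Nice A p) (hg : GoodAt W p) {N : Finset V} (hNW : N ⊆ W) (huN : u ∈ N) (h4 : 4 ≤ N.card)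
    (hcl : ∀ Z ∈ Mot W (E : Set (Sym2 V)) p, Z ∈ RG p (N : Set V)) : False := by
  set Nu := nbr (A.erase u) (E : Set (Sym2 V)) u with hNu
  set P := Nu.erase t with hP
  have hNu5 : Nu.card = 5 := hu.typ.deg
  have hP4 : P.card = 4 := by rw [hP, Finset.card_erase_of_mem ht, hNu5]
  have htA : t ∈ A := Finset.mem_of_mem_erase (nbr_subset _ _ _ ht)
  have huA : u ∈ A := hu.typ.mem
  have hWA : W ⊂ A := by
    refine Finset.ssubset_iff_subset_ne.mpr ⟨hW, ?_⟩
    rintro rfl
    exact htW htA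
  have hgpW : GenPos p (W : Set V) := hp.gp.mono (by exact_mod_cast hW)
  have hEd : ∀ e ∈ E, ¬ e.IsDiag := fun e he => (mem_Kf.mp (h.sub he)).1
  have hFK : rest E W ⊆ Kf W := rest_subset_Kf hEd W
  set D := clF W (rest E W) p with hD
  have hDflat : IsFlatIn W D p := isFlatIn_clF _ _ _
  have hMotD : Mot W (D : Set (Sym2 V)) p = Mot W (E : Set (Sym2 V)) p := by
    rw [hD, Mot_clF hFK, Mot_rest]
  have hPW' : P ⊆ W.erase u := by
    intro w hw
    refine Finset.mem_erase.mpr ⟨?_, hN hw⟩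
    rintro rfl
    exact notMem_nbr_erase A _ _ (Finset.mem_of_mem_erase hw)
  have hnbr : nbr (W.erase u) (E : Set (Sym2 V)) u = P := by
    ext w
    rw [hP, hNu, Finset.mem_erase, GR.mem_nbr, GR.mem_nbr, Finset.mem_erase, Finset.mem_erase]
    constructor
    · rintro ⟨⟨h1, h2⟩, h3⟩
      exact ⟨fun hc => htW (hc ▸ h2), ⟨h1, hW h2⟩, h3⟩
    · rintro ⟨h1, ⟨h2, h3⟩, h4⟩
      have : w ∈ P := by
        rw [hP, hNu, Finset.mem_erase, GR.mem_nbr, Finset.mem_erase]
        exact ⟨h1, ⟨h2, h3⟩, h4⟩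
      exact ⟨⟨h2, hN this⟩, h4⟩
  -- dimensions
  have hdimE : mdim (W.erase u) (E : Set (Sym2 V)) p = mdim W (E : Set (Sym2 V)) p + 1 := by
    have h1 := h.mdim_rest hp hWA
    have h2 := h.mdim_rest hp (lt_of_le_of_lt (Finset.erase_subset u W) hWA)
    have h3 := card_rest_erase hFK u
    have h5 : rest (rest E W) (W.erase u) = rest E (W.erase u) := by
      ext e
      rw [mem_rest, mem_rest, mem_rest]
      constructor
      · rintro ⟨⟨h1, _⟩, h2⟩; exact ⟨h1, h2⟩
      · rintro ⟨h1, h2⟩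
        exact ⟨⟨h1, fun v hv => Finset.mem_of_mem_erase (h2 v hv)⟩, h2⟩
    have h6 : nbr (W.erase u) ((rest E W : Finset (Sym2 V)) : Set (Sym2 V)) u = P := by
      rw [← hnbr]
      ext w
      rw [GR.mem_nbr, GR.mem_nbr, Finset.mem_coe, mem_rest]
      constructor
      · rintro ⟨h1, h2, _⟩; exact ⟨h1, by exact_mod_cast h2⟩
      · rintro ⟨h1, h2⟩
        refine ⟨h1, by exact_mod_cast h2, fun v hv => ?_⟩
        rcases Sym2.mem_iff.mp hv with rfl | rfl
        · exact huW
        · exact Finset.mem_of_mem_erase h1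
    rw [h5, h6, hP4] at h3
    have h7 := Finset.card_erase_add_one huW
    omega
  have hle : Mot (W.erase u) (D : Set (Sym2 V)) p ≤ Mot (W.erase u) (E : Set (Sym2 V)) p := by
    rw [← Mot_rest (W.erase u) E p]
    refine Mot_anti ?_ p
    have : rest E (W.erase u) ⊆ D := by
      intro e he
      rw [mem_rest] at he
      exact subset_clF hFK p (mem_rest.mpr ⟨he.1, fun v hv => Finset.mem_of_mem_erase (he.2 v hv)⟩)
    exact_mod_cast this
  have hmW : mdim W (D : Set (Sym2 V)) p = mdim W (E : Set (Sym2 V)) p := by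
    unfold mdim
    rw [hMotD]
  have hPNt : P ⊆ nbr (W.erase u) (D : Set (Sym2 V)) u := by
    intro w hw
    have h1 : w ∈ nbr (W.erase u) (E : Set (Sym2 V)) u := by rw [hnbr]; exact hw
    rw [GR.mem_nbr] at h1 ⊢
    refine ⟨h1.1, ?_⟩
    have h2 : s(u, w) ∈ D := subset_clF hFK p (mem_rest.mpr ⟨by exact_mod_cast h1.2, fun v hv => by
      rcases Sym2.mem_iff.mp hv with rfl | rfl
      · exact huW
      · exact Finset.mem_of_mem_erase h1.1⟩)
    exact_mod_cast h2
  have hKN : Kf N ⊆ D := by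
    refine hDflat.Kf_subset_of_RG hNW ?_
    rw [hMotD]
    exact hcl
  have hledim : mdim (W.erase u) (D : Set (Sym2 V)) p ≤ mdim (W.erase u) (E : Set (Sym2 V)) p :=
    Submodule.finrank_mono hle
  by_cases hcase : mdim (W.erase u) (D : Set (Sym2 V)) p = mdim (W.erase u) (E : Set (Sym2 V)) p
  · -- pairs of `D` are rigid without `u`
    have hMeq : Mot (W.erase u) (D : Set (Sym2 V)) p = Mot (W.erase u) (E : Set (Sym2 V)) p :=
      Submodule.eq_of_le_of_finrank_eq hle hcase
    have hrig : ∀ x ∈ P, ∀ y ∈ P, s(x, y) ∈ D →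
        ∀ Z ∈ Mot (A.erase u) (E : Set (Sym2 V)) p, eps p x y Z = 0 := by
      intro x hx y hy hxy Z hZ
      have h1 : cut k (W.erase u) Z ∈ Mot (W.erase u) (E : Set (Sym2 V)) p :=
        cut_mem_Mot_of_subset (Finset.erase_subset_erase u hW) hZ
      rw [← hMeq] at h1
      have h2 := h1.2.2 x (hPW' hx) y (hPW' hy) (by exact_mod_cast hxy)
      rwa [eps_cut p Z (hPW' hx) (hPW' hy)] at h2
    have hthree : ∀ S : Finset V, S ⊆ P → 3 ≤ S.card → Kf S ⊆ D → False := by
      intro S hS h3 hK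
      obtain ⟨S', hS', hc'⟩ := Finset.exists_subset_card_eq h3
      obtain ⟨x, y, z, hxy, hxz, hyz, rfl⟩ := Finset.card_eq_three.mp hc'
      have hxS : x ∈ S := hS' (by simp)
      have hyS : y ∈ S := hS' (by simp)
      have hzS : z ∈ S := hS' (by simp)
      have hPN : ∀ w ∈ P, w ∈ Nu := fun w hw => Finset.mem_of_mem_erase hw
      exact h.no_triple hu hp (hPN x (hS hxS)) (hPN y (hS hyS)) (hPN z (hS hzS)) hxy hxz hyz
        (hrig x (hS hxS) y (hS hyS) (hK (mk_mem_Kf.mpr ⟨hxy, hxS, hyS⟩)))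
        (hrig x (hS hxS) z (hS hzS) (hK (mk_mem_Kf.mpr ⟨hxz, hxS, hzS⟩)))
        (hrig y (hS hyS) z (hS hzS) (hK (mk_mem_Kf.mpr ⟨hyz, hyS, hzS⟩)))
    have hCT := clique_tool huW hDflat hgpW hg (ρ := 4) (by omega)
    rcases hCT.classify_four le_rfl with ⟨hJ, hNt⟩ | ⟨N', hJ, hNt⟩
    · have hNtP : P = nbr (W.erase u) (D : Set (Sym2 V)) u :=
        Finset.eq_of_subset_of_card_le hPNt (by omega)
      refine hthree (N.erase u) ?_ (by rw [Finset.card_erase_of_mem huN]; omega)
        ((Kf_mono (Finset.erase_subset u N)).trans hKN)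
      intro w hw
      rw [Finset.mem_erase] at hw
      rw [hNtP, GR.mem_nbr, Finset.mem_erase]
      exact ⟨⟨hw.1, hNW hw.2⟩, by exact_mod_cast hKN (mk_mem_Kf.mpr ⟨hw.1.symm, huN, hw.2⟩)⟩
    · have hN' : N' ∈ maxNs D u W := by rw [hJ]; simp
      obtain ⟨h5, h6, h7⟩ := maxNs_clique hDflat.1 hN'
      refine hthree (P ∩ N') Finset.inter_subset_left ?_
        ((Kf_mono (Finset.inter_subset_right.trans (Finset.subset_insert u N'))).trans h7)
      have h8 : P \ N' ⊆ nbr (W.erase u) (D : Set (Sym2 V)) u \ N' :=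
        Finset.sdiff_subset_sdiff hPNt subset_rfl
      have h9 := Finset.card_le_card h8
      have h10 := Finset.card_inter_add_card_sdiff P N'
      omega
  · -- `u` and its four neighbours are a clique
    have hCT := clique_tool huW hDflat hgpW hg (ρ := 3) (by omega)
    rcases hCT.classify_four (by norm_num) with ⟨hJ, hNt⟩ | ⟨N', hJ, hNt⟩
    · have := Finset.card_le_card hPNt
      omega
    · have hN' : N' ∈ maxNs D u W := by rw [hJ]; simp
      obtain ⟨h5, h6, h7⟩ := maxNs_clique hDflat.1 hN'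
      have hsub : P ⊆ N' := by
        have h8 : (nbr (W.erase u) (D : Set (Sym2 V)) u \ N').card = 0 := by omega
        have h9 := Finset.sdiff_eq_empty_iff_subset.mp (Finset.card_eq_zero.mp h8)
        exact hPNt.trans h9
      have hKP : Kf P ⊆ D :=
        (Kf_mono (hsub.trans (Finset.subset_insert u N'))).trans h7
      have hPWs : P ⊆ W := hN
      have hRGW : Mot W (E : Set (Sym2 V)) p ≤ RG p (P : Set V) := by
        rw [← hMotD]
        exact le_RG_of_Kf hgpW hPWs (by omega) hKP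
      set L := Mot (W.erase u) (E : Set (Sym2 V)) p with hL
      set L' := (Mot W (E : Set (Sym2 V)) p).map (forget k u) with hL'
      have hWi : insert u (W.erase u) = W := Finset.insert_erase huW
      have hL'eq : L' = (L ⊓ Att p (P : Set V) (p u) : Submodule k (V → Vec k)) := by
        have h1 := map_forget_Mot (Finset.notMem_erase u W) (E : Set (Sym2 V)) p
        rw [hWi, hnbr] at h1
        exact h1
      have hL'dim : finrank k L' = mdim W (E : Set (Sym2 V)) p := by
        have h1 := mdim_insert_of_four_le (Finset.notMem_erase u W) (E : Set (Sym2 V)) p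
          (by rw [hnbr]; exact hgpW.mono (by exact_mod_cast hPWs)) (by rw [hnbr, hP4])
        rw [hWi, hnbr] at h1
        rw [h1, hL'eq]
      have hL'RG : L' ≤ RG p (P : Set V) := by
        rintro _ ⟨Y, hY, rfl⟩
        obtain ⟨S, hS, hYS⟩ := hRGW hY
        refine ⟨S, hS, fun i hi => ?_⟩
        rw [forget_apply_of_ne]
        · exact hYS i hi
        · rintro rfl
          exact (Finset.mem_erase.mp (hPW' (by exact_mod_cast hi))).1 rfl
      have hcomb := finrank_le_of_comb (S := Mot (A.erase u) (E : Set (Sym2 V)) p)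
        (A := RG p (P : Set V)) fun Z hZ Z' hZ' => by
          have h1 : cut k (W.erase u) Z ∈ L :=
            cut_mem_Mot_of_subset (Finset.erase_subset_erase u hW) hZ
          have h2 : cut k (W.erase u) Z' ∈ L :=
            cut_mem_Mot_of_subset (Finset.erase_subset_erase u hW) hZ'
          have h3 : L' ≤ L := by rw [hL'eq]; exact inf_le_left
          have h5 : finrank k L ≤ finrank k L' + 1 := by
            rw [hL'dim, ← hdimE]
            exact le_of_eq rfl
          obtain ⟨s, s', hss, hmem⟩ := exists_comb h3 h5 h1 h2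
          refine ⟨s, s', hss, ?_⟩
          obtain ⟨S, hS, hSP⟩ := hL'RG hmem
          refine ⟨S, hS, fun i hi => ?_⟩
          rw [← hSP i hi]
          have hiW := hPW' (by exact_mod_cast hi : i ∈ P)
          simp only [Pi.add_apply, Pi.smul_apply, cut_apply _ hiW]
      have hle2 : (Mot (A.erase u) (E : Set (Sym2 V)) p ⊓ RG p (P : Set V) :
          Submodule k (V → Vec k)) ≤ Mot (A.erase u) (E : Set (Sym2 V)) p ⊓
            RG p (Nu : Set V) := by
        refine le_inf inf_le_left fun Z hZ => ?_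
        refine mem_RG_of_TA_of_four (N := Nu) (hp.gp.mono (by
          exact_mod_cast (nbr_subset _ _ _).trans (Finset.erase_subset u A))) hNu5.ge
          (hu.typ.typ p hp hZ.1) (i := t) hZ.2
      have : FiniteDimensional k (Mot (A.erase u) (E : Set (Sym2 V)) p ⊓
          RG p (Nu : Set V) : Submodule k (V → Vec k)) :=
        Submodule.finiteDimensional_of_le inf_le_left
      have h8 := Submodule.finrank_mono hle2
      have h9 := h.two_le hp huA hNu5
      rw [← hNu] at h9
      omega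

end

end GR
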