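import Pool.Agent.Lib.GR.E4Four
import Pool.Agent.Lib.GR.Assemble
import Pool.Agent.Lib.GR.NotClique

/-!
# LEAF E4Pure: a pure type A vertex has no proportional family and no common factor
-/

set_option linter.unusedVariables false

namespace GR.E4

open Module Filter

open scoped Matrix

variable {k : Type*} [Field k] [Infinite k] {V : Type*} [DecidableEq V]

/-- the quadratic form of a motion is the one of the linear map on `N(v)` -/
lemma exists_T_of_pure {A : Finset V} {E : Finset (Sym2 V)} {v a : V}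
    (hv : PureA k A E v) {p : V → Vec k} (hp : Nice A p) {τ : Fin 4 → V}
    (hN : nbr (A.erase v) (E : Set (Sym2 V)) v = insert a (Finset.univ.image τ))
    (bt : Basis (Fin 4) k (Vec k)) (hbt : ∀ i, bt i = p (τ i)) {M : Submodule k (V → Vec k)}
    (hM : ∀ Z ∈ Mot (A.erase v) (E : Set (Sym2 V)) p, ∃ Z' ∈ M, ∃ S : Vec k →ₗ[k] Vec k,
      IsSkew S ∧ ∀ i, Z' (τ i) = Z (τ i) - S (p (τ i)))
    {Z : V → Vec k} (hZ : Z ∈ Mot (A.erase v) (E : Set (Sym2 V)) p) :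
    ∃ (Y : M) (T : Vec k →ₗ[k] Vec k),
      (∀ i ∈ nbr (A.erase v) (E : Set (Sym2 V)) v, Z i = T (p i)) ∧
      ∀ x, BL bt τ Y.1 x ⬝ᵥ x = T x ⬝ᵥ x := by
  obtain ⟨T, hT⟩ := hv.typ.typ p hp hZ
  obtain ⟨Z', hZ', S, hS, h1⟩ := hM Z hZ
  refine ⟨⟨Z', hZ'⟩, T, fun i hi => hT i (by exact_mod_cast hi), fun x => ?_⟩
  have hB : BL bt τ Z' = T - S := by
    refine bt.ext fun i => ?_
    have hi : τ i ∈ nbr (A.erase v) (E : Set (Sym2 V)) v := by rw [hN]; simp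
    rw [BL_apply_basis, hbt, LinearMap.sub_apply, h1, hT (τ i) (by exact_mod_cast hi)]
  show BL bt τ Z' x ⬝ᵥ x = _
  rw [hB, LinearMap.sub_apply, sub_dotProduct, hS x, sub_zero]

/-- `BL bt τ Z` is the linear map with `p (τ i) ↦ Z (τ i)` (E4Core). `M` = gauged motions of a
subset of `A - v`, which contain the restrictions of the motions of `A - v` up to skew maps. -/
theorem pure_no_prop {A : Finset V} {E : Finset (Sym2 V)} (h : MinCE k A E) {v a : V}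
    (hv : PureA k A E v) {p : V → Vec k} (hp : Nice A p) {τ : Fin 4 → V}
    (hτ : Function.Injective τ) (ha : ∀ i, a ≠ τ i)
    (hN : nbr (A.erase v) (E : Set (Sym2 V)) v = insert a (Finset.univ.image τ))
    (bt : Basis (Fin 4) k (Vec k)) (hbt : ∀ i, bt i = p (τ i)) {M : Submodule k (V → Vec k)}
    (hM : ∀ Z ∈ Mot (A.erase v) (E : Set (Sym2 V)) p, ∃ Z' ∈ M, ∃ S : Vec k →ₗ[k] Vec k,
      IsSkew S ∧ ∀ i, Z' (τ i) = Z (τ i) - S (p (τ i))) :
    ¬ ∃ (β0 : Vec k → k) (c : M → k), ∀ Z : M, ∀ x, BL bt τ Z.1 x ⬝ᵥ x = c Z * β0 x := by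
  rintro ⟨β0, c, hβ⟩
  have h4 : finrank k (Mot (A.erase v) (E : Set (Sym2 V)) p) = gdim k (A.erase v)
    (E : Set (Sym2 V)) := hp.reg _ (Finset.erase_subset v A) _
  rw [h.gdim_erase hv.typ.mem hv.typ.deg] at h4
  have h6 := h.finrank_inf_RG hp hv.typ.mem
  have h7 : finrank k (Mot (A.erase v) (E : Set (Sym2 V)) p) ≤
      finrank k (Mot (A.erase v) (E : Set (Sym2 V)) p ⊓
        RG p (nbr (A.erase v) (E : Set (Sym2 V)) v : Set V) : Submodule k (V → Vec k)) + 1 := by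
    refine finrank_le_of_comb fun Z hZ Z' hZ' => ?_
    obtain ⟨Y, T, hT, hYT⟩ := exists_T_of_pure hv hp hN bt hbt hM hZ
    obtain ⟨Y', T', hT', hYT'⟩ := exists_T_of_pure hv hp hN bt hbt hM hZ'
    have key : ∀ s s' : k, s * c Y + s' * c Y' = 0 →
        s • Z + s' • Z' ∈ RG p (nbr (A.erase v) (E : Set (Sym2 V)) v : Set V) := by
      intro s s' hs
      refine ⟨s • T + s' • T', fun x => ?_, fun i hi => ?_⟩
      · simp only [LinearMap.add_apply, LinearMap.smul_apply, add_dotProduct, smul_dotProduct,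
          smul_eq_mul, ← hYT, ← hYT', hβ]
        linear_combination β0 x * hs
      · simp [hT i (by exact_mod_cast hi), hT' i (by exact_mod_cast hi)]
    by_cases h0 : c Y' = 0
    · exact ⟨0, 1, Or.inr one_ne_zero, key 0 1 (by rw [h0]; ring)⟩
    · exact ⟨c Y', -c Y, Or.inl h0, key _ _ (by ring)⟩
  omega

theorem pure_no_factor {A : Finset V} {E : Finset (Sym2 V)} (h : MinCE k A E) {v a : V}
    (hv : PureA k A E v) {p : V → Vec k} (hp : Nice A p) {τ : Fin 4 → V}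
    (hτ : Function.Injective τ) (ha : ∀ i, a ≠ τ i)
    (hN : nbr (A.erase v) (E : Set (Sym2 V)) v = insert a (Finset.univ.image τ))
    (bt : Basis (Fin 4) k (Vec k)) (hbt : ∀ i, bt i = p (τ i)) {M : Submodule k (V → Vec k)}
    (hM : ∀ Z ∈ Mot (A.erase v) (E : Set (Sym2 V)) p, ∃ Z' ∈ M, ∃ S : Vec k →ₗ[k] Vec k,
      IsSkew S ∧ ∀ i, Z' (τ i) = Z (τ i) - S (p (τ i))) :
    ¬ ∃ (δ : Vec k →ₗ[k] k) (α' : M → Vec k →ₗ[k] k), ∀ Z : M, ∀ x,
      BL bt τ Z.1 x ⬝ᵥ x = δ x * α' Z x := by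
  classical
  rintro ⟨δ, α', hδ⟩
  set N := nbr (A.erase v) (E : Set (Sym2 V)) v with hNdef
  have hNA : N ⊆ A.erase v := nbr_subset _ _ _
  have key : ∀ i ∈ N, ∀ j ∈ N,
      ((δ (p i) = 0 ∧ δ (p j) = 0) ∨ (δ (p i) ≠ 0 ∧ δ (p j) ≠ 0)) →
      ∀ Z ∈ Mot (A.erase v) (E : Set (Sym2 V)) p, eps p i j Z = 0 := by
    intro i hi j hj hc Z hZ
    obtain ⟨Y, T, hT, hYT⟩ := exists_T_of_pure hv hp hN bt hbt hM hZ
    have hi2 : T (p i) ⬝ᵥ p i = 0 := by rw [← hT i hi]; exact hZ.2.1 i (hNA hi)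
    have hj2 : T (p j) ⬝ᵥ p j = 0 := by rw [← hT j hj]; exact hZ.2.1 j (hNA hj)
    have hi' : δ (p i) * α' Y (p i) = 0 := by rw [← hδ, hYT, hi2]
    have hj' : δ (p j) * α' Y (p j) = 0 := by rw [← hδ, hYT, hj2]
    have hij := hδ Y (p i + p j)
    rw [hYT] at hij
    simp only [map_add, add_dotProduct, dotProduct_add] at hij
    have e : eps p i j Z = δ (p i) * α' Y (p j) + δ (p j) * α' Y (p i) := by
      rw [eps_apply, hT i hi, hT j hj]
      linear_combination hij - hi2 - hj2 + hi' + hj'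
    rw [e]
    rcases hc with ⟨h1, h2⟩ | ⟨h1, h2⟩
    · rw [h1, h2]; ring
    · rw [(mul_eq_zero.mp hi').resolve_left h1, (mul_eq_zero.mp hj').resolve_left h2]; ring
  have h5 : N.card = 5 := hv.typ.deg
  have hsum := Finset.card_filter_add_card_filter_not (s := N) (fun i => δ (p i) = 0)
  have h3 : 2 < (N.filter fun i => δ (p i) = 0).card ∨
      2 < (N.filter fun i => ¬ δ (p i) = 0).card := by omega
  rcases h3 with h3 | h3
  · obtain ⟨x, hx, y, hy, z, hz, hxy, hxz, hyz⟩ := Finset.two_lt_card.mp h3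
    rw [Finset.mem_filter] at hx hy hz
    exact h.no_triple hv hp hx.1 hy.1 hz.1 hxy hxz hyz
      (key x hx.1 y hy.1 (Or.inl ⟨hx.2, hy.2⟩)) (key x hx.1 z hz.1 (Or.inl ⟨hx.2, hz.2⟩))
      (key y hy.1 z hz.1 (Or.inl ⟨hy.2, hz.2⟩))
  · obtain ⟨x, hx, y, hy, z, hz, hxy, hxz, hyz⟩ := Finset.two_lt_card.mp h3
    rw [Finset.mem_filter] at hx hy hz
    exact h.no_triple hv hp hx.1 hy.1 hz.1 hxy hxz hyz
      (key x hx.1 y hy.1 (Or.inr ⟨hx.2, hy.2⟩)) (key x hx.1 z hz.1 (Or.inr ⟨hx.2, hz.2⟩))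
      (key y hy.1 z hz.1 (Or.inr ⟨hy.2, hz.2⟩))

end GR.E4
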