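import Pool.Agent.Lib.GR.E4P

/-!
# Degree 7 body vertices: the frame and the conclusion `B_Z q = 0`, `B` injective
-/

namespace GR.E4

open Module Filter

open scoped Matrix

variable {k : Type*} [Field k] [Infinite k] {V : Type*} [DecidableEq V]

/-- the external neighbours in order -/
def yy (x0 : V) (v : Fin 3 → V) : Fin 4 → V := ![x0, v 0, v 1, v 2]

namespace B3Hyp

variable {A : Finset V} {E : Finset (Sym2 V)} {u a b c d e : V} {v : Fin 3 → V}

/-- the fourth external neighbour -/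
def IsX0 (A : Finset V) (E : Finset (Sym2 V)) (u a b c d e : V) (v : Fin 3 → V) (x0 : V) : Prop :=
  x0 ≠ b ∧ x0 ≠ c ∧ x0 ≠ d ∧ x0 ≠ e ∧ (∀ i, x0 ≠ v i) ∧
      extN ((A.erase u).erase a) (E : Set (Sym2 V)) a b c = {x0, v 0, v 1, v 2}

lemma yy_inj (h : B3Hyp k A E u a b c d e v) {x0 : V} (hx0 : IsX0 A E u a b c d e v x0) :
    Function.Injective (yy x0 v) := by
  have h5 := hx0.2.2.2.2.1
  have h01 : v 0 ≠ v 1 := fun h' => absurd (h.inj h') (by decide)
  have h02 : v 0 ≠ v 2 := fun h' => absurd (h.inj h') (by decide)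
  have h12 : v 1 ≠ v 2 := fun h' => absurd (h.inj h') (by decide)
  intro i j hij
  fin_cases i <;> fin_cases j <;> simp [yy] at hij ⊢
  · exact h5 0 hij
  · exact h5 1 hij
  · exact h5 2 hij
  · exact h5 0 hij.symm
  · exact h01 hij
  · exact h02 hij
  · exact h5 1 hij.symm
  · exact h01 hij.symm
  · exact h12 hij
  · exact h5 2 hij.symm
  · exact h02 hij.symm
  · exact h12 hij.symm

lemma mem_XX {x0 : V} (hx0 : IsX0 A E u a b c d e v x0) {y : V} :
    y ∈ XX A E u a b c ↔ ∃ j, y = yy x0 v j := by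
  have hX : XX A E u a b c = {x0, v 0, v 1, v 2} := hx0.2.2.2.2.2
  rw [hX]
  simp only [Finset.mem_insert, Finset.mem_singleton]
  constructor
  · rintro (h' | h' | h' | h')
    · exact ⟨0, h'⟩
    · exact ⟨1, h'⟩
    · exact ⟨2, h'⟩
    · exact ⟨3, h'⟩
  · rintro ⟨j, hj⟩
    fin_cases j
    · exact Or.inl hj
    · exact Or.inr (Or.inl hj)
    · exact Or.inr (Or.inr (Or.inl hj))
    · exact Or.inr (Or.inr (Or.inr hj))

lemma sum_XX (h : B3Hyp k A E u a b c d e v) {x0 : V} (hx0 : IsX0 A E u a b c d e v x0)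
    {R : Type*} [AddCommMonoid R] (f : V → R) :
    ∑ y ∈ XX A E u a b c, f y = ∑ j, f (yy x0 v j) := by
  have h5 := hx0.2.2.2.2.1
  have h01 : v 0 ≠ v 1 := fun h' => absurd (h.inj h') (by decide)
  have h02 : v 0 ≠ v 2 := fun h' => absurd (h.inj h') (by decide)
  have h12 : v 1 ≠ v 2 := fun h' => absurd (h.inj h') (by decide)
  have hX : XX A E u a b c = {x0, v 0, v 1, v 2} := hx0.2.2.2.2.2
  rw [hX, Fin.sum_univ_four, Finset.sum_insert, Finset.sum_insert, Finset.sum_insert,
    Finset.sum_singleton]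
  · simp [yy, add_assoc]
  · simpa using h12
  · simp [h01, h02]
  · simp [h5 0, h5 1, h5 2]

/-- rotations about `q` -/
theorem exists_Y (h : B3Hyp k A E u a b c d e v) {p : V → Vec k} {t : k}
    (hp : PHyp A E u a b c d e v p t) {x0 : V} (hx0 : IsX0 A E u a b c d e v x0)
    (hgp : ∀ᶠ x in gen k (Vec k), GenPos (Function.update p a x)
      (insert a (UU A u a : Finset V) : Set V))
    {S : Vec k →ₗ[k] Vec k} (hS : IsSkew S) (hSq : S (p e - t • p d) = 0) :
    ∃ Y ∈ KK' A E u a b c d e p, (∀ j, Y (yy x0 v j) = S (p (yy x0 v j))) ∧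
      Y d = S (p d) := by
  classical
  have hc := h.comb
  have gU := h.gpU hp.gd
  let P : Submodule k (Vec k →ₗ[k] Vec k) :=
    { carrier := {S | ∃ Y ∈ KK' A E u a b c d e p, (∀ j, Y (yy x0 v j) = S (p (yy x0 v j))) ∧
        Y d = S (p d)}
      add_mem' := by
        rintro S S' ⟨Y, h1, h2, h3⟩ ⟨Y', h1', h2', h3'⟩
        exact ⟨Y + Y', Submodule.add_mem _ h1 h1', fun j => by simp [h2, h2'], by simp [h3, h3']⟩
      zero_mem' := ⟨0, Submodule.zero_mem _, fun j => by simp, by simp⟩
      smul_mem' := by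
        rintro r S ⟨Y, h1, h2, h3⟩
        exact ⟨r • Y, Submodule.smul_mem _ _ h1, fun j => by simp [h2], by simp [h3]⟩ }
  have hyU : ∀ j, yy x0 v j ∈ UU A u a := fun j =>
    (mem_extN.mp ((mem_XX hx0).mpr ⟨j, rfl⟩)).1.1
  have hXU : XX A E u a b c ⊆ UU A u a := fun y hy => (mem_extN.mp hy).1.1
  have hne : ∀ y ∈ UU A u a, y ≠ a := fun y hy => (Finset.mem_erase.mp hy).1
  have yd : yy x0 v 0 ≠ d := hx0.2.2.1
  have ye : yy x0 v 0 ≠ e := hx0.2.2.2.1
  have yd1 : yy x0 v 1 ≠ d := (h.v_ne 0).2.2.2.1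
  have ye1 : yy x0 v 1 ≠ e := (h.v_ne 0).2.2.2.2
  have y01 : yy x0 v 0 ≠ yy x0 v 1 := fun h' => absurd (h.yy_inj hx0 h') (by decide)
  have hli : LinearIndependent k ![p e - t • p d, p d, p (yy x0 v 0), p (yy x0 v 1)] := by
    have h4 := gU.four hc.he hc.hd (hyU 0) (hyU 1) hc.hde.symm ye.symm ye1.symm yd.symm yd1.symm
      y01
    rw [Fintype.linearIndependent_iff] at h4 ⊢
    intro g hg
    have h5 := h4 ![g 0, g 1 - t * g 0, g 2, g 3] (by
      rw [← hg]
      simp only [Fin.sum_univ_four, Matrix.cons_val_zero, Matrix.cons_val_one, Matrix.cons_val,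
        smul_sub, sub_smul, mul_smul, smul_comm t]
      abel)
    have h50 := h5 0
    have h51 := h5 1
    have h52 := h5 2
    have h53 := h5 3
    simp only [Matrix.cons_val_zero, Matrix.cons_val_one, Matrix.cons_val] at h50 h51 h52 h53
    intro i
    fin_cases i
    · exact h50
    · simpa [h50] using h51
    · exact h52
    · exact h53
  refine all_rot hli P ?_ S hS hSq
  filter_upwards [h.eventually_full hp, hgp] with x hx hgx
  obtain ⟨s, J, a', hxd, hS1⟩ := hx
  -- the motion `Y`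
  set W := Wg (KK' A E u a b c d e p) (XX A E u a b c) x with hW
  obtain ⟨Y, hY0, hYd⟩ : ∃ Y : W, Y ≠ 0 ∧ Y.1 d ⬝ᵥ x = 0 := by
    by_contra hcon
    push Not at hcon
    let φ : W →ₗ[k] k :=
      { toFun := fun Z => Z.1 d ⬝ᵥ x
        map_add' := fun Z Z' => by simp [add_dotProduct]
        map_smul' := fun r Z => by simp }
    have hinj : Function.Injective φ := by
      rw [← LinearMap.ker_eq_bot, LinearMap.ker_eq_bot']
      intro Z hZ
      by_contra hne
      exact hcon Z hne hZ
    have h5 := LinearMap.finrank_le_finrank_of_injective hinj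
    have h6 : finrank k W = 2 := hxd.dim
    rw [h6] at h5
    simp at h5
  have hYK : Y.1 ∈ KK' A E u a b c d e p := Y.2.1
  have hr := hS1.2.2.2.2.2 Y.1 Y.2 hYd
  -- rigid on `a` and the clique
  set N : Finset V := insert a (insert d (insert e (XX A E u a b c))) with hN
  have hNU : ∀ y ∈ insert d (insert e (XX A E u a b c)), y ∈ UU A u a := by
    intro y hy
    simp only [Finset.mem_insert] at hy
    rcases hy with rfl | rfl | hy
    · exact hc.hd
    · exact hc.he
    · exact hXU hy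
  have hYa : Y.1 a = 0 := hYK.1.1 a hc.hw
  have hgN : GenPos (Function.update p a x) (N : Set V) := by
    refine fun T hT hcT => hgx T (hT.trans ?_) hcT
    intro y hy
    rw [hN, Finset.coe_insert] at hy
    rcases hy with rfl | hy
    · exact Set.mem_insert _ _
    · exact Set.mem_insert_of_mem _ (by exact_mod_cast hNU y (by exact_mod_cast hy))
  have hupd : ∀ y ∈ UU A u a, Function.update p a x y = p y := fun y hy =>
    Function.update_of_ne (hne y hy) _ _
  have hl : ∀ y ∈ N, Y.1 y ⬝ᵥ Function.update p a x y = 0 := by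
    intro y hy
    rcases Finset.mem_insert.mp hy with rfl | hy
    · rw [hYa]; simp
    · rw [hupd y (hNU y hy)]; exact Kg_loop hYK (hNU y hy)
  have hrig : ∀ y ∈ N, ∀ z ∈ N, eps (Function.update p a x) y z Y.1 = 0 := by
    intro y hy z hz
    rcases Finset.mem_insert.mp hy with hy' | hy'
    · rcases Finset.mem_insert.mp hz with hz' | hz'
      · rw [hy', hz', eps_apply, hYa]; simp
      · rw [hy', eps_apply, hYa, Function.update_self, (hr z hz').1]; simp
    · rcases Finset.mem_insert.mp hz with hz' | hz'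
      · rw [hz', eps_apply, hYa, Function.update_self, (hr y hy').1]; simp
      · rw [eps_apply, hupd y (hNU y hy'), hupd z (hNU z hz')]
        exact (hr y hy').2 z hz'
  have hN3 : 3 ≤ N.card := by
    have h1 : ({a, d, e} : Finset V).card = 3 := by
      rw [Finset.card_eq_three]
      exact ⟨a, d, e, (hc.wne hc.hd).symm, (hc.wne hc.he).symm, hc.hde, rfl⟩
    rw [← h1]
    refine Finset.card_le_card ?_
    intro y hy
    simp only [hN, Finset.mem_insert, Finset.mem_singleton] at hy ⊢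
    tauto
  obtain ⟨R, hRs, hR⟩ := mem_RG_of_rigid hgN hN3 hl hrig
  have hRx : R x = 0 := by
    have := hR a (by simp [hN])
    rw [hYa, Function.update_self] at this
    exact this.symm
  have hRy : ∀ y ∈ insert d (insert e (XX A E u a b c)), Y.1 y = R (p y) := by
    intro y hy
    have := hR y (by rw [hN]; exact_mod_cast Finset.mem_insert_of_mem hy)
    rw [hupd y (hNU y hy)] at this
    exact this
  have hRd := hRy d (by simp)
  have hRe := hRy e (by simp)
  refine ⟨R, ⟨Y.1, hYK, fun j => hRy _ ?_, hRd⟩, hRs, hRx, ?_, ?_⟩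
  · simp only [Finset.mem_insert]
    exact Or.inr (Or.inr ((mem_XX hx0).mpr ⟨j, rfl⟩))
  · rw [map_sub, map_smul, ← hRd, ← hRe, h.zeta hp Y.1 hYK, sub_self]
  · intro hR0
    apply hY0
    have : Y.1 = 0 := hxd.inj Y.1 Y.2 (by rw [hRd, hR0]; rfl)
    exact Subtype.ext this

end B3Hyp

end GR.E4
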