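import Pool.Agent.Lib.GR.E4Alg
import Pool.Agent.Lib.GR.Room

/-!
# The lemma (QJ): three points turning rigidly with a rod
-/

namespace GR.E4

open Module Filter

open scoped Matrix

variable {k : Type*} [Field k] {V : Type*} [DecidableEq V]

/-- a skew map with prescribed values on a basis -/
lemma exists_skew_of_basis {v : Fin 4 → Vec k} (h : LinearIndependent k v)
    (a : Fin 4 → Fin 4 → k) (ha : ∀ i, a i i = 0) (ha' : ∀ i j, a i j = - a j i) :
    ∃ S : Vec k →ₗ[k] Vec k, IsSkew S ∧ ∀ i j, S (v i) ⬝ᵥ v j = a i j := by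
  classical
  have hz : ∀ i, ∃ z : Vec k, ∀ j, z ⬝ᵥ v j = a i j := fun i => exists_dot_eq h (a i)
  choose z hz using hz
  let b : Basis (Fin 4) k (Vec k) :=
    basisOfLinearIndependentOfCardEqFinrank h (by simp)
  have hb : ∀ i, b i = v i := fun i => by simp [b]
  let S : Vec k →ₗ[k] Vec k := b.constr k z
  have hS : ∀ i, S (v i) = z i := fun i => by rw [← hb i]; simp [S]
  refine ⟨S, ?_, fun i j => by rw [hS, hz]⟩
  intro x
  have hx : x = ∑ i, b.repr x i • v i := by
    conv_lhs => rw [← b.sum_repr x]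
    simp [hb]
  set c := b.repr x
  rw [hx, map_sum]
  simp only [map_smul, hS, Fin.sum_univ_four, add_dotProduct, dotProduct_add, smul_dotProduct,
    dotProduct_smul, hz, smul_eq_mul, ha]
  rw [ha' 1 0, ha' 2 0, ha' 2 1, ha' 3 0, ha' 3 1, ha' 3 2]
  ring

/-- a covector orthogonal to four independent vectors vanishes -/
lemma eq_zero_of_dot {v : Fin 4 → Vec k} (h : LinearIndependent k v) {z : Vec k}
    (hz : ∀ i, z ⬝ᵥ v i = 0) : z = 0 := by
  classical
  let b : Basis (Fin 4) k (Vec k) :=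
    basisOfLinearIndependentOfCardEqFinrank h (by simp)
  have hb : ∀ i, b i = v i := fun i => by simp [b]
  have : ∀ x : Vec k, z ⬝ᵥ x = 0 := by
    intro x
    rw [← b.sum_repr x]
    simp [dotProduct_sum, dotProduct_smul, hb, hz]
  exact dotProduct_eq_zero z this

lemma li3 {p : V → Vec k} {N : Set V} (h : GenPos p N) {a b c : V} (ha : a ∈ N)
    (hb : b ∈ N) (hc : c ∈ N) (hab : a ≠ b) (hac : a ≠ c) (hbc : b ≠ c) :
    LinearIndependent k ![p a, p b, p c] := by
  classical
  have h3 := h {a, b, c} (by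
    intro v hv
    simp only [Finset.coe_insert, Finset.coe_singleton, Set.mem_insert_iff,
      Set.mem_singleton_iff] at hv
    rcases hv with rfl | rfl | rfl <;> assumption) (by
      have := Finset.card_le_three (a := a) (b := b) (c := c); omega)
  let f : Fin 3 → ({a, b, c} : Finset V) := ![⟨a, by simp⟩, ⟨b, by simp⟩, ⟨c, by simp⟩]
  have hf : Function.Injective f := by
    intro i j hij
    fin_cases i <;> fin_cases j <;> simp_all [f]
  have h4 := h3.comp f hf
  convert h4 using 1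
  funext i
  fin_cases i <;> rfl

/-- **Gauge.** -/
lemma exists_gauge {p Z : V → Vec k} {b2 b3 r4 r5 : V}
    (hli : LinearIndependent k ![p b2, p b3, p r4, p r5])
    (h23 : eps p b2 b3 Z = 0) (h2 : Z b2 ⬝ᵥ p b2 = 0) (h3 : Z b3 ⬝ᵥ p b3 = 0) :
    ∃ S : Vec k →ₗ[k] Vec k, IsSkew S ∧ Z b2 = S (p b2) ∧ Z b3 = S (p b3) ∧
      (Z r4 - S (p r4)) ⬝ᵥ p r5 = 0 := by
  classical
  obtain ⟨S, hS, hv⟩ := exists_skew_of_basis hli
    !![0, Z b2 ⬝ᵥ p b3, Z b2 ⬝ᵥ p r4, Z b2 ⬝ᵥ p r5;
       -(Z b2 ⬝ᵥ p b3), 0, Z b3 ⬝ᵥ p r4, Z b3 ⬝ᵥ p r5;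
       -(Z b2 ⬝ᵥ p r4), -(Z b3 ⬝ᵥ p r4), 0, Z r4 ⬝ᵥ p r5;
       -(Z b2 ⬝ᵥ p r5), -(Z b3 ⬝ᵥ p r5), -(Z r4 ⬝ᵥ p r5), 0]
    (by intro i; fin_cases i <;> simp) (by intro i j; fin_cases i <;> fin_cases j <;> simp)
  refine ⟨S, hS, ?_, ?_, ?_⟩
  · rw [← sub_eq_zero]
    refine eq_zero_of_dot hli ?_
    intro i
    fin_cases i
    · simpa [sub_dotProduct, h2] using hv 0 0
    · have := hv 0 1; simp at this; simp [sub_dotProduct, this]
    · have := hv 0 2; simp at this; simp [sub_dotProduct, this]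
    · have := hv 0 3; simp at this; simp [sub_dotProduct, this]
  · rw [← sub_eq_zero]
    refine eq_zero_of_dot hli ?_
    rw [eps_apply] at h23
    intro i
    fin_cases i
    · have := hv 1 0; simp at this; simp [sub_dotProduct, this]; linear_combination h23
    · have := hv 1 1; simp at this; simp [sub_dotProduct, this, h3]
    · have := hv 1 2; simp at this; simp [sub_dotProduct, this]
    · have := hv 1 3; simp at this; simp [sub_dotProduct, this]
  · have := hv 2 3
    simp at this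
    simp [sub_dotProduct, this]

/-- codimension at most one: two elements have a nontrivial combination in the subspace -/
lemma exists_comb {E : Type*} [AddCommGroup E] [Module k E] {S A : Submodule k E}
    [FiniteDimensional k S] (h : finrank k S ≤ finrank k (S ⊓ A : Submodule k E) + 1)
    {z z' : E} (hz : z ∈ S) (hz' : z' ∈ S) :
    ∃ s s' : k, (s ≠ 0 ∨ s' ≠ 0) ∧ s • z + s' • z' ∈ A := by
  classical
  by_contra hcon
  push Not at hcon
  let f : (Fin 2 → k) →ₗ[k] S :=
    { toFun := fun c => c 0 • ⟨z, hz⟩ + c 1 • ⟨z', hz'⟩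
      map_add' := fun a b => by simp only [Pi.add_apply, add_smul]; abel
      map_smul' := fun r a => by simp only [Pi.smul_apply, smul_eq_mul, mul_smul, smul_add,
        RingHom.id_apply] }
  let A' : Submodule k S := (S ⊓ A).comap S.subtype
  have hfA : finrank k A' = finrank k (S ⊓ A : Submodule k E) := by
    refine LinearEquiv.finrank_eq ?_
    exact Submodule.comapSubtypeEquivOfLe inf_le_left
  let g : (Fin 2 → k) →ₗ[k] (S ⧸ A') := A'.mkQ.comp f
  have hg : Function.Injective g := by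
    rw [← LinearMap.ker_eq_bot, LinearMap.ker_eq_bot']
    intro c hc
    by_contra hne
    have h1 : c 0 ≠ 0 ∨ c 1 ≠ 0 := by
      by_contra hh
      push Not at hh
      apply hne
      ext i
      fin_cases i
      · exact hh.1
      · exact hh.2
    refine hcon (c 0) (c 1) h1 ?_
    have h2 : f c ∈ A' := by
      rw [← Submodule.Quotient.mk_eq_zero]
      exact hc
    have h3 : (f c : E) ∈ S ⊓ A := h2
    exact h3.2
  have h1 := LinearMap.finrank_le_finrank_of_injective hg
  have h2 := Submodule.finrank_quotient_add_finrank A'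
  simp at h1
  omega

/-- The conclusion of FACT R at the position `p`. -/
def FactR [Infinite k] (B : Finset V) (p : V → Vec k) : Prop :=
  ∀ E : Finset (Sym2 V), E ⊆ Kf B → ∀ N : Finset V, N ⊆ B → N.card = 5 →
      (∀ᶠ x in gen k (Vec k), finrank k (Mot B (E : Set (Sym2 V)) p) ≤
        finrank k (Mot B (E : Set (Sym2 V)) p ⊓ Att p (N : Set V) x :
          Submodule k (V → Vec k)) + 1) →
      finrank k (Mot B (E : Set (Sym2 V)) p) ≤
        finrank k (Mot B (E : Set (Sym2 V)) p ⊓ RG p (N : Set V) : Submodule k (V → Vec k)) + 1 ∨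
      ∃ i ∈ N, Mot B (E : Set (Sym2 V)) p ≤ RG p ((N.erase i : Finset V) : Set V)

/-- **(QJ).** -/
theorem qj [Infinite k] {B : Finset V} {E : Finset (Sym2 V)} (hE : E ⊆ Kf B) {p : V → Vec k}
    (hF : FactR B p) {b2 b3 y r4 r5 : V} (hN : ({b2, b3, y, r4, r5} : Finset V) ⊆ B)
    (hcard : ({b2, b3, y, r4, r5} : Finset V).card = 5)
    (hgp : GenPos p (({b2, b3, y, r4, r5} : Finset V) : Set V))
    (h23 : s(b2, b3) ∈ E) {t : k} (ht : t ≠ 0)
    (h : ∀ Z ∈ Mot B (E : Set (Sym2 V)) p, Z b2 = 0 → Z b3 = 0 → Z r4 ⬝ᵥ p r5 = 0 →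
      Z y = 0 ∧ Z r5 = t • Z r4) :
    ∀ Z ∈ Mot B (E : Set (Sym2 V)) p, Z b2 = 0 → Z b3 = 0 → Z r4 ⬝ᵥ p r5 = 0 →
    ∀ Z' ∈ Mot B (E : Set (Sym2 V)) p, Z' b2 = 0 → Z' b3 = 0 → Z' r4 ⬝ᵥ p r5 = 0 →
      ∃ s s' : k, (s ≠ 0 ∨ s' ≠ 0) ∧ s • Z r4 + s' • Z' r4 = 0 := by
  classical
  have hb2 : b2 ∈ B := hN (by simp)
  have hb3 : b3 ∈ B := hN (by simp)
  have hy : y ∈ B := hN (by simp)
  have hr4 : r4 ∈ B := hN (by simp)
  have hr5 : r5 ∈ B := hN (by simp)
  -- distinctness
  have hnd : b2 ≠ b3 ∧ b2 ≠ y ∧ b2 ≠ r4 ∧ b2 ≠ r5 ∧ b3 ≠ y ∧ b3 ≠ r4 ∧ b3 ≠ r5 ∧ y ≠ r4 ∧ y ≠ r5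
      ∧ r4 ≠ r5 := by
    have h5 : ([b2, b3, y, r4, r5] : List V).Nodup := by
      rw [← Multiset.coe_nodup, ← Multiset.toFinset_card_eq_card_iff_nodup]
      simpa using hcard
    simp only [List.nodup_cons, List.mem_cons, List.not_mem_nil, or_false, not_or] at h5
    tauto
  obtain ⟨n1, n2, n3, n4, n5, n6, n7, n8, n9, n10⟩ := hnd
  have li : LinearIndependent k ![p b2, p b3, p r4, p r5] :=
    hgp.four (by simp) (by simp) (by simp) (by simp) n1 n3 n4 n6 n7 n10
  have hTB : Mot B (E : Set (Sym2 V)) p ≤ TB p b2 b3 y r4 r5 t := by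
    intro Z hZ
    obtain ⟨S, hS, hS2, hS3, hS4⟩ := exists_gauge li (hZ.2.2 b2 hb2 b3 hb3 h23)
      (hZ.2.1 b2 hb2) (hZ.2.1 b3 hb3)
    -- the gauged motion
    have hT : triv B p (LinearMap.toMatrix' S) ∈ Mot B (E : Set (Sym2 V)) p :=
      triv_mem_Mot B _ p (Skew_of_isSkew hS)
    have hval : ∀ v ∈ B, triv B p (LinearMap.toMatrix' S) v = S (p v) := by
      intro v hv
      rw [triv_apply p _ hv]
      simp [← Matrix.toLin'_apply]
    have hZ' := Submodule.sub_mem _ hZ hT
    obtain ⟨e1, e2⟩ := h _ hZ' (by simp [hval b2 hb2, hS2]) (by simp [hval b3 hb3, hS3])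
      (by simpa [hval r4 hr4] using hS4)
    simp only [Pi.sub_apply, hval y hy, hval r4 hr4, hval r5 hr5] at e1 e2
    have l4 : (Z r4 - S (p r4)) ⬝ᵥ p r4 = 0 := by
      rw [sub_dotProduct, hZ.2.1 r4 hr4, hS (p r4), sub_zero]
    refine ⟨S, hS, Z r4 - S (p r4), l4, hS4, hS2, hS3, ?_, ?_, ?_⟩
    · exact sub_eq_zero.mp e1
    · abel
    · rw [← e2]; abel
  have hbad : ∀ᶠ x in gen k (Vec k), finrank k (Mot B (E : Set (Sym2 V)) p) ≤
        finrank k (Mot B (E : Set (Sym2 V)) p ⊓
          Att p ((({b2, b3, y, r4, r5} : Finset V)) : Set V) x :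
          Submodule k (V → Vec k)) + 1 :=
    Eventually.of_forall fun x => finrank_le_of_TB (by intro v hv; simpa using hv) hTB x
  intro Z hZ z2 z3 z4 Z' hZ' z2' z3' z4'
  obtain ⟨zy, -⟩ := h Z hZ z2 z3 z4
  obtain ⟨zy', -⟩ := h Z' hZ' z2' z3' z4'
  rcases hF E hE _ hN hcard hbad with h1 | ⟨i, hi, h1⟩
  · obtain ⟨s, s', hss, hc⟩ := exists_comb h1 hZ hZ'
    refine ⟨s, s', hss, ?_⟩
    obtain ⟨S, hS, hv⟩ := hc
    have v2 := hv b2 (by simp)
    have v3 := hv b3 (by simp)
    have vy := hv y (by simp)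
    have v4 := hv r4 (by simp)
    simp only [Pi.add_apply, Pi.smul_apply, z2, z2', z3, z3', zy, zy', smul_zero, add_zero]
      at v2 v3 vy v4
    have : S = 0 := hS.eq_zero_of_three (x := p b2) (y := p b3) (z := p y)
      (li3 hgp (by simp) (by simp) (by simp) n1 n2 n5) v2.symm v3.symm vy.symm
    rw [v4, this]; simp
  · -- everything is zero
    have key : ∀ W ∈ Mot B (E : Set (Sym2 V)) p, W b2 = 0 → W b3 = 0 → W r4 ⬝ᵥ p r5 = 0 →
        W r4 = 0 := by
      intro W hW w2 w3 w4
      obtain ⟨wy, w5⟩ := h W hW w2 w3 w4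
      obtain ⟨S, hS, hv⟩ := h1 hW
      have l4 : W r4 ⬝ᵥ p r4 = 0 := hW.2.1 r4 hr4
      have sk : ∀ a b : Vec k, S a = 0 → S b ⬝ᵥ a = 0 := fun a b hab => by
        rw [hS.swap b a, hab]; simp
      have hi' : i = b2 ∨ i = b3 ∨ i = y ∨ i = r4 ∨ i = r5 := by simpa using hi
      have three : S (p b2) = 0 → S (p b3) = 0 → S (p y) = 0 → S = 0 := fun a b c =>
        hS.eq_zero_of_three (x := p b2) (y := p b3) (z := p y)
          (li3 hgp (by simp) (by simp) (by simp) n1 n2 n5) a b c
      rcases hi' with rfl | rfl | rfl | rfl | rfl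
      · have v3 := hv b3 (by simp [n1.symm])
        have vy := hv y (by simp [n2.symm])
        have v4 := hv r4 (by simp [n3.symm])
        rw [w3] at v3
        rw [wy] at vy
        refine eq_zero_of_dot (v := ![p b3, p y, p r4, p r5])
          (hgp.four (by simp) (by simp) (by simp) (by simp) n5 n6 n7 n8 n9 n10) ?_
        intro j
        fin_cases j
        · simpa [v4] using sk _ (p r4) v3.symm
        · simpa [v4] using sk _ (p r4) vy.symm
        · simpa using l4
        · simpa using w4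
      · have v2 := hv b2 (by simp [n1])
        have vy := hv y (by simp [n5.symm])
        have v4 := hv r4 (by simp [n6.symm])
        rw [w2] at v2
        rw [wy] at vy
        refine eq_zero_of_dot (v := ![p b2, p y, p r4, p r5])
          (hgp.four (by simp) (by simp) (by simp) (by simp) n2 n3 n4 n8 n9 n10) ?_
        intro j
        fin_cases j
        · simpa [v4] using sk _ (p r4) v2.symm
        · simpa [v4] using sk _ (p r4) vy.symm
        · simpa using l4
        · simpa using w4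
      · have v2 := hv b2 (by simp [n2])
        have v3 := hv b3 (by simp [n5])
        have v4 := hv r4 (by simp [n8.symm])
        rw [w2] at v2
        rw [w3] at v3
        refine eq_zero_of_dot (v := ![p b2, p b3, p r4, p r5]) li ?_
        intro j
        fin_cases j
        · simpa [v4] using sk _ (p r4) v2.symm
        · simpa [v4] using sk _ (p r4) v3.symm
        · simpa using l4
        · simpa using w4
      · have v2 := hv b2 (by simp [n3])
        have v3 := hv b3 (by simp [n6])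
        have vy := hv y (by simp [n8])
        have v5 := hv r5 (by simp [n10.symm])
        rw [w2] at v2
        rw [w3] at v3
        rw [wy] at vy
        have h0 := three v2.symm v3.symm vy.symm
        rw [h0, w5] at v5
        simpa [ht] using v5
      · have v2 := hv b2 (by simp [n4])
        have v3 := hv b3 (by simp [n7])
        have vy := hv y (by simp [n9])
        have v4 := hv r4 (by simp [n10])
        rw [w2] at v2
        rw [w3] at v3
        rw [wy] at vy
        have h0 := three v2.symm v3.symm vy.symm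
        rw [h0] at v4
        simpa using v4
    exact ⟨1, 0, Or.inl one_ne_zero, by rw [key Z hZ z2 z3 z4]; simp⟩

end GR.E4
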