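import Pool.Agent.Lib.GR.E4Q

/-!
# Degree 7 body vertices: `B_Z q = 0` and `B` injective at good positions
-/

namespace GR.E4

open Module Filter

open scoped Matrix

variable {k : Type*} [Field k] [Infinite k] {V : Type*} [DecidableEq V]

namespace B3Hyp

variable {A : Finset V} {E : Finset (Sym2 V)} {u a b c d e : V} {v : Fin 3 → V}

lemma Kg_rest (W : Finset V) (E : Finset (Sym2 V)) (p : V → Vec k) (b c d e : V) :
    Kg W ((rest E W : Finset (Sym2 V)) : Set (Sym2 V)) p b c d e =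
      Kg W (E : Set (Sym2 V)) p b c d e := by
  ext Z
  show (Z ∈ Mot W ((rest E W : Finset (Sym2 V)) : Set (Sym2 V)) p ∧ _) ↔
    (Z ∈ Mot W (E : Set (Sym2 V)) p ∧ _)
  rw [Mot_rest]

theorem frame (h : B3Hyp k A E u a b c d e v) {p : V → Vec k} {t : k}
    (hp : PHyp A E u a b c d e v p t) {x0 : V} (hx0 : IsX0 A E u a b c d e v x0)
    (hgp : ∀ᶠ x in gen k (Vec k), GenPos (Function.update p a x)
      (insert a (UU A u a : Finset V) : Set V)) :
    Frame (UU A u a) (rest E (UU A u a)) p b c d e t (yy x0 v) := by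
  have hc := h.comb
  have hyU : ∀ j, yy x0 v j ∈ UU A u a := fun j =>
    (mem_extN.mp ((mem_XX hx0).mpr ⟨j, rfl⟩)).1.1
  exact
    { hE := rest_subset_Kf (fun f hf => (mem_Kf.mp (h.ce.sub hf)).1) _
      hb2 := hc.hb
      hb3 := hc.hc
      hr4 := hc.hd
      hr5 := hc.he
      hy := hyU
      yinj := h.yy_inj hx0
      y2 := fun j => (mem_extN.mp ((mem_XX hx0).mpr ⟨j, rfl⟩)).2.1
      y3 := fun j => (mem_extN.mp ((mem_XX hx0).mpr ⟨j, rfl⟩)).2.2
      y4 := fun j => by
        fin_cases j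
        · exact hx0.2.2.1
        · exact (h.v_ne 0).2.2.2.1
        · exact (h.v_ne 1).2.2.2.1
        · exact (h.v_ne 2).2.2.2.1
      y5 := fun j => by
        fin_cases j
        · exact hx0.2.2.2.1
        · exact (h.v_ne 0).2.2.2.2
        · exact (h.v_ne 1).2.2.2.2
        · exact (h.v_ne 2).2.2.2.2
      h24 := hc.hbd
      h25 := hc.hbe
      h34 := hc.hcd
      h35 := hc.hce
      h45 := hc.hde
      gp := h.gpU hp.gd
      h23 := mem_rest.mpr ⟨h.ebc, by
        intro w hw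
        rcases Sym2.mem_iff.mp hw with rfl | rfl
        · exact hc.hb
        · exact hc.hc⟩
      ht := hp.t0
      hζ := by
        intro Z hZ
        rw [Fr, Kg_rest] at hZ
        exact h.zeta hp Z hZ
      hY := by
        intro S hS hSq
        rw [Fr, Kg_rest]
        exact h.exists_Y hp hx0 hgp hS hSq }

theorem finrank_K (h : B3Hyp k A E u a b c d e v) {p : V → Vec k} (hp : Gd k A E u v p) :
    finrank k (KK' A E u a b c d e p) = 5 := by
  have hc := h.comb
  have h1 := finrank_Kg (E := (E : Set (Sym2 V))) (h.gpU hp) hc.hb hc.hc hc.hd hc.he hc.hbc hc.hbd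
    hc.hbe hc.hcd hc.hce hc.hde hc.ebc
  have h2 : mdim (UU A u a) (E : Set (Sym2 V)) p = 11 := by
    rw [hp.nice.reg _ ((Finset.erase_subset _ _).trans (Finset.erase_subset _ _)) _]
    exact h.gdim_U
  rw [h2] at h1
  show finrank k (Kg (UU A u a) (E : Set (Sym2 V)) p b c d e) = 5
  omega

/-- **The conclusion at a good position.** -/
theorem concl (h2 : (2 : k) ≠ 0) (h : B3Hyp k A E u a b c d e v) {p : V → Vec k} {t : k}
    (hp : PHyp A E u a b c d e v p t) {x0 : V} (hx0 : IsX0 A E u a b c d e v x0)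
    (hgp : ∀ᶠ x in gen k (Vec k), GenPos (Function.update p a x)
      (insert a (UU A u a : Finset V) : Set V)) :
    (∀ Z ∈ KK' A E u a b c d e p, ∀ c' : Fin 4 → k,
      ∑ j, c' j • p (yy x0 v j) = p e - t • p d → ∑ j, c' j • Z (yy x0 v j) = 0) ∧
    (∀ Z ∈ KK' A E u a b c d e p, (∀ j, Z (yy x0 v j) = 0) → Z = 0) := by
  classical
  have F := h.frame hp hx0 hgp
  have hFr : Fr (UU A u a) ((rest E (UU A u a) : Finset (Sym2 V)) : Set (Sym2 V)) p b c d e =
      KK' A E u a b c d e p := Kg_rest _ _ _ _ _ _ _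
  have hcore := F.core_four h2 hp.fact (by rw [hFr]; exact h.finrank_K hp.gd)
    (by
      rw [hFr]
      intro Z hZ h0 hd
      obtain ⟨x, s, J, a', hxd, -⟩ := (h.eventually_full hp).exists
      refine hxd.inj Z ⟨hZ, fun y hy => ?_⟩ hd
      obtain ⟨j, rfl⟩ := (mem_XX hx0).mp hy
      rw [h0 j]; simp)
    (by
      rw [hFr]
      intro i j hi hj hij
      -- indices 1, 2, 3 are the `v i`
      have key : ∀ i : Fin 4, i ≠ 0 → ∃ i' : Fin 3, yy x0 v i = v i' ∧ i = i'.succ := by
        intro i hi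
        obtain ⟨i', rfl⟩ := Fin.exists_succ_eq.mpr hi
        refine ⟨i', ?_, rfl⟩
        fin_cases i' <;> rfl
      obtain ⟨i', ei, ei'⟩ := key i hi
      obtain ⟨j', ej, ej'⟩ := key j hj
      rw [ei, ej]
      exact hp.nr i' j' (fun h' => hij (by rw [ei', ej', h'])))
    (by
      refine Eventually.frequently ?_
      filter_upwards [h.eventually_full hp] with x hx
      obtain ⟨s, J, a', hxd, hS1⟩ := hx
      obtain ⟨⟨s0, e1⟩, e2⟩ := h.star_eq hxd hS1
      refine ⟨fun j => s (yy x0 v j), s0, ?_, ?_⟩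
      · rw [← e1, h.sum_XX hx0]
      · intro Z hZ
        rw [hFr] at hZ
        have h3 := e2 Z hZ
        rw [h.zeta hp Z hZ, sub_self, zero_dotProduct, zero_add, h.sum_XX hx0] at h3
        exact h3)
  rw [hFr] at hcore
  refine ⟨fun Z hZ c' hc' => ?_, hcore.2⟩
  rw [← F.BL_sum, hc']
  exact hcore.1 Z hZ

end B3Hyp

end GR.E4
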