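import Pool.Agent.Lib.GR.E4Four

/-!
# All rotations about `q`
-/

namespace GR.E4

open Module Filter

open scoped Matrix

variable {k : Type*} [Field k] {V : Type*} [DecidableEq V]

/-- a submodule containing generic vectors is everything -/
lemma eq_top_of_eventually [Infinite k] {W : Type*} [AddCommGroup W] [Module k W]
    (P : Submodule k W) (h : ∀ᶠ x in gen k W, x ∈ P) : P = ⊤ := by
  obtain ⟨U, hU, hUP⟩ := eventually_gen.mp h
  obtain ⟨⟨a, ha⟩, hline⟩ := hU
  refine eq_top_iff.mpr fun w _ => ?_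
  -- on the line `a + t w` almost all points are in `P`
  have hfin := hline a ha w
  obtain ⟨t, ht⟩ := (hfin.union (Set.finite_singleton (0 : k))).infinite_compl.nonempty
  have ht1 : a + t • w ∈ U := by
    by_contra hcon
    exact ht (Or.inl hcon)
  have ht0 : t ≠ 0 := fun h0 => ht (Or.inr h0)
  have h1 : t • w ∈ P := by
    have := P.sub_mem (hUP _ ht1) (hUP _ ha)
    simpa using this
  have := P.smul_mem t⁻¹ h1
  rwa [smul_smul, inv_mul_cancel₀ ht0, one_smul] at this

/-- The rotations about the lines through `q`, as a linear family. -/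
theorem exists_psi {q e1 e2 e3 : Vec k} (hli : LinearIndependent k ![q, e1, e2, e3]) :
    ∃ ψ : Vec k →ₗ[k] (Vec k →ₗ[k] Vec k), (∀ S, IsSkew S → S q = 0 → ∃ m, S = ψ m) ∧
      ∀ x S, IsSkew S → S x = 0 → S q = 0 → (∀ r : k, x ≠ r • q) → ∃ r : k, S = r • ψ x := by
  classical
  let b : Basis (Fin 4) k (Vec k) := basisOfLinearIndependentOfCardEqFinrank hli (by simp)
  have hb : ∀ i, b i = ![q, e1, e2, e3] i := fun i => by simp [b]
  have b0 : b 0 = q := hb 0
  have b1 : b 1 = e1 := hb 1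
  have b2 : b 2 = e2 := hb 2
  have b3 : b 3 = e3 := hb 3
  have cc : ∀ i j, b.coord i (b j) = if j = i then 1 else 0 := by
    intro i j
    rw [Basis.coord_apply, Basis.repr_self, Finsupp.single_apply]
  obtain ⟨S1, hS1, hv1⟩ := exists_skew_of_basis hli
    !![0, 0, 0, 0; 0, 0, 0, 0; 0, 0, 0, 1; 0, 0, -1, 0]
    (by intro i; fin_cases i <;> simp) (by intro i j; fin_cases i <;> fin_cases j <;> simp)
  obtain ⟨S2, hS2, hv2⟩ := exists_skew_of_basis hli
    !![0, 0, 0, 0; 0, 0, 0, -1; 0, 0, 0, 0; 0, 1, 0, 0]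
    (by intro i; fin_cases i <;> simp) (by intro i j; fin_cases i <;> fin_cases j <;> simp)
  obtain ⟨S3, hS3, hv3⟩ := exists_skew_of_basis hli
    !![0, 0, 0, 0; 0, 0, 1, 0; 0, -1, 0, 0; 0, 0, 0, 0]
    (by intro i; fin_cases i <;> simp) (by intro i j; fin_cases i <;> fin_cases j <;> simp)
  have q1 : S1 q = 0 := eq_zero_of_dot hli (by
    intro i; have := hv1 0 i; fin_cases i <;> simpa using this)
  have q2 : S2 q = 0 := eq_zero_of_dot hli (by
    intro i; have := hv2 0 i; fin_cases i <;> simpa using this)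
  have q3 : S3 q = 0 := eq_zero_of_dot hli (by
    intro i; have := hv3 0 i; fin_cases i <;> simpa using this)
  have v112 : S1 e1 ⬝ᵥ e2 = 0 := by simpa using hv1 1 2
  have v113 : S1 e1 ⬝ᵥ e3 = 0 := by simpa using hv1 1 3
  have v123 : S1 e2 ⬝ᵥ e3 = 1 := by simpa using hv1 2 3
  have v212 : S2 e1 ⬝ᵥ e2 = 0 := by simpa using hv2 1 2
  have v213 : S2 e1 ⬝ᵥ e3 = -1 := by simpa using hv2 1 3
  have v223 : S2 e2 ⬝ᵥ e3 = 0 := by simpa using hv2 2 3
  have v312 : S3 e1 ⬝ᵥ e2 = 1 := by simpa using hv3 1 2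
  have v313 : S3 e1 ⬝ᵥ e3 = 0 := by simpa using hv3 1 3
  have v323 : S3 e2 ⬝ᵥ e3 = 0 := by simpa using hv3 2 3
  let ψ : Vec k →ₗ[k] (Vec k →ₗ[k] Vec k) :=
    LinearMap.smulRight (b.coord 1) S1 + LinearMap.smulRight (b.coord 2) S2
      + LinearMap.smulRight (b.coord 3) S3
  have hψ : ∀ x, ψ x = b.coord 1 x • S1 + b.coord 2 x • S2 + b.coord 3 x • S3 := fun x => rfl
  have hψs : ∀ x, IsSkew (ψ x) := fun x => by
    rw [hψ]; exact ((hS1.smul _).add (hS2.smul _)).add (hS3.smul _)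
  have hψq : ∀ x, ψ x q = 0 := fun x => by
    rw [hψ]; simp [q1, q2, q3]
  -- a skew map killing `q` is determined by three numbers
  have three : ∀ S, IsSkew S → S q = 0 → ∀ x, S e2 ⬝ᵥ e3 = b.coord 1 x → -(S e1 ⬝ᵥ e3) = b.coord 2 x →
      S e1 ⬝ᵥ e2 = b.coord 3 x → S = ψ x := by
    intro S hS hSq x h1 h2 h3
    have h0 : S - ψ x = 0 := by
      refine skew_zero_of_basis hli (hS.sub (hψs x)) ?_ ?_ ?_ ?_ ?_ ?_
      · simp [hSq, hψq]
      · simp [hSq, hψq]
      · simp [hSq, hψq]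
      · simp only [Matrix.cons_val_one, Matrix.cons_val, LinearMap.sub_apply, sub_dotProduct]
        rw [hψ]
        simp only [LinearMap.add_apply, LinearMap.smul_apply, add_dotProduct, smul_dotProduct,
          smul_eq_mul, v112, v212, v312]
        rw [h3]; ring
      · simp only [Matrix.cons_val_one, Matrix.cons_val, LinearMap.sub_apply, sub_dotProduct]
        rw [hψ]
        simp only [LinearMap.add_apply, LinearMap.smul_apply, add_dotProduct, smul_dotProduct,
          smul_eq_mul, v113, v213, v313]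
        rw [← h2]; ring
      · simp only [Matrix.cons_val, LinearMap.sub_apply, sub_dotProduct]
        rw [hψ]
        simp only [LinearMap.add_apply, LinearMap.smul_apply, add_dotProduct, smul_dotProduct,
          smul_eq_mul, v123, v223, v323]
        rw [h1]; ring
    exact sub_eq_zero.mp h0
  refine ⟨ψ, ?_, ?_⟩
  · intro S hS hSq
    refine ⟨(S e2 ⬝ᵥ e3) • e1 + (-(S e1 ⬝ᵥ e3)) • e2 + (S e1 ⬝ᵥ e2) • e3, three S hS hSq _ ?_ ?_ ?_⟩
    all_goals
      simp only [map_add, map_smul, smul_eq_mul]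
      rw [← b1, ← b2, ← b3]
      simp only [cc]
      simp
  · intro x S hS hSx hSq hxq
    -- coordinates of `x`
    have hx : x = b.coord 0 x • q + b.coord 1 x • e1 + b.coord 2 x • e2 + b.coord 3 x • e3 := by
      have := b.sum_repr x
      rw [Fin.sum_univ_four, b0, b1, b2, b3] at this
      exact this.symm
    set x0 := b.coord 0 x with hx0
    set x1 := b.coord 1 x with hx1
    set x2 := b.coord 2 x with hx2
    set x3 := b.coord 3 x with hx3
    have hSx' : x1 • S e1 + x2 • S e2 + x3 • S e3 = 0 := by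
      rw [hx] at hSx
      simpa [hSq] using hSx
    have s11 : S e1 ⬝ᵥ e1 = 0 := hS e1
    have s22 : S e2 ⬝ᵥ e2 = 0 := hS e2
    have s33 : S e3 ⬝ᵥ e3 = 0 := hS e3
    have s21 : S e2 ⬝ᵥ e1 = -(S e1 ⬝ᵥ e2) := hS.swap _ _
    have s31 : S e3 ⬝ᵥ e1 = -(S e1 ⬝ᵥ e3) := hS.swap _ _
    have s32 : S e3 ⬝ᵥ e2 = -(S e2 ⬝ᵥ e3) := hS.swap _ _
    have m1 := congrArg (fun v => v ⬝ᵥ e1) hSx'
    have m2 := congrArg (fun v => v ⬝ᵥ e2) hSx'
    have m3 := congrArg (fun v => v ⬝ᵥ e3) hSx'
    simp only [add_dotProduct, smul_dotProduct, smul_eq_mul, zero_dotProduct, s11, s22, s33, s21,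
      s31, s32] at m1 m2 m3
    -- some coordinate of `x` is nonzero
    have key : ∀ r : k, S e2 ⬝ᵥ e3 = r * x1 → -(S e1 ⬝ᵥ e3) = r * x2 → S e1 ⬝ᵥ e2 = r * x3 →
        S = r • ψ x := by
      intro r h1 h2 h3
      rw [← map_smul]
      refine three S hS hSq _ ?_ ?_ ?_
      · rw [map_smul, smul_eq_mul, h1]
      · rw [map_smul, smul_eq_mul, h2]
      · rw [map_smul, smul_eq_mul, h3]
    by_cases c1 : x1 = 0
    · by_cases c2 : x2 = 0
      · by_cases c3 : x3 = 0
        · exact absurd (by rw [c1, c2, c3] at hx; simpa using hx) (hxq x0)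
        · refine ⟨(S e1 ⬝ᵥ e2) / x3, key _ ?_ ?_ ?_⟩
          · rw [c1, c2] at m2
            have : x3 * (S e2 ⬝ᵥ e3) = 0 := by linear_combination -m2
            rw [(mul_eq_zero.mp this).resolve_left c3, c1, mul_zero]
          · rw [c1, c2] at m1
            have : x3 * (S e1 ⬝ᵥ e3) = 0 := by linear_combination -m1
            rw [(mul_eq_zero.mp this).resolve_left c3, c2, mul_zero, neg_zero]
          · field_simp
      · refine ⟨-(S e1 ⬝ᵥ e3) / x2, key _ ?_ ?_ ?_⟩
        · rw [c1] at m3 ⊢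
          have : x2 * (S e2 ⬝ᵥ e3) = 0 := by linear_combination m3
          rw [(mul_eq_zero.mp this).resolve_left c2, mul_zero]
        · field_simp
        · field_simp
          linear_combination -m1
    · refine ⟨(S e2 ⬝ᵥ e3) / x1, key _ ?_ ?_ ?_⟩
      · field_simp
      · field_simp
        linear_combination -m3
      · field_simp
        linear_combination m2

/-- **All rotations about `q`** from generic ones. -/
theorem all_rot [Infinite k] {q e1 e2 e3 : Vec k} (hli : LinearIndependent k ![q, e1, e2, e3])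
    (P : Submodule k (Vec k →ₗ[k] Vec k))
    (h : ∀ᶠ x in gen k (Vec k), ∃ S ∈ P, IsSkew S ∧ S x = 0 ∧ S q = 0 ∧ S ≠ 0) :
    ∀ S, IsSkew S → S q = 0 → S ∈ P := by
  classical
  obtain ⟨ψ, hψ1, hψ2⟩ := exists_psi hli
  -- generic `x` is not a multiple of `q`
  obtain ⟨φ, hφ⟩ : ∃ φ : Vec k →ₗ[k] k, φ q = 0 ∧ φ ≠ 0 := by
    obtain ⟨φ, hφ⟩ := exists_functional hli ![0, 1, 0, 0]
    refine ⟨φ, by simpa using hφ 0, fun h0 => ?_⟩
    have := hφ 1
    rw [h0] at this
    simp at this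
  have hne : ∀ᶠ x in gen k (Vec k), φ x ≠ 0 := by
    refine (PolyLine.linear φ).eventually_ne ?_
    by_contra hcon
    push Not at hcon
    exact hφ.2 (LinearMap.ext fun x => by simpa using hcon x)
  have htop : P.comap ψ = ⊤ := by
    refine eq_top_of_eventually _ ?_
    filter_upwards [h, hne] with x hx hx'
    obtain ⟨S, hSP, hS, hSx, hSq, hS0⟩ := hx
    obtain ⟨r, hr⟩ := hψ2 x S hS hSx hSq (by
      intro r hr
      apply hx'
      rw [hr, map_smul, hφ.1, smul_zero])
    have hr0 : r ≠ 0 := by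
      rintro rfl
      exact hS0 (by rw [hr, zero_smul])
    rw [Submodule.mem_comap]
    have h1 := P.smul_mem r⁻¹ hSP
    rwa [hr, smul_smul, inv_mul_cancel₀ hr0, one_smul] at h1
  intro S hS hSq
  obtain ⟨m, rfl⟩ := hψ1 S hS hSq
  have : m ∈ P.comap ψ := by rw [htop]; exact Submodule.mem_top
  exact this

end GR.E4
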