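import Pool.Agent.Lib.GR.E4Four

/-!
# Degree 7 body vertices: the last case (`α = 0`, `B` injective)

`U1 = U \ {v1}`; the vertex `v1` of pure type A has the four neighbours `τ i` in `U1`; `y0, y2, y3`
are the other external neighbours of the body vertex.
-/

namespace GR.E4

open Module Filter

open scoped Matrix

variable {k : Type*} [Field k] {V : Type*} [DecidableEq V]

/-- The space in which the motions of `U1` live (restricted to the points `τ i`). -/
noncomputable def W3 (bt : Basis (Fin 4) k (Vec k)) (q y0 y2 y3 : Vec k) :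
    Submodule k (Fin 4 → Vec k) where
  carrier := {b | (∀ i, b i ⬝ᵥ bt i = 0) ∧ (∀ i, b i ⬝ᵥ q = 0) ∧
    (∀ i0, bt i0 = y0 → ∀ i, b i0 ⬝ᵥ bt i + b i ⬝ᵥ bt i0 = 0) ∧
    bt.constr k b y0 ⬝ᵥ y0 = 0 ∧ bt.constr k b y2 ⬝ᵥ y2 = 0 ∧ bt.constr k b y3 ⬝ᵥ y3 = 0}
  add_mem' := by
    rintro a b ⟨h1, h2, h3, h4, h5, h6⟩ ⟨h1', h2', h3', h4', h5', h6'⟩
    refine ⟨fun i => ?_, fun i => ?_, fun i0 hi0 i => ?_, ?_, ?_, ?_⟩
    · simp [add_dotProduct, h1 i, h1' i]
    · simp [add_dotProduct, h2 i, h2' i]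
    · have e1 := h3 i0 hi0 i
      have e2 := h3' i0 hi0 i
      simp only [Pi.add_apply, add_dotProduct]
      linear_combination e1 + e2
    · rw [map_add, LinearMap.add_apply, add_dotProduct, h4, h4', add_zero]
    · rw [map_add, LinearMap.add_apply, add_dotProduct, h5, h5', add_zero]
    · rw [map_add, LinearMap.add_apply, add_dotProduct, h6, h6', add_zero]
  zero_mem' := by
    refine ⟨fun i => by simp, fun i => by simp, fun i0 hi0 i => by simp, ?_, ?_, ?_⟩ <;>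
      · rw [map_zero]; simp
  smul_mem' := by
    rintro r a ⟨h1, h2, h3, h4, h5, h6⟩
    refine ⟨fun i => ?_, fun i => ?_, fun i0 hi0 i => ?_, ?_, ?_, ?_⟩
    · simp [h1 i]
    · simp [h2 i]
    · have e1 := h3 i0 hi0 i
      simp only [Pi.smul_apply, smul_dotProduct, smul_eq_mul]
      linear_combination r * e1
    · rw [map_smul, LinearMap.smul_apply, smul_dotProduct, h4, smul_zero]
    · rw [map_smul, LinearMap.smul_apply, smul_dotProduct, h5, smul_zero]
    · rw [map_smul, LinearMap.smul_apply, smul_dotProduct, h6, smul_zero]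

/-- **The last case.** -/
theorem core_two [Infinite k] (h2 : (2 : k) ≠ 0) {M : Submodule k (V → Vec k)}
    {p : V → Vec k} {q : Vec k} {τ : Fin 4 → V}
    {y0 y2 y3 : V} (hτ : LinearIndependent k (fun i => p (τ i)))
    (hli : LinearIndependent k ![q, p y0, p y2, p y3])
    (hloop : ∀ Z ∈ M, (∀ i, Z (τ i) ⬝ᵥ p (τ i) = 0) ∧ Z y0 ⬝ᵥ p y0 = 0 ∧ Z y2 ⬝ᵥ p y2 = 0 ∧
      Z y3 ⬝ᵥ p y3 = 0)
    (hdim : 6 ≤ finrank k M)
    (he : ∀ᶠ x in gen k (Vec k), ∀ Z ∈ M, ∀ z : Vec k, z ⬝ᵥ x = 0 →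
      (∀ i, z ⬝ᵥ p (τ i) + Z (τ i) ⬝ᵥ x = 0) →
      (∀ c0 c2 c3 c1 : k, c0 • p y0 + c2 • p y2 + c3 • p y3 + c1 • x = q →
        c0 • Z y0 + c2 • Z y2 + c3 • Z y3 + c1 • z = 0) ∧
      (Z y0 = 0 → Z y2 = 0 → Z y3 = 0 → z = 0 → Z = 0))
    (bt : Basis (Fin 4) k (Vec k)) (hbt : ∀ i, bt i = p (τ i))
    (hf3 : ¬ ∃ (β0 : Vec k → k) (c : M → k), ∀ Z : M, ∀ x,
      BL bt τ Z.1 x ⬝ᵥ x = c Z * β0 x)
    (hf4 : ¬ ∃ (δ : Vec k →ₗ[k] k) (α' : M → Vec k →ₗ[k] k), ∀ Z : M, ∀ x,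
      BL bt τ Z.1 x ⬝ᵥ x = δ x * α' Z x)
    (hg : ∀ i0, bt i0 = p y0 → τ i0 = y0)
    (hW : finrank k (W3 bt q (p y0) (p y2) (p y3)) ≤ 5) : False := by
  classical
  -- coordinates with respect to `q, y0, y2, y3`
  have hbas : ∃ n l0 l2 l3 : Vec k →ₗ[k] k,
      (∀ x, x = n x • q + l0 x • p y0 + l2 x • p y2 + l3 x • p y3) ∧
      (n q = 1 ∧ n (p y0) = 0 ∧ n (p y2) = 0 ∧ n (p y3) = 0) ∧
      (l0 q = 0 ∧ l0 (p y0) = 1 ∧ l0 (p y2) = 0 ∧ l0 (p y3) = 0) ∧
      (l2 q = 0 ∧ l2 (p y0) = 0 ∧ l2 (p y2) = 1 ∧ l2 (p y3) = 0) ∧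
      (l3 q = 0 ∧ l3 (p y0) = 0 ∧ l3 (p y2) = 0 ∧ l3 (p y3) = 1) := by
    let b : Basis (Fin 4) k (Vec k) := basisOfLinearIndependentOfCardEqFinrank hli (by simp)
    have hb : ∀ i, b i = ![q, p y0, p y2, p y3] i := fun i => by simp [b]
    have b0 : b 0 = q := hb 0
    have b1 : b 1 = p y0 := hb 1
    have b2 : b 2 = p y2 := hb 2
    have b3 : b 3 = p y3 := hb 3
    have cc : ∀ i j, b.coord i (b j) = if j = i then 1 else 0 := by
      intro i j
      rw [Basis.coord_apply, Basis.repr_self, Finsupp.single_apply]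
    refine ⟨b.coord 0, b.coord 1, b.coord 2, b.coord 3, ?_, ⟨?_, ?_, ?_, ?_⟩, ⟨?_, ?_, ?_, ?_⟩,
      ⟨?_, ?_, ?_, ?_⟩, ⟨?_, ?_, ?_, ?_⟩⟩
    · intro x
      have := b.sum_repr x
      rw [Fin.sum_univ_four, b0, b1, b2, b3] at this
      exact this.symm
    all_goals first | rw [← b0] | rw [← b1] | rw [← b2] | rw [← b3]
    all_goals rw [cc]; simp
  obtain ⟨n, l0, l2, l3, hx, ⟨n1, n2, n3, n4⟩, ⟨a1, a2, a3, a4⟩, ⟨b1, b2, b3, b4⟩,
    ⟨c1, c2, c3, c4⟩⟩ := hbas
  have hn0 : n ≠ 0 := fun h => by rw [h] at n1; simp at n1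
  -- the linear forms `α^z`
  let αz : Vec k → M →ₗ[k] Vec k →ₗ[k] k := fun z =>
    { toFun := fun Z => (dotL k) (BL bt τ Z.1 z) + (Z.1 y0 ⬝ᵥ z) • l0 + (Z.1 y2 ⬝ᵥ z) • l2
        + (Z.1 y3 ⬝ᵥ z) • l3
      map_add' := fun Z Z' => by
        refine LinearMap.ext fun x => ?_
        simp only [Submodule.coe_add, map_add, LinearMap.add_apply, Pi.add_apply, add_dotProduct,
          LinearMap.smul_apply, smul_eq_mul, dotL_apply]
        ring
      map_smul' := fun r Z => by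
        refine LinearMap.ext fun x => ?_
        simp only [Submodule.coe_smul, map_smul, LinearMap.smul_apply, LinearMap.add_apply,
          Pi.smul_apply, smul_dotProduct, smul_eq_mul, dotL_apply, RingHom.id_apply]
        ring }
  have hαz : ∀ z Z x, αz z Z x = BL bt τ Z.1 z ⬝ᵥ x + (Z.1 y0 ⬝ᵥ z) * l0 x
      + (Z.1 y2 ⬝ᵥ z) * l2 x + (Z.1 y3 ⬝ᵥ z) * l3 x := fun z Z x => rfl
  have hβ : ∀ (Z : M) (x : Vec k), betaM bt τ M Z x x = BL bt τ Z.1 x ⬝ᵥ x := fun Z x => rfl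
  have hne : ∀ᶠ x in gen k (Vec k), n x ≠ 0 :=
    (PolyLine.linear n).eventually_ne ⟨q, by rw [n1]; exact one_ne_zero⟩
  -- vanishing
  have hvan : ∀ᶠ x in gen k (Vec k), ∀ Z : M, BL bt τ Z.1 x ⬝ᵥ x = 0 → ∀ z, αz z Z x = 0 := by
    filter_upwards [he, hne] with x hx1 hnx Z hZ z
    -- the attaching vector
    let φ : Vec k →ₗ[k] k := -((dotL k).flip x ∘ₗ BL bt τ Z.1)
    obtain ⟨ζ, hζ⟩ := exists_dot φ
    have hφ : ∀ v, ζ ⬝ᵥ v = -(BL bt τ Z.1 v ⬝ᵥ x) := fun v => by rw [hζ]; rfl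
    have e1 := (hx1 Z.1 Z.2 ζ (by rw [hφ, hZ, neg_zero]) (by
      intro i
      rw [hφ, ← hbt, BL_apply_basis]; ring)).1
    have e2 := e1 (-(l0 x / n x)) (-(l2 x / n x)) (-(l3 x / n x)) (1 / n x) (by
      have h5 := hx x
      have h6 : (1 / n x) • x = q + (l0 x / n x) • p y0 + (l2 x / n x) • p y2
          + (l3 x / n x) • p y3 := by
        conv_lhs => rw [h5]
        simp only [smul_add, smul_smul]
        simp only [map_add, map_smul, n1, n2, n3, n4, a1, a2, a3, a4, b1, b2, b3, b4, c1, c2, c3,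
          c4, smul_eq_mul, mul_zero, mul_one, add_zero, zero_add]
        rw [one_div, inv_mul_cancel₀ hnx, one_smul, div_eq_inv_mul, div_eq_inv_mul,
          div_eq_inv_mul]
      rw [h6]
      simp only [neg_smul]
      abel)
    have e3 : ζ = l0 x • Z.1 y0 + l2 x • Z.1 y2 + l3 x • Z.1 y3 := by
      have h7 := congrArg (fun v => n x • v) e2
      simp only [smul_add, smul_smul, smul_zero] at h7
      rw [show n x * (1 / n x) = 1 by field_simp, show n x * -(l0 x / n x) = -(l0 x) by field_simp,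
        show n x * -(l2 x / n x) = -(l2 x) by field_simp,
        show n x * -(l3 x / n x) = -(l3 x) by field_simp, one_smul, neg_smul, neg_smul,
        neg_smul] at h7
      rw [← sub_eq_zero, ← h7]
      abel
    have e4 := hφ z
    rw [e3] at e4
    simp only [add_dotProduct, smul_dotProduct, smul_eq_mul] at e4
    rw [hαz]
    linear_combination e4
  -- pair identity
  have hlinP : ∀ z : Vec k, PolyLine k (fun x : Vec k => z ⬝ᵥ x) := fun z => by
    have := PolyLine.linear (k := k) (W := Vec k) (dotL k z)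
    simpa using this
  have hquad : ∀ S : Vec k →ₗ[k] Vec k, PolyLine k (fun x : Vec k => S x ⬝ᵥ x) := by
    intro S
    have : (fun x : Vec k => S x ⬝ᵥ x) = fun x : Vec k => ∑ i, S x i * x i := by
      funext x; rfl
    rw [this]
    refine PolyLine.sum _ fun i _ => PolyLine.mul ?_ (polyLine_vec i)
    exact PolyLine.linear ((LinearMap.proj i).comp S)
  have hpair : ∀ z, ∀ Z Z' : M, ∀ x, αz z Z x * betaM bt τ M Z' x x
      = αz z Z' x * betaM bt τ M Z x x := by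
    intro z Z Z' x
    have hf : PolyLine k (fun x : Vec k => αz z Z x * (BL bt τ Z'.1 x ⬝ᵥ x)
        - αz z Z' x * (BL bt τ Z.1 x ⬝ᵥ x)) :=
      ((PolyLine.linear (αz z Z)).mul (hquad _)).sub ((PolyLine.linear (αz z Z')).mul (hquad _))
    refine sub_eq_zero.mp (hf.eq_zero_of_eventually ?_ x)
    filter_upwards [hvan] with x hx
    have h8 := hx ((BL bt τ Z'.1 x ⬝ᵥ x) • Z - (BL bt τ Z.1 x ⬝ᵥ x) • Z') (by
      simp only [Submodule.coe_sub, Submodule.coe_smul, map_sub, map_smul, LinearMap.sub_apply,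
        LinearMap.smul_apply, sub_dotProduct, smul_dotProduct, smul_eq_mul]
      ring) z
    simp only [map_sub, map_smul, LinearMap.sub_apply, LinearMap.smul_apply, smul_eq_mul] at h8
    linear_combination h8
  have hα0 : ∀ z Z x, αz z Z x = 0 := by
    intro z
    rcases pair_classify h2 (αz z) (betaM bt τ M) (hpair z) with h | ⟨Z1, -, c, -, hc⟩ | ⟨δ, hδ⟩
    · intro Z x; rw [h Z]; rfl
    · exact absurd ⟨fun x => BL bt τ Z1.1 x ⬝ᵥ x, fun Z => c Z, fun Z x => (hc Z x).2⟩ hf3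
    · exact absurd ⟨δ, fun Z => αz z Z, fun Z x => hδ Z x⟩ hf4
  -- consequences
  have k1 : ∀ Z : M, ∀ z, BL bt τ Z.1 z ⬝ᵥ q = 0 := by
    intro Z z
    have := hα0 z Z q
    rw [hαz, a1, b1, c1] at this
    simpa using this
  have k20 : ∀ Z : M, ∀ z, Z.1 y0 ⬝ᵥ z = -(BL bt τ Z.1 z ⬝ᵥ p y0) := by
    intro Z z
    have := hα0 z Z (p y0)
    rw [hαz, a2, b2, c2] at this
    linear_combination this
  have k22 : ∀ Z : M, ∀ z, Z.1 y2 ⬝ᵥ z = -(BL bt τ Z.1 z ⬝ᵥ p y2) := by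
    intro Z z
    have := hα0 z Z (p y2)
    rw [hαz, a3, b3, c3] at this
    linear_combination this
  have k23 : ∀ Z : M, ∀ z, Z.1 y3 ⬝ᵥ z = -(BL bt τ Z.1 z ⬝ᵥ p y3) := by
    intro Z z
    have := hα0 z Z (p y3)
    rw [hαz, a4, b4, c4] at this
    linear_combination this
  -- the restriction to the points `τ i`
  let R : M →ₗ[k] W3 bt q (p y0) (p y2) (p y3) :=
    { toFun := fun Z => ⟨fun i => Z.1 (τ i), by
        have hB : bt.constr k (fun i => Z.1 (τ i)) = BL bt τ Z.1 := by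
          refine bt.ext fun i => ?_
          rw [BL_apply_basis]; simp
        refine ⟨fun i => ?_, fun i => ?_, fun i0 hi0 i => ?_, ?_, ?_, ?_⟩
        · rw [hbt]; exact (hloop Z.1 Z.2).1 i
        · have := k1 Z (p (τ i))
          rw [← hbt, BL_apply_basis] at this
          exact this
        · have := k20 Z (bt i)
          rw [BL_apply_basis, ← hi0, ← hg i0 hi0] at this
          rw [this]; ring
        · rw [hB]
          have := k20 Z (p y0)
          rw [(hloop Z.1 Z.2).2.1] at this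
          exact neg_eq_zero.mp this.symm
        · rw [hB]
          have := k22 Z (p y2)
          rw [(hloop Z.1 Z.2).2.2.1] at this
          exact neg_eq_zero.mp this.symm
        · rw [hB]
          have := k23 Z (p y3)
          rw [(hloop Z.1 Z.2).2.2.2] at this
          exact neg_eq_zero.mp this.symm⟩
      map_add' := fun Z Z' => rfl
      map_smul' := fun r Z => rfl }
  have hRinj : Function.Injective R := by
    rw [← LinearMap.ker_eq_bot, LinearMap.ker_eq_bot']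
    intro Z hZ
    have hZτ : ∀ i, Z.1 (τ i) = 0 := by
      intro i
      exact congrFun (congrArg Subtype.val hZ) i
    have hB : BL bt τ Z.1 = 0 := by
      refine bt.ext fun i => ?_
      rw [BL_apply_basis, hZτ]; rfl
    have z0 : Z.1 y0 = 0 := dotProduct_eq_zero _ fun z => by rw [k20, hB]; simp
    have z2 : Z.1 y2 = 0 := dotProduct_eq_zero _ fun z => by rw [k22, hB]; simp
    have z3 : Z.1 y3 = 0 := dotProduct_eq_zero _ fun z => by rw [k23, hB]; simp
    obtain ⟨x, hx1⟩ := he.exists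
    exact Subtype.ext ((hx1 Z.1 Z.2 0 (by simp) (by intro i; simp [hZτ])).2 z0 z2 z3 rfl)
  have h9 := LinearMap.finrank_le_finrank_of_injective hRinj
  omega

end GR.E4
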