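import Pool.Agent.Lib.GR.E4Two

/-!
# The space `W3` has dimension at most five

`W3 bt q y0 y2 y3` is defined in `E4Two.lean`.
-/

namespace GR.E4

open Module Filter

open scoped Matrix

variable {k : Type*} [Field k] {V : Type*} [DecidableEq V]

/-- drop: a generic point imposes a condition unless all forms vanish identically -/
lemma eventually_drop [Infinite k] (bt : Basis (Fin 4) k (Vec k))
    (S : Submodule k (Fin 4 → Vec k)) {m : ℕ} (h : finrank k S ≤ m + 1) :
    (∀ b ∈ S, ∀ x, bt.constr k b x ⬝ᵥ x = 0) ∨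
    ∀ᶠ x in gen k (Vec k), ∀ S' ≤ S, (∀ b ∈ S', bt.constr k b x ⬝ᵥ x = 0) → finrank k S' ≤ m := by
  classical
  by_cases hall : ∀ b ∈ S, ∀ x, bt.constr k b x ⬝ᵥ x = 0
  · exact Or.inl hall
  right
  push Not at hall
  obtain ⟨b0, hb0, x0, hx0⟩ := hall
  have hP : PolyLine k (fun x : Vec k => bt.constr k b0 x ⬝ᵥ x) := by
    refine PolyLine.sum (f := fun i (x : Vec k) => (bt.constr k b0 x) i * x i) Finset.univ
      fun i _ => PolyLine.mul ?_ ?_
    · exact PolyLine.linear ((LinearMap.proj i).comp (bt.constr k b0))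
    · exact PolyLine.linear (LinearMap.proj i : Vec k →ₗ[k] k)
  filter_upwards [hP.eventually_ne ⟨x0, hx0⟩] with x hx S' hS' h0
  have hlt : S' < S := lt_of_le_of_ne hS' (fun h => hx (h0 b0 (h ▸ hb0)))
  have := Submodule.finrank_lt_finrank_of_lt hlt
  omega

/-- the vectors orthogonal to a family -/
def annV {m : ℕ} (v : Fin m → Vec k) : Submodule k (Vec k) where
  carrier := {z | ∀ j, z ⬝ᵥ v j = 0}
  add_mem' := fun {a b} ha hb j => by rw [add_dotProduct, ha j, hb j, add_zero]
  zero_mem' := fun j => zero_dotProduct _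
  smul_mem' := fun c a ha j => by rw [smul_dotProduct, ha j, smul_zero]

lemma finrank_annV {m : ℕ} {v : Fin m → Vec k} (h : LinearIndependent k v) :
    finrank k (annV v) + m = 4 := by
  classical
  let f : Vec k →ₗ[k] (Fin m → k) :=
    { toFun := fun z j => z ⬝ᵥ v j
      map_add' := fun a b => by funext j; simp [add_dotProduct]
      map_smul' := fun c a => by funext j; simp }
  have hf : Function.Surjective f := by
    intro a
    obtain ⟨z, hz⟩ := exists_dot_eq h a
    exact ⟨z, funext hz⟩
  have hk : LinearMap.ker f = annV v := by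
    ext z
    rw [LinearMap.mem_ker]
    exact ⟨fun h j => congrFun h j, fun h => funext h⟩
  have h1 := LinearMap.finrank_range_add_finrank_ker f
  rw [LinearMap.range_eq_top.mpr hf, finrank_top, hk] at h1
  simp at h1
  omega

/-- a fourth independent vector -/
lemma exists_fourth {x y z : Vec k} (h : LinearIndependent k ![x, y, z]) :
    ∃ a, LinearIndependent k ![x, y, z, a] := by
  classical
  have hne : (Submodule.span k (Set.range ![x, y, z])) ≠ ⊤ := by
    intro htop
    have h1 := finrank_span_eq_card h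
    rw [htop, finrank_top] at h1
    simp at h1
  obtain ⟨a, ha⟩ : ∃ a, a ∉ Submodule.span k (Set.range ![x, y, z]) := by
    by_contra hcon
    push Not at hcon
    exact hne (eq_top_iff.mpr fun a _ => hcon a)
  refine ⟨a, ?_⟩
  have h2 := h.finSnoc ha
  have h3 : ![x, y, z, a] = Fin.snoc ![x, y, z] a := by
    funext i
    fin_cases i <;> rfl
  rw [h3]
  exact h2

section Pts

variable {U1 : Finset V} {p : V → Vec k} {d e : V} {t : k}

lemma liq2 (hgp : GenPos p (U1 : Set V)) (hd : d ∈ U1) (he : e ∈ U1) (hde : d ≠ e) (ht : t ≠ 0)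
    {v v' : V} (hv : v ∈ U1) (hv' : v' ∈ U1) (hvv : v ≠ v') (hd' : v' ≠ d) (he' : v' ≠ e) :
    LinearIndependent k ![p v, p e - t • p d, p v'] := by
  rw [Fintype.linearIndependent_iff]
  intro g hg
  simp only [Fin.sum_univ_three, Matrix.cons_val_zero, Matrix.cons_val_one, Matrix.cons_val] at hg
  have key : g 0 = 0 ∧ g 1 = 0 ∧ g 2 = 0 := by
    by_cases hvd : v = d
    · subst hvd
      have h3 := li3 hgp hd he hv' hde (Ne.symm hd') (Ne.symm he')
      rw [Fintype.linearIndependent_iff] at h3
      have h4 := h3 ![g 0 - t * g 1, g 1, g 2] (by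
        rw [← hg]
        simp only [Fin.sum_univ_three, Matrix.cons_val_zero, Matrix.cons_val_one,
          Matrix.cons_val, smul_sub, sub_smul, mul_smul, smul_comm t]
        abel)
      have a0 := h4 0
      have a1 := h4 1
      have a2 := h4 2
      simp only [Matrix.cons_val_zero, Matrix.cons_val_one, Matrix.cons_val] at a0 a1 a2
      rw [a1, mul_zero, sub_zero] at a0
      exact ⟨a0, a1, a2⟩
    · by_cases hve : v = e
      · subst hve
        have h3 := li3 hgp hv hd hv' (Ne.symm hde) (Ne.symm he') (Ne.symm hd')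
        rw [Fintype.linearIndependent_iff] at h3
        have h4 := h3 ![g 0 + g 1, -(t * g 1), g 2] (by
          rw [← hg]
          simp only [Fin.sum_univ_three, Matrix.cons_val_zero, Matrix.cons_val_one,
            Matrix.cons_val, smul_sub, add_smul, mul_smul, smul_comm t, neg_smul]
          abel)
        have a0 := h4 0
        have a1 := h4 1
        have a2 := h4 2
        simp only [Matrix.cons_val_zero, Matrix.cons_val_one, Matrix.cons_val] at a0 a1 a2
        have a1' : g 1 = 0 := by
          have := neg_eq_zero.mp a1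
          exact (mul_eq_zero.mp this).resolve_left ht
        rw [a1', add_zero] at a0
        exact ⟨a0, a1', a2⟩
      · have h3 := hgp.four hv he hd hv' hve hvd hvv (Ne.symm hde) (Ne.symm he') (Ne.symm hd')
        rw [Fintype.linearIndependent_iff] at h3
        have h4 := h3 ![g 0, g 1, -(t * g 1), g 2] (by
          rw [← hg]
          simp only [Fin.sum_univ_four, Matrix.cons_val_zero, Matrix.cons_val_one,
            Matrix.cons_val, smul_sub, mul_smul, smul_comm t, neg_smul]
          abel)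
        have a0 := h4 0
        have a1 := h4 1
        have a3 := h4 3
        simp only [Matrix.cons_val_zero, Matrix.cons_val_one, Matrix.cons_val] at a0 a1 a3
        exact ⟨a0, a1, a3⟩
  intro i
  fin_cases i
  · exact key.1
  · exact key.2.1
  · exact key.2.2

lemma liq1 (hgp : GenPos p (U1 : Set V)) (hd : d ∈ U1) (he : e ∈ U1) (hde : d ≠ e) (ht : t ≠ 0)
    {v v' : V} (hv : v ∈ U1) (hv' : v' ∈ U1) (hvv : v ≠ v') (hd' : v' ≠ d) (he' : v' ≠ e) :
    LinearIndependent k ![p v, p e - t • p d] := by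
  have h := (liq2 hgp hd he hde ht hv hv' hvv hd' he').comp (![0, 1] : Fin 2 → Fin 3) (by decide)
  convert h using 1
  funext i
  fin_cases i <;> rfl

end Pts

/-- skew maps killing `q` -/
lemma finrank_skew_le {bt : Basis (Fin 4) k (Vec k)} {x q y : Vec k}
    (hli : LinearIndependent k ![x, q, y])
    {S : Submodule k (Fin 4 → Vec k)} (h1 : ∀ b ∈ S, ∀ x, bt.constr k b x ⬝ᵥ x = 0)
    (h2 : ∀ b ∈ S, ∀ i, b i ⬝ᵥ q = 0) : finrank k S ≤ 3 := by
  classical
  obtain ⟨z, hz⟩ := exists_fourth hli
  let f : S →ₗ[k] (Fin 3 → k) :=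
    { toFun := fun b => ![bt.constr k b.1 x ⬝ᵥ y, bt.constr k b.1 x ⬝ᵥ z,
        bt.constr k b.1 y ⬝ᵥ z]
      map_add' := fun a b => by
        funext j
        fin_cases j <;> simp [add_dotProduct]
      map_smul' := fun c a => by
        funext j
        fin_cases j <;> simp }
  have hf : Function.Injective f := by
    rw [← LinearMap.ker_eq_bot, LinearMap.ker_eq_bot']
    rintro ⟨b, hb⟩ h0
    set B : Vec k →ₗ[k] Vec k := bt.constr k b with hB
    have hsk : IsSkew B := h1 b hb
    have e0 : B x ⬝ᵥ y = 0 := congrFun h0 0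
    have e1 : B x ⬝ᵥ z = 0 := congrFun h0 1
    have e2 : B y ⬝ᵥ z = 0 := congrFun h0 2
    have hbi : ∀ i, B (bt i) = b i := fun i => by simp [hB]
    have hq : B q = 0 := by
      refine eq_zero_of_dot bt.linearIndependent fun i => ?_
      rw [hsk.swap, hbi, h2 b hb i, neg_zero]
    have hx : B x = 0 := by
      refine eq_zero_of_dot hz fun i => ?_
      fin_cases i
      · exact hsk x
      · show B x ⬝ᵥ q = 0
        rw [hsk.swap, hq, zero_dotProduct, neg_zero]
      · exact e0
      · exact e1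
    have hy : B y = 0 := by
      refine eq_zero_of_dot hz fun i => ?_
      fin_cases i
      · show B y ⬝ᵥ x = 0
        rw [hsk.swap, hx, zero_dotProduct, neg_zero]
      · show B y ⬝ᵥ q = 0
        rw [hsk.swap, hq, zero_dotProduct, neg_zero]
      · exact hsk y
      · exact e2
    have hB0 : B = 0 := hsk.eq_zero_of_three hli hx hq hy
    refine Subtype.ext (funext fun i => ?_)
    show b i = 0
    rw [← hbi, hB0, LinearMap.zero_apply]
  have := LinearMap.finrank_le_finrank_of_injective hf
  simpa using this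

/-- the conditions at the points `τ i` -/
def S0 (bt : Basis (Fin 4) k (Vec k)) (q y0 : Vec k) : Submodule k (Fin 4 → Vec k) where
  carrier := {b | (∀ i, b i ⬝ᵥ bt i = 0) ∧ (∀ i, b i ⬝ᵥ q = 0) ∧
    bt.constr k b y0 ⬝ᵥ y0 = 0}
  add_mem' := by
    rintro a b ⟨h1, h2, h4⟩ ⟨h1', h2', h4'⟩
    refine ⟨fun i => ?_, fun i => ?_, ?_⟩
    · simp [add_dotProduct, h1 i, h1' i]
    · simp [add_dotProduct, h2 i, h2' i]
    · rw [map_add, LinearMap.add_apply, add_dotProduct, h4, h4', add_zero]
  zero_mem' := by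
    refine ⟨fun i => by simp, fun i => by simp, ?_⟩
    rw [map_zero]; simp
  smul_mem' := by
    rintro r a ⟨h1, h2, h4⟩
    refine ⟨fun i => ?_, fun i => ?_, ?_⟩
    · simp [h1 i]
    · simp [h2 i]
    · rw [map_smul, LinearMap.smul_apply, smul_dotProduct, h4, smul_zero]

/-- vanishing of the form at `x` -/
def SV (bt : Basis (Fin 4) k (Vec k)) (S : Submodule k (Fin 4 → Vec k)) (x : Vec k) :
    Submodule k (Fin 4 → Vec k) where
  carrier := {b | b ∈ S ∧ bt.constr k b x ⬝ᵥ x = 0}
  add_mem' := by
    rintro a b ⟨h1, h4⟩ ⟨h1', h4'⟩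
    refine ⟨Submodule.add_mem _ h1 h1', ?_⟩
    rw [map_add, LinearMap.add_apply, add_dotProduct, h4, h4', add_zero]
  zero_mem' := by
    refine ⟨Submodule.zero_mem _, ?_⟩
    rw [map_zero]; simp
  smul_mem' := by
    rintro r a ⟨h1, h4⟩
    refine ⟨Submodule.smul_mem _ _ h1, ?_⟩
    rw [map_smul, LinearMap.smul_apply, smul_dotProduct, h4, smul_zero]

lemma finrank_S0 {bt : Basis (Fin 4) k (Vec k)} {q y0 : Vec k}
    (h : ∀ i, LinearIndependent k ![bt i, q, y0]) {i₀ : Fin 4} (hc : bt.coord i₀ y0 ≠ 0) :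
    finrank k (S0 bt q y0) ≤ 7 := by
  classical
  -- the space without the last condition
  let P : Submodule k (Fin 4 → Vec k) :=
    Submodule.pi Set.univ fun i => annV ![bt i, q]
  have h2 : ∀ i, finrank k (annV ![bt i, q]) = 2 := by
    intro i
    have h3 : LinearIndependent k ![bt i, q] := by
      have := (h i).comp (![0, 1] : Fin 2 → Fin 3) (by decide)
      convert this using 1
      funext j
      fin_cases j <;> rfl
    have := finrank_annV h3
    omega
  have hP : finrank k P ≤ 8 := by
    let f : P →ₗ[k] (∀ i, annV ![bt i, q]) :=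
      { toFun := fun b i => ⟨b.1 i, b.2 i (Set.mem_univ _)⟩
        map_add' := fun a b => rfl
        map_smul' := fun c a => rfl }
    have hf : Function.Injective f := by
      intro a b hab
      refine Subtype.ext (funext fun i => ?_)
      exact congrArg Subtype.val (congrFun hab i)
    have := LinearMap.finrank_le_finrank_of_injective hf
    rw [Module.finrank_pi_fintype] at this
    simpa [h2] using this
  have hle : S0 bt q y0 < P := by
    refine lt_of_le_of_ne ?_ ?_
    · intro b hb i _ j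
      fin_cases j
      · exact hb.1 i
      · exact hb.2.1 i
    · intro heq
      obtain ⟨z, hz⟩ := exists_dot_eq (h i₀) ![0, 0, 1]
      have hmem : (Pi.single i₀ z : Fin 4 → Vec k) ∈ P := by
        intro i _ j
        by_cases hi : i = i₀
        · subst hi
          rw [Pi.single_eq_same]
          fin_cases j
          · exact hz 0
          · exact hz 1
        · rw [Pi.single_eq_of_ne hi, zero_dotProduct]
      rw [← heq] at hmem
      have h3 := hmem.2.2
      rw [Basis.constr_apply_fintype, Finset.sum_eq_single i₀] at h3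
      · rw [Pi.single_eq_same, smul_dotProduct] at h3
        have hz2 : z ⬝ᵥ y0 = 1 := hz 2
        rw [hz2, smul_eq_mul, mul_one] at h3
        exact hc h3
      · intro i _ hi
        rw [Pi.single_eq_of_ne hi, smul_zero]
      · intro hcon
        exact absurd (Finset.mem_univ _) hcon
  have := Submodule.finrank_lt_finrank_of_lt hle
  omega

lemma card_aux1 : ∀ i₀ : Fin 4, Fintype.card {i : Fin 4 // i ≠ i₀} = 3 := by decide

lemma card_aux2 : ∀ i₀ i₁ : Fin 4, i₁ ≠ i₀ →
    Fintype.card {i : Fin 4 // i ≠ i₀ ∧ i ≠ i₁} = 2 := by decide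

/-- the case `y0 = bt i₀` -/
lemma finrank_W3_of_eq {bt : Basis (Fin 4) k (Vec k)} {q y0 y2 y3 : Vec k} {i₀ i₁ : Fin 4}
    (hy : bt i₀ = y0) (h : ∀ i, i ≠ i₀ → LinearIndependent k ![bt i, q, y0])
    (h10 : i₁ ≠ i₀) (hc : bt.coord i₁ q ≠ 0) : finrank k (W3 bt q y0 y2 y3) ≤ 5 := by
  classical
  have hex : ∀ i, ∃ a : Vec k, i ≠ i₀ → LinearIndependent k ![bt i, q, y0, a] := by
    intro i
    by_cases hi : i = i₀
    · exact ⟨0, fun h => absurd hi h⟩
    · obtain ⟨a, ha⟩ := exists_fourth (h i hi)
      exact ⟨a, fun _ => ha⟩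
  choose a ha using hex
  let f : W3 bt q y0 y2 y3 →ₗ[k] (({i // i ≠ i₀} → k) × ({i // i ≠ i₀ ∧ i ≠ i₁} → k)) :=
    { toFun := fun b => (fun i => b.1 i.1 ⬝ᵥ a i.1, fun i => b.1 i.1 ⬝ᵥ y0)
      map_add' := fun b b' => by
        refine Prod.ext (funext fun i => ?_) (funext fun i => ?_) <;> simp [add_dotProduct]
      map_smul' := fun c b => by
        refine Prod.ext (funext fun i => ?_) (funext fun i => ?_) <;> simp }
  have hf : Function.Injective f := by
    rw [← LinearMap.ker_eq_bot, LinearMap.ker_eq_bot']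
    rintro ⟨b, hb⟩ h0
    have b1 := hb.1
    have b2 := hb.2.1
    have b3 := hb.2.2.1
    have e1 : ∀ i, i ≠ i₀ → b i ⬝ᵥ a i = 0 := fun i hi =>
      congrFun (congrArg Prod.fst h0) ⟨i, hi⟩
    have e2 : ∀ i, i ≠ i₀ → i ≠ i₁ → b i ⬝ᵥ y0 = 0 := fun i hi hi' =>
      congrFun (congrArg Prod.snd h0) ⟨i, hi, hi'⟩
    have b3' := b3 i₀ hy
    rw [hy] at b3'
    -- the last product
    have e3 : b i₁ ⬝ᵥ y0 = 0 := by
      have h5 : b i₀ ⬝ᵥ q = ∑ i, bt.coord i q * (b i₀ ⬝ᵥ bt i) := by
        conv_lhs => rw [← bt.sum_repr q]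
        rw [dotProduct_sum]
        refine Finset.sum_congr rfl fun i _ => ?_
        rw [dotProduct_smul, smul_eq_mul, Basis.coord_apply]
      rw [b2 i₀, Finset.sum_eq_single i₁] at h5
      · have h6 := (mul_eq_zero.mp h5.symm).resolve_left hc
        have h7 := b3' i₁
        rw [h6, zero_add] at h7
        exact h7
      · intro i _ hi
        by_cases hi0 : i = i₀
        · rw [hi0, b1 i₀, mul_zero]
        · have h7 := b3' i
          rw [e2 i hi0 hi, add_zero] at h7
          rw [h7, mul_zero]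
      · intro hcon
        exact absurd (Finset.mem_univ _) hcon
    have e4 : ∀ i, i ≠ i₀ → b i ⬝ᵥ y0 = 0 := by
      intro i hi
      by_cases hi1 : i = i₁
      · rw [hi1]; exact e3
      · exact e2 i hi hi1
    have e5 : ∀ i, i ≠ i₀ → b i = 0 := by
      intro i hi
      refine eq_zero_of_dot (ha i hi) fun j => ?_
      fin_cases j
      · exact b1 i
      · exact b2 i
      · exact e4 i hi
      · exact e1 i hi
    have e6 : b i₀ = 0 := by
      refine eq_zero_of_dot bt.linearIndependent fun i => ?_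
      by_cases hi : i = i₀
      · rw [hi]; exact b1 i₀
      · have h7 := b3' i
        rw [e4 i hi, add_zero] at h7
        exact h7
    refine Subtype.ext (funext fun i => ?_)
    by_cases hi : i = i₀
    · rw [hi]; exact e6
    · exact e5 i hi
  have h5 := LinearMap.finrank_le_finrank_of_injective hf
  have h6 : finrank k (({i // i ≠ i₀} → k) × ({i // i ≠ i₀ ∧ i ≠ i₁} → k)) = 5 := by
    rw [Module.finrank_prod, Module.finrank_fintype_fun_eq_card,
      Module.finrank_fintype_fun_eq_card]
    rw [card_aux1 i₀, card_aux2 i₀ i₁ h10]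
  omega

/-- `τ i` four points of `U1`, `y0 ∈ U1`, rod `d e`, `q = p e - t p d`; `y2 y3` generic. -/
theorem eventually_W3 [Infinite k] {U1 : Finset V} {p : V → Vec k}
    (hgp : GenPos p (U1 : Set V)) {τ : Fin 4 → V} (hτ : Function.Injective τ)
    (hτU : ∀ i, τ i ∈ U1) {y0 d e : V} (h0 : y0 ∈ U1) (hd : d ∈ U1) (he : e ∈ U1) (hde : d ≠ e)
    (h0d : y0 ≠ d) (h0e : y0 ≠ e) {t : k} (ht : t ≠ 0) (bt : Basis (Fin 4) k (Vec k))
    (hbt : ∀ i, bt i = p (τ i)) :
    ∀ᶠ x2 in gen k (Vec k), ∀ᶠ x3 in gen k (Vec k),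
      finrank k (W3 bt (p e - t • p d) (p y0) x2 x3) ≤ 5 := by
  classical
  set q : Vec k := p e - t • p d with hq
  have hli : ∀ i, τ i ≠ y0 → LinearIndependent k ![bt i, q, p y0] := by
    intro i hi
    rw [hbt, hq]
    exact liq2 hgp hd he hde ht (hτU i) h0 hi h0d h0e
  by_cases hex : ∃ i₀, τ i₀ = y0
  · obtain ⟨i₀, hi₀⟩ := hex
    have h1 : ∃ i₁, i₁ ≠ i₀ ∧ bt.coord i₁ q ≠ 0 := by
      by_contra hcon
      push Not at hcon
      have h5 : q = bt.coord i₀ q • p y0 := by
        conv_lhs => rw [← bt.sum_repr q]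
        rw [Finset.sum_eq_single i₀]
        · rw [hbt, hi₀, Basis.coord_apply]
        · intro i _ hi
          have := hcon i hi
          rw [Basis.coord_apply] at this
          rw [this, zero_smul]
        · intro hcon
          exact absurd (Finset.mem_univ _) hcon
      obtain ⟨i, hi⟩ : ∃ i, i ≠ i₀ := exists_ne i₀
      have h6 := hli i (fun h => hi (hτ (h.trans hi₀.symm)))
      rw [Fintype.linearIndependent_iff] at h6
      have h7 := h6 ![0, 1, -(bt.coord i₀ q)] (by
        simp only [Fin.sum_univ_three, Matrix.cons_val_zero, Matrix.cons_val_one,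
          Matrix.cons_val, zero_smul, one_smul, neg_smul, zero_add]
        rw [← sub_eq_add_neg, sub_eq_zero]
        exact h5) 1
      simp at h7
    obtain ⟨i₁, h10, hc⟩ := h1
    refine Eventually.of_forall fun x2 => Eventually.of_forall fun x3 => ?_
    exact finrank_W3_of_eq (by rw [hbt, hi₀])
      (fun i hi => hli i (fun h => hi (hτ (h.trans hi₀.symm)))) h10 hc
  · push Not at hex
    have hli' : ∀ i, LinearIndependent k ![bt i, q, p y0] := fun i => hli i (hex i)
    have hc : bt.coord 0 (p y0) ≠ 0 := by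
      intro h0'
      have h5 := bt.sum_repr (p y0)
      rw [Fin.sum_univ_four] at h5
      rw [Basis.coord_apply] at h0'
      rw [h0', zero_smul, zero_add, hbt, hbt, hbt] at h5
      have h6 := hgp.four h0 (hτU 1) (hτU 2) (hτU 3) (hex 1).symm (hex 2).symm (hex 3).symm
        (fun h => absurd (hτ h) (by decide)) (fun h => absurd (hτ h) (by decide))
        (fun h => absurd (hτ h) (by decide))
      rw [Fintype.linearIndependent_iff] at h6
      have h7 := h6 ![-1, bt.repr (p y0) 1, bt.repr (p y0) 2, bt.repr (p y0) 3] (by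
        simp only [Fin.sum_univ_four, Matrix.cons_val_zero, Matrix.cons_val_one,
          Matrix.cons_val, neg_smul, one_smul]
        rw [add_assoc, add_assoc, neg_add_eq_zero, ← add_assoc]
        exact h5.symm) 0
      simp at h7
    have h7 := finrank_S0 hli' hc
    have hW : ∀ x2 x3, W3 bt q (p y0) x2 x3 ≤ SV bt (SV bt (S0 bt q (p y0)) x2) x3 := by
      rintro x2 x3 b ⟨b1, b2, -, b4, b5, b6⟩
      exact ⟨⟨⟨b1, b2, b4⟩, b5⟩, b6⟩
    have hS2 : ∀ b ∈ S0 bt q (p y0), ∀ i, b i ⬝ᵥ q = 0 := fun b hb => hb.2.1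
    have hskew : ∀ S ≤ S0 bt q (p y0), (∀ b ∈ S, ∀ x, bt.constr k b x ⬝ᵥ x = 0) →
        ∀ x2 x3, W3 bt q (p y0) x2 x3 ≤ S → finrank k (W3 bt q (p y0) x2 x3) ≤ 5 := by
      intro S hS hv x2 x3 hle
      have h3 := finrank_skew_le (hli' 0) hv (fun b hb => hS2 b (hS hb))
      have h4 := Submodule.finrank_mono hle
      omega
    rcases eventually_drop bt (S0 bt q (p y0)) (m := 6) (by omega) with hv | hv
    · refine Eventually.of_forall fun x2 => Eventually.of_forall fun x3 => ?_
      exact hskew _ le_rfl hv x2 x3 (fun b hb => ((hW x2 x3) hb).1.1)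
    · have hSV : ∀ (S : Submodule k (Fin 4 → Vec k)) (x : Vec k), SV bt S x ≤ S :=
        fun S x b hb => hb.1
      filter_upwards [hv] with x2 hx2
      have h6 := hx2 (SV bt (S0 bt q (p y0)) x2) (hSV _ _) (fun b hb => hb.2)
      rcases eventually_drop bt (SV bt (S0 bt q (p y0)) x2) (m := 5) (by omega) with hv' | hv'
      · refine Eventually.of_forall fun x3 => ?_
        exact hskew _ (hSV _ _) hv' x2 x3 (fun b hb => ((hW x2 x3) hb).1)
      · filter_upwards [hv'] with x3 hx3
        have h5 := hx3 (SV bt (SV bt (S0 bt q (p y0)) x2) x3) (hSV _ _)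
          (fun b hb => hb.2)
        exact (Submodule.finrank_mono (hW x2 x3)).trans h5

end GR.E4
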