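import Pool.Agent.Lib.GR.E4R
import Pool.Agent.Lib.GR.E4Two
import Pool.Agent.Lib.GR.E4Pure
import Pool.Agent.Lib.GR.E4W

/-!
# Degree 7 body vertices: the last case at a position
-/

namespace GR.E4

open Module Filter

open scoped Matrix

variable {k : Type*} [Field k] [Infinite k] {V : Type*} [DecidableEq V]

namespace B3Hyp

variable {A : Finset V} {E : Finset (Sym2 V)} {u a b c d e : V} {v : Fin 3 → V}

/-- all vertices but `u`, `a`, `v 0` -/
abbrev U1 (A : Finset V) (u a : V) (v : Fin 3 → V) : Finset V := (UU A u a).erase (v 0)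

lemma mem_U1 (h : B3Hyp k A E u a b c d e v) : b ∈ U1 A u a v ∧ c ∈ U1 A u a v ∧
    d ∈ U1 A u a v ∧ e ∈ U1 A u a v := by
  have hc := h.comb
  obtain ⟨-, h1, h2, h3, h4⟩ := h.v_ne 0
  exact ⟨Finset.mem_erase.mpr ⟨h1.symm, hc.hb⟩, Finset.mem_erase.mpr ⟨h2.symm, hc.hc⟩,
    Finset.mem_erase.mpr ⟨h3.symm, hc.hd⟩, Finset.mem_erase.mpr ⟨h4.symm, hc.he⟩⟩

/-- extending a frame motion of `U - v 0` to `v 0` -/
lemma extend (h : B3Hyp k A E u a b c d e v) {p : V → Vec k} {x : Vec k} {τ : Fin 4 → V}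
    (hN : nbr (A.erase (v 0)) (E : Set (Sym2 V)) (v 0) = insert a (Finset.univ.image τ))
    {Z : V → Vec k} (hZ : Z ∈ Kg (U1 A u a v) (E : Set (Sym2 V)) p b c d e) {z : Vec k}
    (hzx : z ⬝ᵥ x = 0) (hz : ∀ i, z ⬝ᵥ p (τ i) + Z (τ i) ⬝ᵥ x = 0) :
    Function.update Z (v 0) z ∈ KK' A E u a b c d e (Function.update p (v 0) x) := by
  classical
  obtain ⟨hv, h1, h2, h3, h4⟩ := h.v_ne 0
  have key : ∀ y ∈ UU A u a, y ≠ v 0 → s(v 0, y) ∈ E →
      z ⬝ᵥ p y + Z y ⬝ᵥ x = 0 := by
    intro y hy hyv hyE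
    have hyN : y ∈ nbr (A.erase (v 0)) (E : Set (Sym2 V)) (v 0) :=
      mem_nbr.mpr ⟨Finset.mem_erase.mpr ⟨hyv, Finset.mem_of_mem_erase
        (Finset.mem_of_mem_erase hy)⟩, by exact_mod_cast hyE⟩
    rw [hN, Finset.mem_insert, Finset.mem_image] at hyN
    rcases hyN with h' | ⟨i, -, rfl⟩
    · exact absurd h' (Finset.mem_erase.mp hy).1
    · exact hz i
  refine ⟨⟨?_, ?_, ?_⟩, ?_, ?_, ?_⟩
  · intro y hy
    have hyv : y ≠ v 0 := fun h' => hy (h' ▸ hv)
    rw [Function.update_of_ne hyv]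
    exact hZ.1.1 y (fun h' => hy (Finset.mem_of_mem_erase h'))
  · intro y hy
    by_cases hyv : y = v 0
    · rw [hyv, Function.update_self, Function.update_self]; exact hzx
    · rw [Function.update_of_ne hyv, Function.update_of_ne hyv]
      exact hZ.1.2.1 y (Finset.mem_erase.mpr ⟨hyv, hy⟩)
  · intro y hy y' hy' hyy
    have hyy' : s(y, y') ∈ E := hyy
    have hne : y ≠ y' := (mk_mem_Kf.mp (h.ce.sub hyy')).1
    rw [eps_apply]
    by_cases hyv : y = v 0
    · have hyv' : y' ≠ v 0 := fun h' => hne (hyv.trans h'.symm)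
      rw [hyv, Function.update_self, Function.update_self, Function.update_of_ne hyv',
        Function.update_of_ne hyv']
      exact key y' hy' hyv' (by rw [← hyv]; exact hyy')
    · by_cases hyv' : y' = v 0
      · rw [hyv', Function.update_self, Function.update_self, Function.update_of_ne hyv,
          Function.update_of_ne hyv, add_comm]
        exact key y hy hyv (by rw [← hyv', Sym2.eq_swap]; exact hyy')
      · rw [Function.update_of_ne hyv, Function.update_of_ne hyv, Function.update_of_ne hyv',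
          Function.update_of_ne hyv']
        exact hZ.1.2.2 y (Finset.mem_erase.mpr ⟨hyv, hy⟩) y' (Finset.mem_erase.mpr ⟨hyv', hy'⟩) hyy
  · rw [Function.update_of_ne h1.symm]; exact hZ.2.1
  · rw [Function.update_of_ne h2.symm]; exact hZ.2.2.1
  · rw [Function.update_of_ne h3.symm, Function.update_of_ne h4.symm]; exact hZ.2.2.2

/-- **The last case is impossible.** -/
theorem last (h2 : (2 : k) ≠ 0) (h : B3Hyp k A E u a b c d e v) {p : V → Vec k} {t : k}
    (hp : Gd k A E u v p) {x0 : V}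
    (hx0 : IsX0 A E u a b c d e v x0)
    (hli : LinearIndependent k ![p e - t • p d, p x0, p (v 1), p (v 2)])
    (hgen : ∀ᶠ x in gen k (Vec k), PHyp A E u a b c d e v (Function.update p (v 0) x) t ∧
      ∀ᶠ x' in gen k (Vec k), GenPos (Function.update (Function.update p (v 0) x) a x')
        (insert a (UU A u a : Finset V) : Set V))
    {τ : Fin 4 → V} (hτ : Function.Injective τ) (haτ : ∀ i, a ≠ τ i)
    (hτU : ∀ i, τ i ∈ U1 A u a v)
    (hN : nbr (A.erase (v 0)) (E : Set (Sym2 V)) (v 0) = insert a (Finset.univ.image τ))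
    (bt : Basis (Fin 4) k (Vec k)) (hbt : ∀ i, bt i = p (τ i))
    (hW : finrank k (W3 bt (p e - t • p d) (p x0) (p (v 1)) (p (v 2))) ≤ 5) : False := by
  classical
  have hc := h.comb
  obtain ⟨mb, mc, md, me⟩ := h.mem_U1
  have gU := h.gpU hp
  have hU1U : U1 A u a v ⊆ UU A u a := Finset.erase_subset _ _
  have gU1 : GenPos p ((U1 A u a v : Finset V) : Set V) := fun T hT hcT =>
    gU T (hT.trans (by exact_mod_cast hU1U)) hcT
  have hUA : UU A u a ⊆ A := (Finset.erase_subset _ _).trans (Finset.erase_subset _ _)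
  have hx0U : x0 ∈ UU A u a := (mem_extN.mp ((mem_XX hx0).mpr ⟨0, rfl⟩)).1.1
  have hx01 : x0 ∈ U1 A u a v := Finset.mem_erase.mpr ⟨hx0.2.2.2.2.1 0, hx0U⟩
  have hv1 : v 1 ∈ U1 A u a v := Finset.mem_erase.mpr
    ⟨fun h' => absurd (h.inj h') (by decide), (h.v_ne 1).1⟩
  have hv2 : v 2 ∈ U1 A u a v := Finset.mem_erase.mpr
    ⟨fun h' => absurd (h.inj h') (by decide), (h.v_ne 2).1⟩
  have hloopM : ∀ Z ∈ Kg (U1 A u a v) (E : Set (Sym2 V)) p b c d e, ∀ y ∈ U1 A u a v,
      Z y ⬝ᵥ p y = 0 := fun Z hZ y hy => hZ.1.2.1 y hy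
  have hM : ∀ Z ∈ Mot (A.erase (v 0)) (E : Set (Sym2 V)) p,
      ∃ Z' ∈ Kg (U1 A u a v) (E : Set (Sym2 V)) p b c d e, ∃ S : Vec k →ₗ[k] Vec k,
      IsSkew S ∧ ∀ i, Z' (τ i) = Z (τ i) - S (p (τ i)) := by
    intro Z hZ
    have hsub : U1 A u a v ⊆ A.erase (v 0) := by
      intro y hy
      obtain ⟨h1, h2⟩ := Finset.mem_erase.mp hy
      exact Finset.mem_erase.mpr ⟨h1, hUA h2⟩
    obtain ⟨L, hL, hg⟩ := GR.exists_gauge gU1 mb mc md me hc.hbc hc.hbd hc.hbe hc.hcd hc.hce hc.hde
      hc.ebc (cut_mem_Mot_of_subset hsub hZ)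
    refine ⟨_, hg, Matrix.mulVecLin L, isSkew_of_mem_Skew hL, fun i => ?_⟩
    rw [Pi.sub_apply, cut_apply Z (hτU i), triv_apply p L (hτU i), Matrix.mulVecLin_apply]
  have hd1 : 6 ≤ finrank k (Kg (U1 A u a v) (E : Set (Sym2 V)) p b c d e) := by
    have h1 := finrank_Kg (E := (E : Set (Sym2 V))) gU1 mb mc md me hc.hbc hc.hbd
      hc.hbe hc.hcd hc.hce hc.hde hc.ebc
    have h2' : mdim (U1 A u a v) (E : Set (Sym2 V)) p = 12 := by
      rw [hp.nice.reg _ (hU1U.trans hUA) _]
      exact h.gdim_U1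
    omega
  have hτli : LinearIndependent k (fun i => p (τ i)) := by
    have : (fun i => p (τ i)) = bt := by funext i; exact (hbt i).symm
    rw [this]; exact bt.linearIndependent
  refine core_two h2 (M := Kg (U1 A u a v) (E : Set (Sym2 V)) p b c d e)
    (q := p e - t • p d) hτli hli
    (fun Z hZ => ⟨fun i => hloopM Z hZ _ (hτU i), hloopM Z hZ _ hx01, hloopM Z hZ _ hv1,
      hloopM Z hZ _ hv2⟩) hd1 ?_ bt hbt
    (pure_no_prop h.ce h.pure hp.nice hτ haτ hN bt hbt hM)
    (pure_no_factor h.ce h.pure hp.nice hτ haτ hN bt hbt hM) ?_ hW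
  · -- the conclusion at generic positions of `v 0`
    filter_upwards [hgen] with x hx Z hZ z hzx hz
    obtain ⟨hP, hgp⟩ := hx
    obtain ⟨C1, C2⟩ := h.concl h2 hP hx0 hgp
    have hmem := h.extend hN hZ hzx hz
    obtain ⟨-, hv1', -, hv3', hv4'⟩ := h.v_ne 0
    have e0 : yy x0 v 0 = x0 := rfl
    have e1 : yy x0 v 1 = v 0 := rfl
    have e2 : yy x0 v 2 = v 1 := rfl
    have e3 : yy x0 v 3 = v 2 := rfl
    have n0 : x0 ≠ v 0 := hx0.2.2.2.2.1 0
    have n1 : v 1 ≠ v 0 := (Finset.mem_erase.mp hv1).1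
    have n2 : v 2 ≠ v 0 := (Finset.mem_erase.mp hv2).1
    constructor
    · intro c0 c2 c3 c1 hsum
      have h5 := C1 _ hmem ![c0, c1, c2, c3] (by
        rw [Fin.sum_univ_four, e0, e1, e2, e3, Function.update_self,
          Function.update_of_ne n0, Function.update_of_ne n1, Function.update_of_ne n2,
          Function.update_of_ne hv3'.symm, Function.update_of_ne hv4'.symm, ← hsum]
        simp only [Matrix.cons_val_zero, Matrix.cons_val_one, Matrix.cons_val]
        abel)
      rw [Fin.sum_univ_four, e0, e1, e2, e3, Function.update_self,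
          Function.update_of_ne n0, Function.update_of_ne n1, Function.update_of_ne n2] at h5
      simp only [Matrix.cons_val_zero, Matrix.cons_val_one, Matrix.cons_val] at h5
      rw [← h5]
      abel
    · intro z0 z2 z3 hz0
      have h6 := C2 _ hmem (by
        intro j
        fin_cases j
        · show Function.update Z (v 0) z x0 = 0
          rw [Function.update_of_ne n0]; exact z0
        · show Function.update Z (v 0) z (v 0) = 0
          rw [Function.update_self]; exact hz0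
        · show Function.update Z (v 0) z (v 1) = 0
          rw [Function.update_of_ne n1]; exact z2
        · show Function.update Z (v 0) z (v 2) = 0
          rw [Function.update_of_ne n2]; exact z3)
      funext y
      by_cases hy : y = v 0
      · rw [hy]
        exact hZ.1.1 _ (by simp)
      · have := congrFun h6 y
        rwa [Function.update_of_ne hy] at this
  · intro i0 hi0
    by_contra hne
    have h7 := gU1.two (hτU i0) hx01 hne
    rw [← hbt, hi0] at h7
    have := h7.injective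
    exact absurd (this (a₁ := 0) (a₂ := 1) (by simp)) (by decide)

end B3Hyp

end GR.E4
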