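import Pool.Agent.Lib.GR.E4Loc
import Pool.Agent.Lib.GR.E4Rot

/-!
# Degree 7 body vertices: the star of the stress at `a`
-/

namespace GR.E4

open Module Filter

open scoped Matrix

variable {k : Type*} [Field k] [Infinite k] {V : Type*} [DecidableEq V]

namespace B3Hyp

variable {A : Finset V} {E : Finset (Sym2 V)} {u a b c d e : V} {v : Fin 3 → V}

/-- the external neighbours -/
noncomputable abbrev XX (A : Finset V) (E : Finset (Sym2 V)) (u a b c : V) : Finset V :=
  extN (UU A u a) (E : Set (Sym2 V)) a b c

/-- the frame motions -/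
abbrev KK' (A : Finset V) (E : Finset (Sym2 V)) (u a b c d e : V) (p : V → Vec k) :
    Submodule k (V → Vec k) := Kg (UU A u a) (E : Set (Sym2 V)) p b c d e

lemma comb (h : B3Hyp k A E u a b c d e v) :
    FrameComb (UU A u a) a b c d e (E : Set (Sym2 V)) := h.frameHyp.comb

lemma gpA (_h : B3Hyp k A E u a b c d e v) {p : V → Vec k} (hp : Gd k A E u v p) :
    GenPos p ((A.erase u : Finset V) : Set V) := fun T hT hc =>
  hp.nice.gp T (hT.trans (by exact_mod_cast Finset.erase_subset u A)) hc

lemma gpI (h : B3Hyp k A E u a b c d e v) {p : V → Vec k} (hp : Gd k A E u v p) :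
    GenPos p (insert a (UU A u a : Finset V) : Set V) := by
  have := h.gpA hp
  rw [← h.insert_U, Finset.coe_insert] at this
  exact this

lemma gpU (h : B3Hyp k A E u a b c d e v) {p : V → Vec k} (hp : Gd k A E u v p) :
    GenPos p ((UU A u a : Finset V) : Set V) := fun T hT hc =>
  h.gpA hp T (hT.trans (by exact_mod_cast Finset.erase_subset a (A.erase u))) hc

/-- the XData at a good position -/
theorem xdata_p (h : B3Hyp k A E u a b c d e v) {p : V → Vec k} (hp : Gd k A E u v p) {t : k}
    (ht : t ≠ 0) (hT : Mot (A.erase u) (E : Set (Sym2 V)) p ≤ TB p a b c d e t) :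
    ∃ s J a', XData (KK' A E u a b c d e p) (UU A u a) (XX A E u a b c) p b c d e (p a) t s J a' := by
  have hi := h.insert_U
  refine xdata_at h.comb (h.gpI hp) ht (by rw [hi]; exact hT) ?_ ?_ (by rw [hi]; exact hp.good)
  · rw [hi]
    have h1 := h.ce.finrank_inf_RG hp.nice h.tb.mem
    have h2 : (nbr (A.erase u) (E : Set (Sym2 V)) u : Set V) = {a, b, c, d, e} := by
      rw [h.lab.eq]; push_cast; rfl
    rw [h2] at h1
    exact h1
  · rw [hi, hp.nice.reg _ (Finset.erase_subset u A) _]
    exact h.ce.gdim_erase h.tb.mem h.tb.nbr_card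

theorem xdata_x (h : B3Hyp k A E u a b c d e v) {p : V → Vec k} {x : Vec k}
    (hp : Gd k A E u v (Function.update p a x)) {t : k} (ht : t ≠ 0)
    (hT : Mot (A.erase u) (E : Set (Sym2 V)) (Function.update p a x) ≤
      TB (Function.update p a x) a b c d e t) :
    ∃ s J a', XData (KK' A E u a b c d e p) (UU A u a) (XX A E u a b c) p b c d e x t s J a' := by
  obtain ⟨s, J, a', hx⟩ := h.xdata_p hp ht hT
  refine ⟨s, J, a', ?_⟩
  have h1 : KK' A E u a b c d e (Function.update p a x) = KK' A E u a b c d e p :=
    Kg_update h.comb.hw h.comb.he p x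
  rw [h1, Function.update_self] at hx
  exact XData_update h.comb.hw hx

/-- splitting sums over `U` against the star `s` -/
lemma sum_star (h : B3Hyp k A E u a b c d e v) {p : V → Vec k} {K : Submodule k (V → Vec k)}
    {x : Vec k} {t : k} {s : V → k} {J : Finset (Finset V)} {a' : Finset V → V → k}
    (hx : XData K (UU A u a) (XX A E u a b c) p b c d e x t s J a') {R : Type*} [AddCommGroup R]
    [Module k R] (f : V → R) (hb : s b • f b = 0) (hc : s c • f c = 0) :
    ∑ y ∈ UU A u a, s y • f y = f e - t • f d + ∑ y ∈ XX A E u a b c, s y • f y := by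
  classical
  obtain ⟨x0, h1, h2, h3, h4, h5, hX'⟩ := h.exists_ext
  have hX : XX A E u a b c = {x0, v 0, v 1, v 2} := hX'
  have hXU : XX A E u a b c ⊆ UU A u a := fun y hy => (mem_extN.mp hy).1.1
  have hd : d ∉ XX A E u a b c := by
    rw [hX]
    simp only [Finset.mem_insert, Finset.mem_singleton, not_or]
    exact ⟨h3.symm, (h.v_ne 0).2.2.2.1.symm, (h.v_ne 1).2.2.2.1.symm, (h.v_ne 2).2.2.2.1.symm⟩
  have he : e ∉ XX A E u a b c := by
    rw [hX]
    simp only [Finset.mem_insert, Finset.mem_singleton, not_or]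
    exact ⟨h4.symm, (h.v_ne 0).2.2.2.2.symm, (h.v_ne 1).2.2.2.2.symm, (h.v_ne 2).2.2.2.2.symm⟩
  have hde := h.lab.de
  have hsub : insert e (insert d (XX A E u a b c)) ⊆ UU A u a := by
    intro y hy
    simp only [Finset.mem_insert] at hy
    rcases hy with rfl | rfl | hy
    · exact h.comb.he
    · exact h.comb.hd
    · exact hXU hy
  rw [← Finset.sum_subset hsub, Finset.sum_insert, Finset.sum_insert hd, hx.se, hx.sd, one_smul,
    neg_smul]
  · abel
  · simp only [Finset.mem_insert, not_or]
    exact ⟨hde.symm, he⟩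
  · intro y _ hy'
    by_cases hs : s y = 0
    · rw [hs, zero_smul]
    · simp only [Finset.mem_insert, not_or] at hy'
      rcases hx.supp y hs with h' | h' | h' | h' | h'
      · rw [h']; exact hb
      · rw [h']; exact hc
      · exact absurd h' hy'.2.1
      · exact absurd h' hy'.1
      · exact absurd h' hy'.2.2

/-- **The star of the stress is zero at `v i` if `v i` is not in the block of `a`.** -/
theorem sv_zero (h : B3Hyp k A E u a b c d e v) {p : V → Vec k} (hp : Gd k A E u v p) {t : k}
    (ht : t ≠ 0) (hT : Mot (A.erase u) (E : Set (Sym2 V)) p ≤ TB p a b c d e t) {s : V → k}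
    {J : Finset (Finset V)} {a' : Finset V → V → k}
    (hx : XData (KK' A E u a b c d e p) (UU A u a) (XX A E u a b c) p b c d e (p a) t s J a')
    {i : Fin 3} (hnot : ¬ InBlock k A E u (v i) d e a) : s (v i) = 0 := by
  classical
  have hcomb := h.comb
  have haA : a ∈ A.erase u := nbr_subset _ _ _ (h.tb.mem_nbr (x := a) (by simp))
  have hsubU : ∀ y ∈ UU A u a, y ∈ A.erase u := fun y hy => Finset.mem_of_mem_erase hy
  have hsub : circ A E u a d e ⊆ Kf (A.erase u) := by
    intro f hf
    simp only [circ, Finset.mem_insert] at hf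
    rcases hf with rfl | rfl | hf
    · exact mk_mem_Kf.mpr ⟨h.lab.ae, haA, hsubU _ hcomb.he⟩
    · exact mk_mem_Kf.mpr ⟨h.lab.ad, haA, hsubU _ hcomb.hd⟩
    · exact (hp.ex 0).rest_sub hf
  have hMU : Mot ((A.erase u).erase a) (circ A E u a d e : Set (Sym2 V)) p =
      Mot (UU A u a) (E : Set (Sym2 V)) p := by
    refine Mot_congr p fun y hy z hz => ?_
    constructor
    · intro hf
      have hf' : s(y, z) ∈ circ A E u a d e := hf
      simp only [circ, Finset.mem_insert] at hf'
      rcases hf' with h' | h' | h'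
      · exfalso
        rcases Sym2.eq_iff.mp h' with ⟨h1, -⟩ | ⟨-, h1⟩
        · exact (Finset.mem_erase.mp hy).1 h1
        · exact (Finset.mem_erase.mp hz).1 h1
      · exfalso
        rcases Sym2.eq_iff.mp h' with ⟨h1, -⟩ | ⟨-, h1⟩
        · exact (Finset.mem_erase.mp hy).1 h1
        · exact (Finset.mem_erase.mp hz).1 h1
      · exact rest_subset _ _ h'
    · intro hf
      have hf' : s(y, z) ∈ E := hf
      show s(y, z) ∈ (circ A E u a d e : Set (Sym2 V))
      have : s(y, z) ∈ circ A E u a d e := by
        simp only [circ, Finset.mem_insert]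
        right; right
        refine mem_rest.mpr ⟨hf', ?_⟩
        intro w hw
        rcases Sym2.mem_iff.mp hw with rfl | rfl
        · exact Finset.mem_of_mem_erase hy
        · exact Finset.mem_of_mem_erase hz
      exact this
  obtain ⟨c₀, hc₀⟩ := hx.equil
  obtain ⟨ω, hω, hωs⟩ := exists_stress_of_dep (A := A.erase u) hsub (v := a)
    (c := fun y => if y ∈ UU A u a then s y else 0) (c₀ := c₀)
    (by
      intro j hj
      by_cases hjU : j ∈ UU A u a
      · simp only [hjU, if_true] at hj
        rcases hx.supp j hj with h' | h' | h' | h' | h'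
        · rw [h']
          simp only [circ, Finset.mem_insert]
          right; right
          refine mem_rest.mpr ⟨h.eab, ?_⟩
          intro w hw
          rcases Sym2.mem_iff.mp hw with rfl | rfl
          · exact haA
          · exact hsubU _ hcomb.hb
        · rw [h']
          simp only [circ, Finset.mem_insert]
          right; right
          refine mem_rest.mpr ⟨h.eac, ?_⟩
          intro w hw
          rcases Sym2.mem_iff.mp hw with rfl | rfl
          · exact haA
          · exact hsubU _ hcomb.hc
        · rw [h']; simp [circ]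
        · rw [h']; simp [circ]
        · simp only [circ, Finset.mem_insert]
          right; right
          refine mem_rest.mpr ⟨by exact_mod_cast (mem_extN.mp h').1.2, ?_⟩
          intro w hw
          rcases Sym2.mem_iff.mp hw with rfl | rfl
          · exact haA
          · exact hsubU _ hjU
      · simp [hjU] at hj)
    (by
      rw [← hc₀]
      exact Finset.sum_congr rfl fun y hy => by rw [if_pos hy])
    (by
      intro Z hZ
      rw [hMU] at hZ
      obtain ⟨L, hL, hZ'⟩ := GR.exists_gauge (h.gpU hp) hcomb.hb hcomb.hc hcomb.hd hcomb.he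
        hcomb.hbc hcomb.hbd hcomb.hbe hcomb.hcd hcomb.hce hcomb.hde hcomb.ebc hZ
      have e0 : ∑ y ∈ (A.erase u).erase a, (if y ∈ UU A u a then s y else 0) * (Z y ⬝ᵥ p a)
          = ∑ y ∈ UU A u a, s y * (Z y ⬝ᵥ p a) :=
        Finset.sum_congr rfl fun y hy => by rw [if_pos hy]
      rw [e0]
      have e1 : ∑ y ∈ UU A u a, s y * ((Z - triv (UU A u a) p L) y ⬝ᵥ p a) = 0 := by
        have h1 := h.sum_star hx (fun y => (Z - triv (UU A u a) p L) y ⬝ᵥ p a)
          (by simp only [Kg_zb hZ', zero_dotProduct, smul_zero])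
          (by simp only [Kg_zc hZ', zero_dotProduct, smul_zero])
        simp only [smul_eq_mul] at h1
        rw [h1]
        exact hx.virt _ hZ'
      have e2 : ∑ y ∈ UU A u a, s y * ((triv (UU A u a) p L) y ⬝ᵥ p a) = 0 := by
        have h1 : ∀ y ∈ UU A u a, s y * ((triv (UU A u a) p L) y ⬝ᵥ p a) =
            -((L *ᵥ p a) ⬝ᵥ (s y • p y)) := by
          intro y hy
          rw [triv_apply p L hy, Skew.dot_eq hL, dotProduct_smul, smul_eq_mul]
          ring
        rw [Finset.sum_congr rfl h1, Finset.sum_neg_distrib, ← dotProduct_sum, hc₀,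
          dotProduct_smul, Skew.dot_self hL, smul_zero, neg_zero]
      have e3 : ∑ y ∈ UU A u a, s y * (Z y ⬝ᵥ p a) =
          ∑ y ∈ UU A u a, s y * ((Z - triv (UU A u a) p L) y ⬝ᵥ p a) +
          ∑ y ∈ UU A u a, s y * ((triv (UU A u a) p L) y ⬝ᵥ p a) := by
        rw [← Finset.sum_add_distrib]
        refine Finset.sum_congr rfl fun y _ => ?_
        simp only [Pi.sub_apply, sub_dotProduct]
        ring
      rw [e3, e1, e2, add_zero])
  have hvU := (h.v_ne i).1
  have h0 := (hp.ex i).star_zero h.lab ht hT (w := a) (Or.inl rfl) hnot hω a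
  rw [Sym2.eq_swap, hωs _ (h.a_ne i)] at h0
  simpa [hvU] using h0

end B3Hyp

end GR.E4
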