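import Pool.Agent.Lib.GR.Basic

/-!
# Equilibrium form of stresses

`force A p ω v = ∑ w ∈ A, ω s(v, w) • p w`.  A function `ω` supported on the graph `E` (with all
ends in `A`) is a stress iff `force A p ω v` is a multiple of `p v` for every `v`.
-/

set_option linter.unusedSectionVars false

namespace GR

open Filter Module

open scoped Matrix

variable {k : Type*} [Field k] {V : Type*}

/-- The vector `∑ w ∈ A, ω s(v, w) • p w`. -/
def force (A : Finset V) (p : V → Vec k) (ω : Sym2 V → k) (v : V) : Vec k :=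
  ∑ w ∈ A, ω s(v, w) • p w

lemma force_add (A : Finset V) (p : V → Vec k) (ω ω' : Sym2 V → k) (v : V) :
    force A p (ω + ω') v = force A p ω v + force A p ω' v := by
  simp only [force, Pi.add_apply, add_smul, Finset.sum_add_distrib]

lemma force_smul (A : Finset V) (p : V → Vec k) (c : k) (ω : Sym2 V → k) (v : V) :
    force A p (c • ω) v = c • force A p ω v := by
  simp only [force, Pi.smul_apply, smul_eq_mul, mul_smul, Finset.smul_sum]

lemma force_sub (A : Finset V) (p : V → Vec k) (ω ω' : Sym2 V → k) (v : V) :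
    force A p (ω - ω') v = force A p ω v - force A p ω' v := by
  simp only [force, Pi.sub_apply, sub_smul, Finset.sum_sub_distrib]

lemma force_mono {A A' : Finset V} (h : A ⊆ A') (p : V → Vec k) {ω : Sym2 V → k} (v : V)
    (hω : ∀ w ∈ A', w ∉ A → ω s(v, w) = 0) : force A' p ω v = force A p ω v := by
  refine (Finset.sum_subset h ?_).symm
  intro w hw hwA
  rw [hω w hw hwA, zero_smul]

lemma force_eq_zero_of_notMem {A : Finset V} {E : Finset (Sym2 V)}
    (hE : ∀ e ∈ E, ∀ v ∈ e, v ∈ A) {p : V → Vec k} {ω : Sym2 V → k}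
    (hω : ∀ e, e ∉ E → ω e = 0) {v : V} (hv : v ∉ A) : force A p ω v = 0 := by
  refine Finset.sum_eq_zero fun w _ => ?_
  rw [hω s(v, w) (fun h => hv (hE _ h v (Sym2.mem_mk_left v w))), zero_smul]

/-- A covector orthogonal to everything orthogonal to `p` is a multiple of `p`. -/
lemma exists_smul_of_forall_dot {p f : Vec k} (h : ∀ z : Vec k, z ⬝ᵥ p = 0 → z ⬝ᵥ f = 0) :
    ∃ c : k, f = c • p := by
  by_cases hp : p = 0
  · subst hp
    refine ⟨0, ?_⟩
    have h1 : ∀ z : Vec k, z ⬝ᵥ f = 0 := fun z => h z (by simp)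
    ext i
    have := h1 (Pi.single i 1)
    simpa using this
  · obtain ⟨i, hi⟩ : ∃ i, p i ≠ 0 := by
      by_contra hcon
      push Not at hcon
      exact hp (funext hcon)
    refine ⟨f i / p i, ?_⟩
    ext j
    have h1 : (p i • Pi.single j (1 : k) - p j • Pi.single i (1 : k) : Vec k) ⬝ᵥ p = 0 := by
      simp only [sub_dotProduct, smul_dotProduct, single_dotProduct, one_mul, smul_eq_mul]
      ring
    have h2 := h _ h1
    simp only [sub_dotProduct, smul_dotProduct, single_dotProduct, one_mul, smul_eq_mul] at h2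
    rw [Pi.smul_apply, smul_eq_mul]
    field_simp
    linear_combination h2

/-- The virtual work of a function on pairs. -/
theorem sum_epsS_eq [DecidableEq V] {A : Finset V} {E : Finset (Sym2 V)}
    (hE : ∀ e ∈ E, ∀ v ∈ e, v ∈ A) {p : V → Vec k} {ω : Sym2 V → k}
    (hω : ∀ e, e ∉ E → ω e = 0) {Z : V → Vec k} (hZ : Z ∈ Mot0 p) :
    ∑ e ∈ E, ω e * epsS p e Z = ∑ v ∈ A, Z v ⬝ᵥ force A p ω v := by
  have h1 : ∑ v ∈ A, Z v ⬝ᵥ force A p ω v =
      ∑ vw ∈ A ×ˢ A, ω s(vw.1, vw.2) * (Z vw.1 ⬝ᵥ p vw.2) := by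
    rw [Finset.sum_product]
    refine Finset.sum_congr rfl fun v _ => ?_
    rw [force, dotProduct_sum]
    refine Finset.sum_congr rfl fun w _ => ?_
    rw [dotProduct_smul, smul_eq_mul]
  have h2 : ∑ vw ∈ A ×ˢ A, ω s(vw.1, vw.2) * (Z vw.1 ⬝ᵥ p vw.2) =
      ∑ vw ∈ (A ×ˢ A).filter (fun vw => s(vw.1, vw.2) ∈ E),
        ω s(vw.1, vw.2) * (Z vw.1 ⬝ᵥ p vw.2) := by
    refine (Finset.sum_filter_of_ne ?_).symm
    intro vw _ hne
    by_contra hcon
    apply hne
    rw [hω _ hcon, zero_mul]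
  rw [h1, h2, ← Finset.sum_fiberwise_of_maps_to (s := (A ×ˢ A).filter (fun vw => s(vw.1, vw.2) ∈ E))
    (t := E) (g := fun vw => s(vw.1, vw.2)) (fun vw hvw => (Finset.mem_filter.mp hvw).2)]
  refine Finset.sum_congr rfl fun e he => ?_
  induction e using Sym2.ind with
  | _ a b =>
    have ha : a ∈ A := hE _ he a (Sym2.mem_mk_left a b)
    have hb : b ∈ A := hE _ he b (Sym2.mem_mk_right a b)
    by_cases hab : a = b
    · subst hab
      have hf : ((A ×ˢ A).filter (fun vw => s(vw.1, vw.2) ∈ E)).filter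
          (fun vw => s(vw.1, vw.2) = s(a, a)) = {(a, a)} := by
        ext ⟨v, w⟩
        simp only [Finset.mem_filter, Finset.mem_product, Finset.mem_singleton, Sym2.eq_iff,
          Prod.mk.injEq]
        constructor
        · rintro ⟨-, h | h⟩
          · exact h
          · exact h
        · rintro ⟨rfl, rfl⟩
          exact ⟨⟨⟨ha, ha⟩, he⟩, Or.inl ⟨rfl, rfl⟩⟩
      rw [hf, Finset.sum_singleton, epsS_mk, eps_apply]
      have h3 : Z a ⬝ᵥ p a = 0 := hZ a
      simp [h3]
    · have hf : ((A ×ˢ A).filter (fun vw => s(vw.1, vw.2) ∈ E)).filter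
          (fun vw => s(vw.1, vw.2) = s(a, b)) = {(a, b), (b, a)} := by
        ext ⟨v, w⟩
        simp only [Finset.mem_filter, Finset.mem_product, Finset.mem_insert,
          Finset.mem_singleton, Sym2.eq_iff, Prod.mk.injEq]
        constructor
        · rintro ⟨-, h | h⟩
          · exact Or.inl h
          · exact Or.inr h
        · rintro (⟨rfl, rfl⟩ | ⟨rfl, rfl⟩)
          · exact ⟨⟨⟨ha, hb⟩, he⟩, Or.inl ⟨rfl, rfl⟩⟩
          · exact ⟨⟨⟨hb, ha⟩, by rwa [Sym2.eq_swap]⟩, Or.inr ⟨rfl, rfl⟩⟩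
      have hne : ((a, b) : V × V) ≠ (b, a) := fun h => hab (Prod.mk.inj h).1
      rw [hf, Finset.sum_pair hne, epsS_mk, eps_apply]
      have e1 : (s(b, a) : Sym2 V) = s(a, b) := Sym2.eq_swap
      simp only [e1]
      ring

/-- **Equilibrium form of a stress.** -/
theorem mem_Stress_iff [DecidableEq V] {A : Finset V} {E : Finset (Sym2 V)}
    (hE : ∀ e ∈ E, ∀ v ∈ e, v ∈ A) {p : V → Vec k} {ω : Sym2 V → k} :
    ω ∈ Stress E p ↔ (∀ e, e ∉ E → ω e = 0) ∧ ∀ v, ∃ c : k, force A p ω v = c • p v := by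
  constructor
  · rintro ⟨h1, h2⟩
    refine ⟨h1, fun v => ?_⟩
    refine exists_smul_of_forall_dot fun z hz => ?_
    by_cases hv : v ∈ A
    · have hZ : (Pi.single v z : V → Vec k) ∈ Mot0 p := by
        intro w
        by_cases hw : w = v
        · subst hw
          simpa using hz
        · simp [hw]
      have h3 := h2 _ hZ
      rw [sum_epsS_eq hE h1 hZ, Finset.sum_eq_single v] at h3
      · simpa using h3
      · intro w _ hw
        simp [hw]
      · exact fun h => absurd hv h
    · rw [force_eq_zero_of_notMem hE h1 hv]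
      simp
  · rintro ⟨h1, h2⟩
    refine ⟨h1, fun Z hZ => ?_⟩
    rw [sum_epsS_eq hE h1 hZ]
    refine Finset.sum_eq_zero fun v _ => ?_
    obtain ⟨c, hc⟩ := h2 v
    rw [hc, dotProduct_smul, hZ v, smul_zero]

/-- The star of a stress at `v` : the same with the term `w = v` deleted. -/
theorem exists_sum_erase [DecidableEq V] {A : Finset V} {E : Finset (Sym2 V)}
    (hE : ∀ e ∈ E, ∀ v ∈ e, v ∈ A) {p : V → Vec k} {ω : Sym2 V → k} (hω : ω ∈ Stress E p) (v : V) :
    ∃ c : k, ∑ w ∈ A.erase v, ω s(v, w) • p w = c • p v := by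
  obtain ⟨c, hc⟩ := ((mem_Stress_iff hE).mp hω).2 v
  by_cases hv : v ∈ A
  · refine ⟨c - ω s(v, v), ?_⟩
    have h1 : force A p ω v = ω s(v, v) • p v + ∑ w ∈ A.erase v, ω s(v, w) • p w :=
      (Finset.add_sum_erase A (fun w => ω s(v, w) • p w) hv).symm
    rw [h1] at hc
    rw [sub_smul, ← hc]
    abel
  · refine ⟨c, ?_⟩
    rw [Finset.erase_eq_of_notMem hv]
    exact hc

/-- The neighbours of `v` with nonzero stress. -/
noncomputable def suppAt [DecidableEq V] (A : Finset V) (ω : Sym2 V → k) (v : V) : Finset V :=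
  open Classical in (A.erase v).filter fun w => ω s(v, w) ≠ 0

lemma mem_suppAt [DecidableEq V] {A : Finset V} {ω : Sym2 V → k} {v w : V} :
    w ∈ suppAt A ω v ↔ w ≠ v ∧ w ∈ A ∧ ω s(v, w) ≠ 0 := by
  classical
  simp [suppAt, and_assoc]

/-- **A stress has zero or at least four nonzero edges at a vertex** (general position). -/
theorem suppAt_card [DecidableEq V] {A : Finset V} {E : Finset (Sym2 V)}
    (hE : ∀ e ∈ E, ∀ v ∈ e, v ∈ A) {p : V → Vec k} (hp : GenPos p (A : Set V)) {ω : Sym2 V → k}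
    (hω : ω ∈ Stress E p) {v : V} (hv : v ∈ A) : suppAt A ω v = ∅ ∨ 4 ≤ (suppAt A ω v).card := by
  classical
  by_contra hcon
  push Not at hcon
  obtain ⟨hne, hlt⟩ := hcon
  obtain ⟨c, hc⟩ := exists_sum_erase hE hω v
  have hvn : v ∉ suppAt A ω v := fun h => (mem_suppAt.mp h).1 rfl
  have hsub : ((insert v (suppAt A ω v) : Finset V) : Set V) ⊆ A := by
    intro w hw
    rcases Finset.mem_insert.mp (Finset.mem_coe.mp hw) with rfl | h
    · exact hv
    · exact (mem_suppAt.mp h).2.1
  have hcard : (insert v (suppAt A ω v)).card ≤ 4 := by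
    rw [Finset.card_insert_of_notMem hvn]
    omega
  have hli := hp _ hsub hcard
  have hsum : ∑ w ∈ suppAt A ω v, ω s(v, w) • p w = c • p v := by
    rw [← hc]
    refine Finset.sum_filter_of_ne ?_
    intro w _ h1 h2
    exact h1 (by rw [h2, zero_smul])
  have hz : ∑ w ∈ insert v (suppAt A ω v),
      (if w = v then -c else ω s(v, w)) • p w = 0 := by
    rw [Finset.sum_insert hvn, if_pos rfl, neg_smul, ← hsum]
    have : ∑ w ∈ suppAt A ω v, (if w = v then -c else ω s(v, w)) • p w =
        ∑ w ∈ suppAt A ω v, ω s(v, w) • p w := by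
      refine Finset.sum_congr rfl fun w hw => ?_
      rw [if_neg (mem_suppAt.mp hw).1]
    rw [this]
    abel
  have hz' : ∑ w : (insert v (suppAt A ω v) : Finset V),
      (if (w : V) = v then -c else ω s(v, (w : V))) • p (w : V) = 0 := by
    rw [← hz]
    exact Finset.sum_coe_sort (insert v (suppAt A ω v))
      (fun w => (if w = v then -c else ω s(v, w)) • p w)
  have hall := Fintype.linearIndependent_iff.mp hli
    (fun w => if (w : V) = v then -c else ω s(v, (w : V))) hz'
  obtain ⟨w, hw⟩ := hne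
  have h3 := hall ⟨w, Finset.mem_insert_of_mem hw⟩
  simp only [if_neg (mem_suppAt.mp hw).1] at h3
  exact (mem_suppAt.mp hw).2.2 h3

end GR
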