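import Pool.Agent.Lib.GR.TypeConst
import Pool.Agent.Lib.GR.NoPair

/-!
# Two nonadjacent vertices of degree five; the exchange lemma
-/

set_option linter.unusedSectionVars false

namespace GR

open Filter Module

open scoped Matrix

variable {k : Type*} [Field k] [Infinite k] {V : Type*} [DecidableEq V]

/-- Two nonadjacent vertices `u`, `v` of degree five, with neighbourhoods `Nu`, `Nv`, at the
position `p`: `K` are the motions of `A \ {u, v}`, `Q` is the hyperplane of the Main Lemma. -/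
structure PairData (U : Finset V) (K Q : Submodule k (V → Vec k)) (p : V → Vec k)
    (Nu Nv : Finset V) (xu xv : Vec k) : Prop where
  finK : finrank k K = 10
  finQ : finrank k Q = 9
  QK : Q ≤ K
  KuQ : K ⊓ Att p (Nu : Set V) xu ≤ Q
  KvQ : K ⊓ Att p (Nv : Set V) xv ≤ Q
  finKu : finrank k (K ⊓ Att p (Nu : Set V) xu : Submodule k (V → Vec k)) = 8
  finKv : finrank k (K ⊓ Att p (Nv : Set V) xv : Submodule k (V → Vec k)) = 8
  badu : ∀ᶠ x in gen k (Vec k), ∀ S ≤ Q,
    finrank k S ≤ finrank k (S ⊓ Att p (Nu : Set V) x : Submodule k (V → Vec k)) + 1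
  badv : ∀ᶠ x in gen k (Vec k), ∀ S ≤ Q,
    finrank k S ≤ finrank k (S ⊓ Att p (Nv : Set V) x : Submodule k (V → Vec k)) + 1
  flexu : ¬ (K ⊓ Att p (Nu : Set V) xu ⊓ Att p (Nv : Set V) xv ≤ RG p (Nu : Set V))
  flexv : ¬ (K ⊓ Att p (Nu : Set V) xu ⊓ Att p (Nv : Set V) xv ≤ RG p (Nv : Set V))
  inju : finrank k (K ⊓ Att p (Nv : Set V) xv ⊓ RG p (Nu : Set V) :
    Submodule k (V → Vec k)) ≤ 6
  injv : finrank k (K ⊓ Att p (Nu : Set V) xu ⊓ RG p (Nv : Set V) :
    Submodule k (V → Vec k)) ≤ 6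
  typu : Q ≤ TA p (Nu : Set V) ∨ ∃ σ : Fin 5 → Nu, Function.Bijective σ ∧ ∃ t : k, t ≠ 0 ∧
      Q ≤ TB p (σ 0) (σ 1) (σ 2) (σ 3) (σ 4) t
  typv : Q ≤ TA p (Nv : Set V) ∨ ∃ σ : Fin 5 → Nv, Function.Bijective σ ∧ ∃ t : k, t ≠ 0 ∧
      Q ≤ TB p (σ 0) (σ 1) (σ 2) (σ 3) (σ 4) t
  noPair : ∀ a ∈ U, ∀ b ∈ U, (∀ Z ∈ Q, eps p a b Z = 0) → ∀ Z ∈ K, eps p a b Z = 0
  gpu : GenPos p (Nu : Set V)
  gpv : GenPos p (Nv : Set V)
  cardu : Nu.card = 5
  cardv : Nv.card = 5
  subu : Nu ⊆ U
  subv : Nv ⊆ U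
  loop : ∀ Z ∈ K, ∀ w ∈ U, Z w ⬝ᵥ p w = 0

lemma PairData.symm {U : Finset V} {K Q : Submodule k (V → Vec k)} {p : V → Vec k}
    {Nu Nv : Finset V} {xu xv : Vec k} (h : PairData U K Q p Nu Nv xu xv) :
    PairData U K Q p Nv Nu xv xu where
  finK := h.finK
  finQ := h.finQ
  QK := h.QK
  KuQ := h.KvQ
  KvQ := h.KuQ
  finKu := h.finKv
  finKv := h.finKu
  badu := h.badv
  badv := h.badu
  flexu := by rw [inf_right_comm]; exact h.flexv
  flexv := by rw [inf_right_comm]; exact h.flexu
  inju := h.injv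
  injv := h.inju
  typu := h.typv
  typv := h.typu
  noPair := h.noPair
  gpu := h.gpv
  gpv := h.gpu
  cardu := h.cardv
  cardv := h.cardu
  subu := h.subv
  subv := h.subu
  loop := h.loop

section

variable {U X : Finset V} {E : Set (Sym2 V)}

lemma Isp_empty (K : Submodule k (V → Vec k)) (A : V → Submodule k (V → Vec k)) :
    Isp K A ∅ = K := by
  ext z; simp [mem_Isp]

lemma Isp_singleton (K : Submodule k (V → Vec k)) (A : V → Submodule k (V → Vec k)) (u : V) :
    Isp K A {u} = K ⊓ A u := by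
  ext z; simp [mem_Isp]

lemma Isp_pair (K : Submodule k (V → Vec k)) (A : V → Submodule k (V → Vec k)) (u v : V) :
    Isp K A {u, v} = K ⊓ A u ⊓ A v := by
  ext z; simp [mem_Isp, and_assoc]

/-- The data of a pair from the Main Lemma. -/
theorem MLHyp.eventually_pairData {u v : V} (h : MLHyp k U {u, v} E) (huv : u ≠ v)
    (h2 : (2 : k) ≠ 0)
    (hCP : ∀ w ∈ ({u, v} : Finset V), ∀ᶠ p in gen k (V → Vec k),
      CliqueProp (U ∪ ({u, v} : Finset V).erase w) p) :
    ∀ᶠ p in gen k (V → Vec k), PairData U (Mot U E p) (QX U {u, v} E p) p (nbr U E u)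
      (nbr U E v) (p u) (p v) := by
  have hX : ({u, v} : Finset V).Nonempty := ⟨u, by simp⟩
  have hu : u ∈ ({u, v} : Finset V) := by simp
  have hv : v ∈ ({u, v} : Finset V) := by simp
  have eu : ({u, v} : Finset V).erase u = {v} := by
    ext x
    simp only [Finset.mem_erase, Finset.mem_insert, Finset.mem_singleton]
    constructor
    · rintro ⟨h1, h2 | h2⟩
      · exact absurd h2 h1
      · exact h2
    · rintro rfl
      exact ⟨huv.symm, Or.inr rfl⟩
  have ev : ({u, v} : Finset V).erase v = {u} := by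
    ext x
    simp only [Finset.mem_erase, Finset.mem_insert, Finset.mem_singleton]
    constructor
    · rintro ⟨h1, h2 | h2⟩
      · exact h2
      · exact absurd h2 h1
    · rintro rfl
      exact ⟨huv, Or.inl rfl⟩
  have hcard : ({u, v} : Finset V).card = 2 := Finset.card_pair huv
  have d1 := h.eventually_dim_one hu hv huv
  have d2 := h.eventually_dim_one hv hu huv.symm
  rw [eu, Finset.erase_singleton, Finset.union_empty] at d1
  rw [ev, Finset.erase_singleton, Finset.union_empty] at d2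
  have hgd : gdim k U E = 10 := by
    have := h.proper ∅ (Finset.empty_subset _) (fun hc => by
      have := hu
      rw [← hc] at this
      simp at this)
    rw [Finset.union_empty, hcard, Finset.card_empty] at this
    omega
  have nu := h.nonrig u hu
  have nv := h.nonrig v hv
  have iu := h.inj u hu
  have iv := h.inj v hv
  rw [eu] at iu
  rw [ev] at iv
  filter_upwards [h.main hX, h.types h2 hX, h.noPair h2 hCP hX, d1, d2, nu, nv, iu, iv,
    eventually_mdim_eq (k := k) U E, h.eventually_genPos] with p hm ht hnp d1 d2 nu nv iu iv hK hgp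
  obtain ⟨m1, m2, -, -, m5⟩ := hm
  have hcutN : ∀ w : V, ∀ Z : V → Vec k, ∀ y ∈ (nbr U E w : Set V), cut k U Z y = Z y :=
    fun w Z y hy => cut_apply _ (nbr_subset _ _ _ (by simpa using hy))
  have hsub : ∀ w, (nbr U E w : Set V) ⊆ (U : Set V) := fun w x hx => by
    simpa using nbr_subset U E w (by simpa using hx)
  have hIu : Mot U E p ⊓ Att p (nbr U E u : Set V) (p u) ≤ QX U {u, v} E p := by
    have h3 := Isp_le_Qsp (Mot U E p) (AttU U E p) hv
    rw [ev, Isp_singleton] at h3
    exact h3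
  have hIv : Mot U E p ⊓ Att p (nbr U E v : Set V) (p v) ≤ QX U {u, v} E p := by
    have h3 := Isp_le_Qsp (Mot U E p) (AttU U E p) hu
    rw [eu, Isp_singleton] at h3
    exact h3
  have hfull := map_cut_Mot h.indep (Y := {u, v}) subset_rfl p
  rw [Isp_pair] at hfull
  have hflex : ∀ w : V, ¬ (Mot (U ∪ {u, v}) E p ≤ RG p (nbr U E w : Set V)) →
      ¬ (Mot U E p ⊓ Att p (nbr U E u : Set V) (p u) ⊓ Att p (nbr U E v : Set V) (p v)
        ≤ RG p (nbr U E w : Set V)) := by
    intro w hw hc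
    refine hw fun Z hZ => ?_
    have h3 : cut k U Z ∈ (Mot (U ∪ {u, v}) E p).map (cut k U) := ⟨Z, hZ, rfl⟩
    rw [hfull] at h3
    exact (mem_RG_congr (hcutN w Z)).mp (hc h3)
  have hinj : ∀ w y : V, y ∈ ({u, v} : Finset V) →
      finrank k (Mot (U ∪ {y}) E p ⊓ RG p (nbr U E w : Set V) : Submodule k (V → Vec k)) ≤ 6 →
      finrank k (Mot U E p ⊓ Att p (nbr U E y : Set V) (p y) ⊓ RG p (nbr U E w : Set V) :
        Submodule k (V → Vec k)) ≤ 6 := by
    intro w y hy h3
    have h4 := map_cut_Mot h.indep (Y := {y}) (by simpa using hy) p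
    rw [Isp_singleton] at h4
    have hle : (Mot U E p ⊓ Att p (nbr U E y : Set V) (p y) ⊓ RG p (nbr U E w : Set V) :
        Submodule k (V → Vec k)) ≤ (Mot (U ∪ {y}) E p ⊓ RG p (nbr U E w : Set V)).map (cut k U) := by
      rintro Z ⟨hZ, hZR⟩
      have h5 : Z ∈ (Mot (U ∪ {y}) E p).map (cut k U) := by rw [h4]; exact hZ
      obtain ⟨Y, hY, rfl⟩ := h5
      exact ⟨Y, ⟨hY, (mem_RG_congr (hcutN w Y)).mp hZR⟩, rfl⟩
    have hfd : FiniteDimensional k
        (Mot (U ∪ {y}) E p ⊓ RG p (nbr U E w : Set V) : Submodule k (V → Vec k)) :=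
      Submodule.finiteDimensional_of_le inf_le_left
    exact ((Submodule.finrank_mono hle).trans (Submodule.finrank_map_le _ _)).trans h3
  exact {
    finK := by
      have : finrank k (Mot U E p) = gdim k U E := hK
      rw [this, hgd]
    finQ := by rw [m1, hcard]
    QK := QX_le _ _ _ _
    KuQ := hIu
    KvQ := hIv
    finKu := d1
    finKv := d2
    badu := m5 u hu
    badv := m5 v hv
    flexu := hflex u nu
    flexv := hflex v nv
    inju := hinj u v hv iu
    injv := hinj v u hu iv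
    typu := ht u hu
    typv := ht v hv
    noPair := fun a ha b hb hab Z hZ => hnp a ha b hb (fun Y hY => hab Y hY) hZ
    gpu := hgp u hu
    gpv := hgp v hv
    cardu := h.card5 u hu
    cardv := h.card5 v hv
    subu := nbr_subset _ _ _
    subv := nbr_subset _ _ _
    loop := fun Z hZ w hw => hZ.2.1 w hw }

end

section Exchange

variable {U : Finset V} {Q : Submodule k (V → Vec k)} {p : V → Vec k} {Nu Nv : Finset V}
  {xu xv : Vec k} {F : Set (Sym2 V)} {a b c d e : V} {t : k}

/-- On `Q` the vertex `u` has the same type as on `K(G - u)`. -/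
theorem PairData.Q_le_TB {K : Submodule k (V → Vec k)} (h : PairData U K Q p Nu Nv xu xv)
    (hL : Lab Nu a b c d e)
    (hTB : K ⊓ Att p (Nv : Set V) xv ≤ TB p a b c d e t)
    (hnA : ¬ (K ⊓ Att p (Nv : Set V) xv ≤ TA p (Nu : Set V))) : Q ≤ TB p a b c d e t := by
  have hfin : FiniteDimensional k K := FiniteDimensional.of_finrank_pos (by rw [h.finK]; norm_num)
  have hfd : FiniteDimensional k (K ⊓ Att p (Nv : Set V) xv : Submodule k (V → Vec k)) :=
    Submodule.finiteDimensional_of_le inf_le_left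
  rcases h.typu with h1 | ⟨σ, hσ, t', ht', h1⟩
  · exact absurd (h.KvQ.trans h1) hnA
  · have hne : ∀ i j : Fin 5, i ≠ j → (σ i : V) ≠ σ j := fun i j hij h =>
      hij (hσ.1 (Subtype.ext h))
    have hL' : Lab Nu (σ 0) (σ 1) (σ 2) (σ 3) (σ 4) := by
      refine ⟨?_, hne _ _ (by decide), hne _ _ (by decide), hne _ _ (by decide),
        hne _ _ (by decide), hne _ _ (by decide), hne _ _ (by decide), hne _ _ (by decide),
        hne _ _ (by decide), hne _ _ (by decide), hne _ _ (by decide)⟩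
      have := labels_eq hσ
      ext x
      have h3 : x ∈ (Nu : Set V) ↔ x ∈ ({(σ 0 : V), (σ 1 : V), (σ 2 : V), (σ 3 : V), (σ 4 : V)} :
        Set V) := by rw [← this]
      simpa using h3
    have hdim : finrank k (K ⊓ Att p (Nv : Set V) xv ⊓ RG p (Nu : Set V) :
        Submodule k (V → Vec k)) + 2 ≤
        finrank k (K ⊓ Att p (Nv : Set V) xv : Submodule k (V → Vec k)) := by
      have := h.inju
      have := h.finKv
      omega
    have hrod := rod_eq hL hL' h.gpu hdim ht' (h.KvQ.trans h1)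
      (fun Z hZ => (TB_rigid (hTB hZ)).1) (fun Z hZ => (TB_rigid (hTB hZ)).2.1)
      (fun Z hZ => (TB_rigid (hTB hZ)).2.2.1)
    obtain ⟨t'', ht'', h3⟩ := TB_relabel (p := p) hL hL' ht' hrod
    have hQ := h1.trans h3
    have hne' : ¬ (K ⊓ Att p (Nv : Set V) xv ≤ RG p (Nu : Set V)) := by
      intro hc
      rw [inf_eq_left.mpr hc] at hdim
      omega
    have := TB_t_eq hL h.gpu hTB (h.KvQ.trans hQ) hne'
    rw [this]
    exact hQ

/-- the motions of `K(G - u)` rigid on `N(v)` have dimension at most seven -/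
lemma PairData.finrank_P {K : Submodule k (V → Vec k)} (h : PairData U K Q p Nu Nv xu xv) :
    finrank k (K ⊓ Att p (Nv : Set V) xv ⊓ RG p (Nv : Set V) : Submodule k (V → Vec k)) ≤ 7 := by
  have hfin : FiniteDimensional k K := FiniteDimensional.of_finrank_pos (by rw [h.finK]; norm_num)
  have hfd : FiniteDimensional k (K ⊓ Att p (Nv : Set V) xv : Submodule k (V → Vec k)) :=
    Submodule.finiteDimensional_of_le inf_le_left
  have hlt : K ⊓ Att p (Nv : Set V) xv ⊓ RG p (Nv : Set V) < K ⊓ Att p (Nv : Set V) xv := by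
    refine lt_of_le_of_ne inf_le_left fun hc => h.flexv ?_
    intro Z hZ
    have h1 : Z ∈ K ⊓ Att p (Nv : Set V) xv := ⟨hZ.1.1, hZ.2⟩
    rw [← hc] at h1
    exact h1.2
  have h1 := Submodule.finrank_lt_finrank_of_lt hlt
  have h2 := h.finKv
  omega

/-- **Exchange.** If the ratio of `w e` and `w d` is the constant `t` on `Q` but not on all
motions of `A \ {u, v}`, then the motions of `A - u` which are rigid on `N(v)` are rigid on
`w d`, and there are such (nontrivial) motions. -/
theorem PairData.exchange_gen (h : PairData U (Mot U F p) Q p Nu Nv xu xv)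
    (hF : ∀ F' : Set (Sym2 V), (∀ᶠ x in gen k (Vec k), finrank k (Mot U F' p) ≤
        finrank k (Mot U F' p ⊓ Att p (Nv : Set V) x : Submodule k (V → Vec k)) + 1) →
      finrank k (Mot U F' p) ≤
        finrank k (Mot U F' p ⊓ RG p (Nv : Set V) : Submodule k (V → Vec k)) + 1 ∨
      ∃ i ∈ Nv, Mot U F' p ≤ RG p ((Nv.erase i : Finset V) : Set V))
    {w : V} (hwU : w ∈ U) (hdU : d ∈ U) (heU : e ∈ U)
    (hr : ∀ Z ∈ Q, eps p w e Z = t * eps p w d Z)
    (hne : ∃ Z ∈ Mot U F p, eps p w e Z ≠ t * eps p w d Z) :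
    finrank k (Mot U F p ⊓ Att p (Nv : Set V) xv ⊓ RG p (Nv : Set V) :
      Submodule k (V → Vec k)) = 7 ∧
    ∀ Z ∈ Mot U F p ⊓ Att p (Nv : Set V) xv ⊓ RG p (Nv : Set V), eps p w d Z = 0 := by
  have hfQ : FiniteDimensional k Q := Submodule.finiteDimensional_of_le h.QK
  -- the functional
  let γ : (V → Vec k) →ₗ[k] k := eps p w e - t • eps p w d
  have hγ : ∀ Z, γ Z = eps p w e Z - t * eps p w d Z := fun Z => by
    simp [γ]
  have hγQ : Q ≤ LinearMap.ker γ := fun Z hZ => by
    rw [LinearMap.mem_ker, hγ, hr Z hZ, sub_self]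
  have hker : Mot U F p ⊓ LinearMap.ker γ = Q := by
    symm
    refine Submodule.eq_of_le_of_finrank_le (le_inf h.QK hγQ) ?_
    have hlt : Mot U F p ⊓ LinearMap.ker γ < Mot U F p := by
      refine lt_of_le_of_ne inf_le_left fun hc => ?_
      obtain ⟨Z, hZ, hZne⟩ := hne
      rw [← hc] at hZ
      have h1 : Z ∈ LinearMap.ker γ := hZ.2
      rw [LinearMap.mem_ker, hγ] at h1
      exact hZne (sub_eq_zero.mp h1)
    have h1 := Submodule.finrank_lt_finrank_of_lt hlt
    have h3 := h.finK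
    have h4 := h.finQ
    omega
  -- the graph with the two pairs
  set R := Mot U (insert s(w, e) (insert s(w, d) F)) p with hR
  have hR1 : R = Mot U F p ⊓ LinearMap.ker (eps p w d) ⊓ LinearMap.ker (eps p w e) := by
    rw [hR, Mot_insert_pair _ p hwU heU, Mot_insert_pair _ p hwU hdU]
  have hR2 : R = Q ⊓ LinearMap.ker (eps p w d) := by
    rw [hR1, ← hker]
    ext Z
    simp only [Submodule.mem_inf, LinearMap.mem_ker, hγ]
    constructor
    · rintro ⟨⟨h1, h2⟩, h3⟩
      exact ⟨⟨h1, by rw [h2, h3]; ring⟩, h2⟩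
    · rintro ⟨⟨h1, h2⟩, h3⟩
      refine ⟨⟨h1, h3⟩, ?_⟩
      rw [h3] at h2
      linear_combination h2
  have hRQ : R ≤ Q := by rw [hR2]; exact inf_le_left
  have hfR : FiniteDimensional k R := Submodule.finiteDimensional_of_le hRQ
  have hdimR : 8 ≤ finrank k R := by
    have h1 := finrank_inf_ker_ge Q (eps p w d)
    rw [← hR2] at h1
    have h2 := h.finQ
    omega
  have hbad : ∀ᶠ x in gen k (Vec k), finrank k R ≤
      finrank k (R ⊓ Att p (Nv : Set V) x : Submodule k (V → Vec k)) + 1 := by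
    filter_upwards [h.badv] with x hx
    exact hx R hRQ
  have h7 : 7 ≤ finrank k (R ⊓ RG p (Nv : Set V) : Submodule k (V → Vec k)) := by
    rcases hF _ hbad with h1 | ⟨i, hi, h1⟩
    · have h1' : finrank k R ≤ finrank k (R ⊓ RG p (Nv : Set V) : Submodule k (V → Vec k)) + 1 := h1
      omega
    · have h2 : R ≤ RG p (Nv : Set V) := le_RG_of_four h.cardv h.gpv (by
        rcases h.typv with h3 | ⟨σ, hσ, t', ht', h3⟩
        · exact Or.inl (hRQ.trans h3)
        · exact Or.inr ⟨σ, hσ, t', ht', hRQ.trans h3⟩) h1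
      rw [inf_eq_left.mpr h2]
      omega
  -- it is contained in `P`, of dimension at most seven
  have hRP : R ⊓ RG p (Nv : Set V) ≤ Mot U F p ⊓ Att p (Nv : Set V) xv ⊓ RG p (Nv : Set V) := by
    refine le_inf (le_inf ((inf_le_left.trans hRQ).trans h.QK) ?_) inf_le_right
    exact inf_le_right.trans (RG_le_Att _ _ _)
  have hfP : FiniteDimensional k
      (Mot U F p ⊓ Att p (Nv : Set V) xv ⊓ RG p (Nv : Set V) : Submodule k (V → Vec k)) :=
    Submodule.finiteDimensional_of_le (inf_le_left.trans inf_le_left)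
  have heq : R ⊓ RG p (Nv : Set V) = Mot U F p ⊓ Att p (Nv : Set V) xv ⊓ RG p (Nv : Set V) := by
    refine Submodule.eq_of_le_of_finrank_le hRP ?_
    have := h.finrank_P
    omega
  constructor
  · have := h.finrank_P
    have := Submodule.finrank_mono hRP
    omega
  intro Z hZ
  rw [← heq] at hZ
  have h8 := hZ.1
  rw [hR2] at h8
  exact h8.2

/-- **Exchange, one body vertex.** If the ratio of `w e` and `w d` is not `t` on all motions of
`A \ {u, v}` then the motion of `A - u` which is rigid on `N(v)` is rigid on `w d`. -/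
theorem PairData.exchange_one (h : PairData U (Mot U F p) Q p Nu Nv xu xv)
    (hL : Lab Nu a b c d e) (hQ : Q ≤ TB p a b c d e t)
    (hF : ∀ F' : Set (Sym2 V), (∀ᶠ x in gen k (Vec k), finrank k (Mot U F' p) ≤
        finrank k (Mot U F' p ⊓ Att p (Nv : Set V) x : Submodule k (V → Vec k)) + 1) →
      finrank k (Mot U F' p) ≤
        finrank k (Mot U F' p ⊓ RG p (Nv : Set V) : Submodule k (V → Vec k)) + 1 ∨
      ∃ i ∈ Nv, Mot U F' p ≤ RG p ((Nv.erase i : Finset V) : Set V))
    {w : V} (hw : w = a ∨ w = b ∨ w = c)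
    (hne : ∃ Z ∈ Mot U F p, eps p w e Z ≠ t * eps p w d Z) :
    finrank k (Mot U F p ⊓ Att p (Nv : Set V) xv ⊓ RG p (Nv : Set V) :
      Submodule k (V → Vec k)) = 7 ∧
    ∀ Z ∈ Mot U F p ⊓ Att p (Nv : Set V) xv ⊓ RG p (Nv : Set V), eps p w d Z = 0 := by
  have hwN : w ∈ Nu := by rcases hw with rfl | rfl | rfl; exacts [hL.ha, hL.hb, hL.hc]
  exact h.exchange_gen hF (h.subu hwN) (h.subu hL.hd) (h.subu hL.he)
    (fun Z hZ => TB_ratio (hQ hZ) hw) hne

/-- at most one body vertex has the exceptional ratio -/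
theorem PairData.exchange_unique (h : PairData U (Mot U F p) Q p Nu Nv xu xv)
    (hL : Lab Nu a b c d e) (hQ : Q ≤ TB p a b c d e t)
    (hF : ∀ F' : Set (Sym2 V), (∀ᶠ x in gen k (Vec k), finrank k (Mot U F' p) ≤
        finrank k (Mot U F' p ⊓ Att p (Nv : Set V) x : Submodule k (V → Vec k)) + 1) →
      finrank k (Mot U F' p) ≤
        finrank k (Mot U F' p ⊓ RG p (Nv : Set V) : Submodule k (V → Vec k)) + 1 ∨
      ∃ i ∈ Nv, Mot U F' p ≤ RG p ((Nv.erase i : Finset V) : Set V))
    {w w' : V} (hw : w = a ∨ w = b ∨ w = c) (hw' : w' = a ∨ w' = b ∨ w' = c) (hww : w ≠ w')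
    (hne : ∃ Z ∈ Mot U F p, eps p w e Z ≠ t * eps p w d Z)
    (hne' : ∃ Z ∈ Mot U F p, eps p w' e Z ≠ t * eps p w' d Z) : False := by
  have hwN : w ∈ Nu := by rcases hw with rfl | rfl | rfl; exacts [hL.ha, hL.hb, hL.hc]
  have hwN' : w' ∈ Nu := by rcases hw' with rfl | rfl | rfl; exacts [hL.ha, hL.hb, hL.hc]
  have hwd : w ≠ d := by rcases hw with rfl | rfl | rfl; exacts [hL.ad, hL.bd, hL.cd]
  have hwe : w ≠ e := by rcases hw with rfl | rfl | rfl; exacts [hL.ae, hL.be, hL.ce]
  have hwd' : w' ≠ d := by rcases hw' with rfl | rfl | rfl; exacts [hL.ad, hL.bd, hL.cd]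
  have hwe' : w' ≠ e := by rcases hw' with rfl | rfl | rfl; exacts [hL.ae, hL.be, hL.ce]
  obtain ⟨h7, h1⟩ := h.exchange_one hL hQ hF hw hne
  have h2 := (h.exchange_one hL hQ hF hw' hne').2
  have hle : Mot U F p ⊓ Att p (Nv : Set V) xv ⊓ RG p (Nv : Set V)
      ≤ Mot U F p ⊓ Att p (Nv : Set V) xv ⊓ RG p (Nu : Set V) := by
    refine le_inf inf_le_left fun Z hZ => ?_
    have hZQ := hQ (h.KvQ hZ.1)
    obtain ⟨S, hS, g, h3, h4, h5, h6, h7, h8, h9⟩ := hZQ
    have hSw : ∀ x, (x = a ∨ x = b ∨ x = c) → Z x = S (p x) := by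
      intro x hx
      rcases hx with rfl | rfl | rfl <;> assumption
    have hgw : ∀ x, (x = a ∨ x = b ∨ x = c) → eps p x d Z = 0 → g ⬝ᵥ p x = 0 := by
      intro x hx h10
      rw [eps_apply, hSw x hx, h8, add_dotProduct, hS.swap (p x)] at h10
      linear_combination h10
    have hg0 : g = 0 := eq_zero_of_four h.gpu hL.hd hL.he hwN hwN' hL.de hwd.symm hwd'.symm
      hwe.symm hwe'.symm hww h3 h4 (hgw w hw (h1 Z hZ)) (hgw w' hw' (h2 Z hZ))
    subst hg0
    exact mem_RG_of_TB_zero hL hS h5 h6 h7 (by simpa using h8) (by simpa using h9)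
  have hfd : FiniteDimensional k
      (Mot U F p ⊓ Att p (Nv : Set V) xv ⊓ RG p (Nu : Set V) : Submodule k (V → Vec k)) :=
    Submodule.finiteDimensional_of_le (inf_le_left.trans inf_le_left)
  have h3 := Submodule.finrank_mono hle
  have h4 := h.inju
  omega

/-- some body vertex has the exceptional ratio, if the type is not A -/
theorem PairData.exchange_exists {K : Submodule k (V → Vec k)}
    (h : PairData U K Q p Nu Nv xu xv)
    (hL : Lab Nu a b c d e) (ht : t ≠ 0) (hQ : Q ≤ TB p a b c d e t)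
    (hnA : ¬ (K ⊓ Att p (Nv : Set V) xv ≤ TA p (Nu : Set V))) :
    ∃ w, (w = a ∨ w = b ∨ w = c) ∧ ∃ Z ∈ K, eps p w e Z ≠ t * eps p w d Z := by
  have hfin : FiniteDimensional k K := FiniteDimensional.of_finrank_pos (by rw [h.finK]; norm_num)
  by_contra hcon
  push Not at hcon
  have hrig := fun Z (hZ : Z ∈ Q) => TB_rigid (hQ hZ)
  have rab := h.noPair a (h.subu hL.ha) b (h.subu hL.hb) fun Z hZ => (hrig Z hZ).1
  have rac := h.noPair a (h.subu hL.ha) c (h.subu hL.hc) fun Z hZ => (hrig Z hZ).2.1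
  have rbc := h.noPair b (h.subu hL.hb) c (h.subu hL.hc) fun Z hZ => (hrig Z hZ).2.2.1
  have rde := h.noPair d (h.subu hL.hd) e (h.subu hL.he) fun Z hZ => (hrig Z hZ).2.2.2
  have hTBK : K ≤ TB p a b c d e t := by
    intro Z hZ
    have hl := fun w hw => h.loop Z hZ w hw
    have hT3 : ({a, b, c} : Finset V) ⊆ Nu := by
      intro v hv
      simp only [Finset.mem_insert, Finset.mem_singleton] at hv
      rcases hv with rfl | rfl | rfl
      exacts [hL.ha, hL.hb, hL.hc]
    have hc3 : ({a, b, c} : Finset V).card = 3 := by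
      rw [Finset.card_insert_of_notMem (by simp [hL.ab, hL.ac]), Finset.card_pair hL.bc]
    obtain ⟨S, hS, hSZ⟩ := mem_RG_of_rigid (Z := Z) (h.gpu.mono (by exact_mod_cast hT3)) hc3.ge
      (fun v hv => hl v (h.subu (hT3 hv))) (by
        have haa : ∀ v ∈ U, eps p v v Z = 0 := fun v hv => by rw [eps_apply, hl v hv, add_zero]
        have hab := rab Z hZ
        have hac := rac Z hZ
        have hbc := rbc Z hZ
        have hba : eps p b a Z = 0 := by rw [eps_comm]; exact hab
        have hca : eps p c a Z = 0 := by rw [eps_comm]; exact hac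
        have hcb : eps p c b Z = 0 := by rw [eps_comm]; exact hbc
        intro x hx y hy
        simp only [Finset.mem_insert, Finset.mem_singleton] at hx hy
        rcases hx with rfl | rfl | rfl <;> rcases hy with rfl | rfl | rfl <;>
          first
            | assumption
            | exact haa _ (h.subu hL.ha)
            | exact haa _ (h.subu hL.hb)
            | exact haa _ (h.subu hL.hc))
    have ea := hSZ a (by simp)
    have eb := hSZ b (by simp)
    have ec := hSZ c (by simp)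
    -- `D = (Z e - S e) - t (Z d - S d)`
    set D : Vec k := (Z e - S (p e)) - t • (Z d - S (p d)) with hD
    have hDw : ∀ w, (w = a ∨ w = b ∨ w = c) → D ⬝ᵥ p w = 0 := by
      intro w hw
      have h1 := hcon w hw Z hZ
      have hZw : Z w = S (p w) := by rcases hw with rfl | rfl | rfl <;> assumption
      rw [eps_apply, eps_apply, hZw] at h1
      rw [hD, sub_dotProduct, sub_dotProduct, smul_dotProduct, sub_dotProduct, smul_eq_mul]
      have h2 := hS.swap (p w) (p e)
      have h3 := hS.swap (p w) (p d)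
      linear_combination h1 - h2 + t * h3
    have hDq : D ⬝ᵥ p e - t * (D ⬝ᵥ p d) = 0 := by
      have h1 := rde Z hZ
      rw [eps_apply] at h1
      have h2 := hl d (h.subu hL.hd)
      have h3 := hl e (h.subu hL.he)
      rw [hD]
      simp only [sub_dotProduct, smul_dotProduct, smul_eq_mul]
      have h4 := hS.swap (p e) (p d)
      have h5 := hS (p e)
      have h6 := hS (p d)
      linear_combination (-t) * h1 + t ^ 2 * h2 + h3 - h5 - t ^ 2 * h6 + t * h4
    -- coordinates of `p e`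
    have hT : ({a, b, c, d} : Finset V) ⊆ Nu := by
      intro v hv
      simp only [Finset.mem_insert, Finset.mem_singleton] at hv
      rcases hv with rfl | rfl | rfl | rfl
      exacts [hL.ha, hL.hb, hL.hc, hL.hd]
    have hc4 : ({a, b, c, d} : Finset V).card = 4 := by
      rw [Finset.card_insert_of_notMem (by simp [hL.ab, hL.ac, hL.ad]),
        Finset.card_insert_of_notMem (by simp [hL.bc, hL.bd]), Finset.card_pair hL.cd]
    obtain ⟨f, hf⟩ := (h.gpu.mono (by exact_mod_cast hT)).spans (N := {a, b, c, d})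
      (by rw [hc4]) (p e)
    rw [Finset.sum_insert (by simp [hL.ab, hL.ac, hL.ad]),
      Finset.sum_insert (by simp [hL.bc, hL.bd]), Finset.sum_pair hL.cd] at hf
    have hft : f d ≠ t := by
      intro hc
      rw [hc] at hf
      refine hnA ((h.KvQ.trans hQ).trans ?_)
      exact TB_le_TA hL h.gpu (fa := f a) (fb := f b) (fc := f c) (by rw [← hf]; abel)
    have hDd : D ⬝ᵥ p d = 0 := by
      rw [← hf] at hDq
      simp only [dotProduct_add, dotProduct_smul, smul_eq_mul, hDw a (Or.inl rfl),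
        hDw b (Or.inr (Or.inl rfl)), hDw c (Or.inr (Or.inr rfl)), mul_zero, zero_add] at hDq
      have h1 : (f d - t) * (D ⬝ᵥ p d) = 0 := by linear_combination hDq
      exact (mul_eq_zero.mp h1).resolve_left (sub_ne_zero.mpr hft)
    have hD0 : D = 0 := eq_zero_of_four h.gpu hL.ha hL.hb hL.hc hL.hd hL.ab hL.ac hL.ad hL.bc
      hL.bd hL.cd (hDw a (Or.inl rfl)) (hDw b (Or.inr (Or.inl rfl))) (hDw c (Or.inr (Or.inr rfl)))
      hDd
    have hZe : Z e = S (p e) + t • (Z d - S (p d)) := by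
      have := sub_eq_zero.mp (hD.symm.trans hD0)
      rw [← this]
      abel
    have hgd : (Z d - S (p d)) ⬝ᵥ p d = 0 := by
      rw [sub_dotProduct, hl d (h.subu hL.hd), hS, sub_zero]
    refine ⟨S, hS, Z d - S (p d), hgd, ?_, ea, eb, ec, by abel, hZe⟩
    have h3 := hl e (h.subu hL.he)
    rw [hZe, add_dotProduct, hS, zero_add, smul_dotProduct, smul_eq_mul] at h3
    exact (mul_eq_zero.mp h3).resolve_left ht
  have h1 := finrank_le_of_TB (N := (Nu : Set V)) (fun v hv => hL.cases (by exact_mod_cast hv))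
    hTBK xu
  have h2 := h.finK
  have h3 := h.finKu
  omega

end Exchange

end GR
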