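import Pool.Agent.Lib.GR.Exch

/-!
# The exchange lemma for a minimal counterexample

`InBlock k A E u v d e w`: the vertex `v` belongs to the circuit of `E - u + w d + w e`.
`ExPair k A E u v p`: everything known for two nonadjacent vertices of degree five at `p`.
-/

set_option linter.unusedSectionVars false

namespace GR

open Filter Module

open scoped Matrix

variable {k : Type*} [Field k] {V : Type*} [DecidableEq V]

/-- a combination of two pair functionals which vanishes on the motions gives a stress -/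
theorem exists_stress_pair {B : Finset V} {S : Finset (Sym2 V)} {p : V → Vec k}
    {w d e : V} (hw : w ∈ B) (hd : d ∈ B) (he : e ∈ B) (hde : d ≠ e) (hwd : w ≠ d)
    (h1 : s(w, d) ∉ S) (h2 : s(w, e) ∉ S) {t : k}
    (h : ∀ Z ∈ Mot B (S : Set (Sym2 V)) p, eps p w e Z = t * eps p w d Z) :
    ∃ ω ∈ Stress (insert s(w, e) (insert s(w, d) S)) p, ω s(w, e) = 1 ∧ ω s(w, d) = -t := by
  let φ : (V → Vec k) →ₗ[k] k := eps p w e - t • eps p w d
  have hφM : ∀ Z ∈ Mot B (S : Set (Sym2 V)) p, φ Z = 0 := by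
    intro Z hZ
    simp only [φ, LinearMap.sub_apply, LinearMap.smul_apply, smul_eq_mul]
    rw [h Z hZ, sub_self]
  have hφcut : ∀ Z, φ (cut k B Z) = φ Z := by
    intro Z
    simp only [φ, LinearMap.sub_apply, LinearMap.smul_apply, smul_eq_mul]
    rw [eps_cut p Z hw he, eps_cut p Z hw hd]
  have hmem : φ.domRestrict (Mot0 p) ∈ strainSpan (Mot0 p) (S : Set (Sym2 V)) p := by
    rw [mem_strainSpan_iff' (Mot0 p) (Finset.finite_toSet S)]
    intro Z hZ h0
    rw [← hφcut Z]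
    refine hφM _ ?_
    exact cut_mem_Mot hZ fun a _ b _ hab => h0 _ hab
  obtain ⟨α, hα0, hα⟩ := exists_coeff_of_mem_strainSpan hmem
  have hdene : s(w, e) ≠ s(w, d) := by
    intro h'
    rcases Sym2.eq_iff.mp h' with ⟨-, h3⟩ | ⟨h3, h4⟩
    · exact hde h3.symm
    · exact hwd h3
  let ω : Sym2 V → k := fun f =>
    (if f = s(w, e) then 1 else 0) + (if f = s(w, d) then -t else 0) - α f
  have hωS : ∀ f ∈ S, ω f = - α f := by
    intro f hf
    have h3 : f ≠ s(w, e) := fun h' => h2 (h' ▸ hf)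
    have h4 : f ≠ s(w, d) := fun h' => h1 (h' ▸ hf)
    simp [ω, h3, h4]
  have hωe : ω s(w, e) = 1 := by simp [ω, hdene, hα0 _ h2]
  have hωd : ω s(w, d) = -t := by simp [ω, hdene.symm, hα0 _ h1]
  refine ⟨ω, ⟨fun f hf => ?_, fun Z hZ => ?_⟩, hωe, hωd⟩
  · rw [Finset.mem_insert, Finset.mem_insert] at hf
    push Not at hf
    simp [ω, hf.1, hf.2.1, hα0 f hf.2.2]
  · rw [Finset.sum_insert (by
        rw [Finset.mem_insert]
        rintro (h' | h')
        · exact hdene h'
        · exact h2 h'), Finset.sum_insert h1, hωe, hωd,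
      Finset.sum_congr rfl (fun f hf => by rw [hωS f hf])]
    have h3 := hα Z hZ
    simp only [φ, LinearMap.sub_apply, LinearMap.smul_apply, smul_eq_mul] at h3
    simp only [epsS_mk, neg_mul, Finset.sum_neg_distrib]
    rw [← h3]
    ring

/-- virtual work of a stress of `S + w d + w e` -/
lemma stress_pair_work {S : Finset (Sym2 V)} {p : V → Vec k} {B : Finset V}
    (hS : S ⊆ Kf B) {w d e : V} (hde : d ≠ e) (hwd : w ≠ d) (h1 : s(w, d) ∉ S) (h2 : s(w, e) ∉ S) {ω : Sym2 V → k}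
    (hω : ω ∈ Stress (insert s(w, e) (insert s(w, d) S)) p) {Z : V → Vec k}
    (hZ : Z ∈ Mot B (S : Set (Sym2 V)) p) :
    ω s(w, e) * eps p w e Z + ω s(w, d) * eps p w d Z = 0 := by
  have hdene : s(w, e) ≠ s(w, d) := by
    intro h'
    rcases Sym2.eq_iff.mp h' with ⟨-, h3⟩ | ⟨h3, h4⟩
    · exact hde h3.symm
    · exact hwd h3
  have h3 := hω.2 Z (Mot_le_Mot0 _ _ _ hZ)
  rw [Finset.sum_insert (by
        rw [Finset.mem_insert]
        rintro (h' | h')
        · exact hdene h'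
        · exact h2 h'), Finset.sum_insert h1] at h3
  have h4 : ∑ f ∈ S, ω f * epsS p f Z = 0 := by
    refine Finset.sum_eq_zero fun f hf => ?_
    have h5 := hS hf
    induction f using Sym2.ind with
    | _ x y =>
      rw [mk_mem_Kf] at h5
      rw [epsS_mk, hZ.2.2 x h5.2.1 y h5.2.2 (by exact_mod_cast hf), mul_zero]
  rw [h4, add_zero] at h3
  simpa only [epsS_mk] using h3

/-- a body vertex is not rigid with the rod -/
theorem TB_exists_ne [Infinite k] {M : Submodule k (V → Vec k)} [FiniteDimensional k M]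
    {p : V → Vec k} {N : Finset V} {a b c d e : V} {t : k} (hL : Lab N a b c d e)
    (hgp : GenPos p (N : Set V)) (hM : M ≤ TB p a b c d e t)
    (hdim : finrank k (M ⊓ RG p (N : Set V) : Submodule k (V → Vec k)) + 2 ≤ finrank k M)
    {w : V} (hw : w = a ∨ w = b ∨ w = c) : ∃ Z ∈ M, eps p w d Z ≠ 0 := by
  by_contra hcon
  push Not at hcon
  obtain ⟨w', hw', hww⟩ : ∃ w', (w' = a ∨ w' = b ∨ w' = c) ∧ w ≠ w' := by
    rcases hw with rfl | rfl | rfl
    · exact ⟨b, Or.inr (Or.inl rfl), hL.ab⟩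
    · exact ⟨a, Or.inl rfl, hL.ab.symm⟩
    · exact ⟨a, Or.inl rfl, hL.ac.symm⟩
  have hwN : w ∈ N := by rcases hw with rfl | rfl | rfl; exacts [hL.ha, hL.hb, hL.hc]
  have hwN' : w' ∈ N := by rcases hw' with rfl | rfl | rfl; exacts [hL.ha, hL.hb, hL.hc]
  have hwd : w ≠ d := by rcases hw with rfl | rfl | rfl; exacts [hL.ad, hL.bd, hL.cd]
  have hwe : w ≠ e := by rcases hw with rfl | rfl | rfl; exacts [hL.ae, hL.be, hL.ce]
  have hwd' : w' ≠ d := by rcases hw' with rfl | rfl | rfl; exacts [hL.ad, hL.bd, hL.cd]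
  have hwe' : w' ≠ e := by rcases hw' with rfl | rfl | rfl; exacts [hL.ae, hL.be, hL.ce]
  have hle : M ⊓ LinearMap.ker (eps p w' d) ≤ M ⊓ RG p (N : Set V) := by
    rintro Z ⟨hZ, hZ'⟩
    refine ⟨hZ, ?_⟩
    have hZw' : eps p w' d Z = 0 := hZ'
    have hZw := hcon Z hZ
    obtain ⟨S, hS, g, h3, h4, h5, h6, h7, h8, h9⟩ := hM hZ
    have hSw : ∀ x, (x = a ∨ x = b ∨ x = c) → Z x = S (p x) := by
      intro x hx
      rcases hx with rfl | rfl | rfl <;> assumption
    have hgw : ∀ x, (x = a ∨ x = b ∨ x = c) → eps p x d Z = 0 → g ⬝ᵥ p x = 0 := by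
      intro x hx h10
      rw [eps_apply, hSw x hx, h8, add_dotProduct, hS.swap (p x)] at h10
      linear_combination h10
    have hg0 : g = 0 := eq_zero_of_four hgp hL.hd hL.he hwN hwN' hL.de hwd.symm hwd'.symm
      hwe.symm hwe'.symm hww h3 h4 (hgw w hw hZw) (hgw w' hw' hZw')
    subst hg0
    exact mem_RG_of_TB_zero hL hS h5 h6 h7 (by simpa using h8) (by simpa using h9)
  have hfd : FiniteDimensional k (M ⊓ RG p (N : Set V) : Submodule k (V → Vec k)) :=
    Submodule.finiteDimensional_of_le inf_le_left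
  have h1 := finrank_inf_ker_ge M (eps p w' d)
  have h2 := Submodule.finrank_mono hle
  omega

variable [Infinite k]

/-- FACT R at the position `p` -/
def FactR (U N : Finset V) (p : V → Vec k) : Prop :=
  ∀ F' : Set (Sym2 V), (∀ᶠ x in gen k (Vec k), finrank k (Mot U F' p) ≤
      finrank k (Mot U F' p ⊓ Att p (N : Set V) x : Submodule k (V → Vec k)) + 1) →
    finrank k (Mot U F' p) ≤
      finrank k (Mot U F' p ⊓ RG p (N : Set V) : Submodule k (V → Vec k)) + 1 ∨
    ∃ i ∈ N, Mot U F' p ≤ RG p ((N.erase i : Finset V) : Set V)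

/-- `v` belongs to the circuit of `E - u + w d + w e` -/
def InBlock (k : Type*) [Field k] [Infinite k] {V : Type*} [DecidableEq V] (A : Finset V)
    (E : Finset (Sym2 V)) (u v d e w : V) : Prop :=
  gdim k (A \ {u, v}) (insert s(w, e) (insert s(w, d) (E : Set (Sym2 V)))) ≠
    gdim k (A \ {u, v}) (insert s(w, d) (E : Set (Sym2 V)))

lemma InBlock_iff {A : Finset V} {E : Finset (Sym2 V)} {u v d e w : V} {p : V → Vec k}
    (hp : Regular A p) (hw : w ∈ A \ {u, v}) (hd : d ∈ A \ {u, v}) (he : e ∈ A \ {u, v}) :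
    InBlock k A E u v d e w ↔
      ∃ Z ∈ Mot (A \ {u, v}) (E : Set (Sym2 V)) p, eps p w d Z = 0 ∧ eps p w e Z ≠ 0 := by
  unfold InBlock
  rw [← hp (A \ {u, v}) Finset.sdiff_subset, ← hp (A \ {u, v}) Finset.sdiff_subset]
  unfold mdim
  rw [Mot_insert hw he, Mot_insert hw hd]
  constructor
  · intro hne
    by_contra hcon
    push Not at hcon
    refine hne ?_
    have he : Mot (A \ {u, v}) (E : Set (Sym2 V)) p ⊓ LinearMap.ker (eps p w d) ⊓
        LinearMap.ker (eps p w e) =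
        Mot (A \ {u, v}) (E : Set (Sym2 V)) p ⊓ LinearMap.ker (eps p w d) := by
      rw [inf_eq_left]
      rintro Z ⟨h1, h2⟩
      exact hcon Z h1 h2
    rw [he]
  · rintro ⟨Z, h1, h2, h3⟩ hc
    have hle : Mot (A \ {u, v}) (E : Set (Sym2 V)) p ⊓ LinearMap.ker (eps p w d) ⊓
        LinearMap.ker (eps p w e) ≤
        Mot (A \ {u, v}) (E : Set (Sym2 V)) p ⊓ LinearMap.ker (eps p w d) := inf_le_left
    have hfd : FiniteDimensional k (Mot (A \ {u, v}) (E : Set (Sym2 V)) p ⊓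
        LinearMap.ker (eps p w d) : Submodule k (V → Vec k)) :=
      Submodule.finiteDimensional_of_le inf_le_left
    have h4 := Submodule.eq_of_le_of_finrank_eq hle hc
    have h5 : Z ∈ Mot (A \ {u, v}) (E : Set (Sym2 V)) p ⊓ LinearMap.ker (eps p w d) := ⟨h1, h2⟩
    rw [← h4] at h5
    exact h3 h5.2

/-- Everything for two nonadjacent vertices of degree five at the position `p`. -/
structure ExPair (k : Type*) [Field k] [Infinite k] {V : Type*} [DecidableEq V] (A : Finset V)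
    (E : Finset (Sym2 V)) (u v : V) (p : V → Vec k) : Prop where
  ce : MinCE k A E
  hu : u ∈ A
  hv : v ∈ A
  huv : u ≠ v
  d5u : dg A E u = 5
  d5v : dg A E v = 5
  nadj : s(u, v) ∉ E
  nice : Nice A p
  pd : PairData (A \ {u, v}) (Mot (A \ {u, v}) (E : Set (Sym2 V)) p)
    (QX (A \ {u, v}) {u, v} (E : Set (Sym2 V)) p) p (nbr (A.erase u) (E : Set (Sym2 V)) u)
      (nbr (A.erase v) (E : Set (Sym2 V)) v) (p u) (p v)
  fu : FactR (A \ {u, v}) (nbr (A.erase u) (E : Set (Sym2 V)) u) p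
  fv : FactR (A \ {u, v}) (nbr (A.erase v) (E : Set (Sym2 V)) v) p

lemma sdiff_pair_insert {A : Finset V} {u v : V} (hv : v ∈ A) (huv : u ≠ v) :
    insert v (A \ {u, v}) = A.erase u := by
  ext x
  simp only [Finset.mem_insert, Finset.mem_sdiff, Finset.mem_singleton, Finset.mem_erase, not_or]
  constructor
  · rintro (rfl | ⟨h1, h2, h3⟩)
    · exact ⟨huv.symm, hv⟩
    · exact ⟨h2, h1⟩
  · rintro ⟨h1, h2⟩
    by_cases hx : x = v
    · exact Or.inl hx
    · exact Or.inr ⟨h2, h1, hx⟩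

theorem MinCE.eventually_exPair {A : Finset V} {E : Finset (Sym2 V)} (h : MinCE k A E) {u v : V}
    (hu : u ∈ A) (hv : v ∈ A) (huv : u ≠ v) (h5u : dg A E u = 5) (h5v : dg A E v = 5)
    (hadj : s(u, v) ∉ E) : ∀ᶠ p in gen k (V → Vec k), ExPair k A E u v p := by
  have hX : ({u, v} : Finset V) ⊆ A := by
    intro x hx
    simp only [Finset.mem_insert, Finset.mem_singleton] at hx
    rcases hx with rfl | rfl <;> assumption
  have h5 : ∀ w ∈ ({u, v} : Finset V), (nbr (A.erase w) (E : Set (Sym2 V)) w).card = 5 := by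
    intro w hw
    simp only [Finset.mem_insert, Finset.mem_singleton] at hw
    rcases hw with rfl | rfl
    · exact h5u
    · exact h5v
  have hna : ∀ x ∈ ({u, v} : Finset V), ∀ y ∈ ({u, v} : Finset V), x ≠ y → s(x, y) ∉ E := by
    intro x hx y hy hxy
    simp only [Finset.mem_insert, Finset.mem_singleton] at hx hy
    rcases hx with rfl | rfl <;> rcases hy with rfl | rfl
    · exact absurd rfl hxy
    · exact hadj
    · rwa [Sym2.eq_swap]
    · exact absurd rfl hxy
  have hm := h.mlHyp hX h5 hna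
  have hCP : ∀ w ∈ ({u, v} : Finset V), ∀ᶠ p in gen k (V → Vec k),
      CliqueProp (A \ {u, v} ∪ ({u, v} : Finset V).erase w) p := by
    intro w hw
    rw [sdiff_union_erase h hX hw]
    exact h.eventually_cliqueProp (Finset.erase_ssubset (hX hw))
  have hiu : insert v (A \ {u, v}) = A.erase u := sdiff_pair_insert hv huv
  have hiv : insert u (A \ {u, v}) = A.erase v := by
    rw [Finset.pair_comm]
    exact sdiff_pair_insert hu huv.symm
  have hvU : v ∉ A \ {u, v} := by simp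
  have hFR := factR_set (k := k) hvU h.two
    (by rw [hiu]; exact h.eventually_cliqueProp (Finset.erase_ssubset hu))
  have hnu := h.nbr_eq hX (u := u) (by simp) (hna u (by simp))
  have hnv := h.nbr_eq hX (u := v) (by simp) (hna v (by simp))
  filter_upwards [hm.eventually_pairData huv h.two hCP, eventually_nice (k := k) A, hFR] with p h1 h2 h3
  rw [hnu, hnv] at h1
  exact ⟨h, hu, hv, huv, h5u, h5v, hadj, h2, h1,
    fun F' hF' => h3 F' _ h1.subu h1.cardu hF', fun F' hF' => h3 F' _ h1.subv h1.cardv hF'⟩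

/-- all pairs at once -/
theorem MinCE.eventually_exPair_all {A : Finset V} {E : Finset (Sym2 V)} (h : MinCE k A E) :
    ∀ᶠ p in gen k (V → Vec k), Nice A p ∧ ∀ u ∈ A, ∀ v ∈ A, u ≠ v → dg A E u = 5 →
      dg A E v = 5 → s(u, v) ∉ E → ExPair k A E u v p := by
  refine (eventually_nice (k := k) A).and ?_
  rw [Filter.eventually_all_finset]
  intro u hu
  rw [Filter.eventually_all_finset]
  intro v hv
  by_cases hc : u ≠ v ∧ dg A E u = 5 ∧ dg A E v = 5 ∧ s(u, v) ∉ E
  · filter_upwards [h.eventually_exPair hu hv hc.1 hc.2.1 hc.2.2.1 hc.2.2.2] with p hp _ _ _ _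
    exact hp
  · exact Eventually.of_forall fun p h1 h2 h3 h4 => absurd ⟨h1, h2, h3, h4⟩ hc

/-- all bases and all pairs at once -/
theorem eventually_exPair_univ (k : Type*) [Field k] [Infinite k] {V : Type*} [DecidableEq V]
    (A : Finset V) :
    ∀ᶠ p in gen k (V → Vec k), Nice A p ∧ ∀ E : Finset (Sym2 V), MinCE k A E →
      ∀ u ∈ A, ∀ v ∈ A, u ≠ v → dg A E u = 5 → dg A E v = 5 → s(u, v) ∉ E →
        ExPair k A E u v p := by
  refine (eventually_nice (k := k) A).and ?_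
  have h1 : ∀ᶠ p in gen k (V → Vec k), ∀ E ∈ (Kf A).powerset, MinCE k A E →
      ∀ u ∈ A, ∀ v ∈ A, u ≠ v → dg A E u = 5 → dg A E v = 5 → s(u, v) ∉ E →
        ExPair k A E u v p := by
    rw [Filter.eventually_all_finset]
    intro E _
    by_cases hE : MinCE k A E
    · filter_upwards [hE.eventually_exPair_all] with p hp _
      exact hp.2
    · exact Eventually.of_forall fun p hc => absurd hc hE
  filter_upwards [h1] with p hp E hE
  exact hp E (Finset.mem_powerset.mpr hE.sub) hE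

namespace ExPair

variable {A : Finset V} {E : Finset (Sym2 V)} {u v : V} {p : V → Vec k}

lemma symm (h : ExPair k A E u v p) : ExPair k A E v u p := by
  have e : ({v, u} : Finset V) = {u, v} := Finset.pair_comm _ _
  refine ⟨h.ce, h.hv, h.hu, h.huv.symm, h.d5v, h.d5u, by rw [Sym2.eq_swap]; exact h.nadj, h.nice,
    ?_, ?_, ?_⟩
  · rw [e]; exact h.pd.symm
  · rw [e]; exact h.fv
  · rw [e]; exact h.fu

lemma indep (h : ExPair k A E u v p) : Indep (A \ {u, v}) {u, v} (E : Set (Sym2 V)) := by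
  refine ⟨Finset.sdiff_disjoint, ?_⟩
  intro x hx y hy hxy
  simp only [Finset.mem_insert, Finset.mem_singleton] at hx hy
  have h1 := h.nadj
  rcases hx with rfl | rfl <;> rcases hy with rfl | rfl
  · exact absurd rfl hxy
  · exact_mod_cast h1
  · rw [Sym2.eq_swap]; exact_mod_cast h1
  · exact absurd rfl hxy

lemma mem_erase (_h : ExPair k A E u v p) {x : V} (hx : x ∈ A \ {u, v}) : x ∈ A.erase u := by
  simp only [Finset.mem_sdiff, Finset.mem_insert, Finset.mem_singleton, not_or] at hx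
  exact Finset.mem_erase.mpr ⟨hx.2.1, hx.1⟩

lemma nbr_v (h : ExPair k A E u v p) :
    nbr (A \ {u, v}) (E : Set (Sym2 V)) v = nbr (A.erase v) (E : Set (Sym2 V)) v :=
  h.ce.nbr_eq (X := {u, v}) (by
      intro x hx
      simp only [Finset.mem_insert, Finset.mem_singleton] at hx
      rcases hx with rfl | rfl
      exacts [h.hu, h.hv]) (by simp) (by
      intro y hy hvy
      simp only [Finset.mem_insert, Finset.mem_singleton] at hy
      rcases hy with rfl | rfl
      · rw [Sym2.eq_swap]; exact h.nadj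
      · exact absurd rfl hvy)

/-- the motions of `A - u`, restricted to `A \ {u, v}` -/
lemma map_cut (h : ExPair k A E u v p) :
    (Mot (A.erase u) (E : Set (Sym2 V)) p).map (cut k (A \ {u, v})) =
      Mot (A \ {u, v}) (E : Set (Sym2 V)) p ⊓
        Att p (nbr (A.erase v) (E : Set (Sym2 V)) v : Set V) (p v) := by
  have h1 := map_cut_Mot h.indep (Y := {v}) (by simp) p
  rw [Isp_singleton] at h1
  have h2 : A \ {u, v} ∪ {v} = A.erase u := by
    rw [Finset.union_comm, ← Finset.insert_eq, sdiff_pair_insert h.hv h.huv]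
  have h3 : AttU (A \ {u, v}) (E : Set (Sym2 V)) p v
      = Att p (nbr (A.erase v) (E : Set (Sym2 V)) v : Set V) (p v) := by
    rw [← h.nbr_v]
    rfl
  rw [h2, h3] at h1
  exact h1

lemma cut_mem (h : ExPair k A E u v p) {Z : V → Vec k}
    (hZ : Z ∈ Mot (A.erase u) (E : Set (Sym2 V)) p) :
    cut k (A \ {u, v}) Z ∈ Mot (A \ {u, v}) (E : Set (Sym2 V)) p ⊓
        Att p (nbr (A.erase v) (E : Set (Sym2 V)) v : Set V) (p v) := by
  rw [← h.map_cut]
  exact Submodule.mem_map_of_mem hZ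

lemma exists_ext (h : ExPair k A E u v p) {Y : V → Vec k}
    (hY : Y ∈ Mot (A \ {u, v}) (E : Set (Sym2 V)) p ⊓
        Att p (nbr (A.erase v) (E : Set (Sym2 V)) v : Set V) (p v)) :
    ∃ Z ∈ Mot (A.erase u) (E : Set (Sym2 V)) p, ∀ x ∈ A \ {u, v}, Z x = Y x := by
  rw [← h.map_cut] at hY
  obtain ⟨Z, hZ, rfl⟩ := hY
  exact ⟨Z, hZ, fun x hx => (cut_apply _ hx).symm⟩

/-- `Q` is the sum of the motions of `A - u` and of `A - v` -/
lemma Q_le (h : ExPair k A E u v p) {L : Submodule k (V → Vec k)}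
    (h1 : ∀ Z ∈ Mot (A.erase u) (E : Set (Sym2 V)) p, cut k (A \ {u, v}) Z ∈ L)
    (h2 : ∀ Z ∈ Mot (A.erase v) (E : Set (Sym2 V)) p, cut k (A \ {u, v}) Z ∈ L) :
    QX (A \ {u, v}) {u, v} (E : Set (Sym2 V)) p ≤ L := by
  have e1 : Mot (A \ {u, v}) (E : Set (Sym2 V)) p ⊓
      Att p (nbr (A.erase v) (E : Set (Sym2 V)) v : Set V) (p v) ≤ L := by
    intro Y hY
    rw [← h.map_cut] at hY
    obtain ⟨Z, hZ, rfl⟩ := hY
    exact h1 Z hZ
  have e2 : Mot (A \ {u, v}) (E : Set (Sym2 V)) p ⊓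
      Att p (nbr (A.erase u) (E : Set (Sym2 V)) u : Set V) (p u) ≤ L := by
    intro Y hY
    have e : ({v, u} : Finset V) = {u, v} := Finset.pair_comm _ _
    have hmc := h.symm.map_cut
    rw [e] at hmc
    rw [← hmc] at hY
    obtain ⟨Z, hZ, rfl⟩ := hY
    exact h2 Z hZ
  have hfK : FiniteDimensional k (Mot (A \ {u, v}) (E : Set (Sym2 V)) p) := inferInstance
  have hfu : FiniteDimensional k (Mot (A \ {u, v}) (E : Set (Sym2 V)) p ⊓
      Att p (nbr (A.erase u) (E : Set (Sym2 V)) u : Set V) (p u) : Submodule k (V → Vec k)) :=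
    Submodule.finiteDimensional_of_le inf_le_left
  have hfv : FiniteDimensional k (Mot (A \ {u, v}) (E : Set (Sym2 V)) p ⊓
      Att p (nbr (A.erase v) (E : Set (Sym2 V)) v : Set V) (p v) : Submodule k (V → Vec k)) :=
    Submodule.finiteDimensional_of_le inf_le_left
  have hfQ : FiniteDimensional k (QX (A \ {u, v}) {u, v} (E : Set (Sym2 V)) p) :=
    Submodule.finiteDimensional_of_le h.pd.QK
  -- `Q` is the sum, by dimension
  have hle : (Mot (A \ {u, v}) (E : Set (Sym2 V)) p ⊓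
      Att p (nbr (A.erase u) (E : Set (Sym2 V)) u : Set V) (p u)) ⊔
      (Mot (A \ {u, v}) (E : Set (Sym2 V)) p ⊓
      Att p (nbr (A.erase v) (E : Set (Sym2 V)) v : Set V) (p v)) ≤
      QX (A \ {u, v}) {u, v} (E : Set (Sym2 V)) p := sup_le h.pd.KuQ h.pd.KvQ
  have h7 : finrank k ((Mot (A \ {u, v}) (E : Set (Sym2 V)) p ⊓
      Att p (nbr (A.erase u) (E : Set (Sym2 V)) u : Set V) (p u)) ⊓
      (Mot (A \ {u, v}) (E : Set (Sym2 V)) p ⊓
      Att p (nbr (A.erase v) (E : Set (Sym2 V)) v : Set V) (p v)) :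
      Submodule k (V → Vec k)) ≤ 7 := by
    have h8 := map_cut_Mot h.indep (Y := {u, v}) subset_rfl p
    rw [Isp_pair] at h8
    have hX : ({u, v} : Finset V) ⊆ A := by
      intro x hx
      simp only [Finset.mem_insert, Finset.mem_singleton] at hx
      rcases hx with rfl | rfl
      exacts [h.hu, h.hv]
    rw [Finset.sdiff_union_of_subset hX] at h8
    have h9 : AttU (A \ {u, v}) (E : Set (Sym2 V)) p v
        = Att p (nbr (A.erase v) (E : Set (Sym2 V)) v : Set V) (p v) := by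
      rw [← h.nbr_v]; rfl
    have h10 : AttU (A \ {u, v}) (E : Set (Sym2 V)) p u
        = Att p (nbr (A.erase u) (E : Set (Sym2 V)) u : Set V) (p u) := by
      have e : ({v, u} : Finset V) = {u, v} := Finset.pair_comm _ _
      have := h.symm.nbr_v
      rw [e] at this
      rw [← this]; rfl
    rw [h9, h10] at h8
    have h11 : (Mot (A \ {u, v}) (E : Set (Sym2 V)) p ⊓
      Att p (nbr (A.erase u) (E : Set (Sym2 V)) u : Set V) (p u)) ⊓
      (Mot (A \ {u, v}) (E : Set (Sym2 V)) p ⊓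
      Att p (nbr (A.erase v) (E : Set (Sym2 V)) v : Set V) (p v)) =
      (Mot A (E : Set (Sym2 V)) p).map (cut k (A \ {u, v})) := by
      rw [h8]
      ext Z
      simp only [Submodule.mem_inf]
      tauto
    rw [h11]
    refine (Submodule.finrank_map_le _ _).trans ?_
    have h12 := h.ce.mdim_eq h.nice
    unfold mdim at h12
    exact h12.le
  have h8 := Submodule.finrank_sup_add_finrank_inf_eq
    (Mot (A \ {u, v}) (E : Set (Sym2 V)) p ⊓
      Att p (nbr (A.erase u) (E : Set (Sym2 V)) u : Set V) (p u))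
    (Mot (A \ {u, v}) (E : Set (Sym2 V)) p ⊓
      Att p (nbr (A.erase v) (E : Set (Sym2 V)) v : Set V) (p v))
  have h9 := h.pd.finKu
  have h10 := h.pd.finKv
  have h11 := h.pd.finQ
  have h12 : (Mot (A \ {u, v}) (E : Set (Sym2 V)) p ⊓
      Att p (nbr (A.erase u) (E : Set (Sym2 V)) u : Set V) (p u)) ⊔
      (Mot (A \ {u, v}) (E : Set (Sym2 V)) p ⊓
      Att p (nbr (A.erase v) (E : Set (Sym2 V)) v : Set V) (p v)) =
      QX (A \ {u, v}) {u, v} (E : Set (Sym2 V)) p :=
    Submodule.eq_of_le_of_finrank_le hle (by omega)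
  rw [← h12]
  exact sup_le e2 e1

/-- the vertex `v` may be forgotten: motions of `A - u` rigid on `N(v)` -/
lemma finrank_inf_RG_ge (h : ExPair k A E u v p)
    (h7 : finrank k (Mot (A \ {u, v}) (E : Set (Sym2 V)) p ⊓
        Att p (nbr (A.erase v) (E : Set (Sym2 V)) v : Set V) (p v) ⊓
        RG p (nbr (A.erase v) (E : Set (Sym2 V)) v : Set V) : Submodule k (V → Vec k)) = 7) :
    7 ≤ finrank k (Mot (A.erase u) (E : Set (Sym2 V)) p ⊓
      RG p (nbr (A.erase v) (E : Set (Sym2 V)) v : Set V) : Submodule k (V → Vec k)) := by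
  rw [← h7]
  have hle : (Mot (A \ {u, v}) (E : Set (Sym2 V)) p ⊓
        Att p (nbr (A.erase v) (E : Set (Sym2 V)) v : Set V) (p v) ⊓
        RG p (nbr (A.erase v) (E : Set (Sym2 V)) v : Set V) : Submodule k (V → Vec k)) ≤
      (Mot (A.erase u) (E : Set (Sym2 V)) p ⊓
        RG p (nbr (A.erase v) (E : Set (Sym2 V)) v : Set V)).map (cut k (A \ {u, v})) := by
    rintro Y ⟨hY, hYR⟩
    rw [← h.map_cut] at hY
    obtain ⟨Z, hZ, rfl⟩ := hY
    refine ⟨Z, ⟨hZ, (mem_RG_congr fun y hy => ?_).mp hYR⟩, rfl⟩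
    exact cut_apply _ (h.pd.subv (by exact_mod_cast hy))
  have hfd : FiniteDimensional k (Mot (A.erase u) (E : Set (Sym2 V)) p ⊓
      RG p (nbr (A.erase v) (E : Set (Sym2 V)) v : Set V) : Submodule k (V → Vec k)) :=
    Submodule.finiteDimensional_of_le inf_le_left
  exact (Submodule.finrank_mono hle).trans (Submodule.finrank_map_le _ _)

/-- **EXCHANGE.** -/
theorem exchange (h : ExPair k A E u v p) {w d e : V} (hw : w ∈ A \ {u, v})
    (hd : d ∈ A \ {u, v}) (he : e ∈ A \ {u, v}) {t : k}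
    (h1 : ∀ Z ∈ Mot (A.erase u) (E : Set (Sym2 V)) p, eps p w e Z = t * eps p w d Z)
    (h2 : ∀ Z ∈ Mot (A.erase v) (E : Set (Sym2 V)) p, eps p w e Z = t * eps p w d Z)
    (hne : ∃ Z ∈ Mot (A \ {u, v}) (E : Set (Sym2 V)) p, eps p w e Z ≠ t * eps p w d Z) :
    7 ≤ finrank k (Mot (A.erase u) (E : Set (Sym2 V)) p ⊓
      RG p (nbr (A.erase v) (E : Set (Sym2 V)) v : Set V) : Submodule k (V → Vec k)) ∧
    ∀ Z ∈ Mot (A.erase u) (E : Set (Sym2 V)) p,
      Z ∈ RG p (nbr (A.erase v) (E : Set (Sym2 V)) v : Set V) → eps p w d Z = 0 := by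
  have hr : ∀ Z ∈ QX (A \ {u, v}) {u, v} (E : Set (Sym2 V)) p,
      eps p w e Z = t * eps p w d Z := by
    have hQ := h.Q_le (L := LinearMap.ker (eps p w e - t • eps p w d))
      (fun Z hZ => by
        rw [LinearMap.mem_ker, LinearMap.sub_apply, LinearMap.smul_apply, smul_eq_mul,
          eps_cut p Z hw he, eps_cut p Z hw hd, h1 Z hZ, sub_self])
      (fun Z hZ => by
        rw [LinearMap.mem_ker, LinearMap.sub_apply, LinearMap.smul_apply, smul_eq_mul,
          eps_cut p Z hw he, eps_cut p Z hw hd, h2 Z hZ, sub_self])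
    intro Z hZ
    have h3 := hQ hZ
    rw [LinearMap.mem_ker, LinearMap.sub_apply, LinearMap.smul_apply, smul_eq_mul] at h3
    exact sub_eq_zero.mp h3
  obtain ⟨h7, h8⟩ := h.pd.exchange_gen h.fv hw hd he hr hne
  refine ⟨h.finrank_inf_RG_ge h7, fun Z hZ hZR => ?_⟩
  have h9 := h8 (cut k (A \ {u, v}) Z) ⟨h.cut_mem hZ, (mem_RG_congr fun y hy => ?_).mpr hZR⟩
  · rwa [eps_cut p Z hw hd] at h9
  · exact cut_apply _ (h.pd.subv (by exact_mod_cast hy))

section TypB

variable {a b c d e : V} {t : k}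

/-- the motions of `A \ {u, v}` to which `v` can be attached are of type B -/
lemma att_le_TB (h : ExPair k A E u v p)
    (hL : Lab (nbr (A.erase u) (E : Set (Sym2 V)) u) a b c d e)
    (hTB : Mot (A.erase u) (E : Set (Sym2 V)) p ≤ TB p a b c d e t) :
    Mot (A \ {u, v}) (E : Set (Sym2 V)) p ⊓
        Att p (nbr (A.erase v) (E : Set (Sym2 V)) v : Set V) (p v) ≤ TB p a b c d e t := by
  intro Y hY
  rw [← h.map_cut] at hY
  obtain ⟨Z, hZ, rfl⟩ := hY
  have hc : ∀ x ∈ nbr (A.erase u) (E : Set (Sym2 V)) u, cut k (A \ {u, v}) Z x = Z x :=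
    fun x hx => cut_apply _ (h.pd.subu hx)
  exact (mem_TB_congr (hc a hL.ha) (hc b hL.hb) (hc c hL.hc) (hc d hL.hd) (hc e hL.he)).mpr
    (hTB hZ)

lemma not_att_le_TA (h : ExPair k A E u v p)
    (hnA : ¬ Mot (A.erase u) (E : Set (Sym2 V)) p
      ≤ TA p (nbr (A.erase u) (E : Set (Sym2 V)) u : Set V)) :
    ¬ (Mot (A \ {u, v}) (E : Set (Sym2 V)) p ⊓
        Att p (nbr (A.erase v) (E : Set (Sym2 V)) v : Set V) (p v) ≤
      TA p (nbr (A.erase u) (E : Set (Sym2 V)) u : Set V)) := by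
  intro hc
  refine hnA fun Z hZ => ?_
  refine (mem_TA_congr fun y hy => ?_).mp (hc (h.cut_mem hZ))
  exact cut_apply _ (h.pd.subu (by exact_mod_cast hy))

/-- the labels and the constant are the same on `Q` -/
theorem Q_le_TB (h : ExPair k A E u v p)
    (hL : Lab (nbr (A.erase u) (E : Set (Sym2 V)) u) a b c d e)
    (hTB : Mot (A.erase u) (E : Set (Sym2 V)) p ≤ TB p a b c d e t)
    (hnA : ¬ Mot (A.erase u) (E : Set (Sym2 V)) p
      ≤ TA p (nbr (A.erase u) (E : Set (Sym2 V)) u : Set V)) :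
    QX (A \ {u, v}) {u, v} (E : Set (Sym2 V)) p ≤ TB p a b c d e t :=
  h.pd.Q_le_TB hL (h.att_le_TB hL hTB) (h.not_att_le_TA hnA)

/-- the labels and the constant are the same on the motions of `A - v` -/
theorem erase_le_TB (h : ExPair k A E u v p)
    (hL : Lab (nbr (A.erase u) (E : Set (Sym2 V)) u) a b c d e)
    (hTB : Mot (A.erase u) (E : Set (Sym2 V)) p ≤ TB p a b c d e t)
    (hnA : ¬ Mot (A.erase u) (E : Set (Sym2 V)) p
      ≤ TA p (nbr (A.erase u) (E : Set (Sym2 V)) u : Set V)) :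
    Mot (A.erase v) (E : Set (Sym2 V)) p ≤ TB p a b c d e t := by
  intro Z hZ
  have h1 := h.symm.cut_mem hZ
  have e1 : ({v, u} : Finset V) = {u, v} := Finset.pair_comm _ _
  rw [e1] at h1
  have h2 := h.Q_le_TB hL hTB hnA (h.pd.KuQ h1)
  have hc : ∀ x ∈ nbr (A.erase u) (E : Set (Sym2 V)) u, cut k (A \ {u, v}) Z x = Z x :=
    fun x hx => cut_apply _ (h.pd.subu hx)
  exact (mem_TB_congr (hc a hL.ha) (hc b hL.hb) (hc c hL.hc) (hc d hL.hd) (hc e hL.he)).mp h2

/-- the dimension of the motions of `A - u` which are rigid on `N(u)` -/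
lemma dim_two (h : ExPair k A E u v p) :
    finrank k (Mot (A.erase u) (E : Set (Sym2 V)) p ⊓
      RG p (nbr (A.erase u) (E : Set (Sym2 V)) u : Set V) : Submodule k (V → Vec k)) + 2 ≤
    finrank k (Mot (A.erase u) (E : Set (Sym2 V)) p) := by
  have h3 := h.ce.finrank_inf_RG h.nice h.hu
  have h4 : finrank k (Mot (A.erase u) (E : Set (Sym2 V)) p) = gdim k (A.erase u)
    (E : Set (Sym2 V)) := h.nice.reg _ (Finset.erase_subset u A) _
  rw [h4, h.ce.gdim_erase h.hu h.d5u]
  omega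

lemma body_mem (hL : Lab (nbr (A.erase u) (E : Set (Sym2 V)) u) a b c d e) {w : V}
    (hw : w = a ∨ w = b ∨ w = c) : w ∈ nbr (A.erase u) (E : Set (Sym2 V)) u := by
  rcases hw with rfl | rfl | rfl
  exacts [hL.ha, hL.hb, hL.hc]

/-- some motion of `A - u` is not rigid on `w d` -/
lemma exists_ne (h : ExPair k A E u v p)
    (hL : Lab (nbr (A.erase u) (E : Set (Sym2 V)) u) a b c d e)
    (hTB : Mot (A.erase u) (E : Set (Sym2 V)) p ≤ TB p a b c d e t) {w : V}
    (hw : w = a ∨ w = b ∨ w = c) :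
    ∃ Z ∈ Mot (A.erase u) (E : Set (Sym2 V)) p, eps p w d Z ≠ 0 :=
  TB_exists_ne hL h.pd.gpu hTB h.dim_two hw

/-- **`v` is in the block of `w` iff the ratio of `w e` and `w d` is not constant.** -/
theorem inBlock_iff (h : ExPair k A E u v p)
    (hL : Lab (nbr (A.erase u) (E : Set (Sym2 V)) u) a b c d e)
    (hTB : Mot (A.erase u) (E : Set (Sym2 V)) p ≤ TB p a b c d e t) {w : V}
    (hw : w = a ∨ w = b ∨ w = c) :
    InBlock k A E u v d e w ↔
      ∃ Z ∈ Mot (A \ {u, v}) (E : Set (Sym2 V)) p, eps p w e Z ≠ t * eps p w d Z := by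
  have hwU := h.pd.subu (body_mem hL hw)
  have hdU := h.pd.subu hL.hd
  have heU := h.pd.subu hL.he
  rw [InBlock_iff h.nice.reg hwU hdU heU]
  constructor
  · rintro ⟨Z, hZ, h1, h2⟩
    refine ⟨Z, hZ, ?_⟩
    rw [h1, mul_zero]
    exact h2
  · rintro ⟨Z, hZ, h1⟩
    obtain ⟨Z₀, hZ₀, h2⟩ := h.exists_ne hL hTB hw
    have h3 : eps p w e Z₀ = t * eps p w d Z₀ := TB_ratio (hTB hZ₀) hw
    set Y := cut k (A \ {u, v}) Z₀ with hY
    have hYK : Y ∈ Mot (A \ {u, v}) (E : Set (Sym2 V)) p := (h.cut_mem hZ₀).1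
    have h4 : eps p w d Y = eps p w d Z₀ := eps_cut p Z₀ hwU hdU
    have h5 : eps p w e Y = eps p w e Z₀ := eps_cut p Z₀ hwU heU
    refine ⟨eps p w d Z₀ • Z - eps p w d Z • Y,
      Submodule.sub_mem _ (Submodule.smul_mem _ _ hZ) (Submodule.smul_mem _ _ hYK), ?_, ?_⟩
    · rw [map_sub, map_smul, map_smul, h4, smul_eq_mul, smul_eq_mul]
      ring
    · rw [map_sub, map_smul, map_smul, h5, h3, smul_eq_mul, smul_eq_mul]
      intro hc
      have h6 : eps p w d Z₀ * (eps p w e Z - t * eps p w d Z) = 0 := by linear_combination hc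
      exact h1 (sub_eq_zero.mp ((mul_eq_zero.mp h6).resolve_left h2))

/-- the ratio is constant if `v` is not in the block of `w` -/
theorem ratio_of_not (h : ExPair k A E u v p)
    (hL : Lab (nbr (A.erase u) (E : Set (Sym2 V)) u) a b c d e)
    (hTB : Mot (A.erase u) (E : Set (Sym2 V)) p ≤ TB p a b c d e t) {w : V}
    (hw : w = a ∨ w = b ∨ w = c) (hnot : ¬ InBlock k A E u v d e w) :
    ∀ Z ∈ Mot (A \ {u, v}) (E : Set (Sym2 V)) p, eps p w e Z = t * eps p w d Z := by
  intro Z hZ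
  by_contra hne
  exact hnot ((h.inBlock_iff hL hTB hw).mpr ⟨Z, hZ, hne⟩)

/-- if `v` is in the block of `w`, the motion of `A - u` which is rigid on `N(v)` is rigid
on `w d` -/
theorem rigid_of_inBlock (h : ExPair k A E u v p)
    (hL : Lab (nbr (A.erase u) (E : Set (Sym2 V)) u) a b c d e)
    (hTB : Mot (A.erase u) (E : Set (Sym2 V)) p ≤ TB p a b c d e t)
    (hnA : ¬ Mot (A.erase u) (E : Set (Sym2 V)) p
      ≤ TA p (nbr (A.erase u) (E : Set (Sym2 V)) u : Set V)) {w : V}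
    (hw : w = a ∨ w = b ∨ w = c) (hin : InBlock k A E u v d e w) :
    7 ≤ finrank k (Mot (A.erase u) (E : Set (Sym2 V)) p ⊓
      RG p (nbr (A.erase v) (E : Set (Sym2 V)) v : Set V) : Submodule k (V → Vec k)) ∧
    ∀ Z ∈ Mot (A.erase u) (E : Set (Sym2 V)) p,
      Z ∈ RG p (nbr (A.erase v) (E : Set (Sym2 V)) v : Set V) → eps p w d Z = 0 :=
  h.exchange (h.pd.subu (body_mem hL hw)) (h.pd.subu hL.hd) (h.pd.subu hL.he)
    (fun _ hZ => TB_ratio (hTB hZ) hw)
    (fun _ hZ => TB_ratio (h.erase_le_TB hL hTB hnA hZ) hw)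
    ((h.inBlock_iff hL hTB hw).mp hin)

/-- **`v` belongs to exactly one of the three circuits.** -/
theorem existsUnique_block (h : ExPair k A E u v p)
    (hL : Lab (nbr (A.erase u) (E : Set (Sym2 V)) u) a b c d e) (ht : t ≠ 0)
    (hTB : Mot (A.erase u) (E : Set (Sym2 V)) p ≤ TB p a b c d e t)
    (hnA : ¬ Mot (A.erase u) (E : Set (Sym2 V)) p
      ≤ TA p (nbr (A.erase u) (E : Set (Sym2 V)) u : Set V)) :
    ∃ w, (w = a ∨ w = b ∨ w = c) ∧ InBlock k A E u v d e w ∧
      ∀ w', (w' = a ∨ w' = b ∨ w' = c) → InBlock k A E u v d e w' → w' = w := by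
  have hQ := h.Q_le_TB hL hTB hnA
  obtain ⟨w, hw, hne⟩ := h.pd.exchange_exists hL ht hQ (h.not_att_le_TA hnA)
  refine ⟨w, hw, (h.inBlock_iff hL hTB hw).mpr hne, fun w' hw' hin => ?_⟩
  by_contra hww
  exact h.pd.exchange_unique hL hQ h.fv hw' hw hww ((h.inBlock_iff hL hTB hw').mp hin) hne

/-- `w d` and `w e` are not edges -/
lemma notMem_E (h : ExPair k A E u v p)
    (hL : Lab (nbr (A.erase u) (E : Set (Sym2 V)) u) a b c d e) (ht : t ≠ 0)
    (hTB : Mot (A.erase u) (E : Set (Sym2 V)) p ≤ TB p a b c d e t) {w : V}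
    (hw : w = a ∨ w = b ∨ w = c) : s(w, d) ∉ E ∧ s(w, e) ∉ E := by
  obtain ⟨Z, hZ, hne⟩ := h.exists_ne hL hTB hw
  have hwA := h.mem_erase (h.pd.subu (body_mem hL hw))
  have hdA := h.mem_erase (h.pd.subu hL.hd)
  have heA := h.mem_erase (h.pd.subu hL.he)
  constructor
  · intro hc
    exact hne (hZ.2.2 w hwA d hdA (by exact_mod_cast hc))
  · intro hc
    have h1 := hZ.2.2 w hwA e heA (by exact_mod_cast hc)
    rw [TB_ratio (hTB hZ) hw] at h1
    exact hne ((mul_eq_zero.mp h1).resolve_left ht)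

end TypB

end ExPair

end GR
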