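import Mathlib

/-! # Regular, complete, projective fans: finitely many characters become comparable -/

set_option autoImplicit false

namespace Pool.Agent.GR

open scoped Matrix

universe u

/-- Vectors and characters. -/
abbrev Vec (r : ℕ) : Type := Fin r → ℤ

section basic

variable {r : ℕ} {𝔾 : Type u} [AddCommGroup 𝔾]

/-- The value at `g` of the combination `∑ c b • b`. -/
noncomputable def ev (g : Vec r) : (Vec r →₀ 𝔾) →+ 𝔾 :=
  Finsupp.liftAddHom fun b => zsmulAddGroupHom (b ⬝ᵥ g)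

theorem ev_single (g b : Vec r) (x : 𝔾) : ev g (Finsupp.single b x) = (b ⬝ᵥ g) • x := by
  rw [ev, Finsupp.liftAddHom_apply_single]
  rfl

theorem ev_eq_sum (g : Vec r) (c : Vec r →₀ 𝔾) (S : Finset (Vec r)) (hS : ∀ b, b ∉ S → c b = 0) :
    ev g c = ∑ b ∈ S, (b ⬝ᵥ g) • c b := by
  rw [ev, Finsupp.liftAddHom_apply]
  refine Finset.sum_subset (fun b hb => ?_) (fun b _ hb => ?_)
  · by_contra h
    exact (Finsupp.mem_support_iff.1 hb) (hS b h)
  · rw [Finsupp.notMem_support_iff.1 hb]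
    exact map_zero _

/-- Move `x` from `b1` and `b2` to `b0`. -/
noncomputable def mv (b0 b1 b2 : Vec r) (x : 𝔾) (c : Vec r →₀ 𝔾) : Vec r →₀ 𝔾 :=
  c - Finsupp.single b1 x - Finsupp.single b2 x + Finsupp.single b0 x

variable {b0 b1 b2 : Vec r}

theorem mv_b1 (h12 : b1 ≠ b2) (h01 : b0 ≠ b1) (x : 𝔾) (c : Vec r →₀ 𝔾) :
    mv b0 b1 b2 x c b1 = c b1 - x := by
  simp [mv, h12.symm, h01]

theorem mv_b2 (h12 : b1 ≠ b2) (h02 : b0 ≠ b2) (x : 𝔾) (c : Vec r →₀ 𝔾) :
    mv b0 b1 b2 x c b2 = c b2 - x := by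
  simp [mv, h12, h02]

theorem mv_b0 (h01 : b0 ≠ b1) (h02 : b0 ≠ b2) (x : 𝔾) (c : Vec r →₀ 𝔾) :
    mv b0 b1 b2 x c b0 = c b0 + x := by
  simp [mv, h01.symm, h02.symm]

theorem mv_other {b : Vec r} (h0 : b ≠ b0) (h1 : b ≠ b1) (h2 : b ≠ b2) (x : 𝔾)
    (c : Vec r →₀ 𝔾) : mv b0 b1 b2 x c b = c b := by
  simp [mv, h0.symm, h1.symm, h2.symm]

theorem ev_mv (h0 : b0 = b1 + b2) (g : Vec r) (x : 𝔾) (c : Vec r →₀ 𝔾) :
    ev g (mv b0 b1 b2 x c) = ev g c := by
  rw [mv, map_add, map_sub, map_sub, ev_single, ev_single, ev_single, h0, add_dotProduct, add_zsmul]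
  abel

theorem mv_mv (x y : 𝔾) (c : Vec r →₀ 𝔾) : mv b0 b1 b2 x (mv b0 b1 b2 y c) =
    mv b0 b1 b2 (x + y) c := by
  simp only [mv, Finsupp.single_add]
  abel

theorem mv_zero (c : Vec r →₀ 𝔾) : mv b0 b1 b2 0 c = c := by
  simp [mv]

end basic

section fan

variable {r : ℕ} {𝔾 : Type u} [AddCommGroup 𝔾] [LinearOrder 𝔾] [IsOrderedAddMonoid 𝔾]

/-- `w = ∑ b ∈ S, c b • b` with nonnegative coefficients. -/
structure Rep (S : Finset (Vec r)) (w : Vec r →+ 𝔾) (c : Vec r →₀ 𝔾) : Prop where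
  nonneg : ∀ b, 0 ≤ c b
  supp : ∀ b, b ∉ S → c b = 0
  eq : ∀ g, w g = ev g c

/-- The cones of `C` cover everything and meet in common faces (points with values in `𝔾`). -/
structure Good (𝔾 : Type u) [AddCommGroup 𝔾] [LinearOrder 𝔾] [IsOrderedAddMonoid 𝔾]
    (C : Finset (Finset (Vec r))) : Prop where
  complete : ∀ w : Vec r →+ 𝔾, ∃ S ∈ C, ∃ c, Rep S w c
  unique : ∀ w : Vec r →+ 𝔾, ∀ S ∈ C, ∀ S' ∈ C, ∀ c c', Rep S w c → Rep S' w c' → c = c'

/-- `d` is the dual basis of the basis `S`. -/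
structure Dual (S : Finset (Vec r)) (d : Vec r → Vec r) : Prop where
  self : ∀ b ∈ S, b ⬝ᵥ d b = 1
  other : ∀ b ∈ S, ∀ b' ∈ S, b' ≠ b → b' ⬝ᵥ d b = 0
  span : ∀ g, g = ∑ b ∈ S, (b ⬝ᵥ g) • d b

theorem Dual.ne_zero {S : Finset (Vec r)} {d : Vec r → Vec r} (h : Dual S d) {b : Vec r}
    (hb : b ∈ S) : b ≠ 0 := by
  rintro rfl
  have h1 := h.self 0 hb
  rw [zero_dotProduct] at h1
  exact zero_ne_one h1

/-- `h` is strictly convex. -/
def Conv (C : Finset (Finset (Vec r))) (h : Vec r → ℤ) : Prop :=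
  ∀ S ∈ C, ∃ l : Vec r, (∀ b ∈ S, b ⬝ᵥ l = h b) ∧ ∀ S' ∈ C, ∀ b ∈ S', b ∉ S → h b < b ⬝ᵥ l

/-- Star subdivision at `b1 + b2`. -/
def starCone (b1 b2 : Vec r) (S : Finset (Vec r)) : Finset (Finset (Vec r)) :=
  if b1 ∈ S ∧ b2 ∈ S then {insert (b1 + b2) (S.erase b1), insert (b1 + b2) (S.erase b2)} else {S}

/-- Star subdivision at `b1 + b2`. -/
def star (b1 b2 : Vec r) (C : Finset (Finset (Vec r))) : Finset (Finset (Vec r)) :=
  C.biUnion (starCone b1 b2)

theorem mem_star {b1 b2 : Vec r} {C : Finset (Finset (Vec r))} {T : Finset (Vec r)} :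
    T ∈ star b1 b2 C ↔ (∃ S ∈ C, b1 ∈ S ∧ b2 ∈ S ∧ (T = insert (b1 + b2) (S.erase b1) ∨
      T = insert (b1 + b2) (S.erase b2))) ∨ (T ∈ C ∧ ¬ (b1 ∈ T ∧ b2 ∈ T)) := by
  rw [star, Finset.mem_biUnion]
  constructor
  · rintro ⟨S, hS, hT⟩
    rw [starCone] at hT
    split_ifs at hT with h
    · rw [Finset.mem_insert, Finset.mem_singleton] at hT
      exact Or.inl ⟨S, hS, h.1, h.2, hT⟩
    · rw [Finset.mem_singleton] at hT
      subst hT
      exact Or.inr ⟨hS, h⟩
  · rintro (⟨S, hS, h1, h2, hT⟩ | ⟨hT, h⟩)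
    · refine ⟨S, hS, ?_⟩
      rw [starCone, if_pos ⟨h1, h2⟩, Finset.mem_insert, Finset.mem_singleton]
      exact hT
    · refine ⟨T, hT, ?_⟩
      rw [starCone, if_neg h, Finset.mem_singleton]

/-- The data needed for a star subdivision. -/
structure Pair (C : Finset (Finset (Vec r))) (b1 b2 : Vec r) : Prop where
  ne : b1 ≠ b2
  mem : ∃ S ∈ C, b1 ∈ S ∧ b2 ∈ S

section star

variable {C : Finset (Finset (Vec r))} {b1 b2 : Vec r}

theorem Pair.symm (h : Pair C b1 b2) : Pair C b2 b1 := by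
  obtain ⟨h1, S, hS, h2, h3⟩ := h
  exact ⟨h1.symm, S, hS, h3, h2⟩

theorem Pair.ne1 (h : Pair C b1 b2) (hd : ∀ S ∈ C, ∃ d, Dual S d) : b1 + b2 ≠ b1 := by
  obtain ⟨_, S, hS, h2, h3⟩ := h
  obtain ⟨d, hd⟩ := hd S hS
  intro h4
  exact hd.ne_zero h3 (by simpa using h4)

theorem Pair.ne2 (h : Pair C b1 b2) (hd : ∀ S ∈ C, ∃ d, Dual S d) : b1 + b2 ≠ b2 := by
  obtain ⟨_, S, hS, h2, h3⟩ := h
  obtain ⟨d, hd⟩ := hd S hS
  intro h4
  exact hd.ne_zero h2 (by simpa using h4)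

/-- The new ray is not an old one. -/
theorem Pair.notMem (h : Pair C b1 b2) (hd : ∀ S ∈ C, ∃ d, Dual S d) (hg : Good ℤ C)
    {S' : Finset (Vec r)} (hS' : S' ∈ C) : b1 + b2 ∉ S' := by
  intro h0
  obtain ⟨hne, S, hS, h1, h2⟩ := id h
  have h01 := h.ne1 hd
  have h02 := h.ne2 hd
  let w : Vec r →+ ℤ :=
    { toFun := fun g => (b1 + b2) ⬝ᵥ g
      map_zero' := dotProduct_zero _
      map_add' := fun x y => dotProduct_add _ x y }
  have hR : Rep S' w (Finsupp.single (b1 + b2) 1) := by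
    refine ⟨fun b => ?_, fun b hb => ?_, fun g => ?_⟩
    · rw [Finsupp.single_apply]
      split_ifs <;> norm_num
    · rw [Finsupp.single_apply, if_neg]
      rintro rfl
      exact hb h0
    · rw [ev_single]
      simp [w]
  have hR' : Rep S w (Finsupp.single b1 1 + Finsupp.single b2 1) := by
    refine ⟨fun b => ?_, fun b hb => ?_, fun g => ?_⟩
    · rw [Finsupp.add_apply, Finsupp.single_apply, Finsupp.single_apply]
      split_ifs <;> norm_num
    · rw [Finsupp.add_apply, Finsupp.single_apply, Finsupp.single_apply, if_neg, if_neg]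
      · rfl
      · rintro rfl
        exact hb h2
      · rintro rfl
        exact hb h1
    · rw [map_add, ev_single, ev_single]
      simp [w, add_dotProduct]
  have h3 := hg.unique w S' hS' S hS _ _ hR hR'
  have h4 := DFunLike.congr_fun h3 (b1 + b2)
  rw [Finsupp.add_apply, Finsupp.single_apply, Finsupp.single_apply, Finsupp.single_apply,
    if_pos rfl, if_neg h01.symm, if_neg h02.symm] at h4
  norm_num at h4

/-- The representation in the old fan. -/
theorem Pair.back (h : Pair C b1 b2) (hd : ∀ S ∈ C, ∃ d, Dual S d) (hg : Good ℤ C)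
    {T : Finset (Vec r)} (hT : T ∈ star b1 b2 C) {w : Vec r →+ 𝔾} {c : Vec r →₀ 𝔾}
    (hc : Rep T w c) : (∃ S ∈ C, Rep S w (mv (b1 + b2) b1 b2 (-c (b1 + b2)) c)) ∧
      c (b1 + b2) = min (mv (b1 + b2) b1 b2 (-c (b1 + b2)) c b1)
        (mv (b1 + b2) b1 b2 (-c (b1 + b2)) c b2) := by
  have hne := h.ne
  have h01 := h.ne1 hd
  have h02 := h.ne2 hd
  rw [mv_b1 hne h01, mv_b2 hne h02, sub_neg_eq_add, sub_neg_eq_add]
  rcases mem_star.1 hT with ⟨S, hS, h1, h2, hTS⟩ | ⟨hTC, h12⟩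
  · have h0S := h.notMem hd hg hS
    have key : Rep S w (mv (b1 + b2) b1 b2 (-c (b1 + b2)) c) := by
      refine ⟨fun b => ?_, fun b hb => ?_, fun g => ?_⟩
      · by_cases hb0 : b = b1 + b2
        · rw [hb0, mv_b0 h01 h02]
          simp
        by_cases hb1 : b = b1
        · rw [hb1, mv_b1 hne h01, sub_neg_eq_add]
          exact add_nonneg (hc.nonneg _) (hc.nonneg _)
        by_cases hb2 : b = b2
        · rw [hb2, mv_b2 hne h02, sub_neg_eq_add]
          exact add_nonneg (hc.nonneg _) (hc.nonneg _)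
        rw [mv_other hb0 hb1 hb2]
        exact hc.nonneg _
      · by_cases hb0 : b = b1 + b2
        · rw [hb0, mv_b0 h01 h02]
          simp
        have hb1 : b ≠ b1 := by
          rintro rfl
          exact hb h1
        have hb2 : b ≠ b2 := by
          rintro rfl
          exact hb h2
        rw [mv_other hb0 hb1 hb2]
        refine hc.supp b fun h3 => hb ?_
        rcases hTS with rfl | rfl
        · rw [Finset.mem_insert] at h3
          exact Finset.mem_of_mem_erase (h3.resolve_left hb0)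
        · rw [Finset.mem_insert] at h3
          exact Finset.mem_of_mem_erase (h3.resolve_left hb0)
      · rw [ev_mv rfl]
        exact hc.eq g
    refine ⟨⟨S, hS, key⟩, ?_⟩
    rcases hTS with rfl | rfl
    · have h3 : c b1 = 0 := hc.supp b1 (by
        rw [Finset.mem_insert, not_or]
        exact ⟨h01.symm, Finset.notMem_erase b1 S⟩)
      rw [h3, zero_add, min_eq_left]
      have := hc.nonneg b2
      exact le_add_of_nonneg_left this
    · have h3 : c b2 = 0 := hc.supp b2 (by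
        rw [Finset.mem_insert, not_or]
        exact ⟨h02.symm, Finset.notMem_erase b2 S⟩)
      rw [h3, zero_add, min_eq_right]
      have := hc.nonneg b1
      exact le_add_of_nonneg_left this
  · have h0 : c (b1 + b2) = 0 := hc.supp _ (h.notMem hd hg hTC)
    rw [h0, neg_zero, mv_zero, add_zero, add_zero]
    refine ⟨⟨T, hTC, hc⟩, ?_⟩
    by_cases h3 : b1 ∈ T
    · have h4 : c b2 = 0 := hc.supp b2 fun h5 => h12 ⟨h3, h5⟩
      rw [h4, min_eq_right (hc.nonneg b1)]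
    · have h4 : c b1 = 0 := hc.supp b1 h3
      rw [h4, min_eq_left (hc.nonneg b2)]

theorem Pair.good (h : Pair C b1 b2) (hd : ∀ S ∈ C, ∃ d, Dual S d) (hgZ : Good ℤ C)
    (hg : Good 𝔾 C) : Good 𝔾 (star b1 b2 C) := by
  have hne := h.ne
  have h01 := h.ne1 hd
  have h02 := h.ne2 hd
  refine ⟨fun w => ?_, fun w T hT T' hT' c c' hc hc' => ?_⟩
  · obtain ⟨S, hS, c, hc⟩ := hg.complete w
    by_cases h12 : b1 ∈ S ∧ b2 ∈ S
    · have h0S := h.notMem hd hgZ hS
      have h0 : c (b1 + b2) = 0 := hc.supp _ h0S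
      rcases le_total (c b1) (c b2) with hle | hle
      · refine ⟨insert (b1 + b2) (S.erase b1), mem_star.2 (Or.inl ⟨S, hS, h12.1, h12.2, Or.inl rfl⟩),
          mv (b1 + b2) b1 b2 (c b1) c, fun b => ?_, fun b hb => ?_, fun g => ?_⟩
        · by_cases hb0 : b = b1 + b2
          · rw [hb0, mv_b0 h01 h02]
            exact add_nonneg (hc.nonneg _) (hc.nonneg _)
          by_cases hb1 : b = b1
          · rw [hb1, mv_b1 hne h01, sub_self]
          by_cases hb2 : b = b2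
          · rw [hb2, mv_b2 hne h02]
            exact sub_nonneg.2 hle
          rw [mv_other hb0 hb1 hb2]
          exact hc.nonneg _
        · rw [Finset.mem_insert, not_or] at hb
          obtain ⟨hb0, hb3⟩ := hb
          by_cases hb1 : b = b1
          · rw [hb1, mv_b1 hne h01, sub_self]
          have hbS : b ∉ S := fun h5 => hb3 (Finset.mem_erase.2 ⟨hb1, h5⟩)
          have hb2 : b ≠ b2 := by
            rintro rfl
            exact hbS h12.2
          rw [mv_other hb0 hb1 hb2]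
          exact hc.supp b hbS
        · rw [ev_mv rfl]
          exact hc.eq g
      · refine ⟨insert (b1 + b2) (S.erase b2), mem_star.2 (Or.inl ⟨S, hS, h12.1, h12.2, Or.inr rfl⟩),
          mv (b1 + b2) b1 b2 (c b2) c, fun b => ?_, fun b hb => ?_, fun g => ?_⟩
        · by_cases hb0 : b = b1 + b2
          · rw [hb0, mv_b0 h01 h02]
            exact add_nonneg (hc.nonneg _) (hc.nonneg _)
          by_cases hb1 : b = b1
          · rw [hb1, mv_b1 hne h01]
            exact sub_nonneg.2 hle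
          by_cases hb2 : b = b2
          · rw [hb2, mv_b2 hne h02, sub_self]
          rw [mv_other hb0 hb1 hb2]
          exact hc.nonneg _
        · rw [Finset.mem_insert, not_or] at hb
          obtain ⟨hb0, hb3⟩ := hb
          by_cases hb2 : b = b2
          · rw [hb2, mv_b2 hne h02, sub_self]
          have hbS : b ∉ S := fun h5 => hb3 (Finset.mem_erase.2 ⟨hb2, h5⟩)
          have hb1 : b ≠ b1 := by
            rintro rfl
            exact hbS h12.1
          rw [mv_other hb0 hb1 hb2]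
          exact hc.supp b hbS
        · rw [ev_mv rfl]
          exact hc.eq g
    · exact ⟨S, mem_star.2 (Or.inr ⟨hS, h12⟩), c, hc⟩
  · obtain ⟨⟨S, hS, h1⟩, h2⟩ := h.back hd hgZ hT hc
    obtain ⟨⟨S', hS', h1'⟩, h2'⟩ := h.back hd hgZ hT' hc'
    have h3 := hg.unique w S hS S' hS' _ _ h1 h1'
    rw [h3] at h2
    have h4 : c (b1 + b2) = c' (b1 + b2) := h2.trans h2'.symm
    have h5 := congrArg (mv (b1 + b2) b1 b2 (c (b1 + b2))) h3
    rw [mv_mv, h4, mv_mv, add_neg_cancel, mv_zero, mv_zero] at h5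
    exact h5

end star

section star2

variable {C : Finset (Finset (Vec r))} {b1 b2 : Vec r}

/-- The dual basis after a star subdivision. -/
noncomputable def dualStar (b1 b2 : Vec r) (d : Vec r → Vec r) (b : Vec r) : Vec r :=
  if b = b1 + b2 then d b1 else if b = b2 then d b2 - d b1 else d b

theorem Dual.star {S : Finset (Vec r)} {d : Vec r → Vec r} (h : Dual S d) (h1 : b1 ∈ S)
    (h2 : b2 ∈ S) (hne : b1 ≠ b2) (h0 : b1 + b2 ∉ S) :
    Dual (insert (b1 + b2) (S.erase b1)) (dualStar b1 b2 d) := by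
  have h02 : b1 + b2 ≠ b2 := fun h5 => h0 (h5.symm ▸ h2)
  have hd0 : dualStar b1 b2 d (b1 + b2) = d b1 := if_pos rfl
  have hd2 : dualStar b1 b2 d b2 = d b2 - d b1 := by rw [dualStar, if_neg h02.symm, if_pos rfl]
  have hdo : ∀ b, b ≠ b1 + b2 → b ≠ b2 → dualStar b1 b2 d b = d b := fun b h3 h4 => by
    rw [dualStar, if_neg h3, if_neg h4]
  have h20 : b2 ⬝ᵥ d b1 = 0 := h.other b1 h1 b2 h2 hne.symm
  have h12 : b1 ⬝ᵥ d b2 = 0 := h.other b2 h2 b1 h1 hne
  refine ⟨fun b hb => ?_, fun b hb b' hb' hbb => ?_, fun g => ?_⟩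
  · rw [Finset.mem_insert, Finset.mem_erase] at hb
    rcases hb with rfl | ⟨hb1, hbS⟩
    · rw [hd0, add_dotProduct, h.self b1 h1, h20, add_zero]
    · have hb0 : b ≠ b1 + b2 := fun h5 => h0 (h5 ▸ hbS)
      by_cases hb2 : b = b2
      · rw [hb2, hd2, dotProduct_sub, h.self b2 h2, h20, sub_zero]
      · rw [hdo b hb0 hb2, h.self b hbS]
  · rw [Finset.mem_insert, Finset.mem_erase] at hb hb'
    rcases hb with rfl | ⟨hb1, hbS⟩
    · rcases hb' with rfl | ⟨hb1', hbS'⟩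
      · exact absurd rfl hbb
      · rw [hd0]
        exact h.other b1 h1 b' hbS' hb1'
    · have hb0 : b ≠ b1 + b2 := fun h5 => h0 (h5 ▸ hbS)
      rcases hb' with rfl | ⟨hb1', hbS'⟩
      · by_cases hb2 : b = b2
        · rw [hb2, hd2, dotProduct_sub, add_dotProduct, add_dotProduct, h.self b2 h2, h12, h20,
            h.self b1 h1]
          norm_num
        · rw [hdo b hb0 hb2, add_dotProduct, h.other b hbS b1 h1 (Ne.symm hb1),
            h.other b hbS b2 h2 (Ne.symm hb2), add_zero]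
      · by_cases hb2 : b = b2
        · rw [hb2] at hbb ⊢
          rw [hd2, dotProduct_sub, h.other b2 h2 b' hbS' hbb, h.other b1 h1 b' hbS' hb1', sub_zero]
        · rw [hdo b hb0 hb2]
          exact h.other b hbS b' hbS' hbb
  · have hn0 : b1 + b2 ∉ S.erase b1 := fun h5 => h0 (Finset.mem_of_mem_erase h5)
    have h2e : b2 ∈ S.erase b1 := Finset.mem_erase.2 ⟨hne.symm, h2⟩
    rw [Finset.sum_insert hn0, hd0, ← Finset.add_sum_erase _ _ h2e, hd2]
    have e1 : ∑ b ∈ (S.erase b1).erase b2, (b ⬝ᵥ g) • dualStar b1 b2 d b =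
        ∑ b ∈ (S.erase b1).erase b2, (b ⬝ᵥ g) • d b := by
      refine Finset.sum_congr rfl fun b hb => ?_
      rw [Finset.mem_erase, Finset.mem_erase] at hb
      rw [hdo b (fun h5 => h0 (h5 ▸ hb.2.2)) hb.1]
    rw [e1]
    conv_lhs => rw [h.span g, ← Finset.add_sum_erase _ _ h1, ← Finset.add_sum_erase _ _ h2e]
    rw [add_dotProduct, add_smul, smul_sub]
    abel

theorem Pair.dual (h : Pair C b1 b2) (hd : ∀ S ∈ C, ∃ d, Dual S d) (hg : Good ℤ C) :
    ∀ T ∈ star b1 b2 C, ∃ d, Dual T d := by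
  intro T hT
  rcases mem_star.1 hT with ⟨S, hS, h1, h2, hTS⟩ | ⟨hTC, _⟩
  · obtain ⟨d, hdS⟩ := hd S hS
    have h0 := h.notMem hd hg hS
    rcases hTS with hTS | hTS
    · rw [hTS]
      exact ⟨_, hdS.star h1 h2 h.ne h0⟩
    · have h3 := hdS.star (b1 := b2) (b2 := b1) h2 h1 h.ne.symm (by rw [add_comm]; exact h0)
      rw [add_comm] at h3
      rw [hTS]
      exact ⟨_, h3⟩
  · exact hd T hTC

theorem mem_star_ray {T : Finset (Vec r)} (hT : T ∈ star b1 b2 C) {b : Vec r} (hb : b ∈ T)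
    (h0 : b ≠ b1 + b2) : ∃ S ∈ C, b ∈ S := by
  rcases mem_star.1 hT with ⟨S, hS, _, _, hTS⟩ | ⟨hTC, _⟩
  · refine ⟨S, hS, ?_⟩
    rcases hTS with rfl | rfl
    · exact Finset.mem_of_mem_erase ((Finset.mem_insert.1 hb).resolve_left h0)
    · exact Finset.mem_of_mem_erase ((Finset.mem_insert.1 hb).resolve_left h0)
  · exact ⟨T, hTC, hb⟩

theorem conv_star_aux {S T : Finset (Vec r)} {h h' : Vec r → ℤ} {d : Vec r → Vec r} {N : ℤ}
    {b1 b2 : Vec r} (hne : b1 ≠ b2) (hS : S ∈ C) (hdS : Dual S d) (h1 : b1 ∈ S) (h2 : b2 ∈ S) (h0 : ∀ S ∈ C, b1 + b2 ∉ S)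
    (hT : T = insert (b1 + b2) (S.erase b1)) (l : Vec r) (hl : ∀ b ∈ S, b ⬝ᵥ l = h b)
    (hl' : ∀ S' ∈ C, ∀ b ∈ S', b ∉ S → h b < b ⬝ᵥ l) (hN0 : 0 < N)
    (hN : ∀ S' ∈ C, ∀ b ∈ S', |b ⬝ᵥ d b1| < N)
    (hh0 : h' (b1 + b2) = N * (h b1 + h b2) + 1) (hh : ∀ b, b ≠ b1 + b2 → h' b = N * h b) :
    ∃ l : Vec r, (∀ b ∈ T, b ⬝ᵥ l = h' b) ∧ ∀ T' ∈ star b1 b2 C, ∀ b ∈ T', b ∉ T → h' b < b ⬝ᵥ l := by
  have h20 : b2 ⬝ᵥ d b1 = 0 := hdS.other b1 h1 b2 h2 hne.symm
  refine ⟨N • l + d b1, fun b hb => ?_, fun T' hT' b hb hbT => ?_⟩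
  · rw [dotProduct_add, dotProduct_smul, smul_eq_mul]
    rw [hT, Finset.mem_insert] at hb
    rcases hb with rfl | hb
    · rw [hh0, add_dotProduct, add_dotProduct, hl b1 h1, hl b2 h2, hdS.self b1 h1, h20, add_zero]
    · rw [Finset.mem_erase] at hb
      rw [hl b hb.2, hdS.other b1 h1 b hb.2 hb.1, add_zero, hh b fun h5 => h0 S hS (h5 ▸ hb.2)]
  · rw [dotProduct_add, dotProduct_smul, smul_eq_mul]
    have hb0 : b ≠ b1 + b2 := by
      rintro rfl
      exact hbT (hT ▸ Finset.mem_insert_self _ _)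
    rw [hh b hb0]
    by_cases hbS : b ∈ S
    · have hb1 : b = b1 := by
        by_contra h5
        exact hbT (hT ▸ Finset.mem_insert_of_mem (Finset.mem_erase.2 ⟨h5, hbS⟩))
      rw [hb1, hl b1 h1, hdS.self b1 h1]
      linarith
    · obtain ⟨S', hS', hbS'⟩ := mem_star_ray hT' hb hb0
      have h3 := hl' S' hS' b hbS' hbS
      have h4 := hN S' hS' b hbS'
      rw [abs_lt] at h4
      have h5 : N * 1 ≤ N * (b ⬝ᵥ l - h b) := mul_le_mul_of_nonneg_left (by linarith) hN0.le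
      have h6 : N * (b ⬝ᵥ l - h b) = N * b ⬝ᵥ l - N * h b := by ring
      linarith [h4.1]

theorem Pair.conv (hp : Pair C b1 b2) (hd : ∀ S ∈ C, ∃ d, Dual S d) (hg : Good ℤ C)
    {h : Vec r → ℤ} (hh : Conv C h) : ∃ h', Conv (star b1 b2 C) h' := by
  classical
  have h0 : ∀ S ∈ C, b1 + b2 ∉ S := fun S hS => hp.notMem hd hg hS
  choose! d hdS using hd
  let N : ℤ := 2 + ∑ S ∈ C, ∑ b ∈ C.biUnion id, (|b ⬝ᵥ d S b1| + |b ⬝ᵥ d S b2|)
  have hNle : ∀ S ∈ C, ∀ S' ∈ C, ∀ b ∈ S', |b ⬝ᵥ d S b1| + |b ⬝ᵥ d S b2| ≤ N - 2 := by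
    intro S hS S' hS' b hb
    have e1 : |b ⬝ᵥ d S b1| + |b ⬝ᵥ d S b2| ≤
        ∑ b ∈ C.biUnion id, (|b ⬝ᵥ d S b1| + |b ⬝ᵥ d S b2|) :=
      Finset.single_le_sum (f := fun b => |b ⬝ᵥ d S b1| + |b ⬝ᵥ d S b2|)
        (fun b _ => add_nonneg (abs_nonneg _) (abs_nonneg _))
        (Finset.mem_biUnion.2 ⟨S', hS', hb⟩)
    have e2 : ∑ b ∈ C.biUnion id, (|b ⬝ᵥ d S b1| + |b ⬝ᵥ d S b2|) ≤
        ∑ S ∈ C, ∑ b ∈ C.biUnion id, (|b ⬝ᵥ d S b1| + |b ⬝ᵥ d S b2|) :=
      Finset.single_le_sum (f := fun S => ∑ b ∈ C.biUnion id, (|b ⬝ᵥ d S b1| + |b ⬝ᵥ d S b2|))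
        (fun S _ => Finset.sum_nonneg fun b _ => add_nonneg (abs_nonneg _) (abs_nonneg _)) hS
    show _ ≤ 2 + _ - 2
    linarith
  have hN2 : 2 ≤ N := by
    have : 0 ≤ ∑ S ∈ C, ∑ b ∈ C.biUnion id, (|b ⬝ᵥ d S b1| + |b ⬝ᵥ d S b2|) :=
      Finset.sum_nonneg fun S _ => Finset.sum_nonneg fun b _ =>
        add_nonneg (abs_nonneg _) (abs_nonneg _)
    show 2 ≤ 2 + _
    linarith
  have hN1 : ∀ S ∈ C, ∀ S' ∈ C, ∀ b ∈ S', |b ⬝ᵥ d S b1| < N := fun S hS S' hS' b hb => by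
    have := hNle S hS S' hS' b hb
    have := abs_nonneg (b ⬝ᵥ d S b2)
    linarith
  have hN3 : ∀ S ∈ C, ∀ S' ∈ C, ∀ b ∈ S', |b ⬝ᵥ d S b2| < N := fun S hS S' hS' b hb => by
    have := hNle S hS S' hS' b hb
    have := abs_nonneg (b ⬝ᵥ d S b1)
    linarith
  let h' : Vec r → ℤ := fun b => if b = b1 + b2 then N * (h b1 + h b2) + 1 else N * h b
  have hh0 : h' (b1 + b2) = N * (h b1 + h b2) + 1 := if_pos rfl
  have hho : ∀ b, b ≠ b1 + b2 → h' b = N * h b := fun b hb => if_neg hb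
  refine ⟨h', fun T hT => ?_⟩
  rcases mem_star.1 hT with ⟨S, hS, h1, h2, hTS⟩ | ⟨hTC, h12⟩
  · obtain ⟨l, hl, hl'⟩ := hh S hS
    rcases hTS with hTS | hTS
    · exact conv_star_aux hp.ne hS (hdS S hS) h1 h2 h0 hTS l hl hl' (by linarith) (hN1 S hS) hh0 hho
    · have h0' : ∀ S ∈ C, b2 + b1 ∉ S := fun S hS => by
        rw [add_comm]
        exact h0 S hS
      have h3 := conv_star_aux (b1 := b2) (b2 := b1) (h := h) (h' := h')
        (T := T) hp.ne.symm hS (hdS S hS) h2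
        h1 h0' (by rw [hTS, add_comm]) l hl hl' (by linarith) (hN3 S hS)
        (by rw [add_comm b2 b1, hh0, add_comm (h b2)]) (by rw [add_comm b2 b1]; exact hho)
      obtain ⟨l', hl1, hl2⟩ := h3
      refine ⟨l', hl1, fun T' hT' b hb hbT => ?_⟩
      refine hl2 T' ?_ b hb hbT
      rcases mem_star.1 hT' with ⟨S', hS', h1', h2', hTS'⟩ | ⟨hTC', h12'⟩
      · refine mem_star.2 (Or.inl ⟨S', hS', h2', h1', ?_⟩)
        rw [add_comm b2 b1]
        exact hTS'.symm
      · exact mem_star.2 (Or.inr ⟨hTC', fun h5 => h12' ⟨h5.2, h5.1⟩⟩)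
  · obtain ⟨l, hl, hl'⟩ := hh T hTC
    refine ⟨N • l, fun b hb => ?_, fun T' hT' b hb hbT => ?_⟩
    · rw [dotProduct_smul, smul_eq_mul, hl b hb, hho b fun h5 => h0 T hTC (h5 ▸ hb)]
    · rw [dotProduct_smul, smul_eq_mul]
      by_cases hb0 : b = b1 + b2
      · rw [hb0, hh0, add_dotProduct]
        obtain ⟨_, S, hS, h1, h2⟩ := id hp
        have g1 : h b1 ≤ b1 ⬝ᵥ l := by
          by_cases h3 : b1 ∈ T
          · exact (hl b1 h3).ge
          · exact (hl' S hS b1 h1 h3).le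
        have g2 : h b2 ≤ b2 ⬝ᵥ l := by
          by_cases h3 : b2 ∈ T
          · exact (hl b2 h3).ge
          · exact (hl' S hS b2 h2 h3).le
        have g3 : h b1 + h b2 + 1 ≤ b1 ⬝ᵥ l + b2 ⬝ᵥ l := by
          by_cases h3 : b1 ∈ T
          · have h4 : b2 ∉ T := fun h5 => h12 ⟨h3, h5⟩
            have := hl' S hS b2 h2 h4
            linarith
          · have := hl' S hS b1 h1 h3
            linarith
        have g4 : N * (h b1 + h b2 + 1) ≤ N * (b1 ⬝ᵥ l + b2 ⬝ᵥ l) :=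
          mul_le_mul_of_nonneg_left g3 (by linarith)
        have g5 : N * (h b1 + h b2 + 1) = N * (h b1 + h b2) + N := by ring
        linarith
      · obtain ⟨S', hS', hbS'⟩ := mem_star_ray hT' hb hb0
        rw [hho b hb0]
        exact mul_lt_mul_of_pos_left (hl' S' hS' b hbS' hbT) (by linarith)

end star2

/-- A fan: regular, complete, strictly convex. -/
structure IsFan (C : Finset (Finset (Vec r))) : Prop where
  goodZ : Good ℤ C
  good : ∀ (𝔾 : Type u) [AddCommGroup 𝔾] [LinearOrder 𝔾] [IsOrderedAddMonoid 𝔾], Good 𝔾 C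
  dual : ∀ S ∈ C, ∃ d, Dual S d
  conv : ∃ h, Conv C h

theorem IsFan.star {C : Finset (Finset (Vec r))} (hC : IsFan.{u} C) {b1 b2 : Vec r}
    (hp : Pair C b1 b2) : IsFan.{u} (star b1 b2 C) := by
  obtain ⟨h, hh⟩ := hC.conv
  exact ⟨hp.good hC.dual hC.goodZ hC.goodZ, fun 𝔾 _ _ _ => hp.good hC.dual hC.goodZ (hC.good 𝔾),
    hp.dual hC.dual hC.goodZ, hp.conv hC.dual hC.goodZ hh⟩

/-! ### The initial fan -/

/-- The rays of a chamber. -/
def ray (J : Finset (Fin r)) (i : Fin r) : Vec r := if i ∈ J then -Pi.single i 1 else Pi.single i 1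

/-- The chamber of the signs `J`. -/
def cham (J : Finset (Fin r)) : Finset (Vec r) := Finset.univ.image (ray J)

/-- All chambers. -/
def chams (r : ℕ) : Finset (Finset (Vec r)) := Finset.univ.image cham

/-- The sign. -/
def sgn (J : Finset (Fin r)) (i : Fin r) : ℤ := if i ∈ J then -1 else 1

theorem sgn_mul (J : Finset (Fin r)) (i : Fin r) : sgn J i * sgn J i = 1 := by
  rw [sgn]
  split_ifs <;> norm_num

theorem ray_dot (J : Finset (Fin r)) (i : Fin r) (g : Vec r) : ray J i ⬝ᵥ g = sgn J i * g i := by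
  rw [ray, sgn]
  split_ifs <;> simp

theorem ray_eq (J : Finset (Fin r)) (i : Fin r) : ray J i = sgn J i • Pi.single i 1 := by
  rw [ray, sgn]
  split_ifs <;> simp

theorem ray_apply (J : Finset (Fin r)) (i j : Fin r) : ray J i j = if j = i then sgn J i else 0 := by
  rw [ray_eq, Pi.smul_apply, Pi.single_apply]
  split_ifs <;> simp

theorem sgn_ne (J : Finset (Fin r)) (i : Fin r) : sgn J i ≠ 0 := by
  rw [sgn]
  split_ifs <;> norm_num

theorem ray_inj (J : Finset (Fin r)) : Function.Injective (ray J) := by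
  intro i j hij
  by_contra h
  have h1 := congrFun hij i
  rw [ray_apply, ray_apply, if_pos rfl, if_neg h] at h1
  exact sgn_ne J i h1

theorem mem_cham {J : Finset (Fin r)} {b : Vec r} : b ∈ cham J ↔ ∃ i, ray J i = b := by
  simp [cham]

theorem mem_chams {S : Finset (Vec r)} : S ∈ chams r ↔ ∃ J, cham J = S := by
  simp [chams]

omit [LinearOrder 𝔾] [IsOrderedAddMonoid 𝔾] in
theorem ev_cham (J : Finset (Fin r)) (c : Vec r →₀ 𝔾) (hc : ∀ b, b ∉ cham J → c b = 0)
    (i : Fin r) : ev (Pi.single i 1) c = sgn J i • c (ray J i) := by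
  rw [ev_eq_sum _ c (cham J) hc, cham, Finset.sum_image fun x _ y _ h => ray_inj J h,
    Finset.sum_eq_single i]
  · rw [ray_dot, Pi.single_apply, if_pos rfl, mul_one]
  · intro j _ hj
    rw [ray_dot, Pi.single_apply, if_neg hj, mul_zero, zero_smul]
  · intro h
    exact absurd (Finset.mem_univ i) h

theorem good_chams : Good 𝔾 (chams r) := by
  have hcoef : ∀ (J : Finset (Fin r)) (w : Vec r →+ 𝔾) (c : Vec r →₀ 𝔾), Rep (cham J) w c →
      ∀ i, c (ray J i) = sgn J i • w (Pi.single i 1) := by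
    intro J w c hc i
    rw [hc.eq, ev_cham J c hc.supp i, smul_smul, sgn_mul, one_smul]
  refine ⟨fun w => ?_, fun w S hS S' hS' c c' hc hc' => ?_⟩
  · let J : Finset (Fin r) := Finset.univ.filter fun i => w (Pi.single i 1) < 0
    have hJ : ∀ i, 0 ≤ sgn J i • w (Pi.single i 1) := by
      intro i
      rw [sgn]
      split_ifs with h
      · rw [neg_one_smul]
        exact neg_nonneg.2 (Finset.mem_filter.1 h).2.le
      · rw [one_smul]
        by_contra h1
        exact h (Finset.mem_filter.2 ⟨Finset.mem_univ _, not_le.1 h1⟩)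
    refine ⟨cham J, mem_chams.2 ⟨J, rfl⟩,
      ∑ i, Finsupp.single (ray J i) (sgn J i • w (Pi.single i 1)), fun b => ?_, fun b hb => ?_,
      fun g => ?_⟩
    · rw [Finsupp.finsetSum_apply]
      refine Finset.sum_nonneg fun i _ => ?_
      rw [Finsupp.single_apply]
      split_ifs
      · exact hJ i
      · exact le_rfl
    · rw [Finsupp.finsetSum_apply]
      refine Finset.sum_eq_zero fun i _ => ?_
      rw [Finsupp.single_apply, if_neg]
      intro h
      exact hb (mem_cham.2 ⟨i, h⟩)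
    · rw [map_sum]
      conv_lhs => rw [← Finset.univ_sum_single g, map_sum]
      refine Finset.sum_congr rfl fun i _ => ?_
      rw [ev_single, ray_dot, smul_smul, mul_right_comm, sgn_mul, one_mul, ← map_zsmul,
        ← Pi.single_smul, smul_eq_mul, mul_one]
  · obtain ⟨J, rfl⟩ := mem_chams.1 hS
    obtain ⟨J', rfl⟩ := mem_chams.1 hS'
    have key : ∀ (J J' : Finset (Fin r)) (c c' : Vec r →₀ 𝔾), Rep (cham J) w c →
        Rep (cham J') w c' → ∀ i, c (ray J i) = c' (ray J i) := by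
      intro J J' c c' hc hc' i
      by_cases h : ray J i ∈ cham J'
      · obtain ⟨j, hj⟩ := mem_cham.1 h
        have hji : j = i := by
          by_contra h1
          have h2 := congrFun hj j
          rw [ray_apply, ray_apply, if_pos rfl, if_neg h1] at h2
          exact sgn_ne J' j h2
        rw [hji] at hj
        have hs : sgn J' i = sgn J i := by
          have h2 := congrFun hj i
          rwa [ray_apply, ray_apply, if_pos rfl, if_pos rfl] at h2
        rw [hcoef J w c hc i, ← hj, hcoef J' w c' hc' i, hs]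
      · rw [hc'.supp _ h]
        have hs : sgn J' i = -sgn J i := by
          by_contra h1
          have h2 : sgn J' i = sgn J i := by
            rw [sgn, sgn] at h1 ⊢
            split_ifs at h1 ⊢ <;> simp_all
          exact h (mem_cham.2 ⟨i, by rw [ray_eq, ray_eq, h2]⟩)
        refine le_antisymm ?_ (hc.nonneg _)
        have h3 := hc'.nonneg (ray J' i)
        rw [hcoef J' w c' hc' i, hs, neg_smul] at h3
        rw [hcoef J w c hc i]
        exact neg_nonneg.1 h3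
    ext b
    by_cases hb : b ∈ cham J
    · obtain ⟨i, rfl⟩ := mem_cham.1 hb
      exact key J J' c c' hc hc' i
    · by_cases hb' : b ∈ cham J'
      · obtain ⟨i, rfl⟩ := mem_cham.1 hb'
        exact (key J' J c' c hc' hc i).symm
      · rw [hc.supp b hb, hc'.supp b hb']

theorem isFan_chams : IsFan.{u} (chams r) := by
  refine ⟨good_chams, fun 𝔾 _ _ _ => good_chams, fun S hS => ?_, fun _ => -1, fun S hS => ?_⟩
  · obtain ⟨J, rfl⟩ := mem_chams.1 hS
    refine ⟨id, fun b hb => ?_, fun b hb b' hb' hbb => ?_, fun g => ?_⟩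
    · obtain ⟨i, rfl⟩ := mem_cham.1 hb
      rw [id, ray_dot, ray_apply, if_pos rfl, sgn_mul]
    · obtain ⟨i, rfl⟩ := mem_cham.1 hb
      obtain ⟨j, rfl⟩ := mem_cham.1 hb'
      rw [id, ray_dot, ray_apply, if_neg, mul_zero]
      rintro rfl
      exact hbb rfl
    · rw [cham, Finset.sum_image fun x _ y _ h => ray_inj J h]
      conv_lhs => rw [← Finset.univ_sum_single g]
      refine Finset.sum_congr rfl fun i _ => ?_
      rw [id, ray_dot, ray_eq, smul_smul, mul_right_comm, sgn_mul, one_mul, ← Pi.single_smul,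
        smul_eq_mul, mul_one]
  · obtain ⟨J, rfl⟩ := mem_chams.1 hS
    refine ⟨fun i => -sgn J i, fun b hb => ?_, fun S' hS' b hb hbn => ?_⟩
    · obtain ⟨i, rfl⟩ := mem_cham.1 hb
      rw [ray_dot, mul_neg, sgn_mul]
    · obtain ⟨J', rfl⟩ := mem_chams.1 hS'
      obtain ⟨i, rfl⟩ := mem_cham.1 hb
      have hs : sgn J' i = -sgn J i := by
        by_contra h1
        have h2 : sgn J' i = sgn J i := by
          rw [sgn, sgn] at h1 ⊢
          split_ifs at h1 ⊢ <;> simp_all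
        exact hbn (mem_cham.2 ⟨i, by rw [ray_eq, ray_eq, h2]⟩)
      rw [ray_dot, hs, neg_mul_neg, sgn_mul]
      norm_num

/-! ### Termination -/

/-- The pairs of rays on which `g` changes sign strictly, with difference `m`. -/
def bad (C : Finset (Finset (Vec r))) (g : Vec r) (m : ℤ) : Finset (Vec r × Vec r) :=
  ((C.biUnion id) ×ˢ (C.biUnion id)).filter fun q => (∃ S ∈ C, q.1 ∈ S ∧ q.2 ∈ S) ∧
    0 < q.1 ⬝ᵥ g ∧ q.2 ⬝ᵥ g < 0 ∧ q.1 ⬝ᵥ g - q.2 ⬝ᵥ g = m

theorem mem_bad {C : Finset (Finset (Vec r))} {g : Vec r} {m : ℤ} {q : Vec r × Vec r} :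
    q ∈ bad C g m ↔ (∃ S ∈ C, q.1 ∈ S ∧ q.2 ∈ S) ∧ 0 < q.1 ⬝ᵥ g ∧ q.2 ⬝ᵥ g < 0 ∧
      q.1 ⬝ᵥ g - q.2 ⬝ᵥ g = m := by
  rw [bad, Finset.mem_filter]
  constructor
  · exact fun h => h.2
  · intro h
    obtain ⟨S, hS, h1, h2⟩ := h.1
    exact ⟨Finset.mem_product.2 ⟨Finset.mem_biUnion.2 ⟨S, hS, h1⟩,
      Finset.mem_biUnion.2 ⟨S, hS, h2⟩⟩, h⟩

/-- The bad pairs after a star subdivision. -/
theorem bad_star {C : Finset (Finset (Vec r))} {g : Vec r} {m : ℤ} {b1 b2 : Vec r}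
    (h0 : ∀ S ∈ C, b1 + b2 ∉ S) (hne : b1 ≠ b2) (hb : (b1, b2) ∈ bad C g m)
    (hm : ∀ m', (bad C g m').Nonempty → m' ≤ m) {m' : ℤ} {q : Vec r × Vec r}
    (hq : q ∈ bad (star b1 b2 C) g m') : m' < m ∨ (q ∈ bad C g m' ∧ q ≠ (b1, b2)) := by
  obtain ⟨⟨S₀, hS₀, h10, h20⟩, hp1, hn2, hd⟩ := mem_bad.1 hb
  obtain ⟨⟨T, hT, hx, hy⟩, hpx, hny, hqm⟩ := mem_bad.1 hq
  obtain ⟨x, y⟩ := q
  dsimp only at *
  have h01 : b1 + b2 ≠ b1 := fun h5 => h0 S₀ hS₀ (h5.symm ▸ h10)
  have h02 : b1 + b2 ≠ b2 := fun h5 => h0 S₀ hS₀ (h5.symm ▸ h20)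
  have hb0 : (b1 + b2) ⬝ᵥ g = b1 ⬝ᵥ g + b2 ⬝ᵥ g := add_dotProduct _ _ _
  rcases mem_star.1 hT with ⟨S, hS, h1, h2, hTS⟩ | ⟨hTC, h12⟩
  · have hTin : ∀ z ∈ T, z ≠ b1 + b2 → z ∈ S := by
      intro z hz hz0
      rcases hTS with rfl | rfl
      · exact Finset.mem_of_mem_erase ((Finset.mem_insert.1 hz).resolve_left hz0)
      · exact Finset.mem_of_mem_erase ((Finset.mem_insert.1 hz).resolve_left hz0)
    by_cases hx0 : x = b1 + b2
    · left
      have hy0 : y ≠ b1 + b2 := by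
        rintro rfl
        rw [hx0] at hpx
        linarith
      have hyS := hTin y hy hy0
      have h3 := hm _ ⟨(b1, y), mem_bad.2 ⟨⟨S, hS, h1, hyS⟩, hp1, hny, rfl⟩⟩
      dsimp only at h3
      rw [hx0, hb0] at hqm
      linarith
    · by_cases hy0 : y = b1 + b2
      · left
        have hxS := hTin x hx hx0
        have h3 := hm _ ⟨(x, b2), mem_bad.2 ⟨⟨S, hS, hxS, h2⟩, hpx, hn2, rfl⟩⟩
        dsimp only at h3
        rw [hy0, hb0] at hqm
        linarith
      · right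
        refine ⟨mem_bad.2 ⟨⟨S, hS, hTin x hx hx0, hTin y hy hy0⟩, hpx, hny, hqm⟩, ?_⟩
        intro h3
        rw [Prod.mk.injEq] at h3
        obtain ⟨rfl, rfl⟩ := h3
        rcases hTS with rfl | rfl
        · exact (Finset.notMem_erase x S) ((Finset.mem_insert.1 hx).resolve_left h01.symm)
        · exact (Finset.notMem_erase y S) ((Finset.mem_insert.1 hy).resolve_left h02.symm)
  · right
    refine ⟨mem_bad.2 ⟨⟨T, hTC, hx, hy⟩, hpx, hny, hqm⟩, ?_⟩
    intro h3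
    rw [Prod.mk.injEq] at h3
    obtain ⟨rfl, rfl⟩ := h3
    exact h12 ⟨hx, hy⟩

/-- `g` has constant sign on every cone. -/
def Const (C : Finset (Finset (Vec r))) (g : Vec r) : Prop :=
  ∀ S ∈ C, (∀ b ∈ S, 0 ≤ b ⬝ᵥ g) ∨ (∀ b ∈ S, b ⬝ᵥ g ≤ 0)

theorem Const.star {C : Finset (Finset (Vec r))} {g : Vec r} (h : Const C g) (b1 b2 : Vec r) :
    Const (star b1 b2 C) g := by
  intro T hT
  rcases mem_star.1 hT with ⟨S, hS, h1, h2, hTS⟩ | ⟨hTC, _⟩
  · have hTin : ∀ z ∈ T, z = b1 + b2 ∨ z ∈ S := by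
      intro z hz
      rcases hTS with rfl | rfl
      · exact (Finset.mem_insert.1 hz).imp_right Finset.mem_of_mem_erase
      · exact (Finset.mem_insert.1 hz).imp_right Finset.mem_of_mem_erase
    rcases h S hS with h3 | h3
    · left
      intro b hb
      rcases hTin b hb with rfl | hb
      · rw [add_dotProduct]
        exact add_nonneg (h3 _ h1) (h3 _ h2)
      · exact h3 b hb
    · right
      intro b hb
      rcases hTin b hb with rfl | hb
      · rw [add_dotProduct]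
        exact add_nonpos (h3 _ h1) (h3 _ h2)
      · exact h3 b hb
  · exact h T hTC

theorem const_of_bad {C : Finset (Finset (Vec r))} {g : Vec r} (h : ∀ m, bad C g m = ∅) :
    Const C g := by
  intro S hS
  by_contra h1
  rw [not_or] at h1
  obtain ⟨h1, h2⟩ := h1
  push Not at h1 h2
  obtain ⟨b2, hb2, h2'⟩ := h1
  obtain ⟨b1, hb1, h1'⟩ := h2
  have h3 : (b1, b2) ∈ bad C g (b1 ⬝ᵥ g - b2 ⬝ᵥ g) := mem_bad.2 ⟨⟨S, hS, hb1, hb2⟩, h1', h2', rfl⟩
  rw [h] at h3
  exact absurd h3 (Finset.notMem_empty _)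

/-- Star subdivisions preserving what was achieved. -/
inductive Refines : Finset (Finset (Vec r)) → Finset (Finset (Vec r)) → Prop
  | refl (C) : Refines C C
  | step {C C' : Finset (Finset (Vec r))} (h : Refines C C') (b1 b2 : Vec r) :
      Refines C (star b1 b2 C')

theorem Refines.trans {C C' C'' : Finset (Finset (Vec r))} (h : Refines C C')
    (h' : Refines C' C'') : Refines C C'' := by
  induction h' with
  | refl => exact h
  | step _ b1 b2 ih => exact Refines.step ih b1 b2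

theorem Refines.const {C C' : Finset (Finset (Vec r))} (h : Refines C C') {g : Vec r}
    (hg : Const C g) : Const C' g := by
  induction h with
  | refl => exact hg
  | step _ b1 b2 ih => exact ih.star b1 b2

theorem exists_const (g : Vec r) : ∀ (m k : ℕ) (C : Finset (Finset (Vec r))), IsFan.{u} C →
    (∀ m' : ℤ, (bad C g m').Nonempty → m' ≤ m) → (bad C g m).card ≤ k →
    ∃ C', Refines C C' ∧ IsFan.{u} C' ∧ Const C' g := by
  intro m
  induction m with
  | zero =>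
    intro k C hC hm _
    refine ⟨C, Refines.refl C, hC, const_of_bad fun m => ?_⟩
    by_contra h
    obtain ⟨q, hq⟩ := Finset.nonempty_iff_ne_empty.2 h
    have h1 := hm m ⟨q, hq⟩
    obtain ⟨_, h2, h3, h4⟩ := mem_bad.1 hq
    push_cast at h1
    linarith
  | succ m ih =>
    intro k
    induction k with
    | zero =>
      intro C hC hm hk
      refine ih _ C hC (fun m' hm' => ?_) le_rfl
      have h1 := hm m' hm'
      have h2 : m' ≠ ((m + 1 : ℕ) : ℤ) := by
        rintro rfl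
        rw [Nat.le_zero, Finset.card_eq_zero] at hk
        rw [hk] at hm'
        exact Finset.not_nonempty_empty hm'
      push_cast at h1 h2
      omega
    | succ k ihk =>
      intro C hC hm hk
      rcases (bad C g ((m + 1 : ℕ) : ℤ)).eq_empty_or_nonempty with he | ⟨⟨b1, b2⟩, hb⟩
      · exact ihk C hC hm (by rw [he]; exact Nat.zero_le _)
      · obtain ⟨⟨S, hS, h1, h2⟩, hp1, hn2, hd⟩ := mem_bad.1 hb
        dsimp only at h1 h2 hp1 hn2 hd
        have hne : b1 ≠ b2 := by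
          rintro rfl
          linarith
        have hp : Pair C b1 b2 := ⟨hne, S, hS, h1, h2⟩
        have h0 : ∀ S ∈ C, b1 + b2 ∉ S := fun S hS => hp.notMem hC.dual hC.goodZ hS
        obtain ⟨C', h3, h4, h5⟩ := ihk (star b1 b2 C) (hC.star hp) (fun m' hm' => by
          obtain ⟨q, hq⟩ := hm'
          rcases bad_star h0 hne hb hm hq with h3 | h3
          · exact h3.le
          · exact hm m' ⟨q, h3.1⟩) (by
          have hsub : bad (star b1 b2 C) g ((m + 1 : ℕ) : ℤ) ⊆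
              (bad C g ((m + 1 : ℕ) : ℤ)).erase (b1, b2) := by
            intro q hq
            rcases bad_star h0 hne hb hm hq with h3 | h3
            · exact absurd h3 (lt_irrefl _)
            · exact Finset.mem_erase.2 ⟨h3.2, h3.1⟩
          have := Finset.card_le_card hsub
          rw [Finset.card_erase_of_mem hb] at this
          omega)
        exact ⟨C', ((Refines.refl C).step b1 b2).trans h3, h4, h5⟩

theorem exists_bound (C : Finset (Finset (Vec r))) (g : Vec r) :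
    ∃ m : ℕ, ∀ m' : ℤ, (bad C g m').Nonempty → m' ≤ m := by
  let R := C.biUnion id
  refine ⟨∑ b1 ∈ R, ∑ b2 ∈ R, (b1 ⬝ᵥ g - b2 ⬝ᵥ g).natAbs, fun m' hm' => ?_⟩
  obtain ⟨⟨b1, b2⟩, hq⟩ := hm'
  obtain ⟨⟨S, hS, h1, h2⟩, hp1, hn2, hd⟩ := mem_bad.1 hq
  dsimp only at h1 h2 hp1 hn2 hd
  have e1 : (b1 ⬝ᵥ g - b2 ⬝ᵥ g).natAbs ≤ ∑ b2 ∈ R, (b1 ⬝ᵥ g - b2 ⬝ᵥ g).natAbs :=
    Finset.single_le_sum (f := fun b2 => (b1 ⬝ᵥ g - b2 ⬝ᵥ g).natAbs) (fun _ _ => Nat.zero_le _)
      (Finset.mem_biUnion.2 ⟨S, hS, h2⟩)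
  have e2 : ∑ b2 ∈ R, (b1 ⬝ᵥ g - b2 ⬝ᵥ g).natAbs ≤
      ∑ b1 ∈ R, ∑ b2 ∈ R, (b1 ⬝ᵥ g - b2 ⬝ᵥ g).natAbs :=
    Finset.single_le_sum (f := fun b1 => ∑ b2 ∈ R, (b1 ⬝ᵥ g - b2 ⬝ᵥ g).natAbs)
      (fun _ _ => Nat.zero_le _) (Finset.mem_biUnion.2 ⟨S, hS, h1⟩)
  have e3 : m' ≤ ((b1 ⬝ᵥ g - b2 ⬝ᵥ g).natAbs : ℤ) := by
    rw [Int.natCast_natAbs, hd]
    exact le_abs_self _
  have e4 := e1.trans e2
  exact e3.trans (by exact_mod_cast e4)

/-- Every fan has a refinement by star subdivisions on whose cones all `g ∈ G` have constant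
sign. -/
theorem exists_refinement (C : Finset (Finset (Vec r))) (hC : IsFan.{u} C) (G : Finset (Vec r)) :
    ∃ C', Refines C C' ∧ IsFan.{u} C' ∧ ∀ g ∈ G, Const C' g := by
  classical
  induction G using Finset.induction_on with
  | empty => exact ⟨C, Refines.refl C, hC, fun g hg => absurd hg (Finset.notMem_empty g)⟩
  | insert g G _ ih =>
    obtain ⟨C', h1, h2, h3⟩ := ih
    obtain ⟨m, hm⟩ := exists_bound C' g
    obtain ⟨C'', h4, h5, h6⟩ := exists_const g m _ C' h2 hm le_rfl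
    refine ⟨C'', h1.trans h4, h5, fun g' hg' => ?_⟩
    rcases Finset.mem_insert.1 hg' with rfl | hg'
    · exact h6
    · exact h4.const (h3 g' hg')

/-! ### The final statement -/

/-- The basis of characters dual to a cone. -/
noncomputable def Dual.basis {S : Finset (Vec r)} {d : Vec r → Vec r} (h : Dual S d) :
    Module.Basis S ℤ (Vec r) :=
  Module.Basis.ofEquivFun
    { toFun := fun g b => (b : Vec r) ⬝ᵥ g
      map_add' := fun x y => by
        funext b
        exact dotProduct_add _ x y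
      map_smul' := fun n x => by
        funext b
        exact dotProduct_smul n _ x
      invFun := fun f => ∑ b : S, f b • d b
      left_inv := fun g => by
        dsimp only
        rw [Finset.sum_coe_sort S fun b => (b ⬝ᵥ g) • d b]
        exact (h.span g).symm
      right_inv := fun f => by
        funext b
        dsimp only
        rw [dotProduct_sum, Finset.sum_eq_single b]
        · rw [dotProduct_smul, h.self b b.2, smul_eq_mul, mul_one]
        · intro b' _ hb'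
          rw [dotProduct_smul, h.other b' b'.2 b b.2 (fun h1 => hb' (Subtype.ext h1.symm)),
            smul_zero]
        · intro h1
          exact absurd (Finset.mem_univ b) h1 }

theorem Dual.basis_apply {S : Finset (Vec r)} {d : Vec r → Vec r} (h : Dual S d) (b : S) :
    h.basis b = d b := by
  rw [Dual.basis, Module.Basis.coe_ofEquivFun]
  show ∑ b' : S, (Pi.single b (1 : ℤ) : S → ℤ) b' • d b' = d b
  rw [Finset.sum_eq_single b]
  · rw [Pi.single_eq_same, one_smul]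
  · intro b' _ hb'
    rw [Pi.single_eq_of_ne hb', zero_smul]
  · intro h1
    exact absurd (Finset.mem_univ b) h1

theorem Dual.basis_repr {S : Finset (Vec r)} {d : Vec r → Vec r} (h : Dual S d) (g : Vec r)
    (b : S) : h.basis.repr g b = (b : Vec r) ⬝ᵥ g := rfl

/-- `g` is a combination of the basis `e` with natural coefficients. -/
def InCone {r : ℕ} (e : Module.Basis (Fin r) ℤ (Vec r)) (g : Vec r) : Prop :=
  ∀ i, 0 ≤ e.repr g i

theorem InCone.exists_nat {e : Module.Basis (Fin r) ℤ (Vec r)} {g : Vec r} (h : InCone e g) :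
    ∃ n : Fin r → ℕ, g = ∑ i, n i • e i := by
  refine ⟨fun i => (e.repr g i).toNat, ?_⟩
  conv_lhs => rw [← e.sum_repr g]
  refine Finset.sum_congr rfl fun i _ => ?_
  rw [← natCast_zsmul, Int.toNat_of_nonneg (h i)]

theorem InCone.map_nonneg {e : Module.Basis (Fin r) ℤ (Vec r)} {g : Vec r} (h : InCone e g)
    {w : Vec r →+ 𝔾} (hw : ∀ i, 0 ≤ w (e i)) : 0 ≤ w g := by
  obtain ⟨n, rfl⟩ := h.exists_nat
  rw [map_sum]
  refine Finset.sum_nonneg fun i _ => ?_
  rw [map_nsmul]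
  exact nsmul_nonneg (hw i) _

/-- **Regular projective fans.** -/
theorem regular_fan (r : ℕ) (G : Finset (Vec r)) : ∃ (A : Finset (Vec r)) (ι : Type)
    (_ : Finite ι) (a : ι → Vec r) (e : ι → Module.Basis (Fin r) ℤ (Vec r)),
    (∀ s, a s ∈ A) ∧ (∀ s i, a s + e s i ∈ A) ∧ (∀ s, ∀ x ∈ A, InCone (e s) (x - a s)) ∧
    (∀ s, ∀ g ∈ G, InCone (e s) g ∨ InCone (e s) (-g)) ∧
    ∀ (𝔾 : Type u) [AddCommGroup 𝔾] [LinearOrder 𝔾] [IsOrderedAddMonoid 𝔾] (w : Vec r →+ 𝔾),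
      ∃ s, ∀ i, 0 ≤ w (e s i) := by
  classical
  obtain ⟨C, _, hC, hG⟩ := exists_refinement (chams r) isFan_chams.{u} G
  obtain ⟨h, hh⟩ := hC.conv
  have hdual := hC.dual
  choose! d hd using hdual
  choose! l hl hl' using hh
  let R := C.biUnion id
  let N : ℤ := 1 + ∑ S ∈ C, ∑ b' ∈ S, ∑ b ∈ R, |b ⬝ᵥ d S b'|
  have hN0 : 1 ≤ N := by
    have : 0 ≤ ∑ S ∈ C, ∑ b' ∈ S, ∑ b ∈ R, |b ⬝ᵥ d S b'| :=
      Finset.sum_nonneg fun S _ => Finset.sum_nonneg fun b' _ => Finset.sum_nonneg fun b _ =>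
        abs_nonneg _
    show 1 ≤ 1 + _
    linarith
  have hN : ∀ S ∈ C, ∀ b' ∈ S, ∀ S' ∈ C, ∀ b ∈ S', |b ⬝ᵥ d S b'| < N := by
    intro S hS b' hb' S' hS' b hb
    have e1 : |b ⬝ᵥ d S b'| ≤ ∑ b ∈ R, |b ⬝ᵥ d S b'| :=
      Finset.single_le_sum (f := fun b => |b ⬝ᵥ d S b'|) (fun _ _ => abs_nonneg _)
        (Finset.mem_biUnion.2 ⟨S', hS', hb⟩)
    have e2 : ∑ b ∈ R, |b ⬝ᵥ d S b'| ≤ ∑ b' ∈ S, ∑ b ∈ R, |b ⬝ᵥ d S b'| :=
      Finset.single_le_sum (f := fun b' => ∑ b ∈ R, |b ⬝ᵥ d S b'|)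
        (fun _ _ => Finset.sum_nonneg fun _ _ => abs_nonneg _) hb'
    have e3 : ∑ b' ∈ S, ∑ b ∈ R, |b ⬝ᵥ d S b'| ≤ ∑ S ∈ C, ∑ b' ∈ S, ∑ b ∈ R, |b ⬝ᵥ d S b'| :=
      Finset.single_le_sum (f := fun S => ∑ b' ∈ S, ∑ b ∈ R, |b ⬝ᵥ d S b'|)
        (fun _ _ => Finset.sum_nonneg fun _ _ => Finset.sum_nonneg fun _ _ => abs_nonneg _) hS
    show _ < 1 + _
    linarith
  let A : Finset (Vec r) := C.biUnion fun S => insert (N • l S) (S.image fun b' => N • l S + d S b')
  have hA1 : ∀ S ∈ C, N • l S ∈ A := fun S hS =>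
    Finset.mem_biUnion.2 ⟨S, hS, Finset.mem_insert_self _ _⟩
  have hA2 : ∀ S ∈ C, ∀ b' ∈ S, N • l S + d S b' ∈ A := fun S hS b' hb' =>
    Finset.mem_biUnion.2 ⟨S, hS, Finset.mem_insert_of_mem (Finset.mem_image.2 ⟨b', hb', rfl⟩)⟩
  have hA3 : ∀ x ∈ A, ∀ S ∈ C, ∀ b ∈ S, N * h b ≤ b ⬝ᵥ x := by
    intro x hx S hS b hb
    obtain ⟨S', hS', hx⟩ := Finset.mem_biUnion.1 hx
    have h1 : N * h b ≤ b ⬝ᵥ (N • l S') := by
      rw [dotProduct_smul, smul_eq_mul]
      refine mul_le_mul_of_nonneg_left ?_ (by linarith)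
      by_cases hbS : b ∈ S'
      · exact (hl S' hS' b hbS).ge
      · exact (hl' S' hS' S hS b hb hbS).le
    rcases Finset.mem_insert.1 hx with rfl | hx
    · exact h1
    · obtain ⟨b', hb', rfl⟩ := Finset.mem_image.1 hx
      rw [dotProduct_add]
      by_cases hbS : b ∈ S'
      · have h2 : 0 ≤ b ⬝ᵥ d S' b' := by
          by_cases hbb : b = b'
          · rw [hbb, (hd S' hS').self b' hb']
            norm_num
          · rw [(hd S' hS').other b' hb' b hbS hbb]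
        linarith
      · have h2 := hl' S' hS' S hS b hb hbS
        have h3 := hN S' hS' b' hb' S hS b hb
        rw [abs_lt] at h3
        have h4 : N * (h b + 1) ≤ N * (b ⬝ᵥ l S') :=
          mul_le_mul_of_nonneg_left (by linarith) (by linarith)
        have h5 : N * (h b + 1) = N * h b + N := by ring
        rw [dotProduct_smul, smul_eq_mul]
        linarith [h3.1]
  let E : ∀ s : {S // S ∈ C}, Module.Basis (Fin r) ℤ (Vec r) := fun s =>
    ((hd s.1 s.2).basis).reindex (((hd s.1 s.2).basis).indexEquiv (Pi.basisFun ℤ (Fin r)))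
  have hEi : ∀ (s : {S // S ∈ C}) (i : Fin r), ∃ b ∈ s.1, E s i = d s.1 b := by
    intro s i
    refine ⟨((((hd s.1 s.2).basis).indexEquiv (Pi.basisFun ℤ (Fin r))).symm i : s.1), ?_, ?_⟩
    · exact Subtype.mem _
    · show ((hd s.1 s.2).basis).reindex _ i = _
      rw [Module.Basis.reindex_apply, Dual.basis_apply]
  have hEr : ∀ (s : {S // S ∈ C}) (g : Vec r), (∀ b ∈ s.1, 0 ≤ b ⬝ᵥ g) → InCone (E s) g := by
    intro s g hg i
    show 0 ≤ (((hd s.1 s.2).basis).reindex _).repr g i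
    rw [Module.Basis.repr_reindex_apply, Dual.basis_repr]
    exact hg _ (Subtype.mem _)
  refine ⟨A, {S // S ∈ C}, inferInstance, fun s => N • l s.1, E, fun s => hA1 s.1 s.2,
    fun s i => ?_, fun s x hx => hEr s _ fun b hb => ?_, fun s g hg => ?_, fun 𝔾 _ _ _ w => ?_⟩
  · obtain ⟨b, hb, hE⟩ := hEi s i
    rw [hE]
    exact hA2 s.1 s.2 b hb
  · rw [dotProduct_sub, dotProduct_smul, smul_eq_mul, hl s.1 s.2 b hb]
    have := hA3 x hx s.1 s.2 b hb
    linarith
  · rcases hG g hg s.1 s.2 with h1 | h1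
    · exact Or.inl (hEr s g h1)
    · refine Or.inr (hEr s (-g) fun b hb => ?_)
      rw [dotProduct_neg]
      exact neg_nonneg.2 (h1 b hb)
  · obtain ⟨S, hS, c, hc⟩ := (hC.good 𝔾).complete w
    refine ⟨⟨S, hS⟩, fun i => ?_⟩
    obtain ⟨b, hb, hE⟩ := hEi ⟨S, hS⟩ i
    rw [hE, hc.eq, ev_eq_sum _ c S hc.supp, Finset.sum_eq_single b]
    · rw [(hd S hS).self b hb, one_smul]
      exact hc.nonneg b
    · intro b' hb' hbb
      rw [(hd S hS).other b hb b' hb' hbb, zero_smul]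
    · intro h1
      exact absurd hb h1

end fan

end Pool.Agent.GR
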