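import Pool.Agent.Lib.GR.Clique
import Pool.Agent.Lib.GR.Att3

/-!
# The five point lemma

`A` a vertex set, `E` a graph on `A`, `T = {a, b, c, d, e}` five points of `A`.  Suppose that for
generic `p` every dependency `μ` of `p_T` satisfies `μ e * ε_we = - μ d * ε_wd` on the motions of
`E` (so the ratio of the two strains only depends on `p_T`), that `ε_wd` is not identically zero,
and that the flat spanned by `E + wd` is good.  Then `T` is rigid on the motions of `E + wd`.

Proof (count free, after helper22).  (1) If `f` is linear on every five-clique of a good flat `H` at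
`p`, then every stress of `H` at `p` is also a stress of `H` at `p + s • (f ⊗ v)`.  So the ratio is
constant along `p + s • (f ⊗ v)`, and this gives `∑_T μ x * f x = 0`.  (2) By duality `μ` is a sum
of dependencies of five-cliques of `H`.  (3) A motion `Z` of `H` is linear on `T`, `Z x = M (p x)`;
moving one point of `T` in the decomposition of `μ` shows that `M` is skew.
-/

set_option linter.unusedSectionVars false

namespace GR

open Filter Module

open scoped Matrix

variable {k : Type*} [Field k] {V : Type*} [DecidableEq V]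

/-- Dependencies of the points of `C`. -/
def DepM (C : Finset V) (p : V → Vec k) : Submodule k (V → k) where
  carrier := {ν | (∀ x, x ∉ C → ν x = 0) ∧ ∑ x ∈ C, ν x • p x = 0}
  add_mem' := by
    rintro ν ν' ⟨h1, h2⟩ ⟨h1', h2'⟩
    refine ⟨fun x hx => by simp [h1 x hx, h1' x hx], ?_⟩
    simp only [Pi.add_apply, add_smul, Finset.sum_add_distrib, h2, h2', add_zero]
  zero_mem' := ⟨fun _ _ => rfl, by simp⟩
  smul_mem' := by
    rintro c ν ⟨h1, h2⟩
    refine ⟨fun x hx => by simp [h1 x hx], ?_⟩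
    simp only [Pi.smul_apply, smul_eq_mul, mul_smul, ← Finset.smul_sum, h2, smul_zero]

lemma mem_DepM {C : Finset V} {p : V → Vec k} {ν : V → k} :
    ν ∈ DepM C p ↔ (∀ x, x ∉ C → ν x = 0) ∧ ∑ x ∈ C, ν x • p x = 0 := Iff.rfl

/-- Five vectors of a four dimensional space are dependent. -/
lemma exists_dep {C : Finset V} (hC : C.card = 5) (p : V → Vec k) :
    ∃ ν ∈ DepM C p, ν ≠ 0 := by
  classical
  let g : (C → k) →ₗ[k] Vec k :=
    { toFun := fun ν => ∑ x, ν x • p x
      map_add' := fun ν ν' => by simp only [Pi.add_apply, add_smul, Finset.sum_add_distrib]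
      map_smul' := fun c ν => by
        simp only [Pi.smul_apply, smul_eq_mul, mul_smul, ← Finset.smul_sum, RingHom.id_apply] }
  have hker : LinearMap.ker g ≠ ⊥ := by
    apply LinearMap.ker_ne_bot_of_finrank_lt
    rw [finrank_fintype_fun_eq_card, finrank_fintype_fun_eq_card, Fintype.card_coe, hC]
    simp
  obtain ⟨ν, hν, hne⟩ := Submodule.exists_mem_ne_zero_of_ne_bot hker
  refine ⟨fun x => if hx : x ∈ C then ν ⟨x, hx⟩ else 0, ⟨fun x hx => by simp [hx], ?_⟩, ?_⟩
  · have h1 : g ν = 0 := hν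
    have h2 : ∑ x : C, ν x • p x = 0 := h1
    rw [← Finset.sum_coe_sort C]
    rw [← h2]
    exact Finset.sum_congr rfl fun x _ => by simp
  · intro h
    apply hne
    ext x
    have := congrFun h x.1
    simpa using this

lemma DepM.ne_zero {C : Finset V} (hC : C.card = 5) {p : V → Vec k}
    (hp : GenPos p (C : Set V)) {ν : V → k} (hν : ν ∈ DepM C p) (hne : ν ≠ 0) {x : V}
    (hx : x ∈ C) : ν x ≠ 0 := by
  intro h0
  apply hne
  have hli := hp (C.erase x) (by exact_mod_cast Finset.erase_subset x C)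
    (by rw [Finset.card_erase_of_mem hx, hC])
  have h1 : ∑ y ∈ C.erase x, ν y • p y = 0 := by
    have := hν.2
    rw [← Finset.add_sum_erase C _ hx, h0, zero_smul, zero_add] at this
    exact this
  rw [← Finset.sum_coe_sort] at h1
  have h2 := (Fintype.linearIndependent_iff.mp hli) (fun y => ν y) h1
  ext y
  by_cases hy : y ∈ C
  · by_cases hyx : y = x
    · rw [hyx, h0]; rfl
    · exact h2 ⟨y, Finset.mem_erase.mpr ⟨hyx, hy⟩⟩
  · exact hν.1 y hy

lemma DepM.unique {C : Finset V} (hC : C.card = 5) {p : V → Vec k}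
    (hp : GenPos p (C : Set V)) {ν ν' : V → k} (hν : ν ∈ DepM C p) (hν' : ν' ∈ DepM C p)
    (hne : ν' ≠ 0) : ∃ c : k, ν = c • ν' := by
  obtain ⟨x, hx⟩ : C.Nonempty := Finset.card_pos.mp (by omega)
  have h1 := DepM.ne_zero hC hp hν' hne hx
  refine ⟨ν x / ν' x, ?_⟩
  by_contra hcon
  have h2 : ν - (ν x / ν' x) • ν' ∈ DepM C p := Submodule.sub_mem _ hν (Submodule.smul_mem _ _ hν')
  refine DepM.ne_zero hC hp h2 (sub_ne_zero.mpr hcon) hx ?_
  simp only [Pi.sub_apply, Pi.smul_apply, smul_eq_mul]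
  field_simp
  ring

/-- A function orthogonal to all dependencies of five points in general position is linear. -/
lemma exists_dot_of_dep {C : Finset V} (hC : C.card = 5) {p : V → Vec k}
    (hp : GenPos p (C : Set V)) {f : V → k} (hf : ∀ ν ∈ DepM C p, ∑ x ∈ C, ν x * f x = 0) :
    ∃ l : Vec k, ∀ x ∈ C, l ⬝ᵥ p x = f x := by
  obtain ⟨ν, hν, hne⟩ := exists_dep hC p
  obtain ⟨x, hx⟩ : C.Nonempty := Finset.card_pos.mp (by omega)
  have hνx := DepM.ne_zero hC hp hν hne hx
  have hli := hp (C.erase x) (by exact_mod_cast Finset.erase_subset x C)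
    (by rw [Finset.card_erase_of_mem hx, hC])
  obtain ⟨l, hl⟩ := exists_dot_eq hli (fun y => f y)
  have hl' : ∀ y ∈ C.erase x, l ⬝ᵥ p y = f y := fun y hy => hl ⟨y, hy⟩
  refine ⟨l, fun y hy => ?_⟩
  by_cases hyx : y = x
  · subst hyx
    have h1 := hf ν hν
    rw [← Finset.add_sum_erase C _ hy] at h1
    have h2 := hν.2
    rw [← Finset.add_sum_erase C _ hy] at h2
    have h3 : l ⬝ᵥ (ν y • p y + ∑ z ∈ C.erase y, ν z • p z) = 0 := by rw [h2, dotProduct_zero]
    rw [dotProduct_add, dotProduct_smul, smul_eq_mul, dotProduct_sum] at h3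
    have h4 : ∑ z ∈ C.erase y, l ⬝ᵥ (ν z • p z) = ∑ z ∈ C.erase y, ν z * f z :=
      Finset.sum_congr rfl fun z hz => by rw [dotProduct_smul, smul_eq_mul, hl' z hz]
    rw [h4] at h3
    have h5 : ν y * (l ⬝ᵥ p y - f y) = 0 := by linear_combination h3 - h1
    rcases mul_eq_zero.mp h5 with h | h
    · exact absurd h hνx
    · exact sub_eq_zero.mp h
  · exact hl' y (Finset.mem_erase.mpr ⟨hyx, hy⟩)

/-- `f` is linear on the five-cliques of `H`. -/
def LinOn (H : Finset (Sym2 V)) (p : V → Vec k) (f : V → k) : Prop :=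
  ∀ C : Finset V, C.card = 5 → Kf C ⊆ H → ∃ l : Vec k, ∀ x ∈ C, l ⬝ᵥ p x = f x

/-- A stress of a `K_C` stays a stress when the points of `C` are moved by a linear map. -/
lemma Stress_Kf_le {C : Finset V} {p : V → Vec k} {f : V → k} {l : Vec k}
    (hl : ∀ x ∈ C, l ⬝ᵥ p x = f x) (v : Vec k) (s : k) :
    Stress (Kf C) p ≤ Stress (Kf C) (p + s • fun x => f x • v) := by
  intro ω hω
  have hE : ∀ e ∈ Kf C, ∀ v ∈ e, v ∈ C := fun e he => (mem_Kf.mp he).2
  rw [mem_Stress_iff hE] at hω ⊢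
  refine ⟨hω.1, fun x => ?_⟩
  by_cases hx : x ∈ C
  · obtain ⟨c, hc⟩ := hω.2 x
    refine ⟨c, ?_⟩
    have h1 : force C (p + s • fun x => f x • v) ω x
        = force C p ω x + (s * (l ⬝ᵥ force C p ω x)) • v := by
      simp only [force, Pi.add_apply, Pi.smul_apply, smul_add, Finset.sum_add_distrib]
      congr 1
      rw [dotProduct_sum, Finset.mul_sum, Finset.sum_smul]
      refine Finset.sum_congr rfl fun y hy => ?_
      rw [← hl y hy, dotProduct_smul, smul_smul, smul_smul, smul_eq_mul]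
      congr 1
      ring
    rw [h1, hc, dotProduct_smul, hl x hx]
    simp only [Pi.add_apply, Pi.smul_apply, smul_add, smul_smul, smul_eq_mul]
    congr 2
    ring
  · refine ⟨0, ?_⟩
    rw [force_eq_zero_of_notMem hE hω.1 hx, zero_smul]

/-- **Stress transport.** -/
theorem Good.stress_le {H : Finset (Sym2 V)} {p : V → Vec k} (hg : Good H p) {f : V → k}
    (hf : LinOn H p f) (v : Vec k) (s : k) :
    Stress H p ≤ Stress H (p + s • fun x => f x • v) := by
  refine hg.trans (iSup_le fun C => ?_)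
  obtain ⟨l, hl⟩ := hf C.1 C.2.1 C.2.2
  exact (Stress_Kf_le hl v s).trans (Stress_mono C.2.2 _)

/-- If the stresses of `H ⊇ E + we + wd` at `p` are stresses at `q`, then a proportion between the
strains of `we` and `wd` on the motions of `E` at `p` also holds at `q`. -/
theorem ratio_transport {A : Finset V} {E H : Finset (Sym2 V)} (hEA : E ⊆ Kf A)
    (hEH : E ⊆ H) {w d e : V} (hw : w ∈ A) (hd : d ∈ A) (he : e ∈ A)
    (hwd : s(w, d) ∈ H) (hwe : s(w, e) ∈ H) {p q : V → Vec k}
    (hS : Stress H p ≤ Stress H q) {α β : k}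
    (hrel : ∀ Z ∈ Mot A (E : Set (Sym2 V)) p, β * eps p w e Z + α * eps p w d Z = 0) :
    ∀ Z ∈ Mot A (E : Set (Sym2 V)) q, β * eps q w e Z + α * eps q w d Z = 0 := by
  classical
  let φ : (V → Vec k) →ₗ[k] k := β • eps p w e + α • eps p w d
  have hmem : φ.domRestrict (Mot0 p) ∈ strainSpan (Mot0 p) (E : Set (Sym2 V)) p := by
    rw [mem_strainSpan_iff' (Mot0 p) (Finset.finite_toSet E)]
    intro Z hZ h0
    have hcut : cut k A Z ∈ Mot A (E : Set (Sym2 V)) p :=
      cut_mem_Mot hZ fun x _ y _ hxy => by simpa using h0 _ hxy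
    have h1 := hrel _ hcut
    rw [eps_cut p Z hw he, eps_cut p Z hw hd] at h1
    simpa [φ] using h1
  obtain ⟨a, ha0, ha⟩ := exists_coeff_of_mem_strainSpan hmem
  let ω : Sym2 V → k := fun f =>
    (if f = s(w, e) then β else 0) + (if f = s(w, d) then α else 0) - a f
  have hsum : ∀ r Z : V → Vec k, ∑ f ∈ H, ω f * epsS r f Z
      = β * eps r w e Z + α * eps r w d Z - ∑ f ∈ E, a f * epsS r f Z := by
    intro r Z
    simp only [ω, sub_mul, add_mul, Finset.sum_sub_distrib, Finset.sum_add_distrib]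
    congr 1
    · congr 1
      · rw [Finset.sum_eq_single s(w, e)]
        · simp
        · intro f _ hf
          rw [if_neg hf, zero_mul]
        · exact fun h => absurd hwe h
      · rw [Finset.sum_eq_single s(w, d)]
        · simp
        · intro f _ hf
          rw [if_neg hf, zero_mul]
        · exact fun h => absurd hwd h
    · symm
      refine Finset.sum_subset hEH fun f _ hf => ?_
      rw [ha0 f hf, zero_mul]
  have hω : ω ∈ Stress H p := by
    refine ⟨fun f hf => ?_, fun Z hZ => ?_⟩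
    · have h1 : f ≠ s(w, e) := fun h => hf (h ▸ hwe)
      have h2 : f ≠ s(w, d) := fun h => hf (h ▸ hwd)
      simp only [ω, if_neg h1, if_neg h2, ha0 f (fun h => hf (hEH h)), add_zero, sub_zero]
    · rw [hsum, ← ha Z hZ]
      simp [φ]
  intro Z hZ
  have h1 := (hS hω).2 Z (Mot_le_Mot0 _ _ _ hZ)
  rw [hsum] at h1
  have h2 : ∑ f ∈ E, a f * epsS q f Z = 0 := by
    refine Finset.sum_eq_zero fun f hf => ?_
    have h3 := mem_Kf.mp (hEA hf)
    induction f using Sym2.ind with
    | _ x y =>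
      rw [epsS_mk, hZ.2.2 x (h3.2 x (by simp)) y (h3.2 y (by simp)) (by exact_mod_cast hf),
        mul_zero]
  rw [h2, sub_zero] at h1
  exact h1

/-- the hypotheses of the five point lemma at one position -/
structure FiveAt (A T : Finset V) (E : Finset (Sym2 V)) (w d e : V) (p : V → Vec k) : Prop where
  gp : GenPos p (A : Set V)
  good : Good (clF A (insert s(w, d) E) p) p
  rel : ∀ ν ∈ DepM T p, ∀ Z ∈ Mot A (E : Set (Sym2 V)) p,
    ν e * eps p w e Z + ν d * eps p w d Z = 0
  ne : ∃ Z ∈ Mot A (E : Set (Sym2 V)) p, eps p w d Z ≠ 0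

section

variable {A T : Finset V} {E : Finset (Sym2 V)} {w d e : V}

lemma FiveAt.mem_clF {p : V → Vec k} (h : FiveAt A T E w d e p) (hEA : E ⊆ Kf A)
    (hTA : T ⊆ A) (hT : T.card = 5) (hw : w ∈ A) (hd : d ∈ T) (he : e ∈ T) (hwd : w ≠ d)
    (hwe : w ≠ e) : s(w, e) ∈ clF A (insert s(w, d) E) p := by
  have hE' : insert s(w, d) E ⊆ Kf A :=
    Finset.insert_subset (mk_mem_Kf.mpr ⟨hwd, hw, hTA hd⟩) hEA
  refine GR.mem_clF.mpr ⟨mk_mem_Kf.mpr ⟨hwe, hw, hTA he⟩, ?_⟩
  rw [mem_clo_iff_Mot hE' hw (hTA he)]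
  intro Z hZ
  have hZE : Z ∈ Mot A (E : Set (Sym2 V)) p :=
    Mot_anti (by exact_mod_cast Finset.subset_insert _ _) p hZ
  have h0 : eps p w d Z = 0 :=
    hZ.2.2 w hw d (hTA hd) (by exact_mod_cast Finset.mem_insert_self _ _)
  obtain ⟨ν, hν, hne⟩ := exists_dep hT p
  have h1 := h.rel ν hν Z hZE
  rw [h0, mul_zero, add_zero] at h1
  exact (mul_eq_zero.mp h1).resolve_left
    (DepM.ne_zero hT (h.gp.mono (by exact_mod_cast hTA)) hν hne he)

/-- (1) the dependency of `T` is orthogonal to the functions linear on the five-cliques. -/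
theorem FiveAt.sum_eq_zero [Infinite k] {p : V → Vec k} (h : FiveAt A T E w d e p)
    (hline : ∀ X : V → Vec k, {s : k | ¬ FiveAt A T E w d e (p + s • X)}.Finite)
    (hEA : E ⊆ Kf A) (hTA : T ⊆ A) (hT : T.card = 5) (hw : w ∈ A) (hd : d ∈ T) (he : e ∈ T)
    (hwd : w ≠ d) (hwe : w ≠ e) (hde : d ≠ e) {f : V → k}
    (hf : LinOn (clF A (insert s(w, d) E) p) p f) {μ : V → k} (hμ : μ ∈ DepM T p) :
    ∑ x ∈ T, μ x * f x = 0 := by
  classical
  by_cases hμ0 : μ = 0
  · simp [hμ0]
  have hgpT : GenPos p (T : Set V) := h.gp.mono (by exact_mod_cast hTA)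
  have hE' : insert s(w, d) E ⊆ Kf A :=
    Finset.insert_subset (mk_mem_Kf.mpr ⟨hwd, hw, hTA hd⟩) hEA
  set X : V → Vec k := fun x => f x • p d with hX
  obtain ⟨s, hs⟩ : ∃ s : k, ¬ (s ∈ {s : k | ¬ FiveAt A T E w d e (p + s • X)} ∪ {0}) := by
    have := ((hline X).union (Set.finite_singleton (0 : k))).infinite_compl.nonempty
    exact this
  simp only [Set.mem_union, Set.mem_ofPred_eq, Set.mem_singleton_iff, not_or, not_not] at hs
  obtain ⟨hq, hs0⟩ := hs
  set q : V → Vec k := p + s • X with hqdef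
  obtain ⟨μ', hμ', hμ'0⟩ := exists_dep hT q
  have hS : Stress (clF A (insert s(w, d) E) p) p ≤ Stress (clF A (insert s(w, d) E) p) q :=
    h.good.stress_le hf (p d) s
  have hwdH : s(w, d) ∈ clF A (insert s(w, d) E) p :=
    subset_clF hE' p (Finset.mem_insert_self _ _)
  have hEH : E ⊆ clF A (insert s(w, d) E) p := (Finset.subset_insert _ _).trans (subset_clF hE' p)
  have h1 := ratio_transport hEA hEH hw (hTA hd) (hTA he) hwdH
    (h.mem_clF hEA hTA hT hw hd he hwd hwe) hS (h.rel μ hμ)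
  obtain ⟨Z, hZ, hZne⟩ := hq.ne
  have h2 := h1 Z hZ
  have h3 := hq.rel μ' hμ' Z hZ
  have hcross : μ' e * μ d = μ e * μ' d := by
    have : (μ' e * μ d - μ e * μ' d) * eps q w d Z = 0 := by
      linear_combination μ' e * h2 - μ e * h3
    exact sub_eq_zero.mp ((mul_eq_zero.mp this).resolve_right hZne)
  -- a dependency at `p`
  set F : k := ∑ x ∈ T, μ' x * f x with hF
  have hdep : μ' + Pi.single d (s * F) ∈ DepM T p := by
    refine ⟨fun x hx => ?_, ?_⟩
    · have hxd : x ≠ d := fun h => hx (h ▸ hd)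
      rw [Pi.add_apply, hμ'.1 x hx, Pi.single_eq_of_ne hxd, add_zero]
    · have h4 := hμ'.2
      simp only [hqdef, hX, Pi.add_apply, Pi.smul_apply, smul_add, Finset.sum_add_distrib] at h4
      have h5 : ∑ x ∈ T, μ' x • s • f x • p d = (s * F) • p d := by
        rw [hF, Finset.mul_sum, Finset.sum_smul]
        refine Finset.sum_congr rfl fun x _ => ?_
        rw [smul_smul, smul_smul]
        congr 1
        ring
      rw [h5] at h4
      simp only [Pi.add_apply, add_smul, Finset.sum_add_distrib]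
      have h6 : ∑ x ∈ T, (Pi.single d (s * F) : V → k) x • p x = (s * F) • p d := by
        rw [Finset.sum_eq_single d]
        · simp
        · intro x _ hx
          rw [Pi.single_eq_of_ne hx, zero_smul]
        · exact fun h => absurd hd h
      rw [h6]
      exact h4
  obtain ⟨c, hc⟩ := DepM.unique hT hgpT hdep hμ hμ0
  have he1 := congrFun hc e
  have hd1 := congrFun hc d
  rw [Pi.add_apply, Pi.single_eq_of_ne (Ne.symm hde), add_zero, Pi.smul_apply, smul_eq_mul] at he1
  rw [Pi.add_apply, Pi.single_eq_same, Pi.smul_apply, smul_eq_mul] at hd1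
  have hμe := DepM.ne_zero hT hgpT hμ hμ0 he
  have hsF : s * F = 0 := by
    have : μ e * (s * F) = 0 := by
      rw [he1] at hcross
      linear_combination μ e * hd1 + hcross
    exact (mul_eq_zero.mp this).resolve_left hμe
  rw [hsF, Pi.single_zero, add_zero] at hc
  have hF0 : F = 0 := (mul_eq_zero.mp hsF).resolve_left hs0
  have hc0 : c ≠ 0 := by
    rintro rfl
    exact hμ'0 (by rw [hc, zero_smul])
  rw [hF, hc] at hF0
  have h7 : c * ∑ x ∈ T, μ x * f x = 0 := by
    rw [← hF0, Finset.mul_sum]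
    exact Finset.sum_congr rfl fun x _ => by simp only [Pi.smul_apply, smul_eq_mul]; ring
  exact (mul_eq_zero.mp h7).resolve_left hc0

end

/-- the span of the dependencies of the five-cliques -/
def DepK (H : Finset (Sym2 V)) (p : V → Vec k) : Submodule k (V → k) :=
  ⨆ C : {C : Finset V // C.card = 5 ∧ Kf C ⊆ H}, DepM C.1 p

/-- duality -/
lemma mem_DepK_of_dual {H : Finset (Sym2 V)} {p : V → Vec k} {T : Finset V}
    (hgp : ∀ C : Finset V, C.card = 5 → Kf C ⊆ H → GenPos p (C : Set V)) {μ : V → k}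
    (hμT : ∀ x, x ∉ T → μ x = 0)
    (h : ∀ f : V → k, LinOn H p f → ∑ x ∈ T, μ x * f x = 0) : μ ∈ DepK H p := by
  classical
  by_contra hcon
  obtain ⟨φ, hφ0, hφ⟩ := Submodule.exists_dual_map_eq_bot_of_notMem hcon inferInstance
  have hdec : ∀ (S : Finset V) (ν : V → k), (∀ x, x ∉ S → ν x = 0) →
      φ ν = ∑ x ∈ S, ν x * φ (Pi.single x 1) := by
    intro S ν hν
    have h1 : ν = ∑ x ∈ S, ν x • (Pi.single x 1 : V → k) := by
      ext y
      rw [Finset.sum_apply]
      by_cases hy : y ∈ S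
      · rw [Finset.sum_eq_single y]
        · simp
        · intro x _ hx
          rw [Pi.smul_apply, Pi.single_eq_of_ne (Ne.symm hx), smul_zero]
        · exact fun h => absurd hy h
      · rw [hν y hy]
        symm
        refine Finset.sum_eq_zero fun x hx => ?_
        have : y ≠ x := fun h => hy (h ▸ hx)
        rw [Pi.smul_apply, Pi.single_eq_of_ne this, smul_zero]
    conv_lhs => rw [h1]
    rw [map_sum]
    exact Finset.sum_congr rfl fun x _ => by rw [map_smul, smul_eq_mul]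
  apply hφ0
  rw [hdec T μ hμT]
  refine h _ fun C hC hCH => ?_
  refine exists_dot_of_dep hC (hgp C hC hCH) fun ν hν => ?_
  rw [← hdec C ν hν.1]
  have h2 : ν ∈ DepK H p :=
    (le_iSup (fun C : {C : Finset V // C.card = 5 ∧ Kf C ⊆ H} => DepM C.1 p) ⟨C, hC, hCH⟩) hν
  have h3 : φ ν ∈ Submodule.map φ (DepK H p) := Submodule.mem_map_of_mem h2
  rw [hφ] at h3
  exact (Submodule.mem_bot k).mp h3

lemma subset_of_Kf_subset {A C : Finset V} (hC : 2 ≤ C.card) (h : Kf C ⊆ Kf A) : C ⊆ A := by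
  intro x hx
  obtain ⟨y, hy, hyx⟩ := Finset.exists_mem_ne (by omega : 1 < C.card) x
  exact (mem_Kf.mp (h (mk_mem_Kf.mpr ⟨Ne.symm hyx, hx, hy⟩))).2 x (by simp)

/-- (3) **Rigidity from a decomposition of the dependency.** -/
theorem rigid_of_DepK [Infinite k] {A T : Finset V} {H : Finset (Sym2 V)} (hHA : H ⊆ Kf A)
    (hTA : T ⊆ A) (hT : T.card = 5) {p : V → Vec k} (hgp : GenPos p (A : Set V))
    (h0 : DepM T p ≤ DepK H p)
    (hline : ∀ X : V → Vec k,
      {s : k | ¬ (GenPos (p + s • X) (T : Set V) ∧ DepM T (p + s • X) ≤ DepK H (p + s • X))}.Finite)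
    {Z : V → Vec k} (hZ : Z ∈ Mot A (H : Set (Sym2 V)) p) :
    Z ∈ RG p (T : Set V) := by
  classical
  have hgpT : GenPos p (T : Set V) := hgp.mono (by exact_mod_cast hTA)
  -- skew maps on the five-cliques
  have hskew : ∀ C : Finset V, C.card = 5 → Kf C ⊆ H →
      ∃ S : Vec k →ₗ[k] Vec k, IsSkew S ∧ ∀ x ∈ C, Z x = S (p x) := by
    intro C hC hCH
    have hCA : C ⊆ A := subset_of_Kf_subset (by omega) (hCH.trans hHA)
    obtain ⟨S, hS, h⟩ := le_RG_of_Kf hgp hCA (by omega) hCH hZ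
    exact ⟨S, hS, fun x hx => h x (by exact_mod_cast hx)⟩
  have hsumA : ∀ (C : Finset V) (_ : C ⊆ A) (ν : V → k) (_ : ∀ x, x ∉ C → ν x = 0),
      ∑ x ∈ A, ν x • Z x = ∑ x ∈ C, ν x • Z x := by
    intro C hCA ν hν
    symm
    refine Finset.sum_subset hCA fun x _ hx => ?_
    rw [hν x hx, zero_smul]
  -- the motion is linear on `T`
  obtain ⟨M, hM⟩ : ∃ M : Vec k →ₗ[k] Vec k, ∀ x ∈ T, Z x = M (p x) := by
    have key : ∀ ν ∈ DepM T p, ∑ x ∈ T, ν x • Z x = 0 := by
      intro ν hν
      rw [← hsumA T hTA ν hν.1]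
      let Ψ : (V → k) →ₗ[k] Vec k :=
        { toFun := fun ν => ∑ x ∈ A, ν x • Z x
          map_add' := fun ν ν' => by simp only [Pi.add_apply, add_smul, Finset.sum_add_distrib]
          map_smul' := fun c ν => by
            simp only [Pi.smul_apply, smul_eq_mul, mul_smul, ← Finset.smul_sum, RingHom.id_apply] }
      have h1 : DepK H p ≤ LinearMap.ker Ψ := by
        refine iSup_le fun C => ?_
        intro ν' hν'
        obtain ⟨S, _, hSx⟩ := hskew C.1 C.2.1 C.2.2
        have hCA : C.1 ⊆ A := subset_of_Kf_subset (by have := C.2.1; omega) (C.2.2.trans hHA)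
        rw [LinearMap.mem_ker]
        show ∑ x ∈ A, ν' x • Z x = 0
        rw [hsumA C.1 hCA ν' hν'.1]
        have : ∑ x ∈ C.1, ν' x • Z x = S (∑ x ∈ C.1, ν' x • p x) := by
          rw [map_sum]
          exact Finset.sum_congr rfl fun x hx => by rw [map_smul, hSx x hx]
        rw [this, hν'.2, map_zero]
      exact LinearMap.mem_ker.mp (h1 (h0 hν))
    have hrow : ∀ i : Fin 4, ∃ l : Vec k, ∀ x ∈ T, l ⬝ᵥ p x = Z x i := by
      intro i
      refine exists_dot_of_dep hT hgpT fun ν hν => ?_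
      have h1 := congrFun (key ν hν) i
      rw [Finset.sum_apply] at h1
      simpa using h1
    choose l hl using hrow
    refine ⟨Matrix.mulVecLin (Matrix.of l), fun x hx => ?_⟩
    ext i
    rw [Matrix.mulVecLin_apply]
    show Z x i = l i ⬝ᵥ p x
    rw [hl i x hx]
  refine ⟨M, fun δ => ?_, fun x hx => hM x (by exact_mod_cast hx)⟩
  obtain ⟨x₀, hx₀⟩ : T.Nonempty := Finset.card_pos.mp (by omega)
  set X : V → Vec k := Pi.single x₀ δ with hX
  obtain ⟨s, hs⟩ : ∃ s : k, ¬ (s ∈ {s : k | ¬ (GenPos (p + s • X) (T : Set V) ∧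
      DepM T (p + s • X) ≤ DepK H (p + s • X))} ∪ {0}) := by
    have := ((hline X).union (Set.finite_singleton (0 : k))).infinite_compl.nonempty
    exact this
  simp only [Set.mem_union, Set.mem_ofPred_eq, Set.mem_singleton_iff, not_or, not_not] at hs
  obtain ⟨⟨hq, hle⟩, hs0⟩ := hs
  set q : V → Vec k := p + s • X with hqdef
  obtain ⟨μ, hμ, hμ0⟩ := exists_dep hT q
  -- a linear map applied along a dependency at `q`
  have hmove : ∀ (C : Finset V) (S : Vec k →ₗ[k] Vec k) (ν : V → k), ν ∈ DepM C q →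
      ∑ x ∈ C, ν x • S (p x) = - (s * ν x₀) • S δ := by
    intro C S ν hν
    have h1 : S (∑ x ∈ C, ν x • q x) = 0 := by rw [hν.2, map_zero]
    rw [map_sum] at h1
    have h2 : ∑ x ∈ C, S (ν x • q x) = ∑ x ∈ C, ν x • S (p x) + (s * ν x₀) • S δ := by
      have h3 : ∀ x ∈ C, S (ν x • q x) = ν x • S (p x) + ν x • s • S (X x) := by
        intro x _
        rw [hqdef, Pi.add_apply, Pi.smul_apply, map_smul, map_add, map_smul, smul_add]
      rw [Finset.sum_congr rfl h3, Finset.sum_add_distrib]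
      congr 1
      by_cases hx : x₀ ∈ C
      · rw [Finset.sum_eq_single x₀]
        · rw [hX, Pi.single_eq_same, smul_smul, mul_comm]
        · intro x _ hxx
          rw [hX, Pi.single_eq_of_ne hxx, map_zero, smul_zero, smul_zero]
        · exact fun h => absurd hx h
      · rw [hν.1 x₀ hx, mul_zero, zero_smul]
        refine Finset.sum_eq_zero fun x hxC => ?_
        have : x ≠ x₀ := fun h => hx (h ▸ hxC)
        rw [hX, Pi.single_eq_of_ne this, map_zero, smul_zero, smul_zero]
    rw [h2] at h1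
    rw [neg_smul]
    exact eq_neg_of_add_eq_zero_left h1
  let Φ : (V → k) →ₗ[k] k :=
    { toFun := fun ν => (∑ x ∈ A, ν x • Z x) ⬝ᵥ δ
      map_add' := fun ν ν' => by
        simp only [Pi.add_apply, add_smul, Finset.sum_add_distrib, add_dotProduct]
      map_smul' := fun c ν => by
        simp only [Pi.smul_apply, smul_eq_mul, mul_smul, ← Finset.smul_sum, RingHom.id_apply,
          smul_dotProduct] }
  have h1 : DepK H q ≤ LinearMap.ker Φ := by
    refine iSup_le fun C => ?_
    intro ν hν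
    obtain ⟨S, hS, hSx⟩ := hskew C.1 C.2.1 C.2.2
    have hCA : C.1 ⊆ A := subset_of_Kf_subset (by have := C.2.1; omega) (C.2.2.trans hHA)
    rw [LinearMap.mem_ker]
    show (∑ x ∈ A, ν x • Z x) ⬝ᵥ δ = 0
    rw [hsumA C.1 hCA ν hν.1]
    have h2 : ∑ x ∈ C.1, ν x • Z x = ∑ x ∈ C.1, ν x • S (p x) :=
      Finset.sum_congr rfl fun x hx => by rw [hSx x hx]
    rw [h2, hmove C.1 S ν hν, smul_dotProduct, hS δ, smul_zero]
  have h2 : (∑ x ∈ A, μ x • Z x) ⬝ᵥ δ = 0 := LinearMap.mem_ker.mp (h1 (hle hμ))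
  rw [hsumA T hTA μ hμ.1] at h2
  have h3 : ∑ x ∈ T, μ x • Z x = ∑ x ∈ T, μ x • M (p x) :=
    Finset.sum_congr rfl fun x hx => by rw [hM x hx]
  rw [h3, hmove T M μ hμ, smul_dotProduct, smul_eq_mul] at h2
  have hμx := DepM.ne_zero hT hq hμ hμ0 hx₀
  exact (mul_eq_zero.mp h2).resolve_left (neg_ne_zero.mpr (mul_ne_zero hs0 hμx))

/-- **The five point lemma.** -/
theorem five_points [Infinite k] {A T : Finset V} {E : Finset (Sym2 V)} {w d e : V}
    (hEA : E ⊆ Kf A) (hTA : T ⊆ A) (hT : T.card = 5) (hw : w ∈ A) (hd : d ∈ T) (he : e ∈ T)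
    (hwd : w ≠ d) (hwe : w ≠ e) (hde : d ≠ e)
    (hgood : ∀ᶠ p in gen k (V → Vec k), Good (clF A (insert s(w, d) E) p) p)
    (hrel : ∀ᶠ p in gen k (V → Vec k), ∀ ν ∈ DepM T p, ∀ Z ∈ Mot A (E : Set (Sym2 V)) p,
      ν e * eps p w e Z + ν d * eps p w d Z = 0)
    (hne : ∀ᶠ p in gen k (V → Vec k), ∃ Z ∈ Mot A (E : Set (Sym2 V)) p, eps p w d Z ≠ 0) :
    ∀ᶠ p in gen k (V → Vec k),
      Mot A ((insert s(w, d) E : Finset (Sym2 V)) : Set (Sym2 V)) p ≤ RG p (T : Set V) := by
  have hE' : insert s(w, d) E ⊆ Kf A :=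
    Finset.insert_subset (mk_mem_Kf.mpr ⟨hwd, hw, hTA hd⟩) hEA
  have hfive : ∀ᶠ p in gen k (V → Vec k), FiveAt A T E w d e p := by
    filter_upwards [hgood, hrel, hne, eventually_genPos (k := k) A] with p h1 h2 h3 h4
    exact ⟨h4, h1, h2, h3⟩
  have hdep : ∀ᶠ p in gen k (V → Vec k),
      DepM T p ≤ DepK (clF A (insert s(w, d) E) p) p := by
    filter_upwards [eventually_line' hfive] with p hp μ hμ
    refine mem_DepK_of_dual (fun C hC hCH => ?_) hμ.1 fun f hf => ?_
    · refine hp.1.gp.mono ?_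
      exact_mod_cast subset_of_Kf_subset (by omega) (hCH.trans (clF_subset _ _ _))
    · exact hp.1.sum_eq_zero hp.2 hEA hTA hT hw hd he hwd hwe hde hf hμ
  have hall : ∀ᶠ p in gen k (V → Vec k),
      Regular A p ∧ GenPos p (A : Set V) ∧ DepM T p ≤ DepK (clF A (insert s(w, d) E) p) p := by
    filter_upwards [eventually_regular (k := k) A, eventually_genPos (k := k) A, hdep] with
      p h1 h2 h3
    exact ⟨h1, h2, h3⟩
  filter_upwards [eventually_line' hall] with p hp Z hZ
  obtain ⟨⟨hreg, hgp, h0⟩, hline⟩ := hp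
  refine rigid_of_DepK (clF_subset A (insert s(w, d) E) p) hTA hT hgp h0 (fun X => ?_)
    (by rwa [Mot_clF hE' p])
  refine (hline X).subset ?_
  intro s hs hcon
  apply hs
  refine ⟨hcon.2.1.mono (by exact_mod_cast hTA), ?_⟩
  rw [clF_eq_of_regular hE' hreg hcon.1]
  exact hcon.2.2

end GR
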