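import Pool.Agent.Lib.GR.Spec
import Pool.Agent.Lib.GR.Basic
import Pool.Agent.Lib.GR.Types

/-!
# The spaces of motions as polynomial families; the flow `p ↦ p + t ρ Z`
-/

set_option linter.unusedSectionVars false

namespace GR

open Filter Module

open scoped Matrix

variable {k : Type*} [Field k] {V : Type*}

/-- coordinate functionals are polynomial -/
lemma PolyLine.coord (v : V) (i : Fin 4) : PolyLine k (fun p : V → Vec k => p v i) :=
  PolyLine.linear (W := V → Vec k) ((LinearMap.proj i : Vec k →ₗ[k] k) ∘ₗ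
    (LinearMap.proj v : (V → Vec k) →ₗ[k] Vec k))

lemma PolyLine.coord' (i : Fin 4) : PolyLine k (fun x : Vec k => x i) :=
  PolyLine.linear (LinearMap.proj i : Vec k →ₗ[k] k)

lemma PolyLine.dot {W : Type*} [AddCommGroup W] [Module k W] {f g : W → Vec k}
    (hf : ∀ i, PolyLine k (fun p => f p i)) (hg : ∀ i, PolyLine k (fun p => g p i)) :
    PolyLine k (fun p => f p ⬝ᵥ g p) := by
  simp only [dotProduct]
  exact PolyLine.sum _ fun i _ => (hf i).mul (hg i)

lemma PolyFam.eps (a b : V) : PolyFam (fun p : V → Vec k => eps p a b) := by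
  refine PolyFam.of_scalar fun Z => ?_
  simp only [eps_apply]
  exact (PolyLine.dot (f := fun _ : V → Vec k => Z a) (g := fun p : V → Vec k => p b)
    (fun _ => PolyLine.const _) (fun i => PolyLine.coord b i)).add
    (PolyLine.dot (f := fun _ : V → Vec k => Z b) (g := fun p : V → Vec k => p a)
    (fun _ => PolyLine.const _) (fun i => PolyLine.coord a i))

lemma PolyFam.loopF (a : V) : PolyFam (fun p : V → Vec k => loopF p a) := by
  refine PolyFam.of_scalar fun Z => ?_
  simp only [loopF_apply]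
  exact PolyLine.dot (fun _ => PolyLine.const _) (fun i => PolyLine.coord a i)

open Classical in
/-- All the constraints defining `Mot A E p`. -/
noncomputable def cmap (A : Finset V) (E : Set (Sym2 V)) (p : V → Vec k) :
    (V → Vec k) →ₗ[k] (A × A → k) :=
  LinearMap.pi fun ab => if (ab.1 : V) = ab.2 then loopF p ab.1 else
    if s((ab.1 : V), (ab.2 : V)) ∈ E then eps p ab.1 ab.2 else 0

lemma Mot_eq (A : Finset V) (E : Set (Sym2 V)) (p : V → Vec k) :
    Mot A E p = Supp k A ⊓ LinearMap.ker (cmap A E p) := by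
  classical
  ext Z
  rw [mem_Mot, Submodule.mem_inf, LinearMap.mem_ker]
  constructor
  · rintro ⟨h1, h2, h3⟩
    refine ⟨h1, ?_⟩
    ext ⟨⟨a, ha⟩, ⟨b, hb⟩⟩
    simp only [cmap, LinearMap.pi_apply, Pi.zero_apply]
    by_cases hab : a = b
    · subst hab; simpa using h2 a ha
    · by_cases hE : s(a, b) ∈ E
      · simpa [hab, hE] using h3 a ha b hb hE
      · simp [hab, hE]
  · rintro ⟨h1, h2⟩
    have h3 : ∀ v ∈ A, Z v ⬝ᵥ p v = 0 := by
      intro v hv
      have := congrFun h2 (⟨v, hv⟩, ⟨v, hv⟩)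
      simpa [cmap] using this
    refine ⟨h1, h3, fun a ha b hb hab => ?_⟩
    by_cases hab' : a = b
    · subst hab'
      rw [eps_apply, h3 a ha, add_zero]
    · have := congrFun h2 (⟨a, ha⟩, ⟨b, hb⟩)
      simpa [cmap, hab, hab'] using this

lemma PolyFam.cmap (A : Finset V) (E : Set (Sym2 V)) :
    PolyFam (fun p : V → Vec k => cmap A E p) := by
  refine PolyFam.pi fun ab => ?_
  by_cases h : (ab.1 : V) = ab.2
  · simp only [h, if_true]
    exact PolyFam.loopF _
  · by_cases hE : s((ab.1 : V), (ab.2 : V)) ∈ E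
    · simp only [h, hE, if_true, if_false]
      exact PolyFam.eps _ _
    · simp only [h, hE, if_false]
      exact PolyFam.const _

/-- Motions which vanish on `B`. -/
def FM (A : Finset V) (E : Set (Sym2 V)) (B : Set V) (p : V → Vec k) :
    Submodule k (V → Vec k) where
  carrier := {Z | Z ∈ Mot A E p ∧ ∀ v ∈ B, Z v = 0}
  add_mem' := by
    rintro Z Z' ⟨h1, h2⟩ ⟨h1', h2'⟩
    exact ⟨(Mot A E p).add_mem h1 h1', fun v hv => by simp [h2 v hv, h2' v hv]⟩
  zero_mem' := ⟨(Mot A E p).zero_mem, fun _ _ => rfl⟩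
  smul_mem' := by
    rintro c Z ⟨h1, h2⟩
    exact ⟨(Mot A E p).smul_mem c h1, fun v hv => by simp [h2 v hv]⟩

lemma mem_FM {A : Finset V} {E : Set (Sym2 V)} {B : Set V} {p Z : V → Vec k} :
    Z ∈ FM A E B p ↔ Z ∈ Mot A E p ∧ ∀ v ∈ B, Z v = 0 := Iff.rfl

lemma FM_le (A : Finset V) (E : Set (Sym2 V)) (B : Set V) (p : V → Vec k) :
    FM A E B p ≤ Mot A E p := fun _ h => h.1

instance FM_finiteDimensional (A : Finset V) (E : Set (Sym2 V)) (B : Set V) (p : V → Vec k) :
    FiniteDimensional k (FM A E B p) :=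
  Submodule.finiteDimensional_of_le (FM_le A E B p)

open Classical in
lemma FM_eq (A : Finset V) (E : Set (Sym2 V)) (B : Set V) (p : V → Vec k) :
    FM A E B p = Supp k (A.filter (fun v => v ∉ B)) ⊓ LinearMap.ker (cmap A E p) := by
  ext Z
  rw [mem_FM, Mot_eq, Submodule.mem_inf, Submodule.mem_inf]
  constructor
  · rintro ⟨⟨h1, h2⟩, h3⟩
    refine ⟨fun v hv => ?_, h2⟩
    by_cases hvA : v ∈ A
    · refine h3 v ?_
      by_contra hvB
      exact hv (Finset.mem_filter.mpr ⟨hvA, hvB⟩)
    · exact h1 v hvA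
  · rintro ⟨h1, h2⟩
    refine ⟨⟨fun v hv => h1 v fun h => hv (Finset.mem_filter.mp h).1, h2⟩, fun v hv => ?_⟩
    exact h1 v fun h => (Finset.mem_filter.mp h).2 hv

/-- The dimension of `FM` is generically constant. -/
lemma eventually_finrank_FM [Infinite k] (A : Finset V) (E : Set (Sym2 V)) (B : Set V) :
    ∃ d, (∀ p : V → Vec k, d ≤ finrank k (FM A E B p)) ∧
      ∀ᶠ p in gen k (V → Vec k), finrank k (FM A E B p) = d := by
  classical
  refine ⟨gfin (Supp k (A.filter (fun v => v ∉ B))) (fun p : V → Vec k => cmap A E p), ?_, ?_⟩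
  · intro p
    rw [FM_eq]
    exact gfin_le _ _ p
  · filter_upwards [eventually_finrank_eq (Supp k (A.filter (fun v => v ∉ B)))
      (PolyFam.cmap (k := k) A E)] with p hp
    rw [FM_eq]
    exact hp

/-- **0-1 law for motions.**  A polynomial family of linear conditions which vanishes on all
motions frequently, vanishes on all motions generically. -/
theorem FM_eventually_of_frequently [Infinite k] {G' : Type*} [AddCommGroup G'] [Module k G']
    (A : Finset V) (E : Set (Sym2 V)) (B : Set V) {ψ : (V → Vec k) → (V → Vec k) →ₗ[k] G'}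
    (hψ : PolyFam ψ) (h : ∃ᶠ p in gen k (V → Vec k), FM A E B p ≤ LinearMap.ker (ψ p)) :
    ∀ᶠ p in gen k (V → Vec k), FM A E B p ≤ LinearMap.ker (ψ p) := by
  classical
  simp only [FM_eq] at h ⊢
  exact eventually_of_frequently (PolyFam.cmap A E) hψ h

lemma FM_empty (A : Finset V) (E : Set (Sym2 V)) (p : V → Vec k) : FM A E ∅ p = Mot A E p := by
  ext Z
  rw [mem_FM]
  simp

theorem Mot_eventually_of_frequently [Infinite k] {G' : Type*} [AddCommGroup G'] [Module k G']
    (A : Finset V) (E : Set (Sym2 V)) {ψ : (V → Vec k) → (V → Vec k) →ₗ[k] G'}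
    (hψ : PolyFam ψ) (h : ∃ᶠ p in gen k (V → Vec k), Mot A E p ≤ LinearMap.ker (ψ p)) :
    ∀ᶠ p in gen k (V → Vec k), Mot A E p ≤ LinearMap.ker (ψ p) := by
  simp only [← FM_empty] at h ⊢
  exact FM_eventually_of_frequently A E ∅ hψ h

/-! ### General position -/

lemma eventually_li4 [Infinite k] {q : Fin 4 → V} (hq : Function.Injective q) :
    ∀ᶠ p in gen k (V → Vec k), LinearIndependent k (fun i => p (q i)) := by
  classical
  have hp : PolyLine k fun p : V → Vec k => (Matrix.of fun i j => p (q i) j).det :=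
    PolyLine.det fun i j => PolyLine.coord (q i) j
  have h0 : ∃ p : V → Vec k, (Matrix.of fun i j => p (q i) j).det ≠ 0 := by
    refine ⟨fun v => if h : ∃ i, q i = v then Pi.single h.choose 1 else 0, ?_⟩
    have e : (Matrix.of fun i j =>
        (fun v => if h : ∃ i, q i = v then Pi.single h.choose (1 : k) else 0 : V → Vec k)
          (q i) j) = (1 : Matrix (Fin 4) (Fin 4) k) := by
      ext i j
      have hi : ∃ i', q i' = q i := ⟨i, rfl⟩
      have hc : hi.choose = i := hq hi.choose_spec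
      simp only [Matrix.of_apply, Matrix.one_apply]
      rw [dif_pos hi, hc, Pi.single_apply]
      simp only [eq_comm]
    rw [e, Matrix.det_one]
    exact one_ne_zero
  filter_upwards [hp.eventually_ne h0] with p hp
  exact Matrix.linearIndependent_rows_of_det_ne_zero hp

/-- Four independent points span. -/
lemma span_eq_top_of_li4 {p : V → Vec k} {N : Set V} {q : Fin 4 → V} (hqN : ∀ i, q i ∈ N)
    (h : LinearIndependent k (fun i => p (q i))) : Submodule.span k (p '' N) = ⊤ := by
  rw [eq_top_iff, ← h.span_eq_top_of_card_eq_finrank' (by simp)]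
  refine Submodule.span_mono ?_
  rintro _ ⟨i, rfl⟩
  exact ⟨q i, hqN i, rfl⟩

/-- If the points of `N` span, four of them form a basis. -/
lemma exists_quad {p : V → Vec k} {N : Set V} (h : Submodule.span k (p '' N) = ⊤) :
    ∃ q : Fin 4 → V, (∀ i, q i ∈ N) ∧ LinearIndependent k (fun i => p (q i)) := by
  obtain ⟨b, hb1, hb2, hb3⟩ := exists_linearIndependent k (p '' N)
  rw [h] at hb2
  have hfin : Finite b := hb3.finite
  have := Fintype.ofFinite b
  have hcard : Fintype.card b = 4 := by
    have h1 := finrank_span_eq_card hb3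
    rw [Subtype.range_coe, hb2, finrank_top, Module.finrank_fin_fun] at h1
    exact h1.symm
  let e : Fin 4 ≃ b := (Fintype.equivFinOfCardEq hcard).symm
  have hq : ∀ i, ∃ v ∈ N, p v = (e i : Vec k) := fun i => hb1 (e i).2
  choose q hq1 hq2 using hq
  refine ⟨q, hq1, ?_⟩
  have : (fun i => p (q i)) = (Subtype.val : b → Vec k) ∘ e := by
    ext i : 1
    exact hq2 i
  rw [this]
  exact hb3.comp _ e.injective

lemma eventually_span [Infinite k] {N : Set V} {q : Fin 4 → V} (hq : Function.Injective q)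
    (hqN : ∀ i, q i ∈ N) :
    ∀ᶠ p in gen k (V → Vec k), Submodule.span k (p '' N) = ⊤ := by
  filter_upwards [eventually_li4 hq] with p hp
  exact span_eq_top_of_li4 hqN hp

/-! ### The flow -/

/-- The elementary skew maps. -/
def rho (k : Type*) [Field k] (i j : Fin 4) : Vec k →ₗ[k] Vec k :=
  LinearMap.single k (fun _ : Fin 4 => k) i ∘ₗ LinearMap.proj j
    - LinearMap.single k (fun _ : Fin 4 => k) j ∘ₗ LinearMap.proj i

lemma rho_apply (i j : Fin 4) (x : Vec k) :
    rho k i j x = Pi.single i (x j) - Pi.single j (x i) := rfl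

lemma rho_dot (i j : Fin 4) (x y : Vec k) : rho k i j x ⬝ᵥ y = x j * y i - x i * y j := by
  rw [rho_apply, sub_dotProduct, single_dotProduct, single_dotProduct]

lemma rho_skew (i j : Fin 4) : IsSkew (rho k i j) := by
  intro x
  rw [rho_dot]
  ring

/-- Motions are preserved by the flow. -/
lemma Mot_flow {A : Finset V} {E : Set (Sym2 V)} {p Z : V → Vec k} (hZ : Z ∈ Mot A E p)
    {ρ : Vec k →ₗ[k] Vec k} (hρ : IsSkew ρ) (t : k) :
    Z ∈ Mot A E (p + t • fun v => ρ (Z v)) := by
  obtain ⟨h1, h2, h3⟩ := hZ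
  refine ⟨h1, fun v hv => ?_, fun a ha b hb hab => ?_⟩
  · simp only [Pi.add_apply, Pi.smul_apply, dotProduct_add, dotProduct_smul]
    rw [h2 v hv, dotProduct_comm, hρ]
    simp
  · have h4 := h3 a ha b hb hab
    rw [eps_apply] at h4 ⊢
    simp only [Pi.add_apply, Pi.smul_apply, dotProduct_add, dotProduct_smul, smul_eq_mul]
    have h5 := hρ.swap (Z b) (Z a)
    rw [dotProduct_comm (Z a) (ρ (Z b)), dotProduct_comm (Z b) (ρ (Z a)), h5]
    linear_combination h4

/-- **Flow lemma.**  If generically `Z d ⬝ᵥ p e = 0` on the motions vanishing on `B`, then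
generically `Z d` and `Z e` are parallel there. -/
theorem flow_lemma [Infinite k] (A : Finset V) (E : Set (Sym2 V)) (B : Set V) (d e : V)
    (h : ∃ᶠ p in gen k (V → Vec k), ∀ Z ∈ FM A E B p, Z d ⬝ᵥ p e = 0) :
    ∀ᶠ p in gen k (V → Vec k), ∀ Z ∈ FM A E B p, ∀ i j, Z d i * Z e j = Z d j * Z e i := by
  let ψ : (V → Vec k) → (V → Vec k) →ₗ[k] k := fun p =>
    { toFun := fun Z => Z d ⬝ᵥ p e
      map_add' := fun Z Z' => by simp [add_dotProduct]
      map_smul' := fun c Z => by simp }
  have hψ : PolyFam ψ := PolyFam.of_scalar fun Z =>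
    PolyLine.dot (fun _ => PolyLine.const _) (fun i => PolyLine.coord e i)
  have h1 : ∃ᶠ p in gen k (V → Vec k), FM A E B p ≤ LinearMap.ker (ψ p) :=
    h.mono fun p hp Z hZ => hp Z hZ
  have h2 := eventually_line' (FM_eventually_of_frequently A E B hψ h1)
  filter_upwards [h2] with p hp
  intro Z hZ i j
  obtain ⟨h3, h4⟩ := hp
  have h5 := h4 (fun v => rho k i j (Z v))
  obtain ⟨t, ht⟩ := (h5.union (Set.finite_singleton (0 : k))).infinite_compl.nonempty
  simp only [Set.mem_compl_iff, Set.mem_union, Set.mem_ofPred_eq, Set.mem_singleton_iff,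
    not_or, not_not] at ht
  obtain ⟨ht1, ht0⟩ := ht
  have hZ' : Z ∈ FM A E B (p + t • fun v => rho k i j (Z v)) :=
    ⟨Mot_flow hZ.1 (rho_skew i j) t, hZ.2⟩
  have h6 : Z d ⬝ᵥ (p + t • fun v => rho k i j (Z v)) e = 0 := ht1 hZ'
  have h7 : Z d ⬝ᵥ p e = 0 := h3 hZ
  simp only [Pi.add_apply, Pi.smul_apply, dotProduct_add, dotProduct_smul, smul_eq_mul] at h6
  rw [h7, zero_add, dotProduct_comm, rho_dot] at h6
  have h8 := (mul_eq_zero.mp h6).resolve_left ht0
  linear_combination h8

end GR
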