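import Pool.Agent.Lib.GR.FivePoints
import Pool.Agent.Lib.GR.TypeConst
import Pool.Agent.Lib.GR.PolyMot

/-!
# The five point lemma with a frequent relation

The relation `ν e * ε_we + ν d * ε_wd = 0` (all dependencies `ν` of `T`, all motions) is a polynomial
condition on `p`, so it holds generically as soon as it holds frequently.
-/

set_option linter.unusedSectionVars false

namespace GR

open Filter Module

open scoped Matrix

variable {k : Type*} [Field k] {V : Type*} [DecidableEq V]

/-- the linear form `v ↦ det [x, y, z, v]` -/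
noncomputable def brF (x y z : Vec k) : Vec k →ₗ[k] k :=
  (Matrix.detRowAlternating (R := k) (n := Fin 4)).toMultilinearMap.toLinearMap ![x, y, z, 0] 3

lemma brF_apply (x y z v : Vec k) : brF x y z v = (Matrix.of ![x, y, z, v]).det := by
  have h : Function.update (![x, y, z, 0] : Fin 4 → Vec k) 3 v = ![x, y, z, v] := by
    ext i j
    fin_cases i <;> simp [Function.update]
  show (Matrix.detRowAlternating (R := k) (n := Fin 4))
    (Function.update (![x, y, z, 0] : Fin 4 → Vec k) 3 v) = _
  rw [h]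
  rfl

lemma brF_one (x y z : Vec k) : brF x y z x = 0 := by
  rw [brF_apply]
  exact Matrix.det_zero_of_row_eq (i := 0) (j := 3) (by decide) rfl

lemma brF_two (x y z : Vec k) : brF x y z y = 0 := by
  rw [brF_apply]
  exact Matrix.det_zero_of_row_eq (i := 1) (j := 3) (by decide) rfl

lemma brF_three (x y z : Vec k) : brF x y z z = 0 := by
  rw [brF_apply]
  exact Matrix.det_zero_of_row_eq (i := 2) (j := 3) (by decide) rfl

lemma brF_ne_zero {x y z v : Vec k} (h : LinearIndependent k ![x, y, z, v]) :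
    brF x y z v ≠ 0 := by
  rw [brF_apply]
  have h1 : IsUnit (Matrix.of ![x, y, z, v]) := by
    rw [← Matrix.linearIndependent_rows_iff_isUnit]
    exact h
  exact ((Matrix.isUnit_iff_isUnit_det _).mp h1).ne_zero

lemma polyLine_brF (x y z w : V) : PolyLine k fun p : V → Vec k => brF (p x) (p y) (p z) (p w) := by
  simp only [brF_apply]
  refine PolyLine.det fun i j => ?_
  fin_cases i
  · exact PolyLine.coord x j
  · exact PolyLine.coord y j
  · exact PolyLine.coord z j
  · exact PolyLine.coord w j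

lemma exists_lab {T : Finset V} {d e : V} (h5 : T.card = 5) (hd : d ∈ T) (he : e ∈ T)
    (hde : d ≠ e) : ∃ x y z : V, Lab T x y z d e := by
  have h3 : ((T.erase d).erase e).card = 3 := by
    rw [Finset.card_erase_of_mem (Finset.mem_erase.mpr ⟨hde.symm, he⟩),
      Finset.card_erase_of_mem hd, h5]
  obtain ⟨x, y, z, hxy, hxz, hyz, hT⟩ := Finset.card_eq_three.mp h3
  have hmem : ∀ w, w ∈ (T.erase d).erase e ↔ w = x ∨ w = y ∨ w = z := by
    intro w
    rw [hT]
    simp
  have hx := (hmem x).mpr (Or.inl rfl)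
  have hy := (hmem y).mpr (Or.inr (Or.inl rfl))
  have hz := (hmem z).mpr (Or.inr (Or.inr rfl))
  simp only [Finset.mem_erase] at hx hy hz
  refine ⟨x, y, z, ⟨?_, hxy, hxz, hx.2.1, hx.1, hyz, hy.2.1, hy.1, hz.2.1, hz.1, hde⟩⟩
  ext w
  simp only [Finset.mem_insert, Finset.mem_singleton]
  constructor
  · intro hw
    by_cases hwd : w = d
    · tauto
    by_cases hwe : w = e
    · tauto
    have := (hmem w).mp (Finset.mem_erase.mpr ⟨hwe, Finset.mem_erase.mpr ⟨hwd, hw⟩⟩)
    tauto
  · rintro (rfl | rfl | rfl | rfl | rfl)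
    exacts [hx.2.2, hy.2.2, hz.2.2, hd, he]

lemma Lab.sum {T : Finset V} {x y z d e : V} (h : Lab T x y z d e) {W : Type*} [AddCommMonoid W]
    (f : V → W) : ∑ i ∈ T, f i = f x + (f y + (f z + (f d + f e))) := by
  rw [h.eq, Finset.sum_insert (by simp [h.ab, h.ac, h.ad, h.ae]),
    Finset.sum_insert (by simp [h.bc, h.bd, h.be]),
    Finset.sum_insert (by simp [h.cd, h.ce]), Finset.sum_pair h.de]

lemma rel_iff {x y z d e : V} {T : Finset V} (hL : Lab T x y z d e)
    {p : V → Vec k} (hp : GenPos p (T : Set V)) (α β : k) :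
    (∀ ν ∈ DepM T p, ν e * α + ν d * β = 0) ↔
      brF (p x) (p y) (p z) (p d) * α - brF (p x) (p y) (p z) (p e) * β = 0 := by
  have hbd : brF (p x) (p y) (p z) (p d) ≠ 0 := brF_ne_zero (hp.four
    (by exact_mod_cast hL.ha) (by exact_mod_cast hL.hb) (by exact_mod_cast hL.hc)
    (by exact_mod_cast hL.hd) hL.ab hL.ac hL.ad hL.bc hL.bd hL.cd)
  have key : ∀ ν ∈ DepM T p, ν d * brF (p x) (p y) (p z) (p d)
      + ν e * brF (p x) (p y) (p z) (p e) = 0 := by
    intro ν hν
    have h1 := hν.2
    rw [hL.sum] at h1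
    have h2 := congrArg (brF (p x) (p y) (p z)) h1
    rw [map_add, map_add, map_add, map_add, map_smul, map_smul, map_smul, map_smul, map_smul,
      brF_one, brF_two, brF_three, map_zero] at h2
    simpa using h2
  constructor
  · intro h
    obtain ⟨ν, hν, hne⟩ := exists_dep hL.card p
    have hνe := DepM.ne_zero hL.card hp hν hne hL.he
    have h1 := h ν hν
    have h2 := key ν hν
    have h3 : ν e * (brF (p x) (p y) (p z) (p d) * α - brF (p x) (p y) (p z) (p e) * β) = 0 := by
      linear_combination brF (p x) (p y) (p z) (p d) * h1 - β * h2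
    exact (mul_eq_zero.mp h3).resolve_left hνe
  · intro h ν hν
    have h2 := key ν hν
    have h3 : brF (p x) (p y) (p z) (p d) * (ν e * α + ν d * β) = 0 := by
      linear_combination ν e * h + β * h2
    exact (mul_eq_zero.mp h3).resolve_left hbd

/-- **0-1 law for the relation.** -/
theorem rel_eventually [Infinite k] {A T : Finset V} (E : Set (Sym2 V)) {w d e : V}
    (hT : T.card = 5) (hd : d ∈ T) (he : e ∈ T) (hde : d ≠ e)
    (h : ∃ᶠ p in gen k (V → Vec k), ∀ ν ∈ DepM T p, ∀ Z ∈ Mot A E p,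
      ν e * eps p w e Z + ν d * eps p w d Z = 0) :
    ∀ᶠ p in gen k (V → Vec k), ∀ ν ∈ DepM T p, ∀ Z ∈ Mot A E p,
      ν e * eps p w e Z + ν d * eps p w d Z = 0 := by
  obtain ⟨x, y, z, hL⟩ := exists_lab hT hd he hde
  let ψ : (V → Vec k) → (V → Vec k) →ₗ[k] k := fun p =>
    brF (p x) (p y) (p z) (p d) • eps p w e - brF (p x) (p y) (p z) (p e) • eps p w d
  have hψ : PolyFam ψ :=
    ((PolyFam.eps w e).smul (polyLine_brF x y z d)).sub
      ((PolyFam.eps w d).smul (polyLine_brF x y z e))
  have hgen := eventually_genPos (k := k) T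
  have h1 : ∃ᶠ p in gen k (V → Vec k), Mot A E p ≤ LinearMap.ker (ψ p) := by
    refine (h.and_eventually hgen).mono ?_
    rintro p ⟨hp, hgp⟩ Z hZ
    have h2 := (rel_iff hL hgp (eps p w e Z) (eps p w d Z)).mp fun ν hν => hp ν hν Z hZ
    rw [LinearMap.mem_ker]
    exact h2
  have h2 := Mot_eventually_of_frequently A E hψ h1
  filter_upwards [h2, hgen] with p hp hgp ν hν Z hZ
  have h3 : brF (p x) (p y) (p z) (p d) * eps p w e Z - brF (p x) (p y) (p z) (p e) * eps p w d Z
      = 0 := hp hZ
  exact (rel_iff hL hgp _ _).mpr h3 ν hν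

end GR
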