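import Pool.Agent.Lib.GR.Attach2

/-!
# Flats of the rigidity matroid at `p`, merging of cliques, star parts of stresses
-/

set_option linter.unusedSectionVars false
set_option linter.style.haveILetI false

namespace GR

open Filter Module

open scoped Matrix

variable {k : Type*} [Field k] {V : Type*} [DecidableEq V]

/-- The edge set of the complete graph on the finite vertex set `C`. -/
def Kf (C : Finset V) : Finset (Sym2 V) := C.sym2.filter (fun e => ¬ e.IsDiag)

lemma mem_Kf {C : Finset V} {e : Sym2 V} : e ∈ Kf C ↔ ¬ e.IsDiag ∧ ∀ v ∈ e, v ∈ C := by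
  simp [Kf, Finset.mem_sym2_iff, and_comm]

lemma mk_mem_Kf {C : Finset V} {a b : V} : s(a, b) ∈ Kf C ↔ a ≠ b ∧ a ∈ C ∧ b ∈ C := by
  simp [mem_Kf]

lemma coe_Kf (C : Finset V) : (Kf C : Set (Sym2 V)) = KK (C : Set V) := by
  ext e
  simp [mem_Kf, KK]

lemma Kf_mono {A B : Finset V} (h : A ⊆ B) : Kf A ⊆ Kf B := fun e he => by
  rw [mem_Kf] at he ⊢
  exact ⟨he.1, fun v hv => h (he.2 v hv)⟩

lemma card_Kf (C : Finset V) : (Kf C).card = C.card.choose 2 := by
  have h1 : Kf C = C.offDiag.image (Function.uncurry Sym2.mk) := by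
    ext e
    induction e with
    | h a b =>
      simp only [mk_mem_Kf, Finset.mem_image, Finset.mem_offDiag, Prod.exists, Sym2.eq_iff,
        Function.uncurry_apply_pair]
      constructor
      · rintro ⟨h1, h2, h3⟩
        exact ⟨a, b, ⟨h2, h3, h1⟩, Or.inl ⟨rfl, rfl⟩⟩
      · rintro ⟨c, d, ⟨h1, h2, h3⟩, ⟨rfl, rfl⟩ | ⟨rfl, rfl⟩⟩
        · exact ⟨h3, h1, h2⟩
        · exact ⟨h3.symm, h2, h1⟩
  rw [h1, Sym2.card_image_offDiag]

/-- `D` is a flat of the rigidity matroid at `p` (loops are excluded). -/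
def IsFlat (D : Finset (Sym2 V)) (p : V → Vec k) : Prop :=
  (∀ e ∈ D, ¬ e.IsDiag) ∧ ∀ e : Sym2 V, ¬ e.IsDiag → e ∈ clo (D : Set (Sym2 V)) p → e ∈ D

/-- The span of the stresses of the `K₅`'s of `D`. -/
def S5 (D : Finset (Sym2 V)) (p : V → Vec k) : Submodule k (Sym2 V → k) :=
  ⨆ C : {C : Finset V // C.card = 5 ∧ Kf C ⊆ D}, Stress (Kf C.1) p

/-- Every stress of `D` is a sum of stresses of `K₅`'s of `D`. -/
def Good (D : Finset (Sym2 V)) (p : V → Vec k) : Prop := Stress D p ≤ S5 D p

section RankBasics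

lemma Stress_mono {E E' : Finset (Sym2 V)} (h : E ⊆ E') (p : V → Vec k) :
    Stress E p ≤ Stress E' p := by
  intro ω hω
  refine ⟨fun e he => hω.1 e (fun h' => he (h h')), fun Z hZ => ?_⟩
  rw [← Finset.sum_subset h (fun e _ he => by rw [hω.1 e he, zero_mul])]
  exact hω.2 Z hZ

/-- the number of edges is the rank plus the dimension of the space of stresses. -/
theorem rk_add_stress (E : Finset (Sym2 V)) (p : V → Vec k) :
    rk (E : Set (Sym2 V)) p + finrank k (Stress E p) = E.card := by
  classical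
  let f : (E → k) →ₗ[k] Dual k (Mot0 p) :=
    Fintype.linearCombination k (fun e : E => (epsS p e.1).domRestrict (Mot0 p))
  have h1 := LinearMap.finrank_range_add_finrank_ker f
  rw [Module.finrank_fintype_fun_eq_card, Fintype.card_coe] at h1
  rw [← h1]
  congr 1
  · unfold rk strainSpan
    have : Set.range (fun e : E => (epsS p e.1).domRestrict (Mot0 p))
        = (fun e => (epsS p e).domRestrict (Mot0 p)) '' (E : Set (Sym2 V)) := by
      ext φ
      simp
    rw [← this]
    exact (LinearEquiv.ofEq _ _ (Fintype.range_linearCombination k _)).symm.finrank_eq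
  · -- kernel ≃ Stress
    let g : Stress E p ≃ₗ[k] LinearMap.ker f :=
      { toFun := fun ω => ⟨fun e => ω.1 e.1, by
          rw [LinearMap.mem_ker]
          ext Z
          have h := ω.2.2 Z.1 Z.2
          rw [← Finset.sum_coe_sort] at h
          simpa [f, Fintype.linearCombination_apply, LinearMap.sum_apply] using h⟩
        map_add' := fun _ _ => rfl
        map_smul' := fun _ _ => rfl
        invFun := fun a => ⟨fun e => if h : e ∈ E then a.1 ⟨e, h⟩ else 0, by
          refine ⟨fun e he => by simp [he], fun Z hZ => ?_⟩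
          have h := LinearMap.congr_fun (LinearMap.mem_ker.mp a.2) ⟨Z, hZ⟩
          rw [← Finset.sum_coe_sort]
          simp only [f, Fintype.linearCombination_apply, LinearMap.sum_apply, LinearMap.smul_apply,
            LinearMap.domRestrict_apply, smul_eq_mul, LinearMap.zero_apply] at h
          simpa using h⟩
        left_inv := fun ω => by
          ext e
          by_cases he : e ∈ E
          · simp [he]
          · simp [he, ω.2.1 e he]
        right_inv := fun a => by
          ext e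
          simp }
    exact g.finrank_eq

instance Stress_finiteDimensional (E : Finset (Sym2 V)) (p : V → Vec k) :
    FiniteDimensional k (Stress E p) := by
  let f : Stress E p →ₗ[k] (E → k) :=
    { toFun := fun ω e => ω.1 e
      map_add' := fun _ _ => rfl
      map_smul' := fun _ _ => rfl }
  refine FiniteDimensional.of_injective f ?_
  intro ω ω' h
  ext e
  by_cases he : e ∈ E
  · exact congrFun h ⟨e, he⟩
  · rw [ω.2.1 e he, ω'.2.1 e he]

instance strainSpan_finiteDimensional (M : Submodule k (V → Vec k)) (E : Finset (Sym2 V))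
    (p : V → Vec k) : FiniteDimensional k (strainSpan M (E : Set (Sym2 V)) p) :=
  FiniteDimensional.span_of_finite k (Set.toFinite _)

lemma subset_clo (E : Set (Sym2 V)) (p : V → Vec k) : E ⊆ clo E p := fun e he =>
  Submodule.subset_span ⟨e, he, rfl⟩

lemma clo_mono {E E' : Set (Sym2 V)} (h : E ⊆ E') (p : V → Vec k) : clo E p ⊆ clo E' p :=
  fun _ he => Submodule.span_mono (Set.image_mono h) he

lemma rk_mono {E E' : Finset (Sym2 V)} (h : E ⊆ E') (p : V → Vec k) :
    rk (E : Set (Sym2 V)) p ≤ rk (E' : Set (Sym2 V)) p :=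
  Submodule.finrank_mono (Submodule.span_mono (Set.image_mono (by exact_mod_cast h)))

lemma strainSpan_clo (E : Set (Sym2 V)) (p : V → Vec k) :
    strainSpan (Mot0 p) (clo E p) p = strainSpan (Mot0 p) E p := by
  refine le_antisymm ?_ (Submodule.span_mono (Set.image_mono (subset_clo E p)))
  refine Submodule.span_le.mpr ?_
  rintro _ ⟨e, he, rfl⟩
  exact he

lemma clo_clo (E : Set (Sym2 V)) (p : V → Vec k) : clo (clo E p) p = clo E p := by
  ext e
  unfold clo
  simp only [Set.mem_ofPred_eq]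
  have := strainSpan_clo E p
  unfold clo at this
  rw [this]

lemma clo_subset_of_subset {E E' : Set (Sym2 V)} {p : V → Vec k} (h : E ⊆ clo E' p) :
    clo E p ⊆ clo E' p := by
  have := clo_mono h p
  rwa [clo_clo] at this

lemma rk_eq_of_clo {E E' : Set (Sym2 V)} {p : V → Vec k} (h : E ⊆ E') (h' : E' ⊆ clo E p) :
    rk E' p = rk E p := by
  unfold rk
  have : strainSpan (Mot0 p) E' p = strainSpan (Mot0 p) E p := by
    refine le_antisymm ?_ (Submodule.span_mono (Set.image_mono h))
    refine Submodule.span_le.mpr ?_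
    rintro _ ⟨e, he, rfl⟩
    exact h' he
  rw [this]

lemma rk_insert_le (E : Finset (Sym2 V)) (e : Sym2 V) (p : V → Vec k) :
    rk ((insert e E : Finset (Sym2 V)) : Set (Sym2 V)) p ≤ rk (E : Set (Sym2 V)) p + 1 := by
  have hfd : FiniteDimensional k (Submodule.span k
      ((fun e => (epsS p e).domRestrict (Mot0 p)) '' (E : Set (Sym2 V)))) :=
    FiniteDimensional.span_of_finite k (Set.toFinite _)
  unfold rk strainSpan
  rw [Finset.coe_insert, Set.image_insert_eq, Submodule.span_insert]
  have h1 := Submodule.finrank_add_le_finrank_add_finrank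
    (Submodule.span k {(epsS p e).domRestrict (Mot0 p)})
    (Submodule.span k ((fun e => (epsS p e).domRestrict (Mot0 p)) '' (E : Set (Sym2 V))))
  have h2 : finrank k (Submodule.span k {(epsS p e).domRestrict (Mot0 p)}) ≤ 1 :=
    (finrank_span_le_card _).trans (by simp)
  refine h1.trans ?_
  rw [add_comm]
  exact Nat.add_le_add_left h2 _

lemma rk_insert_of_notMem_clo (E : Finset (Sym2 V)) (e : Sym2 V) (p : V → Vec k)
    (he : e ∉ clo (E : Set (Sym2 V)) p) :
    rk ((insert e E : Finset (Sym2 V)) : Set (Sym2 V)) p = rk (E : Set (Sym2 V)) p + 1 := by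
  refine le_antisymm (rk_insert_le E e p) ?_
  have hlt : strainSpan (Mot0 p) (E : Set (Sym2 V)) p
      < strainSpan (Mot0 p) ((insert e E : Finset (Sym2 V)) : Set (Sym2 V)) p := by
    refine lt_of_le_of_ne (Submodule.span_mono (Set.image_mono (by simp))) ?_
    intro heq
    apply he
    show _ ∈ strainSpan (Mot0 p) (E : Set (Sym2 V)) p
    rw [heq]
    exact Submodule.subset_span ⟨e, by simp, rfl⟩
  exact Submodule.finrank_lt_finrank_of_lt hlt

lemma rk_insert_of_mem_clo (E : Finset (Sym2 V)) (e : Sym2 V) (p : V → Vec k)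
    (he : e ∈ clo (E : Set (Sym2 V)) p) :
    rk ((insert e E : Finset (Sym2 V)) : Set (Sym2 V)) p = rk (E : Set (Sym2 V)) p := by
  refine rk_eq_of_clo (by simp) ?_
  rw [Finset.coe_insert]
  exact Set.insert_subset he (subset_clo _ _)

lemma rk_le_card (E : Finset (Sym2 V)) (p : V → Vec k) : rk (E : Set (Sym2 V)) p ≤ E.card := by
  have := rk_add_stress E p
  omega

end RankBasics


section Merge

lemma GenPos.four {p : V → Vec k} {N : Set V} (h : GenPos p N) {a b c d : V} (ha : a ∈ N)
    (hb : b ∈ N) (hc : c ∈ N) (hd : d ∈ N) (hab : a ≠ b) (hac : a ≠ c) (had : a ≠ d)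
    (hbc : b ≠ c) (hbd : b ≠ d) (hcd : c ≠ d) :
    LinearIndependent k ![p a, p b, p c, p d] := by
  have hT := h {a, b, c, d} (by
    intro x hx
    simp only [Finset.coe_insert, Finset.coe_singleton, Set.mem_insert_iff,
      Set.mem_singleton_iff] at hx
    rcases hx with rfl | rfl | rfl | rfl <;> assumption) (by
      refine (Finset.card_le_four)) 
  let f : Fin 4 → ({a, b, c, d} : Finset V) :=
    ![⟨a, by simp⟩, ⟨b, by simp⟩, ⟨c, by simp⟩, ⟨d, by simp⟩]
  have hf : Function.Injective f := by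
    intro i j hij
    fin_cases i <;> fin_cases j <;> simp_all [f]
  have := hT.comp f hf
  convert this using 1
  ext i
  fin_cases i <;> rfl

/-- If every `z` orthogonal to `u` is orthogonal to `q`, then `q` is a multiple of `u`. -/
lemma exists_smul_of_perp (u q : Vec k) (h : ∀ z : Vec k, z ⬝ᵥ u = 0 → z ⬝ᵥ q = 0) :
    ∃ c : k, q = c • u := by
  by_cases hu : u = 0
  · refine ⟨0, ?_⟩
    ext i
    have := h (Pi.single i 1) (by simp [hu])
    simpa using this
  · obtain ⟨i, hi⟩ : ∃ i, u i ≠ 0 := by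
      by_contra hcon
      push Not at hcon
      exact hu (funext hcon)
    refine ⟨q i / u i, ?_⟩
    ext j
    have := h (Pi.single j (u i) - Pi.single i (u j)) (by
      simp only [sub_dotProduct, single_dotProduct]
      ring)
    simp only [sub_dotProduct, single_dotProduct] at this
    simp only [Pi.smul_apply, smul_eq_mul]
    field_simp
    linear_combination this

/-- Two rigid bodies with three common points in general position are rigid together. -/
lemma merge_pair {p Z : V → Vec k} {N : Set V} (h : GenPos p N) {a b c d e : V} (ha : a ∈ N)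
    (hb : b ∈ N) (hc : c ∈ N) (hd : d ∈ N) (he : e ∈ N) (hac : a ≠ c) (had : a ≠ d)
    (hae : a ≠ e) (hbc : b ≠ c) (hbd : b ≠ d) (hbe : b ≠ e) (hcd : c ≠ d) (hce : c ≠ e)
    (hde : d ≠ e) (h0 : ∀ v ∈ N, Z v ⬝ᵥ p v = 0)
    (hac' : eps p a c Z = 0) (had' : eps p a d Z = 0) (hae' : eps p a e Z = 0)
    (hbc' : eps p b c Z = 0) (hbd' : eps p b d Z = 0) (hbe' : eps p b e Z = 0)
    (hcd' : eps p c d Z = 0) (hce' : eps p c e Z = 0) (hde' : eps p d e Z = 0) :
    eps p a b Z = 0 := by
  have hli := h.four ha hc hd he hac had hae hcd hce hde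
  have hli' := h.four hb hc hd he hbc hbd hbe hcd hce hde
  have hspan := hli.span_eq_top_of_card_eq_finrank (by simp)
  have hmem : p b ∈ Submodule.span k (Set.range ![p a, p c, p d, p e]) := by
    rw [hspan]; exact Submodule.mem_top
  obtain ⟨g, hg⟩ := (Submodule.mem_span_range_iff_exists_fun k).mp hmem
  rw [Fin.sum_univ_four] at hg
  simp only [Matrix.cons_val_zero, Matrix.cons_val_one, Matrix.cons_val] at hg
  have hg0 : g 0 ≠ 0 := by
    intro h00
    have := Fintype.linearIndependent_iff.mp hli' ![-1, g 1, g 2, g 3] (by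
      rw [Fin.sum_univ_four]
      simp only [Matrix.cons_val_zero, Matrix.cons_val_one, Matrix.cons_val]
      rw [← hg, h00]
      module) 0
    simp at this
  have za := h0 a ha
  have zb := h0 b hb
  have zc := h0 c hc
  have zd := h0 d hd
  have ze := h0 e he
  simp only [eps_apply] at *
  rw [← hg] at zb hbc' hbd' hbe' ⊢
  simp only [dotProduct_add, dotProduct_smul, smul_eq_mul] at *
  have key : g 0 * (Z a ⬝ᵥ p b + Z b ⬝ᵥ p a) = 0 := by
    rw [← hg]
    simp only [dotProduct_add, dotProduct_smul, smul_eq_mul]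
    linear_combination zb + g 0 * g 0 * za - g 1 * hbc' - g 2 * hbd' - g 3 * hbe'
      + g 0 * g 1 * hac' + g 0 * g 2 * had' + g 0 * g 3 * hae' + g 1 * g 2 * hcd' +
      g 1 * g 3 * hce' + g 2 * g 3 * hde' + g 1 * g 1 * zc + g 2 * g 2 * zd + g 3 * g 3 * ze
  rcases mul_eq_zero.mp key with h' | h'
  · exact absurd h' hg0
  · rw [← hg] at h'
    simpa only [dotProduct_add, dotProduct_smul, smul_eq_mul] using h'

/-- Two rigid sets with three common vertices are rigid together. -/
lemma merge {p Z : V → Vec k} {A B : Finset V} (h : GenPos p ((A ∪ B : Finset V) : Set V))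
    (h3 : 3 ≤ (A ∩ B).card) (h0 : ∀ v ∈ A ∪ B, Z v ⬝ᵥ p v = 0)
    (hA : ∀ a ∈ A, ∀ b ∈ A, eps p a b Z = 0) (hB : ∀ a ∈ B, ∀ b ∈ B, eps p a b Z = 0) :
    ∀ a ∈ A ∪ B, ∀ b ∈ A ∪ B, eps p a b Z = 0 := by
  -- it is enough to treat `a ∈ A \ B`, `b ∈ B \ A`
  have key : ∀ a ∈ A, a ∉ B → ∀ b ∈ B, b ∉ A → eps p a b Z = 0 := by
    intro a ha ha' b hb hb'
    obtain ⟨T, hT, hT3⟩ := Finset.exists_subset_card_eq h3
    obtain ⟨c, d, e, hcd, hce, hde, rfl⟩ := Finset.card_eq_three.mp hT3
    have hc := hT (show c ∈ ({c, d, e} : Finset V) by simp)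
    have hd := hT (show d ∈ ({c, d, e} : Finset V) by simp)
    have he := hT (show e ∈ ({c, d, e} : Finset V) by simp)
    rw [Finset.mem_inter] at hc hd he
    have ne1 : ∀ x, x ∈ B → a ≠ x := fun x hx hax => ha' (hax ▸ hx)
    have ne2 : ∀ x, x ∈ A → b ≠ x := fun x hx hax => hb' (hax ▸ hx)
    refine merge_pair (N := ((A ∪ B : Finset V) : Set V)) h (c := c) (d := d) (e := e)
      ?_ ?_ ?_ ?_ ?_ (ne1 c hc.2) (ne1 d hd.2) (ne1 e he.2) (ne2 c hc.1) (ne2 d hd.1) (ne2 e he.1)
      hcd hce hde h0 (hA a ha c hc.1) (hA a ha d hd.1) (hA a ha e he.1)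
      (hB b hb c hc.2) (hB b hb d hd.2) (hB b hb e he.2) (hA c hc.1 d hd.1) (hA c hc.1 e he.1)
      (hA d hd.1 e he.1)
    · simp [ha]
    · simp [hb]
    · simp [hc.1]
    · simp [hd.1]
    · simp [he.1]
  intro a ha b hb
  rw [Finset.mem_union] at ha hb
  by_cases haA : a ∈ A
  · by_cases hbA : b ∈ A
    · exact hA a haA b hbA
    · have hbB : b ∈ B := hb.resolve_left hbA
      by_cases haB : a ∈ B
      · exact hB a haB b hbB
      · exact key a haA haB b hbB hbA
  · have haB : a ∈ B := ha.resolve_left haA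
    by_cases hbB : b ∈ B
    · exact hB a haB b hbB
    · have hbA : b ∈ A := hb.resolve_right hbB
      rw [eps_comm]
      exact key b hbA hbB a haB haA

lemma eps_self_of_mem {p Z : V → Vec k} (hZ : Z ∈ Mot0 p) (a : V) : eps p a a Z = 0 := by
  have := hZ a
  rw [eps_apply, this, add_zero]

lemma Kf_subset_clo_iff {E : Finset (Sym2 V)} {p : V → Vec k} {A : Finset V} :
    (Kf A : Set (Sym2 V)) ⊆ clo (E : Set (Sym2 V)) p ↔
      ∀ Z ∈ Mot0 p, (∀ f ∈ E, epsS p f Z = 0) → ∀ a ∈ A, ∀ b ∈ A, eps p a b Z = 0 := by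
  constructor
  · intro h Z hZ hf a ha b hb
    by_cases hab : a = b
    · subst hab; exact eps_self_of_mem hZ a
    · have h1 := h (show s(a, b) ∈ (Kf A : Set (Sym2 V)) by
        rw [Finset.mem_coe, mk_mem_Kf]; exact ⟨hab, ha, hb⟩)
      rw [mem_clo_iff (Finset.finite_toSet E)] at h1
      exact h1 Z hZ (by simpa using hf)
  · intro h e he
    rw [mem_clo_iff (Finset.finite_toSet E)]
    intro Z hZ hf
    induction e with
    | h a b =>
      rw [Finset.mem_coe, mk_mem_Kf] at he
      exact h Z hZ (by simpa using hf) a he.2.1 b he.2.2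

/-- merging in the closure -/
lemma merge_clo {E : Finset (Sym2 V)} {p : V → Vec k} {A B : Finset V}
    (h : GenPos p ((A ∪ B : Finset V) : Set V)) (h3 : 3 ≤ (A ∩ B).card)
    (hA : (Kf A : Set (Sym2 V)) ⊆ clo (E : Set (Sym2 V)) p)
    (hB : (Kf B : Set (Sym2 V)) ⊆ clo (E : Set (Sym2 V)) p) :
    (Kf (A ∪ B) : Set (Sym2 V)) ⊆ clo (E : Set (Sym2 V)) p := by
  rw [Kf_subset_clo_iff] at hA hB ⊢
  intro Z hZ hf
  exact merge h h3 (fun v _ => hZ v) (hA Z hZ hf) (hB Z hZ hf)

lemma IsFlat.Kf_subset {D : Finset (Sym2 V)} {p : V → Vec k} (hD : IsFlat D p) {A : Finset V}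
    (hA : (Kf A : Set (Sym2 V)) ⊆ clo (D : Set (Sym2 V)) p) : Kf A ⊆ D := fun e he =>
  hD.2 e (mem_Kf.mp he).1 (hA (by exact_mod_cast he))

/-- (E1) cliques of a flat with three common vertices merge. -/
lemma IsFlat.merge {D : Finset (Sym2 V)} {p : V → Vec k} (hD : IsFlat D p) {A B : Finset V}
    (h : GenPos p ((A ∪ B : Finset V) : Set V)) (h3 : 3 ≤ (A ∩ B).card)
    (hA : Kf A ⊆ D) (hB : Kf B ⊆ D) : Kf (A ∪ B) ⊆ D := by
  refine hD.Kf_subset (merge_clo h h3 ?_ ?_)
  · exact (by exact_mod_cast hA : (Kf A : Set (Sym2 V)) ⊆ D).trans (subset_clo _ _)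
  · exact (by exact_mod_cast hB : (Kf B : Set (Sym2 V)) ⊆ D).trans (subset_clo _ _)

/-- every edge of a `K₅` is in the closure of the others -/
lemma K5_clo {p : V → Vec k} {C : Finset V} (h : GenPos p (C : Set V)) (hC : C.card = 5)
    {e : Sym2 V} (he : e ∈ Kf C) :
    e ∈ clo (((Kf C).erase e : Finset (Sym2 V)) : Set (Sym2 V)) p := by
  induction e with
  | h a b =>
    rw [mk_mem_Kf] at he
    obtain ⟨hab, ha, hb⟩ := he
    have hA : (Kf (C.erase b) : Set (Sym2 V)) ⊆
        clo (((Kf C).erase s(a, b) : Finset (Sym2 V)) : Set (Sym2 V)) p := by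
      refine subset_trans ?_ (subset_clo _ _)
      intro f hf
      rw [Finset.mem_coe, mem_Kf] at hf
      rw [Finset.mem_coe, Finset.mem_erase, mem_Kf]
      refine ⟨?_, hf.1, fun v hv => Finset.mem_of_mem_erase (hf.2 v hv)⟩
      rintro rfl
      have := hf.2 b (by simp)
      simp at this
    have hB : (Kf (C.erase a) : Set (Sym2 V)) ⊆
        clo (((Kf C).erase s(a, b) : Finset (Sym2 V)) : Set (Sym2 V)) p := by
      refine subset_trans ?_ (subset_clo _ _)
      intro f hf
      rw [Finset.mem_coe, mem_Kf] at hf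
      rw [Finset.mem_coe, Finset.mem_erase, mem_Kf]
      refine ⟨?_, hf.1, fun v hv => Finset.mem_of_mem_erase (hf.2 v hv)⟩
      rintro rfl
      have := hf.2 a (by simp)
      simp at this
    have hU : C.erase b ∪ C.erase a ⊆ C :=
      Finset.union_subset (Finset.erase_subset _ _) (Finset.erase_subset _ _)
    have hI : 3 ≤ (C.erase b ∩ C.erase a).card := by
      have : (C.erase b).erase a ⊆ C.erase b ∩ C.erase a := by
        intro x hx
        simp only [Finset.mem_erase, Finset.mem_inter] at hx ⊢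
        tauto
      refine le_trans ?_ (Finset.card_le_card this)
      rw [Finset.card_erase_of_mem, Finset.card_erase_of_mem hb, hC]
      simp [ha, hab]
    have := merge_clo (h.mono (by exact_mod_cast hU)) hI hA hB
    apply this
    rw [Finset.mem_coe, mk_mem_Kf]
    refine ⟨hab, ?_, ?_⟩ <;> simp [ha, hb, hab, hab.symm]

end Merge

section Restrict

/-- the restriction of a graph to a vertex set -/
def rest (D : Finset (Sym2 V)) (W : Finset V) : Finset (Sym2 V) := D ∩ W.sym2

lemma mem_rest {D : Finset (Sym2 V)} {W : Finset V} {e : Sym2 V} :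
    e ∈ rest D W ↔ e ∈ D ∧ ∀ v ∈ e, v ∈ W := by
  simp [rest, Finset.mem_sym2_iff]

lemma rest_subset (D : Finset (Sym2 V)) (W : Finset V) : rest D W ⊆ D := Finset.inter_subset_left

lemma rest_subset_Kf {D : Finset (Sym2 V)} (hD : ∀ e ∈ D, ¬ e.IsDiag) (W : Finset V) :
    rest D W ⊆ Kf W := by
  intro e he
  rw [mem_rest] at he
  exact mem_Kf.mpr ⟨hD e he.1, he.2⟩

lemma Kf_subset_rest {D : Finset (Sym2 V)} {W C : Finset V} :
    Kf C ⊆ D → C ⊆ W → Kf C ⊆ rest D W := by
  intro h1 h2 e he
  rw [mem_rest]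
  exact ⟨h1 he, fun v hv => h2 ((mem_Kf.mp he).2 v hv)⟩

lemma exists_perp {u q : Vec k} (h : LinearIndependent k ![u, q]) :
    ∃ z : Vec k, z ⬝ᵥ u = 0 ∧ z ⬝ᵥ q ≠ 0 := by
  by_contra hcon
  push Not at hcon
  obtain ⟨c, hc⟩ := exists_smul_of_perp u q hcon
  have := Fintype.linearIndependent_iff.mp h ![c, -1] (by
    rw [Fin.sum_univ_two]
    simp [hc]) 1
  simp at this

lemma GenPos.two {p : V → Vec k} {N : Set V} (h : GenPos p N) {a b : V} (ha : a ∈ N)
    (hb : b ∈ N) (hab : a ≠ b) : LinearIndependent k ![p a, p b] := by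
  have hT := h {a, b} (by
    intro x hx
    simp only [Finset.coe_insert, Finset.coe_singleton, Set.mem_insert_iff,
      Set.mem_singleton_iff] at hx
    rcases hx with rfl | rfl <;> assumption) (Finset.card_le_two.trans (by norm_num))
  let f : Fin 2 → ({a, b} : Finset V) := ![⟨a, by simp⟩, ⟨b, by simp⟩]
  have hf : Function.Injective f := by
    intro i j hij
    fin_cases i <;> fin_cases j <;> simp_all [f]
  have := hT.comp f hf
  convert this using 1
  ext i
  fin_cases i <;> rfl

lemma mot0_single {p : V → Vec k} {x : V} {z : Vec k} (hz : z ⬝ᵥ p x = 0) :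
    (Pi.single x z : V → Vec k) ∈ Mot0 p := by
  intro v
  by_cases h : v = x
  · subst h; simpa using hz
  · simp [Pi.single_eq_of_ne h]

lemma epsS_single_of_notMem {p : V → Vec k} {x : V} {z : Vec k} {e : Sym2 V} (hx : x ∉ e) :
    epsS p e (Pi.single x z : V → Vec k) = 0 := by
  induction e with
  | h a b =>
    simp only [Sym2.mem_iff, not_or] at hx
    rw [epsS_mk, eps_apply, Pi.single_eq_of_ne (Ne.symm hx.1), Pi.single_eq_of_ne (Ne.symm hx.2)]
    simp

/-- the closure of a graph on `W` stays inside `W` (and pairs whose points are independent) -/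
lemma clo_subset_vertices {E : Finset (Sym2 V)} {W : Finset V} {p : V → Vec k}
    (hE : ∀ e ∈ E, ∀ v ∈ e, v ∈ W) {a b : V} (hab : LinearIndependent k ![p a, p b])
    (h : s(a, b) ∈ clo (E : Set (Sym2 V)) p) : a ∈ W := by
  by_contra ha
  obtain ⟨z, hz1, hz2⟩ := exists_perp hab
  rw [mem_clo_iff (Finset.finite_toSet E)] at h
  have hne : a ≠ b := by
    rintro rfl
    exact hz2 hz1
  have := h (Pi.single a z) (mot0_single hz1) (fun f hf => epsS_single_of_notMem
    (fun haf => ha (hE f (by exact_mod_cast hf) a haf)))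
  rw [epsS_mk, eps_apply, Pi.single_eq_same, Pi.single_eq_of_ne hne.symm] at this
  simp at this
  exact hz2 this

/-- the restriction of a flat is a flat -/
lemma IsFlat.rest {D : Finset (Sym2 V)} {p : V → Vec k} {A : Finset V} (hD : IsFlat D p)
    (hA : D ⊆ Kf A) (hp : GenPos p (A : Set V)) (W : Finset V) : IsFlat (rest D W) p := by
  refine ⟨fun e he => hD.1 e (rest_subset D W he), fun e hdiag he => ?_⟩
  have heD : e ∈ D := hD.2 e hdiag (clo_mono (by exact_mod_cast rest_subset D W) p he)
  rw [mem_rest]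
  refine ⟨heD, ?_⟩
  induction e with
  | h a b =>
    have h1 := mk_mem_Kf.mp (hA heD)
    have hl := hp.two (by exact_mod_cast h1.2.1) (by exact_mod_cast h1.2.2) h1.1
    have hl' := hp.two (by exact_mod_cast h1.2.2) (by exact_mod_cast h1.2.1) h1.1.symm
    have hW : ∀ e ∈ GR.rest D W, ∀ v ∈ e, v ∈ W := fun e he => (mem_rest.mp he).2
    intro v hv
    rw [Sym2.mem_iff] at hv
    rcases hv with rfl | rfl
    · exact clo_subset_vertices hW hl he
    · rw [Sym2.eq_swap] at he
      exact clo_subset_vertices hW hl' he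

end Restrict

end GR
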