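import Mathlib

/-!
# Generic points of a vector space over an infinite field

`Big k U` : `U` is nonempty and every line through a point of `U` meets the complement of `U` in
finitely many points.  `gen k W` is the filter generated by the big sets.
-/

set_option linter.unusedSectionVars false

namespace GR

open Filter Module

variable {k : Type*} [Field k]

section Big

variable (k) {W : Type*} [AddCommGroup W] [Module k W]

/-- A set is big if it is nonempty and each line through a point of it has a finite complement. -/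
def Big (U : Set W) : Prop :=
  U.Nonempty ∧ ∀ a ∈ U, ∀ b : W, {t : k | a + t • b ∉ U}.Finite

variable {k}

lemma Big.univ : Big k (Set.univ : Set W) := by
  refine ⟨⟨0, trivial⟩, ?_⟩
  intro a _ b
  simp

lemma Big.inter [Infinite k] {U U' : Set W} (h : Big k U) (h' : Big k U') : Big k (U ∩ U') := by
  obtain ⟨⟨a, ha⟩, hU⟩ := h
  obtain ⟨⟨a', ha'⟩, hU'⟩ := h'
  refine ⟨?_, ?_⟩
  · have h1 := hU a ha (a' - a)
    have h2 := hU' a' ha' (a - a')
    have h3 : {t : k | a' + (1 - t) • (a - a') ∉ U'}.Finite := by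
      have : {t : k | a' + (1 - t) • (a - a') ∉ U'}
          = (fun t : k => 1 - t) ⁻¹' {t : k | a' + t • (a - a') ∉ U'} := rfl
      rw [this]
      exact h2.preimage (fun x _ y _ hxy => by simpa using hxy)
    have h4 := h1.union h3
    obtain ⟨t, ht⟩ := h4.infinite_compl.nonempty
    simp only [Set.mem_compl_iff, Set.mem_union, Set.mem_ofPred_eq, not_or, not_not] at ht
    refine ⟨a + t • (a' - a), ht.1, ?_⟩
    have e : a' + (1 - t) • (a - a') = a + t • (a' - a) := by
      rw [sub_smul, one_smul, smul_sub, smul_sub]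
      abel
    rw [← e]
    exact ht.2
  · intro b hb c
    have h1 := hU b hb.1 c
    have h2 := hU' b hb.2 c
    refine (h1.union h2).subset ?_
    intro t ht
    by_contra hcon
    simp only [Set.mem_union, Set.mem_ofPred_eq, not_or, not_not] at hcon
    exact ht ⟨hcon.1, hcon.2⟩

variable (k) (W) in
/-- The filter of generic properties. -/
def gen [Infinite k] : Filter W where
  sets := {S | ∃ U ⊆ S, Big k U}
  univ_sets := ⟨Set.univ, subset_rfl, Big.univ⟩
  sets_of_superset := by
    rintro S T ⟨U, hU, hb⟩ hST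
    exact ⟨U, hU.trans hST, hb⟩
  inter_sets := by
    rintro S T ⟨U, hU, hb⟩ ⟨U', hU', hb'⟩
    exact ⟨U ∩ U', Set.inter_subset_inter hU hU', hb.inter hb'⟩

variable [Infinite k]

lemma mem_gen {S : Set W} : S ∈ gen k W ↔ ∃ U ⊆ S, Big k U := Iff.rfl

lemma Big.mem_gen {U : Set W} (h : Big k U) : U ∈ gen k W := ⟨U, subset_rfl, h⟩

lemma eventually_gen {P : W → Prop} :
    (∀ᶠ x in gen k W, P x) ↔ ∃ U, Big k U ∧ ∀ x ∈ U, P x := by
  constructor
  · rintro ⟨U, hU, hb⟩
    exact ⟨U, hb, hU⟩
  · rintro ⟨U, hb, hU⟩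
    exact ⟨U, hU, hb⟩

instance gen_neBot : (gen k W).NeBot := by
  refine ⟨fun h => ?_⟩
  have : (∅ : Set W) ∈ gen k W := by rw [h]; trivial
  obtain ⟨U, hU, ⟨a, ha⟩, -⟩ := this
  exact hU ha

end Big

section Functor

variable {W W' : Type*} [AddCommGroup W] [Module k W] [AddCommGroup W'] [Module k W'] [Infinite k]

/-- Pull back along an affine map `x ↦ c + f x` whose range meets the big set. -/
lemma Big.preimage {U : Set W'} (h : Big k U) (f : W →ₗ[k] W') (c : W')
    (hne : ∃ x, c + f x ∈ U) : Big k {x : W | c + f x ∈ U} := by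
  refine ⟨hne, ?_⟩
  intro a ha b
  have := h.2 (c + f a) ha (f b)
  simpa [add_assoc] using this

/-- Pull back of a generic property along a surjective linear map. -/
lemma eventually_comp_of_surjective (f : W →ₗ[k] W') (hf : Function.Surjective f)
    {P : W' → Prop} (h : ∀ᶠ y in gen k W', P y) : ∀ᶠ x in gen k W, P (f x) := by
  obtain ⟨U, hb, hU⟩ := eventually_gen.mp h
  obtain ⟨y, hy⟩ := hb.1
  obtain ⟨x, rfl⟩ := hf y
  refine eventually_gen.mpr ⟨_, hb.preimage f 0 ⟨x, by simpa using hy⟩, ?_⟩
  intro x hx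
  exact hU _ (by simpa using hx)

/-- Push forward of a generic property along a surjective linear map. -/
lemma eventually_of_comp_surjective (f : W →ₗ[k] W') (hf : Function.Surjective f)
    {P : W' → Prop} (h : ∀ᶠ x in gen k W, P (f x)) : ∀ᶠ y in gen k W', P y := by
  obtain ⟨U, hb, hU⟩ := eventually_gen.mp h
  refine eventually_gen.mpr ⟨f '' U, ⟨hb.1.image f, ?_⟩, ?_⟩
  · rintro _ ⟨a, ha, rfl⟩ b'
    obtain ⟨b, rfl⟩ := hf b'
    refine (hb.2 a ha b).subset ?_
    intro t ht hcon
    exact ht ⟨a + t • b, hcon, by simp⟩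
  · rintro _ ⟨x, hx, rfl⟩
    exact hU x hx

lemma eventually_comp_iff_of_surjective (f : W →ₗ[k] W') (hf : Function.Surjective f)
    {P : W' → Prop} : (∀ᶠ x in gen k W, P (f x)) ↔ ∀ᶠ y in gen k W', P y :=
  ⟨eventually_of_comp_surjective f hf, eventually_comp_of_surjective f hf⟩

/-- Fubini. -/
lemma eventually_prod {P : W × W' → Prop} (h : ∀ᶠ z in gen k (W × W'), P z) :
    ∀ᶠ x in gen k W, ∀ᶠ y in gen k W', P (x, y) := by
  obtain ⟨U, hb, hU⟩ := eventually_gen.mp h
  refine eventually_gen.mpr ⟨Prod.fst '' U, ⟨hb.1.image _, ?_⟩, ?_⟩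
  · rintro _ ⟨⟨a, a'⟩, ha, rfl⟩ b
    refine (hb.2 (a, a') ha (b, 0)).subset ?_
    intro t ht hcon
    exact ht ⟨(a, a') + t • (b, (0 : W')), hcon, by simp⟩
  · rintro _ ⟨⟨a, a'⟩, ha, rfl⟩
    refine eventually_gen.mpr ⟨{y | (a, y) ∈ U}, ⟨⟨a', ha⟩, ?_⟩, ?_⟩
    · intro y hy b
      refine (hb.2 (a, y) hy (0, b)).subset ?_
      intro t ht hcon
      apply ht
      simpa using hcon
    · intro y hy
      exact hU _ hy

end Functor

section Update

variable {V : Type*} [DecidableEq V] {F : Type*} [AddCommGroup F] [Module k F] [Infinite k]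

/-- **Fubini for one coordinate**: a generic property of `p : V → F` holds, for generic `p`, for
generic positions of the vertex `v`. -/
lemma eventually_update {P : (V → F) → Prop} (h : ∀ᶠ p in gen k (V → F), P p) (v : V) :
    ∀ᶠ p in gen k (V → F), ∀ᶠ x in gen k F, P (Function.update p v x) := by
  obtain ⟨U, hb, hU⟩ := eventually_gen.mp h
  refine eventually_gen.mpr ⟨U, hb, ?_⟩
  intro p hp
  refine eventually_gen.mpr ⟨{x | Function.update p v x ∈ U}, ⟨⟨p v, by simpa using hp⟩, ?_⟩, ?_⟩
  · intro x hx b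
    refine (hb.2 _ hx (Pi.single v b : V → F)).subset ?_
    intro t ht hcon
    apply ht
    have e : Function.update p v x + t • (Pi.single v b : V → F) = Function.update p v (x + t • b) := by
      ext w
      by_cases hw : w = v
      · subst hw; simp
      · simp [hw]
    show Function.update p v (x + t • b) ∈ U
    rw [← e]
    exact hcon
  · intro x hx
    exact hU _ hx

/-- A generic property is preserved by pushing `p` along a line, for all but finitely many
parameters; stated with a big set. -/
lemma eventually_line {P : (V → F) → Prop} (h : ∀ᶠ p in gen k (V → F), P p) :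
    ∀ᶠ p in gen k (V → F), ∀ q : V → F, {t : k | ¬ P (p + t • q)}.Finite := by
  obtain ⟨U, hb, hU⟩ := eventually_gen.mp h
  refine eventually_gen.mpr ⟨U, hb, ?_⟩
  intro p hp q
  refine (hb.2 p hp q).subset ?_
  intro t ht hcon
  exact ht (hU _ hcon)

end Update

/-- A generic property is preserved by moving along a line, for all but finitely many
parameters. -/
lemma eventually_line' {W : Type*} [AddCommGroup W] [Module k W] [Infinite k]
    {P : W → Prop} (h : ∀ᶠ p in gen k W, P p) :
    ∀ᶠ p in gen k W, P p ∧ ∀ q : W, {t : k | ¬ P (p + t • q)}.Finite := by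
  obtain ⟨U, hb, hU⟩ := eventually_gen.mp h
  refine eventually_gen.mpr ⟨U, hb, ?_⟩
  intro p hp
  refine ⟨hU p hp, ?_⟩
  intro q
  refine (hb.2 p hp q).subset ?_
  intro t ht hcon
  exact ht (hU _ hcon)

section PolyLine

variable {W : Type*} [AddCommGroup W] [Module k W]

variable (k) in
/-- A function which is polynomial along every line. -/
def PolyLine (f : W → k) : Prop := ∀ a b : W, ∃ P : Polynomial k, ∀ t : k, f (a + t • b) = P.eval t

lemma PolyLine.const (c : k) : PolyLine k (fun _ : W => c) :=
  fun _ _ => ⟨Polynomial.C c, by simp⟩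

lemma PolyLine.linear (f : W →ₗ[k] k) : PolyLine k (fun x => f x) :=
  fun a b => ⟨Polynomial.C (f a) + Polynomial.C (f b) * Polynomial.X, fun t => by
    simp only [map_add, map_smul, smul_eq_mul, Polynomial.eval_add, Polynomial.eval_C,
      Polynomial.eval_mul, Polynomial.eval_X]
    ring⟩

lemma PolyLine.add {f g : W → k} (hf : PolyLine k f) (hg : PolyLine k g) :
    PolyLine k (fun x => f x + g x) := by
  intro a b
  obtain ⟨P, hP⟩ := hf a b
  obtain ⟨Q, hQ⟩ := hg a b
  exact ⟨P + Q, fun t => by rw [Polynomial.eval_add, ← hP t, ← hQ t]⟩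

lemma PolyLine.mul {f g : W → k} (hf : PolyLine k f) (hg : PolyLine k g) :
    PolyLine k (fun x => f x * g x) := by
  intro a b
  obtain ⟨P, hP⟩ := hf a b
  obtain ⟨Q, hQ⟩ := hg a b
  exact ⟨P * Q, fun t => by rw [Polynomial.eval_mul, ← hP t, ← hQ t]⟩

lemma PolyLine.neg {f : W → k} (hf : PolyLine k f) : PolyLine k (fun x => - f x) := by
  intro a b
  obtain ⟨P, hP⟩ := hf a b
  exact ⟨-P, fun t => by rw [Polynomial.eval_neg, ← hP t]⟩

lemma PolyLine.sub {f g : W → k} (hf : PolyLine k f) (hg : PolyLine k g) :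
    PolyLine k (fun x => f x - g x) := by
  simpa [sub_eq_add_neg] using hf.add hg.neg

lemma PolyLine.sum {ι : Type*} (s : Finset ι) {f : ι → W → k} (hf : ∀ i ∈ s, PolyLine k (f i)) :
    PolyLine k (fun x => ∑ i ∈ s, f i x) := by
  classical
  induction s using Finset.induction_on with
  | empty => simpa using PolyLine.const (W := W) (0 : k)
  | insert a s ha ih =>
    simp only [Finset.sum_insert ha]
    exact (hf a (by simp)).add (ih fun i hi => hf i (by simp [hi]))

lemma PolyLine.prod {ι : Type*} (s : Finset ι) {f : ι → W → k} (hf : ∀ i ∈ s, PolyLine k (f i)) :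
    PolyLine k (fun x => ∏ i ∈ s, f i x) := by
  classical
  induction s using Finset.induction_on with
  | empty => simpa using PolyLine.const (W := W) (1 : k)
  | insert a s ha ih =>
    simp only [Finset.prod_insert ha]
    exact (hf a (by simp)).mul (ih fun i hi => hf i (by simp [hi]))

lemma PolyLine.pow {f : W → k} (hf : PolyLine k f) (n : ℕ) : PolyLine k (fun x => f x ^ n) := by
  intro a b
  obtain ⟨P, hP⟩ := hf a b
  exact ⟨P ^ n, fun t => by rw [Polynomial.eval_pow, ← hP t]⟩

/-- composition with an affine map -/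
lemma PolyLine.comp_affine {W' : Type*} [AddCommGroup W'] [Module k W'] {f : W' → k}
    (hf : PolyLine k f) (c : W') (g : W →ₗ[k] W') : PolyLine k (fun x => f (c + g x)) := by
  intro a b
  obtain ⟨P, hP⟩ := hf (c + g a) (g b)
  refine ⟨P, ?_⟩
  intro t
  rw [← hP t]
  simp [add_assoc]

lemma PolyLine.comp_linear {W' : Type*} [AddCommGroup W'] [Module k W'] {f : W' → k}
    (hf : PolyLine k f) (g : W →ₗ[k] W') : PolyLine k (fun x => f (g x)) := by
  simpa using hf.comp_affine 0 g

lemma PolyLine.det {n : Type*} [Fintype n] [DecidableEq n] {M : W → Matrix n n k}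
    (hM : ∀ i j, PolyLine k (fun x => M x i j)) : PolyLine k (fun x => (M x).det) := by
  simp only [Matrix.det_apply]
  refine PolyLine.sum _ fun σ _ => ?_
  have h := (PolyLine.const (W := W) ((Equiv.Perm.sign σ : ℤ) : k)).mul
    (PolyLine.prod Finset.univ (f := fun i x => M x (σ i) i) fun i _ => hM _ _)
  have e : (fun x => Equiv.Perm.sign σ • ∏ i, M x (σ i) i)
      = fun x => ((Equiv.Perm.sign σ : ℤ) : k) * ∏ i, M x (σ i) i := by
    ext x
    rw [Units.smul_def, zsmul_eq_mul]
  rw [e]
  exact h

variable [Infinite k]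

/-- A nonzero value makes a polynomial function generically nonzero. -/
lemma PolyLine.big {f : W → k} (hf : PolyLine k f) (h : ∃ x, f x ≠ 0) :
    Big k {x | f x ≠ 0} := by
  refine ⟨h, ?_⟩
  intro a ha b
  obtain ⟨P, hP⟩ := hf a b
  have hP0 : P ≠ 0 := by
    rintro rfl
    apply ha
    have := hP 0
    simpa using this
  refine (Polynomial.finite_setOfPred_isRoot hP0).subset ?_
  intro t ht
  have h0 : f (a + t • b) = 0 := by simpa using ht
  rw [hP t] at h0
  exact h0

lemma PolyLine.eventually_ne {f : W → k} (hf : PolyLine k f) (h : ∃ x, f x ≠ 0) :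
    ∀ᶠ x in gen k W, f x ≠ 0 := (hf.big h).mem_gen

/-- A polynomial function which is frequently zero vanishes identically. -/
lemma PolyLine.eq_zero {f : W → k} (hf : PolyLine k f) (h : ∃ᶠ x in gen k W, f x = 0) (x : W) :
    f x = 0 := by
  by_contra hx
  exact h (hf.eventually_ne ⟨x, hx⟩)

lemma PolyLine.eq_zero_of_eventually {f : W → k} (hf : PolyLine k f)
    (h : ∀ᶠ x in gen k W, f x = 0) (x : W) : f x = 0 :=
  hf.eq_zero h.frequently x

/-- Along every line only finitely many exceptions to `f ≠ 0`, if one nonzero value. -/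
lemma PolyLine.finite_line {f : W → k} (hf : PolyLine k f) (a b : W) (h : f a ≠ 0) :
    {t : k | f (a + t • b) = 0}.Finite := by
  have := (hf.big ⟨a, h⟩).2 a h b
  simpa using this

end PolyLine

end GR
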