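import Pool.Agent.Lib.GR.Pair2

/-!
# Independent sets of new vertices: `Mot (U ∪ Y)` inside `Mot U`
-/

set_option linter.unusedSectionVars false

namespace GR

open Filter Module

open scoped Matrix

variable {k : Type*} [Field k] {V : Type*} [DecidableEq V]

/-- `X` is an independent set of vertices outside `U`. -/
structure Indep (U X : Finset V) (E : Set (Sym2 V)) : Prop where
  disj : Disjoint U X
  nonadj : ∀ u ∈ X, ∀ v ∈ X, u ≠ v → s(u, v) ∉ E

lemma Indep.notMem {U X : Finset V} {E : Set (Sym2 V)} (h : Indep U X E) {u : V} (hu : u ∈ X) :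
    u ∉ U := fun h' => (Finset.disjoint_left.mp h.disj) h' hu

lemma Indep.mono {U X X' : Finset V} {E : Set (Sym2 V)} (h : Indep U X E) (hX : X' ⊆ X) :
    Indep U X' E :=
  ⟨h.disj.mono_right hX, fun u hu v hv => h.nonadj u (hX hu) v (hX hv)⟩

/-- The motions of `U` extending to the vertex `u` at its own position. -/
def AttU (U : Finset V) (E : Set (Sym2 V)) (p : V → Vec k) (u : V) : Submodule k (V → Vec k) :=
  Att p (nbr U E u : Set V) (p u)

lemma Att_congr_pts {p q : V → Vec k} {N : Set V} {x : Vec k} (h : ∀ v ∈ N, p v = q v) :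
    Att p N x = Att q N x := by
  ext Z
  simp only [mem_Att]
  refine exists_congr fun z => and_congr_right fun _ => forall₂_congr fun v hv => ?_
  rw [h v hv]

lemma RG_congr {p q : V → Vec k} {N : Set V} (h : ∀ v ∈ N, p v = q v) : RG p N = RG q N := by
  ext Z
  simp only [mem_RG]
  refine exists_congr fun z => and_congr_right fun _ => forall₂_congr fun v hv => ?_
  rw [h v hv]

lemma TA_congr {p q : V → Vec k} {N : Set V} (h : ∀ v ∈ N, p v = q v) : TA p N = TA q N := by
  ext Z
  simp only [mem_TA]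
  refine exists_congr fun z => forall₂_congr fun v hv => ?_
  rw [h v hv]

lemma TB_congr {p q : V → Vec k} {a b c d e : V} (ha : p a = q a) (hb : p b = q b)
    (hc : p c = q c) (hd : p d = q d) (he : p e = q e) (t : k) :
    TB p a b c d e t = TB q a b c d e t := by
  ext Z
  simp only [mem_TB, ha, hb, hc, hd, he]

/-- membership depends on the values on `N` only -/
lemma mem_Att_congr {p Z Z' : V → Vec k} {N : Set V} {x : Vec k} (h : ∀ v ∈ N, Z v = Z' v) :
    Z ∈ Att p N x ↔ Z' ∈ Att p N x := by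
  simp only [mem_Att]
  refine exists_congr fun z => and_congr_right fun _ => forall₂_congr fun v hv => ?_
  rw [h v hv]

lemma mem_RG_congr {p Z Z' : V → Vec k} {N : Set V} (h : ∀ v ∈ N, Z v = Z' v) :
    Z ∈ RG p N ↔ Z' ∈ RG p N := by
  simp only [mem_RG]
  refine exists_congr fun z => and_congr_right fun _ => forall₂_congr fun v hv => ?_
  rw [h v hv]

lemma mem_TA_congr {p Z Z' : V → Vec k} {N : Set V} (h : ∀ v ∈ N, Z v = Z' v) :
    Z ∈ TA p N ↔ Z' ∈ TA p N := by
  simp only [mem_TA]
  refine exists_congr fun z => forall₂_congr fun v hv => ?_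
  rw [h v hv]

lemma mem_TB_congr {p Z Z' : V → Vec k} {a b c d e : V} {t : k} (ha : Z a = Z' a)
    (hb : Z b = Z' b) (hc : Z c = Z' c) (hd : Z d = Z' d) (he : Z e = Z' e) :
    Z ∈ TB p a b c d e t ↔ Z' ∈ TB p a b c d e t := by
  simp only [mem_TB, ha, hb, hc, hd, he]

section

variable {U X : Finset V} {E : Set (Sym2 V)}

/-- The motions of `U ∪ Y`, restricted to `U`. -/
theorem map_cut_Mot (h : Indep U X E) {Y : Finset V} (hY : Y ⊆ X) (p : V → Vec k) :
    (Mot (U ∪ Y) E p).map (cut k U) = Isp (Mot U E p) (AttU U E p) Y := by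
  have hYU : ∀ w ∈ Y, w ∉ U := fun w hw => h.notMem (hY hw)
  ext Z
  rw [Submodule.mem_map, mem_Isp]
  constructor
  · rintro ⟨Z', hZ', rfl⟩
    refine ⟨cut_mem_Mot_of_subset Finset.subset_union_left hZ', fun w hw => ⟨Z' w, ?_, ?_⟩⟩
    · exact hZ'.2.1 w (Finset.mem_union_right _ hw)
    · intro v hv
      have hv' := mem_nbr.mp (by simpa using hv : v ∈ nbr U E w)
      rw [cut_apply _ hv'.1]
      exact hZ'.2.2 w (Finset.mem_union_right _ hw) v (Finset.mem_union_left _ hv'.1) hv'.2
  · rintro ⟨hZ, hA⟩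
    have hA' : ∀ w ∈ Y, ∃ z : Vec k, z ⬝ᵥ p w = 0 ∧
        ∀ v ∈ (nbr U E w : Set V), z ⬝ᵥ p v + Z v ⬝ᵥ p w = 0 := hA
    choose! z hz1 hz2 using hA'
    refine ⟨fun v => if v ∈ Y then z v else Z v, ⟨?_, ?_, ?_⟩, ?_⟩
    · intro v hv
      rw [Finset.mem_union, not_or] at hv
      simp only [hv.2, if_false]
      exact hZ.1 v hv.1
    · intro v hv
      by_cases hvY : v ∈ Y
      · simpa [hvY] using hz1 v hvY
      · have hvU : v ∈ U := (Finset.mem_union.mp hv).resolve_right hvY
        simpa [hvY] using hZ.2.1 v hvU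
    · intro a ha b hb hab
      rw [eps_apply]
      by_cases haY : a ∈ Y
      · by_cases hbY : b ∈ Y
        · by_cases hab' : a = b
          · subst hab'
            simp [haY, hz1 a haY]
          · exact absurd hab (h.nonadj a (hY haY) b (hY hbY) hab')
        · have hbU : b ∈ U := (Finset.mem_union.mp hb).resolve_right hbY
          have := hz2 a haY b (by simpa using mem_nbr.mpr ⟨hbU, hab⟩)
          simpa [haY, hbY] using this
      · have haU : a ∈ U := (Finset.mem_union.mp ha).resolve_right haY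
        by_cases hbY : b ∈ Y
        · have := hz2 b hbY a (by
            have : a ∈ nbr U E b := mem_nbr.mpr ⟨haU, by rw [Sym2.eq_swap]; exact hab⟩
            simpa using this)
          simp only [haY, hbY, if_true, if_false]
          rw [add_comm]
          exact this
        · have hbU : b ∈ U := (Finset.mem_union.mp hb).resolve_right hbY
          have := hZ.2.2 a haU b hbU hab
          rw [eps_apply] at this
          simpa [haY, hbY] using this
    · ext v : 1
      by_cases hvU : v ∈ U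
      · rw [cut_apply _ hvU]
        have : v ∉ Y := fun hvY => hYU v hvY hvU
        simp [this]
      · rw [cut_apply_notMem _ hvU]
        exact (hZ.1 v hvU).symm

/-- The restriction is injective when all neighbourhoods span. -/
lemma cut_injOn {Y : Finset V} {p : V → Vec k}
    (hspan : ∀ w ∈ Y, Submodule.span k (p '' (nbr U E w : Set V)) = ⊤) {Z : V → Vec k}
    (hZ : Z ∈ Mot (U ∪ Y) E p) (h0 : cut k U Z = 0) : Z = 0 := by
  have hU : ∀ v ∈ U, Z v = 0 := fun v hv => by
    have := congrFun h0 v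
    rwa [cut_apply _ hv] at this
  ext v : 1
  by_cases hvU : v ∈ U
  · exact hU v hvU
  by_cases hvY : v ∈ Y
  swap
  · exact hZ.1 v (by simp [hvU, hvY])
  have h1 : ∀ w ∈ (nbr U E v : Set V), Z v ⬝ᵥ p w = 0 := by
    intro w hw
    have hw' := mem_nbr.mp (by simpa using hw : w ∈ nbr U E v)
    have h2 := hZ.2.2 v (Finset.mem_union_right _ hvY) w (Finset.mem_union_left _ hw'.1) hw'.2
    rw [eps_apply, hU w hw'.1, zero_dotProduct, add_zero] at h2
    exact h2
  have h2 : ∀ y ∈ Submodule.span k (p '' (nbr U E v : Set V)), Z v ⬝ᵥ y = 0 := by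
    intro y hy
    induction hy using Submodule.span_induction with
    | mem y hy => obtain ⟨w, hw, rfl⟩ := hy; exact h1 w hw
    | zero => simp
    | add a b _ _ ha hb => rw [dotProduct_add, ha, hb, add_zero]
    | smul c a _ ha => rw [dotProduct_smul, ha, smul_zero]
  rw [hspan v hvY] at h2
  exact dotProduct_eq_zero _ fun y => h2 y trivial

/-- dimension of the image of a subspace of motions -/
lemma finrank_map_cut {Y : Finset V} {p : V → Vec k}
    (hspan : ∀ w ∈ Y, Submodule.span k (p '' (nbr U E w : Set V)) = ⊤)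
    {S : Submodule k (V → Vec k)} (hS : S ≤ Mot (U ∪ Y) E p) :
    finrank k (S.map (cut k U)) = finrank k S := by
  have hi : Function.Injective ((cut k U).domRestrict S) := by
    rw [← LinearMap.ker_eq_bot, LinearMap.ker_eq_bot']
    rintro ⟨Z, hZ⟩ h0
    exact Subtype.ext (cut_injOn hspan (hS hZ) h0)
  rw [← LinearMap.finrank_range_of_inj hi, LinearMap.range_domRestrict]

lemma finrank_Isp_eq (h : Indep U X E) {Y : Finset V} (hY : Y ⊆ X) {p : V → Vec k}
    (hspan : ∀ w ∈ Y, Submodule.span k (p '' (nbr U E w : Set V)) = ⊤) :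
    finrank k (Isp (Mot U E p) (AttU U E p) Y) = mdim (U ∪ Y) E p := by
  rw [← map_cut_Mot h hY, finrank_map_cut hspan le_rfl, mdim]

/-- neighbours of `u ∈ X` in `U ∪ Y` -/
lemma nbr_union (h : Indep U X E) {Y : Finset V} {u : V} (hu : u ∈ X)
    (hY : Y ⊆ X.erase u) : nbr (U ∪ Y) E u = nbr U E u := by
  ext v
  rw [mem_nbr, mem_nbr, Finset.mem_union]
  constructor
  · rintro ⟨h1 | h1, h2⟩
    · exact ⟨h1, h2⟩
    · have h3 := Finset.mem_erase.mp (hY h1)
      exact absurd h2 (h.nonadj u hu v h3.2 h3.1.symm)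
  · rintro ⟨h1, h2⟩
    exact ⟨Or.inl h1, h2⟩

/-- `cut` commutes with the attaching condition -/
lemma map_cut_inf_Att {S : Submodule k (V → Vec k)} {p : V → Vec k} {N : Set V}
    (hN : N ⊆ (U : Set V)) (x : Vec k) :
    (S ⊓ Att p N x).map (cut k U) = S.map (cut k U) ⊓ Att p N x := by
  ext Z
  simp only [Submodule.mem_map, Submodule.mem_inf]
  have key : ∀ Y : V → Vec k, cut k U Y ∈ Att p N x ↔ Y ∈ Att p N x := fun Y =>
    mem_Att_congr fun v hv => cut_apply _ (by simpa using hN hv)
  constructor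
  · rintro ⟨Y, ⟨h1, h2⟩, rfl⟩
    exact ⟨⟨Y, h1, rfl⟩, (key Y).mpr h2⟩
  · rintro ⟨⟨Y, h1, rfl⟩, h2⟩
    exact ⟨Y, ⟨h1, (key Y).mp h2⟩, rfl⟩

end

end GR
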