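import Pool.Agent.Lib.GR.Flat

/-!
# Star parts of stresses, nullity and rank of complete graphs, the COUNT
-/

set_option linter.unusedSectionVars false
set_option linter.style.haveILetI false

namespace GR

open Filter Module

open scoped Matrix

variable {k : Type*} [Field k] {V : Type*} [DecidableEq V]

section Star

/-- restriction of a function on pairs to the star of `v` -/
def starMap (k : Type*) [Field k] {V : Type*} (v : V) : (Sym2 V → k) →ₗ[k] (V → k) where
  toFun ω w := ω s(v, w)
  map_add' _ _ := rfl
  map_smul' _ _ := rfl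

@[simp] lemma starMap_apply (v : V) (ω : Sym2 V → k) (w : V) : starMap k v ω w = ω s(v, w) := rfl

/-- the dependencies of the directions `p w`, `w ∈ N`, seen from `p v` -/
def Dep (p : V → Vec k) (v : V) (N : Finset V) : Submodule k (V → k) where
  carrier := {f | (∀ w, w ∉ N → f w = 0) ∧ ∀ z : Vec k, z ⬝ᵥ p v = 0 →
    ∑ w ∈ N, f w * (z ⬝ᵥ p w) = 0}
  add_mem' := by
    rintro f g ⟨h1, h2⟩ ⟨h1', h2'⟩
    refine ⟨fun w hw => by simp [h1 w hw, h1' w hw], fun z hz => ?_⟩
    simp only [Pi.add_apply, add_mul, Finset.sum_add_distrib, h2 z hz, h2' z hz, add_zero]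
  zero_mem' := ⟨fun _ _ => rfl, fun _ _ => by simp⟩
  smul_mem' := by
    rintro c f ⟨h1, h2⟩
    refine ⟨fun w hw => by simp [h1 w hw], fun z hz => ?_⟩
    simp only [Pi.smul_apply, smul_eq_mul, mul_assoc, ← Finset.mul_sum, h2 z hz, mul_zero]

lemma starMap_mem_Dep {D : Finset (Sym2 V)} {p : V → Vec k} {v : V} {N : Finset V}
    (hN : ∀ w, s(v, w) ∈ D → w ∈ N) (hv : v ∉ N) {ω : Sym2 V → k} (hω : ω ∈ Stress D p) :
    starMap k v ω ∈ Dep p v N := by
  refine ⟨fun w hw => hω.1 _ (fun h => hw (hN w h)), fun z hz => ?_⟩
  have h1 := hω.2 (Pi.single v z) (mot0_single hz)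
  have hinj : Set.InjOn (fun w => s(v, w)) (N : Set V) := by
    intro a ha b hb hab
    have : a = b ∨ v = b ∧ a = v := by simpa using hab
    rcases this with h | ⟨h1, h2⟩
    · exact h
    · exact h2.trans h1
  have h2 : ∑ w ∈ N, starMap k v ω w * (z ⬝ᵥ p w)
      = ∑ e ∈ N.image (fun w => s(v, w)), ω e * epsS p e (Pi.single v z : V → Vec k) := by
    rw [Finset.sum_image hinj]
    refine Finset.sum_congr rfl fun w hw => ?_
    have hwv : w ≠ v := fun h => hv (h ▸ hw)
    rw [starMap_apply, epsS_mk, eps_apply, Pi.single_eq_same, Pi.single_eq_of_ne hwv]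
    simp
  rw [h2, ← h1]
  have h3 : ∑ e ∈ N.image (fun w => s(v, w)), ω e * epsS p e (Pi.single v z : V → Vec k)
      = ∑ e ∈ D ∪ N.image (fun w => s(v, w)), ω e * epsS p e (Pi.single v z : V → Vec k) := by
    refine Finset.sum_subset Finset.subset_union_right ?_
    intro e he he'
    have heD : e ∈ D := (Finset.mem_union.mp he).resolve_right he'
    have hve : v ∉ e := by
      intro hve
      obtain ⟨w, rfl⟩ := Sym2.mem_iff_exists.mp hve
      exact he' (Finset.mem_image.mpr ⟨w, hN w heD, rfl⟩)
    rw [epsS_single_of_notMem hve, mul_zero]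
  rw [h3]
  refine (Finset.sum_subset Finset.subset_union_left ?_).symm
  intro e _ he
  rw [hω.1 e he, zero_mul]

lemma GenPos.eq_zero {p : V → Vec k} {N : Set V} (h : GenPos p N) {T : Finset V}
    (hT : (T : Set V) ⊆ N) (hc : T.card ≤ 4) {g : V → k} (hg : ∑ w ∈ T, g w • p w = 0) :
    ∀ w ∈ T, g w = 0 := by
  have h1 : LinearIndepOn k p (T : Set V) := h T hT hc
  exact (linearIndepOn_finset_iff.mp h1) g hg

instance Dep_finiteDimensional (p : V → Vec k) (v : V) (N : Finset V) :
    FiniteDimensional k (Dep p v N) := by
  let f : Dep p v N →ₗ[k] (N → k) :=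
    { toFun := fun ω e => ω.1 e
      map_add' := fun _ _ => rfl
      map_smul' := fun _ _ => rfl }
  refine FiniteDimensional.of_injective f ?_
  intro ω ω' h
  ext e
  by_cases he : e ∈ N
  · exact congrFun h ⟨e, he⟩
  · rw [ω.2.1 e he, ω'.2.1 e he]

/-- a dependency of directions in general position which is supported on three points is zero -/
lemma Dep_eq_zero {p : V → Vec k} {v : V} {N T : Finset V} (hv : v ∉ N)
    (hp : GenPos p ((insert v N : Finset V) : Set V)) (hTN : T ⊆ N) (hT : T.card ≤ 3)
    {g : V → k} (hg : g ∈ Dep p v N) (hg0 : ∀ w ∈ N \ T, g w = 0) : g = 0 := by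
  obtain ⟨hg1, hg2⟩ := hg
  have h1 : ∀ z : Vec k, z ⬝ᵥ p v = 0 → z ⬝ᵥ (∑ w ∈ T, g w • p w) = 0 := by
    intro z hz
    have := hg2 z hz
    rw [← Finset.sum_sdiff hTN, Finset.sum_eq_zero (fun w hw => by rw [hg0 w hw, zero_mul]),
      zero_add] at this
    rw [dotProduct_sum, ← this]
    refine Finset.sum_congr rfl fun w _ => ?_
    rw [dotProduct_smul, smul_eq_mul]
  obtain ⟨c, hc⟩ := exists_smul_of_perp _ _ h1
  have hvT : v ∉ T := fun h => hv (hTN h)
  have h2 := hp.eq_zero (T := insert v T)
    (by exact_mod_cast Finset.insert_subset_insert v hTN)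
    (by rw [Finset.card_insert_of_notMem hvT]; omega)
    (g := Function.update g v (-c)) (by
      rw [Finset.sum_insert hvT, Function.update_self]
      have : ∑ w ∈ T, Function.update g v (-c) w • p w = ∑ w ∈ T, g w • p w :=
        Finset.sum_congr rfl fun w hw => by
          have hwv : w ≠ v := by rintro rfl; exact hvT hw
          rw [Function.update_of_ne hwv]
      rw [this, hc]
      module)
  ext w
  by_cases hwN : w ∈ N
  · by_cases hwT : w ∈ T
    · have := h2 w (Finset.mem_insert_of_mem hwT)
      have hwv : w ≠ v := by rintro rfl; exact hvT hwT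
      rw [Function.update_of_ne hwv] at this
      exact this
    · exact hg0 w (Finset.mem_sdiff.mpr ⟨hwN, hwT⟩)
  · exact hg1 w hwN

/-- the star part of a complete graph has dimension at most `|N| - 3` -/
lemma finrank_Dep_le {p : V → Vec k} {v : V} {N : Finset V} (hv : v ∉ N)
    (hp : GenPos p ((insert v N : Finset V) : Set V)) :
    finrank k (Dep p v N) ≤ N.card - 3 := by
  obtain ⟨T, hTN, hT⟩ := Finset.exists_subset_card_eq (Nat.min_le_left N.card 3)
  have hcard : (N \ T).card = N.card - 3 := by
    rw [Finset.card_sdiff_of_subset hTN, hT]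
    omega
  let f : Dep p v N →ₗ[k] ((N \ T : Finset V) → k) :=
    { toFun := fun ω e => ω.1 e
      map_add' := fun _ _ => rfl
      map_smul' := fun _ _ => rfl }
  have hf : Function.Injective f := by
    rw [injective_iff_map_eq_zero]
    rintro ⟨g, hg'⟩ hg
    have hg0 : ∀ w ∈ N \ T, g w = 0 := fun w hw => congrFun hg ⟨w, hw⟩
    exact Subtype.ext (Dep_eq_zero hv hp hTN (by rw [hT]; omega) hg' hg0)
  calc finrank k (Dep p v N) ≤ finrank k ((N \ T : Finset V) → k) :=
        LinearMap.finrank_le_finrank_of_injective hf
    _ = N.card - 3 := by rw [Module.finrank_fintype_fun_eq_card, Fintype.card_coe, hcard]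

/-- the edges of `D` not containing `v` -/
def del (D : Finset (Sym2 V)) (v : V) : Finset (Sym2 V) := D.filter (fun e => v ∉ e)

lemma mem_del {D : Finset (Sym2 V)} {v : V} {e : Sym2 V} : e ∈ del D v ↔ e ∈ D ∧ v ∉ e := by
  simp [del]

lemma del_subset (D : Finset (Sym2 V)) (v : V) : del D v ⊆ D := Finset.filter_subset _ _

/-- splitting of the stress space at a vertex -/
theorem finrank_Stress_split (D : Finset (Sym2 V)) (v : V) (p : V → Vec k) :
    finrank k (Stress D p) = finrank k (Stress (del D v) p) +
      finrank k ((Stress D p).map (starMap k v)) := by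
  have h := LinearMap.finrank_range_add_finrank_ker ((starMap k v).domRestrict (Stress D p))
  rw [← h, add_comm]
  congr 1
  · have : LinearMap.ker ((starMap k v).domRestrict (Stress D p))
        = (Stress (del D v) p).comap (Stress D p).subtype := by
      ext ω
      rw [LinearMap.mem_ker, Submodule.mem_comap]
      constructor
      · intro hω
        have h0 : ∀ e ∈ D, v ∈ e → ω.1 e = 0 := by
          intro e _ hve
          obtain ⟨w, rfl⟩ := Sym2.mem_iff_exists.mp hve
          exact congrFun hω w
        refine ⟨fun e he => ?_, fun Z hZ => ?_⟩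
        · by_cases heD : e ∈ D
          · have : v ∈ e := by
              by_contra hve
              exact he (mem_del.mpr ⟨heD, hve⟩)
            exact h0 e heD this
          · exact ω.2.1 e heD
        · have := ω.2.2 Z hZ
          rw [← this]
          refine Finset.sum_subset (del_subset D v) fun e he he' => ?_
          have hve : v ∈ e := by
            by_contra hve
            exact he' (mem_del.mpr ⟨he, hve⟩)
          simp [h0 e he hve]
      · intro hω
        ext w
        exact hω.1 s(v, w) (fun h => (mem_del.mp h).2 (by simp))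
    rw [this]
    exact (LinearEquiv.finrank_eq (Submodule.comapSubtypeEquivOfLe
      (Stress_mono (del_subset D v) p)))
  · rw [LinearMap.range_domRestrict]

lemma del_Kf_insert {v : V} {N : Finset V} (hv : v ∉ N) : del (Kf (insert v N)) v = Kf N := by
  ext e
  rw [mem_del, mem_Kf, mem_Kf]
  constructor
  · rintro ⟨⟨h1, h2⟩, h3⟩
    refine ⟨h1, fun w hw => ?_⟩
    have := h2 w hw
    rw [Finset.mem_insert] at this
    exact this.resolve_left (fun h => h3 (h ▸ hw))
  · rintro ⟨h1, h2⟩
    exact ⟨⟨h1, fun w hw => Finset.mem_insert_of_mem (h2 w hw)⟩, fun h => hv (h2 v h)⟩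

/-- nullity of a complete graph in general position -/
theorem finrank_Stress_Kf_le {p : V → Vec k} (A : Finset V) (hp : GenPos p (A : Set V)) :
    finrank k (Stress (Kf A) p) ≤ (A.card - 3).choose 2 := by
  induction A using Finset.induction_on with
  | empty =>
    have : Stress (Kf (∅ : Finset V)) p = ⊥ := by
      rw [eq_bot_iff]
      intro ω hω
      rw [Submodule.mem_bot]
      ext e
      exact hω.1 e (by simp [Kf])
    rw [this]
    simp
  | insert v N hv ih =>
    have ih' := ih (hp.mono (by exact_mod_cast Finset.subset_insert v N))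
    rw [finrank_Stress_split (Kf (insert v N)) v p, del_Kf_insert hv]
    have h1 : (Stress (Kf (insert v N)) p).map (starMap k v) ≤ Dep p v N := by
      rintro _ ⟨ω, hω, rfl⟩
      refine starMap_mem_Dep (fun w hw => ?_) hv hω
      have := mk_mem_Kf.mp hw
      exact (Finset.mem_insert.mp this.2.2).resolve_left this.1.symm
    have h2 := (Submodule.finrank_mono h1).trans (finrank_Dep_le hv hp)
    rw [Finset.card_insert_of_notMem hv]
    rcases Nat.lt_or_ge N.card 3 with h3 | h3
    · have e1 : N.card - 3 = 0 := by omega
      have e2 : N.card + 1 - 3 = 0 := by omega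
      rw [e1] at ih' h2
      rw [e2]
      simp only [Nat.choose_zero_succ] at ih' ⊢
      omega
    · obtain ⟨m, hm⟩ := Nat.exists_eq_add_of_le h3
      have e1 : N.card - 3 = m := by omega
      have e2 : N.card + 1 - 3 = m + 1 := by omega
      have e3 : (m + 1).choose 2 = m.choose 2 + m := by
        rw [Nat.choose_succ_succ' m 1, Nat.choose_one_right, add_comm]
      rw [e1] at ih' h2
      rw [e2, e3]
      exact Nat.add_le_add ih' h2

/-- rank of a complete graph, upper bound -/
theorem rk_Kf_le {p : V → Vec k} (A : Finset V) (hp : GenPos p (A : Set V)) (h3 : 3 ≤ A.card) :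
    rk (Kf A : Set (Sym2 V)) p + 6 ≤ 3 * A.card := by
  induction A using Finset.induction_on with
  | empty => simp at h3
  | insert v N hv ih =>
    rw [Finset.card_insert_of_notMem hv] at h3 ⊢
    rcases Nat.lt_or_ge N.card 3 with h2 | h2
    · -- a triangle
      have h1 := rk_le_card (Kf (insert v N)) p
      rw [card_Kf, Finset.card_insert_of_notMem hv] at h1
      have : N.card = 2 := by omega
      rw [this] at h1 ⊢
      simp only [Nat.reduceAdd] at h1 ⊢
      have h4 : (3 : ℕ).choose 2 = 3 := rfl
      rw [h4] at h1
      omega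
    · have ih' := ih (hp.mono (by exact_mod_cast Finset.subset_insert v N)) h2
      obtain ⟨T, hTN, hT⟩ := Finset.exists_subset_card_eq h2
      obtain ⟨c, d, e, hcd, hce, hde, rfl⟩ := Finset.card_eq_three.mp hT
      have hc := hTN (show c ∈ ({c, d, e} : Finset V) by simp)
      have hd := hTN (show d ∈ ({c, d, e} : Finset V) by simp)
      have he := hTN (show e ∈ ({c, d, e} : Finset V) by simp)
      set F : Finset (Sym2 V) := insert s(v, c) (insert s(v, d) (insert s(v, e) (Kf N))) with hF
      have hr : rk (F : Set (Sym2 V)) p ≤ rk (Kf N : Set (Sym2 V)) p + 3 := by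
        have a1 := rk_insert_le (insert s(v, d) (insert s(v, e) (Kf N))) s(v, c) p
        have a2 := rk_insert_le (insert s(v, e) (Kf N)) s(v, d) p
        have a3 := rk_insert_le (Kf N) s(v, e) p
        calc rk (F : Set (Sym2 V)) p ≤ _ := a1
          _ ≤ _ := Nat.add_le_add_right (a2.trans (Nat.add_le_add_right a3 1)) 1
      have hcl : (Kf (insert v N) : Set (Sym2 V)) ⊆ clo (F : Set (Sym2 V)) p := by
        have hU : insert v N = N ∪ {v, c, d, e} := by
          ext x
          simp only [Finset.mem_insert, Finset.mem_union, Finset.mem_singleton]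
          constructor
          · tauto
          · rintro (h | rfl | rfl | rfl | rfl) <;> tauto
        rw [hU]
        refine merge_clo (by rw [← hU]; exact hp) ?_ ?_ ?_
        · rw [← hT]
          apply Finset.card_le_card
          intro x hx
          rw [Finset.mem_inter]
          refine ⟨hTN hx, ?_⟩
          simp only [Finset.mem_insert, Finset.mem_singleton] at hx ⊢
          tauto
        · refine subset_trans ?_ (subset_clo _ _)
          rw [hF]
          intro x hx
          simp only [Finset.coe_insert, Set.mem_insert_iff]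
          exact Or.inr (Or.inr (Or.inr hx))
        · refine subset_trans ?_ (subset_clo _ _)
          intro x hx
          induction x with
          | h a b =>
            rw [Finset.mem_coe, mk_mem_Kf] at hx
            obtain ⟨hab, ha, hb⟩ := hx
            have key : ∀ x ∈ ({c, d, e} : Finset V), s(v, x) ∈ F := by
              intro x hx
              rw [hF]
              simp only [Finset.mem_insert, Finset.mem_singleton] at hx ⊢
              rcases hx with rfl | rfl | rfl
              · exact Or.inl rfl
              · exact Or.inr (Or.inl rfl)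
              · exact Or.inr (Or.inr (Or.inl rfl))
            have hsub : ∀ x, x ∈ ({v, c, d, e} : Finset V) → x ≠ v → x ∈ ({c, d, e} : Finset V) :=
              fun x hx hxv => (Finset.mem_insert.mp hx).resolve_left hxv
            rw [Finset.mem_coe]
            by_cases hav : a = v
            · rw [hav]
              exact key b (hsub b hb (fun h => hab (hav.trans h.symm)))
            · by_cases hbv : b = v
              · rw [hbv, Sym2.eq_swap]
                exact key a (hsub a ha hav)
              · rw [hF]
                refine Finset.mem_insert_of_mem (Finset.mem_insert_of_mem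
                  (Finset.mem_insert_of_mem ?_))
                exact mk_mem_Kf.mpr ⟨hab, hTN (hsub a ha hav), hTN (hsub b hb hbv)⟩
      have := rk_eq_of_clo (E := (F : Set (Sym2 V))) (E' := (F : Set (Sym2 V)) ∪ Kf (insert v N))
        Set.subset_union_left (Set.union_subset (subset_clo _ _) hcl)
      have h5 : rk (Kf (insert v N) : Set (Sym2 V)) p
          ≤ rk ((F : Set (Sym2 V)) ∪ Kf (insert v N)) p := by
        have := rk_mono (p := p) (Finset.subset_union_right (s₁ := F) (s₂ := Kf (insert v N)))
        rwa [Finset.coe_union] at this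
      omega

end Star

end GR
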