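import Pool.Agent.Lib.GR.Equil
import Pool.Agent.Lib.GR.Star

/-!
# Stresses of complete graphs

At points in general position: a dependency `∑ c w • p w ∈ k p v` of the points of `K \ {v}` modulo
`p v` is the star at `v` of a sum of stresses of `K₅`'s of `K`, and complete graphs are `Good`.
-/

set_option linter.unusedSectionVars false

namespace GR

open Filter Module

open scoped Matrix

variable {k : Type*} [Field k] {V : Type*} [DecidableEq V]

/-- Four points in general position span. -/
lemma GenPos.span {p : V → Vec k} {N : Set V} (h : GenPos p N) {T : Finset V}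
    (hT : (T : Set V) ⊆ N) (hc : T.card = 4) (x : Vec k) : ∃ c : V → k, ∑ w ∈ T, c w • p w = x := by
  have h1 := h T hT hc.le
  have hcard : Fintype.card T = finrank k (Vec k) := by
    rw [Fintype.card_coe, hc]
    simp
  have h2 : Submodule.span k (Set.range fun v : T => p v) = ⊤ :=
    h1.span_eq_top_of_card_eq_finrank' hcard
  have h3 : x ∈ Submodule.span k (Set.range fun v : T => p v) := by rw [h2]; trivial
  obtain ⟨c, hc⟩ := (Submodule.mem_span_range_iff_exists_fun k).mp h3
  refine ⟨fun w => if hw : w ∈ T then c ⟨w, hw⟩ else 0, ?_⟩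
  rw [← hc, ← Finset.sum_coe_sort T]
  refine Finset.sum_congr rfl fun w _ => ?_
  simp

/-- The product function on pairs. -/
def prodS (l : V → k) : Sym2 V → k := Sym2.lift ⟨fun x y => l x * l y, fun _ _ => mul_comm _ _⟩

@[simp] lemma prodS_mk (l : V → k) (x y : V) : prodS l s(x, y) = l x * l y := rfl

/-- A dependency `∑ l w • p w = 0` on `C` gives a stress of the complete graph on `C`. -/
lemma prod_mem_Stress {p : V → Vec k} {C : Finset V} {l : V → k}
    (h : ∑ w ∈ C, l w • p w = 0) (m : k) :
    (fun e => if e ∈ Kf C then m * prodS l e else 0) ∈ Stress (Kf C) p := by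
  have hE : ∀ e ∈ Kf C, ∀ v ∈ e, v ∈ C := fun e he => (mem_Kf.mp he).2
  rw [mem_Stress_iff hE]
  refine ⟨fun e he => if_neg he, fun v => ?_⟩
  by_cases hv : v ∈ C
  swap
  · exact ⟨0, by rw [force_eq_zero_of_notMem hE (fun e he => if_neg he) hv, zero_smul]⟩
  refine ⟨-(m * l v * l v), ?_⟩
  unfold force
  have h1 : ∀ w ∈ C, (if s(v, w) ∈ Kf C then m * prodS l s(v, w) else 0) • p w
      = (m * l v) • (l w • p w) - (if w = v then (m * l v * l v) • p v else 0) := by
    intro w hw
    by_cases hwv : w = v
    · subst hwv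
      rw [if_neg (fun h => (mk_mem_Kf.mp h).1 rfl), if_pos rfl, zero_smul, smul_smul, sub_self]
    · rw [if_pos (mk_mem_Kf.mpr ⟨Ne.symm hwv, hv, hw⟩), if_neg hwv, sub_zero, smul_smul, prodS_mk]
      ring_nf
  rw [Finset.sum_congr rfl h1, Finset.sum_sub_distrib, ← Finset.smul_sum, h, smul_zero,
    Finset.sum_ite_eq' C v, if_pos hv, zero_sub, neg_smul]

lemma Stress_le_S5 {p : V → Vec k} {D : Finset (Sym2 V)} {C : Finset V} (hC : C.card = 5)
    (hD : Kf C ⊆ D) : Stress (Kf C) p ≤ S5 D p :=
  le_iSup (fun C : {C : Finset V // C.card = 5 ∧ Kf C ⊆ D} => Stress (Kf C.1) p) ⟨C, hC, hD⟩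

lemma S5_le_Stress (D : Finset (Sym2 V)) (p : V → Vec k) : S5 D p ≤ Stress D p :=
  iSup_le fun C => Stress_mono C.2.2 p

lemma S5_mono {D D' : Finset (Sym2 V)} (h : D ⊆ D') (p : V → Vec k) : S5 D p ≤ S5 D' p :=
  iSup_le fun C => Stress_le_S5 C.2.1 (C.2.2.trans h)

/-- A `K₅`-stress with prescribed values at `v`. -/
lemma exists_K5_stress {p : V → Vec k} {T : Finset V} {v w : V}
    (h : GenPos p ((insert v (insert w T) : Finset V) : Set V)) (hT : T.card = 3)
    (hw : w ∉ T) (hv : v ∉ insert w T) :
    ∃ ω ∈ Stress (Kf (insert v (insert w T))) p, ω s(v, w) = 1 := by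
  obtain ⟨c, hc⟩ := h.span (T := insert v T) (by
    intro x hx
    simp only [Finset.coe_insert, Set.mem_insert_iff, Finset.mem_coe] at hx ⊢
    tauto) (by rw [Finset.card_insert_of_notMem (fun h => hv (Finset.mem_insert_of_mem h)), hT])
    (p w)
  have hvw : v ≠ w := fun h => hv (h ▸ Finset.mem_insert_self _ _)
  -- the dependency
  let l : V → k := fun x => if x = w then -1 else c x
  have hl : ∑ x ∈ insert w (insert v T), l x • p x = 0 := by
    rw [Finset.sum_insert (by
      rw [Finset.mem_insert, not_or]
      exact ⟨hvw.symm, hw⟩)]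
    have : ∑ x ∈ insert v T, l x • p x = ∑ x ∈ insert v T, c x • p x := by
      refine Finset.sum_congr rfl fun x hx => ?_
      have hxw : x ≠ w := by
        rintro rfl
        rcases Finset.mem_insert.mp hx with h | h
        · exact hvw h.symm
        · exact hw h
      simp [l, hxw]
    rw [this, hc]
    simp [l]
  have hlv : l v ≠ 0 := by
    intro h0
    have h1 : ∑ x ∈ insert w T, l x • p x = 0 := by
      rw [← hl, Finset.insert_comm w v T, Finset.sum_insert hv, h0, zero_smul, zero_add]
    have h2 := h.eq_zero (T := insert w T) (by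
      intro x hx
      simp only [Finset.coe_insert, Set.mem_insert_iff, Finset.mem_coe] at hx ⊢
      tauto) (by rw [Finset.card_insert_of_notMem hw, hT]) h1 w (Finset.mem_insert_self _ _)
    simp [l] at h2
  rw [Finset.insert_comm w v T] at hl
  refine ⟨_, prod_mem_Stress hl (-(l v)⁻¹), ?_⟩
  rw [if_pos (mk_mem_Kf.mpr ⟨hvw, by simp, by simp⟩), prodS_mk]
  simp only [l, if_true]
  simp only [l, hvw, if_false] at hlv
  simp only [hvw, if_false]
  field_simp

/-- **Star part of the stresses of a complete graph**: every dependency of the points of `K \ {v}`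
modulo `p v` is the star at `v` of a sum of `K₅`-stresses of `K`. -/
theorem exists_stress_star {p : V → Vec k} {K : Finset V} (hK : GenPos p (K : Set V)) {v : V}
    (hv : v ∈ K) {c : V → k} {a : k} (hc : ∑ w ∈ K.erase v, c w • p w = a • p v) :
    ∃ ω ∈ S5 (Kf K) p, ∀ w ∈ K.erase v, ω s(v, w) = c w := by
  classical
  by_cases hcard : (K.erase v).card < 3
  · -- few points: the dependency is trivial
    have h1 : ∑ w ∈ insert v (K.erase v), (if w = v then -a else c w) • p w = 0 := by
      rw [Finset.sum_insert (Finset.notMem_erase v K), if_pos rfl, neg_smul, ← hc]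
      have : ∑ w ∈ K.erase v, (if w = v then -a else c w) • p w = ∑ w ∈ K.erase v, c w • p w :=
        Finset.sum_congr rfl fun w hw => by rw [if_neg (Finset.ne_of_mem_erase hw)]
      rw [this]
      abel
    have h2 := hK.eq_zero (T := insert v (K.erase v)) (by rw [Finset.insert_erase hv])
      (by rw [Finset.card_insert_of_notMem (Finset.notMem_erase v K)]; omega) h1
    refine ⟨0, Submodule.zero_mem _, fun w hw => ?_⟩
    have h3 := h2 w (Finset.mem_insert_of_mem hw)
    rw [if_neg (Finset.ne_of_mem_erase hw)] at h3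
    simp [h3]
  · push Not at hcard
    obtain ⟨T, hTK, hT⟩ := Finset.exists_subset_card_eq hcard
    have hvT : v ∉ T := fun h => Finset.notMem_erase v K (hTK h)
    -- a `K₅` stress for every point outside `T`
    have hex : ∀ w ∈ K.erase v \ T, ∃ ω ∈ S5 (Kf K) p, ω s(v, w) = 1 ∧
        ∀ w' ∈ K.erase v \ T, w' ≠ w → ω s(v, w') = 0 := by
      intro w hw
      rw [Finset.mem_sdiff, Finset.mem_erase] at hw
      have hsub : insert v (insert w T) ⊆ K := by
        intro x hx
        rcases Finset.mem_insert.mp hx with rfl | hx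
        · exact hv
        rcases Finset.mem_insert.mp hx with rfl | hx
        · exact hw.1.2
        · exact Finset.mem_of_mem_erase (hTK hx)
      have hv' : v ∉ insert w T := by
        rw [Finset.mem_insert, not_or]
        exact ⟨hw.1.1.symm, hvT⟩
      obtain ⟨ω, hω, h1⟩ := exists_K5_stress (hK.mono (by exact_mod_cast hsub)) hT hw.2 hv'
      have h5 : (insert v (insert w T)).card = 5 := by
        rw [Finset.card_insert_of_notMem hv', Finset.card_insert_of_notMem hw.2, hT]
      refine ⟨ω, Stress_le_S5 h5 (Kf_mono hsub) hω, h1, fun w' hw' hne => ?_⟩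
      refine hω.1 _ fun hmem => ?_
      rw [Finset.mem_sdiff, Finset.mem_erase] at hw'
      have := (mk_mem_Kf.mp hmem).2.2
      rw [Finset.mem_insert, Finset.mem_insert] at this
      rcases this with h | h | h
      · exact hw'.1.1 h
      · exact hne h
      · exact hw'.2 h
    choose! η hη1 hη2 hη3 using hex
    let ω : Sym2 V → k := ∑ w ∈ K.erase v \ T, c w • η w
    have hω : ω ∈ S5 (Kf K) p :=
      Submodule.sum_mem _ fun w hw => Submodule.smul_mem _ _ (hη1 w hw)
    have hval : ∀ w ∈ K.erase v \ T, ω s(v, w) = c w := by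
      intro w hw
      simp only [ω, Finset.sum_apply, Pi.smul_apply, smul_eq_mul]
      rw [Finset.sum_eq_single w]
      · rw [hη2 w hw, mul_one]
      · intro w' hw' hne
        rw [hη3 w' hw' w hw hne.symm, mul_zero]
      · intro h
        exact absurd hw h
    refine ⟨ω, hω, ?_⟩
    -- the force at `v`
    have hst := S5_le_Stress (Kf K) p hω
    have hE : ∀ e ∈ Kf K, ∀ v ∈ e, v ∈ K := fun e he => (mem_Kf.mp he).2
    obtain ⟨b, hb⟩ := exists_sum_erase hE hst v
    have hdiff : ∑ w ∈ K.erase v, (c w - ω s(v, w)) • p w = (a - b) • p v := by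
      simp only [sub_smul, Finset.sum_sub_distrib, hc, hb]
    have hdiff' : ∑ w ∈ T, (c w - ω s(v, w)) • p w = (a - b) • p v := by
      rw [← hdiff]
      refine Finset.sum_subset hTK fun w hw hwT => ?_
      rw [hval w (Finset.mem_sdiff.mpr ⟨hw, hwT⟩), sub_self, zero_smul]
    have h1 : ∑ w ∈ insert v T, (if w = v then -(a - b) else c w - ω s(v, w)) • p w = 0 := by
      rw [Finset.sum_insert hvT, if_pos rfl, neg_smul, ← hdiff']
      have : ∑ w ∈ T, (if w = v then -(a - b) else c w - ω s(v, w)) • p w =
          ∑ w ∈ T, (c w - ω s(v, w)) • p w :=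
        Finset.sum_congr rfl fun w hw => by
          rw [if_neg (fun h : w = v => hvT (h ▸ hw))]
      rw [this]
      abel
    have h2 := hK.eq_zero (T := insert v T) (by
        intro x hx
        rcases Finset.mem_insert.mp (by exact_mod_cast hx) with rfl | hx
        · exact_mod_cast hv
        · exact_mod_cast Finset.mem_of_mem_erase (hTK hx))
      (by rw [Finset.card_insert_of_notMem hvT, hT]) h1
    intro w hw
    by_cases hwT : w ∈ T
    · have h3 := h2 w (Finset.mem_insert_of_mem hwT)
      rw [if_neg (Finset.ne_of_mem_erase hw)] at h3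
      exact (sub_eq_zero.mp h3).symm
    · exact hval w (Finset.mem_sdiff.mpr ⟨hw, hwT⟩)

/-- A stress whose star at `v` vanishes is a stress of the graph without `v`. -/
lemma mem_Stress_erase {p : V → Vec k} {K : Finset V} {v : V} {ω : Sym2 V → k}
    (hω : ω ∈ Stress (Kf K) p) (h0 : ∀ w ∈ K.erase v, ω s(v, w) = 0) :
    ω ∈ Stress (Kf (K.erase v)) p := by
  have hsub : Kf (K.erase v) ⊆ Kf K := Kf_mono (Finset.erase_subset _ _)
  have hz : ∀ e, e ∉ Kf (K.erase v) → ω e = 0 := by
    intro e he
    by_cases heK : e ∈ Kf K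
    · induction e with
      | h x y =>
        rw [mk_mem_Kf] at heK
        rw [mk_mem_Kf, not_and] at he
        have h1 := he heK.1
        rw [Finset.mem_erase, Finset.mem_erase] at h1
        by_cases hx : x = v
        · subst hx
          exact h0 y (Finset.mem_erase.mpr ⟨heK.1.symm, heK.2.2⟩)
        · have hy : y = v := by
            by_contra hy
            exact h1 ⟨⟨hx, heK.2.1⟩, ⟨hy, heK.2.2⟩⟩
          subst hy
          rw [Sym2.eq_swap]
          exact h0 x (Finset.mem_erase.mpr ⟨hx, heK.2.1⟩)
    · exact hω.1 e heK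
  refine ⟨hz, fun Z hZ => ?_⟩
  rw [← hω.2 Z hZ]
  exact Finset.sum_subset hsub fun e _ he => by rw [hz e he, zero_mul]

/-- **Complete graphs are good.** -/
theorem good_Kf {p : V → Vec k} {K : Finset V} (hK : GenPos p (K : Set V)) : Good (Kf K) p := by
  induction K using Finset.induction_on with
  | empty =>
    intro ω hω
    have : ω = 0 := by
      ext e
      exact hω.1 e (by simp [Kf])
    rw [this]
    exact Submodule.zero_mem _
  | insert v K hvK ih =>
    intro ω hω
    have hv : v ∈ insert v K := Finset.mem_insert_self _ _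
    have hE : ∀ e ∈ Kf (insert v K), ∀ v' ∈ e, v' ∈ insert v K := fun e he => (mem_Kf.mp he).2
    obtain ⟨a, ha⟩ := exists_sum_erase hE hω v
    obtain ⟨η, hη, hη'⟩ := exists_stress_star hK hv ha
    have h1 : ω - η ∈ Stress (Kf ((insert v K).erase v)) p := by
      refine mem_Stress_erase (Submodule.sub_mem _ hω (S5_le_Stress _ _ hη)) fun w hw => ?_
      rw [Pi.sub_apply, hη' w hw, sub_self]
    rw [Finset.erase_insert hvK] at h1
    have h2 : ω - η ∈ S5 (Kf (insert v K)) p :=
      S5_mono (Kf_mono (Finset.subset_insert _ _)) p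
        (ih (hK.mono (by exact_mod_cast Finset.subset_insert _ _)) h1)
    have : ω = (ω - η) + η := by abel
    rw [this]
    exact Submodule.add_mem _ h2 hη

end GR
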