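import Pool.Agent.Lib.GR.Count
import Pool.Agent.Lib.GR.KStar

/-!
# Star parts of complete graphs; complete graphs are good; star part of `S5`
-/

set_option linter.unusedSectionVars false
set_option linter.style.haveILetI false

namespace GR

open Filter Module

open scoped Matrix

variable {k : Type*} [Field k] {V : Type*} [DecidableEq V]

lemma choose_two_add_three (m : ℕ) : (m + 3).choose 2 = m.choose 2 + 3 * m + 3 := by
  have h1 : (m + 3).choose 2 = (m + 2).choose 1 + (m + 2).choose 2 :=
    Nat.choose_succ_succ' (m + 2) 1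
  have h2 : (m + 2).choose 2 = (m + 1).choose 1 + (m + 1).choose 2 :=
    Nat.choose_succ_succ' (m + 1) 1
  have h3 : (m + 1).choose 2 = m.choose 1 + m.choose 2 := Nat.choose_succ_succ' m 1
  rw [Nat.choose_one_right] at h1 h2 h3
  omega

/-- nullity of a complete graph -/
theorem finrank_Stress_Kf {p : V → Vec k} (A : Finset V) (hp : GenPos p (A : Set V)) :
    finrank k (Stress (Kf A) p) = (A.card - 3).choose 2 := by
  refine le_antisymm (finrank_Stress_Kf_le A hp) ?_
  rcases Nat.lt_or_ge A.card 3 with h | h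
  · have : A.card - 3 = 0 := by omega
    rw [this]
    simp
  · have h1 := rk_Kf_le A hp h
    have h2 := rk_add_stress (Kf A) p
    rw [card_Kf] at h2
    obtain ⟨m, hm⟩ := Nat.exists_eq_add_of_le h
    have h3 := choose_two_add_three m
    have h4 : A.card - 3 = m := by omega
    rw [h4]
    rw [hm, add_comm 3 m, h3] at h2
    rw [hm] at h1
    omega

/-- the star part of the stresses of a complete graph is the space of all dependencies -/
theorem map_starMap_Kf {p : V → Vec k} {v : V} {N : Finset V} (hv : v ∉ N)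
    (hp : GenPos p ((insert v N : Finset V) : Set V)) :
    (Stress (Kf (insert v N)) p).map (starMap k v) = Dep p v N := by
  have h1 : (Stress (Kf (insert v N)) p).map (starMap k v) ≤ Dep p v N := by
    rintro _ ⟨ω, hω, rfl⟩
    refine starMap_mem_Dep (fun w hw => ?_) hv hω
    have := mk_mem_Kf.mp hw
    exact (Finset.mem_insert.mp this.2.2).resolve_left this.1.symm
  refine Submodule.eq_of_le_of_finrank_le h1 ?_
  refine (finrank_Dep_le hv hp).trans ?_
  have h2 := finrank_Stress_split (Kf (insert v N)) v p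
  rw [del_Kf_insert hv, finrank_Stress_Kf _ hp, finrank_Stress_Kf N
    (hp.mono (by exact_mod_cast Finset.subset_insert v N)), Finset.card_insert_of_notMem hv] at h2
  rcases Nat.lt_or_ge N.card 3 with h | h
  · omega
  · obtain ⟨m, hm⟩ := Nat.exists_eq_add_of_le h
    have e1 : N.card - 3 = m := by omega
    have e2 : N.card + 1 - 3 = m + 1 := by omega
    have e3 : (m + 1).choose 2 = m.choose 2 + m := by
      rw [Nat.choose_succ_succ' m 1, Nat.choose_one_right, add_comm]
    rw [e1, e2, e3] at h2
    rw [e1]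
    omega

/-- the dependency of a fourth direction on three given ones -/
lemma exists_Dep_four {p : V → Vec k} {v : V} {T : Finset V} {y : V} (hT : T.card = 3)
    (hvT : v ∉ T) (hyT : y ∉ T)
    (hp : GenPos p ((insert v (insert y T) : Finset V) : Set V)) :
    ∃ g ∈ Dep p v (insert y T), g y = 1 := by
  obtain ⟨c, d, e, hcd, hce, hde, rfl⟩ := Finset.card_eq_three.mp hT
  simp only [Finset.mem_insert, Finset.mem_singleton, not_or] at hvT hyT
  have hli := hp.four (a := v) (b := c) (c := d) (d := e) (by simp) (by simp) (by simp) (by simp)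
    hvT.1 hvT.2.1 hvT.2.2 hcd hce hde
  have hspan := hli.span_eq_top_of_card_eq_finrank (by simp)
  have hmem : p y ∈ Submodule.span k (Set.range ![p v, p c, p d, p e]) := by
    rw [hspan]; exact Submodule.mem_top
  obtain ⟨g, hg⟩ := (Submodule.mem_span_range_iff_exists_fun k).mp hmem
  rw [Fin.sum_univ_four] at hg
  simp only [Matrix.cons_val_zero, Matrix.cons_val_one, Matrix.cons_val] at hg
  refine ⟨fun w => if w = y then 1 else if w = c then - g 1 else if w = d then - g 2
    else if w = e then - g 3 else 0, ⟨?_, ?_⟩, by simp⟩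
  · intro w hw
    simp only [Finset.mem_insert, Finset.mem_singleton, not_or] at hw
    simp [hw.1, hw.2.1, hw.2.2.1, hw.2.2.2]
  · intro z hz
    rw [Finset.sum_insert (by simp [hyT.1, hyT.2.1, hyT.2.2]),
      Finset.sum_insert (by simp [hcd, hce]), Finset.sum_insert (by simp [hde]),
      Finset.sum_singleton]
    simp only [if_true, Ne.symm hyT.1, Ne.symm hyT.2.1, Ne.symm hyT.2.2, if_false, hcd.symm,
      hce.symm, hde.symm, ← hg, dotProduct_add, dotProduct_smul, smul_eq_mul, hz]
    ring

/-- dependencies of directions are sums of dependencies of four directions -/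
theorem Dep_le_iSup {p : V → Vec k} {v : V} {N : Finset V} (hv : v ∉ N)
    (hp : GenPos p ((insert v N : Finset V) : Set V)) :
    Dep p v N ≤ ⨆ T : {T : Finset V // T ⊆ N ∧ T.card = 4}, Dep p v T.1 := by
  intro f hf
  rcases Nat.lt_or_ge N.card 3 with h | h
  · have : f = 0 := Dep_eq_zero hv hp (Finset.Subset.refl N) h.le hf (by simp)
    rw [this]; exact Submodule.zero_mem _
  obtain ⟨T, hTN, hT⟩ := Finset.exists_subset_card_eq h
  have hvT : v ∉ T := fun h => hv (hTN h)
  have hex : ∀ y, ∃ g : V → k, y ∈ N \ T → g ∈ Dep p v (insert y T) ∧ g y = 1 := by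
    intro y
    by_cases hy : y ∈ N \ T
    · have hyN := (Finset.mem_sdiff.mp hy).1
      have hyT := (Finset.mem_sdiff.mp hy).2
      obtain ⟨g, h1, h2⟩ := exists_Dep_four (k := k) hT hvT hyT (hp.mono (by
        exact_mod_cast Finset.insert_subset_insert v (Finset.insert_subset hyN hTN)))
      exact ⟨g, fun _ => ⟨h1, h2⟩⟩
    · exact ⟨0, fun h => absurd h hy⟩
  choose g hg using hex
  have hmono : ∀ T' ⊆ N, Dep p v T' ≤ Dep p v N := by
    intro T' hT' g hg
    refine ⟨fun w hw => hg.1 w (fun h => hw (hT' h)), fun z hz => ?_⟩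
    rw [← hg.2 z hz]
    refine (Finset.sum_subset hT' fun w _ hw => ?_).symm
    rw [hg.1 w hw, zero_mul]
  have h0 : f - ∑ y ∈ N \ T, f y • g y = 0 := by
    refine Dep_eq_zero hv hp hTN hT.le ?_ ?_
    · refine Submodule.sub_mem _ hf (Submodule.sum_mem _ fun y hy => Submodule.smul_mem _ _ ?_)
      exact hmono _ (Finset.insert_subset (Finset.mem_sdiff.mp hy).1 hTN) (hg y hy).1
    · intro w hw
      rw [Pi.sub_apply, Finset.sum_apply, Finset.sum_eq_single w]
      · rw [Pi.smul_apply, (hg w hw).2, smul_eq_mul, mul_one, sub_self]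
      · intro y hy hyw
        rw [Pi.smul_apply, (hg y hy).1.1 w (by
          rw [Finset.mem_insert, not_or]
          exact ⟨hyw.symm, (Finset.mem_sdiff.mp hw).2⟩), smul_zero]
      · intro h; exact absurd hw h
  rw [sub_eq_zero.mp h0]
  refine Submodule.sum_mem _ fun y hy => Submodule.smul_mem _ _ ?_
  have hyN := (Finset.mem_sdiff.mp hy).1
  have hyT := (Finset.mem_sdiff.mp hy).2
  exact (le_iSup (fun T : {T : Finset V // T ⊆ N ∧ T.card = 4} => Dep p v T.1)
    ⟨insert y T, Finset.insert_subset hyN hTN, by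
      rw [Finset.card_insert_of_notMem hyT, hT]⟩) (hg y hy).1

/-- if `insert v N` is a clique of `D` then all dependencies at `v` in `N` come from `K₅`'s -/
lemma Dep_le_map_S5 {D : Finset (Sym2 V)} {p : V → Vec k} {v : V} {N : Finset V} (hv : v ∉ N)
    (hp : GenPos p ((insert v N : Finset V) : Set V)) (hN : Kf (insert v N) ⊆ D) :
    Dep p v N ≤ (S5 D p).map (starMap k v) := by
  refine (Dep_le_iSup hv hp).trans (iSup_le ?_)
  rintro ⟨T, hTN, hT⟩
  have hvT : v ∉ T := fun h => hv (hTN h)
  rw [← map_starMap_Kf hvT (hp.mono (by exact_mod_cast Finset.insert_subset_insert v hTN))]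
  refine Submodule.map_mono ?_
  exact le_iSup (fun C : {C : Finset V // C.card = 5 ∧ Kf C ⊆ D} => Stress (Kf C.1) p)
    ⟨insert v T, by rw [Finset.card_insert_of_notMem hvT, hT],
      (Kf_mono (Finset.insert_subset_insert v hTN)).trans hN⟩

lemma mem_Stress_del {D : Finset (Sym2 V)} {p : V → Vec k} {v : V} {ω : Sym2 V → k}
    (hω : ω ∈ Stress D p) (h : starMap k v ω = 0) : ω ∈ Stress (del D v) p := by
  have h0 : ∀ e ∈ D, v ∈ e → ω e = 0 := by
    intro e _ hve
    obtain ⟨w, rfl⟩ := Sym2.mem_iff_exists.mp hve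
    exact congrFun h w
  refine ⟨fun e he => ?_, fun Z hZ => ?_⟩
  · by_cases heD : e ∈ D
    · have : v ∈ e := by
        by_contra hve
        exact he (mem_del.mpr ⟨heD, hve⟩)
      exact h0 e heD this
    · exact hω.1 e heD
  · rw [← hω.2 Z hZ]
    refine Finset.sum_subset (del_subset D v) fun e he he' => ?_
    have hve : v ∈ e := by
      by_contra hve
      exact he' (mem_del.mpr ⟨he, hve⟩)
    simp [h0 e he hve]

/-- **The inductive step**: if the star parts at `v` of the stresses of `D` come from `K₅`'s and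
`D - v` is good, then `D` is good. -/
theorem Good.of_del {D : Finset (Sym2 V)} {p : V → Vec k} {v : V}
    (h : (Stress D p).map (starMap k v) ≤ (S5 D p).map (starMap k v))
    (hdel : Good (del D v) p) : Good D p := by
  intro ω hω
  obtain ⟨ω', hω', he⟩ := h ⟨ω, hω, rfl⟩
  have h1 : ω - ω' ∈ Stress (del D v) p := by
    refine mem_Stress_del (Submodule.sub_mem _ hω (S5_le_Stress D p hω')) ?_
    rw [map_sub, he, sub_self]
  have h2 := S5_mono (del_subset D v) p (hdel h1)
  have h3 := Submodule.add_mem _ h2 hω'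
  rwa [sub_add_cancel] at h3

open Classical in
/-- the neighbourhoods of `v` in the maximal cliques of `D` of size at least five through `v` -/
noncomputable def maxNs (D : Finset (Sym2 V)) (v : V) (A : Finset V) : Finset (Finset V) :=
  A.powerset.filter (fun N => MaxN D v N ∧ 4 ≤ N.card)

lemma mem_maxNs {D : Finset (Sym2 V)} {v : V} {A N : Finset V} (hA : D ⊆ Kf A) :
    N ∈ maxNs D v A ↔ MaxN D v N ∧ 4 ≤ N.card := by
  classical
  unfold maxNs
  rw [Finset.mem_filter, Finset.mem_powerset]
  exact ⟨fun h => h.2, fun h => ⟨h.1.subset hA, h⟩⟩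

lemma Dep_mono {p : V → Vec k} {v : V} {N N' : Finset V} (h : N ⊆ N') :
    Dep p v N ≤ Dep p v N' := by
  intro g hg
  refine ⟨fun w hw => hg.1 w (fun hw' => hw (h hw')), fun z hz => ?_⟩
  rw [← hg.2 z hz]
  refine (Finset.sum_subset h fun w _ hw => ?_).symm
  rw [hg.1 w hw, zero_mul]

/-- the star part at `v` of the span of the `K₅`-stresses -/
theorem map_S5_eq {D : Finset (Sym2 V)} {p : V → Vec k} {v : V} {A : Finset V}
    (hA : D ⊆ Kf A) (hp : GenPos p (A : Set V)) (hv : v ∈ A) :
    (S5 D p).map (starMap k v) = ⨆ N ∈ maxNs D v A, Dep p v N := by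
  refine le_antisymm ?_ ?_
  · unfold S5
    rw [Submodule.map_iSup]
    refine iSup_le ?_
    rintro ⟨C, hC5, hCD⟩
    by_cases hvC : v ∈ C
    · have hCi : insert v (C.erase v) = C := Finset.insert_erase hvC
      have hCsub : C ⊆ A := by
        intro x hx
        obtain ⟨y, hy, hxy⟩ : ∃ y ∈ C, x ≠ y := by
          by_contra hcon
          push Not at hcon
          have : C ⊆ {x} := fun y hy => by rw [Finset.mem_singleton]; exact (hcon y hy).symm
          have := Finset.card_le_card this
          rw [hC5] at this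
          simp at this
        have := hCD (mk_mem_Kf.mpr ⟨hxy, hx, hy⟩)
        exact (mk_mem_Kf.mp (hA this)).2.1
      obtain ⟨N, h1, h2, h3⟩ := exists_MaxN (N := C.erase v) (v := v) hA (by simp)
        (by rw [hCi]; exact hCD)
      have h4 : 4 ≤ N.card := by
        have := Finset.card_le_card h1
        rw [Finset.card_erase_of_mem hvC, hC5] at this
        omega
      refine le_trans ?_ (le_iSup₂ (f := fun N (_ : N ∈ maxNs D v A) => Dep p v N) N
        ((mem_maxNs hA).mpr ⟨h3, h4⟩))
      refine le_trans ?_ (Dep_mono h1)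
      rw [← map_starMap_Kf (k := k) (p := p) (v := v) (N := C.erase v) (by simp)
        (by rw [hCi]; exact hp.mono (by exact_mod_cast hCsub)), hCi]
    · have : (Stress (Kf C) p).map (starMap k v) = ⊥ := by
        rw [eq_bot_iff]
        rintro _ ⟨ω, hω, rfl⟩
        rw [Submodule.mem_bot]
        ext w
        refine hω.1 _ ?_
        intro h
        exact hvC (mk_mem_Kf.mp h).2.1
      show (Stress (Kf C) p).map (starMap k v) ≤ _
      rw [this]
      exact bot_le
  · refine iSup₂_le fun N hN => ?_
    rw [mem_maxNs hA] at hN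
    refine Dep_le_map_S5 hN.1.prop.1 ?_ hN.1.prop.2
    exact hp.mono (by exact_mod_cast Finset.insert_subset hv (hN.1.subset hA))

/-- the star part at `v` of a good flat -/
theorem map_Stress_eq {D : Finset (Sym2 V)} {p : V → Vec k} {v : V} {A : Finset V}
    (hA : D ⊆ Kf A) (hp : GenPos p (A : Set V)) (hv : v ∈ A) (hgood : Good D p) :
    (Stress D p).map (starMap k v) = ⨆ N ∈ maxNs D v A, Dep p v N := by
  rw [← map_S5_eq hA hp hv]
  exact le_antisymm (Submodule.map_mono hgood) (Submodule.map_mono (S5_le_Stress D p))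

/-- dimension of the star part of a good graph -/
theorem finrank_map_Stress_le {D : Finset (Sym2 V)} {p : V → Vec k} {v : V} {A : Finset V}
    (hA : D ⊆ Kf A) (hp : GenPos p (A : Set V)) (hv : v ∈ A) (hgood : Good D p) :
    finrank k ((Stress D p).map (starMap k v)) ≤ ∑ N ∈ maxNs D v A, (N.card - 3) := by
  rw [map_Stress_eq hA hp hv hgood]
  refine (finrank_biSup_le (k := k) (maxNs D v A) (fun N => Dep p v N)).2.trans ?_
  refine Finset.sum_le_sum fun N hN => ?_
  rw [mem_maxNs hA] at hN
  exact finrank_Dep_le hN.1.prop.1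
    (hp.mono (by exact_mod_cast Finset.insert_subset hv (hN.1.subset hA)))

end GR
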