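import Pool.Agent.Lib.GR.LocBT
import Pool.Agent.Lib.GR.NoPair
import Pool.Agent.Lib.GR.Assemble

/-!
# From a minimal counterexample to local data at a vertex `i`
-/

set_option linter.unusedSectionVars false

namespace GR

open Filter Module

open scoped Matrix

variable {k : Type*} [Field k] {V : Type*}

variable [Infinite k] [DecidableEq V]

/-! ### The hypotheses -/

/-- a vertex `i` with a set `X` of pairwise nonadjacent neighbours of pure type A -/
structure LHyp (k : Type*) [Field k] [Infinite k] {V : Type*} [DecidableEq V] (A : Finset V)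
    (E : Finset (Sym2 V)) (i : V) (X : Finset V) : Prop where
  ce : MinCE k A E
  hi : i ∈ A
  pure : ∀ u ∈ X, PureA k A E u
  adj : ∀ u ∈ X, s(i, u) ∈ E
  nonadj : ∀ u ∈ X, ∀ v ∈ X, u ≠ v → s(u, v) ∉ E

section

variable {A : Finset V} {E : Finset (Sym2 V)} {i : V} {X : Finset V}

/-- the remaining vertices -/
def WW (A X : Finset V) (i : V) : Finset V := (A \ X).erase i

lemma mem_WW {w : V} : w ∈ WW A X i ↔ w ≠ i ∧ w ∈ A ∧ w ∉ X := by
  simp [WW]

lemma WW_subset : WW A X i ⊆ A := fun _ hw => (mem_WW.mp hw).2.1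

namespace LHyp

variable (h : LHyp k A E i X)

include h

lemma subA : X ⊆ A := fun u hu => (h.pure u hu).typ.mem

lemma iX : i ∉ X := fun hi => by
  have := (mem_Kf.mp (h.ce.sub (h.adj i hi))).1
  exact this (by simp)

lemma i_notMem : i ∉ WW A X i := fun hi => (mem_WW.mp hi).1 rfl

lemma insert_WW : insert i (WW A X i) = A \ X := by
  have := h.hi
  have h1 := h.iX
  rw [WW, Finset.insert_erase]
  simp [this, h1]

lemma iU : i ∈ A \ X := Finset.mem_sdiff.mpr ⟨h.hi, h.iX⟩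

lemma ssub : WW A X i ⊂ A := ⟨WW_subset, fun hc => (mem_WW.mp (hc h.hi)).1 rfl⟩

lemma deg5 {u : V} (hu : u ∈ X) : (nbr (A.erase u) (E : Set (Sym2 V)) u).card = 5 :=
  (h.pure u hu).typ.deg

lemma nbrU {u : V} (hu : u ∈ X) :
    nbr (A \ X) (E : Set (Sym2 V)) u = nbr (A.erase u) (E : Set (Sym2 V)) u :=
  h.ce.nbr_eq h.subA hu (h.nonadj u hu)

/-- neighbours of `u` in `U` : `i` and `T u` -/
lemma nbrU' {u : V} (hu : u ∈ X) :
    nbr (A \ X) (E : Set (Sym2 V)) u = insert i (nbr (WW A X i) (E : Set (Sym2 V)) u) := by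
  ext w
  rw [mem_nbr, Finset.mem_insert, mem_nbr, mem_WW, Finset.mem_sdiff]
  constructor
  · rintro ⟨h1, h2⟩
    by_cases hw : w = i
    · exact Or.inl hw
    · exact Or.inr ⟨⟨hw, h1⟩, h2⟩
  · rintro (rfl | ⟨h1, h2⟩)
    · refine ⟨⟨h.hi, h.iX⟩, ?_⟩
      rw [Sym2.eq_swap]
      exact_mod_cast h.adj u hu
    · exact ⟨h1.2, h2⟩

lemma i_notMem_nbr (u : V) : i ∉ nbr (WW A X i) (E : Set (Sym2 V)) u := fun hc =>
  h.i_notMem (nbr_subset _ _ _ hc)

lemma cardT {u : V} (hu : u ∈ X) : (nbr (WW A X i) (E : Set (Sym2 V)) u).card = 4 := by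
  have h1 := h.deg5 hu
  rw [← h.nbrU hu, h.nbrU' hu, Finset.card_insert_of_notMem (h.i_notMem_nbr u)] at h1
  omega

/-- neighbours of `i` -/
lemma nbrI : nbr (A.erase i) (E : Set (Sym2 V)) i = nbr (WW A X i) (E : Set (Sym2 V)) i ∪ X := by
  ext w
  rw [mem_nbr, Finset.mem_union, mem_nbr, mem_WW, Finset.mem_erase]
  constructor
  · rintro ⟨⟨h1, h2⟩, h3⟩
    by_cases hw : w ∈ X
    · exact Or.inr hw
    · exact Or.inl ⟨⟨h1, h2, hw⟩, h3⟩
  · rintro (⟨⟨h1, h2, _⟩, h3⟩ | hw)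
    · exact ⟨⟨h1, h2⟩, h3⟩
    · refine ⟨⟨?_, h.subA hw⟩, by exact_mod_cast h.adj w hw⟩
      rintro rfl
      exact h.iX hw

lemma cardO : (nbr (WW A X i) (E : Set (Sym2 V)) i).card + X.card = dg A E i := by
  unfold dg
  rw [h.nbrI, Finset.card_union_of_disjoint]
  rw [Finset.disjoint_left]
  intro w hw hwX
  exact (mem_WW.mp (nbr_subset _ _ _ hw)).2.2 hwX

lemma mlHyp : MLHyp k (A \ X) X (E : Set (Sym2 V)) :=
  h.ce.mlHyp h.subA (fun _ hu => h.deg5 hu) h.nonadj

/-- the dimension of the motions of `W` -/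
lemma gdim_WW : gdim k (WW A X i) (E : Set (Sym2 V)) =
    2 * X.card + (nbr (WW A X i) (E : Set (Sym2 V)) i).card + 3 := by
  have h1 := h.ce.indep _ h.ssub
  have h2 := h.ce.card_rest_sdiff (Y := X) h.subA (fun _ hu => h.deg5 hu) h.nonadj
  have h3 := h.ce.card
  have hEK : rest E (A \ X) ⊆ Kf (A \ X) :=
    rest_subset_Kf (fun e he => (mem_Kf.mp (h.ce.sub he)).1) _
  have h4 := card_rest_erase hEK i
  have h5 : rest (rest E (A \ X)) ((A \ X).erase i) = rest E (WW A X i) := by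
    ext e
    rw [mem_rest, mem_rest, mem_rest, WW]
    constructor
    · rintro ⟨⟨h1, h2⟩, h3⟩
      exact ⟨h1, h3⟩
    · rintro ⟨h1, h2⟩
      exact ⟨⟨h1, fun v hv => Finset.mem_of_mem_erase (h2 v hv)⟩, h2⟩
  have h6 : nbr ((A \ X).erase i) ((rest E (A \ X) : Finset (Sym2 V)) : Set (Sym2 V)) i
      = nbr (WW A X i) (E : Set (Sym2 V)) i := by
    ext w
    rw [mem_nbr, mem_nbr, Finset.mem_coe, mem_rest, ← WW]
    constructor
    · rintro ⟨h1, h2, _⟩
      exact ⟨h1, by exact_mod_cast h2⟩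
    · rintro ⟨h1, h2⟩
      have h2' : s(i, w) ∈ E := by exact_mod_cast h2
      refine ⟨h1, h2', fun v hv => ?_⟩
      rcases Sym2.mem_iff.mp hv with rfl | rfl
      · exact h.iU
      · exact Finset.mem_of_mem_erase h1
  rw [h5, h6] at h4
  have h7 : (A \ X).card + X.card = A.card := Finset.card_sdiff_add_card_eq_card h.subA
  have h8 : (WW A X i).card + 1 = (A \ X).card := Finset.card_erase_add_one h.iU
  omega

end LHyp

end

end GR
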