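import Pool.Agent.Lib.GR.LocA

/-!
# The space of motions of type A at all `u ∈ X`
-/

set_option linter.unusedSectionVars false

namespace GR

open Filter Module

open scoped Matrix

variable {k : Type*} [Field k] [Infinite k] {V : Type*} [DecidableEq V]
  {A : Finset V} {E : Finset (Sym2 V)} {i : V} {X : Finset V}

/-- motions of `U` which are of type A at all `u ∈ X` -/
def QT (U X : Finset V) (E : Set (Sym2 V)) (q : V → Vec k) : Submodule k (V → Vec k) :=
  Mot U E q ⊓ ⨅ u ∈ X, TA q (nbr U E u : Set V)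

lemma mem_QT {U X : Finset V} {E : Set (Sym2 V)} {q : V → Vec k} {Y : V → Vec k} :
    Y ∈ QT U X E q ↔ Y ∈ Mot U E q ∧ ∀ u ∈ X, Y ∈ TA q (nbr U E u : Set V) := by
  simp [QT, Submodule.mem_iInf]

instance QT_finiteDimensional (U X : Finset V) (E : Set (Sym2 V)) (q : V → Vec k) :
    FiniteDimensional k (QT U X E q) := Submodule.finiteDimensional_of_le inf_le_left

/-- a type A vertex with a rigid triple is of type B -/
theorem PureA.exists_not_rigid (h : MinCE k A E) {u : V} (hu : PureA k A E u)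
    {q : V → Vec k} (hq : Nice A q) {a b c : V}
    (ha : a ∈ nbr (A.erase u) (E : Set (Sym2 V)) u)
    (hb : b ∈ nbr (A.erase u) (E : Set (Sym2 V)) u)
    (hc : c ∈ nbr (A.erase u) (E : Set (Sym2 V)) u) (hab : a ≠ b) (hac : a ≠ c) (hbc : b ≠ c) :
    ∃ Y ∈ Mot (A.erase u) (E : Set (Sym2 V)) q,
      ¬ (eps q a b Y = 0 ∧ eps q a c Y = 0 ∧ eps q b c Y = 0) := by
  by_contra hcon
  push Not at hcon
  set N := nbr (A.erase u) (E : Set (Sym2 V)) u with hN
  have h5 : N.card = 5 := hu.typ.deg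
  have hNA : N ⊆ A.erase u := nbr_subset _ _ _
  have h2 : (((N.erase a).erase b).erase c).card = 2 := by
    rw [Finset.card_erase_of_mem, Finset.card_erase_of_mem, Finset.card_erase_of_mem ha, h5]
    · exact Finset.mem_erase.mpr ⟨hab.symm, hb⟩
    · exact Finset.mem_erase.mpr ⟨hbc.symm, Finset.mem_erase.mpr ⟨hac.symm, hc⟩⟩
  obtain ⟨d, e, hde, hE2⟩ := Finset.card_eq_two.mp h2
  have hd : d ∈ ((N.erase a).erase b).erase c := by rw [hE2]; simp
  have he : e ∈ ((N.erase a).erase b).erase c := by rw [hE2]; simp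
  simp only [Finset.mem_erase] at hd he
  have hL : Lab N a b c d e :=
    { eq := by
        ext w
        simp only [Finset.mem_insert, Finset.mem_singleton]
        constructor
        · intro hw
          by_cases h1 : w = a
          · exact Or.inl h1
          by_cases h2 : w = b
          · exact Or.inr (Or.inl h2)
          by_cases h3 : w = c
          · exact Or.inr (Or.inr (Or.inl h3))
          have h4 : w ∈ ((N.erase a).erase b).erase c := by
            simp [h1, h2, h3, hw]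
          rw [hE2] at h4
          simp only [Finset.mem_insert, Finset.mem_singleton] at h4
          tauto
        · rintro (rfl | rfl | rfl | rfl | rfl)
          exacts [ha, hb, hc, hd.2.2.2, he.2.2.2]
      ab := hab
      ac := hac
      ad := fun h => hd.2.2.1 h.symm
      ae := fun h => he.2.2.1 h.symm
      bc := hbc
      bd := fun h => hd.2.1 h.symm
      be := fun h => he.2.1 h.symm
      cd := fun h => hd.1 h.symm
      ce := fun h => he.1 h.symm
      de := hde }
  refine hu.not_b a b c d e ⟨hu.typ.mem, hL, fun p hp => ?_⟩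
  have hE : ∀ e ∈ E, ¬ e.IsDiag := fun e he => (mem_Kf.mp (h.sub he)).1
  have hreg := hp.reg.mono (Finset.erase_subset u A)
  have hreg' := hq.reg.mono (Finset.erase_subset u A)
  have rab := eps_const hE hreg' hreg (hNA ha) (hNA hb) hab fun Z hZ => (hcon Z hZ).1
  have rac := eps_const hE hreg' hreg (hNA ha) (hNA hc) hac fun Z hZ => (hcon Z hZ).2.1
  have rbc := eps_const hE hreg' hreg (hNA hb) (hNA hc) hbc fun Z hZ => (hcon Z hZ).2.2
  have hgp := hp.gp.mono (N' := (N : Set V))
    (by exact_mod_cast hNA.trans (Finset.erase_subset u A))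
  obtain ⟨t'', ht'', h2⟩ := exists_TB_of_TA hL hgp
  exact ⟨t'', ht'', fun Z hZ => h2 Z (hu.typ.typ p hp hZ) (fun v hv => hZ.2.1 v (hNA hv))
    (rab Z hZ) (rac Z hZ) (rbc Z hZ)⟩

/-- what we need of the position -/
structure GoodQ (A : Finset V) (E : Finset (Sym2 V)) (X : Finset V) (q : V → Vec k) : Prop where
  nice : Nice A q
  fin : finrank k (QX (A \ X) X (E : Set (Sym2 V)) q) = X.card + 7
  sub : ∀ u ∈ X, (Mot (A \ X ∪ X.erase u) (E : Set (Sym2 V)) q).map (cut k (A \ X))
    ≤ QX (A \ X) X (E : Set (Sym2 V)) q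
  full : finrank k (Isp (Mot (A \ X) (E : Set (Sym2 V)) q) (AttU (A \ X) (E : Set (Sym2 V)) q) X)
    = 7
  typ : QX (A \ X) X (E : Set (Sym2 V)) q ≤ QT (A \ X) X (E : Set (Sym2 V)) q

namespace LHyp

variable (h : LHyp k A E i X)

include h

lemma union_erase {u : V} (hu : u ∈ X) : A \ X ∪ X.erase u = A.erase u :=
  sdiff_union_erase h.ce h.subA hu

lemma eventually_goodQ (hX : X.Nonempty) : ∀ᶠ q in gen k (V → Vec k), GoodQ A E X q := by
  filter_upwards [eventually_nice (k := k) A, h.mlHyp.main hX, h.mlHyp.types h.ce.two hX,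
    h.mlHyp.eventually_dimHyp, h.mlHyp.eventually_span] with q h1 h2 h3 h4 h5
  refine ⟨h1, h2.1, h2.2.1, h4.full, ?_⟩
  intro Y hY
  rw [mem_QT]
  refine ⟨QX_le _ _ _ _ hY, fun u hu => ?_⟩
  rcases h3 u hu with h6 | ⟨σ, hσ, t, ht, h6⟩
  · exact h6 hY
  · exfalso
    have hσm : ∀ j, (σ j : V) ∈ nbr (A.erase u) (E : Set (Sym2 V)) u := fun j => by
      rw [← h.nbrU hu]; exact (σ j).2
    have hne : ∀ i j : Fin 5, i ≠ j → (σ i : V) ≠ σ j := fun i j hij h =>
      hij (hσ.1 (Subtype.ext h))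
    obtain ⟨Z, hZ, hn⟩ := PureA.exists_not_rigid h.ce (h.pure u hu) h1 (hσm 0) (hσm 1) (hσm 2)
      (hne 0 1 (by decide)) (hne 0 2 (by decide)) (hne 1 2 (by decide))
    have hZ' : Z ∈ Mot (A \ X ∪ X.erase u) (E : Set (Sym2 V)) q := by
      rw [h.union_erase hu]; exact hZ
    have hcut : cut k (A \ X) Z ∈ TB q (σ 0) (σ 1) (σ 2) (σ 3) (σ 4) t :=
      h6 (h2.2.1 u hu (Submodule.mem_map_of_mem hZ'))
    have hσU : ∀ j, (σ j : V) ∈ A \ X := fun j => nbr_subset _ _ _ (σ j).2
    have hr := TB_rigid hcut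
    rw [eps_cut q Z (hσU 0) (hσU 1), eps_cut q Z (hσU 0) (hσU 2), eps_cut q Z (hσU 1) (hσU 2)]
      at hr
    exact hn ⟨hr.1, hr.2.1, hr.2.2.1⟩

end LHyp

namespace GoodQ

variable {q : V → Vec k} (hq : GoodQ A E X q)

include hq

/-- the space `Q_X` of the Main Lemma is the space of motions of type A -/
lemma QX_eq : QX (A \ X) X (E : Set (Sym2 V)) q = QT (A \ X) X (E : Set (Sym2 V)) q := by
  refine Submodule.eq_of_le_of_finrank_le hq.typ ?_
  rw [hq.fin]
  have h1 := finrank_inf_family_ge (K := QT (A \ X) X (E : Set (Sym2 V)) q)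
    (fun u => QT (A \ X) X (E : Set (Sym2 V)) q ⊓ AttU (A \ X) (E : Set (Sym2 V)) q u) X
    (fun u _ => inf_le_left) (fun u hu => by
      exact finrank_le_of_TA (fun Y hY => (mem_QT.mp hY).2 u hu) _)
  have h2 : (QT (A \ X) X (E : Set (Sym2 V)) q ⊓
      ⨅ u ∈ X, (QT (A \ X) X (E : Set (Sym2 V)) q ⊓ AttU (A \ X) (E : Set (Sym2 V)) q u) :
        Submodule k (V → Vec k))
      ≤ Isp (Mot (A \ X) (E : Set (Sym2 V)) q) (AttU (A \ X) (E : Set (Sym2 V)) q) X := by
    intro Y hY
    rw [Submodule.mem_inf] at hY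
    rw [mem_Isp]
    refine ⟨(mem_QT.mp hY.1).1, fun u hu => ?_⟩
    have := (Submodule.mem_iInf _).mp hY.2 u
    have := (Submodule.mem_iInf _).mp this hu
    exact this.2
  have : FiniteDimensional k
      (Isp (Mot (A \ X) (E : Set (Sym2 V)) q) (AttU (A \ X) (E : Set (Sym2 V)) q) X) :=
    Submodule.finiteDimensional_of_le (Isp_le _ _ _)
  have h3 := Submodule.finrank_mono h2
  rw [hq.full] at h3
  omega

lemma finrank_QT : finrank k (QT (A \ X) X (E : Set (Sym2 V)) q) = X.card + 7 := by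
  rw [← hq.QX_eq, hq.fin]

end GoodQ

end GR
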