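import Pool.Agent.Lib.GR.LocA2

/-!
# The motions of `W` which extend to `i`, and their quadrics
-/

set_option linter.unusedSectionVars false

namespace GR

open Filter Module

open scoped Matrix

variable {k : Type*} [Field k] [Infinite k] {V : Type*} [DecidableEq V]
  {A : Finset V} {E : Finset (Sym2 V)} {i : V} {X : Finset V}

namespace LHyp

variable (h : LHyp k A E i X)

include h

/-- the quadrics of `u` form a space of dimension at least two -/
lemma two_quadQ {q : V → Vec k} (hq : GoodQ A E X q) {u : V} (hu : u ∈ X)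
    {R : Submodule k (V → Vec k)} (hR : R ≤ QT (A \ X) X (E : Set (Sym2 V)) q)
    (hRG : R ≤ RG q (nbr (A \ X) (E : Set (Sym2 V)) u : Set V)) :
    finrank k R + 2 ≤ X.card + 7 := by
  set J := (Mot (A \ X ∪ X.erase u) (E : Set (Sym2 V)) q).map (cut k (A \ X)) with hJ
  have hgp : ∀ w ∈ X, GenPos q (nbr (A \ X) (E : Set (Sym2 V)) w : Set V) := fun w hw =>
    hq.nice.gp.mono (by
      intro y hy
      have := nbr_subset _ _ _ (by exact_mod_cast hy : y ∈ nbr (A \ X) (E : Set (Sym2 V)) w)
      exact_mod_cast Finset.sdiff_subset this)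
  have hspan : ∀ w ∈ X, Submodule.span k (q '' (nbr (A \ X) (E : Set (Sym2 V)) w : Set V)) = ⊤ :=
    fun w hw => (hgp w hw).span_eq_top (by rw [h.nbrU hw, h.deg5 hw]; norm_num)
  have hspan' : ∀ w ∈ X.erase u,
      Submodule.span k (q '' (nbr (A \ X) (E : Set (Sym2 V)) w : Set V)) = ⊤ :=
    fun w hw => hspan w (Finset.mem_of_mem_erase hw)
  have hJ8 : finrank k J = 8 := by
    rw [hJ, finrank_map_cut hspan' le_rfl, h.union_erase hu]
    have h1 := h.ce.gdim_erase (h.subA hu) (h.deg5 hu)
    have h2 : mdim (A.erase u) (E : Set (Sym2 V)) q = gdim k (A.erase u) (E : Set (Sym2 V)) :=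
      hq.nice.reg _ (Finset.erase_subset u A) _
    rw [mdim] at h2
    omega
  have hcutN : ∀ Z : V → Vec k, ∀ v ∈ (nbr (A \ X) (E : Set (Sym2 V)) u : Set V),
      cut k (A \ X) Z v = Z v := fun Z v hv =>
    cut_apply _ (nbr_subset _ _ _ (by simpa using hv))
  have hJR : finrank k (J ⊓ RG q (nbr (A \ X) (E : Set (Sym2 V)) u : Set V) :
      Submodule k (V → Vec k)) ≤ 6 := by
    have hle : J ⊓ RG q (nbr (A \ X) (E : Set (Sym2 V)) u : Set V)
        ≤ (Mot (A.erase u) (E : Set (Sym2 V)) q
          ⊓ RG q (nbr (A.erase u) (E : Set (Sym2 V)) u : Set V)).map (cut k (A \ X)) := by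
      rintro _ ⟨⟨Y, hY, rfl⟩, hR⟩
      rw [h.union_erase hu] at hY
      refine ⟨Y, ⟨hY, ?_⟩, rfl⟩
      have := (mem_RG_congr (hcutN Y)).mp hR
      rwa [h.nbrU hu] at this
    have hfd2 : FiniteDimensional k
        (Mot (A.erase u) (E : Set (Sym2 V)) q
          ⊓ RG q (nbr (A.erase u) (E : Set (Sym2 V)) u : Set V) : Submodule k (V → Vec k)) :=
      Submodule.finiteDimensional_of_le inf_le_left
    have h8 := Submodule.finrank_mono hle
    have h9 := Submodule.finrank_map_le (cut k (A \ X))
      (Mot (A.erase u) (E : Set (Sym2 V)) q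
        ⊓ RG q (nbr (A.erase u) (E : Set (Sym2 V)) u : Set V))
    have h10 := h.ce.finrank_inf_RG hq.nice (h.subA hu)
    omega
  have hJQ : J ≤ QT (A \ X) X (E : Set (Sym2 V)) q := (hq.sub u hu).trans hq.typ
  have hfJ : FiniteDimensional k J := Submodule.finiteDimensional_of_le hJQ
  have hfR : FiniteDimensional k R := Submodule.finiteDimensional_of_le hR
  have h1 := Submodule.finrank_sup_add_finrank_inf_eq R J
  have h2 : finrank k (R ⊓ J : Submodule k (V → Vec k)) ≤ 6 := by
    have hfin : FiniteDimensional k (J ⊓ RG q (nbr (A \ X) (E : Set (Sym2 V)) u : Set V) :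
      Submodule k (V → Vec k)) := Submodule.finiteDimensional_of_le inf_le_left
    refine (Submodule.finrank_mono ?_).trans hJR
    intro Y hY
    exact ⟨hY.2, hRG hY.1⟩
  have h3 := Submodule.finrank_mono (sup_le hR hJQ)
  rw [hq.finrank_QT] at h3
  omega

end LHyp

/-- the motions of `W` which extend to `i` placed at `x`, of type A at all `u` (no gauge) -/
def CW (W : Finset V) (E : Set (Sym2 V)) (p : V → Vec k) (X O : Finset V) (v : V)
    (T : V → Finset V) (x : Vec k) : Submodule k (V → Vec k) where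
  carrier := {Z | Z ∈ Mot W E p ∧ (∀ u ∈ X, BT p (T u) Z x = BT p (T v) Z x) ∧
    (∀ y ∈ O, BT p (T v) Z x ⬝ᵥ p y + Z y ⬝ᵥ x = 0) ∧ BT p (T v) Z x ⬝ᵥ x = 0}
  add_mem' := by
    rintro Z Z' ⟨h0, h1, h2, h3⟩ ⟨h0', h1', h2', h3'⟩
    refine ⟨Submodule.add_mem _ h0 h0', fun u hu => by simp [h1 u hu, h1' u hu],
      fun x hx => ?_, ?_⟩
    · have e1 := h2 x hx
      have e2 := h2' x hx
      simp only [map_add, LinearMap.add_apply, add_dotProduct, Pi.add_apply]
      linear_combination e1 + e2
    · simp [add_dotProduct, h3, h3']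
  zero_mem' := ⟨Submodule.zero_mem _, fun u _ => by simp, fun x _ => by simp, by simp⟩
  smul_mem' := by
    rintro c Z ⟨h0, h1, h2, h3⟩
    refine ⟨Submodule.smul_mem _ c h0, fun u hu => by simp [h1 u hu], fun x hx => ?_, ?_⟩
    · have e1 := h2 x hx
      simp only [map_smul, LinearMap.smul_apply, smul_dotProduct, smul_eq_mul, Pi.smul_apply]
      linear_combination c * e1
    · simp [smul_dotProduct, h3]

lemma mem_CW {W : Finset V} {E : Set (Sym2 V)} {p : V → Vec k} {X O : Finset V} {v : V}
    {T : V → Finset V} {x : Vec k} {Z : V → Vec k} :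
    Z ∈ CW W E p X O v T x ↔ Z ∈ Mot W E p ∧ (∀ u ∈ X, BT p (T u) Z x = BT p (T v) Z x) ∧
    (∀ y ∈ O, BT p (T v) Z x ⬝ᵥ p y + Z y ⬝ᵥ x = 0) ∧ BT p (T v) Z x ⬝ᵥ x = 0 := Iff.rfl

instance CW_finiteDimensional (W : Finset V) (E : Set (Sym2 V)) (p : V → Vec k) (X O : Finset V)
    (v : V) (T : V → Finset V) (x : Vec k) : FiniteDimensional k (CW W E p X O v T x) :=
  Submodule.finiteDimensional_of_le (S₂ := Mot W E p) fun _ h => h.1

/-- the neighbourhoods in `W` -/
noncomputable def TT (A : Finset V) (E : Finset (Sym2 V)) (X : Finset V) (i : V) (u : V) :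
    Finset V := nbr (WW A X i) (E : Set (Sym2 V)) u

namespace LHyp

variable (h : LHyp k A E i X)

include h

lemma four {p : V → Vec k} (hp : GenPos p (WW A X i : Set V)) {u : V} (hu : u ∈ X) :
    Four p (TT A E X i u) := hp.toFour (nbr_subset _ _ _) (h.cardT hu)

lemma mot_update (p : V → Vec k) (x : Vec k) :
    Mot (WW A X i) (E : Set (Sym2 V)) (Function.update p i x)
      = Mot (WW A X i) (E : Set (Sym2 V)) p :=
  Mot_congr_pts fun a ha => Function.update_of_ne (by rintro rfl; exact h.i_notMem ha) _ _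

/-- forgetting `i` -/
lemma map_forget_QT {p : V → Vec k} (hp : GenPos p (WW A X i : Set V)) {v : V} (hv : v ∈ X)
    (x : Vec k) :
    (QT (A \ X) X (E : Set (Sym2 V)) (Function.update p i x)).map (forget k i)
      = CW (WW A X i) (E : Set (Sym2 V)) p X (nbr (WW A X i) (E : Set (Sym2 V)) i) v
        (TT A E X i) x := by
  set q := Function.update p i x with hq
  have hqi : q i = x := Function.update_self _ _ _
  have hqw : ∀ w, w ≠ i → q w = p w := fun w hw => Function.update_of_ne hw _ _
  have hiT : ∀ u, ∀ t ∈ TT A E X i u, t ≠ i := fun u t ht hc =>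
    h.i_notMem_nbr u (by rw [TT, hc] at ht; exact ht)
  ext Z
  rw [Submodule.mem_map, mem_CW]
  constructor
  · rintro ⟨Y, hY, rfl⟩
    rw [mem_QT] at hY
    obtain ⟨hM, hT⟩ := hY
    have hZw : ∀ w, w ≠ i → forget k i Y w = Y w := fun w hw => forget_apply_of_ne hw Y
    -- the linear maps
    have hF : ∀ u ∈ X, BT p (TT A E X i u) (forget k i Y) x = Y i := by
      intro u hu
      obtain ⟨F, hF⟩ := hT u hu
      have e1 : BT p (TT A E X i u) (forget k i Y) = F := by
        refine BT_unique (h.four hp hu) fun t ht => ?_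
        rw [hZw t (hiT u t ht), hF t (by
          rw [h.nbrU' hu]
          simp only [Finset.coe_insert, Set.mem_insert_iff, Finset.mem_coe]
          exact Or.inr ht), hqw t (hiT u t ht)]
      rw [e1, hF i (by rw [h.nbrU' hu]; simp), hqi]
    refine ⟨?_, fun u hu => by rw [hF u hu, hF v hv], fun y hy => ?_, ?_⟩
    · rw [← h.mot_update p x]
      refine ⟨fun w hw => ?_, fun w hw => ?_, fun a ha b hb hab => ?_⟩
      · by_cases hwi : w = i
        · rw [hwi, forget_apply_self]
        · rw [hZw w hwi]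
          refine hM.1 w fun hc => hw ?_
          rw [WW]
          exact Finset.mem_erase.mpr ⟨hwi, hc⟩
      · rw [hZw w (mem_WW.mp hw).1]
        exact hM.2.1 w (Finset.mem_of_mem_erase hw)
      · have := hM.2.2 a (Finset.mem_of_mem_erase ha) b (Finset.mem_of_mem_erase hb) hab
        rw [eps_apply] at this ⊢
        rw [hZw a (mem_WW.mp ha).1, hZw b (mem_WW.mp hb).1]
        exact this
    · rw [hF v hv]
      have hyW := nbr_subset _ _ _ hy
      have hyi := (mem_WW.mp hyW).1
      have := hM.2.2 i h.iU y (Finset.mem_of_mem_erase hyW) (mem_nbr.mp hy).2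
      rw [eps_apply, hqi, hqw y hyi] at this
      rw [hZw y hyi]
      exact this
    · rw [hF v hv]
      have := hM.2.1 i h.iU
      rwa [hqi] at this
  · rintro ⟨hM, hu, hO, hl⟩
    set c := BT p (TT A E X i v) Z x with hc
    have hZi : Z i = 0 := hM.1 i h.i_notMem
    refine ⟨Function.update Z i c, ?_, ?_⟩
    · rw [mem_QT]
      have hYw : ∀ w, w ≠ i → Function.update Z i c w = Z w := fun w hw =>
        Function.update_of_ne hw _ _
      have hYi : Function.update Z i c i = c := Function.update_self _ _ _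
      refine ⟨⟨fun w hw => ?_, fun w hw => ?_, fun a ha b hb hab => ?_⟩, fun u hu' => ?_⟩
      · have hwi : w ≠ i := by rintro rfl; exact hw h.iU
        rw [hYw w hwi]
        exact hM.1 w fun hc => hw (Finset.mem_of_mem_erase hc)
      · by_cases hwi : w = i
        · rw [hwi, hYi, hqi]; exact hl
        · rw [hYw w hwi, hqw w hwi]
          exact hM.2.1 w (Finset.mem_erase.mpr ⟨hwi, hw⟩)
      · rw [eps_apply]
        by_cases hai : a = i
        · subst hai
          by_cases hbi : b = a
          · subst hbi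
            rw [hYi, hqi, hl, add_zero]
          · have hbO : b ∈ nbr (WW A X a) (E : Set (Sym2 V)) a :=
              mem_nbr.mpr ⟨Finset.mem_erase.mpr ⟨hbi, hb⟩, hab⟩
            rw [hYi, hqi, hYw b hbi, hqw b hbi]
            exact hO b hbO
        · by_cases hbi : b = i
          · subst hbi
            have haO : a ∈ nbr (WW A X b) (E : Set (Sym2 V)) b :=
              mem_nbr.mpr ⟨Finset.mem_erase.mpr ⟨hai, ha⟩, by rw [Sym2.eq_swap]; exact hab⟩
            rw [hYi, hqi, hYw a hai, hqw a hai, add_comm]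
            exact hO a haO
          · rw [hYw a hai, hYw b hbi, hqw a hai, hqw b hbi]
            exact hM.2.2 a (Finset.mem_erase.mpr ⟨hai, ha⟩) b
              (Finset.mem_erase.mpr ⟨hbi, hb⟩) hab
      · refine ⟨BT p (TT A E X i u) Z, fun w hw => ?_⟩
        rw [h.nbrU' hu'] at hw
        simp only [Finset.coe_insert, Set.mem_insert_iff, Finset.mem_coe] at hw
        rcases hw with rfl | hw
        · rw [hYi, hqi, hu u hu']
        · have hwi := hiT u w hw
          rw [hYw w hwi, hqw w hwi, BT_apply (h.four hp hu') Z hw]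
    · ext w : 1
      by_cases hwi : w = i
      · rw [hwi, forget_apply_self, hZi]
      · rw [forget_apply_of_ne hwi, Function.update_of_ne hwi]

lemma forget_inj_QT {p : V → Vec k} (hp : GenPos p (WW A X i : Set V)) {v : V} (hv : v ∈ X)
    {x : Vec k} {Y : V → Vec k}
    (hY : Y ∈ QT (A \ X) X (E : Set (Sym2 V)) (Function.update p i x))
    (h0 : forget k i Y = 0) : Y = 0 := by
  have hYw : ∀ w, w ≠ i → Y w = 0 := fun w hw => by
    rw [← forget_apply_of_ne hw Y, h0]; rfl
  obtain ⟨F, hF⟩ := (mem_QT.mp hY).2 v hv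
  have hF0 : F = 0 := by
    refine (h.four hp hv).ext fun t ht => ?_
    have hti : t ≠ i := fun hc => h.i_notMem_nbr v (by rw [TT, hc] at ht; exact ht)
    have h1 := hF t (by
      rw [h.nbrU' hv]
      simp only [Finset.coe_insert, Set.mem_insert_iff, Finset.mem_coe]
      exact Or.inr ht)
    rw [Function.update_of_ne hti, hYw t hti] at h1
    rw [← h1]; rfl
  ext w : 1
  by_cases hwi : w = i
  · rw [hwi, hF i (by rw [h.nbrU' hv]; simp), hF0]; rfl
  · rw [hYw w hwi]; rfl

lemma finrank_map_forget {p : V → Vec k} (hp : GenPos p (WW A X i : Set V)) {v : V} (hv : v ∈ X)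
    {x : Vec k} {R : Submodule k (V → Vec k)}
    (hR : R ≤ QT (A \ X) X (E : Set (Sym2 V)) (Function.update p i x)) :
    finrank k (R.map (forget k i)) = finrank k R := by
  have hi : Function.Injective ((forget k i).domRestrict R) := by
    rw [← LinearMap.ker_eq_bot, LinearMap.ker_eq_bot']
    rintro ⟨Z, hZ⟩ h0
    exact Subtype.ext (h.forget_inj_QT hp hv (hR hZ) h0)
  have h1 := LinearMap.finrank_range_of_inj hi
  rwa [LinearMap.range_domRestrict] at h1

end LHyp

end GR
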