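import Pool.Agent.Lib.GR.LocA3

/-!
# The local data of a minimal counterexample
-/

set_option linter.unusedSectionVars false

namespace GR

open Filter Module

open scoped Matrix

variable {k : Type*} [Field k] [Infinite k] {V : Type*} [DecidableEq V]
  {A : Finset V} {E : Finset (Sym2 V)} {i : V} {X : Finset V}

/-- the dot product with a skew matrix -/
lemma mulVecLin_swap {L : Matrix (Fin 4) (Fin 4) k} (hL : L ∈ Skew k) (x y : Vec k) :
    L.mulVecLin x ⬝ᵥ y + L.mulVecLin y ⬝ᵥ x = 0 := by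
  rw [Matrix.mulVecLin_apply, Matrix.mulVecLin_apply, Skew.dot_eq hL]
  ring

/-- the local space in the gauge of `v` -/
noncomputable def KGau (A : Finset V) (E : Finset (Sym2 V)) (X : Finset V) (i v : V)
    (p : V → Vec k) : Submodule k (V → Vec k) :=
  Mot (WW A X i) (E : Set (Sym2 V)) p ⊓ SymK p (TT A E X i v)

/-- the velocities -/
noncomputable def zGau (A : Finset V) (E : Finset (Sym2 V)) (X : Finset V) (i v : V)
    (p : V → Vec k) (w : V) : KGau A E X i v p →ₗ[k] Vec k :=
  (LinearMap.proj w).comp (KGau A E X i v p).subtype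

/-- the linear maps -/
noncomputable def BGau (A : Finset V) (E : Finset (Sym2 V)) (X : Finset V) (i v : V)
    (p : V → Vec k) (u : V) : KGau A E X i v p →ₗ[k] Vec k →ₗ[k] Vec k :=
  (BT p (TT A E X i u)).comp (KGau A E X i v p).subtype

instance KGau_finiteDimensional (A : Finset V) (E : Finset (Sym2 V)) (X : Finset V) (i v : V)
    (p : V → Vec k) : FiniteDimensional k (KGau A E X i v p) :=
  Submodule.finiteDimensional_of_le inf_le_left

@[simp] lemma zGau_apply {v : V} {p : V → Vec k} (w : V) (Z : KGau A E X i v p) :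
    zGau A E X i v p w Z = Z.1 w := rfl

@[simp] lemma BGau_apply {v : V} {p : V → Vec k} (u : V) (Z : KGau A E X i v p) :
    BGau A E X i v p u Z = BT p (TT A E X i u) Z.1 := rfl

/-- `C_x` in the gauge -/
lemma map_CY {v : V} (p : V → Vec k) (x : Vec k) :
    (CY p X (TT A E X i i) v (zGau A E X i v p) (BGau A E X i v p) x).map
      (KGau A E X i v p).subtype
    = CW (WW A X i) (E : Set (Sym2 V)) p X (TT A E X i i) v (TT A E X i) x
      ⊓ SymK p (TT A E X i v) := by
  ext Z
  rw [Submodule.mem_map, Submodule.mem_inf, mem_CW]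
  constructor
  · rintro ⟨⟨Z, hZ⟩, h1, rfl⟩
    rw [mem_CY] at h1
    exact ⟨⟨hZ.1, h1⟩, hZ.2⟩
  · rintro ⟨⟨h1, h2⟩, h3⟩
    exact ⟨⟨Z, h1, h3⟩, mem_CY.mpr h2, rfl⟩

namespace LHyp

variable (h : LHyp k A E i X)

include h

lemma triv_mem_CW {p : V → Vec k} (hp : GenPos p (WW A X i : Set V)) {v : V} (hv : v ∈ X)
    (x : Vec k) {L : Matrix (Fin 4) (Fin 4) k} (hL : L ∈ Skew k) :
    triv (WW A X i) p L ∈ CW (WW A X i) (E : Set (Sym2 V)) p X (TT A E X i i) v
      (TT A E X i) x := by
  refine ⟨triv_mem_Mot _ _ _ hL, fun u hu => ?_, fun y hy => ?_, ?_⟩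
  · rw [BT_triv (h.four hp hu) (nbr_subset _ _ _), BT_triv (h.four hp hv) (nbr_subset _ _ _)]
  · rw [BT_triv (h.four hp hv) (nbr_subset _ _ _), triv_apply p L (nbr_subset _ _ _ hy)]
    exact mulVecLin_swap hL x (p y)
  · rw [BT_triv (h.four hp hv) (nbr_subset _ _ _)]
    exact isSkew_of_mem_Skew hL x

lemma genPosW {p : V → Vec k} (hp : Nice A p) : GenPos p (WW A X i : Set V) :=
  hp.gp.mono (by exact_mod_cast WW_subset)

lemma finrank_CW {p : V → Vec k} (hp : GenPos p (WW A X i : Set V)) {v : V} (hv : v ∈ X)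
    {x : Vec k} (hx : GoodQ A E X (Function.update p i x)) :
    finrank k (CW (WW A X i) (E : Set (Sym2 V)) p X (TT A E X i i) v (TT A E X i) x)
      = X.card + 7 := by
  have h1 := h.map_forget_QT hp hv x
  have h2 := h.finrank_map_forget hp hv (x := x) le_rfl
  rw [h1, hx.finrank_QT] at h2
  exact h2

lemma finrank_CY {p : V → Vec k} (hp : GenPos p (WW A X i : Set V)) {v : V} (hv : v ∈ X)
    {x : Vec k} (hx : GoodQ A E X (Function.update p i x)) :
    finrank k (CY p X (TT A E X i i) v (zGau A E X i v p) (BGau A E X i v p) x)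
      = X.card + 1 := by
  have h1 := Submodule.finrank_map_subtype_eq (KGau A E X i v p)
    (CY p X (TT A E X i i) v (zGau A E X i v p) (BGau A E X i v p) x)
  rw [map_CY] at h1
  have h2 := finrank_gauge h.ce.two (h.four hp hv) (nbr_subset _ _ _)
    (fun L hL => h.triv_mem_CW hp hv x hL)
  rw [h.finrank_CW hp hv hx] at h2
  omega

/-- the quadrics of `u` on `C_x`, no gauge -/
lemma two_quadW {p : V → Vec k} (hp : GenPos p (WW A X i : Set V)) {v : V} (hv : v ∈ X)
    {x : Vec k} (hx : GoodQ A E X (Function.update p i x)) {u : V} (hu : u ∈ X)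
    {S : Submodule k (V → Vec k)}
    (hS : S ≤ CW (WW A X i) (E : Set (Sym2 V)) p X (TT A E X i i) v (TT A E X i) x)
    (hq : ∀ Z ∈ S, IsSkew (BT p (TT A E X i u) Z)) :
    finrank k S + 2 ≤ X.card + 7 := by
  set q := Function.update p i x with hqdef
  -- lift `S` to `QT`
  let R := QT (A \ X) X (E : Set (Sym2 V)) q ⊓ S.comap (forget k i)
  have hRS : R.map (forget k i) = S := by
    ext Z
    constructor
    · rintro ⟨Y, hY, rfl⟩
      exact hY.2
    · intro hZ
      have h1 := hS hZ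
      rw [TT, ← h.map_forget_QT hp hv x] at h1
      obtain ⟨Y, hY, rfl⟩ := h1
      exact ⟨Y, ⟨hY, hZ⟩, rfl⟩
  have h1 := h.finrank_map_forget hp hv (x := x) (R := R) inf_le_left
  rw [hRS] at h1
  rw [h1]
  refine h.two_quadQ hx hu (R := R) inf_le_left ?_
  intro Y hY
  have hqi : q i = x := Function.update_self _ _ _
  obtain ⟨F, hF⟩ := (mem_QT.mp hY.1).2 u hu
  have e1 : BT p (TT A E X i u) (forget k i Y) = F := by
    refine BT_unique (h.four hp hu) fun t ht => ?_
    have hti : t ≠ i := fun hc => h.i_notMem_nbr u (by rw [TT, hc] at ht; exact ht)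
    rw [forget_apply_of_ne hti, hF t (by
      rw [h.nbrU' hu]
      simp only [Finset.coe_insert, Set.mem_insert_iff, Finset.mem_coe]
      exact Or.inr ht), hqdef, Function.update_of_ne hti]
  exact ⟨F, e1 ▸ hq _ hY.2, hF⟩

/-- no rigid triple on `C_x` -/
lemma pureW {p : V → Vec k} (hp : GenPos p (WW A X i : Set V)) {v : V} (hv : v ∈ X)
    {x : Vec k} (hx : GoodQ A E X (Function.update p i x)) {u : V} (hu : u ∈ X) {a b c : V}
    (ha : a ∈ TT A E X i u) (hb : b ∈ TT A E X i u) (hc : c ∈ TT A E X i u) (hab : a ≠ b)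
    (hac : a ≠ c) (hbc : b ≠ c) :
    ∃ Z ∈ CW (WW A X i) (E : Set (Sym2 V)) p X (TT A E X i i) v (TT A E X i) x,
      ¬ (eps p a b Z = 0 ∧ eps p a c Z = 0 ∧ eps p b c Z = 0) := by
  set q := Function.update p i x with hqdef
  have hin : ∀ t ∈ TT A E X i u, t ∈ nbr (A.erase u) (E : Set (Sym2 V)) u := fun t ht => by
    rw [← h.nbrU hu, h.nbrU' hu]
    exact Finset.mem_insert_of_mem ht
  have hti : ∀ t ∈ TT A E X i u, t ≠ i := fun t ht hc =>
    h.i_notMem_nbr u (by rw [TT, hc] at ht; exact ht)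
  obtain ⟨Y, hY, hn⟩ := PureA.exists_not_rigid h.ce (h.pure u hu) hx.nice (hin a ha) (hin b hb)
    (hin c hc) hab hac hbc
  rw [← h.union_erase hu] at hY
  have h1 : cut k (A \ X) Y ∈ QT (A \ X) X (E : Set (Sym2 V)) q :=
    hx.typ (hx.sub u hu (Submodule.mem_map_of_mem hY))
  have h2 : forget k i (cut k (A \ X) Y) ∈ CW (WW A X i) (E : Set (Sym2 V)) p X
      (TT A E X i i) v (TT A E X i) x := by
    rw [TT, ← h.map_forget_QT hp hv x]
    exact Submodule.mem_map_of_mem h1
  refine ⟨_, h2, ?_⟩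
  have hval : ∀ t ∈ TT A E X i u, forget k i (cut k (A \ X) Y) t = Y t := fun t ht => by
    rw [forget_apply_of_ne (hti t ht), cut_apply]
    exact Finset.mem_of_mem_erase (nbr_subset _ _ _ ht : t ∈ WW A X i)
  have hpt : ∀ t ∈ TT A E X i u, p t = q t := fun t ht => by
    rw [hqdef, Function.update_of_ne (hti t ht)]
  have heps : ∀ s ∈ TT A E X i u, ∀ t ∈ TT A E X i u,
      eps p s t (forget k i (cut k (A \ X) Y)) = eps q s t Y := fun s hs t ht => by
    rw [eps_apply, eps_apply, hval s hs, hval t ht, hpt s hs, hpt t ht]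
  rw [heps a ha b hb, heps a ha c hc, heps b hb c hc]
  exact hn

/-- decomposition into gauge and trivial motion -/
lemma exists_gauge_sub {p : V → Vec k} (hp : GenPos p (WW A X i : Set V)) {v : V} (hv : v ∈ X)
    (Z : V → Vec k) :
    ∃ L ∈ Skew k, Z - triv (WW A X i) p L ∈ SymK p (TT A E X i v) := by
  refine ⟨skp k (BT p (TT A E X i v) Z), skp_mem h.ce.two _, ?_⟩
  rw [mem_SymK, map_sub, BT_triv (h.four hp hv) (nbr_subset _ _ _), ← skp_eq_zero_iff h.ce.two,
    map_sub, skp_mulVecLin h.ce.two (skp_mem h.ce.two _), sub_self]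

end LHyp

end GR
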