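import Pool.Agent.Lib.GR.LocA4

/-!
# `Loc` from a minimal counterexample
-/

set_option linter.unusedSectionVars false

namespace GR

open Filter Module

open scoped Matrix

variable {k : Type*} [Field k] [Infinite k] {V : Type*} [DecidableEq V]
  {A : Finset V} {E : Finset (Sym2 V)} {i : V} {X : Finset V}

namespace LHyp

variable (h : LHyp k A E i X)

include h

lemma finrank_KGau {p : V → Vec k} (hp : Nice A p) {v : V} (hv : v ∈ X) :
    finrank k (KGau A E X i v p) + 3 = 2 * X.card + (TT A E X i i).card := by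
  have h1 := finrank_gauge h.ce.two (h.four (h.genPosW hp) hv) (nbr_subset _ _ _)
    (S := Mot (WW A X i) (E : Set (Sym2 V)) p) (fun L hL => triv_mem_Mot _ _ _ hL)
  have h2 : mdim (WW A X i) (E : Set (Sym2 V)) p = gdim k (WW A X i) (E : Set (Sym2 V)) :=
    hp.reg _ WW_subset _
  rw [mdim, h.gdim_WW] at h2
  rw [KGau, TT]
  rw [h2] at h1
  unfold TT at h1 ⊢
  omega

/-- (F0) -/
lemma injW {p : V → Vec k} (hp : Nice A p) {v : V} (hv : v ∈ X) {Z : V → Vec k}
    (hZ : Z ∈ Mot (WW A X i) (E : Set (Sym2 V)) p)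
    (hT : ∀ u ∈ X, ∀ t ∈ TT A E X i u, Z t = 0) (hO : ∀ y ∈ TT A E X i i, Z y = 0) : Z = 0 := by
  have hWv : WW A X i ⊆ A.erase v := fun w hw =>
    Finset.mem_erase.mpr ⟨by rintro rfl; exact (mem_WW.mp hw).2.2 hv, (mem_WW.mp hw).2.1⟩
  -- `Z` is a motion of `A - v`
  have hM : Z ∈ Mot (A.erase v) (E : Set (Sym2 V)) p := by
    refine ⟨fun w hw => hZ.1 w fun hc => hw (hWv hc), fun w hw => ?_, fun a ha b hb hab => ?_⟩
    · by_cases hwW : w ∈ WW A X i
      · exact hZ.2.1 w hwW
      · rw [hZ.1 w hwW, zero_dotProduct]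
    · -- an endpoint outside `W` forces the other value to vanish
      have key : ∀ a b, b ∈ A → s(a, b) ∈ (E : Set (Sym2 V)) → a ∉ WW A X i → a ∈ A →
          Z b = 0 := by
        intro a b hb hab haW haA
        by_cases hbW : b ∈ WW A X i
        · by_cases hai : a = i
          · subst hai
            exact hO b (mem_nbr.mpr ⟨hbW, hab⟩)
          · have haX : a ∈ X := by
              by_contra haX
              exact haW (mem_WW.mpr ⟨hai, haA, haX⟩)
            exact hT a haX b (mem_nbr.mpr ⟨hbW, hab⟩)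
        · exact hZ.1 b hbW
      rw [eps_apply]
      by_cases haW : a ∈ WW A X i
      · by_cases hbW : b ∈ WW A X i
        · exact hZ.2.2 a haW b hbW hab
        · rw [key b a (Finset.mem_of_mem_erase ha) (by rw [Sym2.eq_swap]; exact hab) hbW
            (Finset.mem_of_mem_erase hb), hZ.1 b hbW]
          simp
      · rw [key a b (Finset.mem_of_mem_erase hb) hab haW (Finset.mem_of_mem_erase ha),
          hZ.1 a haW]
        simp
  have hR : Z ∈ RG p (nbr (A.erase v) (E : Set (Sym2 V)) v : Set V) := by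
    refine ⟨0, IsSkew.zero, fun w hw => ?_⟩
    rw [← h.nbrU hv, h.nbrU' hv] at hw
    simp only [Finset.coe_insert, Set.mem_insert_iff, Finset.mem_coe] at hw
    rcases hw with rfl | hw
    · rw [hZ.1 _ h.i_notMem]; rfl
    · rw [hT v hv w hw]; rfl
  -- trivial motions
  have h6 := h.ce.finrank_inf_RG hp (h.subA hv)
  set T6 : Submodule k (V → Vec k) := (Skew k).map (triv (A.erase v) p) with hT6
  have hle : T6 ≤ Mot (A.erase v) (E : Set (Sym2 V)) p
      ⊓ RG p (nbr (A.erase v) (E : Set (Sym2 V)) v : Set V) := by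
    rintro _ ⟨L, hL, rfl⟩
    refine ⟨triv_mem_Mot _ _ _ hL, L.mulVecLin, isSkew_of_mem_Skew hL, fun w hw => ?_⟩
    rw [triv_apply p L (nbr_subset _ _ _ (by exact_mod_cast hw)), Matrix.mulVecLin_apply]
  have hF : Four p (TT A E X i v) := h.four (h.genPosW hp) hv
  have hTv : TT A E X i v ⊆ A.erase v := (nbr_subset _ _ _).trans hWv
  have hinj : ∀ L ∈ Skew k, (∀ t ∈ TT A E X i v, triv (A.erase v) p L t = 0) → L = 0 := by
    intro L hL h0
    have h1 : L.mulVecLin = 0 := by
      refine hF.ext fun t ht => ?_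
      have := h0 t ht
      rw [triv_apply p L (hTv ht)] at this
      rw [Matrix.mulVecLin_apply, this]; rfl
    have h2 := skp_mulVecLin h.ce.two hL
    rw [h1, map_zero] at h2
    exact h2.symm
  have h7 : finrank k T6 = 6 := by
    rw [← finrank_Skew (k := k)]
    let f : Skew k →ₗ[k] T6 :=
      ((triv (A.erase v) p).domRestrict (Skew k)).codRestrict _ (fun L => ⟨L.1, L.2, rfl⟩)
    have hf : Function.Bijective f := by
      constructor
      · rw [← LinearMap.ker_eq_bot, LinearMap.ker_eq_bot']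
        intro L hL
        have h0 : triv (A.erase v) p L.1 = 0 := congrArg Subtype.val hL
        exact Subtype.ext (hinj L.1 L.2 fun t _ => by rw [h0]; rfl)
      · rintro ⟨_, L, hL, rfl⟩
        exact ⟨⟨L, hL⟩, rfl⟩
    exact (LinearEquiv.ofBijective f hf).finrank_eq.symm
  have hfd : FiniteDimensional k (Mot (A.erase v) (E : Set (Sym2 V)) p
      ⊓ RG p (nbr (A.erase v) (E : Set (Sym2 V)) v : Set V) : Submodule k (V → Vec k)) :=
    Submodule.finiteDimensional_of_le inf_le_left
  have heq := Submodule.eq_of_le_of_finrank_le hle (by omega)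
  have hZ6 : Z ∈ T6 := by rw [heq]; exact ⟨hM, hR⟩
  obtain ⟨L, hL, rfl⟩ := hZ6
  have hL0 : L = 0 := hinj L hL fun t ht => hT v hv t ht
  rw [hL0, map_zero]

/-- **`Loc` from a minimal counterexample.** -/
theorem eventually_loc {v : V} (hv : v ∈ X) : ∀ᶠ p in gen k (V → Vec k),
    finrank k (KGau A E X i v p) + 3 = 2 * X.card + (TT A E X i i).card ∧
    Loc p X (TT A E X i i) (WW A X i) (TT A E X i) v (zGau A E X i v p) (BGau A E X i v p)
      X.card := by
  have hX : X.Nonempty := ⟨v, hv⟩
  have hvW : v ∉ WW A X i := fun hc => (mem_WW.mp hc).2.2 hv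
  have hiv : insert v (WW A X i) ⊂ A := by
    refine ⟨?_, fun hc => ?_⟩
    · intro w hw
      rcases Finset.mem_insert.mp hw with rfl | hw
      · exact h.subA hv
      · exact WW_subset hw
    · rcases Finset.mem_insert.mp (hc h.hi) with h1 | h1
      · exact h.iX (h1 ▸ hv)
      · exact h.i_notMem h1
  have hCP : ∀ᶠ p in gen k (V → Vec k), CliqueProp (insert v (WW A X i)) p :=
    h.ce.eventually_cliqueProp hiv
  filter_upwards [eventually_nice (k := k) A, eventually_update (h.eventually_goodQ hX) i,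
    factR_set hvW h.ce.two hCP, eventually_quad (V := V) h.ce.two (WW A X i),
    eventually_quadY (V := V) h.ce.two (WW A X i)] with p hp hgood hfact hq hqY
  have hgp : GenPos p (WW A X i : Set V) := h.genPosW hp
  -- two quadrics
  have htwo : ∀ᶠ y in gen k (Vec k), ∀ u ∈ X,
      ∀ S ≤ CY p X (TT A E X i i) v (zGau A E X i v p) (BGau A E X i v p) y,
      (∀ Z ∈ S, ∀ x, BGau A E X i v p u Z x ⬝ᵥ x = 0) → finrank k S + 2 ≤ X.card + 1 := by
    filter_upwards [hgood] with x hx u hu S hS hS0
    set S' : Submodule k (V → Vec k) := S.map (KGau A E X i v p).subtype with hS'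
    set T6 : Submodule k (V → Vec k) := (Skew k).map (triv (WW A X i) p) with hT6
    have hS'C : S' ≤ CW (WW A X i) (E : Set (Sym2 V)) p X (TT A E X i i) v (TT A E X i) x
        ⊓ SymK p (TT A E X i v) := by
      rw [← map_CY]
      exact Submodule.map_mono hS
    have hT6C : T6 ≤ CW (WW A X i) (E : Set (Sym2 V)) p X (TT A E X i i) v (TT A E X i) x := by
      rintro _ ⟨L, hL, rfl⟩
      exact h.triv_mem_CW hgp hv x hL
    have hfd : FiniteDimensional k (S' ⊔ T6 : Submodule k (V → Vec k)) :=
      Submodule.finiteDimensional_of_le (sup_le (hS'C.trans inf_le_left) hT6C)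
    have h1 := finrank_gauge h.ce.two (h.four hgp hv) (nbr_subset _ _ _) (S := S' ⊔ T6)
      (fun L hL => Submodule.mem_sup_right ⟨L, hL, rfl⟩)
    have h2 : finrank k S' ≤ finrank k ((S' ⊔ T6) ⊓ SymK p (TT A E X i v) :
        Submodule k (V → Vec k)) := by
      have : FiniteDimensional k ((S' ⊔ T6) ⊓ SymK p (TT A E X i v) :
        Submodule k (V → Vec k)) := Submodule.finiteDimensional_of_le inf_le_left
      exact Submodule.finrank_mono (le_inf le_sup_left (hS'C.trans inf_le_right))
    have h3 := h.two_quadW hgp hv hx hu (S := S' ⊔ T6)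
      (sup_le (hS'C.trans inf_le_left) hT6C) (by
        intro Z hZ
        obtain ⟨Z1, hZ1, Z2, hZ2, rfl⟩ := Submodule.mem_sup.mp hZ
        obtain ⟨Z1', hZ1', rfl⟩ := hZ1
        obtain ⟨L, hL, rfl⟩ := hZ2
        rw [map_add]
        refine IsSkew.add (fun y => hS0 Z1' hZ1' y) ?_
        rw [BT_triv (h.four hgp hu) (nbr_subset _ _ _)]
        exact isSkew_of_mem_Skew hL)
    have h4 : finrank k S' = finrank k S := Submodule.finrank_map_subtype_eq _ _
    omega
  -- decomposition of motions
  have hdec : ∀ Z ∈ Mot (WW A X i) (E : Set (Sym2 V)) p, ∃ Z' : KGau A E X i v p,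
      ∃ L ∈ Skew k, Z = Z'.1 + triv (WW A X i) p L := by
    intro Z hZ
    obtain ⟨L, hL, hL'⟩ := h.exists_gauge_sub hgp hv Z
    exact ⟨⟨Z - triv (WW A X i) p L, Submodule.sub_mem _ hZ (triv_mem_Mot _ _ _ hL), hL'⟩, L, hL,
      by simp⟩
  refine ⟨h.finrank_KGau hp hv, ?_⟩
  refine
    { two := h.ce.two
      hv := hv
      cardX := rfl
      cardT := fun u hu => h.cardT hu
      subT := fun u _ => nbr_subset _ _ _
      subO := nbr_subset _ _ _
      gp := hgp
      eqB := fun u hu t ht Z => BT_apply (h.four hgp hu) Z.1 ht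
      loop := fun w hw Z => Z.2.1.2.1 w hw
      symm := fun Z => Z.2.2
      inj := ?_
      dimC := ?_
      two_quad := htwo
      clone := ?_
      pure := ?_
      quad := hq
      quadY := hqY }
  · intro Z hB hO
    apply Subtype.ext
    refine h.injW hp hv Z.2.1 (fun u hu t ht => ?_) hO
    rw [← BT_apply (h.four hgp hu) Z.1 ht]
    have := hB u hu
    rw [BGau_apply] at this
    rw [this]; rfl
  · filter_upwards [hgood] with x hx
    exact h.finrank_CY hgp hv hx
  · intro u hu u' hu' hBB
    by_contra hne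
    -- another point of `T u'`
    obtain ⟨t', ht', ht'u⟩ : ∃ t' ∈ TT A E X i u', t' ∉ TT A E X i u := by
      by_contra hcon
      push Not at hcon
      exact hne (Finset.eq_of_subset_of_card_le hcon (by
        have h1 : (TT A E X i u).card = 4 := h.cardT hu
        have h2 : (TT A E X i u').card = 4 := h.cardT hu'
        omega)).symm
    set J := insert t' (TT A E X i u) with hJ
    have hJ5 : J.card = 5 := by
      rw [hJ, Finset.card_insert_of_notMem ht'u]
      have : (TT A E X i u).card = 4 := h.cardT hu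
      omega
    have hJW : J ⊆ WW A X i := by
      intro w hw
      rcases Finset.mem_insert.mp hw with rfl | hw
      · exact nbr_subset _ _ _ ht'
      · exact nbr_subset _ _ _ hw
    have hJA : Mot (WW A X i) (E : Set (Sym2 V)) p ≤ TA p (J : Set V) := by
      intro Z hZ
      obtain ⟨Z', L, hL, rfl⟩ := hdec Z hZ
      refine ⟨BT p (TT A E X i u) Z'.1 + L.mulVecLin, fun w hw => ?_⟩
      have hwW : w ∈ WW A X i := hJW (by exact_mod_cast hw)
      rw [Pi.add_apply, triv_apply p L hwW, LinearMap.add_apply, Matrix.mulVecLin_apply]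
      congr 1
      rcases Finset.mem_insert.mp (by exact_mod_cast hw : w ∈ J) with rfl | hw
      · have e := hBB Z'
        rw [BGau_apply, BGau_apply] at e
        rw [e, BT_apply (h.four hgp hu') Z'.1 ht']
      · rw [BT_apply (h.four hgp hu) Z'.1 hw]
    -- a good `x`
    obtain ⟨x, hx⟩ := hgood.exists
    have hCW := h.finrank_CW hgp hv hx
    have hskew : ∀ Z, Z ∈ RG p (J : Set V) → IsSkew (BT p (TT A E X i u) Z) := by
      rintro Z ⟨S, hS, hSZ⟩
      have e : BT p (TT A E X i u) Z = S := BT_unique (h.four hgp hu) fun t ht =>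
        (hSZ t (by exact_mod_cast Finset.mem_insert_of_mem ht)).symm
      rwa [e]
    have hCM : CW (WW A X i) (E : Set (Sym2 V)) p X (TT A E X i i) v (TT A E X i) x
        ≤ Mot (WW A X i) (E : Set (Sym2 V)) p := fun _ hZ => hZ.1
    rcases hfact (E : Set (Sym2 V)) J hJW hJ5 (Eventually.of_forall fun x =>
      finrank_le_of_TA hJA x) with h1 | ⟨j, hj, h1⟩
    · have h3 := finrank_le_of_le_codim hCM h1
      have h4 := h.two_quadW hgp hv hx hu (S := CW (WW A X i) (E : Set (Sym2 V)) p X
        (TT A E X i i) v (TT A E X i) x ⊓ RG p (J : Set V)) inf_le_left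
        (fun Z hZ => hskew Z hZ.2)
      omega
    · have h4 := h.two_quadW hgp hv hx hu (S := CW (WW A X i) (E : Set (Sym2 V)) p X
        (TT A E X i i) v (TT A E X i) x) le_rfl
        (fun Z hZ => hskew Z (mem_RG_of_TA_of_four
          (hgp.mono (by exact_mod_cast hJW)) hJ5.ge (hJA (hCM hZ)) (h1 (hCM hZ))))
      omega
  · filter_upwards [hgood] with x hx u hu a ha b hb c hc hab hac hbc
    obtain ⟨Z, hZ, hn⟩ := h.pureW hgp hv hx hu ha hb hc hab hac hbc
    obtain ⟨L, hL, hL'⟩ := h.exists_gauge_sub hgp hv Z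
    have hZC : Z - triv (WW A X i) p L ∈
        CW (WW A X i) (E : Set (Sym2 V)) p X (TT A E X i i) v (TT A E X i) x :=
      Submodule.sub_mem _ hZ (h.triv_mem_CW hgp hv x hL)
    have hmem : Z - triv (WW A X i) p L ∈
        (CY p X (TT A E X i i) v (zGau A E X i v p) (BGau A E X i v p) x).map
          (KGau A E X i v p).subtype := by
      rw [map_CY]
      exact ⟨hZC, hL'⟩
    obtain ⟨Y, hY, hYe⟩ := hmem
    refine ⟨Y, hY, fun hr => hn ?_⟩
    have hsub : ∀ t ∈ TT A E X i u, t ∈ WW A X i := fun t ht => nbr_subset _ _ _ ht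
    have key : ∀ s ∈ TT A E X i u, ∀ t ∈ TT A E X i u,
        eps p s t Z = zGau A E X i v p s Y ⬝ᵥ p t + zGau A E X i v p t Y ⬝ᵥ p s := by
      intro s hs t ht
      have e1 : Y.1 = Z - triv (WW A X i) p L := hYe
      have e2 : eps p s t (Z - triv (WW A X i) p L) = eps p s t Z := by
        rw [map_sub, eps_triv p hL (hsub s hs) (hsub t ht), sub_zero]
      rw [← e2, ← e1]
      rfl
    rw [key a ha b hb, key a ha c hc, key b hb c hc]
    exact hr

end LHyp

end GR
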