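import Pool.Agent.Lib.GR.LocDefs
import Pool.Agent.Lib.GR.MainTypes

/-!
# The linear map with prescribed values at four points, and the gauge
-/

set_option linter.unusedSectionVars false

namespace GR

open Filter Module

open scoped Matrix

variable {k : Type*} [Field k] {V : Type*}

open Classical in
/-- the linear map `F` with `F (p t) = Z t` for `t ∈ T` (four independent points) -/
noncomputable def BT (p : V → Vec k) (T : Finset V) : (V → Vec k) →ₗ[k] Vec k →ₗ[k] Vec k :=
  if h : LinearIndependent k (fun t : T => p t) ∧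
      ⊤ ≤ Submodule.span k (Set.range fun t : T => p t) then
    (((Basis.mk h.1 h.2).constr k (M' := Vec k)).toLinearMap).comp
      (LinearMap.funLeft k (Vec k) (Subtype.val : T → V))
  else 0

/-- four independent points -/
structure Four (p : V → Vec k) (T : Finset V) : Prop where
  li : LinearIndependent k (fun t : T => p t)
  span : ⊤ ≤ Submodule.span k (Set.range fun t : T => p t)

lemma GenPos.toFour {p : V → Vec k} {Q T : Finset V} (h : GenPos p (Q : Set V)) (hT : T ⊆ Q)
    (h4 : T.card = 4) : Four p T := by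
  have h1 := h T (by exact_mod_cast hT) h4.le
  refine ⟨h1, ?_⟩
  rw [h1.span_eq_top_of_card_eq_finrank' (by simp [h4])]

lemma BT_apply {p : V → Vec k} {T : Finset V} (h : Four p T) (Z : V → Vec k) {t : V}
    (ht : t ∈ T) : BT p T Z (p t) = Z t := by
  classical
  have h' : LinearIndependent k (fun t : T => p t) ∧
      ⊤ ≤ Submodule.span k (Set.range fun t : T => p t) := ⟨h.li, h.span⟩
  rw [BT, dif_pos h']
  simp only [LinearMap.comp_apply, LinearEquiv.coe_coe]
  have e : p t = (Basis.mk h'.1 h'.2) ⟨t, ht⟩ := by rw [Basis.mk_apply]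
  rw [e, Basis.constr_basis]
  rfl

lemma Four.ext {p : V → Vec k} {T : Finset V} (h : Four p T) {F G : Vec k →ₗ[k] Vec k}
    (hFG : ∀ t ∈ T, F (p t) = G (p t)) : F = G := by
  apply LinearMap.ext_on (top_le_iff.mp h.span)
  rintro _ ⟨t, rfl⟩
  exact hFG t t.2

lemma BT_unique {p : V → Vec k} {T : Finset V} (h : Four p T) {Z : V → Vec k}
    {F : Vec k →ₗ[k] Vec k} (hF : ∀ t ∈ T, F (p t) = Z t) : BT p T Z = F :=
  h.ext fun t ht => by rw [BT_apply h Z ht, hF t ht]

lemma Four.congr {p q : V → Vec k} {T : Finset V} (h : Four p T) (hpq : ∀ t ∈ T, p t = q t) :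
    Four q T := by
  have e : (fun t : T => p t) = fun t : T => q t := by
    funext t
    exact hpq t t.2
  exact ⟨e ▸ h.li, e ▸ h.span⟩

lemma BT_congr {p q : V → Vec k} {T : Finset V} (h : Four p T) (hpq : ∀ t ∈ T, p t = q t) :
    BT p T = BT q T := by
  ext1 Z
  exact BT_unique h fun t ht => by rw [hpq t ht, BT_apply (h.congr hpq) Z ht]

lemma BT_congr_Z {p : V → Vec k} {T : Finset V} (h : Four p T) {Z Z' : V → Vec k}
    (hZ : ∀ t ∈ T, Z t = Z' t) : BT p T Z = BT p T Z' :=
  BT_unique h fun t ht => by rw [BT_apply h Z' ht, hZ t ht]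

/-- the skew part of a linear map, as a matrix -/
noncomputable def skp (k : Type*) [Field k] :
    (Vec k →ₗ[k] Vec k) →ₗ[k] Matrix (Fin 4) (Fin 4) k where
  toFun F := (2 : k)⁻¹ • (LinearMap.toMatrix' F - (LinearMap.toMatrix' F)ᵀ)
  map_add' F G := by
    rw [map_add, Matrix.transpose_add]
    module
  map_smul' c F := by
    rw [map_smul, Matrix.transpose_smul, RingHom.id_apply]
    module

lemma skp_apply (F : Vec k →ₗ[k] Vec k) :
    skp k F = (2 : k)⁻¹ • (LinearMap.toMatrix' F - (LinearMap.toMatrix' F)ᵀ) := rfl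

lemma dot_toMatrix' (F : Vec k →ₗ[k] Vec k) (x y : Vec k) :
    F x ⬝ᵥ y = (LinearMap.toMatrix' F *ᵥ x) ⬝ᵥ y := by
  rw [LinearMap.toMatrix'_mulVec]

lemma skp_mem (h2 : (2 : k) ≠ 0) (F : Vec k →ₗ[k] Vec k) : skp k F ∈ Skew k := by
  apply Skew.mem_of_transpose h2
  rw [skp_apply, Matrix.transpose_smul, Matrix.transpose_sub, Matrix.transpose_transpose]
  module

lemma skp_eq_zero_iff (h2 : (2 : k) ≠ 0) (F : Vec k →ₗ[k] Vec k) :
    skp k F = 0 ↔ F ∈ SymSub k := by
  rw [skp_apply, smul_eq_zero, inv_eq_zero, or_iff_right h2, sub_eq_zero]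
  constructor
  · intro h x y
    rw [dot_toMatrix', dot_toMatrix', dotProduct_comm (LinearMap.toMatrix' F *ᵥ y),
      Matrix.dotProduct_mulVec, ← Matrix.mulVec_transpose, ← h]
  · intro h
    ext i j
    rw [Matrix.transpose_apply, LinearMap.toMatrix'_apply, LinearMap.toMatrix'_apply]
    have h1 := h (Pi.single j 1) (Pi.single i 1)
    simp only [dotProduct_single, mul_one] at h1
    exact h1

lemma skp_mulVecLin (h2 : (2 : k) ≠ 0) {L : Matrix (Fin 4) (Fin 4) k} (hL : L ∈ Skew k) :
    skp k L.mulVecLin = L := by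
  rw [skp_apply, ← Matrix.toLin'_apply', LinearMap.toMatrix'_toLin']
  have e : Lᵀ = - L := by
    ext i j
    exact hL.2 j i
  rw [e, sub_neg_eq_add, ← two_smul k L, smul_smul, inv_mul_cancel₀ h2, one_smul]

/-- the motions in the gauge of `T` -/
noncomputable def SymK (p : V → Vec k) (T : Finset V) : Submodule k (V → Vec k) := (SymSub k).comap (BT p T)

lemma mem_SymK {p : V → Vec k} {T : Finset V} {Z : V → Vec k} :
    Z ∈ SymK p T ↔ BT p T Z ∈ SymSub k := Iff.rfl

lemma BT_triv {p : V → Vec k} {T W : Finset V} (h : Four p T) (hT : T ⊆ W)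
    (L : Matrix (Fin 4) (Fin 4) k) : BT p T (triv W p L) = L.mulVecLin :=
  BT_unique h fun t ht => by rw [triv_apply p L (hT ht), Matrix.mulVecLin_apply]

/-- **The gauge.** -/
lemma finrank_gauge (h2 : (2 : k) ≠ 0) {p : V → Vec k} {T W : Finset V} (h : Four p T)
    (hT : T ⊆ W) {S : Submodule k (V → Vec k)} [FiniteDimensional k S]
    (hS : ∀ L ∈ Skew k, triv W p L ∈ S) :
    finrank k S = finrank k (S ⊓ SymK p T : Submodule k (V → Vec k)) + 6 := by
  let f : S →ₗ[k] Skew k := ((skp k).comp ((BT p T).comp S.subtype)).codRestrict (Skew k)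
    fun Z => skp_mem h2 _
  have h1 := LinearMap.finrank_range_add_finrank_ker f
  have hr : LinearMap.range f = ⊤ := by
    rw [LinearMap.range_eq_top]
    rintro ⟨L, hL⟩
    refine ⟨⟨triv W p L, hS L hL⟩, Subtype.ext ?_⟩
    show skp k (BT p T (triv W p L)) = L
    rw [BT_triv h hT, skp_mulVecLin h2 hL]
  rw [hr, finrank_top, finrank_Skew] at h1
  have e : (LinearMap.ker f).map S.subtype = S ⊓ SymK p T := by
    ext Z
    rw [Submodule.mem_map, Submodule.mem_inf, mem_SymK, ← skp_eq_zero_iff h2]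
    constructor
    · rintro ⟨⟨Z, hZ⟩, h3, rfl⟩
      exact ⟨hZ, congrArg Subtype.val (LinearMap.mem_ker.mp h3)⟩
    · rintro ⟨h3, h4⟩
      exact ⟨⟨Z, h3⟩, LinearMap.mem_ker.mpr (Subtype.ext h4), rfl⟩
  have h3 : finrank k ((LinearMap.ker f).map S.subtype) = finrank k (LinearMap.ker f) :=
    Submodule.finrank_map_subtype_eq S _
  rw [← e, h3]
  omega

end GR
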