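import Pool.Agent.Lib.GR.BRank
import Pool.Agent.Lib.GR.QuadP
import Pool.Agent.Lib.GR.MinCE

/-!
# Local data at a vertex `i` with a set `X` of type A neighbours

`K` : the motions of `Γ = G - X - i`, normalised such that `B v` is symmetric.
`z w Z` : the velocity of `w` in the motion `Z`.
`T u = N(u) - i` (four points), `O` = the other neighbours of `i`.
`B u Z` : the linear map with `B u Z (p t) = z t Z` for `t ∈ T u`.

TARGET (helper10): with `[FiniteDimensional k K]`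
theorem Loc.false_of_five (h : Loc p X O Q T v z B 5) (hK : finrank k K = 9) (hO : O.card = 2)
    (hne : ∃ u ∈ X, ∃ u' ∈ X, T u ≠ T u') : False
-/

set_option linter.unusedSectionVars false

namespace GR

open Filter Module

open scoped Matrix

variable {k : Type*} [Field k] {V : Type*}
  {K : Type*} [AddCommGroup K] [Module k K]

/-- The motions to which `i` at `y` can be attached, moving with all the forms `B u` and rigidly
with the points of `O`. -/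
def CY (p : V → Vec k) (X O : Finset V) (v : V) (z : V → K →ₗ[k] Vec k)
    (B : V → K →ₗ[k] Vec k →ₗ[k] Vec k) (y : Vec k) : Submodule k K where
  carrier := {Z | (∀ u ∈ X, B u Z y = B v Z y) ∧
    (∀ x ∈ O, B v Z y ⬝ᵥ p x + z x Z ⬝ᵥ y = 0) ∧ B v Z y ⬝ᵥ y = 0}
  add_mem' := by
    rintro Z Z' ⟨h1, h2, h3⟩ ⟨h1', h2', h3'⟩
    refine ⟨fun u hu => by simp [h1 u hu, h1' u hu], fun x hx => ?_, ?_⟩
    · have e1 := h2 x hx
      have e2 := h2' x hx
      simp only [map_add, LinearMap.add_apply, add_dotProduct]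
      linear_combination e1 + e2
    · simp [add_dotProduct, h3, h3']
  zero_mem' := ⟨fun u _ => by simp, fun x _ => by simp, by simp⟩
  smul_mem' := by
    rintro c Z ⟨h1, h2, h3⟩
    refine ⟨fun u hu => by simp [h1 u hu], fun x hx => ?_, ?_⟩
    · have e1 := h2 x hx
      simp only [map_smul, LinearMap.smul_apply, smul_dotProduct, smul_eq_mul]
      linear_combination c * e1
    · simp [smul_dotProduct, h3]

/-- The same without the condition at `y` itself. -/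
def KY (p : V → Vec k) (X O : Finset V) (v : V) (z : V → K →ₗ[k] Vec k)
    (B : V → K →ₗ[k] Vec k →ₗ[k] Vec k) (y : Vec k) : Submodule k K where
  carrier := {Z | (∀ u ∈ X, B u Z y = B v Z y) ∧
    (∀ x ∈ O, B v Z y ⬝ᵥ p x + z x Z ⬝ᵥ y = 0)}
  add_mem' := by
    rintro Z Z' ⟨h1, h2⟩ ⟨h1', h2'⟩
    refine ⟨fun u hu => by simp [h1 u hu, h1' u hu], fun x hx => ?_⟩
    · have e1 := h2 x hx
      have e2 := h2' x hx
      simp only [map_add, LinearMap.add_apply, add_dotProduct]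
      linear_combination e1 + e2
  zero_mem' := ⟨fun u _ => by simp, fun x _ => by simp⟩
  smul_mem' := by
    rintro c Z ⟨h1, h2⟩
    refine ⟨fun u hu => by simp [h1 u hu], fun x hx => ?_⟩
    · have e1 := h2 x hx
      simp only [map_smul, LinearMap.smul_apply, smul_dotProduct, smul_eq_mul]
      linear_combination c * e1

lemma mem_CY {p : V → Vec k} {X O : Finset V} {v : V} {z : V → K →ₗ[k] Vec k}
    {B : V → K →ₗ[k] Vec k →ₗ[k] Vec k} {y : Vec k} {Z : K} :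
    Z ∈ CY p X O v z B y ↔ (∀ u ∈ X, B u Z y = B v Z y) ∧
      (∀ x ∈ O, B v Z y ⬝ᵥ p x + z x Z ⬝ᵥ y = 0) ∧ B v Z y ⬝ᵥ y = 0 := Iff.rfl

lemma mem_KY {p : V → Vec k} {X O : Finset V} {v : V} {z : V → K →ₗ[k] Vec k}
    {B : V → K →ₗ[k] Vec k →ₗ[k] Vec k} {y : Vec k} {Z : K} :
    Z ∈ KY p X O v z B y ↔ (∀ u ∈ X, B u Z y = B v Z y) ∧
      (∀ x ∈ O, B v Z y ⬝ᵥ p x + z x Z ⬝ᵥ y = 0) := Iff.rfl

/-- **Local data** at a vertex `i`. -/
structure Loc [Infinite k] [DecidableEq V] (p : V → Vec k) (X O Q : Finset V) (T : V → Finset V) (v : V)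
    (z : V → K →ₗ[k] Vec k) (B : V → K →ₗ[k] Vec k →ₗ[k] Vec k) (m : ℕ) : Prop where
  two : (2 : k) ≠ 0
  hv : v ∈ X
  cardX : X.card = m
  cardT : ∀ u ∈ X, (T u).card = 4
  subT : ∀ u ∈ X, T u ⊆ Q
  subO : O ⊆ Q
  gp : GenPos p (Q : Set V)
  eqB : ∀ u ∈ X, ∀ t ∈ T u, ∀ Z, B u Z (p t) = z t Z
  loop : ∀ w ∈ Q, ∀ Z, z w Z ⬝ᵥ p w = 0
  symm : ∀ Z, B v Z ∈ SymSub k
  /-- (F0) -/
  inj : ∀ Z, (∀ u ∈ X, B u Z = 0) → (∀ x ∈ O, z x Z = 0) → Z = 0
  /-- (F) -/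
  dimC : ∀ᶠ y in gen k (Vec k), finrank k (CY p X O v z B y) = m + 1
  /-- (F1) : the quadrics of `u` form a space of dimension at least two on `C_y` -/
  two_quad : ∀ᶠ y in gen k (Vec k), ∀ u ∈ X, ∀ S ≤ CY p X O v z B y,
    (∀ Z ∈ S, ∀ x, B u Z x ⬝ᵥ x = 0) → finrank k S + 2 ≤ m + 1
  /-- (F2) -/
  clone : ∀ u ∈ X, ∀ u' ∈ X, (∀ Z, B u Z = B u' Z) → T u = T u'
  /-- (F4), purity: no rigid triple -/
  pure : ∀ᶠ y in gen k (Vec k), ∀ u ∈ X, ∀ a ∈ T u, ∀ b ∈ T u, ∀ c ∈ T u, a ≠ b → a ≠ c → b ≠ c →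
    ∃ Z ∈ CY p X O v z B y, ¬ (z a Z ⬝ᵥ p b + z b Z ⬝ᵥ p a = 0 ∧
      z a Z ⬝ᵥ p c + z c Z ⬝ᵥ p a = 0 ∧ z b Z ⬝ᵥ p c + z c Z ⬝ᵥ p b = 0)
  quad : ∀ P ⊆ Q, finrank k (VanAt (SymSub k) p P) ≤ 10 - P.card
  quadY : ∀ y ∈ Q, ∀ P ⊆ Q, y ∉ P → finrank k (VanAt (SymKer k (p y)) p P) ≤ 6 - P.card

end GR
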