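import Pool.Agent.Lib.GR.LocDefs

/-!
# The abstract end game for a vertex of degree seven: statements

`NR` : the motions on which all the `B u` agree and `O` moves rigidly with them.
-/

set_option linter.unusedSectionVars false

namespace GR

open Filter Module

open scoped Matrix

variable {k : Type*} [Field k] {V : Type*}
  {K : Type*} [AddCommGroup K] [Module k K]

/-- The common kernel of all the conditions. -/
def NR (p : V → Vec k) (X O : Finset V) (v : V) (z : V → K →ₗ[k] Vec k)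
    (B : V → K →ₗ[k] Vec k →ₗ[k] Vec k) : Submodule k K where
  carrier := {Z | (∀ u ∈ X, B u Z = B v Z) ∧
    (∀ x ∈ O, ∀ y, B v Z y ⬝ᵥ p x + z x Z ⬝ᵥ y = 0)}
  add_mem' := by
    rintro Z Z' ⟨h1, h2⟩ ⟨h1', h2'⟩
    refine ⟨fun u hu => by simp [h1 u hu, h1' u hu], fun x hx y => ?_⟩
    have e1 := h2 x hx y
    have e2 := h2' x hx y
    simp only [map_add, LinearMap.add_apply, add_dotProduct]
    linear_combination e1 + e2
  zero_mem' := ⟨fun u _ => by simp, fun x _ y => by simp⟩
  smul_mem' := by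
    rintro c Z ⟨h1, h2⟩
    refine ⟨fun u hu => by simp [h1 u hu], fun x hx y => ?_⟩
    have e1 := h2 x hx y
    simp only [map_smul, LinearMap.smul_apply, smul_dotProduct, smul_eq_mul]
    linear_combination c * e1

lemma mem_NR {p : V → Vec k} {X O : Finset V} {v : V} {z : V → K →ₗ[k] Vec k}
    {B : V → K →ₗ[k] Vec k →ₗ[k] Vec k} {Z : K} :
    Z ∈ NR p X O v z B ↔ (∀ u ∈ X, B u Z = B v Z) ∧
      (∀ x ∈ O, ∀ y, B v Z y ⬝ᵥ p x + z x Z ⬝ᵥ y = 0) := Iff.rfl


end GR
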