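import Pool.Agent.Lib.GR.Gen

/-!
# Polynomial families of subspaces: generic dimension and specialisation

`PolyFam a` : the linear maps `a x : E →ₗ G` depend polynomially on `x` along lines.  For a
finite dimensional `E0` the subspaces `E0 ⊓ ker (a x)` have a generic dimension, and a linear
condition `ψ x` which vanishes on `E0 ⊓ ker (a x)` frequently vanishes there at every `x` at which
the dimension is the generic one.
-/

set_option linter.unusedSectionVars false

namespace GR

open Filter Module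

variable {k : Type*} [Field k] {W E G G' : Type*} [AddCommGroup W] [Module k W]
  [AddCommGroup E] [Module k E] [AddCommGroup G] [Module k G] [AddCommGroup G'] [Module k G']

/-- A family of linear maps which is polynomial along lines. -/
def PolyFam (a : W → E →ₗ[k] G) : Prop :=
  ∀ (Z : E) (φ : G →ₗ[k] k), PolyLine k fun x => φ (a x Z)

lemma PolyFam.const (f : E →ₗ[k] G) : PolyFam (fun _ : W => f) := fun _ _ => PolyLine.const _

lemma PolyFam.comp {a : W → E →ₗ[k] G} (ha : PolyFam a) (f : G →ₗ[k] G') :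
    PolyFam (fun x => f ∘ₗ a x) := fun Z φ => ha Z (φ ∘ₗ f)

lemma PolyFam.add {a b : W → E →ₗ[k] G} (ha : PolyFam a) (hb : PolyFam b) :
    PolyFam (fun x => a x + b x) := by
  intro Z φ
  simpa using (ha Z φ).add (hb Z φ)

lemma PolyFam.sub {a b : W → E →ₗ[k] G} (ha : PolyFam a) (hb : PolyFam b) :
    PolyFam (fun x => a x - b x) := by
  intro Z φ
  simpa using (ha Z φ).sub (hb Z φ)

lemma PolyFam.smul {a : W → E →ₗ[k] G} (ha : PolyFam a) {f : W → k} (hf : PolyLine k f) :
    PolyFam (fun x => f x • a x) := by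
  intro Z φ
  simpa using hf.mul (ha Z φ)

lemma PolyFam.sum {ι : Type*} (s : Finset ι) {a : ι → W → E →ₗ[k] G}
    (ha : ∀ i ∈ s, PolyFam (a i)) : PolyFam (fun x => ∑ i ∈ s, a i x) := by
  intro Z φ
  have := PolyLine.sum s (f := fun i x => φ (a i x Z)) fun i hi => ha i hi Z φ
  simpa [LinearMap.sum_apply] using this

lemma PolyFam.pi {ι : Type*} [Finite ι] {a : ι → W → E →ₗ[k] G}
    (ha : ∀ i, PolyFam (a i)) : PolyFam (fun x => LinearMap.pi (fun i => a i x)) := by
  classical
  cases nonempty_fintype ι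
  intro Z φ
  have h : ∀ x, φ (LinearMap.pi (fun i => a i x) Z)
      = ∑ i, (φ ∘ₗ LinearMap.single k (fun _ : ι => G) i) (a i x Z) := by
    intro x
    have e : LinearMap.pi (fun i => a i x) Z
        = ∑ i, LinearMap.single k (fun _ : ι => G) i (a i x Z) := by
      ext j
      simp [Finset.sum_apply, Pi.single_apply]
    rw [e, map_sum]
    rfl
  simp only [h]
  exact PolyLine.sum _ fun i _ => ha i Z _

lemma PolyFam.prod {a : W → E →ₗ[k] G} {b : W → E →ₗ[k] G'} (ha : PolyFam a) (hb : PolyFam b) :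
    PolyFam (fun x => (a x).prod (b x)) := by
  intro Z φ
  have h : ∀ x, φ ((a x).prod (b x) Z)
      = (φ ∘ₗ LinearMap.inl k G G') (a x Z) + (φ ∘ₗ LinearMap.inr k G G') (b x Z) := by
    intro x
    simp only [LinearMap.comp_apply, LinearMap.inl_apply, LinearMap.inr_apply, ← map_add]
    simp
  simp only [h]
  exact (ha Z _).add (hb Z _)

/-- A scalar family. -/
lemma PolyFam.of_scalar {a : W → E →ₗ[k] k} (ha : ∀ Z, PolyLine k fun x => a x Z) :
    PolyFam a := by
  intro Z φ
  have : (fun x => φ (a x Z)) = fun x => (φ 1) * a x Z := by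
    ext x
    have := φ.map_smul (a x Z) (1 : k)
    simp only [smul_eq_mul, mul_one] at this
    rw [this, mul_comm]
  rw [this]
  exact (PolyLine.const _).mul (ha Z)

lemma PolyFam.scalar {a : W → E →ₗ[k] k} (ha : PolyFam a) (Z : E) : PolyLine k fun x => a x Z :=
  ha Z LinearMap.id

/-- Pull back along an affine map. -/
lemma PolyFam.comp_affine {W' : Type*} [AddCommGroup W'] [Module k W'] {a : W' → E →ₗ[k] G}
    (ha : PolyFam a) (c : W') (g : W →ₗ[k] W') : PolyFam (fun x => a (c + g x)) :=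
  fun Z φ => (ha Z φ).comp_affine c g

lemma PolyFam.comp_update {V F : Type*} [DecidableEq V] [AddCommGroup F] [Module k F]
    {a : (V → F) → E →ₗ[k] G} (ha : PolyFam a) (p : V → F) (u : V) :
    PolyFam (fun x : F => a (Function.update p u x)) := by
  have := ha.comp_affine (Function.update p u 0) (LinearMap.single k (fun _ : V => F) u)
  have e : ∀ x : F, Function.update p u 0 + LinearMap.single k (fun _ : V => F) u x
      = Function.update p u x := by
    intro x
    ext v
    by_cases hv : v = u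
    · subst hv; simp
    · simp [hv]
  simpa only [e] using this

section Adj

variable {n : Type*} [Fintype n] [DecidableEq n]

lemma PolyLine.adjugate {M : W → Matrix n n k} (hM : ∀ i j, PolyLine k (fun x => M x i j))
    (i j : n) : PolyLine k (fun x => (M x).adjugate i j) := by
  simp only [Matrix.adjugate_apply]
  refine PolyLine.det fun a b => ?_
  by_cases ha : a = j
  · subst ha
    simpa using PolyLine.const _
  · simpa [Matrix.updateRow_ne ha] using hM a b

end Adj

/-- A frame for `a x0` on `E0`. -/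
lemma exists_frame (E0 : Submodule k E) [FiniteDimensional k E0] (a : E →ₗ[k] G) :
    ∃ (r : ℕ) (Z : Fin r → E) (φ : Fin r → G →ₗ[k] k), (∀ j, Z j ∈ E0) ∧
      (∀ i j, φ i (a (Z j)) = if i = j then 1 else 0) ∧
      r + finrank k (E0 ⊓ LinearMap.ker a : Submodule k E) = finrank k E0 := by
  set f : E0 →ₗ[k] G := a.domRestrict E0 with hf
  have hr := LinearMap.finrank_range_add_finrank_ker f
  set b := Module.finBasis k (LinearMap.range f) with hb
  have hZ : ∀ j, ∃ Z : E0, f Z = b j := fun j => (b j).2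
  choose Z hZ using hZ
  have hφ : ∀ i, ∃ φ : G →ₗ[k] k, φ ∘ₗ (LinearMap.range f).subtype = b.coord i := fun i =>
    LinearMap.exists_extend (b.coord i)
  choose φ hφ using hφ
  refine ⟨_, fun j => (Z j : E), φ, fun j => (Z j).2, ?_, ?_⟩
  · intro i j
    have h1 : a (Z j : E) = (b j : G) := hZ j
    have h2 := LinearMap.congr_fun (hφ i) (b j)
    simp only [LinearMap.comp_apply, Submodule.subtype_apply] at h2
    rw [h1, h2, Module.Basis.coord_apply, Module.Basis.repr_self, Finsupp.single_apply]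
    simp only [eq_comm]
  · rw [← hr]
    congr 1
    have e : (LinearMap.ker f).map E0.subtype = E0 ⊓ LinearMap.ker a := by
      ext z
      simp only [Submodule.mem_map, LinearMap.mem_ker, Submodule.subtype_apply, Submodule.mem_inf]
      constructor
      · rintro ⟨y, hy, rfl⟩
        exact ⟨y.2, hy⟩
      · rintro ⟨h1, h2⟩
        exact ⟨⟨z, h1⟩, h2, rfl⟩
    rw [← e]
    exact LinearEquiv.finrank_eq (Submodule.equivMapOfInjective _ E0.injective_subtype _).symm

/-- If the matrix of a frame is nonsingular at `a`, then the dimension of the kernel is at most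
the expected one. -/
lemma finrank_le_of_det {E0 : Submodule k E} [FiniteDimensional k E0] {r : ℕ} {Z : Fin r → E}
    (hZ : ∀ j, Z j ∈ E0) (ψ : Fin r → E →ₗ[k] k)
    (hdet : (Matrix.of fun i j => ψ i (Z j)).det ≠ 0) :
    r + finrank k (E0 ⊓ ⨅ i, LinearMap.ker (ψ i) : Submodule k E) = finrank k E0 := by
  set f : E0 →ₗ[k] (Fin r → k) := (LinearMap.pi ψ).domRestrict E0 with hf
  have hsurj : Function.Surjective f := by
    intro y
    set M : Matrix (Fin r) (Fin r) k := Matrix.of fun i j => ψ i (Z j) with hM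
    have hu : IsUnit M.det := isUnit_iff_ne_zero.mpr hdet
    refine ⟨⟨∑ j, (M⁻¹.mulVec y) j • Z j, Submodule.sum_mem _ fun j _ =>
      E0.smul_mem _ (hZ j)⟩, ?_⟩
    ext i
    simp only [hf, LinearMap.domRestrict_apply, LinearMap.pi_apply, map_sum, map_smul,
      smul_eq_mul]
    have : (M.mulVec (M⁻¹.mulVec y)) i = y i := by
      rw [Matrix.mulVec_mulVec, Matrix.mul_nonsing_inv _ hu, Matrix.one_mulVec]
    rw [← this]
    simp only [Matrix.mulVec, dotProduct, hM, Matrix.of_apply]
    refine Finset.sum_congr rfl fun j _ => ?_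
    ring
  have hr := LinearMap.finrank_range_add_finrank_ker f
  rw [LinearMap.range_eq_top.mpr hsurj, finrank_top, Module.finrank_fin_fun] at hr
  rw [← hr]
  congr 1
  have e : (LinearMap.ker f).map E0.subtype = E0 ⊓ ⨅ i, LinearMap.ker (ψ i) := by
    ext z
    simp only [Submodule.mem_map, LinearMap.mem_ker, Submodule.subtype_apply, Submodule.mem_inf,
      Submodule.mem_iInf]
    constructor
    · rintro ⟨y, hy, rfl⟩
      exact ⟨y.2, fun i => congrFun hy i⟩
    · rintro ⟨h1, h2⟩
      exact ⟨⟨z, h1⟩, funext h2, rfl⟩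
  rw [← e]
  exact LinearEquiv.finrank_eq (Submodule.equivMapOfInjective _ E0.injective_subtype _).symm

variable [Infinite k]

/-- **Generic dimension**: the dimension at `x0` is an upper bound for the dimension at generic
points. -/
lemma eventually_finrank_le (E0 : Submodule k E) [FiniteDimensional k E0] {a : W → E →ₗ[k] G}
    (ha : PolyFam a) (x0 : W) :
    ∀ᶠ x in gen k W, finrank k (E0 ⊓ LinearMap.ker (a x) : Submodule k E)
      ≤ finrank k (E0 ⊓ LinearMap.ker (a x0) : Submodule k E) := by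
  obtain ⟨r, Z, φ, hZ, hφ, hr⟩ := exists_frame E0 (a x0)
  have hp : PolyLine k fun x => (Matrix.of fun i j => φ i (a x (Z j))).det :=
    PolyLine.det fun i j => ha (Z j) (φ i)
  have h0 : (Matrix.of fun i j => φ i (a x0 (Z j))).det ≠ 0 := by
    have : (Matrix.of fun i j => φ i (a x0 (Z j))) = 1 := by
      ext i j
      rw [Matrix.of_apply, hφ, Matrix.one_apply]
    rw [this, Matrix.det_one]
    exact one_ne_zero
  filter_upwards [hp.eventually_ne ⟨x0, h0⟩] with x hx
  have h1 := finrank_le_of_det hZ (fun i => φ i ∘ₗ a x) hx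
  have h2 : finrank k (E0 ⊓ LinearMap.ker (a x) : Submodule k E)
      ≤ finrank k (E0 ⊓ ⨅ i, LinearMap.ker (φ i ∘ₗ a x) : Submodule k E) := by
    have : FiniteDimensional k (E0 ⊓ ⨅ i, LinearMap.ker (φ i ∘ₗ a x) : Submodule k E) :=
      Submodule.finiteDimensional_of_le inf_le_left
    refine Submodule.finrank_mono ?_
    refine inf_le_inf le_rfl (le_iInf fun i => ?_)
    intro z hz
    rw [LinearMap.mem_ker] at hz ⊢
    simp [hz]
  omega

/-- The generic dimension of a polynomial family of subspaces. -/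
noncomputable def gfin (E0 : Submodule k E) (a : W → E →ₗ[k] G) : ℕ :=
  sInf (Set.range fun x => finrank k (E0 ⊓ LinearMap.ker (a x) : Submodule k E))

lemma gfin_le (E0 : Submodule k E) (a : W → E →ₗ[k] G) (x : W) :
    gfin E0 a ≤ finrank k (E0 ⊓ LinearMap.ker (a x) : Submodule k E) :=
  Nat.sInf_le ⟨x, rfl⟩

lemma exists_eq_gfin (E0 : Submodule k E) (a : W → E →ₗ[k] G) :
    ∃ x, finrank k (E0 ⊓ LinearMap.ker (a x) : Submodule k E) = gfin E0 a :=
  Nat.sInf_mem (Set.range_nonempty _)

lemma eventually_finrank_eq (E0 : Submodule k E) [FiniteDimensional k E0] {a : W → E →ₗ[k] G}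
    (ha : PolyFam a) :
    ∀ᶠ x in gen k W, finrank k (E0 ⊓ LinearMap.ker (a x) : Submodule k E) = gfin E0 a := by
  obtain ⟨x0, hx0⟩ := exists_eq_gfin E0 a
  filter_upwards [eventually_finrank_le E0 ha x0] with x hx
  exact le_antisymm (hx0 ▸ hx) (gfin_le E0 a x)

lemma gfin_eq_of_frequently {E0 : Submodule k E} [FiniteDimensional k E0] {a : W → E →ₗ[k] G}
    (ha : PolyFam a) {d : ℕ}
    (h : ∃ᶠ x in gen k W, finrank k (E0 ⊓ LinearMap.ker (a x) : Submodule k E) = d) :
    gfin E0 a = d := by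
  obtain ⟨x, h1, h2⟩ := (h.and_eventually (eventually_finrank_eq E0 ha)).exists
  rw [← h1, h2]

/-- **Specialisation lemma.** -/
theorem spec_of_eq_gfin {E0 : Submodule k E} [FiniteDimensional k E0] {a : W → E →ₗ[k] G}
    (ha : PolyFam a) {ψ : W → E →ₗ[k] G'} (hψ : PolyFam ψ)
    (h : ∃ᶠ x in gen k W, E0 ⊓ LinearMap.ker (a x) ≤ LinearMap.ker (ψ x)) {x0 : W}
    (h0 : finrank k (E0 ⊓ LinearMap.ker (a x0) : Submodule k E) = gfin E0 a) :
    E0 ⊓ LinearMap.ker (a x0) ≤ LinearMap.ker (ψ x0) := by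
  obtain ⟨r, Z, φ, hZ, hφ, hr⟩ := exists_frame E0 (a x0)
  intro Z0 hZ0
  set M : W → Matrix (Fin r) (Fin r) k := fun x => Matrix.of fun i j => φ i (a x (Z j)) with hM
  set v : W → Fin r → k := fun x i => φ i (a x Z0) with hv
  have hMp : ∀ i j, PolyLine k fun x => M x i j := fun i j => ha (Z j) (φ i)
  have hdet := PolyLine.det hMp
  have hadj := PolyLine.adjugate hMp
  have hM0 : M x0 = 1 := by
    ext i j
    show φ i (a x0 (Z j)) = _
    rw [hφ, Matrix.one_apply]
  -- the polynomial vector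
  set Zt : W → E := fun x => (M x).det • Z0 - ∑ j, ((M x).adjugate.mulVec (v x)) j • Z j with hZt
  have hZtm : ∀ x, Zt x ∈ E0 := fun x =>
    E0.sub_mem (E0.smul_mem _ hZ0.1) (Submodule.sum_mem _ fun j _ => E0.smul_mem _ (hZ j))
  have hZtk : ∀ x i, φ i (a x (Zt x)) = 0 := by
    intro x i
    simp only [hZt, map_sub, map_smul, map_sum, smul_eq_mul]
    have e : ∑ j, ((M x).adjugate.mulVec (v x)) j * φ i (a x (Z j))
        = ((M x).mulVec ((M x).adjugate.mulVec (v x))) i := by
      simp only [Matrix.mulVec, dotProduct, hM, Matrix.of_apply]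
      refine Finset.sum_congr rfl fun j _ => ?_
      ring
    rw [e, Matrix.mulVec_mulVec, Matrix.mul_adjugate, Matrix.smul_mulVec, Matrix.one_mulVec,
      Pi.smul_apply, smul_eq_mul, hv, sub_self]
  have hgood : ∀ x, (M x).det ≠ 0 → Zt x ∈ E0 ⊓ LinearMap.ker (a x) := by
    intro x hx
    have h1 := finrank_le_of_det hZ (fun i => φ i ∘ₗ a x) hx
    have : FiniteDimensional k (E0 ⊓ ⨅ i, LinearMap.ker (φ i ∘ₗ a x) : Submodule k E) :=
      Submodule.finiteDimensional_of_le inf_le_left
    have hle : E0 ⊓ LinearMap.ker (a x) ≤ E0 ⊓ ⨅ i, LinearMap.ker (φ i ∘ₗ a x) := by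
      refine inf_le_inf le_rfl (le_iInf fun i => ?_)
      intro z hz
      rw [LinearMap.mem_ker] at hz ⊢
      simp [hz]
    have h2 := gfin_le E0 a x
    have heq : E0 ⊓ LinearMap.ker (a x) = E0 ⊓ ⨅ i, LinearMap.ker (φ i ∘ₗ a x) :=
      Submodule.eq_of_le_of_finrank_le hle (by omega)
    rw [heq]
    exact ⟨hZtm x, (Submodule.mem_iInf _).mpr fun i => hZtk x i⟩
  -- the value of `ψ`
  have key : ∀ χ : G' →ₗ[k] k, ∀ x, χ (ψ x (Zt x)) = 0 := by
    intro χ x
    have hp : PolyLine k fun x => χ (ψ x (Zt x)) := by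
      have e : (fun x => χ (ψ x (Zt x))) = fun x => (M x).det * χ (ψ x Z0)
          - ∑ j, ((M x).adjugate.mulVec (v x)) j * χ (ψ x (Z j)) := by
        ext x
        simp only [hZt, map_sub, map_smul, map_sum, smul_eq_mul]
      rw [e]
      refine (hdet.mul (hψ _ _)).sub (PolyLine.sum _ fun j _ => ?_)
      refine PolyLine.mul ?_ (hψ _ _)
      simp only [Matrix.mulVec, dotProduct]
      exact PolyLine.sum _ fun i _ => (hadj j i).mul (ha Z0 (φ i))
    refine hp.eq_zero ?_ x
    have hdet0 : ∀ᶠ x in gen k W, (M x).det ≠ 0 := hdet.eventually_ne ⟨x0, by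
      rw [hM0, Matrix.det_one]; exact one_ne_zero⟩
    refine (h.and_eventually hdet0).mono ?_
    rintro x ⟨h1, h2⟩
    have := h1 (hgood x h2)
    rw [LinearMap.mem_ker] at this
    rw [this, map_zero]
  have hv0 : v x0 = 0 := by
    ext i
    have h1 : a x0 Z0 = 0 := hZ0.2
    simp [hv, h1]
  have hZt0 : Zt x0 = Z0 := by
    simp [hZt, hM0, hv0]
  rw [LinearMap.mem_ker]
  by_contra hne
  obtain ⟨χ, hχ⟩ : ∃ χ : G' →ₗ[k] k, χ (ψ x0 Z0) ≠ 0 := by
    by_contra hcon
    push Not at hcon
    exact hne ((Module.forall_dual_apply_eq_zero_iff k _).mp hcon)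
  exact hχ (by simpa [hZt0] using key χ x0)

/-- The 0-1 law. -/
theorem eventually_of_frequently {E0 : Submodule k E} [FiniteDimensional k E0]
    {a : W → E →ₗ[k] G} (ha : PolyFam a) {ψ : W → E →ₗ[k] G'} (hψ : PolyFam ψ)
    (h : ∃ᶠ x in gen k W, E0 ⊓ LinearMap.ker (a x) ≤ LinearMap.ker (ψ x)) :
    ∀ᶠ x in gen k W, E0 ⊓ LinearMap.ker (a x) ≤ LinearMap.ker (ψ x) := by
  filter_upwards [eventually_finrank_eq E0 ha] with x hx
  exact spec_of_eq_gfin ha hψ h hx

/-- A finite disjunction which holds frequently: one member holds frequently. -/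
lemma exists_frequently_of_finite {α ι : Type*} [Finite ι] {l : Filter α} {P : ι → α → Prop}
    (h : ∃ᶠ x in l, ∃ i, P i x) : ∃ i, ∃ᶠ x in l, P i x := by
  by_contra hcon
  push Not at hcon
  have h1 : ∀ᶠ x in l, ∀ i, ¬ P i x := by
    rw [eventually_all]
    exact hcon
  obtain ⟨x, ⟨i, hi⟩, hx⟩ := (h.and_eventually h1).exists
  exact hx i hi

end GR
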