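import Pool.Agent.Lib.GR.M1Defs
import Pool.Agent.Lib.GR.Spec

/-!
# M1: dimension lemmas for the kernels `ker (R y)`, constant image
-/

set_option linter.unusedSectionVars false

namespace GR

open Filter Module

open scoped Matrix

variable {k : Type*} [Field k]
  {K Y : Type*} [AddCommGroup K] [Module k K] [AddCommGroup Y] [Module k Y]

/-- four maps: the four triple kernels are independent modulo the common kernel -/
lemma four_kernels [FiniteDimensional k K] (R0 R1 R2 R3 : K →ₗ[k] Y) :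
    finrank k (LinearMap.ker ((R1.prod R2).prod R3) : Submodule k K)
      + finrank k (LinearMap.ker ((R0.prod R2).prod R3) : Submodule k K)
      + finrank k (LinearMap.ker ((R0.prod R1).prod R3) : Submodule k K)
      + finrank k (LinearMap.ker ((R0.prod R1).prod R2) : Submodule k K)
      ≤ finrank k K + 3 * finrank k (LinearMap.ker (((R0.prod R1).prod R2).prod R3) :
        Submodule k K) := by
  set A0 : Submodule k K := LinearMap.ker ((R1.prod R2).prod R3) with hA0
  set A1 : Submodule k K := LinearMap.ker ((R0.prod R2).prod R3) with hA1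
  set A2 : Submodule k K := LinearMap.ker ((R0.prod R1).prod R3) with hA2
  set A3 : Submodule k K := LinearMap.ker ((R0.prod R1).prod R2) with hA3
  set N : Submodule k K := LinearMap.ker (((R0.prod R1).prod R2).prod R3) with hN
  have m0 : ∀ Z, Z ∈ A0 ↔ R1 Z = 0 ∧ R2 Z = 0 ∧ R3 Z = 0 := by
    intro Z; simp [hA0, and_assoc]
  have m1 : ∀ Z, Z ∈ A1 ↔ R0 Z = 0 ∧ R2 Z = 0 ∧ R3 Z = 0 := by
    intro Z; simp [hA1, and_assoc]
  have m2 : ∀ Z, Z ∈ A2 ↔ R0 Z = 0 ∧ R1 Z = 0 ∧ R3 Z = 0 := by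
    intro Z; simp [hA2, and_assoc]
  have m3 : ∀ Z, Z ∈ A3 ↔ R0 Z = 0 ∧ R1 Z = 0 ∧ R2 Z = 0 := by
    intro Z; simp [hA3, and_assoc]
  have mN : ∀ Z, Z ∈ N ↔ R0 Z = 0 ∧ R1 Z = 0 ∧ R2 Z = 0 ∧ R3 Z = 0 := by
    intro Z; simp [hN, and_assoc]
  have h01 : A0 ⊓ A1 ≤ N := by
    rintro Z ⟨h, h'⟩
    replace h := (m0 _).mp h
    replace h' := (m1 _).mp h'
    rw [mN]
    exact ⟨h'.1, h.1, h.2⟩
  have h012 : (A0 ⊔ A1) ⊓ A2 ≤ N := by
    rintro Z ⟨h, h'⟩
    obtain ⟨a, ha, b, hb, rfl⟩ := Submodule.mem_sup.mp h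
    rw [m0] at ha
    rw [m1] at hb
    replace h' := (m2 _).mp h'
    rw [mN]
    exact ⟨h'.1, h'.2.1, by rw [map_add, ha.2.1, hb.2.1, add_zero], h'.2.2⟩
  have h0123 : (A0 ⊔ A1 ⊔ A2) ⊓ A3 ≤ N := by
    rintro Z ⟨h, h'⟩
    obtain ⟨c, hc, d, hd, rfl⟩ := Submodule.mem_sup.mp h
    obtain ⟨a, ha, b, hb, rfl⟩ := Submodule.mem_sup.mp hc
    rw [m0] at ha
    rw [m1] at hb
    rw [m2] at hd
    replace h' := (m3 _).mp h'
    rw [mN]
    exact ⟨h'.1, h'.2.1, h'.2.2,
      by rw [map_add, map_add, ha.2.2, hb.2.2, hd.2.2, add_zero, add_zero]⟩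
  have e1 := Submodule.finrank_sup_add_finrank_inf_eq A0 A1
  have e2 := Submodule.finrank_sup_add_finrank_inf_eq (A0 ⊔ A1) A2
  have e3 := Submodule.finrank_sup_add_finrank_inf_eq (A0 ⊔ A1 ⊔ A2) A3
  have f1 := Submodule.finrank_mono h01
  have f2 := Submodule.finrank_mono h012
  have f3 := Submodule.finrank_mono h0123
  have f4 := Submodule.finrank_le (A0 ⊔ A1 ⊔ A2 ⊔ A3)
  omega

section Generic

variable [Infinite k] (R : Vec k →ₗ[k] K →ₗ[k] Y)

lemma mem_ker_prod {G G' : Type*} [AddCommGroup G] [Module k G] [AddCommGroup G'] [Module k G']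
    {f : K →ₗ[k] G} {g : K →ₗ[k] G'} {Z : K} :
    Z ∈ LinearMap.ker (f.prod g) ↔ Z ∈ LinearMap.ker f ∧ Z ∈ LinearMap.ker g := by
  rw [LinearMap.ker_prod, Submodule.mem_inf]

/-- the pair of conditions -/
def pairF (w : Vec k × Vec k) : K →ₗ[k] Y × Y := (R w.1).prod (R w.2)

/-- the triple of conditions -/
def tripF (w : (Vec k × Vec k) × Vec k) : K →ₗ[k] (Y × Y) × Y :=
  ((R w.1.1).prod (R w.1.2)).prod (R w.2)

/-- the four conditions -/
def quadF (w : ((Vec k × Vec k) × Vec k) × Vec k) : K →ₗ[k] ((Y × Y) × Y) × Y :=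
  (((R w.1.1.1).prod (R w.1.1.2)).prod (R w.1.2)).prod (R w.2)

lemma polyFam_lin {W : Type*} [AddCommGroup W] [Module k W] (f : W →ₗ[k] Vec k) :
    PolyFam (fun w : W => R (f w)) := by
  intro Z φ
  exact PolyLine.linear (φ ∘ₗ (R.flip Z) ∘ₗ f)

lemma polyFam_one : PolyFam (fun w : Vec k => R w) := polyFam_lin R LinearMap.id

lemma polyFam_pair : PolyFam (pairF R) := by
  have h0 : PolyFam (fun w : Vec k × Vec k => R w.1) := fun Z φ =>
    PolyLine.linear (φ ∘ₗ (R.flip Z) ∘ₗ (LinearMap.fst k (Vec k) (Vec k)))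
  have h1 : PolyFam (fun w : Vec k × Vec k => R w.2) := fun Z φ =>
    PolyLine.linear (φ ∘ₗ (R.flip Z) ∘ₗ (LinearMap.snd k (Vec k) (Vec k)))
  exact h0.prod h1

lemma polyFam_trip : PolyFam (tripF R) := by
  have h0 : PolyFam (fun w : (Vec k × Vec k) × Vec k => R w.1.1) := fun Z φ =>
    PolyLine.linear (φ ∘ₗ (R.flip Z) ∘ₗ (LinearMap.fst k (Vec k) (Vec k)) ∘ₗ
      (LinearMap.fst k (Vec k × Vec k) (Vec k)))
  have h1 : PolyFam (fun w : (Vec k × Vec k) × Vec k => R w.1.2) := fun Z φ =>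
    PolyLine.linear (φ ∘ₗ (R.flip Z) ∘ₗ (LinearMap.snd k (Vec k) (Vec k)) ∘ₗ
      (LinearMap.fst k (Vec k × Vec k) (Vec k)))
  have h2 : PolyFam (fun w : (Vec k × Vec k) × Vec k => R w.2) := fun Z φ =>
    PolyLine.linear (φ ∘ₗ (R.flip Z) ∘ₗ (LinearMap.snd k (Vec k × Vec k) (Vec k)))
  exact (h0.prod h1).prod h2

lemma polyFam_quad : PolyFam (quadF R) := by
  have h3 : PolyFam (fun w : ((Vec k × Vec k) × Vec k) × Vec k => R w.2) := fun Z φ =>
    PolyLine.linear (φ ∘ₗ (R.flip Z) ∘ₗ (LinearMap.snd k ((Vec k × Vec k) × Vec k) (Vec k)))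
  have h012 : PolyFam (fun w : ((Vec k × Vec k) × Vec k) × Vec k => tripF R w.1) := fun Z φ => by
    have := (polyFam_trip R Z φ).comp_linear (LinearMap.fst k ((Vec k × Vec k) × Vec k) (Vec k))
    exact this
  exact h012.prod h3

variable [FiniteDimensional k K]

/-- generic dimensions of the kernels -/
noncomputable def d1 : ℕ := gfin (⊤ : Submodule k K) (fun w : Vec k => R w)
noncomputable def d2 : ℕ := gfin (⊤ : Submodule k K) (pairF R)
noncomputable def d3 : ℕ := gfin (⊤ : Submodule k K) (tripF R)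
noncomputable def d4 : ℕ := gfin (⊤ : Submodule k K) (quadF R)

lemma eventually_d1 : ∀ᶠ w in gen k (Vec k), finrank k (LinearMap.ker (R w)) = d1 R := by
  have := eventually_finrank_eq (⊤ : Submodule k K) (polyFam_one R)
  filter_upwards [this] with w hw
  rw [top_inf_eq] at hw
  exact hw

lemma eventually_d2 : ∀ᶠ w in gen k (Vec k × Vec k),
    finrank k (LinearMap.ker (pairF R w)) = d2 R := by
  have := eventually_finrank_eq (⊤ : Submodule k K) (polyFam_pair R)
  filter_upwards [this] with w hw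
  rw [top_inf_eq] at hw
  exact hw

lemma eventually_d3 : ∀ᶠ w in gen k ((Vec k × Vec k) × Vec k),
    finrank k (LinearMap.ker (tripF R w)) = d3 R := by
  have := eventually_finrank_eq (⊤ : Submodule k K) (polyFam_trip R)
  filter_upwards [this] with w hw
  rw [top_inf_eq] at hw
  exact hw

lemma eventually_d4 : ∀ᶠ w in gen k (((Vec k × Vec k) × Vec k) × Vec k),
    finrank k (LinearMap.ker (quadF R w)) = d4 R := by
  have := eventually_finrank_eq (⊤ : Submodule k K) (polyFam_quad R)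
  filter_upwards [this] with w hw
  rw [top_inf_eq] at hw
  exact hw

/-- the four sub-triples -/
def tri012 (k : Type*) [Field k] :
    (((Vec k × Vec k) × Vec k) × Vec k) →ₗ[k] ((Vec k × Vec k) × Vec k) where
  toFun w := w.1
  map_add' := fun _ _ => rfl
  map_smul' := fun _ _ => rfl

def tri013 (k : Type*) [Field k] :
    (((Vec k × Vec k) × Vec k) × Vec k) →ₗ[k] ((Vec k × Vec k) × Vec k) where
  toFun w := ((w.1.1.1, w.1.1.2), w.2)
  map_add' := fun _ _ => rfl
  map_smul' := fun _ _ => rfl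

def tri023 (k : Type*) [Field k] :
    (((Vec k × Vec k) × Vec k) × Vec k) →ₗ[k] ((Vec k × Vec k) × Vec k) where
  toFun w := ((w.1.1.1, w.1.2), w.2)
  map_add' := fun _ _ => rfl
  map_smul' := fun _ _ => rfl

def tri123 (k : Type*) [Field k] :
    (((Vec k × Vec k) × Vec k) × Vec k) →ₗ[k] ((Vec k × Vec k) × Vec k) where
  toFun w := ((w.1.1.2, w.1.2), w.2)
  map_add' := fun _ _ => rfl
  map_smul' := fun _ _ => rfl

lemma tri012_surj : Function.Surjective (tri012 k) := fun w => ⟨(w, 0), rfl⟩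
lemma tri013_surj : Function.Surjective (tri013 k) := fun w => ⟨((w.1, 0), w.2), rfl⟩
lemma tri023_surj : Function.Surjective (tri023 k) :=
  fun w => ⟨(((w.1.1, 0), w.1.2), w.2), rfl⟩
lemma tri123_surj : Function.Surjective (tri123 k) :=
  fun w => ⟨(((0, w.1.1), w.1.2), w.2), rfl⟩

lemma four_d3_le : 4 * d3 R ≤ finrank k K + 3 * d4 R := by
  have h3 := eventually_d3 R
  have e1 := eventually_comp_of_surjective (tri012 k) tri012_surj h3
  have e2 := eventually_comp_of_surjective (tri013 k) tri013_surj h3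
  have e3 := eventually_comp_of_surjective (tri023 k) tri023_surj h3
  have e4 := eventually_comp_of_surjective (tri123 k) tri123_surj h3
  obtain ⟨w, h4, e1, e2, e3, e4⟩ :=
    ((eventually_d4 R).and (e1.and (e2.and (e3.and e4)))).exists
  have h := four_kernels (R w.1.1.1) (R w.1.1.2) (R w.1.2) (R w.2)
  have f1 : finrank k (LinearMap.ker (((R w.1.1.1).prod (R w.1.1.2)).prod (R w.1.2)) :
    Submodule k K) = d3 R := e1
  have f2 : finrank k (LinearMap.ker (((R w.1.1.1).prod (R w.1.1.2)).prod (R w.2)) :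
    Submodule k K) = d3 R := e2
  have f3 : finrank k (LinearMap.ker (((R w.1.1.1).prod (R w.1.2)).prod (R w.2)) :
    Submodule k K) = d3 R := e3
  have f4 : finrank k (LinearMap.ker (((R w.1.1.2).prod (R w.1.2)).prod (R w.2)) :
    Submodule k K) = d3 R := e4
  have f5 : finrank k (LinearMap.ker ((((R w.1.1.1).prod (R w.1.1.2)).prod (R w.1.2)).prod
    (R w.2)) : Submodule k K) = d4 R := h4
  omega

/-- the common kernel bounds `d4` -/
lemma d4_le {N : Submodule k K} (hN : ∀ Z, (∀ y, R y Z = 0) → Z ∈ N) : d4 R ≤ finrank k N := by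
  refine (gfin_le (⊤ : Submodule k K) (quadF R)
    (((Pi.single 0 1, Pi.single 1 1), Pi.single 2 1), Pi.single 3 1)).trans ?_
  refine Submodule.finrank_mono ?_
  rintro Z ⟨-, hZ⟩
  refine hN Z fun y => ?_
  have h : R (Pi.single 0 1) Z = 0 ∧ R (Pi.single 1 1) Z = 0 ∧ R (Pi.single 2 1) Z = 0 ∧
      R (Pi.single 3 1) Z = 0 := by
    have h' : Z ∈ LinearMap.ker ((((R (Pi.single 0 1)).prod (R (Pi.single 1 1))).prod
      (R (Pi.single 2 1))).prod (R (Pi.single 3 1))) := hZ
    rw [mem_ker_prod, mem_ker_prod, mem_ker_prod] at h'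
    exact ⟨h'.1.1.1, h'.1.1.2, h'.1.2, h'.2⟩
  have hy : y = y 0 • (Pi.single 0 1 : Vec k) + y 1 • (Pi.single 1 1 : Vec k)
      + y 2 • (Pi.single 2 1 : Vec k) + y 3 • (Pi.single 3 1 : Vec k) := by
    ext i
    fin_cases i <;> simp
  rw [hy]
  simp only [map_add, map_smul, LinearMap.add_apply, LinearMap.smul_apply, h.1, h.2.1, h.2.2.1,
    h.2.2.2, smul_zero, add_zero]

/-- pairs in a triple -/
def pr01 (k : Type*) [Field k] : ((Vec k × Vec k) × Vec k) →ₗ[k] (Vec k × Vec k) where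
  toFun w := w.1
  map_add' := fun _ _ => rfl
  map_smul' := fun _ _ => rfl

def pr02 (k : Type*) [Field k] : ((Vec k × Vec k) × Vec k) →ₗ[k] (Vec k × Vec k) where
  toFun w := (w.1.1, w.2)
  map_add' := fun _ _ => rfl
  map_smul' := fun _ _ => rfl

def pr12 (k : Type*) [Field k] : ((Vec k × Vec k) × Vec k) →ₗ[k] (Vec k × Vec k) where
  toFun w := (w.1.2, w.2)
  map_add' := fun _ _ => rfl
  map_smul' := fun _ _ => rfl

lemma pr01_surj : Function.Surjective (pr01 k) := fun w => ⟨(w, 0), rfl⟩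
lemma pr02_surj : Function.Surjective (pr02 k) := fun w => ⟨((w.1, 0), w.2), rfl⟩
lemma pr12_surj : Function.Surjective (pr12 k) := fun w => ⟨((0, w.1), w.2), rfl⟩

/-- For generic triples all the dimensions are the generic ones. -/
lemma eventually_trip : ∀ᶠ w in gen k ((Vec k × Vec k) × Vec k),
    finrank k (LinearMap.ker (tripF R w)) = d3 R ∧
    finrank k (LinearMap.ker (pairF R (w.1.1, w.2))) = d2 R ∧
    finrank k (LinearMap.ker (pairF R (w.1.2, w.2))) = d2 R ∧
    finrank k (LinearMap.ker (R w.2)) = d1 R := by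
  have e1 := eventually_comp_of_surjective (pr02 k) pr02_surj (eventually_d2 R)
  have e2 := eventually_comp_of_surjective (pr12 k) pr12_surj (eventually_d2 R)
  have e3 := eventually_comp_of_surjective (LinearMap.snd k (Vec k × Vec k) (Vec k))
    LinearMap.snd_surjective (eventually_d1 R)
  filter_upwards [eventually_d3 R, e1, e2, e3] with w h h1 h2 h3
  exact ⟨h, h1, h2, h3⟩

lemma trip_inf (w : (Vec k × Vec k) × Vec k) :
    LinearMap.ker (pairF R (w.1.1, w.2)) ⊓ LinearMap.ker (pairF R (w.1.2, w.2))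
      = LinearMap.ker (tripF R w) := by
  ext Z
  rw [Submodule.mem_inf]
  unfold pairF tripF
  rw [mem_ker_prod, mem_ker_prod, mem_ker_prod, mem_ker_prod]
  tauto

lemma trip_sup_le (w : (Vec k × Vec k) × Vec k) :
    LinearMap.ker (pairF R (w.1.1, w.2)) ⊔ LinearMap.ker (pairF R (w.1.2, w.2))
      ≤ LinearMap.ker (R w.2) := by
  refine sup_le ?_ ?_
  · intro Z hZ
    unfold pairF at hZ
    rw [mem_ker_prod] at hZ
    exact hZ.2
  · intro Z hZ
    unfold pairF at hZ
    rw [mem_ker_prod] at hZ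
    exact hZ.2

lemma two_d2_le : 2 * d2 R ≤ d1 R + d3 R := by
  obtain ⟨w, h3, h02, h12, h1⟩ := (eventually_trip R).exists
  have h := Submodule.finrank_sup_add_finrank_inf_eq (LinearMap.ker (pairF R (w.1.1, w.2)))
    (LinearMap.ker (pairF R (w.1.2, w.2)))
  rw [trip_inf] at h
  have h' := Submodule.finrank_mono (trip_sup_le R w)
  omega

/-- If equality holds, the third kernel lies in the sum of the first two, generically. -/
lemma ker_le_sup (he : 2 * d2 R = d1 R + d3 R) : ∀ᶠ w in gen k ((Vec k × Vec k) × Vec k),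
    LinearMap.ker (R w.2) ≤ LinearMap.ker (R w.1.1) ⊔ LinearMap.ker (R w.1.2) := by
  filter_upwards [eventually_trip R] with w hw
  obtain ⟨h3, h02, h12, h1⟩ := hw
  have h := Submodule.finrank_sup_add_finrank_inf_eq (LinearMap.ker (pairF R (w.1.1, w.2)))
    (LinearMap.ker (pairF R (w.1.2, w.2)))
  rw [trip_inf] at h
  have h' : LinearMap.ker (pairF R (w.1.1, w.2)) ⊔ LinearMap.ker (pairF R (w.1.2, w.2))
      = LinearMap.ker (R w.2) :=
    Submodule.eq_of_le_of_finrank_le (trip_sup_le R w) (by omega)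
  rw [← h']
  refine sup_le_sup ?_ ?_
  · intro Z hZ
    unfold pairF at hZ
    rw [mem_ker_prod] at hZ
    exact hZ.1
  · intro Z hZ
    unfold pairF at hZ
    rw [mem_ker_prod] at hZ
    exact hZ.1

/-- For generic pairs the dimensions are the generic ones. -/
lemma eventually_pair : ∀ᶠ w in gen k (Vec k × Vec k),
    finrank k (LinearMap.ker (R w.1)) = d1 R ∧ finrank k (LinearMap.ker (R w.2)) = d1 R ∧
    finrank k (LinearMap.ker (R w.1) ⊓ LinearMap.ker (R w.2) : Submodule k K) = d2 R ∧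
    finrank k (LinearMap.ker (R w.1) ⊔ LinearMap.ker (R w.2) : Submodule k K) + d2 R
      = 2 * d1 R := by
  have e1 := eventually_comp_of_surjective (LinearMap.fst k (Vec k) (Vec k))
    LinearMap.fst_surjective (eventually_d1 R)
  have e2 := eventually_comp_of_surjective (LinearMap.snd k (Vec k) (Vec k))
    LinearMap.snd_surjective (eventually_d1 R)
  filter_upwards [eventually_d2 R, e1, e2] with w h h1 h2
  have h1' : finrank k (LinearMap.ker (R w.1)) = d1 R := h1
  have h2' : finrank k (LinearMap.ker (R w.2)) = d1 R := h2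
  have h3 : LinearMap.ker (R w.1) ⊓ LinearMap.ker (R w.2) = LinearMap.ker (pairF R w) := by
    ext Z
    unfold pairF
    rw [mem_ker_prod, Submodule.mem_inf]
  have h4 := Submodule.finrank_sup_add_finrank_inf_eq (LinearMap.ker (R w.1))
    (LinearMap.ker (R w.2))
  refine ⟨h1', h2', by rw [h3, h], ?_⟩
  rw [h3, h] at h4
  omega

end Generic

/-- **Constant image.** -/
theorem const_image [Infinite k] [FiniteDimensional k K] (R : Vec k →ₗ[k] K →ₗ[k] Y) {r : ℕ}
    {y0 : Vec k} (h0 : finrank k (LinearMap.range (R y0)) = r)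
    (hr : ∀ᶠ y in gen k (Vec k), finrank k (LinearMap.range (R (y0 + y))) ≤ r)
    (hp : ∀ᶠ y in gen k (Vec k), LinearMap.ker (R y0) ⊔ LinearMap.ker (R y) = ⊤) :
    ∀ y Z, R y Z ∈ LinearMap.range (R y0) := by
  have key : ∀ᶠ y in gen k (Vec k), ∀ Z, R y Z ∈ LinearMap.range (R y0) := by
    filter_upwards [hr, hp] with y hr hp
    have hle : LinearMap.range (R y0) ≤ LinearMap.range (R (y0 + y)) := by
      rintro _ ⟨Z, rfl⟩
      have hZ : Z ∈ LinearMap.ker (R y0) ⊔ LinearMap.ker (R y) := by rw [hp]; trivial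
      obtain ⟨a, ha, b, hb, rfl⟩ := Submodule.mem_sup.mp hZ
      rw [LinearMap.mem_ker] at ha hb
      exact ⟨b, by rw [map_add, map_add, LinearMap.add_apply, ha, hb, add_zero, zero_add]⟩
    have heq : LinearMap.range (R y0) = LinearMap.range (R (y0 + y)) :=
      Submodule.eq_of_le_of_finrank_le hle (by rw [h0]; exact hr)
    intro Z
    have h1 : R (y0 + y) Z ∈ LinearMap.range (R y0) := by rw [heq]; exact ⟨Z, rfl⟩
    have h2 : R y Z = R (y0 + y) Z - R y0 Z := by
      rw [map_add, LinearMap.add_apply]; abel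
    rw [h2]
    exact Submodule.sub_mem _ h1 ⟨Z, rfl⟩
  intro y Z
  -- test with functionals vanishing on the range
  by_contra hcon
  obtain ⟨φ, hφ1, hφ2⟩ := Submodule.exists_le_ker_of_notMem hcon
  have h1 : ∀ᶠ y in gen k (Vec k), φ (R y Z) = 0 := by
    filter_upwards [key] with y hy
    exact hφ2 (hy Z)
  exact hφ1 ((PolyLine.linear (φ ∘ₗ R.flip Z)).eq_zero_of_eventually h1 y)

/-- **Coordinates** in the constant image. -/
theorem exists_coord [FiniteDimensional k K] (R : Vec k →ₗ[k] K →ₗ[k] Y) {r : ℕ} {y0 : Vec k}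
    (h0 : finrank k (LinearMap.range (R y0)) = r)
    (hR : ∀ y Z, R y Z ∈ LinearMap.range (R y0)) :
    ∃ (G : K →ₗ[k] Vec k →ₗ[k] (Fin r → k)) (c : Fin r → Y), LinearIndependent k c ∧
      ∀ Z y, R y Z = ∑ a, G Z y a • c a := by
  let b := Module.finBasisOfFinrankEq k (LinearMap.range (R y0)) h0
  let e : LinearMap.range (R y0) →ₗ[k] (Fin r → k) := b.equivFun.toLinearMap
  refine ⟨LinearMap.mk₂ k (fun Z y => e ⟨R y Z, hR y Z⟩) ?_ ?_ ?_ ?_, fun a => (b a : Y), ?_, ?_⟩
  · intro Z Z' y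
    rw [← map_add]; congr 1; ext; simp
  · intro c Z y
    rw [← map_smul]; congr 1; ext; simp
  · intro Z y y'
    rw [← map_add]; congr 1; ext; simp
  · intro c Z y
    rw [← map_smul]; congr 1; ext; simp
  · exact b.linearIndependent.map' (LinearMap.range (R y0)).subtype (Submodule.ker_subtype _)
  · intro Z y
    have h1 := b.sum_equivFun ⟨R y Z, hR y Z⟩
    have h2 := congrArg (LinearMap.range (R y0)).subtype h1
    rw [map_sum] at h2
    simpa [e] using h2.symm

end GR
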