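import Pool.Agent.Lib.GR.Gen

/-!
# The Main Lemma, abstract form

`K` a finite dimensional space, `A u` (`u ∈ X`) subspaces such that every proper subfamily imposes
`2` independent conditions per member on `K`, while the whole family imposes only `2|X| - 1`
conditions.  `Bsp K A X u` are the vectors of `K` lying in all `A w`, `w ≠ u`.  The space
`Q = ∑ B_u` has codimension `|X| - 1`, and every `A u` imposes at most one condition on it.
-/

set_option linter.unusedSectionVars false

namespace GR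

open Filter Module

variable {k : Type*} [Field k] {E ι : Type*} [AddCommGroup E] [Module k E] [DecidableEq ι]

/-- The vectors of `K` which lie in all `A w`, `w ∈ Y`. -/
def Isp (K : Submodule k E) (A : ι → Submodule k E) (Y : Finset ι) : Submodule k E :=
  K ⊓ ⨅ w ∈ Y, A w

lemma mem_Isp {K : Submodule k E} {A : ι → Submodule k E} {Y : Finset ι} {z : E} :
    z ∈ Isp K A Y ↔ z ∈ K ∧ ∀ w ∈ Y, z ∈ A w := by
  simp [Isp, Submodule.mem_iInf]

lemma Isp_le (K : Submodule k E) (A : ι → Submodule k E) (Y : Finset ι) : Isp K A Y ≤ K :=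
  inf_le_left

lemma Isp_anti (K : Submodule k E) (A : ι → Submodule k E) {Y Y' : Finset ι} (h : Y ⊆ Y') :
    Isp K A Y' ≤ Isp K A Y := by
  intro z hz
  rw [mem_Isp] at hz ⊢
  exact ⟨hz.1, fun w hw => hz.2 w (h hw)⟩

lemma Isp_congr (K : Submodule k E) {A A' : ι → Submodule k E} {Y : Finset ι}
    (h : ∀ w ∈ Y, A w = A' w) : Isp K A Y = Isp K A' Y := by
  ext z
  simp only [mem_Isp]
  constructor
  · rintro ⟨h1, h2⟩
    exact ⟨h1, fun w hw => h w hw ▸ h2 w hw⟩
  · rintro ⟨h1, h2⟩
    exact ⟨h1, fun w hw => (h w hw).symm ▸ h2 w hw⟩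

lemma Isp_insert (K : Submodule k E) (A : ι → Submodule k E) (Y : Finset ι) (u : ι) :
    Isp K A (insert u Y) = Isp K A Y ⊓ A u := by
  ext z
  simp only [mem_Isp, Submodule.mem_inf, Finset.mem_insert, forall_eq_or_imp]
  tauto

lemma Isp_erase_inf (K : Submodule k E) (A : ι → Submodule k E) {X : Finset ι} {u : ι}
    (hu : u ∈ X) : Isp K A (X.erase u) ⊓ A u = Isp K A X := by
  rw [← Isp_insert, Finset.insert_erase hu]

/-- The hyperplane `H_u = (K ⊓ A u) ⊔ B_u`. -/
def Hsp (K : Submodule k E) (A : ι → Submodule k E) (X : Finset ι) (u : ι) : Submodule k E :=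
  (K ⊓ A u) ⊔ Isp K A (X.erase u)

/-- The space `Q = ∑ B_u`. -/
def Qsp (K : Submodule k E) (A : ι → Submodule k E) (X : Finset ι) : Submodule k E :=
  ⨆ u ∈ X, Isp K A (X.erase u)

lemma Qsp_le (K : Submodule k E) (A : ι → Submodule k E) (X : Finset ι) : Qsp K A X ≤ K :=
  iSup₂_le fun _ _ => Isp_le _ _ _

lemma Isp_le_Qsp (K : Submodule k E) (A : ι → Submodule k E) {X : Finset ι} {u : ι}
    (hu : u ∈ X) : Isp K A (X.erase u) ≤ Qsp K A X :=
  le_iSup₂_of_le u hu le_rfl

lemma Isp_le_Hsp (K : Submodule k E) (A : ι → Submodule k E) {X : Finset ι} {u w : ι}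
    (hu : u ∈ X) : Isp K A (X.erase w) ≤ Hsp K A X u := by
  by_cases h : u = w
  · subst h
    exact le_sup_right
  · refine le_sup_of_le_left ?_
    intro z hz
    rw [mem_Isp] at hz
    exact ⟨hz.1, hz.2 u (Finset.mem_erase.mpr ⟨h, hu⟩)⟩

lemma Qsp_le_Hsp (K : Submodule k E) (A : ι → Submodule k E) {X : Finset ι} {u : ι}
    (hu : u ∈ X) : Qsp K A X ≤ Hsp K A X u :=
  iSup₂_le fun _ _ => Isp_le_Hsp K A hu

/-- `Q` is the intersection of the `H_w`, `w ≠ u`. -/
lemma Qsp_eq_inf_Hsp (K : Submodule k E) (A : ι → Submodule k E) {X : Finset ι} {u : ι}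
    (hu : u ∈ X) : Qsp K A X = K ⊓ ⨅ w ∈ X.erase u, Hsp K A X w := by
  apply le_antisymm
  · refine le_inf (Qsp_le K A X) (le_iInf₂ fun w hw => ?_)
    exact Qsp_le_Hsp K A (Finset.mem_of_mem_erase hw)
  · intro z hz
    rw [Submodule.mem_inf] at hz
    obtain ⟨hzK, hz⟩ := hz
    simp only [Submodule.mem_iInf] at hz
    have h1 : ∀ w ∈ X.erase u, ∃ b ∈ Isp K A (X.erase w), z - b ∈ A w := by
      intro w hw
      obtain ⟨a, ha, b, hb, hab⟩ := Submodule.mem_sup.mp (hz w hw)
      exact ⟨b, hb, by rw [← hab, add_sub_cancel_right]; exact ha.2⟩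
    choose! b hb1 hb2 using h1
    have h2 : z - ∑ w ∈ X.erase u, b w ∈ Isp K A (X.erase u) := by
      rw [mem_Isp]
      refine ⟨K.sub_mem hzK (Submodule.sum_mem _ fun w hw => Isp_le _ _ _ (hb1 w hw)), ?_⟩
      intro w hw
      have e : z - ∑ w ∈ X.erase u, b w = (z - b w) - ∑ w' ∈ (X.erase u).erase w, b w' := by
        rw [← Finset.add_sum_erase _ _ hw]
        abel
      rw [e]
      refine (A w).sub_mem (hb2 w hw) (Submodule.sum_mem _ fun w' hw' => ?_)
      have h3 := hb1 w' (Finset.mem_of_mem_erase hw')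
      rw [mem_Isp] at h3
      refine h3.2 w (Finset.mem_erase.mpr ⟨?_, Finset.mem_of_mem_erase hw⟩)
      exact fun h => (Finset.mem_erase.mp hw').1 h.symm
    have e : z = (z - ∑ w ∈ X.erase u, b w) + ∑ w ∈ X.erase u, b w := by abel
    rw [e]
    refine Submodule.add_mem _ (Isp_le_Qsp K A hu h2) (Submodule.sum_mem _ fun w hw => ?_)
    exact Isp_le_Qsp K A (Finset.mem_of_mem_erase hw) (hb1 w hw)

/-- adding a space that exceeds a common subspace by one dimension -/
lemma finrank_sup_le_succ {S B D : Submodule k E} [FiniteDimensional k S] [FiniteDimensional k B]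
    (hDS : D ≤ S) (hDB : D ≤ B) (hB : finrank k B ≤ finrank k D + 1) :
    finrank k (S ⊔ B : Submodule k E) ≤ finrank k S + 1 := by
  have h := Submodule.finrank_sup_add_finrank_inf_eq S B
  have hD : finrank k D ≤ finrank k (S ⊓ B : Submodule k E) := by
    have : FiniteDimensional k (S ⊓ B : Submodule k E) :=
      Submodule.finiteDimensional_of_le inf_le_left
    exact Submodule.finrank_mono (le_inf hDS hDB)
  omega

/-- intersecting with a hyperplane of `K` -/
lemma finrank_le_inf_succ {K S H : Submodule k E} [FiniteDimensional k K]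
    (hS : S ≤ K) (hH : H ≤ K) (hK : finrank k K ≤ finrank k H + 1) :
    finrank k S ≤ finrank k (S ⊓ H : Submodule k E) + 1 := by
  have : FiniteDimensional k S := Submodule.finiteDimensional_of_le hS
  have : FiniteDimensional k H := Submodule.finiteDimensional_of_le hH
  have h := Submodule.finrank_sup_add_finrank_inf_eq S H
  have h2 : finrank k (S ⊔ H : Submodule k E) ≤ finrank k K :=
    Submodule.finrank_mono (sup_le hS hH)
  omega

/-- Relative version: `Q ≤ H`, and `A` has codimension at most one in `H`. -/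
lemma finrank_le_of_le_codim {H Q A : Submodule k E} [FiniteDimensional k H]
    (hQ : Q ≤ H) (hA : finrank k H ≤ finrank k (H ⊓ A : Submodule k E) + 1) :
    finrank k Q ≤ finrank k (Q ⊓ A : Submodule k E) + 1 := by
  have h1 := finrank_le_inf_succ (K := H) (S := Q) (H := H ⊓ A) hQ inf_le_left hA
  have e : Q ⊓ (H ⊓ A) = Q ⊓ A := by
    rw [← inf_assoc, inf_eq_left.mpr hQ]
  rwa [e] at h1

/-- The dimension hypotheses of the Main Lemma. -/
structure DimHyp (K : Submodule k E) (A : ι → Submodule k E) (X : Finset ι) (c : ℕ) : Prop where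
  fin : FiniteDimensional k K
  proper : ∀ Y ⊆ X, Y ≠ X → finrank k (Isp K A Y) + 2 * Y.card = 2 * X.card + c
  full : finrank k (Isp K A X) = c + 1

section main

variable {K : Submodule k E} {A : ι → Submodule k E} {X : Finset ι} {c : ℕ}

lemma DimHyp.finrank_K (h : DimHyp K A X c) (hX : X.Nonempty) :
    finrank k K = 2 * X.card + c := by
  have h1 := h.proper ∅ (Finset.empty_subset _) hX.ne_empty.symm
  have e : Isp K A ∅ = K := by ext z; simp [mem_Isp]
  rw [e] at h1
  simpa using h1

lemma DimHyp.finrank_erase (h : DimHyp K A X c) {u : ι} (hu : u ∈ X) :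
    finrank k (Isp K A (X.erase u)) = c + 2 := by
  have h0 : X.erase u ≠ X := by
    intro e
    have h1 : u ∈ X.erase u := by rw [e]; exact hu
    exact Finset.notMem_erase u X h1
  have h1 := h.proper (X.erase u) (Finset.erase_subset _ _) h0
  have h2 := Finset.card_erase_add_one hu
  omega

lemma DimHyp.finrank_erase₂ (h : DimHyp K A X c) {u v : ι} (hu : u ∈ X) (hv : v ∈ X)
    (huv : u ≠ v) : finrank k (Isp K A ((X.erase u).erase v)) = c + 4 := by
  have h0 : (X.erase u).erase v ≠ X := by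
    intro e
    have h1 : u ∈ (X.erase u).erase v := by rw [e]; exact hu
    exact Finset.notMem_erase u X (Finset.mem_of_mem_erase h1)
  have h1 := h.proper ((X.erase u).erase v)
    ((Finset.erase_subset _ _).trans (Finset.erase_subset _ _)) h0
  have h2 := Finset.card_erase_add_one hu
  have h3 := Finset.card_erase_add_one (Finset.mem_erase.mpr ⟨huv.symm, hv⟩)
  omega

lemma DimHyp.finrank_Hsp (h : DimHyp K A X c) {u : ι} (hu : u ∈ X) :
    finrank k (Hsp K A X u) = finrank k (K ⊓ A u : Submodule k E) + 1 := by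
  have := h.fin
  have : FiniteDimensional k (K ⊓ A u : Submodule k E) :=
    Submodule.finiteDimensional_of_le inf_le_left
  have : FiniteDimensional k (Isp K A (X.erase u)) :=
    Submodule.finiteDimensional_of_le (Isp_le _ _ _)
  have h1 := Submodule.finrank_sup_add_finrank_inf_eq (K ⊓ A u) (Isp K A (X.erase u))
  have h2 := h.finrank_erase hu
  have h3 := h.full
  have e : K ⊓ A u ⊓ Isp K A (X.erase u) = Isp K A X := by
    rw [← Isp_erase_inf K A hu]
    ext z
    simp only [Submodule.mem_inf, mem_Isp]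
    tauto
  rw [e] at h1
  unfold Hsp
  omega

lemma Hsp_le (K : Submodule k E) (A : ι → Submodule k E) (X : Finset ι) (u : ι) :
    Hsp K A X u ≤ K := sup_le inf_le_left (Isp_le _ _ _)

lemma DimHyp.codim_Hsp (h : DimHyp K A X c) {u : ι} (hu : u ∈ X) :
    finrank k K ≤ finrank k (Hsp K A X u) + 1 := by
  have h1 := h.finrank_Hsp hu
  by_cases h2 : X = {u}
  · subst h2
    have h3 := h.full
    have h4 := h.finrank_K ⟨u, hu⟩
    have e : Isp K A {u} = K ⊓ A u := by ext z; simp [mem_Isp]
    rw [e] at h3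
    simp only [Finset.card_singleton] at h4
    omega
  · have h3 := h.proper {u} (Finset.singleton_subset_iff.mpr hu) (Ne.symm h2)
    have h4 := h.finrank_K ⟨u, hu⟩
    have e : Isp K A {u} = K ⊓ A u := by ext z; simp [mem_Isp]
    rw [e] at h3
    simp only [Finset.card_singleton] at h3
    omega

lemma finrank_inf_family_ge {K : Submodule k E} [FiniteDimensional k K] (H : ι → Submodule k E)
    (Y : Finset ι) (hH : ∀ w ∈ Y, H w ≤ K) (hK : ∀ w ∈ Y, finrank k K ≤ finrank k (H w) + 1) :
    finrank k K ≤ finrank k (K ⊓ ⨅ w ∈ Y, H w : Submodule k E) + Y.card := by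
  induction Y using Finset.induction_on with
  | empty =>
    have e : (⨅ w ∈ (∅ : Finset ι), H w) = ⊤ := by simp
    rw [e, inf_top_eq]
    simp
  | insert u Y hu ih =>
    have h1 := ih (fun w hw => hH w (Finset.mem_insert_of_mem hw))
      (fun w hw => hK w (Finset.mem_insert_of_mem hw))
    have h2 := finrank_le_inf_succ (K := K) (S := K ⊓ ⨅ w ∈ Y, H w) (H := H u) inf_le_left
      (hH u (Finset.mem_insert_self _ _)) (hK u (Finset.mem_insert_self _ _))
    have e : K ⊓ ⨅ w ∈ insert u Y, H w = (K ⊓ ⨅ w ∈ Y, H w) ⊓ H u := by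
      rw [Finset.iInf_insert, inf_assoc, inf_comm (H u)]
    rw [e, Finset.card_insert_of_notMem hu]
    omega

lemma finrank_sup_family_le {D : Submodule k E} [FiniteDimensional k D] (B : ι → Submodule k E)
    (Y : Finset ι) (hfin : ∀ w ∈ Y, FiniteDimensional k (B w)) (hD : ∀ w ∈ Y, D ≤ B w)
    (hB : ∀ w ∈ Y, finrank k (B w) ≤ finrank k D + 1) :
    FiniteDimensional k (D ⊔ ⨆ w ∈ Y, B w : Submodule k E) ∧
      finrank k (D ⊔ ⨆ w ∈ Y, B w : Submodule k E) ≤ finrank k D + Y.card := by
  induction Y using Finset.induction_on with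
  | empty =>
    have e : (⨆ w ∈ (∅ : Finset ι), B w) = ⊥ := by simp
    rw [e, sup_bot_eq]
    exact ⟨inferInstance, by simp⟩
  | insert u Y hu ih =>
    obtain ⟨h0, h1⟩ := ih (fun w hw => hfin w (Finset.mem_insert_of_mem hw))
      (fun w hw => hD w (Finset.mem_insert_of_mem hw))
      (fun w hw => hB w (Finset.mem_insert_of_mem hw))
    have h0' := hfin u (Finset.mem_insert_self _ _)
    have e : D ⊔ ⨆ w ∈ insert u Y, B w = (D ⊔ ⨆ w ∈ Y, B w) ⊔ B u := by
      rw [Finset.iSup_insert, sup_assoc, sup_comm (B u)]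
    rw [e, Finset.card_insert_of_notMem hu]
    refine ⟨inferInstance, ?_⟩
    have h2 := finrank_sup_le_succ (S := D ⊔ ⨆ w ∈ Y, B w) (B := B u) (D := D) le_sup_left
      (hD u (Finset.mem_insert_self _ _)) (hB u (Finset.mem_insert_self _ _))
    omega

/-- **Main Lemma, dimension**: `dim Q = |X| + 1 + c`. -/
theorem DimHyp.finrank_Qsp (h : DimHyp K A X c) (hX : X.Nonempty) :
    finrank k (Qsp K A X) = X.card + 1 + c := by
  obtain ⟨u, hu⟩ := hX
  have := h.fin
  have hcard := Finset.card_erase_add_one hu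
  apply le_antisymm
  · have : FiniteDimensional k (Isp K A X) := Submodule.finiteDimensional_of_le (Isp_le _ _ _)
    have h1 := finrank_sup_family_le (D := Isp K A X) (fun w => Isp K A (X.erase w)) X
      (fun w _ => Submodule.finiteDimensional_of_le (Isp_le _ _ _))
      (fun w _ => Isp_anti _ _ (Finset.erase_subset _ _))
      (fun w hw => by rw [h.finrank_erase hw, h.full])
    obtain ⟨h1, h2⟩ := h1
    have h3 : Qsp K A X ≤ Isp K A X ⊔ ⨆ w ∈ X, Isp K A (X.erase w) := le_sup_right
    have h4 := Submodule.finrank_mono h3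
    have h5 := h.full
    omega
  · have h1 := finrank_inf_family_ge (K := K) (fun w => Hsp K A X w) (X.erase u)
      (fun w _ => Hsp_le _ _ _ _) (fun w hw => h.codim_Hsp (Finset.mem_of_mem_erase hw))
    rw [← Qsp_eq_inf_Hsp K A hu, h.finrank_K ⟨u, hu⟩] at h1
    omega

/-- **Main Lemma, rank one**: `A u` imposes at most one condition on any subspace of `H_u`. -/
theorem DimHyp.finrank_le_of_le_Hsp (h : DimHyp K A X c) {u : ι} (hu : u ∈ X)
    {S : Submodule k E} (hS : S ≤ Hsp K A X u) :
    finrank k S ≤ finrank k (S ⊓ A u : Submodule k E) + 1 := by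
  have := h.fin
  have : FiniteDimensional k (Hsp K A X u) := Submodule.finiteDimensional_of_le (Hsp_le _ _ _ _)
  refine finrank_le_of_le_codim hS ?_
  have h1 := h.finrank_Hsp hu
  have h2 : finrank k (K ⊓ A u : Submodule k E)
      ≤ finrank k (Hsp K A X u ⊓ A u : Submodule k E) := by
    have : FiniteDimensional k (Hsp K A X u ⊓ A u : Submodule k E) :=
      Submodule.finiteDimensional_of_le inf_le_left
    exact Submodule.finrank_mono (le_inf le_sup_left inf_le_right)
  omega

end main

/-- The space `L_uv` of the pair lemma. -/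
def Lsp (K : Submodule k E) (A : ι → Submodule k E) (X : Finset ι) (u v : ι) : Submodule k E :=
  (Isp K A ((X.erase u).erase v) ⊓ A u) ⊔ (Isp K A ((X.erase u).erase v) ⊓ A v)

lemma Lsp_eq (K : Submodule k E) (A : ι → Submodule k E) {X : Finset ι} {u v : ι}
    (hu : u ∈ X) (hv : v ∈ X) (huv : u ≠ v) :
    Lsp K A X u v = Isp K A (X.erase v) ⊔ Isp K A (X.erase u) := by
  have h1 : Isp K A ((X.erase u).erase v) ⊓ A v = Isp K A (X.erase u) :=
    Isp_erase_inf K A (Finset.mem_erase.mpr ⟨huv.symm, hv⟩)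
  have h2 : Isp K A ((X.erase u).erase v) ⊓ A u = Isp K A (X.erase v) := by
    rw [Finset.erase_right_comm]
    exact Isp_erase_inf K A (Finset.mem_erase.mpr ⟨huv, hu⟩)
  rw [Lsp, h1, h2]

lemma Hsp_eq_Lsp (K : Submodule k E) (A : ι → Submodule k E) {X : Finset ι} {u v : ι}
    (hu : u ∈ X) (hv : v ∈ X) (huv : u ≠ v) :
    Hsp K A X u = (K ⊓ A u) ⊔ Lsp K A X u v := by
  rw [Lsp_eq K A hu hv huv, Hsp, ← sup_assoc]
  congr 1
  refine (sup_eq_left.mpr ?_).symm
  intro z hz
  rw [mem_Isp] at hz
  exact ⟨hz.1, hz.2 u (Finset.mem_erase.mpr ⟨huv, hu⟩)⟩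

section Family

variable {V F : Type*} [DecidableEq V] [AddCommGroup F] [Module k F] [Infinite k]

/-- **Main Lemma, independence.**  `K p` and `A w p` depend on `p` such that moving the vertex
`u ∈ X` only changes `A u`.  If (pair lemma) `L_uv` does not change when `u` is moved, then `Q`
does not change when `u` is moved. -/
theorem Qsp_update {K : (V → F) → Submodule k E} {A : (V → F) → V → Submodule k E}
    {X : Finset V} {p : V → F} {u : V} (hu : u ∈ X) {x : F}
    (hK : K (Function.update p u x) = K p)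
    (hA : ∀ w ∈ X, w ≠ u → A (Function.update p u x) w = A p w)
    (hL : ∀ v ∈ X, v ≠ u →
      Lsp (K p) (A (Function.update p u x)) X u v = Lsp (K p) (A p) X u v) :
    Qsp (K (Function.update p u x)) (A (Function.update p u x)) X = Qsp (K p) (A p) X := by
  rw [hK, Qsp_eq_inf_Hsp (K p) (A p) hu, Qsp_eq_inf_Hsp (K p) (A (Function.update p u x)) hu]
  congr 1
  refine iInf_congr fun w => iInf_congr fun hw => ?_
  obtain ⟨hwu, hwX⟩ := Finset.mem_erase.mp hw
  have e1 := Hsp_eq_Lsp (K p) (A p) hwX hu hwu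
  have e2 := Hsp_eq_Lsp (K p) (A (Function.update p u x)) hwX hu hwu
  have e3 : ∀ B : V → Submodule k E, Lsp (K p) B X w u = Lsp (K p) B X u w := by
    intro B
    rw [Lsp_eq _ _ hwX hu hwu, Lsp_eq _ _ hu hwX hwu.symm, sup_comm]
  rw [e1, e2, e3, e3, hL w hwX hwu, hA w hwX hwu]

end Family

end GR
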