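import Pool.Agent.Lib.GR.CMat
import Pool.Agent.Lib.GR.MinCE

/-!
# Lemma N, part 1: sweeping

For a degree five vertex `w` of a basis `E` of the bad flat `H`, every pair of `H` avoiding `w` is
rigid on the motions of `E - w`, i.e. `H - w = cl (E - w)`.
-/

set_option linter.unusedSectionVars false

namespace GR

open Filter Module

open scoped Matrix

variable {k : Type*} [Field k] [Infinite k] {V : Type*} [DecidableEq V]

section

variable {A : Finset V} {H E : Finset (Sym2 V)} {p : V → Vec k}

/-- dimension of `E - w` for a vertex of degree five -/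
lemma CBasis.mdim_erase_five (h : BadAt A H p) (hE : CBasis A H E p) {w : V} (hw : w ∈ A)
    (h5 : (nbr (A.erase w) (E : Set (Sym2 V)) w).card = 5) :
    finrank k (Mot (A.erase w) (E : Set (Sym2 V)) p) = 8 := by
  have h1 := h.mdim_rest hE.ind (Finset.erase_ssubset hw)
  have h2 := card_rest_erase (hE.sub_Kf h) w
  have h3 := hE.card
  have h4 := Finset.card_erase_add_one hw
  have h6 : mdim (A.erase w) (E : Set (Sym2 V)) p = 8 := by omega
  exact h6

/-- **(N1) Sweeping.** -/
theorem CBasis.sweep (h : BadAt A H p) (hE : CBasis A H E p) {w : V} (hw : w ∈ A)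
    (h5 : (nbr (A.erase w) (E : Set (Sym2 V)) w).card = 5) {a b : V} (ha : a ∈ A.erase w)
    (hb : b ∈ A.erase w) (hab : s(a, b) ∈ H) :
    ∀ Z ∈ Mot (A.erase w) (E : Set (Sym2 V)) p, eps p a b Z = 0 := by
  by_contra hcon
  push Not at hcon
  obtain ⟨Z₀, hZ₀, hne⟩ := hcon
  set N := nbr (A.erase w) (E : Set (Sym2 V)) w with hN
  set M := Mot (A.erase w) (E : Set (Sym2 V)) p with hM
  set M' : Submodule k (V → Vec k) := M ⊓ LinearMap.ker (eps p a b) with hM'
  have hfd : FiniteDimensional k M' := Submodule.finiteDimensional_of_le inf_le_left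
  have haw : a ≠ w := Finset.ne_of_mem_erase ha
  have hbw : b ≠ w := Finset.ne_of_mem_erase hb
  have hEK := hE.sub_Kf h
  have d8 : finrank k M = 8 := hE.mdim_erase_five h hw h5
  have d7 : finrank k M' ≤ 7 := by
    have : finrank k M' < finrank k M := Submodule.finrank_lt_finrank_of_lt
      (lt_of_le_of_ne inf_le_left fun hc => hne (by
        have h1 : Z₀ ∈ M' := by rw [hc]; exact hZ₀
        exact h1.2))
    omega
  have hN4 : 4 ≤ N.card := by omega
  have hNA : N ⊆ A.erase w := nbr_subset _ _ _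
  have hgp : GenPos p (N : Set V) :=
    h.nice.gp.mono (by exact_mod_cast hNA.trans (Finset.erase_subset w A))
  have hev : ∀ᶠ x in gen k (Vec k), M' ≤ Att p (N : Set V) x := by
    filter_upwards [h.nice.eventually_att (E : Set (Sym2 V)) hw hN4, h.nice.upd w hw] with x hx hx'
    set q := Function.update p w x with hq
    have hcl : clF A E q = H := by
      rw [clF_eq_of_regular hEK hx'.1 h.nice.reg, hE.clF_eq h]
    have hpq : ∀ c, c ≠ w → q c = p c := fun c hc => Function.update_of_ne hc _ _
    have hMq : Mot (A.erase w) (E : Set (Sym2 V)) q = M :=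
      Mot_congr_pts fun c hc => hpq c (Finset.ne_of_mem_erase hc)
    have hle : (M ⊓ Att p (N : Set V) x : Submodule k (V → Vec k)) ≤ M' := by
      rintro Z ⟨hZ1, hZ2⟩
      refine ⟨hZ1, ?_⟩
      have h1 : Z ∈ (Mot (insert w (A.erase w)) (E : Set (Sym2 V)) q).map (forget k w) := by
        rw [map_forget_Mot (Finset.notMem_erase w A), hMq, ← hN]
        refine ⟨hZ1, ?_⟩
        have h2 : Att q (N : Set V) (q w) = Att p (N : Set V) x := by
          rw [hq, Function.update_self]
          exact Att_congr_at (fun v hv => hpq v (Finset.ne_of_mem_erase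
            (hNA (by exact_mod_cast hv)))) x
        rw [h2]
        exact hZ2
      rw [Finset.insert_erase hw] at h1
      obtain ⟨Y, hY, hYZ⟩ := h1
      have h3 : s(a, b) ∈ clF A E q := by rw [hcl]; exact hab
      have h4 := (mem_clo_iff_Mot hEK (Finset.mem_of_mem_erase ha)
        (Finset.mem_of_mem_erase hb)).mp (mem_clF.mp h3).2 Y hY
      show eps p a b Z = 0
      rw [eps_apply, ← hYZ, forget_apply_of_ne haw, forget_apply_of_ne hbw]
      rw [eps_apply, hpq a haw, hpq b hbw] at h4
      exact h4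
    have heq : (M ⊓ Att p (N : Set V) x : Submodule k (V → Vec k)) = M' := by
      refine Submodule.eq_of_le_of_finrank_le hle ?_
      rw [hx, hE.mdim_eq h]
      exact d7
    rw [← heq]
    exact inf_le_right
  have hRG : M' ≤ RG p (N : Set V) :=
    le_RG_of_Att h.two hN4 hgp (fun Z hZ v hv => hZ.1.2.1 v (hNA hv)) hev
  refine hE.flex h hw fun Z hZ => ?_
  have h1 : forget k w Z ∈ M' := by
    refine ⟨?_, ?_⟩
    · have h2 : forget k w Z ∈ (M ⊓ Att p (N : Set V) (p w) : Submodule k (V → Vec k)) := by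
        rw [hM, hN, ← map_forget_Mot (Finset.notMem_erase w A), Finset.insert_erase hw]
        exact Submodule.mem_map_of_mem hZ
      exact h2.1
    · show eps p a b (forget k w Z) = 0
      rw [eps_apply, forget_apply_of_ne haw, forget_apply_of_ne hbw]
      rw [hE.Mot_eq h] at hZ
      exact hZ.2.2 a (Finset.mem_of_mem_erase ha) b (Finset.mem_of_mem_erase hb)
        (by exact_mod_cast hab)
  obtain ⟨S, hS, h11⟩ := hRG h1
  refine ⟨S, hS, fun i hi => ?_⟩
  rw [← h11 i hi, forget_apply_of_ne]
  rintro rfl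
  exact notMem_nbr_erase A _ _ (by exact_mod_cast hi)

/-- The closure of `E - w` is `H - w`. -/
theorem CBasis.clF_erase (h : BadAt A H p) (hE : CBasis A H E p) {w : V} (hw : w ∈ A)
    (h5 : (nbr (A.erase w) (E : Set (Sym2 V)) w).card = 5) :
    clF (A.erase w) (rest E (A.erase w)) p = rest H (A.erase w) := by
  have hEK : rest E (A.erase w) ⊆ Kf (A.erase w) :=
    rest_subset_Kf (fun e he => (mem_Kf.mp (hE.sub_Kf h he)).1) _
  apply Finset.Subset.antisymm
  · refine (h.flat.rest (Finset.erase_subset w A)).clF_subset_of ?_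
    intro e he
    rw [mem_rest] at he ⊢
    exact ⟨hE.sub he.1, he.2⟩
  · intro e he
    induction e using Sym2.ind with
    | _ a b =>
      rw [mem_rest] at he
      have ha := he.2 a (by simp)
      have hb := he.2 b (by simp)
      have hK := mk_mem_Kf.mp (h.flat.1 he.1)
      rw [mem_clF, mk_mem_Kf]
      refine ⟨⟨hK.1, ha, hb⟩, ?_⟩
      rw [mem_clo_iff_Mot hEK ha hb, Mot_rest]
      exact hE.sweep h hw h5 ha hb he.1

/-- Motions of `E - w` and of `H - w` agree. -/
theorem CBasis.Mot_erase (h : BadAt A H p) (hE : CBasis A H E p) {w : V} (hw : w ∈ A)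
    (h5 : (nbr (A.erase w) (E : Set (Sym2 V)) w).card = 5) :
    Mot (A.erase w) (E : Set (Sym2 V)) p = Mot (A.erase w) (H : Set (Sym2 V)) p := by
  refine le_antisymm ?_ (Mot_anti (by exact_mod_cast hE.sub) p)
  intro Z hZ
  exact ⟨hZ.1, hZ.2.1, fun a ha b hb hab => hE.sweep h hw h5 ha hb (by exact_mod_cast hab) Z hZ⟩

/-- A set of vertices which is a clique of `H` and avoids `w` is rigid on `E - w`. -/
theorem CBasis.le_RG_erase (h : BadAt A H p) (hE : CBasis A H E p) {w : V} (hw : w ∈ A)
    (h5 : (nbr (A.erase w) (E : Set (Sym2 V)) w).card = 5) {T : Finset V} (hT : T ⊆ A.erase w)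
    (h3 : 3 ≤ T.card) (hK : Kf T ⊆ H) :
    Mot (A.erase w) (E : Set (Sym2 V)) p ≤ RG p (T : Set V) := by
  rw [hE.Mot_erase h hw h5]
  exact le_RG_of_Kf (h.nice.gp.mono (by exact_mod_cast Finset.erase_subset w A)) hT h3 hK

end

end GR
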