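import Pool.Agent.Lib.GR.NH1

/-!
# Lemma N, part 2: stresses with at most six edges at a vertex
-/

set_option linter.unusedSectionVars false

namespace GR

open Filter Module

open scoped Matrix

section Count

variable {V : Type*} [DecidableEq V]

/-- counting: with `a` cliques at least `a + 4` points are covered exactly once. -/
theorem add_four_le_of_count {J : Finset (Finset V)} (U : Finset V → Finset V)
    (hU : ∀ N ∈ J, U N ⊆ N) (hU4 : ∀ N ∈ J, 4 ≤ (U N).card)
    (hcount : ∑ N ∈ J, (2 * (N.card : ℤ) - 3) + 4 ≤ 2 * ((J.biUnion id).card : ℤ)) :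
    J.card + 4 ≤ ((J.biUnion id).filter fun w => (J.filter fun N => w ∈ U N).card = 1).card := by
  classical
  set W := J.biUnion id with hW
  have hm : ∀ w : V, (J.filter fun N => w ∈ U N).card ≤ (J.filter fun N => w ∈ N).card := by
    intro w
    refine Finset.card_le_card fun N hN => ?_
    rw [Finset.mem_filter] at hN ⊢
    exact ⟨hN.1, hU N hN.1 hN.2⟩
  have hsumN : ∑ N ∈ J, (N.card : ℤ) = ∑ w ∈ W, ((J.filter fun N => w ∈ N).card : ℤ) := by
    have h1 : ∀ N ∈ J, (N.card : ℤ) = ∑ w ∈ W, if w ∈ N then (1 : ℤ) else 0 := by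
      intro N hN
      rw [← Finset.sum_filter, Finset.sum_const, nsmul_eq_mul, mul_one]
      have : W.filter (· ∈ N) = N := by
        ext w
        rw [Finset.mem_filter, hW, Finset.mem_biUnion]
        exact ⟨fun h => h.2, fun h => ⟨⟨N, hN, h⟩, h⟩⟩
      rw [this]
    rw [Finset.sum_congr rfl h1, Finset.sum_comm]
    refine Finset.sum_congr rfl fun w _ => ?_
    rw [← Finset.sum_filter, Finset.sum_const, nsmul_eq_mul, mul_one]
  have hsumU : ∑ N ∈ J, ((U N).card : ℤ) = ∑ w ∈ W, ((J.filter fun N => w ∈ U N).card : ℤ) := by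
    have h1 : ∀ N ∈ J, ((U N).card : ℤ) = ∑ w ∈ W, if w ∈ U N then (1 : ℤ) else 0 := by
      intro N hN
      rw [← Finset.sum_filter, Finset.sum_const, nsmul_eq_mul, mul_one]
      have : W.filter (· ∈ U N) = U N := by
        ext w
        rw [Finset.mem_filter, hW, Finset.mem_biUnion]
        exact ⟨fun h => h.2, fun h => ⟨⟨N, hN, hU N hN h⟩, h⟩⟩
      rw [this]
    rw [Finset.sum_congr rfl h1, Finset.sum_comm]
    refine Finset.sum_congr rfl fun w _ => ?_
    rw [← Finset.sum_filter, Finset.sum_const, nsmul_eq_mul, mul_one]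
  have hmpos : ∀ w ∈ W, 1 ≤ (J.filter fun N => w ∈ N).card := by
    intro w hw
    rw [hW, Finset.mem_biUnion] at hw
    obtain ⟨N, hN, hwN⟩ := hw
    exact Finset.card_pos.mpr ⟨N, Finset.mem_filter.mpr ⟨hN, hwN⟩⟩
  have hpt : ∀ w ∈ W, ((J.filter fun N => w ∈ U N).card : ℤ) ≤
      (if (J.filter fun N => w ∈ U N).card = 1 then 1 else 0)
        + (2 * ((J.filter fun N => w ∈ N).card : ℤ) - 2) := by
    intro w hw
    have h1 := hm w
    have h3 := hmpos w hw
    split_ifs with h
    · omega
    · omega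
  have hO : (((W.filter fun w => (J.filter fun N => w ∈ U N).card = 1).card : ℕ) : ℤ)
      = ∑ w ∈ W, (if (J.filter fun N => w ∈ U N).card = 1 then (1 : ℤ) else 0) := by
    rw [← Finset.sum_filter, Finset.sum_const, nsmul_eq_mul, mul_one]
  have h4 : (4 : ℤ) * J.card ≤ ∑ N ∈ J, ((U N).card : ℤ) := by
    have : ∑ N ∈ J, (4 : ℤ) ≤ ∑ N ∈ J, ((U N).card : ℤ) :=
      Finset.sum_le_sum fun N hN => by exact_mod_cast hU4 N hN
    rw [Finset.sum_const, nsmul_eq_mul] at this
    linarith
  have h5 := Finset.sum_le_sum hpt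
  rw [Finset.sum_add_distrib, ← hO, ← hsumU, Finset.sum_sub_distrib, ← Finset.mul_sum, ← hsumN,
    Finset.sum_const, nsmul_eq_mul] at h5
  rw [Finset.sum_sub_distrib, ← Finset.mul_sum, Finset.sum_const, nsmul_eq_mul] at hcount
  have h7 : ((J.card : ℤ) + 4) ≤
      ((W.filter fun w => (J.filter fun N => w ∈ U N).card = 1).card : ℕ) := by
    linarith
  exact_mod_cast h7

end Count

variable {k : Type*} [Field k] {V : Type*} [DecidableEq V]

/-- **Stresses with at most six edges at `v`**: the support is a clique, or it is the disjoint union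
of two triples which are (together with `v`) cliques. -/
theorem six_of_mem_S5 {A : Finset V} {D : Finset (Sym2 V)} {p : V → Vec k} {v : V}
    (hv : v ∈ A) (hD : D ⊆ Kf A) (hp : GenPos p (A : Set V)) (hcount : CountAt A D v)
    {ω : Sym2 V → k} (hω : ω ∈ S5 D p) (h6 : (suppAt A ω v).card ≤ 6) :
    (Kf (insert v (suppAt A ω v)) ⊆ D ∨ suppAt A ω v = ∅) ∨
    ∃ T₁ T₂ : Finset V, T₁.card = 3 ∧ T₂.card = 3 ∧ Disjoint T₁ T₂ ∧ T₁ ∪ T₂ = suppAt A ω v ∧
      Kf (insert v T₁) ⊆ D ∧ Kf (insert v T₂) ⊆ D := by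
  classical
  obtain ⟨a, ha, hsum⟩ := star_of_mem_S5 (A := A) (v := v) hD hω
  set J := (bigCl A D v).filter fun N => ∃ w, a N w ≠ 0 with hJ
  have hJsub : J ⊆ bigCl A D v := Finset.filter_subset _ _
  have hsumJ : ∀ w, w ≠ v → ω s(v, w) = ∑ N ∈ J, a N w := by
    intro w hwv
    rw [hsum w hwv]
    symm
    refine Finset.sum_filter_of_ne fun N _ hN => ⟨w, hN⟩
  set U : Finset V → Finset V := fun N => N.filter fun w => a N w ≠ 0 with hUdef
  have hUsub : ∀ N ∈ J, U N ⊆ N := fun N _ => Finset.filter_subset _ _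
  have hU4 : ∀ N ∈ J, 4 ≤ (U N).card := by
    intro N hN
    obtain ⟨w, hw⟩ := (Finset.mem_filter.mp hN).2
    obtain ⟨c, hc⟩ := (ha N (hJsub hN)).2
    have hmax := (mem_bigCl.mp (hJsub hN)).1
    obtain ⟨T, hT, hT'⟩ := four_le_of_dep hmax.notMem (hp.mono (by
      intro x hx
      rcases hx with rfl | hx
      · exact_mod_cast hv
      · exact_mod_cast Finset.mem_of_mem_erase (hmax.sub (by exact_mod_cast hx)))) hc
        ⟨w, (ha N (hJsub hN)).1 w hw, hw⟩
    refine hT.trans (Finset.card_le_card fun w hw => ?_)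
    exact Finset.mem_filter.mpr ⟨(ha N (hJsub hN)).1 w (hT' w hw), hT' w hw⟩
  -- points covered exactly once are in the support
  have hone : ∀ w, (J.filter fun N => w ∈ U N).card = 1 → w ∈ suppAt A ω v := by
    intro w hw
    obtain ⟨N₀, hN₀⟩ := Finset.card_eq_one.mp hw
    have hmem : N₀ ∈ J.filter fun N => w ∈ U N := by
      rw [hN₀]; exact Finset.mem_singleton_self _
    obtain ⟨hN₀J, hN₀w⟩ := Finset.mem_filter.mp hmem
    have hval : a N₀ w ≠ 0 := (Finset.mem_filter.mp hN₀w).2
    have hmax := (mem_bigCl.mp (hJsub hN₀J)).1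
    have h3 := Finset.mem_erase.mp (hmax.sub (hUsub N₀ hN₀J hN₀w))
    rw [mem_suppAt]
    refine ⟨h3.1, h3.2, ?_⟩
    rw [hsumJ w h3.1, Finset.sum_eq_single_of_mem N₀ hN₀J]
    · exact hval
    · intro N hN hne
      by_contra hcon
      have : N ∈ J.filter fun N => w ∈ U N :=
        Finset.mem_filter.mpr ⟨hN, Finset.mem_filter.mpr
          ⟨(ha N (hJsub hN)).1 w hcon, hcon⟩⟩
      rw [hN₀, Finset.mem_singleton] at this
      exact hne this
  by_cases h2 : 2 ≤ J.card
  · right
    have h7 := add_four_le_of_count (J := J) U hUsub hU4 (hcount J hJsub h2)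
    have h8 : ((J.biUnion id).filter fun w => (J.filter fun N => w ∈ U N).card = 1)
        ⊆ suppAt A ω v := fun w hw => hone w (Finset.mem_filter.mp hw).2
    have h9 := Finset.card_le_card h8
    have h10 : J.card = 2 := by omega
    obtain ⟨N₁, N₂, hne, hJ2⟩ := Finset.card_eq_two.mp h10
    have hN₁ : N₁ ∈ J := by rw [hJ2]; simp
    have hN₂ : N₂ ∈ J := by rw [hJ2]; simp
    have hc := hcount J hJsub h2
    rw [hJ2, Finset.sum_pair hne, Finset.biUnion_insert, Finset.singleton_biUnion] at hc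
    simp only [id] at hc
    have h11 := Finset.card_union_add_card_inter N₁ N₂
    have h12 : (U N₁ ∩ U N₂).card ≤ (N₁ ∩ N₂).card :=
      Finset.card_le_card (Finset.inter_subset_inter (hUsub _ hN₁) (hUsub _ hN₂))
    have h13 : (N₁ ∩ N₂).card ≤ 1 := by omega
    have hsub : (U N₁ \ U N₂) ∪ (U N₂ \ U N₁) ⊆ suppAt A ω v := by
      intro w hw
      apply hone
      rw [Finset.card_eq_one]
      rw [Finset.mem_union, Finset.mem_sdiff, Finset.mem_sdiff] at hw
      rcases hw with ⟨hw1, hw2⟩ | ⟨hw1, hw2⟩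
      · refine ⟨N₁, ?_⟩
        ext N
        rw [Finset.mem_filter, Finset.mem_singleton, hJ2, Finset.mem_insert, Finset.mem_singleton]
        constructor
        · rintro ⟨rfl | rfl, h⟩
          · rfl
          · exact absurd h hw2
        · rintro rfl
          exact ⟨Or.inl rfl, hw1⟩
      · refine ⟨N₂, ?_⟩
        ext N
        rw [Finset.mem_filter, Finset.mem_singleton, hJ2, Finset.mem_insert, Finset.mem_singleton]
        constructor
        · rintro ⟨rfl | rfl, h⟩
          · exact absurd h hw2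
          · rfl
        · rintro rfl
          exact ⟨Or.inr rfl, hw1⟩
    have hdisj : Disjoint (U N₁ \ U N₂) (U N₂ \ U N₁) := by
      rw [Finset.disjoint_left]
      intro w hw hw'
      exact (Finset.mem_sdiff.mp hw).2 (Finset.mem_sdiff.mp hw').1
    have h14 := Finset.card_le_card hsub
    rw [Finset.card_union_of_disjoint hdisj] at h14
    have h15 := Finset.card_sdiff_add_card_inter (U N₁) (U N₂)
    have h16 := Finset.card_sdiff_add_card_inter (U N₂) (U N₁)
    rw [Finset.inter_comm] at h16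
    have h17 := hU4 _ hN₁
    have h18 := hU4 _ hN₂
    refine ⟨U N₁ \ U N₂, U N₂ \ U N₁, by omega, by omega, hdisj, ?_, ?_, ?_⟩
    · refine Finset.eq_of_subset_of_card_le hsub ?_
      rw [Finset.card_union_of_disjoint hdisj]
      omega
    · have hmax := (mem_bigCl.mp (hJsub hN₁)).1
      exact (Kf_mono (Finset.insert_subset_insert _
        (Finset.sdiff_subset.trans (hUsub _ hN₁)))).trans hmax.clique
    · have hmax := (mem_bigCl.mp (hJsub hN₂)).1
      exact (Kf_mono (Finset.insert_subset_insert _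
        (Finset.sdiff_subset.trans (hUsub _ hN₂)))).trans hmax.clique
  · left
    by_cases h0 : J = ∅
    · right
      rw [Finset.eq_empty_iff_forall_notMem]
      intro w hw
      rw [mem_suppAt] at hw
      apply hw.2.2
      rw [hsumJ w hw.1, h0, Finset.sum_empty]
    · left
      obtain ⟨N, hN⟩ := Finset.nonempty_iff_ne_empty.mpr h0
      have hJN : J = {N} := by
        refine Finset.eq_singleton_iff_unique_mem.mpr ⟨hN, fun M hM => ?_⟩
        by_contra hne
        exact h2 (Finset.one_lt_card.mpr ⟨M, hM, N, hN, hne⟩)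
      have hmax := (mem_bigCl.mp (hJsub hN)).1
      refine (Kf_mono (Finset.insert_subset_insert _ ?_)).trans hmax.clique
      intro w hw
      rw [mem_suppAt] at hw
      have h3 := hsumJ w hw.1
      rw [hJN, Finset.sum_singleton] at h3
      exact (ha N (hJsub hN)).1 w (h3 ▸ hw.2.2)

end GR
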