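import Pool.Agent.Lib.GR.NH2
import Pool.Agent.Lib.GR.TypeConst

/-!
# Lemma N, part 3: the fundamental element of an edge `v y` of `H` outside the basis
-/

set_option linter.unusedSectionVars false

namespace GR

open Filter Module

open scoped Matrix

variable {k : Type*} [Field k] [Infinite k] {V : Type*} [DecidableEq V]

section

variable {A : Finset V} {H E : Finset (Sym2 V)} {p : V → Vec k}

lemma CBasis.deg_eq (h : BadAt A H p) (hE : CBasis A H E p) (v : V) :
    dg A E v = edeg E v := (edeg_eq_card_nbr (hE.sub_Kf h) v).symm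

/-- There are at least twelve vertices of degree five. -/
theorem CBasis.twelve_le (h : BadAt A H p) (hE : CBasis A H E p) :
    12 ≤ (A.filter fun v => dg A E v = 5).card := by
  have hEK := hE.sub_Kf h
  have h1 := sum_edeg (A := A) (E := E) (fun e he => (mem_Kf.mp (hEK he)).2)
    (fun e he => (mem_Kf.mp (hEK he)).1)
  have h2 : ∀ v ∈ A, 6 ≤ edeg E v + if dg A E v = 5 then 1 else 0 := by
    intro v hv
    have h3 := hE.five_le h hv
    have h4 := hE.deg_eq h v
    rw [dg] at h4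
    split_ifs with h5
    · omega
    · rw [dg] at h5
      omega
  have h3 := Finset.sum_le_sum h2
  rw [Finset.sum_const, Finset.sum_add_distrib, h1, ← Finset.card_filter, smul_eq_mul] at h3
  have h4 := hE.card
  omega

/-- a vertex of degree five outside a small set -/
theorem CBasis.exists_five (h : BadAt A H p) (hE : CBasis A H E p) {B : Finset V}
    (hB : B.card ≤ 11) : ∃ w ∈ A, dg A E w = 5 ∧ w ∉ B := by
  by_contra hcon
  push Not at hcon
  have h1 : (A.filter fun v => dg A E v = 5) ⊆ B := fun w hw => by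
    rw [Finset.mem_filter] at hw
    exact hcon w hw.1 hw.2
  have h2 := Finset.card_le_card h1
  have h3 := hE.twelve_le h
  omega

/-- The stress of `E - w` plus an edge of `H` avoiding `w`. -/
theorem CBasis.exists_stress_erase (h : BadAt A H p) (hE : CBasis A H E p) {w : V} (hw : w ∈ A)
    (h5 : dg A E w = 5) {e : Sym2 V} (heH : e ∈ rest H (A.erase w)) (heE : e ∉ E) :
    ∃ σ ∈ Stress (insert e (rest E (A.erase w))) p, σ e = 1 := by
  have h1 : e ∈ clF (A.erase w) (rest E (A.erase w)) p := by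
    rw [hE.clF_erase h hw h5]; exact heH
  have h2 := (mem_clF.mp h1).2
  obtain ⟨a, ha0, ha⟩ := exists_coeff_of_mem_strainSpan (S := rest E (A.erase w)) (p := p)
    (φ := epsS p e) h2
  have heE' : e ∉ rest E (A.erase w) := fun hc => heE (rest_subset _ _ hc)
  refine ⟨fun f => (if f = e then 1 else 0) - a f, ⟨?_, ?_⟩, ?_⟩
  · intro f hf
    rw [Finset.mem_insert, not_or] at hf
    simp [hf.1, ha0 f hf.2]
  · intro Z hZ
    rw [Finset.sum_insert heE']
    have h3 : ∀ f ∈ rest E (A.erase w), ((if f = e then (1 : k) else 0) - a f) * epsS p f Z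
        = -(a f * epsS p f Z) := by
      intro f hf
      have : f ≠ e := fun hc => heE' (hc ▸ hf)
      rw [if_neg this]; ring
    rw [Finset.sum_congr rfl h3, Finset.sum_neg_distrib, ← ha Z hZ]
    simp [ha0 e heE']
  · simp [ha0 e heE']

/-- **The fundamental element** `σ` of an edge of `H` avoiding the degree five vertex `w` is a
stress of `E - w` plus the edge. -/
theorem CBasis.exists_fund_erase (h : BadAt A H p) (hE : CBasis A H E p) {w : V} (hw : w ∈ A)
    (h5 : dg A E w = 5) {e : Sym2 V} (heH : e ∈ rest H (A.erase w)) (heE : e ∉ E) :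
    ∃ σ ∈ Stress (insert e (rest E (A.erase w))) p, σ e = 1 ∧
      ∀ f ∈ E, σ f ≠ 0 → CBasis A H (insert e (E.erase f)) p := by
  obtain ⟨σ, hσ, h1⟩ := hE.exists_stress_erase h hw h5 heH heE
  have heH' : e ∈ H := rest_subset _ _ heH
  obtain ⟨τ, hτ, h2, h3, h4⟩ := hE.exchange h heH' heE
  have hsub : insert e (rest E (A.erase w)) ⊆ rest H (A.erase w) := by
    refine Finset.insert_subset heH fun f hf => ?_
    rw [mem_rest] at hf ⊢
    exact ⟨hE.sub hf.1, hf.2⟩
  have hσS : σ ∈ S5 H p := S5_mono (rest_subset H (A.erase w)) p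
    (h.small.rest h.flat (Finset.erase_ssubset hw) (Stress_mono hsub p hσ))
  have heq : σ - τ = 0 := by
    refine hE.ind.2 _ (Submodule.sub_mem _ hσS hτ) fun f hf => ?_
    by_cases hfe : f = e
    · rw [hfe, Pi.sub_apply, h1, h2, sub_self]
    · rw [Pi.sub_apply, h3 f (by simp [hfe, hf]), hσ.1 f (by
        rw [Finset.mem_insert, not_or]
        exact ⟨hfe, fun hc => hf (rest_subset _ _ hc)⟩), sub_zero]
  have heq' : σ = τ := sub_eq_zero.mp heq
  exact ⟨σ, hσ, h1, fun f hf hne => h4 f hf (by rw [← heq']; exact hne)⟩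

/-- **(N2)** -/
theorem CBasis.exists_triple (h : BadAt A H p) (hE : CBasis A H E p) {v y : V} (hv : v ∈ A)
    (h5 : dg A E v = 5) (hyH : s(v, y) ∈ H) (hyE : s(v, y) ∉ E) :
    ∃ T₁ : Finset V, T₁.card = 3 ∧ T₁ ⊆ nbr (A.erase v) (E : Set (Sym2 V)) v ∧ Kf T₁ ⊆ H ∧
      ((Kf (insert y T₁) ⊆ H ∧ ∀ i ∈ T₁, CBasis A H (insert s(v, y) (E.erase s(v, i))) p) ∨
        ∃ T₂ : Finset V, T₂.card = 3 ∧ y ∈ T₂ ∧ Disjoint T₁ T₂ ∧
          T₂.erase y ⊆ nbr (A.erase v) (E : Set (Sym2 V)) v ∧ Kf T₂ ⊆ H) := by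
  classical
  set N := nbr (A.erase v) (E : Set (Sym2 V)) v with hN
  have hK := mk_mem_Kf.mp (h.flat.1 hyH)
  have hyN : y ∉ N := fun hc => hyE (by exact_mod_cast (mem_nbr.mp hc).2)
  have hN5 : N.card = 5 := h5
  obtain ⟨w, hw, hw5, hwv⟩ := hE.exists_five h (B := {v, y}) (by
    rw [Finset.card_pair hK.1]; norm_num)
  rw [Finset.mem_insert, Finset.mem_singleton, not_or] at hwv
  have hvw : v ∈ A.erase w := Finset.mem_erase.mpr ⟨Ne.symm hwv.1, hv⟩
  have hyw : y ∈ A.erase w := Finset.mem_erase.mpr ⟨Ne.symm hwv.2, hK.2.2⟩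
  have heH : s(v, y) ∈ rest H (A.erase w) := by
    rw [mem_rest]
    refine ⟨hyH, fun x hx => ?_⟩
    rcases Sym2.mem_iff.mp hx with rfl | rfl
    · exact hvw
    · exact hyw
  obtain ⟨σ, hσ, hσ1, hex⟩ := hE.exists_fund_erase h hw hw5 heH hyE
  set T := suppAt (A.erase w) σ v with hT
  have hyT : y ∈ T := mem_suppAt.mpr ⟨Ne.symm hK.1, hyw, by rw [hσ1]; exact one_ne_zero⟩
  have hTN : T.erase y ⊆ N := by
    intro x hx
    rw [Finset.mem_erase, hT, mem_suppAt] at hx
    have h1 : s(v, x) ∈ insert s(v, y) (rest E (A.erase w)) := by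
      by_contra hn
      exact hx.2.2.2 (hσ.1 _ hn)
    rw [Finset.mem_insert] at h1
    rcases h1 with h1 | h1
    · exact absurd (Sym2.congr_right.mp h1) hx.1
    · exact mem_nbr.mpr ⟨Finset.mem_erase.mpr ⟨hx.2.1, Finset.mem_of_mem_erase hx.2.2.1⟩,
        by exact_mod_cast rest_subset _ _ h1⟩
  have hTc : T.card = (T.erase y).card + 1 := by
    rw [Finset.card_erase_of_mem hyT]
    have := Finset.card_pos.mpr ⟨y, hyT⟩
    omega
  have hT6 : T.card ≤ 6 := by
    have := Finset.card_le_card hTN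
    omega
  have hsub : insert s(v, y) (rest E (A.erase w)) ⊆ rest H (A.erase w) := by
    refine Finset.insert_subset heH fun f hf => ?_
    rw [mem_rest] at hf ⊢
    exact ⟨hE.sub hf.1, hf.2⟩
  have hflat : IsFlatIn (A.erase w) (rest H (A.erase w)) p :=
    h.flat.rest (Finset.erase_subset w A)
  have hgp : GenPos p ((A.erase w : Finset V) : Set V) :=
    h.nice.gp.mono (by exact_mod_cast Finset.erase_subset w A)
  have hσD : σ ∈ Stress (rest H (A.erase w)) p := Stress_mono hsub p hσ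
  have hgood : ∀ W ⊆ A.erase w, v ∈ W → Good (rest (rest H (A.erase w)) W) p := by
    intro W hW _
    refine h.small W (Finset.ssubset_of_subset_of_ssubset hW (Finset.erase_ssubset hw)) _ ?_
    exact hflat.rest hW
  have hσS : σ ∈ S5 (rest H (A.erase w)) p :=
    h.small.rest h.flat (Finset.erase_ssubset hw) hσD
  have hT4 : 4 ≤ T.card := by
    rcases suppAt_card hflat.mem_vert hgp hσD hvw with h1 | h1
    · rw [← hT] at h1
      rw [h1] at hyT
      simp at hyT
    · exact h1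
  -- rigid subsets of `N`
  have hnot4 : ∀ T' : Finset V, T' ⊆ N → Kf T' ⊆ H → T'.card ≤ 3 := by
    intro T' hT' hK'
    by_contra hcon
    obtain ⟨i, hi⟩ : ∃ i ∈ N, N.erase i ⊆ T' := by
      by_cases hc : T' = N
      · obtain ⟨i, hi⟩ := Finset.card_pos.mp (by omega : 0 < N.card)
        exact ⟨i, hi, by rw [hc]; exact Finset.erase_subset _ _⟩
      · obtain ⟨i, hi, hi'⟩ := Finset.exists_of_ssubset (Finset.ssubset_iff_subset_ne.mpr
          ⟨hT', hc⟩)
        refine ⟨i, hi, ?_⟩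
        have h1 : T' ⊆ N.erase i := fun x hx => Finset.mem_erase.mpr
          ⟨fun hc' => hi' (hc' ▸ hx), hT' hx⟩
        have h2 : (N.erase i).card = 4 := by rw [Finset.card_erase_of_mem hi, hN5]
        rw [Finset.eq_of_subset_of_card_le h1 (by omega)]
    refine hE.not_RG_four h hv h5 hi.1 ?_
    refine hE.le_RG_erase h hv h5 ((Finset.erase_subset _ _).trans (nbr_subset _ _ _)) ?_
      ((Kf_mono hi.2).trans hK')
    rw [Finset.card_erase_of_mem hi.1, hN5]
    norm_num
  have hσvert : ∀ i ∈ T.erase y, σ s(v, i) ≠ 0 ∧ s(v, i) ∈ E := by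
    intro i hi
    have h1 := mem_suppAt.mp (Finset.mem_of_mem_erase hi)
    exact ⟨h1.2.2, by exact_mod_cast (mem_nbr.mp (hTN hi)).2⟩
  rcases six_of_mem_S5 hvw hflat.1 hgp (countAt_of_good hvw hflat hgp hgood) hσS hT6 with
    (h1 | h1) | ⟨T₁, T₂, c1, c2, hd, hU, k1, k2⟩
  · rw [← hT] at h1
    have hKT : Kf (insert v T) ⊆ H := h1.trans (rest_subset _ _)
    have hKT' : Kf T ⊆ H := (Kf_mono (Finset.subset_insert _ _)).trans hKT
    have hKe : Kf (T.erase y) ⊆ H := (Kf_mono (Finset.erase_subset _ _)).trans hKT'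
    have h2 := hnot4 _ hTN hKe
    refine ⟨T.erase y, by omega, hTN, hKe, Or.inl ⟨?_, fun i hi => ?_⟩⟩
    · rw [Finset.insert_erase hyT]; exact hKT'
    · exact hex _ (hσvert i hi).2 (hσvert i hi).1
  · rw [← hT] at h1
    rw [h1] at hyT
    simp at hyT
  · have hmain : ∀ T₁ T₂ : Finset V, T₁.card = 3 → T₂.card = 3 → Disjoint T₁ T₂ → T₁ ∪ T₂ = T →
        Kf (insert v T₁) ⊆ rest H (A.erase w) → Kf (insert v T₂) ⊆ rest H (A.erase w) → y ∈ T₂ →
        ∃ T₁ : Finset V, T₁.card = 3 ∧ T₁ ⊆ N ∧ Kf T₁ ⊆ H ∧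
          ((Kf (insert y T₁) ⊆ H ∧ ∀ i ∈ T₁, CBasis A H (insert s(v, y) (E.erase s(v, i))) p) ∨
            ∃ T₂ : Finset V, T₂.card = 3 ∧ y ∈ T₂ ∧ Disjoint T₁ T₂ ∧ T₂.erase y ⊆ N ∧
              Kf T₂ ⊆ H) := by
      intro T₁ T₂ c1 c2 hd hU k1 k2 hy2
      refine ⟨T₁, c1, ?_, ?_, Or.inr ⟨T₂, c2, hy2, hd, ?_, ?_⟩⟩
      · intro x hx
        refine hTN (Finset.mem_erase.mpr ⟨?_, by rw [← hU]; exact Finset.mem_union_left _ hx⟩)
        rintro rfl
        exact Finset.disjoint_left.mp hd hx hy2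
      · exact (Kf_mono (Finset.subset_insert _ _)).trans (k1.trans (rest_subset _ _))
      · intro x hx
        rw [Finset.mem_erase] at hx
        exact hTN (Finset.mem_erase.mpr ⟨hx.1, by rw [← hU]; exact Finset.mem_union_right _ hx.2⟩)
      · exact (Kf_mono (Finset.subset_insert _ _)).trans (k2.trans (rest_subset _ _))
    rw [← hT] at hU
    have hy12 : y ∈ T₁ ∪ T₂ := by rw [hU]; exact hyT
    rcases Finset.mem_union.mp hy12 with hy1 | hy2
    · exact hmain T₂ T₁ c2 c1 hd.symm (by rw [Finset.union_comm]; exact hU) k2 k1 hy1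
    · exact hmain T₁ T₂ c1 c2 hd hU k1 k2 hy2

end

end GR
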