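import Pool.Agent.Lib.GR.NH3
import Pool.Agent.Lib.GR.NoAB
import Pool.Agent.Lib.GR.Exch2

/-!
# Lemma N, part 4: no fourth vertex is rigid with the body (if it can replace body vertices)
-/

set_option linter.unusedSectionVars false

namespace GR

open Filter Module

open scoped Matrix

variable {k : Type*} [Field k] [Infinite k] {V : Type*} [DecidableEq V]

/-- The generic properties of the position used in Lemma N: the pair data for all bases and all
nonadjacent pairs of vertices of degree five, and vertices of type B are not of type A. -/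
structure GenN (k : Type*) [Field k] [Infinite k] {V : Type*} [DecidableEq V] (A : Finset V)
    (p : V → Vec k) : Prop where
  pair : ∀ E : Finset (Sym2 V), MinCE k A E → ∀ u ∈ A, ∀ v ∈ A, u ≠ v → dg A E u = 5 →
    dg A E v = 5 → s(u, v) ∉ E → ExPair k A E u v p
  notA : ∀ E : Finset (Sym2 V), MinCE k A E → ∀ u a b c d e : V, TypB k A E u a b c d e →
    ¬ Mot (A.erase u) (E : Set (Sym2 V)) p
      ≤ TA p (nbr (A.erase u) (E : Set (Sym2 V)) u : Set V)

theorem eventually_genN (k : Type*) [Field k] [Infinite k] {V : Type*} [DecidableEq V]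
    (A : Finset V) : ∀ᶠ p in gen k (V → Vec k), GenN k A p := by
  have h1 : ∀ᶠ p in gen k (V → Vec k), ∀ E ∈ (Kf A).powerset, ∀ u ∈ A, MinCE k A E →
      (∃ a b c d e : V, TypB k A E u a b c d e) → ¬ Mot (A.erase u) (E : Set (Sym2 V)) p
      ≤ TA p (nbr (A.erase u) (E : Set (Sym2 V)) u : Set V) := by
    rw [Filter.eventually_all_finset]
    intro E _
    rw [Filter.eventually_all_finset]
    intro u _
    by_cases hc : MinCE k A E ∧ ∃ a b c d e : V, TypB k A E u a b c d e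
    · obtain ⟨h, a, b, c, d, e, hB⟩ := hc
      filter_upwards [hB.eventually_not_TA h] with p hp _ _
      exact hp
    · exact Eventually.of_forall fun p h1 h2 => absurd ⟨h1, h2⟩ hc
  filter_upwards [h1, eventually_exPair_univ k A] with p hp hq
  refine ⟨fun E hE u hu v hv huv h5 h5' hadj => hq.2 E hE u hu v hv huv h5 h5' hadj,
    fun E hE u a b c d e hB => ?_⟩
  exact hp E (Finset.mem_powerset.mpr hE.sub) u hB.mem hE ⟨a, b, c, d, e, hB⟩

lemma four_logic {p q r s : Prop}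
    (h0 : (p ∨ q ∨ r) ∧ ¬ (p ∧ q) ∧ ¬ (p ∧ r) ∧ ¬ (q ∧ r))
    (h1 : (s ∨ q ∨ r) ∧ ¬ (s ∧ q) ∧ ¬ (s ∧ r) ∧ ¬ (q ∧ r))
    (h2 : (p ∨ s ∨ r) ∧ ¬ (p ∧ s) ∧ ¬ (p ∧ r) ∧ ¬ (s ∧ r))
    (h3 : (p ∨ q ∨ s) ∧ ¬ (p ∧ q) ∧ ¬ (p ∧ s) ∧ ¬ (q ∧ s)) : False := by
  by_cases hp : p <;> by_cases hq : q <;> by_cases hr : r <;> by_cases hs : s <;> simp_all

section Labels

variable {N : Finset V} {a b c d e y : V}

lemma Lab.swap_a (h : Lab N a b c d e) (hy : y ∉ N) : Lab (insert y (N.erase a)) y b c d e where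
  eq := by
    rw [h.eq, Finset.erase_insert (by simp [h.ab, h.ac, h.ad, h.ae])]
  ab := fun hc => hy (hc ▸ h.hb)
  ac := fun hc => hy (hc ▸ h.hc)
  ad := fun hc => hy (hc ▸ h.hd)
  ae := fun hc => hy (hc ▸ h.he)
  bc := h.bc
  bd := h.bd
  be := h.be
  cd := h.cd
  ce := h.ce
  de := h.de

lemma Lab.swap_b (h : Lab N a b c d e) (hy : y ∉ N) : Lab (insert y (N.erase b)) a y c d e where
  eq := by
    rw [h.eq, Finset.insert_comm a b,
      Finset.erase_insert (by simp [h.ab.symm, h.bc, h.bd, h.be]), Finset.insert_comm y a]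
  ab := fun hc => hy (hc ▸ h.ha)
  ac := h.ac
  ad := h.ad
  ae := h.ae
  bc := fun hc => hy (hc ▸ h.hc)
  bd := fun hc => hy (hc ▸ h.hd)
  be := fun hc => hy (hc ▸ h.he)
  cd := h.cd
  ce := h.ce
  de := h.de

lemma Lab.swap_c (h : Lab N a b c d e) (hy : y ∉ N) : Lab (insert y (N.erase c)) a b y d e where
  eq := by
    rw [h.eq, Finset.insert_comm b c, Finset.insert_comm a c,
      Finset.erase_insert (by simp [h.ac.symm, h.bc.symm, h.cd, h.ce]), Finset.insert_comm y a,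
      Finset.insert_comm y b]
  ab := h.ab
  ac := fun hc => hy (hc ▸ h.ha)
  ad := h.ad
  ae := h.ae
  bc := fun hc => hy (hc ▸ h.hb)
  bd := h.bd
  be := h.be
  cd := fun hc => hy (hc ▸ h.hd)
  ce := fun hc => hy (hc ▸ h.he)
  de := h.de

end Labels

section Swap

variable {A : Finset V} {E : Finset (Sym2 V)} {v i y w : V}

/-- motions off `v` do not see the exchange of `v i` by `v y` -/
lemma Mot_swap {U : Finset V} (hv : v ∉ U) (p : V → Vec k) :
    Mot U ((insert s(v, y) (E.erase s(v, i)) : Finset (Sym2 V)) : Set (Sym2 V)) p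
      = Mot U (E : Set (Sym2 V)) p := by
  refine Mot_congr p fun a ha b hb => ?_
  rw [Finset.mem_coe, Finset.mem_coe, Finset.mem_insert, Finset.mem_erase]
  have h1 : ∀ x, s(a, b) ≠ s(v, x) := by
    intro x hx
    rcases Sym2.eq_iff.mp hx with ⟨h, -⟩ | ⟨-, h⟩
    · exact hv (h ▸ ha)
    · exact hv (h ▸ hb)
  constructor
  · rintro (h | h)
    · exact absurd h (h1 y)
    · exact h.2
  · intro h
    exact Or.inr ⟨h1 i, h⟩

lemma nbr_swap_self (hy : y ∈ A.erase v) (hyi : y ≠ i) :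
    nbr (A.erase v) ((insert s(v, y) (E.erase s(v, i)) : Finset (Sym2 V)) : Set (Sym2 V)) v
      = insert y ((nbr (A.erase v) (E : Set (Sym2 V)) v).erase i) := by
  ext x
  rw [Finset.mem_insert, Finset.mem_erase (a := x), mem_nbr, mem_nbr, Finset.mem_coe,
    Finset.mem_coe, Finset.mem_insert, Finset.mem_erase (a := s(v, x))]
  constructor
  · rintro ⟨h1, h2 | ⟨h2, h3⟩⟩
    · exact Or.inl (Sym2.congr_right.mp h2)
    · exact Or.inr ⟨fun hc => h2 (by rw [hc]), h1, h3⟩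
  · rintro (rfl | ⟨h1, h2, h3⟩)
    · exact ⟨hy, Or.inl rfl⟩
    · exact ⟨h2, Or.inr ⟨fun hc => h1 (Sym2.congr_right.mp hc), h3⟩⟩

lemma nbr_swap_other {U : Finset V} (hwv : w ≠ v) (hwy : w ≠ y) (hwi : w ≠ i) :
    nbr U ((insert s(v, y) (E.erase s(v, i)) : Finset (Sym2 V)) : Set (Sym2 V)) w
      = nbr U (E : Set (Sym2 V)) w := by
  ext x
  rw [mem_nbr, Finset.mem_coe, Finset.mem_insert, Finset.mem_erase, mem_nbr, Finset.mem_coe]
  have h1 : ∀ z, w ≠ z → s(w, x) ≠ s(v, z) := by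
    intro z hz hx
    rcases Sym2.eq_iff.mp hx with ⟨h, -⟩ | ⟨h, -⟩
    · exact hwv h
    · exact hz h
  constructor
  · rintro ⟨h2, h3 | h3⟩
    · exact absurd h3 (h1 y hwy)
    · exact ⟨h2, h3.2⟩
  · rintro ⟨h2, h3⟩
    exact ⟨h2, Or.inr ⟨h1 i hwi, h3⟩⟩

/-- the fourth vertex of a rigid body -/
lemma TB_fourth {p Z : V → Vec k} {a b c d e : V} {t : k} (hgp : GenPos p (A : Set V))
    (ha : a ∈ A) (hb : b ∈ A) (hc : c ∈ A) (hy : y ∈ A) (hab : a ≠ b) (hac : a ≠ c) (hay : a ≠ y)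
    (hbc : b ≠ c) (hby : b ≠ y) (hcy : c ≠ y) (hZ : Z ∈ TB p a b c d e t)
    (hl : Z y ⬝ᵥ p y = 0) (h1 : eps p a y Z = 0) (h2 : eps p b y Z = 0) (h3 : eps p c y Z = 0) :
    Z ∈ TB p y b c d e t ∧ Z ∈ TB p a y c d e t ∧ Z ∈ TB p a b y d e t := by
  obtain ⟨S, hS, g, g1, g2, e1, e2, e3, e4, e5⟩ := hZ
  have key : ∀ x, Z x = S (p x) → eps p x y Z = 0 → (Z y - S (p y)) ⬝ᵥ p x = 0 := by
    intro x hx hxy
    rw [eps_apply, hx, hS.swap (p x)] at hxy
    rw [sub_dotProduct]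
    linear_combination hxy
  have hZy : Z y - S (p y) = 0 := by
    refine eq_zero_of_four (p := p) (N := A) hgp ha hb hc hy hab hac hay hbc hby hcy
      (key a e1 h1) (key b e2 h2) (key c e3 h3) ?_
    rw [sub_dotProduct, hl, hS, sub_zero]
  have hZy' : Z y = S (p y) := sub_eq_zero.mp hZy
  exact ⟨⟨S, hS, g, g1, g2, hZy', e2, e3, e4, e5⟩, ⟨S, hS, g, g1, g2, e1, hZy', e3, e4, e5⟩,
    ⟨S, hS, g, g1, g2, e1, e2, hZy', e4, e5⟩⟩

/-- exactly one of three body vertices has a nonconstant ratio -/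
lemma exactly_one {p : V → Vec k} {u a b c d e : V} {t : k} (hx : ExPair k A E u w p)
    (hL : Lab (nbr (A.erase u) (E : Set (Sym2 V)) u) a b c d e) (ht : t ≠ 0)
    (hTB : Mot (A.erase u) (E : Set (Sym2 V)) p ≤ TB p a b c d e t)
    (hnA : ¬ Mot (A.erase u) (E : Set (Sym2 V)) p
      ≤ TA p (nbr (A.erase u) (E : Set (Sym2 V)) u : Set V)) (P : V → Prop)
    (hP : ∀ x, P x ↔ ∃ Z ∈ Mot (A \ {u, w}) (E : Set (Sym2 V)) p,
      eps p x e Z ≠ t * eps p x d Z) :
    (P a ∨ P b ∨ P c) ∧ ¬ (P a ∧ P b) ∧ ¬ (P a ∧ P c) ∧ ¬ (P b ∧ P c) := by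
  obtain ⟨x, hx1, hx2, hx3⟩ := hx.existsUnique_block hL ht hTB hnA
  have hI : ∀ z, (z = a ∨ z = b ∨ z = c) → P z → z = x := fun z hz hPz =>
    hx3 z hz ((hx.inBlock_iff hL hTB hz).mpr ((hP z).mp hPz))
  have hPx : P x := (hP x).mpr ((hx.inBlock_iff hL hTB hx1).mp hx2)
  refine ⟨?_, ?_, ?_, ?_⟩
  · rcases hx1 with rfl | rfl | rfl
    · exact Or.inl hPx
    · exact Or.inr (Or.inl hPx)
    · exact Or.inr (Or.inr hPx)
  · rintro ⟨h1, h2⟩
    exact hL.ab ((hI a (Or.inl rfl) h1).trans (hI b (Or.inr (Or.inl rfl)) h2).symm)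
  · rintro ⟨h1, h2⟩
    exact hL.ac ((hI a (Or.inl rfl) h1).trans (hI c (Or.inr (Or.inr rfl)) h2).symm)
  · rintro ⟨h1, h2⟩
    exact hL.bc ((hI b (Or.inr (Or.inl rfl)) h1).trans (hI c (Or.inr (Or.inr rfl)) h2).symm)

end Swap

section N3

variable {A : Finset V} {H E : Finset (Sym2 V)} {p : V → Vec k}

/-- **(N3)** -/
theorem CBasis.no_fourth (hg : GenN k A p) (h : BadAt A H p) (hs : ∀ W ⊂ A, AllGood k W)
    (hE : CBasis A H E p) {v y a b c d e : V} (hB : TypB k A E v a b c d e)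
    (hyH : s(v, y) ∈ H) (hyE : s(v, y) ∉ E) (hK : Kf ({y, a, b, c} : Finset V) ⊆ H)
    (hex : ∀ i, (i = a ∨ i = b ∨ i = c) → CBasis A H (insert s(v, y) (E.erase s(v, i))) p) :
    False := by
  classical
  set N := nbr (A.erase v) (E : Set (Sym2 V)) v with hN
  have hL := hB.lab
  have hv := hB.mem
  have hCE := hE.minCE h hs
  have hKv := mk_mem_Kf.mp (h.flat.1 hyH)
  have hyv : y ∈ A.erase v := Finset.mem_erase.mpr ⟨Ne.symm hKv.1, hKv.2.2⟩
  have hyA : y ∈ A := hKv.2.2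
  have hyN : y ∉ N := fun hc => hyE (by exact_mod_cast (mem_nbr.mp hc).2)
  have hNA : N ⊆ A.erase v := nbr_subset _ _ _
  have hne : ∀ x ∈ N, x ≠ y := fun x hx hc => hyN (hc ▸ hx)
  have hay := hne a hL.ha
  have hby := hne b hL.hb
  have hcy := hne c hL.hc
  have hdy := hne d hL.hd
  have hey := hne e hL.he
  -- the other vertex of degree five
  obtain ⟨w, hw, hw5, hwB⟩ := hE.exists_five h (B := insert v (insert y N)) (by
    have h1 := Finset.card_insert_le v (insert y N)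
    have h2 := Finset.card_insert_le y N
    have h3 : N.card = 5 := hL.card
    omega)
  simp only [Finset.mem_insert, not_or] at hwB
  obtain ⟨hwv, hwy, hwN⟩ := hwB
  have hwne : ∀ x ∈ N, w ≠ x := fun x hx hc => hwN (hc ▸ hx)
  have hvw : s(v, w) ∉ E := fun hc => hwN (mem_nbr.mpr ⟨Finset.mem_erase.mpr ⟨hwv, hw⟩, by
    exact_mod_cast hc⟩)
  -- the constant at `p`
  have hn := h.nice
  obtain ⟨t, ht, hM⟩ := hB.typ p hn
  have hgpA := hn.gp
  -- rigidity of the four vertices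
  have hpair : ∀ x, (x = a ∨ x = b ∨ x = c) → ∀ q : V → Vec k, Nice A q →
      ∀ Z ∈ Mot (A.erase v) (E : Set (Sym2 V)) q, eps q x y Z = 0 := by
    intro x hx q hq
    have hxN : x ∈ N := by
      rcases hx with rfl | rfl | rfl
      exacts [hL.ha, hL.hb, hL.hc]
    have hxA := hNA hxN
    refine eps_const (fun e he => (mem_Kf.mp (hCE.sub he)).1)
      (hn.reg.mono (Finset.erase_subset v A)) (hq.reg.mono (Finset.erase_subset v A)) hxA hyv
      (hne x hxN) ?_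
    refine hE.sweep h hv hL.card hxA hyv (hK (mk_mem_Kf.mpr ⟨hne x hxN, ?_, by simp⟩))
    rcases hx with rfl | rfl | rfl <;> simp
  have hfour : ∀ q : V → Vec k, Nice A q → ∀ s : k, ∀ Z ∈ Mot (A.erase v) (E : Set (Sym2 V)) q,
      Z ∈ TB q a b c d e s →
      Z ∈ TB q y b c d e s ∧ Z ∈ TB q a y c d e s ∧ Z ∈ TB q a b y d e s := by
    intro q hq s Z hZ hZB
    exact TB_fourth hq.gp (Finset.mem_of_mem_erase (hNA hL.ha))
      (Finset.mem_of_mem_erase (hNA hL.hb)) (Finset.mem_of_mem_erase (hNA hL.hc)) hyA hL.ab hL.ac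
      hay hL.bc hby hcy hZB (hZ.2.1 y hyv) (hpair a (Or.inl rfl) q hq Z hZ)
      (hpair b (Or.inr (Or.inl rfl)) q hq Z hZ) (hpair c (Or.inr (Or.inr rfl)) q hq Z hZ)
  -- the predicate
  set P : V → Prop := fun x => ∃ Z ∈ Mot (A \ {v, w}) (E : Set (Sym2 V)) p,
    eps p x e Z ≠ t * eps p x d Z with hP
  have hx0 := hg.pair E hCE v hv w hw (Ne.symm hwv) hL.card hw5 hvw
  have r0 := exactly_one hx0 hL ht hM (hg.notA E hCE v a b c d e hB) P fun x => Iff.rfl
  -- the swapped graphs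
  have hsw : ∀ i a' b' c' : V, (i = a ∨ i = b ∨ i = c) →
      Lab (insert y (N.erase i)) a' b' c' d e →
      (∀ q : V → Vec k, Nice A q → ∀ s : k, ∀ Z ∈ Mot (A.erase v) (E : Set (Sym2 V)) q,
        Z ∈ TB q a b c d e s → Z ∈ TB q a' b' c' d e s) →
      (P a' ∨ P b' ∨ P c') ∧ ¬ (P a' ∧ P b') ∧ ¬ (P a' ∧ P c') ∧ ¬ (P b' ∧ P c') := by
    intro i a' b' c' hi hL' hT
    have hiN : i ∈ N := by
      rcases hi with rfl | rfl | rfl
      exacts [hL.ha, hL.hb, hL.hc]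
    set E' := insert s(v, y) (E.erase s(v, i)) with hE'
    have hCB := hex i hi
    have hCE' := hCB.minCE h hs
    have hnb : nbr (A.erase v) (E' : Set (Sym2 V)) v = insert y (N.erase i) :=
      nbr_swap_self hyv (Ne.symm (hne i hiN))
    have hL'' : Lab (nbr (A.erase v) (E' : Set (Sym2 V)) v) a' b' c' d e := by rw [hnb]; exact hL'
    have hMv : ∀ q : V → Vec k, Mot (A.erase v) (E' : Set (Sym2 V)) q
        = Mot (A.erase v) (E : Set (Sym2 V)) q := fun q => Mot_swap (Finset.notMem_erase v A) q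
    have hB' : TypB k A E' v a' b' c' d e := by
      refine ⟨hv, hL'', fun q hq => ?_⟩
      obtain ⟨s, hs0, hMs⟩ := hB.typ q hq
      refine ⟨s, hs0, ?_⟩
      rw [hMv]
      exact fun Z hZ => hT q hq s Z hZ (hMs hZ)
    have hw5' : dg A E' w = 5 := by
      rw [dg, nbr_swap_other hwv hwy (hwne i hiN)]
      exact hw5
    have hvw' : s(v, w) ∉ E' := by
      rw [hE', Finset.mem_insert, not_or]
      refine ⟨fun hc => hwy (Sym2.congr_right.mp hc), fun hc => hvw (Finset.mem_of_mem_erase hc)⟩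
    have hx := hg.pair E' hCE' v hv w hw (Ne.symm hwv) hL''.card hw5' hvw'
    refine exactly_one hx hL'' ht ?_ (hg.notA E' hCE' v a' b' c' d e hB') P fun x => ?_
    · rw [hMv]
      exact fun Z hZ => hT p hn t Z hZ (hM hZ)
    · rw [Mot_swap (by simp : v ∉ A \ {v, w})]
  have ra := hsw a y b c (Or.inl rfl) (hL.swap_a hyN)
    fun q hq s Z hZ hZB => (hfour q hq s Z hZ hZB).1
  have rb := hsw b a y c (Or.inr (Or.inl rfl)) (hL.swap_b hyN)
    fun q hq s Z hZ hZB => (hfour q hq s Z hZ hZB).2.1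
  have rc := hsw c a b y (Or.inr (Or.inr rfl)) (hL.swap_c hyN)
    fun q hq s Z hZ hZB => (hfour q hq s Z hZ hZB).2.2
  exact four_logic r0 ra rb rc

end N3

end GR
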