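import Pool.Agent.Lib.GR.NH4
import Pool.Agent.Lib.GR.Assemble

/-!
# Lemma N, part 5: a vertex of degree five has the same neighbours in `H` and in every basis
-/

set_option linter.unusedSectionVars false

namespace GR

open Filter Module

open scoped Matrix

variable {k : Type*} [Field k] [Infinite k] {V : Type*} [DecidableEq V]

section

variable {A : Finset V} {H E : Finset (Sym2 V)} {p : V → Vec k}

/-- moving `v`: a motion of `E - v` extends to `v` at `x` when `g ⬝ᵥ x = 0` -/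
lemma TypB.extend {v a b c d e : V} (hE : E ⊆ Kf A) (hB : TypB k A E v a b c d e) {x : Vec k}
    {Z : V → Vec k} (hZ : Z ∈ Mot (A.erase v) (E : Set (Sym2 V)) p) {S : Vec k →ₗ[k] Vec k}
    (hS : IsSkew S) {g : Vec k} {t : k} (h1 : Z a = S (p a)) (h2 : Z b = S (p b))
    (h3 : Z c = S (p c)) (h4 : Z d = S (p d) + g) (h5 : Z e = S (p e) + t • g)
    (hgx : g ⬝ᵥ x = 0) :
    Function.update Z v (S x) ∈ Mot A (E : Set (Sym2 V)) (Function.update p v x) := by
  have key : ∀ w ∈ nbr (A.erase v) (E : Set (Sym2 V)) v, S x ⬝ᵥ p w + Z w ⬝ᵥ x = 0 := by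
    intro w hw
    have hsw := hS.swap x (p w)
    rcases hB.lab.cases hw with rfl | rfl | rfl | rfl | rfl
    · rw [h1]; linear_combination hsw
    · rw [h2]; linear_combination hsw
    · rw [h3]; linear_combination hsw
    · rw [h4, add_dotProduct, hgx]; linear_combination hsw
    · rw [h5, add_dotProduct, smul_dotProduct, hgx, smul_zero]; linear_combination hsw
  refine ⟨fun w hw => ?_, fun w hw => ?_, fun x' hx' y' hy' hxy => ?_⟩
  · have hwv : w ≠ v := fun hc => hw (hc ▸ hB.mem)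
    rw [Function.update_of_ne hwv]
    exact hZ.1 w fun hc => hw (Finset.mem_of_mem_erase hc)
  · by_cases hwv : w = v
    · subst hwv
      rw [Function.update_self, Function.update_self]
      exact hS x
    · rw [Function.update_of_ne hwv, Function.update_of_ne hwv]
      exact hZ.2.1 w (Finset.mem_erase.mpr ⟨hwv, hw⟩)
  · have hne : x' ≠ y' := by
      rintro rfl
      exact (mem_Kf.mp (hE (by exact_mod_cast hxy))).1 (by simp)
    rw [eps_apply]
    by_cases hxv : x' = v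
    · subst hxv
      have hyN : y' ∈ nbr (A.erase x') (E : Set (Sym2 V)) x' :=
        GR.mem_nbr.mpr ⟨Finset.mem_erase.mpr ⟨hne.symm, hy'⟩, hxy⟩
      rw [Function.update_self, Function.update_self, Function.update_of_ne hne.symm,
        Function.update_of_ne hne.symm]
      exact key y' hyN
    · by_cases hyv : y' = v
      · subst hyv
        have hxN : x' ∈ nbr (A.erase y') (E : Set (Sym2 V)) y' :=
          GR.mem_nbr.mpr ⟨Finset.mem_erase.mpr ⟨hne, hx'⟩, by rw [Sym2.eq_swap]; exact hxy⟩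
        rw [Function.update_self, Function.update_self, Function.update_of_ne hne,
          Function.update_of_ne hne]
        rw [add_comm]
        exact key x' hxN
      · rw [Function.update_of_ne hxv, Function.update_of_ne hxv, Function.update_of_ne hyv,
          Function.update_of_ne hyv]
        exact hZ.2.2 x' (Finset.mem_erase.mpr ⟨hxv, hx'⟩) y' (Finset.mem_erase.mpr ⟨hyv, hy'⟩) hxy

/-- If `v y` is an edge of `H` outside the basis, then `y` is not adjacent in `H` to the rod. -/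
theorem CBasis.no_rod_edge (h : BadAt A H p) (hs : ∀ W ⊂ A, AllGood k W)
    (hE : CBasis A H E p) {v y a b c d e : V} (hB : TypB k A E v a b c d e)
    (hyH : s(v, y) ∈ H) (hyE : s(v, y) ∉ E) (hyd : s(y, d) ∈ H) : False := by
  classical
  set N := nbr (A.erase v) (E : Set (Sym2 V)) v with hN
  set M := Mot (A.erase v) (E : Set (Sym2 V)) p with hM
  have hL : Lab N a b c d e := hB.lab
  have hv := hB.mem
  have hCE := hE.minCE h hs
  have hn := h.nice
  have hKv := mk_mem_Kf.mp (h.flat.1 hyH)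
  have hyA : y ∈ A := hKv.2.2
  have hyv : y ≠ v := Ne.symm hKv.1
  have hyv' : y ∈ A.erase v := Finset.mem_erase.mpr ⟨hyv, hyA⟩
  have hyN : y ∉ N := fun hc => hyE (by exact_mod_cast (mem_nbr.mp hc).2)
  have hNA : N ⊆ A.erase v := nbr_subset _ _ _
  have hNA' : N ⊆ A := hNA.trans (Finset.erase_subset v A)
  have hne : ∀ x ∈ N, x ≠ y := fun x hx hc => hyN (hc ▸ hx)
  obtain ⟨t, ht, hTB⟩ := hB.typ p hn
  rw [← hM] at hTB
  have hdim : finrank k (M ⊓ RG p (N : Set V) : Submodule k (V → Vec k)) + 2 ≤ finrank k M :=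
    hCE.two_le hn hv hL.card
  have hgp := hn.gp
  -- a motion with `g ⬝ᵥ p w = 0`
  have hex : ∀ w, (w = a ∨ w = b ∨ w = c) → ∃ Z ∈ M, ∃ S : Vec k →ₗ[k] Vec k, IsSkew S ∧
      ∃ g : Vec k, g ⬝ᵥ p d = 0 ∧ g ⬝ᵥ p e = 0 ∧ Z a = S (p a) ∧ Z b = S (p b) ∧
      Z c = S (p c) ∧ Z d = S (p d) + g ∧ Z e = S (p e) + t • g ∧ g ⬝ᵥ p w = 0 ∧ g ≠ 0 := by
    intro w hw
    have h1 := finrank_inf_ker_ge M (eps p w d)
    have h2 : ¬ (M ⊓ LinearMap.ker (eps p w d) ≤ RG p (N : Set V)) := by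
      intro hc
      have hfd : FiniteDimensional k (M ⊓ RG p (N : Set V) : Submodule k (V → Vec k)) :=
        Submodule.finiteDimensional_of_le (inf_le_left.trans (le_of_eq hM))
      have h3 := Submodule.finrank_mono (le_inf inf_le_left hc :
        M ⊓ LinearMap.ker (eps p w d) ≤ M ⊓ RG p (N : Set V))
      omega
    obtain ⟨Z, hZ, hZR⟩ := SetLike.not_le_iff_exists.mp h2
    obtain ⟨S, hS, g, g1, g2, e1, e2, e3, e4, e5⟩ := hTB hZ.1
    refine ⟨Z, hZ.1, S, hS, g, g1, g2, e1, e2, e3, e4, e5, ?_, ?_⟩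
    · have h3 : eps p w d Z = 0 := hZ.2
      have hZw : Z w = S (p w) := by rcases hw with rfl | rfl | rfl <;> assumption
      rw [eps_apply, hZw, e4, add_dotProduct, hS.swap (p w)] at h3
      linear_combination h3
    · rintro rfl
      exact hZR (mem_RG_of_TB_zero hL hS e1 e2 e3 (by simpa using e4) (by simpa using e5))
  obtain ⟨Z₁, hZ₁, S₁, hS₁, g₁, g1, g2, a1, a2, a3, a4, a5, ga, gne⟩ := hex a (Or.inl rfl)
  obtain ⟨Z₂, hZ₂, S₂, hS₂, g₂, g1', g2', b1, b2, b3, b4, b5, gb, gne'⟩ :=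
    hex b (Or.inr (Or.inl rfl))
  have hg2a : g₂ ⬝ᵥ p a ≠ 0 := fun hc => gne' (eq_zero_of_four (p := p) (N := A) hgp
    (hNA' hL.ha) (hNA' hL.hb) (hNA' hL.hd) (hNA' hL.he) hL.ab hL.ad hL.ae hL.bd hL.be hL.de
    hc gb g1' g2')
  -- the identity
  set r₁ : Vec k := Z₁ y - S₁ (p y) with hr₁
  set r₂ : Vec k := Z₂ y - S₂ (p y) with hr₂
  have hpoly : PolyLine k fun x : Vec k => (g₂ ⬝ᵥ x) * (r₁ ⬝ᵥ x) - (g₁ ⬝ᵥ x) * (r₂ ⬝ᵥ x) := by
    have hd : ∀ g : Vec k, PolyLine k fun x : Vec k => g ⬝ᵥ x := fun g =>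
      PolyLine.dot (f := fun _ : Vec k => g) (g := fun x : Vec k => x)
        (fun _ => PolyLine.const _) (fun i => PolyLine.coord' i)
    exact ((hd g₂).mul (hd r₁)).sub ((hd g₁).mul (hd r₂))
  have hzero : ∀ᶠ x in gen k (Vec k),
      (g₂ ⬝ᵥ x) * (r₁ ⬝ᵥ x) - (g₁ ⬝ᵥ x) * (r₂ ⬝ᵥ x) = 0 := by
    filter_upwards [hn.upd v hv] with x hx
    have hEK := hE.sub_Kf h
    have hcl : clF A E (Function.update p v x) = H := by
      rw [clF_eq_of_regular hEK hx.1 hn.reg, hE.clF_eq h]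
    set Z : V → Vec k := (g₂ ⬝ᵥ x) • Z₁ - (g₁ ⬝ᵥ x) • Z₂ with hZ
    set S : Vec k →ₗ[k] Vec k := (g₂ ⬝ᵥ x) • S₁ - (g₁ ⬝ᵥ x) • S₂ with hS
    have hZM : Z ∈ M := Submodule.sub_mem _ (Submodule.smul_mem _ _ hZ₁)
      (Submodule.smul_mem _ _ hZ₂)
    have hSS : IsSkew S := (hS₁.smul _).sub (hS₂.smul _)
    have hY := hB.extend (p := p) hEK (x := x) hZM hSS
      (g := (g₂ ⬝ᵥ x) • g₁ - (g₁ ⬝ᵥ x) • g₂) (t := t)
      (by simp [hZ, hS, a1, b1]) (by simp [hZ, hS, a2, b2]) (by simp [hZ, hS, a3, b3])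
      (by
        simp only [hZ, hS, Pi.sub_apply, Pi.smul_apply, a4, b4, LinearMap.sub_apply,
          LinearMap.smul_apply, smul_add]
        abel)
      (by
        simp only [hZ, hS, Pi.sub_apply, Pi.smul_apply, a5, b5, LinearMap.sub_apply,
          LinearMap.smul_apply, smul_add, smul_sub, smul_comm t]
        abel)
      (by
        rw [sub_dotProduct, smul_dotProduct, smul_dotProduct, smul_eq_mul, smul_eq_mul]
        ring)
    have hvy : s(v, y) ∈ clF A E (Function.update p v x) := by rw [hcl]; exact hyH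
    have h4 := (mem_clo_iff_Mot hEK hv hyA).mp (mem_clF.mp hvy).2 _ hY
    rw [eps_apply, Function.update_self, Function.update_self, Function.update_of_ne hyv,
      Function.update_of_ne hyv] at h4
    have h5 := hSS.swap x (p y)
    have h6 : Z y ⬝ᵥ x = (g₂ ⬝ᵥ x) * (Z₁ y ⬝ᵥ x) - (g₁ ⬝ᵥ x) * (Z₂ y ⬝ᵥ x) := by
      simp [hZ, sub_dotProduct, smul_dotProduct]
    have h7 : S (p y) ⬝ᵥ x = (g₂ ⬝ᵥ x) * (S₁ (p y) ⬝ᵥ x) - (g₁ ⬝ᵥ x) * (S₂ (p y) ⬝ᵥ x) := by
      simp [hS, sub_dotProduct, smul_dotProduct]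
    rw [hr₁, hr₂, sub_dotProduct, sub_dotProduct]
    linear_combination h4 - h5 - h6 + h7
  have hid := fun x => hpoly.eq_zero_of_eventually hzero x
  have f1 := hid (p a)
  have f2 := hid (p a + p d)
  simp only [ga, zero_mul, sub_zero] at f1
  simp only [dotProduct_add, ga, g1, g1', add_zero, zero_mul, sub_zero] at f2
  have r1a := (mul_eq_zero.mp f1).resolve_left hg2a
  have r1d := (mul_eq_zero.mp f2).resolve_left hg2a
  rw [r1a, zero_add] at r1d
  -- the rigid pair `y d`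
  have h8 := hE.sweep h hv hL.card hyv' (hNA hL.hd) hyd Z₁ hZ₁
  rw [eps_apply, a4, add_dotProduct] at h8
  rw [hr₁, sub_dotProduct] at r1d
  have h9 := hS₁.swap (p y) (p d)
  have hgy : g₁ ⬝ᵥ p y = 0 := by linear_combination h8 - r1d - h9
  exact gne (eq_zero_of_four (p := p) (N := A) hgp (hNA' hL.ha) (hNA' hL.hd) (hNA' hL.he) hyA
    hL.ad hL.ae (hne a hL.ha) hL.de (hne d hL.hd) (hne e hL.he) ga g1 g2 hgy)

/-- a triple of neighbours which is a clique of `H` is the body -/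
theorem CBasis.typB_of_triple (h : BadAt A H p) (hs : ∀ W ⊂ A, AllGood k W)
    (hE : CBasis A H E p) {v a b c d e : V} (hv : v ∈ A)
    (hL : Lab (nbr (A.erase v) (E : Set (Sym2 V)) v) a b c d e)
    (hab : s(a, b) ∈ H) (hac : s(a, c) ∈ H) (hbc : s(b, c) ∈ H) : TypB k A E v a b c d e := by
  set N := nbr (A.erase v) (E : Set (Sym2 V)) v with hN
  have hCE := hE.minCE h hs
  have hn := h.nice
  have hNA : N ⊆ A.erase v := nbr_subset _ _ _
  have hEd : ∀ e ∈ E, ¬ e.IsDiag := fun e he => (mem_Kf.mp (hCE.sub he)).1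
  have h5 : N.card = 5 := hL.card
  have hrig : ∀ x ∈ N, ∀ y ∈ N, s(x, y) ∈ H → ∀ q : V → Vec k, Nice A q →
      ∀ Z ∈ Mot (A.erase v) (E : Set (Sym2 V)) q, eps q x y Z = 0 := by
    intro x hx y hy hxy q hq
    exact eps_const hEd (hn.reg.mono (Finset.erase_subset v A))
      (hq.reg.mono (Finset.erase_subset v A)) (hNA hx) (hNA hy)
      (mk_mem_Kf.mp (h.flat.1 hxy)).1 (hE.sweep h hv h5 (hNA hx) (hNA hy) hxy)
  rcases hCE.types_const hv h5 with hA | ⟨a', b', c', d', e', hB⟩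
  · refine ⟨hv, hL, fun q hq => ?_⟩
    obtain ⟨t, ht, h1⟩ := exists_TB_of_TA (p := q) hL (hq.gp.mono (by
      exact_mod_cast hNA.trans (Finset.erase_subset v A)))
    exact ⟨t, ht, fun Z hZ => h1 Z (hA.typ q hq hZ) (fun x hx => hZ.2.1 x (hNA hx))
      (hrig a hL.ha b hL.hb hab q hq Z hZ) (hrig a hL.ha c hL.hc hac q hq Z hZ)
      (hrig b hL.hb c hL.hc hbc q hq Z hZ)⟩
  · obtain ⟨t, ht, hM⟩ := hB.typ p hn
    have h1 := rod_eq hL hB.lab (hB.gp hn) (hCE.two_le hn hv h5) ht hM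
      (hrig a hL.ha b hL.hb hab p hn) (hrig a hL.ha c hL.hc hac p hn)
      (hrig b hL.hb c hL.hc hbc p hn)
    exact hB.relabel hL h1

/-- **LEMMA N.**  Let `E` be a basis of the bad flat `H` at the generic position `p`.  Every edge
of `H` at a vertex of degree five of `E` belongs to `E`. -/
theorem CBasis.mem_of_five (hg : GenN k A p) (h : BadAt A H p) (hs : ∀ W ⊂ A, AllGood k W)
    (hE : CBasis A H E p) {v y : V} (hv : v ∈ A) (h5 : dg A E v = 5) (hy : s(v, y) ∈ H) :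
    s(v, y) ∈ E := by
  classical
  by_contra hyE
  set N := nbr (A.erase v) (E : Set (Sym2 V)) v with hN
  have h5' : N.card = 5 := h5
  obtain ⟨T₁, c1, hT₁, hK₁, hcase⟩ := hE.exists_triple h hv h5 hy hyE
  obtain ⟨a, b, c, hab, hac, hbc, rfl⟩ := Finset.card_eq_three.mp c1
  have hT₁' : ({a, b, c} : Finset V) ⊆ N := hT₁
  have hcd : (N \ {a, b, c}).card = 2 := by
    have := Finset.card_sdiff_add_card_eq_card hT₁'
    omega
  obtain ⟨d, e, hde, hN2⟩ := Finset.card_eq_two.mp hcd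
  have hd : d ∈ N \ {a, b, c} := by rw [hN2]; simp
  have he : e ∈ N \ {a, b, c} := by rw [hN2]; simp
  simp only [Finset.mem_sdiff, Finset.mem_insert, Finset.mem_singleton, not_or] at hd he
  have hL : Lab N a b c d e := by
    refine ⟨?_, hab, hac, Ne.symm hd.2.1, Ne.symm he.2.1, hbc, Ne.symm hd.2.2.1,
      Ne.symm he.2.2.1, Ne.symm hd.2.2.2, Ne.symm he.2.2.2, hde⟩
    rw [← Finset.sdiff_union_of_subset hT₁', hN2]
    ext x
    simp only [Finset.mem_union, Finset.mem_insert, Finset.mem_singleton]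
    tauto
  have hB : TypB k A E v a b c d e := hE.typB_of_triple h hs hv hL
    (hK₁ (mk_mem_Kf.mpr ⟨hab, by simp, by simp⟩)) (hK₁ (mk_mem_Kf.mpr ⟨hac, by simp, by simp⟩))
    (hK₁ (mk_mem_Kf.mpr ⟨hbc, by simp, by simp⟩))
  have hyN : y ∉ N := fun hc => hyE (by exact_mod_cast (mem_nbr.mp hc).2)
  rcases hcase with ⟨hK, hex⟩ | ⟨T₂, c2, hyT, hdis, hT₂, hK₂⟩
  · exact hE.no_fourth hg h hs hB hy hyE hK fun i hi => hex i (by
      rcases hi with rfl | rfl | rfl <;> simp)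
  · have hsub : T₂.erase y ⊆ {d, e} := by
      intro x hx
      rw [← hN2, Finset.mem_sdiff]
      refine ⟨hT₂ hx, fun hc => ?_⟩
      exact Finset.disjoint_left.mp hdis hc (Finset.mem_of_mem_erase hx)
    have hc3 : (T₂.erase y).card = 2 := by rw [Finset.card_erase_of_mem hyT, c2]
    have heq : T₂.erase y = {d, e} := Finset.eq_of_subset_of_card_le hsub (by
      rw [hc3]
      exact Finset.card_le_two)
    have hdT : d ∈ T₂ := Finset.mem_of_mem_erase (a := y) (by rw [heq]; simp)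
    have hyd : y ≠ d := fun hc => hyN (hc ▸ hL.hd)
    exact hE.no_rod_edge h hs hB hy hyE (hK₂ (mk_mem_Kf.mpr ⟨hyd, hyT, hdT⟩))

end

end GR
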