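import Pool.Agent.Lib.GR.NH5

/-!
# Lemma N, part 6: all bases have the same vertices of degree five, with the same stars and types;
frame bases; reduction of (B2) to a local statement
-/

set_option linter.unusedSectionVars false

namespace GR

open Filter Module

open scoped Matrix

variable {k : Type*} [Field k] [Infinite k] {V : Type*} [DecidableEq V]

section

variable {A : Finset V} {H E E' : Finset (Sym2 V)} {p : V → Vec k}

/-- **Lemma N** as an equality of neighbourhoods. -/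
theorem CBasis.nbr_eq (hg : GenN k A p) (h : BadAt A H p) (hs : ∀ W ⊂ A, AllGood k W)
    (hE : CBasis A H E p) {v : V} (hv : v ∈ A) (h5 : dg A E v = 5) :
    nbr (A.erase v) (H : Set (Sym2 V)) v = nbr (A.erase v) (E : Set (Sym2 V)) v := by
  ext x
  rw [GR.mem_nbr, GR.mem_nbr]
  constructor
  · rintro ⟨h1, h2⟩
    exact ⟨h1, by exact_mod_cast hE.mem_of_five hg h hs hv h5 (by exact_mod_cast h2)⟩
  · rintro ⟨h1, h2⟩
    exact ⟨h1, by exact_mod_cast hE.sub (by exact_mod_cast h2)⟩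

/-- the star of a vertex of degree five is the same in all bases -/
theorem CBasis.nbr_eq_nbr (hg : GenN k A p) (h : BadAt A H p) (hs : ∀ W ⊂ A, AllGood k W)
    (hE : CBasis A H E p) (hE' : CBasis A H E' p) {v : V} (hv : v ∈ A) (h5 : dg A E v = 5) :
    nbr (A.erase v) (E' : Set (Sym2 V)) v = nbr (A.erase v) (E : Set (Sym2 V)) v := by
  have h1 := hE.nbr_eq hg h hs hv h5
  have h2 : nbr (A.erase v) (E' : Set (Sym2 V)) v ⊆ nbr (A.erase v) (E : Set (Sym2 V)) v := by
    rw [← h1]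
    intro x hx
    rw [GR.mem_nbr] at hx ⊢
    exact ⟨hx.1, by exact_mod_cast hE'.sub (by exact_mod_cast hx.2)⟩
  refine Finset.eq_of_subset_of_card_le h2 ?_
  have h3 := hE'.five_le h hv
  rw [dg] at h5
  omega

theorem CBasis.dg_five (hg : GenN k A p) (h : BadAt A H p) (hs : ∀ W ⊂ A, AllGood k W)
    (hE : CBasis A H E p) (hE' : CBasis A H E' p) {v : V} (hv : v ∈ A) (h5 : dg A E v = 5) :
    dg A E' v = 5 := by
  rw [dg, hE.nbr_eq_nbr hg h hs hE' hv h5]
  exact h5

theorem CBasis.dg_five_iff (hg : GenN k A p) (h : BadAt A H p) (hs : ∀ W ⊂ A, AllGood k W)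
    (hE : CBasis A H E p) (hE' : CBasis A H E' p) {v : V} (hv : v ∈ A) :
    dg A E' v = 5 ↔ dg A E v = 5 :=
  ⟨fun h5 => hE'.dg_five hg h hs hE hv h5, fun h5 => hE.dg_five hg h hs hE' hv h5⟩

/-- edges at vertices of degree five are in all bases -/
theorem CBasis.mem_iff_of_five (hg : GenN k A p) (h : BadAt A H p) (hs : ∀ W ⊂ A, AllGood k W)
    (hE : CBasis A H E p) (hE' : CBasis A H E' p) {v x : V} (hv : v ∈ A) (h5 : dg A E v = 5) :
    s(v, x) ∈ E' ↔ s(v, x) ∈ E := by
  constructor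
  · intro hx
    exact hE.mem_of_five hg h hs hv h5 (hE'.sub hx)
  · intro hx
    exact hE'.mem_of_five hg h hs hv (hE.dg_five hg h hs hE' hv h5) (hE.sub hx)

/-- the motions of `E - v` and `E' - v` agree, for a vertex of degree five -/
theorem CBasis.Mot_erase_eq (hg : GenN k A p) (h : BadAt A H p) (hs : ∀ W ⊂ A, AllGood k W)
    (hE : CBasis A H E p) (hE' : CBasis A H E' p) {v : V} (hv : v ∈ A) (h5 : dg A E v = 5)
    {q : V → Vec k} (hq : Nice A q) :
    Mot (A.erase v) (E' : Set (Sym2 V)) q = Mot (A.erase v) (E : Set (Sym2 V)) q := by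
  have hK : ∀ {F : Finset (Sym2 V)}, CBasis A H F p → rest F (A.erase v) ⊆ Kf (A.erase v) :=
    fun hF => rest_subset_Kf (fun e he => (mem_Kf.mp (hF.sub_Kf h he)).1) _
  have key : ∀ {F : Finset (Sym2 V)}, CBasis A H F p → dg A F v = 5 →
      Mot (A.erase v) (F : Set (Sym2 V)) q
        = Mot (A.erase v) ((rest H (A.erase v) : Finset (Sym2 V)) : Set (Sym2 V)) q := by
    intro F hF hF5
    rw [← hF.clF_erase h hv hF5, ← clF_eq_of_regular (hK hF)
      (hq.reg.mono (Finset.erase_subset v A)) (h.nice.reg.mono (Finset.erase_subset v A)),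
      Mot_clF (hK hF), Mot_rest]
  rw [key hE' (hE.dg_five hg h hs hE' hv h5), key hE h5]

/-- types of vertices of degree five are the same in all bases -/
theorem CBasis.typA (hg : GenN k A p) (h : BadAt A H p) (hs : ∀ W ⊂ A, AllGood k W)
    (hE : CBasis A H E p) (hE' : CBasis A H E' p) {v : V} (hA : TypA k A E v) :
    TypA k A E' v where
  mem := hA.mem
  deg := hE.dg_five hg h hs hE' hA.mem hA.deg
  typ := fun q hq => by
    rw [hE.Mot_erase_eq hg h hs hE' hA.mem hA.deg hq,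
      hE.nbr_eq_nbr hg h hs hE' hA.mem hA.deg]
    exact hA.typ q hq

theorem CBasis.typB (hg : GenN k A p) (h : BadAt A H p) (hs : ∀ W ⊂ A, AllGood k W)
    (hE : CBasis A H E p) (hE' : CBasis A H E' p) {v a b c d e : V}
    (hB : TypB k A E v a b c d e) : TypB k A E' v a b c d e where
  mem := hB.mem
  lab := by
    rw [hE.nbr_eq_nbr hg h hs hE' hB.mem hB.lab.card]
    exact hB.lab
  typ := fun q hq => by
    rw [hE.Mot_erase_eq hg h hs hE' hB.mem hB.lab.card hq]
    exact hB.typ q hq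

theorem CBasis.pureA (hg : GenN k A p) (h : BadAt A H p) (hs : ∀ W ⊂ A, AllGood k W)
    (hE : CBasis A H E p) (hE' : CBasis A H E' p) {v : V} (hA : PureA k A E v) :
    PureA k A E' v where
  typ := hE.typA hg h hs hE' hA.typ
  not_b := fun a b c d e hB => hA.not_b a b c d e (hE'.typB hg h hs hE hB)

/-- body and rod of a vertex of type B are edges of `H` -/
lemma CBasis.frame_mem (h : BadAt A H p) (hE : CBasis A H E p) {u a b c d e : V}
    (hB : TypB k A E u a b c d e) :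
    s(a, b) ∈ H ∧ s(a, c) ∈ H ∧ s(b, c) ∈ H ∧ s(d, e) ∈ H := by
  obtain ⟨t, ht, hM⟩ := hB.typ p h.nice
  have hL := hB.lab
  have hNA : nbr (A.erase u) (E : Set (Sym2 V)) u ⊆ A.erase u := nbr_subset _ _ _
  have hKr : rest E (A.erase u) ⊆ Kf (A.erase u) :=
    rest_subset_Kf (fun e he => (mem_Kf.mp (hE.sub_Kf h he)).1) _
  have key : ∀ x ∈ nbr (A.erase u) (E : Set (Sym2 V)) u,
      ∀ y ∈ nbr (A.erase u) (E : Set (Sym2 V)) u, x ≠ y →
      (∀ Z ∈ Mot (A.erase u) (E : Set (Sym2 V)) p, eps p x y Z = 0) → s(x, y) ∈ H := by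
    intro x hx y hy hxy hZ
    have h1 : s(x, y) ∈ clF (A.erase u) (rest E (A.erase u)) p := by
      rw [mem_clF, mk_mem_Kf]
      refine ⟨⟨hxy, hNA hx, hNA hy⟩, ?_⟩
      rw [mem_clo_iff_Mot hKr (hNA hx) (hNA hy), Mot_rest]
      exact hZ
    rw [hE.clF_erase h hB.mem hL.card] at h1
    exact rest_subset _ _ h1
  exact ⟨key a hL.ha b hL.hb hL.ab fun Z hZ => (TB_rigid (hM hZ)).1,
    key a hL.ha c hL.hc hL.ac fun Z hZ => (TB_rigid (hM hZ)).2.1,
    key b hL.hb c hL.hc hL.bc fun Z hZ => (TB_rigid (hM hZ)).2.2.1,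
    key d hL.hd e hL.he hL.de fun Z hZ => (TB_rigid (hM hZ)).2.2.2⟩

/-- two disjoint edges have no stress -/
lemma stress_two_edges {b c d e : V} (hgp : GenPos p (A : Set V)) (hb : b ∈ A) (hc : c ∈ A)
    (hd : d ∈ A) (he : e ∈ A) (hbc : b ≠ c) (hbd : b ≠ d) (hbe : b ≠ e) (hcd : c ≠ d)
    (hde : d ≠ e) {ω : Sym2 V → k}
    (hω : ω ∈ Stress ({s(b, c), s(d, e)} : Finset (Sym2 V)) p) : ω = 0 := by
  have hvert : ∀ f ∈ ({s(b, c), s(d, e)} : Finset (Sym2 V)), ∀ v ∈ f, v ∈ A := by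
    intro f hf v hv
    simp only [Finset.mem_insert, Finset.mem_singleton] at hf
    rcases hf with rfl | rfl
    · rcases Sym2.mem_iff.mp hv with rfl | rfl <;> assumption
    · rcases Sym2.mem_iff.mp hv with rfl | rfl <;> assumption
  have key : ∀ v w, v ∈ A → (∀ x, s(v, x) = s(b, c) ∨ s(v, x) = s(d, e) → x = w) →
      suppAt A ω v = ∅ := by
    intro v w hv hx
    rcases suppAt_card hvert hgp hω hv with h1 | h1
    · exact h1
    · exfalso
      have h2 : suppAt A ω v ⊆ {w} := by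
        intro x hx'
        rw [mem_suppAt] at hx'
        have h3 : s(v, x) ∈ ({s(b, c), s(d, e)} : Finset (Sym2 V)) := by
          by_contra hn
          exact hx'.2.2 (hω.1 _ hn)
        simp only [Finset.mem_insert, Finset.mem_singleton] at h3
        rw [Finset.mem_singleton]
        exact hx x h3
      have h3 := Finset.card_le_card h2
      rw [Finset.card_singleton] at h3
      omega
  have hb0 := key b c hb (by
    rintro x (hx | hx)
    · exact Sym2.congr_right.mp hx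
    · rcases Sym2.eq_iff.mp hx with ⟨h1, -⟩ | ⟨h1, -⟩
      · exact absurd h1 hbd
      · exact absurd h1 hbe)
  have hd0 := key d e hd (by
    rintro x (hx | hx)
    · rcases Sym2.eq_iff.mp hx with ⟨h1, -⟩ | ⟨h1, -⟩
      · exact absurd h1.symm hbd
      · exact absurd h1.symm hcd
    · exact Sym2.congr_right.mp hx)
  ext f
  by_cases hf : f ∈ ({s(b, c), s(d, e)} : Finset (Sym2 V))
  · simp only [Finset.mem_insert, Finset.mem_singleton] at hf
    rcases hf with rfl | rfl
    · by_contra hne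
      have : c ∈ suppAt A ω b := mem_suppAt.mpr ⟨hbc.symm, hc, hne⟩
      rw [hb0] at this
      simp at this
    · by_contra hne
      have : e ∈ suppAt A ω d := mem_suppAt.mpr ⟨hde.symm, he, hne⟩
      rw [hd0] at this
      simp at this
  · exact hω.1 f hf

/-- **Frame bases.**  For a vertex `u` of type B with body `a b c` and rod `d e` there is a basis
of minimal degree at `a` which contains the body and the rod, and `a x`, where `x` is any further
neighbour of `a` in `H`. -/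
theorem CBasis.exists_frame_gen (hg : GenN k A p) (h : BadAt A H p) (hs : ∀ W ⊂ A, AllGood k W)
    (hE : CBasis A H E p) {u a b c d e x : V} (hB : TypB k A E u a b c d e) (hx : s(a, x) ∈ H) :
    ∃ E', CBasis A H E' p ∧ s(a, b) ∈ E' ∧ s(a, c) ∈ E' ∧ s(b, c) ∈ E' ∧ s(d, e) ∈ E' ∧
      s(a, x) ∈ E' ∧ dg A E' a + 3 = mdim (A.erase a) (H : Set (Sym2 V)) p ∧
      dg A E' a ≤ dg A E a ∧ TypB k A E' u a b c d e := by
  obtain ⟨hab, hac, hbc, hde⟩ := hE.frame_mem h hB
  have hL := hB.lab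
  have hNA : nbr (A.erase u) (E : Set (Sym2 V)) u ⊆ A :=
    (nbr_subset _ _ _).trans (Finset.erase_subset u A)
  have haA := hNA hL.ha
  have hI : ({s(b, c), s(d, e)} : Finset (Sym2 V)) ⊆ rest H (A.erase a) := by
    intro f hf
    simp only [Finset.mem_insert, Finset.mem_singleton] at hf
    rw [mem_rest]
    rcases hf with rfl | rfl
    · refine ⟨hbc, fun v hv => ?_⟩
      rcases Sym2.mem_iff.mp hv with rfl | rfl
      · exact Finset.mem_erase.mpr ⟨hL.ab.symm, hNA hL.hb⟩
      · exact Finset.mem_erase.mpr ⟨hL.ac.symm, hNA hL.hc⟩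
    · refine ⟨hde, fun v hv => ?_⟩
      rcases Sym2.mem_iff.mp hv with rfl | rfl
      · exact Finset.mem_erase.mpr ⟨hL.ad.symm, hNA hL.hd⟩
      · exact Finset.mem_erase.mpr ⟨hL.ae.symm, hNA hL.he⟩
  have hind : CInd H ({s(b, c), s(d, e)} : Finset (Sym2 V)) p :=
    CInd.of_Stress (hI.trans (rest_subset _ _)) fun ω hω =>
      stress_two_edges h.nice.gp (hNA hL.hb) (hNA hL.hc) (hNA hL.hd) (hNA hL.he) hL.bc hL.bd
        hL.be hL.cd hL.de hω
  have hmem : ∀ y, s(a, y) ∈ H → y ∈ nbr (A.erase a) (H : Set (Sym2 V)) a := by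
    intro y hy
    have h1 := mk_mem_Kf.mp (h.flat.1 hy)
    exact GR.mem_nbr.mpr ⟨Finset.mem_erase.mpr ⟨h1.1.symm, h1.2.2⟩, by exact_mod_cast hy⟩
  obtain ⟨E', hE'1, hE', hdeg⟩ := h.exists_basis_deg haA hI hind (T := {b, c, x}) (by
    intro y hy
    simp only [Finset.mem_insert, Finset.mem_singleton] at hy
    rcases hy with rfl | rfl | rfl
    exacts [hmem _ hab, hmem _ hac, hmem _ hx]) Finset.card_le_three
  have hin : ∀ y, y = b ∨ y = c ∨ y = x → s(a, y) ∈ E' := fun y hy =>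
    hE'1 (mem_addStar.mpr (Or.inr ⟨y, by simpa using hy, rfl⟩))
  have hge := hE.deg_ge h haA
  refine ⟨E', hE', hin b (Or.inl rfl), hin c (Or.inr (Or.inl rfl)), ?_, ?_,
    hin x (Or.inr (Or.inr rfl)), hdeg, ?_, hE.typB hg h hs hE' hB⟩
  · exact hE'1 (mem_addStar.mpr (Or.inl (by simp)))
  · exact hE'1 (mem_addStar.mpr (Or.inl (by simp)))
  · show (nbr (A.erase a) (E' : Set (Sym2 V)) a).card ≤ (nbr (A.erase a) (E : Set (Sym2 V)) a).card
    omega

theorem CBasis.exists_frame (hg : GenN k A p) (h : BadAt A H p) (hs : ∀ W ⊂ A, AllGood k W)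
    (hE : CBasis A H E p) {u a b c d e : V} (hB : TypB k A E u a b c d e) :
    ∃ E', CBasis A H E' p ∧ s(a, b) ∈ E' ∧ s(a, c) ∈ E' ∧ s(b, c) ∈ E' ∧ s(d, e) ∈ E' ∧
      dg A E' a + 3 = mdim (A.erase a) (H : Set (Sym2 V)) p ∧
      dg A E' a ≤ dg A E a ∧ TypB k A E' u a b c d e := by
  obtain ⟨E', h1, h2, h3, h4, h5, -, h6, h7, h8⟩ :=
    hE.exists_frame_gen hg h hs hB (hE.frame_mem h hB).1
  exact ⟨E', h1, h2, h3, h4, h5, h6, h7, h8⟩

/-- the closure of a basis is `H` at `p`; the closure at nice positions does not depend on the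
position -/
lemma CBasis.clF_nice (h : BadAt A H p) (hE : CBasis A H E p) {q : V → Vec k} (hq : Nice A q) :
    clF A E q = H := by
  rw [clF_eq_of_regular (hE.sub_Kf h) hq.reg h.nice.reg, hE.clF_eq h]

/-- Lemma N for the closure at nice positions -/
theorem CBasis.nbr_of_clF (hg : GenN k A p) (h : BadAt A H p) (hs : ∀ W ⊂ A, AllGood k W)
    (hE : CBasis A H E p) {v y : V} (hv : v ∈ A) (h5 : dg A E v = 5) {q : V → Vec k}
    (hq : Nice A q) (hy : s(v, y) ∈ clF A E q) : s(v, y) ∈ E := by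
  rw [hE.clF_nice h hq] at hy
  exact hE.mem_of_five hg h hs hv h5 hy

end

/-- **From the frame bases to all bases** (B2). -/
theorem stmtB2_of_frame (hloc : ∀ (A : Finset V) (E : Finset (Sym2 V)) (u a b c d e : V),
    MinCE k A E → TypB k A E u a b c d e → s(a, b) ∈ E → s(a, c) ∈ E → s(b, c) ∈ E →
    s(d, e) ∈ E →
    (∀ p : V → Vec k, Nice A p → ∀ y ∈ A, s(u, y) ∈ clF A E p →
      y ∈ nbr (A.erase u) (E : Set (Sym2 V)) u) →
    7 ≤ dg A E a) : StmtB2 k V := by
  intro A hs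
  filter_upwards [eventually_genN k A] with p hg H E h hE u a b c d e hB
  obtain ⟨E', hE', hab, hac, hbc, hde, -, hle, hB'⟩ := hE.exists_frame hg h hs hB
  refine le_trans (hloc A E' u a b c d e (hE'.minCE h hs) hB' hab hac hbc hde ?_) hle
  intro q hq y hy hy'
  have h1 := hE'.nbr_of_clF hg h hs hB'.mem hB'.lab.card hq hy'
  have h2 := mk_mem_Kf.mp (hE'.sub_Kf h h1)
  exact GR.mem_nbr.mpr ⟨Finset.mem_erase.mpr ⟨h2.1.symm, hy⟩, by exact_mod_cast h1⟩

end GR
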