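import Pool.Agent.Lib.GR.NH6
import Pool.Agent.Lib.GR.AllB
import Pool.Agent.Lib.GR.Adj
import Pool.Agent.Lib.GR.E4Hyp

/-!
# Lemma N, part 7: vertices of degree five are not adjacent in `H`; assembly of (B3)
-/

set_option linter.unusedSectionVars false

namespace GR

open Filter Module

open scoped Matrix

variable {k : Type*} [Field k] [Infinite k] {V : Type*} [DecidableEq V]

section

variable {A : Finset V} {E : Finset (Sym2 V)}

/-- Vertices of degree five are not adjacent, given the bound (B2) for the body vertices. -/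
theorem MinCE.not_adj_five (h : MinCE k A E)
    (hB2 : ∀ u a b c d e, TypB k A E u a b c d e → 7 ≤ dg A E a) {x y : V} (hx : x ∈ A)
    (hx5 : dg A E x = 5) (hy5 : dg A E y = 5) : s(x, y) ∉ E := by
  intro hxy
  rcases h.types_const hx hx5 with hA | ⟨a, b, c, d, e, hB⟩
  · exact h.dg_ne_five_of_typA hA hxy hy5
  · have h1 := mk_mem_Kf.mp (h.sub hxy)
    have hyN : y ∈ nbr (A.erase x) (E : Set (Sym2 V)) x :=
      GR.mem_nbr.mpr ⟨Finset.mem_erase.mpr ⟨h1.1.symm, h1.2.2⟩, by exact_mod_cast hxy⟩
    have h6 := h.six_le_dg_rod hB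
    rcases hB.lab.cases hyN with rfl | rfl | rfl | rfl | rfl
    · have := hB2 _ _ _ _ _ _ hB
      omega
    · have := hB2 _ _ _ _ _ _ hB.swap_ab
      omega
    · have := hB2 _ _ _ _ _ _ hB.swap_ac
      omega
    · omega
    · omega

end

/-- **(B3) from the local statement.** -/
theorem stmtB3_of (hB2 : StmtB2 k V)
    (hloc : ∀ (A : Finset V) (E : Finset (Sym2 V)) (u a b c d e : V) (v : Fin 3 → V),
      E4.B3Hyp k A E u a b c d e v → False) : StmtB3 k V := by
  classical
  intro A hs
  filter_upwards [eventually_genN k A, hB2 A hs] with p hg h7 H E h hE u a b c d e hB ha7 S hS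
  have hCE := hE.minCE h hs
  have hB7 : ∀ u a b c d e, TypB k A E u a b c d e → 7 ≤ dg A E a := h7 H E h hE
  by_cases hall : ∀ v ∈ S, ∃ b' c' d' e', TypB k A E v a b' c' d' e'
  · refine allB_le_three h hE hCE (fun v hv hv5 => (hE.nbr_eq hg h hs hv hv5).le)
      (fun u a b c d e hu => ?_) ha7.le fun v hv => ⟨(hS v hv).1, hall v hv⟩
    have := hB7 u a b c d e hu
    omega
  · push Not at hall
    obtain ⟨v₀, hv₀, hnot⟩ := hall
    have hpure : PureA k A E v₀ := (hS v₀ hv₀).2.resolve_right fun ⟨b', c', d', e', h1⟩ =>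
      hnot b' c' d' e' h1
    by_contra hcon
    push Not at hcon
    -- degrees
    have hS5 : ∀ v ∈ S, dg A E v = 5 := by
      intro v hv
      rcases (hS v hv).2 with h1 | ⟨b', c', d', e', h1⟩
      · exact h1.typ.deg
      · exact h1.lab.card
    have hSA : ∀ v ∈ S, v ∈ A := by
      intro v hv
      rcases (hS v hv).2 with h1 | ⟨b', c', d', e', h1⟩
      · exact h1.typ.mem
      · exact h1.mem
    have hv₀u : v₀ ≠ u := by
      rintro rfl
      exact hpure.not_b _ _ _ _ _ hB
    -- three vertices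
    have hc : 2 ≤ ((S.erase u).erase v₀).card := by
      have h1 := Finset.pred_card_le_card_erase (s := S) (a := u)
      have h2 := Finset.pred_card_le_card_erase (s := S.erase u) (a := v₀)
      omega
    obtain ⟨v₁, hv₁, v₂, hv₂, h12⟩ := Finset.one_lt_card.mp (by omega :
      1 < ((S.erase u).erase v₀).card)
    simp only [Finset.mem_erase] at hv₁ hv₂
    -- the frame basis
    obtain ⟨E', hE', hab, hac, hbc, hde, -, hle, hB'⟩ := hE.exists_frame hg h hs hB
    have hCE' := hE'.minCE h hs
    have hB7' : ∀ u a b c d e, TypB k A E' u a b c d e → 7 ≤ dg A E' a := h7 H E' h hE'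
    have hv : ∀ i, (![v₀, v₁, v₂] : Fin 3 → V) i ∈ S := by
      intro i
      fin_cases i
      · exact hv₀
      · exact hv₁.2.2
      · exact hv₂.2.2
    have hfive : ∀ v ∈ S, dg A E' v = 5 := fun v hvS =>
      hE.dg_five hg h hs hE' (hSA v hvS) (hS5 v hvS)
    have hinj : Function.Injective (![v₀, v₁, v₂] : Fin 3 → V) := by
      intro i j hij
      fin_cases i <;> fin_cases j <;> first | rfl | skip
      · exact absurd hij (Ne.symm hv₁.1)
      · exact absurd hij (Ne.symm hv₂.1)
      · exact absurd hij hv₁.1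
      · exact absurd hij h12
      · exact absurd hij hv₂.1
      · exact absurd hij h12.symm
    refine hloc A E' u a b c d e ![v₀, v₁, v₂] ⟨hCE', hB', ?_, hab, hac, hbc, hde, hinj,
      fun i => ?_, fun i => hfive _ (hv i), fun i => ?_, fun i => ?_, fun i j hij q hq hc => ?_,
      hE.pureA hg h hs hE' hpure⟩
    · have := hB7' _ _ _ _ _ _ hB'
      omega
    · have h1 := hE.mem_iff_of_five hg h hs hE' (x := a) (hSA _ (hv i)) (hS5 _ (hv i))
      rw [Sym2.eq_swap, h1, Sym2.eq_swap]
      exact (hS _ (hv i)).1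
    · fin_cases i
      · exact hv₀u
      · exact hv₁.2.1
      · exact hv₂.2.1
    · exact hCE'.not_adj_five hB7' hB'.mem hB'.lab.card (hfive _ (hv i))
    · exact hCE'.not_adj_five hB7' (hSA _ (hv i)) (hfive _ (hv i)) (hfive _ (hv j))
        (hE'.nbr_of_clF hg h hs (hSA _ (hv i)) (hfive _ (hv i)) hq hc)

end GR
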