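import Pool.Agent.Lib.GR.Spec
import Pool.Agent.Lib.GR.TypesHard

/-!
# Nine points in general position

`SkewSub k` has dimension six.  If `B` is a linear map with `B y ⬝ᵥ y = 0` at nine generic points
and `B y₀ ⬝ᵥ y₁ + B y₁ ⬝ᵥ y₀ = 0` for two of them, then `B` is skew.
-/

set_option linter.unusedSectionVars false

namespace GR

open Filter Module

open scoped Matrix

variable {k : Type*} [Field k] {V : Type*}

lemma finrank_SkewSub : finrank k (SkewSub k) = 6 := by
  have e : (SkewSub k).map (LinearMap.toMatrix' (R := k) (m := Fin 4) (n := Fin 4) :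
      (Vec k →ₗ[k] Vec k) ≃ₗ[k] Matrix (Fin 4) (Fin 4) k).toLinearMap = Skew k := by
    ext L
    constructor
    · rintro ⟨S, hS, rfl⟩
      exact Skew_of_isSkew hS
    · intro hL
      refine ⟨Matrix.mulVecLin L, isSkew_of_mem_Skew hL, ?_⟩
      exact LinearMap.toMatrix'_toLin' L
  rw [← finrank_Skew (k := k), ← e]
  exact (LinearEquiv.finrank_map_eq _ _).symm

/-- the ten conditions -/
noncomputable def tenF (x : Fin 9 → Vec k) :
    (Vec k →ₗ[k] Vec k) →ₗ[k] (Option (Fin 9) → k) where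
  toFun B o := o.elim (B (x 0) ⬝ᵥ x 1 + B (x 1) ⬝ᵥ x 0) fun a => B (x a) ⬝ᵥ x a
  map_add' B B' := by
    funext o
    cases o
    · simp only [Option.elim_none, LinearMap.add_apply, add_dotProduct, Pi.add_apply]
      ring
    · simp only [Option.elim_some, LinearMap.add_apply, add_dotProduct, Pi.add_apply]
  map_smul' c B := by
    funext o
    cases o
    · simp only [Option.elim_none, LinearMap.smul_apply, smul_dotProduct, Pi.smul_apply,
        smul_eq_mul, RingHom.id_apply]
      ring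
    · simp only [Option.elim_some, LinearMap.smul_apply, smul_dotProduct, Pi.smul_apply,
        smul_eq_mul, RingHom.id_apply]

lemma tenF_some (x : Fin 9 → Vec k) (B : Vec k →ₗ[k] Vec k) (a : Fin 9) :
    tenF x B (some a) = B (x a) ⬝ᵥ x a := rfl

lemma tenF_none (x : Fin 9 → Vec k) (B : Vec k →ₗ[k] Vec k) :
    tenF x B none = B (x 0) ⬝ᵥ x 1 + B (x 1) ⬝ᵥ x 0 := rfl

lemma SkewSub_le_ker_tenF (x : Fin 9 → Vec k) : SkewSub k ≤ LinearMap.ker (tenF x) := by
  intro S hS
  rw [LinearMap.mem_ker]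
  funext o
  cases o
  · rw [tenF_none, (show IsSkew S from hS).swap (x 0) (x 1)]
    simp
  · rw [tenF_some]
    exact hS _

/-- explicit nine points -/
def x9 (k : Type*) [Field k] : Fin 9 → Vec k :=
  ![![1, 0, 0, 0], ![0, 1, 0, 0], ![0, 0, 1, 0], ![0, 0, 0, 1], ![1, 0, 1, 0], ![1, 0, 0, 1],
    ![0, 1, 1, 0], ![0, 1, 0, 1], ![0, 0, 1, 1]]

lemma ker_tenF_x9 : LinearMap.ker (tenF (x9 k)) = SkewSub k := by
  refine le_antisymm ?_ (SkewSub_le_ker_tenF _)
  intro B hB
  rw [LinearMap.mem_ker] at hB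
  set L := LinearMap.toMatrix' B with hL
  have hBL : ∀ y, B y = L *ᵥ y := fun y => by
    rw [hL, LinearMap.toMatrix'_mulVec]
  have h0 := congrFun hB (some 0)
  have h1 := congrFun hB (some 1)
  have h2 := congrFun hB (some 2)
  have h3 := congrFun hB (some 3)
  have h4 := congrFun hB (some 4)
  have h5 := congrFun hB (some 5)
  have h6 := congrFun hB (some 6)
  have h7 := congrFun hB (some 7)
  have h8 := congrFun hB (some 8)
  have h9 := congrFun hB none
  simp only [tenF_some, tenF_none, hBL, x9, Pi.zero_apply] at h0 h1 h2 h3 h4 h5 h6 h7 h8 h9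
  simp [Matrix.mulVec, dotProduct, Fin.sum_univ_four] at h0 h1 h2 h3 h4 h5 h6 h7 h8 h9
  intro y
  rw [hBL]
  simp only [Matrix.mulVec, dotProduct, Fin.sum_univ_four]
  linear_combination (y 0 ^ 2 - y 0 * y 2 - y 0 * y 3) * h0
    + (y 1 ^ 2 - y 1 * y 2 - y 1 * y 3) * h1
    + (y 2 ^ 2 - y 0 * y 2 - y 1 * y 2 - y 2 * y 3) * h2
    + (y 3 ^ 2 - y 0 * y 3 - y 1 * y 3 - y 2 * y 3) * h3
    + y 0 * y 2 * h4 + y 0 * y 3 * h5 + y 1 * y 2 * h6 + y 1 * y 3 * h7 + y 2 * y 3 * h8
    + y 0 * y 1 * h9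

/-- **Nine points lemma.** -/
theorem eventually_ten [Infinite k] {y : Fin 9 → V} (hy : Function.Injective y) :
    ∀ᶠ p in gen k (V → Vec k), ∀ B : Vec k →ₗ[k] Vec k,
      (∀ a, B (p (y a)) ⬝ᵥ p (y a) = 0) →
      B (p (y 0)) ⬝ᵥ p (y 1) + B (p (y 1)) ⬝ᵥ p (y 0) = 0 → IsSkew B := by
  classical
  have hpoly : PolyFam (fun p : V → Vec k => tenF fun a => p (y a)) := by
    have hB : ∀ (B : Vec k →ₗ[k] Vec k) (v w : V),
        PolyLine k (fun p : V → Vec k => B (p v) ⬝ᵥ p w) := by
      intro B v w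
      have : ∀ p : V → Vec k, B (p v) ⬝ᵥ p w = ∑ i, B (p v) i * p w i := fun p => rfl
      simp only [this]
      refine PolyLine.sum _ fun i _ => PolyLine.mul ?_ ?_
      · exact PolyLine.linear ((LinearMap.proj i : Vec k →ₗ[k] k) ∘ₗ B ∘ₗ
          (LinearMap.proj v : (V → Vec k) →ₗ[k] Vec k))
      · exact PolyLine.linear ((LinearMap.proj i : Vec k →ₗ[k] k) ∘ₗ
          (LinearMap.proj w : (V → Vec k) →ₗ[k] Vec k))
    have e : (fun p : V → Vec k => tenF fun a => p (y a))
        = fun p => LinearMap.pi fun o => (LinearMap.proj o) ∘ₗ (tenF fun a => p (y a)) := by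
      funext p
      ext B o
      rfl
    rw [e]
    refine PolyFam.pi fun o => PolyFam.of_scalar fun B => ?_
    cases o with
    | none => exact (hB B _ _).add (hB B _ _)
    | some a => exact hB B _ _
  -- an explicit position
  obtain ⟨p0, hp0⟩ : ∃ p0 : V → Vec k, ∀ a, p0 (y a) = x9 k a := by
    refine ⟨fun v => if h : ∃ a, y a = v then x9 k h.choose else 0, fun a => ?_⟩
    have h : ∃ b, y b = y a := ⟨a, rfl⟩
    simp only [h, dif_pos]
    congr 1
    exact hy h.choose_spec
  have h1 := eventually_finrank_le (⊤ : Submodule k (Vec k →ₗ[k] Vec k)) hpoly p0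
  have e0 : (fun a => p0 (y a)) = x9 k := funext hp0
  rw [e0, top_inf_eq, ker_tenF_x9, finrank_SkewSub] at h1
  filter_upwards [h1] with p hp B hB hB'
  rw [top_inf_eq] at hp
  have h2 : SkewSub k = LinearMap.ker (tenF fun a => p (y a)) := by
    refine Submodule.eq_of_le_of_finrank_le (SkewSub_le_ker_tenF _) ?_
    rw [finrank_SkewSub]
    exact hp
  have h3 : B ∈ SkewSub k := by
    rw [h2, LinearMap.mem_ker]
    funext o
    cases o with
    | none => exact hB'
    | some a => exact hB a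
  exact h3

/-- The conclusion of the nine points lemma for all sets of nine vertices of `A`. -/
def TenProp (A : Finset V) (p : V → Vec k) : Prop :=
  ∀ S ⊆ A, S.card = 9 → ∀ a ∈ S, ∀ b ∈ S, a ≠ b → ∀ B : Vec k →ₗ[k] Vec k,
    (∀ x ∈ S, B (p x) ⬝ᵥ p x = 0) → B (p a) ⬝ᵥ p b + B (p b) ⬝ᵥ p a = 0 → IsSkew B

theorem eventually_tenProp [Infinite k] (A : Finset V) :
    ∀ᶠ p in gen k (V → Vec k), TenProp A p := by
  classical
  have h : ∀ᶠ p in gen k (V → Vec k), ∀ y : Fin 9 → A, Function.Injective y →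
      ∀ B : Vec k →ₗ[k] Vec k, (∀ a, B (p (y a)) ⬝ᵥ p (y a) = 0) →
      B (p (y 0)) ⬝ᵥ p (y 1) + B (p (y 1)) ⬝ᵥ p (y 0) = 0 → IsSkew B := by
    rw [Filter.eventually_all]
    intro y
    by_cases hy : Function.Injective y
    · filter_upwards [eventually_ten (k := k) (y := fun a => (y a : V))
        (fun a b hab => hy (Subtype.ext hab))] with p hp _
      exact hp
    · exact Filter.Eventually.of_forall fun p h => absurd h hy
  filter_upwards [h] with p hp S hSA hS a ha b hb hab B hB hB'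
  have hcard : ((S.erase a).erase b).card = 7 := by
    rw [Finset.card_erase_of_mem (Finset.mem_erase.mpr ⟨hab.symm, hb⟩),
      Finset.card_erase_of_mem ha, hS]
  set e : Fin 7 ≃ ((S.erase a).erase b) := (Finset.equivFinOfCardEq hcard).symm with he
  have hm : ∀ i, (e i : V) ∈ S ∧ (e i : V) ≠ a ∧ (e i : V) ≠ b := by
    intro i
    have h1 := Finset.mem_erase.mp (e i).2
    have h2 := Finset.mem_erase.mp h1.2
    exact ⟨h2.2, h2.1, h1.1⟩
  let y' : Fin 9 → V := Fin.cons a (Fin.cons b fun i => (e i : V))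
  have hy'S : ∀ i, y' i ∈ S := by
    intro i
    refine Fin.cases ha (fun i => ?_) i
    exact Fin.cases hb (fun i => (hm i).1) i
  have hy'i : Function.Injective y' := by
    rw [Fin.cons_injective_iff]
    refine ⟨?_, ?_⟩
    · rintro ⟨i, hi⟩
      revert hi
      refine Fin.cases (fun hi => ?_) (fun i hi => ?_) i
      · exact hab hi.symm
      · exact (hm i).2.1 hi
    · rw [Fin.cons_injective_iff]
      refine ⟨?_, ?_⟩
      · rintro ⟨i, hi⟩
        exact (hm i).2.2 hi
      · intro i j hij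
        exact e.injective (Subtype.ext hij)
  exact hp (fun i => ⟨y' i, hSA (hy'S i)⟩) (fun i j hij => hy'i (congrArg Subtype.val hij)) B
    (fun i => hB _ (hy'S i)) hB'

end GR
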