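import Pool.Agent.Lib.GR.PolyMot
import Pool.Agent.Lib.GR.TypesHard
import Pool.Agent.Lib.GR.MainAbs

/-!
# The pair lemma

`M = Mot A E p` and two 5-sets `Nu`, `Nv` of vertices of `A`, to which new vertices `u` (at a
generic point `x`) and `v` (at a generic point `y`) are joined.  If the space of motions which
extend to `u` is of type A or B at `Nv`, then all these spaces (for all `x`), and all the spaces of
motions which extend to `v`, lie in ONE hyperplane of `M`.
-/

set_option linter.unusedSectionVars false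

namespace GR

open Filter Module

open scoped Matrix

variable {k : Type*} [Field k] [Infinite k]

section SpecFam

variable {E F F' : Type*} [AddCommGroup E] [Module k E] [AddCommGroup F] [Module k F]
  [AddCommGroup F'] [Module k F']

/-- A family of subspaces to which the specialisation lemma applies. -/
def SpecFam (Q : F → Submodule k E) : Prop :=
  ∀ (T : Submodule k E) (d : ℕ), (∃ᶠ x in gen k F, finrank k (Q x) = d) →
    (∃ᶠ x in gen k F, Q x ≤ T) → ∀ x0, finrank k (Q x0) = d → Q x0 ≤ T

lemma specFam_ker {G : Type*} [AddCommGroup G] [Module k G] (M : Submodule k E)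
    [FiniteDimensional k M] {a : F → E →ₗ[k] G} (ha : PolyFam a) :
    SpecFam fun x => M ⊓ LinearMap.ker (a x) := by
  intro T d hd h x0 h0
  have h1 := spec_of_eq_gfin (E0 := M) ha (ψ := fun _ => T.mkQ) (PolyFam.const _)
    (by simpa using h) (x0 := x0) (by rw [h0, gfin_eq_of_frequently ha hd])
  simpa using h1

/-- Dimension count of the pair lemma. -/
lemma pair_abs {M L : Submodule k E} [FiniteDimensional k M] {Q : F → Submodule k E}
    {R : F' → Submodule k E} {c : ℕ} (hLM : L ≤ M)
    (hQ : ∀ x, finrank k (Q x) = c + 2 → Q x ≤ L)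
    (hQd : ∀ᶠ x in gen k F, finrank k (Q x) = c + 2)
    (hnc : ∀ L' : Submodule k E, ¬ ∃ᶠ x in gen k F, Q x = L')
    (hRd : ∀ᶠ y in gen k F', finrank k (R y) = c + 2) (hRM : ∀ y, R y ≤ M)
    (hR : ∀ y, finrank k L ≤ finrank k (L ⊓ R y : Submodule k E) + 1) :
    finrank k L = c + 3 ∧ ∀ y, finrank k (R y) = c + 2 → R y ≤ L := by
  have : FiniteDimensional k L := Submodule.finiteDimensional_of_le hLM
  have hRfin : ∀ y, FiniteDimensional k (R y) := fun y =>
    Submodule.finiteDimensional_of_le (hRM y)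
  obtain ⟨y0, hy0⟩ := hRd.exists
  have h1 := hR y0
  have h2 : finrank k (L ⊓ R y0 : Submodule k E) ≤ finrank k (R y0) :=
    Submodule.finrank_mono inf_le_right
  obtain ⟨x0, hx0⟩ := hQd.exists
  have h3 := Submodule.finrank_mono (hQ x0 hx0)
  have h4 : finrank k L ≠ c + 2 := by
    intro h4
    refine hnc L (hQd.mono fun x hx => ?_).frequently
    exact Submodule.eq_of_le_of_finrank_le (hQ x hx) (by omega)
  have h5 : finrank k L = c + 3 := by omega
  refine ⟨h5, fun y hy => ?_⟩
  have h6 := hR y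
  have h7 : L ⊓ R y = R y := Submodule.eq_of_le_of_finrank_le inf_le_right (by omega)
  exact h7 ▸ inf_le_left

end SpecFam

variable {V : Type*}

/-- The attaching spaces satisfy the specialisation lemma. -/
theorem specFam_Att (M : Submodule k (V → Vec k)) [FiniteDimensional k M] (p : V → Vec k)
    (N : Finset V) (hspan : Submodule.span k (p '' (N : Set V)) = ⊤) :
    SpecFam fun x : Vec k => M ⊓ Att p (N : Set V) x := by
  classical
  intro T d hd h x0 h0
  -- the extended space
  let a : Vec k → ((V → Vec k) × Vec k) →ₗ[k] (k × (N → k)) := fun x =>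
    { toFun := fun Zz => (Zz.2 ⬝ᵥ x, fun v => Zz.2 ⬝ᵥ p v + Zz.1 v ⬝ᵥ x)
      map_add' := fun Z Z' => by
        ext1
        · simp [add_dotProduct]
        · ext v
          simp only [Prod.snd_add, Prod.fst_add, Pi.add_apply, add_dotProduct]
          ring
      map_smul' := fun c Z => by
        ext1
        · simp
        · ext v
          simp only [Prod.smul_snd, Prod.smul_fst, Pi.smul_apply, smul_dotProduct, smul_eq_mul,
            RingHom.id_apply]
          ring }
  have ha : PolyFam a := by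
    intro Zz φ
    have e : ∀ x, φ (a x Zz) = (φ ∘ₗ LinearMap.inl k k (N → k)) (Zz.2 ⬝ᵥ x)
        + ∑ v : N, (φ ∘ₗ LinearMap.inr k k (N → k) ∘ₗ LinearMap.single k (fun _ : N => k) v)
            (Zz.2 ⬝ᵥ p v + Zz.1 v ⬝ᵥ x) := by
      intro x
      simp only [LinearMap.comp_apply, LinearMap.inl_apply, LinearMap.inr_apply]
      rw [← map_sum, ← map_add]
      congr 1
      ext1
      · simp [a, Prod.fst_sum]
      · ext v
        simp [a, Prod.snd_sum, Finset.sum_apply, Pi.single_apply]
    simp only [e]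
    have lin : ∀ (χ : k →ₗ[k] k) (f : Vec k → k), PolyLine k f → PolyLine k (fun x => χ (f x)) := by
      intro χ f hf
      have : (fun x => χ (f x)) = fun x => χ 1 * f x := by
        ext x
        have := χ.map_smul (f x) 1
        simp only [smul_eq_mul, mul_one] at this
        rw [this, mul_comm]
      rw [this]
      exact (PolyLine.const _).mul hf
    have hx : ∀ z : Vec k, PolyLine k (fun x : Vec k => z ⬝ᵥ x) := fun z =>
      PolyLine.dot (f := fun _ : Vec k => z) (g := fun x : Vec k => x) (fun _ => PolyLine.const _)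
        (fun i => PolyLine.coord' i)
    refine (lin _ _ (hx _)).add (PolyLine.sum _ fun v _ => lin _ _ ?_)
    exact (PolyLine.const _).add (hx _)
  -- the projection
  set E0 : Submodule k ((V → Vec k) × Vec k) := M.prod ⊤ with hE0
  have hfd : FiniteDimensional k E0 :=
    Submodule.fg_iff_finiteDimensional _ |>.mp
      (Submodule.FG.prod ((Submodule.fg_iff_finiteDimensional _).mpr inferInstance)
        ((Submodule.fg_iff_finiteDimensional _).mpr inferInstance))
  have hmap : ∀ x, (E0 ⊓ LinearMap.ker (a x)).map (LinearMap.fst k (V → Vec k) (Vec k))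
      = M ⊓ Att p (N : Set V) x := by
    intro x
    ext Z
    simp only [Submodule.mem_map, Submodule.mem_inf, LinearMap.mem_ker, LinearMap.fst_apply]
    constructor
    · rintro ⟨⟨Z', z⟩, ⟨h1, h2⟩, rfl⟩
      refine ⟨h1.1, z, ?_, fun v hv => ?_⟩
      · exact congrArg Prod.fst h2
      · exact congrFun (congrArg Prod.snd h2) ⟨v, hv⟩
    · rintro ⟨h1, z, h2, h3⟩
      refine ⟨(Z, z), ⟨⟨h1, trivial⟩, ?_⟩, rfl⟩
      ext1
      · exact h2
      · ext v
        exact h3 v v.2
  have hinj : ∀ x, ∀ Y ∈ E0 ⊓ LinearMap.ker (a x), Y.1 = 0 → Y = 0 := by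
    rintro x ⟨Z, z⟩ hY (rfl : Z = 0)
    have h1 : ∀ v : N, z ⬝ᵥ p v = 0 := by
      intro v
      have h2 : a x (0, z) = 0 := hY.2
      have := congrFun (congrArg Prod.snd h2) v
      simpa [a] using this
    have h2 : ∀ y ∈ Submodule.span k (p '' (N : Set V)), z ⬝ᵥ y = 0 := by
      intro y hy
      induction hy using Submodule.span_induction with
      | mem y hy => obtain ⟨v, hv, rfl⟩ := hy; exact h1 ⟨v, hv⟩
      | zero => simp
      | add a b _ _ ha hb => rw [dotProduct_add, ha, hb, add_zero]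
      | smul c a _ ha => rw [dotProduct_smul, ha, smul_zero]
    rw [hspan] at h2
    have : z = 0 := dotProduct_eq_zero _ fun v => h2 v trivial
    rw [this]
    rfl
  have hfin : ∀ x, finrank k (E0 ⊓ LinearMap.ker (a x) : Submodule k _)
      = finrank k (M ⊓ Att p (N : Set V) x : Submodule k (V → Vec k)) := by
    intro x
    rw [← hmap x]
    have hi : Function.Injective ((LinearMap.fst k (V → Vec k) (Vec k)).domRestrict
        (E0 ⊓ LinearMap.ker (a x))) := by
      rw [← LinearMap.ker_eq_bot, LinearMap.ker_eq_bot']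
      rintro ⟨Y, hY⟩ h
      exact Subtype.ext (hinj x Y hY h)
    have := LinearMap.finrank_range_of_inj hi
    rw [← this, LinearMap.range_domRestrict]
  have h1 := spec_of_eq_gfin (E0 := E0) ha
    (ψ := fun _ => T.mkQ ∘ₗ LinearMap.fst k (V → Vec k) (Vec k)) (PolyFam.const _) ?_ (x0 := x0) ?_
  · intro Z hZ
    have hZ' : Z ∈ M ⊓ Att p (N : Set V) x0 := hZ
    rw [← hmap x0] at hZ'
    obtain ⟨Y, hY, rfl⟩ := hZ'
    have h2 : T.mkQ Y.1 = 0 := h1 hY
    rw [Submodule.mkQ_apply, Submodule.Quotient.mk_eq_zero] at h2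
    exact h2
  · refine h.mono fun x hx Y hY => ?_
    have h2 : Y.1 ∈ M ⊓ Att p (N : Set V) x := by
      rw [← hmap x]
      exact ⟨Y, hY, rfl⟩
    rw [LinearMap.mem_ker, LinearMap.comp_apply, LinearMap.fst_apply, Submodule.mkQ_apply,
      Submodule.Quotient.mk_eq_zero]
    exact hx h2
  · rw [hfin, h0]
    refine (gfin_eq_of_frequently ha ?_).symm
    simpa only [hfin] using hd

/-- A single motion which extends to generic new vertices joined to a spanning set `N` is rigid on
`N`. -/
theorem mem_RG_of_frequently_Att {p Z : V → Vec k} {N : Set V}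
    (hspan : Submodule.span k (p '' N) = ⊤) (h : ∃ᶠ x in gen k (Vec k), Z ∈ Att p N x) :
    Z ∈ RG p N := by
  obtain ⟨q, hqN, hq⟩ := exists_quad hspan
  let b : Basis (Fin 4) k (Vec k) := basisOfLinearIndependentOfCardEqFinrank hq (by simp)
  have hb : ∀ i, b i = p (q i) := fun i => by simp [b]
  let T : Vec k →ₗ[k] Vec k := b.constr k (fun i => Z (q i))
  have hT : ∀ i, T (p (q i)) = Z (q i) := fun i => by rw [← hb, Basis.constr_basis]
  have key : ∀ x, Z ∈ Att p N x → T x ⬝ᵥ x = 0 ∧ ∀ v ∈ N, (Z v - T (p v)) ⬝ᵥ x = 0 := by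
    rintro x ⟨z, hz, hzv⟩
    have h1 : ∀ y : Vec k, z ⬝ᵥ y = - (T y ⬝ᵥ x) := by
      intro y
      have h2 : y ∈ Submodule.span k (Set.range b) := by rw [b.span_eq]; trivial
      induction h2 using Submodule.span_induction with
      | mem y hy =>
        obtain ⟨i, rfl⟩ := hy
        have h3 := hzv (q i) (hqN i)
        rw [hb, hT]
        linear_combination h3
      | zero => simp
      | add a b _ _ ha hb =>
        rw [dotProduct_add, ha, hb, map_add, add_dotProduct]; ring
      | smul c a _ ha => rw [dotProduct_smul, ha, map_smul, smul_dotProduct, smul_neg]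
    refine ⟨?_, fun v hv => ?_⟩
    · have := h1 x
      rw [hz] at this
      linear_combination this
    · have h3 := h1 (p v)
      have h4 := hzv v hv
      rw [sub_dotProduct]
      linear_combination h4 - h3
  refine ⟨T, fun x => ?_, fun v hv => ?_⟩
  · have hp : PolyLine k (fun x : Vec k => T x ⬝ᵥ x) :=
      PolyLine.dot (fun i => PolyLine.linear ((LinearMap.proj i : Vec k →ₗ[k] k) ∘ₗ T))
        (fun i => PolyLine.coord' i)
    exact hp.eq_zero (h.mono fun x hx => (key x hx).1) x
  · have hp : PolyLine k (fun x : Vec k => (Z v - T (p v)) ⬝ᵥ x) :=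
      PolyLine.dot (f := fun _ : Vec k => Z v - T (p v)) (g := fun x : Vec k => x)
        (fun _ => PolyLine.const _) (fun i => PolyLine.coord' i)
    have h0 := fun x => hp.eq_zero (h.mono fun x hx => (key x hx).2 v hv) x
    exact sub_eq_zero.mp (dotProduct_eq_zero _ h0)

/-- Parallel covectors. -/
def Par (z z' : Vec k) : Prop := ∀ i j, z i * z' j = z j * z' i

lemma not_par_of_indep {g1 g2 g' : Vec k}
    (h : ∀ s s' : k, (s ≠ 0 ∨ s' ≠ 0) → s • g1 + s' • g2 ≠ 0) (hg' : g' ≠ 0) :
    ¬ Par g1 g' ∨ ¬ Par g2 g' := by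
  by_contra hcon
  push Not at hcon
  obtain ⟨h1, h2⟩ := hcon
  obtain ⟨j, hj⟩ : ∃ j, g' j ≠ 0 := by
    by_contra hc
    push Not at hc
    exact hg' (funext hc)
  have e1 : g' j • g1 = g1 j • g' := by
    ext i
    simp only [Pi.smul_apply, smul_eq_mul]
    linear_combination h1 i j
  have e2 : g' j • g2 = g2 j • g' := by
    ext i
    simp only [Pi.smul_apply, smul_eq_mul]
    linear_combination h2 i j
  by_cases h3 : g1 j = 0 ∧ g2 j = 0
  · rw [h3.1, zero_smul] at e1
    have h4 : g1 = 0 := (smul_eq_zero.mp e1).resolve_left hj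
    refine h 1 0 (Or.inl one_ne_zero) ?_
    simp [h4]
  · refine h (g2 j) (-(g1 j)) ?_ ?_
    · by_contra hc
      push Not at hc
      exact h3 ⟨by simpa using hc.2, hc.1⟩
    · have : g' j • (g2 j • g1 + -(g1 j) • g2) = 0 := by
        rw [smul_add, smul_comm (g' j) (g2 j), e1, smul_comm (g' j) (-(g1 j)), e2, smul_smul,
          smul_smul, ← add_smul]
        have : g2 j * g1 j + -g1 j * g2 j = 0 := by ring
        rw [this, zero_smul]
      exact (smul_eq_zero.mp this).resolve_left hj

/-- Hypotheses of the pair lemma at a fixed `p`. -/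
structure PairHyp (M : Submodule k (V → Vec k)) (p : V → Vec k) (Nu Nv : Finset V) (c : ℕ) :
    Prop where
  finM : finrank k M = c + 4
  dimu : ∀ᶠ x in gen k (Vec k),
    finrank k (M ⊓ Att p (Nu : Set V) x : Submodule k (V → Vec k)) = c + 2
  dimv : ∀ᶠ y in gen k (Vec k),
    finrank k (M ⊓ Att p (Nv : Set V) y : Submodule k (V → Vec k)) = c + 2
  nonrig : ∀ᶠ x in gen k (Vec k), ∀ᶠ y in gen k (Vec k),
    ¬ (M ⊓ Att p (Nu : Set V) x ⊓ Att p (Nv : Set V) y ≤ RG p (Nu : Set V))
  inj : ∀ᶠ x in gen k (Vec k), finrank k (M ⊓ Att p (Nu : Set V) x ⊓ RG p (Nv : Set V) :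
    Submodule k (V → Vec k)) ≤ c
  typ : ∀ᶠ x in gen k (Vec k), M ⊓ Att p (Nu : Set V) x ≤ TA p (Nv : Set V) ∨
    ∃ σ : Fin 5 → Nv, Function.Bijective σ ∧ ∃ t : k,
      M ⊓ Att p (Nu : Set V) x ≤ TB p (σ 0) (σ 1) (σ 2) (σ 3) (σ 4) t

/-- The bad alternative of the pair lemma: two independent rods. -/
def TwoRods (M : Submodule k (V → Vec k)) (p : V → Vec k) (a b c d e : V) : Prop :=
  M ≤ TB2 p a b c d e ∧ ∃ Z ∈ M, ∃ S : Vec k →ₗ[k] Vec k, IsSkew S ∧ Z a = S (p a) ∧
    Z b = S (p b) ∧ Z c = S (p c) ∧ ¬ Par (Z d - S (p d)) (Z e - S (p e))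

/-- The conclusion of the pair lemma. -/
def PairConcl (M : Submodule k (V → Vec k)) (p : V → Vec k) (Nu Nv : Finset V) (c : ℕ) : Prop :=
  ∃ L : Submodule k (V → Vec k), L ≤ M ∧ finrank k L = c + 3 ∧
    (∀ x, finrank k (M ⊓ Att p (Nu : Set V) x : Submodule k (V → Vec k)) = c + 2 →
      M ⊓ Att p (Nu : Set V) x ≤ L) ∧
    (∀ y, finrank k (M ⊓ Att p (Nv : Set V) y : Submodule k (V → Vec k)) = c + 2 →
      M ⊓ Att p (Nv : Set V) y ≤ L)

theorem PairHyp.alternative {M : Submodule k (V → Vec k)} [FiniteDimensional k M]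
    {p : V → Vec k} {Nu Nv : Finset V} {c : ℕ} (h : PairHyp M p Nu Nv c)
    (hu : Submodule.span k (p '' (Nu : Set V)) = ⊤)
    (hli : ∀ σ : Fin 5 → Nv, Function.Bijective σ →
      LinearIndependent k ![p (σ 0), p (σ 1), p (σ 2)]) :
    PairConcl M p Nu Nv c ∨ ∃ σ : Fin 5 → Nv, Function.Bijective σ ∧
      TwoRods M p (σ 0) (σ 1) (σ 2) (σ 3) (σ 4) := by
  classical
  set Q : Vec k → Submodule k (V → Vec k) := fun x => M ⊓ Att p (Nu : Set V) x with hQdef
  have hspec : SpecFam Q := specFam_Att M p Nu hu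
  have hQfin : ∀ x, FiniteDimensional k (Q x) := fun x =>
    Submodule.finiteDimensional_of_le inf_le_left
  have hdimu : ∀ᶠ x in gen k (Vec k), finrank k (Q x) = c + 2 := h.dimu
  have hinj : ∀ᶠ x in gen k (Vec k), finrank k (Q x ⊓ RG p (Nv : Set V) :
    Submodule k (V → Vec k)) ≤ c := h.inj
  have hnc : ∀ L' : Submodule k (V → Vec k), ¬ ∃ᶠ x in gen k (Vec k), Q x = L' := by
    intro L' hL'
    have h1 : L' ≤ RG p (Nu : Set V) := by
      intro Z hZ
      refine mem_RG_of_frequently_Att hu (hL'.mono fun x hx => ?_)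
      rw [← hx] at hZ
      exact hZ.2
    obtain ⟨x, hx, hy⟩ := (hL'.and_eventually h.nonrig).exists
    obtain ⟨y, hy⟩ := hy.exists
    exact hy (inf_le_left.trans (hx.le.trans h1))
  -- the good case
  have good : ∀ T : Submodule k (V → Vec k), (∃ᶠ x in gen k (Vec k), Q x ≤ T) →
      (∀ S : Submodule k (V → Vec k), FiniteDimensional k S → S ≤ T → ∀ y, finrank k S
        ≤ finrank k (S ⊓ Att p (Nv : Set V) y : Submodule k (V → Vec k)) + 1) →
      PairConcl M p Nu Nv c := by
    intro T hT hbad
    have hQT := hspec T (c + 2) h.dimu.frequently hT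
    have hfd : FiniteDimensional k (M ⊓ T : Submodule k (V → Vec k)) :=
      Submodule.finiteDimensional_of_le inf_le_left
    have := pair_abs (M := M) (L := M ⊓ T) (Q := Q)
      (R := fun y : Vec k => M ⊓ Att p (Nv : Set V) y) (c := c) inf_le_left
      (fun x hx => le_inf inf_le_left (hQT x hx)) h.dimu hnc h.dimv (fun y => inf_le_left)
      (fun y => by
        have h1 := hbad (M ⊓ T) hfd inf_le_right y
        have e : M ⊓ T ⊓ Att p (Nv : Set V) y = M ⊓ T ⊓ (M ⊓ Att p (Nv : Set V) y) := by
          ext z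
          simp only [Submodule.mem_inf]
          tauto
        rwa [← e])
    exact ⟨M ⊓ T, inf_le_left, this.1, fun x hx => le_inf inf_le_left (hQT x hx), this.2⟩
  by_cases hA : ∃ᶠ x in gen k (Vec k), Q x ≤ TA p (Nv : Set V)
  · left
    exact good _ hA fun S hS hST y => finrank_le_of_TA hST y
  · have hB : ∃ᶠ x in gen k (Vec k), ∃ σ : Fin 5 → Nv, Function.Bijective σ ∧ ∃ t : k,
        Q x ≤ TB p (σ 0) (σ 1) (σ 2) (σ 3) (σ 4) t := by
      rw [not_frequently] at hA
      refine (h.typ.and hA).frequently.mono ?_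
      rintro x ⟨h1, h2⟩
      exact h1.resolve_left h2
    obtain ⟨σ, hσ⟩ := exists_frequently_of_finite hB
    have hσbij : Function.Bijective σ := by
      obtain ⟨x, hx⟩ := hσ.exists
      exact hx.1
    have hNv : ∀ v ∈ (Nv : Set V), v = σ 0 ∨ v = σ 1 ∨ v = σ 2 ∨ v = σ 3 ∨ v = σ 4 := by
      intro v hv
      obtain ⟨i, hi⟩ := hσbij.2 ⟨v, hv⟩
      have : v = σ i := by rw [hi]
      fin_cases i <;> simp_all
    obtain ⟨x0, ⟨⟨-, t0, ht0⟩, hx0⟩, hx0'⟩ :=
      ((hσ.and_eventually hdimu).and_eventually hinj).exists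
    by_cases hI : ∃ᶠ x in gen k (Vec k), Q x ≤ TB p (σ 0) (σ 1) (σ 2) (σ 3) (σ 4) t0
    · left
      exact good _ hI fun S hS hST y => finrank_le_of_TB hNv hST y
    · right
      rw [not_frequently] at hI
      obtain ⟨x1, ⟨⟨⟨-, t1, ht1⟩, hx1⟩, hx1'⟩, hx1''⟩ :=
        (((hσ.and_eventually hdimu).and_eventually hinj).and_eventually hI).exists
      have ht : t0 ≠ t1 := by
        rintro rfl
        exact hx1'' ht1
      refine ⟨σ, hσbij, ?_, ?_⟩
      · -- `M` is the sum of the two spaces
        have hdisj : Q x0 ⊓ Q x1 ≤ Q x0 ⊓ RG p (Nv : Set V) := by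
          rintro Z ⟨hZ0, hZ1⟩
          refine ⟨hZ0, ?_⟩
          obtain ⟨S, hS, g, -, -, ha, hb, hc, hd, he⟩ := ht0 hZ0
          obtain ⟨S', hS', g', -, -, ha', hb', hc', hd', he'⟩ := ht1 hZ1
          have hSS : S - S' = 0 := by
            refine (hS.sub hS').eq_zero_of_three (hli σ hσbij) ?_ ?_ ?_
            · rw [LinearMap.sub_apply, ← ha, ← ha', sub_self]
            · rw [LinearMap.sub_apply, ← hb, ← hb', sub_self]
            · rw [LinearMap.sub_apply, ← hc, ← hc', sub_self]
          have hSS' : S = S' := sub_eq_zero.mp hSS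
          subst hSS'
          have hg : g = g' := by
            rw [hd] at hd'
            exact add_left_cancel hd'
          subst hg
          have hg0 : (t0 - t1) • g = 0 := by
            rw [he] at he'
            rw [sub_smul, add_left_cancel he', sub_self]
          have hg1 : g = 0 := (smul_eq_zero.mp hg0).resolve_left (sub_ne_zero.mpr ht)
          refine ⟨S, hS, fun v hv => ?_⟩
          rcases hNv v hv with h | h | h | h | h
          · rw [h, ha]
          · rw [h, hb]
          · rw [h, hc]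
          · rw [h, hd, hg1, add_zero]
          · rw [h, he, hg1, smul_zero, add_zero]
        have : FiniteDimensional k (Q x0 ⊓ RG p (Nv : Set V) : Submodule k (V → Vec k)) :=
          Submodule.finiteDimensional_of_le inf_le_left
        have h1 := Submodule.finrank_mono hdisj
        have h2 := Submodule.finrank_sup_add_finrank_inf_eq (Q x0) (Q x1)
        have h3 := h.finM
        have hsup : Q x0 ⊔ Q x1 = M :=
          Submodule.eq_of_le_of_finrank_le (sup_le inf_le_left inf_le_left) (by omega)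
        rw [← hsup]
        exact sup_le (ht0.trans (TB_le_TB2 _ _ _ _ _ _ _)) (ht1.trans (TB_le_TB2 _ _ _ _ _ _ _))
      · -- two independent elements in `Q x0`
        have h1 : ¬ (∀ z ∈ Q x0, ∀ z' ∈ Q x0, ∃ s s' : k, (s ≠ 0 ∨ s' ≠ 0) ∧
            s • z + s' • z' ∈ RG p (Nv : Set V)) := by
          intro hcon
          have := finrank_le_of_comb hcon
          omega
        push Not at h1
        obtain ⟨Z1, hZ1, Z2, hZ2, h12⟩ := h1
        have h3 : ¬ (Q x1 ≤ RG p (Nv : Set V)) := by
          intro hcon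
          rw [inf_eq_left.mpr hcon] at hx1'
          omega
        obtain ⟨Z', hZ', hZ'R⟩ := Set.not_subset.mp h3
        obtain ⟨S1, hS1, g1, -, -, ha1, hb1, hc1, hd1, he1⟩ := ht0 hZ1
        obtain ⟨S2, hS2, g2, -, -, ha2, hb2, hc2, hd2, he2⟩ := ht0 hZ2
        obtain ⟨S', hS', g', -, -, ha', hb', hc', hd', he'⟩ := ht1 hZ'
        have hg' : g' ≠ 0 := by
          rintro rfl
          refine hZ'R ⟨S', hS', fun v hv => ?_⟩
          rcases hNv v hv with h | h | h | h | h
          · rw [h, ha']
          · rw [h, hb']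
          · rw [h, hc']
          · rw [h, hd', add_zero]
          · rw [h, he', smul_zero, add_zero]
        have hg12 : ∀ s s' : k, (s ≠ 0 ∨ s' ≠ 0) → s • g1 + s' • g2 ≠ 0 := by
          intro s s' hss hcon
          refine h12 s s' hss ⟨s • S1 + s' • S2, (hS1.smul s).add (hS2.smul s'), fun v hv => ?_⟩
          simp only [Pi.add_apply, Pi.smul_apply, LinearMap.add_apply, LinearMap.smul_apply]
          rcases hNv v hv with h | h | h | h | h
          · rw [h, ha1, ha2]
          · rw [h, hb1, hb2]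
          · rw [h, hc1, hc2]
          · rw [h, hd1, hd2, smul_add, smul_add]
            calc _ = (s • S1 (p (σ 3)) + s' • S2 (p (σ 3))) + (s • g1 + s' • g2) := by abel
              _ = _ := by rw [hcon, add_zero]
          · rw [h, he1, he2, smul_add, smul_add]
            calc _ = (s • S1 (p (σ 4)) + s' • S2 (p (σ 4))) + t0 • (s • g1 + s' • g2) := by
                  rw [smul_add, smul_comm t0 s, smul_comm t0 s']; abel
              _ = _ := by rw [hcon, smul_zero, add_zero]
        -- the final element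
        have fin : ∀ Z ∈ Q x0, ∀ S : Vec k →ₗ[k] Vec k, IsSkew S → ∀ g : Vec k,
            Z (σ 0) = S (p (σ 0)) → Z (σ 1) = S (p (σ 1)) → Z (σ 2) = S (p (σ 2)) →
            Z (σ 3) = S (p (σ 3)) + g → Z (σ 4) = S (p (σ 4)) + t0 • g → ¬ Par g g' →
            ∃ Z ∈ M, ∃ S : Vec k →ₗ[k] Vec k, IsSkew S ∧ Z (σ 0) = S (p (σ 0)) ∧
              Z (σ 1) = S (p (σ 1)) ∧ Z (σ 2) = S (p (σ 2)) ∧
              ¬ Par (Z (σ 3) - S (p (σ 3))) (Z (σ 4) - S (p (σ 4))) := by
          intro Z hZ S hS g ha hb hc hd he hpar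
          refine ⟨Z + Z', M.add_mem hZ.1 hZ'.1, S + S', hS.add hS', ?_, ?_, ?_, ?_⟩
          · simp [ha, ha']
          · simp [hb, hb']
          · simp [hc, hc']
          · intro hcon
            apply hpar
            have e1 : (Z + Z') (σ 3) - (S + S') (p (σ 3)) = g + g' := by
              simp only [Pi.add_apply, LinearMap.add_apply, hd, hd']; abel
            have e2 : (Z + Z') (σ 4) - (S + S') (p (σ 4)) = t0 • g + t1 • g' := by
              simp only [Pi.add_apply, LinearMap.add_apply, he, he']; abel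
            rw [e1, e2] at hcon
            intro i j
            have h5 := hcon i j
            simp only [Pi.add_apply, Pi.smul_apply, smul_eq_mul] at h5
            have h6 : (t0 - t1) * (g i * g' j - g j * g' i) = 0 := by
              linear_combination -h5
            exact sub_eq_zero.mp ((mul_eq_zero.mp h6).resolve_left (sub_ne_zero.mpr ht))
        rcases not_par_of_indep hg12 hg' with h5 | h5
        · exact fin Z1 hZ1 S1 hS1 g1 ha1 hb1 hc1 hd1 he1 h5
        · exact fin Z2 hZ2 S2 hS2 g2 ha2 hb2 hc2 hd2 he2 h5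

end GR
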