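import Pool.Agent.Lib.GR.Pair

/-!
# The pair lemma for generic `p`
-/

set_option linter.unusedSectionVars false

namespace GR

open Filter Module

open scoped Matrix

variable {k : Type*} [Field k] [Infinite k] {V : Type*} [DecidableEq V]

/-- the labelled points of a 5-set in general position: three of them are independent -/
lemma GenPos.li3 {p : V → Vec k} {N : Set V} (h : GenPos p N) {a b c : V} (ha : a ∈ N)
    (hb : b ∈ N) (hc : c ∈ N) (hab : a ≠ b) (hac : a ≠ c) (hbc : b ≠ c) :
    LinearIndependent k ![p a, p b, p c] := by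
  classical
  have h1 := h {a, b, c} (by
    intro x hx
    simp only [Finset.coe_insert, Finset.coe_singleton, Set.mem_insert_iff,
      Set.mem_singleton_iff] at hx
    rcases hx with rfl | rfl | rfl <;> assumption)
    ((Finset.card_le_three).trans (by norm_num))
  let f : Fin 3 → ({a, b, c} : Finset V) := ![⟨a, by simp⟩, ⟨b, by simp⟩, ⟨c, by simp⟩]
  have hf : Function.Injective f := by
    intro i j hij
    fin_cases i <;> fin_cases j <;> simp_all [f, Subtype.ext_iff]
  have h2 := h1.comp f hf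
  have e : (fun v : ({a, b, c} : Finset V) => p v) ∘ f = ![p a, p b, p c] := by
    ext i j
    fin_cases i <;> rfl
  rwa [e] at h2

lemma GenPos.span_eq_top {p : V → Vec k} {N : Finset V} (h : GenPos p (N : Set V))
    (hc : 4 ≤ N.card) : Submodule.span k (p '' (N : Set V)) = ⊤ := by
  rw [eq_top_iff]
  intro y _
  obtain ⟨c, rfl⟩ := h.spans hc y
  exact Submodule.sum_mem _ fun i hi => Submodule.smul_mem _ _
    (Submodule.subset_span ⟨i, by simpa using hi, rfl⟩)

/-- Generically there are no two independent rods. -/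
theorem eventually_not_twoRods (A : Finset V) (E : Set (Sym2 V)) {Nv : Finset V} (hNv : Nv ⊆ A) :
    ∀ᶠ p in gen k (V → Vec k), ∀ σ : Fin 5 → Nv, Function.Bijective σ →
      ¬ TwoRods (Mot A E p) p (σ 0) (σ 1) (σ 2) (σ 3) (σ 4) := by
  classical
  rw [eventually_all]
  intro σ
  by_cases hσ : Function.Bijective σ
  swap
  · exact Eventually.of_forall fun p h => absurd h hσ
  by_contra hcon
  have hcon' : ∃ᶠ p in gen k (V → Vec k),
      TwoRods (Mot A E p) p (σ 0) (σ 1) (σ 2) (σ 3) (σ 4) := by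
    rw [not_eventually] at hcon
    exact hcon.mono fun p hp => by
      push Not at hp
      exact hp.2
  have hgen := eventually_genPos (k := k) Nv
  have hne : ∀ i j : Fin 5, i ≠ j → (σ i : V) ≠ σ j := fun i j hij h =>
    hij (hσ.1 (Subtype.ext h))
  have hli : ∀ p : V → Vec k, GenPos p (Nv : Set V) →
      LinearIndependent k ![p (σ 0), p (σ 1), p (σ 2)] := fun p hp =>
    hp.li3 (σ 0).2 (σ 1).2 (σ 2).2 (hne 0 1 (by decide)) (hne 0 2 (by decide))
      (hne 1 2 (by decide))
  set B : Set V := {(σ 0 : V), (σ 1 : V), (σ 2 : V)} with hB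
  -- the condition of the flow lemma
  have h1 : ∃ᶠ p in gen k (V → Vec k), ∀ Z ∈ FM A E B p, Z (σ 3) ⬝ᵥ p (σ 4) = 0 := by
    refine (hcon'.and_eventually hgen).mono ?_
    rintro p ⟨⟨h2, -⟩, h3⟩ Z hZ
    obtain ⟨S, hS, g, g', h4, h5, -, -, ha, hb, hc, hd, he⟩ := h2 hZ.1
    have hS0 : S = 0 := by
      refine hS.eq_zero_of_three (hli p h3) ?_ ?_ ?_
      · rw [← ha]; exact hZ.2 _ (by simp [hB])
      · rw [← hb]; exact hZ.2 _ (by simp [hB])
      · rw [← hc]; exact hZ.2 _ (by simp [hB])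
    rw [hd, hS0, LinearMap.zero_apply, zero_add, h5]
  have h2 := flow_lemma A E B (σ 3 : V) (σ 4 : V) h1
  obtain ⟨p, ⟨h3, Z, hZ, S, hS, ha, hb, hc, hpar⟩, hp⟩ := (hcon'.and_eventually h2).exists
  -- subtract the trivial motion
  have hT : (fun v => if v ∈ A then S (p v) else 0) ∈ Mot A E p := by
    refine ⟨fun v hv => by simp [hv], fun v hv => by simp [hv, hS (p v)], fun a ha b hb _ => ?_⟩
    rw [eps_apply]
    simp only [ha, hb, if_true]
    rw [hS.swap]
    ring
  have hmem : ∀ i, (σ i : V) ∈ A := fun i => hNv (σ i).2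
  apply hpar
  have h4 := hp (Z - fun v => if v ∈ A then S (p v) else 0)
    ⟨(Mot A E p).sub_mem hZ hT, by
      rintro v (rfl | rfl | rfl)
      · simp [hmem, ha]
      · simp [hmem, hb]
      · simp [hmem, hc]⟩
  have e : ∀ i, (Z - fun v => if v ∈ A then S (p v) else 0 : V → Vec k) (σ i)
      = Z (σ i) - S (p (σ i)) := fun i => by simp [hmem]
  rw [e, e] at h4
  exact h4

/-- **Pair lemma.** -/
theorem pair_lemma (A : Finset V) (E : Set (Sym2 V)) {Nu Nv : Finset V} {c : ℕ}
    (hNu : 4 ≤ Nu.card) (hNv : Nv ⊆ A)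
    (h : ∀ᶠ p in gen k (V → Vec k), PairHyp (Mot A E p) p Nu Nv c) :
    ∀ᶠ p in gen k (V → Vec k), PairConcl (Mot A E p) p Nu Nv c := by
  filter_upwards [h, eventually_genPos (k := k) Nu, eventually_genPos (k := k) Nv,
    eventually_not_twoRods (k := k) A E hNv] with p h1 h2 h3 h4
  refine (h1.alternative (h2.span_eq_top hNu) ?_).resolve_right ?_
  · intro σ hσ
    have hne : ∀ i j : Fin 5, i ≠ j → (σ i : V) ≠ σ j := fun i j hij h =>
      hij (hσ.1 (Subtype.ext h))
    exact h3.li3 (σ 0).2 (σ 1).2 (σ 2).2 (hne 0 1 (by decide)) (hne 0 2 (by decide))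
      (hne 1 2 (by decide))
  · rintro ⟨σ, hσ, h5⟩
    exact h4 σ hσ h5

end GR
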