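import Pool.Agent.Lib.GR.PolyMot
import Pool.Agent.Lib.GR.Attach2

/-!
# Quadrics through generic points
-/

set_option linter.unusedSectionVars false

namespace GR

open Filter Module

open scoped Matrix

variable {k : Type*} [Field k] {V : Type*}

/-- Bilinear forms on `Vec k`, as matrices. -/
abbrev Frm (k : Type*) [Field k] := Fin 4 → Vec k

/-- The bilinear form of a matrix. -/
def mf (H : Frm k) : Vec k →ₗ[k] Vec k →ₗ[k] k :=
  LinearMap.mk₂ k (fun x y => ∑ i, (H i ⬝ᵥ x) * y i)
    (fun x x' y => by simp [dotProduct_add, add_mul, Finset.sum_add_distrib])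
    (fun c x y => by simp [dotProduct_smul, Finset.mul_sum, mul_assoc])
    (fun x y y' => by simp [mul_add, Finset.sum_add_distrib])
    (fun c x y => by
      simp only [Pi.smul_apply, smul_eq_mul, Finset.mul_sum]
      exact Finset.sum_congr rfl fun i _ => by ring)

lemma mf_apply (H : Frm k) (x y : Vec k) : mf H x y = ∑ i, (H i ⬝ᵥ x) * y i := rfl

lemma mf_add (H H' : Frm k) (x y : Vec k) : mf (H + H') x y = mf H x y + mf H' x y := by
  simp [mf_apply, add_dotProduct, add_mul, Finset.sum_add_distrib]

lemma mf_smul (c : k) (H : Frm k) (x y : Vec k) : mf (c • H) x y = c * mf H x y := by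
  simp [mf_apply, smul_dotProduct, Finset.mul_sum, mul_assoc]

lemma mf_zero (x y : Vec k) : mf (0 : Frm k) x y = 0 := by
  simp [mf_apply]

/-- Every bilinear form comes from a matrix. -/
def ofForm (b : Vec k →ₗ[k] Vec k →ₗ[k] k) : Frm k := fun i j => b (Pi.single j 1) (Pi.single i 1)

lemma mf_ofForm (b : Vec k →ₗ[k] Vec k →ₗ[k] k) : mf (ofForm b) = b := by
  refine LinearMap.pi_ext' fun j => ?_
  ext1
  refine LinearMap.pi_ext' fun i => ?_
  ext1
  simp [mf_apply, ofForm, Pi.single_apply]

lemma eq_zero_of_mf {H : Frm k} (h : ∀ x y, mf H x y = 0) : H = 0 := by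
  ext i j
  have := h (Pi.single j 1) (Pi.single i 1)
  simpa [mf_apply, Pi.single_apply] using this

/-- Symmetric bilinear forms. -/
def SymF (k : Type*) [Field k] : Submodule k (Frm k) where
  carrier := {h | ∀ x y, mf h x y = mf h y x}
  add_mem' := by intro a b ha hb x y; simp only [mf_add, ha x y, hb x y]
  zero_mem' := by intro x y; simp only [mf_zero]
  smul_mem' := by intro c a ha x y; simp only [mf_smul, ha x y]

lemma mem_SymF {h : Frm k} : h ∈ SymF k ↔ ∀ x y, mf h x y = mf h y x := Iff.rfl

/-- value of the quadratic form at `x` -/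
def evq (x : Vec k) : Frm k →ₗ[k] k where
  toFun h := mf h x x
  map_add' _ _ := mf_add _ _ _ _
  map_smul' _ _ := mf_smul _ _ _ _

@[simp] lemma evq_apply (x : Vec k) (h : Frm k) : evq x h = mf h x x := rfl

/-- polarity with respect to `x` -/
def sing (x : Vec k) : Frm k →ₗ[k] Vec k where
  toFun h := fun i => h i ⬝ᵥ x
  map_add' _ _ := by ext i; simp [add_dotProduct]
  map_smul' _ _ := by ext i; simp

@[simp] lemma sing_apply (x : Vec k) (h : Frm k) (i : Fin 4) : sing x h i = h i ⬝ᵥ x := rfl

lemma mf_eq_sing (h : Frm k) (x y : Vec k) : mf h x y = sing x h ⬝ᵥ y := rfl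

lemma PolyFam.evq [Infinite k] (v : V) : PolyFam (fun p : V → Vec k => evq (p v)) := by
  apply PolyFam.of_scalar
  intro h
  exact (polyLine_bilin (mf h)).comp_linear (LinearMap.proj v : (V → Vec k) →ₗ[k] Vec k)

lemma PolyFam.sing (v : V) : PolyFam (fun p : V → Vec k => sing (p v)) := by
  intro h φ
  let g : Vec k →ₗ[k] Vec k :=
    { toFun := fun x => GR.sing x h
      map_add' := fun x y => by ext i; simp [dotProduct_add]
      map_smul' := fun c x => by ext i; simp [dotProduct_smul] }
  exact PolyLine.linear (φ ∘ₗ g ∘ₗ (LinearMap.proj v : (V → Vec k) →ₗ[k] Vec k))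

/-- a symmetric form with vanishing quadratic form is zero -/
lemma SymF.eq_zero (h2 : (2 : k) ≠ 0) {h : Frm k} (hh : h ∈ SymF k) (h0 : ∀ x, mf h x x = 0) :
    h = 0 := by
  refine eq_zero_of_mf fun x y => ?_
  have h1 := h0 (x + y)
  simp only [map_add, LinearMap.add_apply, h0 x, h0 y, hh y x] at h1
  have : (2 : k) * mf h x y = 0 := by linear_combination h1
  exact (mul_eq_zero.mp this).resolve_left h2

lemma SymF.entry {h : Frm k} (hh : h ∈ SymF k) (i j : Fin 4) : h i j = h j i := by
  have := hh (Pi.single j 1) (Pi.single i 1)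
  simpa [mf_apply, Pi.single_apply] using this

lemma finrank_SymF_le : finrank k (SymF k) ≤ 10 := by
  let f : SymF k →ₗ[k] (Sym2 (Fin 4) → k) :=
    { toFun := fun h e => Sym2.lift ⟨fun i j => h.1 i j,
        fun i j => SymF.entry h.2 i j⟩ e
      map_add' := by
        intro h h'
        ext e
        induction e using Sym2.inductionOn with
        | hf i j => simp
      map_smul' := by
        intro c h
        ext e
        induction e using Sym2.inductionOn with
        | hf i j => simp }
  have hf : Function.Injective f := by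
    rw [injective_iff_map_eq_zero]
    intro h h0
    apply Subtype.ext
    ext i j
    simpa [f] using congrFun h0 s(i, j)
  have := LinearMap.finrank_le_finrank_of_injective hf
  have h2 : Fintype.card (Sym2 (Fin 4)) = 10 := by decide
  simpa [h2] using this

section Step

variable [Infinite k] [DecidableEq V]

/-- A generic point imposes one condition on a nonzero space of quadrics which does not depend
on it. -/
theorem quad_step (h2 : (2 : k) ≠ 0) {G : Type*} [AddCommGroup G] [Module k G] (z : V)
    {a : (V → Vec k) → Frm k →ₗ[k] G} (ha : PolyFam a)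
    (hz : ∀ p x, a (Function.update p z x) = a p) {d : ℕ}
    (h : ∀ᶠ p in gen k (V → Vec k),
      finrank k (SymF k ⊓ LinearMap.ker (a p) : Submodule k (Frm k)) ≤ d + 1) :
    ∀ᶠ p in gen k (V → Vec k),
      finrank k (SymF k ⊓ LinearMap.ker ((a p).prod (evq (p z))) : Submodule k (Frm k)) ≤ d := by
  have h1 := eventually_finrank_eq (SymF k) (ha.prod (PolyFam.evq z))
  have h3 : gfin (SymF k) (fun p => (a p).prod (evq (p z))) ≤ d := by
    obtain ⟨p, hp1, hp2⟩ := ((eventually_update h1 z).and h).exists
    by_cases hQ : SymF k ⊓ LinearMap.ker (a p) = ⊥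
    · obtain ⟨x, hx⟩ := hp1.exists
      rw [← hx]
      have : SymF k ⊓ LinearMap.ker ((a (Function.update p z x)).prod
          (evq (Function.update p z x z))) ≤ SymF k ⊓ LinearMap.ker (a p) := by
        refine le_inf inf_le_left (inf_le_right.trans ?_)
        rw [LinearMap.ker_prod, hz]
        exact inf_le_left
      rw [hQ, le_bot_iff] at this
      rw [this, finrank_bot]
      exact Nat.zero_le d
    · obtain ⟨q, hq, hq0⟩ := (Submodule.ne_bot_iff _).mp hQ
      have h4 : ∃ x, mf q x x ≠ 0 := by
        by_contra hcon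
        push Not at hcon
        exact hq0 (SymF.eq_zero h2 hq.1 hcon)
      have h5 := (polyLine_bilin (mf q)).eventually_ne h4
      obtain ⟨x, hx, hx'⟩ := (hp1.and h5).exists
      rw [← hx]
      have hlt : SymF k ⊓ LinearMap.ker ((a (Function.update p z x)).prod
          (evq (Function.update p z x z))) < SymF k ⊓ LinearMap.ker (a p) := by
        rw [LinearMap.ker_prod, hz, Function.update_self]
        refine lt_of_le_of_ne (le_inf inf_le_left (inf_le_right.trans inf_le_left)) fun hc => ?_
        rw [← hc] at hq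
        exact hx' (by simpa using hq.2.2)
      have := Submodule.finrank_lt_finrank_of_lt hlt
      omega
  filter_upwards [h1] with p hp
  rw [hp]
  exact h3

/-- the family of the values at the points of `N` -/
def evN (N : Finset V) (p : V → Vec k) : Frm k →ₗ[k] (N → k) :=
  LinearMap.pi fun v => evq (p v)

lemma PolyFam.evN (N : Finset V) : PolyFam (fun p : V → Vec k => evN N p) :=
  PolyFam.pi fun v => PolyFam.evq (v : V)

lemma mem_ker_evN {N : Finset V} {p : V → Vec k} {h : Frm k} :
    h ∈ LinearMap.ker (evN N p) ↔ ∀ v ∈ N, mf h (p v) (p v) = 0 := by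
  rw [LinearMap.mem_ker]
  constructor
  · intro h0 v hv
    exact congrFun h0 ⟨v, hv⟩
  · intro h0
    ext v
    exact h0 v v.2

lemma evN_update {N : Finset V} {z : V} (hz : z ∉ N) (p : V → Vec k) (x : Vec k) :
    evN N (Function.update p z x) = evN N p := by
  refine LinearMap.ext fun h => funext fun v => ?_
  have : (v : V) ≠ z := fun h => hz (h ▸ v.2)
  simp [evN, Function.update_of_ne this]

/-- **At most ten generic points impose independent conditions on quadrics.** -/
theorem eventually_quadrics (h2 : (2 : k) ≠ 0) (N : Finset V) (hN : N.card ≤ 10) :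
    ∀ᶠ p in gen k (V → Vec k),
      finrank k (SymF k ⊓ LinearMap.ker (evN N p) : Submodule k (Frm k)) + N.card ≤ 10 := by
  induction N using Finset.induction_on with
  | empty =>
    refine Filter.Eventually.of_forall fun p => ?_
    have := finrank_SymF_le (k := k)
    have h3 := Submodule.finrank_mono (inf_le_left : SymF k ⊓ LinearMap.ker (evN ∅ p) ≤ SymF k)
    simp only [Finset.card_empty, add_zero]
    omega
  | insert z N hz ih =>
    rw [Finset.card_insert_of_notMem hz] at hN ⊢
    have ih' := ih (by omega)
    have h3 := quad_step h2 z (PolyFam.evN N) (evN_update hz) (d := 9 - N.card) (by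
      filter_upwards [ih'] with p hp
      omega)
    filter_upwards [h3] with p hp
    have : SymF k ⊓ LinearMap.ker (evN (insert z N) p)
        ≤ SymF k ⊓ LinearMap.ker ((evN N p).prod (evq (p z))) := by
      rintro h ⟨h4, h5⟩
      have h6 := mem_ker_evN.mp h5
      refine ⟨h4, ?_⟩
      rw [LinearMap.ker_prod]
      refine ⟨mem_ker_evN.mpr fun v hv => h6 v (by simp [hv]), ?_⟩
      exact h6 z (by simp)
    have h7 := Submodule.finrank_mono this
    omega

end Step

/-- a form is determined by its values on a spanning set of points -/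
lemma Frm.eq_zero_of_spans {p : V → Vec k} {T : Finset V} (hT : Spans p T) {h : Frm k}
    (h0 : ∀ a ∈ T, ∀ b ∈ T, mf h (p a) (p b) = 0) : h = 0 := by
  refine eq_zero_of_mf fun x y => ?_
  obtain ⟨c, rfl⟩ := hT x
  obtain ⟨d, rfl⟩ := hT y
  simp only [map_sum, LinearMap.sum_apply, map_smul, LinearMap.smul_apply, smul_eq_mul]
  refine Finset.sum_eq_zero fun i hi => ?_
  rw [Finset.sum_eq_zero fun j hj => by rw [h0 j hj i hi, mul_zero], mul_zero]

/-- The quadrics of a pair of adjacent degree five vertices. -/
def QTW (p : V → Vec k) (T W : Set V) : Submodule k (Frm k) where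
  carrier := {h | (∀ x y, mf h x y = mf h y x) ∧ (∀ t ∈ T, mf h (p t) (p t) = 0) ∧
    (∀ y ∈ W, mf h (p y) (p y) = 0) ∧ ∀ y ∈ T, y ∈ W → ∀ x, mf h (p y) x = 0}
  add_mem' := by
    rintro a b ⟨h1, h2, h3, h4⟩ ⟨h1', h2', h3', h4'⟩
    refine ⟨fun x y => by rw [mf_add, mf_add, h1 x y, h1' x y], fun t ht => by
      rw [mf_add, h2 t ht, h2' t ht, add_zero], fun t ht => by
      rw [mf_add, h3 t ht, h3' t ht, add_zero], fun t ht ht' x => by
      rw [mf_add, h4 t ht ht' x, h4' t ht ht' x, add_zero]⟩
  zero_mem' := ⟨fun _ _ => by rw [mf_zero, mf_zero], fun _ _ => mf_zero _ _,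
    fun _ _ => mf_zero _ _, fun _ _ _ _ => mf_zero _ _⟩
  smul_mem' := by
    rintro c a ⟨h1, h2, h3, h4⟩
    refine ⟨fun x y => by rw [mf_smul, mf_smul, h1 x y], fun t ht => by
      rw [mf_smul, h2 t ht, mul_zero], fun t ht => by rw [mf_smul, h3 t ht, mul_zero],
      fun t ht ht' x => by rw [mf_smul, h4 t ht ht' x, mul_zero]⟩

/-- three-dimensional space of quadrics through a basis with a singular point in the basis -/
lemma finrank_sing_le {p : V → Vec k} {T : Finset V} [DecidableEq V] {y t₁ t₂ t₃ : V}
    (hT : T = {y, t₁, t₂, t₃}) (hs : Spans p T) {Q : Submodule k (Frm k)}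
    (hQ : ∀ h ∈ Q, (∀ x y, mf h x y = mf h y x) ∧ (∀ t ∈ T, mf h (p t) (p t) = 0) ∧
      ∀ x, mf h (p y) x = 0) : finrank k Q ≤ 3 := by
  let f : Q →ₗ[k] (Fin 3 → k) :=
    { toFun := fun h => ![mf h.1 (p t₁) (p t₂), mf h.1 (p t₁) (p t₃), mf h.1 (p t₂) (p t₃)]
      map_add' := by
        intro h h'
        ext i
        fin_cases i <;> simp [mf_add]
      map_smul' := by
        intro c h
        ext i
        fin_cases i <;> simp [mf_smul] }
  have hf : Function.Injective f := by
    rw [injective_iff_map_eq_zero]
    intro h h0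
    obtain ⟨h1, h3, h4⟩ := hQ h.1 h.2
    have e1 : mf h.1 (p t₁) (p t₂) = 0 := congrFun h0 0
    have e2 : mf h.1 (p t₁) (p t₃) = 0 := congrFun h0 1
    have e3 : mf h.1 (p t₂) (p t₃) = 0 := congrFun h0 2
    have h5 : ∀ x, mf h.1 x (p y) = 0 := fun x => by rw [h1, h4]
    have d1 := h3 t₁ (by simp [hT])
    have d2 := h3 t₂ (by simp [hT])
    have d3 := h3 t₃ (by simp [hT])
    apply Subtype.ext
    refine Frm.eq_zero_of_spans hs fun a ha b hb => ?_
    rw [hT] at ha hb
    simp only [Finset.mem_insert, Finset.mem_singleton] at ha hb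
    have e1' : mf h.1 (p t₂) (p t₁) = 0 := by rw [h1, e1]
    have e2' : mf h.1 (p t₃) (p t₁) = 0 := by rw [h1, e2]
    have e3' : mf h.1 (p t₃) (p t₂) = 0 := by rw [h1, e3]
    rcases ha with rfl | rfl | rfl | rfl
    · exact h4 _
    · rcases hb with rfl | rfl | rfl | rfl
      · exact h5 _
      · exact d1
      · exact e1
      · exact e2
    · rcases hb with rfl | rfl | rfl | rfl
      · exact h5 _
      · exact e1'
      · exact d2
      · exact e3
    · rcases hb with rfl | rfl | rfl | rfl
      · exact h5 _
      · exact e2'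
      · exact e3'
      · exact d3
  have := LinearMap.finrank_le_finrank_of_injective hf
  simpa using this

/-- The generic dimension of `QTW` is at most two. -/
theorem eventually_QTW [Infinite k] [DecidableEq V] (h2 : (2 : k) ≠ 0) {T W : Finset V}
    (hT : T.card = 4) (hW : W.card = 4) :
    ∀ᶠ p in gen k (V → Vec k), finrank k (QTW p (T : Set V) (W : Set V)) ≤ 2 := by
  by_cases hd : Disjoint T W
  · have hc : (T ∪ W).card = 8 := by rw [Finset.card_union_of_disjoint hd, hT, hW]
    filter_upwards [eventually_quadrics h2 (T ∪ W) (by omega)] with p hp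
    have : QTW p (T : Set V) (W : Set V) ≤ SymF k ⊓ LinearMap.ker (evN (T ∪ W) p) := by
      rintro h ⟨h1, h3, h4, -⟩
      refine ⟨h1, mem_ker_evN.mpr fun v hv => ?_⟩
      rcases Finset.mem_union.mp hv with hv | hv
      · exact h3 v (by simpa using hv)
      · exact h4 v (by simpa using hv)
    have := Submodule.finrank_mono this
    omega
  · obtain ⟨y, hyT, hyW⟩ := Finset.not_disjoint_iff.mp hd
    have hE : (T.erase y).card = 3 := by rw [Finset.card_erase_of_mem hyT, hT]
    obtain ⟨t₁, t₂, t₃, -, -, -, hE'⟩ := Finset.card_eq_three.mp hE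
    have hT' : T = {y, t₁, t₂, t₃} := by
      rw [← Finset.insert_erase hyT, hE']
    by_cases hsub : W ⊆ T
    · have hWT : W = T := Finset.eq_of_subset_of_card_le hsub (by omega)
      filter_upwards [eventually_genPos (k := k) T] with p hp
      have hs := hp.spans (by omega)
      have : QTW p (T : Set V) (W : Set V) = ⊥ := by
        rw [eq_bot_iff]
        rintro h ⟨-, -, -, h4⟩
        refine (Submodule.mem_bot k).mpr (Frm.eq_zero_of_spans hs fun a ha b _ => ?_)
        exact h4 a (by simpa using ha) (by rw [hWT]; simpa using ha) _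
      rw [this, finrank_bot]
      omega
    · obtain ⟨z, hzW, hzT⟩ := Finset.not_subset.mp hsub
      have hyz : y ≠ z := fun h => hzT (h ▸ hyT)
      have h3 := quad_step h2 z (a := fun p => (evN T p).prod (sing (p y)))
        ((PolyFam.evN T).prod (PolyFam.sing y)) (by
          intro p x
          rw [evN_update hzT, Function.update_of_ne hyz]) (d := 2) (by
        filter_upwards [eventually_genPos (k := k) T] with p hp
        refine finrank_sing_le hT' (hp.spans (by omega)) ?_
        rintro h ⟨h4, h5⟩
        rw [LinearMap.ker_prod] at h5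
        exact ⟨h4, mem_ker_evN.mp h5.1, fun x => by
          have : sing (p y) h = 0 := h5.2
          rw [mf_eq_sing, this, zero_dotProduct]⟩)
      filter_upwards [h3] with p hp
      have : QTW p (T : Set V) (W : Set V)
          ≤ SymF k ⊓ LinearMap.ker (((evN T p).prod (sing (p y))).prod (evq (p z))) := by
        rintro h ⟨h4, h5, h6, h7⟩
        refine ⟨h4, ?_⟩
        rw [LinearMap.ker_prod, LinearMap.ker_prod]
        refine ⟨⟨mem_ker_evN.mpr fun v hv => h5 v (by simpa using hv), ?_⟩, ?_⟩
        · change sing (p y) h = 0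
          refine dotProduct_eq_zero _ fun x => ?_
          rw [← mf_eq_sing]
          exact h7 y (by simpa using hyT) (by simpa using hyW) x
        · exact h6 z (by simpa using hzW)
      have := Submodule.finrank_mono this
      omega

end GR
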