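import Pool.Agent.Lib.GR.Seq
import Pool.Agent.Lib.GR.Clique
import Pool.Agent.Lib.GR.Triv

/-!
# The rank formula for the generic rank
-/

set_option linter.unusedSectionVars false
set_option linter.style.haveILetI false

namespace GR

open Filter Module

open scoped Matrix

variable {k : Type*} [Field k] {V : Type*} [DecidableEq V]

/-- at a nice position where all flats are good -/
theorem rank_formula_at {p : V → Vec k} {A : Finset V} (hp : GenPos p (A : Set V))
    (hgood : GoodAt A p) (E : Finset (Sym2 V)) (hE : E ⊆ Kf A) :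
    (∀ L : List (Finset V), ProperSeq L → (∀ C ∈ L, C ⊆ A) →
      3 * A.card + L.length ≤ mdim A (E : Set (Sym2 V)) p + (E ∪ edgesOf L).card) ∧
    ∃ L : List (Finset V), ProperSeq L ∧ (∀ C ∈ L, C ⊆ A) ∧
      3 * A.card + L.length = mdim A (E : Set (Sym2 V)) p + (E ∪ edgesOf L).card := by
  have h1 : mdim A (E : Set (Sym2 V)) p + rk (E : Set (Sym2 V)) p = 3 * A.card :=
    mdim_add_rk (fun e he => (mem_Kf.mp (hE (by exact_mod_cast he))).2)
      (fun v hv => hp.ne_zero (by exact_mod_cast hv))
  constructor
  · intro L hL hLA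
    have h2 := rk_add_length_le hp L hL hLA E
    have h3 := rk_mono (p := p) (Finset.subset_union_left (s₁ := E) (s₂ := edgesOf L))
    omega
  · obtain ⟨L, h2, h3, h4⟩ := exists_seq hp hgood E hE
    exact ⟨L, h2, h3, by omega⟩

/-- **The rank formula for the generic three-dimensional rigidity matroid**, in terms of the
generic dimension of the space of motions, assuming that all flats are good. -/
theorem rank_formula [Infinite k] (A : Finset V) (h : ∀ W ⊆ A, AllGood k W)
    (E : Finset (Sym2 V)) (hE : E ⊆ Kf A) :
    (∀ L : List (Finset V), ProperSeq L → (∀ C ∈ L, C ⊆ A) →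
      3 * A.card + L.length ≤ gdim k A (E : Set (Sym2 V)) + (E ∪ edgesOf L).card) ∧
    ∃ L : List (Finset V), ProperSeq L ∧ (∀ C ∈ L, C ⊆ A) ∧
      3 * A.card + L.length = gdim k A (E : Set (Sym2 V)) + (E ∪ edgesOf L).card := by
  obtain ⟨p, hp, hnice, hgood⟩ := ((eventually_mdim_eq (k := k) A (E : Set (Sym2 V))).and
    ((eventually_nice (k := k) A).and (eventually_goodAt h))).exists
  rw [← hp]
  exact rank_formula_at hnice.gp hgood E hE

end GR
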