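import Pool.Agent.Lib.GR.Nine
import Pool.Agent.Lib.GR.CliqueTool
import Pool.Agent.Lib.GR.AdjA
import Pool.Agent.Lib.GR.TypeConst

/-!
# A degree six neighbour `i` of a pure type A vertex `v`, at a fixed position

`M` : motions of `G - v - i` (dimension `4`, plus the six trivial ones), `T = N(v) - i`,
`O = N(i) - v`, `y0` the position of `i`.  Pattern (2a): for `Z ∈ M` and the linear map `B` with
`B t = Z t` on `T` : `Z x · y + B y · x = γ x * (F Z · y)`, `x ∈ O`, `F Z = ∑ ν x Z x`.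
-/

set_option linter.unusedSectionVars false

namespace GR

open Filter Module

open scoped Matrix

variable {k : Type*} [Field k] {V : Type*}

/-- `Z ↦ ∑ ν x • Z x` -/
def Ff (O : Finset V) (ν : V → k) : (V → Vec k) →ₗ[k] Vec k where
  toFun Z := ∑ x ∈ O, ν x • Z x
  map_add' Z Z' := by
    simp only [Pi.add_apply, smul_add, Finset.sum_add_distrib]
  map_smul' c Z := by
    simp only [Pi.smul_apply, RingHom.id_apply, Finset.smul_sum]
    exact Finset.sum_congr rfl fun x _ => smul_comm _ _ _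

lemma Ff_apply (O : Finset V) (ν : V → k) (Z : V → Vec k) : Ff O ν Z = ∑ x ∈ O, ν x • Z x := rfl

/-- dot product with a fixed vector -/
def dotR (y : Vec k) : Vec k →ₗ[k] k where
  toFun z := z ⬝ᵥ y
  map_add' z z' := add_dotProduct _ _ _
  map_smul' c z := by simp

@[simp] lemma dotR_apply (y z : Vec k) : dotR y z = z ⬝ᵥ y := rfl

/-- `Z ↦ F Z · y` -/
def Fy (O : Finset V) (ν : V → k) (y : Vec k) : (V → Vec k) →ₗ[k] k := dotR y ∘ₗ Ff O ν

@[simp] lemma Fy_apply (O : Finset V) (ν : V → k) (y : Vec k) (Z : V → Vec k) :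
    Fy O ν y Z = Ff O ν Z ⬝ᵥ y := rfl

lemma finrank_le_inf_ker {E : Type*} [AddCommGroup E] [Module k E] (M : Submodule k E)
    [FiniteDimensional k M] (φ : E →ₗ[k] k) :
    finrank k M ≤ finrank k (M ⊓ LinearMap.ker φ : Submodule k E) + 1 := by
  have h := LinearMap.finrank_range_add_finrank_ker (φ.domRestrict M)
  have h1 : finrank k (LinearMap.range (φ.domRestrict M)) ≤ 1 :=
    (Submodule.finrank_le _).trans (by simp)
  have h2 : finrank k (LinearMap.ker (φ.domRestrict M))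
      = finrank k (M ⊓ LinearMap.ker φ : Submodule k E) := by
    have e : (LinearMap.ker (φ.domRestrict M)).map M.subtype = M ⊓ LinearMap.ker φ := by
      ext z
      simp only [Submodule.mem_map, LinearMap.mem_ker, Submodule.mem_inf]
      constructor
      · rintro ⟨y, hy, rfl⟩
        exact ⟨y.2, hy⟩
      · rintro ⟨h1, h2⟩
        exact ⟨⟨z, h1⟩, h2, rfl⟩
    rw [← e]
    exact (Submodule.equivMapOfInjective _ M.injective_subtype _).finrank_eq
  omega

/-- a vector of `M` outside the kernel, inside two others -/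
lemma exists_eq_one {E : Type*} [AddCommGroup E] [Module k E] (M : Submodule k E)
    [FiniteDimensional k M] (φ : E →ₗ[k] k)
    (h : finrank k (M ⊓ LinearMap.ker φ : Submodule k E) < finrank k M) :
    ∃ Z ∈ M, φ Z = 1 := by
  by_contra hc
  push Not at hc
  have : M ≤ LinearMap.ker φ := by
    intro Z hZ
    rw [LinearMap.mem_ker]
    by_contra h0
    refine hc ((φ Z)⁻¹ • Z) (M.smul_mem _ hZ) ?_
    rw [map_smul, smul_eq_mul, inv_mul_cancel₀ h0]
  rw [inf_eq_left.mpr this] at h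
  exact lt_irrefl _ h

/-- Pattern (2a) at a fixed position. -/
structure SixP [DecidableEq V] (p : V → Vec k) (M : Submodule k (V → Vec k)) (T O : Finset V)
    (y0 : Vec k) (ν γ : V → k) : Prop where
  hT : T.card = 4
  hO : O.card = 5
  dis : Disjoint T O
  gp : GenPos p ((T ∪ O : Finset V) : Set V)
  loop : ∀ Z ∈ M, ∀ x ∈ T ∪ O, Z x ⬝ᵥ p x = 0
  dep : ∑ x ∈ O, ν x • p x = 0
  norm : ∑ x ∈ O, ν x * γ x = 1
  str : ∀ Z ∈ M, ∀ B : Vec k →ₗ[k] Vec k, (∀ t ∈ T, B (p t) = Z t) → ∀ x ∈ O, ∀ y,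
    Z x ⬝ᵥ y + B y ⬝ᵥ p x = γ x * (Ff O ν Z ⬝ᵥ y)
  fin : FiniteDimensional k M
  inj : finrank k (M ⊓ RG p (T : Set V) ⊓ LinearMap.ker (Fy O ν y0) :
    Submodule k (V → Vec k)) ≤ 6
  dim : 10 ≤ finrank k M
  ten : TenProp (T ∪ O) p

namespace SixP

variable [DecidableEq V] {p : V → Vec k} {M : Submodule k (V → Vec k)} {T O : Finset V}
  {y0 : Vec k} {ν γ : V → k}

lemma card9 (h : SixP p M T O y0 ν γ) : (T ∪ O).card = 9 := by
  rw [Finset.card_union_of_disjoint h.dis, h.hT, h.hO]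

lemma gpT (h : SixP p M T O y0 ν γ) : GenPos p (T : Set V) :=
  h.gp.mono (by exact_mod_cast Finset.subset_union_left)

/-- two points of `T` -/
lemma exists_two (h : SixP p M T O y0 ν γ) : ∃ a ∈ T, ∃ b ∈ T, a ≠ b :=
  Finset.one_lt_card.mp (by rw [h.hT]; norm_num)

/-- loops of the linear extension -/
lemma loopT (h : SixP p M T O y0 ν γ) {Z : V → Vec k} (hZ : Z ∈ M) {B : Vec k →ₗ[k] Vec k}
    (hB : ∀ t ∈ T, B (p t) = Z t) {t : V} (ht : t ∈ T) : B (p t) ⬝ᵥ p t = 0 := by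
  rw [hB t ht]
  exact h.loop Z hZ t (Finset.mem_union_left _ ht)

lemma loopO (h : SixP p M T O y0 ν γ) {Z : V → Vec k} (hZ : Z ∈ M) {B : Vec k →ₗ[k] Vec k}
    (hB : ∀ t ∈ T, B (p t) = Z t) {x : V} (hx : x ∈ O) :
    B (p x) ⬝ᵥ p x = γ x * (Ff O ν Z ⬝ᵥ p x) := by
  have h1 := h.str Z hZ B hB x hx (p x)
  rw [h.loop Z hZ x (Finset.mem_union_right _ hx), zero_add] at h1
  exact h1

/-- the strain between `O` and `T` -/
lemma eps_OT (h : SixP p M T O y0 ν γ) {Z : V → Vec k} (hZ : Z ∈ M) {x t : V} (hx : x ∈ O)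
    (ht : t ∈ T) : eps p x t Z = γ x * (Ff O ν Z ⬝ᵥ p t) := by
  obtain ⟨BB, hBB⟩ := exists_BB h.hT h.gpT
  have h1 := h.str Z hZ (BB Z) (hBB Z) x hx (p t)
  rw [hBB Z t ht] at h1
  rw [eps_apply]
  exact h1

/-- the trivial motions -/
lemma inj_le (h : SixP p M T O y0 ν γ) {K : Submodule k (V → Vec k)} (hK : K ≤ M)
    (hR : ∀ Z ∈ K, Z ∈ RG p (T : Set V)) (hy : ∀ Z ∈ K, Ff O ν Z ⬝ᵥ y0 = 0) :
    finrank k K ≤ 6 := by
  have := h.fin
  have : FiniteDimensional k (M ⊓ RG p (T : Set V) ⊓ LinearMap.ker (Fy O ν y0) :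
    Submodule k (V → Vec k)) := Submodule.finiteDimensional_of_le (inf_le_left.trans inf_le_left)
  refine le_trans (Submodule.finrank_mono ?_) h.inj
  exact fun Z hZ => ⟨⟨hK hZ, hR Z hZ⟩, hy Z hZ⟩

lemma mem_RG_of_skew (_h : SixP p M T O y0 ν γ) {Z : V → Vec k} {B : Vec k →ₗ[k] Vec k}
    (hB : ∀ t ∈ T, B (p t) = Z t) (hs : IsSkew B) : Z ∈ RG p (T : Set V) :=
  ⟨B, hs, fun t ht => (hB t (by exact_mod_cast ht)).symm⟩

/-- **At most three `γ x` vanish** (no `K_{5,5}`). -/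
theorem zeros_le (h : SixP p M T O y0 ν γ) {X' : Finset V} (hX' : X' ⊆ O)
    (h0 : ∀ x ∈ X', γ x = 0) : X'.card ≤ 3 := by
  have := h.fin
  by_contra hcon
  obtain ⟨X, hX, hX4⟩ := Finset.exists_subset_card_eq (show 4 ≤ X'.card by omega)
  have hXO : X ⊆ O := hX.trans hX'
  have h1 : (O \ X).card = 1 := by
    rw [Finset.card_sdiff_of_subset hXO, hX4, h.hO]
  obtain ⟨z, hz⟩ := Finset.card_eq_one.mp h1
  obtain ⟨a, ha, b, hb, hab⟩ := h.exists_two
  obtain ⟨BB, hBB⟩ := exists_BB h.hT h.gpT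
  let ev : Vec k → (V → Vec k) →ₗ[k] Vec k := fun y =>
    { toFun := fun Z => BB Z y
      map_add' := fun Z Z' => by rw [map_add]; rfl
      map_smul' := fun c Z => by rw [map_smul]; rfl }
  let φ1 : (V → Vec k) →ₗ[k] k := dotR (p z) ∘ₗ ev (p z)
  let φ2 : (V → Vec k) →ₗ[k] k := dotR (p b) ∘ₗ ev (p a) + dotR (p a) ∘ₗ ev (p b)
  have hM1 := finrank_le_inf_ker M φ1
  have : FiniteDimensional k (M ⊓ LinearMap.ker φ1 : Submodule k (V → Vec k)) :=
    Submodule.finiteDimensional_of_le inf_le_left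
  have hM2 := finrank_le_inf_ker (M ⊓ LinearMap.ker φ1) φ2
  have : FiniteDimensional k (M ⊓ LinearMap.ker φ1 ⊓ LinearMap.ker φ2 :
    Submodule k (V → Vec k)) := Submodule.finiteDimensional_of_le inf_le_left
  have hM3 := finrank_le_inf_ker (M ⊓ LinearMap.ker φ1 ⊓ LinearMap.ker φ2) (Fy O ν y0)
  have h6 := h.inj_le (K := M ⊓ LinearMap.ker φ1 ⊓ LinearMap.ker φ2 ⊓ LinearMap.ker (Fy O ν y0))
    (inf_le_left.trans (inf_le_left.trans inf_le_left)) ?_ (fun Z hZ => hZ.2)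
  · have := h.dim
    omega
  · rintro Z ⟨⟨⟨hZ, h7⟩, h8⟩, -⟩
    refine h.mem_RG_of_skew (hBB Z) ?_
    refine h.ten _ subset_rfl h.card9 a (Finset.mem_union_left _ ha) b
      (Finset.mem_union_left _ hb) hab (BB Z) (fun x hx => ?_) h8
    rcases Finset.mem_union.mp hx with hx | hx
    · exact h.loopT hZ (hBB Z) hx
    · by_cases hxX : x ∈ X
      · rw [h.loopO hZ (hBB Z) hx, h0 x (hX hxX), zero_mul]
      · have hxz : x = z := by
          have : x ∈ O \ X := Finset.mem_sdiff.mpr ⟨hx, hxX⟩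
          rw [hz] at this
          simpa using this
        rw [hxz]
        exact h7

/-- **The kernel of `F` has dimension at most one** (plus trivial motions). -/
theorem finrank_ker_le (h : SixP p M T O y0 ν γ) :
    finrank k (M ⊓ LinearMap.ker (Ff O ν) : Submodule k (V → Vec k)) ≤ 7 := by
  have := h.fin
  obtain ⟨a, ha, b, hb, hab⟩ := h.exists_two
  obtain ⟨BB, hBB⟩ := exists_BB h.hT h.gpT
  let ev : Vec k → (V → Vec k) →ₗ[k] Vec k := fun y =>
    { toFun := fun Z => BB Z y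
      map_add' := fun Z Z' => by rw [map_add]; rfl
      map_smul' := fun c Z => by rw [map_smul]; rfl }
  let φ2 : (V → Vec k) →ₗ[k] k := dotR (p b) ∘ₗ ev (p a) + dotR (p a) ∘ₗ ev (p b)
  have : FiniteDimensional k (M ⊓ LinearMap.ker (Ff O ν) : Submodule k (V → Vec k)) :=
    Submodule.finiteDimensional_of_le inf_le_left
  have hM2 := finrank_le_inf_ker (M ⊓ LinearMap.ker (Ff O ν)) φ2
  have h6 := h.inj_le (K := M ⊓ LinearMap.ker (Ff O ν) ⊓ LinearMap.ker φ2)
    (inf_le_left.trans inf_le_left) ?_ ?_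
  · omega
  · rintro Z ⟨⟨hZ, h7⟩, h8⟩
    have h7 : Ff O ν Z = 0 := h7
    refine h.mem_RG_of_skew (hBB Z) ?_
    refine h.ten _ subset_rfl h.card9 a (Finset.mem_union_left _ ha) b
      (Finset.mem_union_left _ hb) hab (BB Z) (fun x hx => ?_) h8
    rcases Finset.mem_union.mp hx with hx | hx
    · exact h.loopT hZ (hBB Z) hx
    · rw [h.loopO hZ (hBB Z) hx, h7, zero_dotProduct, mul_zero]
  · rintro Z ⟨⟨hZ, h7⟩, h8⟩
    have h7 : Ff O ν Z = 0 := h7
    rw [h7, zero_dotProduct]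

end SixP

end GR
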