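import Pool.Agent.Lib.GR.BRank
import Pool.Agent.Lib.GR.AdjA
import Pool.Agent.Lib.GR.Six

/-!
# Degree six: the abstract linear algebra

`R x Z y` (`x ∈ O`) bilinear forms, `Q Z` symmetric forms.  Rank one, pairs of kernels, constant
image, the linear function `λ`.
-/

set_option linter.unusedSectionVars false

namespace GR

namespace S6

open Filter Module

open scoped Matrix

variable {k : Type*} [Field k] {V : Type*} {A : Type*} [AddCommGroup A] [Module k A]

/-- all the forms at `y` -/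
def Ra (R : V → A →ₗ[k] Vec k →ₗ[k] k) (O : Finset V) (y : Vec k) : A →ₗ[k] (O → k) :=
  LinearMap.pi fun x => (R x).flip y

lemma Ra_apply (R : V → A →ₗ[k] Vec k →ₗ[k] k) (O : Finset V) (y : Vec k) (Z : A) (x : O) :
    Ra R O y Z x = R x Z y := rfl

/-- the kernel of the family `R` at `y` -/
def Ky (M : Submodule k A) (R : V → A →ₗ[k] Vec k →ₗ[k] k) (O : Finset V) (y : Vec k) :
    Submodule k A := M ⊓ LinearMap.ker (Ra R O y)

lemma mem_Ky {M : Submodule k A} {R : V → A →ₗ[k] Vec k →ₗ[k] k} {O : Finset V} {y : Vec k}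
    {Z : A} : Z ∈ Ky M R O y ↔ Z ∈ M ∧ ∀ x ∈ O, R x Z y = 0 := by
  rw [Ky, Submodule.mem_inf, LinearMap.mem_ker]
  refine and_congr_right fun _ => ?_
  constructor
  · intro h x hx
    exact congrFun h ⟨x, hx⟩
  · intro h
    funext x
    exact h x x.2

lemma Ky_le (M : Submodule k A) (R : V → A →ₗ[k] Vec k →ₗ[k] k) (O : Finset V) (y : Vec k) :
    Ky M R O y ≤ M := inf_le_left

lemma polyFam_Ra (R : V → A →ₗ[k] Vec k →ₗ[k] k) (O : Finset V) :
    PolyFam (fun y : Vec k => Ra R O y) :=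
  PolyFam.pi fun x => PolyFam.of_scalar fun Z => PolyLine.linear (R x Z)

variable [Infinite k]

/-- A submodule which contains generic vectors is everything. -/
lemma mem_of_eventually {W : Type*} [AddCommGroup W] [Module k W] {P : Submodule k W}
    (h : ∀ᶠ x in gen k W, x ∈ P) (b : W) : b ∈ P := by
  obtain ⟨U, hb, hU⟩ := eventually_gen.mp h
  obtain ⟨a, ha⟩ := hb.1
  have h1 := (hb.2 a ha b).union (Set.finite_singleton (0 : k))
  obtain ⟨t, ht⟩ := h1.infinite_compl.nonempty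
  simp only [Set.mem_compl_iff, Set.mem_union, Set.mem_ofPred_eq, Set.mem_singleton_iff, not_or,
    not_not] at ht
  have h2 := P.sub_mem (hU _ ht.1) (hU a ha)
  rw [add_sub_cancel_left] at h2
  have h3 := P.smul_mem t⁻¹ h2
  rwa [smul_smul, inv_mul_cancel₀ ht.2, one_smul] at h3

/-- a linear form which vanishes generically vanishes -/
lemma lin_eq_zero {W : Type*} [AddCommGroup W] [Module k W] {f : W →ₗ[k] k}
    (h : ∀ᶠ x in gen k W, f x = 0) (x : W) : f x = 0 :=
  (PolyLine.linear f).eq_zero_of_eventually h x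

/-- **Families of rank one.** -/
theorem rank_one_cases {N : Submodule k A} [FiniteDimensional k N]
    {R : V → A →ₗ[k] Vec k →ₗ[k] k} {O : Finset V}
    (h : ∀ᶠ y in gen k (Vec k), finrank k N ≤ finrank k (Ky N R O y) + 1) :
    (∃ x0 ∈ O, ∃ c : V → k, (∀ Z ∈ N, ∀ x ∈ O, ∀ y, R x Z y = c x * R x0 Z y) ∧
      ∃ Z1 ∈ N, ∃ Z2 ∈ N, (∃ y, R x0 Z1 y = 0 ∧ R x0 Z2 y ≠ 0) ∧ ∃ e, R x0 Z1 e ≠ 0) ∨
    ∃ S : Submodule k A, S ≤ N ∧ finrank k N ≤ finrank k S + 1 ∧
      ∀ Z ∈ S, ∀ x ∈ O, ∀ y, R x Z y = 0 := by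
  have I1 : ∀ x ∈ O, ∀ x' ∈ O, ∀ Z ∈ N, ∀ Z' ∈ N, ∀ y : Vec k,
      R x' Z y * R x Z' y = R x' Z' y * R x Z y := by
    intro x hx x' hx' Z hZ Z' hZ' y
    have hP : PolyLine k fun y => R x' Z y * R x Z' y - R x' Z' y * R x Z y :=
      ((PolyLine.linear _).mul (PolyLine.linear _)).sub
        ((PolyLine.linear _).mul (PolyLine.linear _))
    have := hP.eq_zero_of_eventually (by
      filter_upwards [h] with y hy
      have h3 := mul_eq_of_codim (f := (R x').flip y) (g := (R x).flip y) (Ky_le N R O y) hy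
        (fun Z hZ => (mem_Ky.mp hZ).2 x' hx') (fun Z hZ => (mem_Ky.mp hZ).2 x hx) hZ hZ'
      exact sub_eq_zero.mpr h3) y
    exact sub_eq_zero.mp this
  by_cases h1 : ∀ x ∈ O, ∀ Z ∈ N, ∀ y, R x Z y = 0
  · exact Or.inr ⟨N, le_rfl, by omega, fun Z hZ x hx y => h1 x hx Z hZ y⟩
  · push Not at h1
    obtain ⟨x0, hx0, Z0, hZ0, e0, he0⟩ := h1
    by_cases h3 : ∃ Z1 ∈ N, ∃ Z2 ∈ N, (∃ y, R x0 Z1 y = 0 ∧ R x0 Z2 y ≠ 0) ∧ ∃ e, R x0 Z1 e ≠ 0
    · left
      obtain ⟨Z1, hZ1, Z2, hZ2, h4, h5⟩ := h3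
      have hc : ∀ x ∈ O, ∃ c : k, ∀ (Z : N) y, R x Z y = c * R x0 Z y := fun x hx =>
        lin_factor (L := fun Z : N => R x0 Z) (L' := fun Z : N => R x Z)
          (fun Z Z' y => I1 x0 hx0 x hx Z Z.2 Z' Z'.2 y) (i₁ := ⟨Z1, hZ1⟩) (i₂ := ⟨Z2, hZ2⟩) h4 h5
      choose! c hc using hc
      exact ⟨x0, hx0, c, fun Z hZ x hx y => hc x hx ⟨Z, hZ⟩ y, Z1, hZ1, Z2, hZ2, h4, h5⟩
    · right
      push Not at h3
      refine ⟨N ⊓ LinearMap.ker ((R x0).flip e0), inf_le_left, finrank_le_inf_ker _ _, ?_⟩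
      rintro Z ⟨hZ, hZe⟩
      have hZe' : R x0 Z e0 = 0 := hZe
      have hL0 : ∀ u, R x0 Z u = 0 := by
        intro u
        by_contra hu
        have h4 := h3 Z0 hZ0 Z hZ ⟨u - (R x0 Z0 u / R x0 Z0 e0) • e0, by
          rw [map_sub, map_smul, smul_eq_mul]
          field_simp
          ring, by
          rw [map_sub, map_smul, hZe', smul_zero, sub_zero]
          exact hu⟩ e0
        exact he0 h4
      intro x hx y
      refine lin_eq_zero (f := R x Z) ?_ y
      filter_upwards [(PolyLine.linear (R x0 Z0)).eventually_ne ⟨e0, he0⟩] with u hu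
      have h4 := I1 x0 hx0 x hx Z hZ Z0 hZ0 u
      rw [hL0, mul_zero] at h4
      exact (mul_eq_zero.mp h4).resolve_right hu

/-- **Pairs of kernels.** -/
theorem pair_cases {M : Submodule k A} [FiniteDimensional k M]
    {R : V → A →ₗ[k] Vec k →ₗ[k] k} {O : Finset V}
    (hK : ∀ᶠ y in gen k (Vec k), finrank k (Ky M R O y) = 8)
    (hS : ∀ N ≤ M, (∀ Z ∈ N, ∀ x ∈ O, ∀ y, R x Z y = 0) → finrank k N ≤ 6) :
    (∀ᶠ y in gen k (Vec k), ∀ᶠ q in gen k (Vec k),
      finrank k (Ky M R O y ⊓ Ky M R O q : Submodule k A) ≤ 6) ∨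
    ∃ H ≤ M, finrank k H = 9 ∧ ∀ᶠ q in gen k (Vec k), Ky M R O q ≤ H := by
  have hfd : ∀ y, FiniteDimensional k (Ky M R O y) := fun y =>
    Submodule.finiteDimensional_of_le (Ky_le M R O y)
  have e : ∀ y q, Ky M R O y ⊓ LinearMap.ker (Ra R O q) = Ky M R O y ⊓ Ky M R O q := by
    intro y q
    ext Z
    simp only [Ky, Submodule.mem_inf]
    tauto
  by_cases hc : ∃ y q, finrank k (Ky M R O y ⊓ Ky M R O q : Submodule k A) ≤ 6
  · left
    obtain ⟨y0, q0, h0⟩ := hc
    have h1 := eventually_finrank_le (Ky M R O q0) (polyFam_Ra R O) y0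
    filter_upwards [h1] with y hy
    rw [e, e, inf_comm, inf_comm (Ky M R O q0)] at hy
    have h2 := eventually_finrank_le (Ky M R O y) (polyFam_Ra R O) q0
    filter_upwards [h2] with q hq
    rw [e, e] at hq
    omega
  · right
    push Not at hc
    obtain ⟨y1, hy1⟩ := hK.exists
    obtain ⟨y2, hne, hy2⟩ : ∃ y2, Ky M R O y2 ≠ Ky M R O y1 ∧ finrank k (Ky M R O y2) = 8 := by
      by_contra hcon
      push Not at hcon
      have h3 := hS (Ky M R O y1) (Ky_le M R O y1) fun Z hZ x hx y => by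
        refine lin_eq_zero (f := R x Z) ?_ y
        filter_upwards [hK] with q hq
        have h4 : Ky M R O q = Ky M R O y1 := by
          by_contra h5
          exact hcon q h5 hq
        rw [← h4] at hZ
        exact (mem_Ky.mp hZ).2 x hx
      omega
    have hfd1 := hfd y1
    have hfd2 := hfd y2
    have h7 := hc y1 y2
    have hN6 : finrank k (Ky M R O y1 ⊓ Ky M R O y2 : Submodule k A) < 8 := by
      rw [← hy1]
      refine Submodule.finrank_lt_finrank_of_lt (lt_of_le_of_ne inf_le_left fun h => hne ?_)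
      have h8 : Ky M R O y1 ≤ Ky M R O y2 := by rw [← h]; exact inf_le_right
      exact (Submodule.eq_of_le_of_finrank_le h8 (by omega)).symm
    have hH := Submodule.finrank_sup_add_finrank_inf_eq (Ky M R O y1) (Ky M R O y2)
    refine ⟨Ky M R O y1 ⊔ Ky M R O y2, sup_le (Ky_le _ _ _ _) (Ky_le _ _ _ _), by omega, ?_⟩
    obtain ⟨Z, hZ, x, hx, u, hu⟩ : ∃ Z ∈ Ky M R O y1 ⊓ Ky M R O y2, ∃ x ∈ O, ∃ u,
        R x Z u ≠ 0 := by
      by_contra hcon
      push Not at hcon
      have h3 := hS (Ky M R O y1 ⊓ Ky M R O y2) (inf_le_left.trans (Ky_le _ _ _ _)) hcon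
      omega
    filter_upwards [hK, (PolyLine.linear (R x Z)).eventually_ne ⟨u, hu⟩] with q hq hqx
    have hfdq := hfd q
    have ha := hc q y1
    have hb := hc q y2
    have hZq : Z ∉ Ky M R O q := fun h => hqx ((mem_Ky.mp h).2 x hx)
    have hfda : FiniteDimensional k (Ky M R O q ⊓ Ky M R O y1 : Submodule k A) :=
      Submodule.finiteDimensional_of_le inf_le_left
    have hfdb : FiniteDimensional k (Ky M R O q ⊓ Ky M R O y2 : Submodule k A) :=
      Submodule.finiteDimensional_of_le inf_le_left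
    have h3 := Submodule.finrank_sup_add_finrank_inf_eq (Ky M R O q ⊓ Ky M R O y1)
      (Ky M R O q ⊓ Ky M R O y2)
    have hfdN : FiniteDimensional k (Ky M R O y1 ⊓ Ky M R O y2 : Submodule k A) :=
      Submodule.finiteDimensional_of_le inf_le_left
    have h4 : finrank k ((Ky M R O q ⊓ Ky M R O y1) ⊓ (Ky M R O q ⊓ Ky M R O y2) :
        Submodule k A) < finrank k (Ky M R O y1 ⊓ Ky M R O y2 : Submodule k A) := by
      refine Submodule.finrank_lt_finrank_of_lt (lt_of_le_of_ne ?_ fun h => hZq ?_)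
      · exact le_inf (inf_le_left.trans inf_le_right) (inf_le_right.trans inf_le_right)
      · rw [← h] at hZ
        exact hZ.1.1
    have h5 : (Ky M R O q ⊓ Ky M R O y1) ⊔ (Ky M R O q ⊓ Ky M R O y2) = Ky M R O q :=
      Submodule.eq_of_le_of_finrank_le (sup_le inf_le_left inf_le_left) (by omega)
    rw [← h5]
    exact sup_le_sup inf_le_right inf_le_right

/-- first order: images at other points -/
lemma firstOrder {F : Type*} [AddCommGroup F] [Module k F] [FiniteDimensional k F]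
    {M : A →ₗ[k] Vec k →ₗ[k] F} {r : ℕ} {x0 : Vec k}
    (hle : ∀ x, finrank k (Wr M x) ≤ r) (heq : finrank k (Wr M x0) = r) {a : A}
    (ha : M a x0 = 0) (q : Vec k) : M a q ∈ Wr M x0 := by
  refine limit_mem hle heq (q := q) fun s hs => ?_
  have h1 : M a (x0 + s • q) = s • M a q := by
    rw [map_add, map_smul, ha, zero_add]
  have h2 := (Wr M (x0 + s • q)).smul_mem s⁻¹ (self_mem_Wr M (x0 + s • q) a)
  rwa [h1, smul_smul, inv_mul_cancel₀ hs, one_smul] at h2

/-- the family as a bilinear map on `M` -/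
def Rb (M : Submodule k A) (R : V → A →ₗ[k] Vec k →ₗ[k] k) (O : Finset V) :
    M →ₗ[k] Vec k →ₗ[k] (O → k) :=
  LinearMap.mk₂ k (fun Z y => Ra R O y (Z : A))
    (fun Z Z' y => by simp [map_add]) (fun c Z y => by simp)
    (fun Z y y' => by ext x; simp [Ra_apply]) (fun c Z y => by ext x; simp [Ra_apply])

lemma Rb_apply (M : Submodule k A) (R : V → A →ₗ[k] Vec k →ₗ[k] k) (O : Finset V) (Z : M)
    (y : Vec k) : Rb M R O Z y = Ra R O y (Z : A) := rfl

lemma finrank_Wr_add (M : Submodule k A) [FiniteDimensional k M]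
    (R : V → A →ₗ[k] Vec k →ₗ[k] k) (O : Finset V) (y : Vec k) :
    finrank k (Wr (Rb M R O) y) + finrank k (Ky M R O y) = finrank k M := by
  have h := LinearMap.finrank_range_add_finrank_ker ((Rb M R O).flip y)
  have h2 : finrank k (LinearMap.ker ((Rb M R O).flip y)) = finrank k (Ky M R O y) := by
    have e : (LinearMap.ker ((Rb M R O).flip y)).map M.subtype = Ky M R O y := by
      ext z
      simp only [Submodule.mem_map, LinearMap.mem_ker, Ky, Submodule.mem_inf]
      constructor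
      · rintro ⟨y, hy, rfl⟩
        exact ⟨y.2, hy⟩
      · rintro ⟨h1, h2⟩
        exact ⟨⟨z, h1⟩, h2, rfl⟩
    rw [← e]
    exact (Submodule.equivMapOfInjective _ M.injective_subtype _).finrank_eq
  rw [h2] at h
  exact h

/-- **Constant image.** -/
theorem const_image {M : Submodule k A} [FiniteDimensional k M]
    {R : V → A →ₗ[k] Vec k →ₗ[k] k} {O : Finset V} (hM : finrank k M = 10)
    (hK : ∀ᶠ y in gen k (Vec k), finrank k (Ky M R O y) = 8)
    (hp : ∀ᶠ y in gen k (Vec k), ∀ᶠ q in gen k (Vec k),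
      finrank k (Ky M R O y ⊓ Ky M R O q : Submodule k A) ≤ 6) :
    ∃ (g : A →ₗ[k] Vec k →ₗ[k] (Fin 2 → k)) (γ : V → Fin 2 → k),
      (∀ Z ∈ M, ∀ x ∈ O, ∀ y, R x Z y = γ x ⬝ᵥ g Z y) ∧
      ∀ Z y, (∀ x ∈ O, R x Z y = 0) → g Z y = 0 := by
  obtain ⟨y0, h0, h1⟩ := (hK.and hp).exists
  have hle : ∀ y, finrank k (Wr (Rb M R O) y) ≤ 2 := finrank_Wr_le _ (by
    filter_upwards [hK] with y hy
    have := finrank_Wr_add M R O y
    omega)
  have heq : finrank k (Wr (Rb M R O) y0) = 2 := by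
    have := finrank_Wr_add M R O y0
    omega
  set I := Wr (Rb M R O) y0 with hI
  have hfd : ∀ y, FiniteDimensional k (Ky M R O y) := fun y =>
    Submodule.finiteDimensional_of_le (Ky_le M R O y)
  have key : ∀ Z ∈ M, ∀ y, Ra R O y Z ∈ I := by
    intro Z hZ y
    let f : Vec k →ₗ[k] (O → k) := Rb M R O ⟨Z, hZ⟩
    have h2 := mem_of_eventually (P := I.comap f) (by
      filter_upwards [h1, hK] with q hq hq8
      have hfd1 := hfd y0
      have hfd2 := hfd q
      have h3 := Submodule.finrank_sup_add_finrank_inf_eq (Ky M R O y0) (Ky M R O q)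
      have h4 : Ky M R O y0 ⊔ Ky M R O q = M :=
        Submodule.eq_of_le_of_finrank_le (sup_le (Ky_le _ _ _ _) (Ky_le _ _ _ _)) (by omega)
      rw [← h4] at hZ
      obtain ⟨Z', hZ', Z'', hZ'', hs⟩ := Submodule.mem_sup.mp hZ
      have hZ'M := Ky_le _ _ _ _ hZ'
      change Ra R O q Z ∈ I
      have h5 : Ra R O q Z'' = 0 := hZ''.2
      rw [← hs, map_add, h5, add_zero]
      have h6 : Rb M R O ⟨Z', hZ'M⟩ y0 = 0 := by
        rw [Rb_apply]
        exact hZ'.2
      exact firstOrder hle heq h6 q) y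
    exact h2
  let b := Module.finBasisOfFinrankEq k I heq
  have hφ : ∀ j, ∃ φ : (O → k) →ₗ[k] k, φ ∘ₗ I.subtype = b.coord j := fun j =>
    LinearMap.exists_extend (b.coord j)
  choose φ hφ using hφ
  let g : A →ₗ[k] Vec k →ₗ[k] (Fin 2 → k) :=
    LinearMap.mk₂ k (fun Z y j => φ j (Ra R O y Z))
      (fun Z Z' y => by ext j; simp) (fun c Z y => by ext j; simp)
      (fun Z y y' => by
        ext j
        have : Ra R O (y + y') Z = Ra R O y Z + Ra R O y' Z := by ext x; simp [Ra_apply]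
        simp [this])
      (fun c Z y => by
        ext j
        have : Ra R O (c • y) Z = c • Ra R O y Z := by ext x; simp [Ra_apply]
        simp [this])
  have hg : ∀ Z y j, g Z y j = φ j (Ra R O y Z) := fun _ _ _ => rfl
  classical
  refine ⟨g, fun x j => if hx : x ∈ O then (b j : O → k) ⟨x, hx⟩ else 0, ?_, ?_⟩
  · intro Z hZ x hx y
    have h2 := key Z hZ y
    have h3 := b.sum_repr ⟨_, h2⟩
    have h4 := congrArg Subtype.val h3
    have h5 := congrFun h4 ⟨x, hx⟩
    change _ = R x Z y at h5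
    rw [← h5, dotProduct]
    simp only [Submodule.coe_sum, Submodule.coe_smul, Finset.sum_apply, Pi.smul_apply,
      smul_eq_mul, dif_pos hx]
    refine Finset.sum_congr rfl fun j _ => ?_
    rw [mul_comm, hg]
    congr 1
    have h6 := LinearMap.congr_fun (hφ j) ⟨_, h2⟩
    simp only [LinearMap.comp_apply, Submodule.subtype_apply] at h6
    rw [h6, Module.Basis.coord_apply]
  · intro Z y h
    ext j
    rw [hg]
    have : Ra R O y Z = 0 := by
      funext x
      exact h x x.2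
    rw [this, map_zero]
    rfl

end S6

end GR
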