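import Pool.Agent.Lib.GR.S6A

/-!
# Degree six: the linear function `λ`
-/

set_option linter.unusedSectionVars false

namespace GR

namespace S6

open Filter Module

open scoped Matrix

variable {k : Type*} [Field k] {V : Type*} {A : Type*} [AddCommGroup A] [Module k A]

/-- a cubic with infinitely many roots -/
lemma cubic_coeff [Infinite k] {c1 c2 c3 : k} {S : Set k} (hS : S.Finite)
    (h : ∀ s, s ∉ S → c1 * s + c2 * s ^ 2 + c3 * s ^ 3 = 0) : c1 = 0 := by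
  set P : Polynomial k := Polynomial.C c1 * Polynomial.X + Polynomial.C c2 * Polynomial.X ^ 2
    + Polynomial.C c3 * Polynomial.X ^ 3 with hPdef
  have hP : P = 0 := Polynomial.eq_zero_of_infinite_isRoot P
    (hS.infinite_compl.mono fun s hs => by
      have := h s hs
      simp only [Set.mem_ofPred_eq, Polynomial.IsRoot, hPdef, Polynomial.eval_add,
        Polynomial.eval_mul, Polynomial.eval_C, Polynomial.eval_X, Polynomial.eval_pow]
      exact this)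
  have h1 := congrArg (fun Q => Polynomial.coeff Q 1) hP
  simp only [hPdef, Polynomial.coeff_add, Polynomial.coeff_C_mul, Polynomial.coeff_X_one,
    Polynomial.coeff_X_pow, Polynomial.coeff_zero] at h1
  simpa using h1

/-- dot product with `l` -/
def dl (l : Fin 2 → k) : (Fin 2 → k) →ₗ[k] k where
  toFun z := l ⬝ᵥ z
  map_add' z z' := dotProduct_add _ _ _
  map_smul' c z := by simp [dotProduct_smul]

@[simp] lemma dl_apply (l z : Fin 2 → k) : dl l z = l ⬝ᵥ z := rfl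

variable [Infinite k]

/-- the first order lemma for `λ` -/
lemma lam_point (h2 : (2 : k) ≠ 0) {M : Submodule k A} {g : A →ₗ[k] Vec k →ₗ[k] (Fin 2 → k)}
    {Q : A →ₗ[k] Vec k →ₗ[k] Vec k →ₗ[k] k} (hQs : ∀ Z x y, Q Z x y = Q Z y x) {y : Vec k}
    (hp : ∀ᶠ q in gen k (Vec k), ∀ a b : Fin 2 → k, ∃ Z ∈ M, g Z y = a ∧ g Z q = b)
    (hQ : ∀ Z ∈ M, g Z y = 0 → Q Z y y = 0)
    (hl : ∀ q : Vec k, {t : k | ¬ ∀ Z ∈ M, g Z (y + t • q) = 0 →
      Q Z (y + t • q) (y + t • q) = 0}.Finite) :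
    ∃ l : Fin 2 → k, (∀ Z ∈ M, Q Z y y = 2 * (l ⬝ᵥ g Z y)) ∧
      ∀ Z ∈ M, g Z y = 0 → ∀ q, Q Z y q = l ⬝ᵥ g Z q := by
  obtain ⟨q0, hq0⟩ := hp.exists
  obtain ⟨Z1, hZ1, h11, -⟩ := hq0 (Pi.single 0 1) 0
  obtain ⟨Z2, hZ2, h21, -⟩ := hq0 (Pi.single 1 1) 0
  have e1 : ∀ Z ∈ M, Q Z y y = 2 * ((![Q Z1 y y / 2, Q Z2 y y / 2] : Fin 2 → k) ⬝ᵥ g Z y) := by
    intro Z hZ
    have h3 := hQ (Z - (g Z y 0) • Z1 - (g Z y 1) • Z2) (M.sub_mem (M.sub_mem hZ
      (M.smul_mem _ hZ1)) (M.smul_mem _ hZ2)) (by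
        simp only [map_sub, map_smul, LinearMap.sub_apply, LinearMap.smul_apply, h11, h21]
        ext j
        fin_cases j <;> simp)
    simp only [map_sub, map_smul, LinearMap.sub_apply, LinearMap.smul_apply, smul_eq_mul] at h3
    simp only [dotProduct, Fin.sum_univ_two, Matrix.cons_val_zero, Matrix.cons_val_one]
    field_simp
    linear_combination h3
  refine ⟨![Q Z1 y y / 2, Q Z2 y y / 2], e1, fun Z hZ hZ0 q => ?_⟩
  set l : Fin 2 → k := ![Q Z1 y y / 2, Q Z2 y y / 2] with hl'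
  have h3 := lin_eq_zero (f := Q Z y - dl l ∘ₗ g Z) (by
    filter_upwards [hp] with q hq
    obtain ⟨Z', hZ', h4, h5⟩ := hq (-(g Z q)) 0
    have h6 : (2 * Q Z y q + Q Z' y y : k) = 0 := by
      refine cubic_coeff (c2 := Q Z q q + 2 * Q Z' y q) (c3 := Q Z' q q) (hl q) fun s hs => ?_
      simp only [Set.mem_ofPred_eq, not_not] at hs
      have h7 := hs (Z + s • Z') (M.add_mem hZ (M.smul_mem _ hZ')) (by
        simp only [map_add, map_smul, LinearMap.add_apply, LinearMap.smul_apply, hZ0, h4, h5]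
        simp)
      have h8 := hQ Z hZ hZ0
      simp only [map_add, map_smul, LinearMap.add_apply, LinearMap.smul_apply, smul_eq_mul] at h7
      rw [hQs Z q y, hQs Z' q y] at h7
      linear_combination h7 - h8
    have h7 := e1 Z' hZ'
    rw [h4, dotProduct_neg] at h7
    have h8 : (2 : k) * (Q Z y q - l ⬝ᵥ g Z q) = 0 := by linear_combination h6 - h7
    simpa using (mul_eq_zero.mp h8).resolve_left h2) q
  have h4 : Q Z y q - l ⬝ᵥ g Z q = 0 := h3
  exact sub_eq_zero.mp h4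

/-- **The linear function `λ`.** -/
theorem lam_exists (h2 : (2 : k) ≠ 0) {M : Submodule k A}
    {g : A →ₗ[k] Vec k →ₗ[k] (Fin 2 → k)}
    {Q : A →ₗ[k] Vec k →ₗ[k] Vec k →ₗ[k] k} (hQs : ∀ Z x y, Q Z x y = Q Z y x)
    (hp : ∀ᶠ y in gen k (Vec k), ∀ᶠ q in gen k (Vec k),
      ∀ a b : Fin 2 → k, ∃ Z ∈ M, g Z y = a ∧ g Z q = b)
    (hQ : ∀ᶠ y in gen k (Vec k), ∀ Z ∈ M, g Z y = 0 → Q Z y y = 0) :
    ∃ lam : Vec k →ₗ[k] (Fin 2 → k), ∀ Z ∈ M, ∀ y q,
      Q Z y q = lam y ⬝ᵥ g Z q + lam q ⬝ᵥ g Z y := by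
  have hgood : ∀ᶠ y in gen k (Vec k), (∀ᶠ q in gen k (Vec k),
      ∀ a b : Fin 2 → k, ∃ Z ∈ M, g Z y = a ∧ g Z q = b) ∧ ∃ l : Fin 2 → k,
      (∀ Z ∈ M, Q Z y y = 2 * (l ⬝ᵥ g Z y)) ∧
      ∀ Z ∈ M, g Z y = 0 → ∀ q, Q Z y q = l ⬝ᵥ g Z q := by
    filter_upwards [hp, eventually_line' hQ] with y h3 h4
    exact ⟨h3, lam_point h2 hQs h3 h4.1 h4.2⟩
  obtain ⟨y, hy, l, hl1, hl2⟩ := hgood.exists
  obtain ⟨q0, hq0⟩ := hy.exists
  have hex : ∀ i : Fin 2, ∃ Z ∈ M, g Z y = Pi.single i 1 := fun i => by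
    obtain ⟨Z, hZ, h3, -⟩ := hq0 (Pi.single i 1) 0
    exact ⟨Z, hZ, h3⟩
  choose Zb hZbM hZb using hex
  let Lam : Vec k →ₗ[k] (Fin 2 → k) := LinearMap.pi fun i => Q (Zb i) y - dl l ∘ₗ g (Zb i)
  have hLam : ∀ q i, Lam q i = Q (Zb i) y q - l ⬝ᵥ g (Zb i) q := fun _ _ => rfl
  have key : ∀ Z ∈ M, ∀ q, Q Z q q = 2 * (Lam q ⬝ᵥ g Z q) := by
    intro Z hZ q
    have hP : PolyLine k fun q => Q Z q q - 2 * (Lam q ⬝ᵥ g Z q) := by
      refine (polyLine_bilin (Q Z)).sub ((PolyLine.const 2).mul ?_)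
      simp only [dotProduct]
      refine PolyLine.sum _ fun i _ => ?_
      exact (PolyLine.linear ((LinearMap.proj i : (Fin 2 → k) →ₗ[k] k) ∘ₗ Lam)).mul
        (PolyLine.linear ((LinearMap.proj i : (Fin 2 → k) →ₗ[k] k) ∘ₗ g Z))
    have h3 := hP.eq_zero_of_eventually (by
      filter_upwards [hy, hgood] with q hq hgq
      obtain ⟨-, m, hm1, hm2⟩ := hgq
      have h4 : m = Lam q := by
        ext i
        obtain ⟨W, hW, h5, h6⟩ := hq (Pi.single i 1) 0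
        have h7 := hl2 (Zb i - W) (M.sub_mem (hZbM i) hW) (by
          rw [map_sub, LinearMap.sub_apply, hZb, h5, sub_self]) q
        have h8 := hm2 W hW h6 y
        rw [h5] at h8
        simp only [map_sub, LinearMap.sub_apply, h6, sub_zero] at h7
        rw [hQs W q y] at h8
        rw [hLam]
        have h9 : m ⬝ᵥ (Pi.single i 1 : Fin 2 → k) = m i := by simp
        rw [h9] at h8
        linear_combination -h7 - h8
      rw [hm1 Z hZ, h4, sub_self]) q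
    exact sub_eq_zero.mp h3
  refine ⟨Lam, fun Z hZ x q => ?_⟩
  have h3 := key Z hZ (x + q)
  have h4 := key Z hZ x
  have h5 := key Z hZ q
  simp only [map_add, LinearMap.add_apply, add_dotProduct, dotProduct_add] at h3
  rw [hQs Z q x] at h3
  have h6 : (2 : k) * (Q Z x q - (Lam x ⬝ᵥ g Z q + Lam q ⬝ᵥ g Z x)) = 0 := by
    linear_combination h3 - h4 - h5
  exact sub_eq_zero.mp ((mul_eq_zero.mp h6).resolve_left h2)

end S6

end GR
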