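import Pool.Agent.Lib.GR.S6B

/-!
# Degree six: the local structure, rank one and the common hyperplane
-/

set_option linter.unusedSectionVars false

namespace GR

namespace S6

open Filter Module

open scoped Matrix

variable {k : Type*} [Field k] {V : Type*}

/-- the relation forms -/
def Rc (BB : (V → Vec k) →ₗ[k] (Vec k →ₗ[k] Vec k)) (p : V → Vec k) (x : V) :
    (V → Vec k) →ₗ[k] Vec k →ₗ[k] k :=
  LinearMap.mk₂ k (fun Z y => Z x ⬝ᵥ y + BB Z y ⬝ᵥ p x)
    (fun Z Z' y => by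
      simp only [map_add, LinearMap.add_apply, Pi.add_apply, add_dotProduct]; ring)
    (fun c Z y => by
      simp only [map_smul, LinearMap.smul_apply, Pi.smul_apply, smul_dotProduct, smul_eq_mul]
      ring)
    (fun Z y y' => by simp only [map_add, add_dotProduct, dotProduct_add]; ring)
    (fun c Z y => by
      simp only [map_smul, smul_dotProduct, dotProduct_smul, smul_eq_mul]; ring)

lemma Rc_apply (BB : (V → Vec k) →ₗ[k] (Vec k →ₗ[k] Vec k)) (p : V → Vec k) (x : V)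
    (Z : V → Vec k) (y : Vec k) : Rc BB p x Z y = Z x ⬝ᵥ y + BB Z y ⬝ᵥ p x := rfl

/-- the symmetric forms -/
def Qc (BB : (V → Vec k) →ₗ[k] (Vec k →ₗ[k] Vec k)) :
    (V → Vec k) →ₗ[k] Vec k →ₗ[k] Vec k →ₗ[k] k where
  toFun Z := LinearMap.mk₂ k (fun y q => BB Z y ⬝ᵥ q + BB Z q ⬝ᵥ y)
      (fun x x' y => by simp only [map_add, add_dotProduct, dotProduct_add]; ring)
      (fun c x y => by
        simp only [map_smul, smul_dotProduct, dotProduct_smul, smul_eq_mul]; ring)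
      (fun x y y' => by simp only [map_add, add_dotProduct, dotProduct_add]; ring)
      (fun c x y => by
        simp only [map_smul, smul_dotProduct, dotProduct_smul, smul_eq_mul]; ring)
  map_add' Z Z' := by
    refine LinearMap.ext fun y => LinearMap.ext fun q => ?_
    simp only [LinearMap.mk₂_apply, LinearMap.add_apply, map_add, add_dotProduct]
    ring
  map_smul' c Z := by
    refine LinearMap.ext fun y => LinearMap.ext fun q => ?_
    simp only [LinearMap.mk₂_apply, LinearMap.smul_apply, map_smul, smul_dotProduct,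
      smul_eq_mul, RingHom.id_apply]
    ring

lemma Qc_apply (BB : (V → Vec k) →ₗ[k] (Vec k →ₗ[k] Vec k)) (Z : V → Vec k) (y q : Vec k) :
    Qc BB Z y q = BB Z y ⬝ᵥ q + BB Z q ⬝ᵥ y := rfl

lemma Qc_symm (BB : (V → Vec k) →ₗ[k] (Vec k →ₗ[k] Vec k)) (Z : V → Vec k) (y q : Vec k) :
    Qc BB Z y q = Qc BB Z q y := by
  rw [Qc_apply, Qc_apply, add_comm]

/-- the vectors of `M` on which finitely many functionals vanish -/
def Cs {A : Type*} [AddCommGroup A] [Module k A] {ι : Type*} (M : Submodule k A)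
    (φ : ι → A →ₗ[k] k) (S : Finset ι) : Submodule k A where
  carrier := {Z | Z ∈ M ∧ ∀ s ∈ S, φ s Z = 0}
  add_mem' := by
    rintro Z Z' ⟨h1, h2⟩ ⟨h1', h2'⟩
    exact ⟨M.add_mem h1 h1', fun s hs => by rw [map_add, h2 s hs, h2' s hs, add_zero]⟩
  zero_mem' := ⟨M.zero_mem, fun s _ => map_zero _⟩
  smul_mem' := by
    rintro c Z ⟨h1, h2⟩
    exact ⟨M.smul_mem c h1, fun s hs => by rw [map_smul, h2 s hs, smul_zero]⟩

lemma finrank_Cs {A : Type*} [AddCommGroup A] [Module k A] {ι : Type*}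
    (M : Submodule k A) [FiniteDimensional k M]
    (φ : ι → A →ₗ[k] k) (S : Finset ι) : finrank k M ≤ finrank k (Cs M φ S) + S.card := by
  classical
  induction S using Finset.induction_on with
  | empty =>
    have : Cs M φ ∅ = M := by
      ext Z
      constructor
      · rintro ⟨h, -⟩; exact h
      · intro h; exact ⟨h, by simp⟩
    rw [this]; simp
  | insert s S hs ih =>
    have e : Cs M φ (insert s S) = Cs M φ S ⊓ LinearMap.ker (φ s) := by
      ext Z
      rw [Submodule.mem_inf, LinearMap.mem_ker]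
      constructor
      · rintro ⟨h1, h2⟩
        exact ⟨⟨h1, fun t ht => h2 t (Finset.mem_insert_of_mem ht)⟩,
          h2 s (Finset.mem_insert_self _ _)⟩
      · rintro ⟨⟨h1, h2⟩, h3⟩
        refine ⟨h1, fun t ht => ?_⟩
        rcases Finset.mem_insert.mp ht with rfl | ht
        · exact h3
        · exact h2 t ht
    have : FiniteDimensional k (Cs M φ S) :=
      Submodule.finiteDimensional_of_le (fun Z hZ => hZ.1 : Cs M φ S ≤ M)
    have h1 := finrank_le_inf_ker (Cs M φ S) (φ s)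
    rw [← e] at h1
    rw [Finset.card_insert_of_notMem hs]
    omega

/-- a linear map vanishing on four points in general position vanishes -/
lemma eq_zero_of_card_four {F : Type*} [AddCommGroup F] [Module k F] {p : V → Vec k}
    {S : Finset V} (hS : 4 ≤ S.card) (hgp : GenPos p (S : Set V)) {f : Vec k →ₗ[k] F}
    (h : ∀ s ∈ S, f (p s) = 0) (y : Vec k) : f y = 0 := by
  classical
  obtain ⟨c, rfl⟩ := hgp.spans hS y
  rw [map_sum]
  exact Finset.sum_eq_zero fun i hi => by rw [map_smul, h i hi, smul_zero]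

/-- **Local data of a neighbour of degree six.** -/
structure SixLoc [Infinite k] [DecidableEq V] (p : V → Vec k) (M : Submodule k (V → Vec k))
    (T O : Finset V) (BB : (V → Vec k) →ₗ[k] (Vec k →ₗ[k] Vec k)) : Prop where
  two : (2 : k) ≠ 0
  hT : T.card = 4
  hO : O.card = 5
  gp : GenPos p ((T ∪ O : Finset V) : Set V)
  hBB : ∀ Z, ∀ t ∈ T, BB Z (p t) = Z t
  loopT : ∀ Z ∈ M, ∀ t ∈ T, Z t ⬝ᵥ p t = 0
  loopO : ∀ Z ∈ M, ∀ x ∈ O, Z x ⬝ᵥ p x = 0
  fd : FiniteDimensional k M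
  dim : finrank k M = 10
  att : ∀ᶠ y in gen k (Vec k),
    finrank k (M ⊓ Att p (O : Set V) y : Submodule k (V → Vec k)) = 8
  typ : ∀ᶠ y in gen k (Vec k), ∀ Z ∈ M ⊓ Att p (O : Set V) y, BB Z y ⬝ᵥ y = 0 ∧
    ∀ x ∈ O, Z x ⬝ᵥ y + BB Z y ⬝ᵥ p x = 0
  inj : ∀ᶠ y in gen k (Vec k), ∀ N ≤ M ⊓ Att p (O : Set V) y, (∀ Z ∈ N, IsSkew (BB Z)) →
    finrank k N ≤ 6
  pure : ∀ᶠ y in gen k (Vec k), ∀ a ∈ T, ∀ b ∈ T, ∀ c ∈ T, a ≠ b → a ≠ c → b ≠ c →
    ¬ ∀ Z ∈ M ⊓ Att p (O : Set V) y, eps p a b Z = 0 ∧ eps p a c Z = 0 ∧ eps p b c Z = 0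
  qtw : ∀ W ⊆ O, W.card = 4 → finrank k (QTW p (T : Set V) (W : Set V)) ≤ 2
  qtw0 : ∀ W ⊆ O, W.card = 4 → (∃ x ∈ T, x ∈ W) → ∀ h ∈ QTW p (T : Set V) (W : Set V), h = 0
  fr : ∀ x ∈ O, x ∉ T → ∀ x1 ∈ O, ∀ x2 ∈ O,
    M ⊓ LinearMap.ker (eps p x x1) ⊓ LinearMap.ker (eps p x x2)
      ≤ TA p ((insert x T : Finset V) : Set V) →
    finrank k (M ⊓ LinearMap.ker (eps p x x1) ⊓ LinearMap.ker (eps p x x2) :
      Submodule k (V → Vec k)) ≤ finrank k (M ⊓ LinearMap.ker (eps p x x1) ⊓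
        LinearMap.ker (eps p x x2) ⊓ RG p ((insert x T : Finset V) : Set V) :
      Submodule k (V → Vec k)) + 1 ∨
    ∃ i ∈ insert x T, M ⊓ LinearMap.ker (eps p x x1) ⊓ LinearMap.ker (eps p x x2)
      ≤ RG p (((insert x T).erase i : Finset V) : Set V)

/-- The conclusion. -/
def SixCon [DecidableEq V] (p : V → Vec k) (M : Submodule k (V → Vec k))
    (T O : Finset V) : Prop :=
  Disjoint T O ∧ ∀ ν : V → k, (∑ x ∈ O, ν x • p x = 0) → (∃ x ∈ O, ν x ≠ 0) →
    ∃ γ : V → k, ∑ x ∈ O, ν x * γ x = 1 ∧ ∀ Z ∈ M, ∀ B : Vec k →ₗ[k] Vec k,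
        (∀ t ∈ T, B (p t) = Z t) → ∀ x ∈ O, ∀ y,
          Z x ⬝ᵥ y + B y ⬝ᵥ p x = γ x * (Ff O ν Z ⬝ᵥ y)

namespace SixLoc

variable [Infinite k] [DecidableEq V] {p : V → Vec k} {M : Submodule k (V → Vec k)}
  {T O : Finset V} {BB : (V → Vec k) →ₗ[k] (Vec k →ₗ[k] Vec k)} (h : SixLoc p M T O BB)

include h

lemma gpT : GenPos p (T : Set V) := h.gp.mono (by simp)

lemma gpO : GenPos p (O : Set V) := h.gp.mono (by simp)

lemma spT : Spans p T := h.gpT.spans (by rw [h.hT])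

/-- the strain of two points of `T` -/
lemma eps_T {Z : V → Vec k} {a b : V} (ha : a ∈ T) (hb : b ∈ T) :
    eps p a b Z = Qc BB Z (p a) (p b) := by
  rw [eps_apply, Qc_apply, h.hBB Z a ha, h.hBB Z b hb]

lemma Q_T {Z : V → Vec k} (hZ : Z ∈ M) {t : V} (ht : t ∈ T) : Qc BB Z (p t) (p t) = 0 := by
  rw [Qc_apply, h.hBB Z t ht, h.loopT Z hZ t ht, add_zero]

/-- at a point of `O` -/
lemma Q_O {Z : V → Vec k} (hZ : Z ∈ M) {x : V} (hx : x ∈ O) :
    Qc BB Z (p x) (p x) = 2 * Rc BB p x Z (p x) := by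
  rw [Qc_apply, Rc_apply, h.loopO Z hZ x hx]
  ring

/-- at a point of `T ∩ O` -/
lemma R_TO {Z : V → Vec k} {x : V} (hx : x ∈ T) (q : Vec k) :
    Rc BB p x Z q = Qc BB Z (p x) q := by
  rw [Qc_apply, Rc_apply, h.hBB Z x hx]

/-- strains of pairs of `O` -/
lemma eps_O (Z : V → Vec k) (x x' : V) : eps p x x' Z
    = Rc BB p x Z (p x') + Rc BB p x' Z (p x) - Qc BB Z (p x) (p x') := by
  have _ := h.two
  rw [eps_apply, Rc_apply, Rc_apply, Qc_apply]
  ring

lemma skew_of {Z : V → Vec k} (hQ : ∀ u, Qc BB Z u u = 0) : IsSkew (BB Z) :=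
  isSkew_of_two h.two fun x => by rw [← Qc_apply]; exact hQ x

lemma mem_Att_of {Z : V → Vec k} {y : Vec k} (hQ : Qc BB Z y y = 0)
    (hR : ∀ x ∈ O, Rc BB p x Z y = 0) : Z ∈ Att p (O : Set V) y := by
  refine ⟨BB Z y, ?_, fun x hx => ?_⟩
  · rw [Qc_apply] at hQ
    have h1 : (2 : k) * (BB Z y ⬝ᵥ y) = 0 := by linear_combination hQ
    exact (mul_eq_zero.mp h1).resolve_left h.two
  · have := hR x (by simpa using hx)
    rw [Rc_apply] at this
    rw [add_comm]
    exact this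

/-- the extension conditions -/
lemma eventually_att : ∀ᶠ y in gen k (Vec k), ∀ Z ∈ M ⊓ Att p (O : Set V) y,
    Z ∈ Ky M (Rc BB p) O y ∧ Qc BB Z y y = 0 := by
  filter_upwards [h.typ] with y hy Z hZ
  obtain ⟨h1, h2⟩ := hy Z hZ
  exact ⟨mem_Ky.mpr ⟨hZ.1, fun x hx => h2 x hx⟩, by rw [Qc_apply, h1, add_zero]⟩

/-- trivial motions, at a generic point -/
lemma eventually_triv : ∀ᶠ y in gen k (Vec k), ∀ N ≤ M,
    (∀ Z ∈ N, (∀ u, Qc BB Z u u = 0) ∧ ∀ x ∈ O, Rc BB p x Z y = 0) → finrank k N ≤ 6 := by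
  filter_upwards [h.inj] with y hy N hN hN'
  exact hy N (fun Z hZ => ⟨hN hZ, h.mem_Att_of ((hN' Z hZ).1 y) (hN' Z hZ).2⟩)
    fun Z hZ => h.skew_of (hN' Z hZ).1

/-- trivial motions -/
lemma triv {N : Submodule k (V → Vec k)} (hN : N ≤ M)
    (hQ : ∀ Z ∈ N, ∀ u, Qc BB Z u u = 0) (hR : ∀ Z ∈ N, ∀ x ∈ O, ∀ u, Rc BB p x Z u = 0) :
    finrank k N ≤ 6 := by
  obtain ⟨y, hy⟩ := h.eventually_triv.exists
  exact hy N hN fun Z hZ => ⟨hQ Z hZ, fun x hx => hR Z hZ x hx y⟩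

/-- a 4-subset of `O` -/
lemma exists_W : ∃ W ⊆ O, W.card = 4 := Finset.exists_subset_card_eq (by rw [h.hO]; norm_num)

/-- the form of a motion on which the relations vanish on `W` -/
lemma mem_QTW {Z : V → Vec k} (hZ : Z ∈ M) {W : Finset V}
    (hd : ∀ x ∈ W, Qc BB Z (p x) (p x) = 0)
    (hs : ∀ x ∈ T, x ∈ W → ∀ q, Qc BB Z (p x) q = 0) :
    ofForm (Qc BB Z) ∈ QTW p (T : Set V) (W : Set V) := by
  refine ⟨fun x y => ?_, fun t ht => ?_, fun y hy => ?_, fun y hy hy' x => ?_⟩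
  · rw [mf_ofForm]; exact Qc_symm _ _ _ _
  · rw [mf_ofForm]; exact h.Q_T hZ (by simpa using ht)
  · rw [mf_ofForm]; exact hd y (by simpa using hy)
  · rw [mf_ofForm]; exact hs y (by simpa using hy) (by simpa using hy') x

/-- the motions on which all relations vanish -/
theorem finrank_S_le {S : Submodule k (V → Vec k)} (hS : S ≤ M)
    (hR : ∀ Z ∈ S, ∀ x ∈ O, ∀ u, Rc BB p x Z u = 0) : finrank k S ≤ 8 := by
  have := h.fd
  have hfd : FiniteDimensional k S := Submodule.finiteDimensional_of_le hS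
  obtain ⟨W, hW, hW4⟩ := h.exists_W
  let f : S →ₗ[k] Frm k :=
    { toFun := fun Z => ofForm (Qc BB Z)
      map_add' := fun Z Z' => by
        ext i j
        simp only [ofForm, Pi.add_apply, Submodule.coe_add, map_add, LinearMap.add_apply]
      map_smul' := fun c Z => by
        ext i j
        simp only [ofForm, Pi.smul_apply, Submodule.coe_smul, map_smul,
          LinearMap.smul_apply, RingHom.id_apply] }
  have hf : ∀ Z x y, mf (f Z) x y = Qc BB Z x y := fun Z x y => by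
    change mf (ofForm (Qc BB Z)) x y = _
    rw [mf_ofForm]
  have hr : LinearMap.range f ≤ QTW p (T : Set V) (W : Set V) := by
    rintro _ ⟨Z, rfl⟩
    refine h.mem_QTW (hS Z.2) (fun x hx => ?_) fun x hx hx' q => ?_
    · rw [h.Q_O (hS Z.2) (hW hx), hR Z Z.2 x (hW hx), mul_zero]
    · rw [← h.R_TO hx, hR Z Z.2 x (hW hx')]
  have h3 := LinearMap.finrank_range_add_finrank_ker f
  have h4 := (Submodule.finrank_mono hr).trans (h.qtw W hW hW4)
  have h5 : finrank k (LinearMap.ker f) ≤ 6 := by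
    have h7 := h.triv (N := (LinearMap.ker f).map S.subtype)
      ((Submodule.map_subtype_le _ _).trans hS) (by
        rintro _ ⟨Z, hZ, rfl⟩ u
        have hZ0 : f Z = 0 := LinearMap.mem_ker.mp hZ
        have := hf Z u u
        rw [hZ0, mf_zero] at this
        exact this.symm) (by
        rintro _ ⟨Z, hZ, rfl⟩ x hx u
        exact hR Z Z.2 x hx u)
    rwa [Submodule.finrank_map_subtype_eq] at h7
  omega

/-- `M` is not of type A on `O` -/
lemma not_TA : ¬ M ≤ TA p (O : Set V) := by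
  intro hc
  have := h.fd
  obtain ⟨y, hy⟩ := h.att.exists
  have h1 := finrank_le_of_TA hc y
  rw [h.dim, hy] at h1
  omega

/-- normalisation -/
lemma norm_ne {ν : V → k} (hν : ∑ x ∈ O, ν x • p x = 0) (hν' : ∃ x ∈ O, ν x ≠ 0) {c : V → k}
    {x0 : V} (hc : ∀ Z ∈ M, ∀ x ∈ O, ∀ y, Rc BB p x Z y = c x * Rc BB p x0 Z y) :
    ∑ x ∈ O, ν x * c x ≠ 0 := by
  intro h0
  apply h.not_TA
  obtain ⟨x1, hx1, hne⟩ := hν'
  have hc4 : (O.erase x1).card = 4 := by rw [Finset.card_erase_of_mem hx1, h.hO]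
  obtain ⟨B1, hB1⟩ := exists_BB hc4 (h.gpO.mono (by
    exact_mod_cast Finset.erase_subset x1 O))
  intro Z hZ
  have hF : Ff O ν Z = 0 := by
    refine dotProduct_eq_zero _ fun y => ?_
    have h1 : Ff O ν Z ⬝ᵥ y = ∑ x ∈ O, ν x * Rc BB p x Z y := by
      have h2 : BB Z y ⬝ᵥ ∑ x ∈ O, ν x • p x = 0 := by rw [hν, dotProduct_zero]
      rw [dotProduct_sum] at h2
      rw [Ff_apply, sum_dotProduct]
      rw [← add_zero (∑ x ∈ O, (ν x • Z x) ⬝ᵥ y), ← h2, ← Finset.sum_add_distrib]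
      refine Finset.sum_congr rfl fun x _ => ?_
      rw [Rc_apply, smul_dotProduct, dotProduct_smul, smul_eq_mul, smul_eq_mul]
      ring
    rw [h1]
    have h3 : ∀ x ∈ O, ν x * Rc BB p x Z y = (ν x * c x) * Rc BB p x0 Z y := fun x hx => by
      rw [hc Z hZ x hx]; ring
    rw [Finset.sum_congr rfl h3, ← Finset.sum_mul, h0, zero_mul]
  refine ⟨B1 Z, fun i hi => ?_⟩
  have hi' : i ∈ O := by simpa using hi
  by_cases hi1 : i = x1
  · subst hi1
    rw [← Finset.add_sum_erase _ _ hi'] at hν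
    rw [Ff_apply, ← Finset.add_sum_erase _ _ hi'] at hF
    have h1 := congrArg (B1 Z) hν
    rw [map_add, map_sum, map_zero, map_smul] at h1
    have h2 : ∑ x ∈ O.erase i, B1 Z (ν x • p x) = ∑ x ∈ O.erase i, ν x • Z x :=
      Finset.sum_congr rfl fun x hx => by rw [map_smul, hB1 Z x hx]
    rw [h2] at h1
    have h3 : ν i • (Z i - B1 Z (p i)) = 0 := by
      rw [smul_sub]
      have := hF.trans h1.symm
      rw [add_left_inj] at this
      rw [this, sub_self]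
    exact sub_eq_zero.mp ((smul_eq_zero.mp h3).resolve_left hne)
  · exact (hB1 Z i (Finset.mem_erase.mpr ⟨hi1, hi'⟩)).symm

/-- **Rank one, constant direction: disjointness.** -/
theorem one_zero_disjoint {c : V → k} {x0 : V} (hx0 : x0 ∈ O)
    (hc : ∀ Z ∈ M, ∀ x ∈ O, ∀ y, Rc BB p x Z y = c x * Rc BB p x0 Z y)
    (hne : ∃ Z ∈ M, ∃ e, Rc BB p x0 Z e ≠ 0) : Disjoint T O := by
  have hfd := h.fd
  have hc0 : c x0 = 1 := by
    obtain ⟨Z, hZ, e, he⟩ := hne
    have h1 := hc Z hZ x0 hx0 e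
    have h2 : (c x0 - 1) * Rc BB p x0 Z e = 0 := by linear_combination -h1
    exact sub_eq_zero.mp ((mul_eq_zero.mp h2).resolve_right he)
  have hQ0 : ∀ Z : V → Vec k, ofForm (Qc BB Z) = 0 → ∀ u, Qc BB Z u u = 0 := fun Z hZ u => by
    have h1 : mf (ofForm (Qc BB Z)) u u = 0 := by rw [hZ, mf_zero]
    rwa [mf_ofForm] at h1
  rw [Finset.disjoint_left]
  intro x1 hx1 hx1'
  by_cases hcase : ∃ x ∈ T, x ∈ O ∧ c x ≠ 0
  · obtain ⟨x2, hx2, hx2', hcx⟩ := hcase
    have hfr := finrank_Cs M (fun t => (Qc BB).flip (p x2) |>.flip (p t)) (T.erase x2)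
    rw [Finset.card_erase_of_mem hx2, h.hT, h.dim] at hfr
    set N := Cs M (fun t => (Qc BB).flip (p x2) |>.flip (p t)) (T.erase x2) with hN
    have hN0 : ∀ Z ∈ N, ∀ q, Qc BB Z (p x2) q = 0 := by
      rintro Z ⟨hZ, hZ'⟩ q
      refine eq_zero_of_card_four (S := T) (by rw [h.hT]) h.gpT (f := Qc BB Z (p x2))
        (fun t ht => ?_) q
      by_cases htx : t = x2
      · rw [htx]; exact h.Q_T hZ hx2
      · exact hZ' t (Finset.mem_erase.mpr ⟨htx, ht⟩)
    have hR0 : ∀ Z ∈ N, ∀ x ∈ O, ∀ q, Rc BB p x Z q = 0 := by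
      intro Z hZ x hx q
      have h1 := hc Z hZ.1 x2 hx2' q
      rw [h.R_TO hx2, hN0 Z hZ] at h1
      rw [hc Z hZ.1 x hx q, (mul_eq_zero.mp h1.symm).resolve_left hcx, mul_zero]
    obtain ⟨W', hW', hW4⟩ := Finset.exists_subset_card_eq
      (show 3 ≤ (O.erase x2).card by rw [Finset.card_erase_of_mem hx2', h.hO]; norm_num)
    have hx2W : x2 ∉ W' := fun hh => (Finset.mem_erase.mp (hW' hh)).1 rfl
    have hWO : insert x2 W' ⊆ O := Finset.insert_subset hx2' (hW'.trans (Finset.erase_subset _ _))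
    have h5 := h.triv (N := N) (fun Z hZ => hZ.1) (fun Z hZ => hQ0 Z
      (h.qtw0 (insert x2 W') hWO (by rw [Finset.card_insert_of_notMem hx2W, hW4])
        ⟨x2, hx2, Finset.mem_insert_self _ _⟩ _ (h.mem_QTW hZ.1 (fun x hx => by
          rw [h.Q_O hZ.1 (hWO hx), hR0 Z hZ x (hWO hx), mul_zero]) fun x hx hx' q => by
          rw [← h.R_TO hx, hR0 Z hZ x (hWO hx')]))) hR0
    omega
  · push Not at hcase
    have hcx1 : c x1 = 0 := hcase x1 hx1 hx1'
    have hx10 : x1 ≠ x0 := by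
      rintro rfl
      rw [hcx1] at hc0
      exact zero_ne_one hc0
    have hx1W : x1 ∈ O.erase x0 := Finset.mem_erase.mpr ⟨hx10, hx1'⟩
    have hW4 : (O.erase x0).card = 4 := by rw [Finset.card_erase_of_mem hx0, h.hO]
    have hfr := finrank_Cs M (fun t => (Rc BB p x0).flip (p t)) ((O.erase x0).erase x1)
    rw [Finset.card_erase_of_mem hx1W, hW4, h.dim] at hfr
    set N := Cs M (fun t => (Rc BB p x0).flip (p t)) ((O.erase x0).erase x1) with hN
    have hW : O.erase x0 ⊆ O := Finset.erase_subset _ _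
    have hRW : ∀ Z ∈ N, ∀ x ∈ O.erase x0, Rc BB p x Z (p x) = 0 := by
      intro Z hZ x hx
      rw [hc Z hZ.1 x (hW hx)]
      by_cases hxx : x = x1
      · rw [hxx, hcx1, zero_mul]
      · have : Rc BB p x0 Z (p x) = 0 := hZ.2 x (Finset.mem_erase.mpr ⟨hxx, hx⟩)
        rw [this, mul_zero]
    have hQN : ∀ Z ∈ N, ∀ u, Qc BB Z u u = 0 := fun Z hZ => hQ0 Z
      (h.qtw0 (O.erase x0) hW hW4 ⟨x1, hx1, hx1W⟩ _ (h.mem_QTW hZ.1 (fun x hx => by
          rw [h.Q_O hZ.1 (hW hx), hRW Z hZ x hx, mul_zero]) fun x hx hx' q => by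
          rw [← h.R_TO hx, hc Z hZ.1 x (hW hx'), hcase x hx (hW hx'), zero_mul]))
    have hg : ∀ Z ∈ N, ∀ q, Rc BB p x0 Z q = 0 := by
      intro Z hZ q
      have hx1c : (O.erase x1).card = 4 := by rw [Finset.card_erase_of_mem hx1', h.hO]
      refine eq_zero_of_card_four (S := O.erase x1) hx1c.ge (h.gpO.mono (by
        exact_mod_cast Finset.erase_subset x1 O)) (f := Rc BB p x0 Z) (fun t ht => ?_) q
      by_cases ht0 : t = x0
      · have h1 := h.Q_O hZ.1 hx0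
        rw [hQN Z hZ] at h1
        rw [ht0]
        exact (mul_eq_zero.mp h1.symm).resolve_left h.two
      · obtain ⟨ht1, ht2⟩ := Finset.mem_erase.mp ht
        exact hZ.2 t (Finset.mem_erase.mpr ⟨ht1, Finset.mem_erase.mpr ⟨ht0, ht2⟩⟩)
    have h5 := h.triv (N := N) (fun Z hZ => hZ.1) hQN fun Z hZ x hx q => by
      rw [hc Z hZ.1 x hx, hg Z hZ, mul_zero]
    omega

/-- **Rank one, constant direction.** -/
theorem one_zero {c : V → k} {x0 : V} (hx0 : x0 ∈ O)
    (hc : ∀ Z ∈ M, ∀ x ∈ O, ∀ y, Rc BB p x Z y = c x * Rc BB p x0 Z y)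
    (hne : ∃ Z ∈ M, ∃ e, Rc BB p x0 Z e ≠ 0) : SixCon p M T O := by
  refine ⟨h.one_zero_disjoint hx0 hc hne, fun ν hν hν' => ?_⟩
  have h0 := h.norm_ne hν hν' hc
  refine ⟨fun x => c x / ∑ x ∈ O, ν x * c x, ?_, fun Z hZ B hB x hx y => ?_⟩
  · have : ∀ x ∈ O, ν x * (c x / ∑ x ∈ O, ν x * c x) = (ν x * c x) / ∑ x ∈ O, ν x * c x :=
      fun x _ => by rw [mul_div_assoc]
    rw [Finset.sum_congr rfl this, ← Finset.sum_div, div_self h0]
  · have hB' : B = BB Z := ext_of_spans h.spT fun t ht => by rw [hB t ht, h.hBB Z t ht]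
    rw [hB', ← Rc_apply, hc Z hZ x hx]
    have h1 : Ff O ν Z ⬝ᵥ y = (∑ x ∈ O, ν x * c x) * Rc BB p x0 Z y := by
      have h2 : BB Z y ⬝ᵥ ∑ x ∈ O, ν x • p x = 0 := by rw [hν, dotProduct_zero]
      rw [dotProduct_sum] at h2
      rw [Ff_apply, sum_dotProduct]
      rw [← add_zero (∑ x ∈ O, (ν x • Z x) ⬝ᵥ y), ← h2, ← Finset.sum_add_distrib, Finset.sum_mul]
      refine Finset.sum_congr rfl fun x hx => ?_
      have h3 := hc Z hZ x hx y
      rw [Rc_apply] at h3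
      rw [smul_dotProduct, dotProduct_smul, smul_eq_mul, smul_eq_mul]
      linear_combination ν x * h3
    rw [h1]
    field_simp

/-- **A common hyperplane is impossible.** -/
theorem not_hyperplane (hC : ∀ᶠ y in gen k (Vec k),
      M ⊓ Att p (O : Set V) y = Ky M (Rc BB p) O y)
    {H : Submodule k (V → Vec k)} (hHM : H ≤ M) (hH : finrank k H = 9)
    (hle : ∀ᶠ y in gen k (Vec k), Ky M (Rc BB p) O y ≤ H) : False := by
  have hfdM := h.fd
  have hfd : FiniteDimensional k H := Submodule.finiteDimensional_of_le hHM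
  have h8 : ∀ᶠ y in gen k (Vec k), finrank k (Ky M (Rc BB p) O y) = 8 := by
    filter_upwards [hC, h.att] with y h1 h2
    rw [← h1, h2]
  have hKH : ∀ᶠ y in gen k (Vec k), finrank k H ≤ finrank k (Ky H (Rc BB p) O y) + 1 := by
    filter_upwards [h8, hle] with y h1 h2
    have h3 : Ky M (Rc BB p) O y ≤ Ky H (Rc BB p) O y := fun Z hZ =>
      mem_Ky.mpr ⟨h2 hZ, (mem_Ky.mp hZ).2⟩
    have hfd' : FiniteDimensional k (Ky H (Rc BB p) O y) :=
      Submodule.finiteDimensional_of_le (Ky_le _ _ _ _)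
    have := Submodule.finrank_mono h3
    omega
  rcases rank_one_cases hKH with ⟨x0, hx0, c, hc, Z1, hZ1, Z2, hZ2, h12, h1e⟩ |
    ⟨S, hSH, hS, hS0⟩
  · -- rank at least two
    have hI : ∀ Z ∈ H, ∀ Z' ∈ H, ∀ y : Vec k,
        Qc BB Z y y * Rc BB p x0 Z' y = Qc BB Z' y y * Rc BB p x0 Z y := by
      intro Z hZ Z' hZ' y
      have hP : PolyLine k fun y => Qc BB Z y y * Rc BB p x0 Z' y
          - Qc BB Z' y y * Rc BB p x0 Z y :=
        ((polyLine_bilin _).mul (PolyLine.linear _)).sub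
          ((polyLine_bilin _).mul (PolyLine.linear _))
      have := hP.eq_zero_of_eventually (by
        filter_upwards [h8, hle, hC, h.eventually_att] with y e1 e2 e3 e4
        have h3 := mul_eq_of_codim (f := (Qc BB).flip y |>.flip y) (g := (Rc BB p x0).flip y)
          e2 (by omega) (fun Z hZ => (e4 Z (by rw [e3]; exact hZ)).2)
          (fun Z hZ => (mem_Ky.mp hZ).2 x0 hx0) hZ hZ'
        exact sub_eq_zero.mpr h3) y
      exact sub_eq_zero.mp this
    obtain ⟨lam, hlam⟩ := quad_factor (ι := H) (L := fun Z => Rc BB p x0 Z)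
      (q := fun Z => Qc BB Z) (fun Z x y => Qc_symm _ _ _ _)
      (fun Z Z' y => hI Z Z.2 Z' Z'.2 y) (i₁ := ⟨Z1, hZ1⟩) (i₂ := ⟨Z2, hZ2⟩) h12 h1e
    have hpol : ∀ Z ∈ H, ∀ x x', 2 * Qc BB Z x x'
        = lam x * Rc BB p x0 Z x' + lam x' * Rc BB p x0 Z x := by
      intro Z hZ x x'
      have h4 := hlam ⟨Z, hZ⟩ (x + x')
      have h5 := hlam ⟨Z, hZ⟩ x
      have h7 := hlam ⟨Z, hZ⟩ x'
      simp only [map_add, LinearMap.add_apply] at h4 h5 h7
      rw [Qc_symm BB Z x' x] at h4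
      linear_combination h4 - h5 - h7
    -- at most one point of `T` with `lam ≠ 0`
    have hone : ∀ t1 ∈ T, ∀ t2 ∈ T, t1 ≠ t2 → lam (p t1) ≠ 0 → lam (p t2) = 0 := by
      intro t1 ht1 t2 ht2 hne hl1
      by_contra hl2
      have ht2' : t2 ∈ T.erase t1 := Finset.mem_erase.mpr ⟨hne.symm, ht2⟩
      have hfr := finrank_Cs H (fun t => (Rc BB p x0).flip (p t)) ((T.erase t1).erase t2)
      rw [Finset.card_erase_of_mem ht2', Finset.card_erase_of_mem ht1, h.hT, hH] at hfr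
      have hLt : ∀ Z ∈ H, ∀ t ∈ T, lam (p t) ≠ 0 → Rc BB p x0 Z (p t) = 0 := by
        intro Z hZ t ht hlt
        have h4 : Qc BB Z (p t) (p t) = lam (p t) * Rc BB p x0 Z (p t) := hlam ⟨Z, hZ⟩ (p t)
        rw [h.Q_T (hHM hZ) ht] at h4
        exact (mul_eq_zero.mp h4.symm).resolve_left hlt
      have hL0 : ∀ Z ∈ Cs H (fun t => (Rc BB p x0).flip (p t)) ((T.erase t1).erase t2),
          ∀ q, Rc BB p x0 Z q = 0 := by
        rintro Z ⟨hZ, hZ'⟩ q
        refine eq_zero_of_card_four (S := T) (by rw [h.hT]) h.gpT (f := Rc BB p x0 Z)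
          (fun t ht => ?_) q
        by_cases h1 : t = t1
        · rw [h1]; exact hLt Z hZ t1 ht1 hl1
        · by_cases h2 : t = t2
          · rw [h2]; exact hLt Z hZ t2 ht2 hl2
          · exact hZ' t (Finset.mem_erase.mpr ⟨h2, Finset.mem_erase.mpr ⟨h1, ht⟩⟩)
      have h5 := h.triv (N := Cs H (fun t => (Rc BB p x0).flip (p t)) ((T.erase t1).erase t2))
        (fun Z hZ => hHM hZ.1) (fun Z hZ u => by
          have : Qc BB Z u u = lam u * Rc BB p x0 Z u := hlam ⟨Z, hZ.1⟩ u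
          rw [this, hL0 Z hZ, mul_zero])
        (fun Z hZ x hx u => by rw [hc Z hZ.1 x hx, hL0 Z hZ, mul_zero])
      omega
    obtain ⟨X, hXT, hX3, hX0⟩ : ∃ X ⊆ T, X.card = 3 ∧ ∀ t ∈ X, lam (p t) = 0 := by
      by_cases hall : ∀ t ∈ T, lam (p t) = 0
      · obtain ⟨X, hX, hX3⟩ := Finset.exists_subset_card_eq (show 3 ≤ T.card by rw [h.hT]; norm_num)
        exact ⟨X, hX, hX3, fun t ht => hall t (hX ht)⟩
      · push Not at hall
        obtain ⟨t1, ht1, hl1⟩ := hall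
        refine ⟨T.erase t1, Finset.erase_subset _ _, by rw [Finset.card_erase_of_mem ht1, h.hT],
          fun t ht => ?_⟩
        obtain ⟨h1, h2⟩ := Finset.mem_erase.mp ht
        exact hone t1 ht1 t h2 h1.symm hl1
    obtain ⟨a, b, c', hab, hac, hbc, hX⟩ := Finset.card_eq_three.mp hX3
    obtain ⟨y, hy1, hy2, hy3⟩ := (h.pure.and (hC.and hle)).exists
    have haX : a ∈ X := by rw [hX]; simp
    have hbX : b ∈ X := by rw [hX]; simp
    have hcX : c' ∈ X := by rw [hX]; simp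
    refine hy1 a (hXT haX) b (hXT hbX) c' (hXT hcX) hab hac hbc fun Z hZ => ?_
    rw [hy2] at hZ
    have hZH := hy3 hZ
    have hz : ∀ u ∈ X, ∀ w ∈ X, eps p u w Z = 0 := by
      intro u hu w hw
      rw [h.eps_T (hXT hu) (hXT hw)]
      have h3 := hpol Z hZH (p u) (p w)
      rw [hX0 u hu, hX0 w hw, zero_mul, zero_mul, add_zero] at h3
      exact (mul_eq_zero.mp h3).resolve_left h.two
    exact ⟨hz a haX b hbX, hz a haX c' hcX, hz b hbX c' hcX⟩
  · have h5 := h.triv (N := S) (hSH.trans hHM) (fun Z hZ u => by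
      refine (polyLine_bilin (Qc BB Z)).eq_zero_of_eventually ?_ u
      filter_upwards [hC, h.eventually_att] with y e1 e2
      refine (e2 Z ?_).2
      rw [e1]
      exact mem_Ky.mpr ⟨hHM (hSH hZ), fun x hx => hS0 Z hZ x hx y⟩)
      (fun Z hZ x hx u => hS0 Z hZ x hx u)
    omega

end SixLoc

end S6

end GR
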