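import Pool.Agent.Lib.GR.S6C

/-!
# Degree six: constant image is impossible
-/

set_option linter.unusedSectionVars false

namespace GR

namespace S6

open Filter Module

open scoped Matrix

variable {k : Type*} [Field k] {V : Type*}

/-- determinant of two vectors -/
def d2 (a b : Fin 2 → k) : k := a 0 * b 1 - a 1 * b 0

lemma d2_self (a : Fin 2 → k) : d2 a a = 0 := by rw [d2]; ring

lemma d2_smul (a b : Fin 2 → k) (c c' : k) : d2 (c • a) (c' • b) = c * c' * d2 a b := by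
  simp only [d2, Pi.smul_apply, smul_eq_mul]; ring

lemma d2_swap (a b : Fin 2 → k) : d2 b a = - d2 a b := by rw [d2, d2]; ring

lemma eq_zero_of_d2 {a b v : Fin 2 → k} (h : d2 a b ≠ 0) (h1 : a ⬝ᵥ v = 0) (h2 : b ⬝ᵥ v = 0) :
    v = 0 := by
  simp only [dotProduct, Fin.sum_univ_two] at h1 h2
  have e0 : d2 a b * v 0 = 0 := by rw [d2]; linear_combination b 1 * h1 - a 1 * h2
  have e1 : d2 a b * v 1 = 0 := by rw [d2]; linear_combination a 0 * h2 - b 0 * h1
  ext i
  fin_cases i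
  · exact (mul_eq_zero.mp e0).resolve_left h
  · exact (mul_eq_zero.mp e1).resolve_left h

lemma d2_eq_zero_of {a b v : Fin 2 → k} (hv : v ≠ 0) (h1 : a ⬝ᵥ v = 0) (h2 : b ⬝ᵥ v = 0) :
    d2 a b = 0 := by
  by_contra h
  exact hv (eq_zero_of_d2 h h1 h2)

lemma exists_d2 {a : Fin 2 → k} (ha : a ≠ 0) : ∃ u : Fin 2 → k, d2 a u ≠ 0 := by
  by_cases h0 : a 0 = 0
  · have h1 : a 1 ≠ 0 := by
      intro h1
      apply ha
      ext i
      fin_cases i
      · exact h0
      · exact h1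
    exact ⟨![1, 0], by simpa [d2] using h1⟩
  · exact ⟨![0, 1], by simpa [d2] using h0⟩

lemma exists_smul_of_d2 {a b : Fin 2 → k} (ha : a ≠ 0) (h : d2 a b = 0) : ∃ c : k, b = c • a := by
  rw [d2] at h
  by_cases h0 : a 0 = 0
  · have h1 : a 1 ≠ 0 := by
      intro h1
      apply ha
      ext i
      fin_cases i
      · exact h0
      · exact h1
    refine ⟨b 1 / a 1, ?_⟩
    have hb0 : b 0 = 0 := by
      have : a 1 * b 0 = 0 := by rw [h0] at h; linear_combination -h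
      exact (mul_eq_zero.mp this).resolve_left h1
    ext i
    fin_cases i
    · simp [h0, hb0]
    · simp [h1]
  · refine ⟨b 0 / a 0, ?_⟩
    ext i
    fin_cases i
    · simp [h0]
    · simp only [Pi.smul_apply, smul_eq_mul, Fin.mk_one]
      field_simp
      linear_combination h

/-- `d2 (f y) w` is generically nonzero if nonzero somewhere -/
lemma eventually_d2 [Infinite k] {f : Vec k →ₗ[k] (Fin 2 → k)} {w : Fin 2 → k}
    (h : ∃ y, d2 (f y) w ≠ 0) : ∀ᶠ y in gen k (Vec k), d2 (f y) w ≠ 0 := by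
  have hP : PolyLine k fun y => d2 (f y) w := by
    simp only [d2]
    exact ((PolyLine.linear ((LinearMap.proj 0 : (Fin 2 → k) →ₗ[k] k) ∘ₗ f)).mul
      (PolyLine.const _)).sub ((PolyLine.linear ((LinearMap.proj 1 : (Fin 2 → k) →ₗ[k] k) ∘ₗ f)).mul
      (PolyLine.const _))
  exact hP.eventually_ne h

/-- the constant image data -/
structure CI [Infinite k] [DecidableEq V] (p : V → Vec k) (M : Submodule k (V → Vec k))
    (T O : Finset V) (BB : (V → Vec k) →ₗ[k] (Vec k →ₗ[k] Vec k))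
    (g : (V → Vec k) →ₗ[k] Vec k →ₗ[k] (Fin 2 → k)) (γ : V → Fin 2 → k)
    (lam : Vec k →ₗ[k] (Fin 2 → k)) : Prop where
  loc : SixLoc p M T O BB
  rel : ∀ Z ∈ M, ∀ x ∈ O, ∀ y, Rc BB p x Z y = γ x ⬝ᵥ g Z y
  sur : ∀ᶠ y in gen k (Vec k), ∀ᶠ q in gen k (Vec k),
      ∀ a b : Fin 2 → k, ∃ Z ∈ M, g Z y = a ∧ g Z q = b
  quad : ∀ Z ∈ M, ∀ y q, Qc BB Z y q = lam y ⬝ᵥ g Z q + lam q ⬝ᵥ g Z y

namespace CI

variable [Infinite k] [DecidableEq V] {p : V → Vec k} {M : Submodule k (V → Vec k)}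
  {T O : Finset V} {BB : (V → Vec k) →ₗ[k] (Vec k →ₗ[k] Vec k)}
  {g : (V → Vec k) →ₗ[k] Vec k →ₗ[k] (Fin 2 → k)} {γ : V → Fin 2 → k}
  {lam : Vec k →ₗ[k] (Fin 2 → k)} (h : CI p M T O BB g γ lam)

include h

/-- trivial motions -/
lemma triv {N : Submodule k (V → Vec k)} (hN : N ≤ M)
    (h0 : ∀ Z ∈ N, ∀ u, g Z u = 0) : finrank k N ≤ 6 :=
  h.loc.triv hN (fun Z hZ u => by rw [h.quad Z (hN hZ), h0 Z hZ]; simp)
    fun Z hZ x hx u => by rw [h.rel Z (hN hZ) x hx, h0 Z hZ, dotProduct_zero]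

lemma surj : ∀ᶠ y in gen k (Vec k), ∀ a : Fin 2 → k, ∃ Z ∈ M, g Z y = a := by
  filter_upwards [h.sur] with y hy a
  obtain ⟨q, hq⟩ := hy.exists
  obtain ⟨Z, hZ, h1, -⟩ := hq a 0
  exact ⟨Z, hZ, h1⟩

lemma lamT {Z : V → Vec k} (hZ : Z ∈ M) {t : V} (ht : t ∈ T) : lam (p t) ⬝ᵥ g Z (p t) = 0 := by
  have h1 := h.quad Z hZ (p t) (p t)
  rw [h.loc.Q_T hZ ht] at h1
  have h2 : (2 : k) * (lam (p t) ⬝ᵥ g Z (p t)) = 0 := by linear_combination -h1
  exact (mul_eq_zero.mp h2).resolve_left h.loc.two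

lemma wO {Z : V → Vec k} (hZ : Z ∈ M) {x : V} (hx : x ∈ O) :
    (γ x - lam (p x)) ⬝ᵥ g Z (p x) = 0 := by
  have h1 := h.quad Z hZ (p x) (p x)
  rw [h.loc.Q_O hZ hx, h.rel Z hZ x hx] at h1
  have h2 : (2 : k) * ((γ x - lam (p x)) ⬝ᵥ g Z (p x)) = 0 := by
    rw [sub_dotProduct]; linear_combination h1
  exact (mul_eq_zero.mp h2).resolve_left h.loc.two

/-- at most two points of `T` with `lam = 0` -/
lemma card_T0 {X' : Finset V} (hX' : X' ⊆ T) (h0 : ∀ x ∈ X', lam (p x) = 0) : X'.card ≤ 2 := by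
  by_contra hcon
  obtain ⟨X, hX, hX3⟩ := Finset.exists_subset_card_eq (show 3 ≤ X'.card by omega)
  obtain ⟨a, b, c', hab, hac, hbc, hXe⟩ := Finset.card_eq_three.mp hX3
  obtain ⟨y, hy1⟩ := h.loc.pure.exists
  have hXT : ∀ x ∈ X, x ∈ T ∧ lam (p x) = 0 := fun x hx => ⟨hX' (hX hx), h0 x (hX hx)⟩
  have haX : a ∈ X := by rw [hXe]; simp
  have hbX : b ∈ X := by rw [hXe]; simp
  have hcX : c' ∈ X := by rw [hXe]; simp
  refine hy1 a (hXT a haX).1 b (hXT b hbX).1 c' (hXT c' hcX).1 hab hac hbc fun Z hZ => ?_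
  have hz : ∀ u ∈ X, ∀ w ∈ X, eps p u w Z = 0 := by
    intro u hu w hw
    rw [h.loc.eps_T (hXT u hu).1 (hXT w hw).1, h.quad Z hZ.1, (hXT u hu).2, (hXT w hw).2]
    simp
  exact ⟨hz a haX b hbX, hz a haX c' hcX, hz b hbX c' hcX⟩

/-- a point of `T` with `lam ≠ 0` outside a given point -/
lemma exists_T_ne (z : V) : ∃ t ∈ T, t ≠ z ∧ lam (p t) ≠ 0 := by
  by_contra hcon
  push Not at hcon
  have h3 := h.card_T0 (Finset.erase_subset z T) fun t ht =>
    hcon t (Finset.mem_erase.mp ht).2 (Finset.mem_erase.mp ht).1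
  have h4 := Finset.pred_card_le_card_erase (s := T) (a := z)
  rw [h.loc.hT] at h4
  omega

/-- two points of `T` with `lam ≠ 0` -/
lemma exists_two_T : ∃ t1 ∈ T, ∃ t2 ∈ T, t1 ≠ t2 ∧ lam (p t1) ≠ 0 ∧ lam (p t2) ≠ 0 := by
  obtain ⟨z, hz⟩ : T.Nonempty := Finset.card_pos.mp (by rw [h.loc.hT]; norm_num)
  obtain ⟨t1, ht1, -, h1⟩ := h.exists_T_ne z
  obtain ⟨t2, ht2, h12, h2⟩ := h.exists_T_ne t1
  exact ⟨t1, ht1, t2, ht2, h12.symm, h1, h2⟩

/-- two points of `O` with independent vectors -/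
lemma exists_two_O : ∃ x1 ∈ O, ∃ x2 ∈ O, d2 (γ x1 - lam (p x1)) (γ x2 - lam (p x2)) ≠ 0 := by
  by_contra hcon
  push Not at hcon
  obtain ⟨w, hw⟩ : ∃ w : Fin 2 → k, ∀ x ∈ O, ∃ c : k, γ x - lam (p x) = c • w := by
    by_cases hall : ∀ x ∈ O, γ x - lam (p x) = 0
    · exact ⟨0, fun x hx => ⟨0, by rw [hall x hx, smul_zero]⟩⟩
    · push Not at hall
      obtain ⟨x1, hx1, hne⟩ := hall
      exact ⟨_, fun x hx => exists_smul_of_d2 hne (hcon x1 hx1 x hx)⟩
  have hfd := h.loc.fd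
  obtain ⟨y, hy⟩ := h.loc.att.exists
  have h1 := finrank_le_inf_ker M (dl w ∘ₗ g.flip y)
  have h2 : M ⊓ LinearMap.ker (dl w ∘ₗ g.flip y) ≤ M ⊓ Att p (O : Set V) y := by
    rintro Z ⟨hZ, hZ'⟩
    have hZ2 : w ⬝ᵥ g Z y = 0 := hZ'
    refine ⟨hZ, ?_⟩
    obtain ⟨n, hn⟩ := exists_dot (dl (g Z y) ∘ₗ lam)
    have hn' : ∀ u, n ⬝ᵥ u = g Z y ⬝ᵥ lam u := hn
    refine ⟨BB Z y - n, ?_, fun x hx => ?_⟩
    · have h3 := h.quad Z hZ y y
      rw [Qc_apply] at h3
      rw [sub_dotProduct, hn', dotProduct_comm (g Z y)]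
      have h4 : (2 : k) * (BB Z y ⬝ᵥ y - lam y ⬝ᵥ g Z y) = 0 := by linear_combination h3
      exact (mul_eq_zero.mp h4).resolve_left h.loc.two
    · have hx' : x ∈ O := by simpa using hx
      obtain ⟨c, hc⟩ := hw x hx'
      have h3 := h.rel Z hZ x hx' y
      rw [Rc_apply] at h3
      rw [sub_dotProduct, hn', dotProduct_comm (g Z y)]
      have h4 : (γ x - lam (p x)) ⬝ᵥ g Z y = 0 := by
        rw [hc, smul_dotProduct, hZ2, smul_zero]
      rw [sub_dotProduct] at h4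
      linear_combination h3 + h4
  have hfd2 : FiniteDimensional k (M ⊓ Att p (O : Set V) y : Submodule k (V → Vec k)) :=
    Submodule.finiteDimensional_of_le inf_le_left
  have h3 := Submodule.finrank_mono h2
  have h4 := h.loc.dim
  omega

/-- `lam` has rank two -/
lemma lam_rank : ∃ y y', d2 (lam y) (lam y') ≠ 0 := by
  by_contra hcon
  push Not at hcon
  obtain ⟨t1, ht1, t2, ht2, h12, hl1, hl2⟩ := h.exists_two_T
  have hfd := h.loc.fd
  set w := lam (p t1) with hw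
  obtain ⟨w', hw'⟩ := exists_d2 hl1
  have hpar : ∀ y, ∃ c : k, lam y = c • w := fun y => exists_smul_of_d2 hl1 (hcon _ _)
  have ht2' : t2 ∈ T.erase t1 := Finset.mem_erase.mpr ⟨h12.symm, ht2⟩
  have hfr := finrank_Cs M (fun t => dl w ∘ₗ g.flip (p t)) ((T.erase t1).erase t2)
  rw [Finset.card_erase_of_mem ht2', Finset.card_erase_of_mem ht1, h.loc.hT, h.loc.dim] at hfr
  set N := Cs M (fun t => dl w ∘ₗ g.flip (p t)) ((T.erase t1).erase t2) with hN
  have hwt : ∀ Z ∈ M, ∀ t ∈ T, lam (p t) ≠ 0 → w ⬝ᵥ g Z (p t) = 0 := by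
    intro Z hZ t ht hlt
    obtain ⟨c, hc⟩ := hpar (p t)
    have h1 := h.lamT hZ ht
    rw [hc, smul_dotProduct, smul_eq_mul] at h1
    refine (mul_eq_zero.mp h1).resolve_left ?_
    rintro rfl
    exact hlt (by rw [hc, zero_smul])
  have hNw : ∀ Z ∈ N, ∀ u, w ⬝ᵥ g Z u = 0 := by
    rintro Z ⟨hZ, hZ'⟩ u
    refine eq_zero_of_card_four (S := T) (by rw [h.loc.hT]) h.loc.gpT (f := dl w ∘ₗ g Z)
      (fun t ht => ?_) u
    by_cases h1 : t = t1
    · rw [h1]; exact hwt Z hZ t1 ht1 hl1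
    · by_cases h2 : t = t2
      · rw [h2]; exact hwt Z hZ t2 ht2 hl2
      · exact hZ' t (Finset.mem_erase.mpr ⟨h2, Finset.mem_erase.mpr ⟨h1, ht⟩⟩)
  obtain ⟨y, hy⟩ := h.loc.eventually_triv.exists
  have hfdN : FiniteDimensional k N := Submodule.finiteDimensional_of_le fun Z hZ => hZ.1
  have hfr2 := finrank_le_inf_ker N (dl w' ∘ₗ g.flip y)
  have h5 := hy (N ⊓ LinearMap.ker (dl w' ∘ₗ g.flip y)) (fun Z hZ => hZ.1.1) (by
    rintro Z ⟨hZ, hZ'⟩
    have hZ2 : w' ⬝ᵥ g Z y = 0 := hZ'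
    refine ⟨fun u => ?_, fun x hx => ?_⟩
    · obtain ⟨c, hc⟩ := hpar u
      rw [h.quad Z hZ.1, hc, smul_dotProduct, hNw Z hZ]
      simp
    · rw [h.rel Z hZ.1 x hx, eq_zero_of_d2 hw' (hNw Z hZ y) hZ2, dotProduct_zero])
  omega

/-- `lam` is not parallel to a nonzero vector -/
lemma lam_ne {v : Fin 2 → k} (hv : v ≠ 0) : ∃ y, d2 (lam y) v ≠ 0 := by
  by_contra hcon
  push Not at hcon
  obtain ⟨y, y', hy⟩ := h.lam_rank
  have h1 : ∀ u, ∃ c : k, lam u = c • v := fun u => exists_smul_of_d2 hv (by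
    rw [d2_swap, hcon, neg_zero])
  obtain ⟨c, hc⟩ := h1 y
  obtain ⟨c', hc'⟩ := h1 y'
  apply hy
  rw [hc, hc', d2_smul, d2_self, mul_zero]

/-- **Overlap**: at a point of `T ∩ O` the form `g` vanishes -/
lemma g_overlap {x : V} (hxT : x ∈ T) (hxO : x ∈ O) {Z : V → Vec k} (hZ : Z ∈ M) :
    g Z (p x) = 0 := by
  have hid : ∀ Z ∈ M, ∀ q, (γ x - lam (p x)) ⬝ᵥ g Z q = lam q ⬝ᵥ g Z (p x) := by
    intro Z hZ q
    have h1 := h.rel Z hZ x hxO q
    rw [h.loc.R_TO hxT, h.quad Z hZ] at h1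
    rw [sub_dotProduct]
    linear_combination -h1
  by_cases hw : γ x - lam (p x) = 0
  · obtain ⟨y, y', hy⟩ := h.lam_rank
    refine eq_zero_of_d2 hy ?_ ?_
    · rw [← hid Z hZ, hw, zero_dotProduct]
    · rw [← hid Z hZ, hw, zero_dotProduct]
  · have hK : ∀ᶠ y in gen k (Vec k), ∀ Z ∈ M, g Z y = 0 → g Z (p x) = 0 := by
      filter_upwards [eventually_d2 (h.lam_ne hw)] with y hy Z hZ h0
      refine eq_zero_of_d2 hy ?_ (h.wO hZ hxO)
      rw [← hid Z hZ, h0, dotProduct_zero]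
    obtain ⟨y, hy, hy'⟩ := (hK.and h.sur).exists
    obtain ⟨q, hq, hq'⟩ := (hK.and hy').exists
    obtain ⟨Z1, hZ1, h1, h2⟩ := hq' 0 (g Z q)
    have h3 := hy Z1 hZ1 h1
    have h4 := hq (Z - Z1) (M.sub_mem hZ hZ1) (by rw [map_sub, LinearMap.sub_apply, h2, sub_self])
    rw [map_sub, LinearMap.sub_apply, h3, sub_zero] at h4
    exact h4

/-- a vector `w` with `w · g = 0` everywhere is zero -/
lemma eq_zero_of_dot {w : Fin 2 → k} (hw : ∀ Z ∈ M, ∀ q, w ⬝ᵥ g Z q = 0) : w = 0 := by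
  obtain ⟨y, hy⟩ := h.surj.exists
  ext i
  obtain ⟨Z, hZ, h1⟩ := hy (Pi.single i 1)
  have h2 := hw Z hZ y
  rw [h1] at h2
  simpa using h2

lemma w_overlap {x : V} (hxT : x ∈ T) (hxO : x ∈ O) : γ x - lam (p x) = 0 := by
  refine h.eq_zero_of_dot fun Z hZ q => ?_
  have h1 := h.rel Z hZ x hxO q
  rw [h.loc.R_TO hxT, h.quad Z hZ, h.g_overlap hxT hxO hZ, dotProduct_zero, add_zero] at h1
  rw [sub_dotProduct]
  linear_combination -h1

/-- the basic count: four distinct points of `T ∪ O` with one condition each -/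
lemma count4 {S : Finset V} (hS : S ⊆ T ∪ O) (hS4 : S.card = 4) {v : V → Fin 2 → k}
    (hv : ∀ s ∈ S, v s ≠ 0) (hvg : ∀ Z ∈ M, ∀ s ∈ S, v s ⬝ᵥ g Z (p s) = 0) {s0 : V}
    (hs0 : s0 ∈ S) : ∃ Z ∈ M, (∀ s ∈ S, s ≠ s0 → g Z (p s) = 0) ∧ g Z (p s0) ≠ 0 := by
  have hfd := h.loc.fd
  have hu : ∀ s : V, ∃ u : Fin 2 → k, s ∈ S → d2 (v s) u ≠ 0 := by
    intro s
    by_cases hs : s ∈ S
    · obtain ⟨u, hu⟩ := exists_d2 (hv s hs)
      exact ⟨u, fun _ => hu⟩
    · exact ⟨0, fun hc => absurd hc hs⟩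
  choose u hu using hu
  by_contra hcon
  push Not at hcon
  have hfr := finrank_Cs M (fun s => dl (u s) ∘ₗ g.flip (p s)) (S.erase s0)
  rw [Finset.card_erase_of_mem hs0, hS4, h.loc.dim] at hfr
  have h0 : ∀ Z ∈ Cs M (fun s => dl (u s) ∘ₗ g.flip (p s)) (S.erase s0), ∀ s ∈ S, s ≠ s0 →
      g Z (p s) = 0 := by
    rintro Z ⟨hZ, hZ'⟩ s hs hne
    exact eq_zero_of_d2 (hu s hs) (hvg Z hZ s hs) (hZ' s (Finset.mem_erase.mpr ⟨hne, hs⟩))
  have h5 := h.triv (N := Cs M (fun s => dl (u s) ∘ₗ g.flip (p s)) (S.erase s0))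
    (fun Z hZ => hZ.1) (fun Z hZ q => by
      refine eq_zero_of_card_four (S := S) (by rw [hS4]) (h.loc.gp.mono (by exact_mod_cast hS))
        (f := g Z) (fun s hs => ?_) q
      by_cases hss : s = s0
      · rw [hss]; exact hcon Z hZ.1 (h0 Z hZ)
      · exact h0 Z hZ s hs hss)
  omega

/-- **`T` and `O` are disjoint** -/
lemma disjoint : ∀ x ∈ T, x ∉ O := by
  intro x0 hx0 hx0'
  have hfd := h.loc.fd
  obtain ⟨t1, ht1, ht10, hl1⟩ := h.exists_T_ne x0
  obtain ⟨x1, hx1, x2, hx2, hd⟩ := h.exists_two_O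
  have hw1 : γ x1 - lam (p x1) ≠ 0 := by
    intro h0; apply hd; rw [h0]; simp [d2]
  have hw2 : γ x2 - lam (p x2) ≠ 0 := by
    intro h0; apply hd; rw [h0]; simp [d2]
  have hx12 : x1 ≠ x2 := by
    rintro rfl; exact hd (d2_self _)
  have hx1T : x1 ∉ T := fun hc => hw1 (h.w_overlap hc hx1)
  have hx2T : x2 ∉ T := fun hc => hw2 (h.w_overlap hc hx2)
  have h11 : t1 ≠ x1 := fun hc => hx1T (hc ▸ ht1)
  have h12 : t1 ≠ x2 := fun hc => hx2T (hc ▸ ht1)
  have h01 : x0 ≠ x1 := fun hc => hx1T (hc ▸ hx0)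
  have h02 : x0 ≠ x2 := fun hc => hx2T (hc ▸ hx0)
  obtain ⟨v0, hv0⟩ : ∃ v : Fin 2 → k, v ≠ 0 := ⟨_, hw1⟩
  have hS4 : ({x0, t1, x1, x2} : Finset V).card = 4 := by
    rw [Finset.card_insert_of_notMem (by simp [ht10.symm, h01, h02]),
      Finset.card_insert_of_notMem (by simp [h11, h12]), Finset.card_pair hx12]
  obtain ⟨Z, hZ, -, h3⟩ := h.count4 (S := {x0, t1, x1, x2}) (by
      intro s hs
      simp only [Finset.mem_insert, Finset.mem_singleton] at hs
      rcases hs with rfl | rfl | rfl | rfl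
      · exact Finset.mem_union_left _ hx0
      · exact Finset.mem_union_left _ ht1
      · exact Finset.mem_union_right _ hx1
      · exact Finset.mem_union_right _ hx2) hS4
    (v := fun s => if s = x0 then v0 else if s = t1 then lam (p t1) else γ s - lam (p s)) (by
      intro s hs
      simp only [Finset.mem_insert, Finset.mem_singleton] at hs
      rcases hs with rfl | rfl | rfl | rfl
      · simpa using hv0
      · simpa [ht10] using hl1
      · simpa [h01.symm, h11.symm] using hw1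
      · simpa [h02.symm, h12.symm] using hw2) (by
      intro Z hZ s hs
      simp only [Finset.mem_insert, Finset.mem_singleton] at hs
      rcases hs with rfl | rfl | rfl | rfl
      · rw [h.g_overlap hx0 hx0' hZ, dotProduct_zero]
      · simpa [ht10] using h.lamT hZ ht1
      · simpa [h01.symm, h11.symm] using h.wO hZ hx1
      · simpa [h02.symm, h12.symm] using h.wO hZ hx2) (s0 := x0) (by simp)
  exact h3 (h.g_overlap hx0 hx0' hZ)

/-- all other points of `O` are good -/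
lemma good {x1 x2 x3 : V} (hx1 : x1 ∈ O) (hx2 : x2 ∈ O) (hx3 : x3 ∈ O)
    (hd : d2 (γ x1 - lam (p x1)) (γ x2 - lam (p x2)) ≠ 0) (h31 : x3 ≠ x1) (h32 : x3 ≠ x2) :
    γ x3 - lam (p x3) = 0 := by
  by_contra hw3
  obtain ⟨t1, ht1, t2, ht2, ht12, hl1, hl2⟩ := h.exists_two_T
  have hw1 : γ x1 - lam (p x1) ≠ 0 := by
    intro h0; apply hd; rw [h0]; simp [d2]
  have hw2 : γ x2 - lam (p x2) ≠ 0 := by
    intro h0; apply hd; rw [h0]; simp [d2]
  have hx12 : x1 ≠ x2 := by
    rintro rfl; exact hd (d2_self _)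
  have hne : ∀ t ∈ T, ∀ x ∈ O, t ≠ x := fun t ht x hx hc => h.disjoint t ht (hc ▸ hx)
  have h11 := hne t1 ht1 x1 hx1
  have h12 := hne t1 ht1 x2 hx2
  have h13 := hne t1 ht1 x3 hx3
  have h21 := hne t2 ht2 x1 hx1
  have h22 := hne t2 ht2 x2 hx2
  have h23 := hne t2 ht2 x3 hx3
  set S : Finset V := {t1, t2, x1, x2} with hS
  have hS4 : S.card = 4 := by
    rw [hS, Finset.card_insert_of_notMem (by simp [ht12, h11, h12]),
      Finset.card_insert_of_notMem (by simp [h21, h22]), Finset.card_pair hx12]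
  have hSsub : S ⊆ T ∪ O := by
    intro s hs
    simp only [hS, Finset.mem_insert, Finset.mem_singleton] at hs
    rcases hs with rfl | rfl | rfl | rfl
    · exact Finset.mem_union_left _ ht1
    · exact Finset.mem_union_left _ ht2
    · exact Finset.mem_union_right _ hx1
    · exact Finset.mem_union_right _ hx2
  have hx3S : x3 ∉ S := by
    simp [hS, h13.symm, h23.symm, h31, h32]
  -- the coordinates of `p x3`
  have hgpS : GenPos p (S : Set V) := h.loc.gp.mono (by exact_mod_cast hSsub)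
  obtain ⟨a, ha⟩ := hgpS.spans (by rw [hS4]) (p x3)
  have hgp5 : GenPos p ((insert x3 S : Finset V) : Set V) := h.loc.gp.mono (by
    exact_mod_cast Finset.insert_subset (Finset.mem_union_right _ hx3) hSsub)
  have hane : ∀ s ∈ S, a s ≠ 0 := by
    intro s hs h0
    have hxs : x3 ∉ S.erase s := fun hc => hx3S (Finset.mem_of_mem_erase hc)
    have h1 := hgp5.eq_zero (T := insert x3 (S.erase s)) (g := fun v => if v = x3 then -1 else a v)
      (by exact_mod_cast Finset.insert_subset_insert x3 (Finset.erase_subset s S))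
      (by rw [Finset.card_insert_of_notMem hxs, Finset.card_erase_of_mem hs, hS4]) (by
        rw [Finset.sum_insert hxs]
        have h2 : ∑ v ∈ S.erase s, (if v = x3 then (-1 : k) else a v) • p v
            = ∑ v ∈ S.erase s, a v • p v :=
          Finset.sum_congr rfl fun v hv => by
            rw [if_neg (by rintro rfl; exact hxs hv)]
        rw [h2, if_pos rfl]
        have h3 := Finset.add_sum_erase S (fun v => a v • p v) hs
        rw [h0, zero_smul, zero_add] at h3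
        rw [h3, ha]
        module) x3 (by simp)
    simp at h1
  let v : V → Fin 2 → k := fun s => if s ∈ T then lam (p s) else γ s - lam (p s)
  have hvx : ∀ x ∈ O, v x = γ x - lam (p x) := fun x hx => if_neg fun hc => h.disjoint x hc hx
  have hvt : ∀ t ∈ T, v t = lam (p t) := fun t ht => if_pos ht
  have hv : ∀ s ∈ S, v s ≠ 0 := by
    intro s hs
    simp only [hS, Finset.mem_insert, Finset.mem_singleton] at hs
    rcases hs with rfl | rfl | rfl | rfl
    · rw [hvt _ ht1]; exact hl1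
    · rw [hvt _ ht2]; exact hl2
    · rw [hvx _ hx1]; exact hw1
    · rw [hvx _ hx2]; exact hw2
  have hvg : ∀ Z ∈ M, ∀ s ∈ S, v s ⬝ᵥ g Z (p s) = 0 := by
    intro Z hZ s hs
    rcases Finset.mem_union.mp (hSsub hs) with h1 | h1
    · rw [hvt s h1]; exact h.lamT hZ h1
    · rw [hvx s h1]; exact h.wO hZ h1
  have key : ∀ x ∈ O, x ∈ S → d2 (γ x3 - lam (p x3)) (γ x - lam (p x)) = 0 := by
    intro x hx hxS
    obtain ⟨Z, hZ, h1, h2⟩ := h.count4 hSsub hS4 hv hvg hxS
    have h3 : g Z (p x3) = a x • g Z (p x) := by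
      rw [← ha, map_sum, ← Finset.add_sum_erase S _ hxS, map_smul]
      have h4 : ∑ s ∈ S.erase x, g Z (a s • p s) = 0 := Finset.sum_eq_zero fun s hs => by
        obtain ⟨h5, h6⟩ := Finset.mem_erase.mp hs
        rw [map_smul, h1 s h6 h5, smul_zero]
      rw [h4, add_zero]
    have h4 := h.wO hZ hx3
    rw [h3, dotProduct_smul, smul_eq_mul] at h4
    exact d2_eq_zero_of h2 ((mul_eq_zero.mp h4).resolve_left (hane x hxS)) (h.wO hZ hx)
  obtain ⟨c1, hc1⟩ := exists_smul_of_d2 hw3 (key x1 hx1 (by simp [hS]))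
  obtain ⟨c2, hc2⟩ := exists_smul_of_d2 hw3 (key x2 hx2 (by simp [hS]))
  apply hd
  rw [hc1, hc2, d2_smul, d2_self, mul_zero]

/-- **Constant image is impossible.** -/
theorem false : False := by
  have hfd := h.loc.fd
  obtain ⟨x1, hx1, x2, hx2, hd⟩ := h.exists_two_O
  have hx12 : x1 ≠ x2 := by
    rintro rfl; exact hd (d2_self _)
  obtain ⟨t1, ht1, -, hl1⟩ := h.exists_T_ne x1
  -- a good point with `lam ≠ 0`
  have hx2' : x2 ∈ O.erase x1 := Finset.mem_erase.mpr ⟨hx12.symm, hx2⟩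
  obtain ⟨x, hx, hlx⟩ : ∃ x ∈ (O.erase x1).erase x2, lam (p x) ≠ 0 := by
    by_contra hcon
    push Not at hcon
    have ht1n : t1 ∉ (O.erase x1).erase x2 := fun hc =>
      h.disjoint t1 ht1 (Finset.mem_of_mem_erase (Finset.mem_of_mem_erase hc))
    have hc4 : (insert t1 ((O.erase x1).erase x2)).card = 4 := by
      rw [Finset.card_insert_of_notMem ht1n, Finset.card_erase_of_mem hx2',
        Finset.card_erase_of_mem hx1, h.loc.hO]
    have hsub : insert t1 ((O.erase x1).erase x2) ⊆ T ∪ O :=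
      Finset.insert_subset (Finset.mem_union_left _ ht1)
        (((Finset.erase_subset _ _).trans (Finset.erase_subset _ _)).trans
          Finset.subset_union_right)
    have hsp := (h.loc.gp.mono (N' := ((insert t1 ((O.erase x1).erase x2) : Finset V) : Set V))
      (by exact_mod_cast hsub)).spans (by rw [hc4])
    have hpar : ∀ u, ∃ c : k, lam u = c • lam (p t1) := by
      intro u
      obtain ⟨c, rfl⟩ := hsp u
      refine ⟨c t1, ?_⟩
      rw [map_sum, Finset.sum_insert ht1n, map_smul]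
      have : ∑ x ∈ (O.erase x1).erase x2, lam (c x • p x) = 0 :=
        Finset.sum_eq_zero fun x hx => by rw [map_smul, hcon x hx, smul_zero]
      rw [this, add_zero]
    obtain ⟨y, y', hy⟩ := h.lam_rank
    obtain ⟨c, hc⟩ := hpar y
    obtain ⟨c', hc'⟩ := hpar y'
    apply hy
    rw [hc, hc', d2_smul, d2_self, mul_zero]
  obtain ⟨hxx2, hx'⟩ := Finset.mem_erase.mp hx
  obtain ⟨hxx1, hxO⟩ := Finset.mem_erase.mp hx'
  have hwx := h.good hx1 hx2 hxO hd hxx1 hxx2
  have hxT : x ∉ T := fun hc => h.disjoint x hc hxO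
  -- the space `M'`
  set M' := M ⊓ LinearMap.ker (eps p x x1) ⊓ LinearMap.ker (eps p x x2) with hM'
  have hM'M : M' ≤ M := inf_le_left.trans inf_le_left
  have heps : ∀ Z ∈ M, ∀ z ∈ O, eps p x z Z = (γ z - lam (p z)) ⬝ᵥ g Z (p x) := by
    intro Z hZ z hz
    rw [h.loc.eps_O, h.rel Z hZ x hxO, h.rel Z hZ z hz, h.quad Z hZ]
    have h1 : (γ x - lam (p x)) ⬝ᵥ g Z (p z) = 0 := by rw [hwx, zero_dotProduct]
    rw [sub_dotProduct] at h1 ⊢
    linear_combination h1
  have hg0 : ∀ Z ∈ M', g Z (p x) = 0 := by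
    rintro Z ⟨⟨hZ, h1⟩, h2⟩
    have h1' : eps p x x1 Z = 0 := h1
    have h2' : eps p x x2 Z = 0 := h2
    rw [heps Z hZ x1 hx1] at h1'
    rw [heps Z hZ x2 hx2] at h2'
    exact eq_zero_of_d2 hd h1' h2'
  have hBx : ∀ Z ∈ M', ∀ i ∈ insert x T, Z i = BB Z (p i) := by
    intro Z hZ i hi
    rcases Finset.mem_insert.mp hi with rfl | hi
    · refine sub_eq_zero.mp (dotProduct_eq_zero _ fun q => ?_)
      have h1 := h.rel Z (hM'M hZ) i hxO q
      have h2 := h.quad Z (hM'M hZ) (p i) q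
      rw [hg0 Z hZ, dotProduct_zero, add_zero] at h2
      rw [Rc_apply] at h1
      rw [Qc_apply] at h2
      have h3 : (γ i - lam (p i)) ⬝ᵥ g Z q = 0 := by rw [hwx, zero_dotProduct]
      rw [sub_dotProduct] at h3 ⊢
      linear_combination h1 - h2 + h3
    · exact (h.loc.hBB Z i hi).symm
  have hTA : M' ≤ TA p ((insert x T : Finset V) : Set V) := fun Z hZ =>
    ⟨BB Z, fun i hi => hBx Z hZ i (by exact_mod_cast hi)⟩
  have hfdM' : FiniteDimensional k M' := Submodule.finiteDimensional_of_le hM'M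
  have hdim : 8 ≤ finrank k M' := by
    have h1 := finrank_le_inf_ker M (eps p x x1)
    have : FiniteDimensional k (M ⊓ LinearMap.ker (eps p x x1) : Submodule k (V → Vec k)) :=
      Submodule.finiteDimensional_of_le inf_le_left
    have h2 := finrank_le_inf_ker (M ⊓ LinearMap.ker (eps p x x1)) (eps p x x2)
    have h3 := h.loc.dim
    rw [← hM'] at h2
    omega
  have hskew : ∀ N ≤ M', (∀ Z ∈ N, IsSkew (BB Z)) → finrank k N ≤ 6 := by
    intro N hN hs
    refine h.triv (hN.trans hM'M) fun Z hZ u => ?_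
    have hZM := hM'M (hN hZ)
    have hQ : ∀ y q, lam y ⬝ᵥ g Z q + lam q ⬝ᵥ g Z y = 0 := by
      intro y q
      rw [← h.quad Z hZM, Qc_apply, (hs Z hZ).swap]
      ring
    have h1 : ∀ q, lam (p x) ⬝ᵥ g Z q = 0 := by
      intro q
      have := hQ (p x) q
      rwa [hg0 Z (hN hZ), dotProduct_zero, add_zero] at this
    have h2 : ∀ y, lam y ⬝ᵥ g Z y = 0 := by
      intro y
      have h3 : (2 : k) * (lam y ⬝ᵥ g Z y) = 0 := by linear_combination hQ y y
      exact (mul_eq_zero.mp h3).resolve_left h.loc.two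
    refine mem_of_eventually (P := LinearMap.ker (g Z)) ?_ u
    filter_upwards [eventually_d2 (h.lam_ne hlx)] with y hy
    exact LinearMap.mem_ker.mpr (eq_zero_of_d2 hy (h2 y) (h1 y))
  have hRG : ∀ S ⊆ insert x T, 4 ≤ S.card → ∀ Z ∈ M', Z ∈ RG p (S : Set V) → IsSkew (BB Z) := by
    intro S hS hS4 Z hZ hZR
    obtain ⟨Sk, hSk, h1⟩ := hZR
    have hgpS : GenPos p (S : Set V) := h.loc.gp.mono (by
      refine (Finset.coe_subset.mpr hS).trans ?_
      exact_mod_cast Finset.insert_subset (Finset.mem_union_right _ hxO)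
        Finset.subset_union_left)
    have h2 : BB Z = Sk := ext_of_spans (hgpS.spans hS4) fun i hi => by
      rw [← h1 i (by exact_mod_cast hi), hBx Z hZ i (hS hi)]
    rw [h2]
    exact hSk
  rcases h.loc.fr x hxO hxT x1 hx1 x2 hx2 hTA with h5 | ⟨i, hi, h5⟩
  · rw [← hM'] at h5
    have h6 := hskew (M' ⊓ RG p ((insert x T : Finset V) : Set V)) inf_le_left fun Z hZ =>
      hRG (insert x T) subset_rfl (by
        rw [Finset.card_insert_of_notMem hxT, h.loc.hT]; norm_num) Z hZ.1 hZ.2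
    omega
  · rw [← hM'] at h5
    have h6 := hskew M' le_rfl fun Z hZ =>
      hRG ((insert x T).erase i) (Finset.erase_subset _ _) (by
        rw [Finset.card_erase_of_mem hi, Finset.card_insert_of_notMem hxT, h.loc.hT]) Z hZ
        (h5 hZ)
    omega

end CI

/-- **The classification at a fixed position.** -/
theorem SixLoc.main [Infinite k] [DecidableEq V] {p : V → Vec k} {M : Submodule k (V → Vec k)}
    {T O : Finset V} {BB : (V → Vec k) →ₗ[k] (Vec k →ₗ[k] Vec k)} (h : SixLoc p M T O BB) :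
    SixCon p M T O := by
  have hfd := h.fd
  have hgf := eventually_finrank_eq M (polyFam_Ra (Rc BB p) O)
  have hKfd : ∀ y, FiniteDimensional k (Ky M (Rc BB p) O y) := fun y =>
    Submodule.finiteDimensional_of_le (Ky_le _ _ _ _)
  have hge : 8 ≤ gfin M (fun y => Ra (Rc BB p) O y) := by
    obtain ⟨y, h1, h2, h3⟩ := (hgf.and (h.att.and h.eventually_att)).exists
    have h4 : (M ⊓ Att p (O : Set V) y : Submodule k (V → Vec k)) ≤ Ky M (Rc BB p) O y :=
      fun Z hZ => (h3 Z hZ).1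
    have h5 := Submodule.finrank_mono h4
    have h6 : finrank k (Ky M (Rc BB p) O y) = gfin M (fun y => Ra (Rc BB p) O y) := h1
    omega
  by_cases h9 : 9 ≤ gfin M (fun y => Ra (Rc BB p) O y)
  · have h1 : ∀ᶠ y in gen k (Vec k), finrank k M ≤ finrank k (Ky M (Rc BB p) O y) + 1 := by
      filter_upwards [hgf] with y hy
      have h6 : finrank k (Ky M (Rc BB p) O y) = gfin M (fun y => Ra (Rc BB p) O y) := hy
      have := h.dim
      omega
    rcases rank_one_cases h1 with ⟨x0, hx0, c, hc, Z1, hZ1, Z2, hZ2, h12, e, he⟩ |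
      ⟨S, hSM, hS, hS0⟩
    · exact h.one_zero hx0 hc ⟨Z1, hZ1, e, he⟩
    · have h3 := h.finrank_S_le hSM hS0
      have := h.dim
      omega
  · exfalso
    have h8 : ∀ᶠ y in gen k (Vec k), finrank k (Ky M (Rc BB p) O y) = 8 := by
      filter_upwards [hgf] with y hy
      have h6 : finrank k (Ky M (Rc BB p) O y) = gfin M (fun y => Ra (Rc BB p) O y) := hy
      omega
    have hC : ∀ᶠ y in gen k (Vec k), M ⊓ Att p (O : Set V) y = Ky M (Rc BB p) O y := by
      filter_upwards [h8, h.att, h.eventually_att] with y h1 h2 h3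
      refine Submodule.eq_of_le_of_finrank_le (fun Z hZ => (h3 Z hZ).1) (by omega)
    have hS : ∀ N ≤ M, (∀ Z ∈ N, ∀ x ∈ O, ∀ y, Rc BB p x Z y = 0) → finrank k N ≤ 6 := by
      intro N hN hN0
      refine h.triv hN (fun Z hZ u => ?_) hN0
      refine (polyLine_bilin (Qc BB Z)).eq_zero_of_eventually ?_ u
      filter_upwards [hC, h.eventually_att] with y e1 e2
      refine (e2 Z ?_).2
      rw [e1]
      exact mem_Ky.mpr ⟨hN hZ, fun x hx => hN0 Z hZ x hx y⟩
    rcases pair_cases h8 hS with hp | ⟨H, hHM, hH, hle⟩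
    · obtain ⟨g, γ, hg1, hg2⟩ := const_image h.dim h8 hp
      have hKg : ∀ Z ∈ M, ∀ y, g Z y = 0 → Z ∈ Ky M (Rc BB p) O y := fun Z hZ y h0 =>
        mem_Ky.mpr ⟨hZ, fun x hx => by rw [hg1 Z hZ x hx, h0, dotProduct_zero]⟩
      have hsur : ∀ᶠ y in gen k (Vec k), ∀ᶠ q in gen k (Vec k),
          ∀ a b : Fin 2 → k, ∃ Z ∈ M, g Z y = a ∧ g Z q = b := by
        filter_upwards [hp] with y hy
        filter_upwards [hy] with q hq a b
        let F : M →ₗ[k] (Fin 2 → k) × (Fin 2 → k) :=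
          ((g.flip y).prod (g.flip q)).domRestrict M
        have h1 := LinearMap.finrank_range_add_finrank_ker F
        have h2 : finrank k (LinearMap.ker F) ≤ 6 := by
          have h3 : (LinearMap.ker F).map M.subtype
              ≤ Ky M (Rc BB p) O y ⊓ Ky M (Rc BB p) O q := by
            rintro _ ⟨Z, hZ, rfl⟩
            have h4 : F Z = 0 := LinearMap.mem_ker.mp hZ
            exact ⟨hKg Z Z.2 y (congrArg Prod.fst h4), hKg Z Z.2 q (congrArg Prod.snd h4)⟩
          have hfd2 : FiniteDimensional k (Ky M (Rc BB p) O y ⊓ Ky M (Rc BB p) O q :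
            Submodule k (V → Vec k)) := Submodule.finiteDimensional_of_le inf_le_left
          have h4 := Submodule.finrank_mono h3
          rw [Submodule.finrank_map_subtype_eq] at h4
          omega
        have h3 : LinearMap.range F = ⊤ := by
          refine Submodule.eq_top_of_finrank_eq (le_antisymm (Submodule.finrank_le _) ?_)
          rw [Module.finrank_prod, Module.finrank_fin_fun]
          have := h.dim
          omega
        obtain ⟨Z, hZ⟩ := LinearMap.range_eq_top.mp h3 (a, b)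
        exact ⟨Z, Z.2, congrArg Prod.fst hZ, congrArg Prod.snd hZ⟩
      have hQ : ∀ᶠ y in gen k (Vec k), ∀ Z ∈ M, g Z y = 0 → Qc BB Z y y = 0 := by
        filter_upwards [hC, h.eventually_att] with y e1 e2 Z hZ h0
        exact (e2 Z (by rw [e1]; exact hKg Z hZ y h0)).2
      obtain ⟨lam, hlam⟩ := lam_exists h.two (fun Z x y => Qc_symm BB Z x y) hsur hQ
      exact CI.false ⟨h, hg1, hsur, hlam⟩
    · exact h.not_hyperplane hC hHM hH hle

end S6

end GR
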