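import Pool.Agent.Lib.GR.KmGood
import Pool.Agent.Lib.GR.CountIn

/-!
# Proper `K₅`-sequences and the rank formula at `p`
-/

set_option linter.unusedSectionVars false
set_option linter.style.haveILetI false

namespace GR

open Filter Module

open scoped Matrix

variable {k : Type*} [Field k] {V : Type*} [DecidableEq V]

/-- the union of the edge sets of a list of vertex sets -/
def edgesOf (L : List (Finset V)) : Finset (Sym2 V) :=
  L.foldr (fun C U => Kf C ∪ U) ∅

@[simp] lemma edgesOf_nil : edgesOf ([] : List (Finset V)) = ∅ := rfl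

@[simp] lemma edgesOf_cons (C : Finset V) (L : List (Finset V)) :
    edgesOf (C :: L) = Kf C ∪ edgesOf L := rfl

/-- A proper `K₅`-sequence (latest member first): five-element sets of vertices, each spanning an
edge which is not spanned by an earlier one. -/
def ProperSeq : List (Finset V) → Prop
  | [] => True
  | C :: L => C.card = 5 ∧ ¬ (Kf C ⊆ edgesOf L) ∧ ProperSeq L

@[simp] lemma properSeq_nil : ProperSeq ([] : List (Finset V)) := trivial

@[simp] lemma properSeq_cons (C : Finset V) (L : List (Finset V)) :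
    ProperSeq (C :: L) ↔ C.card = 5 ∧ ¬ (Kf C ⊆ edgesOf L) ∧ ProperSeq L := Iff.rfl

/-- the easy inequality: every proper `K₅`-sequence bounds the rank -/
theorem rk_add_length_le {p : V → Vec k} {A : Finset V} (hp : GenPos p (A : Set V))
    (L : List (Finset V)) (hL : ProperSeq L) (hLA : ∀ C ∈ L, C ⊆ A) (E : Finset (Sym2 V)) :
    rk ((E ∪ edgesOf L : Finset (Sym2 V)) : Set (Sym2 V)) p + L.length
      ≤ (E ∪ edgesOf L).card := by
  induction L generalizing E with
  | nil =>
    simpa using rk_le_card E p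
  | cons C L ih =>
    obtain ⟨h5, hnew, hL'⟩ := hL
    obtain ⟨f, hfC, hfL⟩ := Finset.not_subset.mp hnew
    set X := E ∪ edgesOf (C :: L) with hX
    have hfX : f ∈ X := by
      rw [hX, edgesOf_cons]
      exact Finset.mem_union_right _ (Finset.mem_union_left _ hfC)
    have hLX : edgesOf L ⊆ X.erase f := by
      intro e he
      rw [Finset.mem_erase]
      refine ⟨fun h => hfL (h ▸ he), ?_⟩
      rw [hX, edgesOf_cons]
      exact Finset.mem_union_right _ (Finset.mem_union_right _ he)
    have h1 := ih hL' (fun C' hC' => hLA C' (List.mem_cons_of_mem _ hC')) (X.erase f)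
    rw [Finset.union_eq_left.mpr hLX, Finset.card_erase_of_mem hfX] at h1
    have h2 : f ∈ clo ((X.erase f : Finset (Sym2 V)) : Set (Sym2 V)) p := by
      refine clo_mono ?_ p (K5_clo (hp.mono (by exact_mod_cast hLA C (by simp))) h5 hfC)
      intro e he
      rw [Finset.mem_coe, Finset.mem_erase] at he ⊢
      refine ⟨he.1, ?_⟩
      rw [hX, edgesOf_cons]
      exact Finset.mem_union_right _ (Finset.mem_union_left _ he.2)
    have h3 := rk_insert_of_mem_clo (X.erase f) f p h2
    rw [Finset.insert_erase hfX] at h3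
    have h4 : 0 < X.card := Finset.card_pos.mpr ⟨f, hfX⟩
    rw [List.length_cons]
    omega

/-- a family satisfying the count has a member meeting the union of the others in at most three
points -/
theorem exists_low {J : Finset (Finset V)} (hJ : J.Nonempty)
    (hcount : 2 ≤ J.card → ∑ N ∈ J, (2 * N.card - 3) + 4 ≤ 2 * (J.biUnion id).card)
    (h2 : ∀ N ∈ J, 2 ≤ N.card) :
    ∃ N ∈ J, (N ∩ (J.erase N).biUnion id).card ≤ 3 := by
  classical
  rcases Nat.lt_or_ge J.card 2 with h | h
  · obtain ⟨N, hN⟩ := hJ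
    refine ⟨N, hN, ?_⟩
    have : J.erase N = ∅ := by
      rw [← Finset.card_eq_zero, Finset.card_erase_of_mem hN]
      omega
    rw [this]
    simp
  · by_contra hcon
    push Not at hcon
    have hc := hcount h
    set W := J.biUnion id with hW
    -- double counting
    have e1 : ∑ N ∈ J, N.card = ∑ w ∈ W, (J.filter (fun N => w ∈ N)).card := by
      have : ∀ N ∈ J, N.card = ∑ w ∈ W, if w ∈ N then 1 else 0 := by
        intro N hN
        have hNW : N ⊆ W := Finset.subset_biUnion_of_mem id hN
        rw [Finset.sum_ite_mem, Finset.inter_eq_right.mpr hNW]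
        simp
      rw [Finset.sum_congr rfl this, Finset.sum_comm]
      refine Finset.sum_congr rfl fun w _ => ?_
      rw [Finset.card_filter]
    have e2 : ∀ w ∈ W, 1 ≤ (J.filter (fun N => w ∈ N)).card := by
      intro w hw
      obtain ⟨N, hN, hwN⟩ := Finset.mem_biUnion.mp hw
      exact Finset.card_pos.mpr ⟨N, Finset.mem_filter.mpr ⟨hN, hwN⟩⟩
    have e3 : ∑ N ∈ J, (N ∩ (J.erase N).biUnion id).card
        = ∑ w ∈ W, if 2 ≤ (J.filter (fun N => w ∈ N)).card
          then (J.filter (fun N => w ∈ N)).card else 0 := by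
      have : ∀ N ∈ J, (N ∩ (J.erase N).biUnion id).card
          = ∑ w ∈ W, if w ∈ N ∧ 2 ≤ (J.filter (fun N => w ∈ N)).card then 1 else 0 := by
        intro N hN
        rw [Finset.card_eq_sum_ones, ← Finset.sum_filter]
        refine Finset.sum_congr ?_ fun _ _ => rfl
        ext w
        rw [Finset.mem_inter, Finset.mem_filter]
        constructor
        · rintro ⟨hwN, hw⟩
          obtain ⟨N', hN', hwN'⟩ := Finset.mem_biUnion.mp hw
          rw [Finset.mem_erase] at hN'
          refine ⟨Finset.mem_biUnion.mpr ⟨N, hN, hwN⟩, hwN, ?_⟩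
          exact Finset.one_lt_card.mpr ⟨N', Finset.mem_filter.mpr ⟨hN'.2, hwN'⟩, N,
            Finset.mem_filter.mpr ⟨hN, hwN⟩, hN'.1⟩
        · rintro ⟨hwW, hwN, hw2⟩
          refine ⟨hwN, ?_⟩
          obtain ⟨N', hN', hne⟩ := Finset.exists_mem_ne hw2 N
          rw [Finset.mem_filter] at hN'
          exact Finset.mem_biUnion.mpr ⟨N', Finset.mem_erase.mpr ⟨hne, hN'.1⟩, hN'.2⟩
      rw [Finset.sum_congr rfl this, Finset.sum_comm]
      refine Finset.sum_congr rfl fun w _ => ?_
      split_ifs with h2'
      · simp only [h2', and_true]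
        rw [Finset.card_filter]
      · simp [h2']
    have e4 : 4 * J.card ≤ ∑ N ∈ J, (N ∩ (J.erase N).biUnion id).card := by
      have : ∑ N ∈ J, 4 ≤ ∑ N ∈ J, (N ∩ (J.erase N).biUnion id).card :=
        Finset.sum_le_sum fun N hN => hcon N hN
      rw [Finset.sum_const, smul_eq_mul] at this
      omega
    have e5 : ∑ w ∈ W, (if 2 ≤ (J.filter (fun N => w ∈ N)).card
          then (J.filter (fun N => w ∈ N)).card else 0) + 2 * W.card
        ≤ 2 * ∑ w ∈ W, (J.filter (fun N => w ∈ N)).card := by
      have : ∑ w ∈ W, ((if 2 ≤ (J.filter (fun N => w ∈ N)).card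
          then (J.filter (fun N => w ∈ N)).card else 0) + 2)
          ≤ ∑ w ∈ W, 2 * (J.filter (fun N => w ∈ N)).card := by
        refine Finset.sum_le_sum fun w hw => ?_
        have := e2 w hw
        split_ifs with h2'
        · omega
        · omega
      rw [Finset.sum_add_distrib, Finset.sum_const, smul_eq_mul, ← Finset.mul_sum] at this
      omega
    have e6 : ∑ N ∈ J, (2 * N.card - 3) + 3 * J.card = 2 * ∑ N ∈ J, N.card := by
      have : ∑ N ∈ J, (2 * N.card - 3 + 3) = ∑ N ∈ J, 2 * N.card :=
        Finset.sum_congr rfl fun N hN => by have := h2 N hN; omega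
      rw [Finset.sum_add_distrib, Finset.sum_const, smul_eq_mul, ← Finset.mul_sum] at this
      omega
    rw [← e3, ← e1] at e5
    omega

/-- appending `K₅`'s at `v` for one maximal clique -/
theorem extend_one {v : V} {N T : Finset V} (hv : v ∉ N) (hTN : T ⊆ N) (hT : T.card = 3)
    (L : List (Finset V)) (hL : ProperSeq L)
    (hold : ∀ w ∈ N \ T, s(v, w) ∉ edgesOf L) :
    ∃ L' : List (Finset V), ProperSeq (L' ++ L) ∧ L'.length = N.card - 3 ∧
      ∀ C ∈ L', C ⊆ insert v N := by
  classical
  have hcard : (N \ T).card = N.card - 3 := by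
    rw [Finset.card_sdiff_of_subset hTN, hT]
  -- by induction on the subset of `N \\ T`
  have key : ∀ Y ⊆ N \ T, ∃ L' : List (Finset V), ProperSeq (L' ++ L) ∧ L'.length = Y.card ∧
      (∀ C ∈ L', C ⊆ insert v N) ∧ ∀ w ∈ (N \ T) \ Y, s(v, w) ∉ edgesOf (L' ++ L) := by
    intro Y
    induction Y using Finset.induction_on with
    | empty =>
      intro _
      exact ⟨[], hL, rfl, by simp, by simpa using hold⟩
    | insert y Y hy ih =>
      intro hYsub
      obtain ⟨L', h1, h2, h3, h4⟩ := ih ((Finset.subset_insert y Y).trans hYsub)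
      have hyNT : y ∈ N \ T := hYsub (Finset.mem_insert_self y Y)
      have hyN := (Finset.mem_sdiff.mp hyNT).1
      have hyT := (Finset.mem_sdiff.mp hyNT).2
      have hvT : v ∉ T := fun h => hv (hTN h)
      have hvy : v ≠ y := by rintro rfl; exact hv hyN
      have hCsub : insert v (insert y T) ⊆ insert v N :=
        Finset.insert_subset_insert v (Finset.insert_subset hyN hTN)
      have hC5 : (insert v (insert y T)).card = 5 := by
        rw [Finset.card_insert_of_notMem (by simp [hvT, hvy]), Finset.card_insert_of_notMem hyT, hT]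
      refine ⟨insert v (insert y T) :: L', ?_, ?_, ?_, ?_⟩
      · rw [List.cons_append, properSeq_cons]
        refine ⟨hC5, ?_, h1⟩
        intro hsub
        exact h4 y (Finset.mem_sdiff.mpr ⟨hyNT, hy⟩) (hsub (mk_mem_Kf.mpr ⟨hvy, by simp, by simp⟩))
      · rw [List.length_cons, h2, Finset.card_insert_of_notMem hy]
      · intro C hC
        rcases List.mem_cons.mp hC with rfl | hC
        · exact hCsub
        · exact h3 C hC
      · intro w hw
        rw [Finset.mem_sdiff, Finset.mem_insert, not_or] at hw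
        rw [List.cons_append, edgesOf_cons, Finset.mem_union, not_or]
        refine ⟨?_, h4 w (Finset.mem_sdiff.mpr ⟨hw.1, hw.2.2⟩)⟩
        intro hmem
        have h5 := (mk_mem_Kf.mp hmem)
        have h6 := h5.2.2
        rw [Finset.mem_insert, Finset.mem_insert] at h6
        rcases h6 with h6 | h6 | h6
        · exact h5.1 h6.symm
        · exact hw.2.1 h6
        · exact (Finset.mem_sdiff.mp hw.1).2 h6
  obtain ⟨L', h1, h2, h3, -⟩ := key (N \ T) (Finset.Subset.refl _)
  exact ⟨L', h1, by rw [h2, hcard], h3⟩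

lemma mem_edgesOf {L : List (Finset V)} {e : Sym2 V} : e ∈ edgesOf L ↔ ∃ C ∈ L, e ∈ Kf C := by
  induction L with
  | nil => simp
  | cons C L ih => simp [ih]

/-- appending `K₅`'s at `v` for a family of cliques -/
theorem extend_all {v : V} (J : Finset (Finset V)) (hv : ∀ N ∈ J, v ∉ N)
    (h4 : ∀ N ∈ J, 4 ≤ N.card)
    (hlow : ∀ J' ⊆ J, J'.Nonempty → ∃ N ∈ J', (N ∩ (J'.erase N).biUnion id).card ≤ 3)
    (L : List (Finset V)) (hL : ProperSeq L) (hLv : ∀ C ∈ L, v ∉ C) :
    ∃ L' : List (Finset V), ProperSeq (L' ++ L) ∧ L'.length = ∑ N ∈ J, (N.card - 3) ∧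
      ∀ C ∈ L', ∃ N ∈ J, C ⊆ insert v N := by
  classical
  induction J using Finset.strongInduction with
  | H J ih =>
    rcases J.eq_empty_or_nonempty with rfl | hne
    · exact ⟨[], hL, by simp, by simp⟩
    · obtain ⟨N, hN, hlowN⟩ := hlow J (Finset.Subset.refl _) hne
      have hss : J.erase N ⊂ J := Finset.erase_ssubset hN
      obtain ⟨L', h1, h2, h3⟩ := ih (J.erase N) hss
        (fun M hM => hv M (Finset.mem_of_mem_erase hM))
        (fun M hM => h4 M (Finset.mem_of_mem_erase hM))
        (fun J' hJ' => hlow J' (hJ'.trans (Finset.erase_subset _ _)))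
      obtain ⟨T, hT1, hT2, hT3⟩ := Finset.exists_subsuperset_card_eq
        (Finset.inter_subset_left (s₁ := N) (s₂ := (J.erase N).biUnion id)) hlowN
        (show 3 ≤ N.card by have := h4 N hN; omega)
      obtain ⟨L'', g1, g2, g3⟩ := extend_one (hv N hN) hT2 hT3 (L' ++ L) h1 (by
        intro w hw
        rw [Finset.mem_sdiff] at hw
        rw [mem_edgesOf]
        rintro ⟨C, hC, hwC⟩
        rw [mk_mem_Kf] at hwC
        rcases List.mem_append.mp hC with hC | hC
        · obtain ⟨M, hM, hCM⟩ := h3 C hC
          have hwM : w ∈ M := (Finset.mem_insert.mp (hCM hwC.2.2)).resolve_left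
            (fun h => hwC.1 h.symm)
          exact hw.2 (hT1 (Finset.mem_inter.mpr ⟨hw.1, Finset.mem_biUnion.mpr ⟨M, hM, hwM⟩⟩))
        · exact hLv C hC hwC.2.1)
      refine ⟨L'' ++ L', by rw [List.append_assoc]; exact g1, ?_, ?_⟩
      · rw [List.length_append, g2, h2, ← Finset.add_sum_erase J _ hN]
      · intro C hC
        rcases List.mem_append.mp hC with hC | hC
        · exact ⟨N, hN, g3 C hC⟩
        · obtain ⟨M, hM, hCM⟩ := h3 C hC
          exact ⟨M, Finset.mem_of_mem_erase hM, hCM⟩

/-- **The nullity of a flat is attained by a proper `K₅`-sequence.** -/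
theorem exists_seq_flat {p : V → Vec k} {A : Finset V} (hp : GenPos p (A : Set V))
    (hgood : ∀ W ⊆ A, ∀ D : Finset (Sym2 V), IsFlatIn W D p → Good D p) (B : Finset V)
    (hB : B ⊆ A) :
    ∀ D, IsFlatIn B D p → ∃ L : List (Finset V), ProperSeq L ∧ (∀ C ∈ L, C ⊆ B) ∧
      edgesOf L ⊆ D ∧ finrank k (Stress D p) ≤ L.length := by
  induction B using Finset.induction_on with
  | empty =>
    intro D hD
    refine ⟨[], trivial, by simp, by simp, ?_⟩
    have : Stress D p = ⊥ := by
      rw [eq_bot_iff]
      intro ω hω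
      rw [Submodule.mem_bot]
      ext e
      exact hω.1 e (fun h => by simpa [Kf] using hD.1 h)
    rw [this]
    simp
  | insert v B hvB ih =>
    intro D hflat
    have hD : D ⊆ Kf (insert v B) := hflat.1
    have hBA : B ⊆ A := (Finset.subset_insert v B).trans hB
    have hpB : GenPos p ((insert v B : Finset V) : Set V) := hp.mono (by exact_mod_cast hB)
    -- the flat `D - v`
    have hdel : del D v = rest D B := by
      ext e
      rw [mem_del, mem_rest]
      constructor
      · rintro ⟨h1, h2⟩
        refine ⟨h1, fun w hw => ?_⟩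
        have := (mem_Kf.mp (hD h1)).2 w hw
        exact (Finset.mem_insert.mp this).resolve_left (fun h => h2 (h ▸ hw))
      · rintro ⟨h1, h2⟩
        exact ⟨h1, fun h => hvB (h2 v h)⟩
    have hFflat : IsFlatIn B (rest D B) p := hflat.rest (Finset.subset_insert v B)
    obtain ⟨L, h1, h2, h3, h4⟩ := ih hBA (rest D B) hFflat
    have hLv : ∀ C ∈ L, v ∉ C := fun C hC h => hvB (h2 C hC h)
    -- the family of cliques
    have hJ : ∀ N ∈ maxNs D v (insert v B), MaxN D v N ∧ 4 ≤ N.card := fun N hN =>
      (mem_maxNs hD).mp hN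
    have hlow : ∀ J' ⊆ maxNs D v (insert v B), J'.Nonempty →
        ∃ N ∈ J', (N ∩ (J'.erase N).biUnion id).card ≤ 3 := by
      intro J' hJ' hne
      refine exists_low hne ?_ (fun N hN => by have := (hJ N (hJ' hN)).2; omega)
      intro hcard
      have hsub : insert v (J'.biUnion id) ⊆ insert v B := by
        refine Finset.insert_subset (Finset.mem_insert_self v B) ?_
        intro w hw
        obtain ⟨N, hN, hwN⟩ := Finset.mem_biUnion.mp hw
        exact (hJ N (hJ' hN)).1.subset hD hwN
      refine count_in hflat hD hpB (Finset.mem_insert_self v B) J' (fun N hN => (hJ N (hJ' hN)).1)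
        (fun N hN => by have := (hJ N (hJ' hN)).2; omega) hcard ?_
      exact hgood _ (hsub.trans hB) _ (hflat.rest hsub)
    obtain ⟨L', g1, g2, g3⟩ := extend_all (maxNs D v (insert v B)) (fun N hN => (hJ N hN).1.prop.1)
      (fun N hN => (hJ N hN).2) hlow L h1 hLv
    refine ⟨L' ++ L, g1, ?_, ?_, ?_⟩
    · intro C hC
      rcases List.mem_append.mp hC with hC | hC
      · obtain ⟨N, hN, hCN⟩ := g3 C hC
        refine hCN.trans (Finset.insert_subset (Finset.mem_insert_self v B) ?_)
        exact (hJ N hN).1.subset hD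
      · exact (h2 C hC).trans (Finset.subset_insert v B)
    · intro e he
      rw [mem_edgesOf] at he
      obtain ⟨C, hC, heC⟩ := he
      rcases List.mem_append.mp hC with hC | hC
      · obtain ⟨N, hN, hCN⟩ := g3 C hC
        exact (hJ N hN).1.prop.2 (Kf_mono hCN heC)
      · exact rest_subset D B (h3 (mem_edgesOf.mpr ⟨C, hC, heC⟩))
    · rw [finrank_Stress_split D v p, hdel, List.length_append, g2]
      have := finrank_map_Stress_le hD hpB (Finset.mem_insert_self v B) (hgood _ hB D hflat)
      omega

/-- **Rank formula at `p`.** For every graph `E` on `A` there is a proper `K₅`-sequence with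
`rk E + length = |E ∪ edges|`. -/
theorem exists_seq {p : V → Vec k} {A : Finset V} (hp : GenPos p (A : Set V))
    (hgood : ∀ W ⊆ A, ∀ D : Finset (Sym2 V), IsFlatIn W D p → Good D p)
    (E : Finset (Sym2 V)) (hE : E ⊆ Kf A) :
    ∃ L : List (Finset V), ProperSeq L ∧ (∀ C ∈ L, C ⊆ A) ∧
      rk (E : Set (Sym2 V)) p + L.length = (E ∪ edgesOf L).card := by
  have hflat : IsFlatIn A (clF A E p) p := isFlatIn_clF A E p
  have hEc : E ⊆ clF A E p := subset_clF hE p
  obtain ⟨L, h1, h2, h3, h4⟩ := exists_seq_flat hp hgood A (Finset.Subset.refl A) _ hflat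
  refine ⟨L, h1, h2, ?_⟩
  have h5 := rk_add_stress (clF A E p) p
  have h6 : rk (clF A E p : Set (Sym2 V)) p = rk (E : Set (Sym2 V)) p :=
    rk_eq_of_clo (by exact_mod_cast hEc) (clF_subset_clo A E p)
  have h7 : (E ∪ edgesOf L).card ≤ (clF A E p).card :=
    Finset.card_le_card (Finset.union_subset hEc h3)
  have h8 := rk_add_length_le hp L h1 h2 E
  have h9 := rk_mono (p := p) (Finset.subset_union_left (s₁ := E) (s₂ := edgesOf L))
  omega

end GR
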