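import Pool.Agent.Lib.GR.Six

/-!
# No three vertices of `O` are rigid on `{F · j = 0}`
-/

set_option linter.unusedSectionVars false

namespace GR

open Filter Module

open scoped Matrix

variable {k : Type*} [Field k] {V : Type*} [DecidableEq V]

/-- a covector with prescribed values on at most four points in general position -/
lemma exists_covec {p : V → Vec k} {N : Set V} (hgp : GenPos p N) (S : Finset V)
    (hS : (S : Set V) ⊆ N) (hc : S.card ≤ 4) (f : V → k) :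
    ∃ g : Vec k, ∀ v ∈ S, g ⬝ᵥ p v = f v := by
  obtain ⟨g, hg⟩ := exists_dot_eq (hgp S hS hc) (fun v : S => f v)
  exact ⟨g, fun v hv => hg ⟨v, hv⟩⟩

namespace SixP

variable {p : V → Vec k} {M : Submodule k (V → Vec k)} {T O : Finset V}
  {y0 : Vec k} {ν γ : V → k}

/-- **No three vertices of `O` are rigid on the motions with `F · p j = 0`.** -/
theorem three (h : SixP p M T O y0 ν γ) {j : V} (hj : j ∈ T) {a b c : V} (ha : a ∈ O)
    (hb : b ∈ O) (hc : c ∈ O) (hab : a ≠ b) (hac : a ≠ c) (hbc : b ≠ c)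
    (hr : ∀ Z ∈ M, Ff O ν Z ⬝ᵥ p j = 0 → Z ∈ RG p ({a, b, c} : Set V)) : False := by
  have := h.fin
  -- the other points
  have habc : ({a, b, c} : Finset V) ⊆ O := by
    intro v hv
    simp only [Finset.mem_insert, Finset.mem_singleton] at hv
    rcases hv with rfl | rfl | rfl <;> assumption
  have hc3 : ({a, b, c} : Finset V).card = 3 := by
    rw [Finset.card_insert_of_notMem (by simp [hab, hac]), Finset.card_pair hbc]
  obtain ⟨x, x', hxx', hO2⟩ := Finset.card_eq_two.mp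
    (show (O \ {a, b, c}).card = 2 by rw [Finset.card_sdiff_of_subset habc, h.hO, hc3])
  have hx : x ∈ O \ {a, b, c} := by rw [hO2]; simp
  have hx' : x' ∈ O \ {a, b, c} := by rw [hO2]; simp
  simp only [Finset.mem_sdiff, Finset.mem_insert, Finset.mem_singleton, not_or] at hx hx'
  have hOcases : ∀ o ∈ O, o = a ∨ o = b ∨ o = c ∨ o = x ∨ o = x' := by
    intro o ho
    by_cases h1 : o ∈ ({a, b, c} : Finset V)
    · simp only [Finset.mem_insert, Finset.mem_singleton] at h1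
      tauto
    · have : o ∈ O \ {a, b, c} := Finset.mem_sdiff.mpr ⟨ho, h1⟩
      rw [hO2] at this
      simp only [Finset.mem_insert, Finset.mem_singleton] at this
      tauto
  obtain ⟨t₁, ht₁, t₂, ht₂, ht⟩ := Finset.one_lt_card.mp
    (show 1 < (T.erase j).card by rw [Finset.card_erase_of_mem hj, h.hT]; norm_num)
  obtain ⟨ht₁j, ht₁⟩ := Finset.mem_erase.mp ht₁
  obtain ⟨ht₂j, ht₂⟩ := Finset.mem_erase.mp ht₂
  have hne : ∀ {t o : V}, t ∈ T → o ∈ O → t ≠ o := fun {t o} ht ho hto =>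
    Finset.disjoint_left.mp h.dis ht (hto ▸ ho)
  have hmT : ∀ {t : V}, t ∈ T → t ∈ T ∪ O := fun ht => Finset.mem_union_left _ ht
  have hmO : ∀ {o : V}, o ∈ O → o ∈ T ∪ O := fun ho => Finset.mem_union_right _ ho
  obtain ⟨BB, hBB⟩ := exists_BB h.hT h.gpT
  -- the forms `lam` and `pi`
  have hS4 : (({a, b, c, t₁} : Finset V) : Set V) ⊆ ((T ∪ O : Finset V) : Set V) := by
    intro v hv
    simp only [Finset.coe_insert, Finset.coe_singleton, Set.mem_insert_iff,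
      Set.mem_singleton_iff] at hv
    rcases hv with rfl | rfl | rfl | rfl
    exacts [hmO ha, hmO hb, hmO hc, hmT ht₁]
  have hS4c : ({a, b, c, t₁} : Finset V).card ≤ 4 := Finset.card_le_four
  obtain ⟨lam, hlam⟩ := exists_covec h.gp _ hS4 hS4c (fun v => if v = t₁ then 0 else γ v)
  obtain ⟨pi, hpi⟩ := exists_covec h.gp _ hS4 hS4c (fun v => if v = t₁ then 1 else 0)
  have l1 : lam ⬝ᵥ p a = γ a := by
    rw [hlam a (by simp), if_neg (hne ht₁ ha).symm]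
  have l2 : lam ⬝ᵥ p b = γ b := by
    rw [hlam b (by simp), if_neg (hne ht₁ hb).symm]
  have l3 : lam ⬝ᵥ p c = γ c := by
    rw [hlam c (by simp), if_neg (hne ht₁ hc).symm]
  have l4 : lam ⬝ᵥ p t₁ = 0 := by
    rw [hlam t₁ (by simp), if_pos rfl]
  have q1 : pi ⬝ᵥ p a = 0 := by
    rw [hpi a (by simp), if_neg (hne ht₁ ha).symm]
  have q2 : pi ⬝ᵥ p b = 0 := by
    rw [hpi b (by simp), if_neg (hne ht₁ hb).symm]
  have q3 : pi ⬝ᵥ p c = 0 := by
    rw [hpi c (by simp), if_neg (hne ht₁ hc).symm]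
  have q4 : pi ⬝ᵥ p t₁ = 1 := by
    rw [hpi t₁ (by simp), if_pos rfl]
  have hpine : ∀ v ∈ T ∪ O, v ≠ a → v ≠ b → v ≠ c → pi ⬝ᵥ p v ≠ 0 := by
    intro v hv hva hvb hvc h0
    have := eq_zero_of_four h.gp (hmO ha) (hmO hb) (hmO hc) hv hab hac hva.symm hbc hvb.symm
      hvc.symm q1 q2 q3 h0
    rw [this, zero_dotProduct] at q4
    exact zero_ne_one q4
  -- the structure of the motions
  have key : ∀ Z ∈ M, Ff O ν Z ⬝ᵥ p j = 0 → ∃ S : Vec k →ₗ[k] Vec k, IsSkew S ∧ ∃ η : Vec k,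
      ∀ y, BB Z y - S y = (Ff O ν Z ⬝ᵥ y) • lam + (η ⬝ᵥ y) • pi := by
    intro Z hZ hF
    obtain ⟨S, hS, hSZ⟩ := hr Z hZ hF
    let e : Vec k →ₗ[k] k :=
      { toFun := fun y => (BB Z y - S y) ⬝ᵥ p t₁ - (Ff O ν Z ⬝ᵥ y) * (lam ⬝ᵥ p t₁)
        map_add' := fun y y' => by
          simp only [map_add, sub_dotProduct, add_dotProduct, dotProduct_add]; ring
        map_smul' := fun c y => by
          simp only [map_smul, sub_dotProduct, smul_dotProduct, dotProduct_smul, smul_eq_mul,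
            RingHom.id_apply]; ring }
    obtain ⟨η, hη⟩ := exists_dot e
    refine ⟨S, hS, η, fun y => ?_⟩
    rw [← sub_eq_zero]
    have hgen : ∀ o ∈ O, Z o = S (p o) → lam ⬝ᵥ p o = γ o → pi ⬝ᵥ p o = 0 →
        (BB Z y - S y - ((Ff O ν Z ⬝ᵥ y) • lam + (η ⬝ᵥ y) • pi)) ⬝ᵥ p o = 0 := by
      intro o ho hZo hlo hpo
      have h1 := h.str Z hZ (BB Z) (hBB Z) o ho y
      rw [hZo, hS.swap] at h1
      simp only [sub_dotProduct, add_dotProduct, smul_dotProduct, smul_eq_mul, hlo, hpo]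
      linear_combination h1
    refine eq_zero_of_four h.gp (hmO ha) (hmO hb) (hmO hc) (hmT ht₁) hab hac
      (hne ht₁ ha).symm hbc (hne ht₁ hb).symm (hne ht₁ hc).symm
      (hgen a ha (hSZ a (by simp)) l1 q1) (hgen b hb (hSZ b (by simp)) l2 q2)
      (hgen c hc (hSZ c (by simp)) l3 q3) ?_
    have h2 := hη y
    simp only [e, LinearMap.coe_mk, AddHom.coe_mk] at h2
    simp only [sub_dotProduct, add_dotProduct, smul_dotProduct, smul_eq_mul, q4] at h2 ⊢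
    linear_combination -h2
  -- consequences of the loops
  have kT : ∀ Z ∈ M, ∀ S : Vec k →ₗ[k] Vec k, IsSkew S → ∀ η : Vec k,
      (∀ y, BB Z y - S y = (Ff O ν Z ⬝ᵥ y) • lam + (η ⬝ᵥ y) • pi) → ∀ t ∈ T,
      Ff O ν Z ⬝ᵥ p t = 0 → η ⬝ᵥ p t = 0 := by
    intro Z hZ S hS η hη t ht hF
    have h1 := congrArg (fun z => z ⬝ᵥ p t) (hη (p t))
    simp only [sub_dotProduct, add_dotProduct, smul_dotProduct, smul_eq_mul, hS (p t), hF,
      h.loopT hZ (hBB Z) ht] at h1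
    have h2 := hpine t (hmT ht) (hne ht ha) (hne ht hb) (hne ht hc)
    have h3 : (η ⬝ᵥ p t) * (pi ⬝ᵥ p t) = 0 := by linear_combination -h1
    exact (mul_eq_zero.mp h3).resolve_right h2
  have kO : ∀ Z ∈ M, ∀ S : Vec k →ₗ[k] Vec k, IsSkew S → ∀ η : Vec k,
      (∀ y, BB Z y - S y = (Ff O ν Z ⬝ᵥ y) • lam + (η ⬝ᵥ y) • pi) → ∀ o ∈ O,
      (lam ⬝ᵥ p o - γ o) * (Ff O ν Z ⬝ᵥ p o) + (η ⬝ᵥ p o) * (pi ⬝ᵥ p o) = 0 := by
    intro Z hZ S hS η hη o ho
    have h1 := congrArg (fun z => z ⬝ᵥ p o) (hη (p o))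
    simp only [sub_dotProduct, add_dotProduct, smul_dotProduct, smul_eq_mul, hS (p o),
      h.loopO hZ (hBB Z) ho] at h1
    linear_combination -h1
  have hjx : j ≠ x := hne hj hx.1
  have hjx' : j ≠ x' := hne hj hx'.1
  have ht₁x := hne ht₁ hx.1
  have ht₂x := hne ht₂ hx.1
  have ht₁x' := hne ht₁ hx'.1
  have ht₂x' := hne ht₂ hx'.1
  -- dimension count
  set K1 := M ⊓ LinearMap.ker (Fy O ν (p j)) with hK1
  set K2 := K1 ⊓ LinearMap.ker (Fy O ν (p t₁)) with hK2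
  set K3 := K2 ⊓ LinearMap.ker (Fy O ν (p t₂)) with hK3
  have f1 : FiniteDimensional k K1 := Submodule.finiteDimensional_of_le inf_le_left
  have f2 : FiniteDimensional k K2 := Submodule.finiteDimensional_of_le inf_le_left
  have f3 : FiniteDimensional k K3 := Submodule.finiteDimensional_of_le inf_le_left
  have d1 := finrank_le_inf_ker M (Fy O ν (p j))
  have d2 := finrank_le_inf_ker K1 (Fy O ν (p t₁))
  have d3 := finrank_le_inf_ker K2 (Fy O ν (p t₂))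
  rw [← hK1] at d1
  rw [← hK2] at d2
  rw [← hK3] at d3
  have d4 : finrank k (K3 ⊓ LinearMap.ker (Fy O ν (p x)) : Submodule k (V → Vec k)) ≤ 6 := by
    have hF0 : ∀ Z ∈ K3 ⊓ LinearMap.ker (Fy O ν (p x)), Z ∈ M ∧ Ff O ν Z = 0 := by
      rintro Z ⟨⟨⟨⟨hZ, h1⟩, h2⟩, h3⟩, h4⟩
      exact ⟨hZ, eq_zero_of_four h.gp (hmT hj) (hmT ht₁) (hmT ht₂) (hmO hx.1) ht₁j.symm ht₂j.symm
        hjx ht ht₁x ht₂x h1 h2 h3 h4⟩
    refine h.inj_le (fun Z hZ => (hF0 Z hZ).1) (fun Z hZ => ?_)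
      (fun Z hZ => by rw [(hF0 Z hZ).2, zero_dotProduct])
    obtain ⟨hZM, hF⟩ := hF0 Z hZ
    obtain ⟨S, hS, η, hη⟩ := key Z hZM (by rw [hF, zero_dotProduct])
    have hηT : ∀ t ∈ T, η ⬝ᵥ p t = 0 := fun t ht => kT Z hZM S hS η hη t ht
      (by rw [hF, zero_dotProduct])
    have hη0 : η = 0 := by
      have h5 := kO Z hZM S hS η hη x hx.1
      rw [hF, zero_dotProduct, mul_zero, zero_add] at h5
      have h6 := (mul_eq_zero.mp h5).resolve_right (hpine x (hmO hx.1) hx.2.1 hx.2.2.1 hx.2.2.2)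
      exact eq_zero_of_four h.gp (hmT hj) (hmT ht₁) (hmT ht₂) (hmO hx.1) ht₁j.symm ht₂j.symm
        hjx ht ht₁x ht₂x (hηT j hj) (hηT t₁ ht₁) (hηT t₂ ht₂) h6
    refine h.mem_RG_of_skew (hBB Z) ?_
    have hBS : BB Z = S := by
      refine LinearMap.ext fun y => ?_
      have h7 := hη y
      rw [hF, hη0, zero_dotProduct, zero_smul, zero_smul, add_zero, sub_eq_zero] at h7
      exact h7
    rw [hBS]
    exact hS
  obtain ⟨Z, hZ, hFx⟩ := exists_eq_one K3 (Fy O ν (p x)) (by have := h.dim; omega)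
  obtain ⟨⟨⟨hZM, g1⟩, g2⟩, g3⟩ := hZ
  have g1 : Ff O ν Z ⬝ᵥ p j = 0 := g1
  have g2 : Ff O ν Z ⬝ᵥ p t₁ = 0 := g2
  have g3 : Ff O ν Z ⬝ᵥ p t₂ = 0 := g3
  have hFx : Ff O ν Z ⬝ᵥ p x = 1 := hFx
  obtain ⟨S, hS, η, hη⟩ := key Z hZM g1
  have e1 := kT Z hZM S hS η hη j hj g1
  have e2 := kT Z hZM S hS η hη t₁ ht₁ g2
  have e3 := kT Z hZM S hS η hη t₂ ht₂ g3
  have hFx' : Ff O ν Z ⬝ᵥ p x' ≠ 0 := by
    intro h0
    have := eq_zero_of_four h.gp (hmT hj) (hmT ht₁) (hmT ht₂) (hmO hx'.1) ht₁j.symm ht₂j.symm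
      hjx' ht ht₁x' ht₂x' g1 g2 g3 h0
    rw [this, zero_dotProduct] at hFx
    exact zero_ne_one hFx
  have hηF : η = (η ⬝ᵥ p x) • Ff O ν Z := by
    rw [← sub_eq_zero]
    refine eq_zero_of_four h.gp (hmT hj) (hmT ht₁) (hmT ht₂) (hmO hx.1) ht₁j.symm ht₂j.symm
        hjx ht ht₁x ht₂x ?_ ?_ ?_ ?_
    · rw [sub_dotProduct, smul_dotProduct, e1, g1, smul_zero, sub_zero]
    · rw [sub_dotProduct, smul_dotProduct, e2, g2, smul_zero, sub_zero]
    · rw [sub_dotProduct, smul_dotProduct, e3, g3, smul_zero, sub_zero]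
    · rw [sub_dotProduct, smul_dotProduct, hFx, smul_eq_mul, mul_one, sub_self]
  have r1 := kO Z hZM S hS η hη x hx.1
  have r2 := kO Z hZM S hS η hη x' hx'.1
  have r3 : η ⬝ᵥ p x' = (η ⬝ᵥ p x) * (Ff O ν Z ⬝ᵥ p x') := by
    conv_lhs => rw [hηF]
    rw [smul_dotProduct, smul_eq_mul]
  rw [hFx] at r1
  rw [r3] at r2
  have r4 : (lam ⬝ᵥ p x' - γ x') + (η ⬝ᵥ p x) * (pi ⬝ᵥ p x') = 0 := by
    apply mul_left_cancel₀ hFx'
    linear_combination r2
  -- the form `lam + (η x) pi` has the values `γ` on `O`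
  have hfin : ∀ o ∈ O, (lam + (η ⬝ᵥ p x) • pi) ⬝ᵥ p o = γ o := by
    intro o ho
    rw [add_dotProduct, smul_dotProduct, smul_eq_mul]
    rcases hOcases o ho with rfl | rfl | rfl | rfl | rfl
    · rw [l1, q1, mul_zero, add_zero]
    · rw [l2, q2, mul_zero, add_zero]
    · rw [l3, q3, mul_zero, add_zero]
    · linear_combination r1
    · linear_combination r4
  have h9 := h.norm
  have h10 : ∑ o ∈ O, ν o * γ o = (lam + (η ⬝ᵥ p x) • pi) ⬝ᵥ ∑ o ∈ O, ν o • p o := by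
    rw [dotProduct_sum]
    refine Finset.sum_congr rfl fun o ho => ?_
    rw [dotProduct_smul, hfin o ho, smul_eq_mul]
  rw [h10, h.dep, dotProduct_zero] at h9
  exact zero_ne_one h9

end SixP

end GR
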