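import Pool.Agent.Lib.GR.Six2

/-!
# Gauge fixing, and the case of two cliques
-/

set_option linter.unusedSectionVars false

namespace GR

open Filter Module

open scoped Matrix

variable {k : Type*} [Field k] {V : Type*}

/-- the functions vanishing on `N` -/
def Zer (k : Type*) [Field k] (N : Finset V) : Submodule k (V → Vec k) where
  carrier := {Z | ∀ x ∈ N, Z x = 0}
  add_mem' := fun h h' x hx => by rw [Pi.add_apply, h x hx, h' x hx, add_zero]
  zero_mem' := fun _ _ => rfl
  smul_mem' := fun c Z h x hx => by rw [Pi.smul_apply, h x hx, smul_zero]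

lemma mem_Zer {N : Finset V} {Z : V → Vec k} : Z ∈ Zer k N ↔ ∀ x ∈ N, Z x = 0 := Iff.rfl

/-- **Gauge fixing.** -/
theorem finrank_le_gauge {p : V → Vec k} {N : Finset V} {M : Submodule k (V → Vec k)}
    [FiniteDimensional k M] {S : Submodule k (Vec k →ₗ[k] Vec k)}
    (h : ∀ Z ∈ M, ∃ s ∈ S, ∀ x ∈ N, Z x = s (p x)) :
    finrank k M ≤ finrank k (M ⊓ Zer k N : Submodule k (V → Vec k)) + finrank k S := by
  let R : (V → Vec k) →ₗ[k] (N → Vec k) :=
    { toFun := fun Z x => Z x
      map_add' := fun _ _ => rfl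
      map_smul' := fun _ _ => rfl }
  let ρ : (Vec k →ₗ[k] Vec k) →ₗ[k] (N → Vec k) :=
    { toFun := fun s x => s (p x)
      map_add' := fun _ _ => rfl
      map_smul' := fun _ _ => rfl }
  have h1 := LinearMap.finrank_range_add_finrank_ker (R.domRestrict M)
  have h2 : finrank k (LinearMap.ker (R.domRestrict M))
      = finrank k (M ⊓ Zer k N : Submodule k (V → Vec k)) := by
    have e : (LinearMap.ker (R.domRestrict M)).map M.subtype = M ⊓ Zer k N := by
      ext z
      simp only [Submodule.mem_map, LinearMap.mem_ker, Submodule.mem_inf]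
      constructor
      · rintro ⟨y, hy, rfl⟩
        exact ⟨y.2, fun x hx => congrFun hy ⟨x, hx⟩⟩
      · rintro ⟨h1, h2⟩
        exact ⟨⟨z, h1⟩, funext fun x => h2 x x.2, rfl⟩
    rw [← e]
    exact (Submodule.equivMapOfInjective _ M.injective_subtype _).finrank_eq
  have h3 : LinearMap.range (R.domRestrict M) ≤ S.map ρ := by
    rintro _ ⟨Z, rfl⟩
    obtain ⟨s, hs, hx⟩ := h Z.1 Z.2
    exact ⟨s, hs, funext fun x => (hx x x.2).symm⟩
  have h4 := (Submodule.finrank_mono h3).trans (Submodule.finrank_map_le ρ S)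
  omega

variable [DecidableEq V]

theorem finrank_le_gauge_six {p : V → Vec k} {N : Finset V} {M : Submodule k (V → Vec k)}
    [FiniteDimensional k M] (h : ∀ Z ∈ M, Z ∈ RG p (N : Set V)) :
    finrank k M ≤ finrank k (M ⊓ Zer k N : Submodule k (V → Vec k)) + 6 := by
  have h1 := finrank_le_gauge (p := p) (N := N) (M := M) (S := SkewSub k) fun Z hZ => by
    obtain ⟨S, hS, h2⟩ := h Z hZ
    exact ⟨S, hS, fun x hx => h2 x (by exact_mod_cast hx)⟩
  rwa [finrank_SkewSub] at h1

/-- three numbers determine a skew map killing a point -/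
theorem finrank_skew_le_three {p : V → Vec k} {N : Finset V} (hgp : GenPos p (N : Set V))
    {w a b c : V} (hw : w ∈ N) (ha : a ∈ N) (hb : b ∈ N) (hc : c ∈ N) (hwa : w ≠ a) (hwb : w ≠ b)
    (hwc : w ≠ c) (hab : a ≠ b) (hac : a ≠ c) (hbc : b ≠ c)
    {S : Submodule k (Vec k →ₗ[k] Vec k)} (hS : ∀ s ∈ S, IsSkew s ∧ s (p w) = 0) :
    finrank k S ≤ 3 := by
  let f : Vec k → Vec k → (Vec k →ₗ[k] Vec k) →ₗ[k] k := fun x y =>
    { toFun := fun s => s x ⬝ᵥ y
      map_add' := fun _ _ => by rw [LinearMap.add_apply, add_dotProduct]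
      map_smul' := fun _ _ => by
        rw [LinearMap.smul_apply, smul_dotProduct, RingHom.id_apply] }
  have h1 := finrank_le_inf_ker S (f (p a) (p b))
  have h2 := finrank_le_inf_ker (S ⊓ LinearMap.ker (f (p a) (p b))) (f (p a) (p c))
  have h3 := finrank_le_inf_ker (S ⊓ LinearMap.ker (f (p a) (p b)) ⊓
    LinearMap.ker (f (p a) (p c))) (f (p b) (p c))
  have h4 : (S ⊓ LinearMap.ker (f (p a) (p b)) ⊓ LinearMap.ker (f (p a) (p c)) ⊓
      LinearMap.ker (f (p b) (p c)) : Submodule k (Vec k →ₗ[k] Vec k)) = ⊥ := by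
    rw [eq_bot_iff]
    rintro s ⟨⟨⟨hs, g1⟩, g2⟩, g3⟩
    rw [Submodule.mem_bot]
    have g1 : s (p a) ⬝ᵥ p b = 0 := g1
    have g2 : s (p a) ⬝ᵥ p c = 0 := g2
    have g3 : s (p b) ⬝ᵥ p c = 0 := g3
    obtain ⟨hsk, hsw⟩ := hS s hs
    have ea : s (p a) = 0 := eq_zero_of_four hgp hw ha hb hc hwa hwb hwc hab hac hbc
      (by rw [hsk.swap, hsw, zero_dotProduct, neg_zero]) (hsk _) g1 g2
    have eb : s (p b) = 0 := eq_zero_of_four hgp hw ha hb hc hwa hwb hwc hab hac hbc
      (by rw [hsk.swap, hsw, zero_dotProduct, neg_zero])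
      (by rw [hsk.swap, g1, neg_zero]) (hsk _) g3
    have ec : s (p c) = 0 := eq_zero_of_four hgp hw ha hb hc hwa hwb hwc hab hac hbc
      (by rw [hsk.swap, hsw, zero_dotProduct, neg_zero])
      (by rw [hsk.swap, g2, neg_zero]) (by rw [hsk.swap, g3, neg_zero]) (hsk _)
    refine LinearMap.ext fun y => ?_
    rw [LinearMap.zero_apply]
    refine eq_zero_of_four hgp hw ha hb hc hwa hwb hwc hab hac hbc ?_ ?_ ?_ ?_
    · rw [hsk.swap, hsw, zero_dotProduct, neg_zero]
    · rw [hsk.swap, ea, zero_dotProduct, neg_zero]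
    · rw [hsk.swap, eb, zero_dotProduct, neg_zero]
    · rw [hsk.swap, ec, zero_dotProduct, neg_zero]
  rw [h4, finrank_bot] at h3
  omega

/-- a skew map killing three points in general position is zero -/
lemma skew_eq_zero_of_three {p : V → Vec k} {N : Set V} (hgp : GenPos p N)
    {a b c : V} (ha : a ∈ N) (hb : b ∈ N) (hc : c ∈ N) (hab : a ≠ b) (hac : a ≠ c) (hbc : b ≠ c)
    {S : Vec k →ₗ[k] Vec k} (hS : IsSkew S) (h1 : S (p a) = 0) (h2 : S (p b) = 0)
    (h3 : S (p c) = 0) : S = 0 := by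
  refine hS.eq_zero_of_three ?_ h1 h2 h3
  have hli := hgp {a, b, c} (by
    intro v hv
    simp only [Finset.coe_insert, Finset.coe_singleton, Set.mem_insert_iff,
      Set.mem_singleton_iff] at hv
    rcases hv with rfl | rfl | rfl <;> assumption) (Finset.card_le_three.trans (by norm_num))
  have hinj : Function.Injective (![⟨a, by simp⟩, ⟨b, by simp⟩, ⟨c, by simp⟩] :
      Fin 3 → ({a, b, c} : Finset V)) := by
    intro i j hij
    fin_cases i <;> fin_cases j <;> simp_all
  have h4 := hli.comp _ hinj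
  convert h4 using 1
  funext i
  fin_cases i <;> rfl

end GR
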