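import Pool.Agent.Lib.GR.Six3

/-!
# Two cliques: the linear algebra
-/

set_option linter.unusedSectionVars false

namespace GR

open Filter Module

open scoped Matrix

variable {k : Type*} [Field k] {V : Type*} [DecidableEq V]

/-- a coefficient of a point in general position is nonzero -/
lemma coef_ne {p : V → Vec k} {N : Set V} (hgp : GenPos p N) {t x1 x2 x3 x4 : V} (ht : t ∈ N)
    (h1 : x1 ∈ N) (h2 : x2 ∈ N) (h3 : x3 ∈ N) (h4 : x4 ∈ N)
    (ht1 : t ≠ x1) (ht2 : t ≠ x2) (ht3 : t ≠ x3)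
    (h12 : x1 ≠ x2) (h13 : x1 ≠ x3) (h14 : x1 ≠ x4) (h23 : x2 ≠ x3) (h24 : x2 ≠ x4)
    (h34 : x3 ≠ x4) {c1 c2 c3 c4 : k}
    (hc : p t = c1 • p x1 + c2 • p x2 + c3 • p x3 + c4 • p x4) : c4 ≠ 0 := by
  intro h0
  obtain ⟨g, hg⟩ := exists_covec hgp {x1, x2, x3, x4} (by
    intro v hv
    simp only [Finset.coe_insert, Finset.coe_singleton, Set.mem_insert_iff,
      Set.mem_singleton_iff] at hv
    rcases hv with rfl | rfl | rfl | rfl <;> assumption) Finset.card_le_four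
    (fun v => if v = x4 then 1 else 0)
  have g1 : g ⬝ᵥ p x1 = 0 := by rw [hg x1 (by simp), if_neg h14]
  have g2 : g ⬝ᵥ p x2 = 0 := by rw [hg x2 (by simp), if_neg h24]
  have g3 : g ⬝ᵥ p x3 = 0 := by rw [hg x3 (by simp), if_neg h34]
  have g4 : g ⬝ᵥ p x4 = 1 := by rw [hg x4 (by simp), if_pos rfl]
  have gt : g ⬝ᵥ p t = 0 := by
    rw [hc, h0]
    simp only [dotProduct_add, dotProduct_smul, g1, g2, g3, zero_smul, smul_zero, add_zero]
  have := eq_zero_of_four (N := {t, x1, x2, x3}) (hgp.mono (by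
    intro v hv
    simp only [Finset.coe_insert, Finset.coe_singleton, Set.mem_insert_iff,
      Set.mem_singleton_iff] at hv
    rcases hv with rfl | rfl | rfl | rfl <;> assumption)) (by simp) (by simp) (by simp)
    (by simp) ht1 ht2 ht3 h12 h13 h23 gt g1 g2 g3
  rw [this, zero_dotProduct] at g4
  exact zero_ne_one g4

/-- **The kappa lemma.** -/
theorem kappa {p : V → Vec k} {N : Finset V} (hgp : GenPos p (N : Set V))
    {w t t' x1 x2 x3 x4 : V} (hw : w ∈ N) (ht : t ∈ N) (ht' : t' ∈ N)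
    (h1 : x1 ∈ N) (h2 : x2 ∈ N) (h3 : x3 ∈ N) (h4 : x4 ∈ N)
    (hwt : w ≠ t) (hwt' : w ≠ t') (htt' : t ≠ t') (hw3 : w ≠ x3) (hw4 : w ≠ x4)
    (ht1 : t ≠ x1) (ht2 : t ≠ x2) (ht3 : t ≠ x3) (ht4 : t ≠ x4)
    (ht'1 : t' ≠ x1) (ht'2 : t' ≠ x2) (ht'3 : t' ≠ x3) (ht'4 : t' ≠ x4)
    (h12 : x1 ≠ x2) (h13 : x1 ≠ x3) (h14 : x1 ≠ x4) (h23 : x2 ≠ x3) (h24 : x2 ≠ x4)
    (h34 : x3 ≠ x4) {c1 c2 c3 c4 d1 d2 d3 d4 : k}
    (hc : p t = c1 • p x1 + c2 • p x2 + c3 • p x3 + c4 • p x4)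
    (hd : p t' = d1 • p x1 + d2 • p x2 + d3 • p x3 + d4 • p x4)
    {S : Submodule k (Vec k →ₗ[k] Vec k)} (hS : ∀ s ∈ S, IsSkew s ∧ s (p w) = 0 ∧
      s (c3 • p x3 + c4 • p x4) ⬝ᵥ p t = 0 ∧ s (d3 • p x3 + d4 • p x4) ⬝ᵥ p t' = 0) :
    finrank k S ≤ 1 := by
  have c4ne := coef_ne hgp ht h1 h2 h3 h4 ht1 ht2 ht3 h12 h13 h14 h23 h24 h34 hc
  have d4ne := coef_ne hgp ht' h1 h2 h3 h4 ht'1 ht'2 ht'3 h12 h13 h14 h23 h24 h34 hd
  have c3ne := coef_ne hgp ht h1 h2 h4 h3 ht1 ht2 ht4 h12 h14 h13 h24 h23 h34.symm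
    (c1 := c1) (c2 := c2) (c3 := c4) (c4 := c3) (by rw [hc]; abel)
  have d3ne := coef_ne hgp ht' h1 h2 h4 h3 ht'1 ht'2 ht'4 h12 h14 h13 h24 h23 h34.symm
    (c1 := d1) (c2 := d2) (c3 := d4) (c4 := d3) (by rw [hd]; abel)
  -- the determinants
  have hdet : c3 * d4 - c4 * d3 ≠ 0 := by
    intro h0
    obtain ⟨g, hg⟩ := exists_covec hgp {x1, x2, x3, x4} (by
      intro v hv
      simp only [Finset.coe_insert, Finset.coe_singleton, Set.mem_insert_iff,
        Set.mem_singleton_iff] at hv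
      rcases hv with rfl | rfl | rfl | rfl <;> assumption) Finset.card_le_four
      (fun v => if v = x3 then c4 else if v = x4 then -c3 else 0)
    have g1 : g ⬝ᵥ p x1 = 0 := by rw [hg x1 (by simp), if_neg h13, if_neg h14]
    have g2 : g ⬝ᵥ p x2 = 0 := by rw [hg x2 (by simp), if_neg h23, if_neg h24]
    have g3 : g ⬝ᵥ p x3 = c4 := by rw [hg x3 (by simp), if_pos rfl]
    have g4 : g ⬝ᵥ p x4 = -c3 := by rw [hg x4 (by simp), if_neg h34.symm, if_pos rfl]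
    have gt : g ⬝ᵥ p t = 0 := by
      rw [hc]
      simp only [dotProduct_add, dotProduct_smul, g1, g2, g3, g4, smul_eq_mul]
      ring
    have gt' : g ⬝ᵥ p t' = 0 := by
      rw [hd]
      simp only [dotProduct_add, dotProduct_smul, g1, g2, g3, g4, smul_eq_mul]
      linear_combination -h0
    have := eq_zero_of_four hgp ht ht' h1 h2 htt' ht1 ht2 ht'1 ht'2 h12 gt gt' g1 g2
    rw [this, zero_dotProduct] at g3
    exact c4ne g3.symm
  by_contra hcon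
  let f : Vec k → Vec k → (Vec k →ₗ[k] Vec k) →ₗ[k] k := fun x y =>
    { toFun := fun s => s x ⬝ᵥ y
      map_add' := fun _ _ => by rw [LinearMap.add_apply, add_dotProduct]
      map_smul' := fun _ _ => by
        rw [LinearMap.smul_apply, smul_dotProduct, RingHom.id_apply] }
  have : FiniteDimensional k S := inferInstance
  -- a nonzero `s` killing `w` and `t`
  have hA := finrank_le_inf_ker S (f (p t) (p x4))
  have hB := finrank_le_inf_ker S (f (p t') (p x4))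
  obtain ⟨sA, ⟨hsA, hsA'⟩, hAne⟩ := Submodule.exists_mem_ne_zero_of_ne_bot
    (show S ⊓ LinearMap.ker (f (p t) (p x4)) ≠ ⊥ from fun hc => by
      rw [hc, finrank_bot] at hA
      omega)
  obtain ⟨sB, ⟨hsB, hsB'⟩, hBne⟩ := Submodule.exists_mem_ne_zero_of_ne_bot
    (show S ⊓ LinearMap.ker (f (p t') (p x4)) ≠ ⊥ from fun hc => by
      rw [hc, finrank_bot] at hB
      omega)
  have hsA' : sA (p t) ⬝ᵥ p x4 = 0 := hsA'
  have hsB' : sB (p t') ⬝ᵥ p x4 = 0 := hsB'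
  obtain ⟨A1, A2, A3, A4⟩ := hS sA hsA
  obtain ⟨B1, B2, B3, B4⟩ := hS sB hsB
  rw [A1.swap] at A3 A4
  rw [B1.swap] at B3 B4
  simp only [dotProduct_add, dotProduct_smul, smul_eq_mul] at A3 A4 B3 B4
  have At : sA (p t) = 0 := by
    refine eq_zero_of_four hgp hw ht h3 h4 hwt hw3 hw4 ht3 ht4 h34 ?_ (A1 _) ?_ hsA'
    · rw [A1.swap, A2, zero_dotProduct, neg_zero]
    · rw [hsA'] at A3
      apply mul_left_cancel₀ c3ne
      linear_combination -A3
  have Bt' : sB (p t') = 0 := by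
    refine eq_zero_of_four hgp hw ht' h3 h4 hwt' hw3 hw4 ht'3 ht'4 h34 ?_ (B1 _) ?_ hsB'
    · rw [B1.swap, B2, zero_dotProduct, neg_zero]
    · rw [hsB'] at B4
      apply mul_left_cancel₀ d3ne
      linear_combination -B4
  have hskew3 : ∀ s : Vec k →ₗ[k] Vec k, IsSkew s → s (p w) = 0 → s (p t) = 0 →
      s (p t') = 0 → s = 0 := fun s hs e1 e2 e3 =>
    skew_eq_zero_of_three hgp hw ht ht' hwt hwt' htt' hs e1 e2 e3
  have At' : sA (p t') ≠ 0 := fun hc => hAne (hskew3 sA A1 A2 At hc)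
  -- `sB t` is proportional to `sA t'`
  have gA1 : sA (p t') ⬝ᵥ p w = 0 := by rw [A1.swap, A2, zero_dotProduct, neg_zero]
  have gA2 : sA (p t') ⬝ᵥ p t = 0 := by rw [A1.swap, At, zero_dotProduct, neg_zero]
  have gA3 : sA (p t') ⬝ᵥ p t' = 0 := A1 _
  have gB1 : sB (p t) ⬝ᵥ p w = 0 := by rw [B1.swap, B2, zero_dotProduct, neg_zero]
  have gB2 : sB (p t) ⬝ᵥ p t' = 0 := by rw [B1.swap, Bt', zero_dotProduct, neg_zero]
  have gB3 : sB (p t) ⬝ᵥ p t = 0 := B1 _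
  have Bt : sB (p t) ≠ 0 := fun hc => hBne (hskew3 sB B1 B2 hc Bt')
  -- `sA t'` kills `t` and `t'`, `z'` ; `sB t` kills `z`
  have zA : sA (p t') ⬝ᵥ p x3 * d3 + sA (p t') ⬝ᵥ p x4 * d4 = 0 := by linear_combination -A4
  have zB : sB (p t) ⬝ᵥ p x3 * c3 + sB (p t) ⬝ᵥ p x4 * c4 = 0 := by linear_combination -B3
  have hprop : ∀ y, (sB (p t) ⬝ᵥ p x4) * (sA (p t') ⬝ᵥ y)
      = (sA (p t') ⬝ᵥ p x4) * (sB (p t) ⬝ᵥ y) := by
    intro y
    have h5 : (sB (p t) ⬝ᵥ p x4) • sA (p t') - (sA (p t') ⬝ᵥ p x4) • sB (p t) = 0 := by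
      refine eq_zero_of_four hgp hw ht ht' h4 hwt hwt' hw4 htt' ht4 ht'4 ?_ ?_ ?_ ?_ <;>
      simp only [sub_dotProduct, smul_dotProduct, smul_eq_mul, gA1, gA2, gA3, gB1, gB2, gB3] <;>
      ring
    have h6 := congrArg (fun z => z ⬝ᵥ y) h5
    simp only [sub_dotProduct, smul_dotProduct, smul_eq_mul, zero_dotProduct] at h6
    linear_combination h6
  have hA4 : sA (p t') ⬝ᵥ p x4 ≠ 0 := fun hc => At'
    (eq_zero_of_four hgp hw ht ht' h4 hwt hwt' hw4 htt' ht4 ht'4 gA1 gA2 gA3 hc)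
  have hB4 : sB (p t) ⬝ᵥ p x4 ≠ 0 := fun hc => Bt
    (eq_zero_of_four hgp hw ht ht' h4 hwt hwt' hw4 htt' ht4 ht'4 gB1 gB3 gB2 hc)
  have zA' : sA (p t') ⬝ᵥ p x3 * c3 + sA (p t') ⬝ᵥ p x4 * c4 = 0 := by
    apply mul_left_cancel₀ hB4
    have := hprop (p x3)
    have := hprop (p x4)
    rw [mul_zero, mul_add]
    linear_combination c3 * hprop (p x3) + c4 * hprop (p x4) + (sA (p t') ⬝ᵥ p x4) * zB
  have hfin : (c3 * d4 - c4 * d3) * (sA (p t') ⬝ᵥ p x4) = 0 := by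
    linear_combination c3 * zA - d3 * zA'
  exact (mul_ne_zero hdet hA4) hfin

/-- coefficients with respect to four points in general position -/
lemma exists_coef {p : V → Vec k} {N : Set V} (hgp : GenPos p N) {x1 x2 x3 x4 : V}
    (h1 : x1 ∈ N) (h2 : x2 ∈ N) (h3 : x3 ∈ N) (h4 : x4 ∈ N) (h12 : x1 ≠ x2) (h13 : x1 ≠ x3)
    (h14 : x1 ≠ x4) (h23 : x2 ≠ x3) (h24 : x2 ≠ x4) (h34 : x3 ≠ x4) (y : Vec k) :
    ∃ c1 c2 c3 c4 : k, y = c1 • p x1 + c2 • p x2 + c3 • p x3 + c4 • p x4 := by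
  have hs : (({x1, x2, x3, x4} : Finset V) : Set V) ⊆ N := by
    intro v hv
    simp only [Finset.coe_insert, Finset.coe_singleton, Set.mem_insert_iff,
      Set.mem_singleton_iff] at hv
    rcases hv with rfl | rfl | rfl | rfl <;> assumption
  have hc : ({x1, x2, x3, x4} : Finset V).card = 4 := by
    rw [Finset.card_insert_of_notMem (by simp [h12, h13, h14]),
      Finset.card_insert_of_notMem (by simp [h23, h24]), Finset.card_pair h34]
  obtain ⟨c, hcy⟩ := (hgp.mono hs).spans (by rw [hc]) y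
  refine ⟨c x1, c x2, c x3, c x4, ?_⟩
  rw [← hcy, Finset.sum_insert (by simp [h12, h13, h14]), Finset.sum_insert (by simp [h23, h24]),
    Finset.sum_pair h34]
  abel

namespace SixP

variable {p : V → Vec k} {M : Submodule k (V → Vec k)} {T O : Finset V}
  {y0 : Vec k} {ν γ : V → k}

/-- all coefficients of the dependency are nonzero -/
lemma nu_ne (h : SixP p M T O y0 ν γ) {z : V} (hz : z ∈ O) : ν z ≠ 0 := by
  intro h0
  have hsub : ((O.erase z : Finset V) : Set V) ⊆ ((T ∪ O : Finset V) : Set V) := by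
    exact_mod_cast (Finset.erase_subset z O).trans Finset.subset_union_right
  have hli := h.gp (O.erase z) hsub (by rw [Finset.card_erase_of_mem hz, h.hO])
  have hsum : ∑ x ∈ O.erase z, ν x • p x = 0 := by
    have := h.dep
    rw [← Finset.add_sum_erase O _ hz, h0, zero_smul, zero_add] at this
    exact this
  rw [Fintype.linearIndependent_iff] at hli
  have h1 := hli (fun x => ν x) (by
    rw [Finset.sum_coe_sort (O.erase z) (fun x => ν x • p x)]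
    exact hsum)
  have h2 : ∀ x ∈ O, ν x = 0 := by
    intro x hx
    by_cases hxz : x = z
    · rw [hxz, h0]
    · exact h1 ⟨x, Finset.mem_erase.mpr ⟨hxz, hx⟩⟩
  have h3 := h.norm
  rw [Finset.sum_eq_zero fun x hx => by rw [h2 x hx, zero_mul]] at h3
  exact zero_ne_one h3

/-- **Two cliques are impossible.** -/
theorem beta (h : SixP p M T O y0 ν γ) {U : Finset V} (hU : T ∪ O ⊆ U)
    (hgpU : GenPos p (U : Set V)) (hsupp : M ≤ Supp k U)
    (htr : ∀ Z ∈ M, Z ∈ RG p (T : Set V) → Ff O ν Z ⬝ᵥ y0 = 0 → Z ∈ RG p (U : Set V))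
    {j : V} (hj : j ∈ T) {N1 N2 : Finset V} (hN1 : N1 ⊆ U)
    (hN1c : 3 ≤ N1.card) {x1 x2 x3 x4 z w : V} (hL : Lab O x1 x2 x3 x4 z)
    (hx1 : x1 ∈ N1) (hx2 : x2 ∈ N1) (hx3 : x3 ∈ N2) (hx4 : x4 ∈ N2)
    (hw1 : w ∈ N1) (hw2 : w ∈ N2) (hwO : w ∉ O)
    (hr1 : ∀ Z ∈ M, Z ∈ RG p (N1 : Set V)) (hr2 : ∀ Z ∈ M, Z ∈ RG p (N2 : Set V))
    (hZj : ∀ Z ∈ M ⊓ Zer k N1 ⊓ Zer k N2, Z j = 0)
    (h2 : 2 ≤ finrank k (M ⊓ Zer k N1 ⊓ Zer k N2 : Submodule k (V → Vec k))) : False := by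
  have := h.fin
  have hx1O := hL.ha
  have hx2O := hL.hb
  have hx3O := hL.hc
  have hx4O := hL.hd
  have hzO := hL.he
  have hmO : ∀ {o : V}, o ∈ O → o ∈ U := fun ho => hU (Finset.mem_union_right _ ho)
  have hmT : ∀ {t : V}, t ∈ T → t ∈ U := fun ht => hU (Finset.mem_union_left _ ht)
  have hne : ∀ {t o : V}, t ∈ T → o ∈ O → t ≠ o := fun {t o} ht ho hto =>
    Finset.disjoint_left.mp h.dis ht (hto ▸ ho)
  obtain ⟨BB, hBB⟩ := exists_BB h.hT h.gpT
  have hνz := h.nu_ne hzO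
  -- the covector `lam`
  obtain ⟨lam, hlam⟩ := exists_covec hgpU {x1, x2, x3, x4} (by
    intro v hv
    simp only [Finset.coe_insert, Finset.coe_singleton, Set.mem_insert_iff,
      Set.mem_singleton_iff] at hv
    rcases hv with rfl | rfl | rfl | rfl
    exacts [hmO hx1O, hmO hx2O, hmO hx3O, hmO hx4O]) Finset.card_le_four γ
  have l1 : lam ⬝ᵥ p x1 = γ x1 := hlam x1 (by simp)
  have l2 : lam ⬝ᵥ p x2 = γ x2 := hlam x2 (by simp)
  have l3 : lam ⬝ᵥ p x3 = γ x3 := hlam x3 (by simp)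
  have l4 : lam ⬝ᵥ p x4 = γ x4 := hlam x4 (by simp)
  have hlam0 : lam ≠ 0 := by
    intro h0
    rw [h0, zero_dotProduct] at l1 l2 l3 l4
    have h5 := h.zeros_le (X' := {x1, x2, x3, x4}) (by
      intro v hv
      simp only [Finset.mem_insert, Finset.mem_singleton] at hv
      rcases hv with rfl | rfl | rfl | rfl <;> assumption) (by
      intro v hv
      simp only [Finset.mem_insert, Finset.mem_singleton] at hv
      rcases hv with rfl | rfl | rfl | rfl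
      exacts [l1.symm, l2.symm, l3.symm, l4.symm])
    rw [Finset.card_insert_of_notMem (by simp [hL.ab, hL.ac, hL.ad]),
      Finset.card_insert_of_notMem (by simp [hL.bc, hL.bd]), Finset.card_pair hL.cd] at h5
    omega
  set M0 : Submodule k (V → Vec k) := M ⊓ Zer k N1 ⊓ Zer k N2 with hM0
  have fM0 : FiniteDimensional k M0 :=
    Submodule.finiteDimensional_of_le (inf_le_left.trans inf_le_left)
  have hF : ∀ Z ∈ M0, Ff O ν Z = ν z • Z z := by
    rintro Z ⟨⟨hZ, z1⟩, z2⟩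
    rw [Ff_apply]
    refine Finset.sum_eq_single_of_mem z hzO fun x hx hxz => ?_
    rcases hL.cases hx with rfl | rfl | rfl | rfl | rfl
    · rw [z1 _ hx1, smul_zero]
    · rw [z1 _ hx2, smul_zero]
    · rw [z2 _ hx3, smul_zero]
    · rw [z2 _ hx4, smul_zero]
    · exact absurd rfl hxz
  have hB : ∀ Z ∈ M0, ∀ y, BB Z y = (Ff O ν Z ⬝ᵥ y) • lam := by
    intro Z hZ0 y
    obtain ⟨⟨hZ, z1⟩, z2⟩ := id hZ0
    have hz : ∀ x ∈ O, Z x = 0 → lam ⬝ᵥ p x = γ x →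
        (BB Z y - (Ff O ν Z ⬝ᵥ y) • lam) ⬝ᵥ p x = 0 := by
      intro x hx hZx hl
      have h5 := h.str Z hZ (BB Z) (hBB Z) x hx y
      rw [hZx, zero_dotProduct, zero_add] at h5
      rw [sub_dotProduct, smul_dotProduct, hl, h5, smul_eq_mul]
      ring
    rw [← sub_eq_zero]
    exact eq_zero_of_four hgpU (hmO hx1O) (hmO hx2O) (hmO hx3O) (hmO hx4O) hL.ab hL.ac hL.ad
      hL.bc hL.bd hL.cd (hz x1 hx1O (z1 _ hx1) l1) (hz x2 hx2O (z1 _ hx2) l2)
      (hz x3 hx3O (z2 _ hx3) l3) (hz x4 hx4O (z2 _ hx4) l4)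
  have hFj : ∀ Z ∈ M0, Z z ⬝ᵥ p j = 0 := by
    intro Z hZ
    have h5 := hB Z hZ (p j)
    rw [hBB Z j hj, hZj Z hZ] at h5
    have h6 := (smul_eq_zero.mp h5.symm).resolve_right hlam0
    rw [hF Z hZ, smul_dotProduct, smul_eq_mul] at h6
    exact (mul_eq_zero.mp h6).resolve_left hνz
  have hFz : ∀ Z ∈ M0, Z z ⬝ᵥ p z = 0 := fun Z hZ =>
    h.loop Z hZ.1.1 z (Finset.mem_union_right _ hzO)
  have hinj : ∀ Z ∈ M0, Z z = 0 → Z = 0 := by
    intro Z hZ hz0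
    have hF0 : Ff O ν Z = 0 := by rw [hF Z hZ, hz0, smul_zero]
    obtain ⟨⟨hZM, z1⟩, z2⟩ := id hZ
    have h5 : Z ∈ RG p (T : Set V) := by
      refine ⟨0, fun _ => by simp, fun t ht => ?_⟩
      have := hB Z hZ (p t)
      rw [hBB Z t (by exact_mod_cast ht), hF0, zero_dotProduct, zero_smul] at this
      rw [this, LinearMap.zero_apply]
    obtain ⟨S, hS, hSU⟩ := htr Z hZM h5 (by rw [hF0, zero_dotProduct])
    obtain ⟨a, ha, b, hb, c, hc, hab, hac, hbc⟩ := Finset.two_lt_card.mp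
      (show 2 < N1.card by omega)
    have hSz : ∀ v ∈ N1, S (p v) = 0 := fun v hv => by
      rw [← hSU v (by exact_mod_cast hN1 hv), z1 v hv]
    have hS0 : S = 0 := skew_eq_zero_of_three hgpU (by exact_mod_cast hN1 ha)
      (by exact_mod_cast hN1 hb) (by exact_mod_cast hN1 hc) hab hac hbc hS (hSz a ha)
      (hSz b hb) (hSz c hc)
    funext v
    by_cases hv : v ∈ U
    · rw [hSU v (by exact_mod_cast hv), hS0]; rfl
    · exact hsupp hZM v hv
  -- `Z z ⬝ᵥ a` as functionals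
  let fz : Vec k → (V → Vec k) →ₗ[k] k := fun a => dotR a ∘ₗ LinearMap.proj z
  have hfz : ∀ a Z, fz a Z = Z z ⬝ᵥ a := fun _ _ => rfl
  obtain ⟨t, t', htE, ht'E, htt'⟩ : ∃ t t', t ∈ (T.erase j).erase w ∧ t' ∈ (T.erase j).erase w ∧
      t ≠ t' := by
    have h5 : 1 < ((T.erase j).erase w).card := by
      have := Finset.pred_card_le_card_erase (s := T.erase j) (a := w)
      rw [Finset.card_erase_of_mem hj, h.hT] at this
      omega
    obtain ⟨t, ht, t', ht', htt'⟩ := Finset.one_lt_card.mp h5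
    exact ⟨t, t', ht, ht', htt'⟩
  obtain ⟨htw, ht⟩ := Finset.mem_erase.mp htE
  obtain ⟨ht'w, ht'⟩ := Finset.mem_erase.mp ht'E
  obtain ⟨htj, htT⟩ := Finset.mem_erase.mp ht
  obtain ⟨ht'j, ht'T⟩ := Finset.mem_erase.mp ht'
  have hjz := hne hj hzO
  -- upper bound
  have hup : finrank k M0 ≤ 2 := by
    have e1 := finrank_le_inf_ker M0 (fz (p t))
    have e2 := finrank_le_inf_ker (M0 ⊓ LinearMap.ker (fz (p t))) (fz (p t'))
    have e3 : (M0 ⊓ LinearMap.ker (fz (p t)) ⊓ LinearMap.ker (fz (p t')) :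
        Submodule k (V → Vec k)) = ⊥ := by
      rw [eq_bot_iff]
      rintro Z ⟨⟨hZ, g1⟩, g2⟩
      rw [Submodule.mem_bot]
      exact hinj Z hZ (eq_zero_of_four hgpU (hmO hzO) (hmT hj) (hmT htT) (hmT ht'T) hjz.symm
        (hne htT hzO).symm (hne ht'T hzO).symm htj.symm ht'j.symm htt' (hFz Z hZ) (hFj Z hZ)
        g1 g2)
    rw [e3, finrank_bot] at e2
    omega
  -- `lam` vanishes on `T - j`
  have hlamt : ∀ s ∈ T.erase j, lam ⬝ᵥ p s = 0 := by
    intro s hs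
    by_contra hls
    obtain ⟨hsj, hsT⟩ := Finset.mem_erase.mp hs
    have hg : ∀ Z ∈ M0, Z z ⬝ᵥ p s = 0 := by
      intro Z hZ
      have h5 := h.loop Z hZ.1.1 s (Finset.mem_union_left _ hsT)
      rw [← hBB Z s hsT, hB Z hZ, smul_dotProduct, smul_eq_mul] at h5
      have h6 := (mul_eq_zero.mp h5).resolve_right hls
      rw [hF Z hZ, smul_dotProduct, smul_eq_mul] at h6
      exact (mul_eq_zero.mp h6).resolve_left hνz
    obtain ⟨r, hr, hrs⟩ : ∃ r ∈ T.erase j, r ≠ s := by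
      by_cases hts : t = s
      · exact ⟨t', ht', fun hc => htt' (hts.trans hc.symm)⟩
      · exact ⟨t, ht, hts⟩
    obtain ⟨hrj, hrT⟩ := Finset.mem_erase.mp hr
    have e1 := finrank_le_inf_ker M0 (fz (p r))
    have e3 : (M0 ⊓ LinearMap.ker (fz (p r)) : Submodule k (V → Vec k)) = ⊥ := by
      rw [eq_bot_iff]
      rintro Z ⟨hZ, g1⟩
      rw [Submodule.mem_bot]
      exact hinj Z hZ (eq_zero_of_four hgpU (hmO hzO) (hmT hj) (hmT hsT) (hmT hrT) hjz.symm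
        (hne hsT hzO).symm (hne hrT hzO).symm hsj.symm hrj.symm hrs.symm (hFz Z hZ) (hFj Z hZ)
        (hg Z hZ) g1)
    rw [e3, finrank_bot] at e1
    omega
  -- coefficients
  have hcoef := exists_coef hgpU (by exact_mod_cast hmO hx1O) (by exact_mod_cast hmO hx2O)
    (by exact_mod_cast hmO hx3O) (by exact_mod_cast hmO hx4O) hL.ab hL.ac hL.ad hL.bc hL.bd hL.cd
  obtain ⟨c1, c2, c3, c4, hc⟩ := hcoef (p t)
  obtain ⟨d1, d2, d3, d4, hd⟩ := hcoef (p t')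
  -- strains
  have hstr : ∀ Z ∈ M, Z x1 = 0 → Z x2 = 0 → ∀ s ∈ T.erase j, ∀ e1 e2 e3 e4 : k,
      p s = e1 • p x1 + e2 • p x2 + e3 • p x3 + e4 • p x4 →
      (e3 • Z x3 + e4 • Z x4) ⬝ᵥ p s = 0 := by
    intro Z hZ z1 z2 s hs e1 e2 e3 e4 he
    obtain ⟨hsj, hsT⟩ := Finset.mem_erase.mp hs
    have s1 := h.str Z hZ (BB Z) (hBB Z) x1 hx1O (p s)
    have s2 := h.str Z hZ (BB Z) (hBB Z) x2 hx2O (p s)
    have s3 := h.str Z hZ (BB Z) (hBB Z) x3 hx3O (p s)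
    have s4 := h.str Z hZ (BB Z) (hBB Z) x4 hx4O (p s)
    rw [hBB Z s hsT] at s1 s2 s3 s4
    rw [z1, zero_dotProduct] at s1
    rw [z2, zero_dotProduct] at s2
    have s5 := h.loop Z hZ s (Finset.mem_union_left _ hsT)
    have s6 : Z s ⬝ᵥ p s = e1 * (Z s ⬝ᵥ p x1) + e2 * (Z s ⬝ᵥ p x2) + e3 * (Z s ⬝ᵥ p x3)
        + e4 * (Z s ⬝ᵥ p x4) := by
      conv_lhs => rw [he]
      simp only [dotProduct_add, dotProduct_smul, smul_eq_mul]
    have s7 : lam ⬝ᵥ p s = e1 * γ x1 + e2 * γ x2 + e3 * γ x3 + e4 * γ x4 := by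
      rw [he]
      simp only [dotProduct_add, dotProduct_smul, smul_eq_mul, l1, l2, l3, l4]
    rw [hlamt s hs] at s7
    rw [s5] at s6
    simp only [add_dotProduct, smul_dotProduct, smul_eq_mul]
    linear_combination e1 * s1 + e2 * s2 + e3 * s3 + e4 * s4 + s6 - (Ff O ν Z ⬝ᵥ p s) * s7
  -- the space of skew maps
  let SS : Submodule k (Vec k →ₗ[k] Vec k) :=
    { carrier := {s | IsSkew s ∧ s (p w) = 0 ∧ s (c3 • p x3 + c4 • p x4) ⬝ᵥ p t = 0 ∧
        s (d3 • p x3 + d4 • p x4) ⬝ᵥ p t' = 0}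
      add_mem' := by
        rintro s s' ⟨a1, a2, a3, a4⟩ ⟨b1, b2, b3, b4⟩
        refine ⟨fun y => ?_, ?_, ?_, ?_⟩
        · rw [LinearMap.add_apply, add_dotProduct, a1 y, b1 y, add_zero]
        · rw [LinearMap.add_apply, a2, b2, add_zero]
        · rw [LinearMap.add_apply, add_dotProduct, a3, b3, add_zero]
        · rw [LinearMap.add_apply, add_dotProduct, a4, b4, add_zero]
      zero_mem' := by
        refine ⟨fun y => ?_, ?_, ?_, ?_⟩ <;> simp
      smul_mem' := by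
        rintro c s ⟨a1, a2, a3, a4⟩
        refine ⟨fun y => ?_, ?_, ?_, ?_⟩
        · rw [LinearMap.smul_apply, smul_dotProduct, a1 y, smul_zero]
        · rw [LinearMap.smul_apply, a2, smul_zero]
        · rw [LinearMap.smul_apply, smul_dotProduct, a3, smul_zero]
        · rw [LinearMap.smul_apply, smul_dotProduct, a4, smul_zero] }
  have hSS : finrank k SS ≤ 1 := by
    refine kappa hgpU (hN1 hw1) (hmT htT) (hmT ht'T) (hmO hx1O) (hmO hx2O) (hmO hx3O) (hmO hx4O)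
      htw.symm ht'w.symm htt' ?_ ?_ (hne htT hx1O) (hne htT hx2O) (hne htT hx3O) (hne htT hx4O)
      (hne ht'T hx1O) (hne ht'T hx2O) (hne ht'T hx3O) (hne ht'T hx4O)
      hL.ab hL.ac hL.ad hL.bc hL.bd hL.cd hc hd fun s hs => hs
    · rintro rfl
      exact hwO hx3O
    · rintro rfl
      exact hwO hx4O
  have g1 := finrank_le_gauge_six (p := p) (N := N1) hr1
  have fM1 : FiniteDimensional k (M ⊓ Zer k N1 : Submodule k (V → Vec k)) :=
    Submodule.finiteDimensional_of_le inf_le_left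
  have g2 := finrank_le_gauge (p := p) (N := N2) (M := M ⊓ Zer k N1) (S := SS) (by
    rintro Z ⟨hZ, z1⟩
    obtain ⟨S, hS, hSN⟩ := hr2 Z hZ
    have hSN : ∀ x ∈ N2, Z x = S (p x) := fun x hx => hSN x (by exact_mod_cast hx)
    refine ⟨S, ⟨hS, ?_, ?_, ?_⟩, hSN⟩
    · rw [← hSN w hw2, z1 w hw1]
    · have := hstr Z hZ (z1 _ hx1) (z1 _ hx2) t ht c1 c2 c3 c4 hc
      rw [hSN x3 hx3, hSN x4 hx4, ← map_smul, ← map_smul, ← map_add] at this
      exact this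
    · have := hstr Z hZ (z1 _ hx1) (z1 _ hx2) t' ht' d1 d2 d3 d4 hd
      rw [hSN x3 hx3, hSN x4 hx4, ← map_smul, ← map_smul, ← map_add] at this
      exact this)
  rw [← hM0] at g2
  have := h.dim
  omega

end SixP

end GR
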