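import Pool.Agent.Lib.GR.Six5
import Pool.Agent.Lib.GR.Exch2

/-!
# The clique step at a vertex `t ∈ T`
-/

set_option linter.unusedSectionVars false

namespace GR

open Filter Module

open scoped Matrix

variable {k : Type*} [Field k] {V : Type*} [DecidableEq V]

/-- the flat `D = cl (E_U + t x0)` -/
noncomputable def sD (A : Finset V) (E : Finset (Sym2 V)) (v i t x0 : V) (p : V → Vec k) :
    Finset (Sym2 V) :=
  clF (sU A v i) (insert s(t, x0) (rest E (sU A v i))) p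

/-- The facts about the flat `D` at the vertex `t`. -/
structure StepD (A : Finset V) (E : Finset (Sym2 V)) (v i : V) (p : V → Vec k) (ν γ : V → k)
    (t : V) (D : Finset (Sym2 V)) : Prop where
  flat : IsFlatIn (sU A v i) D p
  mot : ∀ Z, Z ∈ Mot (sU A v i) (D : Set (Sym2 V)) p ↔
    Z ∈ Mot (sU A v i) (E : Set (Sym2 V)) p ∧ Ff (sT A E i v) ν Z ⬝ᵥ p t = 0
  subO : sT A E i v ⊆ nbr ((sU A v i).erase t) (D : Set (Sym2 V)) t
  mdim9 : mdim (sU A v i) (D : Set (Sym2 V)) p = 9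
  cov : ∀ x ∈ sT A E i v, γ x ≠ 0 → x ∈ (maxNs D t (sU A v i)).biUnion id
  subE : rest E (sU A v i) ⊆ D

/-- rigid on the motions: in the closure -/
lemma mem_clF_of_eps {B : Finset V} {S : Finset (Sym2 V)} (hS : S ⊆ Kf B) {p : V → Vec k}
    {a b : V} (hab : a ≠ b) (ha : a ∈ B) (hb : b ∈ B)
    (h : ∀ Z ∈ Mot B (S : Set (Sym2 V)) p, eps p a b Z = 0) : s(a, b) ∈ clF B S p := by
  rw [mem_clF, mk_mem_Kf]
  exact ⟨⟨hab, ha, hb⟩, (mem_clo_iff_Mot hS ha hb).mpr h⟩

lemma mem_Mot_insert {B : Finset V} {S : Finset (Sym2 V)} {p : V → Vec k} {a b : V}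
    (ha : a ∈ B) (hb : b ∈ B) {Z : V → Vec k} :
    Z ∈ Mot B ((insert s(a, b) S : Finset (Sym2 V)) : Set (Sym2 V)) p ↔
      Z ∈ Mot B (S : Set (Sym2 V)) p ∧ eps p a b Z = 0 := by
  constructor
  · intro hZ
    refine ⟨Mot_anti (by exact_mod_cast Finset.subset_insert _ _) p hZ,
      hZ.2.2 a ha b hb (by simp)⟩
  · rintro ⟨hZ, h0⟩
    refine ⟨hZ.1, hZ.2.1, fun x hx y hy hxy => ?_⟩
    rw [Finset.coe_insert, Set.mem_insert_iff] at hxy
    rcases hxy with hxy | hxy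
    · rcases Sym2.eq_iff.mp hxy with ⟨rfl, rfl⟩ | ⟨rfl, rfl⟩
      · exact h0
      · rw [eps_comm]
        exact h0
    · exact hZ.2.2 x hx y hy hxy

namespace SixG

variable [Infinite k] {A : Finset V} {E : Finset (Sym2 V)} {v i : V} {p : V → Vec k} {ν γ : V → k}
  {t : V}

lemma ti (h : SixG k A E v i) (ht : t ∈ sT A E v i) : s(t, i) ∉ E := by
  intro hc
  have h1 := (h.mem_sT.mp ht)
  have h2 : t ∈ sT A E i v := by
    rw [h.mem_sO]
    refine ⟨(h.ce.ne_of_mem h1.2).1.symm, by rw [Sym2.eq_swap]; exact hc⟩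
  exact Finset.disjoint_left.mp h.dis ht h2

lemma tv (h : SixG k A E v i) (ht : t ∈ sT A E v i) : s(t, v) ∈ E := by
  rw [Sym2.eq_swap]
  exact (h.mem_sT.mp ht).2

lemma tU (h : SixG k A E v i) (ht : t ∈ sT A E v i) : t ∈ sU A v i := h.T_sub ht

/-- the degree of `t` in `G - v - i` -/
lemma nbr_t (h : SixG k A E v i) (ht : t ∈ sT A E v i) :
    (nbr ((sU A v i).erase t) (E : Set (Sym2 V)) t).card + 1 = dg A E t := by
  have h1 : nbr ((sU A v i).erase t) (E : Set (Sym2 V)) t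
      = (nbr (A.erase t) (E : Set (Sym2 V)) t).erase v := by
    ext x
    rw [mem_nbr, Finset.mem_erase, mem_sU, Finset.mem_erase, h.ce.mem_nbr_iff, Finset.mem_coe]
    constructor
    · rintro ⟨⟨_, _, h2, _⟩, h3⟩
      exact ⟨h2, h3⟩
    · rintro ⟨h1, h2⟩
      have h3 := h.ce.ne_of_mem h2
      refine ⟨⟨h3.1.symm, ?_, h1, h3.2.2⟩, h2⟩
      rintro rfl
      exact h.ti ht h2
  rw [h1]
  exact Finset.card_erase_add_one (h.ce.mem_nbr_iff.mpr (h.tv ht))

lemma mdimUt (h : SixG k A E v i) (hp : Nice A p) (ht : t ∈ sT A E v i) :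
    mdim ((sU A v i).erase t) (E : Set (Sym2 V)) p = 6 + dg A E t := by
  have h1 := h.mdimU hp
  have h2 := h.ce.mdim_erase hp h.U_ssub (h.tU ht)
  have h3 := h.nbr_t ht
  omega

/-- **the step at `t`** -/
theorem step (h : SixG k A E v i) (hp : Nice A p) (hg : GoodAt (sU A v i) p)
    (hs : SixP p (Mot (sU A v i) (E : Set (Sym2 V)) p) (sT A E v i) (sT A E i v) (p i) ν γ)
    (ht : t ∈ sT A E v i)
    (hF : ∃ Z ∈ Mot (sU A v i) (E : Set (Sym2 V)) p, Ff (sT A E i v) ν Z ⬝ᵥ p t ≠ 0)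
    {x0 : V} (hx0 : x0 ∈ sT A E i v) (hγ : γ x0 ≠ 0) :
    StepD A E v i p ν γ t (sD A E v i t x0 p) := by
  set U := sU A v i with hU
  set F := rest E U with hFdef
  have htU : t ∈ U := h.tU ht
  have hOU : ∀ {x}, x ∈ sT A E i v → x ∈ U := fun hx => h.O_sub hx
  have hne : ∀ {x}, x ∈ sT A E i v → t ≠ x := fun {x} hx htx =>
    Finset.disjoint_left.mp h.dis ht (htx ▸ hx)
  have hFK : F ⊆ Kf U := rest_subset_Kf (fun e he => (mem_Kf.mp (h.ce.sub he)).1) _
  have hSK : insert s(t, x0) F ⊆ Kf U := by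
    intro e he
    rcases Finset.mem_insert.mp he with rfl | he
    · exact mk_mem_Kf.mpr ⟨hne hx0, htU, hOU hx0⟩
    · exact hFK he
  have hMF : Mot U (F : Set (Sym2 V)) p = Mot U (E : Set (Sym2 V)) p := Mot_rest U E p
  have hD : Mot U (sD A E v i t x0 p : Set (Sym2 V)) p
      = Mot U ((insert s(t, x0) F : Finset (Sym2 V)) : Set (Sym2 V)) p := Mot_clF hSK p
  have heps : ∀ {x}, x ∈ sT A E i v → ∀ Z ∈ Mot U (E : Set (Sym2 V)) p,
      eps p t x Z = γ x * (Ff (sT A E i v) ν Z ⬝ᵥ p t) := by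
    intro x hx Z hZ
    rw [eps_comm]
    exact hs.eps_OT hZ hx ht
  have hmot : ∀ Z, Z ∈ Mot U (sD A E v i t x0 p : Set (Sym2 V)) p ↔
      Z ∈ Mot U (E : Set (Sym2 V)) p ∧ Ff (sT A E i v) ν Z ⬝ᵥ p t = 0 := by
    intro Z
    rw [hD, mem_Mot_insert htU (hOU hx0), hMF]
    constructor
    · rintro ⟨h1, h2⟩
      rw [heps hx0 Z h1] at h2
      exact ⟨h1, (mul_eq_zero.mp h2).resolve_left hγ⟩
    · rintro ⟨h1, h2⟩
      refine ⟨h1, ?_⟩
      rw [heps hx0 Z h1, h2, mul_zero]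
  have hflat : IsFlatIn U (sD A E v i t x0 p) p := isFlatIn_clF _ _ _
  have hmemD : ∀ {x}, x ∈ sT A E i v → s(t, x) ∈ sD A E v i t x0 p := by
    intro x hx
    refine mem_clF_of_eps hSK (hne hx) htU (hOU hx) fun Z hZ => ?_
    rw [← hD, hmot] at hZ
    rw [heps hx Z hZ.1, hZ.2, mul_zero]
  have hnotE : ∀ {x}, x ∈ sT A E i v → γ x ≠ 0 → s(t, x) ∉ F := by
    intro x hx hγx hc
    obtain ⟨Z, hZ, hFZ⟩ := hF
    have h1 := hZ.2.2 t htU x (hOU hx) (by exact_mod_cast rest_subset _ _ hc)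
    rw [heps hx Z hZ] at h1
    exact (mul_ne_zero hγx hFZ) h1
  have hFD : F ⊆ sD A E v i t x0 p :=
    (Finset.subset_insert _ _).trans (subset_clF hSK p)
  refine ⟨hflat, hmot, ?_, ?_, ?_, hFD⟩
  · intro x hx
    rw [mem_nbr]
    exact ⟨Finset.mem_erase.mpr ⟨(hne hx).symm, hOU hx⟩, by exact_mod_cast hmemD hx⟩
  · -- dimension nine
    have h10 : finrank k (Mot U (E : Set (Sym2 V)) p) = 10 := h.mdimU hp
    have e1 : Mot U (sD A E v i t x0 p : Set (Sym2 V)) p
        = Mot U (E : Set (Sym2 V)) p ⊓ LinearMap.ker (Fy (sT A E i v) ν (p t)) := by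
      ext Z
      rw [hmot]
      exact Iff.rfl
    have h1 := finrank_le_inf_ker (Mot U (E : Set (Sym2 V)) p) (Fy (sT A E i v) ν (p t))
    have h2 : finrank k (Mot U (E : Set (Sym2 V)) p ⊓ LinearMap.ker (Fy (sT A E i v) ν (p t)) :
        Submodule k (V → Vec k)) < finrank k (Mot U (E : Set (Sym2 V)) p) := by
      refine Submodule.finrank_lt_finrank_of_lt (lt_of_le_of_ne inf_le_left fun hc => ?_)
      obtain ⟨Z, hZ, hFZ⟩ := hF
      rw [← hc] at hZ
      exact hFZ hZ.2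
    unfold mdim
    rw [e1]
    omega
  · -- covered points
    intro x hx hγx
    have hstress : ∀ {x x' : V}, x ∈ sT A E i v → x' ∈ sT A E i v → γ x ≠ 0 → γ x' ≠ 0 →
        x' ≠ x → x ∈ (maxNs (sD A E v i t x0 p) t U).biUnion id := by
      intro x x' hx hx' hγx hγx' hxx'
      obtain ⟨ω, hω, h1, h2⟩ := exists_stress_pair (S := F) (B := U) (p := p) htU (hOU hx')
        (hOU hx) hxx' (hne hx') (hnotE hx' hγx') (hnotE hx hγx) (t := γ x / γ x') (by
        intro Z hZ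
        rw [hMF] at hZ
        rw [heps hx Z hZ, heps hx' Z hZ]
        field_simp)
      refine mem_biUnion_of_stress htU hflat (hp.gp.mono (by exact_mod_cast sU_sub A v i)) hg
        (ω := ω) (Stress_mono ?_ p hω) (by rw [h1]; exact one_ne_zero)
      intro e he
      rw [Finset.mem_insert, Finset.mem_insert] at he
      rcases he with rfl | rfl | he
      · exact hmemD hx
      · exact hmemD hx'
      · exact hFD he
    -- a second point with `γ ≠ 0`
    obtain ⟨x', hx', hγx', hxx'⟩ : ∃ x' ∈ sT A E i v, γ x' ≠ 0 ∧ x' ≠ x := by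
      by_contra hcon
      push Not at hcon
      have h1 := hs.zeros_le (X' := (sT A E i v).erase x) (Finset.erase_subset _ _) (by
        intro y hy
        by_contra hy0
        exact (Finset.mem_erase.mp hy).1 (hcon y (Finset.mem_of_mem_erase hy) hy0))
      rw [Finset.card_erase_of_mem hx, h.cardO] at h1
      omega
    exact hstress hx hx' hγx hγx' hxx'

end SixG

namespace StepD

variable {A : Finset V} {E : Finset (Sym2 V)} {v i : V} {p : V → Vec k} {ν γ : V → k}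
  {t : V} {D : Finset (Sym2 V)}

/-- the clique tool -/
theorem ct (h : StepD A E v i p ν γ t D) (htU : t ∈ sU A v i)
    (hgp : GenPos p ((sU A v i : Finset V) : Set V)) (hg : GoodAt (sU A v i) p)
    {ρ : ℕ} (hρ : mdim ((sU A v i).erase t) (D : Set (Sym2 V)) p ≤ ρ + 6) :
    CT (maxNs D t (sU A v i)) (nbr ((sU A v i).erase t) (D : Set (Sym2 V)) t) ρ :=
  clique_tool htU h.flat hgp hg (by rw [h.mdim9]; omega)

/-- restriction of the motions to `U - t` -/
lemma mot_le (h : StepD A E v i p ν γ t D) : Mot ((sU A v i).erase t) (D : Set (Sym2 V)) p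
    ≤ Mot ((sU A v i).erase t) (E : Set (Sym2 V)) p := by
  intro Z hZ
  refine ⟨hZ.1, hZ.2.1, fun a ha b hb hab => hZ.2.2 a ha b hb ?_⟩
  have h1 : s(a, b) ∈ rest E (sU A v i) := by
    rw [mem_rest]
    refine ⟨by exact_mod_cast hab, fun x hx => ?_⟩
    rcases Sym2.mem_iff.mp hx with rfl | rfl
    · exact Finset.mem_of_mem_erase ha
    · exact Finset.mem_of_mem_erase hb
  exact_mod_cast h.subE h1

/-- the cliques are rigid on the motions with `F · t = 0` -/
lemma rigid (h : StepD A E v i p ν γ t D)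
    (hgp : GenPos p ((sU A v i : Finset V) : Set V)) {N : Finset V}
    (hN : N ∈ maxNs D t (sU A v i)) {Z : V → Vec k}
    (hZ : Z ∈ Mot (sU A v i) (E : Set (Sym2 V)) p) (hF : Ff (sT A E i v) ν Z ⬝ᵥ p t = 0) :
    Z ∈ RG p (N : Set V) := by
  obtain ⟨h1, h2, h3⟩ := maxNs_clique h.flat.1 hN
  have h4 := ((mem_maxNs h.flat.1).mp hN).2
  refine le_RG_of_Kf hgp h2 (by omega) ((Kf_mono (Finset.subset_insert t N)).trans h3) ?_
  rw [h.mot]
  exact ⟨hZ, hF⟩

end StepD

end GR
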