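import Pool.Agent.Lib.GR.Six6

/-!
# A degree six neighbour `j` which is not a twin: the two cases
-/

set_option linter.unusedSectionVars false

namespace GR

open Filter Module

open scoped Matrix

variable {k : Type*} [Field k] {V : Type*} [DecidableEq V]

lemma RG_mono {p : V → Vec k} {N N' : Set V} (h : N' ⊆ N) : RG p N ≤ RG p N' := by
  rintro Z ⟨S, hS, hx⟩
  exact ⟨S, hS, fun x hx' => hx x (h hx')⟩

lemma mem_RG_cut {p : V → Vec k} {W N : Finset V} (hN : N ⊆ W) {Z : V → Vec k} :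
    cut k W Z ∈ RG p (N : Set V) ↔ Z ∈ RG p (N : Set V) := by
  constructor
  · rintro ⟨S, hS, hx⟩
    exact ⟨S, hS, fun x hx' => by rw [← hx x hx', cut_apply Z (hN (by exact_mod_cast hx'))]⟩
  · rintro ⟨S, hS, hx⟩
    exact ⟨S, hS, fun x hx' => by rw [← hx x hx', cut_apply Z (hN (by exact_mod_cast hx'))]⟩

namespace SixG

variable [Infinite k] {A : Finset V} {E : Finset (Sym2 V)} {v i : V} {p : V → Vec k} {ν γ : V → k}
  {t : V}

/-- cliques contain at most two points of `O` -/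
theorem inter_le_two (_h : SixG k A E v i) (hp : Nice A p)
    (hs : SixP p (Mot (sU A v i) (E : Set (Sym2 V)) p) (sT A E v i) (sT A E i v) (p i) ν γ)
    (ht : t ∈ sT A E v i) {D : Finset (Sym2 V)} (hD : StepD A E v i p ν γ t D) {N : Finset V}
    (hN : N ∈ maxNs D t (sU A v i)) : (N ∩ sT A E i v).card ≤ 2 := by
  by_contra hcon
  obtain ⟨a, ha, b, hb, c, hc, hab, hac, hbc⟩ := Finset.two_lt_card.mp
    (show 2 < (N ∩ sT A E i v).card by omega)
  rw [Finset.mem_inter] at ha hb hc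
  refine hs.three ht ha.2 hb.2 hc.2 hab hac hbc fun Z hZ hF => ?_
  refine RG_mono ?_ (hD.rigid (hp.gp.mono (by exact_mod_cast sU_sub A v i)) hN hZ hF)
  intro x hx
  simp only [Set.mem_insert_iff, Set.mem_singleton_iff] at hx
  rcases hx with rfl | rfl | rfl
  · exact_mod_cast ha.1
  · exact_mod_cast hb.1
  · exact_mod_cast hc.1

/-- **degree six neighbour which is not a twin** -/
theorem classify6 (h : SixG k A E v i) (hp : Nice A p) (hg : GoodAt (sU A v i) p)
    (hs : SixP p (Mot (sU A v i) (E : Set (Sym2 V)) p) (sT A E v i) (sT A E i v) (p i) ν γ)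
    (ht : t ∈ sT A E v i) (h6 : dg A E t = 6) {D : Finset (Sym2 V)}
    (hD : StepD A E v i p ν γ t D) {x0 : V} (hx0 : x0 ∈ sT A E i v) (hγ : γ x0 ≠ 0) :
    Mot ((sU A v i).erase t) (D : Set (Sym2 V)) p
      = Mot ((sU A v i).erase t) (E : Set (Sym2 V)) p ∧
    ((∃ N, maxNs D t (sU A v i) = {N} ∧ (N ∩ sT A E i v).card = 2 ∧
        nbr ((sU A v i).erase t) (D : Set (Sym2 V)) t \ N = sT A E i v \ N) ∨
      ∃ N₁ N₂, N₁ ≠ N₂ ∧ maxNs D t (sU A v i) = {N₁, N₂} ∧ (N₁ ∩ N₂).card = 1 ∧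
        (N₁ ∩ sT A E i v).card = 2 ∧ (N₂ ∩ sT A E i v).card = 2 ∧
        N₁ ∩ N₂ ∩ sT A E i v = ∅ ∧ ∃ z ∈ sT A E i v, z ∉ N₁ ∧ z ∉ N₂ ∧
          nbr ((sU A v i).erase t) (D : Set (Sym2 V)) t \ (N₁ ∪ N₂) = {z}) := by
  have hgp : GenPos p ((sU A v i : Finset V) : Set V) :=
    hp.gp.mono (by exact_mod_cast sU_sub A v i)
  have hne : (sT A E i v ∩ (maxNs D t (sU A v i)).biUnion id).Nonempty :=
    ⟨x0, Finset.mem_inter.mpr ⟨hx0, hD.cov x0 hx0 hγ⟩⟩
  have h12 := h.mdimUt hp ht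
  rw [h6] at h12
  have hle := Submodule.finrank_mono hD.mot_le
  have hle' : mdim ((sU A v i).erase t) (D : Set (Sym2 V)) p ≤ 12 :=
    le_trans hle (show mdim ((sU A v i).erase t) (E : Set (Sym2 V)) p ≤ 12 by omega)
  have h1 := (hD.ct (h.tU ht) hgp hg (ρ := 6) (by omega)).classify le_rfl hD.subO h.cardO
    (fun N hN => h.inter_le_two hp hs ht hD hN) hne
  refine ⟨?_, h1.2⟩
  refine Submodule.eq_of_le_of_finrank_le hD.mot_le ?_
  by_contra hcon
  have h2 : mdim ((sU A v i).erase t) (D : Set (Sym2 V)) p ≤ 11 := by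
    have h3 : mdim ((sU A v i).erase t) (D : Set (Sym2 V)) p
        < mdim ((sU A v i).erase t) (E : Set (Sym2 V)) p := not_le.mp hcon
    omega
  have h3 := (hD.ct (h.tU ht) hgp hg (ρ := 5) (by omega)).classify (by norm_num) hD.subO h.cardO
    (fun N hN => h.inter_le_two hp hs ht hD hN) hne
  exact absurd h3.1 (by norm_num)

/-- motions of `G - v - i` restricted to `U - t` -/
lemma cut_mem (h : SixG k A E v i) {Z : V → Vec k} {W : Finset V} (hW : W ⊆ sU A v i)
    (hZ : Z ∈ Mot (sU A v i) (E : Set (Sym2 V)) p) :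
    cut k W Z ∈ Mot W (E : Set (Sym2 V)) p := by
  have _ := h.adj
  exact cut_mem_Mot_of_subset hW hZ

/-- **The case of two cliques is impossible.** -/
theorem not_two (h : SixG k A E v i) (hp : Nice A p)
    (hs : SixP p (Mot (sU A v i) (E : Set (Sym2 V)) p) (sT A E v i) (sT A E i v) (p i) ν γ)
    (ht : t ∈ sT A E v i) (h6 : dg A E t = 6) {D : Finset (Sym2 V)}
    (hD : StepD A E v i p ν γ t D)
    (heq : Mot ((sU A v i).erase t) (D : Set (Sym2 V)) p
      = Mot ((sU A v i).erase t) (E : Set (Sym2 V)) p)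
    {N₁ N₂ : Finset V} (hJ : maxNs D t (sU A v i) = {N₁, N₂}) (h12 : (N₁ ∩ N₂).card = 1)
    (hN1 : (N₁ ∩ sT A E i v).card = 2) (hN2 : (N₂ ∩ sT A E i v).card = 2)
    (hdis : N₁ ∩ N₂ ∩ sT A E i v = ∅) {z : V} (hz : z ∈ sT A E i v) (hz1 : z ∉ N₁)
    (hz2 : z ∉ N₂)
    (hnb : nbr ((sU A v i).erase t) (D : Set (Sym2 V)) t \ (N₁ ∪ N₂) = {z}) : False := by
  set U := sU A v i with hU
  have hgp : GenPos p ((U : Finset V) : Set V) := hp.gp.mono (by exact_mod_cast sU_sub A v i)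
  have htU : t ∈ U := h.tU ht
  obtain ⟨c1a, c1b, c1c⟩ := maxNs_clique hD.flat.1 (N := N₁) (t := t) (by rw [hJ]; simp)
  obtain ⟨c2a, c2b, c2c⟩ := maxNs_clique hD.flat.1 (N := N₂) (t := t) (by rw [hJ]; simp)
  have f1 := ((mem_maxNs hD.flat.1).mp (show N₁ ∈ maxNs D t U by rw [hJ]; simp)).2
  have f2 := ((mem_maxNs hD.flat.1).mp (show N₂ ∈ maxNs D t U by rw [hJ]; simp)).2
  have s1 : N₁ ⊆ U.erase t := fun x hx => Finset.mem_erase.mpr
    ⟨fun hc => c1a (hc ▸ hx), c1b hx⟩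
  have s2 : N₂ ⊆ U.erase t := fun x hx => Finset.mem_erase.mpr
    ⟨fun hc => c2a (hc ▸ hx), c2b hx⟩
  -- the points
  obtain ⟨w, hw⟩ := Finset.card_eq_one.mp h12
  have hw12 : w ∈ N₁ ∩ N₂ := by rw [hw]; simp
  obtain ⟨hw1, hw2⟩ := Finset.mem_inter.mp hw12
  have hwO : w ∉ sT A E i v := by
    intro hc
    have : w ∈ N₁ ∩ N₂ ∩ sT A E i v := Finset.mem_inter.mpr ⟨hw12, hc⟩
    rw [hdis] at this
    simp at this
  obtain ⟨x1, x2, hx12, hX1⟩ := Finset.card_eq_two.mp hN1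
  obtain ⟨x3, x4, hx34, hX2⟩ := Finset.card_eq_two.mp hN2
  have m1 : x1 ∈ N₁ ∩ sT A E i v := by rw [hX1]; simp
  have m2 : x2 ∈ N₁ ∩ sT A E i v := by rw [hX1]; simp
  have m3 : x3 ∈ N₂ ∩ sT A E i v := by rw [hX2]; simp
  have m4 : x4 ∈ N₂ ∩ sT A E i v := by rw [hX2]; simp
  rw [Finset.mem_inter] at m1 m2 m3 m4
  have hcross : ∀ {x y}, x ∈ N₁ ∧ x ∈ sT A E i v → y ∈ N₂ ∧ y ∈ sT A E i v → x ≠ y := by
    rintro x y ⟨a1, a2⟩ ⟨b1, b2⟩ rfl
    have : x ∈ N₁ ∩ N₂ ∩ sT A E i v := by simp [a1, a2, b1]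
    rw [hdis] at this
    simp at this
  have hL : Lab (sT A E i v) x1 x2 x3 x4 z := by
    have h1z : x1 ≠ z := fun hc => hz1 (hc ▸ m1.1)
    have h2z : x2 ≠ z := fun hc => hz1 (hc ▸ m2.1)
    have h3z : x3 ≠ z := fun hc => hz2 (hc ▸ m3.1)
    have h4z : x4 ≠ z := fun hc => hz2 (hc ▸ m4.1)
    refine ⟨?_, hx12, hcross m1 m3, hcross m1 m4, h1z, hcross m2 m3, hcross m2 m4, h2z, hx34,
      h3z, h4z⟩
    refine (Finset.eq_of_subset_of_card_le ?_ ?_).symm
    · intro x hx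
      simp only [Finset.mem_insert, Finset.mem_singleton] at hx
      rcases hx with rfl | rfl | rfl | rfl | rfl
      exacts [m1.2, m2.2, m3.2, m4.2, hz]
    · rw [h.cardO, Finset.card_insert_of_notMem (by
          simp [hx12, hcross m1 m3, hcross m1 m4, h1z]),
        Finset.card_insert_of_notMem (by simp [hcross m2 m3, hcross m2 m4, h2z]),
        Finset.card_insert_of_notMem (by simp [hx34, h3z]), Finset.card_pair h4z]
  -- rigidity on the motions of `U - t`
  have hrig : ∀ {N : Finset V}, N ⊆ U.erase t → 4 ≤ N.card → Kf (insert t N) ⊆ D →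
      ∀ Z ∈ Mot (U.erase t) (E : Set (Sym2 V)) p, Z ∈ RG p (N : Set V) := by
    intro N hN h4 hK Z hZ
    rw [← heq] at hZ
    exact le_RG_of_Kf (hgp.mono (by exact_mod_cast Finset.erase_subset t U)) hN (by omega)
      ((Kf_mono (Finset.subset_insert t N)).trans hK) hZ
  have hrM : ∀ {N : Finset V}, N ⊆ U.erase t → 4 ≤ N.card → Kf (insert t N) ⊆ D →
      ∀ Z ∈ Mot U (E : Set (Sym2 V)) p, Z ∈ RG p (N : Set V) := by
    intro N hN h4 hK Z hZ
    rw [← mem_RG_cut hN]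
    exact hrig hN h4 hK _ (cut_mem_Mot_of_subset (Finset.erase_subset t U) hZ)
  -- neighbours of `t`
  have hnbE : ∀ x, x ∈ nbr (U.erase t) (E : Set (Sym2 V)) t → x ∈ N₁ ∨ x ∈ N₂ ∨ x = z := by
    intro x hx
    rw [mem_nbr] at hx
    have h1 : x ∈ nbr (U.erase t) (D : Set (Sym2 V)) t := by
      rw [mem_nbr]
      refine ⟨hx.1, ?_⟩
      have : s(t, x) ∈ rest E U := by
        rw [mem_rest]
        refine ⟨by exact_mod_cast hx.2, fun y hy => ?_⟩
        rcases Sym2.mem_iff.mp hy with rfl | rfl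
        · exact htU
        · exact Finset.mem_of_mem_erase hx.1
      exact_mod_cast hD.subE this
    by_contra hcon
    push Not at hcon
    have h2 : x ∈ nbr (U.erase t) (D : Set (Sym2 V)) t \ (N₁ ∪ N₂) := by
      rw [Finset.mem_sdiff, Finset.mem_union, not_or]
      exact ⟨h1, hcon.1, hcon.2.1⟩
    rw [hnb, Finset.mem_singleton] at h2
    exact hcon.2.2 h2
  have hdeg : (nbr (U.erase t) (E : Set (Sym2 V)) t).card = 5 := by
    have := h.nbr_t ht
    rw [← hU] at this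
    omega
  refine hs.beta h.TO_sub hgp (Mot_le_Supp _ _ _) ?_ ht (N1 := N₁) (N2 := N₂) c1b (by omega) hL
    m1.1 m2.1 m3.1 m4.1 hw1 hw2 hwO (hrM s1 f1 c1c) (hrM s2 f2 c2c) ?_ ?_
  · intro Z hZ hT hF
    obtain ⟨S, hS, hSx⟩ := h.trivial_of hp hs.str hZ hT hF
    exact ⟨S, hS, fun x hx => hSx x (by exact_mod_cast hx)⟩
  · -- `Z t = 0`
    rintro Z ⟨⟨hZ, z1⟩, z2⟩
    obtain ⟨X, hX, hX4⟩ := Finset.exists_subset_card_eq
      (show 4 ≤ ((nbr (U.erase t) (E : Set (Sym2 V)) t).erase z).card by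
        have := Finset.pred_card_le_card_erase (s := nbr (U.erase t) (E : Set (Sym2 V)) t) (a := z)
        omega)
    obtain ⟨a, b, c, d, hab, hac, had, hbc, hbd, hcd, rfl⟩ := Finset.card_eq_four.mp hX4
    have hsub : ∀ x ∈ ({a, b, c, d} : Finset V), x ∈ U ∧ Z t ⬝ᵥ p x = 0 := by
      intro x hx
      obtain ⟨h1, h2⟩ := Finset.mem_erase.mp (hX hx)
      have h3 := (mem_nbr.mp h2)
      have h4 : x ∈ U := Finset.mem_of_mem_erase h3.1
      refine ⟨h4, ?_⟩
      have h5 : Z x = 0 := by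
        rcases hnbE x h2 with h5 | h5 | h5
        · exact z1 x h5
        · exact z2 x h5
        · exact absurd h5 h1
      have h6 := hZ.2.2 t htU x h4 h3.2
      rw [eps_apply, h5, zero_dotProduct, add_zero] at h6
      exact h6
    exact eq_zero_of_four hgp (hsub a (by simp)).1 (hsub b (by simp)).1 (hsub c (by simp)).1
      (hsub d (by simp)).1 hab hac had hbc hbd hcd (hsub a (by simp)).2 (hsub b (by simp)).2
      (hsub c (by simp)).2 (hsub d (by simp)).2
  · -- dimension at least two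
    set J := Mot (U.erase t) (E : Set (Sym2 V)) p with hJdef
    have hJ12 : finrank k J = 12 := by
      have := h.mdimUt hp ht
      rw [h6] at this
      exact this
    have g1 := finrank_le_gauge_six (p := p) (N := N₁) (M := J) (hrig s1 f1 c1c)
    have fJ1 : FiniteDimensional k (J ⊓ Zer k N₁ : Submodule k (V → Vec k)) :=
      Submodule.finiteDimensional_of_le inf_le_left
    let SS : Submodule k (Vec k →ₗ[k] Vec k) :=
      { carrier := {s | IsSkew s ∧ s (p w) = 0}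
        add_mem' := by
          rintro s s' ⟨a1, a2⟩ ⟨b1, b2⟩
          refine ⟨fun y => ?_, ?_⟩
          · rw [LinearMap.add_apply, add_dotProduct, a1 y, b1 y, add_zero]
          · rw [LinearMap.add_apply, a2, b2, add_zero]
        zero_mem' := ⟨fun y => by simp, by simp⟩
        smul_mem' := by
          rintro c s ⟨a1, a2⟩
          refine ⟨fun y => ?_, ?_⟩
          · rw [LinearMap.smul_apply, smul_dotProduct, a1 y, smul_zero]
          · rw [LinearMap.smul_apply, a2, smul_zero] }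
    have hSS : finrank k SS ≤ 3 := by
      obtain ⟨X, hX, hX3⟩ := Finset.exists_subset_card_eq (show 3 ≤ (N₁.erase w).card by
        have := Finset.pred_card_le_card_erase (s := N₁) (a := w)
        omega)
      obtain ⟨a, b, c, hab, hac, hbc, rfl⟩ := Finset.card_eq_three.mp hX3
      have hm : ∀ x ∈ ({a, b, c} : Finset V), x ∈ N₁ ∧ w ≠ x := fun x hx => by
        have := Finset.mem_erase.mp (hX hx)
        exact ⟨this.2, this.1.symm⟩
      exact finrank_skew_le_three (hgp.mono (by exact_mod_cast c1b)) hw1 (hm a (by simp)).1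
        (hm b (by simp)).1 (hm c (by simp)).1 (hm a (by simp)).2 (hm b (by simp)).2
        (hm c (by simp)).2 hab hac hbc fun s hs => hs
    have g2 := finrank_le_gauge (p := p) (N := N₂) (M := J ⊓ Zer k N₁) (S := SS) (by
      rintro Z ⟨hZ, z1⟩
      obtain ⟨S, hS, hSN⟩ := hrig s2 f2 c2c Z hZ
      refine ⟨S, ⟨hS, ?_⟩, fun x hx => hSN x (by exact_mod_cast hx)⟩
      rw [← hSN w (by exact_mod_cast hw2), z1 w hw1])
    have fJ2 : FiniteDimensional k (J ⊓ Zer k N₁ ⊓ Zer k N₂ : Submodule k (V → Vec k)) :=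
      Submodule.finiteDimensional_of_le (inf_le_left.trans inf_le_left)
    have g3 := finrank_le_inf_ker (J ⊓ Zer k N₁ ⊓ Zer k N₂)
      (dotR (p t) ∘ₗ (LinearMap.proj z : (V → Vec k) →ₗ[k] Vec k))
    have hle : (J ⊓ Zer k N₁ ⊓ Zer k N₂ ⊓
        LinearMap.ker (dotR (p t) ∘ₗ (LinearMap.proj z : (V → Vec k) →ₗ[k] Vec k)) :
        Submodule k (V → Vec k)) ≤
        Mot U (E : Set (Sym2 V)) p ⊓ Zer k N₁ ⊓ Zer k N₂ := by
      rintro Z ⟨⟨⟨hZ, z1⟩, z2⟩, hz0⟩
      refine ⟨⟨?_, z1⟩, z2⟩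
      have hz0 : Z z ⬝ᵥ p t = 0 := hz0
      have hZt : Z t = 0 := hZ.1 t (Finset.notMem_erase t U)
      have hedge : ∀ b ∈ U, s(t, b) ∈ E → eps p t b Z = 0 := by
        intro b hb htb
        have hbt : b ≠ t := (h.ce.ne_of_mem htb).1.symm
        have hbn : b ∈ nbr (U.erase t) (E : Set (Sym2 V)) t := by
          rw [mem_nbr]
          exact ⟨Finset.mem_erase.mpr ⟨hbt, hb⟩, by exact_mod_cast htb⟩
        rw [eps_apply, hZt, zero_dotProduct, zero_add]
        rcases hnbE b hbn with h5 | h5 | h5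
        · rw [z1 b h5, zero_dotProduct]
        · rw [z2 b h5, zero_dotProduct]
        · rw [h5, hz0]
      refine ⟨fun x hx => hZ.1 x fun hc => hx (Finset.mem_of_mem_erase hc), fun x hx => ?_, ?_⟩
      · by_cases hxt : x = t
        · rw [hxt, hZt, zero_dotProduct]
        · exact hZ.2.1 x (Finset.mem_erase.mpr ⟨hxt, hx⟩)
      · intro a ha b hb hab
        have hab' : s(a, b) ∈ E := by exact_mod_cast hab
        by_cases hat : a = t
        · rw [hat] at hab' ⊢
          exact hedge b hb hab'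
        · by_cases hbt : b = t
          · rw [hbt] at hab' ⊢
            rw [eps_comm]
            exact hedge a ha (by rw [Sym2.eq_swap]; exact hab')
          · exact hZ.2.2 a (Finset.mem_erase.mpr ⟨hat, ha⟩) b (Finset.mem_erase.mpr ⟨hbt, hb⟩) hab
    have fM : FiniteDimensional k (Mot U (E : Set (Sym2 V)) p ⊓ Zer k N₁ ⊓ Zer k N₂ :
        Submodule k (V → Vec k)) :=
      Submodule.finiteDimensional_of_le (inf_le_left.trans inf_le_left)
    have g4 := Submodule.finrank_mono hle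
    omega

end SixG

end GR
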