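import Pool.Agent.Lib.GR.Six7

/-!
# The case of one clique, and twins
-/

set_option linter.unusedSectionVars false

namespace GR

open Filter Module

open scoped Matrix

variable {k : Type*} [Field k] {V : Type*} [DecidableEq V]

lemma Ff_triv {U O : Finset V} (hO : O ⊆ U) {p : V → Vec k} {ν : V → k}
    (hdep : ∑ x ∈ O, ν x • p x = 0) (L : Matrix (Fin 4) (Fin 4) k) :
    Ff O ν (triv U p L) = 0 := by
  rw [Ff_apply]
  have h1 : ∀ x ∈ O, ν x • triv U p L x = Matrix.mulVecLin L (ν x • p x) := by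
    intro x hx
    rw [triv_apply p L (hO hx), map_smul, Matrix.mulVecLin_apply]
  rw [Finset.sum_congr rfl h1, ← map_sum, hdep, map_zero]

namespace SixG

variable [Infinite k] {A : Finset V} {E : Finset (Sym2 V)} {v i : V} {p : V → Vec k} {ν γ : V → k}
  {t : V}

/-- the functionals `F · t` is nonzero at all regular positions with the same `γ` -/
lemma exists_F_ne (h : SixG k A E v i) {p' : V → Vec k} (hp : Regular A p) (hp' : Regular A p')
    (hs : SixP p (Mot (sU A v i) (E : Set (Sym2 V)) p) (sT A E v i) (sT A E i v) (p i) ν γ)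
    {y0' : Vec k} {ν' γ' : V → k}
    (hs' : SixP p' (Mot (sU A v i) (E : Set (Sym2 V)) p') (sT A E v i) (sT A E i v) y0' ν' γ')
    (ht : t ∈ sT A E v i)
    (hF : ∃ Z ∈ Mot (sU A v i) (E : Set (Sym2 V)) p, Ff (sT A E i v) ν Z ⬝ᵥ p t ≠ 0)
    {a : V} (ha : a ∈ sT A E i v) (hγ : γ a ≠ 0) :
    ∃ Z ∈ Mot (sU A v i) (E : Set (Sym2 V)) p', Ff (sT A E i v) ν' Z ⬝ᵥ p' t ≠ 0 := by
  by_contra hcon
  push Not at hcon
  obtain ⟨Z, hZ, hFZ⟩ := hF
  have hat : a ≠ t := fun hc => Finset.disjoint_left.mp h.dis ht (hc ▸ ha)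
  have h1 := eps_const (fun e he => (mem_Kf.mp (h.ce.sub he)).1)
    (hp'.mono (sU_sub A v i)) (hp.mono (sU_sub A v i)) (h.O_sub ha) (h.T_sub ht) hat
    (fun Z' hZ' => by rw [hs'.eps_OT hZ' ha ht, hcon Z' hZ', mul_zero]) Z hZ
  rw [hs.eps_OT hZ ha ht] at h1
  exact (mul_ne_zero hγ hFZ) h1

/-- **The case of one clique is impossible.** -/
theorem not_one (h : SixG k A E v i) (hp : Nice A p)
    (hs : SixP p (Mot (sU A v i) (E : Set (Sym2 V)) p) (sT A E v i) (sT A E i v) (p i) ν γ)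
    (ht : t ∈ sT A E v i)
    (hgam : ∀ᶠ q in gen k (Vec k), SixP (Function.update p t q)
      (Mot (sU A v i) (E : Set (Sym2 V)) (Function.update p t q)) (sT A E v i) (sT A E i v)
      (p i) ν γ)
    (hF : ∃ Z ∈ Mot (sU A v i) (E : Set (Sym2 V)) p, Ff (sT A E i v) ν Z ⬝ᵥ p t ≠ 0)
    {N : Finset V} (hN : N ⊆ (sU A v i).erase t)
    (hr : ∀ Z ∈ Mot ((sU A v i).erase t) (E : Set (Sym2 V)) p, Z ∈ RG p (N : Set V))
    {a b : V} (haN : a ∈ N) (hbN : b ∈ N) (haO : a ∈ sT A E i v) (hbO : b ∈ sT A E i v)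
    (hab : a ≠ b) (hγa : γ a ≠ 0) {m n : V} (hm : m ∈ N) (hn : n ∈ N) (hmn : m ≠ n)
    (ham : a ≠ m) (han : a ≠ n) (hbm : b ≠ m) (hbn : b ≠ n) (htm : s(t, m) ∈ E)
    (htn : s(t, n) ∈ E) : False := by
  set U := sU A v i with hU
  have hgp : GenPos p ((U : Finset V) : Set V) := hp.gp.mono (by exact_mod_cast sU_sub A v i)
  have htU : t ∈ U := h.tU ht
  have hNU : ∀ {x}, x ∈ N → x ∈ U := fun hx => Finset.mem_of_mem_erase (hN hx)
  have hNt : ∀ {x}, x ∈ N → x ≠ t := fun hx => (Finset.mem_erase.mp (hN hx)).1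
  -- the covector `g`
  obtain ⟨g, hg⟩ := exists_covec hgp {a, b, m, n} (by
    intro x hx
    simp only [Finset.coe_insert, Finset.coe_singleton, Set.mem_insert_iff,
      Set.mem_singleton_iff] at hx
    rcases hx with rfl | rfl | rfl | rfl
    exacts [hNU haN, hNU hbN, hNU hm, hNU hn]) Finset.card_le_four
    (fun x => if x = a then γ a else if x = b then γ b else 0)
  have ga : g ⬝ᵥ p a = γ a := by rw [hg a (by simp), if_pos rfl]
  have gb : g ⬝ᵥ p b = γ b := by rw [hg b (by simp), if_neg hab.symm, if_pos rfl]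
  have gm : g ⬝ᵥ p m = 0 := by rw [hg m (by simp), if_neg ham.symm, if_neg hbm.symm]
  have gn : g ⬝ᵥ p n = 0 := by rw [hg n (by simp), if_neg han.symm, if_neg hbn.symm]
  have hgq : ∀ᶠ q in gen k (Vec k), g ⬝ᵥ q ≠ 0 :=
    (polyLine_vecDot g).eventually_ne ⟨p a, by rw [ga]; exact hγa⟩
  obtain ⟨q, ⟨hq1, hq2⟩, hq3, hq4⟩ := ((hgam.and hgq).and
    (hp.upd t (sU_sub A v i htU))).exists
  set p' := Function.update p t q with hp'
  have hp't : p' t = q := by rw [hp', Function.update_self]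
  have hp'x : ∀ x, x ≠ t → p' x = p x := fun x hx => by rw [hp', Function.update_of_ne hx]
  obtain ⟨Z1, hZ1, hFZ1⟩ := h.exists_F_ne hp.reg hq3 hs hq1 ht hF haO hγa
  rw [hp't] at hFZ1
  -- gauge
  have hM : Mot (U.erase t) (E : Set (Sym2 V)) p' = Mot (U.erase t) (E : Set (Sym2 V)) p :=
    Mot_congr_pts fun x hx => hp'x x (Finset.mem_erase.mp hx).1
  have hc1 : cut k (U.erase t) Z1 ∈ Mot (U.erase t) (E : Set (Sym2 V)) p := by
    rw [← hM]
    exact cut_mem_Mot_of_subset (Finset.erase_subset t U) hZ1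
  obtain ⟨S, hS, hSN⟩ := (mem_RG_cut hN).mp (hr _ hc1)
  have hSN : ∀ x ∈ N, Z1 x = S (p x) := fun x hx => hSN x (by exact_mod_cast hx)
  set L := LinearMap.toMatrix' S with hLdef
  have hL : L ∈ Skew k := Skew_of_isSkew hS
  have hLS : ∀ y, L *ᵥ y = S y := fun y => LinearMap.toMatrix'_mulVec S y
  set Z2 := Z1 - triv U p' L with hZ2def
  have hZ2 : Z2 ∈ Mot U (E : Set (Sym2 V)) p' :=
    Submodule.sub_mem _ hZ1 (triv_mem_Mot U _ p' hL)
  have hZ2N : ∀ x ∈ N, Z2 x = 0 := by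
    intro x hx
    rw [hZ2def, Pi.sub_apply, triv_apply p' L (hNU hx), hLS, hp'x x (hNt hx), hSN x hx, sub_self]
  have hF2 : Ff (sT A E i v) ν Z2 = Ff (sT A E i v) ν Z1 := by
    rw [hZ2def, map_sub, Ff_triv h.O_sub hq1.dep, sub_zero]
  obtain ⟨BB, hBB⟩ := exists_BB hq1.hT hq1.gpT
  have hBt : BB Z2 q = Z2 t := by rw [← hp't]; exact hBB Z2 t ht
  have hsa := hq1.str Z2 hZ2 (BB Z2) (hBB Z2) a haO q
  have hsb := hq1.str Z2 hZ2 (BB Z2) (hBB Z2) b hbO q
  rw [hZ2N a haN, zero_dotProduct, zero_add, hBt, hF2, hp'x a (hNt haN)] at hsa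
  rw [hZ2N b hbN, zero_dotProduct, zero_add, hBt, hF2, hp'x b (hNt hbN)] at hsb
  have hedge : ∀ x ∈ N, s(t, x) ∈ E → Z2 t ⬝ᵥ p x = 0 := by
    intro x hx htx
    have h6 := hZ2.2.2 t htU x (hNU hx) (by exact_mod_cast htx)
    rw [eps_apply, hZ2N x hx, zero_dotProduct, add_zero, hp'x x (hNt hx)] at h6
    exact h6
  have hzero : Z2 t - (Ff (sT A E i v) ν Z1 ⬝ᵥ q) • g = 0 := by
    refine eq_zero_of_four hgp (hNU haN) (hNU hbN) (hNU hm) (hNU hn) hab ham han hbm hbn hmn
      ?_ ?_ ?_ ?_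
    · rw [sub_dotProduct, smul_dotProduct, hsa, ga, smul_eq_mul]; ring
    · rw [sub_dotProduct, smul_dotProduct, hsb, gb, smul_eq_mul]; ring
    · rw [sub_dotProduct, smul_dotProduct, hedge m hm htm, gm, smul_zero, sub_zero]
    · rw [sub_dotProduct, smul_dotProduct, hedge n hn htn, gn, smul_zero, sub_zero]
  have hloop := hZ2.2.1 t htU
  rw [hp't] at hloop
  rw [sub_eq_zero.mp hzero, smul_dotProduct, smul_eq_mul] at hloop
  exact (mul_ne_zero hFZ1 hq2) hloop

/-- **A degree six neighbour of `v` in `T` is a twin**: `F · t = 0`. -/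
theorem twin (h : SixG k A E v i) (hp : Nice A p) (hg : GoodAt (sU A v i) p)
    (hs : SixP p (Mot (sU A v i) (E : Set (Sym2 V)) p) (sT A E v i) (sT A E i v) (p i) ν γ)
    (ht : t ∈ sT A E v i) (h6 : dg A E t = 6)
    (hgam : ∀ᶠ q in gen k (Vec k), SixP (Function.update p t q)
      (Mot (sU A v i) (E : Set (Sym2 V)) (Function.update p t q)) (sT A E v i) (sT A E i v)
      (p i) ν γ) :
    ∀ Z ∈ Mot (sU A v i) (E : Set (Sym2 V)) p, Ff (sT A E i v) ν Z ⬝ᵥ p t = 0 := by
  by_contra hcon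
  push Not at hcon
  set U := sU A v i with hU
  have hgp : GenPos p ((U : Finset V) : Set V) := hp.gp.mono (by exact_mod_cast sU_sub A v i)
  have htU : t ∈ U := h.tU ht
  -- two points with `γ ≠ 0`
  obtain ⟨x0, hx0, hγ0⟩ : ∃ x0 ∈ sT A E i v, γ x0 ≠ 0 := by
    by_contra hc
    push Not at hc
    have := hs.zeros_le (X' := sT A E i v) subset_rfl hc
    rw [h.cardO] at this
    omega
  have hD := h.step hp hg hs ht hcon hx0 hγ0
  obtain ⟨heq, hcases⟩ := h.classify6 hp hg hs ht h6 hD hx0 hγ0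
  rcases hcases with ⟨N, hJ, hN2, hnb⟩ | ⟨N₁, N₂, _, hJ, h12, hN1, hN2, hdis, z, hz, hz1, hz2,
    hnb⟩
  · obtain ⟨c1, c2, c3⟩ := maxNs_clique hD.flat.1 (N := N) (t := t) (by rw [hJ]; simp)
    have c4 := ((mem_maxNs hD.flat.1).mp
      (show N ∈ maxNs (sD A E v i t x0 p) t U by rw [hJ]; simp)).2
    have hNs : N ⊆ U.erase t := fun x hx => Finset.mem_erase.mpr ⟨fun hc => c1 (hc ▸ hx), c2 hx⟩
    have hrig : ∀ Z ∈ Mot (U.erase t) (E : Set (Sym2 V)) p, Z ∈ RG p (N : Set V) := by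
      intro Z hZ
      rw [← heq] at hZ
      exact le_RG_of_Kf (hgp.mono (by exact_mod_cast Finset.erase_subset t U)) hNs (by omega)
        ((Kf_mono (Finset.subset_insert t N)).trans c3) hZ
    obtain ⟨a, b, hab, hNO⟩ := Finset.card_eq_two.mp hN2
    have ha : a ∈ N ∩ sT A E i v := by rw [hNO]; simp
    have hb : b ∈ N ∩ sT A E i v := by rw [hNO]; simp
    rw [Finset.mem_inter] at ha hb
    -- points with `γ ≠ 0` are `a` and `b`
    have hcov : ∀ x ∈ sT A E i v, γ x ≠ 0 → x = a ∨ x = b := by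
      intro x hx hγx
      have h1 := hD.cov x hx hγx
      rw [hJ, Finset.singleton_biUnion] at h1
      have h2 : x ∈ N ∩ sT A E i v := Finset.mem_inter.mpr ⟨h1, hx⟩
      rw [hNO] at h2
      simpa using h2
    have hγ2 : ∀ x ∈ sT A E i v, (x = a ∨ x = b) → γ x ≠ 0 := by
      intro x hx hxab hγx
      have h3 := hs.zeros_le (X' := (sT A E i v).erase (if x = a then b else a))
        (Finset.erase_subset _ _) (by
        intro y hy
        obtain ⟨hy1, hy2⟩ := Finset.mem_erase.mp hy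
        by_contra hy0
        rcases hcov y hy2 hy0 with rfl | rfl
        · by_cases hxy : x = y
          · rw [hxy] at hγx; exact hy0 hγx
          · rw [if_neg hxy] at hy1
            exact hy1 rfl
        · rcases hxab with rfl | rfl
          · rw [if_pos rfl] at hy1
            exact hy1 rfl
          · exact hy0 hγx)
      have h4 : (if x = a then b else a) ∈ sT A E i v := by
        by_cases hxa : x = a
        · rw [if_pos hxa]; exact hb.2
        · rw [if_neg hxa]; exact ha.2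
      rw [Finset.card_erase_of_mem h4, h.cardO] at h3
      omega
    -- the neighbours of `t` inside `N`
    have hnotE : ∀ x ∈ sT A E i v, γ x ≠ 0 → s(t, x) ∉ E := by
      intro x hx hγx hc
      obtain ⟨Z, hZ, hFZ⟩ := hcon
      have h1 := hZ.2.2 t htU x (h.O_sub hx) (by exact_mod_cast hc)
      rw [eps_comm, hs.eps_OT hZ hx ht] at h1
      exact (mul_ne_zero hγx hFZ) h1
    have hsub : nbr (U.erase t) (E : Set (Sym2 V)) t \ (sT A E i v \ N)
        ⊆ N := by
      intro x hx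
      rw [Finset.mem_sdiff] at hx
      by_contra hxN
      have hx1 := mem_nbr.mp hx.1
      have h1 : x ∈ nbr (U.erase t) (sD A E v i t x0 p : Set (Sym2 V)) t := by
        rw [mem_nbr]
        refine ⟨hx1.1, ?_⟩
        have : s(t, x) ∈ rest E U := by
          rw [mem_rest]
          refine ⟨by exact_mod_cast hx1.2, fun y hy => ?_⟩
          rcases Sym2.mem_iff.mp hy with rfl | rfl
          · exact htU
          · exact Finset.mem_of_mem_erase hx1.1
        exact_mod_cast hD.subE this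
      have h2 : x ∈ nbr (U.erase t) (sD A E v i t x0 p : Set (Sym2 V)) t \ N :=
        Finset.mem_sdiff.mpr ⟨h1, hxN⟩
      rw [hnb] at h2
      exact hx.2 h2
    have hcard : 2 ≤ (nbr (U.erase t) (E : Set (Sym2 V)) t \ (sT A E i v \ N)).card := by
      have h1 := h.nbr_t ht
      rw [← hU, h6] at h1
      have h2 : (sT A E i v \ N).card = 3 := by
        have := Finset.card_inter_add_card_sdiff (sT A E i v) N
        rw [h.cardO, Finset.inter_comm, hN2] at this
        omega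
      have h3 := Finset.le_card_sdiff (sT A E i v \ N) (nbr (U.erase t) (E : Set (Sym2 V)) t)
      omega
    obtain ⟨m, hm, n, hn, hmn⟩ := Finset.one_lt_card.mp (show 1 < _ from hcard)
    have hab' : ∀ x, x ∈ nbr (U.erase t) (E : Set (Sym2 V)) t \ (sT A E i v \ N) →
        a ≠ x ∧ b ≠ x ∧ s(t, x) ∈ E := by
      intro x hx
      have h1 : s(t, x) ∈ E := by
        exact_mod_cast (mem_nbr.mp (Finset.mem_sdiff.mp hx).1).2
      refine ⟨?_, ?_, h1⟩
      · rintro rfl
        exact hnotE a ha.2 (hγ2 a ha.2 (Or.inl rfl)) h1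
      · rintro rfl
        exact hnotE b hb.2 (hγ2 b hb.2 (Or.inr rfl)) h1
    exact h.not_one hp hs ht hgam hcon hNs hrig ha.1 hb.1 ha.2 hb.2 hab
      (hγ2 a ha.2 (Or.inl rfl)) (hsub hm) (hsub hn) hmn (hab' m hm).1 (hab' n hn).1
      (hab' m hm).2.1 (hab' n hn).2.1 (hab' m hm).2.2 (hab' n hn).2.2
  · exact h.not_two hp hs ht h6 hD heq hJ h12 hN1 hN2 hdis hz hz1 hz2 hnb

end SixG

end GR
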