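import Pool.Agent.Lib.GR.Six4
import Pool.Agent.Lib.GR.Assemble

/-!
# Degree six neighbours of pure type A vertices: the interface

`StmtSix` (pattern (2a), from the classification list for degree six) is the input of the proof of
`StmtA1` and `StmtA2`.
-/

set_option linter.unusedSectionVars false

namespace GR

open Filter Module

open scoped Matrix

variable {k : Type*} [Field k] [Infinite k] {V : Type*} [DecidableEq V]

/-- the other neighbours of `v` -/
noncomputable def sT (A : Finset V) (E : Finset (Sym2 V)) (v i : V) : Finset V :=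
  (nbr (A.erase v) (E : Set (Sym2 V)) v).erase i

/-- `G - v - i` -/
def sU (A : Finset V) (v i : V) : Finset V := (A.erase v).erase i

/-- **Pattern (2a)** for the pure type A vertex `v` and its neighbour `i` of degree six. -/
structure SixG (k : Type*) [Field k] [Infinite k] {V : Type*} [DecidableEq V]
    (A : Finset V) (E : Finset (Sym2 V)) (v i : V) : Prop where
  ce : MinCE k A E
  pure : PureA k A E v
  adj : s(v, i) ∈ E
  deg : dg A E i = 6
  dis : Disjoint (sT A E v i) (sT A E i v)
  str : ∀ᶠ p in gen k (V → Vec k), ∀ ν : V → k, (∑ x ∈ sT A E i v, ν x • p x = 0) →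
    (∃ x ∈ sT A E i v, ν x ≠ 0) → ∃ γ : V → k, ∑ x ∈ sT A E i v, ν x * γ x = 1 ∧
      ∀ Z ∈ Mot (sU A v i) (E : Set (Sym2 V)) p, ∀ B : Vec k →ₗ[k] Vec k,
        (∀ t ∈ sT A E v i, B (p t) = Z t) → ∀ x ∈ sT A E i v, ∀ y,
          Z x ⬝ᵥ y + B y ⬝ᵥ p x = γ x * (Ff (sT A E i v) ν Z ⬝ᵥ y)

/-- The output of the classification list for degree six. -/
def StmtSix (k : Type*) [Field k] [Infinite k] (V : Type*) [DecidableEq V] : Prop :=
  ∀ (A : Finset V) (E : Finset (Sym2 V)), MinCE k A E → ∀ v i, PureA k A E v → s(v, i) ∈ E →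
    dg A E i = 6 → SixG k A E v i

end GR
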