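import Pool.Agent.Lib.GR.SixJ
import Pool.Agent.Lib.GR.SixDef
import Pool.Agent.Lib.GR.Adj

/-!
# `γ` does not depend on the position of another degree six neighbour
-/

set_option linter.unusedSectionVars false

namespace GR

open Filter Module

open scoped Matrix

variable {k : Type*} [Field k] {V : Type*} [DecidableEq V]

lemma Ff_congr {O : Finset V} {ν : V → k} {Z Z' : V → Vec k} (h : ∀ x ∈ O, Z x = Z' x) :
    Ff O ν Z = Ff O ν Z' := by
  rw [Ff_apply, Ff_apply]
  exact Finset.sum_congr rfl fun x hx => by rw [h x hx]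

/-- The pattern (2a) at the position `q` of `j`, expressed on the motions without `j`. -/
theorem JAt.of_SixP {p : V → Vec k} {B : Finset V} {E : Set (Sym2 V)} {j : V} (hj : j ∉ B)
    {q : Vec k} {T O : Finset V} {y0 : Vec k} {ν γ : V → k}
    (hS : SixP (Function.update p j q) (Mot (insert j B) E (Function.update p j q)) T O y0 ν γ)
    (hjT : j ∈ T) (hjO : j ∉ O) (hN : 4 ≤ (nbr B E j).card)
    (hgp : GenPos (Function.update p j q) (nbr B E j : Set V)) :
    JAt p (Mot B E p) (T.erase j) O (nbr B E j) y0 ν q γ := by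
  set p' := Function.update p j q with hp'
  have hpj : p' j = q := by rw [hp']; exact Function.update_self _ _ _
  have hpne : ∀ v, v ≠ j → p' v = p v := fun v hv => Function.update_of_ne hv _ _
  have hOne : ∀ x ∈ O, x ≠ j := fun x hx h => hjO (h ▸ hx)
  have hBne : ∀ x ∈ B, x ≠ j := fun x hx h => hj (h ▸ hx)
  have hMot : Mot B E p' = Mot B E p := Mot_congr_pts fun a ha => hpne a (hBne a ha)
  have hNne : ∀ x ∈ nbr B E j, x ≠ j := fun x hx => hBne x (nbr_subset _ _ _ hx)
  have hExt : ∀ Z z, Ext p (nbr B E j) q Z z ↔ Ext p' (nbr B E j) (p' j) Z z := by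
    intro Z z
    rw [Ext, Ext, hpj]
    refine and_congr_right fun _ => ?_
    refine forall₂_congr fun v hv => ?_
    rw [hpne v (hNne v hv)]
  have hAtt : Att p (nbr B E j : Set V) q = Att p' (nbr B E j : Set V) (p' j) := by
    ext Z
    rw [mem_Att_iff_Ext, mem_Att_iff_Ext]
    exact exists_congr fun z => hExt Z z
  have hmap := map_forget_Mot hj E p'
  rw [hMot, ← hAtt] at hmap
  -- extension of motions
  have hlift : ∀ Z ∈ Mot B E p, ∀ z, Ext p (nbr B E j) q Z z →
      Function.update Z j z ∈ Mot (insert j B) E p' := by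
    intro Z hZ z hz
    have hzj : Z j = 0 := hZ.1 j hj
    have hmem : Z ∈ (Mot (insert j B) E p').map (forget k j) := by
      rw [hmap]
      exact ⟨hZ, mem_Att_iff_Ext.mpr ⟨z, hz⟩⟩
    obtain ⟨Y, hY, hYZ⟩ := hmem
    have hYne : ∀ v, v ≠ j → Y v = Z v := fun v hv => by
      rw [← hYZ, forget_apply_of_ne hv]
    -- `Y j` and `z` satisfy the same equations
    have hsp := hgp.spans hN
    have hYj : Y j = z := by
      have h1 : ∀ y ∈ nbr B E j, (Y j - z) ⬝ᵥ p' y = 0 := by
        intro y hy
        have h2 := hY.2.2 j (by simp) y (by simp [nbr_subset _ _ _ hy]) (mem_nbr.mp hy).2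
        rw [eps_apply, hYne y (hNne y hy), hpj] at h2
        have h3 := ((hExt Z z).mp hz).2 y hy
        rw [hpj] at h3
        rw [sub_dotProduct]
        linear_combination h2 - h3
      have h2 : ∀ y : Vec k, (Y j - z) ⬝ᵥ y = 0 := by
        intro y
        obtain ⟨c, rfl⟩ := hsp y
        rw [dotProduct_sum]
        refine Finset.sum_eq_zero fun i hi => ?_
        rw [dotProduct_smul, h1 i hi, smul_zero]
      rw [← sub_eq_zero]
      exact dotProduct_eq_zero _ h2
    have : Function.update Z j z = Y := by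
      funext v
      by_cases hv : v = j
      · rw [hv, Function.update_self, hYj]
      · rw [Function.update_of_ne hv, hYne v hv]
    rw [this]
    exact hY
  have hFu : ∀ Z : V → Vec k, ∀ z, Ff O ν (Function.update Z j z) = Ff O ν Z := fun Z z =>
    Ff_congr fun x hx => Function.update_of_ne (hOne x hx) _ _
  have hforget : ∀ Z ∈ Mot B E p, ∀ z, forget k j (Function.update Z j z) = Z := by
    intro Z hZ z
    funext v
    by_cases hv : v = j
    · rw [hv, forget_apply_self]
      exact (hZ.1 j hj).symm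
    · rw [forget_apply_of_ne hv, Function.update_of_ne hv]
  obtain ⟨BB, hBB⟩ := exists_BB hS.hT hS.gpT
  refine ⟨?_, ?_, ?_, ?_, ?_, ?_⟩
  · intro Z hZ z hz C hC hCq x hx y
    have h1 := hS.str _ (hlift Z hZ z hz) C (fun t ht => ?_) x hx y
    · rw [Function.update_of_ne (hOne x hx), hFu, hpne x (hOne x hx)] at h1
      exact h1
    · by_cases htj : t = j
      · rw [htj, hpj, Function.update_self, hCq]
      · rw [hpne t htj, Function.update_of_ne htj]
        exact hC t (Finset.mem_erase.mpr ⟨htj, ht⟩)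
  · intro Z z
    refine ⟨BB (Function.update Z j z), fun t ht => ?_, ?_⟩
    · obtain ⟨htj, htT⟩ := Finset.mem_erase.mp ht
      rw [← hpne t htj, hBB _ t htT, Function.update_of_ne htj]
    · rw [← hpj, hBB _ j hjT, Function.update_self]
  · intro C hC hCq
    have hsp := hS.gpT.spans (by rw [hS.hT])
    refine ext_of_spans hsp fun t ht => ?_
    by_cases htj : t = j
    · rw [htj, hpj, hCq]; rfl
    · rw [hpne t htj, hC t (Finset.mem_erase.mpr ⟨htj, ht⟩)]; rfl
  · intro K hK hF
    have := hS.fin
    have h1 : K ≤ (Mot (insert j B) E p' ⊓ LinearMap.ker (Ff O ν)).map (forget k j) := by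
      intro Z hZ
      obtain ⟨hZJ, hZA⟩ := hK hZ
      obtain ⟨z, hz⟩ := mem_Att_iff_Ext.mp hZA
      refine ⟨_, ⟨hlift Z hZJ z hz, ?_⟩, hforget Z hZJ z⟩
      change Ff O ν _ = 0
      rw [hFu, hF Z hZ]
    have : FiniteDimensional k (Mot (insert j B) E p' ⊓ LinearMap.ker (Ff O ν) :
      Submodule k (V → Vec k)) := Submodule.finiteDimensional_of_le inf_le_left
    exact (Submodule.finrank_mono h1).trans ((Submodule.finrank_map_le _ _).trans
      hS.finrank_ker_le)
  · intro K hK hR hF
    have := hS.fin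
    have h1 : K ≤ (Mot (insert j B) E p' ⊓ RG p' (T : Set V) ⊓
        LinearMap.ker (Fy O ν y0)).map (forget k j) := by
      intro Z hZ
      obtain ⟨hZJ, hZA⟩ := hK hZ
      obtain ⟨C, hC, hCT, hCq⟩ := hR Z hZ
      refine ⟨Function.update Z j (C q), ⟨⟨hlift Z hZJ _ hCq, C, hC, fun t ht => ?_⟩, ?_⟩,
        hforget Z hZJ _⟩
      · by_cases htj : t = j
        · rw [htj, hpj, Function.update_self]
        · rw [hpne t htj, Function.update_of_ne htj]
          exact (hCT t (Finset.mem_erase.mpr ⟨htj, by exact_mod_cast ht⟩)).symm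
      · change Ff O ν _ ⬝ᵥ y0 = 0
        rw [hFu, hF Z hZ]
    have : FiniteDimensional k (Mot (insert j B) E p' ⊓ RG p' (T : Set V) ⊓
        LinearMap.ker (Fy O ν y0) : Submodule k (V → Vec k)) :=
      Submodule.finiteDimensional_of_le (inf_le_left.trans inf_le_left)
    exact (Submodule.finrank_mono h1).trans ((Submodule.finrank_map_le _ _).trans hS.inj)
  · have h1 := mdim_insert_of_four_le hj E p' hgp hN
    rw [hMot, ← hAtt] at h1
    rw [← h1]
    exact hS.dim

lemma SixP.congr_gamma {p : V → Vec k} {M : Submodule k (V → Vec k)} {T O : Finset V}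
    {y0 : Vec k} {ν γ γ' : V → k} (h : SixP p M T O y0 ν γ) (hγ : ∀ x ∈ O, γ x = γ' x) :
    SixP p M T O y0 ν γ' where
  hT := h.hT
  hO := h.hO
  dis := h.dis
  gp := h.gp
  loop := h.loop
  dep := h.dep
  norm := by
    rw [← h.norm]
    exact Finset.sum_congr rfl fun x hx => by rw [hγ x hx]
  str := fun Z hZ B hB x hx y => by rw [← hγ x hx]; exact h.str Z hZ B hB x hx y
  fin := h.fin
  inj := h.inj
  dim := h.dim
  ten := h.ten

/-- The hyperplane through the three points `T.erase j`. -/
theorem exists_JGen {p : V → Vec k} {T O : Finset V} (hT : T.card = 4) (hO : O.card = 5)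
    (hgp : GenPos p ((T ∪ O : Finset V) : Set V)) {j : V} (hj : j ∈ T) :
    ∃ τ : Vec k, JGen p (T.erase j) O τ := by
  have hgT : GenPos p (T : Set V) := hgp.mono (by exact_mod_cast Finset.subset_union_left)
  have hgO : GenPos p (O : Set V) := hgp.mono (by exact_mod_cast Finset.subset_union_right)
  obtain ⟨τ, hτ⟩ := exists_covec hgT T subset_rfl hT.le (fun v => if v = j then 1 else 0)
  have hτj : τ ⬝ᵥ p j = 1 := by rw [hτ j hj, if_pos rfl]
  have hτt : ∀ t ∈ T.erase j, τ ⬝ᵥ p t = 0 := fun t ht => by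
    rw [hτ t (Finset.mem_of_mem_erase ht), if_neg (Finset.ne_of_mem_erase ht)]
  have hspT := hgT.spans (by rw [hT])
  have hspO := hgO.spans (by rw [hO]; norm_num)
  refine ⟨τ, ⟨?_, ?_, ?_⟩⟩
  · rintro rfl
    rw [zero_dotProduct] at hτj
    exact zero_ne_one hτj
  · intro C hC y hy
    obtain ⟨c, rfl⟩ := hspT y
    rw [← Finset.add_sum_erase T _ hj] at hy ⊢
    rw [dotProduct_add, dotProduct_smul, hτj, dotProduct_sum, Finset.sum_eq_zero, add_zero,
      smul_eq_mul, mul_one] at hy
    · rw [hy, zero_smul, zero_add, map_sum]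
      refine Finset.sum_eq_zero fun t ht => ?_
      rw [map_smul, hC t ht, smul_zero]
    · intro t ht
      rw [dotProduct_smul, hτt t ht, smul_zero]
  · intro g hg
    refine dotProduct_eq_zero _ fun y => ?_
    obtain ⟨c, rfl⟩ := hspO y
    rw [dotProduct_sum]
    refine Finset.sum_eq_zero fun x hx => ?_
    rw [dotProduct_smul, hg x hx, smul_zero]

/-- number of edges after deleting one more vertex -/
lemma card_rest_erase' {A : Finset V} {E : Finset (Sym2 V)} (hE : E ⊆ Kf A) {W : Finset V}
    {w : V} (hw : w ∈ W) :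
    (rest E (W.erase w)).card + (nbr (W.erase w) (E : Set (Sym2 V)) w).card = (rest E W).card := by
  have hFK : rest E W ⊆ Kf W := rest_subset_Kf (fun e he => (mem_Kf.mp (hE he)).1) _
  have h3 := card_rest_erase hFK w
  have h4 : rest (rest E W) (W.erase w) = rest E (W.erase w) := by
    ext e
    rw [mem_rest, mem_rest, mem_rest]
    constructor
    · rintro ⟨⟨h5, -⟩, h6⟩
      exact ⟨h5, h6⟩
    · rintro ⟨h5, h6⟩
      exact ⟨⟨h5, fun v hv => Finset.mem_of_mem_erase (h6 v hv)⟩, h6⟩
  have h5 : nbr (W.erase w) ((rest E W : Finset (Sym2 V)) : Set (Sym2 V)) w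
      = nbr (W.erase w) (E : Set (Sym2 V)) w := by
    ext x
    rw [mem_nbr, mem_nbr, Finset.mem_coe, mem_rest]
    constructor
    · rintro ⟨h6, h7, -⟩
      exact ⟨h6, by exact_mod_cast h7⟩
    · rintro ⟨h6, h7⟩
      refine ⟨h6, by exact_mod_cast h7, fun v hv => ?_⟩
      rcases Sym2.mem_iff.mp hv with rfl | rfl
      · exact hw
      · exact Finset.mem_of_mem_erase h6
  rw [h4, h5] at h3
  exact h3

variable [Infinite k]

/-- **`γ` does not depend on the position of `j`**, another neighbour of degree six of `v`. -/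
theorem SixG.gamma_const {A : Finset V} {E : Finset (Sym2 V)} {v i j : V} (h : SixG k A E v i)
    (hj : j ∈ sT A E v i) (hj6 : dg A E j = 6) (hji : s(j, i) ∉ E)
    (hP : ∀ᶠ p in gen k (V → Vec k), ∀ ν : V → k, (∑ x ∈ sT A E i v, ν x • p x = 0) →
      (∃ x ∈ sT A E i v, ν x ≠ 0) → ∃ γ : V → k, SixP p (Mot (sU A v i) (E : Set (Sym2 V)) p)
        (sT A E v i) (sT A E i v) (p i) ν γ) :
    ∀ᶠ p in gen k (V → Vec k), ∀ ν γ : V → k,
      SixP p (Mot (sU A v i) (E : Set (Sym2 V)) p) (sT A E v i) (sT A E i v) (p i) ν γ →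
      ∀ᶠ q in gen k (Vec k), SixP (Function.update p j q)
        (Mot (sU A v i) (E : Set (Sym2 V)) (Function.update p j q)) (sT A E v i) (sT A E i v)
        (p i) ν γ := by
  classical
  -- combinatorics
  have hjn : j ∈ nbr (A.erase v) (E : Set (Sym2 V)) v := Finset.mem_of_mem_erase hj
  have hji' : j ≠ i := Finset.ne_of_mem_erase hj
  obtain ⟨hjA', hvj⟩ := mem_nbr.mp hjn
  obtain ⟨hjv, hjA⟩ := Finset.mem_erase.mp hjA'
  have hvjE : s(v, j) ∈ E := by exact_mod_cast hvj
  obtain ⟨hvA, hiA, hvi⟩ := h.ce.adj_mem h.adj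
  have hv5 : dg A E v = 5 := h.pure.1.deg
  have hjO : j ∉ sT A E i v := by
    intro hc
    have h1 := (mem_nbr.mp (Finset.mem_of_mem_erase hc)).2
    exact hji (by rw [Sym2.eq_swap]; exact_mod_cast h1)
  set B := (sU A v i).erase j with hB
  have hjU : j ∈ sU A v i := Finset.mem_erase.mpr ⟨hji', hjA'⟩
  have hiv : i ∈ A.erase v := Finset.mem_erase.mpr ⟨hvi.symm, hiA⟩
  have hins : insert j B = sU A v i := Finset.insert_erase hjU
  have hjB : j ∉ B := Finset.notMem_erase j _
  -- degrees
  have hd1 : (nbr (sU A v i) (E : Set (Sym2 V)) i).card + 1 = dg A E i := by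
    have := h.ce.card_nbr_erase_erase h.adj
    exact this
  have hd2 : (nbr B (E : Set (Sym2 V)) j).card + 1 = dg A E j := by
    have h1 := h.ce.card_nbr_erase_erase hvjE
    rw [← h1]
    congr 2
    ext x
    rw [mem_nbr, mem_nbr]
    simp only [hB, sU, Finset.mem_erase]
    constructor
    · rintro ⟨⟨h1, h2, h3, h4⟩, h5⟩
      exact ⟨⟨h1, h3, h4⟩, h5⟩
    · rintro ⟨⟨h1, h3, h4⟩, h5⟩
      refine ⟨⟨h1, ?_, h3, h4⟩, h5⟩
      rintro rfl
      exact hji (by exact_mod_cast h5)
  have hJdim : gdim k B (E : Set (Sym2 V)) = 12 := by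
    have h1 := h.ce.indep B (by
      refine Finset.ssubset_of_subset_of_ssubset ?_ (Finset.erase_ssubset hvA)
      exact (Finset.erase_subset _ _).trans (Finset.erase_subset _ _))
    have h2 := card_rest_erase h.ce.sub v
    have h3 := card_rest_erase' h.ce.sub hiv
    have h4 := card_rest_erase' h.ce.sub hjU
    have h5 := h.ce.card
    have h6 := Finset.card_erase_add_one hvA
    have h7 := Finset.card_erase_add_one hiv
    have h8 := Finset.card_erase_add_one hjU
    have h9 := h.deg
    have h10 : (nbr (A.erase v) (E : Set (Sym2 V)) v).card = 5 := hv5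
    have hBd : B = ((A.erase v).erase i).erase j := rfl
    rw [hBd] at h1 hd2 ⊢
    unfold sU at h4 h8 hd1
    omega
  filter_upwards [eventually_update hP j, eventually_nice (k := k) A,
    eventually_update (eventually_genPos (k := k) A) j] with p h1 hnice h2 ν γ hS
  have hpi : ∀ q, Function.update p j q i = p i := fun q => Function.update_of_ne hji'.symm _ _
  have hpx : ∀ q, ∀ x ∈ sT A E i v, Function.update p j q x = p x := fun q x hx =>
    Function.update_of_ne (fun hc : x = j => hjO (hc ▸ hx)) _ _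
  have hνex : ∃ x ∈ sT A E i v, ν x ≠ 0 := by
    by_contra hc
    push Not at hc
    have := hS.norm
    rw [Finset.sum_eq_zero fun x hx => by rw [hc x hx, zero_mul]] at this
    exact zero_ne_one this
  set U : Set (Vec k) := {q | GenPos (Function.update p j q) (A : Set V) ∧
    ∃ γ' : V → k, SixP (Function.update p j q)
      (Mot (sU A v i) (E : Set (Sym2 V)) (Function.update p j q)) (sT A E v i) (sT A E i v)
      (p i) ν γ'} with hU
  have hUgen : U ∈ gen k (Vec k) := by
    filter_upwards [h1, h2] with q hq hq'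
    refine ⟨hq', ?_⟩
    have h3 := hq ν (by
      rw [← hS.dep]
      exact Finset.sum_congr rfl fun x hx => by rw [hpx q x hx]) hνex
    rw [hpi] at h3
    exact h3
  have hpU : p j ∈ U := by
    refine ⟨by rw [Function.update_eq_self]; exact hnice.gp, γ, ?_⟩
    rw [Function.update_eq_self]
    exact hS
  choose! g hg using fun q (hq : q ∈ U) => hq.2
  let G : Vec k → V → k := fun q => if q = p j then γ else g q
  have hG : ∀ q ∈ U, SixP (Function.update p j q)
      (Mot (sU A v i) (E : Set (Sym2 V)) (Function.update p j q)) (sT A E v i) (sT A E i v)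
      (p i) ν (G q) := by
    intro q hq
    by_cases hqp : q = p j
    · simp only [G, if_pos hqp]
      rw [hqp, Function.update_eq_self]
      exact hS
    · simp only [G, if_neg hqp]
      exact hg q hq
  have hJ : ∀ q ∈ U, JAt p (Mot B (E : Set (Sym2 V)) p) ((sT A E v i).erase j) (sT A E i v)
      (nbr B (E : Set (Sym2 V)) j) (p i) ν q (G q) := by
    intro q hq
    have h3 := hG q hq
    rw [← hins] at h3
    refine JAt.of_SixP hjB h3 hj hjO (by rw [hj6] at hd2; omega) (hq.1.mono ?_)
    have : nbr B (E : Set (Sym2 V)) j ⊆ A :=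
      (nbr_subset _ _ _).trans ((Finset.erase_subset _ _).trans
        ((Finset.erase_subset _ _).trans (Finset.erase_subset _ _)))
    exact_mod_cast this
  obtain ⟨τ, hτ⟩ := exists_JGen hS.hT hS.hO hS.gp hj
  have hBA : B ⊆ A := (Finset.erase_subset _ _).trans
        ((Finset.erase_subset _ _).trans (Finset.erase_subset _ _))
  have hfin12 : finrank k (Mot B (E : Set (Sym2 V)) p) ≤ 12 := by
    have := hnice.reg B hBA (E : Set (Sym2 V))
    unfold mdim at this
    rw [this, hJdim]
  filter_upwards [hUgen] with q hq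
  refine (hG q hq).congr_gamma fun x hx => ?_
  rw [JAt.gamma_eq hτ hUgen hJ hfin12 hq hpU hx]
  simp [G]

end GR
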