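import Pool.Agent.Lib.GR.Six8
import Pool.Agent.Lib.GR.SixJ2
import Pool.Agent.Lib.GR.NotClique

/-!
# Twins: `StmtA1` and `StmtA2`
-/

set_option linter.unusedSectionVars false

namespace GR

open Filter Module

open scoped Matrix

variable {k : Type*} [Field k] {V : Type*} [DecidableEq V]

namespace SixP

variable {p : V → Vec k} {M : Submodule k (V → Vec k)} {T O : Finset V}
  {y0 : Vec k} {ν γ : V → k}

/-- **There are no two twins.** -/
theorem not_two_twins (h : SixP p M T O y0 ν γ) {j j' : V} (hj : j ∈ T) (hj' : j' ∈ T)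
    (hne : j ≠ j') (h1 : ∀ Z ∈ M, Ff O ν Z ⬝ᵥ p j = 0) (h2 : ∀ Z ∈ M, Ff O ν Z ⬝ᵥ p j' = 0) :
    False := by
  have := h.fin
  have hc : ((T.erase j).erase j').card = 2 := by
    rw [Finset.card_erase_of_mem (Finset.mem_erase.mpr ⟨hne.symm, hj'⟩),
      Finset.card_erase_of_mem hj, h.hT]
  obtain ⟨a, b, hab, hE⟩ := Finset.card_eq_two.mp hc
  have ha : a ∈ (T.erase j).erase j' := by rw [hE]; simp
  have hb : b ∈ (T.erase j).erase j' := by rw [hE]; simp
  simp only [Finset.mem_erase] at ha hb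
  have e1 := finrank_le_inf_ker M (Fy O ν (p a))
  have : FiniteDimensional k (M ⊓ LinearMap.ker (Fy O ν (p a)) : Submodule k (V → Vec k)) :=
    Submodule.finiteDimensional_of_le inf_le_left
  have e2 := finrank_le_inf_ker (M ⊓ LinearMap.ker (Fy O ν (p a))) (Fy O ν (p b))
  have : FiniteDimensional k (M ⊓ LinearMap.ker (Ff O ν) : Submodule k (V → Vec k)) :=
    Submodule.finiteDimensional_of_le inf_le_left
  have e3 : (M ⊓ LinearMap.ker (Fy O ν (p a)) ⊓ LinearMap.ker (Fy O ν (p b)) :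
      Submodule k (V → Vec k)) ≤ M ⊓ LinearMap.ker (Ff O ν) := by
    rintro Z ⟨⟨hZ, g1⟩, g2⟩
    refine ⟨hZ, LinearMap.mem_ker.mpr ?_⟩
    exact eq_zero_of_four h.gpT hj hj' ha.2.2 hb.2.2 hne ha.2.1.symm hb.2.1.symm ha.1.symm
      hb.1.symm hab (h1 Z hZ) (h2 Z hZ) g1 g2
  have e4 := Submodule.finrank_mono e3
  have e5 := h.finrank_ker_le
  have e6 := h.dim
  omega

/-- with a twin there is a motion with `F = 0` which is not rigid on any pair of `O` -/
theorem twin_pair (h : SixP p M T O y0 ν γ) {j : V} (hj : j ∈ T)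
    (h1 : ∀ Z ∈ M, Ff O ν Z ⬝ᵥ p j = 0) :
    ∃ Z ∈ M, Ff O ν Z = 0 ∧ ∀ x ∈ O, ∀ y ∈ O, x ≠ y → eps p x y Z ≠ 0 := by
  have := h.fin
  have hc : (T.erase j).card = 3 := by
    rw [Finset.card_erase_of_mem hj, h.hT]
  obtain ⟨a, b, c, hab, hac, hbc, hE⟩ := Finset.card_eq_three.mp hc
  have ha : a ∈ T.erase j := by rw [hE]; simp
  have hb : b ∈ T.erase j := by rw [hE]; simp
  have hcc : c ∈ T.erase j := by rw [hE]; simp
  rw [Finset.mem_erase] at ha hb hcc
  have e1 := finrank_le_inf_ker M (Fy O ν (p a))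
  have : FiniteDimensional k (M ⊓ LinearMap.ker (Fy O ν (p a)) : Submodule k (V → Vec k)) :=
    Submodule.finiteDimensional_of_le inf_le_left
  have e2 := finrank_le_inf_ker (M ⊓ LinearMap.ker (Fy O ν (p a))) (Fy O ν (p b))
  have : FiniteDimensional k (M ⊓ LinearMap.ker (Fy O ν (p a)) ⊓ LinearMap.ker (Fy O ν (p b)) :
      Submodule k (V → Vec k)) :=
    Submodule.finiteDimensional_of_le (inf_le_left.trans inf_le_left)
  have e3 := finrank_le_inf_ker (M ⊓ LinearMap.ker (Fy O ν (p a)) ⊓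
    LinearMap.ker (Fy O ν (p b))) (Fy O ν (p c))
  have : FiniteDimensional k (M ⊓ LinearMap.ker (Ff O ν) : Submodule k (V → Vec k)) :=
    Submodule.finiteDimensional_of_le inf_le_left
  have e4 : (M ⊓ LinearMap.ker (Fy O ν (p a)) ⊓ LinearMap.ker (Fy O ν (p b)) ⊓
      LinearMap.ker (Fy O ν (p c)) : Submodule k (V → Vec k)) ≤ M ⊓ LinearMap.ker (Ff O ν) := by
    rintro Z ⟨⟨⟨hZ, g1⟩, g2⟩, g3⟩
    refine ⟨hZ, LinearMap.mem_ker.mpr ?_⟩
    exact eq_zero_of_four h.gpT hj ha.2 hb.2 hcc.2 ha.1.symm hb.1.symm hcc.1.symm hab hac hbc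
      (h1 Z hZ) g1 g2 g3
  have e5 := Submodule.finrank_mono e4
  have e6 := h.dim
  obtain ⟨Z, hZ, hF, hR⟩ : ∃ Z ∈ M, Ff O ν Z = 0 ∧ Z ∉ RG p (T : Set V) := by
    by_contra hcon
    push Not at hcon
    have := h.inj_le (K := M ⊓ LinearMap.ker (Ff O ν)) inf_le_left
      (fun Z hZ => hcon Z hZ.1 hZ.2) (fun Z hZ => by
        have hZ2 : Ff O ν Z = 0 := hZ.2
        rw [hZ2, zero_dotProduct])
    omega
  refine ⟨Z, hZ, hF, fun x hx y hy hxy h0 => hR ?_⟩
  obtain ⟨BB, hBB⟩ := exists_BB h.hT h.gpT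
  refine h.mem_RG_of_skew (hBB Z) ?_
  refine h.ten _ subset_rfl h.card9 x (Finset.mem_union_right _ hx) y
    (Finset.mem_union_right _ hy) hxy (BB Z) (fun o ho => ?_) ?_
  · rcases Finset.mem_union.mp ho with ho | ho
    · exact h.loopT hZ (hBB Z) ho
    · rw [h.loopO hZ (hBB Z) ho, hF, zero_dotProduct, mul_zero]
  · have s1 := h.str Z hZ (BB Z) (hBB Z) x hx (p y)
    have s2 := h.str Z hZ (BB Z) (hBB Z) y hy (p x)
    rw [hF, zero_dotProduct, mul_zero] at s1 s2
    rw [eps_apply] at h0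
    linear_combination s1 + s2 - h0

end SixP

namespace SixG

variable [Infinite k] {A : Finset V} {E : Finset (Sym2 V)} {v i : V}

/-- the generic properties for the twins -/
structure TW (k : Type*) [Field k] [Infinite k] {V : Type*} [DecidableEq V] (A : Finset V)
    (E : Finset (Sym2 V)) (v i : V) (p : V → Vec k) (ν γ : V → k) : Prop where
  nice : Nice A p
  good : GoodAt (sU A v i) p
  six : SixP p (Mot (sU A v i) (E : Set (Sym2 V)) p) (sT A E v i) (sT A E i v) (p i) ν γ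
  twin : ∀ t ∈ sT A E v i, dg A E t = 6 →
    ∀ Z ∈ Mot (sU A v i) (E : Set (Sym2 V)) p, Ff (sT A E i v) ν Z ⬝ᵥ p t = 0

theorem eventually_TW (h : SixG k A E v i) : ∀ᶠ p in gen k (V → Vec k), ∃ ν γ : V → k,
    TW k A E v i p ν γ := by
  have h1 : ∀ᶠ p in gen k (V → Vec k), ∀ j ∈ sT A E v i, dg A E j = 6 → ∀ ν γ : V → k,
      SixP p (Mot (sU A v i) (E : Set (Sym2 V)) p) (sT A E v i) (sT A E i v) (p i) ν γ →
      ∀ᶠ q in gen k (Vec k), SixP (Function.update p j q)
        (Mot (sU A v i) (E : Set (Sym2 V)) (Function.update p j q)) (sT A E v i) (sT A E i v)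
        (p i) ν γ := by
    rw [Filter.eventually_all_finset]
    intro j hj
    by_cases h6 : dg A E j = 6
    · filter_upwards [h.gamma_const hj h6 (h.ti hj) h.eventually_sixP] with p hp _
      exact hp
    · exact Filter.Eventually.of_forall fun p hc => absurd hc h6
  have h2 : ∀ᶠ p in gen k (V → Vec k), GoodAt (sU A v i) p :=
    eventually_goodAt fun W hW => h.ce.small W
      (Finset.ssubset_of_subset_of_ssubset hW h.U_ssub)
  filter_upwards [h1, h2, h.eventually_sixP, eventually_nice (k := k) A] with p h1 h2 h3 h4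
  obtain ⟨ν, hν, hne⟩ := exists_dep h.cardO p
  have hne' : ∃ x ∈ sT A E i v, ν x ≠ 0 := by
    by_contra hc
    push Not at hc
    refine hne (funext fun x => ?_)
    by_cases hx : x ∈ sT A E i v
    · exact hc x hx
    · exact hν.1 x hx
  obtain ⟨γ, hs⟩ := h3 ν hν.2 hne'
  exact ⟨ν, γ, h4, h2, hs, fun t ht h6 => h.twin h4 h2 hs ht h6 (h1 t ht h6 ν γ hs)⟩

end SixG

/-- **(A1)** -/
theorem stmtA1_of_six [Infinite k] (hsix : StmtSix k V) : StmtA1 k V := by
  intro A E hce v hv S hS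
  by_contra hcon
  obtain ⟨i, hi, j, hj, j', hj', hij, hij', hjj'⟩ := Finset.two_lt_card.mp
    (show 2 < S.card by omega)
  have h := hsix A E hce v i hv (hS i hi).1 (hS i hi).2
  obtain ⟨p, ν, γ, hp⟩ := h.eventually_TW.exists
  have m1 : j ∈ sT A E v i := h.mem_sT.mpr ⟨hij.symm, (hS j hj).1⟩
  have m2 : j' ∈ sT A E v i := h.mem_sT.mpr ⟨hij'.symm, (hS j' hj').1⟩
  exact hp.six.not_two_twins m1 m2 hjj' (hp.twin j m1 (hS j hj).2) (hp.twin j' m2 (hS j' hj').2)

/-- **(A2)** -/
theorem stmtA2_of_six [Infinite k] (hsix : StmtSix k V) : StmtA2 k V := by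
  classical
  intro A E hce v hv i j hij hvi hvj hi6 hj6 t hvt ht6
  have h := hsix A E hce v i hv hvi hi6
  obtain ⟨p, ν, γ, hp⟩ := h.eventually_TW.exists
  have hjT : j ∈ sT A E v i := h.mem_sT.mpr ⟨hij.symm, hvj⟩
  have hti : t ≠ i := by
    rintro rfl
    exact ht6 hi6
  have htj : t ≠ j := by
    rintro rfl
    exact ht6 hj6
  have htT : t ∈ sT A E v i := h.mem_sT.mpr ⟨hti, hvt⟩
  have htw := hp.twin j hjT hj6
  have hs := hp.six
  set U := sU A v i with hU
  have hgp : GenPos p ((U : Finset V) : Set V) := hp.nice.gp.mono (by exact_mod_cast sU_sub A v i)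
  have htU : t ∈ U := h.tU htT
  -- `F · t` is not zero
  have hF : ∃ Z ∈ Mot U (E : Set (Sym2 V)) p, Ff (sT A E i v) ν Z ⬝ᵥ p t ≠ 0 := by
    by_contra hc
    push Not at hc
    exact hs.not_two_twins hjT htT htj.symm htw hc
  obtain ⟨x0, hx0, hγ0⟩ : ∃ x0 ∈ sT A E i v, γ x0 ≠ 0 := by
    by_contra hc
    push Not at hc
    have := hs.zeros_le (X' := sT A E i v) subset_rfl hc
    rw [h.cardO] at this
    omega
  have hD := h.step hp.nice hp.good hs htT hF hx0 hγ0
  set D := sD A E v i t x0 p with hDdef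
  obtain ⟨Z0, hZ0, hF0, hpair⟩ := hs.twin_pair hjT htw
  -- cliques contain at most one point of `O`
  have hone : ∀ N ∈ maxNs D t U, (N ∩ sT A E i v).card ≤ 1 := by
    intro N hN
    by_contra hc
    obtain ⟨a, ha, b, hb, hab⟩ := Finset.one_lt_card.mp (show 1 < (N ∩ sT A E i v).card by omega)
    rw [Finset.mem_inter] at ha hb
    refine hpair a ha.2 b hb.2 hab ?_
    exact eps_eq_zero_of_RG (hD.rigid hgp hN hZ0 (by rw [hF0, zero_dotProduct]))
      (by exact_mod_cast ha.1) (by exact_mod_cast hb.1)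
  -- at least two covered points
  have hne2 : 2 ≤ ((sT A E i v).filter fun x => γ x ≠ 0).card := by
    have h1 := Finset.card_filter_add_card_filter_not (s := sT A E i v) (fun x => γ x ≠ 0)
    have h2 := hs.zeros_le (X' := (sT A E i v).filter fun x => ¬ γ x ≠ 0)
      (Finset.filter_subset _ _) (fun x hx => by
        have := (Finset.mem_filter.mp hx).2
        exact not_not.mp this)
    rw [h.cardO] at h1
    omega
  have hsubc : (sT A E i v).filter (fun x => γ x ≠ 0)
      ⊆ sT A E i v ∩ (maxNs D t U).biUnion id := by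
    intro x hx
    obtain ⟨h1, h2⟩ := Finset.mem_filter.mp hx
    exact Finset.mem_inter.mpr ⟨h1, hD.cov x h1 h2⟩
  have hcov2 := hne2.trans (Finset.card_le_card hsubc)
  have hmE := h.mdimUt hp.nice htT
  have hle := Submodule.finrank_mono hD.mot_le
  have hle' : mdim (U.erase t) (D : Set (Sym2 V)) p ≤ dg A E t + 6 :=
    le_trans hle (show mdim (U.erase t) (E : Set (Sym2 V)) p ≤ dg A E t + 6 by
      rw [hU, hmE]; omega)
  have hct := (hD.ct htU hgp hp.good (ρ := dg A E t) hle').classify_one hD.subO h.cardO hone hcov2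
  rcases Nat.lt_or_ge 8 (dg A E t) with h9 | h8
  · exact Or.inl h9
  have h8' : dg A E t = 8 := le_antisymm h8 hct.1
  refine Or.inr ⟨h8', fun S hS => ?_⟩
  obtain ⟨N₁, N₂, -, hJ, hN1, hN2, hun, hcov⟩ := hct.2 h8'
  -- equality of the motions of `U - t`
  have heq : Mot (U.erase t) (D : Set (Sym2 V)) p = Mot (U.erase t) (E : Set (Sym2 V)) p := by
    refine Submodule.eq_of_le_of_finrank_le hD.mot_le ?_
    by_contra hcon
    have h3 : mdim (U.erase t) (D : Set (Sym2 V)) p < mdim (U.erase t) (E : Set (Sym2 V)) p :=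
      not_le.mp hcon
    have h4 : mdim (U.erase t) (E : Set (Sym2 V)) p = 14 := by rw [hU, hmE, h8']
    have h4' : mdim (U.erase t) (D : Set (Sym2 V)) p ≤ 7 + 6 := by omega
    have h5 := (hD.ct htU hgp hp.good (ρ := 7) h4').classify_one hD.subO h.cardO hone hcov2
    exact absurd h5.1 (by norm_num)
  -- covered points of `O` have `γ ≠ 0`
  have hγcov : ∀ x ∈ sT A E i v, x ∈ N₁ ∪ N₂ → γ x ≠ 0 := by
    intro x hx hxN
    have h1 : sT A E i v ∩ (maxNs D t U).biUnion id = sT A E i v ∩ (N₁ ∪ N₂) := by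
      rw [hJ, Finset.biUnion_insert, Finset.singleton_biUnion]; rfl
    rw [h1] at hsubc
    have h2 := Finset.eq_of_subset_of_card_le hsubc (by omega)
    have h3 : x ∈ (sT A E i v).filter fun x => γ x ≠ 0 := by
      rw [h2]
      exact Finset.mem_inter.mpr ⟨hx, hxN⟩
    exact (Finset.mem_filter.mp h3).2
  -- neighbours of `t`
  have hsub : S ⊆ insert v (sT A E i v \ (N₁ ∪ N₂)) := by
    intro u hu
    obtain ⟨hpu, htu⟩ := hS u hu
    by_cases huv : u = v
    · rw [huv]; exact Finset.mem_insert_self _ _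
    refine Finset.mem_insert_of_mem ?_
    have hu5 : dg A E u = 5 := hpu.typ.deg
    have hui : u ≠ i := by
      rintro rfl
      omega
    have huA : u ∈ A := hpu.typ.mem
    have hut : t ≠ u := (hce.ne_of_mem htu).1
    have huU : u ∈ U := mem_sU.mpr ⟨hui, huv, huA⟩
    have huD : u ∈ nbr (U.erase t) (D : Set (Sym2 V)) t := by
      rw [mem_nbr]
      refine ⟨Finset.mem_erase.mpr ⟨hut.symm, huU⟩, ?_⟩
      have : s(t, u) ∈ rest E U := by
        rw [mem_rest]
        refine ⟨htu, fun y hy => ?_⟩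
        rcases Sym2.mem_iff.mp hy with rfl | rfl
        · exact htU
        · exact huU
      exact_mod_cast hD.subE this
    -- `u` is not in a clique
    have hnot : ∀ N ∈ maxNs D t U, u ∉ N := by
      intro N hN huN
      have hN12 : N ⊆ N₁ ∪ N₂ := by
        rw [hJ] at hN
        rcases Finset.mem_insert.mp hN with rfl | hN
        · exact Finset.subset_union_left
        · rw [Finset.mem_singleton.mp hN]
          exact Finset.subset_union_right
      obtain ⟨c1, c2, c3⟩ := maxNs_clique hD.flat.1 hN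
      have c4 := ((mem_maxNs hD.flat.1).mp hN).2
      have hNs : N ⊆ U.erase t := fun x hx => Finset.mem_erase.mpr
        ⟨fun hc => c1 (hc ▸ hx), c2 hx⟩
      refine hce.not_clique hpu (t := t) (W := U.erase t) ?_
        ((Finset.erase_subset t U).trans (sU_sub A v i)) (Finset.notMem_erase t U)
        (Finset.mem_erase.mpr ⟨hut.symm, huU⟩) ?_ hp.nice
        (hp.good.mono (Finset.erase_subset t U)) hNs huN c4 ?_
      · exact hce.mem_nbr_iff.mpr (by rw [Sym2.eq_swap]; exact htu)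
      · intro y hy
        obtain ⟨hyt, hy2⟩ := Finset.mem_erase.mp hy
        have huy := hce.mem_nbr_iff.mp hy2
        refine Finset.mem_erase.mpr ⟨hyt, mem_sU.mpr ⟨?_, ?_, (hce.ne_of_mem huy).2.2⟩⟩
        · rintro rfl
          -- `u` is adjacent to `i`
          have huO : u ∈ sT A E y v := h.mem_sO.mpr ⟨huv, by rw [Sym2.eq_swap]; exact huy⟩
          obtain ⟨Z, hZ, hFZ⟩ := hF
          have h1 := hZ.2.2 t htU u huU (by exact_mod_cast htu)
          rw [eps_comm, hs.eps_OT hZ huO htT] at h1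
          exact (mul_ne_zero (hγcov u huO (hN12 huN)) hFZ) h1
        · rintro rfl
          exact stmtADJ k V A E hce y u hv (by rw [Sym2.eq_swap]; exact huy) hu5
      · intro Z hZ
        rw [← heq] at hZ
        exact le_RG_of_Kf (hgp.mono (by exact_mod_cast Finset.erase_subset t U)) hNs (by omega)
          ((Kf_mono (Finset.subset_insert t N)).trans c3) hZ
    have hu1 : u ∉ N₁ := hnot N₁ (by rw [hJ]; simp)
    have hu2 : u ∉ N₂ := hnot N₂ (by rw [hJ]; simp)
    have hu3 : u ∉ N₁ ∪ N₂ := by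
      rw [Finset.mem_union, not_or]
      exact ⟨hu1, hu2⟩
    exact Finset.mem_sdiff.mpr ⟨hun (Finset.mem_sdiff.mpr ⟨huD, hu3⟩), hu3⟩
  refine (Finset.card_le_card hsub).trans ((Finset.card_insert_le _ _).trans ?_)
  have h1 := Finset.card_inter_add_card_sdiff (sT A E i v) (N₁ ∪ N₂)
  rw [h.cardO] at h1
  omega

end GR
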