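import Pool.Agent.Lib.GR.Six2

/-!
# Two degree six neighbours `i`, `j` of a pure type A vertex `v`

`J` : motions of `G - v - i - j` at `p`, `T'` : the three other neighbours of `v`, `O = N(i) - v`,
`O' = N(j) - v`.  `Ext p O' q Z z` : `j` can be attached to `Z` at `q`, and moves by `z`.
`JAt` : the pattern (2a) of `i` in `G - v - i` when `j` is at `q`, in terms of `J`.
-/

set_option linter.unusedSectionVars false

namespace GR

open Filter Module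

open scoped Matrix

variable {k : Type*} [Field k] {V : Type*} [DecidableEq V]

/-- a new vertex with neighbours `N` can be attached at `q` and moves by `z` -/
def Ext (p : V → Vec k) (N : Finset V) (q : Vec k) (Z : V → Vec k) (z : Vec k) : Prop :=
  z ⬝ᵥ q = 0 ∧ ∀ v ∈ N, z ⬝ᵥ p v + Z v ⬝ᵥ q = 0

lemma mem_Att_iff_Ext {p : V → Vec k} {N : Finset V} {q : Vec k} {Z : V → Vec k} :
    Z ∈ Att p (N : Set V) q ↔ ∃ z, Ext p N q Z z := by
  rw [mem_Att]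
  constructor
  · rintro ⟨z, h1, h2⟩
    exact ⟨z, h1, fun v hv => h2 v (by exact_mod_cast hv)⟩
  · rintro ⟨z, h1, h2⟩
    exact ⟨z, h1, fun v hv => h2 v (by exact_mod_cast hv)⟩

/-- Pattern (2a) for `i`, when `j` is at `q`, expressed on the motions `J` of `G - v - i - j`. -/
structure JAt (p : V → Vec k) (J : Submodule k (V → Vec k)) (T' O Nj : Finset V) (y0 : Vec k)
    (ν : V → k) (q : Vec k) (γ : V → k) : Prop where
  str : ∀ Z ∈ J, ∀ z, Ext p Nj q Z z → ∀ B : Vec k →ₗ[k] Vec k, (∀ t ∈ T', B (p t) = Z t) →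
    B q = z → ∀ x ∈ O, ∀ y, Z x ⬝ᵥ y + B y ⬝ᵥ p x = γ x * (Ff O ν Z ⬝ᵥ y)
  ext : ∀ (Z : V → Vec k) (z : Vec k), ∃ B : Vec k →ₗ[k] Vec k, (∀ t ∈ T', B (p t) = Z t) ∧ B q = z
  uniq : ∀ B : Vec k →ₗ[k] Vec k, (∀ t ∈ T', B (p t) = 0) → B q = 0 → B = 0
  ker7 : ∀ K ≤ J ⊓ Att p (Nj : Set V) q, (∀ Z ∈ K, Ff O ν Z = 0) → finrank k K ≤ 7
  rig6 : ∀ K ≤ J ⊓ Att p (Nj : Set V) q, (∀ Z ∈ K, ∃ B : Vec k →ₗ[k] Vec k, IsSkew B ∧
    (∀ t ∈ T', B (p t) = Z t) ∧ Ext p Nj q Z (B q)) → (∀ Z ∈ K, Ff O ν Z ⬝ᵥ y0 = 0) →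
    finrank k K ≤ 6
  dim : 10 ≤ finrank k (J ⊓ Att p (Nj : Set V) q : Submodule k (V → Vec k))

section Const

variable {p : V → Vec k} {J : Submodule k (V → Vec k)} {T' O Nj : Finset V} {y0 : Vec k}
  {ν : V → k}

/-- `B' - B` vanishes on `T'`, so it is `y ↦ (τ · y) ξ`. -/
lemma exists_rank_one {τ : Vec k} (hτ : τ ≠ 0)
    (hT : ∀ B : Vec k →ₗ[k] Vec k, (∀ t ∈ T', B (p t) = 0) → ∀ y, τ ⬝ᵥ y = 0 → B y = 0)
    (B : Vec k →ₗ[k] Vec k) (hB : ∀ t ∈ T', B (p t) = 0) : ∃ ξ : Vec k, ∀ y, B y = (τ ⬝ᵥ y) • ξ := by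
  obtain ⟨e, he⟩ : ∃ e : Vec k, τ ⬝ᵥ e = 1 := by
    obtain ⟨i, hi⟩ := Function.ne_iff.mp hτ
    refine ⟨(τ i)⁻¹ • Pi.single i 1, ?_⟩
    rw [dotProduct_smul, dotProduct_single, mul_one, smul_eq_mul]
    exact inv_mul_cancel₀ hi
  refine ⟨B e, fun y => ?_⟩
  have h1 := hT B hB (y - (τ ⬝ᵥ y) • e) (by rw [dotProduct_sub, dotProduct_smul, he, smul_eq_mul,
    mul_one, sub_self])
  rw [map_sub, map_smul, sub_eq_zero] at h1
  exact h1

/-- general position data used below -/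
structure JGen (p : V → Vec k) (T' O : Finset V) (τ : Vec k) : Prop where
  ne : τ ≠ 0
  tau : ∀ B : Vec k →ₗ[k] Vec k, (∀ t ∈ T', B (p t) = 0) → ∀ y, τ ⬝ᵥ y = 0 → B y = 0
  spanO : ∀ g : Vec k, (∀ x ∈ O, g ⬝ᵥ p x = 0) → g = 0

lemma JGen.exists_one {τ : Vec k} (hg : JGen p T' O τ) : ∃ e : Vec k, τ ⬝ᵥ e = 1 := by
  obtain ⟨i, hi⟩ := Function.ne_iff.mp hg.ne
  refine ⟨(τ i)⁻¹ • Pi.single i 1, ?_⟩
  rw [dotProduct_smul, dotProduct_single, mul_one, smul_eq_mul]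
  exact inv_mul_cancel₀ hi

lemma JAt.compare {q q' : Vec k} {γ γ' : V → k} {τ : Vec k} (hg : JGen p T' O τ)
    (h : JAt p J T' O Nj y0 ν q γ) (h' : JAt p J T' O Nj y0 ν q' γ')
    {Z : V → Vec k} (hZ : Z ∈ J) {z z' : Vec k} (hz : Ext p Nj q Z z) (hz' : Ext p Nj q' Z z')
    {B B' : Vec k →ₗ[k] Vec k} (hB : ∀ t ∈ T', B (p t) = Z t) (hBq : B q = z)
    (hB' : ∀ t ∈ T', B' (p t) = Z t) (hBq' : B' q' = z') :
    ∃ ξ : Vec k, (∀ y, B' y - B y = (τ ⬝ᵥ y) • ξ) ∧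
      ∀ x ∈ O, ∀ y, (τ ⬝ᵥ y) * (ξ ⬝ᵥ p x) = (γ' x - γ x) * (Ff O ν Z ⬝ᵥ y) := by
  obtain ⟨ξ, hξ⟩ := exists_rank_one hg.ne hg.tau (B' - B) (fun t ht => by
    rw [LinearMap.sub_apply, hB t ht, hB' t ht, sub_self])
  have hξ' : ∀ y, B' y - B y = (τ ⬝ᵥ y) • ξ := fun y => by rw [← hξ y, LinearMap.sub_apply]
  refine ⟨ξ, hξ', fun x hx y => ?_⟩
  have h1 := h.str Z hZ z hz B hB hBq x hx y
  have h2 := h'.str Z hZ z' hz' B' hB' hBq' x hx y
  have h3 := congrArg (fun g => g ⬝ᵥ p x) (hξ' y)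
  simp only [sub_dotProduct, smul_dotProduct, smul_eq_mul] at h3
  linear_combination h2 - h1 - h3

/-- the motions with `F` parallel to `τ` -/
def EqJ (J : Submodule k (V → Vec k)) (p : V → Vec k) (Nj O : Finset V) (ν : V → k) (τ q : Vec k) :
    Submodule k (V → Vec k) :=
  (J ⊓ Att p (Nj : Set V) q) ⊓ (Submodule.span k {τ}).comap (Ff O ν)

lemma finrank_EqJ_le_succ {q τ e : Vec k} [FiniteDimensional k J] (he : τ ⬝ᵥ e = 1) :
    finrank k (EqJ J p Nj O ν τ q) ≤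
      finrank k (EqJ J p Nj O ν τ q ⊓ LinearMap.ker (Ff O ν) : Submodule k (V → Vec k)) + 1 := by
  have hfin : FiniteDimensional k (EqJ J p Nj O ν τ q) :=
    Submodule.finiteDimensional_of_le (inf_le_left.trans inf_le_left)
  have h1 := finrank_le_inf_ker (EqJ J p Nj O ν τ q) (Fy O ν e)
  have h2 : EqJ J p Nj O ν τ q ⊓ LinearMap.ker (Fy O ν e)
      ≤ EqJ J p Nj O ν τ q ⊓ LinearMap.ker (Ff O ν) := by
    rintro Z ⟨hZ, hZe⟩
    refine ⟨hZ, ?_⟩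
    have h3 : Ff O ν Z ∈ Submodule.span k {τ} := hZ.2
    obtain ⟨c, hc⟩ := Submodule.mem_span_singleton.mp h3
    have h4 : Ff O ν Z ⬝ᵥ e = 0 := hZe
    rw [← hc, smul_dotProduct, he, smul_eq_mul, mul_one] at h4
    change Ff O ν Z = 0
    rw [← hc, h4, zero_smul]
  have hfin2 : FiniteDimensional k (EqJ J p Nj O ν τ q ⊓ LinearMap.ker (Ff O ν) :
    Submodule k (V → Vec k)) := Submodule.finiteDimensional_of_le inf_le_left
  have h5 := Submodule.finrank_mono h2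
  omega

/-- **`γ` does not depend on the position of `j`.** -/
theorem JAt.gamma_eq [Infinite k] [FiniteDimensional k J] {τ : Vec k} (hg : JGen p T' O τ)
    {U : Set (Vec k)} (hU : U ∈ gen k (Vec k)) {γ : Vec k → V → k}
    (h : ∀ q ∈ U, JAt p J T' O Nj y0 ν q (γ q)) (hJ : finrank k J ≤ 12)
    {q₁ q₂ : Vec k} (hq₁ : q₁ ∈ U) (hq₂ : q₂ ∈ U) {x₀ : V} (hx₀ : x₀ ∈ O) :
    γ q₁ x₀ = γ q₂ x₀ := by
  by_contra hne
  obtain ⟨e, he⟩ := hg.exists_one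
  have hfin : ∀ q, FiniteDimensional k (J ⊓ Att p (Nj : Set V) q : Submodule k (V → Vec k)) :=
    fun q => Submodule.finiteDimensional_of_le inf_le_left
  have hEfin : ∀ q, FiniteDimensional k (EqJ J p Nj O ν τ q) :=
    fun q => Submodule.finiteDimensional_of_le (inf_le_left.trans inf_le_left)
  have hE8 : ∀ q ∈ U, finrank k (EqJ J p Nj O ν τ q) ≤ 8 := by
    intro q hq
    have h1 := finrank_EqJ_le_succ (J := J) (p := p) (Nj := Nj) (O := O) (ν := ν) (q := q) he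
    have h2 := (h q hq).ker7 (EqJ J p Nj O ν τ q ⊓ LinearMap.ker (Ff O ν))
      (inf_le_left.trans inf_le_left) (fun Z hZ => hZ.2)
    omega
  -- intersections
  have hint : ∀ q ∈ U, ∀ q' ∈ U, γ q' x₀ ≠ γ q x₀ →
      (J ⊓ Att p (Nj : Set V) q) ⊓ (J ⊓ Att p (Nj : Set V) q') ≤ EqJ J p Nj O ν τ q := by
    rintro q hq q' hq' hγ Z ⟨hZ, hZ'⟩
    refine ⟨hZ, ?_⟩
    obtain ⟨z, hz⟩ := mem_Att_iff_Ext.mp hZ.2
    obtain ⟨z', hz'⟩ := mem_Att_iff_Ext.mp hZ'.2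
    obtain ⟨B, hB, hBq⟩ := (h q hq).ext Z z
    obtain ⟨B', hB', hBq'⟩ := (h q' hq').ext Z z'
    obtain ⟨ξ, -, h2⟩ := JAt.compare hg (h q hq) (h q' hq') hZ.1 hz hz' hB hBq hB' hBq'
    refine Submodule.mem_span_singleton.mpr ⟨(ξ ⬝ᵥ p x₀) / (γ q' x₀ - γ q x₀), ?_⟩
    have h0 : γ q' x₀ - γ q x₀ ≠ 0 := sub_ne_zero.mpr hγ
    ext i
    have h3 := h2 x₀ hx₀ (Pi.single i 1)
    rw [dotProduct_single, dotProduct_single, mul_one, mul_one] at h3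
    rw [Pi.smul_apply, smul_eq_mul, div_mul_eq_mul_div, div_eq_iff h0]
    linear_combination h3
  have hcard : ∀ q ∈ U, ∀ q' ∈ U, 8 ≤ finrank k
      ((J ⊓ Att p (Nj : Set V) q) ⊓ (J ⊓ Att p (Nj : Set V) q') : Submodule k (V → Vec k)) := by
    intro q hq q' hq'
    have h1 := Submodule.finrank_sup_add_finrank_inf_eq (J ⊓ Att p (Nj : Set V) q)
      (J ⊓ Att p (Nj : Set V) q')
    have h2 : finrank k ((J ⊓ Att p (Nj : Set V) q) ⊔ (J ⊓ Att p (Nj : Set V) q') :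
        Submodule k (V → Vec k)) ≤ finrank k J :=
      Submodule.finrank_mono (sup_le inf_le_left inf_le_left)
    have h3 := (h q hq).dim
    have h4 := (h q' hq').dim
    omega
  have heq : ∀ q ∈ U, ∀ q' ∈ U, γ q' x₀ ≠ γ q x₀ →
      EqJ J p Nj O ν τ q = (J ⊓ Att p (Nj : Set V) q) ⊓ (J ⊓ Att p (Nj : Set V) q') := by
    intro q hq q' hq' hγ
    refine (Submodule.eq_of_le_of_finrank_le (hint q hq q' hq' hγ) ?_).symm
    exact (hE8 q hq).trans (hcard q hq q' hq')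
  have hEE : ∀ q ∈ U, ∀ q' ∈ U, γ q' x₀ ≠ γ q x₀ →
      EqJ J p Nj O ν τ q = EqJ J p Nj O ν τ q' := by
    intro q hq q' hq' hγ
    rw [heq q hq q' hq' hγ, heq q' hq' q hq (Ne.symm hγ), inf_comm]
  have hall : ∀ q ∈ U, EqJ J p Nj O ν τ q = EqJ J p Nj O ν τ q₁ := by
    intro q hq
    by_cases hγ : γ q x₀ = γ q₁ x₀
    · rw [hEE q hq q₂ hq₂ (by rw [hγ]; exact Ne.symm hne), hEE q₁ hq₁ q₂ hq₂ (Ne.symm hne)]
    · exact hEE q hq q₁ hq₁ (Ne.symm hγ)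
  have hE1 : 8 ≤ finrank k (EqJ J p Nj O ν τ q₁) := by
    rw [heq q₁ hq₁ q₂ hq₂ (Ne.symm hne)]
    exact hcard q₁ hq₁ q₂ hq₂
  have hK := finrank_EqJ_le_succ (J := J) (p := p) (Nj := Nj) (O := O) (ν := ν) (q := q₁) he
  have hK6 := (h q₁ hq₁).rig6 (EqJ J p Nj O ν τ q₁ ⊓ LinearMap.ker (Ff O ν))
    (inf_le_left.trans inf_le_left) ?_ ?_
  · omega
  · rintro Z ⟨hZE, hZF⟩
    have hF : Ff O ν Z = 0 := hZF
    obtain ⟨z₁, hz₁⟩ := mem_Att_iff_Ext.mp hZE.1.2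
    obtain ⟨B, hB, hBq⟩ := (h q₁ hq₁).ext Z z₁
    refine ⟨B, ?_, hB, by rw [hBq]; exact hz₁⟩
    intro x
    have hP : PolyLine k (fun x : Vec k => B x ⬝ᵥ x) := by
      have := polyLine_bilin (k := k) (W := Vec k) (LinearMap.mk₂ k (fun x y => B x ⬝ᵥ y)
        (fun a b c => by rw [map_add, add_dotProduct]) (fun c a b => by
          rw [map_smul, smul_dotProduct]) (fun a b c => by rw [dotProduct_add])
        (fun c a b => by rw [dotProduct_smul]))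
      simpa using this
    refine hP.eq_zero_of_eventually ?_ x
    filter_upwards [hU] with q hq
    have hZq : Z ∈ EqJ J p Nj O ν τ q := by rw [hall q hq]; exact hZE
    obtain ⟨z, hz⟩ := mem_Att_iff_Ext.mp hZq.1.2
    obtain ⟨B', hB', hBq'⟩ := (h q hq).ext Z z
    obtain ⟨ξ, h1, h2⟩ := JAt.compare hg (h q₁ hq₁) (h q hq) hZE.1.1 hz₁ hz hB hBq hB' hBq'
    have hξ : ξ = 0 := by
      refine hg.spanO ξ fun x hx => ?_
      have h3 := h2 x hx e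
      rw [hF, zero_dotProduct, mul_zero, he, one_mul] at h3
      exact h3
    have h4 := h1 q
    rw [hξ, smul_zero, sub_eq_zero] at h4
    rw [← h4, hBq']
    exact hz.1
  · rintro Z ⟨-, hZF⟩
    have hF : Ff O ν Z = 0 := hZF
    rw [hF, zero_dotProduct]

end Const

end GR
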