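import Pool.Agent.Lib.GR.NH7
import Pool.Agent.Lib.GR.B2Asm

/-!
# (B2) is proved
-/

set_option linter.unusedSectionVars false

namespace GR

/-- **(B2)** the body vertices of a vertex of type B have degree at least seven. -/
theorem stmtB2 (k : Type*) [Field k] [Infinite k] (V : Type*) [DecidableEq V] : StmtB2 k V :=
  stmtB2_of_frame fun _ _ _ _ _ _ _ _ h hB hab hac hbc hde hN =>
    h.seven_le_of_frame hB hab hac hbc hde hN

/-- **(B3)** from the local statement alone. -/
theorem stmtB3_of_loc {k : Type*} [Field k] [Infinite k] {V : Type*} [DecidableEq V]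
    (hloc : ∀ (A : Finset V) (E : Finset (Sym2 V)) (u a b c d e : V) (v : Fin 3 → V),
      E4.B3Hyp k A E u a b c d e v → False) : StmtB3 k V :=
  stmtB3_of (stmtB2 k V) hloc

end GR
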