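import Pool.Agent.Lib.GR.Triv
import Pool.Agent.Lib.GR.Flat

/-!
# Dimension of the stress space, equilibrium at a vertex, handshake lemma, minimal supports
-/

set_option linter.unusedSectionVars false

namespace GR

open Filter Module

open scoped Matrix

variable {k : Type*} [Field k] {V : Type*} [DecidableEq V]

/-- the map `ω ↦ ∑ ω_e ε_e` on functions on `E` -/
noncomputable def stressMap (E : Finset (Sym2 V)) (p : V → Vec k) :
    (E → k) →ₗ[k] Dual k (Mot0 p) where
  toFun ω := ∑ e : E, ω e • (epsS p (e : Sym2 V)).domRestrict (Mot0 p)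
  map_add' ω ω' := by simp only [Pi.add_apply, add_smul, Finset.sum_add_distrib]
  map_smul' c ω := by simp only [Pi.smul_apply, smul_eq_mul, mul_smul, ← Finset.smul_sum,
    RingHom.id_apply]

lemma range_stressMap (E : Finset (Sym2 V)) (p : V → Vec k) :
    LinearMap.range (stressMap E p) = strainSpan (Mot0 p) (E : Set (Sym2 V)) p := by
  apply le_antisymm
  · rintro _ ⟨ω, rfl⟩
    refine Submodule.sum_mem _ fun e _ => Submodule.smul_mem _ _ ?_
    exact Submodule.subset_span ⟨e, e.2, rfl⟩
  · refine Submodule.span_le.mpr ?_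
    rintro _ ⟨e, he, rfl⟩
    classical
    refine ⟨Pi.single ⟨e, he⟩ 1, ?_⟩
    simp only [stressMap, LinearMap.coe_mk, AddHom.coe_mk]
    rw [Finset.sum_eq_single (⟨e, he⟩ : E)]
    · simp
    · intro b _ hb
      rw [Pi.single_eq_of_ne hb, zero_smul]
    · intro h
      exact absurd (Finset.mem_univ _) h

/-- restriction of a stress to the edges -/
noncomputable def stressEquiv (E : Finset (Sym2 V)) (p : V → Vec k) :
    Stress E p ≃ₗ[k] LinearMap.ker (stressMap E p) := by
  classical
  have hker : ∀ ω : Stress E p, (fun e : E => ω.1 e) ∈ LinearMap.ker (stressMap E p) := by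
    intro ω
    rw [LinearMap.mem_ker]
    ext Z
    simp only [stressMap, LinearMap.coe_mk, AddHom.coe_mk, LinearMap.zero_apply]
    rw [LinearMap.sum_apply]
    have := ω.2.2 Z.1 Z.2
    rw [← Finset.sum_coe_sort] at this
    exact this
  let f : Stress E p →ₗ[k] LinearMap.ker (stressMap E p) :=
    { toFun := fun ω => ⟨fun e => ω.1 e, hker ω⟩
      map_add' := fun _ _ => rfl
      map_smul' := fun _ _ => rfl }
  refine LinearEquiv.ofBijective f ⟨?_, ?_⟩
  · intro ω ω' h
    ext e
    by_cases he : e ∈ E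
    · exact congrFun (congrArg Subtype.val h) ⟨e, he⟩
    · rw [ω.2.1 e he, ω'.2.1 e he]
  · rintro ⟨ω, hω⟩
    refine ⟨⟨fun e => if h : e ∈ E then ω ⟨e, h⟩ else 0, ?_, ?_⟩, ?_⟩
    · intro e he
      simp [he]
    · intro Z hZ
      rw [← Finset.sum_coe_sort]
      rw [LinearMap.mem_ker] at hω
      have := congrArg (fun φ => φ ⟨Z, hZ⟩) hω
      simp only [stressMap, LinearMap.coe_mk, AddHom.coe_mk, LinearMap.zero_apply] at this
      rw [LinearMap.sum_apply] at this
      rw [← this]
      refine Finset.sum_congr rfl fun e _ => ?_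
      simp
    · apply Subtype.ext
      ext e
      show (if h : (e : Sym2 V) ∈ E then ω ⟨e, h⟩ else 0) = ω e
      rw [dif_pos e.2]

/-- **Rank-nullity for stresses.** -/
theorem finrank_Stress_add_rk (E : Finset (Sym2 V)) (p : V → Vec k) :
    finrank k (Stress E p) + rk (E : Set (Sym2 V)) p = E.card := by
  have h1 := LinearMap.finrank_range_add_finrank_ker (stressMap E p)
  rw [range_stressMap, ← LinearEquiv.finrank_eq (stressEquiv E p)] at h1
  simp only [Module.finrank_fintype_fun_eq_card, Fintype.card_coe] at h1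
  unfold rk
  omega

/-- Stresses and motions. -/
theorem finrank_Stress_eq {A : Finset V} {E : Finset (Sym2 V)} (hE : ∀ e ∈ E, ∀ v ∈ e, v ∈ A)
    {p : V → Vec k} (hp : ∀ v ∈ A, p v ≠ 0) :
    finrank k (Stress E p) + 3 * A.card = E.card + mdim A (E : Set (Sym2 V)) p := by
  classical
  have h1 := mdim_add_rk (A := A) (E := (E : Set (Sym2 V))) (fun e he => hE e (by simpa using he)) hp
  have h2 := finrank_Stress_add_rk E p
  omega

/-- A stress of a graph which vanishes off a subgraph is a stress of the subgraph. -/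
lemma mem_Stress_of_support {E E' : Finset (Sym2 V)} {p : V → Vec k} {ω : Sym2 V → k}
    (hω : ω ∈ Stress E' p) (h : ∀ e, e ∉ E → ω e = 0) : ω ∈ Stress E p := by
  let _ := Classical.decEq (Sym2 V)
  refine ⟨h, fun Z hZ => ?_⟩
  have h2 := hω.2 Z hZ
  have e1 : ∑ e ∈ E, ω e * epsS p e Z = ∑ e ∈ E ∩ E', ω e * epsS p e Z := by
    symm
    refine Finset.sum_subset Finset.inter_subset_left fun e he he' => ?_
    have : e ∉ E' := fun hc => he' (Finset.mem_inter.mpr ⟨he, hc⟩)
    rw [hω.1 e this, zero_mul]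
  have e2 : ∑ e ∈ E', ω e * epsS p e Z = ∑ e ∈ E ∩ E', ω e * epsS p e Z := by
    symm
    refine Finset.sum_subset Finset.inter_subset_right fun e he he' => ?_
    have : e ∉ E := fun hc => he' (Finset.mem_inter.mpr ⟨hc, he⟩)
    rw [h e this, zero_mul]
  rw [e1, ← e2, h2]

section Equilibrium

/-- **Equilibrium** at a vertex: `∑ ω_vw p_w` is orthogonal to `p_v^⊥`. -/
theorem equilibrium {E : Finset (Sym2 V)} {p : V → Vec k} {ω : Sym2 V → k}
    (hω : ω ∈ Stress E p) (hdiag : ∀ e ∈ E, ¬ e.IsDiag) {v : V} {N : Finset V}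
    (hvN : v ∉ N) (hN : ∀ w, w ∉ N → w ≠ v → ω s(v, w) = 0) {z : Vec k} (hz : z ⬝ᵥ p v = 0) :
    ∑ w ∈ N, ω s(v, w) * (z ⬝ᵥ p w) = 0 := by
  have hZ : (Pi.single v z : V → Vec k) ∈ Mot0 p := by
    intro w
    by_cases hw : w = v
    · subst hw; simpa using hz
    · simp [hw]
  have h := hω.2 _ hZ
  rw [← h]
  -- both sides are sums over the star
  have e1 : ∑ e ∈ E, ω e * epsS p e (Pi.single v z)
      = ∑ e ∈ N.image (fun w => s(v, w)), ω e * epsS p e (Pi.single v z) := by
    have h0 : ∀ e, ω e * epsS p e (Pi.single v z) ≠ 0 → e ∈ E ∧ e ∈ N.image (fun w => s(v, w)) := by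
      intro e he
      have hωe : ω e ≠ 0 := left_ne_zero_of_mul he
      have heE : e ∈ E := by
        by_contra hc
        exact hωe (hω.1 e hc)
      refine ⟨heE, ?_⟩
      have hve : v ∈ e := by
        by_contra hc
        apply right_ne_zero_of_mul he
        induction e using Sym2.ind with
        | _ a b =>
          rw [Sym2.mem_iff, not_or] at hc
          rw [epsS_mk, eps_apply, Pi.single_eq_of_ne (Ne.symm hc.1),
            Pi.single_eq_of_ne (Ne.symm hc.2)]
          simp
      obtain ⟨w, rfl⟩ := hve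
      have hwv : w ≠ v := by
        intro hc
        exact hdiag _ heE (by simp [hc])
      rw [Finset.mem_image]
      refine ⟨w, ?_, rfl⟩
      by_contra hc
      exact hωe (hN w hc hwv)
    calc ∑ e ∈ E, ω e * epsS p e (Pi.single v z)
        = ∑ e ∈ E ∩ N.image (fun w => s(v, w)), ω e * epsS p e (Pi.single v z) := by
          symm
          refine Finset.sum_subset Finset.inter_subset_left fun e he he' => ?_
          by_contra hc
          exact he' (Finset.mem_inter.mpr (h0 e hc))
      _ = _ := by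
          refine Finset.sum_subset Finset.inter_subset_right fun e he he' => ?_
          by_contra hc
          exact he' (Finset.mem_inter.mpr (h0 e hc))
  rw [e1, Finset.sum_image]
  · refine Finset.sum_congr rfl fun w hw => ?_
    have hwv : w ≠ v := fun hc => hvN (hc ▸ hw)
    rw [epsS_mk, eps_apply, Pi.single_eq_same, Pi.single_eq_of_ne hwv]
    simp
  · intro a ha b hb hab
    rcases Sym2.eq_iff.mp hab with ⟨-, h1⟩ | ⟨h1, h2⟩
    · exact h1
    · rw [h2, ← h1]

/-- A stress which is nonzero at `v` has at least four nonzero edges at `v`. -/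
theorem four_le_support {E : Finset (Sym2 V)} {p : V → Vec k} {ω : Sym2 V → k}
    (hω : ω ∈ Stress E p) (hdiag : ∀ e ∈ E, ¬ e.IsDiag) {v : V} {N : Finset V}
    (hvN : v ∉ N) (hN : ∀ w, w ∉ N → w ≠ v → ω s(v, w) = 0)
    (hgp : GenPos p (insert v (N : Set V))) (hne : ∃ w ∈ N, ω s(v, w) ≠ 0) : 4 ≤ N.card := by
  by_contra hcon
  have hc : N.card ≤ 3 := by omega
  have hli := GenPos.option hvN hgp hc
  obtain ⟨w, hw, hw0⟩ := hne
  obtain ⟨z, hz⟩ := exists_dot_eq hli (fun o => if o = some ⟨w, hw⟩ then 1 else 0)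
  have h1 : z ⬝ᵥ p v = 0 := by simpa using hz none
  have h2 := equilibrium hω hdiag hvN hN h1
  rw [Finset.sum_eq_single w] at h2
  · have h3 : z ⬝ᵥ p w = 1 := by simpa using hz (some ⟨w, hw⟩)
    rw [h3, mul_one] at h2
    exact hw0 h2
  · intro b hb hbw
    have h3 : z ⬝ᵥ p b = 0 := by
      have := hz (some ⟨b, hb⟩)
      simpa [hbw] using this
    rw [h3, mul_zero]
  · intro hc
    exact absurd hw hc

end Equilibrium

section Handshake

/-- degree of a vertex in a finite set of pairs -/
def edeg (E : Finset (Sym2 V)) (v : V) : ℕ := (E.filter (v ∈ ·)).card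

/-- **Handshake lemma.** -/
theorem sum_edeg {A : Finset V} {E : Finset (Sym2 V)} (hE : ∀ e ∈ E, ∀ v ∈ e, v ∈ A)
    (hdiag : ∀ e ∈ E, ¬ e.IsDiag) : ∑ v ∈ A, edeg E v = 2 * E.card := by
  have h1 : ∀ v, edeg E v = ∑ e ∈ E, if v ∈ e then 1 else 0 := by
    intro v
    rw [edeg, Finset.card_filter]
  simp only [h1]
  rw [Finset.sum_comm]
  have h2 : ∀ e ∈ E, (∑ v ∈ A, if v ∈ e then 1 else 0) = 2 := by
    intro e he
    rw [← Finset.card_filter]
    have h3 := hE e he
    have h4 := hdiag e he
    induction e using Sym2.ind with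
    | _ a b =>
      have hab : a ≠ b := by simpa using h4
      have : A.filter (· ∈ s(a, b)) = {a, b} := by
        ext w
        simp only [Finset.mem_filter, Sym2.mem_iff, Finset.mem_insert, Finset.mem_singleton]
        constructor
        · exact fun h => h.2
        · intro h
          refine ⟨?_, h⟩
          rcases h with rfl | rfl
          · exact h3 _ (by simp)
          · exact h3 _ (by simp)
      rw [this, Finset.card_pair hab]
  rw [Finset.sum_congr rfl h2, Finset.sum_const, smul_eq_mul, mul_comm]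

/-- A sparse graph has a vertex of degree at most five. -/
theorem exists_edeg_le_five {A : Finset V} {E : Finset (Sym2 V)} (hE : ∀ e ∈ E, ∀ v ∈ e, v ∈ A)
    (hdiag : ∀ e ∈ E, ¬ e.IsDiag) (hc : E.card < 3 * A.card) :
    ∃ v ∈ A, edeg E v ≤ 5 := by
  by_contra hcon
  push Not at hcon
  have h1 := sum_edeg hE hdiag
  have h2 : ∑ v ∈ A, 6 ≤ ∑ v ∈ A, edeg E v := Finset.sum_le_sum fun v hv => hcon v hv
  rw [Finset.sum_const, smul_eq_mul, h1] at h2
  omega

end Handshake

section MinSupport

open Classical in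
/-- support of a function on pairs inside `E` -/
noncomputable def suppIn (E : Finset (Sym2 V)) (ω : Sym2 V → k) : Finset (Sym2 V) :=
  E.filter fun e => ω e ≠ 0

lemma mem_suppIn {E : Finset (Sym2 V)} {ω : Sym2 V → k} {e : Sym2 V} :
    e ∈ suppIn E ω ↔ e ∈ E ∧ ω e ≠ 0 := by
  classical
  unfold suppIn
  rw [Finset.mem_filter]

/-- **Circuits outside a subspace**: if `S ≤ Stress D` is not everything, then there is a stress
`ω ∉ S` such that every stress supported on the support of `ω` is a multiple of `ω`. -/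
theorem exists_circuit {D : Finset (Sym2 V)} {p : V → Vec k} (S : Submodule k (Sym2 V → k))
    (hne : ¬ Stress D p ≤ S) : ∃ ω ∈ Stress D p, ω ∉ S ∧
      ∀ ω' ∈ Stress (suppIn D ω) p, ∃ c : k, ω' = c • ω := by
  classical
  -- minimal support
  have hex : ∃ n : ℕ, ∃ ω ∈ Stress D p, ω ∉ S ∧ (suppIn D ω).card = n := by
    rw [SetLike.not_le_iff_exists] at hne
    obtain ⟨ω, h1, h2⟩ := hne
    exact ⟨_, ω, h1, h2, rfl⟩
  obtain ⟨ω, hω, hωS, hcard⟩ := Nat.find_spec hex
  have hmin : ∀ ω' ∈ Stress D p, (suppIn D ω').card < (suppIn D ω).card → ω' ∈ S := by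
    intro ω' h1 h2
    by_contra hc
    exact Nat.find_min hex (hcard ▸ h2) ⟨ω', h1, hc, rfl⟩
  refine ⟨ω, hω, hωS, ?_⟩
  have hsub : suppIn D ω ⊆ D := Finset.filter_subset _ _
  -- a stress supported on a proper subset of the support is in `S`, in fact zero
  have hlt : ∀ ω' : Sym2 V → k, ω' ∈ Stress (suppIn D ω) p → (∃ e ∈ suppIn D ω, ω' e = 0) →
      ω' ∈ S := by
    intro ω' h1 ⟨e, he, he0⟩
    refine hmin ω' (Stress_mono hsub p h1) ?_
    refine Finset.card_lt_card ⟨fun f hf => ?_, fun hc => ?_⟩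
    · rw [mem_suppIn] at hf
      by_contra hc
      exact hf.2 (h1.1 f hc)
    · have := hc he
      rw [mem_suppIn] at this
      exact this.2 he0
  have hωsupp : ω ∈ Stress (suppIn D ω) p := by
    refine mem_Stress_of_support hω fun e he => ?_
    by_contra hc
    apply he
    rw [mem_suppIn]
    refine ⟨?_, hc⟩
    by_contra hcD
    exact hc (hω.1 e hcD)
  have hzero : ∀ ω' : Sym2 V → k, ω' ∈ Stress (suppIn D ω) p → (∃ e ∈ suppIn D ω, ω' e = 0) →
      ω' = 0 := by
    intro ω' h1 h2
    by_contra hne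
    have : ∃ f, ω' f ≠ 0 := by
      by_contra hc
      push Not at hc
      exact hne (funext hc)
    obtain ⟨f, hf⟩ := this
    have hfs : f ∈ suppIn D ω := by
      by_contra hc
      exact hf (h1.1 f hc)
    -- ω - c ω' kills f
    have h3 : ω - (ω f / ω' f) • ω' ∈ S := by
      refine hlt _ (Submodule.sub_mem _ hωsupp (Submodule.smul_mem _ _ h1)) ⟨f, hfs, ?_⟩
      simp only [Pi.sub_apply, Pi.smul_apply, smul_eq_mul]
      field_simp
      ring
    have h4 := hlt ω' h1 h2
    apply hωS
    have : ω = (ω - (ω f / ω' f) • ω') + (ω f / ω' f) • ω' := by abel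
    rw [this]
    exact Submodule.add_mem _ h3 (Submodule.smul_mem _ _ h4)
  intro ω' hω'
  have hωne : ω ≠ 0 := fun hc => hωS (hc ▸ Submodule.zero_mem _)
  have : ∃ f, ω f ≠ 0 := by
    by_contra hc
    push Not at hc
    exact hωne (funext hc)
  obtain ⟨f, hf⟩ := this
  have hfs : f ∈ suppIn D ω := by
    rw [mem_suppIn]
    refine ⟨?_, hf⟩
    by_contra hcD
    exact hf (hω.1 f hcD)
  refine ⟨ω' f / ω f, ?_⟩
  have h5 := hzero (ω' - (ω' f / ω f) • ω)
    (Submodule.sub_mem _ hω' (Submodule.smul_mem _ _ hωsupp)) ⟨f, hfs, by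
      simp only [Pi.sub_apply, Pi.smul_apply, smul_eq_mul]
      field_simp
      ring⟩
  exact sub_eq_zero.mp h5

end MinSupport

end GR
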