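import Pool.Agent.Lib.GR.StB2
import Pool.Agent.Lib.GR.E4Fin
import Pool.Agent.Lib.GR.Six9
import Pool.Agent.Lib.GR.Adj

/-!
# All flats are good, from (M1) and the classification for degree six
-/

set_option linter.unusedSectionVars false

namespace GR

open Filter Module

variable (k : Type*) [Field k] [Infinite k] (V : Type*) [DecidableEq V]

/-- (B3) -/
theorem stmtB3 : StmtB3 k V :=
  stmtB3_of_loc fun _ _ _ _ _ _ _ _ _ h => h.contra

/-- Everything, from (M1) and the list for degree six. -/
theorem allGood_top (h2 : (2 : k) ≠ 0) (hM1 : StmtM1 k V) (hsix : StmtSix k V) :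
    ∀ A : Finset V, AllGood k A :=
  allGood_of_local h2 (stmtADJ k V) hM1 (stmtA1_of_six hsix) (stmtA2_of_six hsix) (stmtB2 k V)
    (stmtB3 k V)

end GR
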