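import Mathlib

/-!
# The counting argument behind U1

`J` is a finite family of finite sets (the maximal cliques through `v`, with `v` removed); the
COUNT inequality says `∑ (2 |N| - 3) + 4 ≤ 2 |⋃ N|`; each `N` contains a set `U N` with at least
four elements.  Then at least six points are covered exactly once by the `U N`.
-/

set_option linter.unusedSectionVars false

namespace GR

open Finset

variable {V : Type*} [DecidableEq V]

theorem six_le_of_count {J : Finset (Finset V)} (U : Finset V → Finset V)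
    (hU : ∀ N ∈ J, U N ⊆ N) (hU4 : ∀ N ∈ J, 4 ≤ (U N).card)
    (hcount : ∑ N ∈ J, (2 * (N.card : ℤ) - 3) + 4 ≤ 2 * ((J.biUnion id).card : ℤ))
    (h2 : 2 ≤ J.card) :
    6 ≤ ((J.biUnion id).filter fun w => (J.filter fun N => w ∈ U N).card = 1).card := by
  classical
  set W := J.biUnion id with hW
  have hm : ∀ w : V, (J.filter fun N => w ∈ U N).card ≤ (J.filter fun N => w ∈ N).card := by
    intro w
    refine Finset.card_le_card fun N hN => ?_
    rw [Finset.mem_filter] at hN ⊢
    exact ⟨hN.1, hU N hN.1 hN.2⟩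
  have hsumN : ∑ N ∈ J, (N.card : ℤ) = ∑ w ∈ W, ((J.filter fun N => w ∈ N).card : ℤ) := by
    have h1 : ∀ N ∈ J, (N.card : ℤ) = ∑ w ∈ W, if w ∈ N then (1 : ℤ) else 0 := by
      intro N hN
      rw [← Finset.sum_filter, Finset.sum_const, nsmul_eq_mul, mul_one]
      have : W.filter (· ∈ N) = N := by
        ext w
        rw [Finset.mem_filter, hW, Finset.mem_biUnion]
        exact ⟨fun h => h.2, fun h => ⟨⟨N, hN, h⟩, h⟩⟩
      rw [this]
    rw [Finset.sum_congr rfl h1, Finset.sum_comm]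
    refine Finset.sum_congr rfl fun w _ => ?_
    rw [← Finset.sum_filter, Finset.sum_const, nsmul_eq_mul, mul_one]
  have hsumU : ∑ N ∈ J, ((U N).card : ℤ) = ∑ w ∈ W, ((J.filter fun N => w ∈ U N).card : ℤ) := by
    have h1 : ∀ N ∈ J, ((U N).card : ℤ) = ∑ w ∈ W, if w ∈ U N then (1 : ℤ) else 0 := by
      intro N hN
      rw [← Finset.sum_filter, Finset.sum_const, nsmul_eq_mul, mul_one]
      have : W.filter (· ∈ U N) = U N := by
        ext w
        rw [Finset.mem_filter, hW, Finset.mem_biUnion]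
        exact ⟨fun h => h.2, fun h => ⟨⟨N, hN, hU N hN h⟩, h⟩⟩
      rw [this]
    rw [Finset.sum_congr rfl h1, Finset.sum_comm]
    refine Finset.sum_congr rfl fun w _ => ?_
    rw [← Finset.sum_filter, Finset.sum_const, nsmul_eq_mul, mul_one]
  have hmpos : ∀ w ∈ W, 1 ≤ (J.filter fun N => w ∈ N).card := by
    intro w hw
    rw [hW, Finset.mem_biUnion] at hw
    obtain ⟨N, hN, hwN⟩ := hw
    exact Finset.card_pos.mpr ⟨N, Finset.mem_filter.mpr ⟨hN, hwN⟩⟩
  have hpt : ∀ w ∈ W, ((J.filter fun N => w ∈ U N).card : ℤ) ≤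
      (if (J.filter fun N => w ∈ U N).card = 1 then 1 else 0)
        + (2 * ((J.filter fun N => w ∈ N).card : ℤ) - 2) := by
    intro w hw
    have h1 := hm w
    have h3 := hmpos w hw
    split_ifs with h
    · omega
    · omega
  have hO : (((W.filter fun w => (J.filter fun N => w ∈ U N).card = 1).card : ℕ) : ℤ)
      = ∑ w ∈ W, (if (J.filter fun N => w ∈ U N).card = 1 then (1 : ℤ) else 0) := by
    rw [← Finset.sum_filter, Finset.sum_const, nsmul_eq_mul, mul_one]
  have h4 : (4 : ℤ) * J.card ≤ ∑ N ∈ J, ((U N).card : ℤ) := by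
    have : ∑ N ∈ J, (4 : ℤ) ≤ ∑ N ∈ J, ((U N).card : ℤ) :=
      Finset.sum_le_sum fun N hN => by exact_mod_cast hU4 N hN
    rw [Finset.sum_const, nsmul_eq_mul] at this
    linarith
  have h5 := Finset.sum_le_sum hpt
  rw [Finset.sum_add_distrib, ← hO, ← hsumU, Finset.sum_sub_distrib, ← Finset.mul_sum, ← hsumN,
    Finset.sum_const, nsmul_eq_mul] at h5
  rw [Finset.sum_sub_distrib, ← Finset.mul_sum, Finset.sum_const, nsmul_eq_mul] at hcount
  have h6 : (2 : ℤ) ≤ J.card := by exact_mod_cast h2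
  have h7 : (6 : ℤ) ≤ ((W.filter fun w => (J.filter fun N => w ∈ U N).card = 1).card : ℕ) := by
    linarith
  exact_mod_cast h7

/-- The form used for U1: functions `a N` supported on `N` with at least four nonzero values; then
the sum of at least two of them has at least six nonzero values. -/
theorem six_le_support {k : Type*} [Field k] {J : Finset (Finset V)} (a : Finset V → V → k)
    (hsupp : ∀ N ∈ J, ∀ w, a N w ≠ 0 → w ∈ N)
    (h4 : ∀ N ∈ J, ∃ T : Finset V, 4 ≤ T.card ∧ ∀ w ∈ T, a N w ≠ 0)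
    (hcount : ∑ N ∈ J, (2 * (N.card : ℤ) - 3) + 4 ≤ 2 * ((J.biUnion id).card : ℤ))
    (h2 : 2 ≤ J.card) :
    ∃ T : Finset V, 6 ≤ T.card ∧ ∀ w ∈ T, (∑ N ∈ J, a N w) ≠ 0 := by
  classical
  have key := six_le_of_count (J := J) (fun N => N.filter fun w => a N w ≠ 0)
    (fun N _ => Finset.filter_subset _ _) (by
      intro N hN
      obtain ⟨T, hT, hT'⟩ := h4 N hN
      refine hT.trans (Finset.card_le_card fun w hw => ?_)
      exact Finset.mem_filter.mpr ⟨hsupp N hN w (hT' w hw), hT' w hw⟩) hcount h2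
  refine ⟨_, key, ?_⟩
  intro w hw
  obtain ⟨-, hw⟩ := Finset.mem_filter.mp hw
  obtain ⟨N₀, hN₀⟩ := Finset.card_eq_one.mp hw
  have hmem : N₀ ∈ J.filter fun N => w ∈ N.filter fun w => a N w ≠ 0 := by
    rw [hN₀]; exact Finset.mem_singleton_self _
  obtain ⟨hN₀J, hN₀w⟩ := Finset.mem_filter.mp hmem
  have hval : a N₀ w ≠ 0 := (Finset.mem_filter.mp hN₀w).2
  rw [Finset.sum_eq_single_of_mem N₀ hN₀J]
  · exact hval
  · intro N hN hne
    by_contra hcon
    have : N ∈ J.filter fun N => w ∈ N.filter fun w => a N w ≠ 0 :=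
      Finset.mem_filter.mpr ⟨hN, Finset.mem_filter.mpr ⟨hsupp N hN w hcon, hcon⟩⟩
    rw [hN₀, Finset.mem_singleton] at this
    exact hne this

end GR
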