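import Pool.Agent.Lib.GR.FlatIn
import Pool.Agent.Lib.GR.KStar
import Pool.Agent.Lib.GR.U1count

/-!
# U1: a stress of a good flat with at most five edges at `v` has a clique as support at `v`
-/

set_option linter.unusedSectionVars false

namespace GR

open Filter Module

open scoped Matrix

variable {k : Type*} [Field k] {V : Type*} [DecidableEq V]

/-- `insert v N` is a maximal clique of `D` (inside the vertex set `A`). -/
structure MaxCl (A : Finset V) (D : Finset (Sym2 V)) (v : V) (N : Finset V) : Prop where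
  sub : N ⊆ A.erase v
  clique : Kf (insert v N) ⊆ D
  max : ∀ w ∈ A.erase v, Kf (insert v (insert w N)) ⊆ D → w ∈ N

lemma MaxCl.notMem {A : Finset V} {D : Finset (Sym2 V)} {v : V} {N : Finset V}
    (h : MaxCl A D v N) : v ∉ N := fun hv => by
  have := h.sub hv
  simp at this

/-- Every clique through `v` is contained in a maximal one. -/
lemma exists_maxCl {A : Finset V} {D : Finset (Sym2 V)} {v : V} {N : Finset V}
    (hN : N ⊆ A.erase v) (hcl : Kf (insert v N) ⊆ D) : ∃ M, N ⊆ M ∧ MaxCl A D v M := by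
  classical
  have hfin : ((A.erase v).powerset.filter fun M => N ⊆ M ∧ Kf (insert v M) ⊆ D).Nonempty :=
    ⟨N, by simp [hN, hcl]⟩
  obtain ⟨M, hM, hmax⟩ := Finset.exists_max_image _ Finset.card hfin
  rw [Finset.mem_filter, Finset.mem_powerset] at hM
  refine ⟨M, hM.2.1, hM.1, hM.2.2, fun w hw hwcl => ?_⟩
  by_contra hwM
  have h1 := hmax (insert w M) (by
    rw [Finset.mem_filter, Finset.mem_powerset]
    exact ⟨Finset.insert_subset hw hM.1, hM.2.1.trans (Finset.subset_insert _ _), hwcl⟩)
  rw [Finset.card_insert_of_notMem hwM] at h1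
  omega

/-- Two maximal cliques through `v` with two further common vertices are equal. -/
lemma MaxCl.eq_of_two {A : Finset V} {D : Finset (Sym2 V)} {p : V → Vec k} {v : V}
    {M N : Finset V} (hD : IsFlatIn A D p) (hp : GenPos p (A : Set V)) (hv : v ∈ A)
    (hM : MaxCl A D v M) (hN : MaxCl A D v N) (h2 : 2 ≤ (M ∩ N).card) : M = N := by
  have hMA : insert v M ⊆ A := Finset.insert_subset hv (hM.sub.trans (Finset.erase_subset _ _))
  have hNA : insert v N ⊆ A := Finset.insert_subset hv (hN.sub.trans (Finset.erase_subset _ _))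
  have h3 : 3 ≤ ((insert v M) ∩ (insert v N)).card := by
    rw [← Finset.insert_inter_distrib, Finset.card_insert_of_notMem]
    · omega
    · intro h
      exact hM.notMem (Finset.mem_inter.mp h).1
  have hu := hD.merge hp hMA hNA h3 hM.clique hN.clique
  apply Finset.Subset.antisymm
  · intro w hw
    refine hN.max w (hM.sub hw) ((Kf_mono ?_).trans hu)
    intro x hx
    simp only [Finset.mem_insert, Finset.mem_union] at hx ⊢
    rcases hx with rfl | rfl | hx
    · simp
    · simp [hw]
    · simp [hx]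
  · intro w hw
    refine hM.max w (hN.sub hw) ((Kf_mono ?_).trans hu)
    intro x hx
    simp only [Finset.mem_insert, Finset.mem_union] at hx ⊢
    rcases hx with rfl | rfl | hx
    · simp
    · simp [hw]
    · simp [hx]

/-- A dependency modulo `p v` of points in general position is zero or has at least four nonzero
coefficients. -/
lemma four_le_of_dep {p : V → Vec k} {N : Finset V} {v : V} (hv : v ∉ N)
    (hp : GenPos p (insert v (N : Set V))) {a : V → k} {c : k}
    (h : ∑ w ∈ N, a w • p w = c • p v) (hne : ∃ w ∈ N, a w ≠ 0) :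
    ∃ T : Finset V, 4 ≤ T.card ∧ ∀ w ∈ T, a w ≠ 0 := by
  classical
  refine ⟨N.filter fun w => a w ≠ 0, ?_, fun w hw => (Finset.mem_filter.mp hw).2⟩
  by_contra hcon
  set T := N.filter fun w => a w ≠ 0 with hT
  have hc : T.card ≤ 3 := by omega
  have hvT : v ∉ T := fun h => hv (Finset.mem_filter.mp h).1
  have hgp : GenPos p (insert v (T : Set V)) := by
    refine hp.mono ?_
    intro x hx
    rcases hx with rfl | hx
    · exact Set.mem_insert _ _
    · exact Set.mem_insert_of_mem _ (by exact_mod_cast (Finset.mem_filter.mp hx).1)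
  have hli := GenPos.option hvT hgp hc
  have hsum : ∑ w ∈ T, a w • p w = c • p v := by
    rw [← h]
    refine Finset.sum_filter_of_ne fun w _ hw hw0 => hw (by rw [hw0, zero_smul])
  obtain ⟨w, hw, hw0⟩ := hne
  have hwT : w ∈ T := Finset.mem_filter.mpr ⟨hw, hw0⟩
  obtain ⟨z, hz⟩ := exists_dot_eq hli (fun o => if o = some ⟨w, hwT⟩ then 1 else 0)
  have h1 : z ⬝ᵥ p v = 0 := by simpa using hz none
  have h2 : z ⬝ᵥ ∑ w ∈ T, a w • p w = 0 := by
    rw [hsum, dotProduct_smul, h1, smul_zero]
  rw [dotProduct_sum, Finset.sum_eq_single w] at h2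
  · have h3 : z ⬝ᵥ p w = 1 := by simpa using hz (some ⟨w, hwT⟩)
    rw [dotProduct_smul, h3, smul_eq_mul, mul_one] at h2
    exact hw0 h2
  · intro b hb hbw
    have h3 : z ⬝ᵥ p b = 0 := by
      have := hz (some ⟨b, hb⟩)
      simpa [hbw] using this
    rw [dotProduct_smul, h3, smul_zero]
  · intro hc
    exact absurd hwT hc

open Classical in
/-- the maximal cliques of size at least five through `v` (with `v` removed) -/
noncomputable def bigCl (A : Finset V) (D : Finset (Sym2 V)) (v : V) : Finset (Finset V) :=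
  (A.erase v).powerset.filter fun N => MaxCl A D v N ∧ 4 ≤ N.card

lemma mem_bigCl {A : Finset V} {D : Finset (Sym2 V)} {v : V} {N : Finset V} :
    N ∈ bigCl A D v ↔ MaxCl A D v N ∧ 4 ≤ N.card := by
  classical
  unfold bigCl
  rw [Finset.mem_filter, Finset.mem_powerset]
  exact ⟨fun h => h.2, fun h => ⟨h.1.sub, h⟩⟩

/-- **Star part of a sum of `K₅`-stresses.** -/
theorem star_of_mem_S5 {A : Finset V} {D : Finset (Sym2 V)} {p : V → Vec k} {v : V}
    (hD : D ⊆ Kf A) {ω : Sym2 V → k} (hω : ω ∈ S5 D p) :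
    ∃ a : Finset V → V → k,
      (∀ N ∈ bigCl A D v, (∀ w, a N w ≠ 0 → w ∈ N) ∧ ∃ c : k, ∑ w ∈ N, a N w • p w = c • p v) ∧
      ∀ w, w ≠ v → ω s(v, w) = ∑ N ∈ bigCl A D v, a N w := by
  classical
  refine Submodule.iSup_induction (motive := fun ω => ∃ a : Finset V → V → k,
      (∀ N ∈ bigCl A D v, (∀ w, a N w ≠ 0 → w ∈ N) ∧ ∃ c : k, ∑ w ∈ N, a N w • p w = c • p v) ∧
      ∀ w, w ≠ v → ω s(v, w) = ∑ N ∈ bigCl A D v, a N w) _ hω ?_ ?_ ?_
  · rintro ⟨C, hC5, hCD⟩ η hη
    have hη : η ∈ Stress (Kf C) p := hη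
    by_cases hvC : v ∈ C
    · have hCA : C.erase v ⊆ A.erase v := by
        refine Finset.erase_subset_erase _ ?_
        intro w hw
        obtain ⟨w', hw', hne⟩ := Finset.exists_mem_ne (by omega : 1 < C.card) w
        have : s(w, w') ∈ Kf C := mk_mem_Kf.mpr ⟨hne.symm, hw, hw'⟩
        exact (mem_Kf.mp (hD (hCD this))).2 w (by simp)
      obtain ⟨M, hM, hMax⟩ := exists_maxCl (D := D) hCA (by rwa [Finset.insert_erase hvC])
      have hMb : M ∈ bigCl A D v := mem_bigCl.mpr ⟨hMax, by
        have := Finset.card_le_card hM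
        rw [Finset.card_erase_of_mem hvC] at this
        omega⟩
      refine ⟨fun N w => if N = M ∧ w ≠ v then η s(v, w) else 0, ?_, ?_⟩
      · intro N hN
        by_cases hNM : N = M
        · subst hNM
          refine ⟨fun w hw => ?_, ?_⟩
          · simp only [true_and] at hw
            by_cases hwv : w = v
            · simp [hwv] at hw
            · simp only [if_pos hwv] at hw
              by_contra hwN
              apply hw
              refine hη.1 _ fun hc => hwN (hM ?_)
              rw [mk_mem_Kf] at hc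
              exact Finset.mem_erase.mpr ⟨hwv, hc.2.2⟩
          · obtain ⟨c, hc⟩ := exists_sum_erase (A := A) (E := Kf C)
              (fun e he u hu => (mem_Kf.mp (hD (hCD he))).2 u hu) hη v
            refine ⟨c, ?_⟩
            rw [← hc]
            have h1 : N ⊆ A.erase v := hMax.sub
            rw [← Finset.sum_subset h1]
            · refine Finset.sum_congr rfl fun w hw => ?_
              have hwv : w ≠ v := fun h => hMax.notMem (h ▸ hw)
              simp [hwv]
            · intro w hw hwN
              have : η s(v, w) = 0 := by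
                refine hη.1 _ fun hc => hwN (hM ?_)
                rw [mk_mem_Kf] at hc
                exact Finset.mem_erase.mpr ⟨(Finset.mem_erase.mp hw).1, hc.2.2⟩
              rw [this, zero_smul]
        · refine ⟨fun w hw => ?_, 0, ?_⟩
          · simp [hNM] at hw
          · simp [hNM]
      · intro w hwv
        rw [Finset.sum_eq_single_of_mem M hMb]
        · simp [hwv]
        · intro N _ hNM
          simp [hNM]
    · refine ⟨fun _ _ => 0, ?_, ?_⟩
      · intro N _
        refine ⟨fun w hw => absurd rfl hw, 0, ?_⟩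
        simp
      · intro w hwv
        rw [Finset.sum_const_zero]
        refine hη.1 _ fun hc => hvC ?_
        rw [mk_mem_Kf] at hc
        exact hc.2.1
  · refine ⟨fun _ _ => 0, ?_, ?_⟩
    · intro N _
      refine ⟨fun w hw => absurd rfl hw, 0, ?_⟩
      simp
    · intro w hwv
      simp
  · rintro ω₁ ω₂ ⟨a₁, h1, h1'⟩ ⟨a₂, h2, h2'⟩
    refine ⟨fun N w => a₁ N w + a₂ N w, ?_, ?_⟩
    · intro N hN
      obtain ⟨c₁, hc₁⟩ := (h1 N hN).2
      obtain ⟨c₂, hc₂⟩ := (h2 N hN).2
      refine ⟨fun w hw => ?_, c₁ + c₂, ?_⟩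
      · by_cases h : a₁ N w = 0
        · by_cases h' : a₂ N w = 0
          · simp [h, h'] at hw
          · exact (h2 N hN).1 w h'
        · exact (h1 N hN).1 w h
      · rw [add_smul, ← hc₁, ← hc₂, ← Finset.sum_add_distrib]
        exact Finset.sum_congr rfl fun w _ => by rw [add_smul]
    · intro w hwv
      rw [Pi.add_apply, h1' w hwv, h2' w hwv, Finset.sum_add_distrib]

/-- The COUNT inequality at the vertex `v`. -/
def CountAt (A : Finset V) (D : Finset (Sym2 V)) (v : V) : Prop :=
  ∀ J : Finset (Finset V), J ⊆ bigCl A D v → 2 ≤ J.card →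
    ∑ N ∈ J, (2 * (N.card : ℤ) - 3) + 4 ≤ 2 * ((J.biUnion id).card : ℤ)

/-- **U1.** -/
theorem clique_of_mem_S5 {A : Finset V} {D : Finset (Sym2 V)} {p : V → Vec k} {v : V}
    (hv : v ∈ A) (hD : D ⊆ Kf A) (hp : GenPos p (A : Set V)) (hcount : CountAt A D v)
    {ω : Sym2 V → k} (hω : ω ∈ S5 D p) (h5 : (suppAt A ω v).card ≤ 5) :
    Kf (insert v (suppAt A ω v)) ⊆ D ∨ suppAt A ω v = ∅ := by
  classical
  obtain ⟨a, ha, hsum⟩ := star_of_mem_S5 (A := A) (v := v) hD hω
  set J := (bigCl A D v).filter fun N => ∃ w, a N w ≠ 0 with hJ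
  have hJsub : J ⊆ bigCl A D v := Finset.filter_subset _ _
  have hsumJ : ∀ w, w ≠ v → ω s(v, w) = ∑ N ∈ J, a N w := by
    intro w hwv
    rw [hsum w hwv]
    symm
    refine Finset.sum_filter_of_ne fun N _ hN => ⟨w, hN⟩
  by_cases h2 : 2 ≤ J.card
  · exfalso
    obtain ⟨T, hT, hT'⟩ := six_le_support (J := J) a (fun N hN w hw => (ha N (hJsub hN)).1 w hw)
      (by
        intro N hN
        obtain ⟨w, hw⟩ := (Finset.mem_filter.mp hN).2
        obtain ⟨c, hc⟩ := (ha N (hJsub hN)).2
        have hmax := (mem_bigCl.mp (hJsub hN)).1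
        refine four_le_of_dep hmax.notMem (hp.mono ?_) hc ⟨w, (ha N (hJsub hN)).1 w hw, hw⟩
        intro x hx
        rcases hx with rfl | hx
        · exact_mod_cast hv
        · exact_mod_cast Finset.mem_of_mem_erase (hmax.sub (by exact_mod_cast hx)))
      (hcount J hJsub h2) h2
    have hTs : T ⊆ suppAt A ω v := by
      intro w hw
      have hw0 := hT' w hw
      obtain ⟨N, hN, hNw⟩ := Finset.exists_ne_zero_of_sum_ne_zero hw0
      have hwN := (ha N (hJsub hN)).1 w hNw
      have hmax := (mem_bigCl.mp (hJsub hN)).1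
      have h3 := Finset.mem_erase.mp (hmax.sub hwN)
      rw [mem_suppAt]
      refine ⟨h3.1, h3.2, ?_⟩
      rw [hsumJ w h3.1]
      exact hw0
    have := Finset.card_le_card hTs
    omega
  · by_cases h0 : J = ∅
    · right
      rw [Finset.eq_empty_iff_forall_notMem]
      intro w hw
      rw [mem_suppAt] at hw
      apply hw.2.2
      rw [hsumJ w hw.1, h0, Finset.sum_empty]
    · left
      obtain ⟨N, hN⟩ := Finset.nonempty_iff_ne_empty.mpr h0
      have hJN : J = {N} := by
        refine Finset.eq_singleton_iff_unique_mem.mpr ⟨hN, fun M hM => ?_⟩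
        by_contra hne
        exact h2 (Finset.one_lt_card.mpr ⟨M, hM, N, hN, hne⟩)
      have hmax := (mem_bigCl.mp (hJsub hN)).1
      refine (Kf_mono (Finset.insert_subset_insert _ ?_)).trans hmax.clique
      intro w hw
      rw [mem_suppAt] at hw
      have h3 := hsumJ w hw.1
      rw [hJN, Finset.sum_singleton] at h3
      exact (ha N (hJsub hN)).1 w (h3 ▸ hw.2.2)

end GR
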